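import Mathlib

/-! BK2, Mertens estimates. -/

namespace Pool.Agent.Lib.BK2

open Finset

namespace MERT

theorem mertens_le (n : ℕ) (hn : 1 ≤ n) (S : Finset ℕ) (hS : ∀ l ∈ S, l.Prime ∧ l ≤ n) :
    ∑ l ∈ S, Real.log l / l ≤ Real.log n + Real.log 4 := by
  classical
  have hn' : (0 : ℝ) < n := by exact_mod_cast hn
  have h1 : ∀ m ∈ Icc 1 n, ∑ l ∈ S, (if l ∣ m then Real.log l else 0) ≤ Real.log n := by
    intro m hm
    rw [mem_Icc] at hm
    rw [← sum_filter, ← Real.log_prod (fun l hl => by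
      have := (hS l (mem_filter.1 hl).1).1.pos
      positivity)]
    have hd : ∏ l ∈ S.filter (· ∣ m), l ∣ m :=
      Finset.prod_primes_dvd m (fun l hl => (hS l (mem_filter.1 hl).1).1.prime)
        (fun l hl => (mem_filter.1 hl).2)
    have hle := Nat.le_of_dvd (by omega) hd
    have hpos : 0 < ∏ l ∈ S.filter (· ∣ m), l :=
      prod_pos (fun l hl => (hS l (mem_filter.1 hl).1).1.pos)
    rw [← Nat.cast_prod]
    apply Real.log_le_log (by exact_mod_cast hpos)
    exact_mod_cast hle.trans hm.2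
  have h2 : ∑ m ∈ Icc 1 n, ∑ l ∈ S, (if l ∣ m then Real.log l else 0) ≤ n * Real.log n := by
    refine (sum_le_sum h1).trans ?_
    simp
  rw [sum_comm] at h2
  have h3 : ∀ l ∈ S, Real.log l * (n / l - 1)
      ≤ ∑ m ∈ Icc 1 n, (if l ∣ m then Real.log l else 0) := by
    intro l hl
    have hp := (hS l hl).1
    rw [← sum_filter, sum_const, nsmul_eq_mul, mul_comm]
    have hc : ((Icc 1 n).filter (l ∣ ·)).card = n / l := by
      rw [← Nat.card_multiples n l]
      have : Icc 1 n = Ioc 0 n := rfl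
      rw [this, Nat.Ioc_filter_dvd_card_eq_div, Nat.card_multiples]
    rw [hc]
    apply mul_le_mul_of_nonneg_right _ (Real.log_nonneg (by exact_mod_cast hp.one_le))
    have hl0 : (0 : ℝ) < l := by exact_mod_cast hp.pos
    have := Nat.lt_div_mul_add (a := n) hp.pos
    have h4 : (n : ℝ) < (n / l : ℕ) * l + l := by exact_mod_cast this
    rw [sub_le_iff_le_add, div_le_iff₀ hl0]
    linarith
  have h4 := (sum_le_sum h3).trans h2
  have h5 : ∑ l ∈ S, Real.log l ≤ Real.log 4 * n := by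
    refine le_trans ?_ (Chebyshev.theta_le_log4_mul_x hn'.le)
    rw [Chebyshev.theta, Nat.floor_natCast]
    refine sum_le_sum_of_subset_of_nonneg ?_ (fun l _ _ => Real.log_natCast_nonneg l)
    intro l hl
    have := hS l hl
    simp only [mem_filter, mem_Ioc]
    exact ⟨⟨this.1.pos, this.2⟩, this.1⟩
  have h6 : ∑ l ∈ S, Real.log l * (n / l - 1)
      = n * ∑ l ∈ S, Real.log l / l - ∑ l ∈ S, Real.log l := by
    rw [mul_sum, ← sum_sub_distrib]
    refine sum_congr rfl (fun l _ => by ring)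
  rw [h6] at h4
  have : n * ∑ l ∈ S, Real.log l / l ≤ n * (Real.log n + Real.log 4) := by linarith
  exact le_of_mul_le_mul_left this hn'

theorem log_step {m : ℝ} (hm : 1 ≤ m) : 0 ≤ Real.log (m + 1) - Real.log m ∧
    Real.log (m + 1) - Real.log m ≤ 1 / m := by
  have h0 : 0 < m := by linarith
  refine ⟨sub_nonneg.2 (Real.log_le_log h0 (by linarith)), ?_⟩
  have h1 : Real.log ((m + 1) / m) ≤ (m + 1) / m - 1 :=
    Real.log_le_sub_one_of_pos (by positivity)
  rw [Real.log_div (by positivity) h0.ne'] at h1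
  refine h1.trans (le_of_eq ?_)
  field_simp
  ring

theorem log_fact (y : ℕ) : (y : ℝ) * Real.log y - y ≤ Real.log (y.factorial) := by
  induction y with
  | zero => simp
  | succ y ih =>
    rw [Nat.factorial_succ]
    push_cast
    rw [Real.log_mul (by positivity) (by positivity)]
    rcases Nat.eq_zero_or_pos y with rfl | hy
    · simp
    have hy' : (1 : ℝ) ≤ y := by exact_mod_cast hy
    have h2 := mul_le_mul_of_nonneg_left (log_step hy').2 (show (0 : ℝ) ≤ y by linarith)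
    have h3 : (y : ℝ) * (1 / y) = 1 := by field_simp
    linarith

theorem tail_sum (N : ℕ) : ∑ m ∈ Ioc 1 (N + 1), Real.log m / ((m : ℝ) * (m - 1)) ≤
    2 - (Real.log ((N : ℝ) + 1) + 2) / (N + 1) := by
  induction N with
  | zero => simp
  | succ N ih =>
    rw [sum_Ioc_succ_top (by omega)]
    push_cast
    have hN : (1 : ℝ) ≤ N + 1 := by linarith [Nat.cast_nonneg (α := ℝ) N]
    have h := (log_step hN).2
    set m : ℝ := N + 1 with hm
    have h0 : 0 < m := by linarith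
    have h1 : (m + 1) * (Real.log (m + 1) - Real.log m) ≤ 2 := by
      refine (mul_le_mul_of_nonneg_left h (by linarith)).trans ?_
      rw [mul_one_div, div_le_iff₀ h0]
      linarith
    have h2 : Real.log (m + 1) / ((m + 1) * (m + 1 - 1)) ≤
        (Real.log m + 2) / m - (Real.log (m + 1) + 2) / (m + 1) := by
      rw [add_sub_cancel_right, div_sub_div _ _ h0.ne' (by linarith), mul_comm m (m + 1)]
      refine div_le_div_of_nonneg_right ?_ (by positivity)
      nlinarith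
    linarith

theorem mertens_ge (n : ℕ) (hn : 1 ≤ n) :
    Real.log n - 3 ≤ ∑ l ∈ (Ioc 0 n).filter Nat.Prime, Real.log l / l := by
  have hn' : (0 : ℝ) < n := by exact_mod_cast hn
  have h1 := log_fact n
  rw [Real.log_nat_eq_sum_factorization n.factorial, Finsupp.sum] at h1
  have h2 : ∑ p ∈ n.factorial.factorization.support, (n.factorial.factorization p : ℝ) * Real.log p
      ≤ ∑ p ∈ (Ioc 0 n).filter Nat.Prime, n * (Real.log p / p + Real.log p / (p * (p - 1))) := by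
    refine le_trans (sum_le_sum fun p hp => ?_) (sum_le_sum_of_subset_of_nonneg
      (s := n.factorial.factorization.support) (fun p hp => ?_) fun p hp _ => ?_)
    · have hpp : p.Prime := Nat.prime_of_mem_primeFactors hp
      have h2 : (2 : ℝ) ≤ p := by exact_mod_cast hpp.two_le
      have h3 : (n.factorial.factorization p : ℝ) ≤ n / (p - 1) := by
        have h4 : (n.factorial.factorization p : ℝ) ≤ ((n / (p - 1) : ℕ) : ℝ) := by
          exact_mod_cast Nat.factorization_factorial_le_div_pred hpp n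
        refine h4.trans (Nat.cast_div_le.trans (le_of_eq ?_))
        rw [Nat.cast_sub hpp.one_le, Nat.cast_one]
      refine (mul_le_mul_of_nonneg_right h3 (Real.log_natCast_nonneg p)).trans (le_of_eq ?_)
      have : (p : ℝ) - 1 ≠ 0 := by linarith
      field_simp
      ring
    · have hpp : p.Prime := Nat.prime_of_mem_primeFactors hp
      have := (hpp.dvd_factorial).1 (Nat.dvd_of_mem_primeFactors hp)
      simp only [mem_filter, mem_Ioc]
      exact ⟨⟨hpp.pos, this⟩, hpp⟩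
    · have h2 : (2 : ℝ) ≤ p := by exact_mod_cast (mem_filter.1 hp).2.two_le
      have h3 := Real.log_natCast_nonneg p
      have : (0 : ℝ) < p - 1 := by linarith
      positivity
  rw [← mul_sum, sum_add_distrib] at h2
  obtain ⟨N, rfl⟩ : ∃ N, n = N + 1 := ⟨n - 1, by omega⟩
  have h3 : ∑ p ∈ (Ioc 0 (N + 1)).filter Nat.Prime, Real.log p / ((p : ℝ) * (p - 1)) ≤ 2 := by
    refine le_trans (sum_le_sum_of_subset_of_nonneg (fun p hp => ?_) fun p hp _ => ?_)
      ((tail_sum N).trans ?_)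
    · simp only [mem_filter, mem_Ioc] at hp ⊢
      exact ⟨hp.2.one_lt, hp.1.2⟩
    · have h2 : (1 : ℝ) < p := by exact_mod_cast (mem_Ioc.1 hp).1
      have h3 := Real.log_natCast_nonneg p
      have : (0 : ℝ) < p - 1 := by linarith
      positivity
    · have : 0 ≤ Real.log ((N : ℝ) + 1) := Real.log_nonneg (by linarith [Nat.cast_nonneg (α := ℝ) N])
      have : 0 ≤ (Real.log ((N : ℝ) + 1) + 2) / (N + 1) := by positivity
      linarith
  have h4 : ((N + 1 : ℕ) : ℝ) * (Real.log ((N + 1 : ℕ) : ℝ) - 3) ≤ ((N + 1 : ℕ) : ℝ) *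
      ∑ l ∈ (Ioc 0 (N + 1)).filter Nat.Prime, Real.log l / l := by
    have := mul_le_mul_of_nonneg_left h3 hn'.le
    linarith
  exact le_of_mul_le_mul_left h4 hn'

/-- the error term of the first Mertens estimate -/
noncomputable def R (n : ℕ) : ℝ := ∑ l ∈ (Ioc 0 n).filter Nat.Prime, Real.log l / l - Real.log n

theorem log4 : Real.log 4 ≤ 2 := by
  rw [show (4 : ℝ) = 2 ^ 2 by norm_num, Real.log_pow]
  push_cast
  linarith [Real.log_two_lt_d9]

theorem abs_R (n : ℕ) (hn : 1 ≤ n) : |R n| ≤ 3 := by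
  have h1 := mertens_ge n hn
  have h2 := mertens_le n hn ((Ioc 0 n).filter Nat.Prime) fun l hl => by
    simp only [mem_filter, mem_Ioc] at hl
    exact ⟨hl.2, hl.1.2⟩
  rw [abs_le, R]
  constructor <;> linarith [log4]

theorem abel (a : ℕ) (ha : 2 ≤ a) (b : ℕ) (hab : a ≤ b) :
    |∑ p ∈ (Ioc a b).filter Nat.Prime, (1 : ℝ) / p - (R b / Real.log b - R a / Real.log a) -
      (Real.log (Real.log b) - Real.log (Real.log a))| ≤
      4 * (1 / Real.log a - 1 / Real.log b) := by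
  induction b, hab using Nat.le_induction with
  | base => simp
  | succ b hab ih =>
    have hb : (2 : ℝ) ≤ b := by exact_mod_cast ha.trans hab
    obtain ⟨s1, s2⟩ := log_step (show (1 : ℝ) ≤ b by linarith)
    have s3 : 1 / (b : ℝ) ≤ 1 := by rw [div_le_one (by linarith)]; linarith
    have hu : 0 < Real.log b := Real.log_pos (by linarith)
    have hR := abs_le.1 (abs_R b (by omega))
    have e1 : ∑ p ∈ (Ioc a (b + 1)).filter Nat.Prime, (1 : ℝ) / p =
        ∑ p ∈ (Ioc a b).filter Nat.Prime, (1 : ℝ) / p +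
          (R (b + 1) - R b + (Real.log (b + 1) - Real.log b)) / Real.log (b + 1) := by
      rw [R, R, sum_filter, sum_filter, sum_filter, sum_filter, sum_Ioc_succ_top hab,
        sum_Ioc_succ_top (Nat.zero_le b)]
      push_cast
      have : 0 < Real.log ((b : ℝ) + 1) := by linarith
      split_ifs
      · congr 1
        field_simp
        ring
      · simp
    rw [e1]
    push_cast
    set u := Real.log b
    set v := Real.log ((b : ℝ) + 1)
    have hv : 0 < v := by linarith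
    have d0 : 0 ≤ 1 / u - 1 / v := sub_nonneg.2 (one_div_le_one_div_of_le hu (by linarith))
    have l1 : Real.log v - Real.log u ≤ (v - u) / u := by
      have := Real.log_le_sub_one_of_pos (div_pos hv hu)
      rw [Real.log_div hv.ne' hu.ne'] at this
      refine this.trans (le_of_eq ?_)
      field_simp
    have l2 : (v - u) / v ≤ Real.log v - Real.log u := by
      have := Real.log_le_sub_one_of_pos (div_pos hu hv)
      rw [Real.log_div hu.ne' hv.ne'] at this
      have e : u / v - 1 = -((v - u) / v) := by field_simp; ring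
      linarith
    have l3 : (v - u) / u - (v - u) / v ≤ 1 / u - 1 / v := by
      have e : (v - u) / u - (v - u) / v = (v - u) * (1 / u - 1 / v) := by ring
      rw [e]
      exact mul_le_of_le_one_left d0 (by linarith)
    have e2 : (R (b + 1) - R b + (v - u)) / v = R (b + 1) / v - R b / u +
        R b * (1 / u - 1 / v) + (v - u) / v := by ring
    have m1 := mul_le_mul_of_nonneg_right hR.1 d0
    have m2 := mul_le_mul_of_nonneg_right hR.2 d0
    rw [abs_le] at ih ⊢
    rw [e2]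
    constructor <;> linarith [ih.1, ih.2]

theorem floor_log {y : ℝ} (hy : 2 ≤ y) : 2 ≤ ⌊y⌋₊ ∧ Real.log y ≤ 2 * Real.log ⌊y⌋₊ ∧
    Real.log ⌊y⌋₊ ≤ Real.log y ∧ Real.log y - Real.log ⌊y⌋₊ ≤ 1 / 2 := by
  have h1 : 2 ≤ ⌊y⌋₊ := Nat.le_floor (by exact_mod_cast hy)
  have h2 : (2 : ℝ) ≤ ⌊y⌋₊ := by exact_mod_cast h1
  have h3 := Nat.lt_floor_add_one y
  have h4 := (log_step (show (1 : ℝ) ≤ ⌊y⌋₊ by linarith)).2
  have h5 : Real.log y ≤ Real.log ((⌊y⌋₊ : ℝ) + 1) := Real.log_le_log (by linarith) h3.le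
  have h6 : 1 / (⌊y⌋₊ : ℝ) ≤ 1 / 2 := one_div_le_one_div_of_le two_pos h2
  have h7 : Real.log 2 ≤ Real.log ⌊y⌋₊ := Real.log_le_log two_pos h2
  refine ⟨h1, by linarith [Real.log_two_gt_d9], Real.log_le_log (by linarith)
    (Nat.floor_le (by linarith)), by linarith⟩

theorem loglog_floor {y : ℝ} (hy : 2 ≤ y) :
    0 ≤ Real.log (Real.log y) - Real.log (Real.log ⌊y⌋₊) ∧
    Real.log (Real.log y) - Real.log (Real.log ⌊y⌋₊) ≤ 1 / Real.log y ∧
    1 / Real.log ⌊y⌋₊ ≤ 2 / Real.log y := by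
  obtain ⟨h1, h2, h3, h4⟩ := floor_log hy
  have hv : 0 < Real.log y := Real.log_pos (by linarith)
  have hu : 0 < Real.log ⌊y⌋₊ := by linarith
  have h5 : 1 / Real.log ⌊y⌋₊ ≤ 2 / Real.log y := by
    rw [div_le_div_iff₀ hu hv]
    linarith
  refine ⟨sub_nonneg.2 (Real.log_le_log hu h3), ?_, h5⟩
  have := Real.log_le_sub_one_of_pos (div_pos hv hu)
  rw [Real.log_div hv.ne' hu.ne'] at this
  have e : Real.log y / Real.log ⌊y⌋₊ - 1 =
      (Real.log y - Real.log ⌊y⌋₊) * (1 / Real.log ⌊y⌋₊) := by field_simp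
  have h6 := mul_le_mul h4 h5 (by positivity) (by norm_num)
  have e2 : 1 / 2 * (2 / Real.log y) = 1 / Real.log y := by ring
  linarith

end MERT

open MERT

/-- Mertens I. -/
theorem mert_one {x : ℝ} (hx : 1 ≤ x) :
    |∑ p ∈ (Ioc 0 ⌊x⌋₊).filter Nat.Prime, Real.log p / p - Real.log x| ≤ 4 := by
  have h1 : 1 ≤ ⌊x⌋₊ := (Nat.one_le_floor_iff _).2 hx
  have h2 : (1 : ℝ) ≤ ⌊x⌋₊ := by exact_mod_cast h1
  have h3 := abs_le.1 (abs_R _ h1)
  have h4 := (log_step h2).2
  have h5 : Real.log x ≤ Real.log ((⌊x⌋₊ : ℝ) + 1) :=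
    Real.log_le_log (by linarith) (Nat.lt_floor_add_one x).le
  have h6 : 1 / (⌊x⌋₊ : ℝ) ≤ 1 := by rw [div_le_one (by linarith)]; exact h2
  have h7 : Real.log ⌊x⌋₊ ≤ Real.log x := Real.log_le_log (by linarith) (Nat.floor_le (by linarith))
  rw [R] at h3
  rw [abs_le]
  constructor <;> linarith [h3.1, h3.2]

/-- Mertens I, upper bound for any set of primes. -/
theorem mert_one_le {x : ℝ} (hx : 1 ≤ x) (S : Finset ℕ) (hS : ∀ l ∈ S, l.Prime ∧ (l : ℝ) ≤ x) :
    ∑ l ∈ S, Real.log l / l ≤ Real.log x + 2 := by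
  have h1 : 1 ≤ ⌊x⌋₊ := (Nat.one_le_floor_iff _).2 hx
  have h2 : (1 : ℝ) ≤ ⌊x⌋₊ := by exact_mod_cast h1
  have h7 : Real.log ⌊x⌋₊ ≤ Real.log x := Real.log_le_log (by linarith) (Nat.floor_le (by linarith))
  have := mertens_le _ h1 S fun l hl => ⟨(hS l hl).1, Nat.le_floor (hS l hl).2⟩
  linarith [log4]

/-- Mertens II in a window, two-sided with error `22 / log y`. -/
theorem mert_two {y z : ℝ} (hy : 2 ≤ y) (hyz : y ≤ z) :
    |∑ p ∈ (Ioc ⌊y⌋₊ ⌊z⌋₊).filter Nat.Prime, (1 : ℝ) / p - Real.log (Real.log z / Real.log y)| ≤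
      22 / Real.log y := by
  have hz : 2 ≤ z := hy.trans hyz
  obtain ⟨a1, a2, a3, -⟩ := floor_log hy
  obtain ⟨b1, b2, b3, -⟩ := floor_log hz
  obtain ⟨c1, c2, c3⟩ := loglog_floor hy
  obtain ⟨d1, d2, d3⟩ := loglog_floor hz
  have hv : 0 < Real.log y := Real.log_pos (by linarith)
  have hw : Real.log y ≤ Real.log z := Real.log_le_log (by linarith) hyz
  have hab : ⌊y⌋₊ ≤ ⌊z⌋₊ := Nat.floor_mono hyz
  have h := abs_le.1 (abel _ a1 _ hab)
  have hu : 0 < Real.log ⌊y⌋₊ := by linarith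
  have hu' : Real.log ⌊y⌋₊ ≤ Real.log ⌊z⌋₊ :=
    Real.log_le_log (by exact_mod_cast (show 0 < ⌊y⌋₊ by omega)) (by exact_mod_cast hab)
  have i1 : 1 / Real.log ⌊z⌋₊ ≤ 1 / Real.log ⌊y⌋₊ := one_div_le_one_div_of_le hu hu'
  have i2 : 1 / Real.log z ≤ 1 / Real.log y := one_div_le_one_div_of_le hv hw
  have i3 : 0 < 1 / Real.log ⌊z⌋₊ := one_div_pos.2 (by linarith)
  have i4 : 0 < 1 / Real.log ⌊y⌋₊ := one_div_pos.2 hu
  have r1 := abs_le.1 (abs_R ⌊y⌋₊ (by omega))
  have r2 := abs_le.1 (abs_R ⌊z⌋₊ (by omega))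
  have m1 := mul_le_mul_of_nonneg_right r1.1 i4.le
  have m2 := mul_le_mul_of_nonneg_right r1.2 i4.le
  have m3 := mul_le_mul_of_nonneg_right r2.1 i3.le
  have m4 := mul_le_mul_of_nonneg_right r2.2 i3.le
  simp only [mul_one_div] at m1 m2 m3 m4
  rw [Real.log_div (by linarith) hv.ne', abs_le]
  have e1 : 22 / Real.log y = 22 * (1 / Real.log y) := by ring
  have e2 : 2 / Real.log y = 2 * (1 / Real.log y) := by ring
  have e3 : (3 : ℝ) / Real.log ⌊y⌋₊ = 3 * (1 / Real.log ⌊y⌋₊) := by ring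
  have e4 : (-3 : ℝ) / Real.log ⌊y⌋₊ = -3 * (1 / Real.log ⌊y⌋₊) := by ring
  have e5 : (3 : ℝ) / Real.log ⌊z⌋₊ = 3 * (1 / Real.log ⌊z⌋₊) := by ring
  have e6 : (-3 : ℝ) / Real.log ⌊z⌋₊ = -3 * (1 / Real.log ⌊z⌋₊) := by ring
  have i5 : 0 < 1 / Real.log y := one_div_pos.2 hv
  constructor <;> linarith [h.1, h.2]

/-- Mertens II, upper bound for any set of primes in a window. -/
theorem mert_two_le {y z : ℝ} (hy : 2 ≤ y) (hyz : y ≤ z) (S : Finset ℕ)
    (hS : ∀ l ∈ S, l.Prime ∧ y < l ∧ (l : ℝ) ≤ z) :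
    ∑ p ∈ S, (1 : ℝ) / p ≤ Real.log (Real.log z / Real.log y) + 22 / Real.log y ∧
      22 / Real.log y ≤ 32 := by
  have h := (abs_le.1 (mert_two hy hyz)).2
  have h1 : ∑ p ∈ S, (1 : ℝ) / p ≤ ∑ p ∈ (Ioc ⌊y⌋₊ ⌊z⌋₊).filter Nat.Prime, (1 : ℝ) / p := by
    refine sum_le_sum_of_subset_of_nonneg (fun p hp => ?_) fun _ _ _ => by positivity
    obtain ⟨p1, p2, p3⟩ := hS p hp
    simp only [mem_filter, mem_Ioc]
    exact ⟨⟨(Nat.floor_lt (by linarith)).2 p2, Nat.le_floor p3⟩, p1⟩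
  refine ⟨by linarith, ?_⟩
  have h2 : Real.log 2 ≤ Real.log y := Real.log_le_log two_pos hy
  rw [div_le_iff₀ (Real.log_pos (by linarith))]
  linarith [Real.log_two_gt_d9]

theorem lcm_le (Y : ℕ) : (Nat.lcmUpto Y : ℝ) ≤ Real.exp (6 * Y) := by
  have h := Chebyshev.psi_le_const_mul_self (x := (Y : ℝ)) (Nat.cast_nonneg Y)
  rw [Chebyshev.psi_eq_log_lcmUpto] at h
  rw [← Real.log_le_iff_le_exp (by exact_mod_cast Nat.lcmUpto_pos Y)]
  refine h.trans (mul_le_mul_of_nonneg_right ?_ (Nat.cast_nonneg Y))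
  linarith [log4]

theorem dvd_lcm {d Y : ℕ} (h1 : 1 ≤ d) (h2 : d ≤ Y) : d ∣ Nat.lcmUpto Y :=
  Finset.dvd_lcm (f := id) (mem_Icc.2 ⟨h1, h2⟩)

end Pool.Agent.Lib.BK2
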