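import Pool.Agent.Lib.BK2.GDefs

/-! Block ABS: absolute irreducibility of the plane model. -/

open Polynomial

noncomputable section

namespace Pool.Agent.Lib.BK2

namespace ABS

variable {L E : Type} [Field L] [Algebra ℚ L] [Field E] [Algebra L E]

theorem exists_fun (hL : ∀ x : L, IsAlgebraic ℚ x → x ∈ Set.range (algebraMap ℚ L)) {S : Set E}
    (hf : S.Finite) (hS : ∀ s ∈ S, IsIntegral ℤ s) :
    ∃ Λ : E →ₗ[L] L, Λ 1 ≠ 0 ∧ ∀ s ∈ S, ∃ z : ℤ, Λ s = z := by
  have : CharZero L := algebraRat.charZero L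
  have : Finite S := hf
  let M := IntermediateField.adjoin L S
  have : FiniteDimensional L M :=
    IntermediateField.finiteDimensional_adjoin fun s hs => (hS s hs).tower_top
  obtain ⟨Λ, hΛ⟩ := LinearMap.exists_extend (p := M.toSubmodule) (Algebra.trace L M)
  have e : ∀ x : M, Λ x = Algebra.trace L M x := fun x => LinearMap.congr_fun hΛ x
  refine ⟨Λ, ?_, fun s hs => ?_⟩
  · have := e 1
    rw [← map_one (algebraMap L M), Algebra.trace_algebraMap, nsmul_one] at this
    rw [← map_one (algebraMap L E)]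
    exact this.trans_ne (Nat.cast_ne_zero.2 Module.finrank_pos.ne')
  · let x : M := ⟨s, IntermediateField.subset_adjoin L S hs⟩
    have h1 : IsIntegral ℤ x :=
      (isIntegral_algHom_iff M.val.toRingHom.toIntAlgHom Subtype.val_injective).1 (hS s hs)
    have h2 : IsIntegral ℤ (Algebra.trace L M x) := Algebra.isIntegral_trace h1
    obtain ⟨q, hq⟩ := hL _ (h2.tower_top (A := ℚ)).isAlgebraic
    rw [← hq, isIntegral_algebraMap_iff (algebraMap ℚ L).injective] at h2
    obtain ⟨z, rfl⟩ := IsIntegrallyClosed.isIntegral_iff.1 h2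
    exact ⟨z, (e x).trans (hq.symm.trans (by simp))⟩

theorem le_deg (hL : ∀ x : L, IsAlgebraic ℚ x → x ∈ Set.range (algebraMap ℚ L))
    (φ : ℤ[X][X] →+* L) (F : ℤ[X][X]) (hF : ∀ g, φ g = 0 ↔ F ∣ g) (G : E[X][X]) (hG : G.Monic)
    (hi : ∀ i j, IsIntegral ℤ ((G.coeff i).coeff j))
    (h0 : G.evalEval (algebraMap L E (φ (C X))) (algebraMap L E (φ X)) = 0) :
    F.natDegree ≤ G.natDegree := by
  have hf : (Set.range fun q : ℕ × ℕ => (G.coeff q.1).coeff q.2).Finite := by
    refine Set.Finite.subset (Set.Finite.insert 0 ((G.support.finite_toSet.biUnion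
      fun i _ => (G.coeff i).support.finite_toSet.image (G.coeff i).coeff))) ?_
    rintro _ ⟨q, rfl⟩
    by_cases h : (G.coeff q.1).coeff q.2 = 0
    · exact Or.inl h
    · exact Or.inr (Set.mem_biUnion (mem_support_iff.2 fun e => h (by rw [e, coeff_zero]))
        ⟨_, mem_support_iff.2 h, rfl⟩)
  obtain ⟨Λ, h1, h2⟩ := exists_fun hL hf (by rintro _ ⟨q, rfl⟩; exact hi _ _)
  choose z hz using fun i j => h2 ((G.coeff i).coeff j) ⟨(i, j), rfl⟩
  let G₀ : ℤ[X][X] := ∑ i ∈ Finset.range (G.natDegree + 1),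
    monomial i (∑ j ∈ Finset.range ((G.coeff i).natDegree + 1), monomial j (z i j))
  have e1 : φ G₀ = 0 := by
    rw [← map_zero Λ, ← h0, evalEval, eval_eq_sum_range (p := G), eval_finsetSum, map_sum,
      map_sum]
    refine Finset.sum_congr rfl fun i _ => ?_
    rw [eval_mul, eval_pow, eval_C, eval_eq_sum_range, Finset.sum_mul, map_sum, map_sum,
      map_sum]
    refine Finset.sum_congr rfl fun j _ => ?_
    rw [← map_pow (algebraMap L E), ← map_pow (algebraMap L E), mul_assoc,
      ← map_mul (algebraMap L E), mul_comm ((G.coeff i).coeff j), ← Algebra.smul_def, map_smul, hz]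
    simp only [← C_mul_X_pow_eq_monomial, eq_intCast, map_mul, map_pow, map_intCast, smul_eq_mul]
    ring
  have e2 : G₀.natDegree ≤ G.natDegree := natDegree_sum_le_of_forall_le _ _ fun i hi =>
    (natDegree_monomial_le _).trans (Nat.lt_succ_iff.1 (Finset.mem_range.1 hi))
  refine (natDegree_le_of_dvd ((hF _).1 e1) fun e => h1 ?_).trans e2
  have e3 := congrArg (fun p : ℤ[X][X] => (p.coeff G.natDegree).coeff 0) e
  have e4 := hz G.natDegree 0
  simp only [hG.coeff_natDegree, coeff_one_zero] at e4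
  simp only [G₀, finsetSum_coeff, coeff_monomial, Finset.sum_ite_eq', Finset.mem_range,
    Nat.lt_succ_self, if_true, coeff_zero, hG.coeff_natDegree, natDegree_one, zero_add,
    Finset.range_one, Finset.sum_singleton] at e3
  rw [e4, e3, Int.cast_zero]

attribute [local instance] Polynomial.algebra in
theorem exists_lift (F : ℤ[X][X]) (hF : F.Monic) (G : ℂ[X][X]) (hG : G.Monic)
    (h : G ∣ F.map (mapRingHom (Int.castRingHom ℂ))) :
    ∃ G' : (integralClosure ℤ ℂ)[X][X], G'.map (mapRingHom (algebraMap _ ℂ)) = G ∧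
      G'.natDegree = G.natDegree ∧ G'.Monic := by
  refine lifts_and_natDegree_eq_and_monic ((lifts_iff_coeff_lifts _).2 fun i => ?_) hG
  refine (mem_lifts _).1 ((lifts_iff_coeff_lifts _).2 fun j => ?_)
  exact ⟨⟨_, (isIntegral_coeff_of_dvd F G hF hG h i).coeff j⟩, rfl⟩

end ABS

theorem stABS : St_ABS := by
  intro L _ _ hL φ F hm hF
  have : CharZero L := algebraRat.charZero L
  have hm' := hm.map (mapRingHom (Int.castRingHom ℂ))
  have hd := hm.natDegree_map (mapRingHom (Int.castRingHom ℂ))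
  refine hm'.irreducible_iff_natDegree.2 ⟨fun e => ?_, fun G H hG hH e => ?_⟩
  · rw [e, natDegree_one, eq_comm, hm.natDegree_eq_zero] at hd
    exact one_ne_zero ((map_one φ).symm.trans ((hF 1).2 (hd ▸ dvd_rfl)))
  obtain ⟨G', g1, g2, g3⟩ := ABS.exists_lift F hm G hG ⟨H, e.symm⟩
  obtain ⟨H', h1, h2, h3⟩ := ABS.exists_lift F hm H hH ⟨G, by rw [← e, mul_comm]⟩
  have e1 : G' * H' = F.map (mapRingHom (Int.castRingHom _)) := by
    refine Polynomial.map_injective (mapRingHom (algebraMap _ ℂ))
      (Polynomial.map_injective _ Subtype.val_injective) ?_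
    rw [Polynomial.map_mul, g1, h1, e, Polynomial.map_map, mapRingHom_comp]
    exact congrArg (fun r => F.map (mapRingHom r)) (RingHom.ext_int _ _)
  let E := AlgebraicClosure L
  let σ : integralClosure ℤ ℂ →+* E :=
    (IsAlgClosed.lift : integralClosure ℤ ℂ →ₐ[ℤ] E).toRingHom
  have key : ∀ P : (integralClosure ℤ ℂ)[X][X], P.Monic → (P.map (mapRingHom σ)).evalEval
      (algebraMap L E (φ (C X))) (algebraMap L E (φ X)) = 0 → F.natDegree ≤ P.natDegree :=
    fun P hP h0 => (ABS.le_deg hL φ F hF _ (hP.map _) (fun i j => by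
      rw [coeff_map, coe_mapRingHom, coeff_map]
      exact (integralClosure.isIntegral _).map σ.toIntAlgHom) h0).trans natDegree_map_le
  have e2 : ((G' * H').map (mapRingHom σ)).evalEval
      (algebraMap L E (φ (C X))) (algebraMap L E (φ X)) = 0 := by
    rw [e1, Polynomial.map_map, ← map_zero (algebraMap L E), ← (hF F).2 dvd_rfl]
    refine RingHom.congr_fun (f := (evalEvalRingHom _ _).comp (mapRingHom _))
      (g := (algebraMap L E).comp φ) ?_ F
    refine Polynomial.ringHom_ext' (Polynomial.ringHom_ext' (RingHom.ext_int _ _) ?_) ?_ <;> simp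
  have e3 : G.natDegree + H.natDegree = F.natDegree := by
    rw [← hG.natDegree_mul hH, e, hd]
  rw [Polynomial.map_mul, evalEval_mul, mul_eq_zero] at e2
  rcases e2 with e2 | e2
  · have := key G' g3 e2
    omega
  · have := key H' h3 e2
    omega

end Pool.Agent.Lib.BK2
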