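import Mathlib

/-! BK2 section 4 (additive part): definitions and statements.
V = ι → ℤ, V'' = ι2 → ℤ, V' = ι1 → ℤ (coordinates t^a b_i), `mul` the product V × V'' → V',
Λ = V_X, Λ' = V'_X (kernels of the multi-point X, P its modulus; X empty: P = 1, Λ = Λ' = ⊤). -/

namespace Pool.Agent.Lib.BK2

/-- integer cube with corner `a` and side `s` -/
noncomputable def cube {ι : Type} [Fintype ι] [DecidableEq ι] (a : ι → ℤ) (s : ℕ) :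
    Finset (ι → ℤ) :=
  Fintype.piFinset fun i => Finset.Ico (a i) (a i + s)

/-- the cell of `w`: grid cube of side `s` anchored at `a`, and class mod `M` -/
def lev {ι : Type} (a : ι → ℤ) (s M : ℕ) (w : ι → ℤ) : ι → ℤ × ℤ :=
  fun k => ((w k - a k) / s, w k % M)

open Classical in
/-- E_X -/
noncomputable def fam {ι : Type} [Fintype ι] [DecidableEq ι] (aE : ι → ℤ) (sE M0 : ℕ) (e0 : ι → ℤ)
    (Λ : AddSubgroup (ι → ℤ)) : Finset (ι → ℤ) :=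
  (cube aE sE).filter fun e => (∀ i, (M0 : ℤ) ∣ e i - e0 i) ∧ e ∈ Λ

/-- real pairing of a frequency with a lattice vector -/
noncomputable def pr {ι : Type} [Fintype ι] (ξ : ι → ℝ) (w : ι → ℤ) : ℝ := ∑ k, ξ k * w k

/-- the additive character of frequency `ξ` -/
noncomputable def ch {ι : Type} [Fintype ι] (ξ : ι → ℝ) (w : ι → ℤ) : ℂ :=
  Complex.exp (2 * Real.pi * Complex.I * (pr ξ w : ℝ))

open Classical in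
def St_BOX : Prop :=
  ∀ (ι : Type) [Fintype ι] [DecidableEq ι] (A : Type) [AddCommGroup A] (φ : (ι → ℤ) →+ A)
    (q s : ℕ) (a : ι → ℤ) (a0 : A), 0 < q → q ≤ s → (∀ v, q • φ v = 0) → a0 ∈ φ.range →
    ((s : ℝ) - q) ^ Fintype.card ι ≤
        (((cube a s).filter fun v => φ v = a0).card : ℝ) * Nat.card φ.range ∧
      (((cube a s).filter fun v => φ v = a0).card : ℝ) * Nat.card φ.range ≤
        ((s : ℝ) + q) ^ Fintype.card ι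

open Classical in
def St_SM : Prop :=
  ∀ (ι : Type) [Fintype ι] [DecidableEq ι] (A : Type) [AddCommGroup A] (φ : (ι → ℤ) →+ A)
    (q s : ℕ) (a : ι → ℤ) (a0 : A) (X : Type) (S : Finset X) (p : X → ℕ)
    (ev : ∀ x, (ι → ℤ) →+ ZMod (p x)) (η : ℝ) (c : X → ℝ),
    0 < q → (∀ v, q • φ v = 0) → a0 ∈ φ.range →
    (∀ x ∈ S, (p x).Prime ∧ Nat.Coprime (p x) q ∧ Function.Surjective (ev x)) →
    (∀ x ∈ S, ∀ y ∈ S, x ≠ y → p x = p y →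
      ∀ (u : ZMod (p x)) (u' : ZMod (p y)), ∃ v, ev x v = u ∧ ev y v = u') →
    0 < η → Fintype.card ι * η ≤ 1 / 8 → (q : ℝ) ≤ η * s →
    (∀ x ∈ S, ∀ y ∈ S, (q : ℝ) * p x * p y ≤ η * s) →
    ∑ v ∈ (cube a s).filter (fun v => φ v = a0),
        (∑ x ∈ S, c x * ((if ev x v = 0 then 1 else 0) - 1 / (p x : ℝ))) ^ 2 ≤
      (((cube a s).filter fun v => φ v = a0).card : ℝ) *
        (2 * ∑ x ∈ S, c x ^ 2 / p x + 32 * Fintype.card ι * η * (∑ x ∈ S, |c x| / p x) ^ 2)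

open Classical in
def St_VIN : Prop :=
  ∀ (α β θ e1 : ℝ) (Lg : ℕ), 0 < θ → θ ≤ 1 → 4 ≤ θ * Lg → 0 < e1 → e1 ≤ θ / 32 →
    θ * Lg ≤ (((Finset.range Lg).filter fun l : ℕ => ∃ n : ℤ, |l * α + β - n| ≤ e1).card : ℝ) →
    ∃ q : ℕ, 1 ≤ q ∧ (q : ℝ) ≤ 2 / θ ∧ ∃ n : ℤ, |q * α - n| ≤ 32 * e1 / (θ ^ 2 * Lg)

/-- Parseval on `(Z/Q)^r` -/
def St_PARS : Prop :=
  ∀ (ι : Type) [Fintype ι] [DecidableEq ι] (T : Finset (ι → ℤ)) (g : (ι → ℤ) → ℝ) (Q : ℕ),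
    0 < Q → (∀ a ∈ T, ∀ b ∈ T, ∀ k, |a k - b k| < Q) →
    ∑ κ ∈ cube (0 : ι → ℤ) Q, ‖∑ w ∈ T, (g w : ℂ) * ch (fun k => (κ k : ℝ) / Q) w‖ ^ 2 =
      (Q : ℝ) ^ Fintype.card ι * ∑ w ∈ T, g w ^ 2

/-- the Dirichlet kernel of a cube of shifts: large only near the integers -/
def St_DIR : Prop :=
  ∀ (ι : Type) [Fintype ι] [DecidableEq ι] (α : ι → ℝ) (σ : ℕ) (η : ℝ), 0 < σ → 0 < η →
    η * (σ : ℝ) ^ Fintype.card ι ≤ ‖∑ t ∈ cube (0 : ι → ℤ) σ, ch α t‖ →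
    ∀ j, ∃ n : ℤ, |α j - n| ≤ 1 / (2 * σ * η)

open Classical in
/-- the kernel step: an average over `Λ' ∩ M Z^r` in a cube of side `≤ 2 N sp` nearly kills `f` -/
def St_KERN : Prop :=
  ∀ (ι : Type) [Fintype ι] [DecidableEq ι] (Λ' : AddSubgroup (ι → ℤ)) (P M sp N : ℕ) (a : ι → ℤ),
    0 < P → 0 < M → 0 < N → (∀ v : ι → ℤ, (P : ℤ) • v ∈ Λ') → P * M ≤ sp →
    ∃ J : Finset (ι → ℤ), J.Nonempty ∧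
      (∀ l ∈ J, l ∈ Λ' ∧ (∀ k, (M : ℤ) ∣ l k) ∧ ∀ k, |l k| ≤ 2 * N * sp) ∧
      ∀ (T : Finset (ι → ℤ)) (f : (ι → ℤ) → ℝ), (∀ w, f w ≠ 0 → w ∈ T ∧ w ∈ Λ') →
        (∀ c, ∑ w ∈ T.filter (fun w => lev a sp M w = c), f w = 0) →
        ∀ D : Finset (ι → ℤ), ∑ w ∈ D, (∑ l ∈ J, f (w - l)) ^ 2 ≤
          (2 * Fintype.card ι / N * J.card) ^ 2 * ∑ w ∈ T, f w ^ 2

open Classical in
/-- major arc analysis; `A` bounds the product -/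
def St_ARC : Prop :=
  ∀ (ι ι1 ι2 : Type) [Fintype ι] [DecidableEq ι] [Fintype ι1] [DecidableEq ι1] [Fintype ι2]
    [DecidableEq ι2] (mul : (ι → ℤ) →ₗ[ℤ] (ι2 → ℤ) →ₗ[ℤ] (ι1 → ℤ)) (A : ℕ),
    (∀ k, ∃ i j, mul (Pi.single i 1) (Pi.single j 1) = Pi.single k 1) →
    (∀ (u : ι → ℤ) (b : ℤ), (∀ i, |u i| ≤ b) → ∀ j k, |mul u (Pi.single j 1) k| ≤ A * b) →
    ∀ (Y M0 M L P sE : ℕ) (e0 aE : ι → ℤ)
      (Λ : AddSubgroup (ι → ℤ)) (Λ' : AddSubgroup (ι1 → ℤ)),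
      2 ≤ Y → 0 < M0 → 0 < M → 0 < L → 0 < P →
      (∀ q : ℕ, 1 ≤ q → q ≤ Y → q * M0 ∣ L) → Nat.Coprime P (M * L) →
      (∀ v : ι → ℤ, (P : ℤ) • v ∈ Λ) → (∀ v : ι1 → ℤ, (P : ℤ) • v ∈ Λ') →
      Λ' ≤ AddSubgroup.closure
        ({w | ∃ u ∈ Λ, ∃ t, w = mul u t} ∪ {w | ∃ v : ι1 → ℤ, w = (P : ℤ) • v}) →
      4 * P * M0 * Y ≤ sE →
      ∀ (ξ : ι1 → ℝ) (e1 ρ : ℝ), 0 < e1 → e1 ≤ 1 / (16 * Y) →
      16 * (Y : ℝ) ^ 2 * e1 / (M * sE) ≤ ρ →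
      ρ * M * L * (P : ℝ) ^ 2 * M0 * (1 + Y * Fintype.card ι1 * A) < 1 →
      ∀ G ⊆ fam aE sE M0 e0 Λ, G.Nonempty →
      2 * 6 ^ Fintype.card ι / (Y : ℝ) * (fam aE sE M0 e0 Λ).card ≤ G.card →
      (∀ e ∈ G, ∀ j, ∃ n : ℤ, |M * pr ξ (mul e (Pi.single j 1)) - n| ≤ e1) →
      ∃ ξ0 : ι1 → ℝ, (∀ k, |ξ k - ξ0 k| ≤ ρ) ∧
        ∀ l ∈ Λ', (∀ k, ((M * L : ℕ) : ℤ) ∣ l k) → ∃ n : ℤ, pr ξ0 l = n

open Classical in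
def St_VAR : Prop :=
  ∀ (ι ι1 ι2 : Type) [Fintype ι] [DecidableEq ι] [Fintype ι1] [DecidableEq ι1] [Fintype ι2]
    [DecidableEq ι2] (mul : (ι → ℤ) →ₗ[ℤ] (ι2 → ℤ) →ₗ[ℤ] (ι1 → ℤ)),
    (∀ k, ∃ i j, mul (Pi.single i 1) (Pi.single j 1) = Pi.single k 1) →
    ∀ δ : ℝ, 0 < δ → ∃ K : ℝ, 1 ≤ K ∧
    ∀ (Y M0 M L P H sE s sp : ℕ) (e0 aE : ι → ℤ) (a : ι1 → ℤ)
      (Λ : AddSubgroup (ι → ℤ)) (Λ' : AddSubgroup (ι1 → ℤ)),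
      2 ≤ Y → 0 < M0 → 0 < M → 0 < L → 0 < P → 0 < H →
      (∀ q : ℕ, 1 ≤ q → q ≤ Y → q * M0 ∣ L) → Nat.Coprime P (M * L) →
      (∀ v : ι → ℤ, (P : ℤ) • v ∈ Λ) → (∀ v : ι1 → ℤ, (P : ℤ) • v ∈ Λ') →
      Λ' ≤ AddSubgroup.closure
        ({w | ∃ u ∈ Λ, ∃ t, w = mul u t} ∪ {w | ∃ v : ι1 → ℤ, w = (P : ℤ) • v}) →
      (∀ e ∈ cube aE sE, ∀ i, |e i| ≤ H) → δ * H ≤ sE → 4 * P * M0 * Y ≤ sE →
      K * M * H * (Y : ℝ) ^ 2 ≤ s → K * M * L * (P : ℝ) ^ 2 * M0 * (Y : ℝ) ^ 4 ≤ s →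
      K * (Y : ℝ) ^ 4 * sp ≤ s → P * (M * L) ≤ sp →
      ∀ (T : Finset (ι1 → ℤ)) (f : (ι1 → ℤ) → ℝ), (∀ w, f w ≠ 0 → w ∈ T ∧ w ∈ Λ') →
      (∀ c, ∑ w ∈ T.filter (fun w => lev a sp (M * L) w = c), f w = 0) →
      ∀ (F : (ι → ℤ) → (ι1 → ℤ) → ℝ) (D : (ι → ℤ) → Finset (ι1 → ℤ)),
      (∀ e ∈ fam aE sE M0 e0 Λ, ∀ w, f w ≠ 0 → ∀ t, (∀ k, |(M : ℤ) * mul e t k| ≤ s) →
        w + (M : ℤ) • mul e t ∈ D e ∧ F e (w + (M : ℤ) • mul e t) = F e w) →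
      (∑ e ∈ fam aE sE M0 e0 Λ, ∑ w ∈ T, f w * F e w) ^ 2 ≤
        K / Y * (fam aE sE M0 e0 Λ).card * (∑ w ∈ T, f w ^ 2) *
          ∑ e ∈ fam aE sE M0 e0 Λ, ∑ w ∈ D e, F e w ^ 2

end Pool.Agent.Lib.BK2
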