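import Pool.Agent.Lib.BK2.ADefs

/-! BK2 block A.KERN: the kernel step of VAR. -/

namespace Pool.Agent.Lib.BK2

namespace KERN

open Finset

variable {ι : Type} [Fintype ι] [DecidableEq ι]

theorem mem_cube0 (R : ℕ) (l : ι → ℤ) : l ∈ cube (0 : ι → ℤ) R ↔ ∀ k, 0 ≤ l k ∧ l k < R := by
  simp [cube, Fintype.mem_piFinset]

open Classical in
/-- the kernel set -/
noncomputable def J (Λ' : AddSubgroup (ι → ℤ)) (M R : ℕ) : Finset (ι → ℤ) :=
  (cube (0 : ι → ℤ) R).filter fun l => l ∈ Λ' ∧ ∀ k, (M : ℤ) ∣ l k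

theorem mem_J {Λ' : AddSubgroup (ι → ℤ)} {M R : ℕ} {l : ι → ℤ} :
    l ∈ J Λ' M R ↔ (∀ k, 0 ≤ l k ∧ l k < R) ∧ l ∈ Λ' ∧ ∀ k, (M : ℤ) ∣ l k := by
  classical
  unfold J
  rw [mem_filter, mem_cube0]

theorem slab_le {Λ' : AddSubgroup (ι → ℤ)} {P M N d : ℕ} (hP : ∀ v : ι → ℤ, (P : ℤ) • v ∈ Λ')
    (hd : 0 < d) (hPd : P ∣ d) (hMd : M ∣ d) (k : ι) (j0 j : ℤ) (hj : 0 ≤ j) (hjN : j < N) :
    ((J Λ' M (N * d)).filter fun l => l k / d = j0).card ≤
      ((J Λ' M (N * d)).filter fun l => l k / d = j).card := by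
  refine card_le_card_of_injOn (fun l => l + Pi.single k ((j - j0) * d)) ?_ ?_
  · intro l hl
    rw [mem_coe, mem_filter, mem_J] at hl ⊢
    obtain ⟨⟨h1, h2, h3⟩, h4⟩ := hl
    have hd' : (0 : ℤ) < d := by exact_mod_cast hd
    have hq : (l k + (j - j0) * d) / d = j := by
      rw [Int.add_mul_ediv_right _ _ hd'.ne', h4]; ring
    refine ⟨⟨fun i => ?_, ?_, fun i => ?_⟩, ?_⟩
    · by_cases hi : i = k
      · subst hi
        simp only [Pi.add_apply, Pi.single_eq_same]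
        have e1 := Int.mul_ediv_add_emod (l i + (j - j0) * d) d
        have e2 := Int.emod_nonneg (l i + (j - j0) * d) hd'.ne'
        have e3 := Int.emod_lt_of_pos (l i + (j - j0) * d) hd'
        rw [hq] at e1
        have e4 : (0 : ℤ) ≤ d * j := by positivity
        have e5 : (d : ℤ) * (j + 1) ≤ d * N := mul_le_mul_of_nonneg_left (by omega) hd'.le
        push_cast
        constructor
        · linarith
        · linarith
      · simpa [Pi.single_eq_of_ne hi] using h1 i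
    · refine Λ'.add_mem h2 ?_
      obtain ⟨c, hc⟩ := hPd
      have : (Pi.single k ((j - j0) * d) : ι → ℤ) = (P : ℤ) • Pi.single k ((j - j0) * c) := by
        rw [← Pi.single_smul, hc]
        push_cast
        rw [smul_eq_mul]
        congr 1
        ring
      rw [this]
      exact hP _
    · by_cases hi : i = k
      · subst hi
        simp only [Pi.add_apply, Pi.single_eq_same]
        exact dvd_add (h3 i) (Dvd.dvd.mul_left (by exact_mod_cast hMd) _)
      · simpa [Pi.single_eq_of_ne hi] using h3 i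
    · simpa using hq
  · intro l _ l' _ h
    exact add_right_cancel h

theorem slab_card {Λ' : AddSubgroup (ι → ℤ)} {P M N d : ℕ} (hP : ∀ v : ι → ℤ, (P : ℤ) • v ∈ Λ')
    (hd : 0 < d) (hPd : P ∣ d) (hMd : M ∣ d) (k : ι) (j0 : ℤ) :
    N * ((J Λ' M (N * d)).filter fun l => l k / d = j0).card ≤ (J Λ' M (N * d)).card := by
  have hd' : (0 : ℤ) < d := by exact_mod_cast hd
  have h1 : (J Λ' M (N * d)).card =
      ∑ j ∈ Ico (0 : ℤ) N, ((J Λ' M (N * d)).filter fun l => l k / d = j).card := by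
    refine card_eq_sum_card_fiberwise fun l hl => ?_
    rw [mem_coe, mem_J] at hl
    obtain ⟨h0, hR⟩ := hl.1 k
    rw [mem_coe, mem_Ico]
    refine ⟨Int.ediv_nonneg h0 hd'.le, ?_⟩
    rw [Int.ediv_lt_iff_lt_mul hd']
    exact_mod_cast hR
  rw [h1]
  have h2 := card_nsmul_le_sum (Ico (0 : ℤ) N)
    (fun j => ((J Λ' M (N * d)).filter fun l => l k / d = j).card)
    ((J Λ' M (N * d)).filter fun l => l k / d = j0).card
    (fun j hj => slab_le hP hd hPd hMd k j0 j (mem_Ico.1 hj).1 (mem_Ico.1 hj).2)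
  simpa using h2

open Classical in
theorem bd_card {Λ' : AddSubgroup (ι → ℤ)} {P M N d : ℕ} (hP : ∀ v : ι → ℤ, (P : ℤ) • v ∈ Λ')
    (hd : 0 < d) (hPd : P ∣ d) (hMd : M ∣ d) :
    N * ((J Λ' M (N * d)).filter fun l : ι → ℤ => ∃ k, l k / (d : ℤ) = 0 ∨ l k / (d : ℤ) = (N : ℤ) - 1).card ≤
      2 * Fintype.card ι * (J Λ' M (N * d)).card := by
  have h1 : ((J Λ' M (N * d)).filter fun l : ι → ℤ => ∃ k, l k / (d : ℤ) = 0 ∨ l k / (d : ℤ) = (N : ℤ) - 1) ⊆
      univ.biUnion fun k => ((J Λ' M (N * d)).filter fun l : ι → ℤ => l k / (d : ℤ) = 0) ∪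
        ((J Λ' M (N * d)).filter fun l : ι → ℤ => l k / (d : ℤ) = (N : ℤ) - 1) := by
    intro l hl
    rw [mem_filter] at hl
    obtain ⟨h, k, hk⟩ := hl
    rw [mem_biUnion]
    refine ⟨k, mem_univ _, ?_⟩
    rw [mem_union, mem_filter, mem_filter]
    tauto
  have h2 := (card_le_card h1).trans card_biUnion_le
  calc _ ≤ N * ∑ k : ι, (((J Λ' M (N * d)).filter fun l : ι → ℤ => l k / (d : ℤ) = 0) ∪
        ((J Λ' M (N * d)).filter fun l : ι → ℤ => l k / (d : ℤ) = (N : ℤ) - 1)).card := Nat.mul_le_mul_left _ h2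
    _ = ∑ k : ι, N * (((J Λ' M (N * d)).filter fun l : ι → ℤ => l k / (d : ℤ) = 0) ∪
        ((J Λ' M (N * d)).filter fun l : ι → ℤ => l k / (d : ℤ) = (N : ℤ) - 1)).card := mul_sum _ _ _
    _ ≤ ∑ _k : ι, 2 * (J Λ' M (N * d)).card := by
        refine sum_le_sum fun k _ => ?_
        have a1 := slab_card (N := N) hP hd hPd hMd k 0
        have a2 := slab_card (N := N) hP hd hPd hMd k (N - 1)
        have a3 := Nat.mul_le_mul_left N (card_union_le
          ((J Λ' M (N * d)).filter fun l : ι → ℤ => l k / (d : ℤ) = 0)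
          ((J Λ' M (N * d)).filter fun l : ι → ℤ => l k / (d : ℤ) = (N : ℤ) - 1))
        rw [mul_add] at a3
        omega
    _ = _ := by simp; ring

/-- the cell `c` lies inside the window below `w` -/
def Full (a w : ι → ℤ) (sp M R : ℕ) (c : ι → ℤ × ℤ) : Prop :=
  ∀ k, w k - R < a k + (c k).1 * sp ∧ a k + ((c k).1 + 1) * sp ≤ w k + 1 ∧ (c k).2 = w k % M

omit [Fintype ι] [DecidableEq ι] in
theorem lev_bounds (a u : ι → ℤ) {sp : ℕ} (M : ℕ) (hs : 0 < sp) (k : ι) :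
    a k + (lev a sp M u k).1 * sp ≤ u k ∧ u k < a k + ((lev a sp M u k).1 + 1) * sp := by
  have hs' : (0 : ℤ) < sp := by exact_mod_cast hs
  have e1 := Int.mul_ediv_add_emod (u k - a k) sp
  have e2 := Int.emod_nonneg (u k - a k) hs'.ne'
  have e3 := Int.emod_lt_of_pos (u k - a k) hs'
  simp only [lev]
  constructor <;> nlinarith

open Classical in
theorem full_sum {Λ' : AddSubgroup (ι → ℤ)} {M sp R : ℕ} (a w : ι → ℤ) (hs : 0 < sp)
    (hw : w ∈ Λ') (T : Finset (ι → ℤ)) (f : (ι → ℤ) → ℝ)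
    (hf : ∀ w, f w ≠ 0 → w ∈ T ∧ w ∈ Λ')
    (h0 : ∀ c, ∑ w ∈ T.filter (fun w => lev a sp M w = c), f w = 0) :
    ∑ l ∈ (J Λ' M R).filter (fun l => Full a w sp M R (lev a sp M (w - l))), f (w - l) = 0 := by
  have h1 : ∑ l ∈ (J Λ' M R).filter (fun l => Full a w sp M R (lev a sp M (w - l))), f (w - l) =
      ∑ u ∈ T.filter (fun u => Full a w sp M R (lev a sp M u)), f u := by
    refine sum_bij_ne_zero (fun l _ _ => w - l) ?_ ?_ ?_ ?_
    · intro l hl hne
      rw [mem_filter] at hl ⊢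
      exact ⟨(hf _ hne).1, hl.2⟩
    · intro l _ _ l' _ _ h
      exact sub_right_injective h
    · intro u hu hne
      rw [mem_filter] at hu
      have e : w - (w - u) = u := sub_sub_cancel w u
      refine ⟨w - u, ?_, by rw [e]; exact hne, e⟩
      rw [mem_filter, mem_J, e]
      refine ⟨⟨fun k => ?_, Λ'.sub_mem hw (hf _ hne).2, fun k => ?_⟩, hu.2⟩
      · obtain ⟨b1, b2⟩ := lev_bounds a u M hs k
        obtain ⟨c1, c2, -⟩ := hu.2 k
        simp only [Pi.sub_apply]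
        constructor <;> linarith
      · obtain ⟨-, -, c3⟩ := hu.2 k
        simp only [lev] at c3
        exact Int.ModEq.dvd c3
    · intro l _ _
      rfl
  rw [h1, ← sum_fiberwise_of_maps_to (s := T.filter fun u => Full a w sp M R (lev a sp M u))
    (t := (T.filter fun u => Full a w sp M R (lev a sp M u)).image (lev a sp M))
    (g := lev a sp M) (fun u hu => mem_image_of_mem _ hu)]
  refine sum_eq_zero fun c hc => ?_
  obtain ⟨u, hu, rfl⟩ := mem_image.1 hc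
  rw [← h0 (lev a sp M u)]
  refine sum_congr ?_ fun _ _ => rfl
  ext v
  simp only [mem_filter]
  constructor
  · rintro ⟨⟨h1, -⟩, h2⟩
    exact ⟨h1, h2⟩
  · rintro ⟨h1, h2⟩
    exact ⟨⟨h1, h2 ▸ (mem_filter.1 hu).2⟩, h2⟩

theorem not_full {Λ' : AddSubgroup (ι → ℤ)} {M sp N d : ℕ} (a w l : ι → ℤ) (hs : 0 < sp)
    (hd : sp ≤ d) (hl : l ∈ J Λ' M (N * d))
    (h : ¬ Full a w sp M (N * d) (lev a sp M (w - l))) :
    ∃ k, l k / d = 0 ∨ l k / d = N - 1 := by
  rw [mem_J] at hl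
  by_contra hn
  push Not at hn
  apply h
  intro k
  obtain ⟨b1, b2⟩ := lev_bounds a (w - l) M hs k
  obtain ⟨l0, lR⟩ := hl.1 k
  obtain ⟨n0, n1⟩ := hn k
  have hd0 : (0 : ℤ) < d := by exact_mod_cast lt_of_lt_of_le hs hd
  have hd1 : (sp : ℤ) ≤ d := by exact_mod_cast hd
  have q0 : 0 ≤ l k / d := Int.ediv_nonneg l0 hd0.le
  have q1 : l k / d < N := by
    rw [Int.ediv_lt_iff_lt_mul hd0]
    exact_mod_cast lR
  have e1 := Int.mul_ediv_add_emod (l k) d
  have e2 := Int.emod_nonneg (l k) hd0.ne'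
  have e3 := Int.emod_lt_of_pos (l k) hd0
  have e4 : (d : ℤ) * 1 ≤ d * (l k / d) := mul_le_mul_of_nonneg_left (by omega) hd0.le
  have e5 : (d : ℤ) * (l k / d) ≤ d * (N - 2) := mul_le_mul_of_nonneg_left (by omega) hd0.le
  simp only [Pi.sub_apply] at b1 b2
  refine ⟨?_, ?_, ?_⟩
  · push_cast
    linarith
  · linarith
  · simp only [lev, Pi.sub_apply]
    obtain ⟨c, hc⟩ := hl.2.2 k
    rw [hc, Int.sub_mul_emod_self_left]

omit [DecidableEq ι] in
theorem shift_sq (T D : Finset (ι → ℤ)) (f : (ι → ℤ) → ℝ) (hf : ∀ w, f w ≠ 0 → w ∈ T)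
    (l : ι → ℤ) : ∑ w ∈ D, f (w - l) ^ 2 ≤ ∑ w ∈ T, f w ^ 2 := by
  classical
  rw [← sum_image (s := D) (g := fun w => w - l) (f := fun u => f u ^ 2)
    (fun x _ y _ h => sub_left_injective h)]
  rw [← sum_filter_of_ne (p := fun u => u ∈ T) (fun u _ h => hf u fun h0 => h (by simp [h0]))]
  exact sum_le_sum_of_subset_of_nonneg (fun u hu => (mem_filter.1 hu).2)
    fun _ _ _ => sq_nonneg _

end KERN

open Finset KERN Classical in
theorem stKERN : St_KERN := by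
  intro ι _ _ Λ' P M sp N a hP hM hN hΛ hsp
  have hPM : 0 < P * M := Nat.mul_pos hP hM
  have hs : 0 < sp := lt_of_lt_of_le hPM hsp
  obtain ⟨d, hd1, hd2, hd3⟩ : ∃ d, sp ≤ d ∧ d ≤ 2 * sp ∧ P * M ∣ d := by
    refine ⟨P * M * (sp / (P * M) + 1), ?_, ?_, dvd_mul_right _ _⟩
    · exact (Nat.lt_mul_div_succ sp hPM).le
    · have := Nat.mul_div_le sp (P * M)
      rw [mul_add]
      omega
  have hd0 : 0 < d := lt_of_lt_of_le hs hd1
  refine ⟨J Λ' M (N * d), ⟨0, ?_⟩, fun l hl => ?_, fun T f hf h0 D => ?_⟩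
  · rw [mem_J]
    refine ⟨fun k => ⟨le_rfl, ?_⟩, Λ'.zero_mem, fun k => dvd_zero _⟩
    rw [Pi.zero_apply]
    exact_mod_cast Nat.mul_pos hN hd0
  · rw [mem_J] at hl
    refine ⟨hl.2.1, hl.2.2, fun k => ?_⟩
    obtain ⟨l0, lR⟩ := hl.1 k
    rw [abs_of_nonneg l0]
    have : ((N * d : ℕ) : ℤ) ≤ ((N * (2 * sp) : ℕ) : ℤ) := by
      exact_mod_cast Nat.mul_le_mul_left N hd2
    push_cast at this lR
    linarith
  set Jb := (J Λ' M (N * d)).filter fun l : ι → ℤ => ∃ k, l k / (d : ℤ) = 0 ∨ l k / (d : ℤ) = (N : ℤ) - 1 with hJb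
  have hb : (Jb.card : ℝ) ≤ 2 * Fintype.card ι / N * (J Λ' M (N * d)).card := by
    have h := bd_card (N := N) hΛ hd0 (Dvd.dvd.trans (dvd_mul_right P M) hd3)
      (Dvd.dvd.trans (dvd_mul_left M P) hd3)
    have hN' : (0 : ℝ) < N := by exact_mod_cast hN
    rw [div_mul_eq_mul_div, le_div_iff₀ hN', mul_comm]
    exact_mod_cast h
  have hw : ∀ w, (∑ l ∈ J Λ' M (N * d), f (w - l)) ^ 2 ≤ Jb.card * ∑ l ∈ Jb, f (w - l) ^ 2 := by
    intro w
    by_cases hwΛ : w ∈ Λ'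
    · rw [← sum_filter_add_sum_filter_not _
        (fun l => Full a w sp M (N * d) (lev a sp M (w - l))), full_sum a w hs hwΛ T f hf h0,
        zero_add]
      have hsub : ((J Λ' M (N * d)).filter
          fun l => ¬ Full a w sp M (N * d) (lev a sp M (w - l))) ⊆ Jb := by
        intro l hl
        rw [mem_filter] at hl
        exact mem_filter.2 ⟨hl.1, not_full a w l hs hd1 hl.1 hl.2⟩
      refine sq_sum_le_card_mul_sum_sq.trans ?_
      refine mul_le_mul (by exact_mod_cast card_le_card hsub)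
        (sum_le_sum_of_subset_of_nonneg hsub fun _ _ _ => sq_nonneg _)
        (sum_nonneg fun _ _ => sq_nonneg _) (Nat.cast_nonneg _)
    · rw [sum_eq_zero]
      · simpa using mul_nonneg (Nat.cast_nonneg _) (sum_nonneg fun _ _ => sq_nonneg _)
      · intro l hl
        by_contra hne
        apply hwΛ
        have := Λ'.add_mem (hf _ hne).2 (mem_J.1 hl).2.1
        simpa using this
  have hT : 0 ≤ ∑ w ∈ T, f w ^ 2 := sum_nonneg fun _ _ => sq_nonneg _
  calc _ ≤ ∑ w ∈ D, Jb.card * ∑ l ∈ Jb, f (w - l) ^ 2 := sum_le_sum fun w _ => hw w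
    _ = Jb.card * ∑ l ∈ Jb, ∑ w ∈ D, f (w - l) ^ 2 := by rw [← mul_sum, sum_comm]
    _ ≤ Jb.card * ∑ _l ∈ Jb, ∑ w ∈ T, f w ^ 2 :=
        mul_le_mul_of_nonneg_left (sum_le_sum fun l _ =>
          shift_sq T D f (fun w h => (hf w h).1) l) (Nat.cast_nonneg _)
    _ = (Jb.card : ℝ) ^ 2 * ∑ w ∈ T, f w ^ 2 := by rw [sum_const, nsmul_eq_mul]; ring
    _ ≤ _ := mul_le_mul_of_nonneg_right (pow_le_pow_left₀ (Nat.cast_nonneg _) hb 2) hT

end Pool.Agent.Lib.BK2
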