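import Pool.Agent.Lib.BK2.ADefs

/-! BK2 section 4: Parseval on a cube of frequencies and the Dirichlet kernel. -/

namespace Pool.Agent.Lib.BK2

open Finset Complex

theorem pars_ch_prod {ι : Type} [Fintype ι] (ξ : ι → ℝ) (w : ι → ℤ) :
    ch ξ w = ∏ k, exp (2 * Real.pi * I * (ξ k * w k : ℝ)) := by
  rw [ch, pr, ← exp_sum]
  congr 1
  push_cast
  rw [mul_sum]

theorem pars_sum_cube {ι : Type} [Fintype ι] [DecidableEq ι] (F : ι → ℤ → ℂ) (s : ℕ) :
    ∑ t ∈ cube (0 : ι → ℤ) s, ∏ k, F k (t k) = ∏ k, ∑ n ∈ range s, F k n := by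
  rw [cube, ← prod_univ_sum]
  refine prod_congr rfl fun k _ => ?_
  simp only [Pi.zero_apply, zero_add]
  refine (sum_nbij' (fun n : ℕ => (n : ℤ)) (fun z : ℤ => z.toNat) ?_ ?_ ?_ ?_ ?_).symm
  · intro n hn; simp only [mem_range] at hn; simp only [mem_Ico]; omega
  · intro z hz; simp only [mem_Ico] at hz; simp only [mem_range]; omega
  · intro n _; simp
  · intro z hz; simp only [mem_Ico] at hz; omega
  · intro n _; rfl

theorem pars_geom (x : ℝ) (s : ℕ) :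
    (∑ n ∈ range s, exp (2 * Real.pi * I * (x * n : ℝ))) * (exp (2 * Real.pi * I * x) - 1) =
      exp (2 * Real.pi * I * (x * s : ℝ)) - 1 := by
  have e : ∀ n : ℕ, exp (2 * Real.pi * I * (x * n : ℝ)) = exp (2 * Real.pi * I * x) ^ n := by
    intro n
    rw [← exp_nat_mul]
    congr 1
    push_cast
    ring
  simp only [e]
  exact geom_sum_mul _ _

theorem pars_one (Q : ℕ) (hQ : 0 < Q) (d : ℤ) (hd : |d| < Q) :
    ∑ n ∈ range Q, exp (2 * Real.pi * I * (((d : ℝ) / Q) * n : ℝ)) = if d = 0 then (Q : ℂ) else 0 := by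
  split_ifs with h
  · simp [h]
  · have hQ' : (Q : ℝ) ≠ 0 := by positivity
    have g := pars_geom ((d : ℝ) / Q) Q
    rw [div_mul_cancel₀ _ hQ'] at g
    have e1 : exp (2 * Real.pi * I * ((d : ℝ) : ℂ)) = 1 := by
      rw [exp_eq_one_iff]
      exact ⟨d, by push_cast; ring⟩
    rw [e1, sub_self] at g
    refine (mul_eq_zero.1 g).resolve_right fun h0 => ?_
    obtain ⟨n, hn⟩ := exp_eq_one_iff.1 (sub_eq_zero.1 h0)
    have h2 : (2 * Real.pi * I : ℂ) ≠ 0 := two_pi_I_ne_zero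
    have h3 : (((d : ℝ) / Q : ℝ) : ℂ) = n := by
      apply mul_left_cancel₀ h2
      rw [hn]; ring
    have h4 : (d : ℝ) / Q = n := by exact_mod_cast h3
    rw [div_eq_iff hQ'] at h4
    have h5 : d = n * Q := by exact_mod_cast h4
    have h6 : n ≠ 0 := by rintro rfl; simp at h5; exact h h5
    rw [h5, abs_mul, Nat.abs_cast] at hd
    have h7 : 1 ≤ |n| := Int.one_le_abs h6
    have h8 : (0 : ℤ) < Q := by exact_mod_cast hQ
    nlinarith

theorem pars_conj {ι : Type} [Fintype ι] (ξ : ι → ℝ) (a b : ι → ℤ) :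
    ch ξ a * (starRingEnd ℂ) (ch ξ b) = ch ξ (a - b) := by
  rw [ch, ch, ch, ← exp_conj, ← exp_add]
  congr 1
  have : pr ξ (a - b) = pr ξ a - pr ξ b := by
    simp only [pr, ← sum_sub_distrib, Pi.sub_apply]
    refine sum_congr rfl fun k _ => ?_
    push_cast; ring
  rw [this]
  simp only [map_mul, conj_ofReal, conj_I, map_ofNat]
  push_cast
  ring

theorem pars_orth {ι : Type} [Fintype ι] [DecidableEq ι] (Q : ℕ) (hQ : 0 < Q) (d : ι → ℤ)
    (hd : ∀ k, |d k| < Q) :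
    ∑ κ ∈ cube (0 : ι → ℤ) Q, ch (fun k => (κ k : ℝ) / Q) d =
      if d = 0 then (Q : ℂ) ^ Fintype.card ι else 0 := by
  have e : ∀ κ : ι → ℤ, ch (fun k => (κ k : ℝ) / Q) d =
      ∏ k, exp (2 * Real.pi * I * (((d k : ℝ) / Q) * (κ k : ℤ) : ℝ)) := by
    intro κ
    rw [pars_ch_prod]
    refine prod_congr rfl fun k _ => ?_
    congr 3
    ring
  simp only [e]
  rw [pars_sum_cube (fun k z => exp (2 * Real.pi * I * (((d k : ℝ) / Q) * (z : ℤ) : ℝ)))]
  have e2 : ∀ k, ∑ n ∈ range Q, exp (2 * Real.pi * I * (((d k : ℝ) / Q) * ((n : ℤ) : ℝ) : ℝ)) =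
      if d k = 0 then (Q : ℂ) else 0 := fun k => by
    rw [← pars_one Q hQ (d k) (hd k)]
    simp only [Int.cast_natCast]
  simp only [e2]
  split_ifs with h
  · simp [h]
  · obtain ⟨k, hk⟩ := Function.ne_iff.1 h
    exact prod_eq_zero (mem_univ k) (if_neg hk)

theorem stPARS : St_PARS := by
  intro ι _ _ T g Q hQ hT
  have key : ((∑ κ ∈ cube (0 : ι → ℤ) Q,
      ‖∑ w ∈ T, (g w : ℂ) * ch (fun k => (κ k : ℝ) / Q) w‖ ^ 2 : ℝ) : ℂ) =
      (((Q : ℝ) ^ Fintype.card ι * ∑ w ∈ T, g w ^ 2 : ℝ) : ℂ) := by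
    have e : ∀ κ : ι → ℤ, ((‖∑ w ∈ T, (g w : ℂ) * ch (fun k => (κ k : ℝ) / Q) w‖ ^ 2 : ℝ) : ℂ) =
        ∑ a ∈ T, ∑ b ∈ T, (g a : ℂ) * g b * ch (fun k => (κ k : ℝ) / Q) (a - b) := by
      intro κ
      rw [ofReal_pow, ← mul_conj', map_sum, sum_mul_sum]
      refine sum_congr rfl fun a _ => sum_congr rfl fun b _ => ?_
      rw [map_mul, conj_ofReal, ← pars_conj]
      ring
    rw [ofReal_sum]
    simp only [e]
    rw [sum_comm]
    push_cast
    rw [mul_sum]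
    refine sum_congr rfl fun a ha => ?_
    rw [sum_comm]
    have e3 : ∀ b ∈ T, ∑ κ ∈ cube (0 : ι → ℤ) Q,
        (g a : ℂ) * g b * ch (fun k => (κ k : ℝ) / Q) (a - b) =
        if a = b then (Q : ℂ) ^ Fintype.card ι * (g a : ℂ) ^ 2 else 0 := by
      intro b hb
      rw [← mul_sum, pars_orth Q hQ (a - b) (fun k => hT a ha b hb k)]
      by_cases h : a = b
      · subst h; simp; ring
      · rw [if_neg (sub_ne_zero.2 h), if_neg h, mul_zero]
    rw [sum_congr rfl e3, sum_ite_eq, if_pos ha]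
  exact_mod_cast key

theorem pars_norm_le (x : ℝ) (s : ℕ) :
    ‖∑ n ∈ range s, exp (2 * Real.pi * I * (x * n : ℝ))‖ ≤ s := by
  refine (norm_sum_le _ _).trans ?_
  have : ∀ n ∈ range s, ‖exp (2 * Real.pi * I * (x * n : ℝ))‖ = 1 := by
    intro n _
    rw [show (2 * Real.pi * I * (x * n : ℝ) : ℂ) = ((2 * Real.pi * (x * n) : ℝ) : ℂ) * I by
      push_cast; ring, norm_exp_ofReal_mul_I]
  rw [sum_congr rfl this]
  simp

theorem pars_norm_mul (x : ℝ) (s : ℕ) :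
    ‖∑ n ∈ range s, exp (2 * Real.pi * I * (x * n : ℝ))‖ * (2 * |x - round x|) ≤ 1 := by
  set y := x - round x with hy
  have hy2 : |y| ≤ 1 / 2 := abs_sub_round x
  have e1 : exp (2 * Real.pi * I * x) = exp (I * ((2 * Real.pi * y : ℝ) : ℂ)) := by
    have : (2 * Real.pi * I * x : ℂ) =
        I * ((2 * Real.pi * y : ℝ) : ℂ) + (round x : ℤ) * (2 * Real.pi * I) := by
      rw [hy]; push_cast; ring
    rw [this, exp_add, exp_int_mul_two_pi_mul_I, mul_one]
  have e2 : 4 * |y| ≤ ‖exp (2 * Real.pi * I * x) - 1‖ := by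
    rw [e1, norm_exp_I_mul_ofReal_sub_one]
    have h1 : |Real.pi * y| ≤ Real.pi / 2 := by
      rw [abs_mul, abs_of_pos Real.pi_pos]
      nlinarith [Real.pi_pos]
    have h2 := Real.mul_abs_le_abs_sin h1
    rw [abs_mul, abs_of_pos Real.pi_pos, ← mul_assoc, div_mul_cancel₀ _ Real.pi_ne_zero] at h2
    rw [show 2 * Real.pi * y / 2 = Real.pi * y by ring, Real.norm_eq_abs, abs_mul, abs_two]
    linarith
  have e3 : ‖exp (2 * Real.pi * I * (x * s : ℝ)) - 1‖ ≤ 2 := by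
    refine (norm_sub_le _ _).trans ?_
    rw [show (2 * Real.pi * I * (x * s : ℝ) : ℂ) = ((2 * Real.pi * (x * s) : ℝ) : ℂ) * I by
      push_cast; ring, norm_exp_ofReal_mul_I, norm_one]
    norm_num
  rw [← pars_geom, norm_mul] at e3
  have h0 := norm_nonneg (∑ n ∈ range s, exp (2 * Real.pi * I * (x * n : ℝ)))
  nlinarith [mul_le_mul_of_nonneg_left e2 h0]

theorem stDIR : St_DIR := by
  intro ι _ _ α σ η hσ hη h j
  refine ⟨round (α j), ?_⟩
  simp only [pars_ch_prod] at h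
  rw [pars_sum_cube (fun k z => exp (2 * Real.pi * I * (α k * (z : ℤ) : ℝ))), norm_prod,
    ← mul_prod_erase _ _ (mem_univ j)] at h
  simp only [Int.cast_natCast] at h
  have hσ' : (0 : ℝ) < σ := by exact_mod_cast hσ
  have h1 : ∏ k ∈ univ.erase j, ‖∑ n ∈ range σ, exp (2 * Real.pi * I * (α k * n : ℝ))‖ ≤
      (σ : ℝ) ^ (Fintype.card ι - 1) := by
    refine (prod_le_prod (fun k _ => norm_nonneg _) fun k _ => pars_norm_le (α k) σ).trans ?_
    rw [prod_const, card_erase_of_mem (mem_univ j), card_univ]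
  have hc : Fintype.card ι = (Fintype.card ι - 1) + 1 :=
    (Nat.sub_add_cancel (Fintype.card_pos_iff.2 ⟨j⟩)).symm
  rw [hc, pow_succ] at h
  have h0 := norm_nonneg (∑ n ∈ range σ, exp (2 * Real.pi * I * (α j * n : ℝ)))
  have hp : (0 : ℝ) < (σ : ℝ) ^ (Fintype.card ι - 1) := pow_pos hσ' _
  have h2 : η * σ ≤ ‖∑ n ∈ range σ, exp (2 * Real.pi * I * (α j * n : ℝ))‖ := by
    have := h.trans (mul_le_mul_of_nonneg_left h1 h0)
    nlinarith
  have h3 := pars_norm_mul (α j) σ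
  rw [le_div_iff₀ (by positivity)]
  have h4 := mul_le_mul_of_nonneg_right h2
    (show 0 ≤ 2 * |α j - round (α j)| by positivity)
  nlinarith

end Pool.Agent.Lib.BK2
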