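import Pool.Agent.Lib.BK2.ADefs

/-! BK2 block VIN: the lemma of Vinogradov. -/

namespace Pool.Agent.Lib.BK2

namespace VIN

/-- integers in an interval -/
theorem ints (S : Finset ℤ) (c r : ℝ) (hr : 0 ≤ r) (h : ∀ x ∈ S, |(x : ℝ) - c| ≤ r) :
    (S.card : ℝ) ≤ 2 * r + 1 := by
  have h1 : S ⊆ Finset.Icc ⌈c - r⌉ ⌊c + r⌋ := fun x hx => by
    have := abs_le.1 (h x hx)
    rw [Finset.mem_Icc, Int.ceil_le, Int.le_floor]
    constructor <;> linarith
  have h2 := Finset.card_le_card h1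
  rw [Int.card_Icc] at h2
  rcases le_or_gt 0 (⌊c + r⌋ + 1 - ⌈c - r⌉) with h3 | h3
  · have h4 : (S.card : ℤ) ≤ ⌊c + r⌋ + 1 - ⌈c - r⌉ := by omega
    have h5 : (S.card : ℝ) ≤ (⌊c + r⌋ : ℝ) + 1 - ⌈c - r⌉ := by exact_mod_cast h4
    linarith [Int.floor_le (c + r), Int.le_ceil (c - r)]
  · have h4 : S.card = 0 := by omega
    rw [h4, Nat.cast_zero]
    linarith

/-- points of a progression near the integers -/
theorem line (γ b e M : ℝ) (S : Finset ℤ) (hγ : γ ≠ 0) (he : 0 ≤ e) (hM : 0 ≤ M)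
    (h : ∀ j ∈ S, (0 : ℝ) ≤ j ∧ (j : ℝ) ≤ M ∧ ∃ n : ℤ, |j * γ + b - n| ≤ e) :
    (S.card : ℝ) ≤ (2 * e + M * |γ| + 1) * (2 * (e / |γ|) + 1) := by
  classical
  have hp : 0 < |γ| := abs_pos.2 hγ
  choose! n hn using fun j hj => (h j hj).2.2
  have h1 : ((S.image n).card : ℝ) ≤ 2 * (e + M / 2 * |γ|) + 1 := by
    refine ints _ (b + M / 2 * γ) _ (by positivity) fun x hx => ?_
    obtain ⟨j, hj, rfl⟩ := Finset.mem_image.1 hx
    have h2 : |(j - M / 2) * γ| ≤ M / 2 * |γ| := by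
      rw [abs_mul]
      refine mul_le_mul_of_nonneg_right (abs_le.2 ⟨?_, ?_⟩) hp.le <;>
        linarith [(h j hj).1, (h j hj).2.1]
    have h3 := abs_le.1 (hn j hj)
    have h4 := abs_le.1 h2
    rw [abs_le]
    constructor <;> nlinarith
  have h5 : ∀ y ∈ S.image n, ((S.filter fun j => n j = y).card : ℝ) ≤ 2 * (e / |γ|) + 1 := by
    intro y _
    refine ints _ ((y - b) / γ) _ (by positivity) fun j hj => ?_
    obtain ⟨hj', e1⟩ := Finset.mem_filter.1 hj
    rw [le_div_iff₀ hp, ← abs_mul, sub_mul, div_mul_cancel₀ _ hγ, ← sub_add, sub_add_eq_add_sub,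
      ← e1]
    exact hn j hj'
  rw [Finset.card_eq_sum_card_image n S, Nat.cast_sum]
  refine (Finset.sum_le_card_nsmul _ _ _ h5).trans ?_
  rw [nsmul_eq_mul]
  exact mul_le_mul_of_nonneg_right (by linarith) (by positivity)

/-- two close elements of a dense set -/
theorem close (θ : ℝ) (Lg : ℕ) (G : Finset ℕ) (h0 : 0 < θ) (h4 : 4 ≤ θ * Lg)
    (hG : G ⊆ Finset.range Lg) (h : θ * Lg ≤ G.card) :
    ∃ q : ℕ, 1 ≤ q ∧ (q : ℝ) ≤ 2 / θ ∧ ∃ l ∈ G, l + q ∈ G := by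
  set Q := ⌊2 / θ⌋₊ with hQ
  have h1 : 2 / θ < Q + 1 := Nat.lt_floor_add_one _
  have h2 : (Q : ℝ) ≤ 2 / θ := Nat.floor_le (by positivity)
  have h3 : (Finset.range (Lg / (Q + 1) + 1)).card < G.card := by
    rw [Finset.card_range]
    have h5 : ((Lg / (Q + 1) : ℕ) : ℝ) ≤ Lg / (Q + 1 : ℕ) := Nat.cast_div_le
    have h6 : (Lg : ℝ) / (Q + 1 : ℕ) ≤ θ * Lg / 2 := by
      rw [div_lt_iff₀ h0] at h1
      rw [div_le_div_iff₀ (by positivity) (by norm_num)]
      push_cast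
      nlinarith [Nat.cast_nonneg (α := ℝ) Lg]
    have h7 : ((Lg / (Q + 1) + 1 : ℕ) : ℝ) < G.card := by
      rw [Nat.cast_add, Nat.cast_one]
      linarith
    exact_mod_cast h7
  obtain ⟨x, hx, y, hy, hne, e⟩ := Finset.exists_ne_map_eq_of_card_lt_of_maps_to h3
    (f := fun l => l / (Q + 1)) fun l hl => by
      have := Finset.mem_range.1 (hG hl)
      exact Finset.mem_coe.2 (Finset.mem_range.2 (Nat.lt_succ_of_le (Nat.div_le_div_right this.le)))
  have key : ∀ x ∈ G, ∀ y ∈ G, x < y → x / (Q + 1) = y / (Q + 1) →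
      ∃ q : ℕ, 1 ≤ q ∧ (q : ℝ) ≤ 2 / θ ∧ ∃ l ∈ G, l + q ∈ G := fun x hx y hy hlt e => by
    have a1 := Nat.div_add_mod x (Q + 1)
    have a2 := Nat.div_add_mod y (Q + 1)
    have a3 : y % (Q + 1) < Q + 1 := Nat.mod_lt y Q.succ_pos
    rw [e] at a1
    have a4 : y - x ≤ Q := by
      generalize (Q + 1) * (y / (Q + 1)) = z at a1 a2
      generalize y % (Q + 1) = u at a2 a3
      generalize x % (Q + 1) = v at a1
      clear_value Q
      omega
    exact ⟨y - x, by omega, (Nat.cast_le.2 a4).trans h2, x, hx, by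
      rwa [Nat.add_sub_cancel' hlt.le]⟩
  rcases lt_or_gt_of_ne hne with h8 | h8
  · exact key x hx y hy h8 e
  · exact key y hy x hx h8 e.symm

end VIN

theorem stVIN : St_VIN := by
  classical
  intro α β θ e Lg h0 h1 h4 he he' h
  set G := (Finset.range Lg).filter fun l : ℕ => ∃ n : ℤ, |l * α + β - n| ≤ e with hG
  obtain ⟨q, hq, hq', l, hl, hl'⟩ := VIN.close θ Lg G h0 h4 (Finset.filter_subset _ _) h
  obtain ⟨n₁, a1⟩ := (Finset.mem_filter.1 hl).2
  obtain ⟨n₂, a2⟩ := (Finset.mem_filter.1 hl').2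
  refine ⟨q, hq, hq', n₂ - n₁, ?_⟩
  set γ : ℝ := q * α - (n₂ - n₁ : ℤ) with hγ
  have hL : (0 : ℝ) < Lg := by
    rcases Nat.eq_zero_or_pos Lg with h5 | h5
    · rw [h5] at h4
      norm_num at h4
    · exact_mod_cast h5
  have hq0 : (0 : ℝ) < q := by exact_mod_cast hq
  have b1 : |γ| ≤ 2 * e := by
    have c1 := abs_le.1 a1
    have c2 := abs_le.1 a2
    push_cast at c2 hγ
    rw [abs_le, hγ]
    constructor <;> nlinarith
  by_cases hz : γ = 0
  · rw [hz, abs_zero]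
    positivity
  have hp : 0 < |γ| := abs_pos.2 hz
  have b2 : ∀ a ∈ Finset.range q, ((G.filter fun l => l % q = a).card : ℝ) ≤
      (2 * e + Lg / q * |γ| + 1) * (2 * (e / |γ|) + 1) := fun a _ => by
    rw [← Finset.card_image_of_injOn (f := fun l : ℕ => ((l / q : ℕ) : ℤ)) fun x hx y hy e => by
      have c1 := (Finset.mem_filter.1 hx).2
      have c2 := (Finset.mem_filter.1 hy).2
      have c3 : x / q = y / q := Int.natCast_inj.1 e
      rw [← Nat.div_add_mod x q, ← Nat.div_add_mod y q, c1, c2, c3]]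
    refine VIN.line γ (a * α + β) e _ _ hz he.le (by positivity) fun j hj => ?_
    obtain ⟨x, hx, rfl⟩ := Finset.mem_image.1 hj
    obtain ⟨hx, c1⟩ := Finset.mem_filter.1 hx
    obtain ⟨c2, n, c3⟩ := Finset.mem_filter.1 hx
    rw [Int.cast_natCast]
    refine ⟨Nat.cast_nonneg _, Nat.cast_div_le.trans (div_le_div_of_nonneg_right
      (by exact_mod_cast (Finset.mem_range.1 c2).le) hq0.le), n - (x / q : ℕ) * (n₂ - n₁), ?_⟩
    have c4 : (x : ℝ) = q * (x / q : ℕ) + a := by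
      rw [← c1]
      exact_mod_cast (Nat.div_add_mod x q).symm
    refine le_of_eq_of_le (congrArg _ ?_) c3
    rw [hγ, Int.cast_sub n, Int.cast_mul, Int.cast_natCast]
    linear_combination (-α) * c4
  have b3 : (G.card : ℝ) ≤ q * ((2 * e + Lg / q * |γ| + 1) * (2 * (e / |γ|) + 1)) := by
    rw [Finset.card_eq_sum_card_fiberwise (f := fun l => l % q) (t := Finset.range q)
      fun l _ => Finset.mem_coe.2 (Finset.mem_range.2 (Nat.mod_lt _ hq)), Nat.cast_sum]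
    refine (Finset.sum_le_card_nsmul _ _ _ b2).trans ?_
    rw [nsmul_eq_mul, Finset.card_range]
  have b4 : 2 * (e / |γ|) + 1 ≤ 4 * e / |γ| := by
    rw [le_div_iff₀ hp, add_mul, mul_assoc, div_mul_cancel₀ _ hp.ne']
    linarith
  have b5 : θ * Lg * |γ| ≤ (q * (2 * e + 1) + Lg * |γ|) * (4 * e) := by
    have c1 : (q : ℝ) * (2 * e + Lg / q * |γ| + 1) = q * (2 * e + 1) + Lg * |γ| := by
      field_simp
      ring
    rw [← le_div_iff₀ hp, mul_div_assoc, ← c1, mul_assoc]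
    exact h.trans (b3.trans (mul_le_mul_of_nonneg_left
      (mul_le_mul_of_nonneg_left b4 (by positivity)) hq0.le))
  rw [le_div_iff₀ h0] at hq'
  rw [le_div_iff₀ (by positivity)]
  have b6 : Lg * |γ| * (4 * e) ≤ θ * Lg * |γ| / 8 := by nlinarith [mul_pos hL hp]
  have b7 : θ * Lg * |γ| ≤ 16 * q * e := by nlinarith [mul_pos hq0 he]
  nlinarith [mul_le_mul_of_nonneg_left b7 h0.le, mul_le_mul_of_nonneg_left hq' he.le]

end Pool.Agent.Lib.BK2
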