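import Pool.Agent.Lib.BK2.VAR
import Pool.Agent.Lib.BK2.VIN
import Pool.Agent.Lib.BK2.PARS
import Pool.Agent.Lib.BK2.KERN

/-! BK2 section A: the variance bound without hypotheses. -/

namespace Pool.Agent.Lib.BK2

theorem stVAR0 : St_VAR := stVAR stPARS stDIR stKERN (stARC stVIN)

end Pool.Agent.Lib.BK2
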