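import Pool.Agent.Lib.BK2.LA

/-! BK2, few large Fourier coefficients. -/

namespace Pool.Agent.Lib.BK2

open Finset
open scoped Classical

namespace L1

variable {G₀ κ : Type} [AddCommGroup G₀] [Fintype G₀] {N : ℕ} [NeZero N] {P : ℕ} {T : Finset κ}
  {w a : κ → ℝ} {p : κ → G₀ × ZMod N} {c0 η C : ℝ} {j C1 : ℕ}

lemma cluster (hF : St_LF) (h : FamL P T w a p c0 η) (hj : 1 ≤ j) (hD : Dens P T w p j C)
    (hC : 336 * C * j ≤ C1) {I : Type} (S : Finset I) (χ : I → AddChar G₀ ℂ) (t : I → ZMod N)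
    (hS : ∀ i ∈ S, 1 - 1 / (8 * j : ℝ) ≤ ‖hat T w p (χ i) (t i)‖)
    (hi : Set.InjOn (fun q : I × ℕ => (χ q.1, t q.1 + ((q.2 : ℤ) : ZMod N)))
      (S ×ˢ range (P / (168 * j) + 1) : Finset (I × ℕ))) : S.card ≤ C1 := by
  have hP : (0 : ℝ) < P := by exact_mod_cast h.one
  have hj' : (1 : ℝ) ≤ j := by exact_mod_cast hj
  have hN : (0 : ℝ) < Fintype.card G₀ * N := by
    have := NeZero.pos N
    have := Fintype.card_pos (α := G₀)
    positivity
  have h1 := hF.par G₀ κ N T w p j _ h.law.nn h.law.one hD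
  rw [div_mul_cancel₀ _ hN.ne', ← sum_product'] at h1
  have h2 : ∀ q ∈ S ×ˢ range (P / (168 * j) + 1),
      (1 / 2 : ℝ) ≤ ‖hat T w p (χ q.1) (t q.1 + ((q.2 : ℤ) : ZMod N))‖ ^ (2 * j) := fun q hq => by
    obtain ⟨h3, h4⟩ := mem_product.1 hq
    have h5 : (168 * j * q.2 : ℝ) ≤ P := by
      exact_mod_cast (Nat.mul_le_mul_left _ (Nat.lt_succ_iff.1 (mem_range.1 h4))).trans
        (Nat.mul_div_le P (168 * j))
    have h6 := hF.shift G₀ κ N P T w a p c0 η h (χ q.1) (t q.1) q.2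
    have h7 : 21 * |((q.2 : ℤ) : ℝ)| / P ≤ 1 / (8 * j : ℝ) := by
      rw [Int.cast_natCast, Nat.abs_cast, div_le_div_iff₀ hP (by positivity)]
      linarith
    have h8 := norm_sub_norm_le (hat T w p (χ q.1) (t q.1))
      (hat T w p (χ q.1) (t q.1 + ((q.2 : ℤ) : ZMod N)))
    rw [norm_sub_rev] at h8
    have h9 : 1 / (8 * j : ℝ) ≤ 1 / 8 := by
      apply one_div_le_one_div_of_le <;> linarith
    have h10 := one_add_mul_le_pow (a := -(2 * (1 / (8 * j : ℝ)))) (by linarith) (2 * j)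
    refine le_trans (le_trans (le_of_eq ?_) h10) (pow_le_pow_left₀ (by linarith) ?_ _)
    · push_cast
      field_simp
      ring
    · linarith [hS _ h3]
  have h3 := card_nsmul_le_sum _ _ _ h2
  rw [← sum_image (f := fun q : AddChar G₀ ℂ × ZMod N => ‖hat T w p q.1 q.2‖ ^ (2 * j)) hi,
    card_product, card_range, nsmul_eq_mul] at h3
  have h4 := h3.trans ((sum_le_sum_of_subset_of_nonneg (subset_univ _)
    fun _ _ _ => by positivity).trans h1)
  have h5 : (P : ℝ) ≤ 168 * j * ((P / (168 * j) + 1 : ℕ) : ℝ) := by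
    exact_mod_cast (Nat.lt_mul_div_succ P (by omega : 0 < 168 * j)).le
  rw [Nat.cast_mul] at h4
  have h6 : (S.card : ℝ) * P ≤ C1 * P := by
    nlinarith [mul_le_mul_of_nonneg_left h5 (Nat.cast_nonneg S.card),
      mul_le_mul_of_nonneg_left h4 (by positivity : (0 : ℝ) ≤ 336 * j),
      mul_le_mul_of_nonneg_right hC hP.le]
  exact_mod_cast le_of_mul_le_mul_right h6 hP

lemma lift_le {t : ZMod N} {q r : ℤ} (hN : 2 * (P / 2) < N) (ht : 2 * C1 * t.valMinAbs.natAbs < N)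
    (hq : q ≠ 0) (hq' : q.natAbs ≤ C1) (hr : r.natAbs ≤ P / 2) (h : (q : ZMod N) * t = r) :
    t.valMinAbs.natAbs ≤ r.natAbs := by
  have h1 : ((q * t.valMinAbs - r : ℤ) : ZMod N) = 0 := by
    push_cast
    rw [h, sub_self]
  have h2 : (q * t.valMinAbs).natAbs ≤ C1 * t.valMinAbs.natAbs := by
    rw [Int.natAbs_mul]
    exact Nat.mul_le_mul_right _ hq'
  rw [mul_assoc] at ht
  have h3 := Int.eq_zero_of_dvd_of_natAbs_lt_natAbs
    ((ZMod.intCast_zmod_eq_zero_iff_dvd _ _).1 h1) (by omega)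
  rw [← sub_eq_zero.1 h3, Int.natAbs_mul]
  exact Nat.le_mul_of_pos_left _ (Int.natAbs_pos.2 hq)

lemma cast_inj (hN : 2 * (P / 2) < N) (hj : 1 ≤ j) {u v : ℕ} (hu : u ∈ range (P / (168 * j) + 1))
    (hv : v ∈ range (P / (168 * j) + 1)) :
    ((u : ℤ) - v).natAbs ≤ P / 2 ∧ (((u : ℤ) : ZMod N) = ((v : ℤ) : ZMod N) → u = v) := by
  have h1 : P / (168 * j) ≤ P / 2 := Nat.div_le_div_left (by omega) (by omega)
  rw [mem_range] at hu hv
  refine ⟨by omega, fun h => ?_⟩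
  have h3 := Int.eq_zero_of_dvd_of_natAbs_lt_natAbs
    ((ZMod.intCast_eq_intCast_iff_dvd_sub _ _ _).1 h) (by omega)
  omega

end L1

theorem stL1 (hF : St_LF) : St_L1 := by
  intro G₀ κ _ _ N _ P T w a p c0 η C j C1 h hj hD hC hC1
  have hj' : (1 : ℝ) ≤ j := by exact_mod_cast hj
  have hC' : (1 : ℝ) ≤ C1 := by exact_mod_cast hC1
  refine ⟨fun B hB => ?_, fun hW t ht => ?_⟩
  · choose! t ht using hB
    refine L1.cluster hF h hj hD hC B id t ht ?_
    rintro ⟨χ, u⟩ hu ⟨χ', v⟩ hv h1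
    obtain ⟨rfl, h2⟩ : χ = χ' ∧ _ := Prod.ext_iff.1 h1
    exact Prod.ext rfl ((L1.cast_inj h.lt hj (mem_product.1 hu).2 (mem_product.1 hv).2).2
      (add_left_cancel h2))
  by_contra h1
  have h2 : 1 / (8 * j * C1 ^ 2 : ℝ) ≤ 1 / 2 := by
    apply one_div_le_one_div_of_le <;> nlinarith
  have h3 := hW 1 t (by linarith)
  refine Nat.not_succ_le_self C1 ((card_range _).ge.trans (L1.cluster hF h hj hD hC (range (C1 + 1))
    (fun _ => 1) (fun r => r * t) (fun r hr => ?_) ?_))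
  · have h4 := hF.pow G₀ κ N T w p h.law.nn h.law.one 1 t r
    have h5 : (r : ℝ) ≤ C1 := by exact_mod_cast Nat.lt_succ_iff.1 (mem_range.1 hr)
    have h6 : (r : ℝ) ^ 2 * (1 - ‖hat T w p 1 t‖) ≤ C1 ^ 2 * (1 / (8 * j * C1 ^ 2 : ℝ)) :=
      (mul_le_mul_of_nonneg_left (by linarith) (sq_nonneg _)).trans
        (mul_le_mul_of_nonneg_right (pow_le_pow_left₀ (Nat.cast_nonneg r) h5 2) (by positivity))
    have h7 : (C1 : ℝ) ^ 2 * (1 / (8 * j * C1 ^ 2 : ℝ)) = 1 / (8 * j) := by field_simp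
    rw [one_pow] at h4
    linarith
  · rintro ⟨r, u⟩ hu ⟨r', v⟩ hv h4
    have h5 : (r : ZMod N) * t + ((u : ℤ) : ZMod N) = r' * t + ((v : ℤ) : ZMod N) :=
      (Prod.ext_iff.1 h4).2
    have h6 := L1.cast_inj (u := v) (v := u) h.lt hj (mem_product.1 hv).2 (mem_product.1 hu).2
    by_cases h7 : r = r'
    · subst h7
      rw [h6.2 (add_left_cancel h5).symm]
    have h8 : r < C1 + 1 := mem_range.1 (mem_product.1 hu).1
    have h9 : r' < C1 + 1 := mem_range.1 (mem_product.1 hv).1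
    have h10 := L1.lift_le (q := (r : ℤ) - r') h.lt h3 (by omega) (by omega) h6.1 (by
      push_cast at h5 ⊢
      linear_combination h5)
    have h11 := h6.1
    exact (h1 ⟨t.valMinAbs, mem_Icc.2 (by omega), (ZMod.coe_valMinAbs t).symm⟩).elim

end Pool.Agent.Lib.BK2
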