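import Pool.Agent.Lib.BK2.L1

/-! BK2, the group of bad characters and the majority set. -/

namespace Pool.Agent.Lib.BK2

open Finset
open scoped Classical

namespace L2

variable {G₀ κ : Type} [AddCommGroup G₀] [Fintype G₀] {N : ℕ} [NeZero N] {P : ℕ} {T : Finset κ}
  {w a : κ → ℝ} {p : κ → G₀ × ZMod N} {c0 η C : ℝ} {j C1 : ℕ}

omit [Fintype G₀] in
lemma hat_zero (χ : AddChar G₀ ℂ) : hat T w p χ 0 = LA.Ex T w fun x => χ (p x).1 := by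
  simp [hat, chL, LA.Ex]

lemma major (h : LA.Pr T w) {Γ : Finset (AddChar G₀ ℂ)} (h1 : 1 ∈ Γ)
    (hm : ∀ a ∈ Γ, ∀ b ∈ Γ, a * b ∈ Γ) {δ : ℝ} (hδ : ∀ χ ∈ Γ, 1 - ‖hat T w p χ 0‖ ≤ δ) :
    ∃ c : AddChar G₀ ℂ → ℂ,
      1 - 2 * δ ≤ ∑ x ∈ T.filter fun x => ∀ χ ∈ Γ, χ (p x).1 = c χ, w x := by
  have hT : T.Nonempty := nonempty_of_sum_ne_zero (by rw [h.2]; exact one_ne_zero)
  have hΓ : (0 : ℝ) < Γ.card := by exact_mod_cast card_pos.2 ⟨1, h1⟩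
  obtain ⟨y, hy, hmin⟩ := exists_min_image T
    (fun y => ∑ z ∈ T, w z * ∑ χ ∈ Γ, ‖χ (p y).1 - χ (p z).1‖ ^ 2) hT
  have h2 : ∑ z ∈ T, w z * ∑ χ ∈ Γ, ‖χ (p y).1 - χ (p z).1‖ ^ 2 ≤ Γ.card * (4 * δ) := by
    have h3 := h.mono hmin
    rw [← sum_mul, h.2, one_mul] at h3
    refine h3.trans (le_trans (le_of_eq ?_) ((sum_le_card_nsmul Γ
      (fun χ => LA.Qf T w fun x => χ (p x).1) (4 * δ) fun χ hχ => ?_).trans (nsmul_eq_mul _ _).le))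
    · simp only [LA.Qf, mul_sum]
      exact ((sum_comm.trans (sum_congr rfl fun _ _ => sum_comm))).symm
    · have h4 := hδ χ hχ
      rw [hat_zero] at h4
      linarith [h.qf_le (u := fun x => χ (p x).1) fun x => χ.norm_apply _]
  refine ⟨fun χ => χ (p y).1, ?_⟩
  have h3 := sum_filter_add_sum_filter_not T (fun x => ∀ χ ∈ Γ, χ (p x).1 = χ (p y).1) w
  have h4 : (∑ x ∈ T.filter fun x => ¬∀ χ ∈ Γ, χ (p x).1 = χ (p y).1, w x) * (2 * Γ.card) ≤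
      Γ.card * (4 * δ) := by
    rw [sum_mul]
    refine le_trans (le_trans (le_of_eq (sum_congr rfl fun x hx => ?_))
      (sum_le_sum_of_subset_of_nonneg (filter_subset _ _) fun x hx _ =>
        mul_nonneg (h.1 x hx) (sum_nonneg fun _ _ => sq_nonneg _))) h2
    obtain ⟨χ, h5, h6⟩ := by simpa using (mem_filter.1 hx).2
    rw [LA.sum_sq hm h5 (Ne.symm h6)]
  rw [h.2] at h3
  have h5 : (∑ x ∈ T.filter fun x => ¬∀ χ ∈ Γ, χ (p x).1 = χ (p y).1, w x) ≤ 2 * δ :=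
    le_of_mul_le_mul_right (a := 2 * (Γ.card : ℝ)) (by linarith) (by linarith)
  linarith

end L2

theorem stL2 (hF : St_LF) (h1 : St_L1) : St_L2 := by
  intro C1 c0 hc0
  refine ⟨2 * (1 + 21 * √((C1 ^ 2 + 4) / (8 * c0))), by positivity, ?_⟩
  intro G₀ κ _ _ N _ P T w a p η C j h hj hD hC hC1 hW b1 b2 hb1 hb hb2 hb3 hgap
  have hj' : (1 : ℝ) ≤ j := by exact_mod_cast hj
  have hP : (0 : ℝ) < P := by exact_mod_cast h.one
  have hPr : LA.Pr T w := ⟨h.law.nn, h.law.one⟩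
  have h8 : 1 / (8 * j : ℝ) ≤ 1 / 8 := by
    apply one_div_le_one_div_of_le <;> linarith
  have hη : 0 ≤ η := by
    obtain ⟨x, hx⟩ : T.Nonempty := nonempty_of_sum_ne_zero (by rw [hPr.2]; exact one_ne_zero)
    obtain ⟨z, -, hz⟩ := h.pos x hx
    exact (abs_nonneg _).trans hz
  obtain ⟨hL, hL'⟩ := h1 G₀ κ N P T w a p c0 η C j C1 h hj hD hC hC1
  obtain ⟨Γ, hΓ⟩ : ∃ Γ : Finset (AddChar G₀ ℂ), ∀ χ, χ ∈ Γ ↔ ∃ t, 1 - b1 ≤ ‖hat T w p χ t‖ :=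
    ⟨univ.filter fun χ => ∃ t, 1 - b1 ≤ ‖hat T w p χ t‖, by simp⟩
  have hone : 1 ∈ Γ := (hΓ 1).2 ⟨0, by
    rw [L2.hat_zero, LA.Ex]
    simp only [AddChar.one_apply, mul_one, ← Complex.ofReal_sum, hPr.2]
    simpa using hb1⟩
  have hmul : ∀ χ ∈ Γ, ∀ χ' ∈ Γ, χ * χ' ∈ Γ := fun χ hχ χ' hχ' => by
    obtain ⟨t, ht⟩ := (hΓ χ).1 hχ
    obtain ⟨t', ht'⟩ := (hΓ χ').1 hχ'
    refine (hΓ _).2 ((hgap _).resolve_right fun h2 => ?_)
    have h3 := (hF.tri G₀ κ N T w p hPr.1 hPr.2 χ χ' t t').trans (add_le_add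
      (Real.sqrt_le_sqrt (y := b1) (by linarith)) (Real.sqrt_le_sqrt (y := b1) (by linarith)))
    have h4 := Real.sqrt_le_left (by positivity) |>.1 h3
    nlinarith [h2 (t + t'), Real.sq_sqrt hb1]
  have hcard : Γ.card ≤ C1 := hL Γ fun χ hχ => ((hΓ χ).1 hχ).imp fun t ht => by linarith
  have hpos : 0 < Γ.card := card_pos.2 ⟨1, hone⟩
  have hδ : ∀ χ ∈ Γ, 1 - ‖hat T w p χ 0‖ ≤
      (1 + 21 * √((C1 ^ 2 + 4) / (8 * c0))) * √(b1 + η) := fun χ hχ => by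
    obtain ⟨t, ht⟩ := (hΓ χ).1 hχ
    have h2 := hF.pow G₀ κ N T w p hPr.1 hPr.2 χ t Γ.card
    rw [LA.pow_card hmul hχ] at h2
    have h3 : (Γ.card : ℝ) ^ 2 * (1 - ‖hat T w p χ t‖) ≤ C1 ^ 2 * b1 :=
      (mul_le_mul_of_nonneg_left (by linarith) (sq_nonneg _)).trans (mul_le_mul_of_nonneg_right
        (pow_le_pow_left₀ (Nat.cast_nonneg _) (by exact_mod_cast hcard) 2) hb1)
    obtain ⟨τ, hτ, h4⟩ := hL' hW (Γ.card * t) (by linarith)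
    have h5 : τ.natAbs ≤ P / 2 := by
      have := mem_Icc.1 hτ
      omega
    have h6 := L1.lift_le (q := Γ.card) h.lt (hW χ t (by linarith)) (by omega) (by omega) h5
      (by simpa using h4)
    have h7 : |(τ : ℝ) / P| ≤ 1 / 2 := by
      rw [abs_div, abs_of_pos hP, div_le_div_iff₀ hP two_pos, ← Int.cast_abs, ← Nat.cast_natAbs]
      exact_mod_cast (by omega : τ.natAbs * 2 ≤ 1 * P)
    have h9 := hF.var κ T w a c0 _ h.law h7
    have h10 := (norm_sub_norm_le _ _).trans (hF.cmp G₀ κ N P T w a p c0 η h τ hτ)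
    rw [h4] at h2
    have h11 : |(τ : ℝ) / P| ≤ √((C1 ^ 2 + 4) / (8 * c0)) * √(b1 + η) := by
      rw [← Real.sqrt_mul (by positivity)]
      refine Real.abs_le_sqrt ?_
      rw [div_mul_eq_mul_div, le_div_iff₀ (by positivity)]
      nlinarith [mul_nonneg (sq_nonneg (C1 : ℝ)) hη]
    have h12 := (norm_sub_norm_le _ _).trans
      (hF.shift G₀ κ N P T w a p c0 η h χ 0 t.valMinAbs)
    rw [zero_add, ZMod.coe_valMinAbs] at h12
    have h13 : |(t.valMinAbs : ℝ)| / P ≤ |(τ : ℝ) / P| := by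
      rw [abs_div, abs_of_pos hP, ← Int.cast_abs, ← Int.cast_abs, ← Nat.cast_natAbs,
        ← Nat.cast_natAbs]
      exact div_le_div_of_nonneg_right (by exact_mod_cast h6) hP.le
    have h14 : b1 ≤ √(b1 + η) := Real.le_sqrt_of_sq_le (by nlinarith)
    rw [mul_div_assoc] at h12
    nlinarith
  obtain ⟨c, hc⟩ := L2.major hPr hone hmul hδ
  refine ⟨Γ, c, hone, hcard, fun χ hχ => ?_, fun χ hχ => (hgap χ).resolve_left ((hΓ χ).not.1 hχ),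
    by rwa [mul_assoc]⟩
  obtain ⟨r, hr⟩ := Nat.dvd_factorial hpos hcard
  rw [hr, pow_mul, LA.pow_card hmul hχ, one_pow]

end Pool.Agent.Lib.BK2
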