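import Pool.Agent.Lib.BK2.LDefs

set_option linter.unusedVariables false
set_option linter.unusedSectionVars false

namespace Pool.Agent.Lib.BK2

open Finset
open scoped Classical

namespace L3

variable {G₀ κ : Type} [AddCommGroup G₀] [Fintype G₀] {N : ℕ} [NeZero N]

lemma norm_ch (χ : AddChar G₀ ℂ) (t : ZMod N) (y : G₀ × ZMod N) : ‖chL χ t y‖ = 1 := by
  unfold chL
  rw [norm_mul, AddChar.norm_apply, AddChar.norm_apply, one_mul]

lemma norm_ee (x : ℝ) : ‖ee x‖ = 1 := by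
  unfold ee
  have : (2 * Real.pi * x * Complex.I : ℂ) = ((2 * Real.pi * x : ℝ) : ℂ) * Complex.I := by
    push_cast; ring
  rw [this, Complex.norm_exp_ofReal_mul_I]

lemma chf_le {ι : Type} (S : Finset ι) (w a : ι → ℝ) (hw : ∀ i ∈ S, 0 ≤ w i)
    (h1 : ∑ i ∈ S, w i = 1) (θ : ℝ) : ‖chf S w a θ‖ ≤ 1 := by
  unfold chf
  refine (norm_sum_le _ _).trans ?_
  rw [← h1]
  refine sum_le_sum fun i hi => ?_
  rw [norm_mul, norm_ee, mul_one, Complex.norm_real, Real.norm_of_nonneg (hw i hi)]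

lemma pow_sub_le (A B : ℂ) (hA : ‖A‖ ≤ 1) (hB : ‖B‖ ≤ 1) (m : ℕ) :
    ‖A ^ m - B ^ m‖ ≤ m * ‖A - B‖ := by
  induction m with
  | zero => simp
  | succ k ih =>
    have : A ^ (k + 1) - B ^ (k + 1) = A * (A ^ k - B ^ k) + (A - B) * B ^ k := by ring
    rw [this]
    have h1 : ‖A * (A ^ k - B ^ k)‖ ≤ k * ‖A - B‖ := by
      rw [norm_mul]
      calc ‖A‖ * ‖A ^ k - B ^ k‖ ≤ 1 * (k * ‖A - B‖) :=
            mul_le_mul hA ih (norm_nonneg _) zero_le_one
        _ = _ := one_mul _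
    have h2 : ‖(A - B) * B ^ k‖ ≤ ‖A - B‖ := by
      rw [norm_mul, norm_pow]
      exact mul_le_of_le_one_right (norm_nonneg _) (pow_le_one₀ (norm_nonneg _) hB)
    refine (norm_add_le _ _).trans ?_
    push_cast
    linarith

lemma hat_close (T M : Finset κ) (w : κ → ℝ) (p : κ → G₀ × ZMod N) (ε : ℝ) (hM : M ⊆ T)
    (hw : ∀ x ∈ T, 0 ≤ w x) (h1 : ∑ x ∈ T, w x = 1) (hε : 1 - ε ≤ ∑ x ∈ M, w x)
    (hW : 0 < ∑ x ∈ M, w x) (χ : AddChar G₀ ℂ) (t : ZMod N) :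
    ‖hat M (fun x => w x / ∑ x ∈ M, w x) p χ t - hat T w p χ t‖ ≤ 2 * ε := by
  set W := ∑ x ∈ M, w x with hWd
  have hsplit : ∑ x ∈ T \ M, w x + W = 1 := by rw [hWd, sum_sdiff hM, h1]
  have hr : 0 ≤ ∑ x ∈ T \ M, w x := sum_nonneg fun x hx => hw x (sdiff_subset hx)
  have hW1 : W ≤ 1 := by linarith
  have e : hat M (fun x => w x / W) p χ t - hat T w p χ t =
      ∑ x ∈ M, ((w x / W - w x : ℝ) : ℂ) * chL χ t (p x) -
        ∑ x ∈ T \ M, (w x : ℂ) * chL χ t (p x) := by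
    unfold hat
    rw [← sum_sdiff hM]
    simp only [Complex.ofReal_sub, sub_mul, sum_sub_distrib]
    ring
  rw [e]
  have a1 : ‖∑ x ∈ M, ((w x / W - w x : ℝ) : ℂ) * chL χ t (p x)‖ ≤ 1 - W := by
    refine (norm_sum_le _ _).trans ?_
    have : ∑ x ∈ M, (w x / W - w x) = 1 - W := by
      rw [sum_sub_distrib, ← sum_div, ← hWd, div_self hW.ne']
    rw [← this]
    refine sum_le_sum fun x hx => ?_
    have h0 : 0 ≤ w x / W - w x := by
      rw [sub_nonneg, le_div_iff₀ hW]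
      exact mul_le_of_le_one_right (hw x (hM hx)) hW1
    rw [norm_mul, norm_ch, mul_one, Complex.norm_real, Real.norm_of_nonneg h0]
  have a2 : ‖∑ x ∈ T \ M, (w x : ℂ) * chL χ t (p x)‖ ≤ 1 - W := by
    refine (norm_sum_le _ _).trans ?_
    have : ∑ x ∈ T \ M, w x = 1 - W := by linarith
    rw [← this]
    refine sum_le_sum fun x hx => ?_
    rw [norm_mul, norm_ch, mul_one, Complex.norm_real,
      Real.norm_of_nonneg (hw x (sdiff_subset hx))]
  refine (norm_sub_le _ _).trans ?_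
  linarith

omit [Fintype G₀] [NeZero N] in
lemma tup_le (T M : Finset κ) (w : κ → ℝ) (p : κ → G₀ × ZMod N) (hM : M ⊆ T)
    (hw : ∀ x ∈ T, 0 ≤ w x) (W : ℝ) (hW : 1 / 2 ≤ W) (j : ℕ) (y : G₀ × ZMod N) :
    tupP M (fun x => w x / W) p j y ≤ 2 ^ j * tupP T w p j y := by
  unfold tupP
  rw [mul_sum]
  have hsub : Fintype.piFinset (fun _ : Fin j => M) ⊆ Fintype.piFinset (fun _ : Fin j => T) :=
    Fintype.piFinset_subset _ _ fun _ => hM
  refine le_trans (sum_le_sum fun f hf => ?_)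
    (sum_le_sum_of_subset_of_nonneg hsub fun f hf _ => ?_)
  · split_ifs
    · have hf' := Fintype.mem_piFinset.1 hf
      have : (2 : ℝ) ^ j * ∏ i, w (f i) = ∏ i : Fin j, (2 * w (f i)) := by
        rw [prod_mul_distrib, prod_const, card_univ, Fintype.card_fin]
      rw [this]
      refine prod_le_prod (fun i _ => div_nonneg (hw _ (hM (hf' i))) (by linarith)) fun i _ => ?_
      rw [div_le_iff₀ (by linarith)]
      nlinarith [hw _ (hM (hf' i))]
    · simp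
  · have hf' := Fintype.mem_piFinset.1 hf
    split_ifs
    · exact mul_nonneg (by positivity) (prod_nonneg fun i _ => hw _ (hf' i))
    · simp

lemma frq_abs {P : ℕ} {τ : ℤ} (h : τ ∈ frq P) : |τ| ≤ ((P / 2 : ℕ) : ℤ) := by
  unfold frq at h
  rw [mem_Icc] at h
  exact abs_le.2 h

lemma frq_inj {P : ℕ} (hlt : 2 * (P / 2) < N) :
    Set.InjOn (fun τ : ℤ => (τ : ZMod N)) (frq P : Set ℤ) := by
  intro x hx y hy hxy
  have h1 := frq_abs (mem_coe.1 hx)
  have h2 := frq_abs (mem_coe.1 hy)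
  have hd : (N : ℤ) ∣ y - x := (ZMod.intCast_eq_intCast_iff_dvd_sub x y N).1 hxy
  have hl : |y - x| < (N : ℤ) := by
    have : ((2 * (P / 2) : ℕ) : ℤ) < N := by exact_mod_cast hlt
    push_cast at this h1 h2
    rw [abs_le] at h1 h2
    rw [abs_lt]
    constructor <;> linarith [h1.1, h1.2, h2.1, h2.2]
  have := Int.eq_zero_of_abs_lt_dvd hd hl
  linarith

lemma card_frq (P : ℕ) (hP : 1 ≤ P) : ((frq P).card : ℝ) ≤ 2 * P := by
  unfold frq
  rw [Int.card_Icc]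
  have : (((P / 2 : ℕ) : ℤ) + 1 - -((P / 2 : ℕ) : ℤ)).toNat ≤ 2 * P := by omega
  exact_mod_cast this

lemma frq_div {P : ℕ} (hP : 1 ≤ P) {τ : ℤ} (h : τ ∈ frq P) : |(τ : ℝ) / P| ≤ 1 / 2 := by
  have h1 := frq_abs h
  have h2 : 2 * |τ| ≤ (P : ℤ) := by omega
  have h3 : 2 * |(τ : ℝ)| ≤ P := by exact_mod_cast h2
  have hP' : (0 : ℝ) < P := by exact_mod_cast hP
  rw [abs_div, abs_of_pos hP', div_le_iff₀ hP']
  linarith

lemma hat_mem (M : Finset κ) (u : κ → ℝ) (p : κ → G₀ × ZMod N) (χ : AddChar G₀ ℂ) (c : ℂ)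
    (h : ∀ x ∈ M, χ (p x).1 = c) (t : ZMod N) : hat M u p χ t = c * hat M u p 1 t := by
  unfold hat chL
  rw [mul_sum]
  refine sum_congr rfl fun x hx => ?_
  rw [h x hx, AddChar.one_apply]
  ring

end L3

/-- The local limit theorem on the majority set, window hypothesis over `ZMod N`. -/
def St_L3z : Prop := ∀ (G₀ κ : Type) [AddCommGroup G₀] [Fintype G₀] (N : ℕ) [NeZero N] (P : ℕ)
  (T : Finset κ) (w a : κ → ℝ) (p : κ → G₀ × ZMod N) (c0 η C : ℝ) (j : ℕ),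
  FamL P T w a p c0 η → 1 ≤ j → Dens P T w p j C → ∀ (M : Finset κ) (ε b : ℝ), M ⊆ T →
    1 - ε ≤ ∑ x ∈ M, w x → 4 * ε ≤ b → b ≤ 1 →
    ∀ (Γ : Finset (AddChar G₀ ℂ)) (c : AddChar G₀ ℂ → ℂ), 1 ∈ Γ →
    (∀ x ∈ M, ∀ χ ∈ Γ, χ (p x).1 = c χ) → (∀ χ ∉ Γ, ∀ t, ‖hat T w p χ t‖ ≤ 1 - b) →
    (∀ t : ZMod N, (∀ τ ∈ frq P, t ≠ (τ : ZMod N)) → ‖hat T w p 1 t‖ ≤ 1 - b) →
    ∀ (ι : Type) (S : Finset ι) (w' a' : ι → ℝ) (η1 : ℝ), (∀ i ∈ S, 0 ≤ w' i) →
    ∑ i ∈ S, w' i = 1 → (∀ τ ∈ frq P, ‖chf T w a (τ / P) - chf S w' a' (τ / P)‖ ≤ η1) →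
    ∀ (m : ℕ) (y : G₀ × ZMod N) (s : ℝ), 2 * j ≤ m → (∀ χ ∈ Γ, χ y.1 = c χ ^ m) →
    Nr P y.2 s η1 →
      |Fintype.card G₀ * N / (P * Γ.card) * tupP M (fun x => w x / ∑ x ∈ M, w x) p m y -
        Dm S w' a' P m s| ≤ 2 ^ j * C * (1 - b / 2) ^ (m - 2 * j) + 20 * m * (ε + η + η1)

open L3 in
theorem stL3z (hF : St_LF) : St_L3z := by
  intro G₀ κ _ _ N _ P T w a p c0 η C j hfam hj hD M ε b hM hε hb hb1 Γ c h1 hc hΓ hwin ι S w' a'
    η1 hw' hw1 hcmp m y s hm hy hs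
  have hw := hfam.law.nn
  have hone := hfam.law.one
  have hP := hfam.one
  have hP' : (0 : ℝ) < P := by exact_mod_cast hP
  set W := ∑ x ∈ M, w x with hWd
  have hW1 : W ≤ 1 := by
    rw [← hone]; exact sum_le_sum_of_subset_of_nonneg hM fun x hx _ => hw x hx
  have hε0 : 0 ≤ ε := by linarith
  have hW2 : 1 / 2 ≤ W := by linarith
  have hW : 0 < W := by linarith
  have hMne : M.Nonempty := by
    by_contra h
    rw [not_nonempty_iff_eq_empty] at h
    rw [hWd, h, sum_empty] at hW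
    exact lt_irrefl _ hW
  obtain ⟨x0, hx0⟩ := hMne
  have hη0 : 0 ≤ η := by
    obtain ⟨z, -, hz⟩ := hfam.pos x0 (hM hx0)
    exact (abs_nonneg _).trans hz
  obtain ⟨z, hz, hzs⟩ := hs
  have hη1 : 0 ≤ η1 := (abs_nonneg _).trans hzs
  set u : κ → ℝ := fun x => w x / W with hu
  have hu0 : ∀ x ∈ M, 0 ≤ u x := fun x hx => div_nonneg (hw x (hM hx)) hW.le
  have hu1 : ∑ x ∈ M, u x = 1 := by
    simp only [hu]; rw [← sum_div, ← hWd, div_self hW.ne']
  have hcl : ∀ χ t, ‖hat M u p χ t - hat T w p χ t‖ ≤ 2 * ε := fun χ t =>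
    hat_close T M w p ε hM hw hone hε hW χ t
  have hle : ∀ χ t, ‖hat M u p χ t‖ ≤ 1 := fun χ t => hu1 ▸ hF.le G₀ κ N M u p hu0 χ t
  have hG : (0 : ℝ) < Fintype.card G₀ * N := by
    have := Fintype.card_pos (α := G₀)
    have := NeZero.pos N
    positivity
  have hpar : ∑ χ : AddChar G₀ ℂ, ∑ t : ZMod N, ‖hat M u p χ t‖ ^ (2 * j) ≤ 2 ^ j * C * P := by
    have := hF.par G₀ κ N M u p j (2 ^ j * (C * P / (Fintype.card G₀ * N))) hu0 hu1 fun y =>
      (tup_le T M w p hM hw W hW2 j y).trans (mul_le_mul_of_nonneg_left (hD y) (by positivity))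
    refine this.trans (le_of_eq ?_)
    rw [mul_assoc, div_mul_cancel₀ _ hG.ne', mul_assoc]
  set F : Finset (ZMod N) := (frq P).image fun τ : ℤ => (τ : ZMod N) with hFd
  set A : Finset (AddChar G₀ ℂ × ZMod N) := Γ ×ˢ F with hA
  set term : AddChar G₀ ℂ × ZMod N → ℂ := fun q => hat M u p q.1 q.2 ^ m * chL q.1 q.2 (-y)
    with hterm
  have hinv : (tupP M u p m y : ℂ) * (Fintype.card G₀ * N) =
      ∑ q ∈ A, term q + ∑ q ∈ Aᶜ, term q := by
    rw [sum_add_sum_compl, hF.inv G₀ κ N M u p m y, Fintype.sum_prod_type]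
  have hb2 : 0 ≤ 1 - b / 2 := by linarith
  have hsmall : ∀ q ∈ Aᶜ, ‖hat M u p q.1 q.2‖ ≤ 1 - b / 2 := by
    intro q hq
    rw [mem_compl, hA, mem_product, not_and_or] at hq
    by_cases hq1 : q.1 ∈ Γ
    · have hq2 : q.2 ∉ F := by tauto
      have e1 : ‖hat M u p q.1 q.2‖ = ‖hat M u p 1 q.2‖ := by
        rw [hat_mem M u p q.1 (c q.1) (fun x hx => hc x hx _ hq1), norm_mul,
          ← hc x0 hx0 _ hq1, AddChar.norm_apply, one_mul]
      have e2 := hwin q.2 fun τ hτ h => hq2 (mem_image.2 ⟨τ, hτ, h.symm⟩)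
      have e3 := norm_le_insert' (hat M u p 1 q.2) (hat T w p 1 q.2)
      have e4 := hcl 1 q.2
      linarith
    · have e2 := hΓ q.1 hq1 q.2
      have e3 := norm_le_insert' (hat M u p q.1 q.2) (hat T w p q.1 q.2)
      have e4 := hcl q.1 q.2
      linarith
  have hrest : ‖∑ q ∈ Aᶜ, term q‖ ≤ (1 - b / 2) ^ (m - 2 * j) * (2 ^ j * C * P) := by
    refine (norm_sum_le _ _).trans ?_
    calc ∑ q ∈ Aᶜ, ‖term q‖
        ≤ ∑ q ∈ Aᶜ, (1 - b / 2) ^ (m - 2 * j) * ‖hat M u p q.1 q.2‖ ^ (2 * j) := by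
          refine sum_le_sum fun q hq => ?_
          simp only [hterm]
          rw [norm_mul, norm_ch, mul_one, norm_pow]
          conv_lhs => rw [← Nat.sub_add_cancel hm, pow_add]
          exact mul_le_mul_of_nonneg_right
            (pow_le_pow_left₀ (norm_nonneg _) (hsmall q hq) _) (by positivity)
      _ ≤ ∑ q : AddChar G₀ ℂ × ZMod N,
            (1 - b / 2) ^ (m - 2 * j) * ‖hat M u p q.1 q.2‖ ^ (2 * j) :=
          sum_le_sum_of_subset_of_nonneg (subset_univ _) fun q _ _ => by positivity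
      _ ≤ _ := by
          rw [← mul_sum, Fintype.sum_prod_type]
          exact mul_le_mul_of_nonneg_left hpar (by positivity)
  have hmain : ∑ q ∈ A, term q =
      Γ.card * ∑ τ ∈ frq P, hat M u p 1 τ ^ m * ee (-(τ * z : ℤ) / N) := by
    rw [hA, sum_product]
    have : ∀ χ ∈ Γ, ∑ t ∈ F, term (χ, t) =
        ∑ τ ∈ frq P, hat M u p 1 τ ^ m * ee (-(τ * z : ℤ) / N) := by
      intro χ hχ
      rw [hFd, sum_image (frq_inj hfam.lt)]
      refine sum_congr rfl fun τ hτ => ?_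
      simp only [hterm]
      rw [hat_mem M u p χ (c χ) (fun x hx => hc x hx _ hχ), mul_pow, ← hy χ hχ]
      unfold chL
      have e1 : χ y.1 * χ (-y).1 = 1 := by
        rw [← AddChar.map_add_eq_mul]; simp
      have e2 : ZMod.stdAddChar ((τ : ZMod N) * (-y).2) = ee (-(τ * z : ℤ) / N) := by
        have : (τ : ZMod N) * (-y).2 = ((-(τ * z) : ℤ) : ZMod N) := by
          rw [Prod.snd_neg, hz]; push_cast; ring
        rw [this, hF.std]
        push_cast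
        rfl
      rw [e2]
      linear_combination (hat M u p 1 τ ^ m * ee (-(τ * z : ℤ) / N)) * e1
    rw [sum_congr rfl this, sum_const, nsmul_eq_mul]
  have hm1 : (1 : ℝ) ≤ m := by exact_mod_cast (by omega : 1 ≤ m)
  have hwin' : ∀ τ ∈ frq P, ‖hat M u p 1 τ ^ m * ee (-(τ * z : ℤ) / N) -
      chf S w' a' (τ / P) ^ m * ee (-(τ / P * s))‖ ≤ 10 * m * (ε + η + η1) := by
    intro τ hτ
    have a1 : ‖hat M u p 1 τ - chf S w' a' (τ / P)‖ ≤ 2 * ε + 4 * η + η1 := by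
      have b1 := hcl 1 τ
      have b2 := hF.cmp G₀ κ N P T w a p c0 η hfam τ hτ
      have b3 := hcmp τ hτ
      have b4 := norm_sub_le_norm_sub_add_norm_sub (hat M u p 1 τ) (hat T w p 1 τ)
        (chf S w' a' (τ / P))
      have b5 := norm_sub_le_norm_sub_add_norm_sub (hat T w p 1 τ) (chf T w a (τ / P))
        (chf S w' a' (τ / P))
      linarith
    have a2 := pow_sub_le _ _ (hle 1 τ) (chf_le S w' a' hw' hw1 (τ / P)) m
    have a3 : ‖ee (-(τ * z : ℤ) / N) - ee (-(τ / P * s))‖ ≤ 7 / 2 * η1 := by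
      refine (hF.lip _ _).trans ?_
      have : (-(τ * z : ℤ) / N : ℝ) - -(τ / P * s) = -(τ / P * ((z : ℝ) * P / N - s)) := by
        push_cast; field_simp; ring
      rw [this, abs_neg, abs_mul]
      have := mul_le_mul (frq_div hP hτ) hzs (abs_nonneg _) (by norm_num)
      linarith
    have e : hat M u p 1 τ ^ m * ee (-(τ * z : ℤ) / N) -
        chf S w' a' (τ / P) ^ m * ee (-(τ / P * s)) =
        (hat M u p 1 τ ^ m - chf S w' a' (τ / P) ^ m) * ee (-(τ * z : ℤ) / N) +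
          chf S w' a' (τ / P) ^ m * (ee (-(τ * z : ℤ) / N) - ee (-(τ / P * s))) := by ring
    rw [e]
    refine (norm_add_le _ _).trans ?_
    rw [norm_mul, norm_mul, norm_ee, mul_one, norm_pow]
    have a4 : ‖chf S w' a' (τ / P)‖ ^ m ≤ 1 :=
      pow_le_one₀ (norm_nonneg _) (chf_le S w' a' hw' hw1 _)
    have a5 := mul_le_mul a4 a3 (norm_nonneg _) zero_le_one
    have a6 := mul_le_mul_of_nonneg_left a1 (by linarith : (0 : ℝ) ≤ m)
    nlinarith [mul_nonneg (sub_nonneg.2 hm1) hη1, mul_nonneg (by linarith : (0 : ℝ) ≤ m) hε0,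
      mul_nonneg (by linarith : (0 : ℝ) ≤ m) hη0, mul_nonneg (by linarith : (0 : ℝ) ≤ m) hη1]
  have hΓc : (1 : ℝ) ≤ Γ.card := by exact_mod_cast card_pos.2 ⟨1, h1⟩
  set X := ∑ τ ∈ frq P, hat M u p 1 τ ^ m * ee (-(τ * z : ℤ) / N) with hX
  set Y := ∑ τ ∈ frq P, chf S w' a' (τ / P) ^ m * ee (-(τ / P * s)) with hY
  set R := ∑ q ∈ Aᶜ, term q with hR
  have hXY : ‖X - Y‖ ≤ 2 * P * (10 * m * (ε + η + η1)) := by
    rw [hX, hY, ← sum_sub_distrib]
    refine (norm_sum_le _ _).trans ((sum_le_card_nsmul _ _ _ hwin').trans ?_)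
    rw [nsmul_eq_mul]
    exact mul_le_mul_of_nonneg_right (card_frq P hP) (by positivity)
  have hre : tupP M u p m y * (Fintype.card G₀ * N) = Γ.card * X.re + R.re := by
    have := congrArg Complex.re (hinv.trans (by rw [hmain]))
    simpa using this
  have hDm : Dm S w' a' P m s = Y.re / P := by
    unfold Dm
    rw [hY, Complex.re_sum]
    ring
  have e : Fintype.card G₀ * N / (P * Γ.card) * tupP M u p m y - Dm S w' a' P m s =
      (X - Y).re / P + R.re / (P * Γ.card) := by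
    rw [hDm, Complex.sub_re]
    have : Fintype.card G₀ * N / (P * Γ.card) * tupP M u p m y =
        (Γ.card * X.re + R.re) / (P * Γ.card) := by rw [← hre]; ring
    rw [this]
    field_simp
    ring
  rw [e]
  refine (abs_add_le _ _).trans ?_
  have f1 : |(X - Y).re / P| ≤ 20 * m * (ε + η + η1) := by
    rw [abs_div, abs_of_pos hP', div_le_iff₀ hP']
    have := (Complex.abs_re_le_norm (X - Y)).trans hXY
    linarith
  have f2 : |R.re / (P * Γ.card)| ≤ 2 ^ j * C * (1 - b / 2) ^ (m - 2 * j) := by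
    have g0 := (Complex.abs_re_le_norm R).trans hrest
    have g1 : 0 ≤ (1 - b / 2) ^ (m - 2 * j) * (2 ^ j * C * P) := (abs_nonneg _).trans g0
    have g2 : 0 ≤ 2 ^ j * C * (1 - b / 2) ^ (m - 2 * j) := by
      have : (1 - b / 2) ^ (m - 2 * j) * (2 ^ j * C * P) =
        (2 ^ j * C * (1 - b / 2) ^ (m - 2 * j)) * P := by ring
      rw [this] at g1
      exact nonneg_of_mul_nonneg_left g1 hP'
    rw [abs_div, abs_of_pos (by positivity : (0 : ℝ) < P * Γ.card), div_le_iff₀ (by positivity)]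
    have g3 := mul_le_mul_of_nonneg_left hΓc (mul_nonneg g2 hP'.le)
    calc |R.re| ≤ _ := g0
      _ = 2 ^ j * C * (1 - b / 2) ^ (m - 2 * j) * P * 1 := by ring
      _ ≤ _ := g3
      _ = _ := by ring
  linarith

end Pool.Agent.Lib.BK2
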