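import Pool.Agent.Lib.BK2.LA

/-! BK2, section L: finite Fourier analysis. -/

namespace Pool.Agent.Lib.BK2

open Finset LA
open scoped Classical ComplexConjugate

noncomputable section

namespace LF

variable {Y : Type} {T : Finset Y} {ω : Y → ℝ}

lemma dist_eq (h : Pr T ω) {u : Y → ℂ} (hu : ∀ y, ‖u y‖ = 1) {c : ℂ} (hc : ‖c‖ = 1) :
    ∑ y ∈ T, ω y * ‖u y - c‖ ^ 2 = 2 - 2 * (Ex T ω u * conj c).re := by
  have h1 : ∀ y, ‖u y - c‖ ^ 2 = 2 - 2 * (u y * conj c).re := fun y => by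
    rw [← Complex.normSq_eq_norm_sq, Complex.normSq_sub, Complex.normSq_eq_norm_sq,
      Complex.normSq_eq_norm_sq, hu, hc]
    ring
  have h4 : ∑ y ∈ T, ω y * 2 = 2 := by rw [← sum_mul, h.2, one_mul]
  simp only [h1, mul_sub, sum_sub_distrib, h4]
  rw [Ex, sum_mul, Complex.re_sum, mul_sum]
  congr 1
  refine sum_congr rfl fun y _ => ?_
  rw [mul_assoc (ω y : ℂ), Complex.re_ofReal_mul]
  ring

lemma le_dist (h : Pr T ω) {u : Y → ℂ} (hu : ∀ y, ‖u y‖ = 1) {c : ℂ} (hc : ‖c‖ = 1) :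
    2 * (1 - ‖Ex T ω u‖) ≤ ∑ y ∈ T, ω y * ‖u y - c‖ ^ 2 := by
  rw [dist_eq h hu hc]
  have h1 := Complex.re_le_norm (Ex T ω u * conj c)
  rw [norm_mul, Complex.norm_conj, hc, mul_one] at h1
  linarith

lemma ex_dist (h : Pr T ω) {u : Y → ℂ} (hu : ∀ y, ‖u y‖ = 1) :
    ∃ c : ℂ, ‖c‖ = 1 ∧ ∑ y ∈ T, ω y * ‖u y - c‖ ^ 2 = 2 * (1 - ‖Ex T ω u‖) := by
  obtain ⟨c, hc, h1⟩ := Complex.exists_norm_eq_mul_self (Ex T ω u)
  refine ⟨conj c, by rw [Complex.norm_conj, hc], ?_⟩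
  rw [dist_eq h hu (by rw [Complex.norm_conj, hc]), Complex.conj_conj, mul_comm _ c, ← h1,
    Complex.ofReal_re]
  ring

lemma tri (h : Pr T ω) {u v : Y → ℂ} (hu : ∀ y, ‖u y‖ = 1) (hv : ∀ y, ‖v y‖ = 1) :
    √(1 - ‖Ex T ω fun y => u y * v y‖) ≤ √(1 - ‖Ex T ω u‖) + √(1 - ‖Ex T ω v‖) := by
  obtain ⟨c, hc, h1⟩ := ex_dist h hu
  obtain ⟨d, hd, h2⟩ := ex_dist h hv
  have h3 := le_dist h (u := fun y => u y * v y) (fun y => by rw [norm_mul, hu, hv, mul_one])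
    (c := c * d) (by rw [norm_mul, hc, hd, mul_one])
  have h4 : ∑ y ∈ T, ω y * ‖u y * v y - c * d‖ ^ 2 ≤
      ∑ y ∈ T, ω y * (‖u y - c‖ ^ 2 + ‖v y - d‖ ^ 2 + 2 * (‖u y - c‖ * ‖v y - d‖)) := by
    refine h.mono fun y _ => ?_
    have h5 : ‖u y * v y - c * d‖ ≤ ‖u y - c‖ + ‖v y - d‖ := by
      rw [show u y * v y - c * d = (u y - c) * d + u y * (v y - d) by ring]
      refine (norm_add_le _ _).trans ?_
      rw [norm_mul, norm_mul, hu, hd, mul_one, one_mul]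
    nlinarith [norm_nonneg (u y * v y - c * d)]
  have h5 : (∑ y ∈ T, ω y * (‖u y - c‖ * ‖v y - d‖)) ^ 2 ≤
      (∑ y ∈ T, ω y * ‖u y - c‖ ^ 2) * ∑ y ∈ T, ω y * ‖v y - d‖ ^ 2 :=
    sum_sq_le_sum_mul_sum_of_sq_le_mul T
      (fun y hy => mul_nonneg (h.1 y hy) (sq_nonneg _))
      (fun y hy => mul_nonneg (h.1 y hy) (sq_nonneg _)) fun y _ => le_of_eq (by ring)
  have hA : 0 ≤ 1 - ‖Ex T ω u‖ := sub_nonneg.2 (h.norm_le fun y _ => (hu y).le)
  have hB : 0 ≤ 1 - ‖Ex T ω v‖ := sub_nonneg.2 (h.norm_le fun y _ => (hv y).le)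
  have h6 : ∑ y ∈ T, ω y * (‖u y - c‖ * ‖v y - d‖) ≤
      2 * (√(1 - ‖Ex T ω u‖) * √(1 - ‖Ex T ω v‖)) := by
    refine le_trans (le_abs_self _) (abs_le_of_sq_le_sq' ?_ (by positivity)).2
    rw [sq_abs, mul_pow, mul_pow, Real.sq_sqrt hA, Real.sq_sqrt hB]
    rw [h1, h2] at h5
    linarith
  have h7 : ∑ y ∈ T, ω y * (‖u y - c‖ ^ 2 + ‖v y - d‖ ^ 2 + 2 * (‖u y - c‖ * ‖v y - d‖)) =
      ∑ y ∈ T, ω y * ‖u y - c‖ ^ 2 + ∑ y ∈ T, ω y * ‖v y - d‖ ^ 2 +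
        2 * ∑ y ∈ T, ω y * (‖u y - c‖ * ‖v y - d‖) := by
    rw [mul_sum, ← sum_add_distrib, ← sum_add_distrib]
    exact sum_congr rfl fun y _ => by ring
  rw [h7, h1, h2] at h4
  refine Real.sqrt_le_iff.2 ⟨by positivity, ?_⟩
  rw [add_sq, Real.sq_sqrt hA, Real.sq_sqrt hB]
  linarith

lemma pow (h : Pr T ω) {u : Y → ℂ} (hu : ∀ y, ‖u y‖ = 1) (r : ℕ) :
    1 - ‖Ex T ω fun y => u y ^ r‖ ≤ (r : ℝ) ^ 2 * (1 - ‖Ex T ω u‖) := by
  obtain ⟨c, hc, h1⟩ := ex_dist h hu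
  have h3 := le_dist h (u := fun y => u y ^ r) (fun y => by rw [norm_pow, hu, one_pow])
    (c := c ^ r) (by rw [norm_pow, hc, one_pow])
  have h4 : ∑ y ∈ T, ω y * ‖u y ^ r - c ^ r‖ ^ 2 ≤
      ∑ y ∈ T, ω y * ((r : ℝ) ^ 2 * ‖u y - c‖ ^ 2) := by
    refine h.mono fun y _ => ?_
    rw [← mul_pow]
    exact pow_le_pow_left₀ (norm_nonneg _) (pow_sub_le (hu y).le hc.le r) 2
  have h5 : ∑ y ∈ T, ω y * ((r : ℝ) ^ 2 * ‖u y - c‖ ^ 2) =
      (r : ℝ) ^ 2 * ∑ y ∈ T, ω y * ‖u y - c‖ ^ 2 := by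
    rw [mul_sum]
    exact sum_congr rfl fun y _ => by ring
  rw [h5, h1] at h4
  linarith

lemma std (N : ℕ) [NeZero N] (z : ℤ) : ZMod.stdAddChar (z : ZMod N) = ee (z / N) := by
  rw [ZMod.stdAddChar_coe, ee]
  congr 1
  push_cast
  ring

lemma var {ι : Type} {S : Finset ι} {w a : ι → ℝ} {c0 θ : ℝ} (h : Law S w a c0)
    (hθ : |θ| ≤ 1 / 2) : ‖chf S w a θ‖ ≤ 1 - 8 * c0 * θ ^ 2 := by
  have hp : Pr S w := ⟨h.nn, h.one⟩
  have h1 := hp.qf_eq (u := fun i => ee (θ * a i)) fun i => norm_ee _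
  have h2 : ∑ y ∈ S, w y * ∑ z ∈ S, w z * (16 * θ ^ 2 * (a y - a z) ^ 2) ≤
      Qf S w fun i => ee (θ * a i) := by
    refine hp.mono fun y hy => hp.mono fun z hz => ?_
    have h3 : |a y - a z| ≤ 1 :=
      abs_le.2 ⟨by linarith [h.lo y hy, h.hi z hz], by linarith [h.lo z hz, h.hi y hy]⟩
    have h4 : |θ * a y - θ * a z| ≤ 1 / 2 := by
      rw [← mul_sub, abs_mul]
      nlinarith [abs_nonneg θ, abs_nonneg (a y - a z)]
    have h5 := pow_le_pow_left₀ (by positivity) (ee_low h4) 2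
    rw [mul_pow, sq_abs] at h5
    refine le_trans (le_of_eq ?_) h5
    ring
  set m := ∑ j ∈ S, w j * a j with hm
  have h3 : ∀ y ∈ S, 16 * θ ^ 2 * (c0 + (a y - m) ^ 2) ≤
      ∑ z ∈ S, w z * (16 * θ ^ 2 * (a y - a z) ^ 2) := fun y _ => by
    have h4 : ∑ z ∈ S, w z * (16 * θ ^ 2 * (a y - a z) ^ 2) = 16 * θ ^ 2 *
        (∑ z ∈ S, w z * (a z - m) ^ 2 + (a y - m) ^ 2 * ∑ z ∈ S, w z -
          2 * (a y - m) * (∑ z ∈ S, w z * a z - m * ∑ z ∈ S, w z)) := by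
      simp only [mul_sum, ← sum_sub_distrib, ← sum_add_distrib]
      exact sum_congr rfl fun z _ => by ring
    rw [h4, h.one, ← hm]
    refine mul_le_mul_of_nonneg_left ?_ (by positivity)
    linarith [h.var]
  have h4 := (hp.mono h3).trans h2
  have h5 : ∑ y ∈ S, w y * (16 * θ ^ 2 * (c0 + (a y - m) ^ 2)) =
      16 * θ ^ 2 * (c0 * ∑ y ∈ S, w y + ∑ y ∈ S, w y * (a y - m) ^ 2) := by
    simp only [mul_sum, ← sum_add_distrib]
    exact sum_congr rfl fun z _ => by ring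
  rw [h5, h.one, h1] at h4
  have h6 : 16 * θ ^ 2 * (c0 * 1 + c0) ≤
      16 * θ ^ 2 * (c0 * 1 + ∑ y ∈ S, w y * (a y - m) ^ 2) :=
    mul_le_mul_of_nonneg_left (by linarith [h.var]) (by positivity)
  change ‖Ex S w fun i => ee (θ * a i)‖ ≤ _
  set r := ‖Ex S w fun i => ee (θ * a i)‖
  have hr : 0 ≤ r := norm_nonneg _
  nlinarith [sq_nonneg (1 - r)]

variable {G₀ κ : Type} [AddCommGroup G₀] {N : ℕ} [NeZero N]

/-- The character `(χ, t)`, bundled. -/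
def psi (j : AddChar G₀ ℂ × ZMod N) : AddChar (G₀ × ZMod N) ℂ where
  toFun := chL j.1 j.2
  map_zero_eq_one' := by simp [chL]
  map_add_eq_mul' := fun a b => by
    simp only [chL, Prod.fst_add, Prod.snd_add, mul_add, AddChar.map_add_eq_mul]
    ring

lemma orth [Fintype G₀] (g : G₀ × ZMod N) : ∑ j : AddChar G₀ ℂ × ZMod N, psi j g =
    @ite ℂ (g = 0) (Classical.propDecidable _) (((Fintype.card G₀ * N : ℝ)) : ℂ) 0 := by
  have h1 : ∑ j : AddChar G₀ ℂ × ZMod N, psi j g =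
      (∑ χ : AddChar G₀ ℂ, χ g.1) * ∑ t : ZMod N, ZMod.stdAddChar (t * g.2) := by
    rw [sum_mul_sum, Fintype.sum_prod_type]
    rfl
  rw [h1, AddChar.sum_apply_eq_ite, AddChar.sum_mulShift _ (ZMod.isPrimitive_stdAddChar N),
    ZMod.card]
  by_cases ha : g.1 = 0 <;> by_cases hb : g.2 = 0 <;> simp [ha, hb, Prod.ext_iff]

lemma norm_ch [Fintype G₀] (χ : AddChar G₀ ℂ) (t : ZMod N) (y : G₀ × ZMod N) : ‖chL χ t y‖ = 1 :=
  (psi (χ, t)).norm_apply y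

end LF

theorem stLF : St_LF where
  lip := ee_up
  low x hx := by
    have h := ee_low (x := 0) (y := x) (by simpa using hx)
    rwa [zero_sub, abs_neg, ee_zero] at h
  std := LF.std
  var _ _ _ _ _ _ h hθ := LF.var h hθ
  inv G₀ κ _ _ N _ T w p m y := by
    have h := inversion (T := T) (ω := w) (φ := p) (LF.orth (G₀ := G₀) (N := N)) m y
    rw [Fintype.sum_prod_type] at h
    refine Eq.trans ?_ h
    push_cast
    ring
  par G₀ κ _ _ N _ T w p j B h0 h1 hB := by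
    have h := parseval (T := T) (ω := w) (φ := p) (LF.orth (G₀ := G₀) (N := N)) ⟨h0, h1⟩ j
      (D := B * (Fintype.card G₀ * N)) fun τ => by
        rw [mul_comm B]
        exact mul_le_mul_of_nonneg_left (hB τ) (by positivity)
    rw [Fintype.sum_prod_type] at h
    exact h
  le G₀ κ _ _ N _ T w p h0 χ t := by
    refine (norm_sum_le _ _).trans (le_of_eq (sum_congr rfl fun x hx => ?_))
    rw [norm_mul, LF.norm_ch, mul_one, Complex.norm_real, Real.norm_of_nonneg (h0 x hx)]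
  neg G₀ κ _ _ N _ T w p χ t := by
    rw [← Complex.norm_conj (hat T w p χ t), hat, hat, map_sum]
    congr 1
    refine sum_congr rfl fun x _ => ?_
    rw [map_mul, Complex.conj_ofReal, chL, chL, map_mul (starRingEnd ℂ), AddChar.inv_apply, neg_mul,
      AddChar.map_neg_eq_conj, AddChar.map_neg_eq_conj]
  tri G₀ κ _ _ N _ T w p h0 h1 χ χ' t t' := by
    have h := LF.tri (T := T) (ω := w) ⟨h0, h1⟩ (fun x => LF.norm_ch χ t (p x))
      fun x => LF.norm_ch χ' t' (p x)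
    have h2 : hat T w p (χ * χ') (t + t') = Ex T w fun x => chL χ t (p x) * chL χ' t' (p x) := by
      refine sum_congr rfl fun x _ => ?_
      simp only [chL, add_mul, AddChar.map_add_eq_mul, AddChar.mul_apply]
      ring
    rw [h2]
    exact h
  pow G₀ κ _ _ N _ T w p h0 h1 χ t r := by
    have h := LF.pow (T := T) (ω := w) ⟨h0, h1⟩ (fun x => LF.norm_ch χ t (p x)) r
    have h2 : hat T w p (χ ^ r) (r * t) = Ex T w fun x => chL χ t (p x) ^ r := by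
      refine sum_congr rfl fun x _ => ?_
      simp only [chL, mul_pow, AddChar.pow_apply]
      rw [← AddChar.map_nsmul_eq_pow ZMod.stdAddChar, nsmul_eq_mul, mul_assoc (r : ZMod N)]
    rw [h2]
    exact h
  shift G₀ κ _ _ N _ P T w a p c0 η h χ t τ := by
    have hp : Pr T w := ⟨h.law.nn, h.law.one⟩
    refine hp.sub_le (u := fun x => chL χ (t + (τ : ZMod N)) (p x)) (v := fun x => chL χ t (p x))
      fun x hx => ?_
    obtain ⟨z, hz, h1⟩ := h.pos x hx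
    have hP : (0 : ℝ) < P := by exact_mod_cast h.one
    have h2 : chL χ (t + (τ : ZMod N)) (p x) - chL χ t (p x) =
        chL χ t (p x) * (ee (((τ * z : ℤ) : ℝ) / N) - ee 0) := by
      rw [← LF.std, ee_zero, chL, chL, add_mul, AddChar.map_add_eq_mul, hz, Int.cast_mul]
      ring
    rw [h2, norm_mul, LF.norm_ch, one_mul]
    refine (ee_up _ _).trans ?_
    have h3 : |(z : ℝ) * P / N| ≤ 3 := by
      have := abs_le.1 h1
      exact abs_le.2 ⟨by linarith [h.law.lo x hx, h.le], by linarith [h.law.hi x hx, h.le]⟩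
    have h4 : ((τ * z : ℤ) : ℝ) / N - 0 = τ / P * (z * P / N) := by
      push_cast
      field_simp
      ring
    rw [h4, abs_mul, abs_div, abs_of_pos hP, mul_div_assoc (21 : ℝ)]
    have h5 : 0 ≤ |(τ : ℝ)| / P := by positivity
    nlinarith
  cmp G₀ κ _ _ N _ P T w a p c0 η h τ hτ := by
    have hp : Pr T w := ⟨h.law.nn, h.law.one⟩
    refine hp.sub_le (u := fun x => chL 1 (τ : ZMod N) (p x)) (v := fun x => ee (τ / P * a x))
      fun x hx => ?_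
    obtain ⟨z, hz, h1⟩ := h.pos x hx
    have hP : (0 : ℝ) < P := by exact_mod_cast h.one
    have h2 : chL 1 (τ : ZMod N) (p x) = ee (((τ * z : ℤ) : ℝ) / N) := by
      rw [← LF.std, chL, AddChar.one_apply, one_mul, hz, Int.cast_mul]
    rw [h2]
    refine (ee_up _ _).trans ?_
    have h4 : ((τ * z : ℤ) : ℝ) / N - τ / P * a x = τ / P * (z * P / N - a x) := by
      push_cast
      field_simp
    have h5 : |(τ : ℝ)| / P ≤ 1 / 2 := by
      have h6 : |τ| ≤ ((P / 2 : ℕ) : ℤ) := abs_le.2 (mem_Icc.1 hτ)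
      have h7 : |(τ : ℝ)| ≤ ((P / 2 : ℕ) : ℝ) := by
        rw [← Int.cast_abs, ← Int.cast_natCast]
        exact Int.cast_le.2 h6
      rw [div_le_iff₀ hP]
      linarith [Nat.cast_div_le (α := ℝ) (m := P) (n := 2), show ((2 : ℕ) : ℝ) = 2 by norm_num]
    rw [h4, abs_mul, abs_div, abs_of_pos hP]
    have h8 : 0 ≤ |(τ : ℝ)| / P := by positivity
    nlinarith [abs_nonneg ((z : ℝ) * P / N - a x)]

end

end Pool.Agent.Lib.BK2
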