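import Pool.Agent.Lib.BK2.LGlue
import Pool.Agent.Lib.BK2.LF
import Pool.Agent.Lib.BK2.L1
import Pool.Agent.Lib.BK2.L2
import Pool.Agent.Lib.BK2.L3

/-! BK2, section L: the abstract local limit theorem. -/

namespace Pool.Agent.Lib.BK2

theorem stALLT : St_ALLT := stALLTof stLF (stL1 stLF) (stL2 stLF (stL1 stLF)) (stL3z stLF)

end Pool.Agent.Lib.BK2
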