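import Pool.Agent.Lib.BK2.AP1

namespace Pool.Agent.Lib.BK2
open Finset

theorem ap_sq3 (a b c d : ℝ) (h : |d| ≤ a + b + c) :
    d ^ 2 ≤ 3 * (a ^ 2 + b ^ 2 + c ^ 2) := by
  have h1 : d ^ 2 ≤ (a + b + c) ^ 2 := by
    rw [← sq_abs d]
    exact pow_le_pow_left₀ (abs_nonneg _) h 2
  nlinarith [sq_nonneg (a - b), sq_nonneg (a - c), sq_nonneg (b - c)]

/-- no approximate solution on finite families with lower density -/
theorem ap {E W : Type} [PseudoMetricSpace E] [CompactSpace E] [PseudoMetricSpace W]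
    [CompactSpace W] {A B : Type} [Fintype A] [Fintype B]
    (lam : E → W → A → ℝ) (lam' : E → W → B → ℝ) (Phi : E → W → ℝ)
    (hlam : ∀ i, Continuous fun z : E × W => lam z.1 z.2 i)
    (hlam' : ∀ i, Continuous fun z : E × W => lam' z.1 z.2 i)
    (hPhi : Continuous fun z : E × W => Phi z.1 z.2)
    (hind : ∀ e (x : A → ℝ), (∀ w, ∑ i, x i * lam e w i = 0) → x = 0)
    (hind' : ∀ w (x : B → ℝ), (∀ e, ∑ i, x i * lam' e w i = 0) → x = 0)
    (hno : ¬ ∃ (C : E → A → ℝ) (C' : W → B → ℝ),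
      ∀ e w, ∑ i, C e i * lam e w i - ∑ i, C' w i * lam' e w i = Phi e w)
    (c : ℝ → ℝ) (hc : ∀ r, 0 < r → 0 < c r) :
    ∃ eps : ℝ, 0 < eps ∧ ∃ r0 : ℝ, 0 < r0 ∧
      ∀ (G H : Type) [Fintype G] [Fintype H] [Nonempty G] [Nonempty H] (pe : G → E) (pw : H → W),
      (∀ r, r0 ≤ r → ∀ e, c r * (Fintype.card G : ℝ) ≤
        ((univ.filter fun g => dist (pe g) e < r).card : ℝ)) →
      (∀ r, r0 ≤ r → ∀ w, c r * (Fintype.card H : ℝ) ≤
        ((univ.filter fun h => dist (pw h) w < r).card : ℝ)) →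
      ∀ (C : G → A → ℝ) (C' : H → B → ℝ),
      (∀ (D : E → A → ℝ) (D' : W → B → ℝ),
        (∀ e w, ∑ i, D e i * lam e w i = ∑ i, D' w i * lam' e w i) →
        ∑ h, ∑ i, C' h i * D' (pw h) i = 0) →
      eps * (Fintype.card G : ℝ) * (∑ h, ∑ i, C' h i ^ 2 + (Fintype.card H : ℝ)) <
        ∑ g, ∑ h, (∑ i, C g i * lam (pe g) (pw h) i - ∑ i, C' h i * lam' (pe g) (pw h) i
          - Phi (pe g) (pw h)) ^ 2 := by
  classical
  obtain ⟨S, m, hm, K, hK, hG, hcert⟩ := ap_cert lam lam' Phi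
    (fun e i => (hlam' i).comp (continuous_const.prodMk continuous_id)) hind' hno
  obtain ⟨r1, hr1, m1, hm1, hgram⟩ := gram lam hlam hind
  obtain ⟨M1, hM1, hb1⟩ := ap_bd lam hlam
  obtain ⟨M2, hM2, hb2⟩ := ap_bd lam' hlam'
  obtain ⟨M3, hM3, hb3⟩ := ap_bd (fun e w (_ : Unit) => Phi e w) fun _ => hPhi
  have hb3' : ∀ e w, |Phi e w| ≤ M3 := fun e w => by simpa using hb3 e w
  have hc1 := hc r1 hr1
  obtain ⟨K1, hK1, hK1'⟩ : ∃ K1 : ℝ, 0 < K1 ∧ 3 * (1 + M2 ^ 2 + M3 ^ 2) = c r1 * m1 * K1 ^ 2 :=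
    ⟨Real.sqrt (3 * (1 + M2 ^ 2 + M3 ^ 2) / (c r1 * m1)), by positivity, by
      rw [Real.sq_sqrt (by positivity)]
      field_simp⟩
  obtain ⟨K2, hK2, hK2'⟩ : ∃ K2 : ℝ, 0 < K2 ∧ m / 2 * K2 = 2 + K1 + K1 * M1 + M3 :=
    ⟨(2 + K1 + K1 * M1 + M3) / (m / 2), by positivity, by field_simp⟩
  obtain ⟨K3, hK3, hK3'⟩ : ∃ K3 : ℝ, 0 < K3 ∧ K3 = K * (2 + K1 + K2) := ⟨_, by positivity, rfl⟩
  obtain ⟨K4, hK4, hK4'⟩ : ∃ K4 : ℝ, 0 < K4 ∧ K4 = K3 * (M1 + M3) + K1 + 1 :=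
    ⟨_, by positivity, rfl⟩
  obtain ⟨K5, hK5, hK5'⟩ : ∃ K5 : ℝ, 0 < K5 ∧
      K5 = 3 * (Fintype.card B : ℝ) / m ^ 2 * (2 + K4 ^ 2) + K3 ^ 2 := ⟨_, by positivity, rfl⟩
  obtain ⟨t, ht, ht1, ht2, ht3⟩ : ∃ t : ℝ, 0 < t ∧ t ≤ 1 ∧ t ≤ m / 2 ∧ t ^ 2 * K5 < 1 := by
    refine ⟨min (min 1 (m / 2)) (1 / (K5 + 1)), by positivity,
      (min_le_left _ _).trans (min_le_left _ _), (min_le_left _ _).trans (min_le_right _ _), ?_⟩
    have h1 : min (min 1 (m / 2)) (1 / (K5 + 1)) ≤ 1 := (min_le_left _ _).trans (min_le_left _ _)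
    have h2 : min (min 1 (m / 2)) (1 / (K5 + 1)) ≤ 1 / (K5 + 1) := min_le_right _ _
    have h3 : 0 < min (min 1 (m / 2)) (1 / (K5 + 1)) := by positivity
    generalize min (min 1 (m / 2)) (1 / (K5 + 1)) = t at h1 h2 h3
    rw [le_div_iff₀ (by positivity)] at h2
    nlinarith [mul_pos h3 hK5]
  obtain ⟨ra, hra, hua⟩ := ap_unif lam hlam t ht
  obtain ⟨rb, hrb, hub⟩ := ap_unif lam' hlam' t ht
  obtain ⟨rc, hrc, huc⟩ := ap_unif (fun e w (_ : Unit) => Phi e w) (fun _ => hPhi) t ht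
  obtain ⟨r0, hr0, h01, h0a, h0b, h0c⟩ :
      ∃ r0 : ℝ, 0 < r0 ∧ r0 ≤ r1 ∧ r0 ≤ ra ∧ r0 ≤ rb ∧ r0 ≤ rc :=
    ⟨min (min r1 ra) (min rb rc), by positivity, (min_le_left _ _).trans (min_le_left _ _),
      (min_le_left _ _).trans (min_le_right _ _), (min_le_right _ _).trans (min_le_left _ _),
      (min_le_right _ _).trans (min_le_right _ _)⟩
  have hc0 := hc r0 hr0
  obtain ⟨u, hu, hu1, hu2⟩ : ∃ u : ℝ, 0 < u ∧ u ≤ 1 ∧ u ≤ c r0 :=
    ⟨min 1 (c r0), by positivity, min_le_left _ _, min_le_right _ _⟩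
  obtain ⟨ep, hep, hep'⟩ : ∃ ep : ℝ, 0 < ep ∧ ((S.card : ℝ) + 1) * ep = t ^ 2 * u :=
    ⟨t ^ 2 * u / ((S.card : ℝ) + 1), by positivity, by field_simp⟩
  refine ⟨c r0 * ep, by positivity, r0, hr0, ?_⟩
  intro G H _ _ _ _ pe pw hdG hdH C C' horth
  by_contra hcon
  rw [not_lt] at hcon
  have hH : (0 : ℝ) < Fintype.card H := by exact_mod_cast Fintype.card_pos
  have hq0 : 0 ≤ ∑ h, ∑ i, C' h i ^ 2 :=
    Finset.sum_nonneg fun _ _ => Finset.sum_nonneg fun _ _ => sq_nonneg _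
  obtain ⟨N, hN1, hN⟩ : ∃ N : ℝ, 1 ≤ N ∧
      ∑ h, ∑ i, C' h i ^ 2 + (Fintype.card H : ℝ) = (Fintype.card H : ℝ) * N ^ 2 := by
    refine ⟨Real.sqrt ((∑ h, ∑ i, C' h i ^ 2 + (Fintype.card H : ℝ)) / Fintype.card H), ?_, ?_⟩
    · rw [Real.one_le_sqrt, le_div_iff₀ hH]
      linarith
    · rw [Real.sq_sqrt (by positivity)]
      field_simp
  rw [hN] at hcon
  obtain ⟨res, hres⟩ : ∃ res : G → H → ℝ, ∀ g h, res g h = ∑ i, C g i * lam (pe g) (pw h) i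
      - ∑ i, C' h i * lam' (pe g) (pw h) i - Phi (pe g) (pw h) := ⟨_, fun _ _ => rfl⟩
  simp only [← hres] at hcon
  have hN0 : 0 < N := by linarith
  have hpick : ∀ e : S, ∃ g, dist (pe g) e < r0 ∧
      ∑ h, res g h ^ 2 ≤ ep * ((Fintype.card H : ℝ) * N ^ 2) := by
    intro e
    obtain ⟨g, hg, hg'⟩ := ap_pick _ (c r0) (ep * ((Fintype.card H : ℝ) * N ^ 2)) hc0
      (by positivity) (hdG r0 le_rfl e) (fun g => ∑ h, res g h ^ 2)
      (fun g => Finset.sum_nonneg fun _ _ => sq_nonneg _) (hcon.trans (le_of_eq (by ring)))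
    exact ⟨g, (Finset.mem_filter.1 hg).2, hg'⟩
  choose g hg hg' using hpick
  have ht2' : t ^ 2 ≤ 1 := pow_le_one₀ ht.le ht1
  have hSep : (S.card : ℝ) * ep ≤ t ^ 2 * u := by nlinarith
  have hep1 : ep ≤ 1 := by
    have h1 : (0 : ℝ) ≤ (S.card : ℝ) * ep := by positivity
    have h2 : t ^ 2 * u ≤ 1 := mul_le_one₀ ht2' hu.le hu1
    nlinarith
  have hCn : ∀ e : S, ‖C (g e)‖ ≤ K1 * N := by
    intro e
    have h1 := hgram H pw (c r1) (hdH r1 h01) (pe (g e)) (C (g e))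
    have h2 : ∀ h, (∑ i, C (g e) i * lam (pe (g e)) (pw h) i) ^ 2
        ≤ 3 * (res (g e) h ^ 2 + M2 ^ 2 * ∑ i, C' h i ^ 2 + M3 ^ 2) := by
      intro h
      have h3 := ap_ip (C' h) _ _ (hb2 (pe (g e)) (pw h))
      have h4 := hb3' (pe (g e)) (pw h)
      have h5 := ap_sq3 |res (g e) h| (‖C' h‖ * M2) M3
        (∑ i, C (g e) i * lam (pe (g e)) (pw h) i) (by
          have h6 := hres (g e) h
          have h7 := le_abs_self (res (g e) h)
          have h8 := neg_abs_le (res (g e) h)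
          rw [abs_le] at h3 h4 ⊢
          constructor <;> linarith [h3.1, h3.2, h4.1, h4.2])
      have h6 := mul_le_mul_of_nonneg_left (ap_nq (C' h)) (sq_nonneg M2)
      rw [sq_abs, mul_pow] at h5
      linarith
    have h3 := Finset.sum_le_sum fun h (_ : h ∈ univ) => h2 h
    rw [← Finset.mul_sum, Finset.sum_add_distrib, Finset.sum_add_distrib, ← Finset.mul_sum] at h3
    simp only [Finset.sum_const, Finset.card_univ, nsmul_eq_mul] at h3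
    have hHN : 0 < (Fintype.card H : ℝ) * N ^ 2 := by positivity
    have h4 : ∑ h, res (g e) h ^ 2 ≤ (Fintype.card H : ℝ) * N ^ 2 :=
      (hg' e).trans (mul_le_of_le_one_left hHN.le hep1)
    have h5 : M2 ^ 2 * ∑ h, ∑ i, C' h i ^ 2 ≤ M2 ^ 2 * ((Fintype.card H : ℝ) * N ^ 2) :=
      mul_le_mul_of_nonneg_left (by linarith) (sq_nonneg _)
    have h6 : (Fintype.card H : ℝ) * M3 ^ 2 ≤ (Fintype.card H : ℝ) * N ^ 2 * M3 ^ 2 :=
      mul_le_mul_of_nonneg_right (by linarith) (sq_nonneg _)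
    have h7 : c r1 * m1 * (Fintype.card H : ℝ) * ‖C (g e)‖ ^ 2
        ≤ c r1 * m1 * (Fintype.card H : ℝ) * (K1 * N) ^ 2 := by
      calc _ ≤ c r1 * m1 * (Fintype.card H : ℝ) * ∑ i, C (g e) i ^ 2 :=
            mul_le_mul_of_nonneg_left (ap_nq _) (by positivity)
        _ ≤ 3 * (1 + M2 ^ 2 + M3 ^ 2) * ((Fintype.card H : ℝ) * N ^ 2) := by linarith
        _ = _ := by rw [hK1']; ring
    exact (pow_le_pow_iff_left₀ (norm_nonneg _) (by positivity) two_ne_zero).1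
      (le_of_mul_le_mul_left h7 (by positivity))
  obtain ⟨rho, hrho0, hrho1, hrho2⟩ : ∃ rho : H → ℝ, (∀ h, 0 ≤ rho h) ∧
      (∀ (e : S) h, |res (g e) h| ≤ rho h) ∧
      ∑ h, rho h ^ 2 ≤ t ^ 2 * u * ((Fintype.card H : ℝ) * N ^ 2) := by
    refine ⟨fun h => ‖fun e : S => res (g e) h‖, fun h => norm_nonneg _,
      fun e h => norm_le_pi_norm (fun e : S => res (g e) h) e, ?_⟩
    calc _ ≤ ∑ h, ∑ e : S, res (g e) h ^ 2 := Finset.sum_le_sum fun h _ => ap_nq _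
      _ = ∑ e : S, ∑ h, res (g e) h ^ 2 := Finset.sum_comm
      _ ≤ ∑ _e : S, ep * ((Fintype.card H : ℝ) * N ^ 2) := Finset.sum_le_sum fun e _ => hg' e
      _ = (S.card : ℝ) * ep * ((Fintype.card H : ℝ) * N ^ 2) := by simp [mul_assoc]
      _ ≤ _ := mul_le_mul_of_nonneg_right hSep (by positivity)
  have hrn : ∀ (e : S) h w, dist (pw h) w < r0 →
      |∑ i, C (g e) i * lam e w i - ∑ i, C' h i * lam' e w i - Phi e w|
        ≤ rho h + t * (K1 * N) + t * ‖C' h‖ + t * N := by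
    intro e h w hw
    have h1 := ap_ip (C (g e)) _ _ (hua _ _ _ _ ((hg e).trans_le h0a) (hw.trans_le h0a))
    have h2 := ap_ip (C' h) _ _ (hub _ _ _ _ ((hg e).trans_le h0b) (hw.trans_le h0b))
    have h3 : |Phi (pe (g e)) (pw h) - Phi e w| ≤ t := by
      simpa using huc _ _ _ _ ((hg e).trans_le h0c) (hw.trans_le h0c)
    simp only [mul_sub, Finset.sum_sub_distrib] at h1 h2
    have h4 := hrho1 e h
    rw [hres] at h4
    have h5 := mul_le_mul_of_nonneg_left (hCn e) ht.le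
    have h6 : t * 1 ≤ t * N := mul_le_mul_of_nonneg_left hN1 ht.le
    rw [abs_le] at h1 h2 h3 h4 ⊢
    constructor <;> linarith [h1.1, h1.2, h2.1, h2.2, h3.1, h3.2, h4.1, h4.2]
  obtain ⟨hone, D, D', hD, D0, hD0, hCD⟩ := hcert (fun e => C (g e)) (t * (2 + K1 + K2) * N)
    (by positivity) (by
      intro w
      obtain ⟨h, hh, hh'⟩ := ap_pick _ (c r0) ((t * N) ^ 2) hc0 (sq_nonneg _) (hdH r0 le_rfl w)
        (fun h => rho h ^ 2) (fun _ => sq_nonneg _) (hrho2.trans (by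
          have h1 : t ^ 2 * u ≤ t ^ 2 * c r0 := mul_le_mul_of_nonneg_left hu2 (sq_nonneg _)
          exact (mul_le_mul_of_nonneg_right h1 (by positivity)).trans (le_of_eq (by ring))))
      have hw := (Finset.mem_filter.1 hh).2
      have h1 : rho h ≤ t * N :=
        (pow_le_pow_iff_left₀ (hrho0 h) (by positivity) two_ne_zero).1 hh'
      have h2 : t * N ≤ N := mul_le_of_le_one_left hN0.le ht1
      have h3 : t * (K1 * N) ≤ K1 * N := mul_le_of_le_one_left (by positivity) ht1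
      have h4 : t * ‖C' h‖ ≤ m / 2 * ‖C' h‖ := mul_le_mul_of_nonneg_right ht2 (norm_nonneg _)
      have h5 := hG w (C' h) (m / 2 * ‖C' h‖ + m / 2 * K2 * N) (by positivity) fun e he => by
        have h6 := hrn ⟨e, he⟩ h w hw
        have h7 := (ap_ip (C (g ⟨e, he⟩)) _ _ (hb1 e w)).trans
          (mul_le_mul_of_nonneg_right (hCn ⟨e, he⟩) hM1.le)
        have h8 := hb3' e w
        have h9 : M3 * 1 ≤ M3 * N := mul_le_mul_of_nonneg_left hN1 hM3.le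
        rw [hK2']
        simp only at h6
        rw [abs_le] at h6 h7 h8 ⊢
        constructor <;> linarith [h6.1, h6.2, h7.1, h7.2, h8.1, h8.2]
      have h6 : ‖C' h‖ ≤ K2 * N := by
        refine le_of_mul_le_mul_left (a := m / 2) ?_ (by positivity)
        linarith
      have h7 := mul_le_mul_of_nonneg_left h6 ht.le
      refine ⟨C' h, fun e => (hrn e h w hw).trans ?_⟩
      linarith)
  have hKd : K * (t * (2 + K1 + K2) * N) = t * K3 * N := by rw [hK3']; ring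
  rw [hKd] at hone
  simp only [hKd] at hCD
  have hx : ∀ h, m * ‖C' h - D' (pw h)‖ ≤ rho h + t * ‖C' h‖ + t * K4 * N := by
    intro h
    refine hG (pw h) _ _ (by have := hrho0 h; positivity) fun e he => ?_
    have h1 := hrn ⟨e, he⟩ h (pw h) (by simpa using hr0)
    have h2 := (ap_ip (C (g ⟨e, he⟩) - D0 ⟨e, he⟩) _ _ (hb1 e (pw h))).trans
      (mul_le_mul_of_nonneg_right (hCD ⟨e, he⟩) hM1.le)
    have h3 := hb3' e (pw h)
    have h4 := hD0 ⟨e, he⟩ (pw h)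
    have h5 : M3 * 1 ≤ M3 * (t * K3 * N) := mul_le_mul_of_nonneg_left hone hM3.le
    simp only [Pi.sub_apply, sub_mul, Finset.sum_sub_distrib] at h1 h2 h4 ⊢
    rw [hK4']
    rw [abs_le] at h1 h2 h3 ⊢
    constructor <;> linarith [h1.1, h1.2, h2.1, h2.2, h3.1, h3.2]
  have hx2 : ∀ h, ∑ i, C' h i ^ 2 - 2 * ∑ i, C' h i * D' (pw h) i ≤
      3 * (Fintype.card B : ℝ) / m ^ 2 *
        (rho h ^ 2 + t ^ 2 * ∑ i, C' h i ^ 2 + (t * K4 * N) ^ 2) := by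
    intro h
    have h1 : ∑ i, C' h i ^ 2 - 2 * ∑ i, C' h i * D' (pw h) i
        ≤ ∑ i, (C' h - D' (pw h)) i ^ 2 := by
      rw [Finset.mul_sum, ← Finset.sum_sub_distrib]
      refine Finset.sum_le_sum fun i _ => ?_
      rw [Pi.sub_apply]
      nlinarith [sq_nonneg (D' (pw h) i)]
    have h2 := ap_sq3 _ _ _ (m * ‖C' h - D' (pw h)‖) (by
      rw [abs_of_nonneg (by positivity)]
      exact hx h)
    have h3 := mul_le_mul_of_nonneg_left (ap_nq (C' h)) (sq_nonneg t)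
    have h4 : ‖C' h - D' (pw h)‖ ^ 2 ≤ 3 / m ^ 2 *
        (rho h ^ 2 + t ^ 2 * ∑ i, C' h i ^ 2 + (t * K4 * N) ^ 2) := by
      rw [div_mul_eq_mul_div, le_div_iff₀ (by positivity)]
      rw [mul_pow, mul_pow t ‖C' h‖] at h2
      linarith
    calc _ ≤ (Fintype.card B : ℝ) * ‖C' h - D' (pw h)‖ ^ 2 := h1.trans (ap_qn _)
      _ ≤ _ := (mul_le_mul_of_nonneg_left h4 (Nat.cast_nonneg _)).trans (le_of_eq (by ring))
  have h1 := Finset.sum_le_sum fun h (_ : h ∈ univ) => hx2 h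
  rw [Finset.sum_sub_distrib, ← Finset.mul_sum, ← Finset.mul_sum, horth D D' hD,
    Finset.sum_add_distrib, Finset.sum_add_distrib, ← Finset.mul_sum] at h1
  simp only [Finset.sum_const, Finset.card_univ, nsmul_eq_mul] at h1
  have hHN : 0 < (Fintype.card H : ℝ) * N ^ 2 := by positivity
  have h2 : ∑ h, rho h ^ 2 ≤ t ^ 2 * ((Fintype.card H : ℝ) * N ^ 2) :=
    hrho2.trans (mul_le_mul_of_nonneg_right (mul_le_of_le_one_right (sq_nonneg t) hu1) hHN.le)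
  have h3 : t ^ 2 * ∑ h, ∑ i, C' h i ^ 2 ≤ t ^ 2 * ((Fintype.card H : ℝ) * N ^ 2) :=
    mul_le_mul_of_nonneg_left (by linarith) (sq_nonneg _)
  have h4 : 3 * (Fintype.card B : ℝ) / m ^ 2 * (∑ h, rho h ^ 2 + t ^ 2 * ∑ h, ∑ i, C' h i ^ 2
      + (Fintype.card H : ℝ) * (t * K4 * N) ^ 2) ≤ 3 * (Fintype.card B : ℝ) / m ^ 2 *
        (t ^ 2 * (2 + K4 ^ 2) * ((Fintype.card H : ℝ) * N ^ 2)) :=
    mul_le_mul_of_nonneg_left (by linarith) (by positivity)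
  have h5 : (Fintype.card H : ℝ) * 1 ≤ (Fintype.card H : ℝ) * (t * K3 * N) ^ 2 :=
    mul_le_mul_of_nonneg_left (one_le_pow₀ hone) hH.le
  have h6 := mul_lt_mul_of_pos_right ht3 hHN
  rw [hK5'] at h6
  linarith

end Pool.Agent.Lib.BK2
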