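import Mathlib

namespace Pool.Agent.Lib.BK2
open Finset

theorem ap_ip {A : Type} [Fintype A] (x d : A → ℝ) (M : ℝ) (h : ∑ i, |d i| ≤ M) :
    |∑ i, x i * d i| ≤ ‖x‖ * M := by
  calc |∑ i, x i * d i| ≤ ∑ i, |x i * d i| := Finset.abs_sum_le_sum_abs _ _
    _ ≤ ∑ i, ‖x‖ * |d i| := Finset.sum_le_sum fun i _ => by
        rw [abs_mul]
        exact mul_le_mul_of_nonneg_right (norm_le_pi_norm x i) (abs_nonneg _)
    _ = ‖x‖ * ∑ i, |d i| := (Finset.mul_sum _ _ _).symm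
    _ ≤ ‖x‖ * M := mul_le_mul_of_nonneg_left h (norm_nonneg _)

theorem ap_nq {A : Type} [Fintype A] (x : A → ℝ) : ‖x‖ ^ 2 ≤ ∑ i, x i ^ 2 := by
  have h0 : 0 ≤ ∑ i, x i ^ 2 := Finset.sum_nonneg fun i _ => sq_nonneg _
  have h1 : ‖x‖ ≤ Real.sqrt (∑ i, x i ^ 2) := by
    refine (pi_norm_le_iff_of_nonneg (Real.sqrt_nonneg _)).2 fun i => ?_
    exact Real.abs_le_sqrt (Finset.single_le_sum (f := fun i => x i ^ 2)
      (fun i _ => sq_nonneg _) (mem_univ i))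
  calc ‖x‖ ^ 2 ≤ Real.sqrt (∑ i, x i ^ 2) ^ 2 := pow_le_pow_left₀ (norm_nonneg _) h1 2
    _ = _ := Real.sq_sqrt h0

theorem ap_qn {A : Type} [Fintype A] (x : A → ℝ) :
    ∑ i, x i ^ 2 ≤ (Fintype.card A : ℝ) * ‖x‖ ^ 2 := by
  calc ∑ i, x i ^ 2 ≤ ∑ _i : A, ‖x‖ ^ 2 := Finset.sum_le_sum fun i _ => by
        rw [← sq_abs]
        exact pow_le_pow_left₀ (abs_nonneg _) (norm_le_pi_norm x i) 2
    _ = _ := by simp

theorem ap_nodes {X Y A : Type} [TopologicalSpace X] [CompactSpace X] [Fintype A]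
    (f : X → Y → A → ℝ) (hf : ∀ y i, Continuous fun x => f x y i)
    (hind : ∀ x (v : A → ℝ), (∀ y, ∑ i, v i * f x y i = 0) → v = 0) :
    ∃ S : Finset Y, ∃ m : ℝ, 0 < m ∧ ∀ x (v : A → ℝ), v ≠ 0 →
      ∃ y ∈ S, m * ‖v‖ ≤ |∑ i, v i * f x y i| := by
  classical
  have hK : IsCompact ((Set.univ : Set X) ×ˢ Metric.sphere (0 : A → ℝ) 1) :=
    isCompact_univ.prod (isCompact_sphere _ _)
  obtain ⟨t, ht⟩ := hK.elim_finite_subcover
    (fun z : Y × ℕ => {p : X × (A → ℝ) | 1 / ((z.2 : ℝ) + 1) < |∑ i, p.2 i * f p.1 z.1 i|})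
    (fun z => isOpen_lt continuous_const (continuous_abs.comp (continuous_finsetSum _ fun i _ =>
      ((continuous_apply i).comp continuous_snd).mul ((hf z.1 i).comp continuous_fst))))
    (by
      rintro ⟨x, v⟩ ⟨_, hv⟩
      have hv0 : v ≠ 0 := by
        rintro rfl
        simp at hv
      obtain ⟨y, hy⟩ : ∃ y, ∑ i, v i * f x y i ≠ 0 := by
        by_contra hc
        exact hv0 (hind x v fun y => by
          by_contra h1
          exact hc ⟨y, h1⟩)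
      obtain ⟨n, hn⟩ := exists_nat_one_div_lt (abs_pos.2 hy)
      exact Set.mem_iUnion.2 ⟨(y, n), hn⟩)
  refine ⟨t.image Prod.fst, 1 / (((t.sup Prod.snd : ℕ) : ℝ) + 1), by positivity, ?_⟩
  intro x v hv
  have hn : 0 < ‖v‖ := norm_pos_iff.2 hv
  have hm : (x, ‖v‖⁻¹ • v) ∈ ((Set.univ : Set X) ×ˢ Metric.sphere (0 : A → ℝ) 1) := by
    refine ⟨trivial, ?_⟩
    simp [norm_smul, hn.ne']
  obtain ⟨z, hz, h1⟩ := Set.mem_iUnion₂.1 (ht hm)
  refine ⟨z.1, Finset.mem_image_of_mem _ hz, ?_⟩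
  have h2 : 1 / ((z.2 : ℝ) + 1) < |∑ i, (‖v‖⁻¹ • v) i * f x z.1 i| := h1
  have h3 : ∑ i, (‖v‖⁻¹ • v) i * f x z.1 i = ‖v‖⁻¹ * ∑ i, v i * f x z.1 i := by
    rw [Finset.mul_sum]
    exact Finset.sum_congr rfl fun i _ => by simp [mul_assoc]
  rw [h3, abs_mul, abs_of_pos (inv_pos.2 hn), inv_mul_eq_div, lt_div_iff₀ hn] at h2
  have h4 : (z.2 : ℝ) ≤ ((t.sup Prod.snd : ℕ) : ℝ) := by
    exact_mod_cast Finset.le_sup (f := Prod.snd) hz
  have h5 : 1 / (((t.sup Prod.snd : ℕ) : ℝ) + 1) ≤ 1 / ((z.2 : ℝ) + 1) :=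
    one_div_le_one_div_of_le (by positivity) (by linarith)
  exact (mul_le_mul_of_nonneg_right h5 hn.le).trans h2.le

theorem ap_unif {E W A : Type} [PseudoMetricSpace E] [CompactSpace E] [PseudoMetricSpace W]
    [CompactSpace W] [Fintype A] (f : E → W → A → ℝ)
    (hf : ∀ i, Continuous fun z : E × W => f z.1 z.2 i) (om : ℝ) (hom : 0 < om) :
    ∃ r : ℝ, 0 < r ∧ ∀ e e' w w', dist e e' < r → dist w w' < r →
      ∑ i, |f e w i - f e' w' i| ≤ om := by
  have hc : Continuous fun z : E × W => f z.1 z.2 := continuous_pi hf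
  obtain ⟨r, hr, h⟩ := Metric.uniformContinuous_iff.1
    (CompactSpace.uniformContinuous_of_continuous hc) (om / ((Fintype.card A : ℝ) + 1))
    (by positivity)
  refine ⟨r, hr, fun e e' w w' h1 h2 => ?_⟩
  have h3 := h (a := (e, w)) (b := (e', w')) (by rw [Prod.dist_eq]; exact max_lt h1 h2)
  calc ∑ i, |f e w i - f e' w' i| ≤ ∑ _i : A, om / ((Fintype.card A : ℝ) + 1) :=
        Finset.sum_le_sum fun i _ => ((dist_le_pi_dist (f e w) (f e' w') i).trans h3.le)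
    _ = (Fintype.card A : ℝ) * (om / ((Fintype.card A : ℝ) + 1)) := by simp
    _ ≤ om := by
        rw [← mul_div_assoc, div_le_iff₀ (by positivity)]
        nlinarith

theorem ap_bd {E W A : Type} [TopologicalSpace E] [CompactSpace E] [TopologicalSpace W]
    [CompactSpace W] [Fintype A] (f : E → W → A → ℝ)
    (hf : ∀ i, Continuous fun z : E × W => f z.1 z.2 i) :
    ∃ M : ℝ, 0 < M ∧ ∀ e w, ∑ i, |f e w i| ≤ M := by
  have hc : Continuous fun z : E × W => ∑ i, |f z.1 z.2 i| :=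
    continuous_finsetSum _ fun i _ => (hf i).abs
  obtain ⟨M, hM⟩ := (isCompact_range hc).bddAbove
  exact ⟨max M 1, by positivity, fun e w => (hM ⟨(e, w), rfl⟩).trans (le_max_left _ _)⟩

theorem ap_pick {G : Type} [Fintype G] [Nonempty G] (T : Finset G) (c X : ℝ) (hc : 0 < c)
    (hX : 0 ≤ X) (hT : c * (Fintype.card G : ℝ) ≤ (T.card : ℝ)) (f : G → ℝ) (hf : ∀ g, 0 ≤ f g)
    (hs : ∑ g, f g ≤ c * (Fintype.card G : ℝ) * X) : ∃ g ∈ T, f g ≤ X := by
  have h0 : (0 : ℝ) < Fintype.card G := by exact_mod_cast Fintype.card_pos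
  have h1 : T.Nonempty := by
    rw [← Finset.card_pos]
    have : (0 : ℝ) < T.card := lt_of_lt_of_le (mul_pos hc h0) hT
    exact_mod_cast this
  refine Finset.exists_le_of_sum_le h1 ?_
  calc ∑ g ∈ T, f g ≤ ∑ g, f g :=
        Finset.sum_le_sum_of_subset_of_nonneg (subset_univ _) fun g _ _ => hf g
    _ ≤ (T.card : ℝ) * X := hs.trans (mul_le_mul_of_nonneg_right hT hX)
    _ = ∑ _g ∈ T, X := by simp

theorem ap_fin {P : Type} [AddCommGroup P] [Module ℝ P] [FiniteDimensional ℝ P] {I : Type}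
    (Q : I → Submodule ℝ P) : ∃ T : Finset I, ∀ p, (∀ i ∈ T, p ∈ Q i) → ∀ i, p ∈ Q i := by
  classical
  obtain ⟨_, ⟨T, rfl⟩, hT⟩ := IsArtinian.set_has_minimal
    (Set.range fun T : Finset I => T.inf Q) ⟨_, ∅, rfl⟩
  refine ⟨T, fun p hp i => ?_⟩
  have h1 : (insert i T).inf Q ≤ T.inf Q := Finset.inf_mono (Finset.subset_insert _ _)
  have h2 : (insert i T).inf Q = T.inf Q := by
    by_contra h
    exact hT _ ⟨insert i T, rfl⟩ (lt_of_le_of_ne h1 h)
  have h3 : p ∈ (insert i T).inf Q := by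
    rw [h2]
    exact Submodule.mem_finsetInf.2 hp
  exact Submodule.mem_finsetInf.1 h3 i (mem_insert_self _ _)

theorem ap_dist {P R : Type} [NormedAddCommGroup P] [NormedSpace ℝ P] [FiniteDimensional ℝ P]
    [NormedAddCommGroup R] [NormedSpace ℝ R] (T : P →ₗ[ℝ] R) :
    ∃ K : ℝ, 0 < K ∧ ∀ z, ∃ z0, T z0 = 0 ∧ ‖z - z0‖ ≤ K * ‖T z‖ := by
  obtain ⟨g, hg⟩ := T.rangeRestrict.exists_rightInverse_of_surjective
    (LinearMap.range_rangeRestrict T)
  obtain ⟨K, hK, h⟩ := (LinearMap.toContinuousLinearMap g).bound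
  refine ⟨K, hK, fun z => ⟨z - g (T.rangeRestrict z), ?_, ?_⟩⟩
  · have h1 := congrArg Subtype.val (LinearMap.congr_fun hg (T.rangeRestrict z))
    have h2 : T (g (T.rangeRestrict z)) = T z := h1
    rw [map_sub, h2, sub_self]
  · rw [sub_sub_cancel]
    exact h (T.rangeRestrict z)

/-- lower bound of the Gram form of a family with lower density -/
theorem gram {E W : Type} [PseudoMetricSpace E] [CompactSpace E] [PseudoMetricSpace W]
    [CompactSpace W] {A : Type} [Fintype A] (lam : E → W → A → ℝ)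
    (hlam : ∀ i, Continuous fun z : E × W => lam z.1 z.2 i)
    (hind : ∀ e (x : A → ℝ), (∀ w, ∑ i, x i * lam e w i = 0) → x = 0) :
    ∃ r1 : ℝ, 0 < r1 ∧ ∃ m : ℝ, 0 < m ∧ ∀ (H : Type) [Fintype H] (pw : H → W) (c : ℝ),
      (∀ w, c * (Fintype.card H : ℝ) ≤ ((univ.filter fun h => dist (pw h) w < r1).card : ℝ)) →
      ∀ (e : E) (x : A → ℝ),
        c * m * (Fintype.card H : ℝ) * ∑ i, x i ^ 2 ≤ ∑ h, (∑ i, x i * lam e (pw h) i) ^ 2 := by
  obtain ⟨S, m, hm, hS⟩ := ap_nodes lam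
    (fun w i => (hlam i).comp (continuous_id.prodMk continuous_const)) hind
  obtain ⟨r, hr, hu⟩ := ap_unif lam hlam (m / 2) (by positivity)
  refine ⟨r, hr, (m / 2) ^ 2 / ((Fintype.card A : ℝ) + 1), by positivity, ?_⟩
  intro H _ pw c hc e x
  have hR : 0 ≤ ∑ h, (∑ i, x i * lam e (pw h) i) ^ 2 := Finset.sum_nonneg fun _ _ => sq_nonneg _
  by_cases hx : x = 0
  · simp [hx]
  obtain ⟨w, -, hw⟩ := hS e x hx
  have h1 : ∀ h ∈ univ.filter fun h => dist (pw h) w < r,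
      (m / 2 * ‖x‖) ^ 2 ≤ (∑ i, x i * lam e (pw h) i) ^ 2 := by
    intro h hh
    have h2 := ap_ip x _ _ (hu e e (pw h) w (by simpa using hr) (Finset.mem_filter.1 hh).2)
    simp only [mul_sub, Finset.sum_sub_distrib] at h2
    have h3 := abs_sub_abs_le_abs_sub (∑ i, x i * lam e w i) (∑ i, x i * lam e (pw h) i)
    rw [abs_sub_comm] at h3
    rw [← sq_abs (∑ i, x i * lam e (pw h) i)]
    exact pow_le_pow_left₀ (by positivity) (by linarith) 2
  have h4 : ((univ.filter fun h => dist (pw h) w < r).card : ℝ) * (m / 2 * ‖x‖) ^ 2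
      ≤ ∑ h, (∑ i, x i * lam e (pw h) i) ^ 2 := by
    calc _ = ∑ _h ∈ univ.filter fun h => dist (pw h) w < r, (m / 2 * ‖x‖) ^ 2 := by simp
      _ ≤ ∑ h ∈ univ.filter fun h => dist (pw h) w < r, (∑ i, x i * lam e (pw h) i) ^ 2 :=
          Finset.sum_le_sum h1
      _ ≤ _ := Finset.sum_le_sum_of_subset_of_nonneg (subset_univ _) fun _ _ _ => sq_nonneg _
  have h5 : (m / 2) ^ 2 / ((Fintype.card A : ℝ) + 1) * ∑ i, x i ^ 2 ≤ (m / 2 * ‖x‖) ^ 2 := by
    have h6 := ap_qn x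
    rw [div_mul_eq_mul_div, div_le_iff₀ (by positivity), mul_pow, mul_assoc]
    refine mul_le_mul_of_nonneg_left ?_ (by positivity)
    nlinarith [sq_nonneg ‖x‖]
  have h7 : 0 ≤ (m / 2) ^ 2 / ((Fintype.card A : ℝ) + 1) * ∑ i, x i ^ 2 :=
    mul_nonneg (by positivity) (Finset.sum_nonneg fun _ _ => sq_nonneg _)
  calc _ = c * (Fintype.card H : ℝ) *
        ((m / 2) ^ 2 / ((Fintype.card A : ℝ) + 1) * ∑ i, x i ^ 2) := by ring
    _ ≤ ((univ.filter fun h => dist (pw h) w < r).card : ℝ) *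
        ((m / 2) ^ 2 / ((Fintype.card A : ℝ) + 1) * ∑ i, x i ^ 2) :=
        mul_le_mul_of_nonneg_right (hc w) h7
    _ ≤ _ := (mul_le_mul_of_nonneg_left h5 (Nat.cast_nonneg _)).trans h4

/-- finite certificate: approximate solutions on finitely many nodes are close to
homogeneous solutions -/
theorem ap_cert {E W A B : Type} [TopologicalSpace W] [CompactSpace W] [Fintype A] [Fintype B]
    (lam : E → W → A → ℝ) (lam' : E → W → B → ℝ) (Phi : E → W → ℝ)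
    (hlam' : ∀ e i, Continuous fun w => lam' e w i)
    (hind' : ∀ w (x : B → ℝ), (∀ e, ∑ i, x i * lam' e w i = 0) → x = 0)
    (hno : ¬ ∃ (C : E → A → ℝ) (C' : W → B → ℝ),
      ∀ e w, ∑ i, C e i * lam e w i - ∑ i, C' w i * lam' e w i = Phi e w) :
    ∃ S : Finset E, ∃ m : ℝ, 0 < m ∧ ∃ K : ℝ, 0 < K ∧
      (∀ w (x : B → ℝ) (t : ℝ), 0 ≤ t → (∀ e ∈ S, |∑ i, x i * lam' e w i| ≤ t) → m * ‖x‖ ≤ t) ∧
      ∀ (C : S → A → ℝ) (de : ℝ), 0 ≤ de →
        (∀ w, ∃ x : B → ℝ, ∀ e : S,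
          |∑ i, C e i * lam e w i - ∑ i, x i * lam' e w i - Phi e w| ≤ de) →
        1 ≤ K * de ∧ ∃ (D : E → A → ℝ) (D' : W → B → ℝ),
          (∀ e w, ∑ i, D e i * lam e w i = ∑ i, D' w i * lam' e w i) ∧
          ∃ D0 : S → A → ℝ, (∀ (e : S) w, ∑ i, D0 e i * lam e w i = ∑ i, D' w i * lam' e w i) ∧
            ∀ e : S, ‖C e - D0 e‖ ≤ K * de := by
  classical
  obtain ⟨S1, m, hm, hS1⟩ := ap_nodes (fun w e => lam' e w) (fun e i => hlam' e i) hind'
  have hG : ∀ w (x : B → ℝ) (t : ℝ), 0 ≤ t → (∀ e ∈ S1, |∑ i, x i * lam' e w i| ≤ t) →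
      m * ‖x‖ ≤ t := by
    intro w x t ht h
    by_cases hx : x = 0
    · simpa [hx] using ht
    obtain ⟨e, he, h1⟩ := hS1 w x hx
    exact h1.trans (h e he)
  let Q : E → Submodule ℝ ((S1 → A → ℝ) × ℝ) := fun e =>
    { carrier := {p | ∃ (D' : W → B → ℝ) (Ce : A → ℝ),
        (∀ (e' : S1) w, p.1 e' ⬝ᵥ lam e' w - D' w ⬝ᵥ lam' e' w = p.2 * Phi e' w) ∧
        ∀ w, Ce ⬝ᵥ lam e w - D' w ⬝ᵥ lam' e w = p.2 * Phi e w}
      add_mem' := by
        rintro p q ⟨D1, C1, h1, h2⟩ ⟨D2, C2, h3, h4⟩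
        refine ⟨D1 + D2, C1 + C2, fun e' w => ?_, fun w => ?_⟩
        · simp only [Prod.fst_add, Prod.snd_add, Pi.add_apply, add_dotProduct]
          linear_combination h1 e' w + h3 e' w
        · simp only [Prod.snd_add, Pi.add_apply, add_dotProduct]
          linear_combination h2 w + h4 w
      zero_mem' := ⟨0, 0, by simp, by simp⟩
      smul_mem' := by
        rintro c p ⟨D1, C1, h1, h2⟩
        refine ⟨c • D1, c • C1, fun e' w => ?_, fun w => ?_⟩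
        · simp only [Prod.smul_fst, Prod.smul_snd, Pi.smul_apply, smul_dotProduct, smul_eq_mul]
          linear_combination c * h1 e' w
        · simp only [Prod.smul_snd, Pi.smul_apply, smul_dotProduct, smul_eq_mul]
          linear_combination c * h2 w }
  obtain ⟨T, hT⟩ := ap_fin Q
  let S := S1 ∪ T
  have hext : ∀ (C : S → A → ℝ) (s : ℝ) (D' : W → B → ℝ),
      (∀ (e : S) w, C e ⬝ᵥ lam e w - D' w ⬝ᵥ lam' e w = s * Phi e w) →
      s = 0 ∧ ∃ D : E → A → ℝ, ∀ e w, D e ⬝ᵥ lam e w = D' w ⬝ᵥ lam' e w := by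
    intro C s D' h
    have h1 := hT (fun e' : S1 => C ⟨e', Finset.mem_union_left _ e'.2⟩, s)
      (fun e he => ⟨D', C ⟨e, Finset.mem_union_right _ he⟩,
        fun e' w => h ⟨e', Finset.mem_union_left _ e'.2⟩ w,
        fun w => h ⟨e, Finset.mem_union_right _ he⟩ w⟩)
    have h2 : ∀ e, ∃ Ce : A → ℝ, ∀ w, Ce ⬝ᵥ lam e w - D' w ⬝ᵥ lam' e w = s * Phi e w := by
      intro e
      obtain ⟨D2, Ce, h3, h4⟩ := h1 e
      have h5 : ∀ w, D2 w = D' w := by
        intro w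
        have h6 := hG w (D2 w - D' w) 0 le_rfl fun e' he' => by
          have h7 := h3 ⟨e', he'⟩ w
          have h8 := h ⟨e', Finset.mem_union_left _ he'⟩ w
          have h9 : (D2 w - D' w) ⬝ᵥ lam' e' w = 0 := by
            rw [sub_dotProduct]
            simp only at h7 h8
            linarith
          exact (abs_eq_zero.2 h9).le
        have h10 : ‖D2 w - D' w‖ ≤ 0 := by
          by_contra h11
          have := mul_pos hm (not_le.1 h11)
          linarith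
        exact sub_eq_zero.1 (norm_le_zero_iff.1 h10)
      exact ⟨Ce, fun w => by rw [← h5 w]; exact h4 w⟩
    choose D hD using h2
    have hs : s = 0 := by
      by_contra hs
      refine hno ⟨s⁻¹ • D, s⁻¹ • D', fun e w => ?_⟩
      show (s⁻¹ • D e) ⬝ᵥ lam e w - (s⁻¹ • D' w) ⬝ᵥ lam' e w = Phi e w
      rw [smul_dotProduct, smul_dotProduct, smul_eq_mul, smul_eq_mul, ← mul_sub, hD e w,
        inv_mul_cancel_left₀ hs]
    refine ⟨hs, D, fun e w => ?_⟩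
    have := hD e w
    rw [hs, zero_mul] at this
    linarith
  let Q' : W → Submodule ℝ ((S → A → ℝ) × ℝ) := fun w =>
    { carrier := {p | ∃ x : B → ℝ,
        ∀ e : S, p.1 e ⬝ᵥ lam e w - x ⬝ᵥ lam' e w = p.2 * Phi e w}
      add_mem' := by
        rintro p q ⟨x1, h1⟩ ⟨x2, h3⟩
        refine ⟨x1 + x2, fun e' => ?_⟩
        simp only [Prod.fst_add, Prod.snd_add, Pi.add_apply, add_dotProduct]
        linear_combination h1 e' + h3 e'
      zero_mem' := ⟨0, by simp⟩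
      smul_mem' := by
        rintro c p ⟨x1, h1⟩
        refine ⟨c • x1, fun e' => ?_⟩
        simp only [Prod.smul_fst, Prod.smul_snd, Pi.smul_apply, smul_dotProduct, smul_eq_mul]
        linear_combination c * h1 e' }
  obtain ⟨R, hR⟩ := ap_fin Q'
  let L : (((S → A → ℝ) × ℝ) × (R → B → ℝ)) →ₗ[ℝ] (S × R → ℝ) :=
    { toFun := fun z j => z.1.1 j.1 ⬝ᵥ lam j.1 j.2 - z.2 j.2 ⬝ᵥ lam' j.1 j.2 - z.1.2 * Phi j.1 j.2
      map_add' := by
        intro z z'
        funext j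
        simp only [Prod.fst_add, Prod.snd_add, Pi.add_apply, add_dotProduct]
        ring
      map_smul' := by
        intro c z
        funext j
        simp only [Prod.smul_fst, Prod.smul_snd, Pi.smul_apply, smul_dotProduct, smul_eq_mul,
          RingHom.id_apply]
        ring }
  obtain ⟨K, hK, hL⟩ := ap_dist L
  refine ⟨S, m, hm, K, hK, fun w x t ht h => hG w x t ht fun e he =>
    h e (Finset.mem_union_left _ he), ?_⟩
  intro C de hde h
  choose x hx using h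
  obtain ⟨z0, hz0, hz⟩ := hL ((C, 1), fun w => x w)
  have h1 : ‖L ((C, 1), fun w => x w)‖ ≤ de := by
    refine (pi_norm_le_iff_of_nonneg hde).2 fun j => ?_
    have h2 := hx j.2 j.1
    show |C j.1 ⬝ᵥ lam j.1 j.2 - x j.2 ⬝ᵥ lam' j.1 j.2 - 1 * Phi j.1 j.2| ≤ de
    rw [one_mul]
    exact h2
  have h3 : ‖((C, (1 : ℝ)), fun w : R => x w) - z0‖ ≤ K * de :=
    hz.trans (mul_le_mul_of_nonneg_left h1 hK.le)
  have h4 := hR z0.1 fun w hw => ⟨z0.2 ⟨w, hw⟩, fun e => by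
    have h5 : z0.1.1 e ⬝ᵥ lam e w - z0.2 ⟨w, hw⟩ ⬝ᵥ lam' e w - z0.1.2 * Phi e w = 0 :=
      congrFun hz0 (e, ⟨w, hw⟩)
    linarith⟩
  choose D' hD' using h4
  obtain ⟨hs, D, hD⟩ := hext z0.1.1 z0.1.2 D' fun e w => hD' w e
  have h6 : ‖(C, (1 : ℝ)) - z0.1‖ ≤ K * de := (norm_fst_le _).trans h3
  refine ⟨?_, D, D', hD, z0.1.1, fun e w => ?_, fun e => ?_⟩
  · have h7 : ‖(1 : ℝ) - z0.1.2‖ ≤ K * de := (norm_snd_le ((C, (1 : ℝ)) - z0.1)).trans h6
    simpa [hs] using h7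
  · have h8 := hD' w e
    rw [hs, zero_mul] at h8
    exact sub_eq_zero.1 h8
  · have h7 : ‖C - z0.1.1‖ ≤ K * de := (norm_fst_le ((C, (1 : ℝ)) - z0.1)).trans h6
    exact (norm_le_pi_norm (C - z0.1.1) e).trans h7

end Pool.Agent.Lib.BK2
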