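import Pool.Agent.Lib.BK2.Defs

open Polynomial

noncomputable section

namespace Pool.Agent.Lib.BK2

/-- Section G, final output. -/
def St_G : Prop :=
  ∀ (L : Type) [Field L] [Algebra ℚ L] (n : ℕ) (y : Fin (n + 1) → L), IsCurve y →
    ∃ (B : Type) (_ : CommRing B) (_ : IsDomain B) (_ : Algebra ℤ[X] B) (d : ℕ) (_ : NeZero d)
      (Γ : Geo B d) (_ : Γ.Model y), Γ.Weil ∧ Γ.Irr

/-- Section K, final output: if the weighted regulator kills all integral symbols, the functional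
`Phi` is a combination of the local conditions on every finite set of split pairs. -/
def St_K : Prop :=
  ∀ (L : Type) [Field L] [Algebra ℚ L] (n : ℕ) (y : Fin (n + 1) → L)
    (B : Type) [CommRing B] [IsDomain B] [Algebra ℤ[X] B] (d : ℕ) [NeZero d] (Γ : Geo B d)
    (μ : Γ.Model y) (ι : Type) [Fintype ι] (γ : ι → Loop y) (a : ι → ℝ) (m m' ν ν' : ℕ)
    (U : Set (Γ.Ix m → ℝ)) (U' : Set (Γ.Ix m' → ℝ)) (ρ : Γ.Roots m ν U) (ρ' : Γ.Roots m' ν' U'),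
    μ.m₀ ≤ m → Γ.dmax + 1 ≤ m → 2 * m ≤ m' → μ.Off γ U → μ.Off γ U' →
    (∀ s : List (Lˣ × Lˣ), Integral s → (∀ l, Avoids s (γ l)) → ∑ l, a l * reg s (γ l) = 0) →
    ∀ (H H' : ℝ), 0 < H → 0 < H' →
    ∀ (P : Finset ((Γ.Ix m → ℤ) × (Γ.Ix m' → ℤ)))
      (Z : (Γ.Ix m → ℤ) → (Γ.Ix m' → ℤ) → Finset (Pt B)),
    (∀ q ∈ P, scl H q.1 ∈ U ∧ scl H' q.2 ∈ U' ∧
      Γ.Split m m' (Γ.el q.1) (Γ.el q.2) (Z q.1 q.2)) →
    ∃ (c : (Γ.Ix m → ℤ) → Pt B → ℝ) (c' : (Γ.Ix m' → ℤ) → Pt B → ℝ)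
      (C : (Γ.Ix m → ℤ) → Option (Fin ν) → ℝ) (C' : (Γ.Ix m' → ℤ) → Option (Fin ν') → ℝ),
      ∀ q ∈ P, ∑ x ∈ Z q.1 q.2, c q.1 x + ∑ o, C q.1 o * ρ.lam (scl H q.1) (scl H' q.2) o -
        ∑ x ∈ Z q.1 q.2, c' q.2 x - ∑ o, C' q.2 o * ρ'.lam (scl H' q.2) (scl H q.1) o =
        μ.Phi γ a (scl H q.1) (scl H' q.2)

/-- Product formulas on both curves of a split pair. -/
def St_PROD : Prop :=
  ∀ (B : Type) [CommRing B] [IsDomain B] [Algebra ℤ[X] B] (d : ℕ) [NeZero d] (Γ : Geo B d)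
    (m m' ν ν' : ℕ) (U : Set (Γ.Ix m → ℝ)) (U' : Set (Γ.Ix m' → ℝ)) (ρ : Γ.Roots m ν U)
    (ρ' : Γ.Roots m' ν' U'), Γ.dmax + 1 ≤ m → 2 * m ≤ m' → ∀ (H H' : ℝ), 0 < H → 0 < H' →
    ∀ (e : Γ.Ix m → ℤ) (w : Γ.Ix m' → ℤ) (Z : Finset (Pt B)), scl H e ∈ U → scl H' w ∈ U' →
    Γ.Split m m' (Γ.el e) (Γ.el w) Z →
    (∑ x ∈ Z, Real.log x.p = 2 * ∑ s, ρ.lam (scl H e) (scl H' w) (some s) +
      m' * Real.log |Γ.lc (scl H e)| + (m * d * Real.log H' + m' * d * Real.log H)) ∧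
    (∑ x ∈ Z, Real.log x.p = 2 * ∑ s, ρ'.lam (scl H' w) (scl H e) (some s) +
      m * Real.log |Γ.lc (scl H' w)| + (m * d * Real.log H' + m' * d * Real.log H))

/-- Section R, final output. -/
def St_R : Prop :=
  ∀ (L : Type) [Field L] [Algebra ℚ L] (n : ℕ) (y : Fin (n + 1) → L)
    (B : Type) [CommRing B] [IsDomain B] [Algebra ℤ[X] B] (d : ℕ) [NeZero d] (Γ : Geo B d)
    (μ : Γ.Model y) (ι : Type) [Fintype ι] (γ : ι → Loop y) (a : ι → ℝ) (ω), RegForm y ω →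
    ∑ l, a l * (period ω (γ l)).im ≠ 0 → Γ.Irr →
    ∃ m₁ : ℕ, ∀ m ≥ m₁, Even m →
    ∃ (ν : ℕ) (U : Set (Γ.Ix m → ℝ)) (ρ : Γ.Roots m ν U) (o : Γ.Ix m → ℝ) (s : ℝ), 0 < s ∧
      rcube o s ⊆ U ∧ μ.Off γ U ∧
    ∃ m₂ : ℕ, ∀ m' ≥ m₂, Even m' →
    ∃ (ν' : ℕ) (U' : Set (Γ.Ix m' → ℝ)) (ρ' : Γ.Roots m' ν' U') (o' : Γ.Ix m' → ℝ) (s' : ℝ),
      0 < s' ∧ rcube (fun i => o' i - 2 * s') (5 * s') ⊆ U' ∧ μ.Off γ U' ∧
      (∀ e ∈ rcube o s, ∀ w ∈ U', (∀ j, Γ.ev (ρ.φ e j) w ≠ 0) ∧ ∀ j, Γ.ev (ρ'.φ w j) e ≠ 0) ∧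
      ContinuousOn (fun q : (Γ.Ix m → ℝ) × (Γ.Ix m' → ℝ) => ρ.lam q.1 q.2) (rcube o s ×ˢ U') ∧
      ContinuousOn (fun q : (Γ.Ix m → ℝ) × (Γ.Ix m' → ℝ) => ρ'.lam q.2 q.1) (rcube o s ×ˢ U') ∧
      ContinuousOn (fun q : (Γ.Ix m → ℝ) × (Γ.Ix m' → ℝ) => μ.Phi γ a q.1 q.2) (rcube o s ×ˢ U') ∧
      (∀ e ∈ rcube o s, ∀ C : Option (Fin ν) → ℝ,
        (∀ w ∈ rcube o' s', ∑ j, C j * ρ.lam e w j = 0) → C = 0) ∧
      (∀ w ∈ rcube o' s', ∀ C : Option (Fin ν') → ℝ,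
        (∀ e ∈ rcube o s, ∑ j, C j * ρ'.lam w e j = 0) → C = 0) ∧
      ¬ ∃ (C : (Γ.Ix m → ℝ) → Option (Fin ν) → ℝ) (C' : (Γ.Ix m' → ℝ) → Option (Fin ν') → ℝ),
        ∀ e ∈ rcube o s, ∀ w ∈ rcube o' s',
          ∑ j, C e j * ρ.lam e w j - ∑ j, C' w j * ρ'.lam w e j = μ.Phi γ a e w

/-- From no exact solution to no approximate solution on dense finite families. -/
def St_AP : Prop :=
  ∀ (E W : Type) [MetricSpace E] [MetricSpace W] [CompactSpace E] [CompactSpace W]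
    (O O' : Type) [Fintype O] [Fintype O'] (lam : E → W → O → ℝ) (lam' : W → E → O' → ℝ)
    (Φ : E → W → ℝ), (Continuous fun q : E × W => lam q.1 q.2) →
    (Continuous fun q : E × W => lam' q.2 q.1) → (Continuous fun q : E × W => Φ q.1 q.2) →
    (∀ e (C : O → ℝ), (∀ w, ∑ j, C j * lam e w j = 0) → C = 0) →
    (∀ w (C : O' → ℝ), (∀ e, ∑ j, C j * lam' w e j = 0) → C = 0) →
    (¬ ∃ (C : E → O → ℝ) (C' : W → O' → ℝ), ∀ e w,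
      ∑ j, C e j * lam e w j - ∑ j, C' w j * lam' w e j = Φ e w) →
    ∀ dens : ℝ → ℝ, (∀ r, 0 < r → 0 < dens r) →
    ∃ ε₀ r₀ c₁ : ℝ, 0 < ε₀ ∧ 0 < r₀ ∧ 0 < c₁ ∧
      ∀ (G V : Type) [Fintype G] [Fintype V] [Nonempty G] [Nonempty V] (pe : G → E) (pw : V → W),
      (∀ r ≥ r₀, ∀ e, dens r * Fintype.card G ≤ Nat.card {g // dist (pe g) e < r}) →
      (∀ r ≥ r₀, ∀ w, dens r * Fintype.card V ≤ Nat.card {v // dist (pw v) w < r}) →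
      (∀ e (C : O → ℝ), c₁ * (∑ j, C j ^ 2) * Fintype.card V ≤
        ∑ v, (∑ j, C j * lam e (pw v) j) ^ 2) ∧
      (∀ w (C : O' → ℝ), c₁ * (∑ j, C j ^ 2) * Fintype.card G ≤
        ∑ g, (∑ j, C j * lam' w (pe g) j) ^ 2) ∧
      ∀ (C : G → O → ℝ) (C' : V → O' → ℝ),
        (∀ (D : E → O → ℝ) (D' : W → O' → ℝ),
          (∀ e w, ∑ j, D e j * lam e w j = ∑ j, D' w j * lam' w e j) →
          ∑ v, ∑ j, C' v j * D' (pw v) j = 0) →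
        ε₀ * ((∑ v, ∑ j, C' v j ^ 2) + Fintype.card V) * Fintype.card G <
          ∑ g, ∑ v, (∑ j, C g j * lam (pe g) (pw v) j - ∑ j, C' v j * lam' (pw v) (pe g) j -
            Φ (pe g) (pw v)) ^ 2

end Pool.Agent.Lib.BK2
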