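import Pool.Agent.Lib.BK2.AP
import Pool.Agent.Lib.BK2.Blue0

namespace Pool.Agent.Lib.BK2
open Finset

theorem ap_card {G : Type} [Fintype G] (p : G → Prop) [DecidablePred p] :
    Nat.card {g // p g} = (univ.filter p).card := by
  rw [Nat.card_eq_fintype_card, Fintype.card_subtype]

theorem stAP : St_AP := by
  intro E W _ _ _ _ O O' _ _ lam lam' Φ h1 h2 h3 h4 h5 h6 dens hd
  obtain ⟨eps, heps, r0, hr0, hap⟩ := ap lam (fun e w => lam' w e) Φ
    (fun i => (continuous_apply i).comp h1) (fun i => (continuous_apply i).comp h2) h3 h4 h5 h6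
    dens hd
  obtain ⟨r1, hr1, m1, hm1, hg1⟩ := gram lam (fun i => (continuous_apply i).comp h1) h4
  obtain ⟨r2, hr2, m2, hm2, hg2⟩ := gram lam'
    (fun i => ((continuous_apply i).comp h2).comp continuous_swap) h5
  have hd1 := hd r1 hr1
  have hd2 := hd r2 hr2
  refine ⟨eps, min r0 (min r1 r2), min (dens r1 * m1) (dens r2 * m2), heps, by positivity,
    by positivity, ?_⟩
  intro G V _ _ _ _ pe pw hG hV
  simp only [ap_card] at hG hV
  refine ⟨fun e C => ?_, fun w C => ?_, fun C C' horth => ?_⟩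
  · refine le_trans ?_ (hg1 V pw (dens r1)
      (hV r1 ((min_le_right _ _).trans (min_le_left _ _))) e C)
    have hq : 0 ≤ (∑ j, C j ^ 2) * (Fintype.card V : ℝ) :=
      mul_nonneg (Finset.sum_nonneg fun _ _ => sq_nonneg _) (Nat.cast_nonneg _)
    have := mul_le_mul_of_nonneg_right (min_le_left (dens r1 * m1) (dens r2 * m2)) hq
    linarith
  · refine le_trans ?_ (hg2 G pe (dens r2)
      (hG r2 ((min_le_right _ _).trans (min_le_right _ _))) w C)
    have hq : 0 ≤ (∑ j, C j ^ 2) * (Fintype.card G : ℝ) :=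
      mul_nonneg (Finset.sum_nonneg fun _ _ => sq_nonneg _) (Nat.cast_nonneg _)
    have := mul_le_mul_of_nonneg_right (min_le_right (dens r1 * m1) (dens r2 * m2)) hq
    linarith
  · have := hap G V pe pw (fun r hr => hG r ((min_le_left _ _).trans hr))
      (fun r hr => hV r ((min_le_left _ _).trans hr)) C C' horth
    linarith

end Pool.Agent.Lib.BK2
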