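import Pool.Agent.Lib.BK2.ADefs

/-! BK2 section A: the major arc analysis. -/

namespace Pool.Agent.Lib.BK2

open Finset

namespace Arc

variable {ι : Type} [Fintype ι]

lemma mem_cube [DecidableEq ι] {a : ι → ℤ} {s : ℕ} {v : ι → ℤ} :
    v ∈ cube a s ↔ ∀ i, a i ≤ v i ∧ v i < a i + s := by
  simp [cube, Fintype.mem_piFinset]

lemma card_cube [DecidableEq ι] (a : ι → ℤ) (s : ℕ) :
    (cube a s).card = s ^ Fintype.card ι := by
  simp [cube, Fintype.card_piFinset]

lemma pr_add (ξ : ι → ℝ) (v w : ι → ℤ) : pr ξ (v + w) = pr ξ v + pr ξ w := by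
  simp [pr, mul_add, Finset.sum_add_distrib]

lemma pr_smul (ξ : ι → ℝ) (c : ℤ) (w : ι → ℤ) : pr ξ (c • w) = c * pr ξ w := by
  simp only [pr, Pi.smul_apply, smul_eq_mul, Int.cast_mul, Finset.mul_sum]
  exact Finset.sum_congr rfl fun k _ => by ring

lemma pr_zero (ξ : ι → ℝ) : pr ξ 0 = 0 := by simp [pr]

lemma pr_neg (ξ : ι → ℝ) (w : ι → ℤ) : pr ξ (-w) = -pr ξ w := by
  simp [pr, Finset.sum_neg_distrib]

lemma pr_single [DecidableEq ι] (ξ : ι → ℝ) (k : ι) : pr ξ (Pi.single k 1) = ξ k := by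
  simp only [pr]
  rw [Finset.sum_eq_single k]
  · simp
  · intro b _ hb; simp [hb]
  · simp

lemma pr_sum {κ : Type} (ξ : ι → ℝ) (S : Finset κ) (v : κ → ι → ℤ) :
    pr ξ (∑ j ∈ S, v j) = ∑ j ∈ S, pr ξ (v j) := by
  classical
  induction S using Finset.induction_on with
  | empty => simp [pr_zero]
  | insert a S ha ih => rw [Finset.sum_insert ha, Finset.sum_insert ha, pr_add, ih]

lemma pr_sub_le (ξ ξ0 : ι → ℝ) (ρ b : ℝ) (w : ι → ℤ) (h : ∀ k, |ξ k - ξ0 k| ≤ ρ)
    (hw : ∀ k, |(w k : ℝ)| ≤ b) : |pr ξ w - pr ξ0 w| ≤ Fintype.card ι * (ρ * b) := by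
  have : pr ξ w - pr ξ0 w = ∑ k, (ξ k - ξ0 k) * w k := by
    simp only [pr, ← Finset.sum_sub_distrib]
    exact Finset.sum_congr rfl fun k _ => by ring
  rw [this]
  refine (Finset.abs_sum_le_sum_abs _ _).trans ?_
  calc ∑ k, |(ξ k - ξ0 k) * w k| ≤ ∑ _k : ι, ρ * b := by
        refine Finset.sum_le_sum fun k _ => ?_
        rw [abs_mul]
        exact mul_le_mul (h k) (hw k) (abs_nonneg _) ((abs_nonneg _).trans (h k))
    _ = _ := by simp

open Classical in
lemma mem_fam [DecidableEq ι] {aE : ι → ℤ} {sE M0 : ℕ} {e0 : ι → ℤ} {Λ : AddSubgroup (ι → ℤ)}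
    {e : ι → ℤ} : e ∈ fam aE sE M0 e0 Λ ↔
      (∀ i, aE i ≤ e i ∧ e i < aE i + sE) ∧ (∀ i, (M0 : ℤ) ∣ e i - e0 i) ∧ e ∈ Λ := by
  simp [fam, mem_cube]

/-- the enlarged family is at most `6^r` times larger -/
lemma card_big [DecidableEq ι] (aE : ι → ℤ) (sE M0 P d : ℕ) (e0 : ι → ℤ)
    (Λ : AddSubgroup (ι → ℤ)) (hΛ : ∀ v : ι → ℤ, (P : ℤ) • v ∈ Λ) (hd : P * M0 ∣ d)
    (hd0 : 0 < d) (h1 : d ≤ sE) (h2 : sE ≤ 2 * d) :
    (fam (fun i => aE i - sE) (3 * sE) M0 e0 Λ).card ≤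
      6 ^ Fintype.card ι * (fam aE sE M0 e0 Λ).card := by
  obtain ⟨c, hc⟩ := hd
  have hd0' : (0 : ℤ) < d := by exact_mod_cast hd0
  have h1' : (d : ℤ) ≤ sE := by exact_mod_cast h1
  have h2' : (sE : ℤ) ≤ 2 * d := by exact_mod_cast h2
  have hc' : (d : ℤ) = P * M0 * c := by exact_mod_cast hc
  rw [← card_cube (fun _ : ι => (-2 : ℤ)) 6, ← Finset.card_product]
  refine Finset.card_le_card_of_injOn
    (fun e => ((fun i => (e i - aE i) / d), e - (d : ℤ) • fun i => (e i - aE i) / d)) ?_ ?_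
  · intro e he
    rw [Finset.mem_coe, mem_fam] at he
    obtain ⟨hb, hm, hl⟩ := he
    rw [Finset.mem_coe, Finset.mem_product, mem_cube, mem_fam]
    refine ⟨fun i => ⟨?_, ?_⟩, fun i => ?_, fun i => ?_, ?_⟩
    · have := (hb i).1
      exact (Int.le_ediv_iff_mul_le hd0').2 (by linarith)
    · have := (hb i).2
      push_cast at this ⊢
      exact (Int.ediv_lt_iff_lt_mul hd0').2 (by linarith)
    · have e1 := Int.emod_nonneg (e i - aE i) hd0'.ne'
      have e2 := Int.emod_lt_of_pos (e i - aE i) hd0'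
      have e3 := Int.emod_add_mul_ediv (e i - aE i) d
      simp only [Pi.sub_apply, Pi.smul_apply, smul_eq_mul]
      constructor <;> linarith
    · simp only [Pi.sub_apply, Pi.smul_apply, smul_eq_mul]
      have : e i - d * ((e i - aE i) / d) - e0 i =
          (e i - e0 i) - M0 * (P * c * ((e i - aE i) / d)) := by
        rw [show (M0 : ℤ) * (P * c * ((e i - aE i) / d)) = (P * M0 * c) * ((e i - aE i) / d) by
          ring, ← hc']
        ring
      rw [this]
      exact dvd_sub (hm i) (dvd_mul_right _ _)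
    · refine Λ.sub_mem hl ?_
      have : ((d : ℤ) • fun i => (e i - aE i) / d) =
          (P : ℤ) • (((M0 : ℤ) * c) • fun i => (e i - aE i) / d) := by
        rw [smul_smul, ← mul_assoc, ← hc']
      rw [this]
      exact hΛ _
  · intro e _ e' _ h
    simp only [Prod.mk.injEq] at h
    obtain ⟨h1, h2⟩ := h
    rw [h1] at h2
    exact sub_left_injective h2

open Classical in
/-- a popular line in a given direction -/
lemma line [DecidableEq ι] (aE : ι → ℤ) (sE M0 P : ℕ) (e0 : ι → ℤ)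
    (Λ : AddSubgroup (ι → ℤ)) (hΛ : ∀ v : ι → ℤ, (P : ℤ) • v ∈ Λ) (hP : 0 < P * M0)
    (hs : P * M0 ≤ sE) (θ : ℝ) (hθ : 0 ≤ θ) (G : Finset (ι → ℤ)) (hG : G ⊆ fam aE sE M0 e0 Λ)
    (hne : G.Nonempty)
    (hc : θ * 6 ^ Fintype.card ι * (fam aE sE M0 e0 Λ).card ≤ G.card)
    (u : ι → ℤ) (hu : u ∈ Λ) (hu1 : ∀ i, (M0 : ℤ) ∣ u i) (hu2 : ∀ i, |u i| ≤ (P * M0 : ℕ)) :
    ∃ e' : ι → ℤ, θ * (sE / (P * M0) : ℕ) ≤
      (((range (sE / (P * M0))).filter fun l : ℕ => e' + (l : ℤ) • u ∈ G).card : ℝ) := by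
  set Lg := sE / (P * M0) with hLg
  have hL0 : 0 < Lg := Nat.div_pos hs hP
  have hd1 : P * M0 * Lg ≤ sE := Nat.mul_div_le _ _
  have hd2 : sE ≤ 2 * (P * M0 * Lg) := by
    have h1 := Nat.lt_mul_div_succ sE hP
    rw [← hLg] at h1
    nlinarith
  have hbig := card_big aE sE M0 P (P * M0 * Lg) e0 Λ hΛ (dvd_mul_right _ _)
    (Nat.mul_pos hP hL0) hd1 hd2
  set E' := fam (fun i => aE i - sE) (3 * sE) M0 e0 Λ with hE'
  have hmem : ∀ g ∈ G, ∀ l < Lg, g - (l : ℤ) • u ∈ E' := by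
    intro g hg l hl
    have hg' := mem_fam.1 (hG hg)
    rw [hE', mem_fam]
    refine ⟨fun i => ?_, fun i => ?_, Λ.sub_mem hg'.2.2 (Λ.zsmul_mem hu _)⟩
    · have h1 := hg'.1 i
      have h2 : |(l : ℤ) * u i| ≤ sE := by
        rw [abs_mul, Nat.abs_cast]
        calc (l : ℤ) * |u i| ≤ Lg * (P * M0 : ℕ) :=
              mul_le_mul (by exact_mod_cast hl.le) (hu2 i) (abs_nonneg _) (by positivity)
          _ ≤ sE := by rw [mul_comm]; exact_mod_cast hd1
      have h3 := abs_le.1 h2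
      simp only [Pi.sub_apply, Pi.smul_apply, smul_eq_mul]
      push_cast
      constructor <;> linarith [h1.1, h1.2, h3.1, h3.2]
    · simp only [Pi.sub_apply, Pi.smul_apply, smul_eq_mul]
      rw [show g i - l * u i - e0 i = (g i - e0 i) - l * u i by ring]
      exact dvd_sub (hg'.2.1 i) (Dvd.dvd.mul_left (hu1 i) _)
  have hne' : E'.Nonempty := by
    obtain ⟨g, hg⟩ := hne
    exact ⟨_, hmem g hg 0 hL0⟩
  have hsum : ∑ _e ∈ E', θ * (Lg : ℝ) ≤
      ∑ e' ∈ E', (((range Lg).filter fun l : ℕ => e' + (l : ℤ) • u ∈ G).card : ℝ) := by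
    have h1 : ∑ e' ∈ E', (((range Lg).filter fun l : ℕ => e' + (l : ℤ) • u ∈ G).card : ℝ) =
        ∑ l ∈ range Lg, ((E'.filter fun e' => e' + (l : ℤ) • u ∈ G).card : ℝ) := by
      simp only [Finset.card_filter, Nat.cast_sum]
      exact Finset.sum_comm
    have h2 : ∀ l ∈ range Lg, (G.card : ℝ) ≤
        ((E'.filter fun e' => e' + (l : ℤ) • u ∈ G).card : ℝ) := by
      intro l hl
      have : G.card ≤ (E'.filter fun e' => e' + (l : ℤ) • u ∈ G).card := by
        refine Finset.card_le_card_of_injOn (fun g => g - (l : ℤ) • u) ?_ ?_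
        · intro g hg
          rw [Finset.mem_coe] at hg
          rw [Finset.mem_coe, Finset.mem_filter]
          exact ⟨hmem g hg l (Finset.mem_range.1 hl), by simpa using hg⟩
        · intro g _ g' _ h
          exact sub_left_injective h
      exact_mod_cast this
    rw [h1]
    have h3 : (E'.card : ℝ) ≤ 6 ^ Fintype.card ι * (fam aE sE M0 e0 Λ).card := by
      exact_mod_cast hbig
    calc ∑ _e ∈ E', θ * (Lg : ℝ) = (Lg : ℝ) * (θ * E'.card) := by
          rw [Finset.sum_const, nsmul_eq_mul]; ring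
      _ ≤ (Lg : ℝ) * G.card := by
          refine mul_le_mul_of_nonneg_left ?_ (Nat.cast_nonneg _)
          calc θ * E'.card ≤ θ * (6 ^ Fintype.card ι * (fam aE sE M0 e0 Λ).card) :=
                mul_le_mul_of_nonneg_left h3 hθ
            _ ≤ G.card := by rw [← mul_assoc]; exact hc
      _ = ∑ _l ∈ range Lg, (G.card : ℝ) := by
          rw [Finset.sum_const, nsmul_eq_mul, Finset.card_range]
      _ ≤ _ := Finset.sum_le_sum h2
  obtain ⟨e', _, he'⟩ := Finset.exists_le_of_sum_le hne' hsum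
  exact ⟨e', he'⟩

/-- vectors on which a multiple of the frequency is integral -/
def intSub (c : ℝ) (ξ : ι → ℝ) : AddSubgroup (ι → ℤ) where
  carrier := {v | ∃ z : ℤ, c * pr ξ v = z}
  zero_mem' := ⟨0, by simp [pr_zero]⟩
  add_mem' := by
    rintro v w ⟨a, ha⟩ ⟨b, hb⟩
    exact ⟨a + b, by rw [pr_add, mul_add, ha, hb]; push_cast; ring⟩
  neg_mem' := by
    rintro v ⟨a, ha⟩
    exact ⟨-a, by rw [pr_neg, mul_neg, ha]; push_cast; ring⟩

lemma eq_sum_single [DecidableEq ι] (t : ι → ℤ) :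
    t = ∑ j, t j • (Pi.single j 1 : ι → ℤ) := by
  funext k
  simp [Finset.sum_apply, Pi.single_apply]

end Arc

open Arc in
theorem stARC (hV : St_VIN) : St_ARC := by
  intro ι ι1 ι2 _ _ _ _ _ _ mul A h1 hA Y M0 M L P sE e0 aE Λ Λ' hY hM0 hM hL hP hq hcop hΛ hΛ'
    hcl hsE ξ e1 ρ he0 he1 hρ hsm G hG hne hc hgood
  classical
  have hY' : (2 : ℝ) ≤ Y := by exact_mod_cast hY
  have hY0 : (0 : ℝ) < Y := by linarith
  have hM0' : (0 : ℝ) < M0 := by exact_mod_cast hM0
  have hM' : (0 : ℝ) < M := by exact_mod_cast hM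
  have hL' : (0 : ℝ) < L := by exact_mod_cast hL
  have hP' : (0 : ℝ) < P := by exact_mod_cast hP
  have hPM : 0 < P * M0 := Nat.mul_pos hP hM0
  have hs1 : P * M0 ≤ sE := by nlinarith
  set Lg := sE / (P * M0) with hLg
  have hLg1 : 4 * Y ≤ Lg := (Nat.le_div_iff_mul_le hPM).2 (by nlinarith)
  have hLg1' : 4 * (Y : ℝ) ≤ Lg := by exact_mod_cast hLg1
  have hLg0 : (0 : ℝ) < Lg := by linarith
  have hLg2 : (sE : ℝ) ≤ 2 * (P * M0 * Lg) := by
    have h := Nat.lt_mul_div_succ sE hPM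
    rw [← hLg] at h
    have h' : sE ≤ 2 * (P * M0 * Lg) := by nlinarith
    exact_mod_cast h'
  have hsE0 : (0 : ℝ) < sE := by exact_mod_cast lt_of_lt_of_le hPM hs1
  have hρ0 : 0 < ρ := lt_of_lt_of_le (by positivity) hρ
  -- the Vinogradov step
  have key : ∀ u ∈ Λ, (∀ i, (M0 : ℤ) ∣ u i) → (∀ i, |u i| ≤ (P * M0 : ℕ)) → ∀ j, ∃ q : ℕ,
      1 ≤ q ∧ q ≤ Y ∧ ∃ n : ℤ,
        |q * (M * pr ξ (mul u (Pi.single j 1))) - n| ≤ ρ * M * P * M0 := by
    intro u hu hu1 hu2 j
    obtain ⟨e', he'⟩ := line aE sE M0 P e0 Λ hΛ hPM hs1 (2 / Y) (by positivity) G hG hne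
      (by rw [show 2 / (Y : ℝ) * 6 ^ Fintype.card ι = 2 * 6 ^ Fintype.card ι / Y by ring]
          exact hc) u hu hu1 hu2
    rw [← hLg] at he'
    obtain ⟨q, hq1, hq2, n, hn⟩ := hV (M * pr ξ (mul u (Pi.single j 1)))
      (M * pr ξ (mul e' (Pi.single j 1))) (2 / Y) e1 Lg (by positivity)
      (by rw [div_le_one hY0]; exact hY')
      (by rw [div_mul_eq_mul_div, le_div_iff₀ hY0]; linarith) he0
      (by rw [show 2 / (Y : ℝ) / 32 = 1 / (16 * Y) by field_simp; norm_num]; exact he1)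
      (by
        refine he'.trans ?_
        refine Nat.cast_le.2 (Finset.card_le_card ?_)
        intro l hl
        rw [Finset.mem_filter] at hl ⊢
        refine ⟨hl.1, ?_⟩
        obtain ⟨n, hn⟩ := hgood _ hl.2 j
        refine ⟨n, ?_⟩
        rw [map_add, map_smul, LinearMap.add_apply, LinearMap.smul_apply, pr_add, pr_smul] at hn
        push_cast at hn
        rw [show (l : ℝ) * (M * pr ξ (mul u (Pi.single j 1))) + M * pr ξ (mul e' (Pi.single j 1))
          = M * (pr ξ (mul e' (Pi.single j 1)) + l * pr ξ (mul u (Pi.single j 1))) by ring]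
        exact hn)
    refine ⟨q, hq1, ?_, n, hn.trans ?_⟩
    · have : (q : ℝ) ≤ Y := by
        rw [show 2 / (2 / (Y : ℝ)) = Y by field_simp] at hq2
        exact hq2
      exact_mod_cast this
    · rw [div_le_iff₀ (by positivity)] at hρ ⊢
      have e : ρ * M * P * M0 * ((2 / (Y : ℝ)) ^ 2 * Lg) =
          2 * (ρ * (M * (2 * (P * M0 * Lg)))) / Y ^ 2 := by
        field_simp
      rw [e, le_div_iff₀ (by positivity)]
      have : ρ * (M * sE) ≤ ρ * (M * (2 * (P * M0 * Lg))) := by gcongr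
      nlinarith
  -- the rational approximation
  have hx : ∀ k, ∃ x : ℝ, |ξ k - x| ≤ ρ ∧ ∃ z : ℤ, (P * (M * L) : ℝ) * x = z := by
    intro k
    obtain ⟨i, j, hij⟩ := h1 k
    obtain ⟨q, hq1, hq2, n, hn⟩ := key (((P * M0 : ℕ) : ℤ) • Pi.single i 1)
      (by rw [Nat.cast_mul, mul_smul]; exact hΛ _)
      (fun i' => by
        simp only [Pi.smul_apply, smul_eq_mul]
        push_cast
        exact Dvd.dvd.mul_right (dvd_mul_left _ _) _)
      (fun i' => by
        simp only [Pi.smul_apply, smul_eq_mul, Pi.single_apply]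
        split_ifs
        · rw [mul_one, Nat.abs_cast]
        · rw [mul_zero, abs_zero]; positivity) j
    rw [map_smul, LinearMap.smul_apply, hij, pr_smul, pr_single] at hn
    push_cast at hn
    have hq' : (1 : ℝ) ≤ q := by exact_mod_cast hq1
    obtain ⟨c, hc⟩ := hq q hq1 hq2
    have hc' : (L : ℝ) = q * M0 * c := by exact_mod_cast hc
    refine ⟨n / (q * M * P * M0), ?_, n * c, ?_⟩
    · rw [show ξ k - n / (q * M * P * M0) = (q * (M * (P * M0 * ξ k)) - n) / (q * M * P * M0) by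
        field_simp]
      rw [abs_div, abs_of_pos (by positivity : (0 : ℝ) < q * M * P * M0),
        div_le_iff₀ (by positivity)]
      refine hn.trans ?_
      have : ρ * (M * P * M0) * 1 ≤ ρ * (M * P * M0) * q := by gcongr
      nlinarith
    · rw [hc']
      push_cast
      field_simp
  choose ξ0 hξ0 hz using hx
  have hZ1 : ∀ v, v ∈ intSub (P * (M * L) : ℝ) ξ0 := by
    intro v
    rw [eq_sum_single v]
    refine AddSubgroup.sum_mem _ fun k _ => AddSubgroup.zsmul_mem _ ?_ _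
    obtain ⟨z, hz⟩ := hz k
    exact ⟨z, by rw [pr_single]; exact hz⟩
  have hZP : ∀ v : ι1 → ℤ, (P : ℤ) • v ∈ intSub (M * L : ℝ) ξ0 := by
    intro v
    obtain ⟨z, hz⟩ := hZ1 v
    refine ⟨z, ?_⟩
    rw [pr_smul, ← hz]
    push_cast
    ring
  have hZ2 : ∀ u ∈ Λ, (∀ i, |u i| ≤ P) → ∀ j,
      mul u (Pi.single j 1) ∈ intSub (M * L : ℝ) ξ0 := by
    intro u hu hu2 j
    have hu3 : ∀ i, |((M0 : ℤ) • u) i| ≤ (P * M0 : ℕ) := fun i => by
      simp only [Pi.smul_apply, smul_eq_mul]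
      rw [abs_mul, Nat.abs_cast]
      push_cast
      rw [mul_comm (P : ℤ)]
      exact mul_le_mul_of_nonneg_left (hu2 i) (by positivity)
    obtain ⟨q, hq1, hq2, n, hn⟩ := key ((M0 : ℤ) • u) (Λ.zsmul_mem hu _)
      (fun i => dvd_mul_right _ _) hu3 j
    have hb := pr_sub_le ξ ξ0 ρ (A * (P * M0)) (mul ((M0 : ℤ) • u) (Pi.single j 1)) hξ0
      (fun k => by
        have := hA _ _ hu3 j k
        have h' : ((|mul ((M0 : ℤ) • u) (Pi.single j 1) k| : ℤ) : ℝ) ≤
            ((A * (P * M0 : ℕ) : ℤ) : ℝ) := Int.cast_le.2 this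
        push_cast at h'
        exact h')
    rw [map_smul, LinearMap.smul_apply, pr_smul] at hn
    rw [map_smul, LinearMap.smul_apply, pr_smul, pr_smul] at hb
    push_cast at hn hb
    set x := pr ξ (mul u (Pi.single j 1))
    set x0 := pr ξ0 (mul u (Pi.single j 1)) with hx0
    obtain ⟨z, hz⟩ := hZ1 (mul u (Pi.single j 1))
    rw [← hx0] at hz
    have hq' : (1 : ℝ) ≤ q := by exact_mod_cast hq1
    have hq'' : (q : ℝ) ≤ Y := by exact_mod_cast hq2
    obtain ⟨c, hc⟩ := hq q hq1 hq2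
    have hc' : (L : ℝ) = q * M0 * c := by exact_mod_cast hc
    have h2 : |q * (M * (M0 * x0)) - n| ≤
        ρ * M * P * M0 * (1 + Y * Fintype.card ι1 * A) := by
      have e : q * (M * (M0 * x0)) - n =
          (q * (M * (M0 * x)) - n) - q * M * (M0 * x - M0 * x0) := by ring
      rw [e]
      refine (abs_sub _ _).trans ?_
      rw [abs_mul, abs_of_pos (by positivity : (0 : ℝ) < q * M)]
      have h3 : q * M * |M0 * x - M0 * x0| ≤
          Y * M * (Fintype.card ι1 * (ρ * (A * (P * M0)))) := by gcongr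
      nlinarith
    have h4 : |((q * M0 * z - P * L * n : ℤ) : ℝ)| < 1 := by
      push_cast
      rw [← hz, show q * M0 * (P * (M * L) * x0) - P * L * (n : ℝ) =
        (P * L) * (q * (M * (M0 * x0)) - n) by ring, abs_mul,
        abs_of_pos (by positivity : (0 : ℝ) < P * L)]
      refine lt_of_le_of_lt (mul_le_mul_of_nonneg_left h2 (by positivity)) ?_
      refine lt_of_eq_of_lt ?_ hsm
      ring
    have h5 : (q * M0 * z - P * L * n : ℤ) = 0 := by
      have : |(q * M0 * z - P * L * n : ℤ)| < 1 := by exact_mod_cast h4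
      exact Int.abs_lt_one_iff.1 this
    have h6 : (q : ℝ) * M0 * z = P * L * n := by
      have : ((q * M0 * z - P * L * n : ℤ) : ℝ) = 0 := by rw [h5]; simp
      push_cast at this
      linarith
    refine ⟨n * c, ?_⟩
    rw [← hx0]
    have h7 : (P * L : ℝ) * (q * M0 * M * x0 - n) = 0 := by
      rw [← hz] at h6
      linarith
    have h8 : q * M0 * M * x0 = n := by
      have := (mul_eq_zero.1 h7).resolve_left (by positivity)
      linarith
    push_cast
    rw [← h8, hc']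
    ring
  have hZ3 : Λ' ≤ intSub (M * L : ℝ) ξ0 := by
    refine hcl.trans ((AddSubgroup.closure_le _).2 ?_)
    rintro w (⟨u, hu, t, rfl⟩ | ⟨v, rfl⟩)
    · rw [eq_sum_single t, map_sum]
      refine AddSubgroup.sum_mem _ fun j _ => ?_
      rw [map_smul]
      refine AddSubgroup.zsmul_mem _ ?_ _
      have hPz : (0 : ℤ) < P := by exact_mod_cast hP
      have hdec : u = (fun i => u i % P) + (P : ℤ) • fun i => u i / P := by
        funext i
        simp only [Pi.add_apply, Pi.smul_apply, smul_eq_mul]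
        exact (Int.emod_add_mul_ediv _ _).symm
      have hu' : (fun i => u i % P) ∈ Λ := by
        have : (fun i => u i % P) = u - (P : ℤ) • fun i => u i / P := by
          rw [eq_sub_iff_add_eq]; exact hdec.symm
        rw [this]
        exact Λ.sub_mem hu (hΛ _)
      rw [hdec, map_add, map_smul, LinearMap.add_apply, LinearMap.smul_apply]
      refine AddSubgroup.add_mem _ (hZ2 _ hu' (fun i => ?_) j) (hZP _)
      rw [abs_of_nonneg (Int.emod_nonneg _ hPz.ne')]
      exact (Int.emod_lt_of_pos _ hPz).le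
    · exact hZP v
  refine ⟨ξ0, hξ0, fun l hl hdv => ?_⟩
  choose μ hμ using hdv
  have hlμ : l = ((M * L : ℕ) : ℤ) • μ := funext fun k => hμ k
  have hμ' : μ ∈ Λ' := by
    obtain ⟨a, b, hab⟩ := Nat.isCoprime_iff_coprime.2 hcop
    have : μ = a • ((P : ℤ) • μ) + b • l := by
      rw [hlμ, smul_smul, smul_smul, ← add_smul, hab, one_smul]
    rw [this]
    exact Λ'.add_mem (Λ'.zsmul_mem (hΛ' _) _) (Λ'.zsmul_mem hl _)
  obtain ⟨z, hz⟩ := hZ3 hμ'
  refine ⟨z, ?_⟩
  rw [hlμ, pr_smul, ← hz]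
  push_cast
  ring

end Pool.Agent.Lib.BK2
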