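import Mathlib

/-! BOX: points of a coset of a finite index subgroup of `Z ^ r` in a box. -/

namespace Pool.Agent.Lib.BK2.BOX

open Finset

variable {ι : Type} [Fintype ι] [DecidableEq ι] {A B : Type} [AddCommGroup A] [AddCommGroup B]

/-- the box with corner `a` and sides `s` -/
noncomputable def box (a : ι → ℤ) (s : ι → ℕ) : Finset (ι → ℤ) :=
  Fintype.piFinset fun j => Ico (a j) (a j + s j)

theorem mem_box {a : ι → ℤ} {s : ι → ℕ} {v : ι → ℤ} :
    v ∈ box a s ↔ ∀ j, a j ≤ v j ∧ v j < a j + s j := by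
  simp [box]

theorem card_box (a : ι → ℤ) (s : ι → ℕ) : #(box a s) = ∏ j, s j := by
  simp [box]

theorem box_mono (a : ι → ℤ) {s t : ι → ℕ} (h : ∀ j, s j ≤ t j) : box a s ⊆ box a t := fun v hv =>
  mem_box.2 fun j => by
    have h1 := mem_box.1 hv j
    have h2 : (s j : ℤ) ≤ t j := by exact_mod_cast h j
    omega

/-- reduction into the box -/
def red (a : ι → ℤ) (s : ι → ℕ) (v : ι → ℤ) : ι → ℤ := fun j => a j + (v j - a j) % s j

theorem red_mem (a : ι → ℤ) {s : ι → ℕ} (hs : ∀ j, 0 < s j) (v : ι → ℤ) : red a s v ∈ box a s :=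
  mem_box.2 fun j => by
    have h0 : (0 : ℤ) < s j := by exact_mod_cast hs j
    have h1 := Int.emod_nonneg (v j - a j) h0.ne'
    have h2 := Int.emod_lt_of_pos (v j - a j) h0
    simp only [red]
    omega

omit [Fintype ι] [DecidableEq ι] in
theorem map_red (φ : (ι → ℤ) →+ A) {q : ℕ} (hq : ∀ v, q • φ v = 0) (a : ι → ℤ) {s : ι → ℕ}
    (hs : ∀ j, q ∣ s j) (v : ι → ℤ) : φ (red a s v) = φ v := by
  choose k hk using hs
  have : v = red a s v + q • fun j => (k j : ℤ) * ((v j - a j) / s j) := by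
    funext j
    have h := Int.emod_add_mul_ediv (v j - a j) (s j)
    have e : (s j : ℤ) = q * k j := by exact_mod_cast hk j
    rw [Pi.add_apply, Pi.smul_apply, nsmul_eq_mul, ← mul_assoc, ← e, red]
    omega
  conv_rhs => rw [this]
  rw [map_add, map_nsmul, hq, add_zero]

theorem red_inj {a : ι → ℤ} {s : ι → ℕ} (w : ι → ℤ) {v v' : ι → ℤ} (hv : v ∈ box a s)
    (hv' : v' ∈ box a s) (h : red a s (v + w) = red a s (v' + w)) : v = v' := by
  funext j
  have h1 := mem_box.1 hv j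
  have h2 := mem_box.1 hv' j
  have h3 : (v j + w j - a j) % s j = (v' j + w j - a j) % s j := add_left_cancel (congrFun h j)
  have h4 : (s j : ℤ) ∣ v' j - v j := by
    have := (Int.ModEq.dvd h3)
    rwa [show v' j + w j - a j - (v j + w j - a j) = v' j - v j by ring] at this
  have := Int.eq_zero_of_abs_lt_dvd h4 (abs_lt.2 ⟨by omega, by omega⟩)
  omega

variable [DecidableEq A] [DecidableEq B]

theorem fiber_le (φ : (ι → ℤ) →+ A) {q : ℕ} (hq : ∀ v, q • φ v = 0) (a : ι → ℤ) {s : ι → ℕ}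
    (hs : ∀ j, q ∣ s j) (h0 : ∀ j, 0 < s j) (u w : ι → ℤ) :
    #{v ∈ box a s | φ v = φ u} ≤ #{v ∈ box a s | φ v = φ w} := by
  refine card_le_card_of_injOn (fun v => red a s (v + (w - u))) (fun v hv => ?_)
    fun v hv v' hv' h => ?_
  · simp only [coe_filter, Set.mem_ofPred_eq] at hv ⊢
    refine ⟨red_mem a h0 _, ?_⟩
    rw [map_red φ hq a hs, map_add, hv.2, map_sub, add_sub_cancel]
  · simp only [coe_filter, Set.mem_ofPred_eq] at hv hv'
    exact red_inj _ hv.1 hv'.1 h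

/-- exact count when the sides are multiples of the exponent -/
theorem fiber_exact (φ : (ι → ℤ) →+ A) {q : ℕ} (hq : ∀ v, q • φ v = 0) (a : ι → ℤ) {s : ι → ℕ}
    (hs : ∀ j, q ∣ s j) (u : ι → ℤ) :
    #{v ∈ box a s | φ v = φ u} * Nat.card φ.range = ∏ j, s j := by
  by_cases h0 : ∀ j, 0 < s j
  · have e : Nat.card φ.range = #((box a s).image φ) := by
      rw [← Set.ncard_coe_finset, ← Nat.card_coe_set_eq]
      refine Nat.card_congr (Equiv.setCongr (Set.ext fun b => ?_))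
      simp only [coe_image, Set.mem_image, SetLike.mem_coe, AddMonoidHom.mem_range]
      exact ⟨fun ⟨v, hv⟩ => ⟨_, red_mem a h0 v, (map_red φ hq a hs v).trans hv⟩,
        fun ⟨v, _, hv⟩ => ⟨v, hv⟩⟩
    rw [← card_box a s, card_eq_sum_card_image φ (box a s), e, mul_comm, ← smul_eq_mul,
      ← sum_const]
    refine sum_congr rfl fun b hb => ?_
    obtain ⟨w, -, rfl⟩ := mem_image.1 hb
    exact le_antisymm (fiber_le φ hq a hs h0 u w) (fiber_le φ hq a hs h0 w u)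
  · obtain ⟨j, hj⟩ := not_forall.1 h0
    have e : ∏ j, s j = 0 := prod_eq_zero (mem_univ j) (by omega)
    have e' : box a s = ∅ := card_eq_zero.1 ((card_box a s).trans e)
    rw [e, e']
    simp

theorem fiber_upper (φ : (ι → ℤ) →+ A) {q : ℕ} (h0 : 0 < q) (hq : ∀ v, q • φ v = 0) (a : ι → ℤ)
    (s : ι → ℕ) (u : ι → ℤ) :
    #{v ∈ box a s | φ v = φ u} * Nat.card φ.range ≤ ∏ j, (s j + q) := by
  have h1 : ∀ j, s j ≤ q * (s j / q + 1) := fun j => (Nat.lt_mul_div_succ (s j) h0).le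
  have h2 : ∀ j, q * (s j / q + 1) ≤ s j + q := fun j => by
    rw [mul_add, mul_one]
    exact Nat.add_le_add_right (Nat.mul_div_le _ _) _
  refine le_trans ?_ ((fiber_exact φ hq a (s := fun j => q * (s j / q + 1))
    (fun j => dvd_mul_right _ _) u).trans_le (prod_le_prod' fun j _ => h2 j))
  exact Nat.mul_le_mul_right _ (card_le_card (filter_subset_filter _ (box_mono a h1)))

theorem fiber_lower (φ : (ι → ℤ) →+ A) {q : ℕ} (h0 : 0 < q) (hq : ∀ v, q • φ v = 0) (a : ι → ℤ)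
    (s : ι → ℕ) (u : ι → ℤ) :
    ∏ j, (s j - q) ≤ #{v ∈ box a s | φ v = φ u} * Nat.card φ.range := by
  have h1 : ∀ j, q * (s j / q) ≤ s j := fun j => Nat.mul_div_le _ _
  have h2 : ∀ j, s j - q ≤ q * (s j / q) := fun j => by
    have := Nat.lt_mul_div_succ (s j) h0
    rw [mul_add, mul_one] at this
    omega
  refine le_trans ((prod_le_prod' fun j _ => h2 j).trans_eq (fiber_exact φ hq a
    (s := fun j => q * (s j / q)) (fun j => dvd_mul_right _ _) u).symm) ?_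
  exact Nat.mul_le_mul_right _ (card_le_card (filter_subset_filter _ (box_mono a h1)))

/-- BOX, real form -/
theorem fiber_real (φ : (ι → ℤ) →+ A) {q : ℕ} (h0 : 0 < q) (hq : ∀ v, q • φ v = 0) (a : ι → ℤ)
    {s : ι → ℕ} {η : ℝ} (hs : ∀ j, (q : ℝ) ≤ η * s j) (h1 : η ≤ 1) (u : ι → ℤ) :
    (1 - η) ^ Fintype.card ι * ∏ j, (s j : ℝ) ≤
        (#{v ∈ box a s | φ v = φ u} : ℝ) * Nat.card φ.range ∧
      (#{v ∈ box a s | φ v = φ u} : ℝ) * Nat.card φ.range ≤
        (1 + η) ^ Fintype.card ι * ∏ j, (s j : ℝ) := by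
  have hl : ((∏ j, (s j - q) : ℕ) : ℝ) ≤ (#{v ∈ box a s | φ v = φ u} : ℝ) * Nat.card φ.range := by
    exact_mod_cast fiber_lower φ h0 hq a s u
  have hu : (#{v ∈ box a s | φ v = φ u} : ℝ) * Nat.card φ.range ≤ ((∏ j, (s j + q) : ℕ) : ℝ) := by
    exact_mod_cast fiber_upper φ h0 hq a s u
  refine ⟨le_trans ?_ hl, hu.trans ?_⟩
  · rw [← card_univ, ← prod_const, ← prod_mul_distrib, Nat.cast_prod]
    refine prod_le_prod (fun j _ => mul_nonneg (sub_nonneg.2 h1) (Nat.cast_nonneg _)) fun j _ => ?_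
    have h2 := hs j
    have h3 : (0 : ℝ) ≤ s j := Nat.cast_nonneg _
    have h4 : q ≤ s j := by
      have : (q : ℝ) ≤ s j := by nlinarith
      exact_mod_cast this
    rw [Nat.cast_sub h4]
    linarith
  · rw [← card_univ, ← prod_const, ← prod_mul_distrib, Nat.cast_prod]
    refine prod_le_prod (fun j _ => Nat.cast_nonneg _) fun j _ => ?_
    have h2 := hs j
    push_cast
    linarith

theorem pow_bounds {η : ℝ} {r : ℕ} (h0 : 0 ≤ η) (h1 : η ≤ 1) (h : r * η ≤ 1) :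
    1 - 2 * r * η ≤ (1 - η) ^ r ∧ (1 + η) ^ r ≤ 1 + 2 * r * η := by
  have hr : 0 ≤ r * η := mul_nonneg (Nat.cast_nonneg _) h0
  constructor
  · have := one_add_mul_le_pow (a := -η) (by linarith) r
    rw [← sub_eq_add_neg] at this
    linarith
  · have h2 : (1 + η) ^ r ≤ Real.exp η ^ r :=
      pow_le_pow_left₀ (by linarith) (by linarith [Real.add_one_le_exp η]) r
    rw [← Real.exp_nat_mul] at h2
    have h3 := Real.abs_exp_sub_one_le (x := r * η) (by rwa [abs_of_nonneg hr])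
    rw [abs_of_nonneg hr] at h3
    linarith [(abs_le.1 h3).2]

/-- BOX, error form -/
theorem fiber_abs (φ : (ι → ℤ) →+ A) {q : ℕ} (h0 : 0 < q) (hq : ∀ v, q • φ v = 0) (a : ι → ℤ)
    {s : ι → ℕ} {η : ℝ} (hs : ∀ j, (q : ℝ) ≤ η * s j) (hη : 0 ≤ η)
    (h1 : Fintype.card ι * η ≤ 1) (u : ι → ℤ) :
    |(#{v ∈ box a s | φ v = φ u} : ℝ) * Nat.card φ.range - ∏ j, (s j : ℝ)| ≤
      2 * Fintype.card ι * η * ∏ j, (s j : ℝ) := by
  have hp : 0 ≤ ∏ j, (s j : ℝ) := prod_nonneg fun j _ => Nat.cast_nonneg _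
  rcases isEmpty_or_nonempty ι with hι | hι
  · have := fiber_exact φ hq a (s := s) (fun j => isEmptyElim j) u
    have e : (#{v ∈ box a s | φ v = φ u} : ℝ) * Nat.card φ.range = ∏ j, (s j : ℝ) := by
      exact_mod_cast this
    rw [e, sub_self, abs_zero]
    positivity
  · have h2 : (1 : ℝ) ≤ Fintype.card ι := by exact_mod_cast Fintype.card_pos
    have h3 : η ≤ 1 := by nlinarith
    obtain ⟨hl, hu⟩ := fiber_real φ h0 hq a hs h3 u
    obtain ⟨pl, pu⟩ := pow_bounds hη h3 h1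
    have := mul_le_mul_of_nonneg_right pl hp
    have := mul_le_mul_of_nonneg_right pu hp
    exact abs_le.2 ⟨by linarith, by linarith⟩

omit [Fintype ι] [DecidableEq ι] [DecidableEq A] [DecidableEq B] in
/-- Chinese remainder theorem for two homomorphisms with coprime exponents -/
theorem exists_crt {V : Type} [AddCommGroup V] (φ : V →+ A) (ψ : V →+ B) {q p : ℕ}
    (hq : ∀ v, q • φ v = 0) (hp : ∀ v, p • ψ v = 0) (h : q.Coprime p) (u w : V) :
    ∃ v, φ v = φ u ∧ ψ v = ψ w := by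
  obtain ⟨α, β, e⟩ := Nat.isCoprime_iff_coprime.2 h
  have h1 : ∀ v, (q : ℤ) • φ v = 0 := fun v => by rw [natCast_zsmul, hq]
  have h2 : ∀ v, (p : ℤ) • ψ v = 0 := fun v => by rw [natCast_zsmul, hp]
  refine ⟨(α * q) • w + (β * p) • u, ?_, ?_⟩
  · rw [map_add, map_zsmul, map_zsmul, mul_smul, h1, smul_zero, zero_add,
      show β * p = 1 - α * q by linarith, sub_smul, one_smul, mul_smul, h1, smul_zero, sub_zero]
  · rw [map_add, map_zsmul, map_zsmul, mul_smul β, h2, smul_zero, add_zero,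
      show α * q = 1 - β * p by linarith, sub_smul, one_smul, mul_smul, h2, smul_zero, sub_zero]

omit [Fintype ι] [DecidableEq ι] [DecidableEq A] [DecidableEq B] in
theorem card_range_prod {V : Type} [AddCommGroup V] (φ : V →+ A) (ψ : V →+ B) {q p : ℕ}
    (hq : ∀ v, q • φ v = 0) (hp : ∀ v, p • ψ v = 0) (h : q.Coprime p) :
    Nat.card (φ.prod ψ).range = Nat.card φ.range * Nat.card ψ.range := by
  have e : (φ.prod ψ).range = φ.range.prod ψ.range := by
    ext ⟨x, y⟩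
    constructor
    · rintro ⟨v, hv⟩
      exact ⟨⟨v, congrArg Prod.fst hv⟩, ⟨v, congrArg Prod.snd hv⟩⟩
    · rintro ⟨⟨u, hu⟩, ⟨w, hw⟩⟩
      obtain ⟨v, h1, h2⟩ := exists_crt φ ψ hq hp h u w
      exact ⟨v, Prod.ext (h1.trans hu) (h2.trans hw)⟩
  rw [e, Nat.card_congr (AddSubgroup.prodEquiv _ _).toEquiv, Nat.card_prod]

/-- conditional form: a second condition of coprime exponent cuts out the expected proportion -/
theorem fiber_cond (φ : (ι → ℤ) →+ A) (ψ : (ι → ℤ) →+ B) {q p : ℕ} (h0 : 0 < q) (h0' : 0 < p)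
    (hq : ∀ v, q • φ v = 0) (hp : ∀ v, p • ψ v = 0) (h : q.Coprime p) (a : ι → ℤ) {s : ι → ℕ}
    {η : ℝ} (hs : ∀ j, (q : ℝ) * p ≤ η * s j) (hη : 0 ≤ η) (h1 : Fintype.card ι * η ≤ 1 / 4)
    (u w : ι → ℤ) :
    |(#{v ∈ box a s | φ v = φ u ∧ ψ v = ψ w} : ℝ) * Nat.card ψ.range -
        #{v ∈ box a s | φ v = φ u}| ≤ 8 * Fintype.card ι * η * #{v ∈ box a s | φ v = φ u} := by
  obtain ⟨z, z1, z2⟩ := exists_crt φ ψ hq hp h u w
  have hp1 : (1 : ℝ) ≤ p := by exact_mod_cast h0'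
  have hq0 : (0 : ℝ) ≤ q := Nat.cast_nonneg _
  have a1 := fiber_abs φ h0 hq a (s := s) (η := η)
    (fun j => le_trans (by nlinarith) (hs j)) hη (by linarith) u
  have a2 := fiber_abs (φ.prod ψ) (q := q * p) (Nat.mul_pos h0 h0') (fun v => Prod.ext
    (by change (q * p) • φ v = 0; rw [mul_comm, mul_smul, hq, smul_zero])
    (by change (q * p) • ψ v = 0; rw [mul_smul, hp, smul_zero])) a (s := s) (η := η)
    (fun j => by push_cast; exact hs j) hη (by linarith) z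
  have e : ({v ∈ box a s | (φ.prod ψ) v = (φ.prod ψ) z} : Finset _) =
      {v ∈ box a s | φ v = φ u ∧ ψ v = ψ w} :=
    filter_congr fun v _ => by
      rw [AddMonoidHom.prod_apply, AddMonoidHom.prod_apply, z1, z2, Prod.mk.injEq]
  rw [e, card_range_prod φ ψ hq hp h, Nat.cast_mul] at a2
  have hI : (0 : ℝ) < Nat.card φ.range := by
    have h2 := fiber_exact φ hq a (s := fun _ => q) (fun _ => dvd_rfl) u
    have h3 : 0 < ∏ _j : ι, q := prod_pos fun _ _ => h0
    rw [← h2] at h3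
    exact_mod_cast Nat.pos_of_mul_pos_left h3
  generalize (#{v ∈ box a s | φ v = φ u ∧ ψ v = ψ w} : ℝ) = n1 at *
  generalize (#{v ∈ box a s | φ v = φ u} : ℝ) = n0 at *
  generalize (Nat.card φ.range : ℝ) = I at *
  generalize (Nat.card ψ.range : ℝ) = J at *
  have hS : 0 ≤ ∏ j, (s j : ℝ) := prod_nonneg fun j _ => Nat.cast_nonneg _
  generalize ∏ j, (s j : ℝ) = S at *
  have hr : 0 ≤ Fintype.card ι * η := mul_nonneg (Nat.cast_nonneg _) hη
  rw [mul_assoc 2] at a1 a2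
  rw [mul_assoc 8]
  generalize Fintype.card ι * η = ε at *
  obtain ⟨b1, b2⟩ := abs_le.1 a1
  obtain ⟨c1, c2⟩ := abs_le.1 a2
  have h5 : S ≤ 2 * (n0 * I) := by nlinarith
  have h6 : ε * S ≤ ε * (2 * (n0 * I)) := mul_le_mul_of_nonneg_left h5 hr
  refine le_of_mul_le_mul_right ?_ hI
  rw [← abs_of_pos hI, ← abs_mul, abs_of_pos hI]
  exact abs_le.2 ⟨by linarith, by linarith⟩

omit [DecidableEq A] [DecidableEq B] in
open Classical in
/-- BOX for a subgroup containing `q Z ^ r` -/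
theorem coset_real (Λ : AddSubgroup (ι → ℤ)) {q : ℕ} (h0 : 0 < q) (hq : ∀ v, q • v ∈ Λ)
    (a : ι → ℤ) {s : ι → ℕ} {η : ℝ} (hs : ∀ j, (q : ℝ) ≤ η * s j) (h1 : η ≤ 1) (u : ι → ℤ) :
    (1 - η) ^ Fintype.card ι * ∏ j, (s j : ℝ) ≤ (#{v ∈ box a s | v - u ∈ Λ} : ℝ) * Λ.index ∧
      (#{v ∈ box a s | v - u ∈ Λ} : ℝ) * Λ.index ≤
        (1 + η) ^ Fintype.card ι * ∏ j, (s j : ℝ) := by
  have h := fiber_real (QuotientAddGroup.mk' Λ) h0 (fun v => by
    rw [← map_nsmul]; exact (QuotientAddGroup.eq_zero_iff _).2 (hq v)) a hs h1 u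
  have e : ({v ∈ box a s | QuotientAddGroup.mk' Λ v = QuotientAddGroup.mk' Λ u} : Finset _) =
      {v ∈ box a s | v - u ∈ Λ} := filter_congr fun v _ => QuotientAddGroup.eq_iff_sub_mem
  rw [e, AddMonoidHom.range_eq_top.2 (QuotientAddGroup.mk'_surjective Λ),
    AddSubgroup.card_top] at h
  exact h

end Pool.Agent.Lib.BK2.BOX
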