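import Pool.Agent.Lib.BK2.Defs

/-! Basic facts on the filtration `V`. -/

open Polynomial

noncomputable section

namespace Pool.Agent.Lib.BK2

theorem deg_add_le_iff {R : Type} [Semiring R] (p : R[X]) (a m : ℕ) :
    p.degree + (a : WithBot ℕ) ≤ (m : WithBot ℕ) ↔ ∀ k, m < k + a → p.coeff k = 0 := by
  by_cases hp : p = 0
  · simp [hp]
  · rw [degree_eq_natDegree hp]
    have e : ((p.natDegree : WithBot ℕ) + (a : WithBot ℕ) ≤ (m : WithBot ℕ)) ↔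
        p.natDegree + a ≤ m := by exact_mod_cast Iff.rfl
    rw [e]
    constructor
    · intro h k hk
      exact coeff_eq_zero_of_natDegree_lt (by omega)
    · intro h
      by_contra hc
      exact hp (leadingCoeff_eq_zero.1 (h _ (by omega)))

namespace Geo

variable {B : Type} [CommRing B] [Algebra ℤ[X] B] {d : ℕ} [NeZero d] (Γ : Geo B d)

theorem mem_V {m : ℕ} {f : B} :
    f ∈ Γ.V m ↔ ∀ l k, m < k + Γ.δ l → (Γ.b.repr f l).coeff k = 0 :=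
  forall_congr' fun _ => deg_add_le_iff _ _ _

theorem δ_le (l : Fin d) : Γ.δ l ≤ Γ.dmax := Finset.le_sup (f := Γ.δ) (Finset.mem_univ l)

theorem repr_zsmul (c : ℤ) (f : B) (l : Fin d) : Γ.b.repr (c • f) l = c • Γ.b.repr f l := by
  rw [map_zsmul]; rfl

/-- `V m` as a submodule. -/
def VS (m : ℕ) : Submodule ℤ B where
  carrier := Γ.V m
  zero_mem' := Γ.mem_V.2 fun l k _ => by simp
  add_mem' := fun {f g} hf hg => Γ.mem_V.2 fun l k h => by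
    simp [Γ.mem_V.1 hf l k h, Γ.mem_V.1 hg l k h]
  smul_mem' := fun c f hf => Γ.mem_V.2 fun l k h => by
    rw [repr_zsmul, coeff_smul, Γ.mem_V.1 hf l k h, smul_zero]

theorem mem_VS {m : ℕ} {f : B} : f ∈ Γ.VS m ↔ f ∈ Γ.V m := Iff.rfl

variable {Γ}

theorem V_zero (m : ℕ) : (0 : B) ∈ Γ.V m := (Γ.VS m).zero_mem

theorem V_add {m : ℕ} {f g : B} (hf : f ∈ Γ.V m) (hg : g ∈ Γ.V m) : f + g ∈ Γ.V m :=
  (Γ.VS m).add_mem hf hg

theorem V_neg {m : ℕ} {f : B} (hf : f ∈ Γ.V m) : -f ∈ Γ.V m := (Γ.VS m).neg_mem hf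

theorem V_sub {m : ℕ} {f g : B} (hf : f ∈ Γ.V m) (hg : g ∈ Γ.V m) : f - g ∈ Γ.V m :=
  (Γ.VS m).sub_mem hf hg

theorem V_smul {m : ℕ} {f : B} (c : ℤ) (hf : f ∈ Γ.V m) : c • f ∈ Γ.V m :=
  (Γ.VS m).smul_mem c hf

theorem V_intCast_mul {m : ℕ} {f : B} (c : ℤ) (hf : f ∈ Γ.V m) : (c : B) * f ∈ Γ.V m := by
  rw [← zsmul_eq_mul]; exact V_smul c hf

theorem V_natCast_mul {m : ℕ} {f : B} (c : ℕ) (hf : f ∈ Γ.V m) : (c : B) * f ∈ Γ.V m := by
  rw [← Int.cast_natCast]; exact V_intCast_mul c hf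

theorem V_sum {m : ℕ} {I : Type} {s : Finset I} {f : I → B} (h : ∀ i ∈ s, f i ∈ Γ.V m) :
    ∑ i ∈ s, f i ∈ Γ.V m := (Γ.VS m).sum_mem h

theorem V_mono {m m' : ℕ} (h : m ≤ m') {f : B} (hf : f ∈ Γ.V m) : f ∈ Γ.V m' :=
  Γ.mem_V.2 fun l k hk => Γ.mem_V.1 hf l k (by omega)

theorem VS_mono {m m' : ℕ} (h : m ≤ m') : Γ.VS m ≤ Γ.VS m' := fun _ hf => V_mono h hf

variable (Γ)

theorem exists_mem_V (f : B) : ∃ m, f ∈ Γ.V m := by
  refine ⟨Finset.univ.sup (fun l => (Γ.b.repr f l).natDegree) + Γ.dmax, Γ.mem_V.2 fun l k h => ?_⟩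
  have h1 := Finset.le_sup (f := fun l => (Γ.b.repr f l).natDegree) (Finset.mem_univ l)
  have h2 := Γ.δ_le l
  exact coeff_eq_zero_of_natDegree_lt (by omega)

theorem smul_eq (p : ℤ[X]) (f : B) : p • f = algebraMap ℤ[X] B p * f := Algebra.smul_def p f

theorem t_pow_mul (a : ℕ) (f : B) : Γ.t ^ a * f = (X ^ a : ℤ[X]) • f := by
  rw [Algebra.smul_def, map_pow]; rfl

theorem algebraMap_eq (p : ℤ[X]) : algebraMap ℤ[X] B p = aeval Γ.t p := by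
  have h : (algebraMap ℤ[X] B) = (aeval Γ.t : ℤ[X] →ₐ[ℤ] B).toRingHom := by
    ext <;> simp [t]
  rw [h]; rfl

theorem repr_smul (p : ℤ[X]) (f : B) (l : Fin d) : Γ.b.repr (p • f) l = p * Γ.b.repr f l := by
  rw [map_smul]; rfl

theorem repr_b (i l : Fin d) : Γ.b.repr (Γ.b i) l = if i = l then 1 else 0 := by
  rw [Module.Basis.repr_self, Finsupp.single_apply]

include Γ in
theorem algebraMap_injective : Function.Injective (algebraMap ℤ[X] B) := by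
  intro p q h
  have h1 : p • Γ.b 0 = q • Γ.b 0 := by rw [Algebra.smul_def, Algebra.smul_def, h]
  have h2 := congrArg (fun f => Γ.b.repr f 0) h1
  simpa [repr_smul, repr_b] using h2

theorem repr_algebraMap (p : ℤ[X]) (l : Fin d) :
    Γ.b.repr (algebraMap ℤ[X] B p) l = if 0 = l then p else 0 := by
  have h : algebraMap ℤ[X] B p = p • Γ.b 0 := by rw [Γ.b0, Algebra.smul_def, mul_one]
  rw [h, repr_smul, repr_b]; split_ifs <;> simp

include Γ in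
theorem zsmul_cancel {c : ℤ} (hc : c ≠ 0) {f g : B} (h : c • f = c • g) : f = g := by
  refine Γ.b.ext_elem fun l => ?_
  have h2 := congrArg (fun f => Γ.b.repr f l) h
  simp only [repr_zsmul] at h2
  exact smul_right_injective _ hc h2

variable {Γ}

theorem smul_mem {a m : ℕ} {p : ℤ[X]} (hp : p.natDegree ≤ a) {f : B} (hf : f ∈ Γ.V m) :
    p • f ∈ Γ.V (a + m) := by
  refine Γ.mem_V.2 fun l k h => ?_
  rw [repr_smul, coeff_mul]
  refine Finset.sum_eq_zero fun x hx => ?_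
  have hx' := Finset.HasAntidiagonal.mem_antidiagonal.1 hx
  by_cases h1 : a < x.1
  · rw [coeff_eq_zero_of_natDegree_lt (by omega), zero_mul]
  · rw [Γ.mem_V.1 hf l x.2 (by omega), mul_zero]

variable (Γ)

theorem b_mem (l : Fin d) : Γ.b l ∈ Γ.V (Γ.δ l) := by
  refine Γ.mem_V.2 fun l' k h => ?_
  rw [repr_b]
  split_ifs with h1
  · subst h1; rw [coeff_one, if_neg (by omega)]
  · rfl

theorem one_mem (m : ℕ) : (1 : B) ∈ Γ.V m := by
  have h := Γ.b_mem 0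
  rw [Γ.b0, Γ.δ0] at h
  exact V_mono (Nat.zero_le _) h

theorem algebraMap_mem {a : ℕ} {p : ℤ[X]} (hp : p.natDegree ≤ a) :
    algebraMap ℤ[X] B p ∈ Γ.V a := by
  have h := smul_mem hp (Γ.one_mem 0)
  rwa [Algebra.smul_def, mul_one] at h

theorem algebraMap_mem_iff {a : ℕ} {p : ℤ[X]} :
    algebraMap ℤ[X] B p ∈ Γ.V a ↔ p.natDegree ≤ a := by
  refine ⟨fun h => natDegree_le_iff_coeff_eq_zero.2 fun k hk => ?_, Γ.algebraMap_mem⟩
  have := Γ.mem_V.1 h 0 k (by omega)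
  rwa [repr_algebraMap, if_pos rfl] at this

theorem intCast_mem (c : ℤ) (m : ℕ) : (c : B) ∈ Γ.V m := by
  simpa using V_intCast_mul c (Γ.one_mem m)

theorem t_mem : Γ.t ∈ Γ.V 1 := Γ.algebraMap_mem natDegree_X_le

theorem t_pow_mem (a : ℕ) : Γ.t ^ a ∈ Γ.V a := by
  have h := Γ.algebraMap_mem (natDegree_X_pow_le (R := ℤ) a)
  rwa [map_pow] at h

theorem ix_le {m : ℕ} (i : Γ.Ix m) : (i.2 : ℕ) + Γ.δ i.1 ≤ m := by
  have := i.2.2; omega

theorem mon_eq {m : ℕ} (i : Γ.Ix m) : Γ.mon i = (X ^ (i.2 : ℕ) : ℤ[X]) • Γ.b i.1 :=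
  Γ.t_pow_mul _ _

theorem mon_mem {m : ℕ} (i : Γ.Ix m) : Γ.mon i ∈ Γ.V m := by
  rw [mon_eq]
  exact V_mono (Γ.ix_le i) (smul_mem (natDegree_X_pow_le _) (Γ.b_mem _))

theorem el_mem {m : ℕ} (e : Γ.Ix m → ℤ) : Γ.el e ∈ Γ.V m :=
  V_sum fun i _ => V_smul _ (Γ.mon_mem i)

/-- `el` as a linear map. -/
def elL (m : ℕ) : (Γ.Ix m → ℤ) →ₗ[ℤ] B where
  toFun := Γ.el
  map_add' e e' := by simp [el, add_smul, Finset.sum_add_distrib]
  map_smul' c e := by simp only [el, Finset.smul_sum, RingHom.id_apply, Pi.smul_apply, smul_smul,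
    smul_eq_mul]

/-- `co` as a linear map. -/
def coL (m : ℕ) : B →ₗ[ℤ] (Γ.Ix m → ℤ) where
  toFun := Γ.co m
  map_add' f g := by ext i; simp [co]
  map_smul' c f := by
    ext i; simp only [co, repr_zsmul, coeff_smul, RingHom.id_apply, Pi.smul_apply]

theorem elL_apply {m : ℕ} (e : Γ.Ix m → ℤ) : Γ.elL m e = Γ.el e := rfl

theorem coL_apply (m : ℕ) (f : B) : Γ.coL m f = Γ.co m f := rfl

theorem el_zero {m : ℕ} : Γ.el (0 : Γ.Ix m → ℤ) = 0 := map_zero (Γ.elL m)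

theorem el_add {m : ℕ} (e e' : Γ.Ix m → ℤ) : Γ.el (e + e') = Γ.el e + Γ.el e' :=
  map_add (Γ.elL m) e e'

theorem el_sub {m : ℕ} (e e' : Γ.Ix m → ℤ) : Γ.el (e - e') = Γ.el e - Γ.el e' :=
  map_sub (Γ.elL m) e e'

theorem el_neg {m : ℕ} (e : Γ.Ix m → ℤ) : Γ.el (-e) = -Γ.el e := map_neg (Γ.elL m) e

theorem el_smul {m : ℕ} (c : ℤ) (e : Γ.Ix m → ℤ) : Γ.el (c • e) = c • Γ.el e :=
  map_smul (Γ.elL m) c e

theorem el_sum {m : ℕ} {I : Type} (s : Finset I) (e : I → Γ.Ix m → ℤ) :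
    Γ.el (∑ i ∈ s, e i) = ∑ i ∈ s, Γ.el (e i) := map_sum (Γ.elL m) e s

theorem el_single {m : ℕ} (i : Γ.Ix m) (c : ℤ) : Γ.el (Pi.single i c) = c • Γ.mon i := by
  rw [el, Finset.sum_eq_single i]
  · simp
  · intro j _ h; simp [h]
  · simp

theorem co_zero (m : ℕ) : Γ.co m 0 = 0 := map_zero (Γ.coL m)

theorem co_add (m : ℕ) (f g : B) : Γ.co m (f + g) = Γ.co m f + Γ.co m g := map_add (Γ.coL m) f g

theorem co_sub (m : ℕ) (f g : B) : Γ.co m (f - g) = Γ.co m f - Γ.co m g := map_sub (Γ.coL m) f g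

theorem co_neg (m : ℕ) (f : B) : Γ.co m (-f) = -Γ.co m f := map_neg (Γ.coL m) f

theorem co_smul (m : ℕ) (c : ℤ) (f : B) : Γ.co m (c • f) = c • Γ.co m f := map_smul (Γ.coL m) c f

theorem co_sum (m : ℕ) {I : Type} (s : Finset I) (f : I → B) :
    Γ.co m (∑ i ∈ s, f i) = ∑ i ∈ s, Γ.co m (f i) := map_sum (Γ.coL m) f s

theorem co_mon {m : ℕ} (i : Γ.Ix m) : Γ.co m (Γ.mon i) = Pi.single i 1 := by
  funext k
  obtain ⟨l, a⟩ := i
  obtain ⟨l', a'⟩ := k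
  rw [co, mon_eq, repr_smul, repr_b, Pi.single_apply]
  by_cases h : l = l'
  · subst h
    simp [coeff_X_pow, Fin.ext_iff]
  · rw [if_neg h, if_neg (fun h' => h (congrArg Sigma.fst h').symm)]; simp

theorem co_el {m : ℕ} (e : Γ.Ix m → ℤ) : Γ.co m (Γ.el e) = e := by
  rw [el, co_sum]
  simp only [co_smul, co_mon]
  funext k
  simp [Finset.sum_apply, Pi.single_apply]

theorem eq_of_co {m : ℕ} {f g : B} (hf : f ∈ Γ.V m) (hg : g ∈ Γ.V m)
    (h : Γ.co m f = Γ.co m g) : f = g := by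
  refine Γ.b.ext_elem fun l => ?_
  ext k
  by_cases hk : m < k + Γ.δ l
  · rw [Γ.mem_V.1 hf l k hk, Γ.mem_V.1 hg l k hk]
  · exact congrFun h ⟨l, ⟨k, by omega⟩⟩

theorem el_co {m : ℕ} {f : B} (hf : f ∈ Γ.V m) : Γ.el (Γ.co m f) = f :=
  Γ.eq_of_co (Γ.el_mem _) hf (Γ.co_el _)

theorem el_injective (m : ℕ) : Function.Injective (Γ.el : (Γ.Ix m → ℤ) → B) := fun e e' h => by
  rw [← Γ.co_el e, h, co_el]

theorem mem_V_iff_el {m : ℕ} {f : B} : f ∈ Γ.V m ↔ ∃ e : Γ.Ix m → ℤ, Γ.el e = f :=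
  ⟨fun h => ⟨_, Γ.el_co h⟩, fun ⟨e, h⟩ => h ▸ Γ.el_mem e⟩

theorem range_elL (m : ℕ) : LinearMap.range (Γ.elL m) = Γ.VS m := by
  ext f; exact Γ.mem_V_iff_el.symm

/-- Coordinates on `V m`. -/
def VE (m : ℕ) : Γ.VS m ≃ₗ[ℤ] (Γ.Ix m → ℤ) where
  toLinearMap := (Γ.coL m).comp (Γ.VS m).subtype
  invFun e := ⟨Γ.el e, Γ.el_mem e⟩
  left_inv f := Subtype.ext (Γ.el_co f.2)
  right_inv e := Γ.co_el e

/-- The monomial basis of `V m`. -/
def VB (m : ℕ) : Module.Basis (Γ.Ix m) ℤ (Γ.VS m) := Module.Basis.ofEquivFun (Γ.VE m)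

theorem VB_apply {m : ℕ} (i : Γ.Ix m) : (Γ.VB m i : B) = Γ.mon i := by
  have h : Γ.VB m i = (Γ.VE m).symm (Pi.single i 1) := by
    simp [VB, Module.Basis.coe_ofEquivFun]
  rw [h]
  exact (Γ.el_single i 1).trans (one_smul _ _)

instance (m : ℕ) : Module.Free ℤ (Γ.VS m) := Module.Free.of_basis (Γ.VB m)

instance (m : ℕ) : Module.Finite ℤ (Γ.VS m) := Module.Finite.of_basis (Γ.VB m)

theorem finrank_VS (m : ℕ) : Module.finrank ℤ (Γ.VS m) = Fintype.card (Γ.Ix m) :=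
  Module.finrank_eq_card_basis (Γ.VB m)

theorem VS_eq_span (m : ℕ) : Γ.VS m = Submodule.span ℤ (Set.range (Γ.mon : Γ.Ix m → B)) := by
  refine le_antisymm (fun f hf => ?_) (Submodule.span_le.2 ?_)
  · rw [← Γ.el_co hf]
    exact Submodule.sum_mem _ fun i _ => Submodule.smul_mem _ _ (Submodule.subset_span ⟨i, rfl⟩)
  · rintro _ ⟨i, rfl⟩; exact Γ.mon_mem i

theorem V_induction {m : ℕ} {P : B → Prop} (h0 : P 0) (ha : ∀ f g, P f → P g → P (f + g))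
    (hm : ∀ (c : ℤ) (i : Γ.Ix m), P (c • Γ.mon i)) {f : B} (hf : f ∈ Γ.V m) : P f := by
  rw [← Γ.el_co hf]
  exact Finset.sum_induction _ P ha h0 fun i _ => hm _ i

theorem card_Ix (m : ℕ) : Fintype.card (Γ.Ix m) = ∑ l, (m + 1 - Γ.δ l) := by
  simp [Fintype.card_sigma]

theorem card_Ix_add {m : ℕ} (h : Γ.dmax ≤ m + 1) :
    Fintype.card (Γ.Ix m) + ∑ l, Γ.δ l = m * d + d := by
  rw [card_Ix, ← Finset.sum_add_distrib,
    Finset.sum_congr rfl (g := fun _ => m + 1) fun l _ => by have := Γ.δ_le l; omega]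
  simp [mul_comm, mul_add]

theorem card_Ix_le (m : ℕ) : Fintype.card (Γ.Ix m) ≤ m * d + d := by
  rw [card_Ix]
  refine (Finset.sum_le_sum (g := fun _ => m + 1) fun l _ => by omega).trans ?_
  simp [mul_comm, mul_add]

theorem card_Ix_sub {a m : ℕ} (h : Γ.dmax ≤ a + 1) :
    Fintype.card (Γ.Ix (a + m)) = Fintype.card (Γ.Ix a) + m * d := by
  have h1 := Γ.card_Ix_add h
  have h2 := Γ.card_Ix_add (m := a + m) (by omega)
  rw [add_mul] at h2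
  omega

/-- The index of `t ^ a`. -/
def ixT {m : ℕ} (a : ℕ) (h : a ≤ m) : Γ.Ix m := ⟨0, ⟨a, by rw [Γ.δ0]; omega⟩⟩

theorem mon_ixT {m : ℕ} (a : ℕ) (h : a ≤ m) : Γ.mon (Γ.ixT a h) = Γ.t ^ a := by
  simp [mon, ixT, Γ.b0]

/-- The index of `b l`. -/
def ixB {m : ℕ} (l : Fin d) (h : Γ.δ l ≤ m) : Γ.Ix m := ⟨l, ⟨0, by omega⟩⟩

theorem mon_ixB {m : ℕ} (l : Fin d) (h : Γ.δ l ≤ m) : Γ.mon (Γ.ixB l h) = Γ.b l := by
  simp [mon, ixB]

instance (m : ℕ) : Nonempty (Γ.Ix m) := ⟨Γ.ixT 0 (Nat.zero_le _)⟩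

theorem mon_mul_mem {a a' : ℕ} (i : Γ.Ix a) (j : Γ.Ix a') : Γ.mon i * Γ.mon j ∈ Γ.V (a + a') := by
  rw [mon_eq, mon_eq, smul_mul_smul_comm, ← pow_add]
  have h1 := Γ.ix_le i
  have h2 := Γ.ix_le j
  exact V_mono (by omega) (smul_mem (natDegree_X_pow_le _)
    (show Γ.b i.1 * Γ.b j.1 ∈ Γ.V (Γ.δ i.1 + Γ.δ j.1) from Γ.mul_deg _ _))

theorem el_mul_el {a a' : ℕ} (e : Γ.Ix a → ℤ) (s : Γ.Ix a' → ℤ) :
    Γ.el e * Γ.el s = ∑ i, ∑ j, (e i * s j) • (Γ.mon i * Γ.mon j) := by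
  rw [el, el, Finset.sum_mul_sum]
  simp only [smul_mul_smul_comm]

variable {Γ}

/-- G1. -/
theorem mul_mem {a a' : ℕ} {f g : B} (hf : f ∈ Γ.V a) (hg : g ∈ Γ.V a') :
    f * g ∈ Γ.V (a + a') := by
  rw [← Γ.el_co hf, ← Γ.el_co hg, el_mul_el]
  exact V_sum fun i _ => V_sum fun j _ => V_smul _ (Γ.mon_mul_mem i j)

theorem mul_mem_of_le {a a' c : ℕ} {f g : B} (hf : f ∈ Γ.V a) (hg : g ∈ Γ.V a') (h : a + a' ≤ c) :
    f * g ∈ Γ.V c := V_mono h (mul_mem hf hg)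

theorem pow_mem {a : ℕ} {f : B} (hf : f ∈ Γ.V a) (n : ℕ) : f ^ n ∈ Γ.V (n * a) := by
  induction n with
  | zero => rw [pow_zero]; exact Γ.one_mem _
  | succ n ih => rw [pow_succ, add_mul, one_mul]; exact mul_mem ih hf

theorem prod_mem {I : Type} (s : Finset I) {a : I → ℕ} {f : I → B} (h : ∀ i ∈ s, f i ∈ Γ.V (a i)) :
    ∏ i ∈ s, f i ∈ Γ.V (∑ i ∈ s, a i) := by
  classical
  induction s using Finset.induction_on with
  | empty => simpa using Γ.one_mem 0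
  | insert i s hi ih =>
    rw [Finset.prod_insert hi, Finset.sum_insert hi]
    exact mul_mem (h i (Finset.mem_insert_self _ _)) (ih fun j hj => h j (Finset.mem_insert_of_mem hj))

variable (Γ)

theorem mulv_eq_co {a a' : ℕ} (c : ℕ) (e : Γ.Ix a → ℤ) (s : Γ.Ix a' → ℤ) :
    Γ.mulv c e s = Γ.co c (Γ.el e * Γ.el s) := by
  funext k
  simp only [el_mul_el, co_sum, co_smul, mulv, Finset.sum_apply, Pi.smul_apply, smul_eq_mul,
    Int.cast_id]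

theorem el_mulv {a a' c : ℕ} (h : a + a' ≤ c) (e : Γ.Ix a → ℤ) (s : Γ.Ix a' → ℤ) :
    Γ.el (Γ.mulv c e s) = Γ.el e * Γ.el s := by
  rw [mulv_eq_co, Γ.el_co (mul_mem_of_le (Γ.el_mem e) (Γ.el_mem s) h)]

section mulv

variable {R : Type} [CommRing R] {a a' : ℕ} (c : ℕ)

theorem mulv_map {R' : Type} [CommRing R'] (φ : R →+* R') (e : Γ.Ix a → R) (s : Γ.Ix a' → R)
    (k : Γ.Ix c) : φ (Γ.mulv c e s k) = Γ.mulv c (fun i => φ (e i)) (fun j => φ (s j)) k := by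
  simp [mulv]

theorem mulv_cast (e : Γ.Ix a → ℤ) (s : Γ.Ix a' → ℤ) (k : Γ.Ix c) :
    ((Γ.mulv c e s k : ℤ) : R) = Γ.mulv c (fun i => (e i : R)) (fun j => (s j : R)) k :=
  Γ.mulv_map c (Int.castRingHom R) e s k

theorem mulv_add_left (e e' : Γ.Ix a → R) (s : Γ.Ix a' → R) :
    Γ.mulv c (e + e') s = Γ.mulv c e s + Γ.mulv c e' s := by
  funext k; simp [mulv, add_mul, Finset.sum_add_distrib]

theorem mulv_add_right (e : Γ.Ix a → R) (s s' : Γ.Ix a' → R) :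
    Γ.mulv c e (s + s') = Γ.mulv c e s + Γ.mulv c e s' := by
  funext k; simp [mulv, add_mul, mul_add, Finset.sum_add_distrib]

theorem mulv_smul_left (r : R) (e : Γ.Ix a → R) (s : Γ.Ix a' → R) :
    Γ.mulv c (r • e) s = r • Γ.mulv c e s := by
  funext k; simp [mulv, Finset.mul_sum, mul_assoc]

theorem mulv_smul_right (r : R) (e : Γ.Ix a → R) (s : Γ.Ix a' → R) :
    Γ.mulv c e (r • s) = r • Γ.mulv c e s := by
  funext k
  simp only [mulv, Pi.smul_apply, smul_eq_mul, Finset.mul_sum]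
  exact Finset.sum_congr rfl fun i _ => Finset.sum_congr rfl fun j _ => by ring

theorem mulv_comm (e : Γ.Ix a → R) (s : Γ.Ix a' → R) : Γ.mulv c e s = Γ.mulv c s e := by
  funext k
  rw [mulv, mulv, Finset.sum_comm]
  exact Finset.sum_congr rfl fun i _ => Finset.sum_congr rfl fun j _ => by
    rw [mul_comm (Γ.mon j), mul_comm (e j)]

/-- The product of coordinate vectors as a bilinear map. -/
def mulvL (R : Type) [CommRing R] (a a' c : ℕ) :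
    (Γ.Ix a → R) →ₗ[R] (Γ.Ix a' → R) →ₗ[R] (Γ.Ix c → R) :=
  LinearMap.mk₂ R (Γ.mulv c) (Γ.mulv_add_left c) (Γ.mulv_smul_left c) (Γ.mulv_add_right c)
    (Γ.mulv_smul_right c)

theorem mulvL_apply (e : Γ.Ix a → R) (s : Γ.Ix a' → R) : Γ.mulvL R a a' c e s = Γ.mulv c e s := rfl

/-- Any additive map evaluates a product of vectors on the products of monomials. -/
theorem sum_mulv {S : Type} [CommRing S] (ψ : R →+* S) (φ : B →+ S) (h : a + a' ≤ c)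
    (e : Γ.Ix a → R) (s : Γ.Ix a' → R) : ∑ k, ψ (Γ.mulv c e s k) * φ (Γ.mon k) =
      ∑ i, ∑ j, ψ (e i) * ψ (s j) * φ (Γ.mon i * Γ.mon j) := by
  simp only [mulv, map_sum, Finset.sum_mul, map_mul, map_intCast]
  rw [Finset.sum_comm]
  refine Finset.sum_congr rfl fun i _ => ?_
  rw [Finset.sum_comm]
  refine Finset.sum_congr rfl fun j _ => ?_
  conv_rhs => rw [← Γ.el_co (V_mono h (Γ.mon_mul_mem i j)), el, map_sum, Finset.mul_sum]
  refine Finset.sum_congr rfl fun k _ => ?_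
  rw [map_zsmul, zsmul_eq_mul, mul_assoc]

end mulv

section ev

variable (φ : B →+* ℂ) {m : ℕ}

theorem ev_mulv {a a' c : ℕ} (h : a + a' ≤ c) (e : Γ.Ix a → ℝ) (s : Γ.Ix a' → ℝ) :
    Γ.ev φ (Γ.mulv c e s) = Γ.ev φ e * Γ.ev φ s := by
  have h1 := Γ.sum_mulv c Complex.ofRealHom φ.toAddMonoidHom h e s
  rw [ev, ev, ev, Finset.sum_mul_sum]
  refine h1.trans (Finset.sum_congr rfl fun i _ => Finset.sum_congr rfl fun j _ => ?_)
  simp only [Complex.ofRealHom_eq_coe, RingHom.toAddMonoidHom_eq_coe, AddMonoidHom.coe_coe, map_mul]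
  ring

theorem ev_add (e e' : Γ.Ix m → ℝ) : Γ.ev φ (e + e') = Γ.ev φ e + Γ.ev φ e' := by
  simp [ev, add_mul, Finset.sum_add_distrib]

theorem ev_smul (c : ℝ) (e : Γ.Ix m → ℝ) : Γ.ev φ (c • e) = c * Γ.ev φ e := by
  simp [ev, Finset.mul_sum, mul_assoc]

/-- Evaluation as a real linear map. -/
def evL (m : ℕ) : (Γ.Ix m → ℝ) →ₗ[ℝ] ℂ where
  toFun := Γ.ev φ
  map_add' := Γ.ev_add φ
  map_smul' := Γ.ev_smul φ

theorem evL_apply (e : Γ.Ix m → ℝ) : Γ.evL φ m e = Γ.ev φ e := rfl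

theorem ev_zero : Γ.ev φ (0 : Γ.Ix m → ℝ) = 0 := map_zero (Γ.evL φ m)

theorem ev_sub (e e' : Γ.Ix m → ℝ) : Γ.ev φ (e - e') = Γ.ev φ e - Γ.ev φ e' :=
  map_sub (Γ.evL φ m) e e'

theorem ev_single (i : Γ.Ix m) (c : ℝ) : Γ.ev φ (Pi.single i c) = c * φ (Γ.mon i) := by
  rw [ev, Finset.sum_eq_single i]
  · simp
  · intro j _ h; simp [h]
  · simp

theorem ev_cast (e : Γ.Ix m → ℤ) : Γ.ev φ (fun i => (e i : ℝ)) = φ (Γ.el e) := by
  simp [ev, el]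

theorem _root_.Pool.Agent.Lib.BK2.scl_eq {I : Type} (H : ℝ) (e : I → ℤ) :
    scl H e = H⁻¹ • fun i => (e i : ℝ) := by
  funext i; simp [scl, div_eq_inv_mul]

theorem ev_scl (H : ℝ) (e : Γ.Ix m → ℤ) : Γ.ev φ (scl H e) = φ (Γ.el e) / H := by
  rw [scl_eq, ev_smul, ev_cast, div_eq_inv_mul, Complex.ofReal_inv]

theorem ev_conj (e : Γ.Ix m → ℝ) :
    Γ.ev ((starRingEnd ℂ).comp φ) e = starRingEnd ℂ (Γ.ev φ e) := by
  simp [ev]

theorem continuous_ev : Continuous (Γ.ev φ : (Γ.Ix m → ℝ) → ℂ) :=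
  (Γ.evL φ m).continuous_of_finiteDimensional

end ev

end Geo

end Pool.Agent.Lib.BK2
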