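import Pool.Agent.Lib.BK2.Bas

/-! Integrality, leading forms and the top coefficient of the norm. -/

open Polynomial Matrix

noncomputable section

namespace Pool.Agent.Lib.BK2

namespace Bas

variable {R : Type} [CommRing R]

theorem coeff_prod {I : Type} (s : Finset I) (f : I → R[X]) (n : I → ℕ)
    (h : ∀ i ∈ s, (f i).natDegree ≤ n i) :
    (∏ i ∈ s, f i).natDegree ≤ ∑ i ∈ s, n i ∧
      (∏ i ∈ s, f i).coeff (∑ i ∈ s, n i) = ∏ i ∈ s, (f i).coeff (n i) := by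
  classical
  induction s using Finset.induction_on with
  | empty => simp
  | insert i s hi ih =>
    have h1 := ih fun j hj => h j (Finset.mem_insert_of_mem hj)
    have h2 := h i (Finset.mem_insert_self _ _)
    rw [Finset.prod_insert hi, Finset.sum_insert hi, Finset.prod_insert hi,
      coeff_mul_add_eq_of_natDegree_le h2 h1.1, h1.2]
    exact ⟨natDegree_mul_le.trans (add_le_add h2 h1.1), rfl⟩

theorem det_col {I : Type} [Fintype I] [DecidableEq I] (M : Matrix I I R[X]) (n : I → ℕ)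
    (h : ∀ i j, (M i j).natDegree ≤ n j) :
    M.det.natDegree ≤ ∑ j, n j ∧
      M.det.coeff (∑ j, n j) = (Matrix.of fun i j => (M i j).coeff (n j)).det := by
  rw [det_apply, det_apply, finsetSum_coeff]
  refine ⟨natDegree_sum_le_of_forall_le _ _ fun σ _ => ?_, Finset.sum_congr rfl fun σ _ => ?_⟩
  · exact (natDegree_smul_le _ _).trans (coeff_prod _ _ n fun j _ => h _ j).1
  · rw [coeff_smul, (coeff_prod _ _ n fun j _ => h _ j).2]; rfl

/-- Degree and top coefficient of a determinant with weights. -/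
theorem det_wt {I : Type} [Fintype I] [DecidableEq I] (M : Matrix I I R[X]) (δ : I → ℕ) (m : ℕ)
    (h : ∀ i j k, m + δ j < k + δ i → (M i j).coeff k = 0) :
    M.det.natDegree ≤ m * Fintype.card I ∧ M.det.coeff (m * Fintype.card I) =
      (Matrix.of fun i j => (X ^ δ i * M i j).coeff (m + δ j)).det := by
  have h1 := det_col (Matrix.of fun i j => X ^ δ i * M i j) (fun j => m + δ j) fun i j => by
    refine natDegree_le_iff_coeff_eq_zero.2 fun k hk => ?_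
    rw [Matrix.of_apply, coeff_X_pow_mul']
    split_ifs with h2
    · exact h i j _ (by omega)
    · rfl
  rw [det_mul_column, Finset.prod_pow_eq_pow_sum, Finset.sum_add_distrib, Finset.sum_const,
    Finset.card_univ, smul_eq_mul, mul_comm (Fintype.card I), coeff_X_pow_mul] at h1
  refine ⟨natDegree_le_iff_coeff_eq_zero.2 fun k hk => ?_, h1.2⟩
  rw [← coeff_X_pow_mul M.det (∑ i, δ i)]
  exact coeff_eq_zero_of_natDegree_lt (h1.1.trans_lt (by omega))

end Bas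

namespace Geo

variable {B : Type} [CommRing B] [Algebra ℤ[X] B] {d : ℕ} [NeZero d] (Γ : Geo B d)

include Γ in
theorem finite : Module.Finite ℤ[X] B := Module.Finite.of_basis Γ.b

include Γ in
theorem free : Module.Free ℤ[X] B := Module.Free.of_basis Γ.b

include Γ in
theorem isIntegral (f : B) : IsIntegral ℤ[X] f :=
  haveI := Γ.finite
  Algebra.IsIntegral.isIntegral f

include Γ in
theorem nontrivial : Nontrivial B := Γ.algebraMap_injective.nontrivial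

include Γ in
theorem charZero : CharZero B := charZero_of_injective_ringHom Γ.algebraMap_injective

include Γ in
theorem isNoetherianRing : IsNoetherianRing B :=
  haveI := Γ.finite
  IsNoetherianRing.of_finite ℤ[X] B

theorem eq_sum (f : B) : f = ∑ l, aeval Γ.t (Γ.b.repr f l) * Γ.b l := by
  conv_lhs => rw [← Γ.b.sum_repr f]
  simp only [Algebra.smul_def, Γ.algebraMap_eq]

theorem map_algebraMap {S : Type} [CommRing S] (φ : B →+* S) (p : ℤ[X]) :
    φ (algebraMap ℤ[X] B p) = aeval (φ Γ.t) p := by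
  rw [Γ.algebraMap_eq]
  exact (aeval_algHom_apply φ.toIntAlgHom Γ.t p).symm

theorem map_eq_sum {S : Type} [CommRing S] (φ : B →+* S) (f : B) :
    φ f = ∑ l, aeval (φ Γ.t) (Γ.b.repr f l) * φ (Γ.b l) := by
  conv_lhs => rw [← Γ.b.sum_repr f]
  simp only [Algebra.smul_def, map_sum, map_mul, Γ.map_algebraMap]

theorem hom_ext {S : Type} [CommRing S] {φ ψ : B →+* S} (ht : φ Γ.t = ψ Γ.t)
    (hb : ∀ l, φ (Γ.b l) = ψ (Γ.b l)) : φ = ψ := by
  ext f
  rw [Γ.map_eq_sum φ, Γ.map_eq_sum ψ, ht]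
  simp only [hb]

theorem nrm_eq (f : B) : Γ.nrm f = (Algebra.leftMulMatrix Γ.b f).det :=
  Algebra.norm_eq_matrix_det Γ.b f

theorem lm_apply (f : B) (i j : Fin d) :
    Algebra.leftMulMatrix Γ.b f i j = Γ.b.repr (f * Γ.b j) i :=
  Algebra.leftMulMatrix_eq_repr_mul Γ.b f i j

theorem nrm_mul (f g : B) : Γ.nrm (f * g) = Γ.nrm f * Γ.nrm g := map_mul (Algebra.norm ℤ[X]) f g

theorem nrm_one : Γ.nrm 1 = 1 := map_one (Algebra.norm ℤ[X])

theorem nrm_pow (f : B) (n : ℕ) : Γ.nrm (f ^ n) = Γ.nrm f ^ n := map_pow (Algebra.norm ℤ[X]) f n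

theorem nrm_algebraMap (p : ℤ[X]) : Γ.nrm (algebraMap ℤ[X] B p) = p ^ d := by
  rw [nrm, Algebra.norm_algebraMap_of_basis Γ.b, Fintype.card_fin]

theorem repr_mul (f g : B) (i : Fin d) :
    Γ.b.repr (f * g) i = ∑ j, Γ.b.repr (f * Γ.b j) i * Γ.b.repr g j := by
  conv_lhs => rw [← Γ.b.sum_repr g]
  rw [Finset.mul_sum, map_sum, Finsupp.finsetSum_apply]
  exact Finset.sum_congr rfl fun j _ => by rw [mul_smul_comm, repr_smul, mul_comm]

/-- The leading form in degree `a`. -/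
def gr (a : ℕ) : B →ₗ[ℤ] (Fin d → ℤ) where
  toFun f i := (X ^ Γ.δ i * Γ.b.repr f i).coeff a
  map_add' f g := by funext i; simp [mul_add]
  map_smul' c f := by
    funext i
    simp only [repr_zsmul, RingHom.id_apply, Pi.smul_apply, mul_smul_comm, coeff_smul]

theorem gr_apply (a : ℕ) (f : B) (i : Fin d) :
    Γ.gr a f i = if Γ.δ i ≤ a then (Γ.b.repr f i).coeff (a - Γ.δ i) else 0 :=
  coeff_X_pow_mul' _ _ _

/-- The matrix of multiplication by the leading form of `f`. -/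
def top (m : ℕ) (f : B) : Matrix (Fin d) (Fin d) ℤ :=
  Matrix.of fun i j => Γ.gr (m + Γ.δ j) (f * Γ.b j) i

variable {Γ}

theorem gr_of_lt {a c : ℕ} {f : B} (hf : f ∈ Γ.V a) (h : a < c) : Γ.gr c f = 0 := by
  funext i
  rw [gr_apply]
  split_ifs with h1
  · exact Γ.mem_V.1 hf i _ (by omega)
  · rfl

theorem mem_of_gr {a : ℕ} {f : B} (hf : f ∈ Γ.V (a + 1)) (h : Γ.gr (a + 1) f = 0) : f ∈ Γ.V a := by
  refine Γ.mem_V.2 fun l k hk => ?_
  by_cases h1 : a + 1 < k + Γ.δ l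
  · exact Γ.mem_V.1 hf l k h1
  · have h2 := congrFun h l
    rw [gr_apply, if_pos (by omega), show a + 1 - Γ.δ l = k by omega] at h2
    exact h2

theorem gr_eq_zero_iff {a : ℕ} {f : B} (hf : f ∈ Γ.V (a + 1)) : Γ.gr (a + 1) f = 0 ↔ f ∈ Γ.V a :=
  ⟨mem_of_gr hf, fun h => gr_of_lt h (Nat.lt_succ_self a)⟩

theorem eq_zero_of_gr {f : B} (hf : f ∈ Γ.V 0) (h : Γ.gr 0 f = 0) : f = 0 := by
  refine Γ.b.ext_elem fun l => ?_
  ext k
  rw [map_zero, Finsupp.zero_apply, coeff_zero]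
  by_cases h1 : 0 < k + Γ.δ l
  · exact Γ.mem_V.1 hf l k h1
  · have h2 := congrFun h l
    rw [gr_apply, if_pos (by omega), show 0 - Γ.δ l = k by omega] at h2
    exact h2

theorem gr_surj {a : ℕ} (h : Γ.dmax ≤ a) (v : Fin d → ℤ) : ∃ f ∈ Γ.V a, Γ.gr a f = v := by
  have h1 : ∀ l, Γ.δ l ≤ a := fun l => (Γ.δ_le l).trans h
  refine ⟨∑ l, v l • ((X ^ (a - Γ.δ l) : ℤ[X]) • Γ.b l), V_sum fun l _ => V_smul _ ?_, ?_⟩
  · exact V_mono (by have := h1 l; omega) (smul_mem (natDegree_X_pow_le _) (Γ.b_mem l))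
  · funext i
    rw [map_sum, Finset.sum_apply, Finset.sum_eq_single i]
    · rw [map_smul, Pi.smul_apply, gr_apply, if_pos (h1 i), repr_smul, repr_b]; simp
    · intro j _ hj
      rw [map_smul, Pi.smul_apply, gr_apply, if_pos (h1 i), repr_smul, repr_b, if_neg hj]; simp
    · simp

theorem natDegree_repr {a : ℕ} {f : B} (hf : f ∈ Γ.V a) (l : Fin d) :
    (Γ.b.repr f l).natDegree ≤ a - Γ.δ l :=
  natDegree_le_iff_coeff_eq_zero.2 fun k hk => Γ.mem_V.1 hf l k (by omega)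

theorem repr_eq_zero {a : ℕ} {f : B} (hf : f ∈ Γ.V a) {l : Fin d} (h : a < Γ.δ l) :
    Γ.b.repr f l = 0 := by
  ext k; exact Γ.mem_V.1 hf l k (by omega)

theorem gr_mul {m a : ℕ} {f g : B} (hf : f ∈ Γ.V m) (hg : g ∈ Γ.V a) :
    Γ.gr (m + a) (f * g) = Γ.top m f *ᵥ Γ.gr a g := by
  funext i
  change (X ^ Γ.δ i * Γ.b.repr (f * g) i).coeff (m + a) = ∑ j, Γ.top m f i j * Γ.gr a g j
  rw [repr_mul, Finset.mul_sum, finsetSum_coeff]
  refine Finset.sum_congr rfl fun j _ => ?_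
  rw [gr_apply]
  split_ifs with h
  · rw [← mul_assoc, show m + a = (m + Γ.δ j) + (a - Γ.δ j) by omega,
      coeff_mul_add_eq_of_natDegree_le _ (natDegree_repr hg j)]
    · rfl
    · refine natDegree_le_iff_coeff_eq_zero.2 fun k hk => ?_
      exact congrFun (gr_of_lt (mul_mem hf (Γ.b_mem j)) hk) i
  · rw [repr_eq_zero hg (by omega)]; simp

theorem natDegree_nrm {m : ℕ} {f : B} (hf : f ∈ Γ.V m) : (Γ.nrm f).natDegree ≤ m * d := by
  have h := (Bas.det_wt (Algebra.leftMulMatrix Γ.b f) Γ.δ m fun i j k hk => by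
    rw [lm_apply]; exact Γ.mem_V.1 (mul_mem hf (Γ.b_mem j)) i k hk).1
  rwa [Fintype.card_fin, ← nrm_eq] at h

theorem coeff_nrm {m : ℕ} {f : B} (hf : f ∈ Γ.V m) :
    (Γ.nrm f).coeff (m * d) = (Γ.top m f).det := by
  have h := (Bas.det_wt (Algebra.leftMulMatrix Γ.b f) Γ.δ m fun i j k hk => by
    rw [lm_apply]; exact Γ.mem_V.1 (mul_mem hf (Γ.b_mem j)) i k hk).2
  rw [Fintype.card_fin, ← nrm_eq] at h
  simp only [lm_apply] at h
  exact h

theorem gr_eq_zero_of_mul {m a : ℕ} {f s : B} (hf : f ∈ Γ.V m) (hc : (Γ.nrm f).coeff (m * d) ≠ 0)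
    (hs : s ∈ Γ.V a) (h : Γ.gr (m + a) (f * s) = 0) : Γ.gr a s = 0 := by
  rw [gr_mul hf hs] at h
  rw [coeff_nrm hf] at hc
  exact eq_zero_of_mulVec_eq_zero hc h

/-- Division by a section with nonzero top coefficient. -/
theorem mem_of_mul_mem {m a : ℕ} {f s : B} (hf : f ∈ Γ.V m) (hc : (Γ.nrm f).coeff (m * d) ≠ 0)
    (h : f * s ∈ Γ.V (m + a)) : s ∈ Γ.V a := by
  obtain ⟨k, hk⟩ := Γ.exists_mem_V s
  have hk' : s ∈ Γ.V (a + k) := V_mono (by omega) hk
  clear hk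
  induction k with
  | zero => exact hk'
  | succ k ih =>
    exact ih (mem_of_gr hk' (gr_eq_zero_of_mul hf hc hk' (gr_of_lt h (by omega))))

theorem eq_zero_of_mul_mem {m a : ℕ} {f s : B} (hf : f ∈ Γ.V m)
    (hc : (Γ.nrm f).coeff (m * d) ≠ 0) (h : f * s ∈ Γ.V a) (ha : a < m) : s = 0 := by
  have h0 : s ∈ Γ.V 0 := mem_of_mul_mem hf hc (V_mono (by omega) h)
  exact eq_zero_of_gr h0 (gr_eq_zero_of_mul hf hc h0 (gr_of_lt h (by omega)))

/-- Every element of `V (c + 1)` is `u + t v` with `u`, `v` in `V c`. -/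
theorem V_succ {c : ℕ} (hc : Γ.dmax ≤ c) {f : B} (hf : f ∈ Γ.V (c + 1)) :
    ∃ u ∈ Γ.V c, ∃ v ∈ Γ.V c, f = u + Γ.t * v := by
  refine Γ.V_induction (P := fun f => ∃ u ∈ Γ.V c, ∃ v ∈ Γ.V c, f = u + Γ.t * v) ?_ ?_ ?_ hf
  · exact ⟨0, V_zero _, 0, V_zero _, by simp⟩
  · rintro _ _ ⟨u, hu, v, hv, rfl⟩ ⟨u', hu', v', hv', rfl⟩
    exact ⟨u + u', V_add hu hu', v + v', V_add hv hv', by ring⟩
  · rintro n ⟨l, a, ha⟩
    have h1 := (Γ.δ_le l).trans hc
    cases a with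
    | zero => exact ⟨_, V_smul n (V_mono h1 (Γ.b_mem l)), 0, V_zero _, by simp [mon]⟩
    | succ a =>
      refine ⟨0, V_zero _, n • (Γ.t ^ a * Γ.b l),
        V_smul n (mul_mem_of_le (Γ.t_pow_mem a) (Γ.b_mem l) (by omega)), ?_⟩
      simp only [mon, zero_add, mul_smul_comm]
      rw [pow_succ', mul_assoc]

/-- `V (c + a)` is spanned by the `t ^ j V c` with `j ≤ a`. -/
theorem V_add_eq {c : ℕ} (hc : Γ.dmax ≤ c) (a : ℕ) {f : B} (hf : f ∈ Γ.V (c + a)) :
    ∃ v : ℕ → B, (∀ j, v j ∈ Γ.V c) ∧ f = ∑ j ∈ Finset.range (a + 1), Γ.t ^ j * v j := by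
  refine Γ.V_induction
    (P := fun f => ∃ v : ℕ → B, (∀ j, v j ∈ Γ.V c) ∧
      f = ∑ j ∈ Finset.range (a + 1), Γ.t ^ j * v j) ?_ ?_ ?_ hf
  · exact ⟨0, fun _ => V_zero _, by simp⟩
  · rintro _ _ ⟨u, hu, rfl⟩ ⟨v, hv, rfl⟩
    exact ⟨u + v, fun j => V_add (hu j) (hv j), by simp [mul_add, Finset.sum_add_distrib]⟩
  · rintro n ⟨l, k, hk⟩
    have h1 := (Γ.δ_le l).trans hc
    refine ⟨Pi.single (min k a) (n • (Γ.t ^ (k - min k a) * Γ.b l)), fun j => ?_, ?_⟩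
    · rw [Pi.single_apply]
      split_ifs
      · exact V_smul n (mul_mem_of_le (Γ.t_pow_mem _) (Γ.b_mem l) (by omega))
      · exact V_zero _
    · rw [Finset.sum_eq_single (min k a)]
      · simp only [mon, Pi.single_eq_same, mul_smul_comm]
        rw [← mul_assoc, ← pow_add, show min k a + (k - min k a) = k by omega]
      · intro j _ hj; simp [hj]
      · intro h; exact absurd (Finset.mem_range.2 (by omega)) h

theorem dvd_iff_repr (c : ℤ) (f : B) : (c : B) ∣ f ↔ ∀ l, C c ∣ Γ.b.repr f l := by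
  constructor
  · rintro ⟨g, rfl⟩ l
    rw [← zsmul_eq_mul, repr_zsmul, zsmul_eq_mul]
    exact Dvd.intro (Γ.b.repr g l) (by simp)
  · intro h
    choose g hg using h
    refine ⟨∑ l, g l • Γ.b l, ?_⟩
    conv_lhs => rw [← Γ.b.sum_repr f]
    rw [Finset.mul_sum]
    refine Finset.sum_congr rfl fun l _ => ?_
    rw [hg, mul_smul, Algebra.smul_def (C c)]
    simp

theorem mem_of_zsmul {c : ℤ} (hc : c ≠ 0) {m : ℕ} {f : B} (h : c • f ∈ Γ.V m) : f ∈ Γ.V m := by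
  refine Γ.mem_V.2 fun l k hk => ?_
  have h1 := Γ.mem_V.1 h l k hk
  rw [repr_zsmul, coeff_smul, smul_eq_mul] at h1
  exact (mul_eq_zero.1 h1).resolve_left hc

theorem dvd_el_iff {m : ℕ} (c : ℤ) (e : Γ.Ix m → ℤ) : (c : B) ∣ Γ.el e ↔ ∀ i, c ∣ e i := by
  constructor
  · rintro ⟨g, hg⟩ i
    rw [← Γ.co_el e, hg, ← zsmul_eq_mul, co_smul]
    exact Dvd.intro _ rfl
  · intro h
    choose g hg using h
    exact ⟨Γ.el g, by rw [← zsmul_eq_mul, ← el_smul]; exact congrArg _ (funext hg)⟩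

end Geo

end Pool.Agent.Lib.BK2
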