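import Pool.Agent.Lib.BK2.Defs

open Polynomial

noncomputable section

namespace Pool.Agent.Lib.BK2

/-- Norms of integer and real vectors. -/
def St_NRM : Prop :=
  ∀ (B : Type) [CommRing B] [IsDomain B] [Algebra ℤ[X] B] (d : ℕ) [NeZero d] (Γ : Geo B d) (m : ℕ),
    (∀ f ∈ Γ.V m, (Γ.nrm f).natDegree ≤ m * d ∧ ∃ g ∈ Γ.V (m * d - m),
      f * g = algebraMap ℤ[X] B (Γ.nrm f)) ∧
    (∀ e : Γ.Ix m → ℤ, Γ.nrmR (fun i => (e i : ℝ)) = (Γ.nrm (Γ.el e)).map (Int.castRingHom ℝ)) ∧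
    (∀ (c : ℝ) (e : Γ.Ix m → ℝ), Γ.nrmR (c • e) = C (c ^ d) * Γ.nrmR e) ∧
    (∀ (H : ℝ) (e : Γ.Ix m → ℤ), H ≠ 0 →
      Γ.lc (scl H e) * H ^ d = ((Γ.nrm (Γ.el e)).coeff (m * d) : ℝ)) ∧
    (∀ j, ContDiff ℝ 1 fun e : Γ.Ix m → ℝ => (Γ.nrmR e).coeff j) ∧
    (∀ e : Γ.Ix m → ℝ, (Γ.nrmR e).natDegree ≤ m * d ∧ ∃ g : Γ.Ix (m * d - m) → ℝ,
      ∀ φ : B →+* ℂ, Γ.ev φ e * Γ.ev φ g = aeval (φ Γ.t) (Γ.nrmR e)) ∧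
    (∀ (e : Γ.Ix m → ℝ) (z : ℂ), aeval z (Γ.nrmR e) = 0 →
      ∃ φ : B →+* ℂ, φ Γ.t = z ∧ Γ.ev φ e = 0) ∧
    (∀ (p : ℕ) (f : B), p.Prime → (Ideal.span {(p : B)}).IsPrime →
      (Γ.nrm f).map (Int.castRingHom (ZMod p)) = 0 → (p : B) ∣ f) ∧
    (∀ g : ℤ[X], Γ.nrm (algebraMap ℤ[X] B g) = g ^ d) ∧
    (∀ (q : ℕ) (f f' : B), (q : B) ∣ f - f' →
      (Γ.nrm f).map (Int.castRingHom (ZMod q)) = (Γ.nrm f').map (Int.castRingHom (ZMod q)))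

/-- Division by a section with nonzero top coefficient. -/
def St_G2 : Prop :=
  ∀ (B : Type) [CommRing B] [IsDomain B] [Algebra ℤ[X] B] (d : ℕ) [NeZero d] (Γ : Geo B d) (m : ℕ)
    (f : B), f ∈ Γ.V m → (Γ.nrm f).coeff (m * d) ≠ 0 →
    (∀ a (s : B), f * s ∈ Γ.V (m + a) → s ∈ Γ.V a) ∧
    (∀ (s : B), f * s ∈ Γ.V (m - 1) → 0 < m → s = 0) ∧
    ((Γ.nrm f).IsPrimitive → ∀ (c : ℤ) (v s : B), c ≠ 0 → (c : B) * v = f * s → f ∣ v) ∧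
    (∀ a, m + Γ.dmax ≤ a + 1 → ∀ (S S' : AddSubgroup B),
      (∀ v, v ∈ S ↔ ∃ u ∈ Γ.V a, ∃ s ∈ Γ.V (a + 1 - m), v = u + f * s) →
      (∀ v, v ∈ S' ↔ v ∈ Γ.V (a + 1)) →
      S.relIndex S' = ((Γ.nrm f).coeff (m * d)).natAbs) ∧
    (Irreducible ((Γ.nrm f).map (Int.castRingHom ℚ)) → ∀ v : B, ∃ (g : ℤ[X]) (s : B) (c : ℤ),
      c ≠ 0 ∧ g.natDegree < m * d ∧ (c : B) * v = algebraMap ℤ[X] B g + f * s)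

/-- Linear algebra modulo the primes of a multi-point `x : B → ZMod P`. -/
def St_MODP : Prop :=
  ∀ (B : Type) [CommRing B] [IsDomain B] [Algebra ℤ[X] B] (d : ℕ) [NeZero d] (Γ : Geo B d),
    (∀ p : ℕ, p.Prime → Finite (B →+* ZMod p) ∧ Nat.card (B →+* ZMod p) ≤ d * p) ∧
    (∀ R : ℕ, {x : Pt B | x.p ≤ R}.Finite) ∧
    (∀ m, ∀ f ∈ Γ.V m, ∀ p : ℕ, p.Prime → (Γ.nrm f).map (Int.castRingHom (ZMod p)) ≠ 0 →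
      Nat.card {x : B →+* ZMod p // x f = 0} ≤ m * d * d) ∧
    (∀ m, Γ.dmax ≤ m → 1 ≤ m → ∀ (p : ℕ) (x x' : B →+* ZMod p), p.Prime → x ≠ x' →
      ∀ u u' : ZMod p, ∃ e : Γ.Ix m → ℤ, x (Γ.el e) = u ∧ x' (Γ.el e) = u') ∧
    (∀ a a', Γ.dmax ≤ a' → ∀ k : Γ.Ix (a + a'), ∃ (i : Γ.Ix a) (j : Γ.Ix a'),
      Γ.mon i * Γ.mon j = Γ.mon k) ∧
    (∀ m a c, Γ.dmax ≤ m → 1 ≤ m → Γ.dmax ≤ a → c = m + a → ∀ (P : ℕ) (x : B →+* ZMod P), 0 < P →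
      ∃ 𝒰 : Finset (Γ.Ix m → ℤ), (∀ u ∈ 𝒰, x (Γ.el u) = 0 ∧ ∀ i, |u i| ≤ P) ∧
        ∀ v : Γ.Ix c → ℤ, x (Γ.el v) = 0 → v ∈ Submodule.span ℤ
          ({z | ∃ u ∈ 𝒰, ∃ j : Γ.Ix a, z = Γ.mulv c u (Pi.single j 1)} ∪
            {z | ∃ k : Γ.Ix c, z = Pi.single k (P : ℤ)}))

end Pool.Agent.Lib.BK2
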