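import Mathlib

namespace Pool.Agent.Lib.BK2

open Finset

/-- Weighted orthogonal projection onto the image of a submodule. -/
theorem exists_perp {M I : Type} [AddCommGroup M] [Module ℝ M] (s : Finset I) (ω : I → ℝ)
    (hω : ∀ i ∈ s, 0 ≤ ω i) (T : M →ₗ[ℝ] (I → ℝ)) (S : Submodule ℝ M) (f : I → ℝ) :
    ∃ g ∈ S, ∀ h ∈ S, ∑ i ∈ s, ω i * ((f i - T g i) * T h i) = 0 := by
  classical
  let R : (I → ℝ) →ₗ[ℝ] EuclideanSpace ℝ s :=
    { toFun := fun u => WithLp.toLp 2 fun i : s => Real.sqrt (ω i) * u i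
      map_add' := fun u v => by ext i; simp [mul_add]
      map_smul' := fun c u => by ext i; simp; ring }
  have hR : ∀ u v : I → ℝ, inner ℝ (R u) (R v) = ∑ i ∈ s, ω i * (u i * v i) := by
    intro u v
    rw [PiLp.inner_apply, ← Finset.sum_coe_sort s]
    refine Finset.sum_congr rfl fun i _ => ?_
    have := Real.mul_self_sqrt (hω i i.2)
    simp only [R, LinearMap.coe_mk, AddHom.coe_mk, RCLike.inner_apply, conj_trivial]
    calc _ = (Real.sqrt (ω i) * Real.sqrt (ω i)) * (u i * v i) := by ring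
      _ = _ := by rw [this]
  let U : Submodule ℝ (EuclideanSpace ℝ s) := S.map (R ∘ₗ T)
  obtain ⟨g, hg, hge⟩ : U.starProjection (R f) ∈ U := U.starProjection_apply_mem _
  refine ⟨g, hg, fun h hh => ?_⟩
  have h1 : R (T h) ∈ U := ⟨h, hh, rfl⟩
  have h2 := U.starProjection_inner_eq_zero (R f) _ h1
  rw [← hge] at h2
  have h3 : R f - (R ∘ₗ T) g = R (f - T g) := by simp
  rw [h3, hR] at h2
  simpa using h2

end Pool.Agent.Lib.BK2
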