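import Pool.Agent.Lib.BK2.CDefs
import Pool.Agent.Lib.BK2.Perp

/-! Gauge fixing. -/

namespace Pool.Agent.Lib.BK2.Co

open Finset
open scoped Classical

namespace C0

variable {I X : Type} [Fintype I] [Fintype X]

/-- Projection away from the functions `g x + u i + v i * a x`. -/
theorem gauge (S : Finset (I × X)) (M : I → Finset X) (hS : ∀ i x, (i, x) ∈ S → x ∈ M i)
    (mu a : X → ℝ) (hmu : ∀ x, 0 < mu x) (T : Submodule ℝ (X → ℝ)) (c : I → X → ℝ) :
    ∃ (g : X → ℝ) (u v : I → ℝ) (c₁ : I → X → ℝ), g ∈ T ∧ (∀ i x, (i, x) ∉ S → c₁ i x = 0) ∧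
      (∀ i x, (i, x) ∈ S → c i x = c₁ i x + g x + u i + v i * a x) ∧
      (∀ i, ∑ x ∈ M i, mu x * c₁ i x = 0) ∧ (∀ i, ∑ x ∈ M i, mu x * c₁ i x * a x = 0) ∧
      (T = ⊤ → ∀ x, ∑ i, c₁ i x = 0) := by
  let L : ((X → ℝ) × (I → ℝ) × (I → ℝ)) →ₗ[ℝ] (I × X → ℝ) :=
    { toFun := fun t p => t.1 p.2 + t.2.1 p.1 + t.2.2 p.1 * a p.2
      map_add' := fun s t => by ext p; simp; ring
      map_smul' := fun r t => by ext p; simp; ring }
  obtain ⟨⟨g, u, v⟩, hg, h⟩ := exists_perp S (fun p => mu p.2) (fun p _ => (hmu p.2).le) L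
    (T.prod ⊤) fun p => c p.1 p.2
  let c₁ : I → X → ℝ := fun i x => if (i, x) ∈ S then c i x - (g x + u i + v i * a x) else 0
  have h0 : ∀ i x, x ∉ M i → c₁ i x = 0 := fun i x hx => if_neg fun h1 => hx (hS i x h1)
  have key : ∀ t ∈ T.prod ⊤, ∑ i, ∑ x, mu x * c₁ i x * L t (i, x) = 0 := fun t ht => by
    rw [← h t ht, ← Fintype.sum_prod_type', ← Finset.sum_subset (Finset.subset_univ S)]
    · exact Finset.sum_congr rfl fun p hp => by simp [c₁, L, hp, mul_assoc]
    · intro p _ hp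
      simp [c₁, hp]
  refine ⟨g, u, v, c₁, hg.1, fun i x hx => if_neg hx, fun i x hx => by simp [c₁, hx]; ring,
    fun i => ?_, fun i => ?_, fun hT x => ?_⟩
  · have := key (0, Pi.single i 1, 0) ⟨T.zero_mem, trivial⟩
    rw [Finset.sum_eq_single i (fun j _ hj => by simp [L, hj]) (by simp)] at this
    rw [Finset.sum_subset (Finset.subset_univ _) fun x _ hx => by simp [h0 i x hx]]
    simpa [L] using this
  · have := key (0, 0, Pi.single i 1) ⟨T.zero_mem, trivial⟩
    rw [Finset.sum_eq_single i (fun j _ hj => by simp [L, hj]) (by simp)] at this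
    rw [Finset.sum_subset (Finset.subset_univ _) fun x _ hx => by simp [h0 i x hx]]
    simpa [L] using this
  · have := key (Pi.single x 1, 0, 0) ⟨by simp [hT], trivial⟩
    rw [Finset.sum_comm, Finset.sum_eq_single x (fun y _ hy => by simp [L, hy]) (by simp)] at this
    simpa [L, ← Finset.mul_sum, (hmu x).ne'] using this

end C0

theorem stC0 : St_C0 := by
  intro G W X C O O' _ _ _ _ _ _ _ _ D hD KER hR
  obtain ⟨oE, hoE⟩ := hR.oneE
  obtain ⟨oW, hoW⟩ := hR.oneW
  obtain ⟨pE, hpE⟩ := hR.prE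
  obtain ⟨pW, hpW⟩ := hR.prW
  obtain ⟨c, c', A, A', hs⟩ := hR.sol
  obtain ⟨g, u', v', c₁', -, h0', he', h1', ha', hx'⟩ := C0.gauge D.AW D.MW
    (fun i x h => (hD.AW_sub i x h).2) D.mu D.a hD.mu_pos ⊤ c'
  obtain ⟨g0, u, v, c₁, hg0, h0, he, h1, ha, -⟩ := C0.gauge D.AE D.ME
    (fun i x h => (hD.AE_sub i x h).2) D.mu D.a hD.mu_pos ⊥ fun e x => c e x - g x
  obtain rfl : g0 = 0 := hg0
  let A₁ : G → O → ℝ := fun e j => A e j + D.k * u e * oE e j + v e * pE e j
  let A₁' : W → O' → ℝ := fun w j => A' w j + D.k * u' w * oW w j + v' w * pW w j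
  let L : ((G → O → ℝ) × (W → O' → ℝ)) →ₗ[ℝ] (W × O' → ℝ) :=
    { toFun := fun t p => t.2 p.1 p.2
      map_add' := fun s t => rfl
      map_smul' := fun r t => rfl }
  obtain ⟨z, hz, h⟩ := exists_perp (D.Wa ×ˢ univ) (fun _ => 1) (fun _ _ => zero_le_one) L KER
    fun p => A₁' p.1 p.2
  refine ⟨c₁, c₁', fun e j => if e ∈ D.Ga then A₁ e j - z.1 e j else 0,
    fun w j => if w ∈ D.Wa then A₁' w j - z.2 w j else 0,
    ⟨h0, h0', fun e he j => if_neg he, fun w hw j => if_neg hw, fun e w hom hal => ?_, h1, ha, h1',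
      ha', hx' rfl⟩, fun t ht => ?_⟩
  · have hk : ((D.Z e w).card : ℝ) = D.k := by rw [(hD.hZ e w hom).2.2.1]
    have e1 : D.Af c e w - ∑ x ∈ D.Z e w, g x =
        D.Af c₁ e w + D.k * u e + v e * ∑ x ∈ D.Z e w, D.a x := by
      rw [CD.Af, ← Finset.sum_sub_distrib,
        Finset.sum_congr rfl fun x hx => he e x (hal.2.2 x hx).1]
      simp [CD.Af, Finset.sum_add_distrib, Finset.mul_sum, hk]
    have e2 : D.Bf c' e w = D.Bf c₁' e w + ∑ x ∈ D.Z e w, g x + D.k * u' w +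
        v' w * ∑ x ∈ D.Z e w, D.a x := by
      rw [CD.Bf, Finset.sum_congr rfl fun x hx => he' w x (hal.2.2 x hx).2]
      simp [CD.Bf, Finset.sum_add_distrib, Finset.mul_sum, hk]
    have e3 : D.alp (fun e j => if e ∈ D.Ga then A₁ e j - z.1 e j else 0) e w =
        D.alp A e w + D.k * u e * D.alp oE e w + v e * D.alp pE e w - D.alp z.1 e w := by
      simp only [CD.alp, if_pos hal.1, A₁, Finset.mul_sum, ← Finset.sum_add_distrib,
        ← Finset.sum_sub_distrib]
      exact Finset.sum_congr rfl fun j _ => by ring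
    have e4 : D.bet (fun w j => if w ∈ D.Wa then A₁' w j - z.2 w j else 0) e w =
        D.bet A' e w + D.k * u' w * D.bet oW e w + v' w * D.bet pW e w - D.bet z.2 e w := by
      simp only [CD.bet, if_pos hal.2.1, A₁', Finset.mul_sum, ← Finset.sum_add_distrib,
        ← Finset.sum_sub_distrib]
      exact Finset.sum_congr rfl fun j _ => by ring
    have e5 := hs e w hom
    rw [CD.del] at e5 ⊢
    rw [e3, e4, hoE, hoW, hpE e w hom, hpW e w hom, hR.ker z hz]
    linear_combination e5 - e1 + e2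
  · rw [← h t ht, Finset.sum_product]
    exact Finset.sum_congr rfl fun w hw => Finset.sum_congr rfl fun j _ => by simp [hw, L]

end Pool.Agent.Lib.BK2.Co
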