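import Pool.Agent.Lib.BK2.CDefs

/-! Common API for the CORE rows. -/

namespace Pool.Agent.Lib.BK2.Co

open Finset

section av
variable {ι κ : Type} [Fintype ι] [Fintype κ]

theorem av_add (f g : ι → ℝ) : av (fun i => f i + g i) = av f + av g := by
  simp only [av, sum_add_distrib, add_div]

theorem av_sub (f g : ι → ℝ) : av (fun i => f i - g i) = av f - av g := by
  simp only [av, sum_sub_distrib, sub_div]

theorem av_mul (c : ℝ) (f : ι → ℝ) : av (fun i => c * f i) = c * av f := by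
  simp only [av, ← mul_sum, mul_div_assoc]

theorem av_mul' (c : ℝ) (f : ι → ℝ) : av (fun i => f i * c) = av f * c := by
  simp only [mul_comm _ c, av_mul]

theorem av_zero : av (fun _ : ι => (0 : ℝ)) = 0 := by simp [av]

theorem av_const [Nonempty ι] (c : ℝ) : av (fun _ : ι => c) = c := by
  have : (Fintype.card ι : ℝ) ≠ 0 := by exact_mod_cast Fintype.card_ne_zero
  simp only [av, sum_const, card_univ, nsmul_eq_mul]; field_simp

theorem av_le {f g : ι → ℝ} (h : ∀ i, f i ≤ g i) : av f ≤ av g :=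
  div_le_div_of_nonneg_right (sum_le_sum fun i _ => h i) (Nat.cast_nonneg _)

theorem av_nonneg {f : ι → ℝ} (h : ∀ i, 0 ≤ f i) : 0 ≤ av f :=
  div_nonneg (sum_nonneg fun i _ => h i) (Nat.cast_nonneg _)

theorem abs_av_le (f : ι → ℝ) : |av f| ≤ av fun i => |f i| := by
  rw [av, abs_div, Nat.abs_cast]
  exact div_le_div_of_nonneg_right (abs_sum_le_sum_abs _ _) (Nat.cast_nonneg _)

theorem abs_av_le' {f g : ι → ℝ} (h : ∀ i, |f i| ≤ g i) : |av f| ≤ av g :=
  (abs_av_le f).trans (av_le h)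

theorem av_sum {α : Type} (S : Finset α) (f : α → ι → ℝ) :
    av (fun i => ∑ a ∈ S, f a i) = ∑ a ∈ S, av (f a) := by
  simp only [av]; rw [sum_comm, sum_div]

theorem av_comm (f : ι → κ → ℝ) :
    av (fun i => av fun j => f i j) = av fun j => av fun i => f i j := by
  simp only [av, ← sum_div]; rw [sum_comm, div_right_comm]

theorem card_mul_av (f : ι → ℝ) [Nonempty ι] : Fintype.card ι * av f = ∑ i, f i := by
  have : (Fintype.card ι : ℝ) ≠ 0 := by exact_mod_cast Fintype.card_ne_zero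
  rw [av]; field_simp

/-- weighted Cauchy-Schwarz -/
theorem wcs {α : Type} (S : Finset α) {m : α → ℝ} (hm : ∀ x ∈ S, 0 ≤ m x) (f g : α → ℝ) :
    |∑ x ∈ S, m x * (f x * g x)| ≤ √(∑ x ∈ S, m x * f x ^ 2) * √(∑ x ∈ S, m x * g x ^ 2) := by
  rw [← Real.sqrt_mul (sum_nonneg fun x hx => mul_nonneg (hm x hx) (sq_nonneg _))]
  refine Real.abs_le_sqrt ?_
  have h := sum_mul_sq_le_sq_mul_sq S (fun x => √(m x) * f x) (fun x => √(m x) * g x)
  have e1 : ∀ u : α → ℝ, ∑ x ∈ S, (√(m x) * u x) ^ 2 = ∑ x ∈ S, m x * u x ^ 2 := fun u =>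
    sum_congr rfl fun x hx => by rw [mul_pow, Real.sq_sqrt (hm x hx)]
  have e2 : ∑ x ∈ S, √(m x) * f x * (√(m x) * g x) = ∑ x ∈ S, m x * (f x * g x) :=
    sum_congr rfl fun x hx => by
      rw [mul_mul_mul_comm, Real.mul_self_sqrt (hm x hx)]
  rwa [e1, e1, e2] at h

/-- `sum mu |f| <= sqrt 2 |f|`, with 3/2 for sqrt 2 -/
theorem l1_le {α : Type} (S : Finset α) {m : α → ℝ} (hm : ∀ x ∈ S, 0 ≤ m x)
    (h2 : ∑ x ∈ S, m x ≤ 2) (f : α → ℝ) :
    ∑ x ∈ S, m x * |f x| ≤ 3 / 2 * √(∑ x ∈ S, m x * f x ^ 2) := by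
  have h := wcs S hm (fun _ => 1) fun x => |f x|
  simp only [one_mul, one_pow, mul_one, sq_abs] at h
  refine (le_abs_self _).trans (h.trans (mul_le_mul_of_nonneg_right ?_ (Real.sqrt_nonneg _)))
  exact Real.sqrt_le_iff.2 ⟨by norm_num, by linarith⟩

theorem dot_le (A l : ι → ℝ) {K : ℝ} (hK : 0 ≤ K) (h : ∑ j, l j ^ 2 ≤ K ^ 2) :
    |∑ j, A j * l j| ≤ √(∑ j, A j ^ 2) * K := by
  have h1 := wcs univ (m := fun _ : ι => (1 : ℝ)) (fun _ _ => zero_le_one) A l
  simp only [one_mul] at h1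
  exact h1.trans (mul_le_mul_of_nonneg_left (Real.sqrt_le_iff.2 ⟨hK, h⟩) (Real.sqrt_nonneg _))

theorem av_eq (f : ι → ℝ) : av f = ∑ i, (Fintype.card ι : ℝ)⁻¹ * f i := by
  rw [av, ← mul_sum, div_eq_inv_mul]

theorem av_cs (f g : ι → ℝ) :
    |av fun i => f i * g i| ≤ √(av fun i => f i ^ 2) * √(av fun i => g i ^ 2) := by
  simp only [av_eq]
  exact wcs univ (fun _ _ => by positivity) f g

theorem av_le_sqrt [Nonempty ι] (f : ι → ℝ) : av f ≤ √(av fun i => f i ^ 2) := by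
  have h := av_cs f fun _ => 1
  simp only [mul_one, one_pow, av_const, Real.sqrt_one] at h
  exact (le_abs_self _).trans h

/-- `av (sqrt u * sqrt v) <= sqrt (av u) * sqrt (av v)` -/
theorem av_sqrt_mul {u v : ι → ℝ} (hu : ∀ i, 0 ≤ u i) (hv : ∀ i, 0 ≤ v i) :
    av (fun i => √(u i) * √(v i)) ≤ √(av u) * √(av v) := by
  have h := av_cs (fun i => √(u i)) fun i => √(v i)
  simp only [Real.sq_sqrt (hu _), Real.sq_sqrt (hv _)] at h
  exact (le_abs_self _).trans h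

theorem av_sqrt_le [Nonempty ι] {u : ι → ℝ} (hu : ∀ i, 0 ≤ u i) :
    av (fun i => √(u i)) ≤ √(av u) := by
  have h := av_le_sqrt fun i => √(u i)
  simpa only [Real.sq_sqrt (hu _)] using h

theorem nA_nonneg (A : ι → κ → ℝ) : 0 ≤ nA A := Real.sqrt_nonneg _

theorem nA_sq (A : ι → κ → ℝ) : nA A ^ 2 = av fun i => ∑ j, A i j ^ 2 :=
  Real.sq_sqrt (av_nonneg fun _ => sum_nonneg fun _ _ => sq_nonneg _)

theorem nA_zero : nA (fun (_ : ι) (_ : κ) => (0 : ℝ)) = 0 := by simp [nA, av]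

end av

variable {G W X C O O' : Type} [Fintype G] [Fintype W] [Fintype X] [Fintype C] [Fintype O]
  [Fintype O']

namespace CD
open Classical

variable (D : CD G W X C O O')

theorem sum_cells (f : W → ℝ) : ∑ w, f w = ∑ c, ∑ w, if D.cell w = c then f w else 0 := by
  rw [sum_comm]; simp

theorem sz_eq (c : C) : D.sz c = ∑ w, if D.cell w = c then (1 : ℝ) else 0 := by
  simp [sz]

theorem szx_eq (c : C) (x : X) :
    D.szx c x = ∑ w, if D.cell w = c ∧ x ∈ D.MW w then (1 : ℝ) else 0 := by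
  simp [szx]

theorem sz_nonneg (c : C) : 0 ≤ D.sz c := Nat.cast_nonneg _
theorem szx_nonneg (c : C) (x : X) : 0 ≤ D.szx c x := Nat.cast_nonneg _

theorem sum_sz : ∑ c, D.sz c = Fintype.card W := by
  simp only [sz_eq]; rw [← D.sum_cells fun _ => 1]; simp

theorem sum_nB [Nonempty G] : ∑ b, D.nB b = 1 := by
  simp only [nB]; rw [← av_sum]; simp [av_const]

theorem nB_nonneg (b : Fin D.nb) : 0 ≤ D.nB b := av_nonneg fun _ => by positivity

theorem sum_mW (w : W) (P : G → Prop) : ∑ b, D.mW w (fun e => D.ec e = b ∧ P e) = D.mW w P := by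
  simp only [mW]; rw [← av_sum]
  refine congrArg av (funext fun e => ?_)
  by_cases h : P e <;> simp [h]

theorem ip_comm (F F' : G → W → ℝ) : D.ip F F' = D.ip F' F := by
  simp only [ip, mul_comm (F _ _)]

theorem ip_add (F F' H : G → W → ℝ) :
    D.ip (fun e w => F e w + F' e w) H = D.ip F H + D.ip F' H := by
  simp only [ip, add_mul, mul_add, av_add]

theorem ip_sub (F F' H : G → W → ℝ) :
    D.ip (fun e w => F e w - F' e w) H = D.ip F H - D.ip F' H := by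
  simp only [ip, sub_mul, mul_sub, av_sub]

theorem ip_add' (F F' H : G → W → ℝ) :
    D.ip H (fun e w => F e w + F' e w) = D.ip H F + D.ip H F' := by
  simp only [ip, mul_add, av_add]

theorem ip_sub' (F F' H : G → W → ℝ) :
    D.ip H (fun e w => F e w - F' e w) = D.ip H F - D.ip H F' := by
  simp only [ip, mul_sub, av_sub]

theorem nE_nonneg (c : G → X → ℝ) : 0 ≤ D.nE c := Real.sqrt_nonneg _
theorem nW_nonneg (c : W → X → ℝ) : 0 ≤ D.nW c := Real.sqrt_nonneg _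
theorem nE_zero : D.nE (fun _ _ => 0) = 0 := by simp [nE, av]
theorem Af_zero (e : G) (w : W) : D.Af (fun _ _ => 0) e w = 0 := by simp [Af]
theorem alp_zero (e : G) (w : W) : D.alp (fun _ _ => 0) e w = 0 := by simp [alp]

variable {D}

theorem Ok.ip_self (h : D.Ok) (F : G → W → ℝ) : 0 ≤ D.ip F F :=
  av_nonneg fun _ => av_nonneg fun _ => mul_nonneg (h.om_nn _ _) (mul_self_nonneg _)

theorem Ok.ip_cs (h : D.Ok) (F F' : G → W → ℝ) : |D.ip F F'| ≤ √(D.ip F F) * √(D.ip F' F') := by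
  have e : ∀ H H' : G → W → ℝ, D.ip H H' = ∑ z : G × W, (Fintype.card G : ℝ)⁻¹ *
      (Fintype.card W : ℝ)⁻¹ * D.om z.1 z.2 * (H z.1 z.2 * H' z.1 z.2) := fun H H' => by
    simp only [ip, av_eq, mul_sum, Fintype.sum_prod_type, mul_assoc]
  simp only [e, ← sq]
  exact wcs univ (fun z _ => mul_nonneg (by positivity) (h.om_nn _ _)) _ _

theorem Ok.nE_sq (h : D.Ok) (c : G → X → ℝ) :
    D.nE c ^ 2 = av fun e => ∑ x ∈ D.ME e, D.mu x * c e x ^ 2 :=
  Real.sq_sqrt (av_nonneg fun _ => sum_nonneg fun x _ => mul_nonneg (h.mu_pos x).le (sq_nonneg _))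

theorem Ok.nW_sq (h : D.Ok) (c : W → X → ℝ) :
    D.nW c ^ 2 = av fun w => ∑ x ∈ D.MW w, D.mu x * c w x ^ 2 :=
  Real.sq_sqrt (av_nonneg fun _ => sum_nonneg fun x _ => mul_nonneg (h.mu_pos x).le (sq_nonneg _))

theorem Ok.k100 (h : D.Ok) : (100 : ℝ) ≤ D.k := by linarith [h.K1, h.hk]

theorem Ok.kδ (h : D.Ok) : D.k * D.δ ≤ 1 / 1000 := by
  have h1 : 0 ≤ D.k * D.δ := mul_nonneg (Nat.cast_nonneg _) h.δ0.le
  nlinarith [h.K1, h.hδ]

theorem Ok.Kδ (h : D.Ok) : D.K * D.δ ≤ 1 / 100000 := by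
  have h1 : 0 ≤ D.K * D.δ := mul_nonneg (by linarith [h.K1]) h.δ0.le
  nlinarith [h.k100, h.hδ]

theorem Ok.δ_le (h : D.Ok) : D.δ ≤ 1 / 100000 := by nlinarith [h.K1, h.Kδ, h.δ0]

/-- total split mass of `e` -/
theorem Ok.av_om_le [Nonempty W] (h : D.Ok) (e : G) : av (fun w => D.om e w) ≤ 1 + D.δ := by
  have hW : (0 : ℝ) < Fintype.card W := by exact_mod_cast Fintype.card_pos
  rw [av, div_le_iff₀ hW, D.sum_cells, ← D.sum_sz, mul_sum]
  refine sum_le_sum fun c _ => ?_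
  have := (abs_le.1 (h.E0 e c)).2
  simp only [NE, and_true] at this
  linarith

/-- total split mass of an alive `w` -/
theorem Ok.av_om_le' [Nonempty G] (h : D.Ok) {w : W} (hw : w ∈ D.Wa) :
    av (fun e => D.om e w) ≤ 1 + D.δ := by
  have h1 := D.sum_mW w fun _ => True
  simp only [and_true] at h1
  have h2 : D.mW w (fun _ => True) = av fun e => D.om e w := by simp [mW]
  have h3 := (le_abs_self _).trans ((abs_sum_le_sum_abs _ _).trans (h.W0 w hw))
  rw [sum_sub_distrib, h1, h2, D.sum_nB] at h3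
  linarith

/-- mass of the pairs through an alive flag -/
theorem Ok.mW_flag [Nonempty G] (h : D.Ok) {w : W} {x : X} (hx : (w, x) ∈ D.AW) :
    |D.mW w (fun e => x ∈ D.Z e w) - D.k * D.d1 x * D.mu x| ≤ D.δ * D.k * D.mu x := by
  have h3 := (abs_sum_le_sum_abs _ _).trans (h.W1 w x hx)
  rwa [sum_sub_distrib, D.sum_mW, ← mul_sum, D.sum_nB, mul_one] at h3

theorem Ok.NE_le (h : D.Ok) (e : G) (c : C) {x : X} (hx : x ∈ D.ME e) :
    D.NE e c (fun w => x ∈ D.Z e w) ≤ 3 * D.k * D.mu x * D.sz c := by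
  have h1 := (abs_le.1 (h.E1 e c x hx)).2
  have h2 : 0 ≤ D.k * D.mu x * D.sz c :=
    mul_nonneg (mul_nonneg (Nat.cast_nonneg _) (h.mu_pos x).le) (D.sz_nonneg c)
  nlinarith [h.d1_hi x, h.δ_le]

theorem Ok.sz_le (h : D.Ok) (c : C) (x : X) : D.sz c ≤ 2 * (D.q x * D.szx c x) := by
  have h1 := (abs_le.1 (h.cntW c x)).1
  nlinarith [h.δ_le, D.sz_nonneg c]

theorem Ok.alp_le (h : D.Ok) (A : G → O → ℝ) (e : G) (w : W) :
    |D.alp A e w| ≤ √(∑ j, A e j ^ 2) * D.K :=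
  dot_le _ _ (by linarith [h.K1]) (h.lam_le e w)

theorem Ok.bet_le (h : D.Ok) (A : W → O' → ℝ) (e : G) (w : W) :
    |D.bet A e w| ≤ √(∑ j, A w j ^ 2) * D.K :=
  dot_le _ _ (by linarith [h.K1]) (h.lam'_le w e)

theorem Ok.alp_osc (h : D.Ok) (A : G → O → ℝ) (e : G) (w : W) :
    |D.alp A e w - ∑ j, A e j * D.lamC e (D.cell w) j| ≤ √(∑ j, A e j ^ 2) * D.δ := by
  rw [alp, ← sum_sub_distrib]; simp only [← mul_sub]
  exact dot_le _ _ h.δ0.le (h.lamC_osc e w)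

theorem Ok.bet_osc (h : D.Ok) (A : W → O' → ℝ) (e : G) (w : W) :
    |D.bet A e w - ∑ j, A w j * D.lamB w (D.ec e) j| ≤ √(∑ j, A w j ^ 2) * D.δ := by
  rw [bet, ← sum_sub_distrib]; simp only [← mul_sub]
  exact dot_le _ _ h.δ0.le (h.lamB_osc w e)

end CD

end Pool.Agent.Lib.BK2.Co
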