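import Mathlib

/-! BK2 section 7, CORE after cleaning (text: bk2_core52.md).  All types finite: `G` good curves e,
`W` the window, `X` points, `C` cells of `W`, `Fin nb` cells of `G`.  `om e w = 1[sp]/kappa_e`,
`q x = p_x`, `ME e = Maj e`, `MW w` = points on w.  One small parameter `δ`. -/

namespace Pool.Agent.Lib.BK2.Co

open Finset

noncomputable section
open Classical

/-- uniform average -/
def av {ι : Type} [Fintype ι] (f : ι → ℝ) : ℝ := (∑ i, f i) / Fintype.card ι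

structure CD (G W X C O O' : Type) where
  nb : ℕ
  k : ℕ
  K : ℝ
  δ : ℝ
  om : G → W → ℝ
  Z : G → W → Finset X
  mu : X → ℝ
  q : X → ℝ
  a : X → ℝ
  d1 : X → ℝ
  d2 : X → X → ℝ
  ME : G → Finset X
  MW : W → Finset X
  cell : W → C
  ec : G → Fin nb
  lam : G → W → O → ℝ
  lam' : W → G → O' → ℝ
  Phi : G → W → ℝ
  lamC : G → C → O → ℝ
  PhiC : G → C → ℝ
  lamB : W → Fin nb → O' → ℝ
  PhiB : W → Fin nb → ℝ
  Ga : Finset G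
  Wa : Finset W
  AE : Finset (G × X)
  AW : Finset (W × X)

variable {G W X C O O' : Type} [Fintype G] [Fintype W] [Fintype X] [Fintype C] [Fintype O]
  [Fintype O']

namespace CD

variable (D : CD G W X C O O')

/-- the inner product of split pairs -/
def ip (F F' : G → W → ℝ) : ℝ := av fun e => av fun w => D.om e w * (F e w * F' e w)

/-- size of a cell -/
def sz (c : C) : ℝ := ((univ.filter fun w => D.cell w = c).card : ℝ)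

/-- number of `w` in the cell `c` through `x` -/
def szx (c : C) (x : X) : ℝ := ((univ.filter fun w => D.cell w = c ∧ x ∈ D.MW w).card : ℝ)

/-- split mass of `e` in the cell `c` (not normalised) -/
def NE (e : G) (c : C) (P : W → Prop) : ℝ := ∑ w, if D.cell w = c ∧ P w then D.om e w else 0

def mE (e : G) (P : W → Prop) : ℝ := av fun w => if P w then D.om e w else 0

def mW (w : W) (P : G → Prop) : ℝ := av fun e => if P e then D.om e w else 0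

/-- fraction of `G` in the e-cell `b` -/
def nB (b : Fin D.nb) : ℝ := av fun e => if D.ec e = b then 1 else 0

def ms (S : Finset X) : ℝ := ∑ x ∈ S, D.mu x

def al (e : G) (w : W) : Prop :=
  e ∈ D.Ga ∧ w ∈ D.Wa ∧ ∀ x ∈ D.Z e w, (e, x) ∈ D.AE ∧ (w, x) ∈ D.AW

def Af (c : G → X → ℝ) (e : G) (w : W) : ℝ := ∑ x ∈ D.Z e w, c e x
def Bf (c' : W → X → ℝ) (e : G) (w : W) : ℝ := ∑ x ∈ D.Z e w, c' w x
def alp (A : G → O → ℝ) (e : G) (w : W) : ℝ := ∑ j, A e j * D.lam e w j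
def bet (A' : W → O' → ℝ) (e : G) (w : W) : ℝ := ∑ j, A' w j * D.lam' w e j
def del (A : G → O → ℝ) (A' : W → O' → ℝ) (e : G) (w : W) : ℝ :=
  D.alp A e w - D.bet A' e w - D.Phi e w

def nE (c : G → X → ℝ) : ℝ := √(av fun e => ∑ x ∈ D.ME e, D.mu x * c e x ^ 2)
def nW (c' : W → X → ℝ) : ℝ := √(av fun w => ∑ x ∈ D.MW w, D.mu x * c' w x ^ 2)

/-- mean of `f` over a cell -/
def mean0 (f : W → ℝ) (c : C) : ℝ := (∑ w, if D.cell w = c then f w else 0) / D.sz c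

/-- mean of `f(.,x)` over the `w` of a cell through `x` -/
def mean1 (f : W → X → ℝ) (c : C) (x : X) : ℝ :=
  (∑ w, if D.cell w = c ∧ x ∈ D.MW w then f w x else 0) / D.szx c x

end CD

/-- norm of archimedean coefficients -/
def nA {ι O : Type} [Fintype ι] [Fintype O] (A : ι → O → ℝ) : ℝ := √(av fun i => ∑ j, A i j ^ 2)

structure CD.Ok (D : CD G W X C O O') : Prop where
  K1 : 1 ≤ D.K
  hk : 100 * D.K ≤ D.k
  δ0 : 0 < D.δ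
  hδ : 1000 * D.K * D.k * D.δ ≤ 1
  om_nn : ∀ e w, 0 ≤ D.om e w
  mu_pos : ∀ x, 0 < D.mu x
  q_pos : ∀ x, 0 < D.q x
  hZ : ∀ e w, D.om e w ≠ 0 → D.Z e w ⊆ D.ME e ∧ D.Z e w ⊆ D.MW w ∧ (D.Z e w).card = D.k ∧
    ∀ x ∈ D.Z e w, ∀ y ∈ D.Z e w, D.q x = D.q y → x = y
  d1_lo : ∀ x, 1 / 2 ≤ D.d1 x
  d1_hi : ∀ x, D.d1 x ≤ 2
  d2_le : ∀ x y, |D.d2 x y| ≤ 2
  d2_symm : ∀ x y, D.d2 x y = D.d2 y x
  coer : ∀ (T : Finset X) (f : X → ℝ), D.ms T ≤ 2 → ∑ x ∈ T, D.mu x * f x = 0 →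
    ∑ x ∈ T, D.mu x * f x * D.a x = 0 →
    |∑ x ∈ T, ∑ y ∈ T, D.mu x * f x * (D.mu y * f y) * D.d2 x y| ≤
      D.K / (D.k : ℝ) ^ 2 * ∑ x ∈ T, D.mu x * f x ^ 2 ∧
    |∑ x ∈ T, D.mu x * f x * D.d1 x| ≤ D.K / D.k * √(∑ x ∈ T, D.mu x * f x ^ 2)
  ME_le : ∀ e, D.ms (D.ME e) ≤ 2
  ME_pr : ∀ e x, D.ms ((D.ME e).filter fun y => D.q y = D.q x) ≤ D.δ
  E0 : ∀ e c, |D.NE e c (fun _ => True) - D.sz c| ≤ D.δ * D.sz c
  E1 : ∀ e c, ∀ x ∈ D.ME e,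
    |D.NE e c (fun w => x ∈ D.Z e w) - D.k * D.d1 x * D.mu x * D.sz c| ≤
      D.δ * D.k * D.mu x * D.sz c
  E2 : ∀ e c, ∀ x ∈ D.ME e, ∀ y ∈ D.ME e, D.q x ≠ D.q y →
    |D.NE e c (fun w => x ∈ D.Z e w ∧ y ∈ D.Z e w) -
      D.k * (D.k - 1) * D.d2 x y * D.mu x * D.mu y * D.sz c| ≤
      D.δ * D.k ^ 2 * D.mu x * D.mu y * D.sz c
  cntE : ∀ x, D.q x * av (fun e => if x ∈ D.ME e then (1 : ℝ) else 0) ≤ D.K
  cntW : ∀ c x, |D.q x * D.szx c x - D.sz c| ≤ D.δ * D.sz c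
  sm : ∀ g : X → ℝ, av (fun e => (∑ x ∈ D.ME e, D.mu x * g x - ∑ x, D.mu x * g x / D.q x) ^ 2) ≤
    D.δ ^ 2 * ∑ x, D.mu x * g x ^ 2 / D.q x
  lam_le : ∀ e w, ∑ j, D.lam e w j ^ 2 ≤ D.K ^ 2
  lam'_le : ∀ w e, ∑ j, D.lam' w e j ^ 2 ≤ D.K ^ 2
  Phi_le : ∀ e w, |D.Phi e w| ≤ D.K
  lamC_le : ∀ e c, ∑ j, D.lamC e c j ^ 2 ≤ D.K ^ 2
  PhiC_le : ∀ e c, |D.PhiC e c| ≤ D.K
  lamB_le : ∀ w b, ∑ j, D.lamB w b j ^ 2 ≤ D.K ^ 2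
  PhiB_le : ∀ w b, |D.PhiB w b| ≤ D.K
  lamC_osc : ∀ e w, ∑ j, (D.lam e w j - D.lamC e (D.cell w) j) ^ 2 ≤ D.δ ^ 2
  PhiC_osc : ∀ e w, |D.Phi e w - D.PhiC e (D.cell w)| ≤ D.δ
  lamB_osc : ∀ w e, ∑ j, (D.lam' w e j - D.lamB w (D.ec e) j) ^ 2 ≤ D.δ ^ 2
  PhiB_osc : ∀ w e, |D.Phi e w - D.PhiB w (D.ec e)| ≤ D.δ
  V0 : ∀ (c : G → X → ℝ) (A : G → O → ℝ) (f : Fin D.nb → W → ℝ) (S : ℝ), 0 ≤ S →
    (∀ b c0, ∑ w, (if D.cell w = c0 then f b w else 0) = 0) →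
    (∀ b, av (fun w => f b w ^ 2) ≤ S ^ 2) →
    |D.ip (fun e w => f (D.ec e) w) (fun e w => D.Af c e w + D.alp A e w)| ≤
      D.δ * S * (D.k * D.nE c + nA A)
  V1 : ∀ (c : G → X → ℝ) (A : G → O → ℝ) (f : W → X → ℝ),
    (∀ x c0, ∑ w, (if D.cell w = c0 ∧ x ∈ D.MW w then f w x else 0) = 0) →
    |D.ip (D.Bf f) (fun e w => D.Af c e w + D.alp A e w)| ≤
      D.δ * D.k * D.nW f * (D.k * D.nE c + nA A)
  AE_sub : ∀ e x, (e, x) ∈ D.AE → e ∈ D.Ga ∧ x ∈ D.ME e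
  AW_sub : ∀ w x, (w, x) ∈ D.AW → w ∈ D.Wa ∧ x ∈ D.MW w
  MW_le : ∀ w ∈ D.Wa, D.ms (D.MW w) ≤ 2
  MW_pr : ∀ w ∈ D.Wa, ∀ x, D.ms ((D.MW w).filter fun y => D.q y = D.q x) ≤ D.δ
  W0 : ∀ w ∈ D.Wa, ∑ b, |D.mW w (fun e => D.ec e = b) - D.nB b| ≤ D.δ
  W1 : ∀ w x, (w, x) ∈ D.AW → ∑ b, |D.mW w (fun e => D.ec e = b ∧ x ∈ D.Z e w) -
    D.k * D.d1 x * D.mu x * D.nB b| ≤ D.δ * D.k * D.mu x
  W2 : ∀ w x, (w, x) ∈ D.AW → ∑ y ∈ (D.MW w).filter (fun y => D.q y ≠ D.q x),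
    |D.mW w (fun e => x ∈ D.Z e w ∧ y ∈ D.Z e w) -
      D.k * (D.k - 1) * D.d2 x y * D.mu x * D.mu y| ≤ D.δ * D.k ^ 2 * D.mu x
  lossEF : ∀ e x, (e, x) ∈ D.AE → D.mE e (fun w => x ∈ D.Z e w ∧ ¬ D.al e w) ≤ D.δ ^ 2 * D.mu x
  lossWF : ∀ w x, (w, x) ∈ D.AW → D.mW w (fun e => x ∈ D.Z e w ∧ ¬ D.al e w) ≤ D.δ ^ 2 * D.mu x
  lossE : ∀ e ∈ D.Ga, D.mE e (fun w => ¬ D.al e w) ≤ D.δ ^ 2
  lossW : ∀ w ∈ D.Wa, D.mW w (fun e => ¬ D.al e w) ≤ D.δ ^ 2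
  loss : av (fun e => D.mE e fun w => ¬ D.al e w) ≤ D.δ ^ 2

/-- a gauged solution, extended by zero -/
structure CD.Sol (D : CD G W X C O O') (c : G → X → ℝ) (c' : W → X → ℝ) (A : G → O → ℝ)
    (A' : W → O' → ℝ) : Prop where
  c0 : ∀ e x, (e, x) ∉ D.AE → c e x = 0
  c'0 : ∀ w x, (w, x) ∉ D.AW → c' w x = 0
  A0 : ∀ e, e ∉ D.Ga → ∀ j, A e j = 0
  A'0 : ∀ w, w ∉ D.Wa → ∀ j, A' w j = 0
  eq : ∀ e w, D.om e w ≠ 0 → D.al e w → D.Af c e w - D.Bf c' e w + D.del A A' e w = 0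
  gE1 : ∀ e, ∑ x ∈ D.ME e, D.mu x * c e x = 0
  gEa : ∀ e, ∑ x ∈ D.ME e, D.mu x * c e x * D.a x = 0
  gW1 : ∀ w, ∑ x ∈ D.MW w, D.mu x * c' w x = 0
  gWa : ∀ w, ∑ x ∈ D.MW w, D.mu x * c' w x * D.a x = 0
  gX : ∀ x, ∑ w, c' w x = 0

/-- the raw input: constants and product formula on both sides, homogeneous solutions, a solution -/
structure CD.Raw (D : CD G W X C O O') (KER : Submodule ℝ ((G → O → ℝ) × (W → O' → ℝ))) :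
    Prop where
  oneE : ∃ u, ∀ e w, D.alp u e w = 1
  oneW : ∃ u, ∀ e w, D.bet u e w = 1
  prE : ∃ u, ∀ e w, D.om e w ≠ 0 → D.alp u e w = ∑ x ∈ D.Z e w, D.a x
  prW : ∃ u, ∀ e w, D.om e w ≠ 0 → D.bet u e w = ∑ x ∈ D.Z e w, D.a x
  ker : ∀ u ∈ KER, ∀ e w, D.alp u.1 e w = D.bet u.2 e w
  sol : ∃ c c' A A', ∀ e w, D.om e w ≠ 0 → D.Af c e w - D.Bf c' e w + D.del A A' e w = 0

end

/-- quantify over all data -/
def All (P : ∀ (G W X C O O' : Type) [Fintype G] [Fintype W] [Fintype X] [Fintype C] [Fintype O]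
    [Fintype O'], CD G W X C O O' → Prop) : Prop :=
  ∀ (G W X C O O' : Type) [Fintype G] [Fintype W] [Fintype X] [Fintype C] [Fintype O] [Fintype O']
    [Nonempty G] [Nonempty W] (D : CD G W X C O O'), D.Ok → P G W X C O O' D

def St_C0 : Prop := All fun _ _ _ _ _ _ _ _ _ _ _ _ D => ∀ KER, D.Raw KER →
  ∃ c c' A A', D.Sol c c' A A' ∧ ∀ u ∈ KER, ∑ w ∈ D.Wa, ∑ j, A' w j * u.2 w j = 0

/-- VAR applied to `f` minus its cell means -/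
def St_TL : Prop := All fun _ W X _ _ _ _ _ _ _ _ _ D =>
  (∀ c A (f : Fin D.nb → W → ℝ) (S : ℝ), 0 ≤ S → (∀ b, av (fun w => f b w ^ 2) ≤ S ^ 2) →
    |D.ip (fun e w => f (D.ec e) w) (fun e w => D.Af c e w + D.alp A e w) -
      D.ip (fun e w => D.mean0 (f (D.ec e)) (D.cell w)) (fun e w => D.Af c e w + D.alp A e w)| ≤
      D.δ * S * (D.k * D.nE c + nA A)) ∧
  ∀ c A (f : W → X → ℝ),
    |D.ip (D.Bf f) (fun e w => D.Af c e w + D.alp A e w) -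
      D.ip (D.Bf fun w x => D.mean1 f (D.cell w) x) (fun e w => D.Af c e w + D.alp A e w)| ≤
      D.δ * D.k * D.nW f * (D.k * D.nE c + nA A)

def St_Q1 : Prop := All fun _ _ _ _ _ _ _ _ _ _ _ _ D => ∀ c c' A A', D.Sol c c' A A' →
  D.k / 4 * D.nE c ^ 2 ≤ D.ip (D.Af c) (D.Af c)

def St_Q2 : Prop := All fun _ _ _ _ _ _ _ _ _ _ _ _ D => ∀ c c' A A', D.Sol c c' A A' →
  D.k / 4 * D.nW c' ^ 2 ≤ D.ip (D.Bf c') (D.Bf c')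

def St_X1 : Prop := All fun _ _ _ _ _ _ _ _ _ _ _ _ D => ∀ c c' A A', D.Sol c c' A A' →
  |D.ip (D.Bf c') (D.Af c)| ≤ D.k / 32 * D.nE c * D.nW c'

def St_X2 : Prop := All fun _ _ _ _ _ _ _ _ _ _ _ _ D => ∀ c c' A A', D.Sol c c' A A' →
  |D.ip (D.Bf c') (D.alp A)| ≤ 4 * D.K ^ 2 * D.nW c' * nA A

def St_X3 : Prop := All fun _ _ _ _ _ _ _ _ _ _ _ _ D => ∀ c c' A A', D.Sol c c' A A' →
  |D.ip (D.Bf c') (fun e w => D.bet A' e w + D.Phi e w)| ≤ 4 * D.K ^ 2 * D.nW c' * (nA A' + 1)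

def St_X4 : Prop := All fun _ _ _ _ _ _ _ _ _ _ _ _ D => ∀ c c' A A', D.Sol c c' A A' →
  |D.ip (D.Af c) (fun e w => D.alp A e w - D.Phi e w)| ≤ 4 * D.K ^ 2 * D.nE c * (nA A + 1)

def St_X5 : Prop := All fun _ _ _ _ _ _ _ _ _ _ _ _ D => ∀ c c' A A', D.Sol c c' A A' →
  |D.ip (D.bet A') (D.Af c)| ≤ 4 * D.K ^ 2 * D.nE c * nA A'

def St_RES : Prop := All fun _ _ _ _ _ _ _ _ _ _ _ _ D => ∀ c c' A A', D.Sol c c' A A' →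
  D.ip (fun e w => D.Af c e w - D.Bf c' e w + D.del A A' e w)
      (fun e w => D.Af c e w - D.Bf c' e w + D.del A A' e w) ≤
    5 * D.δ ^ 2 * (D.k * D.nE c ^ 2 + D.k * D.nW c' ^ 2 + D.K ^ 2 * (nA A ^ 2 + nA A' ^ 2 + 1))

/-- transfer, E-side term -/
def St_T1 : Prop := All fun _ _ _ _ _ _ _ _ _ _ _ _ D => ∀ A,
  av (fun e => av fun w => (1 - D.om e w) * (D.alp A e w - D.Phi e w) ^ 2) ≤
    20 * D.K ^ 2 * D.δ * (nA A ^ 2 + 1)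

/-- transfer, mixed term -/
def St_T2 : Prop := All fun _ _ _ _ _ _ _ _ _ _ _ _ D => ∀ c c' A A', D.Sol c c' A A' →
  |av fun e => av fun w => (1 - D.om e w) * (D.alp A e w * D.bet A' e w)| ≤
    20 * D.K ^ 2 * D.δ * (nA A ^ 2 + nA A' ^ 2)

/-- transfer, W-side term -/
def St_T3 : Prop := All fun _ _ _ _ _ _ _ _ _ _ _ _ D => ∀ c c' A A', D.Sol c c' A A' →
  av (fun e => av fun w => (1 - D.om e w) * (D.bet A' e w ^ 2 + 2 * D.Phi e w * D.bet A' e w)) ≤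
    20 * D.K ^ 2 * D.δ * (nA A' ^ 2 + 1)

def St_CORE : Prop := All fun G W _ _ _ _ _ _ _ _ _ _ D => ∀ KER, D.Raw KER →
  ∃ A A', (∀ u ∈ KER, ∑ w ∈ D.Wa, ∑ j, A' w j * u.2 w j = 0) ∧
    ∑ e, ∑ w ∈ D.Wa, D.del A A' e w ^ 2 ≤ 2500 * D.K ^ 4 / D.k *
      (Fintype.card W * ∑ e, ∑ j, A e j ^ 2 + Fintype.card G * ∑ w ∈ D.Wa, ∑ j, A' w j ^ 2 +
        Fintype.card G * Fintype.card W)

end Pool.Agent.Lib.BK2.Co
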