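import Pool.Agent.Lib.BK2.RDefs

/-! BK2 section R: a centre that is a polynomial in `t`. -/

open Polynomial

noncomputable section

namespace Pool.Agent.Lib.BK2

namespace CEN1

theorem small (f g : ℝ → ℂ) (hf : ContDiff ℝ 1 f) (hg : ContDiff ℝ 1 g) :
    dimH ((fun u => f u / g u) '' {u | g u ≠ 0}) ≤ 1 := by
  refine (dimH_image_le_of_locally_lipschitzOn fun u hu => ?_).trans ?_
  · have h0 : ContDiffAt ℝ 1 (fun u => f u / g u) u := by
      simp only [div_eq_mul_inv]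
      exact hf.contDiffAt.mul ((contDiffAt_inv ℝ hu).comp u hg.contDiffAt)
    obtain ⟨K, t, ht, h⟩ := h0.exists_lipschitzOnWith
    exact ⟨K, t, mem_nhdsWithin_of_mem_nhds ht, h⟩
  · exact (dimH_mono (Set.subset_univ _)).trans Real.dimH_univ.le

theorem pick {ι : Type} [Fintype ι] (f g : ι → ℝ → ℂ) (hf : ∀ l, ContDiff ℝ 1 (f l))
    (hg : ∀ l, ContDiff ℝ 1 (g l)) (R : ℝ) :
    ∃ z : ℂ, |R| + 1 ≤ z.im ∧ ∀ l u, g l u ≠ 0 →
      f l u / g l u ≠ z ∧ f l u / g l u ≠ starRingEnd ℂ z := by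
  have hc : ∀ h : ℝ → ℂ, ContDiff ℝ 1 h → ContDiff ℝ 1 fun u => starRingEnd ℂ (h u) :=
    fun h hh => Complex.conjCLE.contDiff.comp hh
  set S : Set ℂ := ⋃ l, ((fun u => f l u / g l u) '' {u | g l u ≠ 0} ∪
    (fun u => starRingEnd ℂ (f l u) / starRingEnd ℂ (g l u)) '' {u | starRingEnd ℂ (g l u) ≠ 0})
  have h1 : dimH S ≤ 1 := by
    rw [dimH_iUnion]
    refine iSup_le fun l => ?_
    rw [dimH_union]
    exact max_le (small _ _ (hf l) (hg l)) (small _ _ (hc _ (hf l)) (hc _ (hg l)))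
  have h2 : Dense Sᶜ := dense_compl_of_dimH_lt_finrank (h1.trans_lt (by
    rw [Complex.finrank_real_complex]; norm_num))
  obtain ⟨z, hz, hz2⟩ := h2.exists_mem_open
    (isOpen_lt (continuous_const (y := |R| + 1)) Complex.continuous_im)
    ⟨((|R| + 2 : ℝ) : ℂ) * Complex.I, by simp⟩
  refine ⟨z, le_of_lt hz2, fun l u hu => ⟨fun h => hz ?_, fun h => hz ?_⟩⟩
  · exact Set.mem_iUnion.2 ⟨l, Or.inl ⟨u, hu, h⟩⟩
  · refine Set.mem_iUnion.2 ⟨l, Or.inr ⟨u, by simpa using hu, ?_⟩⟩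
    simp only [← map_div₀, h, Complex.conj_conj]

/-- the quadratic with roots `z` and its conjugate, to the power `k` -/
def qq (z : ℂ) (k : ℕ) : ℝ[X] := ((X - C z.re) ^ 2 + C (z.im ^ 2)) ^ k

theorem quad_monic (z : ℂ) : ((X - C z.re) ^ 2 + C (z.im ^ 2) : ℝ[X]).Monic ∧
    ((X - C z.re) ^ 2 + C (z.im ^ 2) : ℝ[X]).natDegree = 2 := by
  have h : ((X - C z.re) ^ 2 : ℝ[X]).natDegree = 2 := by
    rw [natDegree_pow, natDegree_X_sub_C]
  refine ⟨((monic_X_sub_C _).pow 2).add_of_left (degree_lt_degree ?_), ?_⟩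
  · rw [h, natDegree_C]; norm_num
  · rw [natDegree_add_C, h]

theorem qq_monic (z : ℂ) (k : ℕ) : (qq z k).Monic := (quad_monic z).1.pow k

theorem qq_deg (z : ℂ) (k : ℕ) : (qq z k).natDegree = k + k := by
  rw [qq, natDegree_pow, (quad_monic z).2]; ring

theorem qq_aeval (z τ : ℂ) (k : ℕ) :
    aeval τ (qq z k) = ((τ - z) * (τ - starRingEnd ℂ z)) ^ k := by
  have e : (τ - z) * (τ - starRingEnd ℂ z) = (τ - z.re) ^ 2 + (z.im : ℂ) ^ 2 := by
    have h1 : z = z.re + z.im * Complex.I := (Complex.re_add_im z).symm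
    have h2 : starRingEnd ℂ z = z.re - z.im * Complex.I := by
      apply Complex.ext <;> simp
    rw [h2]
    nth_rw 1 [h1]
    linear_combination (-(z.im : ℂ) ^ 2) * Complex.I_sq
  rw [e, qq]
  simp

theorem qq_sum (z τ : ℂ) (k : ℕ) :
    ∑ a ∈ Finset.range (k + k + 1), ((qq z k).coeff a : ℂ) * τ ^ a =
      ((τ - z) * (τ - starRingEnd ℂ z)) ^ k := by
  rw [← qq_aeval, aeval_eq_sum_range, qq_deg]
  simp [Complex.real_smul]

theorem qq_hom (z u v : ℂ) (k : ℕ) (h : u ≠ 0 ∨ v ≠ 0)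
    (h2 : u ≠ 0 → v / u ≠ z ∧ v / u ≠ starRingEnd ℂ z) :
    ∑ a ∈ Finset.range (k + k + 1), ((qq z k).coeff a : ℂ) * (u ^ (k + k - a) * v ^ a) ≠ 0 := by
  by_cases hu : u = 0
  · have hv : v ≠ 0 := h.resolve_left (not_not.2 hu)
    rw [Finset.sum_range_succ, Finset.sum_eq_zero, zero_add]
    · have : (qq z k).coeff (k + k) = 1 := by
        rw [← qq_deg z k]; exact qq_monic z k
      simp [this, hv]
    · intro a ha
      rw [hu, zero_pow (Nat.sub_ne_zero_of_lt (Finset.mem_range.1 ha))]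
      simp
  · have e : ∑ a ∈ Finset.range (k + k + 1), ((qq z k).coeff a : ℂ) * (u ^ (k + k - a) * v ^ a) =
        u ^ (k + k) * ((v / u - z) * (v / u - starRingEnd ℂ z)) ^ k := by
      rw [← qq_sum, Finset.mul_sum]
      refine Finset.sum_congr rfl fun a ha => ?_
      have ha' : a ≤ k + k := Nat.lt_succ_iff.1 (Finset.mem_range.1 ha)
      rw [pow_sub₀ _ hu ha', div_pow]
      field_simp
    rw [e]
    exact mul_ne_zero (pow_ne_zero _ hu)
      (pow_ne_zero _ (mul_ne_zero (sub_ne_zero.2 (h2 hu).1) (sub_ne_zero.2 (h2 hu).2)))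

variable {B : Type} [CommRing B] [Algebra ℤ[X] B] {d : ℕ} [NeZero d] (Γ : Geo B d)

theorem sum0 {M : Type} [AddCommMonoid M] (m : ℕ) (F : Γ.Ix m → M) (G : ℕ → M)
    (h0 : ∀ i : Γ.Ix m, i.1 ≠ 0 → F i = 0) (h1 : ∀ a, F ⟨0, a⟩ = G a) :
    ∑ i, F i = ∑ a ∈ Finset.range (m + 1), G a := by
  rw [Fintype.sum_sigma, Finset.sum_eq_single 0]
  · simp only [h1]
    rw [Fin.sum_univ_eq_sum_range G, Γ.δ0, Nat.sub_zero]
  · exact fun l _ hl => Finset.sum_eq_zero fun a _ => h0 ⟨l, a⟩ hl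
  · simp

/-- the vector of a polynomial in `t` -/
def vec (m : ℕ) (q : ℝ[X]) : Γ.Ix m → ℝ := fun i => if i.1 = 0 then q.coeff i.2 else 0

theorem mon0 {m : ℕ} (a : Fin (m + 1 - Γ.δ 0)) : Γ.mon (⟨0, a⟩ : Γ.Ix m) = Γ.t ^ (a : ℕ) := by
  simp [Geo.mon, Γ.b0]

theorem nrm_vec (m : ℕ) (q : ℝ[X]) (hq : q.natDegree = m) : Γ.nrmR (vec Γ m q) = q ^ d := by
  rw [Geo.nrmR, sum0 Γ m _ fun a => (C (q.coeff a) * X ^ a : ℝ[X]) • (1 : Matrix _ _ ℝ[X])]
  · rw [← Finset.sum_smul, ← hq, ← q.as_sum_range_C_mul_X_pow, Matrix.det_smul]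
    simp
  · intro i hi
    simp [vec, hi]
  · intro a
    rw [mon0, Geo.t, ← map_pow, AlgHom.commutes, mul_smul]
    simp only [vec, if_true]
    congr 1
    ext1 i j
    rw [Matrix.map_apply, Matrix.algebraMap_matrix_apply]
    by_cases h : i = j <;> simp [h]

theorem ev_vec (m : ℕ) (q : ℝ[X]) (ψ : B →+* ℂ) :
    Γ.ev ψ (vec Γ m q) = ∑ a ∈ Finset.range (m + 1), (q.coeff a : ℂ) * ψ Γ.t ^ a := by
  refine sum0 Γ m _ _ (fun i hi => by simp [vec, hi]) fun a => ?_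
  simp [vec, mon0]

variable {Γ} {L : Type} [Field L] [Algebra ℚ L] {n : ℕ} {y : Fin (n + 1) → L}

theorem rep0 (μ : Γ.Model y) {m : ℕ} (hm : μ.m₀ ≤ m) (a : Fin (m + 1 - Γ.δ 0))
    (z : Fin (n + 1) → ℂ) (hz : z ∈ Cone y) :
    MvPolynomial.aeval z (μ.rep m ⟨0, a⟩) =
      (∑ j, (μ.Y₀ j : ℂ) * z j) ^ (m - a) * (∑ j, (μ.Y₁ j : ℂ) * z j) ^ (a : ℕ) := by
  have ha : (a : ℕ) ≤ m := by have := a.2; omega
  have hl : ∀ c : Fin (n + 1) → ℚ,
      (∑ j, MvPolynomial.C (c j) * MvPolynomial.X j :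
        MvPolynomial (Fin (n + 1)) ℚ).IsHomogeneous 1 := fun c =>
    MvPolynomial.IsHomogeneous.sum _ _ _ fun j _ => MvPolynomial.isHomogeneous_C_mul_X _ _
  have h := hz.2 (μ.rep m ⟨0, a⟩ - (∑ j, MvPolynomial.C (μ.Y₀ j) * MvPolynomial.X j) ^ (m - a) *
    (∑ j, MvPolynomial.C (μ.Y₁ j) * MvPolynomial.X j) ^ (a : ℕ)) ⟨⟨m, ?_⟩, ?_⟩
  · simpa [sub_eq_zero] using h
  · refine (μ.hom m hm _).sub ?_
    have := ((hl μ.Y₀).pow (m - a)).mul ((hl μ.Y₁).pow a)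
    rwa [one_mul, one_mul, Nat.sub_add_cancel ha] at this
  · rw [map_sub, μ.hrep m hm, mon0, map_pow]
    simp only [map_mul, map_pow, map_sum, MvPolynomial.aeval_C, MvPolynomial.aeval_X]
    rw [← μ.ht, mul_pow, sub_eq_zero]
    nth_rw 1 [← Nat.sub_add_cancel ha]
    rw [pow_add]
    ring

theorem evC_vec (μ : Γ.Model y) {m : ℕ} (hm : μ.m₀ ≤ m) (q : ℝ[X])
    (z : Fin (n + 1) → ℂ) (hz : z ∈ Cone y) :
    μ.evC (vec Γ m q) z = ∑ a ∈ Finset.range (m + 1), (q.coeff a : ℂ) *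
      ((∑ j, (μ.Y₀ j : ℂ) * z j) ^ (m - a) * (∑ j, (μ.Y₁ j : ℂ) * z j) ^ a) := by
  refine sum0 Γ m _ _ (fun i hi => by simp [vec, hi]) fun a => ?_
  rw [rep0 μ hm a z hz]
  simp [vec]

theorem off_near (μ : Γ.Model y) {m : ℕ} (γ : Loop y) (f : Γ.Ix m → ℝ)
    (h : ∀ u, μ.evC f (γ.pt u) ≠ 0) : ∀ᶠ e in nhds f, ∀ u, μ.evC e (γ.pt u) ≠ 0 := by
  have hc : Continuous fun q : (Γ.Ix m → ℝ) × ℝ => μ.evC q.1 (γ.pt q.2) := by
    refine continuous_finsetSum _ fun i _ => Continuous.mul (by fun_prop) ?_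
    simp only [MvPolynomial.aeval_def, MvPolynomial.eval₂_eq_eval_map]
    exact (MvPolynomial.continuous_eval _).comp (γ.smooth.continuous.comp continuous_snd)
  have h1 := (isCompact_Icc (a := (0 : ℝ)) (b := 1)).eventually_forall_of_forall_eventually
    (x₀ := f) (P := fun e u => μ.evC e (γ.pt u) ≠ 0) fun u _ =>
      hc.continuousAt.eventually_ne (h u)
  refine h1.mono fun e he u => ?_
  obtain ⟨v, hv, e1⟩ := Function.Periodic.exists_mem_Ico₀ (f := γ.pt) γ.closed one_pos u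
  rw [e1]
  exact he v (Set.Ico_subset_Icc_self hv)

theorem ev_near {m : ℕ} (ψ : B →+* ℂ) (R : ℝ) (hb : Γ.Bdd ψ R) (e f : Γ.Ix m → ℝ) :
    ‖Γ.ev ψ e - Γ.ev ψ f‖ ≤ Fintype.card (Γ.Ix m) * (dist e f * (|R| + 1) ^ (m + 1)) := by
  rw [Geo.ev, Geo.ev, ← Finset.sum_sub_distrib, ← nsmul_eq_mul]
  refine (norm_sum_le _ _).trans (Finset.sum_le_card_nsmul _ _ _ fun i _ => ?_)
  have hR : R ≤ |R| + 1 := by linarith [le_abs_self R]
  have h1 : (1 : ℝ) ≤ |R| + 1 := by linarith [abs_nonneg R]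
  have ha : (i.2 : ℕ) ≤ m := by have := i.2.2; omega
  rw [← sub_mul, norm_mul, Geo.mon, map_mul, map_pow, norm_mul, norm_pow, pow_succ]
  refine mul_le_mul ?_ (mul_le_mul ?_ ((hb.2 _).trans hR) (norm_nonneg _) (by positivity))
    (by positivity) dist_nonneg
  · rw [← Complex.ofReal_sub, Complex.norm_real, ← dist_eq_norm]
    exact dist_le_pi_dist e f i
  · exact (pow_le_pow_left₀ (norm_nonneg _) (hb.1.trans hR) _).trans (pow_le_pow_right₀ h1 ha)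

end CEN1

open CEN1 in
theorem stCEN1 : St_CEN1 := by
  intro L _ _ n y B _ _ d _ Γ μ ι _ γ m hm ⟨k, hk⟩ R
  subst hk
  have hs : ∀ (c : Fin (n + 1) → ℚ) l, ContDiff ℝ 1 fun u => ∑ j, (c j : ℂ) * (γ l).pt u j :=
    fun c l => ContDiff.sum fun j _ => contDiff_const.mul (contDiff_pi.1 (γ l).smooth j)
  obtain ⟨z, hz, hz2⟩ := pick _ _ (hs μ.Y₁) (hs μ.Y₀) R
  have hN := nrm_vec Γ (k + k) (qq z k) (qq_deg z k)
  have h1 : ∀ᶠ e in nhds (vec Γ (k + k) (qq z k)), ∀ l u, μ.evC e ((γ l).pt u) ≠ 0 :=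
    Filter.eventually_all.2 fun l => off_near μ (γ l) _ fun u => by
      rw [evC_vec μ hm _ _ ((γ l).mem u)]
      exact qq_hom z _ _ k (μ.nz _ ((γ l).mem u)) (hz2 l u)
  obtain ⟨r, hr, h2⟩ := Metric.eventually_nhds_iff_ball.1 h1
  set A : ℝ := (Fintype.card (Γ.Ix (k + k)) + 1) * (|R| + 1) ^ (k + k + 1) with hA
  have hA0 : 0 < A := by positivity
  refine ⟨vec Γ (k + k) (qq z k), min r A⁻¹, lt_min hr (inv_pos.2 hA0), ?_, ?_, ?_, ?_⟩
  · rw [Geo.lc, hN]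
    have := ((qq_monic z k).pow d).coeff_natDegree
    rw [natDegree_pow, qq_deg, mul_comm] at this
    rw [this]
    exact one_ne_zero
  · intro x
    have hi : 0 < z.im := by linarith [abs_nonneg R]
    rw [hN, qq]
    simp only [eval_pow, eval_add, eval_sub, eval_X, eval_C]
    positivity
  · exact fun e he => h2 e (Metric.ball_subset_ball (min_le_left _ _) he)
  · intro ψ hb e he h0
    have h3 := ev_near ψ R hb e (vec Γ (k + k) (qq z k))
    rw [h0, zero_sub, norm_neg, ev_vec, qq_sum, norm_pow, norm_mul] at h3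
    have hτ : |(ψ Γ.t).im| ≤ |R| :=
      ((Complex.abs_im_le_norm _).trans hb.1).trans (le_abs_self R)
    have h4 : 1 ≤ ‖ψ Γ.t - z‖ := by
      refine le_trans ?_ (Complex.abs_im_le_norm _)
      rw [Complex.sub_im, abs_sub_comm]
      exact le_trans (by linarith [le_abs_self (ψ Γ.t).im]) (le_abs_self _)
    have h5 : 1 ≤ ‖ψ Γ.t - starRingEnd ℂ z‖ := by
      refine le_trans ?_ (Complex.abs_im_le_norm _)
      rw [Complex.sub_im, Complex.conj_im]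
      exact le_trans (by linarith [neg_abs_le (ψ Γ.t).im]) (le_abs_self _)
    have h6 := (one_le_pow₀ (n := k) (one_le_mul_of_one_le_of_one_le h4 h5)).trans h3
    have h7 : dist e (vec Γ (k + k) (qq z k)) * A < 1 := by
      have := (Metric.mem_ball.1 he).trans_le (min_le_right _ _)
      rwa [← one_div, lt_div_iff₀ hA0] at this
    have h8 : 0 ≤ dist e (vec Γ (k + k) (qq z k)) * (|R| + 1) ^ (k + k + 1) := by positivity
    rw [hA] at h7
    nlinarith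

end Pool.Agent.Lib.BK2
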