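import Pool.Agent.Lib.BK2.RDefs0
import Pool.Agent.Lib.BK2.Bas

/-! Density of separable norms; openness of having no real root. -/

open Polynomial

noncomputable section

namespace Pool.Agent.Lib.BK2

namespace CEN2

theorem cont_mul {T : Type} [TopologicalSpace T] {P Q : T → ℝ[X]}
    (hP : ∀ k, Continuous fun e => (P e).coeff k) (hQ : ∀ k, Continuous fun e => (Q e).coeff k)
    (k : ℕ) : Continuous fun e => (P e * Q e).coeff k := by
  simp only [coeff_mul]
  exact continuous_finsetSum _ fun x _ => (hP _).mul (hQ _)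

theorem cont_prod {T I : Type} [TopologicalSpace T] (s : Finset I) {P : I → T → ℝ[X]}
    (hP : ∀ i k, Continuous fun e => (P i e).coeff k) :
    ∀ k, Continuous fun e => (∏ i ∈ s, P i e).coeff k := by
  classical
  induction s using Finset.induction_on with
  | empty => exact fun k => continuous_const
  | insert a s ha ih =>
    simp only [Finset.prod_insert ha]
    exact cont_mul (hP a) ih

/-- no real root and top coefficient non zero is an open condition -/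
theorem ev_ne {T : Type} [TopologicalSpace T] {P : T → ℝ[X]} {N : ℕ}
    (hP : ∀ k, Continuous fun e => (P e).coeff k) (hN : ∀ e, (P e).natDegree ≤ N) {f₀ : T}
    (h0 : (P f₀).coeff N ≠ 0) (h1 : ∀ x : ℝ, (P f₀).eval x ≠ 0) :
    ∀ᶠ e in nhds f₀, ∀ x : ℝ, (P e).eval x ≠ 0 := by
  let G : T → ℝ × ℝ → ℝ := fun e p =>
    ∑ k ∈ Finset.range (N + 1), (P e).coeff k * p.1 ^ k * p.2 ^ (N - k)
  have hG : ∀ e (x v : ℝ), G e (x * v, v) = (P e).eval x * v ^ N := fun e x v => by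
    rw [eval_eq_sum_range' (Nat.lt_succ_of_le (hN e)), Finset.sum_mul]
    refine Finset.sum_congr rfl fun k hk => ?_
    have hk' : k ≤ N := Nat.lt_succ_iff.1 (Finset.mem_range.1 hk)
    rw [mul_pow, ← pow_mul_pow_sub v hk']
    ring
  have hc : Continuous fun z : T × ℝ × ℝ => G z.1 z.2 :=
    continuous_finsetSum _ fun k _ => (((hP k).comp continuous_fst).mul
      (continuous_snd.fst.pow k)).mul (continuous_snd.snd.pow _)
  have key : ∀ᶠ e in nhds f₀, ∀ p ∈ Metric.sphere (0 : ℝ × ℝ) 1, G e p ≠ 0 := by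
    refine (isCompact_sphere _ _).eventually_forall_of_forall_eventually fun p hp => ?_
    refine hc.continuousAt.eventually_ne ?_
    obtain ⟨u, v⟩ := p
    rcases eq_or_ne v 0 with rfl | hv
    · have hu : u ≠ 0 := by
        rintro rfl
        simp at hp
      have : G f₀ (u, 0) = (P f₀).coeff N * u ^ N := by
        refine (Finset.sum_eq_single N (fun k hk hk' => ?_) fun h => (h (by simp)).elim).trans
          (by simp)
        have := Finset.mem_range.1 hk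
        rw [zero_pow (by omega), mul_zero]
      exact this ▸ mul_ne_zero h0 (pow_ne_zero _ hu)
    · have := hG f₀ (u / v) v
      rw [div_mul_cancel₀ _ hv] at this
      exact this ▸ mul_ne_zero (h1 _) (pow_ne_zero _ hv)
  refine key.mono fun e he x hx => ?_
  have hn : ‖((x, 1) : ℝ × ℝ)‖ ≠ 0 := norm_ne_zero_iff.2 fun h => one_ne_zero (Prod.ext_iff.1 h).2
  refine he (x * ‖((x, 1) : ℝ × ℝ)‖⁻¹, ‖((x, 1) : ℝ × ℝ)‖⁻¹) ?_ (by rw [hG, hx, zero_mul])
  have : ((x * ‖((x, 1) : ℝ × ℝ)‖⁻¹, ‖((x, 1) : ℝ × ℝ)‖⁻¹) : ℝ × ℝ) =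
      ‖((x, 1) : ℝ × ℝ)‖⁻¹ • (x, 1) := by
    ext <;> simp [mul_comm]
  rw [this, mem_sphere_zero_iff_norm, norm_smul, norm_inv, norm_norm, inv_mul_cancel₀ hn]

variable {B : Type} [CommRing B] [Algebra ℤ[X] B] {d : ℕ} [NeZero d] (Γ : Geo B d) {m : ℕ}

theorem nrmR_cast (e : Γ.Ix m → ℤ) :
    Γ.nrmR (fun i => (e i : ℝ)) = (Γ.nrm (Γ.el e)).map (Int.castRingHom ℝ) := by
  rw [Geo.nrm, Algebra.norm_eq_matrix_det Γ.b, ← coe_mapRingHom, RingHom.map_det, Geo.nrmR, Geo.el,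
    map_sum, map_sum]
  refine congrArg _ (Finset.sum_congr rfl fun i _ => ?_)
  rw [map_zsmul, map_zsmul]
  ext j k : 2
  simp

theorem nrmR_smul (c : ℝ) (e : Γ.Ix m → ℝ) : Γ.nrmR (c • e) = C (c ^ d) * Γ.nrmR e := by
  simp only [Geo.nrmR, Pi.smul_apply, smul_eq_mul, C_mul, mul_smul, ← Finset.smul_sum,
    Matrix.det_smul, Fintype.card_fin, C_pow]

theorem nrmR_coeff_cont (k : ℕ) : Continuous fun e : Γ.Ix m → ℝ => (Γ.nrmR e).coeff k := by
  simp only [Geo.nrmR, Matrix.det_apply', finsetSum_coeff]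
  refine continuous_finsetSum _ fun σ _ => cont_mul (fun _ => continuous_const)
    (cont_prod _ fun j k => ?_) k
  simp only [Matrix.sum_apply, Matrix.smul_apply, smul_eq_mul, finsetSum_coeff, coeff_C_mul]
  exact continuous_finsetSum _ fun i _ => (continuous_apply i).mul continuous_const

theorem nrmR_natDegree (e : Γ.Ix m → ℝ) : (Γ.nrmR e).natDegree ≤ m * d := by
  rw [Geo.nrmR]
  obtain ⟨A, hA⟩ : ∃ A : Matrix (Fin d) (Fin d) ℝ[X], A = ∑ i, (C (e i) : ℝ[X]) •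
    (Algebra.leftMulMatrix Γ.b (Γ.mon i)).map (Polynomial.map (Int.castRingHom ℝ)) := ⟨_, rfl⟩
  have h : ∀ l j, A l j ≠ 0 → (A l j).natDegree + Γ.δ l ≤ m + Γ.δ j := fun l j h0 => by
    by_contra h1
    refine leadingCoeff_ne_zero.2 h0 ?_
    rw [leadingCoeff]
    generalize (A l j).natDegree = k at h1
    simp only [hA, Matrix.sum_apply, Matrix.smul_apply, smul_eq_mul, finsetSum_coeff, coeff_C_mul,
      Matrix.map_apply, coeff_map, Algebra.leftMulMatrix_eq_repr_mul]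
    refine Finset.sum_eq_zero fun i _ => ?_
    rw [Γ.mem_V.1 (Geo.mul_mem (Γ.mon_mem i) (Γ.b_mem j)) l k (not_le.1 h1), map_zero, mul_zero]
  rw [← hA, Matrix.det_apply]
  refine natDegree_sum_le_of_forall_le _ _ fun σ _ => (natDegree_smul_le _ _).trans ?_
  by_cases h0 : ∃ j, A (σ j) j = 0
  · obtain ⟨j, hj⟩ := h0
    rw [Finset.prod_eq_zero (f := fun i => A (σ i) i) (Finset.mem_univ j) hj, natDegree_zero]
    exact Nat.zero_le _
  · have h1 := Finset.sum_le_sum fun j (_ : j ∈ Finset.univ) => h (σ j) j fun h2 => h0 ⟨j, h2⟩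
    rw [Finset.sum_add_distrib, Finset.sum_add_distrib, Equiv.sum_comp σ Γ.δ] at h1
    refine (natDegree_prod_le _ _).trans ?_
    simpa [mul_comm] using h1

end CEN2

open CEN2 in
theorem stCEN20 : St_CEN20 := by
  intro B _ _ d _ Γ
  refine ⟨fun ⟨m₁, h⟩ => ⟨m₁, fun m hm => Metric.dense_iff.2 fun f ε hε => ?_⟩,
    fun m f₀ h0 h1 => ev_ne (nrmR_coeff_cont Γ) (nrmR_natDegree Γ) h0 h1⟩
  obtain ⟨M, e₀, hM, -, h⟩ := h m hm 1 Nat.one_pos
  have hM' : (0 : ℝ) < M := Nat.cast_pos.2 hM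
  have hH : 0 < M / ε := div_pos hM' hε
  obtain ⟨h1, h2, -⟩ := h (fun i => e₀ i + M * ⌊(M / ε * f i - e₀ i) / M⌋) fun i =>
    (Int.modEq_iff_dvd.2 ⟨_, add_sub_cancel_left _ _⟩).symm
  refine ⟨scl (M / ε) fun i => e₀ i + M * ⌊(M / ε * f i - e₀ i) / M⌋,
    (dist_pi_lt_iff hε).2 fun i => ?_, ?_⟩
  · have h3 := Int.floor_le ((M / ε * f i - e₀ i) / M)
    have h4 := Int.lt_floor_add_one ((M / ε * f i - e₀ i) / M)
    rw [le_div_iff₀ hM'] at h3
    rw [div_lt_iff₀ hM'] at h4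
    rw [scl, Real.dist_eq, div_sub' hH.ne', abs_div, abs_of_pos hH, div_lt_iff₀ hH,
      mul_div_cancel₀ _ hε.ne', abs_lt]
    push_cast
    constructor <;> linarith
  · have h3 : ((M / ε : ℝ)⁻¹) ^ d ≠ 0 := pow_ne_zero _ (inv_ne_zero hH.ne')
    rw [Set.mem_ofPred_eq, scl_eq, nrmR_smul, nrmR_cast, natDegree_C_mul h3,
      natDegree_map_eq_of_injective (Int.castRingHom ℝ).injective_int]
    refine ⟨Separable.unit_mul (isUnit_C.2 h3.isUnit) ?_, h2⟩
    have h4 := h1.separable.map (f := algebraMap ℚ ℝ)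
    rwa [Polynomial.map_map, RingHom.ext_int ((algebraMap ℚ ℝ).comp _) (Int.castRingHom ℝ)] at h4

theorem stCEN2 : St_CEN2 := fun B _ _ d _ Γ =>
  ⟨fun h => (stCEN20 B d Γ).1 h.irr0, (stCEN20 B d Γ).2⟩

end Pool.Agent.Lib.BK2
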