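import Pool.Agent.Lib.BK2.RDefs

noncomputable section

namespace Pool.Agent.Lib.BK2

namespace CHAIN

open MvPolynomial

variable {n : ℕ}

theorem dF_C (a : ℚ) (z v : Fin (n + 1) → ℂ) : dF (C a) z v = 0 := by
  simp [dF]

theorem dF_add (F G : MvPolynomial (Fin (n + 1)) ℚ) (z v : Fin (n + 1) → ℂ) :
    dF (F + G) z v = dF F z v + dF G z v := by
  simp [dF, add_mul, Finset.sum_add_distrib]

theorem dF_mul_X (F : MvPolynomial (Fin (n + 1)) ℚ) (i : Fin (n + 1)) (z v : Fin (n + 1) → ℂ) :
    dF (F * X i) z v = dF F z v * z i + aeval z F * v i := by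
  classical
  have h : ∀ j, aeval z (pderiv j (F * X i)) * v j =
      aeval z (pderiv j F) * v j * z i + (if i = j then aeval z F * v j else 0) := by
    intro j
    rw [Derivation.leibniz, pderiv_X]
    by_cases hij : i = j
    · subst hij
      simp
      ring
    · simp [hij]
      ring
  unfold dF
  rw [Finset.sum_congr rfl fun j _ => h j, Finset.sum_add_distrib, Finset.sum_ite_eq,
    ← Finset.sum_mul]
  simp

theorem main (c : ℝ → Fin (n + 1) → ℂ) (hc : ContDiff ℝ 1 c)
    (F : MvPolynomial (Fin (n + 1)) ℚ) :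
    (ContDiff ℝ 1 fun u => aeval (c u) F) ∧
      ∀ u, HasDerivAt (fun u => aeval (c u) F) (dF F (c u) (deriv c u)) u := by
  have hi : ∀ i, ContDiff ℝ 1 fun u => c u i := fun i => contDiff_pi.1 hc i
  have hd : ∀ i u, HasDerivAt (fun u => c u i) (deriv c u i) u := fun i u =>
    hasDerivAt_pi.1 (hc.differentiable (by simp) u).hasDerivAt i
  induction F using MvPolynomial.induction_on with
  | C a =>
    simp only [aeval_C, dF_C]
    exact ⟨contDiff_const, fun u => hasDerivAt_const _ _⟩
  | add F G hF hG =>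
    simp only [map_add, dF_add]
    exact ⟨hF.1.add hG.1, fun u => (hF.2 u).add (hG.2 u)⟩
  | mul_X F i hF =>
    simp only [map_mul, aeval_X, dF_mul_X]
    exact ⟨hF.1.mul (hi i), fun u => (hF.2 u).mul (hd i u)⟩

end CHAIN

theorem stCHAIN : St_CHAIN := by
  intro L _ _ n y γ
  refine ⟨fun F => CHAIN.main γ.pt γ.smooth F, fun u f hf => ?_⟩
  have h1 := (CHAIN.main γ.pt γ.smooth f).2 u
  have h0 : (fun u => MvPolynomial.aeval (γ.pt u) f) = fun _ => (0 : ℂ) :=
    funext fun u => (γ.mem u).2 f hf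
  rw [h0] at h1
  exact h1.unique (hasDerivAt_const u (0 : ℂ))

end Pool.Agent.Lib.BK2
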