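import Pool.Agent.Lib.BK2.RDefs
import Pool.Agent.Lib.BK2.Bas

/-! Dictionary between the ring `B` and the cone. -/

noncomputable section

namespace Pool.Agent.Lib.BK2

namespace CONE

open MvPolynomial

theorem clear {σ : Type} (F : MvPolynomial σ ℚ) :
    ∃ N : ℤ, N ≠ 0 ∧ ∃ G : MvPolynomial σ ℤ, map (Int.castRingHom ℚ) G = C (N : ℚ) * F := by
  induction F using MvPolynomial.induction_on with
  | C a =>
    refine ⟨a.den, by exact_mod_cast a.den_nz, C a.num, ?_⟩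
    rw [map_C, ← C_mul]
    congr 1
    simp
  | add F F' h h' =>
    obtain ⟨N, hN, G, hG⟩ := h
    obtain ⟨N', hN', G', hG'⟩ := h'
    refine ⟨N * N', mul_ne_zero hN hN', C N' * G + C N * G', ?_⟩
    rw [map_add, map_mul, map_mul, hG, hG', map_C, map_C, Int.cast_mul, C_mul]
    simp only [eq_intCast]
    ring
  | mul_X F j h =>
    obtain ⟨N, hN, G, hG⟩ := h
    refine ⟨N, hN, G * X j, ?_⟩
    rw [map_mul, hG, map_X, mul_assoc]

theorem scale {σ R : Type} [CommRing R] [Algebra ℚ R] {F : MvPolynomial σ ℚ} {k : ℕ}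
    (hF : F.IsHomogeneous k) (r : R) (x : σ → R) :
    aeval (fun j => r * x j) F = r ^ k * aeval x F := by
  rw [aeval_def, aeval_def, eval₂_eq, eval₂_eq, Finset.mul_sum]
  refine Finset.sum_congr rfl fun s hs => ?_
  have h : ∑ i ∈ s.support, s i = k := by
    have h1 := hF (mem_support_iff.1 hs)
    rw [← h1, Finsupp.weight_apply, Finsupp.sum]
    simp
  simp only [mul_pow]
  rw [Finset.prod_mul_distrib, Finset.prod_pow_eq_pow_sum, h]
  ring

theorem dual {n : ℕ} (w : Fin (n + 1) → DualNumber ℂ) (F : MvPolynomial (Fin (n + 1)) ℚ) :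
    (aeval w F).fst = aeval (fun j => (w j).fst) F ∧
      (aeval w F).snd = dF F (fun j => (w j).fst) fun j => (w j).snd := by
  induction F using MvPolynomial.induction_on with
  | C a => simp [dF, TrivSqZeroExt.algebraMap_eq_inl']
  | add F F' h h' => simp [dF, h.1, h.2, h'.1, h'.2, add_mul, Finset.sum_add_distrib]
  | mul_X F j h =>
    refine ⟨by simp [h.1], ?_⟩
    rw [map_mul, DualNumber.snd_mul, h.1, h.2, aeval_X]
    simp only [dF, pderiv_mul, map_add, map_mul, aeval_X, add_mul, Finset.sum_add_distrib]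
    rw [add_comm, Finset.sum_mul]
    congr 1
    · exact Finset.sum_congr rfl fun i _ => by ring
    · rw [Finset.sum_eq_single j]
      · simp
      · intro i _ hi
        simp [pderiv_X_of_ne hi.symm]
      · simp

theorem dF_sub {n : ℕ} (F G : MvPolynomial (Fin (n + 1)) ℚ) (z v : Fin (n + 1) → ℂ) :
    dF (F - G) z v = dF F z v - dF G z v := by
  simp [dF, sub_mul]

theorem dF_sum {n : ℕ} {I : Type} [Fintype I] (q : I → ℚ) (F : I → MvPolynomial (Fin (n + 1)) ℚ)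
    (z v : Fin (n + 1) → ℂ) : dF (∑ i, C (q i) * F i) z v = ∑ i, (q i : ℂ) * dF (F i) z v := by
  simp only [dF, map_sum, pderiv_C_mul, map_mul, aeval_C, eq_ratCast, Finset.sum_mul,
    Finset.mul_sum]
  rw [Finset.sum_comm]
  exact Finset.sum_congr rfl fun i _ => Finset.sum_congr rfl fun j _ => by ring

variable {L : Type} [Field L] [Algebra ℚ L] {n : ℕ} {y : Fin (n + 1) → L}
  {B : Type} [CommRing B] [Algebra (Polynomial ℤ) B] {d : ℕ} [NeZero d] {Γ : Geo B d}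

theorem exists_g (μ : Γ.Model y) {F : MvPolynomial (Fin (n + 1)) ℚ} {k : ℕ}
    (hF : F.IsHomogeneous k) : ∃ N : ℤ, N ≠ 0 ∧ ∃ g ∈ Γ.V k,
      ∀ (R : Type) [CommRing R] [Algebra ℚ R] (ψ : B →+* R),
        (N : R) * aeval (fun j => ψ (μ.η j)) F = ψ g := by
  obtain ⟨N, hN, G, hG⟩ := clear F
  have hGh : G.IsHomogeneous k := by
    refine IsHomogeneous.of_map (f := Int.castRingHom ℚ) (RingHom.injective_int _) ?_
    rw [hG]
    exact hF.C_mul _
  refine ⟨N, hN, aeval μ.η G, ?_, fun R _ _ ψ => ?_⟩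
  · rw [aeval_def, eval₂_eq]
    refine Geo.V_sum fun s hs => ?_
    have h : ∑ i ∈ s.support, s i * 1 = k := by
      have h1 := hGh (mem_support_iff.1 hs)
      rw [← h1, Finsupp.weight_apply, Finsupp.sum]
      simp
    rw [eq_intCast, ← h]
    exact Geo.V_intCast_mul _ (Geo.prod_mem _ fun i _ => Geo.pow_mem (μ.hη i) _)
  · have h1 : aeval (fun j => ψ (μ.η j)) (map (Int.castRingHom ℚ) G) = ψ (aeval μ.η G) := by
      rw [aeval_def, eval₂_map, aeval_def, eval₂_comp_left]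
      congr 1
      exact RingHom.ext_int _ _
    rw [← h1, hG, map_mul, aeval_C]
    simp

theorem y_eq (μ : Γ.Model y) {F : MvPolynomial (Fin (n + 1)) ℚ} {k : ℕ} (hF : F.IsHomogeneous k) :
    (μ.c : L) ^ k * aeval y F =
      (∑ j, algebraMap ℚ L (μ.Y₀ j) * y j) ^ k * aeval (fun j => μ.ι (μ.η j)) F := by
  rw [← scale hF, ← scale hF]
  congr 2
  funext j
  rw [← μ.ιη j, mul_comm]

theorem key (μ : Γ.Model y) {F : MvPolynomial (Fin (n + 1)) ℚ} {k : ℕ} (hF : F.IsHomogeneous k)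
    {g : B} (hg : aeval y F = (∑ j, algebraMap ℚ L (μ.Y₀ j) * y j) ^ k * μ.ι g)
    (R : Type) [CommRing R] [Algebra ℚ R] (ψ : B →+* R) :
    aeval (fun j => algebraMap ℚ R (μ.c : ℚ)⁻¹ * ψ (μ.η j)) F = ψ g := by
  obtain ⟨N, hN, g', -, h⟩ := exists_g μ hF
  have h1 := y_eq μ hF
  rw [hg, mul_left_comm] at h1
  have h2 := mul_left_cancel₀ (pow_ne_zero k μ.ne) h1
  have h3 : g' = (N : B) * ((μ.c : B) ^ k * g) := by
    apply μ.inj
    rw [← h L μ.ι, ← h2]
    simp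
  have h4 := h R ψ
  rw [h3, map_mul, map_intCast] at h4
  have hu : IsUnit (N : R) := by
    have : IsUnit (N : ℚ) := IsUnit.mk0 _ (by exact_mod_cast hN)
    simpa using this.map (algebraMap ℚ R)
  have hc : (μ.c : ℚ) ≠ 0 := by exact_mod_cast μ.hc.ne'
  have h5 : algebraMap ℚ R (μ.c : ℚ)⁻¹ * (μ.c : R) = 1 := by
    rw [← map_natCast (algebraMap ℚ R), ← map_mul, inv_mul_cancel₀ hc, map_one]
  rw [scale hF, hu.mul_left_cancel h4, map_mul, map_pow, map_natCast, ← mul_assoc, ← mul_pow, h5,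
    one_pow, one_mul]

theorem rel (μ : Γ.Model y) {k : ℕ} (hk : μ.m₀ ≤ k) {F : MvPolynomial (Fin (n + 1)) ℚ}
    (hF : F.IsHomogeneous k) {g : B} (hV : g ∈ Γ.V k) (r : ℚ)
    (hg : aeval y F = (∑ j, algebraMap ℚ L (μ.Y₀ j) * y j) ^ k * (algebraMap ℚ L r * μ.ι g)) :
    Eqn y (∑ i, C (r * (Γ.co k g i : ℚ)) * μ.rep k i - F) := by
  refine ⟨⟨k, IsHomogeneous.sub (IsHomogeneous.sum _ _ _ fun i _ => (μ.hom k hk i).C_mul _) hF⟩,
    ?_⟩
  rw [map_sub, hg, sub_eq_zero, map_sum]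
  conv_rhs => rw [← Γ.el_co hV, Geo.el, map_sum, Finset.mul_sum, Finset.mul_sum]
  refine Finset.sum_congr rfl fun i _ => ?_
  rw [map_mul, aeval_C, μ.hrep k hk i, map_mul, map_intCast, zsmul_eq_mul, map_mul, map_intCast]
  ring

/-- The point with values in the dual numbers given by a derivation. -/
def dualHom (φ : B →+* ℂ) (D : B →+ ℂ) (h : IsDer φ D) : B →+* DualNumber ℂ where
  toFun f := TrivSqZeroExt.inl (φ f) + TrivSqZeroExt.inr (D f)
  map_one' := by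
    have h1 := h 1 1
    rw [mul_one, map_one φ, one_mul] at h1
    have h2 : D 1 = 0 := by linear_combination -h1
    simp [h2]
  map_mul' f g := by
    ext
    · simp
    · simp [h f g, mul_comm]
  map_zero' := by simp
  map_add' f g := by
    ext <;> simp

theorem part1 (μ : Γ.Model y) (φ : B →+* ℂ) (D : B →+ ℂ) (h : IsDer φ D) :
    ∃ z ∈ Cone y, ∃ v ∈ Tan y z,
      ∀ m ≥ μ.m₀, ∀ e : Γ.Ix m → ℝ, μ.evC e z = Γ.ev φ e ∧ μ.dC e z v = Γ.dev D e := by
  set w : Fin (n + 1) → DualNumber ℂ :=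
    fun j => algebraMap ℚ (DualNumber ℂ) (μ.c : ℚ)⁻¹ * dualHom φ D h (μ.η j) with hw
  have K : ∀ (F : MvPolynomial (Fin (n + 1)) ℚ) (k : ℕ) (g : B), F.IsHomogeneous k →
      aeval y F = (∑ j, algebraMap ℚ L (μ.Y₀ j) * y j) ^ k * μ.ι g →
      aeval (fun j => (w j).fst) F = φ g ∧
        dF F (fun j => (w j).fst) (fun j => (w j).snd) = D g := by
    intro F k g hF hg
    have h1 := key μ hF hg _ (dualHom φ D h)
    have h2 := dual w F
    rw [← h2.1, ← h2.2, hw, h1]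
    simp [dualHom]
  refine ⟨fun j => (w j).fst, ⟨fun h0 => ?_, fun f hf => ?_⟩, fun j => (w j).snd, fun f hf => ?_,
    fun m hm e => ⟨?_, ?_⟩⟩
  · have h1 := (K (∑ j, C (μ.Y₀ j) * X j) 1 1
      (IsHomogeneous.sum _ _ _ fun j _ => (isHomogeneous_X ℚ j).C_mul _) (by simp)).1
    rw [h0] at h1
    simp at h1
  · obtain ⟨⟨a, ha⟩, h0⟩ := hf
    simpa using (K f a 0 ha (by simp [h0])).1
  · obtain ⟨⟨a, ha⟩, h0⟩ := hf
    simpa [dF] using (K f a 0 ha (by simp [h0])).2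
  · exact Finset.sum_congr rfl fun i _ => by rw [(K _ m _ (μ.hom m hm i) (μ.hrep m hm i)).1]
  · exact Finset.sum_congr rfl fun i _ => by rw [(K _ m _ (μ.hom m hm i) (μ.hrep m hm i)).2]

theorem part2 (μ : Γ.Model y) {k : ℕ} (hk : μ.m₀ ≤ k) (F : MvPolynomial (Fin (n + 1)) ℚ)
    (hF : F.IsHomogeneous k) : ∃ e : Γ.Ix k → ℝ, ∀ z ∈ Cone y, μ.evC e z = aeval z F ∧
      ∀ v ∈ Tan y z, μ.dC e z v = dF F z v := by
  obtain ⟨N, hN, g, hV, h⟩ := exists_g μ hF
  have hc : (μ.c : ℚ) ≠ 0 := by exact_mod_cast μ.hc.ne'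
  have hNq : (N : ℚ) ≠ 0 := by exact_mod_cast hN
  have hcL : (μ.c : L) ≠ 0 := by
    rw [← map_natCast (algebraMap ℚ L)]; exact (map_ne_zero _).2 hc
  have hNL : (N : L) ≠ 0 := by
    rw [← map_intCast (algebraMap ℚ L)]; exact (map_ne_zero _).2 hNq
  have hE := rel μ hk hF hV ((N : ℚ) * (μ.c : ℚ) ^ k)⁻¹ (by
    apply mul_left_cancel₀ (pow_ne_zero k hcL)
    rw [y_eq μ hF, ← h L μ.ι, map_inv₀, map_mul, map_pow, map_intCast, map_natCast]
    field_simp)
  refine ⟨fun i => ((((N : ℚ) * (μ.c : ℚ) ^ k)⁻¹ * (Γ.co k g i : ℚ) : ℚ) : ℝ), fun z hz =>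
    ⟨?_, fun v hv => ?_⟩⟩
  · have h1 := hz.2 _ hE
    rw [map_sub, sub_eq_zero, map_sum] at h1
    rw [← h1]
    refine Finset.sum_congr rfl fun i _ => ?_
    rw [map_mul, aeval_C, eq_ratCast, Complex.ofReal_ratCast]
  · have h1 : dF _ z v = 0 := hv _ hE
    rw [dF_sub, sub_eq_zero, dF_sum] at h1
    rw [← h1]
    refine Finset.sum_congr rfl fun i _ => ?_
    rw [Complex.ofReal_ratCast]

theorem part3 (μ : Γ.Model y) {a a' c : ℕ} (ha : μ.m₀ ≤ a) (ha' : μ.m₀ ≤ a') (hc : a + a' = c)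
    (e : Γ.Ix a → ℝ) (s : Γ.Ix a' → ℝ) (z : Fin (n + 1) → ℂ) (hz : z ∈ Cone y) :
    μ.evC (Γ.mulv c e s) z = μ.evC e z * μ.evC s z := by
  subst hc
  have H : ∀ (i : Γ.Ix a) (j : Γ.Ix a'),
      ∑ k, (Γ.co (a + a') (Γ.mon i * Γ.mon j) k : ℂ) * aeval z (μ.rep (a + a') k) =
        aeval z (μ.rep a i) * aeval z (μ.rep a' j) := by
    intro i j
    have hE := rel μ (ha.trans (Nat.le_add_right a a')) ((μ.hom a ha i).mul (μ.hom a' ha' j))
      (Γ.mon_mul_mem i j) 1 (by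
        rw [map_mul, μ.hrep a ha i, μ.hrep a' ha' j, map_one, map_mul, pow_add]
        ring)
    have h1 := hz.2 _ hE
    rw [map_sub, sub_eq_zero, map_sum, map_mul] at h1
    rw [← h1]
    refine Finset.sum_congr rfl fun k _ => ?_
    rw [map_mul, aeval_C, one_mul, map_intCast]
  simp only [Geo.Model.evC, Geo.mulv]
  rw [Finset.sum_mul_sum]
  simp only [Complex.ofReal_sum, Finset.sum_mul]
  rw [Finset.sum_comm]
  refine Finset.sum_congr rfl fun i _ => ?_
  rw [Finset.sum_comm]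
  refine Finset.sum_congr rfl fun j _ => ?_
  rw [mul_mul_mul_comm, ← H i j, Finset.mul_sum]
  refine Finset.sum_congr rfl fun k _ => ?_
  push_cast
  ring

end CONE

theorem stCONE : St_CONE := fun _ _ _ _ _ _ _ _ _ _ _ μ =>
  ⟨CONE.part1 μ, fun _ hk => CONE.part2 μ hk, fun _ _ _ => CONE.part3 μ⟩

end Pool.Agent.Lib.BK2
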