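import Pool.Agent.Lib.BK2.CleanA

/-! Proof of the abstract cleaning lemma. -/

noncomputable section

namespace Pool.Agent.Lib.BK2.CA

open Finset Classical

theorem cnt_nonneg {A : Type} [Fintype A] (P : A → Prop) : 0 ≤ cnt P :=
  sum_nonneg fun a _ => by split_ifs <;> norm_num

theorem cnt_mono {A : Type} [Fintype A] {P Q : A → Prop} (h : ∀ a, P a → Q a) : cnt P ≤ cnt Q :=
  sum_le_sum fun a _ => by
    by_cases hp : P a
    · simp [hp, h a hp]
    · by_cases hq : Q a <;> simp [hp, hq]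

theorem cnt_or {A : Type} [Fintype A] {P Q R : A → Prop} (h : ∀ a, P a → Q a ∨ R a) :
    cnt P ≤ cnt Q + cnt R := by
  unfold cnt
  rw [← sum_add_distrib]
  refine sum_le_sum fun a _ => ?_
  by_cases hp : P a
  · rcases h a hp with hq | hq
    · by_cases hr : R a <;> simp [hp, hq, hr]
    · by_cases hr : Q a <;> simp [hp, hq, hr]
  · by_cases hq : Q a <;> by_cases hr : R a <;> simp [hp, hq, hr]

/-- Markov -/
theorem cnt_markov {A : Type} [Fintype A] (f : A → ℝ) (hf : ∀ a, 0 ≤ f a) (c : ℝ) :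
    c * cnt (fun a => c < f a) ≤ ∑ a, f a := by
  unfold cnt
  rw [mul_sum]
  refine sum_le_sum fun a _ => ?_
  by_cases h : c < f a
  · simp [h, h.le]
  · simp [h, hf a]

namespace CLD

variable {G W X : Type} [Fintype G] [Fintype W] [Fintype X] {D : CLD G W X}
  {k : ℕ} {ε θ t K K₂ : ℝ}

theorem ite_mono {P Q : Prop} [Decidable P] [Decidable Q] {c : ℝ} (hc : 0 ≤ c)
    (h : c ≠ 0 → P → Q) : (if P then c else 0) ≤ if Q then c else 0 := by
  by_cases h0 : c = 0
  · simp [h0]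
  by_cases hp : P
  · simp [hp, h h0 hp]
  · by_cases hq : Q <;> simp [hp, hq, hc]

theorem ite_or {P Q R : Prop} [Decidable P] [Decidable Q] [Decidable R] {c : ℝ} (hc : 0 ≤ c)
    (h : c ≠ 0 → P → Q ∨ R) :
    (if P then c else 0) ≤ (if Q then c else 0) + if R then c else 0 := by
  by_cases h0 : c = 0
  · simp [h0]
  by_cases hp : P
  · rcases h h0 hp with hq | hq
    · by_cases hr : R <;> simp [hp, hq, hr, hc]
    · by_cases hr : Q <;> simp [hp, hq, hr, hc]
  · by_cases hq : Q <;> by_cases hr : R <;> simp [hp, hq, hr, hc]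

theorem ite_dec {P : Prop} (i j : Decidable P) (a b : ℝ) : @ite _ P i a b = @ite _ P j a b := by
  rw [Subsingleton.elim i j]

theorem ite_nn {P : Prop} [Decidable P] {c : ℝ} (hc : 0 ≤ c) : 0 ≤ if P then c else 0 := by
  split_ifs
  · exact hc
  · exact le_rfl

section basic

variable (h : D.Hyp k ε θ t K K₂)
include h

theorem ms_nn (A : Finset X) (S : X → Prop) : 0 ≤ D.ms A S :=
  sum_nonneg fun x _ => ite_nn (h.mu_pos x).le

theorem ms_mono (A : Finset X) {S S' : X → Prop} (k : ∀ x ∈ A, S x → S' x) :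
    D.ms A S ≤ D.ms A S' := sum_le_sum fun x hx => ite_mono (h.mu_pos x).le fun _ => k x hx

theorem ms_or (A : Finset X) {S S₁ S₂ : X → Prop} (k : ∀ x ∈ A, S x → S₁ x ∨ S₂ x) :
    D.ms A S ≤ D.ms A S₁ + D.ms A S₂ := by
  unfold ms
  rw [← sum_add_distrib]
  exact sum_le_sum fun x hx => ite_or (h.mu_pos x).le fun _ => k x hx

theorem sE_nn (w : W) (P : G → Prop) : 0 ≤ D.sE w P := sum_nonneg fun e _ => ite_nn (h.om_nn e w)

theorem sW_nn (e : G) (P : W → Prop) : 0 ≤ D.sW e P := sum_nonneg fun w _ => ite_nn (h.om_nn e w)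

theorem sE_mono (w : W) {P Q : G → Prop} (k : ∀ e, D.om e w ≠ 0 → P e → Q e) :
    D.sE w P ≤ D.sE w Q := sum_le_sum fun e _ => ite_mono (h.om_nn e w) (k e)

theorem sW_mono (e : G) {P Q : W → Prop} (k : ∀ w, D.om e w ≠ 0 → P w → Q w) :
    D.sW e P ≤ D.sW e Q := sum_le_sum fun w _ => ite_mono (h.om_nn e w) (k w)

theorem sE_or (w : W) {P Q R : G → Prop} (k : ∀ e, D.om e w ≠ 0 → P e → Q e ∨ R e) :
    D.sE w P ≤ D.sE w Q + D.sE w R := by
  unfold sE
  rw [← sum_add_distrib]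
  exact sum_le_sum fun e _ => ite_or (h.om_nn e w) (k e)

theorem sW_or (e : G) {P Q R : W → Prop} (k : ∀ w, D.om e w ≠ 0 → P w → Q w ∨ R w) :
    D.sW e P ≤ D.sW e Q + D.sW e R := by
  unfold sW
  rw [← sum_add_distrib]
  exact sum_le_sum fun w _ => ite_or (h.om_nn e w) (k w)

/-- union bound over the points -/
theorem ite_le_sum {P : Prop} [Decidable P] (A : Finset X) (Q : X → Prop) {c : ℝ} (hc : 0 ≤ c)
    (k : c ≠ 0 → P → ∃ x ∈ A, Q x) : (if P then c else 0) ≤ ∑ x ∈ A, if Q x then c else 0 := by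
  by_cases h0 : c = 0
  · simp [h0]
  by_cases hp : P
  · obtain ⟨x, hx, hq⟩ := k h0 hp
    have := single_le_sum (f := fun x => if Q x then c else 0) (fun x _ => ite_nn hc) hx
    simpa [hp, hq] using this
  · rw [if_neg hp]
    exact sum_nonneg fun x _ => ite_nn hc

theorem sW_le_sum (e : G) (A : Finset X) {P : W → Prop} (Q : X → W → Prop)
    (k : ∀ w, D.om e w ≠ 0 → P w → ∃ x ∈ A, Q x w) : D.sW e P ≤ ∑ x ∈ A, D.sW e (Q x) := by
  unfold sW
  rw [sum_comm]
  exact sum_le_sum fun w _ => ite_le_sum h A (fun x => Q x w) (h.om_nn e w) (k w)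

theorem sE_le_sum (w : W) (A : Finset X) {P : G → Prop} (Q : X → G → Prop)
    (k : ∀ e, D.om e w ≠ 0 → P e → ∃ x ∈ A, Q x e) : D.sE w P ≤ ∑ x ∈ A, D.sE w (Q x) := by
  unfold sE
  rw [sum_comm]
  exact sum_le_sum fun e _ => ite_le_sum h A (fun x => Q x e) (h.om_nn e w) (k e)

theorem z_ne (e : G) (w : W) (k0 : D.om e w ≠ 0) : ∃ x, x ∈ D.Z e w :=
  card_pos.1 (by rw [h.z_card e w k0]; exact h.k_pos)

/-- double counting of the flags of a pair -/
theorem sum_sW (e : G) (P : W → Prop) :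
    ∑ x ∈ D.Maj e, D.sW e (fun w => x ∈ D.Z e w ∧ P w) ≤ k * D.sW e P := by
  unfold sW
  rw [sum_comm, mul_sum]
  refine sum_le_sum fun w _ => ?_
  by_cases h0 : D.om e w = 0
  · simp [h0]
  by_cases hp : P w
  · simp only [hp, and_true, if_true]
    rw [← sum_filter, sum_const, nsmul_eq_mul, ← h.z_card e w h0]
    refine mul_le_mul_of_nonneg_right (Nat.cast_le.2 (card_le_card fun x hx => ?_)) (h.om_nn e w)
    exact (mem_filter.1 hx).2
  · simp [hp]

theorem sum_swap (P : G → W → Prop) :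
    ∑ e, D.sW e (fun w => P e w) = ∑ w, D.sE w fun e => P e w := by
  unfold sW sE
  rw [sum_comm]

end basic

/-! ### The state -/

variable (D k ε θ)

/-- dead flags on the right -/
def SW (s : (X → Prop) × (W → X → Prop)) (w : W) (x : X) : Prop := D.badF w x ∨ s.2 w x

/-- weight at the bad flags -/
def nb (w : W) : ℝ := ∑ x ∈ D.inc w, if D.badF w x then D.sE w (fun e => x ∈ D.Z e w) else 0

def Wd (s : (X → Prop) × (W → X → Prop)) (w : W) : Prop :=
  D.badW w ∨ ε * Fintype.card G < D.nb w ∨ ε < D.ms (D.inc w) fun x => D.SW s w x ∨ s.1 x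

def PD (s : (X → Prop) × (W → X → Prop)) (e : G) (w : W) : Prop :=
  D.Wd ε s w ∨ ∃ x' ∈ D.Z e w, D.SW s w x'

def SE0 (s : (X → Prop) × (W → X → Prop)) (e : G) (x : X) : Prop :=
  ε * k * D.mu x * Fintype.card W < D.sW e fun w => x ∈ D.Z e w ∧ D.PD ε s e w

def Ed (s : (X → Prop) × (W → X → Prop)) (e : G) : Prop :=
  ε < D.ms (D.Maj e) fun x => D.SE0 k ε s e x ∨ s.1 x

def SE (s : (X → Prop) × (W → X → Prop)) (e : G) (x : X) : Prop := D.SE0 k ε s e x ∨ D.Ed k ε s e

def fr (σ : G → X → Prop) (x : X) : ℝ := D.pp x * cnt fun e => x ∈ D.Maj e ∧ σ e x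

/-- justified states -/
structure Just (s : (X → Prop) × (W → X → Prop)) : Prop where
  pt : ∀ x, s.1 x → ε * Fintype.card G < D.fr (D.SE k ε s) x
  fl : ∀ x, ∃ σ : G → X → Prop, (∀ e x', σ e x' → D.SE k ε s e x') ∧
    D.fr σ x ≤ ε * Fintype.card G ∧ (∀ e, x ∈ D.Maj e → D.ms (D.Maj e) (σ e) ≤ ε ∨ σ e x) ∧
    ∀ w, s.2 w x → x ∈ D.inc w ∧ θ * D.mu x * Fintype.card G < D.lE w x σ
  cap : (∑ x, if s.1 x then D.mu x / D.pp x else 0) ≤ ε / 2

variable {D k ε θ}

section mono

variable (h : D.Hyp k ε θ t K K₂) {s s' : (X → Prop) × (W → X → Prop)} (hs : s ≤ s')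
include h hs

theorem Wd_mono (w : W) (a : D.Wd ε s w) : D.Wd ε s' w :=
  a.imp_right (Or.imp_right fun a => a.trans_le (ms_mono h _ fun x _ b =>
    b.imp (Or.imp_right (hs.2 w x)) (hs.1 x)))

theorem SE0_mono (e : G) (x : X) (a : D.SE0 k ε s e x) : D.SE0 k ε s' e x :=
  a.trans_le (sW_mono h e fun w _ b => ⟨b.1, b.2.imp (Wd_mono h hs w)
    fun ⟨x', c, d⟩ => ⟨x', c, d.imp_right (hs.2 w x')⟩⟩)

theorem SE_mono (e : G) (x : X) (a : D.SE k ε s e x) : D.SE k ε s' e x :=
  a.imp (SE0_mono h hs e x) fun a => a.trans_le (ms_mono h _ fun x _ b =>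
    b.imp (SE0_mono h hs e x) (hs.1 x))

end mono

theorem fr_mono (h : D.Hyp k ε θ t K K₂) {σ σ' : G → X → Prop} (a : ∀ e x, σ e x → σ' e x)
    (x : X) : D.fr σ x ≤ D.fr σ' x :=
  mul_le_mul_of_nonneg_left (cnt_mono fun e b => ⟨b.1, a e x b.2⟩) (h.pp_pos x).le

theorem lE_mono (h : D.Hyp k ε θ t K K₂) {σ σ' : G → X → Prop} (a : ∀ e x, σ e x → σ' e x)
    (w : W) (x : X) : D.lE w x σ ≤ D.lE w x σ' :=
  sE_mono h w fun e _ b => ⟨b.1, b.2.imp fun x' c => ⟨c.1, a e x' c.2⟩⟩

theorem just_bot (h : D.Hyp k ε θ t K K₂) : D.Just k ε θ ⊥ where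
  pt := fun _ a => a.elim
  fl := fun x => ⟨fun _ _ => False, fun _ _ a => a.elim, by
      have := h.ε_pos
      simp only [fr, cnt, and_false, if_false, sum_const_zero, mul_zero]
      positivity,
    fun e _ => .inl (by simpa [ms] using h.ε_pos.le), fun _ a => a.elim⟩
  cap := by
    have := h.ε_pos
    have e : ∀ x : X, ¬ (⊥ : (X → Prop) × (W → X → Prop)).1 x := fun _ a => a
    simp only [e, if_false, sum_const_zero]
    positivity

/-! ### Masses -/

section mass

variable [Nonempty G] [Nonempty W] (h : D.Hyp k ε θ t K K₂)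
include h

omit [Nonempty G] [Nonempty W] in
theorem ms_swapW (S : W → X → Prop) :
    ∑ w, D.ms (D.inc w) (S w) = ∑ x, D.mu x * cnt fun w => x ∈ D.inc w ∧ S w x := by
  unfold ms cnt
  simp only [mul_sum]
  rw [sum_comm]
  refine sum_congr rfl fun w _ => ?_
  rw [← sum_subset (subset_univ (D.inc w)) fun x _ hx => by simp [hx]]
  exact sum_congr rfl fun x hx => by by_cases a : S w x <;> simp [hx, a]

omit [Nonempty G] [Nonempty W] in
theorem ms_swapE (S : G → X → Prop) :
    ∑ e, D.ms (D.Maj e) (S e) = ∑ x, D.mu x * cnt fun e => x ∈ D.Maj e ∧ S e x := by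
  unfold ms cnt
  simp only [mul_sum]
  rw [sum_comm]
  refine sum_congr rfl fun w _ => ?_
  rw [← sum_subset (subset_univ (D.Maj w)) fun x _ hx => by simp [hx]]
  exact sum_congr rfl fun x hx => by by_cases a : S w x <;> simp [hx, a]

omit [Nonempty W] in
theorem flags_cs (S : W → X → Prop) {τ : ℝ} (hτ : 0 < τ) :
    (∑ w, ∑ x ∈ D.inc w, if S w x then D.sE w (fun e => x ∈ D.Z e w) else 0) ≤
      τ * K ^ 2 * Fintype.card G * Fintype.card W +
        Fintype.card G / τ * ∑ w, D.ms (D.inc w) (S w) := by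
  have ha : (0 : ℝ) < Fintype.card G := Nat.cast_pos.2 Fintype.card_pos
  set a : ℝ := (Fintype.card G : ℝ)
  have key : ∀ w x, (if S w x then D.sE w (fun e => x ∈ D.Z e w) else 0) ≤
      τ / a * (D.sE w (fun e => x ∈ D.Z e w) ^ 2 / D.mu x) +
        a / τ * if S w x then D.mu x else 0 := fun w x => by
    have hm := h.mu_pos x
    set n := D.sE w (fun e => x ∈ D.Z e w)
    split_ifs
    · have e : τ / a * (n ^ 2 / D.mu x) + a / τ * D.mu x - n =
          ((τ * n - a * D.mu x / 2) ^ 2 + 3 / 4 * (a * D.mu x) ^ 2) / (τ * a * D.mu x) := by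
        field_simp
        ring
      have : 0 ≤ ((τ * n - a * D.mu x / 2) ^ 2 + 3 / 4 * (a * D.mu x) ^ 2) / (τ * a * D.mu x) := by
        positivity
      linarith
    · positivity
  calc _ ≤ ∑ w, ∑ x ∈ D.inc w, (τ / a * (D.sE w (fun e => x ∈ D.Z e w) ^ 2 / D.mu x) +
        a / τ * if S w x then D.mu x else 0) := sum_le_sum fun w _ => sum_le_sum fun x _ => key w x
    _ = τ / a * (∑ w, ∑ x ∈ D.inc w, D.sE w (fun e => x ∈ D.Z e w) ^ 2 / D.mu x) +
        a / τ * ∑ w, D.ms (D.inc w) (S w) := by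
      simp only [sum_add_distrib, mul_sum, ms]
    _ ≤ τ / a * (K ^ 2 * a ^ 2 * Fintype.card W) + a / τ * ∑ w, D.ms (D.inc w) (S w) := by
      have := mul_le_mul_of_nonneg_left h.l2_1 (div_pos hτ ha).le
      linarith
    _ = _ := by field_simp

omit [Nonempty W] in
theorem curves_cs (P : W → Prop) {τ : ℝ} (hτ : 0 < τ) :
    (∑ w, if P w then D.sE w (fun _ => True) else 0) ≤
      τ * K ^ 2 * Fintype.card G * Fintype.card W + Fintype.card G / τ * cnt P := by
  have ha : (0 : ℝ) < Fintype.card G := Nat.cast_pos.2 Fintype.card_pos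
  set a : ℝ := (Fintype.card G : ℝ)
  have key : ∀ w, (if P w then D.sE w (fun _ => True) else 0) ≤
      τ / a * D.sE w (fun _ => True) ^ 2 + a / τ * if P w then 1 else 0 := fun w => by
    set n := D.sE w (fun _ => True)
    split_ifs
    · have e : τ / a * n ^ 2 + a / τ * 1 - n =
          ((τ * n - a / 2) ^ 2 + 3 / 4 * a ^ 2) / (τ * a) := by
        field_simp
        ring
      have : 0 ≤ ((τ * n - a / 2) ^ 2 + 3 / 4 * a ^ 2) / (τ * a) := by positivity
      linarith
    · positivity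
  calc _ ≤ ∑ w, (τ / a * D.sE w (fun _ => True) ^ 2 + a / τ * if P w then 1 else 0) :=
        sum_le_sum fun w _ => key w
    _ = τ / a * (∑ w, D.sE w (fun _ => True) ^ 2) + a / τ * cnt P := by
      simp only [sum_add_distrib, mul_sum, cnt]
    _ ≤ τ / a * (K ^ 2 * a ^ 2 * Fintype.card W) + a / τ * cnt P := by
      have := mul_le_mul_of_nonneg_left h.l2_0 (div_pos hτ ha).le
      linarith
    _ = _ := by field_simp

omit [Nonempty G] [Nonempty W] in
theorem t_le : t ≤ K ^ 2 * t ∧ K ^ 2 * t ≤ 1 / 600 ∧ 600 * (K ^ 2 * t) ≤ ε ^ 3 := by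
  have h1 := h.small
  have h2 : 1 ≤ K ^ 2 := one_le_pow₀ h.K_ge
  have h3 : ε ^ 5 ≤ ε ^ 3 := pow_le_pow_of_le_one h.ε_pos.le h.ε_le (by norm_num)
  have h4 : ε ^ 3 ≤ 1 := pow_le_one₀ h.ε_pos.le h.ε_le
  have := h.t_pos
  refine ⟨by nlinarith, by linarith, by linarith⟩

variable {s : (X → Prop) × (W → X → Prop)} (j : D.Just k ε θ s)
include j

omit [Nonempty G] [Nonempty W] in
theorem mass1 : ∑ w, D.ms (D.inc w) (D.SW s w) ≤ 2 * t ^ 4 * Fintype.card W := by
  have h1 : ∑ w, D.ms (D.inc w) (s.2 w) ≤ t ^ 4 * Fintype.card W := by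
    rw [ms_swapW h]
    have hb : 0 ≤ t ^ 4 * (Fintype.card W : ℝ) := by positivity
    calc _ ≤ ∑ x, D.mu x / D.pp x * (t ^ 4 * Fintype.card W) := sum_le_sum fun x _ => by
          obtain ⟨σ, -, h2, h3, h4⟩ := j.fl x
          have h5 := h.gain x σ h2 h3
          have h6 : cnt (fun w => x ∈ D.inc w ∧ s.2 w x) ≤ _ := cnt_mono fun w a => h4 w a.2
          have hp := h.pp_pos x
          have h7 := (mul_le_mul_of_nonneg_left h6 hp.le).trans h5
          have h8 := mul_le_mul_of_nonneg_left h7 (div_pos (h.mu_pos x) hp).le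
          rw [← mul_assoc, div_mul_cancel₀ _ hp.ne'] at h8
          exact h8
      _ ≤ _ := by
          rw [← sum_mul]
          exact mul_le_of_le_one_left hb h.mb_sum
  have h2 : ∑ w, D.ms (D.inc w) (D.SW s w) ≤
      ∑ w, (D.ms (D.inc w) (D.badF w) + D.ms (D.inc w) (s.2 w)) :=
    sum_le_sum fun w _ => ms_or h _ fun x _ a => a
  rw [sum_add_distrib] at h2
  linarith [h.bad1]

omit [Nonempty W] in
theorem mass2 : ε * cnt (D.Wd ε s) ≤ 12 * (K ^ 2 * t) * t * Fintype.card W := by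
  have ha : (0 : ℝ) < Fintype.card G := Nat.cast_pos.2 Fintype.card_pos
  have hb : (0 : ℝ) ≤ Fintype.card W := Nat.cast_nonneg _
  have ht := h.t_pos
  have hε := h.ε_pos
  obtain ⟨t1, t2, -⟩ := t_le h
  have h1 := flags_cs h D.badF (τ := t ^ 2) (by positivity)
  have h2 : (Fintype.card G : ℝ) / t ^ 2 * ∑ w, D.ms (D.inc w) (D.badF w) ≤
      t ^ 2 * Fintype.card G * Fintype.card W :=
    (mul_le_mul_of_nonneg_left h.bad1 (by positivity)).trans_eq (by field_simp)
  have h3 := cnt_markov D.nb (fun w => sum_nonneg fun x _ => ite_nn (sE_nn h _ _))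
    (ε * Fintype.card G)
  have h4 : ε * cnt (fun w => ε * Fintype.card G < D.nb w) ≤
      (t ^ 2 * K ^ 2 + t ^ 2) * Fintype.card W := by
    refine le_of_mul_le_mul_left ?_ ha
    have : ∑ w, D.nb w ≤ _ := h1
    nlinarith
  have h5 := cnt_markov (fun w => D.ms (D.inc w) (D.SW s w)) (fun w => ms_nn h _ _) (ε / 4)
  have h6 := mass1 h j
  have h7 := h.smW s.1 j.cap
  have h8 : cnt (D.Wd ε s) ≤ cnt D.badW + (cnt (fun w => ε * Fintype.card G < D.nb w) +
      (cnt (fun w => ε / 4 < D.ms (D.inc w) (D.SW s w)) +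
        cnt fun w => 3 * ε / 4 < D.ms (D.inc w) s.1)) := by
    refine (cnt_or (R := fun w => ε * Fintype.card G < D.nb w ∨
      ε < D.ms (D.inc w) fun x => D.SW s w x ∨ s.1 x) fun w a => a).trans ?_
    gcongr
    refine (cnt_or fun w a => a).trans ?_
    gcongr
    refine cnt_or fun w a => ?_
    have := ms_or h (D.inc w) (S := fun x => D.SW s w x ∨ s.1 x) fun x _ a => a
    by_contra hc
    push Not at hc
    linarith [hc.1, hc.2]
  have h9 := h.bad0
  have e1 : t ^ 4 ≤ K ^ 2 * t * t := by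
    have : t ^ 2 ≤ 1 := pow_le_one₀ ht.le (by linarith)
    nlinarith [mul_pos ht ht]
  have e2 : t ^ 2 ≤ K ^ 2 * t * t := by nlinarith
  have e3 : t ^ 4 * Fintype.card W ≤ K ^ 2 * t * t * Fintype.card W := by gcongr
  have e4 : t ^ 2 * Fintype.card W ≤ K ^ 2 * t * t * Fintype.card W := by gcongr
  have e5 : ε * cnt D.badW ≤ cnt D.badW := mul_le_of_le_one_left (cnt_nonneg _) h.ε_le
  have e6 : ε * cnt (fun w => 3 * ε / 4 < D.ms (D.inc w) s.1) ≤ _ :=
    mul_le_of_le_one_left (cnt_nonneg _) h.ε_le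
  have h10 := mul_le_mul_of_nonneg_left h8 hε.le
  nlinarith

omit [Nonempty W] in
theorem mass_pairs : ε * ∑ e, D.sW e (D.PD ε s e) ≤
    16 * (K ^ 2 * t) * Fintype.card G * Fintype.card W := by
  have ha : (0 : ℝ) < Fintype.card G := Nat.cast_pos.2 Fintype.card_pos
  have hb : (0 : ℝ) ≤ Fintype.card W := Nat.cast_nonneg _
  have ht := h.t_pos
  have hε := h.ε_pos
  obtain ⟨t1, t2, -⟩ := t_le h
  have h1 : ∑ e, D.sW e (D.PD ε s e) ≤ (∑ w, if D.Wd ε s w then D.sE w (fun _ => True) else 0) +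
      ∑ w, ∑ x ∈ D.inc w, if D.SW s w x then D.sE w (fun e => x ∈ D.Z e w) else 0 := by
    rw [show ∑ e, D.sW e (D.PD ε s e) = _ from sum_swap h (D.PD ε s), ← sum_add_distrib]
    refine sum_le_sum fun w _ => ?_
    by_cases a : D.Wd ε s w
    · rw [if_pos a]
      exact le_add_of_le_of_nonneg (sE_mono h w fun _ _ _ => trivial)
        (sum_nonneg fun x _ => ite_nn (sE_nn h _ _))
    · rw [if_neg a, zero_add]
      refine (sE_le_sum h w (D.inc w) (fun x e => x ∈ D.Z e w ∧ D.SW s w x)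
        fun e k0 b => ?_).trans (sum_le_sum fun x _ => ?_)
      · obtain ⟨x, c, d⟩ := b.resolve_left a
        exact ⟨x, h.z_inc e w k0 c, c, d⟩
      · by_cases c : D.SW s w x
        · simp [c]
        · simp [c, sE]
  have h2 := curves_cs h (D.Wd ε s) ht
  have h3 := flags_cs h (D.SW s) ht
  have h4 : ε * ((Fintype.card G : ℝ) / t * cnt (D.Wd ε s)) ≤
      12 * (K ^ 2 * t) * Fintype.card G * Fintype.card W := by
    have := mul_le_mul_of_nonneg_left (mass2 h j) (div_pos ha ht).le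
    calc _ = Fintype.card G / t * (ε * cnt (D.Wd ε s)) := by ring
      _ ≤ _ := this
      _ = _ := by field_simp
  have h5 : (Fintype.card G : ℝ) / t * ∑ w, D.ms (D.inc w) (D.SW s w) ≤
      2 * (K ^ 2 * t) * Fintype.card G * Fintype.card W := by
    refine (mul_le_mul_of_nonneg_left (mass1 h j) (div_pos ha ht).le).trans ?_
    have e : (Fintype.card G : ℝ) / t * (2 * t ^ 4 * Fintype.card W) =
        2 * t ^ 3 * Fintype.card G * Fintype.card W := by field_simp
    have : t ^ 3 ≤ K ^ 2 * t := by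
      have : t ^ 2 ≤ 1 := pow_le_one₀ ht.le (by linarith)
      nlinarith
    rw [e]
    gcongr
  have hq : 0 ≤ K ^ 2 * t * Fintype.card G * Fintype.card W := by positivity
  have h6 : ε * (K ^ 2 * t * Fintype.card G * Fintype.card W) ≤ _ :=
    mul_le_of_le_one_left hq h.ε_le
  have h7 := mul_le_mul_of_nonneg_left (h1.trans (add_le_add h2 (h3.trans
    (add_le_add le_rfl h5)))) hε.le
  nlinarith

theorem mass3 : ε ^ 2 * ∑ e, D.ms (D.Maj e) (D.SE0 k ε s e) ≤
    16 * (K ^ 2 * t) * Fintype.card G := by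
  have hb : (0 : ℝ) < Fintype.card W := Nat.cast_pos.2 Fintype.card_pos
  have hk : (0 : ℝ) < k := Nat.cast_pos.2 h.k_pos
  have hε := h.ε_pos
  have h1 : ε * k * Fintype.card W * ∑ e, D.ms (D.Maj e) (D.SE0 k ε s e) ≤
      k * ∑ e, D.sW e (D.PD ε s e) := by
    rw [mul_sum, mul_sum]
    refine sum_le_sum fun e _ => le_trans ?_ (sum_sW h e _)
    rw [ms, mul_sum]
    refine sum_le_sum fun x _ => ?_
    by_cases a : D.SE0 k ε s e x
    · rw [if_pos a]
      exact le_trans (le_of_eq (by ring)) (le_of_lt a)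
    · rw [if_neg a, mul_zero]
      exact sW_nn h _ _
  have h2 := mass_pairs h j
  refine le_of_mul_le_mul_left ?_ (mul_pos hk hb)
  have h3 := mul_le_mul_of_nonneg_left h1 hε.le
  have h4 := mul_le_mul_of_nonneg_left h2 hk.le
  nlinarith

theorem mass4 : ε ^ 3 * cnt (D.Ed k ε s) ≤ 65 * (K ^ 2 * t) * Fintype.card G := by
  have ha : (0 : ℝ) ≤ Fintype.card G := Nat.cast_nonneg _
  have ht := h.t_pos
  have hε := h.ε_pos
  obtain ⟨t1, t2, -⟩ := t_le h
  have h1 := mass3 h j
  have h5 := cnt_markov (fun e => D.ms (D.Maj e) (D.SE0 k ε s e)) (fun w => ms_nn h _ _) (ε / 4)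
  have h7 := h.smE s.1 j.cap
  have h8 : cnt (D.Ed k ε s) ≤ cnt (fun e => ε / 4 < D.ms (D.Maj e) (D.SE0 k ε s e)) +
      cnt fun e => 3 * ε / 4 < D.ms (D.Maj e) s.1 := by
    refine cnt_or fun e a => ?_
    have := ms_or h (D.Maj e) (S := fun x => D.SE0 k ε s e x ∨ s.1 x) fun x _ a => a
    have a' : ε < _ := a
    by_contra hc
    push Not at hc
    linarith [hc.1, hc.2]
  have e1 : t ^ 4 ≤ K ^ 2 * t := by
    have : t ^ 3 ≤ 1 := pow_le_one₀ ht.le (by linarith)
    nlinarith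
  have e3 : t ^ 4 * Fintype.card G ≤ K ^ 2 * t * Fintype.card G := by gcongr
  have e6 : ε ^ 3 * cnt (fun e => 3 * ε / 4 < D.ms (D.Maj e) s.1) ≤ _ :=
    mul_le_of_le_one_left (cnt_nonneg _) (pow_le_one₀ hε.le h.ε_le)
  have h10 := mul_le_mul_of_nonneg_left h8 (pow_pos hε 3).le
  have h11 := mul_le_mul_of_nonneg_left h5 (pow_pos hε 2).le
  nlinarith

theorem mass5 : (∑ x, if s.1 x then D.mu x / D.pp x else 0) ≤ ε / 4 := by
  have ha : (0 : ℝ) < Fintype.card G := Nat.cast_pos.2 Fintype.card_pos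
  have hε := h.ε_pos
  have h1 : ε * Fintype.card G * (∑ x, if s.1 x then D.mu x / D.pp x else 0) ≤
      ∑ e, D.ms (D.Maj e) (D.SE k ε s e) := by
    rw [ms_swapE h, mul_sum]
    refine sum_le_sum fun x _ => ?_
    have hp := h.pp_pos x
    by_cases a : s.1 x
    · rw [if_pos a]
      have := mul_le_mul_of_nonneg_left (j.pt x a).le (div_pos (h.mu_pos x) hp).le
      rw [fr, ← mul_assoc _ (D.pp x), div_mul_cancel₀ _ hp.ne'] at this
      linarith
    · rw [if_neg a, mul_zero]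
      exact mul_nonneg (h.mu_pos x).le (cnt_nonneg _)
  have h2 : ∑ e, D.ms (D.Maj e) (D.SE k ε s e) ≤
      ∑ e, D.ms (D.Maj e) (D.SE0 k ε s e) + 2 * cnt (D.Ed k ε s) := by
    rw [cnt, mul_sum, ← sum_add_distrib]
    refine sum_le_sum fun e _ => (ms_or h _ (S₂ := fun _ => D.Ed k ε s e) fun x _ a => a).trans ?_
    gcongr
    by_cases a : D.Ed k ε s e
    · simpa [ms, a] using h.maj_le e
    · simp [ms, a]
  have h3 := mass3 h j
  have h4 := mass4 h j
  have h5 : ε ^ 3 * ∑ e, D.ms (D.Maj e) (D.SE0 k ε s e) ≤ 16 * (K ^ 2 * t) * Fintype.card G := by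
    refine le_trans ?_ h3
    exact mul_le_mul_of_nonneg_right (pow_le_pow_of_le_one hε.le h.ε_le (by norm_num))
      (sum_nonneg fun e _ => ms_nn h _ _)
  have h6 := mul_le_mul_of_nonneg_left (h1.trans h2) (pow_pos hε 3).le
  have h7 := mul_le_mul_of_nonneg_right h.small ha.le
  have h8 : 0 ≤ K ^ 2 * t * Fintype.card G := by
    have := h.t_pos
    positivity
  refine le_of_mul_le_mul_left ?_ (mul_pos (pow_pos hε 4) ha)
  nlinarith

end mass

/-! ### A maximal justified state is closed -/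

section closed

variable [Nonempty G] [Nonempty W] (h : D.Hyp k ε θ t K K₂) {s : (X → Prop) × (W → X → Prop)}
  (m : Maximal (D.Just k ε θ) s)
include h m

theorem closed_pt (x : X) (a : ¬ s.1 x) : D.fr (D.SE k ε s) x ≤ ε * Fintype.card G := by
  by_contra hc
  push Not at hc
  let s' : (X → Prop) × (W → X → Prop) := (fun y => s.1 y ∨ y = x, s.2)
  have hs : s ≤ s' := ⟨fun y b => .inl b, le_rfl⟩
  have j : D.Just k ε θ s' := by
    refine ⟨fun y b => ?_, fun y => ?_, ?_⟩
    · refine lt_of_lt_of_le ?_ (fr_mono h (SE_mono h hs) y)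
      rcases b with b | rfl
      · exact m.prop.pt y b
      · exact hc
    · obtain ⟨σ, h1, h2⟩ := m.prop.fl y
      exact ⟨σ, fun e x' b => SE_mono h hs e x' (h1 e x' b), h2⟩
    · have h1 := mass5 h m.prop
      have h2 : (∑ y, if s'.1 y then D.mu y / D.pp y else 0) ≤
          ∑ y, ((if s.1 y then D.mu y / D.pp y else 0) + if y = x then D.mu y / D.pp y else 0) :=
        sum_le_sum fun y _ => ite_or (div_pos (h.mu_pos y) (h.pp_pos y)).le fun _ b => b
      rw [sum_add_distrib, sum_ite_eq' univ x, if_pos (mem_univ x)] at h2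
      refine le_trans (le_of_eq (sum_congr rfl fun y _ => ite_dec _ _ _ _)) (h2.trans ?_)
      linarith [h.mb_le x]
  exact a ((m.le_of_ge j hs).1 x (.inr rfl))

theorem closed_fl (w : W) (x : X) (a : ¬ s.1 x) (b : ¬ s.2 w x) (c : x ∈ D.inc w) :
    D.lE w x (D.SE k ε s) ≤ θ * D.mu x * Fintype.card G := by
  by_contra hc
  push Not at hc
  let s' : (X → Prop) × (W → X → Prop) := (s.1, fun v y => s.2 v y ∨ v = w ∧ y = x)
  have hs : s ≤ s' := ⟨le_rfl, fun v y b => .inl b⟩
  have j : D.Just k ε θ s' := by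
    refine ⟨fun y b => (m.prop.pt y b).trans_le (fr_mono h (SE_mono h hs) y), fun y => ?_,
      m.prop.cap⟩
    obtain ⟨σ, h1, h2, h3, h4⟩ := m.prop.fl y
    by_cases e : y = x
    · subst e
      refine ⟨D.SE k ε s, SE_mono h hs, closed_pt h m y a, fun e _ => ?_, fun v d => ?_⟩
      · by_cases d : D.Ed k ε s e
        · exact .inr (.inr d)
        · exact .inl ((ms_mono h _ fun x _ f => .inl (f.resolve_right d)).trans (not_lt.1 d))
      · rcases d with d | ⟨rfl, -⟩
        · exact ⟨(h4 v d).1, (h4 v d).2.trans_le (lE_mono h h1 v y)⟩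
        · exact ⟨c, hc⟩
    · exact ⟨σ, fun e x' b => SE_mono h hs e x' (h1 e x' b), h2, h3,
        fun v d => h4 v (d.resolve_right fun f => e f.2)⟩
  exact b ((m.le_of_ge j hs).2 w x (.inr ⟨rfl, rfl⟩))

theorem out : D.Out ε (θ + (k + K₂) * ε) (fun e => ¬ D.Ed k ε s e) (fun w => ¬ D.Wd ε s w)
    (fun e x => x ∈ D.Maj e ∧ ¬ D.SE k ε s e x ∧ ¬ s.1 x)
    (fun w x => ¬ D.Wd ε s w ∧ x ∈ D.inc w ∧ ¬ D.SW s w x ∧ ¬ s.1 x) := by
  have ha : (0 : ℝ) < Fintype.card G := Nat.cast_pos.2 Fintype.card_pos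
  have hb : (0 : ℝ) < Fintype.card W := Nat.cast_pos.2 Fintype.card_pos
  have hε := h.ε_pos
  have hθ := h.θ_nn
  have hK := h.K₂_nn
  have hk : (1 : ℝ) ≤ k := Nat.one_le_cast.2 h.k_pos
  set aE := fun e => ¬ D.Ed k ε s e
  set aW := fun w => ¬ D.Wd ε s w
  set fE := fun e x => x ∈ D.Maj e ∧ ¬ D.SE k ε s e x ∧ ¬ s.1 x
  set fW := fun w x => ¬ D.Wd ε s w ∧ x ∈ D.inc w ∧ ¬ D.SW s w x ∧ ¬ s.1 x
  set L := θ + (k + K₂) * ε with hL
  have L0 : ε + K₂ * ε ≤ L := by nlinarith
  have L1 : 0 ≤ L := by positivity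
  have mE : ∀ e, aE e → D.ms (D.Maj e) (fun x => ¬ fE e x) ≤ ε := fun e a =>
    (ms_mono h _ fun x c d => by
      by_contra f
      push Not at f
      exact d ⟨c, fun g => g.elim f.1 a, f.2⟩).trans (not_lt.1 a)
  have mW' : ∀ w, aW w → D.ms (D.inc w) (fun x => D.SW s w x ∨ s.1 x) ≤ ε := fun w a =>
    not_lt.1 fun b => a (.inr (.inr b))
  have mW : ∀ w, aW w → D.ms (D.inc w) (fun x => ¬ fW w x) ≤ ε := fun w a =>
    (ms_mono h _ fun x c d => by
      by_contra f
      push Not at f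
      exact d ⟨a, c, f.1, f.2⟩).trans (mW' w a)
  have gW : ∀ w, aW w → ¬ D.badW w := fun w a b => a (.inl b)
  have lE1 : ∀ e x, fE e x →
      D.sW e (fun w => x ∈ D.Z e w ∧ ¬ D.Al aE aW fE fW e w) ≤ L * D.mu x * Fintype.card W := by
    intro e x a
    have a0 : aE e := fun b => a.2.1 (.inr b)
    have hm := h.mu_pos x
    have h1 : D.sW e (fun w => x ∈ D.Z e w ∧ D.PD ε s e w) ≤ ε * k * D.mu x * Fintype.card W :=
      not_lt.1 fun b => a.2.1 (.inl b)
    have h2 : D.sW e (fun w => x ∈ D.Z e w ∧ ∃ x' ∈ D.Z e w, ¬ fE e x') ≤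
        K₂ * D.mu x * Fintype.card W * ε := by
      refine (sW_le_sum h e (D.Maj e) (fun x' w => ¬ fE e x' ∧ x ∈ D.Z e w ∧ x' ∈ D.Z e w)
        fun w k0 b => ?_).trans (le_trans ?_ (mul_le_mul_of_nonneg_left (mE e a0) (by positivity)))
      · obtain ⟨x', c, d⟩ := b.2
        exact ⟨x', h.z_maj e w k0 c, d, b.1, c⟩
      · rw [ms, mul_sum]
        refine sum_le_sum fun x' c => ?_
        by_cases d : fE e x'
        · simp [d, sW]
        · simp only [d, not_false_eq_true, true_and, if_true]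
          exact (h.em2 e x a.1 x' c fun f => d (f ▸ a)).trans_eq (by ring)
    refine (sW_or h e fun w k0 b => ?_).trans ((add_le_add h1 h2).trans ?_)
    · by_contra c
      push Not at c
      have c1 := c.1 b.1
      have c2 := c.2 b.1
      exact b.2 ⟨a0, fun d => c1 (.inl d), fun x' d => ⟨c2 x' d, fun f => c1 (.inl f),
        h.z_inc e w k0 d, fun f => c1 (.inr ⟨x', d, f⟩), (c2 x' d).2.2⟩⟩
    · have : 0 ≤ θ * D.mu x * Fintype.card W := by positivity
      rw [hL]
      nlinarith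
  have lW1 : ∀ w x, fW w x →
      D.sE w (fun e => x ∈ D.Z e w ∧ ¬ D.Al aE aW fE fW e w) ≤ L * D.mu x * Fintype.card G := by
    intro w x a
    have hm := h.mu_pos x
    have h1 := closed_fl h m w x a.2.2.2 (fun b => a.2.2.1 (.inr b)) a.2.1
    have h2 := h.wm2 w (gW w a.1) x a.2.1 (fun b => a.2.2.1 (.inl b))
      (fun x => D.SW s w x ∨ s.1 x) (fun b => b.elim a.2.2.1 a.2.2.2) (mW' w a.1)
    refine (sE_or h w fun e k0 b => ?_).trans ((add_le_add h1 h2).trans ?_)
    · by_contra c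
      push Not at c
      have c1 := c.1 b.1
      have c2 := c.2 b.1
      exact b.2 ⟨fun d => c1 x b.1 (.inr d), a.1, fun x' d =>
        ⟨⟨h.z_maj e w k0 d, c1 x' d, (c2 x' d).2⟩, a.1, h.z_inc e w k0 d, c2 x' d⟩⟩
    · have : 0 ≤ k * ε * D.mu x * Fintype.card G := by positivity
      rw [hL]
      nlinarith
  refine ⟨gW, fun e x a => ⟨fun b => a.2.1 (.inr b), a.1⟩,
    fun w x a => ⟨a.1, a.2.1, fun b => a.2.2.1 (.inl b)⟩, lE1, lW1, fun e a => ?_, fun w a => ?_,
    mE, mW, ?_, ?_⟩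
  · refine (sW_le_sum h e (D.Maj e) (fun x w => x ∈ D.Z e w ∧ ¬ D.Al aE aW fE fW e w)
      fun w k0 b => ?_).trans ?_
    · obtain ⟨x, c⟩ := z_ne h e w k0
      exact ⟨x, h.z_maj e w k0 c, c, b⟩
    calc _ ≤ ∑ x ∈ D.Maj e, (L * Fintype.card W * D.mu x +
          K₂ * Fintype.card W * if ¬ fE e x then D.mu x else 0) := sum_le_sum fun x c => by
          have hm := h.mu_pos x
          by_cases d : fE e x
          · rw [if_neg (not_not.2 d)]
            exact (lE1 e x d).trans_eq (by ring)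
          · rw [if_pos d]
            have := (sW_mono h e fun w _ (b : x ∈ D.Z e w ∧ ¬ D.Al aE aW fE fW e w) =>
              b.1).trans (h.em1 e x c)
            have : 0 ≤ L * Fintype.card W * D.mu x := by positivity
            linarith
      _ ≤ L * Fintype.card W * 2 + K₂ * Fintype.card W * ε := by
          rw [sum_add_distrib, ← mul_sum, ← mul_sum]
          exact add_le_add (mul_le_mul_of_nonneg_left (h.maj_le e) (by positivity))
            (mul_le_mul_of_nonneg_left ((le_of_eq (sum_congr rfl fun y _ =>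
              ite_dec _ _ _ _)).trans (mE e a)) (by positivity))
      _ ≤ _ := by nlinarith
  · refine (sE_le_sum h w (D.inc w) (fun x e => x ∈ D.Z e w ∧ ¬ D.Al aE aW fE fW e w)
      fun e k0 b => ?_).trans ?_
    · obtain ⟨x, c⟩ := z_ne h e w k0
      exact ⟨x, h.z_inc e w k0 c, c, b⟩
    calc _ ≤ ∑ x ∈ D.inc w, (L * Fintype.card G * D.mu x +
          (K₂ * Fintype.card G * if ¬ fW w x then D.mu x else 0) +
          if D.badF w x then D.sE w (fun e => x ∈ D.Z e w) else 0) := sum_le_sum fun x c => by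
          have hm := h.mu_pos x
          have h0 : 0 ≤ L * Fintype.card G * D.mu x := by positivity
          have h1 := sE_mono h w fun e _ (b : x ∈ D.Z e w ∧ ¬ D.Al aE aW fE fW e w) => b.1
          by_cases d : fW w x
          · rw [if_neg (not_not.2 d), if_neg fun b => d.2.2.1 (.inl b)]
            exact (lW1 w x d).trans_eq (by ring)
          · rw [if_pos d]
            by_cases f : D.badF w x
            · rw [if_pos f]
              have : 0 ≤ K₂ * Fintype.card G * D.mu x := by positivity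
              linarith
            · rw [if_neg f]
              have := h.wm1 w (gW w a) x c f
              linarith
      _ ≤ L * Fintype.card G * 2 + K₂ * Fintype.card G * ε + ε * Fintype.card G := by
          rw [sum_add_distrib, sum_add_distrib, ← mul_sum, ← mul_sum]
          exact add_le_add (add_le_add
            (mul_le_mul_of_nonneg_left (h.inc_le w (gW w a)) (by positivity))
            (mul_le_mul_of_nonneg_left ((le_of_eq (sum_congr rfl fun y _ =>
              ite_dec _ _ _ _)).trans (mW w a)) (by positivity)))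
            (not_lt.1 fun b => a (.inr (.inl b)))
      _ ≤ _ := by nlinarith
  · have h1 := mass4 h m.prop
    have h2 := mul_le_mul_of_nonneg_right h.small ha.le
    have h3 : ε ^ 5 ≤ ε ^ 4 := pow_le_pow_of_le_one hε.le h.ε_le (by norm_num)
    have h4 := mul_le_mul_of_nonneg_right h3 ha.le
    have h5 : 0 ≤ K ^ 2 * t * Fintype.card G := by
      have := h.t_pos
      positivity
    refine (cnt_mono fun e a => not_not.1 a).trans (le_of_mul_le_mul_left ?_ (pow_pos hε 3))
    nlinarith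
  · have h1 := mass2 h m.prop
    obtain ⟨t1, t2, t3⟩ := t_le h
    have ht := h.t_pos
    have h3 : ε ^ 3 ≤ ε ^ 2 := pow_le_pow_of_le_one hε.le h.ε_le (by norm_num)
    have h4 : 12 * (K ^ 2 * t) * t ≤ ε ^ 2 := by nlinarith
    have h5 := mul_le_mul_of_nonneg_right h4 hb.le
    refine (cnt_mono fun e a => not_not.1 a).trans (le_of_mul_le_mul_left ?_ hε)
    nlinarith

end closed

end CLD

theorem stCleanA : St_CleanA := by
  intro G W X _ _ _ _ _ D k ε θ t K K₂ h
  obtain ⟨s, m⟩ := (Set.toFinite {s | D.Just k ε θ s}).exists_maximal ⟨⊥, CLD.just_bot h⟩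
  exact ⟨_, _, _, _, CLD.out h m⟩

end Pool.Agent.Lib.BK2.CA
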