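import Mathlib

namespace Pool.Agent.Lib.BK2.WM

open Finset

noncomputable section
open Classical

/-- mean of `N` over the cell of `w` inside `T` -/
def cmean {TW TC : Type} (T : Finset TW) (cell : TW → TC) (N : TW → ℝ) (w : TW) : ℝ :=
  (∑ v ∈ T.filter (fun v => cell v = cell w), N v) / (T.filter (fun v => cell v = cell w)).card

theorem sum_sub_cmean {TW TC : Type} (T : Finset TW) (cell : TW → TC) (N : TW → ℝ) (c : TC) :
    ∑ w ∈ T.filter (fun v => cell v = c), (N w - cmean T cell N w) = 0 := by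
  rcases (T.filter (fun v => cell v = c)).eq_empty_or_nonempty with h | h
  · rw [h]; simp
  · have h1 : ∀ w ∈ T.filter (fun v => cell v = c), cmean T cell N w =
        (∑ v ∈ T.filter (fun v => cell v = c), N v) / (T.filter (fun v => cell v = c)).card := by
      intro w hw
      have := (mem_filter.1 hw).2
      unfold cmean
      rw [this]
    rw [sum_sub_distrib, sum_congr rfl h1, sum_const, nsmul_eq_mul]
    have : ((T.filter (fun v => cell v = c)).card : ℝ) ≠ 0 := by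
      exact_mod_cast (card_pos.2 h).ne'
    field_simp
    ring

theorem sum_mul_cellfun {TW TC : Type} (T : Finset TW) (cell : TW → TC) (f : TW → ℝ)
    (hf : ∀ c, ∑ w ∈ T.filter (fun v => cell v = c), f w = 0) (g : TW → ℝ)
    (hg : ∀ v w, cell v = cell w → g v = g w) : ∑ w ∈ T, f w * g w = 0 := by
  rw [← sum_fiberwise_of_maps_to (g := cell) (t := T.image cell)
    (fun w hw => mem_image_of_mem _ hw)]
  refine sum_eq_zero fun c hc => ?_
  obtain ⟨w0, -, rfl⟩ := mem_image.1 hc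
  have : ∀ w ∈ T.filter (fun v => cell v = cell w0), f w * g w = f w * g w0 := by
    intro w hw
    rw [hg w w0 (mem_filter.1 hw).2]
  rw [sum_congr rfl this, ← sum_mul, hf, zero_mul]

theorem dv_core {TW TC : Type} (T : Finset TW) (cell : TW → TC) (N : TW → ℝ) (A : ℝ) (hA : 0 ≤ A)
    (h : ∀ f : TW → ℝ, (∀ w, f w ≠ 0 → w ∈ T) →
      (∀ c, ∑ w ∈ T.filter (fun v => cell v = c), f w = 0) →
      (∑ w ∈ T, f w * N w) ^ 2 ≤ A * ∑ w ∈ T, f w ^ 2) :
    ∑ w ∈ T, (N w - cmean T cell N w) ^ 2 ≤ A := by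
  set f : TW → ℝ := fun w => if w ∈ T then N w - cmean T cell N w else 0 with hf
  have hfT : ∀ w ∈ T, f w = N w - cmean T cell N w := fun w hw => by simp [hf, hw]
  have h0 : ∀ c, ∑ w ∈ T.filter (fun v => cell v = c), f w = 0 := by
    intro c
    rw [sum_congr rfl fun w hw => hfT w (mem_filter.1 hw).1]
    exact sum_sub_cmean T cell N c
  have h1 := h f (fun w hw => by by_contra hn; simp [hf, hn] at hw) h0
  have h2 : ∑ w ∈ T, f w * cmean T cell N w = 0 :=
    sum_mul_cellfun T cell f h0 _ (fun v w hvw => by unfold cmean; rw [hvw])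
  have h3 : ∑ w ∈ T, f w * N w = ∑ w ∈ T, f w ^ 2 := by
    have : ∑ w ∈ T, f w ^ 2 = ∑ w ∈ T, (f w * N w - f w * cmean T cell N w) :=
      sum_congr rfl fun w hw => by rw [sq]; nth_rewrite 2 [hfT w hw]; ring
    rw [this, sum_sub_distrib, h2, sub_zero]
  have h4 : ∑ w ∈ T, (N w - cmean T cell N w) ^ 2 = ∑ w ∈ T, f w ^ 2 :=
    sum_congr rfl fun w hw => by rw [hfT w hw]
  rw [h3] at h1
  rw [h4]
  have h5 : 0 ≤ ∑ w ∈ T, f w ^ 2 := sum_nonneg fun _ _ => sq_nonneg _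
  by_contra hc
  push Not at hc
  nlinarith

/-- weighted Markov inequality -/
theorem markov {I : Type} (S : Finset I) (P : I → Prop) (w f : I → ℝ) (t : ℝ) (ht : 0 < t)
    (hf : ∀ i ∈ S, 0 ≤ f i) (hP : ∀ i ∈ S, P i → t * w i ≤ f i) :
    ∑ i ∈ S.filter P, w i ≤ (∑ i ∈ S, f i) / t := by
  rw [le_div_iff₀ ht, sum_mul]
  calc ∑ i ∈ S.filter P, w i * t ≤ ∑ i ∈ S.filter P, f i :=
        sum_le_sum fun i hi => by
          rw [mul_comm]; exact hP i (mem_filter.1 hi).1 (mem_filter.1 hi).2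
    _ ≤ ∑ i ∈ S, f i :=
        sum_le_sum_of_subset_of_nonneg (filter_subset _ _) fun i hi _ => hf i hi

theorem markov_card {I : Type} (S : Finset I) (P : I → Prop) (f : I → ℝ) (t : ℝ) (ht : 0 < t)
    (hf : ∀ i ∈ S, 0 ≤ f i) (hP : ∀ i ∈ S, P i → t ≤ f i) :
    ((S.filter P).card : ℝ) ≤ (∑ i ∈ S, f i) / t := by
  have := markov S P (fun _ => 1) f t ht hf (fun i hi h => by simpa using hP i hi h)
  simpa using this

/-- dual form of the second moment bound -/
theorem dual_sm {TE TX : Type} (Om A : Finset TE) (S : Finset TX) (inc : TE → TX → Prop)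
    (mu q : TX → ℝ) (et : ℝ) (hA : A ⊆ Om) (hOm : Om.Nonempty) (het : 0 ≤ et)
    (hmu : ∀ x ∈ S, 0 ≤ mu x) (hq : ∀ x ∈ S, 0 < q x)
    (h : ∀ g : TX → ℝ, ∑ e ∈ Om, (∑ x ∈ S.filter (inc e), g x * mu x -
      ∑ x ∈ S, g x * (mu x / q x)) ^ 2 ≤ et * Om.card * ∑ x ∈ S, g x ^ 2 * (mu x / q x)) :
    ∑ x ∈ S, (q x * (A.filter fun e => inc e x).card - A.card) ^ 2 * (mu x / q x) ≤
      et * Om.card * A.card := by
  set g : TX → ℝ := fun x => q x * (A.filter fun e => inc e x).card - A.card with hg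
  set Q : ℝ := ∑ x ∈ S, g x ^ 2 * (mu x / q x) with hQ
  have hQ0 : 0 ≤ Q := sum_nonneg fun x hx =>
    mul_nonneg (sq_nonneg _) (div_nonneg (hmu x hx) (hq x hx).le)
  set D : TE → ℝ := fun e => ∑ x ∈ S.filter (inc e), g x * mu x - ∑ x ∈ S, g x * (mu x / q x)
    with hD
  have h1 : ∑ e ∈ A, D e = Q := by
    have e1 : ∑ e ∈ A, ∑ x ∈ S.filter (inc e), g x * mu x =
        ∑ x ∈ S, g x * mu x * (A.filter fun e => inc e x).card := by
      simp_rw [sum_filter]
      rw [sum_comm]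
      refine sum_congr rfl fun x _ => ?_
      rw [← sum_filter, sum_const, nsmul_eq_mul, mul_comm]
    simp only [hD]
    rw [sum_sub_distrib, e1, sum_const, nsmul_eq_mul, mul_sum, ← sum_sub_distrib]
    refine sum_congr rfl fun x hx => ?_
    have := (hq x hx).ne'
    simp only [hg]
    field_simp
  have h2 : (∑ e ∈ A, D e) ^ 2 ≤ A.card * ∑ e ∈ A, D e ^ 2 := sq_sum_le_card_mul_sum_sq
  have h3 : ∑ e ∈ A, D e ^ 2 ≤ ∑ e ∈ Om, D e ^ 2 :=
    sum_le_sum_of_subset_of_nonneg hA fun _ _ _ => sq_nonneg _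
  have h4 := h g
  rw [← hQ] at h4
  have h5 : (0 : ℝ) ≤ A.card := Nat.cast_nonneg _
  have h6 : Q ^ 2 ≤ A.card * (et * Om.card * Q) := by
    rw [← h1]
    refine h2.trans (mul_le_mul_of_nonneg_left (h3.trans ?_) h5)
    rw [h1]; exact h4
  have h7 : (0 : ℝ) ≤ et * Om.card * A.card := by positivity
  by_contra hc
  push Not at hc
  nlinarith

theorem abs_le_sq_div (y t : ℝ) (ht : 0 < t) : |y| ≤ t + y ^ 2 / t := by
  have h : 0 ≤ (|y| - t) ^ 2 := sq_nonneg _
  have h2 : |y| ^ 2 = y ^ 2 := sq_abs y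
  have h3 : 0 ≤ |y| := abs_nonneg y
  rw [← sub_nonneg]
  have : t + y ^ 2 / t - |y| = (t ^ 2 + y ^ 2 - t * |y|) / t := by field_simp
  rw [this]
  apply div_nonneg _ ht.le
  nlinarith

end

end Pool.Agent.Lib.BK2.WM
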