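import Pool.Agent.Lib.BK2.CleanDefs
import Pool.Agent.Lib.BK2.WM0

set_option linter.unusedSectionVars false

namespace Pool.Agent.Lib.BK2.Cl

open Finset

noncomputable section
open Classical

def m0 {I : Type} [Fintype I] (om : I → ℝ) (P : I → Prop) : ℝ := ∑ i, if P i then om i else 0

section gen
variable {I : Type} [Fintype I] {om : I → ℝ}

theorem m0_nn (h : ∀ i, 0 ≤ om i) (P : I → Prop) : 0 ≤ m0 om P :=
  sum_nonneg fun i _ => by split_ifs; exacts [h i, le_rfl]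

theorem m0_mono (h : ∀ i, 0 ≤ om i) {P Q : I → Prop} (hPQ : ∀ i, om i ≠ 0 → P i → Q i) :
    m0 om P ≤ m0 om Q := by
  refine sum_le_sum fun i _ => ?_
  by_cases h0 : om i = 0
  · simp [h0]
  by_cases hP : P i
  · simp [hP, hPQ i h0 hP]
  · simp only [hP, if_false]; split_ifs; exacts [h i, le_rfl]

theorem m0_or (h : ∀ i, 0 ≤ om i) {P Q R : I → Prop} (hPQ : ∀ i, om i ≠ 0 → P i → Q i ∨ R i) :
    m0 om P ≤ m0 om Q + m0 om R := by
  unfold m0
  rw [← sum_add_distrib]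
  refine sum_le_sum fun i _ => ?_
  have := h i
  by_cases h0 : om i = 0
  · simp [h0]
  by_cases hP : P i
  · rcases hPQ i h0 hP with h1 | h1
    · simp only [hP, h1, if_true]; split_ifs <;> linarith
    · simp only [hP, h1, if_true]; split_ifs <;> linarith
  · simp only [hP, if_false]; split_ifs <;> linarith

theorem m0_ex (h : ∀ i, 0 ≤ om i) {X : Type} (S : Finset X) (P : X → I → Prop) :
    m0 om (fun i => ∃ x ∈ S, P x i) ≤ ∑ x ∈ S, m0 om (P x) := by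
  unfold m0
  rw [sum_comm]
  refine sum_le_sum fun i _ => ?_
  have hn : ∀ x ∈ S, 0 ≤ (if P x i then om i else 0) := fun x _ => by
    split_ifs; exacts [h i, le_rfl]
  split_ifs with hP
  · obtain ⟨x, hx, hxP⟩ := hP
    have := single_le_sum hn hx
    simpa [hxP] using this
  · exact sum_nonneg hn

theorem m0_count {X : Type} (Z : I → Finset X) (S : Finset X) (k : ℕ) (P : I → Prop)
    (hZ : ∀ i, om i ≠ 0 → P i → Z i ⊆ S ∧ (Z i).card = k) :
    ∑ x ∈ S, m0 om (fun i => x ∈ Z i ∧ P i) = k * m0 om P := by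
  unfold m0
  rw [sum_comm, mul_sum]
  refine sum_congr rfl fun i _ => ?_
  by_cases h0 : om i = 0
  · simp [h0]
  by_cases hP : P i
  · obtain ⟨h1, h2⟩ := hZ i h0 hP
    simp only [hP, and_true, if_true]
    rw [← sum_filter, filter_mem_eq_inter, inter_eq_right.2 h1, sum_const, h2, nsmul_eq_mul]
  · simp [hP]

end gen

variable {G W X : Type} [Fintype G] [Fintype W] [Fintype X]

theorem mE_eq (D : Dat G W X) (e : G) (P : W → Prop) :
    D.mE e P = m0 (D.om e) P / Fintype.card W := rfl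

theorem mW_eq (D : Dat G W X) (w : W) (P : G → Prop) :
    D.mW w P = m0 (fun e => D.om e w) P / Fintype.card G := rfl

theorem mem_sec {A : Type} (S : Finset (A × X)) (a : A) (x : X) : x ∈ sec S a ↔ (a, x) ∈ S := by
  simp [sec]

theorem sum_sec {A : Type} [Fintype A] (S : Finset (A × X)) (g : A → X → ℝ) :
    ∑ f ∈ S, g f.1 f.2 = ∑ a, ∑ x ∈ sec S a, g a x := by
  have : ∑ f ∈ S, g f.1 f.2 = ∑ f : A × X, if f ∈ S then g f.1 f.2 else 0 := by
    rw [← sum_filter, filter_mem_eq_inter, univ_inter]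
  rw [this, Fintype.sum_prod_type]
  refine sum_congr rfl fun a _ => ?_
  unfold sec
  rw [sum_filter]

theorem sum_sec2 {A : Type} [Fintype A] (S : Finset (A × X)) (g : X → ℝ) :
    ∑ f ∈ S, g f.2 = ∑ x, g x * ((univ.filter fun a => (a, x) ∈ S).card : ℝ) := by
  have : ∑ f ∈ S, g f.2 = ∑ f : A × X, if f ∈ S then g f.2 else 0 := by
    rw [← sum_filter, filter_mem_eq_inter, univ_inter]
  rw [this, Fintype.sum_prod_type, sum_comm]
  refine sum_congr rfl fun x _ => ?_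
  rw [← sum_filter]
  dsimp only
  rw [sum_const, nsmul_eq_mul, mul_comm]

theorem swap_mass [Nonempty G] [Nonempty W] (D : Dat G W X) (P : G → W → Prop) :
    (∑ e, D.mE e (P e)) * Fintype.card W = (∑ w, D.mW w (fun e => P e w)) * Fintype.card G := by
  have hG : (Fintype.card G : ℝ) ≠ 0 := by exact_mod_cast Fintype.card_ne_zero
  have hW : (Fintype.card W : ℝ) ≠ 0 := by exact_mod_cast Fintype.card_ne_zero
  unfold Dat.mE Dat.mW
  rw [← sum_div, ← sum_div, div_mul_cancel₀ _ hW, div_mul_cancel₀ _ hG, sum_comm]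

theorem amgm (N m t : ℝ) (hm : 0 < m) (ht : 0 < t) : N ≤ t * (N ^ 2 / m) + m / t := by
  have : t * (N ^ 2 / m) + m / t - N = ((t * N - m) ^ 2 + t * N * m) / (m * t) := by
    field_simp; ring
  by_cases hN : N ≤ 0
  · have : 0 ≤ t * (N ^ 2 / m) + m / t := by positivity
    linarith
  · push Not at hN
    rw [← sub_nonneg, this]
    positivity

section hyp
variable {D : Dat G W X} {K : ℝ} {k : ℕ} {ep ta : ℝ}

theorem Hyp.ms_nn (h : Hyp D K k ep ta) (S : Finset X) : 0 ≤ D.ms S :=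
  sum_nonneg fun x _ => (h.mu_pos x).le

theorem Hyp.ms_mono (h : Hyp D K k ep ta) {S T : Finset X} (hST : S ⊆ T) : D.ms S ≤ D.ms T :=
  sum_le_sum_of_subset_of_nonneg hST fun x _ _ => (h.mu_pos x).le

theorem Hyp.ms_union (h : Hyp D K k ep ta) (S T : Finset X) :
    D.ms (S ∪ T) ≤ D.ms S + D.ms T := by
  unfold Dat.ms
  rw [← sum_union_inter]
  have := h.ms_nn (S ∩ T)
  unfold Dat.ms at this
  linarith

theorem Hyp.ms_split (h : Hyp D K k ep ta) (S T M : Finset X) :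
    D.ms ((S ∪ T) ∩ M) ≤ D.ms S + D.ms (T ∩ M) := by
  refine (h.ms_mono ?_).trans (h.ms_union S (T ∩ M))
  intro x hx
  simp only [mem_inter, mem_union] at hx ⊢
  tauto

theorem Hyp.mE_nn (h : Hyp D K k ep ta) (e : G) (P : W → Prop) : 0 ≤ D.mE e P :=
  div_nonneg (m0_nn (h.om_nn e) P) (Nat.cast_nonneg _)

theorem Hyp.mW_nn (h : Hyp D K k ep ta) (w : W) (P : G → Prop) : 0 ≤ D.mW w P :=
  div_nonneg (m0_nn (fun e => h.om_nn e w) P) (Nat.cast_nonneg _)

theorem Hyp.mE_mono (h : Hyp D K k ep ta) (e : G) {P Q : W → Prop}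
    (hPQ : ∀ w, D.om e w ≠ 0 → P w → Q w) : D.mE e P ≤ D.mE e Q :=
  div_le_div_of_nonneg_right (m0_mono (h.om_nn e) hPQ) (Nat.cast_nonneg _)

theorem Hyp.mW_mono (h : Hyp D K k ep ta) (w : W) {P Q : G → Prop}
    (hPQ : ∀ e, D.om e w ≠ 0 → P e → Q e) : D.mW w P ≤ D.mW w Q :=
  div_le_div_of_nonneg_right (m0_mono (fun e => h.om_nn e w) hPQ) (Nat.cast_nonneg _)

theorem Hyp.mE_or (h : Hyp D K k ep ta) (e : G) {P Q R : W → Prop}
    (hPQ : ∀ w, D.om e w ≠ 0 → P w → Q w ∨ R w) : D.mE e P ≤ D.mE e Q + D.mE e R := by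
  rw [mE_eq, mE_eq, mE_eq, ← add_div]
  exact div_le_div_of_nonneg_right (m0_or (h.om_nn e) hPQ) (Nat.cast_nonneg _)

theorem Hyp.mW_or (h : Hyp D K k ep ta) (w : W) {P Q R : G → Prop}
    (hPQ : ∀ e, D.om e w ≠ 0 → P e → Q e ∨ R e) : D.mW w P ≤ D.mW w Q + D.mW w R := by
  rw [mW_eq, mW_eq, mW_eq, ← add_div]
  exact div_le_div_of_nonneg_right (m0_or (fun e => h.om_nn e w) hPQ) (Nat.cast_nonneg _)

theorem Hyp.mE_ex (h : Hyp D K k ep ta) (e : G) (S : Finset X) (P : X → W → Prop) :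
    D.mE e (fun w => ∃ x ∈ S, P x w) ≤ ∑ x ∈ S, D.mE e (P x) := by
  simp only [mE_eq]
  rw [← sum_div]
  exact div_le_div_of_nonneg_right (m0_ex (h.om_nn e) S P) (Nat.cast_nonneg _)

theorem Hyp.mW_ex (h : Hyp D K k ep ta) (w : W) (S : Finset X) (P : X → G → Prop) :
    D.mW w (fun e => ∃ x ∈ S, P x e) ≤ ∑ x ∈ S, D.mW w (P x) := by
  simp only [mW_eq]
  rw [← sum_div]
  exact div_le_div_of_nonneg_right (m0_ex (fun e => h.om_nn e w) S P) (Nat.cast_nonneg _)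

theorem Hyp.mE_count (h : Hyp D K k ep ta) (e : G) (S : Finset X) (P : W → Prop)
    (hS : ∀ w, D.om e w ≠ 0 → P w → D.Z e w ⊆ S) :
    ∑ x ∈ S, D.mE e (fun w => x ∈ D.Z e w ∧ P w) = k * D.mE e P := by
  simp only [mE_eq]
  rw [← sum_div, m0_count (D.Z e) S k P fun w h0 hP => ⟨hS w h0 hP, (h.hZ e w h0).2.2⟩,
    mul_div_assoc]

theorem Hyp.mW_count (h : Hyp D K k ep ta) (w : W) (S : Finset X) (P : G → Prop)
    (hS : ∀ e, D.om e w ≠ 0 → P e → D.Z e w ⊆ S) :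
    ∑ x ∈ S, D.mW w (fun e => x ∈ D.Z e w ∧ P e) = k * D.mW w P := by
  simp only [mW_eq]
  rw [← sum_div, m0_count (fun e => D.Z e w) S k P
    fun e h0 hP => ⟨hS e h0 hP, (h.hZ e w h0).2.2⟩, mul_div_assoc]

theorem Hyp.flag_mass (h : Hyp D K k ep ta) (S : Finset (W × X)) (t : ℝ) (ht : 0 < t) :
    ∑ f ∈ S, D.mW f.1 (fun e => f.2 ∈ D.Z e f.1) ≤
      t * (K * k ^ 2 * Fintype.card W) + (∑ f ∈ S, D.mu f.2) / t := by
  have h1 : ∑ f ∈ S, D.mW f.1 (fun e => f.2 ∈ D.Z e f.1) ≤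
      ∑ f ∈ S, (t * ((D.mW f.1 fun e => f.2 ∈ D.Z e f.1) ^ 2 / D.mu f.2) + D.mu f.2 / t) :=
    sum_le_sum fun f _ => amgm _ _ _ (h.mu_pos _) ht
  rw [sum_add_distrib, ← mul_sum, ← sum_div] at h1
  have h2 : ∑ f ∈ S, (D.mW f.1 fun e => f.2 ∈ D.Z e f.1) ^ 2 / D.mu f.2 ≤
      ∑ f : W × X, (D.mW f.1 fun e => f.2 ∈ D.Z e f.1) ^ 2 / D.mu f.2 :=
    sum_le_sum_of_subset_of_nonneg (subset_univ _) fun f _ _ =>
      div_nonneg (sq_nonneg _) (h.mu_pos _).le
  rw [Fintype.sum_prod_type] at h2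
  have h3 := mul_le_mul_of_nonneg_left (h2.trans h.L21) ht.le
  linarith

theorem Hyp.w_mass (h : Hyp D K k ep ta) (S : Finset W) (t : ℝ) (ht : 0 < t) :
    ∑ w ∈ S, D.mW w (fun _ => True) ≤ t * (K * Fintype.card W) + S.card / t := by
  have h1 : ∑ w ∈ S, D.mW w (fun _ => True) ≤
      ∑ w ∈ S, (t * ((D.mW w fun _ => True) ^ 2 / 1) + 1 / t) :=
    sum_le_sum fun f _ => amgm _ _ _ one_pos ht
  rw [sum_add_distrib, ← mul_sum, sum_const, nsmul_eq_mul, mul_one_div] at h1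
  have h2 : ∑ w ∈ S, (D.mW w fun _ => True) ^ 2 / 1 ≤ ∑ w, (D.mW w fun _ => True) ^ 2 := by
    simp only [div_one]
    exact sum_le_sum_of_subset_of_nonneg (subset_univ _) fun f _ _ => sq_nonneg _
  have h3 := mul_le_mul_of_nonneg_left (h2.trans h.L20) ht.le
  linarith

end hyp

end

end Pool.Agent.Lib.BK2.Cl
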