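import Pool.Agent.Lib.BK2.Clean1

set_option linter.unusedSectionVars false
set_option linter.unusedVariables false

namespace Pool.Agent.Lib.BK2.Cl

open Finset

noncomputable section
open Classical

variable {G W X : Type} [Fintype G] [Fintype W] [Fintype X]

def SEf (D : Dat G W X) (SE : Finset (G × X)) (Ed : Finset G) : Finset (G × X) :=
  SE ∪ univ.filter fun f => f.1 ∈ Ed ∧ f.2 ∈ D.ME f.1

theorem mem_SEf (D : Dat G W X) (SE : Finset (G × X)) (Ed : Finset G) (e : G) (x : X) :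
    (e, x) ∈ SEf D SE Ed ↔ (e, x) ∈ SE ∨ (e ∈ Ed ∧ x ∈ D.ME e) := by
  simp [SEf]

theorem SEf_mono (D : Dat G W X) {SE SE' : Finset (G × X)} {Ed Ed' : Finset G} (h1 : SE ⊆ SE')
    (h2 : Ed ⊆ Ed') : SEf D SE Ed ⊆ SEf D SE' Ed' := by
  rintro ⟨e, x⟩ h
  rw [mem_SEf] at h ⊢
  rcases h with h | h
  · exact Or.inl (h1 h)
  · exact Or.inr ⟨h2 h.1, h.2⟩

def cnt (S : Finset (G × X)) (x : X) : ℝ := ((univ.filter fun e => (e, x) ∈ S).card : ℝ)

theorem cnt_mono {S T : Finset (G × X)} (h : S ⊆ T) (x : X) : cnt S x ≤ cnt T x := by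
  unfold cnt
  exact_mod_cast card_le_card fun e he => by
    simp only [mem_filter, mem_univ, true_and] at he ⊢
    exact h he

def lossW (D : Dat G W X) (Wd : Finset W) (SW : Finset (W × X)) (e : G) (x : X) : ℝ :=
  D.mE e fun w => x ∈ D.Z e w ∧ (w ∈ Wd ∨ ∃ x' ∈ D.Z e w, (w, x') ∈ SW)

def lossE (D : Dat G W X) (sg : Finset (G × X)) (w : W) (x : X) : ℝ :=
  D.mW w fun e => x ∈ D.Z e w ∧ ∃ x' ∈ D.Z e w, (e, x') ∈ sg

def bW (D : Dat G W X) (k : ℕ) (ep : ℝ) (w : W) : Prop :=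
  w ∈ D.badW ∨ ep * k < ∑ x ∈ sec D.badF w, D.mW w fun e => x ∈ D.Z e w

def OkS (D : Dat G W X) (k : ℕ) (ep : ℝ) (SW : Finset (W × X)) (x : X)
    (sg : Finset (G × X)) : Prop :=
  D.q x * cnt sg x ≤ ep * Fintype.card G ∧
  (∀ e, x ∈ D.ME e → (e, x) ∈ sg ∨ D.ms (sec sg e) ≤ ep) ∧
  ∀ w, (w, x) ∈ SW → x ∈ D.MW w ∧
    ((w, x) ∈ D.badF ∨ 20 * ep * k ^ 2 * D.mu x < lossE D sg w x)

structure J (D : Dat G W X) (k : ℕ) (ep : ℝ) (Xd : Finset X) (SE : Finset (G × X))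
    (Ed : Finset G) (SW : Finset (W × X)) (Wd : Finset W) : Prop where
  jX : ∀ x ∈ Xd, ep * Fintype.card G < D.q x * cnt (SEf D SE Ed) x
  jE : ∀ e ∈ Ed, ep < D.ms ((sec SE e ∪ Xd) ∩ D.ME e)
  jW : ∀ w ∈ Wd, bW D k ep w ∨ ep < D.ms ((sec SW w ∪ Xd) ∩ D.MW w)
  jSE : ∀ e x, (e, x) ∈ SE → x ∈ D.ME e ∧ ep * k * D.mu x < lossW D Wd SW e x
  jSW : ∀ x, ∃ sg ⊆ SEf D SE Ed, OkS D k ep SW x sg
  jm : D.mb Xd ≤ ep / 2

variable {D : Dat G W X} {K : ℝ} {k : ℕ} {ep ta : ℝ}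

theorem sec_mono {A : Type} {S T : Finset (A × X)} (h : S ⊆ T) (a : A) : sec S a ⊆ sec T a :=
  fun x hx => (mem_sec _ _ _).2 (h ((mem_sec _ _ _).1 hx))

theorem J.grow (h : Hyp D K k ep ta) {Xd Xd' : Finset X} {SE SE' : Finset (G × X)}
    {Ed Ed' : Finset G} {SW SW' : Finset (W × X)} {Wd Wd' : Finset W}
    (h1 : Xd ⊆ Xd') (h2 : SE ⊆ SE') (h3 : Ed ⊆ Ed') (h4 : SW ⊆ SW') (h5 : Wd ⊆ Wd')
    (jX : ∀ x ∈ Xd', ep * Fintype.card G < D.q x * cnt (SEf D SE Ed) x)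
    (jE : ∀ e ∈ Ed', ep < D.ms ((sec SE e ∪ Xd) ∩ D.ME e))
    (jW : ∀ w ∈ Wd', bW D k ep w ∨ ep < D.ms ((sec SW w ∪ Xd) ∩ D.MW w))
    (jSE : ∀ e x, (e, x) ∈ SE' → x ∈ D.ME e ∧ ep * k * D.mu x < lossW D Wd SW e x)
    (jSW : ∀ x, ∃ sg ⊆ SEf D SE Ed, OkS D k ep SW' x sg)
    (jm : D.mb Xd' ≤ ep / 2) : J D k ep Xd' SE' Ed' SW' Wd' where
  jX x hx := (jX x hx).trans_le
    (mul_le_mul_of_nonneg_left (cnt_mono (SEf_mono D h2 h3) x) (h.q_pos x).le)
  jE e he := (jE e he).trans_le (h.ms_mono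
    (inter_subset_inter_right (union_subset_union (sec_mono h2 e) h1)))
  jW w hw := (jW w hw).imp id fun hh => hh.trans_le (h.ms_mono
    (inter_subset_inter_right (union_subset_union (sec_mono h4 w) h1)))
  jSE e x hx := ⟨(jSE e x hx).1, (jSE e x hx).2.trans_le (h.mE_mono e fun w _ hw =>
    ⟨hw.1, hw.2.imp (fun a => h5 a) fun ⟨x', a, b⟩ => ⟨x', a, h4 b⟩⟩)⟩
  jSW x := by
    obtain ⟨sg, a, b⟩ := jSW x
    exact ⟨sg, a.trans (SEf_mono D h2 h3), b⟩
  jm := jm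

theorem J.empty (h : Hyp D K k ep ta) (hep : 0 < ep) : J D k ep ∅ ∅ ∅ ∅ ∅ where
  jX x hx := absurd hx (notMem_empty _)
  jE x hx := absurd hx (notMem_empty _)
  jW x hx := absurd hx (notMem_empty _)
  jSE e x hx := absurd hx (notMem_empty _)
  jSW x := by
    refine ⟨∅, empty_subset _, ?_, fun e _ => Or.inr ?_, fun w hw => absurd hw (notMem_empty _)⟩
    · have : cnt (∅ : Finset (G × X)) x = 0 := by simp [cnt]
      rw [this, mul_zero]; positivity
    · have : sec (∅ : Finset (G × X)) e = ∅ := by simp [sec]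
      rw [this]; simp [Dat.ms, hep.le]
  jm := by simp [Dat.mb]; positivity

section small
variable {Xd : Finset X} {SE : Finset (G × X)} {Ed : Finset G} {SW : Finset (W × X)}
  {Wd : Finset W}

theorem J.massSW (h : Hyp D K k ep ta) (hta : 0 ≤ ta) (j : J D k ep Xd SE Ed SW Wd) :
    ∑ f ∈ SW, D.mu f.2 ≤ 2 * ta * Fintype.card W := by
  rw [← sum_filter_add_sum_filter_not SW (fun f => f ∈ D.badF)]
  have h1 : ∑ f ∈ SW.filter (fun f => f ∈ D.badF), D.mu f.2 ≤ ta * Fintype.card W :=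
    (sum_le_sum_of_subset_of_nonneg (fun f hf => (mem_filter.1 hf).2)
      fun f _ _ => (h.mu_pos _).le).trans h.badF_le
  have h2 : ∑ f ∈ SW.filter (fun f => ¬ f ∈ D.badF), D.mu f.2 ≤ ta * Fintype.card W := by
    rw [sum_sec2]
    have h3 : ∀ x, D.mu x * ((univ.filter fun a =>
        (a, x) ∈ SW.filter (fun f => ¬ f ∈ D.badF)).card : ℝ) ≤
        D.mu x / D.q x * (ta * Fintype.card W) := by
      intro x
      obtain ⟨sg, -, a, b, c⟩ := j.jSW x
      have h4 := h.SW x sg a b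
      have h5 : ((univ.filter fun a =>
          (a, x) ∈ SW.filter (fun f => ¬ f ∈ D.badF)).card : ℝ) ≤
          ((univ.filter fun w => x ∈ D.MW w ∧ 20 * ep * k ^ 2 * D.mu x <
            D.mW w (fun e => x ∈ D.Z e w ∧ ∃ x' ∈ D.Z e w, (e, x') ∈ sg)).card : ℝ) := by
        refine Nat.cast_le.2 (card_le_card fun w hw => ?_)
        simp only [mem_filter, mem_univ, true_and] at hw ⊢
        exact ⟨(c w hw.1).1, ((c w hw.1).2.resolve_left hw.2)⟩
      have hq := h.q_pos x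
      have hm := h.mu_pos x
      have h6 := (mul_le_mul_of_nonneg_left h5 hq.le).trans h4
      rw [div_mul_eq_mul_div, le_div_iff₀ hq]
      nlinarith
    refine (sum_le_sum fun x _ => h3 x).trans ?_
    rw [← sum_mul]
    have h7 : ∑ x, D.mu x / D.q x ≤ 1 := h.mb_le
    have h8 : (0 : ℝ) ≤ ta * Fintype.card W := by positivity
    nlinarith
  linarith

theorem card_le_of_cover {A : Type} (S S1 S2 : Finset A) (h : ∀ a ∈ S, a ∈ S1 ∨ a ∈ S2) :
    (S.card : ℝ) ≤ S1.card + S2.card := by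
  have : S.card ≤ S1.card + S2.card :=
    (card_le_card fun a ha => mem_union.2 (h a ha)).trans (card_union_le S1 S2)
  exact_mod_cast this

theorem card_sec_big (h : Hyp D K k ep ta) (hep : 0 < ep) {A : Type} [Fintype A]
    (S : Finset (A × X)) :
    ((univ.filter fun a => ep / 4 < D.ms (sec S a)).card : ℝ) ≤
      (∑ f ∈ S, D.mu f.2) / (ep / 4) := by
  rw [sum_sec S (fun _ x => D.mu x)]
  exact WM.markov_card univ _ (fun a => D.ms (sec S a)) _ (by positivity)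
    (fun a _ => h.ms_nn _) fun a _ ha => ha.le

theorem J.cardWd (h : Hyp D K k ep ta) (hta : 0 ≤ ta) (hep : 0 < ep) (hk : 1 ≤ k) (hK : 0 ≤ K)
    (j : J D k ep Xd SE Ed SW Wd) (t : ℝ) (ht : 0 < t) :
    (Wd.card : ℝ) ≤ (2 * ta + 8 * ta / ep + t * K * k / ep + ta / (t * ep)) * Fintype.card W := by
  have hk1 : (1 : ℝ) ≤ k := by exact_mod_cast hk
  have hW : (0 : ℝ) ≤ Fintype.card W := Nat.cast_nonneg _
  set B1 := univ.filter fun w : W =>
    ep * k < ∑ x ∈ sec D.badF w, D.mW w fun e => x ∈ D.Z e w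
  set B2 := univ.filter fun w : W => ep / 4 < D.ms (sec SW w)
  set B3 := univ.filter fun w : W => 3 * ep / 4 < D.ms (Xd ∩ D.MW w)
  have c1 : (Wd.card : ℝ) ≤ ((D.badW ∪ B1).card : ℝ) + (B2 ∪ B3).card := by
    refine card_le_of_cover _ _ _ fun w hw => ?_
    rcases j.jW w hw with (a | a) | a
    · exact Or.inl (mem_union_left _ a)
    · exact Or.inl (mem_union_right _ (mem_filter.2 ⟨mem_univ _, a⟩))
    · right
      have := h.ms_split (sec SW w) Xd (D.MW w)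
      by_cases b : ep / 4 < D.ms (sec SW w)
      · exact mem_union_left _ (mem_filter.2 ⟨mem_univ _, b⟩)
      · exact mem_union_right _ (mem_filter.2 ⟨mem_univ _, by linarith⟩)
  have c2 := card_le_of_cover (D.badW ∪ B1) _ _ fun a ha => mem_union.1 ha
  have c3 := card_le_of_cover (B2 ∪ B3) _ _ fun a ha => mem_union.1 ha
  have c4 : (B3.card : ℝ) ≤ ta * Fintype.card W := h.tailW Xd j.jm
  have c5 : (B2.card : ℝ) ≤ 8 * ta / ep * Fintype.card W := by
    refine (card_sec_big h hep SW).trans ?_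
    rw [div_le_iff₀ (by positivity)]
    have := j.massSW h hta
    have e : 8 * ta / ep * Fintype.card W * (ep / 4) = 2 * ta * Fintype.card W := by
      field_simp; ring
    linarith
  have c6 : (B1.card : ℝ) ≤ (t * K * k / ep + ta / (t * ep)) * Fintype.card W := by
    have d1 := WM.markov_card univ (fun w : W =>
      ep * k < ∑ x ∈ sec D.badF w, D.mW w fun e => x ∈ D.Z e w)
      (fun w => ∑ x ∈ sec D.badF w, D.mW w fun e => x ∈ D.Z e w) (ep * k) (by positivity)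
      (fun w _ => sum_nonneg fun x _ => h.mW_nn _ _) fun a _ ha => ha.le
    rw [← sum_sec D.badF (fun w x => D.mW w fun e => x ∈ D.Z e w)] at d1
    refine d1.trans ?_
    rw [div_le_iff₀ (by positivity)]
    have d2 := h.flag_mass D.badF t ht
    have d3 : (∑ f ∈ D.badF, D.mu f.2) / t ≤ ta * Fintype.card W / t :=
      div_le_div_of_nonneg_right h.badF_le ht.le
    have e : (t * K * k / ep + ta / (t * ep)) * Fintype.card W * (ep * k) =
        t * (K * k ^ 2 * Fintype.card W) + ta * Fintype.card W / t * k := by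
      field_simp
    have d4 : 0 ≤ ta * Fintype.card W / t := by positivity
    nlinarith
  have c7 := h.badW_le
  nlinarith

theorem J.massSE [Nonempty G] [Nonempty W] (h : Hyp D K k ep ta) (hta : 0 ≤ ta) (hep : 0 < ep)
    (hk : 1 ≤ k) (j : J D k ep Xd SE Ed SW Wd) (be t2 t3 : ℝ) (ht2 : 0 < t2) (ht3 : 0 < t3)
    (hWd : (Wd.card : ℝ) ≤ be * Fintype.card W) :
    ep * ∑ f ∈ SE, D.mu f.2 ≤
      (t2 * K + be / t2 + t3 * K * k ^ 2 + 2 * ta / t3) * Fintype.card G := by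
  have hk1 : (1 : ℝ) ≤ k := by exact_mod_cast hk
  have hW : (0 : ℝ) < Fintype.card W := by exact_mod_cast Fintype.card_pos
  have hG : (0 : ℝ) < Fintype.card G := by exact_mod_cast Fintype.card_pos
  set P : G → W → Prop := fun e w => w ∈ Wd ∨ ∃ x' ∈ D.Z e w, (w, x') ∈ SW with hP
  have a1 : k * (ep * ∑ f ∈ SE, D.mu f.2) ≤ k * ∑ e, D.mE e (P e) := by
    rw [sum_sec SE (fun _ x => D.mu x), mul_sum, mul_sum, mul_sum]
    refine sum_le_sum fun e _ => ?_
    rw [← h.mE_count e univ (P e) fun _ _ _ => subset_univ _, mul_sum, mul_sum]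
    calc ∑ x ∈ sec SE e, k * (ep * D.mu x) ≤ ∑ x ∈ sec SE e, lossW D Wd SW e x :=
          sum_le_sum fun x hx => by
            have := (j.jSE e x ((mem_sec _ _ _).1 hx)).2
            linarith
      _ ≤ _ := sum_le_sum_of_subset_of_nonneg (subset_univ _) fun x _ _ => h.mE_nn _ _
  have a2 : ep * ∑ f ∈ SE, D.mu f.2 ≤ ∑ e, D.mE e (P e) :=
    le_of_mul_le_mul_left a1 (by linarith)
  have a3 := swap_mass D P
  have a4 : ∑ w, D.mW w (fun e => P e w) ≤ ∑ w ∈ Wd, D.mW w (fun _ => True) +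
      ∑ f ∈ SW, D.mW f.1 (fun e => f.2 ∈ D.Z e f.1) := by
    rw [sum_sec SW (fun w x => D.mW w fun e => x ∈ D.Z e w)]
    have : ∑ w ∈ Wd, D.mW w (fun _ => True) =
        ∑ w, if w ∈ Wd then D.mW w (fun _ => True) else 0 := by
      rw [← sum_filter, filter_mem_eq_inter, univ_inter]
    rw [this, ← sum_add_distrib]
    refine sum_le_sum fun w _ => ?_
    have b0 : 0 ≤ ∑ x ∈ sec SW w, D.mW w fun e => x ∈ D.Z e w :=
      sum_nonneg fun x _ => h.mW_nn _ _
    split_ifs with hw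
    · have := h.mW_mono w (P := fun e => P e w) (Q := fun _ => True) fun _ _ _ => trivial
      linarith
    · rw [zero_add]
      refine (h.mW_mono w ?_).trans (h.mW_ex w (sec SW w) fun x e => x ∈ D.Z e w)
      rintro e - (a | ⟨x', a, b⟩)
      · exact absurd a hw
      · exact ⟨x', (mem_sec _ _ _).2 b, a⟩
  have a5 := h.w_mass Wd t2 ht2
  have a6 := h.flag_mass SW t3 ht3
  have a7 : (Wd.card : ℝ) / t2 ≤ be * Fintype.card W / t2 := div_le_div_of_nonneg_right hWd ht2.le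
  have a8 : (∑ f ∈ SW, D.mu f.2) / t3 ≤ 2 * ta * Fintype.card W / t3 :=
    div_le_div_of_nonneg_right (j.massSW h hta) ht3.le
  have a9 : ∑ w, D.mW w (fun e => P e w) ≤
      (t2 * K + be / t2 + t3 * K * k ^ 2 + 2 * ta / t3) * Fintype.card W := by
    have e : (t2 * K + be / t2 + t3 * K * k ^ 2 + 2 * ta / t3) * Fintype.card W =
        t2 * (K * Fintype.card W) + be * Fintype.card W / t2 +
          (t3 * (K * k ^ 2 * Fintype.card W) + 2 * ta * Fintype.card W / t3) := by ring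
    linarith
  refine a2.trans (le_of_mul_le_mul_right ?_ hW)
  rw [a3]
  nlinarith

theorem J.cardEd (h : Hyp D K k ep ta) (hep : 0 < ep) (j : J D k ep Xd SE Ed SW Wd) :
    (Ed.card : ℝ) ≤ (∑ f ∈ SE, D.mu f.2) / (ep / 4) + ta * Fintype.card G := by
  have c1 : (Ed.card : ℝ) ≤ ((univ.filter fun a => ep / 4 < D.ms (sec SE a)).card : ℝ) +
      ((univ.filter fun e => 3 * ep / 4 < D.ms (Xd ∩ D.ME e)).card : ℝ) := by
    refine card_le_of_cover _ _ _ fun e he => ?_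
    have a := j.jE e he
    have := h.ms_split (sec SE e) Xd (D.ME e)
    by_cases b : ep / 4 < D.ms (sec SE e)
    · exact Or.inl (mem_filter.2 ⟨mem_univ _, b⟩)
    · exact Or.inr (mem_filter.2 ⟨mem_univ _, by linarith⟩)
  have c2 := card_sec_big h hep SE
  have c3 := h.tailE Xd j.jm
  linarith

theorem J.mbXd (h : Hyp D K k ep ta) (j : J D k ep Xd SE Ed SW Wd) :
    ep * Fintype.card G * D.mb Xd ≤ ∑ f ∈ SE, D.mu f.2 + 2 * Ed.card := by
  have c1 : ep * Fintype.card G * D.mb Xd ≤ ∑ f ∈ SEf D SE Ed, D.mu f.2 := by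
    rw [sum_sec2, Dat.mb, mul_sum]
    refine (sum_le_sum fun x hx => ?_).trans (sum_le_sum_of_subset_of_nonneg (subset_univ Xd)
      fun x _ _ => mul_nonneg (h.mu_pos x).le (Nat.cast_nonneg _))
    have a := j.jX x hx
    have hq := h.q_pos x
    have hm := h.mu_pos x
    unfold cnt at a
    rw [← mul_div_assoc, div_le_iff₀ hq]
    nlinarith
  have c2 : ∑ f ∈ SEf D SE Ed, D.mu f.2 ≤ ∑ f ∈ SE, D.mu f.2 +
      ∑ f ∈ (univ.filter fun f : G × X => f.1 ∈ Ed ∧ f.2 ∈ D.ME f.1), D.mu f.2 := by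
    unfold SEf
    rw [← sum_union_inter]
    have : 0 ≤ ∑ f ∈ SE ∩ (univ.filter fun f : G × X => f.1 ∈ Ed ∧ f.2 ∈ D.ME f.1), D.mu f.2 :=
      sum_nonneg fun f _ => (h.mu_pos _).le
    linarith
  have c3 : ∑ f ∈ (univ.filter fun f : G × X => f.1 ∈ Ed ∧ f.2 ∈ D.ME f.1), D.mu f.2 ≤
      2 * Ed.card := by
    rw [sum_sec _ (fun _ x => D.mu x)]
    have : (2 : ℝ) * Ed.card = ∑ e, if e ∈ Ed then (2 : ℝ) else 0 := by
      rw [← sum_filter, filter_mem_eq_inter, univ_inter, sum_const, nsmul_eq_mul, mul_comm]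
    rw [this]
    refine sum_le_sum fun e _ => ?_
    split_ifs with he
    · refine (h.ms_mono (T := D.ME e) fun x hx => ?_).trans (h.ME_le e)
      have := (mem_sec _ _ _).1 hx
      exact (mem_filter.1 this).2.2
    · refine le_of_eq (sum_eq_zero fun x hx => ?_)
      have := (mem_sec _ _ _).1 hx
      exact absurd (mem_filter.1 this).2.1 he
  linarith

end small

end

end Pool.Agent.Lib.BK2.Cl
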