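import Pool.Agent.Lib.BK2.Clean2

set_option linter.unusedSectionVars false
set_option linter.unusedVariables false

namespace Pool.Agent.Lib.BK2.Cl

open Finset

noncomputable section
open Classical

variable {G W X : Type} [Fintype G] [Fintype W] [Fintype X]
variable {D : Dat G W X} {K : ℝ} {k : ℕ} {ep ta : ℝ}

structure Closed (D : Dat G W X) (k : ℕ) (ep : ℝ) (Xd : Finset X) (SE : Finset (G × X))
    (Ed : Finset G) (SW : Finset (W × X)) (Wd : Finset W) : Prop where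
  cE : ∀ e, e ∉ Ed → D.ms ((sec SE e ∪ Xd) ∩ D.ME e) ≤ ep
  cW : ∀ w, w ∉ Wd → ¬ bW D k ep w ∧ D.ms ((sec SW w ∪ Xd) ∩ D.MW w) ≤ ep
  cSE : ∀ e x, x ∈ D.ME e → (e, x) ∉ SE → lossW D Wd SW e x ≤ ep * k * D.mu x
  cSW : ∀ w x, x ∉ Xd → x ∈ D.MW w → (w, x) ∉ SW →
    (w, x) ∉ D.badF ∧ lossE D (SEf D SE Ed) w x ≤ 20 * ep * k ^ 2 * D.mu x

theorem exists_closed (h : Hyp D K k ep ta) (hep : 0 < ep)
    (hs : ∀ Xd SE Ed SW Wd, J D k ep Xd SE Ed SW Wd → D.mb Xd ≤ ep / 4) :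
    ∃ Xd SE Ed SW Wd, J D k ep Xd SE Ed SW Wd ∧ Closed D k ep Xd SE Ed SW Wd := by
  let T := {s : Finset X × Finset (G × X) × Finset G × Finset (W × X) × Finset W //
    J D k ep s.1 s.2.1 s.2.2.1 s.2.2.2.1 s.2.2.2.2}
  have : Nonempty T := ⟨⟨(∅, ∅, ∅, ∅, ∅), J.empty h hep⟩⟩
  obtain ⟨⟨⟨Xd, SE, Ed, SW, Wd⟩, j⟩, hmax⟩ := Finite.exists_max (fun s : T =>
    s.1.1.card + s.1.2.1.card + s.1.2.2.1.card + s.1.2.2.2.1.card + s.1.2.2.2.2.card)
  dsimp only at j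
  have hm : ∀ Xd' SE' Ed' SW' Wd', J D k ep Xd' SE' Ed' SW' Wd' →
      Xd'.card + SE'.card + Ed'.card + SW'.card + Wd'.card ≤
        Xd.card + SE.card + Ed.card + SW.card + Wd.card :=
    fun Xd' SE' Ed' SW' Wd' j' => hmax ⟨(Xd', SE', Ed', SW', Wd'), j'⟩
  have r := @Subset.refl
  have cX : ∀ x, x ∉ Xd → D.q x * cnt (SEf D SE Ed) x ≤ ep * Fintype.card G := by
    intro x hx
    by_contra hc
    push Not at hc
    have := hm _ _ _ _ _ (J.grow h (subset_insert x Xd) (r _) (r _) (r _) (r _)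
      (fun y hy => (mem_insert.1 hy).elim (fun a => a ▸ hc) (j.jX y)) j.jE j.jW j.jSE j.jSW (by
        have a := hs _ _ _ _ _ j
        have b := h.mb_one x
        unfold Dat.mb at a ⊢
        rw [sum_insert hx]
        linarith))
    rw [card_insert_of_notMem hx] at this
    omega
  have cE : ∀ e, e ∉ Ed → D.ms ((sec SE e ∪ Xd) ∩ D.ME e) ≤ ep := by
    intro x hx
    by_contra hc
    push Not at hc
    have := hm _ _ _ _ _ (J.grow h (r _) (r _) (subset_insert x Ed) (r _) (r _) j.jX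
      (fun y hy => (mem_insert.1 hy).elim (fun a => a ▸ hc) (j.jE y)) j.jW j.jSE j.jSW j.jm)
    rw [card_insert_of_notMem hx] at this
    omega
  refine ⟨Xd, SE, Ed, SW, Wd, j, cE, ?_, ?_, ?_⟩
  · intro x hx
    by_contra hc
    have hc' : bW D k ep x ∨ ep < D.ms ((sec SW x ∪ Xd) ∩ D.MW x) := by
      by_contra h2
      push Not at h2
      exact hc h2
    have := hm _ _ _ _ _ (J.grow h (r _) (r _) (r _) (r _) (subset_insert x Wd) j.jX j.jE
      (fun y hy => (mem_insert.1 hy).elim (fun a => a ▸ hc') (j.jW y)) j.jSE j.jSW j.jm)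
    rw [card_insert_of_notMem hx] at this
    omega
  · intro e x hM hx
    by_contra hc
    push Not at hc
    have := hm _ _ _ _ _ (J.grow h (r _) (subset_insert (e, x) SE) (r _) (r _) (r _) j.jX j.jE
      j.jW (fun e' y hy => (mem_insert.1 hy).elim (fun a => by
        obtain ⟨rfl, rfl⟩ := Prod.mk.inj a
        exact ⟨hM, hc⟩) (j.jSE e' y)) j.jSW j.jm)
    rw [card_insert_of_notMem hx] at this
    omega
  · intro w x hxd hM hx
    by_contra hc
    have hc' : (w, x) ∈ D.badF ∨ 20 * ep * k ^ 2 * D.mu x < lossE D (SEf D SE Ed) w x := by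
      by_contra h2
      push Not at h2
      exact hc h2
    have := hm _ _ _ _ _ (J.grow h (r _) (r _) (r _) (subset_insert (w, x) SW) (r _) j.jX j.jE
      j.jW j.jSE (fun y => ?_) j.jm)
    · rw [card_insert_of_notMem hx] at this
      omega
    obtain ⟨sg, a, b1, b2, b3⟩ := j.jSW y
    by_cases hy : y = x
    · subst hy
      refine ⟨SEf D SE Ed, r _, cX y hxd, fun e he => ?_, fun w' hw' => ?_⟩
      · by_cases hE : e ∈ Ed
        · exact Or.inl ((mem_SEf _ _ _ _ _).2 (Or.inr ⟨hE, he⟩))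
        · refine Or.inr ((h.ms_mono fun z hz => ?_).trans (cE e hE))
          rcases (mem_SEf _ _ _ _ _).1 ((mem_sec _ _ _).1 hz) with c | c
          · exact mem_inter.2 ⟨mem_union_left _ ((mem_sec _ _ _).2 c), (j.jSE e z c).1⟩
          · exact absurd c.1 hE
      · rcases mem_insert.1 hw' with c | c
        · obtain ⟨rfl, -⟩ := Prod.mk.inj c
          exact ⟨hM, hc'⟩
        · refine ⟨(b3 w' c).1, (b3 w' c).2.imp id fun d => d.trans_le ?_⟩
          exact h.mW_mono w' fun e _ he => ⟨he.1, by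
            obtain ⟨x', u, v⟩ := he.2
            exact ⟨x', u, a v⟩⟩
    · refine ⟨sg, a, b1, b2, fun w' hw' => b3 w' ?_⟩
      rcases mem_insert.1 hw' with c | c
      · exact absurd (Prod.mk.inj c).2 hy
      · exact c

theorem concl_of_closed (h : Hyp D K k ep ta) (hep : 0 < ep) (hk : 1 ≤ k) {Xd : Finset X}
    {SE : Finset (G × X)} {Ed : Finset G} {SW : Finset (W × X)} {Wd : Finset W}
    (c : Closed D k ep Xd SE Ed SW Wd) (hEd : (Ed.card : ℝ) ≤ ep * Fintype.card G)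
    (hWd : (Wd.card : ℝ) ≤ ep * Fintype.card W) :
    ∃ Ga Wa AE AW, Concl D k ep Ga Wa AE AW := by
  have hk1 : (1 : ℝ) ≤ k := by exact_mod_cast hk
  set AE : Finset (G × X) := univ.filter fun f =>
    f.1 ∉ Ed ∧ f.2 ∈ D.ME f.1 ∧ f.2 ∉ Xd ∧ f ∉ SE with hAE
  set AW : Finset (W × X) := univ.filter fun f =>
    f.1 ∉ Wd ∧ f.2 ∈ D.MW f.1 ∧ f.2 ∉ Xd ∧ f ∉ SW with hAW
  have mAE : ∀ e x, (e, x) ∈ AE ↔ e ∉ Ed ∧ x ∈ D.ME e ∧ x ∉ Xd ∧ (e, x) ∉ SE := by
    intro e x; simp [hAE]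
  have mAW : ∀ w x, (w, x) ∈ AW ↔ w ∉ Wd ∧ x ∈ D.MW w ∧ x ∉ Xd ∧ (w, x) ∉ SW := by
    intro w x; simp [hAW]
  have mG : ∀ e, e ∈ univ \ Ed ↔ e ∉ Ed := by intro e; simp
  have mW : ∀ w, w ∈ univ \ Wd ↔ w ∉ Wd := by intro e; simp
  have key : ∀ e w, D.om e w ≠ 0 → ¬ D.al (univ \ Ed) (univ \ Wd) AE AW e w →
      e ∈ Ed ∨ w ∈ Wd ∨ ∃ x ∈ D.Z e w, x ∈ Xd ∨ (e, x) ∈ SE ∨ (w, x) ∈ SW := by
    intro e w h0 hal
    by_contra hc
    push Not at hc
    obtain ⟨z1, z2, -⟩ := h.hZ e w h0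
    exact hal ⟨(mG e).2 hc.1, (mW w).2 hc.2.1, fun x hx =>
      ⟨(mAE e x).2 ⟨hc.1, z1 hx, (hc.2.2 x hx).1, (hc.2.2 x hx).2.1⟩,
        (mAW w x).2 ⟨hc.2.1, z2 hx, (hc.2.2 x hx).1, (hc.2.2 x hx).2.2⟩⟩⟩
  refine ⟨univ \ Ed, univ \ Wd, AE, AW, ?_, ?_, ?_, ?_, ?_, ?_, ?_, ?_, ?_, ?_, ?_⟩
  · intro e x hx
    exact ⟨(mG e).2 ((mAE e x).1 hx).1, ((mAE e x).1 hx).2.1⟩
  · intro w x hx
    obtain ⟨a, b, d, f⟩ := (mAW w x).1 hx
    exact ⟨(mW w).2 a, b, (c.cSW w x d b f).1⟩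
  · intro w hw hb
    exact (c.cW w ((mW w).1 hw)).1 (Or.inl hb)
  · intro e he
    refine (h.ms_mono fun x hx => ?_).trans (c.cE e ((mG e).1 he))
    rw [mem_sdiff, mem_sec, mAE] at hx
    rw [mem_inter, mem_union, mem_sec]
    have := (mG e).1 he
    tauto
  · intro w hw
    refine (h.ms_mono fun x hx => ?_).trans (c.cW w ((mW w).1 hw)).2
    rw [mem_sdiff, mem_sec, mAW] at hx
    rw [mem_inter, mem_union, mem_sec]
    have := (mW w).1 hw
    tauto
  · rwa [Finset.sdiff_sdiff_eq_self (subset_univ _)]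
  · rwa [Finset.sdiff_sdiff_eq_self (subset_univ _)]
  · intro e x hx
    obtain ⟨a, b, d, f⟩ := (mAE e x).1 hx
    set S := ((sec SE e ∪ Xd) ∩ D.ME e).erase x with hS
    have h1 := h.mE_or e (P := fun w => x ∈ D.Z e w ∧ ¬ D.al (univ \ Ed) (univ \ Wd) AE AW e w)
      (Q := fun w => x ∈ D.Z e w ∧ (w ∈ Wd ∨ ∃ x' ∈ D.Z e w, (w, x') ∈ SW))
      (R := fun w => ∃ x' ∈ S, x ∈ D.Z e w ∧ x' ∈ D.Z e w) (by
        rintro w h0 ⟨hx1, hal⟩
        rcases key e w h0 hal with u | u | ⟨x', u, v | v | v⟩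
        · exact absurd u a
        · exact Or.inl ⟨hx1, Or.inl u⟩
        · refine Or.inr ⟨x', mem_erase.2 ⟨fun g => d (g ▸ v), mem_inter.2
            ⟨mem_union_right _ v, (h.hZ e w h0).1 u⟩⟩, hx1, u⟩
        · refine Or.inr ⟨x', mem_erase.2 ⟨fun g => f (g ▸ v), mem_inter.2
            ⟨mem_union_left _ ((mem_sec _ _ _).2 v), (h.hZ e w h0).1 u⟩⟩, hx1, u⟩
        · exact Or.inl ⟨hx1, Or.inr ⟨x', u, v⟩⟩)
    have h2 := h.mE_ex e S fun x' w => x ∈ D.Z e w ∧ x' ∈ D.Z e w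
    have h3 : ∑ x' ∈ S, D.mE e (fun w => x ∈ D.Z e w ∧ x' ∈ D.Z e w) ≤
        3 * k ^ 2 * D.mu x * D.ms S := by
      rw [Dat.ms, mul_sum]
      exact sum_le_sum fun x' hx' => h.E2 e x x' (mem_erase.1 hx').1.symm
    have h4 : D.ms S ≤ ep := (h.ms_mono (erase_subset _ _)).trans (c.cE e a)
    have h5 := c.cSE e x b f
    unfold lossW at h5
    have hm := h.mu_pos x
    have h6 : 3 * k ^ 2 * D.mu x * D.ms S ≤ 3 * k ^ 2 * D.mu x * ep :=
      mul_le_mul_of_nonneg_left h4 (by positivity)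
    have h7 : ep * k * D.mu x ≤ ep * k ^ 2 * D.mu x := by
      have : (k : ℝ) ≤ k ^ 2 := by nlinarith
      gcongr
    linarith
  · intro e he
    have a := (mG e).1 he
    set S := (sec SE e ∪ Xd) ∩ D.ME e with hS
    set P : W → Prop := fun w => D.Z e w ⊆ sec AE e ∧ (w ∈ Wd ∨ ∃ x' ∈ D.Z e w, (w, x') ∈ SW)
      with hP
    have h1 := h.mE_or e (P := fun w => ¬ D.al (univ \ Ed) (univ \ Wd) AE AW e w)
      (Q := fun w => ∃ x' ∈ S, x' ∈ D.Z e w) (R := P) (by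
        intro w h0 hal
        by_cases g : ∃ x' ∈ S, x' ∈ D.Z e w
        · exact Or.inl g
        right
        push Not at g
        have g2 : ∀ x ∈ D.Z e w, x ∉ Xd ∧ (e, x) ∉ SE := fun x hx =>
          ⟨fun v => g x (mem_inter.2 ⟨mem_union_right _ v, (h.hZ e w h0).1 hx⟩) hx,
            fun v => g x (mem_inter.2 ⟨mem_union_left _ ((mem_sec _ _ _).2 v),
              (h.hZ e w h0).1 hx⟩) hx⟩
        refine ⟨fun x hx => (mem_sec _ _ _).2 ((mAE e x).2
          ⟨a, (h.hZ e w h0).1 hx, (g2 x hx).1, (g2 x hx).2⟩), ?_⟩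
        rcases key e w h0 hal with u | u | ⟨x', u, v | v | v⟩
        · exact absurd u a
        · exact Or.inl u
        · exact absurd v (g2 x' u).1
        · exact absurd v (g2 x' u).2
        · exact Or.inr ⟨x', u, v⟩)
    have h2 := h.mE_ex e S fun x' w => x' ∈ D.Z e w
    have h3 : ∑ x' ∈ S, D.mE e (fun w => x' ∈ D.Z e w) ≤ 3 * k * D.ms S := by
      rw [Dat.ms, mul_sum]
      exact sum_le_sum fun x' _ => h.E1 e x'
    have h4 : 3 * k * D.ms S ≤ 3 * k * ep := mul_le_mul_of_nonneg_left (c.cE e a) (by positivity)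
    have h5 := h.mE_count e (sec AE e) P fun w _ hw => hw.1
    have h6 : ∑ x ∈ sec AE e, D.mE e (fun w => x ∈ D.Z e w ∧ P w) ≤
        ep * k * D.ms (sec AE e) := by
      rw [Dat.ms, mul_sum]
      refine sum_le_sum fun x hx => ?_
      obtain ⟨-, b, -, f⟩ := (mAE e x).1 ((mem_sec _ _ _).1 hx)
      exact (h.mE_mono e fun w _ hw => ⟨hw.1, hw.2.2⟩).trans (c.cSE e x b f)
    have h7 : D.ms (sec AE e) ≤ 2 :=
      (h.ms_mono fun x hx => ((mAE e x).1 ((mem_sec _ _ _).1 hx)).2.1).trans (h.ME_le e)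
    have h8 : ep * k * D.ms (sec AE e) ≤ ep * k * 2 := mul_le_mul_of_nonneg_left h7 (by positivity)
    have h9 := h.mE_nn e P
    nlinarith
  · intro w x hx
    obtain ⟨a, b, d, f⟩ := (mAW w x).1 hx
    have h1 := h.mW_or w (P := fun e => x ∈ D.Z e w ∧ ¬ D.al (univ \ Ed) (univ \ Wd) AE AW e w)
      (Q := fun e => x ∈ D.Z e w ∧ ∃ x' ∈ D.Z e w, (e, x') ∈ SEf D SE Ed)
      (R := fun e => x ∈ D.Z e w ∧ ∃ x' ∈ sec SW w ∪ Xd, x' ≠ x ∧ x' ∈ D.Z e w) (by
        rintro e h0 ⟨hx1, hal⟩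
        rcases key e w h0 hal with u | u | ⟨x', u, v | v | v⟩
        · exact Or.inl ⟨hx1, x, hx1, (mem_SEf _ _ _ _ _).2 (Or.inr ⟨u, (h.hZ e w h0).1 hx1⟩)⟩
        · exact absurd u a
        · exact Or.inr ⟨hx1, x', mem_union_right _ v, fun g => d (g ▸ v), u⟩
        · exact Or.inl ⟨hx1, x', u, (mem_SEf _ _ _ _ _).2 (Or.inl v)⟩
        · exact Or.inr ⟨hx1, x', mem_union_left _ ((mem_sec _ _ _).2 v), fun g => f (g ▸ v), u⟩)
    obtain ⟨g1, g2⟩ := c.cSW w x d b f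
    have h2 := h.goodF2 w x (sec SW w ∪ Xd) b g1
    have hm := h.mu_pos x
    have h3 : 2 * k ^ 2 * D.mu x * D.ms ((sec SW w ∪ Xd) ∩ D.MW w) ≤ 2 * k ^ 2 * D.mu x * ep :=
      mul_le_mul_of_nonneg_left (c.cW w a).2 (by positivity)
    unfold lossE at g2
    linarith
  · intro w hw
    have a := (mW w).1 hw
    obtain ⟨b1, b2⟩ := c.cW w a
    unfold bW at b1
    push Not at b1
    set S := (sec SW w ∪ Xd) ∩ D.MW w with hS
    set P : G → Prop := fun e => D.Z e w ⊆ sec AW w ∧ ∃ x' ∈ D.Z e w, (e, x') ∈ SEf D SE Ed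
      with hP
    have h1 := h.mW_or w (P := fun e => ¬ D.al (univ \ Ed) (univ \ Wd) AE AW e w)
      (Q := fun e => ∃ x' ∈ S, x' ∈ D.Z e w) (R := P) (by
        intro e h0 hal
        by_cases g : ∃ x' ∈ S, x' ∈ D.Z e w
        · exact Or.inl g
        right
        push Not at g
        obtain ⟨z1, z2, z3⟩ := h.hZ e w h0
        have g2 : ∀ x ∈ D.Z e w, x ∉ Xd ∧ (w, x) ∉ SW := fun x hx =>
          ⟨fun v => g x (mem_inter.2 ⟨mem_union_right _ v, z2 hx⟩) hx,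
            fun v => g x (mem_inter.2 ⟨mem_union_left _ ((mem_sec _ _ _).2 v), z2 hx⟩) hx⟩
        refine ⟨fun x hx => (mem_sec _ _ _).2 ((mAW w x).2
          ⟨a, z2 hx, (g2 x hx).1, (g2 x hx).2⟩), ?_⟩
        rcases key e w h0 hal with u | u | ⟨x', u, v | v | v⟩
        · obtain ⟨x, hx⟩ : (D.Z e w).Nonempty := card_pos.1 (by omega)
          exact ⟨x, hx, (mem_SEf _ _ _ _ _).2 (Or.inr ⟨u, z1 hx⟩)⟩
        · exact absurd u a
        · exact absurd v (g2 x' u).1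
        · exact ⟨x', u, (mem_SEf _ _ _ _ _).2 (Or.inl v)⟩
        · exact absurd v (g2 x' u).2)
    have h2 := h.mW_ex w S fun x' e => x' ∈ D.Z e w
    have h3 : ∑ x' ∈ S, D.mW w (fun e => x' ∈ D.Z e w) ≤ ep * k + 3 * k * ep := by
      rw [← sum_filter_add_sum_filter_not S (fun x => (w, x) ∈ D.badF)]
      have u1 : ∑ x' ∈ S.filter (fun x => (w, x) ∈ D.badF), D.mW w (fun e => x' ∈ D.Z e w) ≤
          ep * k := (sum_le_sum_of_subset_of_nonneg
            (fun x hx => (mem_sec _ _ _).2 (mem_filter.1 hx).2) fun x _ _ => h.mW_nn _ _).trans b1.2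
      have u2 : ∑ x' ∈ S.filter (fun x => ¬ (w, x) ∈ D.badF), D.mW w (fun e => x' ∈ D.Z e w) ≤
          3 * k * D.ms (S.filter (fun x => ¬ (w, x) ∈ D.badF)) := by
        rw [Dat.ms, mul_sum]
        exact sum_le_sum fun x hx => h.goodF1 w x (mem_inter.1 (mem_filter.1 hx).1).2
          (mem_filter.1 hx).2
      have u3 : 3 * k * D.ms (S.filter (fun x => ¬ (w, x) ∈ D.badF)) ≤ 3 * k * ep :=
        mul_le_mul_of_nonneg_left ((h.ms_mono (filter_subset _ _)).trans b2) (by positivity)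
      linarith
    have h5 := h.mW_count w (sec AW w) P fun e _ he => he.1
    have h6 : ∑ x ∈ sec AW w, D.mW w (fun e => x ∈ D.Z e w ∧ P e) ≤
        20 * ep * k ^ 2 * D.ms (sec AW w) := by
      rw [Dat.ms, mul_sum]
      refine sum_le_sum fun x hx => ?_
      obtain ⟨-, b, d, f⟩ := (mAW w x).1 ((mem_sec _ _ _).1 hx)
      exact (h.mW_mono w fun e _ he => ⟨he.1, he.2.2⟩).trans (c.cSW w x d b f).2
    have h7 : D.ms (sec AW w) ≤ 2 :=
      (h.ms_mono fun x hx => ((mAW w x).1 ((mem_sec _ _ _).1 hx)).2.1).trans (h.goodW w b1.1)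
    have h8 : 20 * ep * k ^ 2 * D.ms (sec AW w) ≤ 20 * ep * k ^ 2 * 2 :=
      mul_le_mul_of_nonneg_left h7 (by positivity)
    have h9 : D.mW w P ≤ 40 * ep * k := by
      refine le_of_mul_le_mul_left ?_ (show (0 : ℝ) < k by linarith)
      nlinarith
    linarith

theorem stCLEANA : St_CLEANA := by
  intro K k ep hK hk hep hep1
  have hk1 : (1 : ℝ) ≤ k := by exact_mod_cast hk
  obtain ⟨u, hu⟩ : ∃ u : ℝ, u = ep ^ 4 / 512 := ⟨_, rfl⟩
  have hu0 : 0 < u := by rw [hu]; positivity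
  obtain ⟨t2, ht2⟩ : ∃ t : ℝ, t = u / K := ⟨_, rfl⟩
  have ht20 : 0 < t2 := by rw [ht2]; positivity
  obtain ⟨t3, ht3⟩ : ∃ t : ℝ, t = u / (K * k ^ 2) := ⟨_, rfl⟩
  have ht30 : 0 < t3 := by rw [ht3]; positivity
  obtain ⟨be, hbe⟩ : ∃ t : ℝ, t = min ep (t2 * u) := ⟨_, rfl⟩
  have hbe0 : 0 < be := by rw [hbe]; positivity
  obtain ⟨t1, ht1⟩ : ∃ t : ℝ, t = be * ep / (4 * K * k) := ⟨_, rfl⟩
  have ht10 : 0 < t1 := by rw [ht1]; positivity
  refine ⟨min (min (be * ep / 40) (be * t1 * ep / 4)) (min (t3 * u / 2) (ep ^ 2 / 64)),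
    by positivity, ?_⟩
  generalize hta : min (min (be * ep / 40) (be * t1 * ep / 4)) (min (t3 * u / 2) (ep ^ 2 / 64))
    = ta
  have a0 : 0 < ta := by rw [← hta]; positivity
  have a1 : ta ≤ be * ep / 40 := by rw [← hta]; exact (min_le_left _ _).trans (min_le_left _ _)
  have a2 : ta ≤ be * t1 * ep / 4 := by
    rw [← hta]; exact (min_le_left _ _).trans (min_le_right _ _)
  have a3 : ta ≤ t3 * u / 2 := by rw [← hta]; exact (min_le_right _ _).trans (min_le_left _ _)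
  have a4 : ta ≤ ep ^ 2 / 64 := by rw [← hta]; exact (min_le_right _ _).trans (min_le_right _ _)
  intro G W X _ _ _ _ _ D h
  have hW : (0 : ℝ) < Fintype.card W := by exact_mod_cast Fintype.card_pos
  have hG : (0 : ℝ) < Fintype.card G := by exact_mod_cast Fintype.card_pos
  have main : ∀ Xd SE Ed SW Wd, J D k ep Xd SE Ed SW Wd → D.mb Xd ≤ ep / 4 ∧
      (Ed.card : ℝ) ≤ ep * Fintype.card G ∧ (Wd.card : ℝ) ≤ ep * Fintype.card W := by
    intro Xd SE Ed SW Wd j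
    have b1 := j.cardWd h a0.le hep hk (by linarith) t1 ht10
    have c1 : 8 * ta / ep ≤ be / 5 := by rw [div_le_iff₀ hep]; linarith
    have c2 : 2 * ta ≤ be / 20 := by nlinarith
    have c3 : t1 * K * k / ep = be / 4 := by rw [ht1]; field_simp
    have c4 : ta / (t1 * ep) ≤ be / 4 := by rw [div_le_iff₀ (by positivity)]; linarith
    have b2 : (Wd.card : ℝ) ≤ be * Fintype.card W :=
      b1.trans (mul_le_mul_of_nonneg_right (by linarith) hW.le)
    have b3 := j.massSE h a0.le hep hk be t2 t3 ht20 ht30 b2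
    have d1 : t2 * K = u := by rw [ht2]; field_simp
    have d2 : be / t2 ≤ u := by
      rw [div_le_iff₀ ht20, hbe, mul_comm u]; exact min_le_right _ _
    have d3 : t3 * K * k ^ 2 = u := by rw [ht3]; field_simp
    have d4 : 2 * ta / t3 ≤ u := by rw [div_le_iff₀ ht30]; linarith
    have b4 : ∑ f ∈ SE, D.mu f.2 ≤ ep ^ 3 / 128 * Fintype.card G := by
      refine le_of_mul_le_mul_left (b3.trans ?_) hep
      have : ep * (ep ^ 3 / 128 * Fintype.card G) = 4 * u * Fintype.card G := by rw [hu]; ring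
      rw [this]
      exact mul_le_mul_of_nonneg_right (by linarith) hG.le
    have b5 := j.cardEd h hep
    have b6 : (∑ f ∈ SE, D.mu f.2) / (ep / 4) ≤ ep ^ 2 / 32 * Fintype.card G := by
      rw [div_le_iff₀ (by positivity)]
      have : ep ^ 2 / 32 * Fintype.card G * (ep / 4) = ep ^ 3 / 128 * Fintype.card G := by ring
      linarith
    have b7 : ta * Fintype.card G ≤ ep ^ 2 / 64 * Fintype.card G :=
      mul_le_mul_of_nonneg_right a4 hG.le
    have b8 := j.mbXd h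
    have e1 : ep ^ 3 * Fintype.card G ≤ ep ^ 2 * Fintype.card G := by
      have : ep ^ 3 ≤ ep ^ 2 := by nlinarith [sq_nonneg ep]
      exact mul_le_mul_of_nonneg_right this hG.le
    have e2 : ep ^ 2 * Fintype.card G ≤ ep * Fintype.card G := by
      have : ep ^ 2 ≤ ep := by nlinarith
      exact mul_le_mul_of_nonneg_right this hG.le
    have e3 : 0 ≤ ep ^ 2 * Fintype.card G := by positivity
    refine ⟨?_, by linarith, b2.trans (mul_le_mul_of_nonneg_right ?_ hW.le)⟩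
    · refine le_of_mul_le_mul_left ?_ (show 0 < ep * Fintype.card G by positivity)
      have : ep * Fintype.card G * (ep / 4) = ep ^ 2 * Fintype.card G / 4 := by ring
      linarith
    · rw [hbe]; exact min_le_left _ _
  obtain ⟨Xd, SE, Ed, SW, Wd, j, c⟩ := exists_closed h hep fun _ _ _ _ _ j => (main _ _ _ _ _ j).1
  exact concl_of_closed h hep hk c (main _ _ _ _ _ j).2.1 (main _ _ _ _ _ j).2.2

end

end Pool.Agent.Lib.BK2.Cl
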