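import Mathlib

/-! Abstract cleaning lemma: definitions and statement. -/

noncomputable section

namespace Pool.Agent.Lib.BK2.CA

open Finset Classical

/-- weighted pairs `(e, w)` carrying finite sets of points -/
structure CLD (G W X : Type) where
  om : G → W → ℝ
  Z : G → W → Finset X
  Maj : G → Finset X
  inc : W → Finset X
  mu : X → ℝ
  pp : X → ℝ
  badW : W → Prop
  badF : W → X → Prop

/-- the number of elements with a property, as a real number -/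
def cnt {A : Type} [Fintype A] (P : A → Prop) : ℝ := ∑ a, if P a then 1 else 0

namespace CLD

variable {G W X : Type} [Fintype G] [Fintype W] [Fintype X] (D : CLD G W X)

/-- mass of the points of `A` in `S` -/
def ms (A : Finset X) (S : X → Prop) : ℝ := ∑ x ∈ A, if S x then D.mu x else 0

/-- weight of the pairs at `w` with a property -/
def sE (w : W) (P : G → Prop) : ℝ := ∑ e, if P e then D.om e w else 0

/-- weight of the pairs at `e` with a property -/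
def sW (e : G) (P : W → Prop) : ℝ := ∑ w, if P w then D.om e w else 0

/-- weight of the pairs at the flag `(w, x)` that meet `σ` -/
def lE (w : W) (x : X) (σ : G → X → Prop) : ℝ :=
  D.sE w fun e => x ∈ D.Z e w ∧ ∃ x' ∈ D.Z e w, σ e x'

structure Hyp (k : ℕ) (ε θ t K K₂ : ℝ) : Prop where
  k_pos : 1 ≤ k
  ε_pos : 0 < ε
  ε_le : ε ≤ 1
  θ_nn : 0 ≤ θ
  t_pos : 0 < t
  K_ge : 1 ≤ K
  K₂_nn : 0 ≤ K₂
  small : 600 * K ^ 2 * t ≤ ε ^ 5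
  om_nn : ∀ e w, 0 ≤ D.om e w
  mu_pos : ∀ x, 0 < D.mu x
  pp_pos : ∀ x, 0 < D.pp x
  mb_sum : ∑ x, D.mu x / D.pp x ≤ 1
  mb_le : ∀ x, D.mu x / D.pp x ≤ ε / 4
  z_card : ∀ e w, D.om e w ≠ 0 → (D.Z e w).card = k
  z_maj : ∀ e w, D.om e w ≠ 0 → D.Z e w ⊆ D.Maj e
  z_inc : ∀ e w, D.om e w ≠ 0 → D.Z e w ⊆ D.inc w
  maj_le : ∀ e, ∑ x ∈ D.Maj e, D.mu x ≤ 2
  inc_le : ∀ w, ¬ D.badW w → ∑ x ∈ D.inc w, D.mu x ≤ 2
  bad0 : cnt D.badW ≤ t ^ 4 * Fintype.card W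
  bad1 : ∑ w, D.ms (D.inc w) (D.badF w) ≤ t ^ 4 * Fintype.card W
  l2_0 : ∑ w, D.sE w (fun _ => True) ^ 2 ≤ K ^ 2 * Fintype.card G ^ 2 * Fintype.card W
  l2_1 : ∑ w, ∑ x ∈ D.inc w, D.sE w (fun e => x ∈ D.Z e w) ^ 2 / D.mu x ≤
    K ^ 2 * Fintype.card G ^ 2 * Fintype.card W
  smW : ∀ S : X → Prop, (∑ x, if S x then D.mu x / D.pp x else 0) ≤ ε / 2 →
    cnt (fun w => 3 * ε / 4 < D.ms (D.inc w) S) ≤ t ^ 4 * Fintype.card W
  smE : ∀ S : X → Prop, (∑ x, if S x then D.mu x / D.pp x else 0) ≤ ε / 2 →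
    cnt (fun e => 3 * ε / 4 < D.ms (D.Maj e) S) ≤ t ^ 4 * Fintype.card G
  em1 : ∀ e, ∀ x ∈ D.Maj e, D.sW e (fun w => x ∈ D.Z e w) ≤ K₂ * D.mu x * Fintype.card W
  em2 : ∀ e, ∀ x ∈ D.Maj e, ∀ x' ∈ D.Maj e, x ≠ x' →
    D.sW e (fun w => x ∈ D.Z e w ∧ x' ∈ D.Z e w) ≤ K₂ * D.mu x * D.mu x' * Fintype.card W
  wm1 : ∀ w, ¬ D.badW w → ∀ x ∈ D.inc w, ¬ D.badF w x →
    D.sE w (fun e => x ∈ D.Z e w) ≤ K₂ * D.mu x * Fintype.card G
  wm2 : ∀ w, ¬ D.badW w → ∀ x ∈ D.inc w, ¬ D.badF w x → ∀ S : X → Prop, ¬ S x →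
    D.ms (D.inc w) S ≤ ε →
    D.sE w (fun e => x ∈ D.Z e w ∧ ∃ x' ∈ D.Z e w, S x') ≤ K₂ * ε * D.mu x * Fintype.card G
  gain : ∀ (x : X) (σ : G → X → Prop),
    D.pp x * cnt (fun e => x ∈ D.Maj e ∧ σ e x) ≤ ε * Fintype.card G →
    (∀ e, x ∈ D.Maj e → D.ms (D.Maj e) (σ e) ≤ ε ∨ σ e x) →
    D.pp x * cnt (fun w => x ∈ D.inc w ∧ θ * D.mu x * Fintype.card G < D.lE w x σ) ≤
      t ^ 4 * Fintype.card W

/-- a pair all of whose slots are alive -/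
def Al (aE : G → Prop) (aW : W → Prop) (fE : G → X → Prop) (fW : W → X → Prop) (e : G) (w : W) :
    Prop := aE e ∧ aW w ∧ ∀ x ∈ D.Z e w, fE e x ∧ fW w x

/-- the output of the cleaning, with loss `L` -/
structure Out (ε L : ℝ) (aE : G → Prop) (aW : W → Prop) (fE : G → X → Prop)
    (fW : W → X → Prop) : Prop where
  gW : ∀ w, aW w → ¬ D.badW w
  gE : ∀ e x, fE e x → aE e ∧ x ∈ D.Maj e
  gF : ∀ w x, fW w x → aW w ∧ x ∈ D.inc w ∧ ¬ D.badF w x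
  lossE1 : ∀ e x, fE e x →
    D.sW e (fun w => x ∈ D.Z e w ∧ ¬ D.Al aE aW fE fW e w) ≤ L * D.mu x * Fintype.card W
  lossW1 : ∀ w x, fW w x →
    D.sE w (fun e => x ∈ D.Z e w ∧ ¬ D.Al aE aW fE fW e w) ≤ L * D.mu x * Fintype.card G
  lossE0 : ∀ e, aE e → D.sW e (fun w => ¬ D.Al aE aW fE fW e w) ≤ 3 * L * Fintype.card W
  lossW0 : ∀ w, aW w → D.sE w (fun e => ¬ D.Al aE aW fE fW e w) ≤ 3 * L * Fintype.card G
  mE : ∀ e, aE e → D.ms (D.Maj e) (fun x => ¬ fE e x) ≤ ε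
  mW : ∀ w, aW w → D.ms (D.inc w) (fun x => ¬ fW w x) ≤ ε
  cE : cnt (fun e => ¬ aE e) ≤ ε * Fintype.card G
  cW : cnt (fun w => ¬ aW w) ≤ ε * Fintype.card W

end CLD

/-- the abstract cleaning lemma -/
def St_CleanA : Prop :=
  ∀ (G W X : Type) [Fintype G] [Fintype W] [Fintype X] [Nonempty G] [Nonempty W] (D : CLD G W X)
    (k : ℕ) (ε θ t K K₂ : ℝ), D.Hyp k ε θ t K K₂ → ∃ aE aW fE fW, D.Out ε (θ + (k + K₂) * ε) aE aW fE fW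

end Pool.Agent.Lib.BK2.CA
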