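import Mathlib

namespace Pool.Agent.Lib.BK2.Cl

open Finset

noncomputable section
open Classical

structure Dat (G W X : Type) where
  om : G → W → ℝ
  Z : G → W → Finset X
  mu : X → ℝ
  q : X → ℝ
  ME : G → Finset X
  MW : W → Finset X
  badW : Finset W
  badF : Finset (W × X)

variable {G W X : Type} [Fintype G] [Fintype W] [Fintype X]

def Dat.mE (D : Dat G W X) (e : G) (P : W → Prop) : ℝ :=
  (∑ w, if P w then D.om e w else 0) / Fintype.card W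

def Dat.mW (D : Dat G W X) (w : W) (P : G → Prop) : ℝ :=
  (∑ e, if P e then D.om e w else 0) / Fintype.card G

def Dat.ms (D : Dat G W X) (S : Finset X) : ℝ := ∑ x ∈ S, D.mu x

def Dat.mb (D : Dat G W X) (S : Finset X) : ℝ := ∑ x ∈ S, D.mu x / D.q x

def sec {A : Type} (S : Finset (A × X)) (a : A) : Finset X := univ.filter fun x => (a, x) ∈ S

structure Hyp (D : Dat G W X) (K : ℝ) (k : ℕ) (ep ta : ℝ) : Prop where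
  om_nn : ∀ e w, 0 ≤ D.om e w
  mu_pos : ∀ x, 0 < D.mu x
  q_pos : ∀ x, 0 < D.q x
  hZ : ∀ e w, D.om e w ≠ 0 → D.Z e w ⊆ D.ME e ∧ D.Z e w ⊆ D.MW w ∧ (D.Z e w).card = k
  mb_le : D.mb univ ≤ 1
  mb_one : ∀ x, D.mu x / D.q x ≤ ep / 4
  ME_le : ∀ e, D.ms (D.ME e) ≤ 2
  E1 : ∀ e x, D.mE e (fun w => x ∈ D.Z e w) ≤ 3 * k * D.mu x
  E2 : ∀ e x x', x ≠ x' →
    D.mE e (fun w => x ∈ D.Z e w ∧ x' ∈ D.Z e w) ≤ 3 * k ^ 2 * D.mu x * D.mu x'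
  SW : ∀ (x : X) (sg : Finset (G × X)),
    D.q x * ((univ.filter fun e => (e, x) ∈ sg).card : ℝ) ≤ ep * Fintype.card G →
    (∀ e, x ∈ D.ME e → (e, x) ∈ sg ∨ D.ms (sec sg e) ≤ ep) →
    D.q x * ((univ.filter fun w => x ∈ D.MW w ∧ 20 * ep * k ^ 2 * D.mu x <
      D.mW w (fun e => x ∈ D.Z e w ∧ ∃ x' ∈ D.Z e w, (e, x') ∈ sg)).card : ℝ)
      ≤ ta * Fintype.card W
  badW_le : (D.badW.card : ℝ) ≤ ta * Fintype.card W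
  badF_le : ∑ f ∈ D.badF, D.mu f.2 ≤ ta * Fintype.card W
  goodW : ∀ w, w ∉ D.badW → D.ms (D.MW w) ≤ 2
  goodF1 : ∀ w x, x ∈ D.MW w → (w, x) ∉ D.badF →
    D.mW w (fun e => x ∈ D.Z e w) ≤ 3 * k * D.mu x
  goodF2 : ∀ w x (S : Finset X), x ∈ D.MW w → (w, x) ∉ D.badF →
    D.mW w (fun e => x ∈ D.Z e w ∧ ∃ x' ∈ S, x' ≠ x ∧ x' ∈ D.Z e w)
      ≤ 2 * k ^ 2 * D.mu x * D.ms (S ∩ D.MW w) + 10 * ep * k ^ 2 * D.mu x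
  L20 : ∑ w, (D.mW w fun _ => True) ^ 2 ≤ K * Fintype.card W
  L21 : ∑ w, ∑ x, (D.mW w fun e => x ∈ D.Z e w) ^ 2 / D.mu x ≤ K * k ^ 2 * Fintype.card W
  tailE : ∀ S : Finset X, D.mb S ≤ ep / 2 →
    ((univ.filter fun e => 3 * ep / 4 < D.ms (S ∩ D.ME e)).card : ℝ) ≤ ta * Fintype.card G
  tailW : ∀ S : Finset X, D.mb S ≤ ep / 2 →
    ((univ.filter fun w => 3 * ep / 4 < D.ms (S ∩ D.MW w)).card : ℝ) ≤ ta * Fintype.card W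

def Dat.al (D : Dat G W X) (Ga : Finset G) (Wa : Finset W) (AE : Finset (G × X))
    (AW : Finset (W × X)) (e : G) (w : W) : Prop :=
  e ∈ Ga ∧ w ∈ Wa ∧ ∀ x ∈ D.Z e w, (e, x) ∈ AE ∧ (w, x) ∈ AW

structure Concl (D : Dat G W X) (k : ℕ) (ep : ℝ) (Ga : Finset G) (Wa : Finset W)
    (AE : Finset (G × X)) (AW : Finset (W × X)) : Prop where
  AE_sub : ∀ e x, (e, x) ∈ AE → e ∈ Ga ∧ x ∈ D.ME e
  AW_sub : ∀ w x, (w, x) ∈ AW → w ∈ Wa ∧ x ∈ D.MW w ∧ (w, x) ∉ D.badF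
  Wa_good : ∀ w ∈ Wa, w ∉ D.badW
  AE_most : ∀ e ∈ Ga, D.ms (D.ME e \ sec AE e) ≤ ep
  AW_most : ∀ w ∈ Wa, D.ms (D.MW w \ sec AW w) ≤ ep
  Ga_most : ((univ \ Ga).card : ℝ) ≤ ep * Fintype.card G
  Wa_most : ((univ \ Wa).card : ℝ) ≤ ep * Fintype.card W
  lossEF : ∀ e x, (e, x) ∈ AE →
    D.mE e (fun w => x ∈ D.Z e w ∧ ¬ D.al Ga Wa AE AW e w) ≤ 4 * ep * k ^ 2 * D.mu x
  lossE : ∀ e ∈ Ga, D.mE e (fun w => ¬ D.al Ga Wa AE AW e w) ≤ 5 * ep * k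
  lossWF : ∀ w x, (w, x) ∈ AW →
    D.mW w (fun e => x ∈ D.Z e w ∧ ¬ D.al Ga Wa AE AW e w) ≤ 32 * ep * k ^ 2 * D.mu x
  lossW : ∀ w ∈ Wa, D.mW w (fun e => ¬ D.al Ga Wa AE AW e w) ≤ 44 * ep * k

def St_CLEANA : Prop :=
  ∀ (K : ℝ) (k : ℕ) (ep : ℝ), 1 ≤ K → 1 ≤ k → 0 < ep → ep ≤ 1 → ∃ ta : ℝ, 0 < ta ∧
    ∀ (G W X : Type) [Fintype G] [Fintype W] [Fintype X] [Nonempty G] [Nonempty W]
      (D : Dat G W X), Hyp D K k ep ta → ∃ Ga Wa AE AW, Concl D k ep Ga Wa AE AW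

end

end Pool.Agent.Lib.BK2.Cl
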