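import Pool.Agent.Lib.BK2.CDefs

namespace Pool.Agent.Lib.BK2.Co

open Finset
open Classical

namespace Q1

variable {G W X C O O' : Type} [Fintype G] [Fintype W] [Fintype X] [Fintype C] [Fintype O]
  [Fintype O']

omit [Fintype G] [Fintype X] [Fintype O] [Fintype O'] in
theorem sum_sz (D : CD G W X C O O') : ∑ c, D.sz c = Fintype.card W := by
  unfold CD.sz
  simp only [card_filter, Nat.cast_sum]
  rw [sum_comm]
  simp

omit [Fintype G] [Fintype X] [Fintype O] [Fintype O'] in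
theorem sum_NE (D : CD G W X C O O') (e : G) (P : W → Prop) [DecidablePred P] :
    ∑ c, D.NE e c P = ∑ w, if P w then D.om e w else 0 := by
  unfold CD.NE
  rw [sum_comm]
  refine sum_congr rfl fun w _ => ?_
  by_cases h : P w <;> simp [h]

omit [Fintype G] [Fintype X] [Fintype O] [Fintype O'] in
theorem cells (D : CD G W X C O O') (e : G) (P : W → Prop) [DecidablePred P] (A B : ℝ)
    (h : ∀ c, |D.NE e c P - A * D.sz c| ≤ B * D.sz c) :
    |(∑ w, if P w then D.om e w else 0) - A * Fintype.card W| ≤ B * Fintype.card W := by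
  rw [← sum_NE, ← sum_sz D, mul_sum, mul_sum, ← sum_sub_distrib]
  exact (abs_sum_le_sum_abs _ _).trans (sum_le_sum fun c _ => h c)

omit [Fintype X] in
theorem expand (T Z : Finset X) (f : X → ℝ) (o : ℝ) (h : o ≠ 0 → Z ⊆ T) :
    o * ((∑ x ∈ Z, f x) * ∑ x ∈ Z, f x) =
      ∑ x ∈ T, ∑ y ∈ T, f x * f y * if x ∈ Z ∧ y ∈ Z then o else 0 := by
  by_cases ho : o = 0
  · simp [ho]
  have e : ∑ x ∈ Z, f x = ∑ x ∈ T, if x ∈ Z then f x else 0 := by
    rw [← sum_filter, filter_mem_eq_inter, inter_eq_right.mpr (h ho)]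
  rw [e, sum_mul_sum, mul_sum]
  refine sum_congr rfl fun x _ => ?_
  rw [mul_sum]
  refine sum_congr rfl fun y _ => ?_
  by_cases hx : x ∈ Z <;> by_cases hy : y ∈ Z <;> simp [hx, hy]
  ring

theorem low (u v N M E : ℝ) (h : |N - M| ≤ E) :
    u * v * M - E * ((u ^ 2 + v ^ 2) / 2) ≤ u * v * N := by
  have h1 : |u * v| ≤ (u ^ 2 + v ^ 2) / 2 :=
    abs_le.mpr ⟨by nlinarith [sq_nonneg (u + v)], by nlinarith [sq_nonneg (u - v)]⟩
  have h2 : |u * v * (N - M)| ≤ (u ^ 2 + v ^ 2) / 2 * E := by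
    rw [abs_mul]
    exact mul_le_mul h1 h (abs_nonneg _) (by positivity)
  linarith [(abs_le.mp h2).1]

theorem one_e (D : CD G W X C O O') (h : D.Ok) (e : G) (f : X → ℝ)
    (h1 : ∑ x ∈ D.ME e, D.mu x * f x = 0) (h2 : ∑ x ∈ D.ME e, D.mu x * f x * D.a x = 0) :
    D.k / 4 * (∑ x ∈ D.ME e, D.mu x * f x ^ 2) * Fintype.card W ≤
      ∑ w, D.om e w * ((∑ x ∈ D.Z e w, f x) * ∑ x ∈ D.Z e w, f x) := by
  set T := D.ME e with hT
  set n : ℝ := (Fintype.card W : ℝ) with hn
  set S : ℝ := ∑ x ∈ T, D.mu x * f x ^ 2 with hS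
  set k : ℝ := (D.k : ℝ) with hk
  have hn0 : 0 ≤ n := Nat.cast_nonneg _
  have hK := h.K1
  have hkK : 100 * D.K ≤ k := h.hk
  have hδ0 := h.δ0
  have hδ : 1000 * D.K * k * D.δ ≤ 1 := h.hδ
  have hk0 : 0 < k := by linarith
  have hmu : ∀ x, 0 ≤ D.mu x := fun x => (h.mu_pos x).le
  have hS0 : 0 ≤ S := sum_nonneg fun x _ => mul_nonneg (hmu x) (sq_nonneg _)
  let g : X → X → ℝ := fun x y => D.mu x * D.mu y * (D.δ + if D.q y = D.q x then 2 else 0)
  have key : ∀ x ∈ T, ∀ y ∈ T,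
      (if x = y then (k / 2 - D.δ * k) * n * (D.mu x * f x ^ 2) else 0) +
        k * (k - 1) * n * (D.mu x * f x * (D.mu y * f y) * D.d2 x y) -
        k ^ 2 * n * (g x y * ((f x ^ 2 + f y ^ 2) / 2)) ≤
      f x * f y * ∑ w, if x ∈ D.Z e w ∧ y ∈ D.Z e w then D.om e w else 0 := by
    intro x hx y hy
    have hm : 0 ≤ D.mu x * D.mu y * n := mul_nonneg (mul_nonneg (hmu x) (hmu y)) hn0
    by_cases hq : D.q y = D.q x
    · have hb : |0 - k * (k - 1) * D.d2 x y * D.mu x * D.mu y * n| ≤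
          k ^ 2 * (D.δ + 2) * (D.mu x * D.mu y * n) := by
        have e1 : 0 - k * (k - 1) * D.d2 x y * D.mu x * D.mu y * n =
            -(k * (k - 1) * D.d2 x y * (D.mu x * D.mu y * n)) := by ring
        rw [e1, abs_neg, abs_mul, abs_of_nonneg hm, abs_mul,
          abs_of_nonneg (show 0 ≤ k * (k - 1) by nlinarith)]
        refine mul_le_mul_of_nonneg_right (mul_le_mul (by nlinarith) ?_ (abs_nonneg _)
          (by positivity)) hm
        linarith [h.d2_le x y]
      have hl := low (f x) (f y) _ _ _ hb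
      by_cases hxy : x = y
      · subst hxy
        have h3 := (abs_le.mp (cells D e (fun w => x ∈ D.Z e w) _ _ fun c => h.E1 e c x hx)).1
        have h4 : (k / 2 - D.δ * k) * n * D.mu x ≤ ∑ w, if x ∈ D.Z e w then D.om e w else 0 := by
          have := mul_le_mul_of_nonneg_right (h.d1_lo x)
            (mul_nonneg (mul_nonneg hk0.le (hmu x)) hn0)
          linarith
        have h5 := mul_le_mul_of_nonneg_left h4 (sq_nonneg (f x))
        simp only [g, and_self, if_true]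
        linarith
      · have h3 : (∑ w, if x ∈ D.Z e w ∧ y ∈ D.Z e w then D.om e w else 0) = 0 := by
          refine sum_eq_zero fun w _ => ?_
          split_ifs with hw
          · by_contra h0
            exact hxy ((h.hZ e w h0).2.2.2 x hw.1 y hw.2 hq.symm)
          · rfl
        simp only [g, hq, hxy, if_true, if_false, h3]
        linarith
    · have hxy : x ≠ y := fun e => hq (by rw [e])
      have h3 := cells D e (fun w => x ∈ D.Z e w ∧ y ∈ D.Z e w) _ _
        fun c => h.E2 e c x hx y hy fun e => hq e.symm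
      have hl := low (f x) (f y) _ _ _ h3
      simp only [g, hq, hxy, if_false]
      linarith
  have hsum := sum_le_sum fun x hx => sum_le_sum fun y hy => key x hx y hy
  have e1 : ∑ w, D.om e w * ((∑ x ∈ D.Z e w, f x) * ∑ x ∈ D.Z e w, f x) =
      ∑ x ∈ T, ∑ y ∈ T, f x * f y * ∑ w, if x ∈ D.Z e w ∧ y ∈ D.Z e w then D.om e w else 0 := by
    rw [sum_congr rfl fun w _ => expand T (D.Z e w) f (D.om e w) fun h0 => (h.hZ e w h0).1,
      sum_comm]
    refine sum_congr rfl fun x _ => ?_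
    rw [sum_comm]
    exact sum_congr rfl fun y _ => (mul_sum _ _ _).symm
  have e2 : ∑ x ∈ T, ∑ y ∈ T, (if x = y then (k / 2 - D.δ * k) * n * (D.mu x * f x ^ 2) else 0) =
      (k / 2 - D.δ * k) * n * S := by
    rw [hS, mul_sum]
    exact sum_congr rfl fun x hx => by simp [hx]
  have hg : ∀ x y, g x y = g y x := by
    intro x y
    simp only [g, eq_comm (a := D.q x)]
    ring
  have hgs : ∀ x, ∑ y ∈ T, g x y ≤ D.mu x * (4 * D.δ) := by
    intro x
    have e3 : ∑ y ∈ T, g x y =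
        D.mu x * (D.δ * D.ms T + 2 * D.ms (T.filter fun y => D.q y = D.q x)) := by
      unfold CD.ms
      rw [sum_filter, mul_sum, mul_sum, ← sum_add_distrib, mul_sum]
      refine sum_congr rfl fun y _ => ?_
      simp only [g]
      split_ifs <;> ring
    rw [e3]
    refine mul_le_mul_of_nonneg_left ?_ (hmu x)
    have := mul_le_mul_of_nonneg_left (h.ME_le e) hδ0.le
    linarith [h.ME_pr e x]
  have e4 : ∑ x ∈ T, ∑ y ∈ T, g x y * ((f x ^ 2 + f y ^ 2) / 2) ≤ 4 * D.δ * S := by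
    have e5 : ∑ x ∈ T, ∑ y ∈ T, g x y * f y ^ 2 = ∑ x ∈ T, ∑ y ∈ T, g x y * f x ^ 2 := by
      rw [sum_comm]
      exact sum_congr rfl fun x _ => sum_congr rfl fun y _ => by rw [hg]
    have e6 : ∑ x ∈ T, ∑ y ∈ T, g x y * ((f x ^ 2 + f y ^ 2) / 2) =
        (∑ x ∈ T, ∑ y ∈ T, g x y * f x ^ 2 + ∑ x ∈ T, ∑ y ∈ T, g x y * f y ^ 2) / 2 := by
      rw [← sum_add_distrib, sum_div]
      refine sum_congr rfl fun x _ => ?_
      rw [← sum_add_distrib, sum_div]
      exact sum_congr rfl fun y _ => by ring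
    rw [e6, e5, add_self_div_two, hS, mul_sum]
    refine sum_le_sum fun x _ => ?_
    rw [← sum_mul]
    have := mul_le_mul_of_nonneg_right (hgs x) (sq_nonneg (f x))
    linarith
  have e7 := (abs_le.mp (h.coer T f (h.ME_le e) h1 h2).1).1
  simp only [sum_sub_distrib, sum_add_distrib, ← mul_sum] at hsum
  rw [e1]
  refine le_trans ?_ hsum
  rw [e2]
  have e8 : -(D.K * S) ≤
      k * (k - 1) * ∑ x ∈ T, ∑ y ∈ T, D.mu x * f x * (D.mu y * f y) * D.d2 x y := by
    have h3 := mul_le_mul_of_nonneg_left e7 (show 0 ≤ k * (k - 1) by nlinarith)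
    have h4 : k * (k - 1) * (D.K / k ^ 2 * S) ≤ D.K * S := by
      have : k * (k - 1) * (D.K / k ^ 2 * S) = (k - 1) / k * (D.K * S) := by
        field_simp
      rw [this]
      exact mul_le_of_le_one_left (by positivity) ((div_le_one hk0).mpr (by linarith))
    linarith
  have e9 : k * D.δ ≤ 1 / 1000 := by nlinarith [mul_pos hk0 hδ0]
  have e10 : 0 ≤ (k / 4 - D.δ * k - D.K - 4 * k * (k * D.δ)) * (S * n) :=
    mul_nonneg (by nlinarith) (mul_nonneg hS0 hn0)
  have e11 := mul_le_mul_of_nonneg_left e8 hn0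
  have e12 := mul_le_mul_of_nonneg_left e4 (mul_nonneg (sq_nonneg k) hn0)
  nlinarith

end Q1

theorem stQ1 : St_Q1 := by
  intro G W X C O O' _ _ _ _ _ _ _ _ D h c c' A A' hs
  have hW : (0 : ℝ) < Fintype.card W := Nat.cast_pos.mpr Fintype.card_pos
  unfold CD.nE CD.ip av
  rw [Real.sq_sqrt (div_nonneg (sum_nonneg fun e _ => sum_nonneg fun x _ =>
    mul_nonneg (h.mu_pos x).le (sq_nonneg _)) (Nat.cast_nonneg _)), ← mul_div_assoc, mul_sum]
  refine div_le_div_of_nonneg_right (sum_le_sum fun e _ => ?_) (Nat.cast_nonneg _)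
  rw [le_div_iff₀ hW]
  exact Q1.one_e D h e (c e) (hs.gE1 e) (hs.gEa e)

end Pool.Agent.Lib.BK2.Co
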