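import Pool.Agent.Lib.BK2.CDefs

/-! Coercivity of the quadratic form on the side of the window. -/

namespace Pool.Agent.Lib.BK2.Co

open Finset

set_option linter.unusedSectionVars false

noncomputable section
open Classical

namespace Q2

theorem schur {X : Type} (T : Finset X) (c : X → ℝ) (E : X → X → ℝ) (hs : ∀ x y, E x y = E y x) :
    |∑ x ∈ T, ∑ y ∈ T, c x * c y * E x y| ≤ ∑ x ∈ T, c x ^ 2 * ∑ y ∈ T, |E x y| := by
  have h1 : ∑ x ∈ T, ∑ y ∈ T, c y ^ 2 * |E x y| = ∑ x ∈ T, ∑ y ∈ T, c x ^ 2 * |E x y| := by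
    rw [sum_comm]
    exact sum_congr rfl fun x _ => sum_congr rfl fun y _ => by rw [hs]
  have h2 : |∑ x ∈ T, ∑ y ∈ T, c x * c y * E x y| ≤
      ∑ x ∈ T, ∑ y ∈ T, (c x ^ 2 * |E x y| + c y ^ 2 * |E x y|) / 2 := by
    refine (abs_sum_le_sum_abs _ _).trans (sum_le_sum fun x _ => (abs_sum_le_sum_abs _ _).trans
      (sum_le_sum fun y _ => ?_))
    rw [abs_mul, abs_mul]
    have := mul_nonneg (sq_nonneg (|c x| - |c y|)) (abs_nonneg (E x y))
    rw [← sq_abs (c x), ← sq_abs (c y)]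
    nlinarith
  simp only [← sum_div, sum_add_distrib] at h2
  simp only [mul_sum]
  linarith

theorem quad {X : Type} (T : Finset X) (c mu q : X → ℝ) (m d : X → X → ℝ) {k K δ : ℝ}
    (hK : 1 ≤ K) (hk : 100 * K ≤ k) (hδ0 : 0 < δ) (hδ : 1000 * K * k * δ ≤ 1)
    (hm : ∀ x y, m x y = m y x) (hd : ∀ x y, d x y = d y x) (hd2 : ∀ x y, |d x y| ≤ 2)
    (hmu : ∀ x, 0 < mu x) (h1 : ∀ x, c x ≠ 0 → k * (1 / 2 - δ) * mu x ≤ m x x)
    (h0 : ∀ x y, q x = q y → x ≠ y → m x y = 0)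
    (h2 : ∀ x, c x ≠ 0 → ∑ y ∈ T.filter (fun y => q y ≠ q x),
      |m x y - k * (k - 1) * d x y * mu x * mu y| ≤ δ * k ^ 2 * mu x)
    (hp : ∀ x, ∑ y ∈ T.filter (fun y => q y = q x), mu y ≤ δ)
    (hc : |∑ x ∈ T, ∑ y ∈ T, mu x * c x * (mu y * c y) * d x y| ≤
      K / k ^ 2 * ∑ x ∈ T, mu x * c x ^ 2) :
    k / 4 * ∑ x ∈ T, mu x * c x ^ 2 ≤ ∑ x ∈ T, ∑ y ∈ T, c x * c y * m x y := by
  set S := ∑ x ∈ T, mu x * c x ^ 2 with hS
  have hS0 : 0 ≤ S := sum_nonneg fun x _ => mul_nonneg (hmu x).le (sq_nonneg _)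
  let E1 : X → X → ℝ := fun x y =>
    if q y ≠ q x then m x y - k * (k - 1) * d x y * mu x * mu y else 0
  let E2 : X → X → ℝ := fun x y => if q y = q x then mu x * mu y * d x y else 0
  have e : ∑ x ∈ T, ∑ y ∈ T, c x * c y * m x y = ∑ x ∈ T, c x ^ 2 * m x x +
      ∑ x ∈ T, ∑ y ∈ T, c x * c y * E1 x y +
      k * (k - 1) * ∑ x ∈ T, ∑ y ∈ T, mu x * c x * (mu y * c y) * d x y -
      k * (k - 1) * ∑ x ∈ T, ∑ y ∈ T, c x * c y * E2 x y := by
    simp only [mul_sum, ← sum_add_distrib, ← sum_sub_distrib]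
    refine sum_congr rfl fun x hx => ?_
    have : c x ^ 2 * m x x = ∑ y ∈ T, if x = y then c x ^ 2 * m x x else 0 := by simp [hx]
    rw [this, ← sum_add_distrib, ← sum_add_distrib, ← sum_sub_distrib]
    refine sum_congr rfl fun y _ => ?_
    by_cases hq : q y = q x
    · by_cases hxy : x = y
      · subst hxy
        simp only [E1, E2, ne_eq, not_true, if_true, if_false]
        ring
      · simp only [E1, E2, ne_eq, hq, not_true, if_true, if_false, hxy, h0 x y hq.symm hxy]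
        ring
    · have hxy : x ≠ y := fun h => hq (h ▸ rfl)
      simp only [E1, E2, ne_eq, hq, not_false_iff, if_true, if_false, hxy]
      ring
  have b0 : k * (1 / 2 - δ) * S ≤ ∑ x ∈ T, c x ^ 2 * m x x := by
    rw [hS, mul_sum]
    refine sum_le_sum fun x _ => ?_
    by_cases hx : c x = 0
    · simp [hx]
    · have := mul_le_mul_of_nonneg_left (h1 x hx) (sq_nonneg (c x))
      linarith
  have b1 : |∑ x ∈ T, ∑ y ∈ T, c x * c y * E1 x y| ≤ δ * k ^ 2 * S := by
    refine (schur T c E1 fun x y => ?_).trans ?_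
    · simp only [E1, ne_eq, eq_comm (a := q x), hm x y, hd x y, mul_right_comm _ (mu x) (mu y)]
    rw [hS, mul_sum]
    refine sum_le_sum fun x _ => ?_
    by_cases hx : c x = 0
    · simp [hx]
    · have h3 := h2 x hx
      rw [sum_filter] at h3
      have h4 : ∑ y ∈ T, |E1 x y| ≤ δ * k ^ 2 * mu x :=
        (sum_congr rfl fun y _ => by simp only [E1]; split_ifs <;> simp).trans_le h3
      have := mul_le_mul_of_nonneg_left h4 (sq_nonneg (c x))
      linarith
  have b2 : |∑ x ∈ T, ∑ y ∈ T, c x * c y * E2 x y| ≤ 2 * δ * S := by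
    refine (schur T c E2 fun x y => ?_).trans ?_
    · simp only [E2, eq_comm (a := q x), hd x y, mul_comm (mu x) (mu y)]
    rw [hS, mul_sum]
    refine sum_le_sum fun x _ => ?_
    have h3 := hp x
    rw [sum_filter] at h3
    have h4 : ∑ y ∈ T, |E2 x y| ≤ 2 * mu x * ∑ y ∈ T, if q y = q x then mu y else 0 := by
      rw [mul_sum]
      refine sum_le_sum fun y _ => ?_
      simp only [E2]
      split_ifs
      · have := mul_pos (hmu x) (hmu y)
        rw [abs_mul, abs_of_pos this]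
        nlinarith [hd2 x y]
      · simp
    have h5 := mul_le_mul_of_nonneg_left h3 (mul_pos two_pos (hmu x)).le
    have := mul_le_mul_of_nonneg_left (h4.trans h5) (sq_nonneg (c x))
    linarith
  have hk0 : 0 < k := by linarith
  have hkk : 0 ≤ k * (k - 1) := mul_nonneg hk0.le (by linarith)
  have hkk2 : k * (k - 1) ≤ k ^ 2 := by nlinarith
  have b3 : k * (k - 1) * (K / k ^ 2 * S) ≤ K * S := by
    calc _ ≤ k ^ 2 * (K / k ^ 2 * S) := mul_le_mul_of_nonneg_right hkk2 (by positivity)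
      _ = _ := by field_simp
  have b4 : k * (k - 1) * (2 * δ * S) ≤ k ^ 2 * (2 * δ * S) :=
    mul_le_mul_of_nonneg_right hkk2 (by positivity)
  have c3 := mul_le_mul_of_nonneg_left (abs_le.1 hc).1 hkk
  have c4 := mul_le_mul_of_nonneg_left (abs_le.1 b2).2 hkk
  have hkd : k * δ ≤ 1 / 1000 := by nlinarith [mul_pos hk0 hδ0]
  have hdd : δ ≤ 1 / 1000 := by nlinarith
  have hkS : 0 ≤ k * S := mul_nonneg hk0.le hS0
  have d1 := mul_le_mul_of_nonneg_right hkd hkS
  have d2 := mul_le_mul_of_nonneg_right hdd hkS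
  have d3 := mul_le_mul_of_nonneg_right hk hS0
  have c1 := (abs_le.1 b1).1
  rw [e]
  nlinarith

theorem av_comm {G W : Type} [Fintype G] [Fintype W] (f : G → W → ℝ) :
    av (fun e => av fun w => f e w) = av fun w => av fun e => f e w := by
  simp only [av, ← sum_div]
  rw [sum_comm, div_right_comm]

theorem av_sum {G X : Type} [Fintype G] (T : Finset X) (f : G → X → ℝ) :
    av (fun e => ∑ x ∈ T, f e x) = ∑ x ∈ T, av fun e => f e x := by
  simp only [av, ← sum_div]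
  rw [sum_comm]

theorem av_mul {G : Type} [Fintype G] (a : ℝ) (f : G → ℝ) : av (fun e => a * f e) = a * av f := by
  simp only [av, ← mul_sum, mul_div_assoc]

theorem av_mono {G : Type} [Fintype G] {f g : G → ℝ} (h : ∀ e, f e ≤ g e) : av f ≤ av g :=
  div_le_div_of_nonneg_right (sum_le_sum fun e _ => h e) (Nat.cast_nonneg _)

variable {G W X C O O' : Type} [Fintype G] [Fintype W] [Fintype X] [Fintype C] [Fintype O]
  [Fintype O'] (D : CD G W X C O O')

theorem sum_nB [Nonempty G] : ∑ b, D.nB b = 1 := by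
  simp only [CD.nB, ← av_sum]
  simp [av]

theorem sum_mW (w : W) (P : G → Prop) : ∑ b, D.mW w (fun e => D.ec e = b ∧ P e) = D.mW w P := by
  simp only [CD.mW, ← av_sum]
  refine congrArg av (funext fun e => ?_)
  by_cases h : P e <;> simp [h]

theorem expand (h : D.Ok) (w : W) (c : X → ℝ) :
    av (fun e => D.om e w * ((∑ x ∈ D.Z e w, c x) * ∑ x ∈ D.Z e w, c x)) =
      ∑ x ∈ D.MW w, ∑ y ∈ D.MW w, c x * c y * D.mW w fun e => x ∈ D.Z e w ∧ y ∈ D.Z e w := by
  simp only [CD.mW, ← av_mul, ← av_sum]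
  refine congrArg av (funext fun e => ?_)
  by_cases h0 : D.om e w = 0
  · simp [h0]
  have hs : ∑ x ∈ D.Z e w, c x = ∑ x ∈ D.MW w, if x ∈ D.Z e w then c x else 0 := by
    rw [← sum_filter, filter_mem_eq_inter, inter_eq_right.2 (h.hZ e w h0).2.1]
  rw [hs, sum_mul_sum, mul_sum]
  refine sum_congr rfl fun x _ => ?_
  rw [mul_sum]
  refine sum_congr rfl fun y _ => ?_
  by_cases hx : x ∈ D.Z e w <;> by_cases hy : y ∈ D.Z e w <;> simp [hx, hy, mul_comm]

end Q2

theorem stQ2 : St_Q2 := by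
  intro G W X C O O' _ _ _ _ _ _ _ _ D h c c' A A' hs
  have h0 : 0 ≤ av fun w => ∑ x ∈ D.MW w, D.mu x * c' w x ^ 2 :=
    div_nonneg (sum_nonneg fun w _ => sum_nonneg fun x _ =>
      mul_nonneg (h.mu_pos x).le (sq_nonneg _)) (Nat.cast_nonneg _)
  rw [CD.nW, Real.sq_sqrt h0, CD.ip, Q2.av_comm, ← Q2.av_mul]
  refine Q2.av_mono fun w => ?_
  have hA : ∀ x, c' w x ≠ 0 → (w, x) ∈ D.AW := fun x hx => by
    by_contra hn
    exact hx (hs.c'0 w x hn)
  by_cases hw : w ∈ D.Wa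
  swap
  · have : ∀ x, c' w x = 0 := fun x => by
      by_contra hx
      exact hw (h.AW_sub w x (hA x hx)).1
    simp [CD.Bf, this, av]
  refine (Q2.quad (D.MW w) (c' w) D.mu D.q _ D.d2 h.K1 h.hk h.δ0 h.hδ (fun x y => ?_) h.d2_symm
    h.d2_le h.mu_pos (fun x hx => ?_) (fun x y hq hxy => ?_) (fun x hx => h.W2 w x (hA x hx))
    (h.MW_pr w hw) (h.coer _ _ (h.MW_le w hw) (hs.gW1 w) (hs.gWa w)).1).trans_eq
    (Q2.expand D h w (c' w)).symm
  · simp only [and_comm]
  · have h1 := (abs_sum_le_sum_abs _ _).trans (h.W1 w x (hA x hx))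
    rw [sum_sub_distrib, Q2.sum_mW, ← mul_sum, Q2.sum_nB] at h1
    have h2 := mul_le_mul_of_nonneg_right (h.d1_lo x)
      (mul_nonneg (Nat.cast_nonneg (α := ℝ) D.k) (h.mu_pos x).le)
    simp only [and_self]
    linarith [(abs_le.1 h1).1]
  · rw [CD.mW, av, sum_eq_zero, zero_div]
    intro e _
    by_contra hn
    have h1 : x ∈ D.Z e w ∧ y ∈ D.Z e w := by
      by_contra h2
      exact hn (if_neg h2)
    rw [if_pos h1] at hn
    exact hxy ((h.hZ e w hn).2.2.2 x h1.1 y h1.2 hq)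

end

end Pool.Agent.Lib.BK2.Co
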