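import Pool.Agent.Lib.BK2.CDefs

/-! BK2 CORE: the residual lives on dead pairs. -/

namespace Pool.Agent.Lib.BK2.Co

open Finset

noncomputable section
open Classical

namespace RES

variable {I J X O : Type} [Fintype I] [Fintype J] [Fintype O]

lemma av_mono {f g : I → ℝ} (h : ∀ i, f i ≤ g i) : av f ≤ av g :=
  div_le_div_of_nonneg_right (Finset.sum_le_sum fun i _ => h i) (Nat.cast_nonneg _)

lemma av_nn {f : I → ℝ} (h : ∀ i, 0 ≤ f i) : 0 ≤ av f :=
  div_nonneg (Finset.sum_nonneg fun i _ => h i) (Nat.cast_nonneg _)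

lemma av_add (f g : I → ℝ) : av (fun i => f i + g i) = av f + av g := by
  simp only [av, Finset.sum_add_distrib, add_div]

lemma av_mul (a : ℝ) (f : I → ℝ) : av (fun i => a * f i) = a * av f := by
  simp only [av, ← Finset.mul_sum, mul_div_assoc]

lemma av_sum (s : Finset X) (f : X → I → ℝ) :
    av (fun i => ∑ x ∈ s, f x i) = ∑ x ∈ s, av (f x) := by
  simp only [av]
  rw [Finset.sum_comm, Finset.sum_div]

lemma av_comm (f : I → J → ℝ) : av (fun i => av fun j => f i j) = av fun j => av fun i => f i j := by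
  simp only [av, ← Finset.sum_div]
  rw [Finset.sum_comm, div_div, div_div, mul_comm]

lemma pts {ω : I → J → ℝ} (h0 : ∀ i j, 0 ≤ ω i j) {Z : I → J → Finset X} {M : I → Finset X}
    {k : ℕ} (hZ : ∀ i j, ω i j ≠ 0 → Z i j ⊆ M i ∧ (Z i j).card = k) {c : I → X → ℝ} {η : ℝ}
    {mu : X → ℝ} (h : ∀ i x, c i x ≠ 0 → av (fun j => if x ∈ Z i j then ω i j else 0) ≤ η * mu x) :
    av (fun i => av fun j => ω i j * (∑ x ∈ Z i j, c i x) ^ 2)
      ≤ η * (k * av fun i => ∑ x ∈ M i, mu x * c i x ^ 2) := by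
  rw [← av_mul, ← av_mul]
  refine av_mono fun i => ?_
  have a1 : ∀ j, ω i j * (∑ x ∈ Z i j, c i x) ^ 2
      ≤ ∑ x ∈ M i, k * c i x ^ 2 * if x ∈ Z i j then ω i j else 0 := by
    intro j
    by_cases hω : ω i j = 0
    · simp [hω]
    obtain ⟨z1, z2⟩ := hZ i j hω
    have := mul_le_mul_of_nonneg_left (sq_sum_le_card_mul_sum_sq (s := Z i j) (f := c i)) (h0 i j)
    refine this.trans (le_of_eq ?_)
    simp only [mul_ite, mul_zero]
    rw [Finset.sum_ite_mem, Finset.inter_eq_right.2 z1, z2, Finset.mul_sum, Finset.mul_sum]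
    exact Finset.sum_congr rfl fun x _ => by ring
  refine (av_mono a1).trans ?_
  rw [av_sum, Finset.mul_sum, Finset.mul_sum]
  refine Finset.sum_le_sum fun x _ => ?_
  rw [av_mul]
  by_cases hc : c i x = 0
  · simp [hc]
  refine (mul_le_mul_of_nonneg_left (h i x hc) (by positivity)).trans (le_of_eq ?_)
  ring

lemma arc {ω : I → J → ℝ} (h0 : ∀ i j, 0 ≤ ω i j) {lam : I → J → O → ℝ} {K : ℝ}
    (hl : ∀ i j, ∑ o, lam i j o ^ 2 ≤ K ^ 2) {A : I → O → ℝ} {η : ℝ}
    (h : ∀ i, (∀ o, A i o = 0) ∨ av (ω i) ≤ η) :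
    av (fun i => av fun j => ω i j * (∑ o, A i o * lam i j o) ^ 2)
      ≤ η * (K ^ 2 * av fun i => ∑ o, A i o ^ 2) := by
  rw [← av_mul, ← av_mul]
  refine av_mono fun i => ?_
  rcases h i with h | h
  · simp [h, av]
  have n1 : 0 ≤ ∑ o, A i o ^ 2 := Finset.sum_nonneg fun _ _ => sq_nonneg _
  have a1 : ∀ j, ω i j * (∑ o, A i o * lam i j o) ^ 2 ≤ K ^ 2 * (∑ o, A i o ^ 2) * ω i j := by
    intro j
    have := (Finset.sum_mul_sq_le_sq_mul_sq Finset.univ (A i) (lam i j)).trans
      (mul_le_mul_of_nonneg_left (hl i j) n1)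
    have := mul_le_mul_of_nonneg_left this (h0 i j)
    linarith
  refine (av_mono a1).trans ?_
  rw [av_mul, mul_comm η]
  exact mul_le_mul_of_nonneg_left h (by positivity)

end RES

open RES in
theorem stRES : St_RES := by
  intro G W X C O O' _ _ _ _ _ _ _ _ D hD c c' A A' hS
  let ω : G → W → ℝ := fun e w => if ¬ D.al e w then D.om e w else 0
  have h0 : ∀ e w, 0 ≤ ω e w := fun e w => by
    simp only [ω]
    split_ifs
    exacts [le_rfl, hD.om_nn e w]
  have h1 : ∀ e w, ω e w ≠ 0 → D.om e w ≠ 0 := fun e w h h' => h (by simp [ω, h'])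
  have hE : ∀ e, av (ω e) = D.mE e fun w => ¬ D.al e w := fun e =>
    congrArg av (funext fun w => by by_cases b : D.al e w <;> simp [ω, b])
  have hW : ∀ w, av (fun e => ω e w) = D.mW w fun e => ¬ D.al e w := fun w =>
    congrArg av (funext fun e => by by_cases b : D.al e w <;> simp [ω, b])
  have t1 := pts h0 (Z := D.Z) (M := D.ME) (k := D.k) (c := c) (η := D.δ ^ 2) (mu := D.mu)
    (fun e w h => ⟨(hD.hZ e w (h1 e w h)).1, (hD.hZ e w (h1 e w h)).2.2.1⟩) fun e x h => by
      refine le_trans (le_of_eq ?_) (hD.lossEF e x (by_contra fun h' => h (hS.c0 e x h')))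
      refine congrArg av (funext fun w => ?_)
      by_cases a : x ∈ D.Z e w <;> by_cases b : D.al e w <;> simp [ω, a, b]
  have t2 := pts (ω := fun w e => ω e w) (fun w e => h0 e w) (Z := fun w e => D.Z e w)
    (M := D.MW) (k := D.k) (c := c') (η := D.δ ^ 2) (mu := D.mu)
    (fun w e h => ⟨(hD.hZ e w (h1 e w h)).2.1, (hD.hZ e w (h1 e w h)).2.2.1⟩) fun w x h => by
      refine le_trans (le_of_eq ?_) (hD.lossWF w x (by_contra fun h' => h (hS.c'0 w x h')))
      refine congrArg av (funext fun e => ?_)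
      by_cases a : x ∈ D.Z e w <;> by_cases b : D.al e w <;> simp [ω, a, b]
  have t3 := arc h0 hD.lam_le (A := A) (η := D.δ ^ 2) fun e => by
    by_cases h : e ∈ D.Ga
    · exact Or.inr ((hE e).trans_le (hD.lossE e h))
    · exact Or.inl (hS.A0 e h)
  have t4 := arc (ω := fun w e => ω e w) (fun w e => h0 e w) hD.lam'_le (A := A') (η := D.δ ^ 2)
    fun w => by
      by_cases h : w ∈ D.Wa
      · exact Or.inr ((hW w).trans_le (hD.lossW w h))
      · exact Or.inl (hS.A'0 w h)
  have t5 : av (fun e => av fun w => D.K ^ 2 * ω e w) ≤ D.K ^ 2 * D.δ ^ 2 := by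
    simp only [av_mul]
    exact mul_le_mul_of_nonneg_left ((congrArg av (funext hE)).trans_le hD.loss) (sq_nonneg _)
  rw [av_comm] at t2 t4
  have m := fun x => (hD.mu_pos x).le
  have e1 : D.nE c ^ 2 = _ := Real.sq_sqrt (av_nn fun e => Finset.sum_nonneg fun x _ =>
    mul_nonneg (m x) (sq_nonneg _))
  have e2 : D.nW c' ^ 2 = _ := Real.sq_sqrt (av_nn fun e => Finset.sum_nonneg fun x _ =>
    mul_nonneg (m x) (sq_nonneg _))
  have e3 : nA A ^ 2 = _ := Real.sq_sqrt (av_nn fun e => Finset.sum_nonneg fun x _ => sq_nonneg _)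
  have e4 : nA A' ^ 2 = _ := Real.sq_sqrt (av_nn fun e => Finset.sum_nonneg fun x _ => sq_nonneg _)
  rw [← e1] at t1
  rw [← e2] at t2
  rw [← e3] at t3
  rw [← e4] at t4
  have key : ∀ e w, D.om e w * ((D.Af c e w - D.Bf c' e w + D.del A A' e w) *
      (D.Af c e w - D.Bf c' e w + D.del A A' e w)) ≤ 5 * (ω e w * D.Af c e w ^ 2
        + ω e w * D.Bf c' e w ^ 2 + ω e w * D.alp A e w ^ 2 + ω e w * D.bet A' e w ^ 2
        + D.K ^ 2 * ω e w) := by
    intro e w
    have p := sq_le_sq' (abs_le.1 (hD.Phi_le e w)).1 (abs_le.1 (hD.Phi_le e w)).2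
    have := h0 e w
    by_cases ha : D.al e w
    · by_cases ho : D.om e w = 0
      · rw [ho, zero_mul]
        positivity
      · rw [hS.eq e w ho ha, zero_mul, mul_zero]
        positivity
    · have e0 : ω e w = D.om e w := if_pos ha
      rw [← e0, CD.del]
      generalize D.Af c e w = a, D.Bf c' e w = b, D.alp A e w = u, D.bet A' e w = v,
        D.Phi e w = z at *
      have : (a - b + (u - v - z)) * (a - b + (u - v - z))
          ≤ 5 * (a ^ 2 + b ^ 2 + u ^ 2 + v ^ 2 + D.K ^ 2) := by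
        nlinarith [sq_nonneg (a + b), sq_nonneg (a - u), sq_nonneg (a + v), sq_nonneg (a + z),
          sq_nonneg (b + u), sq_nonneg (b - v), sq_nonneg (b - z), sq_nonneg (u + v),
          sq_nonneg (u + z), sq_nonneg (v - z)]
      nlinarith
  refine (av_mono fun e => av_mono (key e)).trans ?_
  simp only [av_add, av_mul] at t5 ⊢
  unfold CD.Af CD.Bf CD.alp CD.bet
  linarith

end

end Pool.Agent.Lib.BK2.Co
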