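import Pool.Agent.Lib.BK2.CDefs

/-! BK2 CORE, transfer terms T1 and T3: freeze on cells and compare cell masses. -/

namespace Pool.Agent.Lib.BK2.Co

open Finset

namespace T13

/-- freezing on the cells of a partition -/
theorem freeze {ι C : Type} [Fintype ι] [Fintype C] (om : ι → ℝ) (hom : ∀ i, 0 ≤ om i)
    (p : ι → C) (F : ι → ℝ) (Fc : C → ℝ) (m n : C → ℝ)
    (hm : ∀ g : C → ℝ, ∑ i, om i * g (p i) = ∑ c, m c * g c)
    (hn : ∀ g : C → ℝ, ∑ i, g (p i) = ∑ c, n c * g c)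
    (δ η B : ℝ) (hη : 0 ≤ η) (hδ1 : δ ≤ 1)
    (hmn : ∑ c, |m c - n c| ≤ δ * Fintype.card ι)
    (hF : ∀ i, |F i - Fc (p i)| ≤ η) (hB : ∀ c, |Fc c| ≤ B) :
    ∑ i, (1 - om i) * F i ≤ (B * δ + 3 * η) * Fintype.card ι := by
  have hN : (0 : ℝ) ≤ Fintype.card ι := Nat.cast_nonneg _
  have h1 : ∑ i, (1 - om i) * Fc (p i) ≤ B * δ * Fintype.card ι := by
    have e : ∑ i, (1 - om i) * Fc (p i) = ∑ c, (n c - m c) * Fc c := by
      simp only [sub_mul, one_mul, sum_sub_distrib, hm Fc, hn Fc]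
    rw [e]
    rcases isEmpty_or_nonempty C with hC | hC
    · have : IsEmpty ι := ⟨fun i => hC.elim (p i)⟩
      simp
    have hB0 : 0 ≤ B := (abs_nonneg _).trans (hB hC.some)
    calc ∑ c, (n c - m c) * Fc c ≤ ∑ c, |m c - n c| * B := by
          refine sum_le_sum fun c _ => (le_abs_self _).trans ?_
          rw [abs_mul, abs_sub_comm]
          exact mul_le_mul_of_nonneg_left (hB c) (abs_nonneg _)
      _ = (∑ c, |m c - n c|) * B := by rw [sum_mul]
      _ ≤ δ * Fintype.card ι * B := mul_le_mul_of_nonneg_right hmn hB0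
      _ = _ := by ring
  have h2 : ∑ i, om i ≤ 2 * Fintype.card ι := by
    have a := hm fun _ => 1
    have b := hn fun _ => 1
    simp only [mul_one, sum_const, card_univ, nsmul_eq_mul] at a b
    have c : ∑ c, m c - ∑ c, n c ≤ ∑ c, |m c - n c| := by
      rw [← sum_sub_distrib]
      exact sum_le_sum fun c _ => le_abs_self _
    nlinarith
  have h3 : ∑ i, (1 - om i) * (F i - Fc (p i)) ≤ ∑ i, (1 + om i) * η := by
    refine sum_le_sum fun i _ => (le_abs_self _).trans ?_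
    rw [abs_mul]
    refine mul_le_mul ?_ (hF i) (abs_nonneg _) (by linarith [hom i])
    rw [abs_le]; constructor <;> linarith [hom i]
  have h4 : ∑ i, (1 + om i) * η = (Fintype.card ι + ∑ i, om i) * η := by
    rw [← sum_mul, sum_add_distrib]; simp
  have h5 : ∑ i, (1 - om i) * F i =
      ∑ i, (1 - om i) * Fc (p i) + ∑ i, (1 - om i) * (F i - Fc (p i)) := by
    rw [← sum_add_distrib]; exact sum_congr rfl fun i _ => by ring
  have h6 : (Fintype.card ι + ∑ i, om i) * η ≤ 3 * Fintype.card ι * η :=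
    mul_le_mul_of_nonneg_right (by linarith) hη
  nlinarith

/-- Cauchy-Schwarz in the form used here -/
theorem cs {O : Type} [Fintype O] (u v : O → ℝ) (B : ℝ) (hB : 0 ≤ B) (hv : ∑ j, v j ^ 2 ≤ B ^ 2) :
    |∑ j, u j * v j| ≤ B * √(∑ j, u j ^ 2) := by
  have h0 : 0 ≤ ∑ j, u j ^ 2 := sum_nonneg fun j _ => sq_nonneg _
  refine abs_le_of_sq_le_sq' ?_ (by positivity) |> abs_le.2
  rw [mul_pow, Real.sq_sqrt h0]
  calc (∑ j, u j * v j) ^ 2 ≤ (∑ j, u j ^ 2) * ∑ j, v j ^ 2 := sum_mul_sq_le_sq_mul_sq _ _ _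
    _ ≤ (∑ j, u j ^ 2) * B ^ 2 := mul_le_mul_of_nonneg_left hv h0
    _ = _ := by ring

theorem av_le {ι : Type} [Fintype ι] {f g : ι → ℝ} (h : ∀ i, f i ≤ g i) : av f ≤ av g :=
  div_le_div_of_nonneg_right (sum_le_sum fun i _ => h i) (Nat.cast_nonneg _)

theorem av_aff {ι O : Type} [Fintype ι] [Fintype O] [Nonempty ι] (A : ι → O → ℝ) (t : ℝ) :
    av (fun i => t * (∑ j, A i j ^ 2 + 1)) = t * (nA A ^ 2 + 1) := by
  have hN : (0 : ℝ) < Fintype.card ι := by exact_mod_cast Fintype.card_pos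
  have h0 : 0 ≤ av fun i => ∑ j, A i j ^ 2 :=
    div_nonneg (sum_nonneg fun i _ => sum_nonneg fun j _ => sq_nonneg _) hN.le
  rw [nA, Real.sq_sqrt h0]
  simp only [av]
  rw [← mul_sum, sum_add_distrib]
  simp only [sum_const, card_univ, nsmul_eq_mul, mul_one]
  field_simp

theorem av_comm {ι κ : Type} [Fintype ι] [Fintype κ] (f : ι → κ → ℝ) :
    av (fun i => av fun j => f i j) = av fun j => av fun i => f i j := by
  simp only [av, ← sum_div]
  rw [sum_comm, div_right_comm]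

theorem small {K δ : ℝ} {k : ℕ} (K1 : 1 ≤ K) (hk : 100 * K ≤ k) (δ0 : 0 < δ)
    (hδ : 1000 * K * k * δ ≤ 1) : δ ≤ 1 := by
  have : (100 : ℝ) ≤ k := by linarith
  have h : 1 ≤ K * k := by nlinarith
  nlinarith

end T13

open T13

theorem stT1 : St_T1 := by
  intro G W X C O O' _ _ _ _ _ _ _ _ D hD A
  classical
  have hN : (0 : ℝ) < Fintype.card W := by exact_mod_cast Fintype.card_pos
  have hK := hD.K1
  have hδ := hD.δ0
  rw [← av_aff A (20 * D.K ^ 2 * D.δ)]
  refine av_le fun e => ?_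
  rw [av, div_le_iff₀ hN]
  set a := √(∑ j, A e j ^ 2) with ha
  have ha0 : 0 ≤ a := Real.sqrt_nonneg _
  have ha2 : a ^ 2 = ∑ j, A e j ^ 2 := Real.sq_sqrt (sum_nonneg fun j _ => sq_nonneg _)
  have hszn : ∀ g : C → ℝ, ∑ w, g (D.cell w) = ∑ c, D.sz c * g c := by
    intro g
    simp only [CD.sz, card_filter, Nat.cast_sum, sum_mul]
    rw [sum_comm]
    refine sum_congr rfl fun w _ => ?_
    rw [sum_eq_single (D.cell w)] <;> simp +contextual [eq_comm]
  have key := freeze (D.om e) (hD.om_nn e) D.cell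
    (fun w => (D.alp A e w - D.Phi e w) ^ 2)
    (fun c => (∑ j, A e j * D.lamC e c j - D.PhiC e c) ^ 2)
    (fun c => D.NE e c fun _ => True) D.sz ?_ hszn D.δ (2 * D.K * D.δ * (a + 1) ^ 2)
    (D.K ^ 2 * (a + 1) ^ 2) (by positivity) (small hK hD.hk hδ hD.hδ) ?_ ?_ ?_
  · refine key.trans (mul_le_mul_of_nonneg_right ?_ hN.le)
    rw [← ha2]
    have h1 : (a + 1) ^ 2 ≤ 2 * (a ^ 2 + 1) := by nlinarith [sq_nonneg (a - 1)]
    have h2 : D.K ≤ D.K ^ 2 := by nlinarith
    have h3 : D.K ^ 2 * (a + 1) ^ 2 * D.δ + 3 * (2 * D.K * D.δ * (a + 1) ^ 2) =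
        (D.K ^ 2 + 6 * D.K) * D.δ * (a + 1) ^ 2 := by ring
    rw [h3]
    calc (D.K ^ 2 + 6 * D.K) * D.δ * (a + 1) ^ 2 ≤ (7 * D.K ^ 2) * D.δ * (2 * (a ^ 2 + 1)) := by
          gcongr; linarith
      _ ≤ _ := by
          have : 0 ≤ D.K ^ 2 * D.δ * (a ^ 2 + 1) := by positivity
          nlinarith
  · intro g
    simp only [CD.NE, and_true, sum_mul]
    rw [sum_comm]
    refine sum_congr rfl fun w _ => ?_
    rw [sum_eq_single (D.cell w)] <;> simp +contextual [eq_comm]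
  · have := hszn fun _ => 1
    simp only [sum_const, card_univ, nsmul_eq_mul, mul_one] at this
    rw [this, mul_sum]
    exact sum_le_sum fun c _ => hD.E0 e c
  · intro w
    have h1 := cs (A e) (D.lam e w) D.K (by linarith) (hD.lam_le e w)
    have h2 := cs (A e) (D.lamC e (D.cell w)) D.K (by linarith) (hD.lamC_le e _)
    have h3 := cs (A e) (fun j => D.lam e w j - D.lamC e (D.cell w) j) D.δ hδ.le
      (hD.lamC_osc e w)
    have h4 := hD.Phi_le e w
    have h5 := hD.PhiC_le e (D.cell w)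
    have h6 := hD.PhiC_osc e w
    simp only [mul_sub, sum_sub_distrib] at h3
    rw [← ha] at h1 h2 h3
    rw [CD.alp, sq_sub_sq, abs_mul]
    set s := ∑ j, A e j * D.lam e w j
    set t := ∑ j, A e j * D.lamC e (D.cell w) j
    have b1 : |s - D.Phi e w + (t - D.PhiC e (D.cell w))| ≤ 2 * D.K * (a + 1) := by
      rw [abs_le] at *; constructor <;> nlinarith
    have b2 : |s - D.Phi e w - (t - D.PhiC e (D.cell w))| ≤ D.δ * (a + 1) := by
      rw [abs_le] at *; constructor <;> nlinarith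
    calc _ ≤ 2 * D.K * (a + 1) * (D.δ * (a + 1)) :=
          mul_le_mul b1 b2 (abs_nonneg _) (by positivity)
      _ = _ := by ring
  · intro c
    have h2 := cs (A e) (D.lamC e c) D.K (by linarith) (hD.lamC_le e _)
    have h5 := hD.PhiC_le e c
    rw [← ha] at h2
    rw [abs_pow, ← mul_pow]
    refine pow_le_pow_left₀ (abs_nonneg _) ?_ 2
    rw [abs_le] at *; constructor <;> nlinarith

theorem stT3 : St_T3 := by
  intro G W X C O O' _ _ _ _ _ _ _ _ D hD c c' A A' hS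
  classical
  have hN : (0 : ℝ) < Fintype.card G := by exact_mod_cast Fintype.card_pos
  have hK := hD.K1
  have hδ := hD.δ0
  rw [← av_aff A' (20 * D.K ^ 2 * D.δ), av_comm]
  refine av_le fun w => ?_
  by_cases hw : w ∈ D.Wa
  swap
  · have : ∀ e, D.bet A' e w = 0 := fun e => by simp [CD.bet, hS.A'0 w hw]
    simp only [this, av]
    have : 0 ≤ ∑ j, A' w j ^ 2 := sum_nonneg fun j _ => sq_nonneg _
    simp only [ne_eq, OfNat.ofNat_ne_zero, not_false_eq_true, zero_pow, mul_zero, add_zero,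
      sum_const_zero, zero_div]
    positivity
  rw [av, div_le_iff₀ hN]
  set a := √(∑ j, A' w j ^ 2) with ha
  have ha0 : 0 ≤ a := Real.sqrt_nonneg _
  have ha2 : a ^ 2 = ∑ j, A' w j ^ 2 := Real.sq_sqrt (sum_nonneg fun j _ => sq_nonneg _)
  have key := freeze (fun e => D.om e w) (fun e => hD.om_nn e w) D.ec
    (fun e => D.bet A' e w ^ 2 + 2 * D.Phi e w * D.bet A' e w)
    (fun b => (∑ j, A' w j * D.lamB w b j) ^ 2 + 2 * D.PhiB w b * ∑ j, A' w j * D.lamB w b j)
    (fun b => D.mW w (fun e => D.ec e = b) * Fintype.card G)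
    (fun b => D.nB b * Fintype.card G) ?_ ?_ D.δ (4 * D.K * D.δ * (a ^ 2 + 1))
    (2 * D.K ^ 2 * (a ^ 2 + 1)) (by positivity) (small hK hD.hk hδ hD.hδ) ?_ ?_ ?_
  · refine key.trans (mul_le_mul_of_nonneg_right ?_ hN.le)
    rw [← ha2]
    have h2 : D.K ≤ D.K ^ 2 := by nlinarith
    have h3 : 2 * D.K ^ 2 * (a ^ 2 + 1) * D.δ + 3 * (4 * D.K * D.δ * (a ^ 2 + 1)) =
        (2 * D.K ^ 2 + 12 * D.K) * D.δ * (a ^ 2 + 1) := by ring
    rw [h3]
    gcongr; nlinarith
  · intro g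
    simp only [CD.mW, av, div_mul_cancel₀ _ hN.ne', sum_mul]
    rw [sum_comm]
    refine sum_congr rfl fun e _ => ?_
    rw [sum_eq_single (D.ec e)] <;> simp +contextual [eq_comm]
  · intro g
    simp only [CD.nB, av, div_mul_cancel₀ _ hN.ne', sum_mul]
    rw [sum_comm]
    refine sum_congr rfl fun e _ => ?_
    rw [sum_eq_single (D.ec e)] <;> simp +contextual [eq_comm]
  · simp only [← sub_mul, abs_mul, abs_of_pos hN, ← sum_mul]
    exact mul_le_mul_of_nonneg_right (hD.W0 w hw) hN.le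
  · intro e
    have h1 := cs (A' w) (D.lam' w e) D.K (by linarith) (hD.lam'_le w e)
    have h2 := cs (A' w) (D.lamB w (D.ec e)) D.K (by linarith) (hD.lamB_le w _)
    have h3 := cs (A' w) (fun j => D.lam' w e j - D.lamB w (D.ec e) j) D.δ hδ.le
      (hD.lamB_osc w e)
    have h4 := hD.Phi_le e w
    have h6 := hD.PhiB_osc w e
    simp only [mul_sub, sum_sub_distrib] at h3
    rw [← ha] at h1 h2 h3
    rw [CD.bet]
    set s := ∑ j, A' w j * D.lam' w e j
    set t := ∑ j, A' w j * D.lamB w (D.ec e) j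
    have e1 : s ^ 2 + 2 * D.Phi e w * s - (t ^ 2 + 2 * D.PhiB w (D.ec e) * t) =
        (s + t) * (s - t) + 2 * (D.Phi e w * (s - t)) +
          2 * ((D.Phi e w - D.PhiB w (D.ec e)) * t) := by ring
    have b1 : |(s + t) * (s - t)| ≤ 2 * (D.K * a) * (D.δ * a) := by
      rw [abs_mul]
      refine mul_le_mul ((abs_add_le _ _).trans (by linarith)) h3 (abs_nonneg _) (by positivity)
    have b2 : |D.Phi e w * (s - t)| ≤ D.K * (D.δ * a) := by
      rw [abs_mul]; exact mul_le_mul h4 h3 (abs_nonneg _) (by positivity)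
    have b3 : |(D.Phi e w - D.PhiB w (D.ec e)) * t| ≤ D.δ * (D.K * a) := by
      rw [abs_mul]; exact mul_le_mul h6 h2 (abs_nonneg _) (by positivity)
    have b4 : 0 ≤ D.K * D.δ * (a - 1) ^ 2 := by positivity
    have b5 : 0 ≤ D.K * D.δ := by positivity
    rw [e1]
    rw [abs_le] at b1 b2 b3 ⊢
    constructor <;> nlinarith
  · intro b
    have h2 := cs (A' w) (D.lamB w b) D.K (by linarith) (hD.lamB_le w _)
    have h5 := hD.PhiB_le w b
    rw [← ha] at h2
    set t := ∑ j, A' w j * D.lamB w b j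
    have b1 : |t ^ 2| ≤ (D.K * a) ^ 2 := by
      rw [abs_pow]; exact pow_le_pow_left₀ (abs_nonneg _) h2 2
    have b2 : |D.PhiB w b * t| ≤ D.K * (D.K * a) := by
      rw [abs_mul]; exact mul_le_mul h5 h2 (abs_nonneg _) (by positivity)
    have b4 : 0 ≤ D.K ^ 2 * (a - 1) ^ 2 := by positivity
    have b5 : 0 ≤ D.K ^ 2 := by positivity
    rw [mul_assoc]
    rw [abs_le] at b1 b2 ⊢
    constructor <;> nlinarith

end Pool.Agent.Lib.BK2.Co
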