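import Pool.Agent.Lib.BK2.CDefs

/-! BK2 section 7, core: the mixed transfer term. -/

namespace Pool.Agent.Lib.BK2.Co

open Finset
open scoped Classical

namespace T2

section
variable {ι κ : Type} [Fintype ι] [Fintype κ]

theorem av_add (f g : ι → ℝ) : av (fun i => f i + g i) = av f + av g := by
  simp only [av, Finset.sum_add_distrib, add_div]

theorem av_sub (f g : ι → ℝ) : av (fun i => f i - g i) = av f - av g := by
  simp only [av, Finset.sum_sub_distrib, sub_div]

theorem av_mul (a : ℝ) (f : ι → ℝ) : av (fun i => a * f i) = a * av f := by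
  simp only [av, ← Finset.mul_sum, mul_div_assoc]

theorem av_mono {f g : ι → ℝ} (h : ∀ i, f i ≤ g i) : av f ≤ av g :=
  div_le_div_of_nonneg_right (Finset.sum_le_sum fun i _ => h i) (Nat.cast_nonneg _)

theorem av_nonneg {f : ι → ℝ} (h : ∀ i, 0 ≤ f i) : 0 ≤ av f :=
  div_nonneg (Finset.sum_nonneg fun i _ => h i) (Nat.cast_nonneg _)

theorem abs_av {f g : ι → ℝ} (h : ∀ i, |f i| ≤ g i) : |av f| ≤ av g := by
  unfold av
  rw [abs_div, Nat.abs_cast]
  exact div_le_div_of_nonneg_right
    ((Finset.abs_sum_le_sum_abs _ _).trans (Finset.sum_le_sum fun i _ => h i)) (Nat.cast_nonneg _)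

theorem av_const [Nonempty ι] (a : ℝ) : av (fun _ : ι => a) = a := by
  have h : (Fintype.card ι : ℝ) ≠ 0 := Nat.cast_ne_zero.2 Fintype.card_ne_zero
  simp only [av, Finset.sum_const, Finset.card_univ, nsmul_eq_mul]
  field_simp

theorem av_comm (F : ι → κ → ℝ) :
    av (fun i => av fun j => F i j) = av fun j => av fun i => F i j := by
  simp only [av, ← Finset.sum_div]
  rw [Finset.sum_comm, div_right_comm]

theorem av_sum (F : ι → κ → ℝ) : ∑ j, av (fun i => F i j) = av fun i => ∑ j, F i j := by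
  simp only [av, ← Finset.sum_div]
  rw [Finset.sum_comm]

theorem cs (u l : ι → ℝ) {s : ℝ} (h : ∑ j, l j ^ 2 ≤ s ^ 2) :
    (∑ j, u j * l j) ^ 2 ≤ s ^ 2 * ∑ j, u j ^ 2 := by
  refine (Finset.sum_mul_sq_le_sq_mul_sq _ _ _).trans ?_
  rw [mul_comm]
  exact mul_le_mul_of_nonneg_right h (Finset.sum_nonneg fun j _ => sq_nonneg _)

end

theorem amgm {x y s t P Q : ℝ} (hs : 0 < s) (ht : 0 < t) (hx : x ^ 2 ≤ s ^ 2 * P)
    (hy : y ^ 2 ≤ t ^ 2 * Q) : |x * y| ≤ s * t / 2 * (P + Q) := by
  have hst : 0 < s * t := mul_pos hs ht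
  have h1 : t ^ 2 * x ^ 2 ≤ t ^ 2 * (s ^ 2 * P) := mul_le_mul_of_nonneg_left hx (sq_nonneg _)
  have h2 : s ^ 2 * y ^ 2 ≤ s ^ 2 * (t ^ 2 * Q) := mul_le_mul_of_nonneg_left hy (sq_nonneg _)
  rw [abs_le]
  constructor
  · refine le_of_mul_le_mul_left ?_ hst
    nlinarith [sq_nonneg (t * x + s * y)]
  · refine le_of_mul_le_mul_left ?_ hst
    nlinarith [sq_nonneg (t * x - s * y)]

variable {G W X C O O' : Type} [Fintype G] [Fintype W] [Fintype X] [Fintype C] [Fintype O]
  [Fintype O'] (D : CD G W X C O O')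

theorem cellsum (g : C → ℝ) (h : W → ℝ) :
    ∑ w, g (D.cell w) * h w = ∑ c, g c * ∑ w, if D.cell w = c then h w else 0 := by
  simp only [Finset.mul_sum]
  rw [Finset.sum_comm]
  refine Finset.sum_congr rfl fun w _ => ?_
  simp only [mul_ite, mul_zero]
  rw [Finset.sum_ite_eq]
  simp

theorem sz_eq (c : C) : (∑ w, if D.cell w = c then (1 : ℝ) else 0) = D.sz c := by
  simp [CD.sz]

theorem cellsum1 (g : C → ℝ) : ∑ w, g (D.cell w) = ∑ c, g c * D.sz c := by
  have h := cellsum D g fun _ => 1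
  simpa only [mul_one, sz_eq] using h

theorem e0 (h : D.Ok) (e : G) (g : C → ℝ) :
    |av fun w => (1 - D.om e w) * g (D.cell w)| ≤ D.δ * av fun w => |g (D.cell w)| := by
  unfold av
  rw [abs_div, Nat.abs_cast, ← mul_div_assoc]
  refine div_le_div_of_nonneg_right ?_ (Nat.cast_nonneg _)
  have h1 : ∑ w, (1 - D.om e w) * g (D.cell w)
      = ∑ c, g c * (D.sz c - D.NE e c fun _ => True) := by
    simp only [sub_mul, one_mul, mul_sub, Finset.sum_sub_distrib]
    rw [cellsum1]
    congr 1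
    simp only [mul_comm (D.om e _)]
    rw [cellsum]
    simp [CD.NE]
  rw [h1, cellsum1 D fun c => |g c|, Finset.mul_sum]
  refine (Finset.abs_sum_le_sum_abs _ _).trans (Finset.sum_le_sum fun c _ => ?_)
  rw [abs_mul, abs_sub_comm]
  have h2 := mul_le_mul_of_nonneg_left (h.E0 e c) (abs_nonneg (g c))
  linarith

theorem del1 (h : D.Ok) : D.δ ≤ 1 := by
  have h1 := h.K1
  have h2 := h.hk
  have h3 := h.hδ
  have h4 := h.δ0
  have h5 : 1 ≤ D.K * D.k := by nlinarith
  nlinarith

theorem e0' (h : D.Ok) (e : G) (g : C → ℝ) (hg : ∀ c, 0 ≤ g c) :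
    (av fun w => D.om e w * g (D.cell w)) ≤ 2 * av fun w => g (D.cell w) := by
  have h1 := e0 D h e g
  simp only [sub_mul, one_mul, abs_of_nonneg (hg _)] at h1
  rw [av_sub] at h1
  have h2 : 0 ≤ av fun w => g (D.cell w) := av_nonneg fun w => hg _
  have h3 := mul_le_mul_of_nonneg_right (del1 D h) h2
  have h4 := (abs_le.1 h1).1
  linarith

theorem w0 [Nonempty G] (h : D.Ok) {w : W} (hw : w ∈ D.Wa) : (av fun e => D.om e w) ≤ 2 := by
  have h1 : ∑ b, D.mW w (fun e => D.ec e = b) = av fun e => D.om e w := by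
    unfold CD.mW
    rw [av_sum]
    congr 1
    funext e
    convert Finset.sum_ite_eq univ (D.ec e) fun _ => D.om e w
    simp
  have h2 : ∑ b, D.nB b = 1 := by
    unfold CD.nB
    rw [av_sum]
    simp [av_const]
  have h3 := (Finset.abs_sum_le_sum_abs _ _).trans (h.W0 w hw)
  rw [Finset.sum_sub_distrib, h1, h2] at h3
  have h4 := (abs_le.1 h3).2
  have h5 := del1 D h
  linarith

theorem mean_sz (f : W → ℝ) (c : C) :
    D.mean0 f c * D.sz c = ∑ w, if D.cell w = c then f w else 0 := by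
  unfold CD.mean0
  by_cases h0 : D.sz c = 0
  · rw [h0, mul_zero]
    have h1 : univ.filter (fun w => D.cell w = c) = ∅ := by
      simpa [CD.sz] using h0
    symm
    refine Finset.sum_eq_zero fun w _ => if_neg fun hw => ?_
    have h2 : w ∈ univ.filter fun w => D.cell w = c := by simpa using hw
    rw [h1] at h2
    simp at h2
  · field_simp

theorem orth (f : W → ℝ) (g : C → ℝ) :
    (av fun w => g (D.cell w) * (f w - D.mean0 f (D.cell w))) = 0 := by
  unfold av
  simp only [mul_sub, Finset.sum_sub_distrib]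
  rw [cellsum, cellsum1 D fun c => g c * D.mean0 f c]
  simp only [mul_assoc, mean_sz, sub_self, zero_div]

theorem jensen (f : W → ℝ) :
    (av fun w => D.mean0 f (D.cell w) ^ 2) ≤ av fun w => f w ^ 2 := by
  have h1 := orth D f (D.mean0 f)
  have h2 : (av fun w => D.mean0 f (D.cell w) ^ 2 +
      2 * (D.mean0 f (D.cell w) * (f w - D.mean0 f (D.cell w)))) ≤ av fun w => f w ^ 2 :=
    av_mono fun w => by nlinarith [sq_nonneg (f w - D.mean0 f (D.cell w))]
  rw [av_add, av_mul, h1] at h2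
  linarith

omit [Fintype W] in
theorem nA_sq (A : G → O → ℝ) : nA A ^ 2 = av fun e => ∑ j, A e j ^ 2 :=
  Real.sq_sqrt (av_nonneg fun _ => Finset.sum_nonneg fun _ _ => sq_nonneg _)

end T2

open T2

theorem stT2 (hT : St_TL) : St_T2 := by
  intro G W X C O O' _ _ _ _ _ _ _ _ D h c c' A A' hs
  have hK : 0 < D.K := lt_of_lt_of_le one_pos h.K1
  have hd := h.δ0
  set P : G → ℝ := fun e => ∑ j, A e j ^ 2 with hP
  set P' : W → ℝ := fun w => ∑ j, A' w j ^ 2 with hP'
  have P0 : ∀ e, 0 ≤ P e := fun e => Finset.sum_nonneg fun _ _ => sq_nonneg _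
  have P'0 : ∀ w, 0 ≤ P' w := fun w => Finset.sum_nonneg fun _ _ => sq_nonneg _
  have ha : nA A ^ 2 = av P := nA_sq A
  have ha' : nA A' ^ 2 = av P' := nA_sq A'
  set f : Fin D.nb → W → ℝ := fun b w => ∑ j, A' w j * D.lamB w b j with hf
  set m : G → C → ℝ := fun e c0 => D.mean0 (f (D.ec e)) c0 with hm
  set ga : G → C → ℝ := fun e c0 => ∑ j, A e j * D.lamC e c0 j with hga
  set Q : G → C → ℝ := fun e c0 => m e c0 ^ 2 / D.K ^ 2 with hQ
  have Q0 : ∀ e c0, 0 ≤ Q e c0 := fun e c0 => div_nonneg (sq_nonneg _) (sq_nonneg _)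
  have b1 : ∀ e w, D.alp A e w ^ 2 ≤ D.K ^ 2 * P e := fun e w => cs _ _ (h.lam_le e w)
  have b2 : ∀ e c0, ga e c0 ^ 2 ≤ D.K ^ 2 * P e := fun e c0 => cs _ _ (h.lamC_le e c0)
  have b3 : ∀ b w, f b w ^ 2 ≤ D.K ^ 2 * P' w := fun b w => cs _ _ (h.lamB_le w b)
  have b4 : ∀ e w, (D.alp A e w - ga e (D.cell w)) ^ 2 ≤ D.δ ^ 2 * P e := by
    intro e w
    have h1 := cs (A e) _ (h.lamC_osc e w)
    simp only [mul_sub, Finset.sum_sub_distrib] at h1
    exact h1
  have b5 : ∀ e w, (D.bet A' e w - f (D.ec e) w) ^ 2 ≤ D.δ ^ 2 * P' w := by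
    intro e w
    have h1 := cs (A' w) _ (h.lamB_osc w e)
    simp only [mul_sub, Finset.sum_sub_distrib] at h1
    exact h1
  have b6 : ∀ e c0, m e c0 ^ 2 ≤ D.K ^ 2 * Q e c0 := by
    intro e c0
    simp only [hQ]
    rw [mul_div_cancel₀ _ (pow_ne_zero 2 hK.ne')]
  have fS : ∀ b, av (fun w => f b w ^ 2) ≤ (D.K * nA A') ^ 2 := by
    intro b
    rw [mul_pow, ha', ← av_mul]
    exact av_mono fun w => b3 b w
  have QP : ∀ e, (av fun w => Q e (D.cell w)) ≤ av P' := by
    intro e
    have h1 := (jensen D (f (D.ec e))).trans (fS _)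
    rw [mul_pow, ha'] at h1
    have h2 : (av fun w => Q e (D.cell w))
        = (D.K ^ 2)⁻¹ * av fun w => D.mean0 (f (D.ec e)) (D.cell w) ^ 2 := by
      rw [← av_mul]
      simp only [hQ, hm, div_eq_inv_mul]
    rw [h2, inv_mul_le_iff₀ (pow_pos hK 2)]
    exact h1
  -- the spectral term
  have t6 := (hT G W X C O O' D h).1 (fun _ _ => 0) A f (D.K * nA A')
    (mul_nonneg hK.le (Real.sqrt_nonneg _)) fS
  have z1 : D.nE (fun _ _ => 0) = 0 := by simp [CD.nE, av]
  have z2 : ∀ e w, D.Af (fun _ _ => 0) e w = 0 := by simp [CD.Af]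
  simp only [z1, z2, zero_add, mul_zero, CD.ip] at t6
  -- the pointwise small terms
  set R : G → W → ℝ := fun e w => (1 - D.om e w) * (D.alp A e w * (D.bet A' e w - f (D.ec e) w))
    + (D.alp A e w - ga e (D.cell w)) * f (D.ec e) w
    - D.om e w * ((D.alp A e w - ga e (D.cell w)) * m e (D.cell w)) with hR
  have r1 : ∀ e w, |R e w| ≤ D.K * D.δ / 2 * (2 * P e + 2 * P' w + 2 * (D.om e w * P e)
      + D.om e w * P' w + D.om e w * Q e (D.cell w)) := by
    intro e w
    have o := h.om_nn e w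
    have u1 := amgm hK hd (b1 e w) (b5 e w)
    have u2 := amgm hd hK (b4 e w) (b3 (D.ec e) w)
    have u3 := amgm hd hK (b4 e w) (b6 e (D.cell w))
    have u4 : |1 - D.om e w| ≤ 1 + D.om e w := by
      rw [abs_le]
      constructor <;> linarith
    have u5 := mul_le_mul u4 u1 (abs_nonneg _) (by linarith)
    have u6 := mul_le_mul_of_nonneg_left u3 o
    rw [← abs_mul] at u5
    rw [← abs_of_nonneg o, ← abs_mul, abs_of_nonneg o] at u6
    have v5 := abs_le.1 u5
    have v6 := abs_le.1 u6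
    have v2 := abs_le.1 u2
    simp only [hR]
    rw [abs_le]
    constructor <;> nlinarith [v5.1, v5.2, v6.1, v6.2, v2.1, v2.2]
  have s1 : (av fun e => av fun w => D.om e w * P e) ≤ 2 * av P := by
    rw [← av_mul]
    refine av_mono fun e => ?_
    have h1 := e0' D h e (fun _ => P e) fun _ => P0 e
    rwa [av_const] at h1
  have s2 : (av fun e => av fun w => D.om e w * P' w) ≤ 2 * av P' := by
    rw [av_comm, ← av_mul]
    refine av_mono fun w => ?_
    by_cases hw : w ∈ D.Wa
    · simp only [mul_comm (D.om _ w)]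
      rw [av_mul, mul_comm]
      exact mul_le_mul_of_nonneg_right (w0 D h hw) (P'0 w)
    · have h1 : P' w = 0 := by simp [hP', hs.A'0 w hw]
      simp [h1, av]
  have s3 : (av fun e => av fun w => D.om e w * Q e (D.cell w)) ≤ 2 * av P' := by
    rw [← av_const (ι := G) (2 * av P')]
    refine av_mono fun e => (e0' D h e (Q e) (Q0 e)).trans ?_
    have := QP e
    linarith
  have tR : |av fun e => av fun w => R e w| ≤ D.K * D.δ / 2 * (6 * av P + 6 * av P') := by
    refine (abs_av fun e => abs_av fun w => r1 e w).trans ?_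
    simp only [av_mul, av_add, av_const]
    refine mul_le_mul_of_nonneg_left ?_ (by positivity)
    linarith
  have t4 : (av fun e => av fun w => ga e (D.cell w) * (f (D.ec e) w - m e (D.cell w))) = 0 := by
    have h1 : ∀ e, (av fun w => ga e (D.cell w) * (f (D.ec e) w - m e (D.cell w))) = 0 :=
      fun e => orth D (f (D.ec e)) (ga e)
    simp only [h1, av_const]
  have t5 : |av fun e => av fun w => (1 - D.om e w) * (ga e (D.cell w) * m e (D.cell w))| ≤
      D.δ * (D.K * D.K / 2 * (av P + av P')) := by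
    have h1 : ∀ e, |av fun w => (1 - D.om e w) * (ga e (D.cell w) * m e (D.cell w))| ≤
        D.δ * (D.K * D.K / 2 * (P e + av P')) := by
      intro e
      refine (e0 D h e fun c0 => ga e c0 * m e c0).trans (mul_le_mul_of_nonneg_left ?_ hd.le)
      refine (av_mono fun w => amgm hK hK (b2 e _) (b6 e _)).trans ?_
      rw [av_mul, av_add, av_const]
      refine mul_le_mul_of_nonneg_left ?_ (by positivity)
      have := QP e
      linarith
    refine (abs_av h1).trans (le_of_eq ?_)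
    simp only [av_mul, av_add, av_const]
  have key : (av fun e => av fun w => (1 - D.om e w) * (D.alp A e w * D.bet A' e w)) =
      (av fun e => av fun w => R e w)
      + (av fun e => av fun w => ga e (D.cell w) * (f (D.ec e) w - m e (D.cell w)))
      + (av fun e => av fun w => (1 - D.om e w) * (ga e (D.cell w) * m e (D.cell w)))
      - ((av fun e => av fun w => D.om e w * (f (D.ec e) w * D.alp A e w))
        - av fun e => av fun w => D.om e w * (m e (D.cell w) * D.alp A e w)) := by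
    simp only [← av_add, ← av_sub]
    congr 1
    funext e
    congr 1
    funext w
    simp only [hR]
    ring
  rw [key, t4, add_zero]
  rw [← ha, ← ha'] at tR t5
  have w1 := abs_le.1 tR
  have w5 := abs_le.1 t5
  have w6 := abs_le.1 t6
  have k1 : D.K * D.δ ≤ D.K ^ 2 * D.δ := by
    have := h.K1
    nlinarith [mul_pos hK hd]
  have n0 : 0 ≤ nA A ^ 2 + nA A' ^ 2 := by positivity
  have k2 := mul_le_mul_of_nonneg_right k1 n0
  have k3 : D.δ * (D.K * nA A') * nA A ≤ D.K * D.δ * (nA A ^ 2 + nA A' ^ 2) := by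
    have h1 : nA A' * nA A ≤ nA A ^ 2 + nA A' ^ 2 := by
      nlinarith [sq_nonneg (nA A - nA A'), sq_nonneg (nA A), sq_nonneg (nA A')]
    have h2 := mul_le_mul_of_nonneg_left h1 (mul_pos hK hd).le
    linarith
  have k4 : 0 ≤ D.K ^ 2 * D.δ * (nA A ^ 2 + nA A' ^ 2) := by positivity
  rw [abs_le]
  constructor <;> nlinarith [w1.1, w1.2, w5.1, w5.2, w6.1, w6.2]

end Pool.Agent.Lib.BK2.Co
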