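import Pool.Agent.Lib.BK2.CBas

/-! VAR applied to a function minus its cell means. -/

namespace Pool.Agent.Lib.BK2.Co

open Finset Classical

namespace TL

variable {W : Type} [Fintype W]

theorem grp (P : W → Prop) [DecidablePred P] (f : W → ℝ) (n m : ℝ) (hn : n = ∑ w, if P w then (1 : ℝ) else 0)
    (hm : m = (∑ w, if P w then f w else 0) / n) :
    ∑ w, (if P w then f w - m else 0) = 0 ∧
      ∑ w, (if P w then (f w - m) ^ 2 else 0) ≤ ∑ w, if P w then f w ^ 2 else 0 := by
  set s := ∑ w, if P w then f w else 0 with hs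
  have hnm : n * m = s := by
    by_cases h0 : n = 0
    · have h1 : ∀ w, ¬ P w := fun w hw => by
        have h2 := (sum_eq_zero_iff_of_nonneg (s := univ) (f := fun w => if P w then (1 : ℝ) else 0)
          fun w _ => by positivity).1 (hn ▸ h0) w (mem_univ w)
        simp [hw] at h2
      simp [hs, h0, h1]
    · rw [hm]; field_simp
  have hn0 : 0 ≤ n := hn ▸ sum_nonneg fun w _ => by positivity
  have e1 : ∑ w, (if P w then f w - m else 0) = s - m * n := by
    rw [hs, hn, mul_sum, ← sum_sub_distrib]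
    exact sum_congr rfl fun w _ => by split_ifs <;> ring
  have e2 : ∑ w, (if P w then (f w - m) ^ 2 else 0) =
      (∑ w, if P w then f w ^ 2 else 0) - 2 * m * s + m ^ 2 * n := by
    rw [hs, hn, mul_sum, mul_sum, ← sum_sub_distrib, ← sum_add_distrib]
    exact sum_congr rfl fun w _ => by split_ifs <;> ring
  refine ⟨by rw [e1, ← hnm]; ring, ?_⟩
  rw [e2, ← hnm]
  nlinarith [mul_nonneg hn0 (sq_nonneg m)]

end TL

theorem stTL : St_TL := by
  intro G W X C O O' _ _ _ _ _ _ _ _ D h
  refine ⟨fun c A f S hS hf => ?_, fun c A f => ?_⟩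
  · rw [← D.ip_sub]
    have g := fun b c0 => TL.grp (fun w => D.cell w = c0) (f b) (D.sz c0) (D.mean0 (f b) c0)
      (D.sz_eq c0) rfl
    refine h.V0 c A (fun b w => f b w - D.mean0 (f b) (D.cell w)) S hS (fun b c0 => ?_) fun b => ?_
    · refine Eq.trans (sum_congr rfl fun w _ => ?_) (g b c0).1
      split_ifs with hw <;> simp [hw]
    · refine le_trans (div_le_div_of_nonneg_right ?_ (Nat.cast_nonneg _)) (hf b)
      rw [D.sum_cells, D.sum_cells fun w => f b w ^ 2]
      refine sum_le_sum fun c0 _ => le_trans (le_of_eq ?_) (g b c0).2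
      exact sum_congr rfl fun w _ => by split_ifs with hw <;> simp [hw]
  · rw [← D.ip_sub]
    have g := fun x c0 => TL.grp (fun w => D.cell w = c0 ∧ x ∈ D.MW w) (fun w => f w x)
      (D.szx c0 x) (D.mean1 f c0 x) (D.szx_eq c0 x) rfl
    have e : (fun e w => D.Bf f e w - D.Bf (fun w x => D.mean1 f (D.cell w) x) e w) =
        D.Bf fun w x => f w x - D.mean1 f (D.cell w) x := by
      funext e w; simp only [CD.Bf, sum_sub_distrib]
    rw [e]
    refine (h.V1 c A _ fun x c0 => ?_).trans ?_
    · refine Eq.trans (sum_congr rfl fun w _ => ?_) (g x c0).1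
      split_ifs with hw <;> simp [hw]
    · have e2 : ∀ u : W → X → ℝ, ∑ w, ∑ x ∈ D.MW w, D.mu x * u w x ^ 2 =
          ∑ x, D.mu x * ∑ c0, ∑ w, if D.cell w = c0 ∧ x ∈ D.MW w then u w x ^ 2 else 0 := fun u => by
        have e3 : ∀ x, (∑ c0, ∑ w, if D.cell w = c0 ∧ x ∈ D.MW w then u w x ^ 2 else 0) =
            ∑ w, if x ∈ D.MW w then u w x ^ 2 else 0 := fun x => by
          rw [D.sum_cells fun w => if x ∈ D.MW w then u w x ^ 2 else 0]
          simp only [ite_and]
        simp only [e3, mul_sum]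
        rw [sum_comm]
        refine sum_congr rfl fun w _ => ?_
        simp only [mul_ite, mul_zero, sum_ite_mem, univ_inter]
      have h1 : D.nW (fun w x => f w x - D.mean1 f (D.cell w) x) ≤ D.nW f := by
        refine Real.sqrt_le_sqrt (div_le_div_of_nonneg_right ?_ (Nat.cast_nonneg _))
        rw [e2, e2]
        refine sum_le_sum fun x _ => mul_le_mul_of_nonneg_left
          (sum_le_sum fun c0 _ => le_trans (le_of_eq ?_) (g x c0).2) (h.mu_pos x).le
        exact sum_congr rfl fun w _ => by split_ifs with hw <;> simp [hw]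
      have h2 : 0 ≤ D.k * D.nE c + nA A :=
        add_nonneg (mul_nonneg (Nat.cast_nonneg _) (D.nE_nonneg c)) (nA_nonneg A)
      have h3 : 0 ≤ D.δ * D.k := mul_nonneg h.δ0.le (Nat.cast_nonneg _)
      gcongr

end Pool.Agent.Lib.BK2.Co
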