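import Pool.Agent.Lib.BK2.CBas

/-! The cross term of the two finite parts. -/

namespace Pool.Agent.Lib.BK2.Co

open Finset

set_option linter.unusedSectionVars false

noncomputable section
open Classical

namespace X1

variable {G W X C O O' : Type} [Fintype G] [Fintype W] [Fintype X] [Fintype C] [Fintype O]
  [Fintype O'] {D : CD G W X C O O'}

/-- cell sum of the pairs through `x` weighted by `Af` -/
def S (D : CD G W X C O O') (c : G → X → ℝ) (e : G) (c0 : C) (x : X) : ℝ :=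
  ∑ y ∈ D.ME e, c e y * D.NE e c0 fun w => x ∈ D.Z e w ∧ y ∈ D.Z e w

/-- its model coefficients -/
def m (D : CD G W X C O O') (x y : X) : ℝ :=
  if y = x then D.k * D.d1 x * D.mu x
  else if D.q x = D.q y then 0 else D.k * (D.k - 1) * D.d2 x y * D.mu x * D.mu y

/-- the size of the coefficients -/
def r (D : CD G W X C O O') (x y : X) : ℝ :=
  (if y = x then D.k * D.mu x else 0) + D.k ^ 2 * D.mu x * D.mu y

theorem expand (h : D.Ok) (c : G → X → ℝ) (g : C → X → ℝ) (e : G) :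
    ∑ w, D.om e w * (D.Bf (fun w x => g (D.cell w) x) e w * D.Af c e w) =
      ∑ x ∈ D.ME e, ∑ c0, g c0 x * S D c e c0 x := by
  have key : ∀ w, D.om e w * (D.Bf (fun w x => g (D.cell w) x) e w * D.Af c e w) =
      ∑ x ∈ D.ME e, ∑ c0, ∑ y ∈ D.ME e, g c0 x * (c e y *
        if D.cell w = c0 ∧ (x ∈ D.Z e w ∧ y ∈ D.Z e w) then D.om e w else 0) := by
    intro w
    by_cases h0 : D.om e w = 0
    · simp [h0]
    have hs := (h.hZ e w h0).1
    have e1 : ∀ f : X → ℝ, ∑ x ∈ D.Z e w, f x = ∑ x ∈ D.ME e, if x ∈ D.Z e w then f x else 0 :=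
      fun f => by rw [sum_ite_mem, inter_eq_right.2 hs]
    rw [CD.Bf, CD.Af, e1, e1, sum_mul_sum, mul_sum]
    refine sum_congr rfl fun x _ => ?_
    rw [sum_eq_single (D.cell w), mul_sum]
    · refine sum_congr rfl fun y _ => ?_
      by_cases hx : x ∈ D.Z e w <;> by_cases hy : y ∈ D.Z e w <;> simp [hx, hy]
      ring
    · intro c0 _ hc
      simp [hc.symm]
    · simp
  simp only [key, S, CD.NE, mul_sum]
  rw [sum_comm]
  refine sum_congr rfl fun x _ => ?_
  rw [sum_comm]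
  refine sum_congr rfl fun c0 _ => ?_
  rw [sum_comm]
  refine sum_congr rfl fun y _ => sum_congr rfl fun w _ => ?_
  congr

theorem NE_err (h : D.Ok) (e : G) (c0 : C) {x y : X} (hx : x ∈ D.ME e) (hy : y ∈ D.ME e) :
    |D.NE e c0 (fun w => x ∈ D.Z e w ∧ y ∈ D.Z e w) - m D x y * D.sz c0| ≤
      D.δ * r D x y * D.sz c0 := by
  have h1 : 0 ≤ D.δ * (D.k ^ 2 * D.mu x * D.mu y) * D.sz c0 := by
    have := h.δ0; have := h.mu_pos x; have := h.mu_pos y; have := D.sz_nonneg c0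
    positivity
  by_cases hxy : y = x
  · subst hxy
    have h2 := h.E1 e c0 y hx
    simp only [m, r, if_true, and_self]
    refine h2.trans ?_
    nlinarith
  by_cases hq : D.q x = D.q y
  · have h2 : D.NE e c0 (fun w => x ∈ D.Z e w ∧ y ∈ D.Z e w) = 0 := by
      refine sum_eq_zero fun w _ => ?_
      split_ifs with h3
      · by_contra h0
        exact hxy ((h.hZ e w h0).2.2.2 x h3.2.1 y h3.2.2 hq).symm
      · rfl
    simp only [m, r, if_neg hxy, if_pos hq, h2, zero_mul, sub_zero, abs_zero, zero_add]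
    exact h1
  · have h2 := h.E2 e c0 x hx y hy hq
    simp only [m, r, if_neg hxy, if_neg hq, zero_add]
    refine h2.trans (le_of_eq ?_)
    ring

theorem m_le (h : D.Ok) (x y : X) : |m D x y| ≤ 2 * r D x y := by
  have hx := h.mu_pos x
  have hy := h.mu_pos y
  have hk := h.k100
  have h1 : 0 ≤ (D.k : ℝ) ^ 2 * D.mu x * D.mu y := by positivity
  have h3 : 0 ≤ D.k * D.mu x := by positivity
  by_cases hxy : y = x
  · simp only [m, r, if_pos hxy]
    have := h.d1_lo x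
    have := h.d1_hi x
    rw [abs_of_nonneg (by positivity)]
    nlinarith
  by_cases hq : D.q x = D.q y
  · simp only [m, r, if_neg hxy, if_pos hq, abs_zero, zero_add]
    positivity
  · simp only [m, r, if_neg hxy, if_neg hq, zero_add]
    have e : D.k * (D.k - 1) * D.d2 x y * D.mu x * D.mu y =
        (D.k * (D.k - 1) * D.mu x * D.mu y) * D.d2 x y := by ring
    have h4 : 0 ≤ D.k * (D.k - 1) * D.mu x * D.mu y := by
      have : (0 : ℝ) ≤ D.k - 1 := by linarith
      positivity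
    rw [e, abs_mul, abs_of_nonneg h4]
    have h5 : D.k * (D.k - 1) * D.mu x * D.mu y ≤ (D.k : ℝ) ^ 2 * D.mu x * D.mu y := by
      have : 0 ≤ D.k * D.mu x * D.mu y := by positivity
      nlinarith
    nlinarith [h.d2_le x y, abs_nonneg (D.d2 x y)]

theorem r_sum (c : G → X → ℝ) (e : G) {x : X} (hx : x ∈ D.ME e) :
    ∑ y ∈ D.ME e, |c e y| * r D x y =
      D.mu x * (D.k * |c e x| + D.k ^ 2 * ∑ y ∈ D.ME e, D.mu y * |c e y|) := by
  simp only [r, mul_add, sum_add_distrib, mul_ite, mul_zero, sum_ite_eq', if_pos hx, mul_sum]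
  congr 1
  · ring
  · exact sum_congr rfl fun y _ => by ring

theorem cell_sum (h : D.Ok) (c : G → X → ℝ) (g : C → X → ℝ) (e : G) {x : X} (hx : x ∈ D.ME e)
    (hg : ∑ c0, D.szx c0 x * g c0 x = 0) :
    |∑ c0, g c0 x * S D c e c0 x| ≤
      3 * D.δ * (∑ y ∈ D.ME e, |c e y| * r D x y) * ∑ c0, D.sz c0 * |g c0 x| := by
  set R := ∑ y ∈ D.ME e, |c e y| * r D x y with hR
  set M := ∑ y ∈ D.ME e, c e y * m D x y with hM
  set P := ∑ c0, D.sz c0 * |g c0 x| with hP
  have h1 : ∀ c0, |S D c e c0 x - M * D.sz c0| ≤ D.δ * R * D.sz c0 := by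
    intro c0
    rw [S, hM, hR, sum_mul, ← sum_sub_distrib, mul_sum, sum_mul]
    refine (abs_sum_le_sum_abs _ _).trans (sum_le_sum fun y hy => ?_)
    rw [mul_assoc, ← mul_sub, abs_mul]
    refine (mul_le_mul_of_nonneg_left (NE_err h e c0 hx hy) (abs_nonneg _)).trans (le_of_eq ?_)
    ring
  have h2 : |M| ≤ 2 * R := by
    rw [hM, hR, mul_sum]
    refine (abs_sum_le_sum_abs _ _).trans (sum_le_sum fun y _ => ?_)
    rw [abs_mul]
    refine (mul_le_mul_of_nonneg_left (m_le h x y) (abs_nonneg _)).trans (le_of_eq ?_)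
    ring
  have h3 : |∑ c0, D.sz c0 * g c0 x| ≤ D.δ * P := by
    have e1 : ∑ c0, D.sz c0 * g c0 x = -∑ c0, (D.q x * D.szx c0 x - D.sz c0) * g c0 x := by
      simp only [sub_mul, sum_sub_distrib, mul_assoc, ← mul_sum, hg]
      ring
    rw [e1, abs_neg, hP, mul_sum]
    refine (abs_sum_le_sum_abs _ _).trans (sum_le_sum fun c0 _ => ?_)
    rw [abs_mul, ← mul_assoc]
    exact mul_le_mul_of_nonneg_right (h.cntW c0 x) (abs_nonneg _)
  have h4 : |∑ c0, g c0 x * (S D c e c0 x - M * D.sz c0)| ≤ D.δ * R * P := by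
    rw [hP, mul_sum]
    refine (abs_sum_le_sum_abs _ _).trans (sum_le_sum fun c0 _ => ?_)
    rw [abs_mul]
    refine (mul_le_mul_of_nonneg_left (h1 c0) (abs_nonneg _)).trans (le_of_eq ?_)
    ring
  have e2 : ∑ c0, g c0 x * S D c e c0 x = ∑ c0, g c0 x * (S D c e c0 x - M * D.sz c0) +
      M * ∑ c0, D.sz c0 * g c0 x := by
    rw [mul_sum, ← sum_add_distrib]
    exact sum_congr rfl fun c0 _ => by ring
  rw [e2]
  refine (abs_add_le _ _).trans ?_
  rw [abs_mul]
  have h5 := mul_le_mul h2 h3 (abs_nonneg _) ((abs_nonneg _).trans h2)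
  linarith

theorem szx_mean (f : W → X → ℝ) (c0 : C) (x : X) :
    D.szx c0 x * D.mean1 f c0 x = ∑ w, if D.cell w = c0 ∧ x ∈ D.MW w then f w x else 0 := by
  by_cases h0 : D.szx c0 x = 0
  · rw [h0, zero_mul]
    refine (sum_eq_zero fun w _ => if_neg fun hw => ?_).symm
    rw [CD.szx, Nat.cast_eq_zero, card_eq_zero, filter_eq_empty_iff] at h0
    exact h0 (mem_univ w) hw
  · rw [CD.mean1, mul_div_cancel₀ _ h0]

theorem szx_mean_sq (f : W → X → ℝ) (c0 : C) (x : X) :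
    D.szx c0 x * D.mean1 f c0 x ^ 2 ≤
      ∑ w, if D.cell w = c0 ∧ x ∈ D.MW w then f w x ^ 2 else 0 := by
  have h1 := szx_mean (D := D) f c0 x
  set g := D.mean1 f c0 x
  have h2 : 0 ≤ ∑ w, if D.cell w = c0 ∧ x ∈ D.MW w then (f w x - g) ^ 2 else 0 :=
    sum_nonneg fun w _ => by positivity
  have h3 : (∑ w, if D.cell w = c0 ∧ x ∈ D.MW w then (f w x - g) ^ 2 else 0) =
      (∑ w, if D.cell w = c0 ∧ x ∈ D.MW w then f w x ^ 2 else 0) -
        2 * g * (∑ w, if D.cell w = c0 ∧ x ∈ D.MW w then f w x else 0) + g ^ 2 * D.szx c0 x := by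
    rw [D.szx_eq, mul_sum, mul_sum, ← sum_sub_distrib, ← sum_add_distrib]
    refine sum_congr rfl fun w _ => ?_
    split_ifs <;> ring
  rw [h3, ← h1] at h2
  nlinarith

theorem sum_cells' (f : W → ℝ) (x : X) :
    ∑ c0, ∑ w, (if D.cell w = c0 ∧ x ∈ D.MW w then f w else 0) =
      ∑ w, if x ∈ D.MW w then f w else 0 := by
  rw [D.sum_cells]
  refine sum_congr rfl fun c0 _ => sum_congr rfl fun w _ => ?_
  by_cases h1 : D.cell w = c0 <;> simp [h1]

theorem P_sq [Nonempty W] (h : D.Ok) (f : W → X → ℝ) (x : X) :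
    ((∑ c0, D.sz c0 * |D.mean1 f c0 x|) / Fintype.card W) ^ 2 ≤
      2 * D.q x * av fun w => if x ∈ D.MW w then f w x ^ 2 else 0 := by
  have hW : (0 : ℝ) < Fintype.card W := by exact_mod_cast Fintype.card_pos
  have h1 := wcs univ (m := D.sz) (fun c0 _ => D.sz_nonneg c0) (fun _ => 1)
    fun c0 => |D.mean1 f c0 x|
  simp only [one_mul, one_pow, mul_one, sq_abs, D.sum_sz] at h1
  have h2 : ∑ c0, D.sz c0 * D.mean1 f c0 x ^ 2 ≤
      2 * D.q x * ∑ w, if x ∈ D.MW w then f w x ^ 2 else 0 := by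
    rw [← sum_cells', mul_sum]
    refine sum_le_sum fun c0 _ => ?_
    have h3 := mul_le_mul_of_nonneg_right (h.sz_le c0 x) (sq_nonneg (D.mean1 f c0 x))
    have h4 := mul_le_mul_of_nonneg_left (szx_mean_sq (D := D) f c0 x) (h.q_pos x).le
    nlinarith
  have h3 := pow_le_pow_left₀ (abs_nonneg _) h1 2
  rw [sq_abs, mul_pow, Real.sq_sqrt hW.le, Real.sq_sqrt
    (sum_nonneg fun c0 _ => mul_nonneg (D.sz_nonneg c0) (sq_nonneg _))] at h3
  rw [div_pow, av, div_le_iff₀ (by positivity)]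
  refine (h3.trans (mul_le_mul_of_nonneg_left h2 hW.le)).trans (le_of_eq ?_)
  field_simp

theorem U_sq [Nonempty W] (h : D.Ok) (f : W → X → ℝ) (u : X → ℝ)
    (hu : ∀ x, u x ^ 2 ≤ 2 * D.q x * av fun w => if x ∈ D.MW w then f w x ^ 2 else 0) :
    √(av fun e => ∑ x ∈ D.ME e, D.mu x * u x ^ 2) ≤ 2 * D.K * D.nW f := by
  have hK := h.K1
  refine Real.sqrt_le_iff.2 ⟨mul_nonneg (by linarith) (D.nW_nonneg f), ?_⟩
  have e1 : (av fun e => ∑ x ∈ D.ME e, D.mu x * u x ^ 2) =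
      ∑ x, D.mu x * u x ^ 2 * av fun e => if x ∈ D.ME e then (1 : ℝ) else 0 := by
    simp only [← av_mul, ← av_sum]
    refine congrArg av (funext fun e => ?_)
    simp
  have e2 : D.nW f ^ 2 = ∑ x, D.mu x * av fun w => if x ∈ D.MW w then f w x ^ 2 else 0 := by
    rw [h.nW_sq]
    simp only [← av_mul, ← av_sum]
    refine congrArg av (funext fun e => ?_)
    simp
  have h1 : (av fun e => ∑ x ∈ D.ME e, D.mu x * u x ^ 2) ≤ 2 * D.K * D.nW f ^ 2 := by
    rw [e1, e2, mul_sum]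
    refine sum_le_sum fun x _ => ?_
    have h2 : 0 ≤ av fun e => if x ∈ D.ME e then (1 : ℝ) else 0 :=
      av_nonneg fun _ => by positivity
    have h3 : 0 ≤ av fun w => if x ∈ D.MW w then f w x ^ 2 else 0 :=
      av_nonneg fun _ => by positivity
    have h4 := mul_le_mul_of_nonneg_right (hu x) h2
    have h5 := mul_le_mul_of_nonneg_right (h.cntE x) h3
    have h6 := mul_le_mul_of_nonneg_left (h4.trans (by nlinarith :
      _ ≤ 2 * D.K * av fun w => if x ∈ D.MW w then f w x ^ 2 else 0)) (h.mu_pos x).le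
    nlinarith
  have h2 : 0 ≤ D.K * D.nW f ^ 2 := by positivity
  nlinarith

theorem main [Nonempty W] (h : D.Ok) (c : G → X → ℝ) (f : W → X → ℝ)
    (hf : ∀ x, ∑ w, (if x ∈ D.MW w then f w x else 0) = 0) :
    |D.ip (D.Bf fun w x => D.mean1 f (D.cell w) x) (D.Af c)| ≤
      18 * D.K * D.δ * D.k ^ 2 * D.nE c * D.nW f := by
  have hW : (0 : ℝ) < Fintype.card W := by exact_mod_cast Fintype.card_pos
  have hδ := h.δ0
  have hk := h.k100
  set u : X → ℝ := fun x => (∑ c0, D.sz c0 * |D.mean1 f c0 x|) / Fintype.card W with hu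
  have u0 : ∀ x, 0 ≤ u x := fun x =>
    div_nonneg (sum_nonneg fun c0 _ => mul_nonneg (D.sz_nonneg c0) (abs_nonneg _)) hW.le
  have hm : ∀ e, ∀ x ∈ D.ME e, 0 ≤ D.mu x := fun _ x _ => (h.mu_pos x).le
  have h1 : ∀ e, |av fun w => D.om e w *
      (D.Bf (fun w x => D.mean1 f (D.cell w) x) e w * D.Af c e w)| ≤ 9 * D.δ * D.k ^ 2 *
        (√(∑ x ∈ D.ME e, D.mu x * c e x ^ 2) * √(∑ x ∈ D.ME e, D.mu x * u x ^ 2)) := by
    intro e
    set n := √(∑ x ∈ D.ME e, D.mu x * c e x ^ 2)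
    set U := √(∑ x ∈ D.ME e, D.mu x * u x ^ 2)
    set L := ∑ y ∈ D.ME e, D.mu y * |c e y| with hL
    have hn : 0 ≤ n := Real.sqrt_nonneg _
    have hU : 0 ≤ U := Real.sqrt_nonneg _
    have a1 : L ≤ 3 / 2 * n := l1_le _ (hm e) (h.ME_le e) _
    have a2 : ∑ x ∈ D.ME e, D.mu x * u x ≤ 3 / 2 * U := by
      have := l1_le _ (hm e) (h.ME_le e) u
      simpa only [abs_of_nonneg (u0 _)] using this
    have a3 : ∑ x ∈ D.ME e, D.mu x * (|c e x| * u x) ≤ n * U := by
      have := wcs _ (hm e) (fun x => |c e x|) u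
      simp only [sq_abs] at this
      exact (le_abs_self _).trans this
    have a4 : L * ∑ x ∈ D.ME e, D.mu x * u x ≤ 3 / 2 * n * (3 / 2 * U) :=
      mul_le_mul a1 a2 (sum_nonneg fun x hx => mul_nonneg (hm e x hx) (u0 x)) (by positivity)
    have a5 : |av fun w => D.om e w *
        (D.Bf (fun w x => D.mean1 f (D.cell w) x) e w * D.Af c e w)| ≤ 3 * D.δ *
        (D.k * ∑ x ∈ D.ME e, D.mu x * (|c e x| * u x) +
          D.k ^ 2 * (L * ∑ x ∈ D.ME e, D.mu x * u x)) := by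
      rw [av, expand h, sum_div, mul_sum, mul_sum, mul_sum, ← sum_add_distrib, mul_sum]
      refine (abs_sum_le_sum_abs _ _).trans (sum_le_sum fun x hx => ?_)
      rw [abs_div, abs_of_pos hW]
      refine (div_le_div_of_nonneg_right (cell_sum h c _ e hx ?_) hW.le).trans (le_of_eq ?_)
      · simp only [szx_mean]
        rw [sum_cells' (fun w => f w x), hf]
      · rw [r_sum c e hx, ← hL, hu]
        ring
    refine a5.trans ?_
    have a6 : 0 ≤ n * U := by positivity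
    have a7 : D.k * ∑ x ∈ D.ME e, D.mu x * (|c e x| * u x) +
        D.k ^ 2 * (L * ∑ x ∈ D.ME e, D.mu x * u x) ≤ 3 * D.k ^ 2 * (n * U) := by
      have b1 := mul_le_mul_of_nonneg_left a3 (by linarith : (0 : ℝ) ≤ D.k)
      have b2 := mul_le_mul_of_nonneg_left a4 (sq_nonneg (D.k : ℝ))
      have b3 : D.k * (n * U) ≤ 3 / 4 * D.k ^ 2 * (n * U) :=
        mul_le_mul_of_nonneg_right (by nlinarith) a6
      nlinarith
    nlinarith
  refine (abs_av_le' h1).trans ?_
  rw [av_mul]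
  have h2 := av_sqrt_mul (u := fun e => ∑ x ∈ D.ME e, D.mu x * c e x ^ 2)
    (v := fun e => ∑ x ∈ D.ME e, D.mu x * u x ^ 2)
    (fun e => sum_nonneg fun x hx => mul_nonneg (hm e x hx) (sq_nonneg _))
    fun e => sum_nonneg fun x hx => mul_nonneg (hm e x hx) (sq_nonneg _)
  have h3 := mul_le_mul_of_nonneg_left (U_sq h f u (P_sq h f)) (D.nE_nonneg c)
  refine (mul_le_mul_of_nonneg_left (h2.trans h3) (by positivity)).trans (le_of_eq ?_)
  ring

end X1

end

theorem stX1 (hT : St_TL) : St_X1 := by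
  intro G W X C O O' _ _ _ _ _ _ _ _ D h c c' A A' s
  have h1 := (hT G W X C O O' D h).2 c (fun _ _ => 0) c'
  simp only [CD.alp_zero, add_zero, nA_zero] at h1
  have h2 := X1.main h c c' fun x => by
    refine (sum_congr rfl fun w _ => ?_).trans (s.gX x)
    split_ifs with hx
    · rfl
    · exact (s.c'0 w x fun hw => hx (h.AW_sub w x hw).2).symm
  have h3 := abs_sub_abs_le_abs_sub (D.ip (D.Bf c') (D.Af c))
    (D.ip (D.Bf fun w x => D.mean1 c' (D.cell w) x) (D.Af c))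
  have h4 : 0 ≤ D.k * (D.nE c * D.nW c') :=
    mul_nonneg (Nat.cast_nonneg _) (mul_nonneg (D.nE_nonneg c) (D.nW_nonneg c'))
  have h5 := mul_le_mul_of_nonneg_right h.kδ h4
  have h6 := mul_le_mul_of_nonneg_right h.hδ h4
  change |D.ip (D.Bf c') (D.Af c) -
    D.ip (D.Bf fun w x => D.mean1 c' (D.cell w) x) (D.Af c)| ≤ _ at h1
  nlinarith

end Pool.Agent.Lib.BK2.Co
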