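import Pool.Agent.Lib.BK2.CDefs

/-! The cross term between the points of the window and the archimedean part of the curves. -/

namespace Pool.Agent.Lib.BK2.Co

open Finset Classical

set_option linter.unusedSectionVars false

namespace X2

theorem cs1 {ι : Type} (s : Finset ι) (w b : ι → ℝ) (hw : ∀ i ∈ s, 0 ≤ w i) :
    (∑ i ∈ s, w i * b i) ^ 2 ≤ (∑ i ∈ s, w i) * ∑ i ∈ s, w i * b i ^ 2 :=
  sum_sq_le_sum_mul_sum_of_sq_le_mul s hw (fun i hi => mul_nonneg (hw i hi) (sq_nonneg _))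
    fun i _ => le_of_eq (by ring)

theorem dot {O : Type} [Fintype O] (a l : O → ℝ) {K : ℝ} (hK : 0 ≤ K) (h : ∑ j, l j ^ 2 ≤ K ^ 2) :
    |∑ j, a j * l j| ≤ K * √(∑ j, a j ^ 2) := by
  refine abs_le_of_sq_le_sq ?_ (by positivity)
  rw [mul_pow, Real.sq_sqrt (by positivity), mul_comm]
  exact (sum_mul_sq_le_sq_mul_sq _ _ _).trans (mul_le_mul_of_nonneg_left h (by positivity))

section av

variable {ι : Type} [Fintype ι]

theorem av_mono {f g : ι → ℝ} (h : ∀ i, f i ≤ g i) : av f ≤ av g :=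
  div_le_div_of_nonneg_right (sum_le_sum fun i _ => h i) (Nat.cast_nonneg _)

theorem av_nonneg {f : ι → ℝ} (h : ∀ i, 0 ≤ f i) : 0 ≤ av f :=
  div_nonneg (sum_nonneg fun i _ => h i) (Nat.cast_nonneg _)

theorem av_mul (a : ℝ) (f : ι → ℝ) : av (fun i => a * f i) = a * av f := by
  rw [av, av, ← mul_sum, mul_div_assoc]

theorem av_add (f g : ι → ℝ) : av (fun i => f i + g i) = av f + av g := by
  rw [av, av, av, sum_add_distrib, add_div]

theorem av_sum {κ : Type} (s : Finset κ) (f : ι → κ → ℝ) :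
    av (fun i => ∑ c ∈ s, f i c) = ∑ c ∈ s, av fun i => f i c := by
  simp only [av]
  rw [sum_comm, sum_div]

theorem av_abs (f : ι → ℝ) : |av f| ≤ av fun i => |f i| := by
  rw [av, av, abs_div, Nat.abs_cast]
  exact div_le_div_of_nonneg_right (abs_sum_le_sum_abs _ _) (Nat.cast_nonneg _)

theorem av_const [Nonempty ι] (a : ℝ) : av (fun _ : ι => a) = a := by
  have hc : (Fintype.card ι : ℝ) ≠ 0 := by exact_mod_cast Fintype.card_ne_zero
  rw [av, sum_const, card_univ, nsmul_eq_mul, mul_div_cancel_left₀ _ hc]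

theorem av_cs (a y : ι → ℝ) : av (fun i => a i * y i) ^ 2 ≤
    av (fun i => a i ^ 2) * av fun i => y i ^ 2 := by
  rw [av, av, av, div_pow, div_mul_div_comm, ← sq]
  exact div_le_div_of_nonneg_right (sum_mul_sq_le_sq_mul_sq _ _ _) (sq_nonneg _)

theorem av_nA {O : Type} [Fintype O] (A : ι → O → ℝ) (y : ι → ℝ)
    {Y : ℝ} (hY : 0 ≤ Y) (h : av (fun i => y i ^ 2) ≤ Y ^ 2) :
    av (fun i => √(∑ j, A i j ^ 2) * y i) ≤ nA A * Y := by
  have h0 : 0 ≤ av fun i => ∑ j, A i j ^ 2 := av_nonneg fun i => by positivity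
  refine le_of_sq_le_sq ((av_cs _ _).trans ?_) (mul_nonneg (Real.sqrt_nonneg _) hY)
  rw [mul_pow, nA, Real.sq_sqrt h0]
  simp only [fun i => Real.sq_sqrt (show 0 ≤ ∑ j, A i j ^ 2 by positivity)]
  exact mul_le_mul_of_nonneg_left h h0

end av

variable {G W X C O O' : Type} [Fintype G] [Fintype W] [Fintype X] [Fintype C] [Fintype O]
  [Fintype O'] {D : CD G W X C O O'}

theorem sum_cell (F : W → ℝ) : ∑ c, ∑ w, (if D.cell w = c then F w else 0) = ∑ w, F w := by
  rw [sum_comm]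
  simp

theorem sz_eq (c : C) : D.sz c = ∑ w, if D.cell w = c then 1 else 0 := by
  rw [CD.sz, card_filter]
  push_cast
  rfl

theorem sz_nn (c : C) : 0 ≤ D.sz c := Nat.cast_nonneg _

theorem sum_sz : ∑ c, D.sz c = Fintype.card W := by
  simp only [sz_eq]
  rw [sum_cell]
  simp

theorem szx_mean (f : W → X → ℝ) (c : C) (x : X) : D.szx c x * D.mean1 f c x =
    ∑ w, if D.cell w = c ∧ x ∈ D.MW w then f w x else 0 := by
  by_cases h : D.szx c x = 0
  · rw [h, zero_mul]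
    rw [CD.szx, Nat.cast_eq_zero, card_eq_zero, filter_eq_empty_iff] at h
    exact (sum_eq_zero fun w hw => if_neg (h hw)).symm
  · rw [CD.mean1, mul_div_cancel₀ _ h]

theorem szx_mean_sq (f : W → X → ℝ) (c : C) (x : X) : D.szx c x * D.mean1 f c x ^ 2 ≤
    ∑ w, if D.cell w = c ∧ x ∈ D.MW w then f w x ^ 2 else 0 := by
  have h0 : 0 ≤ D.szx c x := Nat.cast_nonneg _
  rcases h0.eq_or_lt with h | h
  · rw [← h, zero_mul]
    exact sum_nonneg fun w _ => by positivity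
  refine le_of_mul_le_mul_left ?_ h
  have h1 := cs1 univ (fun w => if D.cell w = c ∧ x ∈ D.MW w then 1 else 0) (fun w => f w x)
    fun w _ => by positivity
  simp only [ite_mul, one_mul, zero_mul, sum_boole] at h1
  rw [← szx_mean] at h1
  exact le_trans (le_of_eq (by ring)) h1

theorem regroupW (φ : X → ℝ) (F : W → X → ℝ) (c : C) :
    ∑ x, φ x * ∑ w, (if D.cell w = c ∧ x ∈ D.MW w then F w x else 0) =
      ∑ w, if D.cell w = c then ∑ x ∈ D.MW w, φ x * F w x else 0 := by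
  simp only [mul_sum]
  rw [sum_comm]
  refine sum_congr rfl fun w _ => ?_
  by_cases h : D.cell w = c <;> simp [h]

theorem jen [Nonempty G] (z : G → C → ℝ) (N : C → ℝ) {β Y : ℝ}
    (h : ∀ c, av (fun e => z e c ^ 2) ≤ β ^ 2 * N c)
    (hN : ∑ c, D.sz c * N c ≤ 2 * Fintype.card W * Y ^ 2) :
    av (fun e => (∑ c, D.sz c * z e c) ^ 2) ≤ (2 * β * Y * Fintype.card W) ^ 2 := by
  refine (av_mono fun e => cs1 univ D.sz (z e) fun c _ => sz_nn c).trans ?_
  rw [av_mul, av_sum, sum_sz]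
  simp only [av_mul]
  have h1 : ∑ c, D.sz c * av (fun e => z e c ^ 2) ≤ β ^ 2 * (2 * Fintype.card W * Y ^ 2) := by
    refine le_trans (sum_le_sum fun c _ => mul_le_mul_of_nonneg_left (h c) (sz_nn c)) ?_
    simp only [mul_left_comm _ (β ^ 2)]
    rw [← mul_sum]
    exact mul_le_mul_of_nonneg_left hN (sq_nonneg _)
  have h2 : (0 : ℝ) ≤ Fintype.card W := Nat.cast_nonneg _
  nlinarith [mul_le_mul_of_nonneg_left h1 h2, sq_nonneg (β * Y * Fintype.card W)]

variable (hD : D.Ok)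

include hD

theorem small : 0 < D.K ∧ (100 : ℝ) ≤ D.k ∧ D.δ ≤ 1 / 2 := by
  have h1 := hD.K1
  have h2 := hD.hk
  have h3 := hD.δ0
  have h4 := hD.hδ
  have h5 : (100 : ℝ) ≤ D.K * D.k := by nlinarith
  exact ⟨by linarith, by linarith, by nlinarith⟩

theorem regroupE (e : G) (h : C → X → ℝ) :
    ∑ w, D.om e w * ∑ x ∈ D.Z e w, h (D.cell w) x =
      ∑ c, ∑ x ∈ D.ME e, h c x * D.NE e c fun w => x ∈ D.Z e w := by
  simp only [CD.NE, mul_sum]
  rw [sum_congr rfl fun c _ => sum_comm (s := D.ME e), sum_comm (s := (univ : Finset C))]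
  refine sum_congr rfl fun w _ => ?_
  by_cases h0 : D.om e w = 0
  · simp [h0]
  rw [sum_comm, ← sum_subset (hD.hZ e w h0).1 fun x _ hx => by simp [hx]]
  exact sum_congr rfl fun x hx => by simp [hx, mul_comm]

theorem sumN (f : W → X → ℝ) : ∑ c, D.sz c * ∑ x, D.mu x * D.mean1 f c x ^ 2 / D.q x ≤
    2 * Fintype.card W * D.nW f ^ 2 := by
  have h0 : ∀ w, 0 ≤ ∑ x ∈ D.MW w, D.mu x * f w x ^ 2 := fun w =>
    sum_nonneg fun x _ => mul_nonneg (hD.mu_pos x).le (sq_nonneg _)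
  have h1 : Fintype.card W * D.nW f ^ 2 = ∑ w, ∑ x ∈ D.MW w, D.mu x * f w x ^ 2 := by
    rw [CD.nW, Real.sq_sqrt (av_nonneg h0), av]
    rcases isEmpty_or_nonempty W with h | h
    · simp
    · exact mul_div_cancel₀ _ (by exact_mod_cast Fintype.card_ne_zero)
  rw [mul_assoc, h1, ← sum_cell (D := D), mul_sum]
  refine sum_le_sum fun c _ => ?_
  rw [← regroupW D.mu (fun w x => f w x ^ 2), mul_sum, mul_sum]
  refine sum_le_sum fun x _ => ?_
  have h2 := (abs_le.1 (hD.cntW c x)).1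
  have h3 := mul_le_mul_of_nonneg_right (small hD).2.2 (sz_nn (D := D) c)
  have hq := hD.q_pos x
  have hm := hD.mu_pos x
  calc _ = D.sz c * (D.mu x * D.mean1 f c x ^ 2 / D.q x) := rfl
    _ ≤ 2 * (D.q x * D.szx c x) * (D.mu x * D.mean1 f c x ^ 2 / D.q x) :=
        mul_le_mul_of_nonneg_right (by linarith) (by positivity)
    _ = 2 * (D.mu x * (D.szx c x * D.mean1 f c x ^ 2)) := by field_simp
    _ ≤ _ := by gcongr; exact szx_mean_sq f c x

theorem mass [Nonempty G] : ∑ x, D.mu x / D.q x ≤ 3 := by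
  by_contra h
  push Not at h
  have h1 := hD.sm 1
  simp only [Pi.one_apply, mul_one, one_pow] at h1
  generalize ∑ x, D.mu x / D.q x = m at h h1
  have h2 : (m - 2) ^ 2 ≤ av fun e => (∑ x ∈ D.ME e, D.mu x - m) ^ 2 := by
    rw [← av_const (ι := G) ((m - 2) ^ 2)]
    refine av_mono fun e => ?_
    have : ∑ x ∈ D.ME e, D.mu x ≤ 2 := hD.ME_le e
    nlinarith
  have h3 := (small hD).2.2
  have h4 := hD.δ0
  have h5 : D.δ ^ 2 ≤ 1 / 4 := by nlinarith
  nlinarith

theorem avL (g : X → ℝ) : av (fun e => (∑ x ∈ D.ME e, D.mu x * |g x|) ^ 2) ≤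
    (2 * D.K) ^ 2 * ∑ x, D.mu x * g x ^ 2 / D.q x := by
  have h0 : ∀ x, 0 ≤ D.mu x * g x ^ 2 := fun x => mul_nonneg (hD.mu_pos x).le (sq_nonneg _)
  have h1 : ∀ e, (∑ x ∈ D.ME e, D.mu x * |g x|) ^ 2 ≤
      2 * ∑ x, D.mu x * g x ^ 2 * if x ∈ D.ME e then 1 else 0 := fun e => by
    refine (cs1 _ _ _ fun x _ => (hD.mu_pos x).le).trans ?_
    simp only [sq_abs, mul_ite, mul_one, mul_zero, sum_ite_mem, univ_inter]
    exact mul_le_mul_of_nonneg_right (hD.ME_le e) (sum_nonneg fun x _ => h0 x)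
  refine (av_mono h1).trans ?_
  rw [av_mul, av_sum, mul_sum, mul_sum]
  refine sum_le_sum fun x _ => ?_
  have h2 := (le_div_iff₀' (hD.q_pos x)).2 (hD.cntE x)
  have hq := hD.q_pos x
  have hK := hD.K1
  rw [av_mul]
  calc _ ≤ 2 * (D.mu x * g x ^ 2 * (D.K / D.q x)) := by gcongr; exact h0 x
    _ = 2 * D.K * (D.mu x * g x ^ 2 / D.q x) := by ring
    _ ≤ _ := mul_le_mul_of_nonneg_right (by nlinarith) (div_nonneg (h0 x) hq.le)

theorem avS (g : X → ℝ) : av (fun e => |∑ x ∈ D.ME e, D.mu x * (g x * D.d1 x) -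
      ∑ x, D.mu x * (g x * D.d1 x) / D.q x| ^ 2) ≤
    (2 * D.δ) ^ 2 * ∑ x, D.mu x * g x ^ 2 / D.q x := by
  simp only [sq_abs]
  refine (hD.sm _).trans ?_
  rw [mul_pow, mul_comm (2 ^ 2 : ℝ), mul_assoc, mul_sum _ _ (2 ^ 2 : ℝ)]
  refine mul_le_mul_of_nonneg_left (sum_le_sum fun x _ => ?_) (sq_nonneg _)
  have h1 := hD.d1_lo x
  have h2 := hD.d1_hi x
  have hq := hD.q_pos x
  have hm := hD.mu_pos x
  calc _ = D.d1 x ^ 2 * (D.mu x * g x ^ 2 / D.q x) := by ring
    _ ≤ _ := by gcongr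

theorem bndB [Nonempty G] [Nonempty W] {c c' A A'} (hS : D.Sol c c' A A') :
    ∑ c0, |D.sz c0 * ∑ x, D.mu x * (D.mean1 c' c0 x * D.d1 x) / D.q x| ≤
      (D.K / D.k + 8 * D.δ) * D.nW c' * Fintype.card W := by
  obtain ⟨hK, hk, -⟩ := small hD
  have hδ := hD.δ0
  have hW : (0 : ℝ) < Fintype.card W := by exact_mod_cast Fintype.card_pos
  have hn : 0 ≤ D.nW c' := Real.sqrt_nonneg _
  have h1 : ∀ c0, |D.sz c0 * ∑ x, D.mu x * (D.mean1 c' c0 x * D.d1 x) / D.q x| ≤
      (∑ w, if D.cell w = c0 then |∑ x ∈ D.MW w, D.mu x * c' w x * D.d1 x| else 0) +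
        2 * D.δ * (D.sz c0 * ∑ x, D.mu x / D.q x * |D.mean1 c' c0 x|) := by
    intro c0
    have h2 := regroupW (D := D) (fun x => D.mu x * D.d1 x) c' c0
    simp only [← szx_mean, mul_right_comm _ (D.d1 _)] at h2
    have h3 : D.sz c0 * ∑ x, D.mu x * (D.mean1 c' c0 x * D.d1 x) / D.q x =
        ∑ x, D.mu x * (D.szx c0 x * D.mean1 c' c0 x) * D.d1 x + ∑ x, D.mu x / D.q x *
          D.mean1 c' c0 x * D.d1 x * -(D.q x * D.szx c0 x - D.sz c0) := by
      rw [mul_sum, ← sum_add_distrib]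
      refine sum_congr rfl fun x _ => ?_
      have := (hD.q_pos x).ne'
      field_simp
      ring
    rw [h3, h2]
    refine (abs_add_le _ _).trans (add_le_add ((abs_sum_le_sum_abs _ _).trans
      (sum_le_sum fun w _ => ?_)) ((abs_sum_le_sum_abs _ _).trans ?_))
    · split_ifs <;> simp
    · rw [mul_sum, mul_sum]
      refine sum_le_sum fun x _ => ?_
      have h4 := hD.d1_lo x
      have h5 := hD.d1_hi x
      have hq := hD.q_pos x
      have hm := hD.mu_pos x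
      rw [abs_mul, abs_mul, abs_mul, abs_neg, abs_of_pos (div_pos hm hq),
        abs_of_pos (show 0 < D.d1 x by linarith)]
      calc _ ≤ D.mu x / D.q x * |D.mean1 c' c0 x| * 2 * (D.δ * D.sz c0) := by
            gcongr; exact hD.cntW c0 x
        _ = _ := by ring
  refine (sum_le_sum fun c0 _ => h1 c0).trans ?_
  rw [sum_add_distrib, sum_cell, ← mul_sum, add_mul, add_mul]
  refine add_le_add ?_ ?_
  · have h2 : ∀ w, |∑ x ∈ D.MW w, D.mu x * c' w x * D.d1 x| ≤
        D.K / D.k * (1 * √(∑ x ∈ D.MW w, D.mu x * c' w x ^ 2)) := fun w => by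
      by_cases hw : w ∈ D.Wa
      · rw [one_mul]
        exact (hD.coer _ _ (hD.MW_le w hw) (hS.gW1 w) (hS.gWa w)).2
      · have : ∀ x, c' w x = 0 := fun x => hS.c'0 w x fun h => hw (hD.AW_sub w x h).1
        simp [this]
    refine (sum_le_sum fun w _ => h2 w).trans ?_
    rw [← mul_sum, mul_assoc]
    refine mul_le_mul_of_nonneg_left ((div_le_iff₀ hW).1 (Real.le_sqrt_of_sq_le
      ((av_cs (fun _ => 1) _).trans (le_of_eq ?_)))) (by positivity)
    rw [one_pow, av_const, one_mul]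
    exact congrArg av (funext fun w => Real.sq_sqrt
      (sum_nonneg fun x _ => mul_nonneg (hD.mu_pos x).le (sq_nonneg _)))
  · have h2 := jen (D := D) (fun (_ : G) c0 => ∑ x, D.mu x / D.q x * |D.mean1 c' c0 x|) _ (β := 2)
      (fun c0 => ?_) (sumN hD c')
    · rw [av_const] at h2
      have := le_of_sq_le_sq h2 (by positivity)
      nlinarith
    · rw [av_const]
      refine (cs1 _ _ _ fun x _ => (div_pos (hD.mu_pos x) (hD.q_pos x)).le).trans ?_
      simp only [sq_abs, div_mul_eq_mul_div]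
      exact mul_le_mul_of_nonneg_right ((mass hD).trans (by norm_num)) (sum_nonneg fun x _ =>
        div_nonneg (mul_nonneg (hD.mu_pos x).le (sq_nonneg _)) (hD.q_pos x).le)

theorem perE (A : G → O → ℝ) (g : C → X → ℝ) (T : C → ℝ) (e : G) :
    |∑ w, D.om e w * ((∑ x ∈ D.Z e w, g (D.cell w) x) * D.alp A e w)| ≤
      D.δ * D.k * (D.K + 3) * (√(∑ j, A e j ^ 2) * ∑ c, D.sz c * ∑ x ∈ D.ME e, D.mu x * |g c x|) +
      D.k * D.K * (√(∑ j, A e j ^ 2) *
        ∑ c, D.sz c * |∑ x ∈ D.ME e, D.mu x * (g c x * D.d1 x) - T c|) +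
      D.k * D.K * (√(∑ j, A e j ^ 2) * ∑ c, |D.sz c * T c|) := by
  obtain ⟨hK, hk, hδ'⟩ := small hD
  have hδ := hD.δ0
  have h1 : ∀ c, |∑ j, A e j * D.lamC e c j| ≤ D.K * √(∑ j, A e j ^ 2) := fun c =>
    dot _ _ hK.le (hD.lamC_le e c)
  have h2 : ∀ w, |D.alp A e w - ∑ j, A e j * D.lamC e (D.cell w) j| ≤ D.δ * √(∑ j, A e j ^ 2) := by
    intro w
    rw [CD.alp, ← sum_sub_distrib]
    simp only [← mul_sub]
    exact dot _ _ hδ.le (hD.lamC_osc e w)
  have ha := Real.sqrt_nonneg (∑ j, A e j ^ 2)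
  generalize √(∑ j, A e j ^ 2) = a at h1 h2 ha
  obtain ⟨α, hα⟩ : ∃ α : C → ℝ, ∀ c, α c = ∑ j, A e j * D.lamC e c j := ⟨_, fun _ => rfl⟩
  simp only [← hα] at h1 h2
  have h3 : ∑ w, D.om e w * ((∑ x ∈ D.Z e w, g (D.cell w) x) * D.alp A e w) =
      ∑ w, D.om e w * ((∑ x ∈ D.Z e w, g (D.cell w) x) * (D.alp A e w - α (D.cell w))) +
      ∑ c, ∑ x ∈ D.ME e, α c * g c x * (D.NE e c (fun w => x ∈ D.Z e w) -
        D.k * D.d1 x * D.mu x * D.sz c) +
      ∑ c, D.k * α c * (D.sz c * (∑ x ∈ D.ME e, D.mu x * (g c x * D.d1 x) - T c)) +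
      ∑ c, D.k * α c * (D.sz c * T c) := by
    have h4 := regroupE hD e fun c x => α c * g c x
    simp only [← mul_sum] at h4
    simp only [mul_sub, sum_sub_distrib, ← h4, mul_comm (α (D.cell _))]
    have h5 : ∑ c, ∑ x ∈ D.ME e, α c * g c x * (D.k * D.d1 x * D.mu x * D.sz c) =
        ∑ c, D.k * α c * (D.sz c * ∑ x ∈ D.ME e, D.mu x * (g c x * D.d1 x)) := by
      simp only [mul_sum]
      exact sum_congr rfl fun c _ => sum_congr rfl fun x _ => by ring
    rw [h5]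
    ring
  have h4 : |∑ w, D.om e w * ((∑ x ∈ D.Z e w, g (D.cell w) x) * (D.alp A e w - α (D.cell w)))| ≤
      D.δ * D.k * 3 * (a * ∑ c, D.sz c * ∑ x ∈ D.ME e, D.mu x * |g c x|) := by
    calc _ ≤ ∑ w, D.δ * a * (D.om e w * ∑ x ∈ D.Z e w, |g (D.cell w) x|) := by
          refine (abs_sum_le_sum_abs _ _).trans (sum_le_sum fun w _ => ?_)
          have := hD.om_nn e w
          rw [abs_mul, abs_mul, abs_of_nonneg this]
          calc _ ≤ D.om e w * ((∑ x ∈ D.Z e w, |g (D.cell w) x|) * (D.δ * a)) := by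
                gcongr
                · exact abs_sum_le_sum_abs _ _
                · exact h2 w
            _ = _ := by ring
      _ ≤ _ := by
          rw [← mul_sum, regroupE hD e fun c x => |g c x|]
          simp only [mul_sum]
          refine sum_le_sum fun c _ => sum_le_sum fun x hx => ?_
          have h5 := (abs_le.1 (hD.E1 e c x hx)).2
          have h6 : 0 ≤ D.k * D.mu x * D.sz c :=
            mul_nonneg (mul_nonneg (by linarith) (hD.mu_pos x).le) (sz_nn c)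
          have h7 := hD.d1_hi x
          calc _ ≤ D.δ * a * (|g c x| * (3 * (D.k * D.mu x * D.sz c))) := by
                gcongr
                nlinarith
            _ = _ := by ring
  have h5 : |∑ c, ∑ x ∈ D.ME e, α c * g c x * (D.NE e c (fun w => x ∈ D.Z e w) -
      D.k * D.d1 x * D.mu x * D.sz c)| ≤
      D.δ * D.k * D.K * (a * ∑ c, D.sz c * ∑ x ∈ D.ME e, D.mu x * |g c x|) := by
    simp only [mul_sum]
    refine (abs_sum_le_sum_abs _ _).trans (sum_le_sum fun c _ =>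
      (abs_sum_le_sum_abs _ _).trans (sum_le_sum fun x hx => ?_))
    rw [abs_mul, abs_mul]
    calc _ ≤ D.K * a * |g c x| * (D.δ * D.k * D.mu x * D.sz c) := by
          gcongr
          · exact h1 c
          · exact hD.E1 e c x hx
      _ = _ := by ring
  have h6 : ∀ y : C → ℝ, |∑ c, D.k * α c * y c| ≤ D.k * D.K * (a * ∑ c, |y c|) := by
    intro y
    simp only [mul_sum]
    refine (abs_sum_le_sum_abs _ _).trans (sum_le_sum fun c _ => ?_)
    rw [abs_mul, abs_mul, Nat.abs_cast]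
    calc _ ≤ D.k * (D.K * a) * |y c| := by gcongr; exact h1 c
      _ = _ := by ring
  have h7 := h6 fun c => D.sz c * (∑ x ∈ D.ME e, D.mu x * (g c x * D.d1 x) - T c)
  simp only [abs_mul, fun c => abs_of_nonneg (sz_nn (D := D) c)] at h7
  rw [h3]
  refine (abs_add_le _ _).trans (add_le_add ((abs_add_le _ _).trans (add_le_add
    ((abs_add_le _ _).trans ?_) h7)) (h6 _))
  linarith

end X2

open X2 in
theorem stX2 (hT : St_TL) : St_X2 := by
  intro G W X C O O' _ _ _ _ _ _ _ _ D hD c c' A A' hS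
  obtain ⟨hK, hk, -⟩ := small hD
  have hδ := hD.δ0
  have hW : (0 : ℝ) < Fintype.card W := by exact_mod_cast Fintype.card_pos
  have hn : 0 ≤ D.nW c' := Real.sqrt_nonneg _
  have hA : 0 ≤ nA A := Real.sqrt_nonneg _
  have h1 := (hT G W X C O O' D hD).2 0 A c'
  have h2 : (fun e w => D.Af 0 e w + D.alp A e w) = D.alp A := by
    funext e w
    simp [CD.Af]
  have h3 : D.nE 0 = 0 := by simp [CD.nE, av]
  rw [h2, h3, mul_zero, zero_add] at h1
  have h4 : |D.ip (D.Bf fun w x => D.mean1 c' (D.cell w) x) (D.alp A)| * Fintype.card W ≤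
      D.δ * D.k * (D.K + 3) * (nA A * (2 * (2 * D.K) * D.nW c' * Fintype.card W)) +
      D.k * D.K * (nA A * (2 * (2 * D.δ) * D.nW c' * Fintype.card W)) +
      D.k * D.K * (nA A * ((D.K / D.k + 8 * D.δ) * D.nW c' * Fintype.card W)) := by
    rw [mul_comm, CD.ip]
    refine (mul_le_mul_of_nonneg_left (av_abs _) hW.le).trans ?_
    rw [← av_mul]
    refine (av_mono fun e => le_trans (le_of_eq ?_) (perE hD A (D.mean1 c')
      (fun c0 => ∑ x, D.mu x * (D.mean1 c' c0 x * D.d1 x) / D.q x) e)).trans ?_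
    · rw [av, abs_div, Nat.abs_cast, mul_div_cancel₀ _ hW.ne']
      rfl
    rw [av_add, av_add, av_mul, av_mul, av_mul]
    gcongr
    · exact av_nA A _ (by positivity) (jen _ _ (fun c0 => avL hD _) (sumN hD c'))
    · exact av_nA A _ (by positivity) (jen _ _ (fun c0 => avS hD _) (sumN hD c'))
    · refine av_nA A _ (by positivity) ?_
      rw [av_const]
      exact pow_le_pow_left₀ (by positivity) (bndB hD hS) 2
  have h5 : |D.ip (D.Bf fun w x => D.mean1 c' (D.cell w) x) (D.alp A)| ≤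
      (D.K * D.k * D.δ * (4 * D.K + 24) + D.K ^ 2) * (D.nW c' * nA A) := by
    refine le_of_mul_le_mul_right (h4.trans (le_of_eq ?_)) hW
    field_simp
    ring
  have h6 := hD.hδ
  have h7 := hD.K1
  have h8 : D.δ * D.k + (D.K * D.k * D.δ * (4 * D.K + 24) + D.K ^ 2) ≤ 4 * D.K ^ 2 := by
    have h9 : D.δ * D.k ≤ D.K * D.k * D.δ := by nlinarith [mul_pos hδ (show (0 : ℝ) < D.k by linarith)]
    have : D.K * D.k * D.δ * (4 * D.K + 24) ≤ 1 / 1000 * (4 * D.K + 24) := by gcongr; linarith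
    nlinarith
  have h9 := mul_le_mul_of_nonneg_right h8 (mul_nonneg hn hA)
  have := abs_sub_abs_le_abs_sub (D.ip (D.Bf c') (D.alp A))
    (D.ip (D.Bf fun w x => D.mean1 c' (D.cell w) x) (D.alp A))
  nlinarith

end Pool.Agent.Lib.BK2.Co
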