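import Pool.Agent.Lib.BK2.CDefs

/-! The cross term between the finite part on `w` and the archimedean part on `w`. -/

namespace Pool.Agent.Lib.BK2.Co

open Finset

noncomputable section
open Classical

namespace X3

variable {ι κ : Type} [Fintype ι] [Fintype κ]

lemma av_sum {α : Type} (s : Finset α) (f : α → ι → ℝ) :
    av (fun i => ∑ a ∈ s, f a i) = ∑ a ∈ s, av (f a) := by
  simp only [av]; rw [sum_comm, sum_div]

lemma av_mul (c : ℝ) (f : ι → ℝ) : av (fun i => c * f i) = c * av f := by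
  simp only [av]; rw [← mul_sum, mul_div_assoc]

lemma av_sub (f g : ι → ℝ) : av (fun i => f i - g i) = av f - av g := by
  simp only [av]; rw [sum_sub_distrib, sub_div]

lemma av_add (f g : ι → ℝ) : av (fun i => f i + g i) = av f + av g := by
  simp only [av]; rw [sum_add_distrib, add_div]

lemma av_comm (f : ι → κ → ℝ) :
    av (fun i => av fun j => f i j) = av fun j => av fun i => f i j := by
  simp only [av, ← sum_div]; rw [sum_comm, div_div, div_div, mul_comm]

lemma abs_av_le {f g : ι → ℝ} (h : ∀ i, |f i| ≤ g i) : |av f| ≤ av g := by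
  rw [av, av, abs_div, Nat.abs_cast]
  exact div_le_div_of_nonneg_right ((abs_sum_le_sum_abs _ _).trans (sum_le_sum fun i _ => h i))
    (Nat.cast_nonneg _)

lemma av_nn {f : ι → ℝ} (h : ∀ i, 0 ≤ f i) : 0 ≤ av f :=
  div_nonneg (sum_nonneg fun i _ => h i) (Nat.cast_nonneg _)

lemma av_one [Nonempty ι] : av (fun _ : ι => (1 : ℝ)) = 1 := by simp [av]

lemma av_cs {f g : ι → ℝ} (hf : ∀ i, 0 ≤ f i) (hg : ∀ i, 0 ≤ g i) :
    av (fun i => √(f i) * √(g i)) ≤ √(av f) * √(av g) := by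
  have h := Real.sum_sqrt_mul_sqrt_le univ hf hg
  rw [av, av, av, Real.sqrt_div' _ (Nat.cast_nonneg _), Real.sqrt_div' _ (Nat.cast_nonneg _),
    div_mul_div_comm, Real.mul_self_sqrt (Nat.cast_nonneg _)]
  exact div_le_div_of_nonneg_right h (Nat.cast_nonneg _)

lemma dot_le (u v : ι → ℝ) {c : ℝ} (hc : 0 ≤ c) (h : ∑ j, v j ^ 2 ≤ c ^ 2) :
    |∑ j, u j * v j| ≤ c * √(∑ j, u j ^ 2) := by
  have h0 : 0 ≤ ∑ j, u j ^ 2 := sum_nonneg fun _ _ => sq_nonneg _
  refine abs_le_of_sq_le_sq' ?_ (by positivity) |> abs_le.2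
  rw [mul_pow, Real.sq_sqrt h0, mul_comm]
  exact (sum_mul_sq_le_sq_mul_sq _ _ _).trans (mul_le_mul_of_nonneg_left h h0)

variable {G W X C O O' : Type} [Fintype G] [Fintype W] [Fintype X] [Fintype C] [Fintype O]
  [Fintype O'] [Nonempty G] {D : CD G W X C O O'}

omit [Fintype C] in
lemma flag (hD : D.Ok) {w : W} {x : X} (hx : (w, x) ∈ D.AW) (h : G → ℝ) (hb : Fin D.nb → ℝ)
    {a : ℝ} (a0 : 0 ≤ a) (h1 : ∀ e, |h e - hb (D.ec e)| ≤ D.δ * a) (h2 : ∀ b, |hb b| ≤ D.K * a) :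
    |av (fun e => if x ∈ D.Z e w then D.om e w * h e else 0) -
      D.k * D.d1 x * D.mu x * ∑ b, hb b * D.nB b| ≤ 4 * D.K * D.δ * D.k * D.mu x * a := by
  set m : Fin D.nb → ℝ := fun b => D.mW w fun e => D.ec e = b ∧ x ∈ D.Z e w with hm
  set s := (D.k : ℝ) * D.d1 x * D.mu x with hs
  have hW : ∑ b, |m b - s * D.nB b| ≤ D.δ * D.k * D.mu x := hD.W1 w x hx
  have hμ := (hD.mu_pos x).le
  have hδ := hD.δ0.le
  have hK := hD.K1
  have hk : (0 : ℝ) ≤ D.k := Nat.cast_nonneg _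
  have n1 : ∑ b, D.nB b = 1 := by
    simp only [CD.nB]; rw [← av_sum]; simpa using av_one (ι := G)
  have e1 : ∀ g : Fin D.nb → ℝ, ∑ b, g b * m b =
      av fun e => if x ∈ D.Z e w then D.om e w * g (D.ec e) else 0 := fun g => by
    simp only [hm, CD.mW, ← av_mul]
    rw [← av_sum]
    refine congrArg av (funext fun e => ?_)
    by_cases c : x ∈ D.Z e w <;> simp [c, mul_comm]
  have e2 : ∑ b, m b ≤ 3 * D.k * D.mu x := by
    have h3 : ∑ b, m b - s ≤ D.δ * D.k * D.mu x := by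
      have h7 := (sum_le_sum fun b _ => le_abs_self (m b - s * D.nB b)).trans hW
      rwa [sum_sub_distrib, ← mul_sum, n1, mul_one] at h7
    have h4 : s ≤ 2 * D.k * D.mu x := by
      have := mul_le_mul_of_nonneg_left (hD.d1_hi x) (mul_nonneg hk hμ)
      rw [hs]; linarith
    have h5 : D.δ ≤ 1 := by
      have h6 : (1 : ℝ) ≤ D.K * D.k := by nlinarith [hD.hk]
      nlinarith [hD.hδ]
    have := mul_le_mul_of_nonneg_right h5 (mul_nonneg hk hμ)
    linarith
  have e3 : |av (fun e => if x ∈ D.Z e w then D.om e w * h e else 0) - ∑ b, hb b * m b| ≤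
      D.δ * a * ∑ b, m b := by
    rw [e1, ← av_sub, mul_sum, e1]
    refine abs_av_le fun e => ?_
    split_ifs
    · rw [← mul_sub, abs_mul, abs_of_nonneg (hD.om_nn e w)]
      exact mul_le_mul_of_nonneg_left (h1 e) (hD.om_nn e w)
    · simp
  have e4 : |∑ b, hb b * m b - s * ∑ b, hb b * D.nB b| ≤ D.K * a * (D.δ * D.k * D.mu x) := by
    refine le_trans ?_ (mul_le_mul_of_nonneg_left hW (by positivity))
    rw [mul_sum, ← sum_sub_distrib, mul_sum]
    refine (abs_sum_le_sum_abs _ _).trans (sum_le_sum fun b _ => ?_)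
    rw [mul_left_comm, ← mul_sub, abs_mul]
    exact mul_le_mul_of_nonneg_right (h2 b) (abs_nonneg _)
  have e5 := mul_le_mul_of_nonneg_left e2 (mul_nonneg hδ a0)
  have e6 := mul_le_mul_of_nonneg_right hK (show 0 ≤ D.δ * D.k * D.mu x * a by positivity)
  have e7 := abs_sub_le (av fun e => if x ∈ D.Z e w then D.om e w * h e else 0)
    (∑ b, hb b * m b) (s * ∑ b, hb b * D.nB b)
  linarith

lemma one {c : G → X → ℝ} {c' : W → X → ℝ} {A : G → O → ℝ} {A' : W → O' → ℝ} (hD : D.Ok)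
    (hS : D.Sol c c' A A') (w : W) :
    |av fun e => D.om e w * (D.Bf c' e w * (D.bet A' e w + D.Phi e w))| ≤
      4 * D.K ^ 2 * (√(∑ x ∈ D.MW w, D.mu x * c' w x ^ 2) * (√(∑ j, A' w j ^ 2) + 1)) := by
  have hδ := hD.δ0.le
  have hK := hD.K1
  have hk : (0 : ℝ) < D.k := by linarith [hD.hk]
  set n := √(∑ x ∈ D.MW w, D.mu x * c' w x ^ 2) with hn
  set a := √(∑ j, A' w j ^ 2) + 1 with ha
  have n0 : 0 ≤ n := Real.sqrt_nonneg _
  have a0 : 0 ≤ a := by positivity
  by_cases hw : w ∈ D.Wa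
  swap
  · have : ∀ x, c' w x = 0 := fun x => hS.c'0 w x fun h => hw (hD.AW_sub w x h).1
    simp only [CD.Bf, this, sum_const_zero, zero_mul, mul_zero, av, zero_div, abs_zero]
    positivity
  let h : G → ℝ := fun e => D.bet A' e w + D.Phi e w
  let hb : Fin D.nb → ℝ := fun b => ∑ j, A' w j * D.lamB w b j + D.PhiB w b
  have h1 : ∀ e, |h e - hb (D.ec e)| ≤ D.δ * a := fun e => by
    have f1 := dot_le (A' w) _ hδ (hD.lamB_osc w e)
    have f2 := hD.PhiB_osc w e
    simp only [mul_sub, sum_sub_distrib] at f1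
    have f3 : h e - hb (D.ec e) = (∑ j, A' w j * D.lam' w e j - ∑ j, A' w j * D.lamB w (D.ec e) j)
      + (D.Phi e w - D.PhiB w (D.ec e)) := by simp only [h, hb, CD.bet]; ring
    rw [f3, ha, mul_add, mul_one]
    exact (abs_add_le _ _).trans (add_le_add f1 f2)
  have h2 : ∀ b, |hb b| ≤ D.K * a := fun b => by
    rw [ha, mul_add, mul_one]
    exact (abs_add_le _ _).trans
      (add_le_add (dot_le (A' w) _ (by linarith) (hD.lamB_le w b)) (hD.PhiB_le w b))
  set H := ∑ b, hb b * D.nB b with hH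
  have n1 : ∑ b, D.nB b = 1 := by
    simp only [CD.nB]; rw [← av_sum]; simpa using av_one (ι := G)
  have H1 : |H| ≤ D.K * a := by
    rw [← mul_one (D.K * a), ← n1, mul_sum]
    refine (abs_sum_le_sum_abs _ _).trans (sum_le_sum fun b _ => ?_)
    have : 0 ≤ D.nB b := av_nn fun e => by split_ifs <;> norm_num
    rw [abs_mul, abs_of_nonneg this]
    exact mul_le_mul_of_nonneg_right (h2 b) this
  have e1 : (av fun e => D.om e w * (D.Bf c' e w * h e)) =
      ∑ x ∈ D.MW w, c' w x * av fun e => if x ∈ D.Z e w then D.om e w * h e else 0 := by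
    simp only [← av_mul]
    rw [← av_sum]
    refine congrArg av (funext fun e => ?_)
    by_cases c : D.om e w = 0
    · simp [c]
    · simp only [mul_ite, mul_zero]
      rw [sum_ite_mem, inter_eq_right.2 (hD.hZ e w c).2.1, CD.Bf, ← sum_mul, mul_left_comm]
  have e2 : |(av fun e => D.om e w * (D.Bf c' e w * h e)) -
      D.k * H * ∑ x ∈ D.MW w, D.mu x * c' w x * D.d1 x| ≤
      4 * D.K * D.δ * D.k * a * ∑ x ∈ D.MW w, D.mu x * |c' w x| := by
    rw [e1, mul_sum, ← sum_sub_distrib, mul_sum (D.MW w)]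
    refine (abs_sum_le_sum_abs _ _).trans (sum_le_sum fun x _ => ?_)
    by_cases c : (w, x) ∈ D.AW
    · have f := mul_le_mul_of_nonneg_left (flag hD c h hb a0 h1 h2) (abs_nonneg (c' w x))
      rw [← abs_mul, mul_sub] at f
      refine le_of_eq_of_le (congrArg _ ?_) (f.trans_eq (by ring))
      rw [← hH]; ring
    · simp [hS.c'0 w x c]
  have e3 : ∑ x ∈ D.MW w, D.mu x * |c' w x| ≤ 2 * n := by
    have f := Real.sum_sqrt_mul_sqrt_le (D.MW w) (f := D.mu) (g := fun x => D.mu x * c' w x ^ 2)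
      (fun x => (hD.mu_pos x).le) fun x => mul_nonneg (hD.mu_pos x).le (sq_nonneg _)
    have f2 : √(∑ x ∈ D.MW w, D.mu x) ≤ 2 :=
      Real.sqrt_le_iff.2 ⟨two_pos.le, (hD.MW_le w hw).trans (by norm_num)⟩
    refine le_trans (le_of_eq (sum_congr rfl fun x _ => ?_))
      (f.trans (mul_le_mul_of_nonneg_right f2 n0))
    rw [Real.sqrt_mul (hD.mu_pos x).le, ← mul_assoc, Real.mul_self_sqrt (hD.mu_pos x).le,
      Real.sqrt_sq_eq_abs]
  have e4 := (hD.coer _ _ (hD.MW_le w hw) (hS.gW1 w) (hS.gWa w)).2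
  have e5 : |D.k * H * ∑ x ∈ D.MW w, D.mu x * c' w x * D.d1 x| ≤ D.K ^ 2 * (n * a) := by
    rw [abs_mul, abs_mul, abs_of_pos hk]
    refine (mul_le_mul (mul_le_mul_of_nonneg_left H1 hk.le) e4 (abs_nonneg _)
      (by positivity)).trans_eq ?_
    rw [← hn]; field_simp
  have e6 := mul_le_mul_of_nonneg_left e3 (show 0 ≤ 4 * D.K * D.δ * D.k * a by positivity)
  have e7 := mul_le_mul_of_nonneg_right hD.hδ (mul_nonneg n0 a0)
  have e8 := mul_le_mul_of_nonneg_right (show 1 ≤ D.K ^ 2 by nlinarith) (mul_nonneg n0 a0)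
  have e9 := abs_sub_abs_le_abs_sub (av fun e => D.om e w * (D.Bf c' e w * h e))
    (D.k * H * ∑ x ∈ D.MW w, D.mu x * c' w x * D.d1 x)
  have e10 := mul_nonneg n0 a0
  change |av fun e => D.om e w * (D.Bf c' e w * h e)| ≤ _
  linarith

end X3

open X3 in
theorem stX3 : St_X3 := by
  intro G W X C O O' _ _ _ _ _ _ _ _ D hD c c' A A' hS
  have p1 : ∀ w, 0 ≤ ∑ x ∈ D.MW w, D.mu x * c' w x ^ 2 := fun w =>
    sum_nonneg fun x _ => mul_nonneg (hD.mu_pos x).le (sq_nonneg _)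
  have f1 := av_cs p1 (g := fun w => ∑ j, A' w j ^ 2) fun w => sum_nonneg fun _ _ => sq_nonneg _
  have f2 := av_cs p1 (g := fun _ => 1) fun _ => zero_le_one
  rw [av_one, Real.sqrt_one] at f2
  rw [CD.ip, av_comm]
  refine (abs_av_le (one hD hS)).trans ?_
  simp only [mul_add (√_)]
  rw [av_mul, av_add, mul_assoc _ (D.nW c'), mul_add (D.nW c')]
  exact mul_le_mul_of_nonneg_left (add_le_add f1 f2) (by positivity)

end

end Pool.Agent.Lib.BK2.Co
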