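import Pool.Agent.Lib.BK2.CDefs

/-! CORE, the term `X4`. -/

namespace Pool.Agent.Lib.BK2.Co

open Finset

namespace X4

open Classical

theorem cs_abs {ι : Type} (S : Finset ι) (f g : ι → ℝ) :
    |∑ i ∈ S, f i * g i| ≤ √(∑ i ∈ S, f i ^ 2) * √(∑ i ∈ S, g i ^ 2) := by
  rw [← Real.sqrt_mul (sum_nonneg fun i _ => sq_nonneg _)]
  exact Real.abs_le_sqrt (sum_mul_sq_le_sq_mul_sq S f g)

theorem cs_le {ι : Type} [Fintype ι] (f g : ι → ℝ) {K : ℝ} (hK : 0 ≤ K)
    (h : ∑ i, g i ^ 2 ≤ K ^ 2) : |∑ i, f i * g i| ≤ √(∑ i, f i ^ 2) * K :=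
  (cs_abs univ f g).trans (mul_le_mul_of_nonneg_left (Real.sqrt_le_iff.2 ⟨hK, h⟩)
    (Real.sqrt_nonneg _))

theorem av_cs {ι : Type} [Fintype ι] (f g : ι → ℝ) (hf : ∀ i, 0 ≤ f i) (hg : ∀ i, 0 ≤ g i) :
    av (fun i => √(f i) * √(g i)) ≤ √(av f) * √(av g) := by
  have h := (le_abs_self _).trans (cs_abs univ (fun i => √(f i)) fun i => √(g i))
  simp only [Real.sq_sqrt (hf _), Real.sq_sqrt (hg _)] at h
  have hN : (0 : ℝ) ≤ Fintype.card ι := Nat.cast_nonneg _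
  unfold av
  rw [Real.sqrt_div' _ hN, Real.sqrt_div' _ hN, div_mul_div_comm, Real.mul_self_sqrt hN]
  exact div_le_div_of_nonneg_right h hN

variable {G W X C O O' : Type} [Fintype G] [Fintype W] [Fintype X] [Fintype C] [Fintype O]
  [Fintype O'] {D : CD G W X C O O'}

theorem cells (hD : D.Ok) (e : G) (h : C → ℝ) (g : X → ℝ) :
    ∑ w, D.om e w * (h (D.cell w) * ∑ x ∈ D.Z e w, g x) =
      ∑ c0, h c0 * ∑ x ∈ D.ME e, g x * D.NE e c0 (fun w => x ∈ D.Z e w) := by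
  have h1 : ∀ w, D.om e w * (h (D.cell w) * ∑ x ∈ D.Z e w, g x) =
      ∑ c0, ∑ x ∈ D.ME e, h c0 * (g x * if D.cell w = c0 ∧ x ∈ D.Z e w then D.om e w else 0) := by
    intro w
    rw [sum_eq_single (D.cell w) (fun b _ hb => by simp [Ne.symm hb]) (by simp)]
    by_cases h0 : D.om e w = 0
    · simp [h0]
    · simp only [true_and, mul_ite, mul_zero]
      rw [← sum_filter, filter_mem_eq_inter, inter_eq_right.2 (hD.hZ e w h0).1, mul_sum, mul_sum]
      exact sum_congr rfl fun x _ => by ring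
  rw [sum_congr rfl fun w _ => h1 w, sum_comm]
  refine sum_congr rfl fun c0 _ => ?_
  rw [sum_comm, mul_sum]
  refine sum_congr rfl fun x _ => ?_
  rw [CD.NE, mul_sum, mul_sum]
  refine sum_congr rfl fun w _ => ?_
  by_cases h2 : D.cell w = c0 ∧ x ∈ D.Z e w <;> simp [h2]

omit [Fintype G] [Fintype X] [Fintype O] [Fintype O'] in
theorem sum_sz : ∑ c0, D.sz c0 = Fintype.card W := by
  simp only [CD.sz]
  rw [← Nat.cast_sum, ← card_eq_sum_card_fiberwise (f := D.cell)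
    (fun _ _ => mem_coe.2 (mem_univ _)), card_univ]

omit [Fintype C] in
theorem l1_le (hD : D.Ok) (e : G) (g : X → ℝ) :
    ∑ x ∈ D.ME e, D.mu x * |g x| ≤ 2 * √(∑ x ∈ D.ME e, D.mu x * g x ^ 2) := by
  have h := (le_abs_self _).trans
    (cs_abs (D.ME e) (fun x => √(D.mu x)) fun x => √(D.mu x) * |g x|)
  simp only [← mul_assoc, Real.mul_self_sqrt (hD.mu_pos _).le, mul_pow,
    Real.sq_sqrt (hD.mu_pos _).le, sq_abs] at h
  refine h.trans (mul_le_mul_of_nonneg_right ?_ (Real.sqrt_nonneg _))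
  exact Real.sqrt_le_iff.2 ⟨by norm_num, (hD.ME_le e).trans (by norm_num)⟩

theorem per_e (hD : D.Ok) (e : G) (c : G → X → ℝ) (A : G → O → ℝ)
    (h1 : ∑ x ∈ D.ME e, D.mu x * c e x = 0) (ha : ∑ x ∈ D.ME e, D.mu x * c e x * D.a x = 0) :
    |∑ w, D.om e w * (D.Af c e w * (D.alp A e w - D.Phi e w))| ≤
      Fintype.card W * (2 * D.K ^ 2 *
        (√(∑ x ∈ D.ME e, D.mu x * c e x ^ 2) * (√(∑ j, A e j ^ 2) + 1))) := by
  set n := √(∑ x ∈ D.ME e, D.mu x * c e x ^ 2) with hn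
  set a := √(∑ j, A e j ^ 2) with haa
  have hn0 : 0 ≤ n := Real.sqrt_nonneg _
  have ha0 : 0 ≤ a := Real.sqrt_nonneg _
  have hK := hD.K1
  have hk : (0 : ℝ) < D.k := by linarith [hD.hk]
  have hδ := hD.δ0
  have hkδ : D.δ * D.k ≤ 1 / 1000 := by nlinarith [hD.hδ, mul_pos hδ hk]
  have hδ1 : D.δ ≤ 1 := by nlinarith [hD.hk]
  have hsz : ∀ c0, 0 ≤ D.sz c0 := fun c0 => Nat.cast_nonneg _
  have hl1 : ∑ x ∈ D.ME e, D.mu x * |c e x| ≤ 2 * n := l1_le hD e (c e)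
  set hC : C → ℝ := fun c0 => ∑ j, A e j * D.lamC e c0 j - D.PhiC e c0 with hhC
  have hCle : ∀ c0, |hC c0| ≤ D.K * (a + 1) := fun c0 => by
    have := cs_le (A e) (D.lamC e c0) (by linarith) (hD.lamC_le e c0)
    have h2 := hD.PhiC_le e c0
    exact (abs_sub _ _).trans (by linarith)
  have hosc : ∀ w, |D.alp A e w - D.Phi e w - hC (D.cell w)| ≤ D.δ * (a + 1) := fun w => by
    have := cs_le (A e) (fun j => D.lam e w j - D.lamC e (D.cell w) j) hδ.le (hD.lamC_osc e w)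
    have h2 := hD.PhiC_osc e w
    have e1 : D.alp A e w - D.Phi e w - hC (D.cell w) =
        ∑ j, A e j * (D.lam e w j - D.lamC e (D.cell w) j) - (D.Phi e w - D.PhiC e (D.cell w)) := by
      simp only [hhC, CD.alp, mul_sub, sum_sub_distrib]; ring
    rw [e1]
    exact (abs_sub _ _).trans (by linarith)
  have hmain : ∀ c0, |∑ x ∈ D.ME e, c e x * D.NE e c0 (fun w => x ∈ D.Z e w)| ≤
      D.sz c0 * ((D.K + 1 / 500) * n) := fun c0 => by
    have e1 : ∑ x ∈ D.ME e, c e x * D.NE e c0 (fun w => x ∈ D.Z e w) =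
        D.k * D.sz c0 * ∑ x ∈ D.ME e, D.mu x * c e x * D.d1 x + ∑ x ∈ D.ME e, c e x *
          (D.NE e c0 (fun w => x ∈ D.Z e w) - D.k * D.d1 x * D.mu x * D.sz c0) := by
      rw [mul_sum, ← sum_add_distrib]
      exact sum_congr rfl fun x _ => by ring
    have h2 : |∑ x ∈ D.ME e, D.mu x * c e x * D.d1 x| ≤ D.K / D.k * n :=
      (hD.coer _ _ (hD.ME_le e) h1 ha).2
    have h3 : |∑ x ∈ D.ME e, c e x *
        (D.NE e c0 (fun w => x ∈ D.Z e w) - D.k * D.d1 x * D.mu x * D.sz c0)| ≤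
        D.δ * D.k * D.sz c0 * ∑ x ∈ D.ME e, D.mu x * |c e x| := by
      rw [mul_sum]
      refine (abs_sum_le_sum_abs _ _).trans (sum_le_sum fun x hx => ?_)
      rw [abs_mul]
      exact (mul_le_mul_of_nonneg_left (hD.E1 e c0 x hx) (abs_nonneg _)).trans (le_of_eq (by ring))
    have h4 : |D.k * D.sz c0 * ∑ x ∈ D.ME e, D.mu x * c e x * D.d1 x| ≤ D.sz c0 * (D.K * n) := by
      rw [abs_mul, abs_of_nonneg (mul_nonneg hk.le (hsz c0))]
      refine (mul_le_mul_of_nonneg_left h2 (mul_nonneg hk.le (hsz c0))).trans (le_of_eq ?_)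
      field_simp
    have h5 : D.δ * D.k * D.sz c0 * ∑ x ∈ D.ME e, D.mu x * |c e x| ≤
        1 / 1000 * D.sz c0 * (2 * n) :=
      mul_le_mul (mul_le_mul_of_nonneg_right hkδ (hsz c0)) hl1
        (sum_nonneg fun x _ => mul_nonneg (hD.mu_pos x).le (abs_nonneg _))
        (mul_nonneg (by norm_num) (hsz c0))
    rw [e1]
    exact (abs_add_le _ _).trans (by linarith)
  have habs : ∀ c0, ∑ x ∈ D.ME e, |c e x| * D.NE e c0 (fun w => x ∈ D.Z e w) ≤
      D.sz c0 * (3 * D.k * (2 * n)) := fun c0 => by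
    have h3 : ∑ x ∈ D.ME e, |c e x| * D.NE e c0 (fun w => x ∈ D.Z e w) ≤
        3 * D.k * D.sz c0 * ∑ x ∈ D.ME e, D.mu x * |c e x| := by
      rw [mul_sum]
      refine sum_le_sum fun x hx => ?_
      have h6 := (abs_le.1 (hD.E1 e c0 x hx)).2
      have h7 : 0 ≤ D.k * D.mu x * D.sz c0 :=
        mul_nonneg (mul_nonneg hk.le (hD.mu_pos x).le) (hsz c0)
      have h8 : D.NE e c0 (fun w => x ∈ D.Z e w) ≤ 3 * (D.k * D.mu x * D.sz c0) := by
        nlinarith [hD.d1_hi x]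
      exact (mul_le_mul_of_nonneg_left h8 (abs_nonneg _)).trans (le_of_eq (by ring))
    refine h3.trans ((mul_le_mul_of_nonneg_left hl1
      (mul_nonneg (mul_nonneg (by norm_num) hk.le) (hsz c0))).trans (le_of_eq (by ring)))
  have e2 : ∑ w, D.om e w * (D.Af c e w * (D.alp A e w - D.Phi e w)) =
      ∑ w, D.om e w * (hC (D.cell w) * ∑ x ∈ D.Z e w, c e x) +
      ∑ w, D.om e w * (D.Af c e w * (D.alp A e w - D.Phi e w - hC (D.cell w))) := by
    rw [← sum_add_distrib]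
    exact sum_congr rfl fun w _ => by simp only [CD.Af]; ring
  have t1 : |∑ w, D.om e w * (hC (D.cell w) * ∑ x ∈ D.Z e w, c e x)| ≤
      Fintype.card W * (D.K * (a + 1) * ((D.K + 1 / 500) * n)) := by
    rw [cells hD, ← sum_sz (D := D), sum_mul]
    refine (abs_sum_le_sum_abs _ _).trans (sum_le_sum fun c0 _ => ?_)
    rw [abs_mul]
    exact (mul_le_mul (hCle c0) (hmain c0) (abs_nonneg _) (by positivity)).trans
      (le_of_eq (by ring))
  have t2 : |∑ w, D.om e w * (D.Af c e w * (D.alp A e w - D.Phi e w - hC (D.cell w)))| ≤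
      Fintype.card W * (D.δ * (a + 1) * (3 * D.k * (2 * n))) := by
    have h9 : |∑ w, D.om e w * (D.Af c e w * (D.alp A e w - D.Phi e w - hC (D.cell w)))| ≤
        ∑ w, D.om e w * ((fun _ : C => D.δ * (a + 1)) (D.cell w) * ∑ x ∈ D.Z e w, |c e x|) := by
      refine (abs_sum_le_sum_abs _ _).trans (sum_le_sum fun w _ => ?_)
      rw [abs_mul, abs_of_nonneg (hD.om_nn e w), abs_mul, mul_comm |D.Af c e w|]
      exact mul_le_mul_of_nonneg_left (mul_le_mul (hosc w) (abs_sum_le_sum_abs _ _)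
        (abs_nonneg _) (by positivity)) (hD.om_nn e w)
    refine (h9.trans_eq (cells hD e (fun _ : C => D.δ * (a + 1)) fun x => |c e x|)).trans ?_
    rw [← sum_sz (D := D), sum_mul]
    exact sum_le_sum fun c0 _ => (mul_le_mul_of_nonneg_left (habs c0) (by positivity)).trans
      (le_of_eq (by ring))
  rw [e2]
  refine (abs_add_le _ _).trans ((add_le_add t1 t2).trans ?_)
  rw [← mul_add]
  refine mul_le_mul_of_nonneg_left ?_ (Nat.cast_nonneg _)
  have hp : 0 ≤ n * (a + 1) := by positivity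
  have e3 : D.K * (a + 1) * ((D.K + 1 / 500) * n) + D.δ * (a + 1) * (3 * D.k * (2 * n)) =
      (D.K * (D.K + 1 / 500) + 6 * (D.δ * D.k)) * (n * (a + 1)) := by ring
  rw [e3]
  exact mul_le_mul_of_nonneg_right (by nlinarith) hp

end X4

open X4 in
theorem stX4 : St_X4 := by
  intro G W X C O O' _ _ _ _ _ _ _ _ D hD c c' A A' hS
  have hW : (0 : ℝ) < Fintype.card W := by exact_mod_cast Fintype.card_pos
  have hG : (0 : ℝ) < Fintype.card G := by exact_mod_cast Fintype.card_pos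
  have hf : ∀ e, 0 ≤ ∑ x ∈ D.ME e, D.mu x * c e x ^ 2 := fun e =>
    sum_nonneg fun x _ => mul_nonneg (hD.mu_pos x).le (sq_nonneg _)
  have h1 := av_cs (fun e => ∑ x ∈ D.ME e, D.mu x * c e x ^ 2) (fun e => ∑ j, A e j ^ 2) hf
    fun e => sum_nonneg fun j _ => sq_nonneg _
  have h2 := av_cs (fun e => ∑ x ∈ D.ME e, D.mu x * c e x ^ 2) (fun _ => 1) hf
    fun _ => zero_le_one
  have h3 : av (fun _ : G => (1 : ℝ)) = 1 := by simp [av]
  rw [h3, Real.sqrt_one, mul_one] at h2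
  have h4 : |D.ip (D.Af c) (fun e w => D.alp A e w - D.Phi e w)| ≤ 2 * D.K ^ 2 *
      (av (fun e => √(∑ x ∈ D.ME e, D.mu x * c e x ^ 2) * √(∑ j, A e j ^ 2)) +
        av (fun e => √(∑ x ∈ D.ME e, D.mu x * c e x ^ 2) * 1)) := by
    unfold CD.ip av
    rw [abs_div, abs_of_pos hG, ← add_div, ← mul_div_assoc, ← sum_add_distrib, mul_sum]
    refine div_le_div_of_nonneg_right ((abs_sum_le_sum_abs _ _).trans (sum_le_sum fun e _ => ?_))
      hG.le
    rw [abs_div, abs_of_pos hW, div_le_iff₀ hW]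
    exact (per_e hD e c A (hS.gE1 e) (hS.gEa e)).trans (le_of_eq (by ring))
  have h5 : 0 ≤ D.K ^ 2 * (D.nE c * (nA A + 1)) :=
    mul_nonneg (sq_nonneg _) (mul_nonneg (Real.sqrt_nonneg _)
      (add_nonneg (Real.sqrt_nonneg _) zero_le_one))
  have h6 : 2 * D.K ^ 2 *
      (av (fun e => √(∑ x ∈ D.ME e, D.mu x * c e x ^ 2) * √(∑ j, A e j ^ 2)) +
        av (fun e => √(∑ x ∈ D.ME e, D.mu x * c e x ^ 2) * 1)) ≤
      2 * D.K ^ 2 * (D.nE c * nA A + D.nE c) :=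
    mul_le_mul_of_nonneg_left (add_le_add h1 h2) (by positivity)
  nlinarith

end Pool.Agent.Lib.BK2.Co
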