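import Pool.Agent.Lib.BK2.CDefs

namespace Pool.Agent.Lib.BK2.Co

open Finset

noncomputable section
open Classical

namespace X5

section Av

variable {ι : Type} [Fintype ι]

theorem av_le {f g : ι → ℝ} (h : ∀ i, f i ≤ g i) : av f ≤ av g :=
  div_le_div_of_nonneg_right (sum_le_sum fun i _ => h i) (Nat.cast_nonneg _)

theorem av_nonneg {f : ι → ℝ} (h : ∀ i, 0 ≤ f i) : 0 ≤ av f :=
  div_nonneg (sum_nonneg fun i _ => h i) (Nat.cast_nonneg _)

theorem abs_av (f : ι → ℝ) : |av f| ≤ av fun i => |f i| := by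
  rw [av, av, abs_div, Nat.abs_cast]
  exact div_le_div_of_nonneg_right (abs_sum_le_sum_abs _ _) (Nat.cast_nonneg _)

theorem av_mul (a : ℝ) (f : ι → ℝ) : av (fun i => a * f i) = a * av f := by
  rw [av, av, ← mul_sum, mul_div_assoc]

theorem av_add (f g : ι → ℝ) : av (fun i => f i + g i) = av f + av g := by
  rw [av, av, av, sum_add_distrib, add_div]

theorem av_comm {κ : Type} [Fintype κ] (f : ι → κ → ℝ) :
    av (fun i => av fun j => f i j) = av fun j => av fun i => f i j := by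
  simp only [av, ← sum_div]
  rw [sum_comm, div_div, div_div, mul_comm]

theorem av_sum {κ : Type} (s : Finset κ) (f : κ → ι → ℝ) :
    av (fun i => ∑ b ∈ s, f b i) = ∑ b ∈ s, av (f b) := by
  simp only [av, ← sum_div]
  rw [sum_comm]

theorem av_one [Nonempty ι] : av (fun _ : ι => (1 : ℝ)) = 1 := by
  have : (Fintype.card ι : ℝ) ≠ 0 := by exact_mod_cast Fintype.card_ne_zero
  simp [av, this]

theorem av_le_sqrt [Nonempty ι] (f : ι → ℝ) : av f ≤ √(av fun i => f i ^ 2) := by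
  have h : (0 : ℝ) < Fintype.card ι := by exact_mod_cast Fintype.card_pos
  refine Real.le_sqrt_of_sq_le ?_
  have h1 := sq_sum_le_card_mul_sum_sq (s := (univ : Finset ι)) (f := f)
  rw [card_univ] at h1
  rw [av, av, div_pow, div_le_div_iff₀ (by positivity) h]
  nlinarith

end Av

variable {G W X C O O' : Type} [Fintype G] [Fintype W] [Fintype X] [Fintype C] [Fintype O]
  [Fintype O'] {D : CD G W X C O O'}

theorem ip_eq (F F' : G → W → ℝ) : D.ip F F' =
    (∑ p : G × W, D.om p.1 p.2 * (F p.1 p.2 * F' p.1 p.2)) / (Fintype.card W * Fintype.card G) := by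
  simp only [CD.ip, av, ← sum_div]
  rw [Fintype.sum_prod_type, div_div]

theorem ip_cs (h : D.Ok) (F F' : G → W → ℝ) : D.ip F F' ^ 2 ≤ D.ip F F * D.ip F' F' := by
  rw [ip_eq, ip_eq, ip_eq, div_pow, div_mul_div_comm, ← sq]
  refine div_le_div_of_nonneg_right ?_ (sq_nonneg _)
  refine sum_sq_le_sum_mul_sum_of_sq_eq_mul _ (fun p _ => ?_) (fun p _ => ?_) fun p _ => by ring
  · exact mul_nonneg (h.om_nn _ _) (mul_self_nonneg _)
  · exact mul_nonneg (h.om_nn _ _) (mul_self_nonneg _)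

theorem sum_cells (g : W → ℝ) : ∑ w, g w = ∑ c, ∑ w, if D.cell w = c then g w else 0 := by
  rw [sum_comm]
  simp

theorem sz_eq (c : C) : D.sz c = ∑ w, if D.cell w = c then (1 : ℝ) else 0 := by
  simp [CD.sz]

theorem sum_sz : ∑ c, D.sz c = Fintype.card W := by
  simp only [sz_eq]
  rw [← sum_cells (D := D) fun _ => (1 : ℝ)]
  simp

theorem cell_Z (h : D.Ok) (e : G) (c : C) (g : X → ℝ) :
    (∑ w, if D.cell w = c then D.om e w * ∑ x ∈ D.Z e w, g x else 0) =
      ∑ x ∈ D.ME e, g x * D.NE e c fun w => x ∈ D.Z e w := by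
  simp only [CD.NE, mul_sum]
  rw [sum_comm]
  refine sum_congr rfl fun w _ => ?_
  by_cases hc : D.cell w = c
  · by_cases ho : D.om e w = 0
    · simp [ho]
    · simp only [hc, true_and, if_true, mul_ite, mul_zero]
      rw [sum_ite_mem, inter_eq_right.2 (h.hZ e w ho).1]
      exact sum_congr rfl fun x _ => mul_comm _ _
  · simp [hc]

theorem dk (h : D.Ok) : 1000 * (D.δ * D.k) ≤ 1 := by
  have h1 := h.hδ
  have h2 := h.K1
  have h3 : 0 ≤ D.δ * D.k := mul_nonneg h.δ0.le (Nat.cast_nonneg _)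
  nlinarith

theorem d_le (h : D.Ok) : D.δ ≤ 1 := by
  have h1 := dk h
  have h2 := h.K1
  have h3 := h.hk
  have h4 := h.δ0
  nlinarith

theorem nE_sq (h : D.Ok) (c : G → X → ℝ) :
    D.nE c ^ 2 = av fun e => ∑ x ∈ D.ME e, D.mu x * c e x ^ 2 :=
  Real.sq_sqrt (av_nonneg fun _ => sum_nonneg fun x _ => mul_nonneg (h.mu_pos x).le (sq_nonneg _))

theorem nA_sq {ι O : Type} [Fintype ι] [Fintype O] (A : ι → O → ℝ) :
    nA A ^ 2 = av fun i => ∑ j, A i j ^ 2 :=
  Real.sq_sqrt (av_nonneg fun _ => sum_nonneg fun _ _ => sq_nonneg _)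

theorem sz_nonneg (c : C) : 0 ≤ D.sz c := Nat.cast_nonneg _

theorem ip_Af [Nonempty W] (h : D.Ok) (c : G → X → ℝ) :
    D.ip (D.Af c) (D.Af c) ≤ 3 * D.k ^ 2 * D.nE c ^ 2 := by
  have hW : (0 : ℝ) < Fintype.card W := by exact_mod_cast Fintype.card_pos
  rw [nE_sq h, ← av_mul]
  refine av_le fun e => ?_
  have h1 : ∀ w, D.om e w * (D.Af c e w * D.Af c e w) ≤
      D.om e w * ∑ x ∈ D.Z e w, D.k * c e x ^ 2 := by
    intro w
    by_cases ho : D.om e w = 0
    · simp [ho]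
    · refine mul_le_mul_of_nonneg_left ?_ (h.om_nn _ _)
      rw [← mul_sum, ← sq, ← (h.hZ e w ho).2.2.1]
      exact sq_sum_le_card_mul_sum_sq
  refine (av_le h1).trans ?_
  rw [av, div_le_iff₀ hW, sum_cells (D := D), ← sum_sz (D := D), mul_sum]
  refine sum_le_sum fun c0 _ => ?_
  rw [cell_Z h, mul_sum, sum_mul]
  refine sum_le_sum fun x hx => ?_
  have h2 := (abs_le.1 (h.E1 e c0 x hx)).2
  have h3 : 0 ≤ D.k * D.mu x * D.sz c0 :=
    mul_nonneg (mul_nonneg (Nat.cast_nonneg _) (h.mu_pos x).le) (sz_nonneg _)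
  have h4 : (D.NE e c0 fun w => x ∈ D.Z e w) ≤ 3 * (D.k * D.mu x * D.sz c0) := by
    have h5 := mul_le_mul_of_nonneg_right (h.d1_hi x) h3
    have h6 := mul_le_mul_of_nonneg_right (d_le h) h3
    nlinarith
  have h7 : 0 ≤ D.k * c e x ^ 2 := by positivity
  calc _ ≤ D.k * c e x ^ 2 * (3 * (D.k * D.mu x * D.sz c0)) := mul_le_mul_of_nonneg_left h4 h7
    _ = _ := by ring

theorem av_om [Nonempty G] (h : D.Ok) {w : W} (hw : w ∈ D.Wa) : av (fun e => D.om e w) ≤ 2 := by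
  have h1 : av (fun e => D.om e w) = ∑ b, D.mW w fun e => D.ec e = b := by
    simp only [CD.mW]
    rw [← av_sum]
    refine congrArg av (funext fun e => ?_)
    rw [sum_eq_single (D.ec e)]
    · rw [if_pos rfl]
    · exact fun b _ hb => if_neg (Ne.symm hb)
    · simp
  have h2 : ∑ b, D.nB b = 1 := by
    simp only [CD.nB]
    rw [← av_sum]
    simpa using av_one
  have h3 := h.W0 w hw
  have h4 : ∑ b, ((D.mW w fun e => D.ec e = b) - D.nB b) ≤ D.δ :=
    (sum_le_sum fun b _ => le_abs_self _).trans h3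
  rw [sum_sub_distrib, h2] at h4
  have := d_le h
  linarith

theorem cell_Af (h : D.Ok) (e : G) (c0 : C) (g : X → ℝ) (g1 : ∑ x ∈ D.ME e, D.mu x * g x = 0)
    (g2 : ∑ x ∈ D.ME e, D.mu x * g x * D.a x = 0) :
    |∑ x ∈ D.ME e, g x * D.NE e c0 fun w => x ∈ D.Z e w| ≤
      2 * D.K * √(∑ x ∈ D.ME e, D.mu x * g x ^ 2) * D.sz c0 := by
  have hk : (0 : ℝ) < D.k := by have := h.hk; have := h.K1; linarith
  have hs := sz_nonneg (D := D) c0
  have h1 := (h.coer (D.ME e) g (h.ME_le e) g1 g2).2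
  set n := √(∑ x ∈ D.ME e, D.mu x * g x ^ 2) with hn
  have hn0 : 0 ≤ n := Real.sqrt_nonneg _
  have h2 : ∑ x ∈ D.ME e, D.mu x * |g x| ≤ 2 * n := by
    have h3 : (∑ x ∈ D.ME e, D.mu x * |g x|) ^ 2 ≤
        (∑ x ∈ D.ME e, D.mu x) * ∑ x ∈ D.ME e, D.mu x * g x ^ 2 :=
      sum_sq_le_sum_mul_sum_of_sq_eq_mul _ (fun x _ => (h.mu_pos x).le)
        (fun x _ => mul_nonneg (h.mu_pos x).le (sq_nonneg _)) fun x _ => by
          rw [mul_pow, sq_abs]; ring
    have h4 : 0 ≤ ∑ x ∈ D.ME e, D.mu x * g x ^ 2 :=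
      sum_nonneg fun x _ => mul_nonneg (h.mu_pos x).le (sq_nonneg _)
    have h5 : n ^ 2 = ∑ x ∈ D.ME e, D.mu x * g x ^ 2 := Real.sq_sqrt h4
    have h6 : ∑ x ∈ D.ME e, D.mu x ≤ 2 := h.ME_le e
    refine le_of_sq_le_sq ?_ (by positivity) |>.trans le_rfl
    have h7 := mul_le_mul_of_nonneg_right h6 h4
    nlinarith
  have h3 : (∑ x ∈ D.ME e, g x * D.NE e c0 fun w => x ∈ D.Z e w) =
      D.k * D.sz c0 * ∑ x ∈ D.ME e, D.mu x * g x * D.d1 x +
      ∑ x ∈ D.ME e, g x * ((D.NE e c0 fun w => x ∈ D.Z e w) - D.k * D.d1 x * D.mu x * D.sz c0) := by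
    rw [mul_sum, ← sum_add_distrib]
    exact sum_congr rfl fun x _ => by ring
  have h4 : |∑ x ∈ D.ME e, g x * ((D.NE e c0 fun w => x ∈ D.Z e w) -
      D.k * D.d1 x * D.mu x * D.sz c0)| ≤ D.δ * D.k * D.sz c0 * ∑ x ∈ D.ME e, D.mu x * |g x| := by
    rw [mul_sum]
    refine (abs_sum_le_sum_abs _ _).trans (sum_le_sum fun x hx => ?_)
    rw [abs_mul]
    calc _ ≤ |g x| * (D.δ * D.k * D.mu x * D.sz c0) :=
          mul_le_mul_of_nonneg_left (h.E1 e c0 x hx) (abs_nonneg _)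
      _ = _ := by ring
  have h5 : |D.k * D.sz c0 * ∑ x ∈ D.ME e, D.mu x * g x * D.d1 x| ≤ D.K * n * D.sz c0 := by
    rw [abs_mul, abs_of_nonneg (mul_nonneg hk.le hs)]
    calc _ ≤ D.k * D.sz c0 * (D.K / D.k * n) :=
          mul_le_mul_of_nonneg_left h1 (mul_nonneg hk.le hs)
      _ = _ := by field_simp
  have h6 : D.δ * D.k * D.sz c0 * ∑ x ∈ D.ME e, D.mu x * |g x| ≤ D.K * n * D.sz c0 := by
    have h7 : 0 ≤ D.δ * D.k := mul_nonneg h.δ0.le hk.le
    have h8 : 2 * (D.δ * D.k) ≤ D.K := by have := dk h; have := h.K1; linarith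
    calc _ ≤ D.δ * D.k * D.sz c0 * (2 * n) := mul_le_mul_of_nonneg_left h2 (mul_nonneg h7 hs)
      _ = 2 * (D.δ * D.k) * (n * D.sz c0) := by ring
      _ ≤ D.K * (n * D.sz c0) := mul_le_mul_of_nonneg_right h8 (mul_nonneg hn0 hs)
      _ = _ := by ring
  rw [h3]
  refine (abs_add_le _ _).trans ?_
  linarith

theorem mean_sz (f : W → ℝ) (c0 : C) :
    |D.mean0 f c0| * D.sz c0 ≤ ∑ w, if D.cell w = c0 then |f w| else 0 := by
  have h1 : |∑ w, if D.cell w = c0 then f w else 0| ≤ ∑ w, if D.cell w = c0 then |f w| else 0 :=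
    (abs_sum_le_sum_abs _ _).trans (sum_le_sum fun w _ => by split_ifs <;> simp)
  rcases (sz_nonneg (D := D) c0).eq_or_lt with h | h
  · rw [← h, mul_zero]
    exact (abs_nonneg _).trans h1
  · rw [CD.mean0, abs_div, abs_of_pos h, div_mul_cancel₀ _ h.ne']
    exact h1

theorem ip_mean [Nonempty G] [Nonempty W] (h : D.Ok) (c : G → X → ℝ)
    (g1 : ∀ e, ∑ x ∈ D.ME e, D.mu x * c e x = 0)
    (g2 : ∀ e, ∑ x ∈ D.ME e, D.mu x * c e x * D.a x = 0) (f : Fin D.nb → W → ℝ) (S : ℝ)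
    (hS : 0 ≤ S) (hf : ∀ b, av (fun w => f b w ^ 2) ≤ S ^ 2) :
    |D.ip (fun e w => D.mean0 (f (D.ec e)) (D.cell w)) (D.Af c)| ≤ 2 * D.K * S * D.nE c := by
  have hW : (0 : ℝ) < Fintype.card W := by exact_mod_cast Fintype.card_pos
  have hK : 0 ≤ D.K := zero_le_one.trans h.K1
  refine (abs_av _).trans ?_
  have h1 : ∀ e, |av fun w => D.om e w * (D.mean0 (f (D.ec e)) (D.cell w) * D.Af c e w)| ≤
      2 * D.K * S * √(∑ x ∈ D.ME e, D.mu x * c e x ^ 2) := by
    intro e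
    set n := √(∑ x ∈ D.ME e, D.mu x * c e x ^ 2) with hn
    have hn0 : 0 ≤ n := Real.sqrt_nonneg _
    have h2 : av (fun w => |f (D.ec e) w|) ≤ S := by
      refine (av_le_sqrt _).trans (Real.sqrt_le_iff.2 ⟨hS, ?_⟩)
      simpa only [sq_abs] using hf (D.ec e)
    rw [av, div_le_iff₀ hW] at h2
    rw [av, abs_div, Nat.abs_cast, div_le_iff₀ hW, sum_cells (D := D)]
    refine (abs_sum_le_sum_abs _ _).trans ?_
    have h3 : ∀ c0, |∑ w, if D.cell w = c0 then
        D.om e w * (D.mean0 (f (D.ec e)) (D.cell w) * D.Af c e w) else 0| ≤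
        2 * D.K * n * ∑ w, if D.cell w = c0 then |f (D.ec e) w| else 0 := by
      intro c0
      have h4 : (∑ w, if D.cell w = c0 then
          D.om e w * (D.mean0 (f (D.ec e)) (D.cell w) * D.Af c e w) else 0) =
          D.mean0 (f (D.ec e)) c0 * ∑ w, if D.cell w = c0 then
            D.om e w * ∑ x ∈ D.Z e w, c e x else 0 := by
        rw [mul_sum]
        refine sum_congr rfl fun w _ => ?_
        by_cases hc : D.cell w = c0
        · simp only [hc, if_true, CD.Af]; ring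
        · simp [hc]
      rw [h4, cell_Z h, abs_mul]
      calc _ ≤ |D.mean0 (f (D.ec e)) c0| * (2 * D.K * n * D.sz c0) :=
            mul_le_mul_of_nonneg_left (cell_Af h e c0 (c e) (g1 e) (g2 e)) (abs_nonneg _)
        _ = 2 * D.K * n * (|D.mean0 (f (D.ec e)) c0| * D.sz c0) := by ring
        _ ≤ _ := mul_le_mul_of_nonneg_left (mean_sz _ _) (by positivity)
    refine (sum_le_sum fun c0 _ => h3 c0).trans ?_
    rw [← mul_sum, ← sum_cells (D := D)]
    calc _ ≤ 2 * D.K * n * (S * Fintype.card W) := mul_le_mul_of_nonneg_left h2 (by positivity)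
      _ = _ := by ring
  refine (av_le h1).trans ?_
  rw [av_mul]
  refine mul_le_mul_of_nonneg_left ((av_le_sqrt _).trans (le_of_eq ?_)) (by positivity)
  refine congrArg (fun F => √(av F)) (funext fun e => Real.sq_sqrt ?_)
  exact sum_nonneg fun x _ => mul_nonneg (h.mu_pos x).le (sq_nonneg _)

end X5

open X5 in
theorem stX5 (hT : St_TL) : St_X5 := by
  intro G W X C O O' _ _ _ _ _ _ _ _ D h c c' A A' hs
  have hK := h.K1
  have hE : 0 ≤ D.nE c := Real.sqrt_nonneg _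
  have hA : 0 ≤ nA A' := Real.sqrt_nonneg _
  have hdk := dk h
  have hdk0 : 0 ≤ D.δ * D.k := mul_nonneg h.δ0.le (Nat.cast_nonneg _)
  set f : Fin D.nb → W → ℝ := fun b w => ∑ j, A' w j * D.lamB w b j with hf
  set r : G → W → ℝ := fun e w => ∑ j, A' w j * (D.lam' w e j - D.lamB w (D.ec e) j) with hr
  have hS : 0 ≤ D.K * nA A' := by positivity
  have hfS : ∀ b, av (fun w => f b w ^ 2) ≤ (D.K * nA A') ^ 2 := by
    intro b
    rw [mul_pow, nA_sq, ← av_mul]
    refine av_le fun w => (sum_mul_sq_le_sq_mul_sq _ _ _).trans ?_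
    rw [mul_comm]
    exact mul_le_mul_of_nonneg_right (h.lamB_le w b) (sum_nonneg fun _ _ => sq_nonneg _)
  have h1 := (hT G W X C O O' D h).1 c 0 f _ hS hfS
  have h0 : (fun e w => D.Af c e w + D.alp 0 e w) = D.Af c := by
    funext e w
    simp [CD.alp]
  have h00 : nA (0 : G → O → ℝ) = 0 := by simp [nA, av]
  rw [h0, h00, add_zero] at h1
  have h2 := ip_mean h c hs.gE1 hs.gEa f _ hS hfS
  have h3 : D.ip r r ≤ 2 * D.δ ^ 2 * nA A' ^ 2 := by
    rw [nA_sq, ← av_mul, CD.ip, av_comm]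
    refine av_le fun w => ?_
    by_cases hw : w ∈ D.Wa
    · have h4 : ∀ e, D.om e w * (r e w * r e w) ≤ (D.δ ^ 2 * ∑ j, A' w j ^ 2) * D.om e w := by
        intro e
        rw [mul_comm, ← sq]
        refine mul_le_mul_of_nonneg_right ((sum_mul_sq_le_sq_mul_sq _ _ _).trans ?_) (h.om_nn _ _)
        rw [mul_comm]
        exact mul_le_mul_of_nonneg_right (h.lamB_osc w e) (sum_nonneg fun _ _ => sq_nonneg _)
      refine (av_le h4).trans ?_
      rw [av_mul]
      have h5 : 0 ≤ D.δ ^ 2 * ∑ j, A' w j ^ 2 :=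
        mul_nonneg (sq_nonneg _) (sum_nonneg fun _ _ => sq_nonneg _)
      have h6 := mul_le_mul_of_nonneg_left (av_om h hw) h5
      linarith
    · simp [hr, hs.A'0 w hw, av]
  have h4 : |D.ip r (D.Af c)| ≤ D.nE c * nA A' := by
    refine abs_le_of_sq_le_sq ?_ (by positivity)
    have h5 : 0 ≤ D.ip (D.Af c) (D.Af c) :=
      av_nonneg fun e => av_nonneg fun w => mul_nonneg (h.om_nn _ _) (mul_self_nonneg _)
    calc _ ≤ D.ip r r * D.ip (D.Af c) (D.Af c) := ip_cs h _ _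
      _ ≤ (2 * D.δ ^ 2 * nA A' ^ 2) * (3 * D.k ^ 2 * D.nE c ^ 2) :=
          mul_le_mul h3 (ip_Af h c) h5 (by positivity)
      _ = 6 * (D.δ * D.k) ^ 2 * (D.nE c * nA A') ^ 2 := by ring
      _ ≤ 1 * (D.nE c * nA A') ^ 2 := mul_le_mul_of_nonneg_right (by nlinarith) (sq_nonneg _)
      _ = _ := one_mul _
  have h5 : D.ip (D.bet A') (D.Af c) = D.ip r (D.Af c) + D.ip (fun e w => f (D.ec e) w) (D.Af c) := by
    simp only [CD.ip, ← av_add]
    refine congrArg av (funext fun e => congrArg av (funext fun w => ?_))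
    simp only [CD.bet, hr, hf, mul_sub, sum_sub_distrib]
    ring
  have h6 : D.δ * (D.K * nA A') * (D.k * D.nE c) ≤ D.K * (D.nE c * nA A') := by
    have h7 : 0 ≤ D.K * (D.nE c * nA A') := by positivity
    nlinarith
  have h8 : 0 ≤ D.nE c * nA A' := by positivity
  have h9 : D.K ≤ D.K ^ 2 := by nlinarith
  have h10 := mul_le_mul_of_nonneg_right h9 h8
  have h11 := mul_le_mul_of_nonneg_right hK h8
  rw [h5]
  have h12 := abs_le.1 h1
  have h13 := abs_le.1 h2
  have h14 := abs_le.1 h4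
  rw [abs_le]
  constructor <;> nlinarith

end

end Pool.Agent.Lib.BK2.Co
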