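import Pool.Agent.Lib.BK2.FIN
import Pool.Agent.Lib.BK2.TL
import Pool.Agent.Lib.BK2.C0
import Pool.Agent.Lib.BK2.Q1
import Pool.Agent.Lib.BK2.Q2
import Pool.Agent.Lib.BK2.X1
import Pool.Agent.Lib.BK2.X2
import Pool.Agent.Lib.BK2.X3
import Pool.Agent.Lib.BK2.X4
import Pool.Agent.Lib.BK2.X5
import Pool.Agent.Lib.BK2.RES
import Pool.Agent.Lib.BK2.T13
import Pool.Agent.Lib.BK2.T2

/-! BK2: the CORE estimate without hypotheses. -/

namespace Pool.Agent.Lib.BK2.Co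

theorem core : St_CORE :=
  stCORE stC0 stQ1 stQ2 (stX1 stTL) (stX2 stTL) stX3 stX4 (stX5 stTL) stRES stT1 (stT2 stTL) stT3

end Pool.Agent.Lib.BK2.Co
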