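import Pool.Agent.Lib.BK2.Stmt

open Polynomial

noncomputable section

namespace Pool.Agent.Lib.BK2

/-- `B` is free over `ℤ[t]` with a basis compatible with the degrees `δ`. -/
structure Geo (B : Type) [CommRing B] [Algebra ℤ[X] B] (d : ℕ) [NeZero d] where
  b : Module.Basis (Fin d) ℤ[X] B
  δ : Fin d → ℕ
  b0 : b 0 = 1
  δ0 : δ 0 = 0
  mul_deg : ∀ i j l, (b.repr (b i * b j) l).degree + (δ l : WithBot ℕ) ≤ ((δ i + δ j : ℕ) : WithBot ℕ)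

/-- Points over prime fields. -/
def Pt (B : Type) [CommRing B] : Type := Σ p : Nat.Primes, (B →+* ZMod p)

/-- The prime below a point. -/
def Pt.p {B : Type} [CommRing B] (x : Pt B) : ℕ := x.1

/-- The point `x` lies on the divisor of `f`. -/
def Pt.On {B : Type} [CommRing B] (x : Pt B) (f : B) : Prop := x.2 f = 0

namespace Geo

variable {B : Type} [CommRing B] [Algebra ℤ[X] B] {d : ℕ} [NeZero d] (Γ : Geo B d)

/-- The coordinate `t`. -/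
def t (_ : Geo B d) : B := algebraMap ℤ[X] B X

def dmax : ℕ := Finset.univ.sup Γ.δ

/-- Elements of degree at most `m`. -/
def V (m : ℕ) : Set B := {f | ∀ l, (Γ.b.repr f l).degree + (Γ.δ l : WithBot ℕ) ≤ (m : WithBot ℕ)}

/-- Index set of the monomial basis of `V m`. -/
abbrev Ix (m : ℕ) : Type := Σ l : Fin d, Fin (m + 1 - Γ.δ l)

def mon {m : ℕ} (i : Γ.Ix m) : B := Γ.t ^ (i.2 : ℕ) * Γ.b i.1

/-- The element of `V m` with integer coordinates `e`. -/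
def el {m : ℕ} (e : Γ.Ix m → ℤ) : B := ∑ i, e i • Γ.mon i

/-- Coordinates of `f`. -/
def co (m : ℕ) (f : B) (i : Γ.Ix m) : ℤ := (Γ.b.repr f i.1).coeff i.2

/-- Product of coordinate vectors over any ring, meaningful for `a + a' ≤ c`. -/
def mulv {R : Type} [CommRing R] {a a' : ℕ} (c : ℕ) (e : Γ.Ix a → R) (s : Γ.Ix a' → R) :
    Γ.Ix c → R :=
  fun k => ∑ i, ∑ j, e i * s j * (Γ.co c (Γ.mon i * Γ.mon j) k : R)

/-- Value of a real vector at a complex point. -/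
def ev {m : ℕ} (φ : B →+* ℂ) (e : Γ.Ix m → ℝ) : ℂ := ∑ i, (e i : ℂ) * φ (Γ.mon i)

/-- The norm down to `ℤ[t]`. -/
def nrm (_ : Geo B d) (f : B) : ℤ[X] := Algebra.norm ℤ[X] f

/-- The norm of a real vector, down to `ℝ[t]`. -/
def nrmR {m : ℕ} (e : Γ.Ix m → ℝ) : ℝ[X] :=
  Matrix.det (∑ i, (C (e i) : ℝ[X]) •
    (Algebra.leftMulMatrix Γ.b (Γ.mon i)).map (Polynomial.map (Int.castRingHom ℝ)))

/-- Top coefficient of the norm. -/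
def lc {m : ℕ} (e : Γ.Ix m → ℝ) : ℝ := (Γ.nrmR e).coeff (m * d)

/-- `e` and `w` meet exactly in the points of `Z`, transversally. -/
structure Split (m m' : ℕ) (e w : B) (Z : Finset (Pt B)) : Prop where
  he : e ∈ Γ.V m
  hw : w ∈ Γ.V m'
  inj : Set.InjOn Pt.p (Z : Set (Pt B))
  pe : (Γ.nrm e).IsPrimitive
  pw : (Γ.nrm w).IsPrimitive
  ce : (Γ.nrm e).coeff (m * d) ≠ 0
  cw : (Γ.nrm w).coeff (m' * d) ≠ 0
  lat : ∀ v ∈ Γ.V (2 * m'), (∃ s ∈ Γ.V (2 * m' - m), ∃ s' ∈ Γ.V m', v = e * s + w * s') ↔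
    ∀ x ∈ Z, x.On v

/-- Point counts over prime fields. -/
def Weil (_ : Geo B d) : Prop :=
  ∃ K θ : ℝ, θ < 1 ∧ ∀ p : ℕ, p.Prime →
    |(Nat.card (B →+* ZMod p) : ℝ) - p| ≤ K * (p : ℝ) ^ θ

/-- Congruence conditions that force irreducible norms. -/
def Irr : Prop :=
  ∃ m₁ : ℕ, ∀ m ≥ m₁, ∀ Q : ℕ, 0 < Q → ∃ (M₀ : ℕ) (e₀ : Γ.Ix m → ℤ), 0 < M₀ ∧ Q ∣ M₀ ∧
    (∀ p : ℕ, p.Prime → ¬ p ∣ M₀ → (Ideal.span {(p : B)}).IsPrime) ∧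
    ∀ e : Γ.Ix m → ℤ, (∀ i, e i ≡ e₀ i [ZMOD M₀]) →
      Irreducible ((Γ.nrm (Γ.el e)).map (Int.castRingHom ℚ)) ∧
      (Γ.nrm (Γ.el e)).natDegree = m * d ∧
      ∀ q : ℕ, q.Prime → q ∣ M₀ → (Γ.nrm (Γ.el e)).map (Int.castRingHom (ZMod q)) ≠ 0

/-- Labelled complex zeros of the sections in the open set `U`, one from each conjugate pair. -/
structure Roots (m ν : ℕ) (U : Set (Γ.Ix m → ℝ)) where
  φ : (Γ.Ix m → ℝ) → Fin ν → (B →+* ℂ)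
  op : IsOpen U
  card : 2 * ν = m * d
  smooth : ∀ s f, ContDiffOn ℝ 1 (fun e => φ e s f) U
  zero : ∀ e ∈ U, ∀ s, Γ.ev (φ e s) e = 0
  all : ∀ e ∈ U, ∀ ψ : B →+* ℂ, Γ.ev ψ e = 0 →
    ∃ s, ψ = φ e s ∨ ψ = (starRingEnd ℂ).comp (φ e s)
  inj : ∀ e ∈ U, ∀ s s', φ e s Γ.t = φ e s' Γ.t → s = s'
  nre : ∀ e ∈ U, ∀ s s', φ e s Γ.t ≠ starRingEnd ℂ (φ e s' Γ.t)
  lead : ∀ e ∈ U, Γ.lc e ≠ 0

/-- The archimedean test vector `(1, log |w (P_s e)|)`. -/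
def Roots.lam {Γ : Geo B d} {m ν : ℕ} {U : Set (Γ.Ix m → ℝ)} (ρ : Γ.Roots m ν U) {m' : ℕ}
    (e : Γ.Ix m → ℝ) (w : Γ.Ix m' → ℝ) : Option (Fin ν) → ℝ
  | none => 1
  | some s => Real.log ‖Γ.ev (ρ.φ e s) w‖

/-- The link with the projective curve with generic point `y`. -/
structure Model {L : Type} [Field L] [Algebra ℚ L] {n : ℕ} (y : Fin (n + 1) → L) where
  ι : B →+* L
  inj : Function.Injective ι
  Y₀ : Fin (n + 1) → ℚ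
  Y₁ : Fin (n + 1) → ℚ
  ne : ∑ j, algebraMap ℚ L (Y₀ j) * y j ≠ 0
  ht : ι Γ.t * ∑ j, algebraMap ℚ L (Y₀ j) * y j = ∑ j, algebraMap ℚ L (Y₁ j) * y j
  c : ℕ
  hc : 0 < c
  η : Fin (n + 1) → B
  hη : ∀ j, η j ∈ Γ.V 1
  ιη : ∀ j, ι (η j) * ∑ j, algebraMap ℚ L (Y₀ j) * y j = c * y j
  m₀ : ℕ
  rep : ∀ m, Γ.Ix m → MvPolynomial (Fin (n + 1)) ℚ
  hom : ∀ m ≥ m₀, ∀ i, (rep m i).IsHomogeneous m
  hrep : ∀ m ≥ m₀, ∀ i, MvPolynomial.aeval y (rep m i) =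
    (∑ j, algebraMap ℚ L (Y₀ j) * y j) ^ m * ι (Γ.mon i)
  nz : ∀ z ∈ Cone y, ∑ j, (Y₀ j : ℂ) * z j ≠ 0 ∨ ∑ j, (Y₁ j : ℂ) * z j ≠ 0

variable {Γ} {L : Type} [Field L] [Algebra ℚ L] {n : ℕ} {y : Fin (n + 1) → L}

/-- Value of a real vector of degree `m` at a point of the cone. -/
def Model.evC (μ : Γ.Model y) {m : ℕ} (e : Γ.Ix m → ℝ) (z : Fin (n + 1) → ℂ) : ℂ :=
  ∑ i, (e i : ℂ) * MvPolynomial.aeval z (μ.rep m i)

/-- The functional `Φ (e, w)`. -/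
def Model.Phi (μ : Γ.Model y) {ι : Type} [Fintype ι] (γ : ι → Loop y) (a : ι → ℝ) {m m' : ℕ}
    (e : Γ.Ix m → ℝ) (w : Γ.Ix m' → ℝ) : ℝ :=
  ∑ l, a l * eta (fun u => μ.evC e ((γ l).pt u)) fun u => μ.evC w ((γ l).pt u)

/-- No member of `U` vanishes on the loops. -/
def Model.Off (μ : Γ.Model y) {ι : Type} (γ : ι → Loop y) {m : ℕ} (U : Set (Γ.Ix m → ℝ)) : Prop :=
  ∀ e ∈ U, ∀ l u, μ.evC e ((γ l).pt u) ≠ 0

end Geo

/-- The closed cube with corner `o` and side `s`. -/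
def rcube {I : Type} (o : I → ℝ) (s : ℝ) : Set (I → ℝ) := {v | ∀ i, o i ≤ v i ∧ v i ≤ o i + s}

/-- An integer vector scaled by `1 / H`. -/
def scl {I : Type} (H : ℝ) (e : I → ℤ) : I → ℝ := fun i => (e i : ℝ) / H

end Pool.Agent.Lib.BK2
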