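import Mathlib

/-! Duality for functionals on a lattice with a discrete logarithmic image. -/

set_option autoImplicit false

noncomputable section

namespace Pool.Agent.Lib.BK2.DUAL

open Finset

/-- simultaneous approximation by pigeonhole -/
theorem approx {P : Type} [Fintype P] (v : P → ℝ) {ε : ℝ} (hε : 0 < ε) :
    ∃ (q : ℕ) (m : P → ℤ), 1 ≤ q ∧ ∀ p, |(q : ℝ) * v p - m p| < ε := by
  classical
  obtain ⟨M, hM⟩ := exists_nat_gt (1 / ε)
  have hM0 : (0 : ℝ) < M := lt_trans (by positivity) hM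
  have hlt : ∀ (q : ℕ) (p : P), ⌊(M : ℝ) * Int.fract ((q : ℝ) * v p)⌋₊ < M := by
    intro q p
    rw [Nat.floor_lt (mul_nonneg hM0.le (Int.fract_nonneg _))]
    have := Int.fract_lt_one ((q : ℝ) * v p)
    nlinarith
  let f : ℕ → (P → Fin M) := fun q p => ⟨_, hlt q p⟩
  have key : ∀ a b : ℕ, a < b → f a = f b →
      ∃ (q : ℕ) (m : P → ℤ), 1 ≤ q ∧ ∀ p, |(q : ℝ) * v p - m p| < ε := by
    intro a b hab h
    refine ⟨b - a, fun p => ⌊(b : ℝ) * v p⌋ - ⌊(a : ℝ) * v p⌋, by omega, fun p => ?_⟩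
    have h1 : ⌊(M : ℝ) * Int.fract ((a : ℝ) * v p)⌋₊ = ⌊(M : ℝ) * Int.fract ((b : ℝ) * v p)⌋₊ :=
      congrArg Fin.val (congrFun h p)
    have ha0 := mul_nonneg hM0.le (Int.fract_nonneg ((a : ℝ) * v p))
    have hb0 := mul_nonneg hM0.le (Int.fract_nonneg ((b : ℝ) * v p))
    have a1 := Nat.floor_le ha0
    have a2 := Nat.lt_floor_add_one ((M : ℝ) * Int.fract ((a : ℝ) * v p))
    have b1 := Nat.floor_le hb0
    have b2 := Nat.lt_floor_add_one ((M : ℝ) * Int.fract ((b : ℝ) * v p))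
    rw [h1] at a1 a2
    have e : ((b - a : ℕ) : ℝ) * v p - ((⌊(b : ℝ) * v p⌋ - ⌊(a : ℝ) * v p⌋ : ℤ) : ℝ) =
        Int.fract ((b : ℝ) * v p) - Int.fract ((a : ℝ) * v p) := by
      rw [Nat.cast_sub hab.le, Int.fract, Int.fract]
      push_cast
      ring
    rw [e]
    have hMe : 1 < (M : ℝ) * ε := by
      rw [div_lt_iff₀ hε] at hM
      exact hM
    rw [abs_lt]
    constructor <;> nlinarith
  obtain ⟨a, b, hab, h⟩ := Finite.exists_ne_map_eq_of_infinite f
  rcases lt_or_gt_of_ne hab with h' | h'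
  · exact key a b h' h
  · exact key b a h' h.symm

/-- the functional `v ↦ ∑ v p * a p` -/
def fn {P : Type} [Fintype P] (a : P → ℝ) : (P → ℝ) →ₗ[ℝ] ℝ where
  toFun v := ∑ p, v p * a p
  map_add' u v := by simp [add_mul, sum_add_distrib]
  map_smul' c v := by simp [mul_sum, mul_assoc]

theorem abs_sum_le {P : Type} [Fintype P] (u a : P → ℝ) {ε : ℝ} (h : ∀ p, |u p| ≤ ε) :
    |∑ p, u p * a p| ≤ ε * ∑ p, |a p| := by
  rw [mul_sum]
  refine (abs_sum_le_sum_abs _ _).trans (sum_le_sum fun p _ => ?_)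
  rw [abs_mul]
  exact mul_le_mul_of_nonneg_right (h p) (abs_nonneg _)

/-- a functional that kills the integer kernel kills the real kernel -/
theorem kill {P I J : Type} [Fintype P] [Fintype I] [Fintype J] (A : I → P → ℤ)
    (lam : J → P → ℝ) (Φ : P → ℝ)
    (hd : ∃ δ : ℝ, 0 < δ ∧ ∀ r : P → ℤ, (∀ i, ∑ p, r p * A i p = 0) →
      (∀ j, |∑ p, (r p : ℝ) * lam j p| < δ) → ∀ j, ∑ p, (r p : ℝ) * lam j p = 0)
    (hΦ : ∀ r : P → ℤ, (∀ i, ∑ p, r p * A i p = 0) → (∀ j, ∑ p, (r p : ℝ) * lam j p = 0) →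
      ∑ p, (r p : ℝ) * Φ p = 0)
    (v : P → ℝ) (hA : ∀ i, ∑ p, v p * (A i p : ℝ) = 0) (hl : ∀ j, ∑ p, v p * lam j p = 0) :
    ∑ p, v p * Φ p = 0 := by
  obtain ⟨δ, hδ, hd⟩ := hd
  obtain ⟨K, hK0, hKA, hKl, hKΦ⟩ : ∃ K : ℝ, 0 < K ∧ (∀ i, ∑ p, |(A i p : ℝ)| ≤ K) ∧
      (∀ j, ∑ p, |lam j p| ≤ K) ∧ ∑ p, |Φ p| ≤ K := by
    have h1 : 0 ≤ ∑ i, ∑ p, |(A i p : ℝ)| := by positivity
    have h2 : 0 ≤ ∑ j, ∑ p, |lam j p| := by positivity
    have h3 : 0 ≤ ∑ p, |Φ p| := by positivity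
    refine ⟨1 + (∑ i, ∑ p, |(A i p : ℝ)|) + (∑ j, ∑ p, |lam j p|) + ∑ p, |Φ p|, by positivity,
      fun i => ?_, fun j => ?_, by linarith⟩
    · have := single_le_sum (f := fun i => ∑ p, |(A i p : ℝ)|) (fun i _ => by positivity)
        (mem_univ i)
      linarith
    · have := single_le_sum (f := fun j => ∑ p, |lam j p|) (fun i _ => by positivity)
        (mem_univ j)
      linarith
  have main : ∀ ε : ℝ, 0 < ε → ε * K < 1 → ε * K < δ → |∑ p, v p * Φ p| ≤ ε * K := by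
    intro ε hε h1 h2
    obtain ⟨q, m, hq, hm⟩ := approx v hε
    have hs : ∀ a : P → ℝ, ∑ p, ((q : ℝ) * v p - m p) * a p =
        q * ∑ p, v p * a p - ∑ p, (m p : ℝ) * a p := by
      intro a
      rw [mul_sum, ← sum_sub_distrib]
      exact sum_congr rfl fun p _ => by ring
    have hb : ∀ a : P → ℝ, ∑ p, |a p| ≤ K →
        |(q : ℝ) * ∑ p, v p * a p - ∑ p, (m p : ℝ) * a p| ≤ ε * K := by
      intro a ha
      rw [← hs]
      exact (abs_sum_le _ a fun p => (hm p).le).trans (mul_le_mul_of_nonneg_left ha hε.le)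
    have hmA : ∀ i, ∑ p, m p * A i p = 0 := by
      intro i
      have := hb (fun p => (A i p : ℝ)) (hKA i)
      rw [hA i, mul_zero, zero_sub, abs_neg] at this
      have h3 : |((∑ p, m p * A i p : ℤ) : ℝ)| < 1 := by
        push_cast
        linarith
      rw [← Int.cast_abs] at h3
      have h4 : |∑ p, m p * A i p| < 1 := by exact_mod_cast h3
      exact Int.abs_lt_one_iff.1 h4
    have hml := hd m hmA fun j => by
      have := hb (lam j) (hKl j)
      rw [hl j, mul_zero, zero_sub, abs_neg] at this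
      linarith
    have := hb Φ hKΦ
    rw [hΦ m hmA hml, sub_zero, abs_mul, Nat.abs_cast] at this
    have hq' : (1 : ℝ) ≤ q := by exact_mod_cast hq
    nlinarith [abs_nonneg (∑ p, v p * Φ p)]
  by_contra hne
  have hpos : 0 < |∑ p, v p * Φ p| := abs_pos.2 hne
  set μ : ℝ := min (min 1 δ) |∑ p, v p * Φ p| with hμ
  have hμ0 : 0 < μ := lt_min (lt_min one_pos hδ) hpos
  have hμ1 : μ ≤ 1 := (min_le_left _ _).trans (min_le_left _ _)
  have hμ2 : μ ≤ δ := (min_le_left _ _).trans (min_le_right _ _)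
  have hμ3 : μ ≤ |∑ p, v p * Φ p| := min_le_right _ _
  have e : μ / (2 * K) * K = μ / 2 := by field_simp
  have := main (μ / (2 * K)) (by positivity) (by rw [e]; linarith) (by rw [e]; linarith)
  rw [e] at this
  linarith

/-- duality: `Φ` is a combination of the rational conditions and the logarithms -/
theorem dual {P I J : Type} [Fintype P] [Fintype I] [Fintype J] (A : I → P → ℤ)
    (lam : J → P → ℝ) (Φ : P → ℝ)
    (hd : ∃ δ : ℝ, 0 < δ ∧ ∀ r : P → ℤ, (∀ i, ∑ p, r p * A i p = 0) →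
      (∀ j, |∑ p, (r p : ℝ) * lam j p| < δ) → ∀ j, ∑ p, (r p : ℝ) * lam j p = 0)
    (hΦ : ∀ r : P → ℤ, (∀ i, ∑ p, r p * A i p = 0) → (∀ j, ∑ p, (r p : ℝ) * lam j p = 0) →
      ∑ p, (r p : ℝ) * Φ p = 0) :
    ∃ (c : I → ℝ) (C : J → ℝ), ∀ p, Φ p = ∑ i, c i * A i p + ∑ j, C j * lam j p := by
  classical
  let L : I ⊕ J → (P → ℝ) →ₗ[ℝ] ℝ :=
    Sum.elim (fun i => fn fun p => (A i p : ℝ)) fun j => fn (lam j)
  have h : ⨅ i, LinearMap.ker (L i) ≤ LinearMap.ker (fn Φ) := by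
    intro v hv
    rw [Submodule.mem_iInf] at hv
    exact kill A lam Φ hd hΦ v (fun i => hv (.inl i)) fun j => hv (.inr j)
  obtain ⟨a, ha⟩ := (Submodule.mem_span_range_iff_exists_fun ℝ).1 (mem_span_of_iInf_ker_le_ker h)
  refine ⟨fun i => a (.inl i), fun j => a (.inr j), fun p => ?_⟩
  have := congrArg (fun f : (P → ℝ) →ₗ[ℝ] ℝ => f (Pi.single p 1)) ha
  have hf : ∀ b : P → ℝ, fn b (Pi.single p 1) = b p := by
    intro b
    simp [fn, Pi.single_apply]
  simp only [Fintype.sum_sum_type, LinearMap.add_apply, LinearMap.sum_apply, LinearMap.smul_apply,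
    L, Sum.elim_inl, Sum.elim_inr, hf, smul_eq_mul] at this
  exact this.symm

/-- algebraic integers of a number field with small logarithms have vanishing logarithms -/
theorem disc_nf (K : Type) [Field K] [NumberField K] : ∃ δ : ℝ, 0 < δ ∧ ∀ u : K, IsIntegral ℤ u →
    (∀ σ : K →+* ℂ, |Real.log ‖σ u‖| < δ) → ∀ σ : K →+* ℂ, Real.log ‖σ u‖ = 0 := by
  classical
  have hf := NumberField.Embeddings.finite_of_norm_le K ℂ 3
  let S : Set ℝ := (fun z : K × (K →+* ℂ) => |Real.log ‖z.2 z.1‖|) ''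
    ({x : K | IsIntegral ℤ x ∧ ∀ φ : K →+* ℂ, ‖φ x‖ ≤ 3} ×ˢ Set.univ) \ {0} ∪ {1}
  have hS : S.Finite :=
    (((hf.prod Set.finite_univ).image _).subset Set.sdiff_subset).union (Set.finite_singleton _)
  obtain ⟨δ, hδ, hmin⟩ := Set.exists_min_image S id hS ⟨1, Or.inr rfl⟩
  have hδ1 : δ ≤ 1 := hmin 1 (Or.inr rfl)
  refine ⟨δ, ?_, fun u hu h σ => ?_⟩
  · rcases hδ with ⟨⟨z, -, rfl⟩, h0⟩ | rfl
    · exact lt_of_le_of_ne (abs_nonneg _) (Ne.symm h0)
    · exact one_pos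
  · by_contra hne
    have hb : ∀ φ : K →+* ℂ, ‖φ u‖ ≤ 3 := by
      intro φ
      by_contra hc
      rw [not_le] at hc
      have h1 : Real.log ‖φ u‖ < 1 := (le_abs_self _).trans_lt ((h φ).trans_le hδ1)
      have h2 : (1 : ℝ) < Real.log ‖φ u‖ := by
        rw [Real.lt_log_iff_exp_lt (by linarith)]
        have := Real.exp_one_lt_d9
        linarith
      linarith
    have := hmin |Real.log ‖σ u‖| (Or.inl ⟨⟨(u, σ), ⟨⟨hu, hb⟩, trivial⟩, rfl⟩,
      fun h0 => hne (abs_eq_zero.1 h0)⟩)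
    exact absurd (h σ) (not_lt.2 this)

/-- the image of a finitely generated ring at an algebraic point lies in a number field -/
theorem exists_nf (B : Type) [CommRing B] [Algebra.FiniteType ℤ B] (φ : B →+* ℂ)
    (halg : ∀ b, IsAlgebraic ℚ (φ b)) :
    ∃ K : IntermediateField ℚ ℂ, FiniteDimensional ℚ K ∧ ∀ b, φ b ∈ K := by
  classical
  obtain ⟨S, hS⟩ := (inferInstance : Algebra.FiniteType ℤ B).out
  refine ⟨IntermediateField.adjoin ℚ (φ '' (S : Set B)), ?_, fun b => ?_⟩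
  · have : Finite (φ '' (S : Set B)) := ((S.finite_toSet).image φ).to_subtype
    refine IntermediateField.finiteDimensional_adjoin ?_
    rintro _ ⟨b, -, rfl⟩
    exact (halg b).isIntegral
  · have hb : b ∈ Algebra.adjoin ℤ (S : Set B) := hS ▸ Algebra.mem_top
    induction hb using Algebra.adjoin_induction with
    | mem x hx => exact IntermediateField.subset_adjoin _ _ ⟨x, hx, rfl⟩
    | algebraMap r =>
      rw [eq_intCast, map_intCast]
      exact intCast_mem _ _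
    | add x y _ _ hx hy =>
      rw [map_add]
      exact add_mem hx hy
    | mul x y _ _ hx hy =>
      rw [map_mul]
      exact mul_mem hx hy

theorem log_norm_prod {P : Type} [Fintype P] (z : P → ℂ) (r : P → ℤ) (hz : ∀ p, z p ≠ 0) :
    Real.log ‖∏ p, z p ^ r p‖ = ∑ p, (r p : ℝ) * Real.log ‖z p‖ := by
  rw [norm_prod, Real.log_prod fun p _ => norm_ne_zero_iff.2 (zpow_ne_zero _ (hz p))]
  exact sum_congr rfl fun p _ => by rw [norm_zpow, Real.log_zpow]

/-- discreteness of the logarithms of integral monomials at an algebraic point -/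
theorem disc_hom (B : Type) [CommRing B] [Algebra.FiniteType ℤ B] (φ : B →+* ℂ)
    (halg : ∀ b, IsAlgebraic ℚ (φ b)) : ∃ δ : ℝ, 0 < δ ∧
      ∀ (P : Type) [Fintype P] (w : P → B) (r : P → ℤ), (∀ p, φ (w p) ≠ 0) →
        IsIntegral ℤ (∏ p, φ (w p) ^ r p) →
        (∀ ψ : B →+* ℂ, (∀ b, φ b = 0 → ψ b = 0) →
          |∑ p, (r p : ℝ) * Real.log ‖ψ (w p)‖| < δ) →
        ∑ p, (r p : ℝ) * Real.log ‖φ (w p)‖ = 0 := by
  obtain ⟨K, hK, hφ⟩ := exists_nf B φ halg
  have : NumberField K := {}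
  obtain ⟨δ, hδ, h⟩ := disc_nf K
  refine ⟨δ, hδ, fun P _ w r hw hi hs => ?_⟩
  let φ' : B →+* K := φ.codRestrict K.toSubfield hφ
  have hφ' : ∀ b, (algebraMap K ℂ) (φ' b) = φ b := fun b => rfl
  have hw' : ∀ p, φ' (w p) ≠ 0 := fun p h0 => hw p (by rw [← hφ', h0, map_zero])
  have hu : ∀ σ : K →+* ℂ, Real.log ‖σ (∏ p, φ' (w p) ^ r p)‖ =
      ∑ p, (r p : ℝ) * Real.log ‖σ (φ' (w p))‖ := by
    intro σ
    rw [map_prod, ← log_norm_prod _ r fun p => (map_ne_zero σ).2 (hw' p)]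
    simp only [map_zpow₀]
  have hi' : IsIntegral ℤ (∏ p, φ' (w p) ^ r p) := by
    rw [← isIntegral_algebraMap_iff (B := ℂ) (algebraMap K ℂ).injective, map_prod]
    simpa only [map_zpow₀, hφ'] using hi
  have := h _ hi' (fun σ => by
    rw [hu]
    refine hs (σ.comp φ') fun b hb => ?_
    have : φ' b = 0 := (algebraMap K ℂ).injective (by rw [hφ', hb, map_zero])
    rw [RingHom.comp_apply, this, map_zero]) (algebraMap K ℂ)
  rwa [hu] at this

end Pool.Agent.Lib.BK2.DUAL
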