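import Pool.Agent.Lib.BK2.GDefs
import Pool.Agent.Lib.BK2.Bas

open Polynomial

noncomputable section

namespace Pool.Agent.Lib.BK2

namespace EIS

section Abs

variable {S : Type} [CommRing S] {q : ℕ} [Fact q.Prime] (y : S →+* ZMod q) (T : S)

theorem not_nil [IsDomain S] (hT0 : T ≠ 0) (hT : y T = 0) (hu : ∀ z, y z ≠ 0 → IsUnit z)
    (hq : ∀ g, T ∣ (q : S) * g → T ∣ g) {u h : S} (hy : y u ≠ 0) {r : ℕ} (hr : 0 < r) (k : ℕ) :
    ¬ (q : S) * u + T ^ r * h ∣ T ^ k := by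
  induction k with
  | zero =>
    rintro ⟨g, hg⟩
    have h1 := congrArg y hg
    simp [hT, hr.ne'] at h1
  | succ k ih =>
    rintro ⟨g, hg⟩
    obtain ⟨r', rfl⟩ : ∃ r', r = r' + 1 := ⟨r - 1, by omega⟩
    have h1 : T ∣ (q : S) * (u * g) := ⟨T ^ k - T ^ r' * h * g, by linear_combination -hg⟩
    obtain ⟨g', rfl⟩ := (hu u hy).dvd_mul_left.1 (hq _ h1)
    refine ih ⟨g', mul_left_cancel₀ hT0 ?_⟩
    linear_combination hg

theorem expand (hS : ∀ z, y z = 0 → ∃ α β, z = (q : S) * α + T * β) (r : ℕ) (z : S) :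
    ∃ (c : ℕ → ℤ) (α β : S),
      z = ∑ j ∈ Finset.range r, (c j : S) * T ^ j + (q : S) * α + T ^ r * β := by
  induction r with
  | zero => exact ⟨0, 0, z, by simp⟩
  | succ r ih =>
    obtain ⟨c, α, β, h⟩ := ih
    obtain ⟨c0, hc0⟩ := ZMod.intCast_surjective (y β)
    obtain ⟨α', β', h'⟩ := hS (β - c0) (by rw [map_sub, map_intCast, hc0, sub_self])
    refine ⟨fun j => if j = r then c0 else c j, α + T ^ r * α', β', ?_⟩
    have h2 : ∑ j ∈ Finset.range r, (((if j = r then c0 else c j : ℤ)) : S) * T ^ j =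
        ∑ j ∈ Finset.range r, (c j : S) * T ^ j :=
      Finset.sum_congr rfl fun j hj => by rw [if_neg (Finset.mem_range.1 hj).ne]
    rw [Finset.sum_range_succ, h2]
    simp only [if_true]
    linear_combination h + T ^ r * h'

theorem pigeon (hS : ∀ z, y z = 0 → ∃ α β, z = (q : S) * α + T * β) {I : Type} [Fintype I]
    (E : (I → ℤ) →+ S) {r : ℕ} (hr : r < Fintype.card I) :
    ∃ (f : I → ℤ) (g h : S), (∃ i, ¬ (q : ℤ) ∣ f i) ∧ E f = (q : S) * g + T ^ r * h := by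
  classical
  have hq : q.Prime := Fact.out
  have : NeZero q := ⟨hq.ne_zero⟩
  choose c α β hc using expand y T hS r
  let L : (I → ZMod q) → I → ℤ := fun v i => ((v i).val : ℤ)
  obtain ⟨v, v', hne, he⟩ := Fintype.exists_ne_map_eq_of_card_lt
    (fun v : I → ZMod q => fun j : Fin r => (c (E (L v)) j : ZMod q)) (by
      simp only [Fintype.card_pi, ZMod.card, Finset.prod_const, Finset.card_univ,
        Fintype.card_fin]
      exact Nat.pow_lt_pow_right hq.one_lt hr)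
  have hd : ∀ j, ∃ k : ℤ, j < r → c (E (L v)) j - c (E (L v')) j = q * k := fun j => by
    by_cases hj : j < r
    · have h1 := congrFun he ⟨j, hj⟩
      obtain ⟨k, hk⟩ := (ZMod.intCast_eq_intCast_iff_dvd_sub _ _ _).1 h1.symm
      exact ⟨k, fun _ => hk⟩
    · exact ⟨0, fun h => absurd h hj⟩
  choose k hk using hd
  refine ⟨L v - L v', ∑ j ∈ Finset.range r, (k j : S) * T ^ j + (α (E (L v)) - α (E (L v'))),
    β (E (L v)) - β (E (L v')), ?_, ?_⟩
  · obtain ⟨i, hi⟩ := Function.ne_iff.1 hne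
    refine ⟨i, fun h => hi ?_⟩
    have h1 := (ZMod.intCast_zmod_eq_zero_iff_dvd _ _).2 h
    simpa [L, sub_eq_zero] using h1
  · have h2 : ∑ j ∈ Finset.range r, (c (E (L v)) j : S) * T ^ j -
        ∑ j ∈ Finset.range r, (c (E (L v')) j : S) * T ^ j =
        (q : S) * ∑ j ∈ Finset.range r, (k j : S) * T ^ j := by
      rw [← Finset.sum_sub_distrib, Finset.mul_sum]
      refine Finset.sum_congr rfl fun j hj => ?_
      have h3 := congrArg (Int.cast : ℤ → S) (hk j (Finset.mem_range.1 hj))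
      push_cast at h3
      linear_combination T ^ j * h3
    rw [map_sub]
    linear_combination hc (E (L v)) - hc (E (L v')) + h2

theorem factor (j : ℤ[X] →+* S) (a : ℤ) (hj : j (X - C a) = T) (hT : y T = 0) (P : ℤ[X])
    (hP : P.map (Int.castRingHom (ZMod q)) ≠ 0) :
    ∃ (n : ℕ) (w ρ : S), n ≤ P.natDegree ∧ y w ≠ 0 ∧ j P = T ^ n * w + (q : S) * ρ := by
  obtain ⟨U, hU, hn⟩ := exists_eq_pow_rootMultiplicity_mul_and_not_dvd _ hP (a : ZMod q)
  obtain ⟨U', rfl⟩ := map_surjective (Int.castRingHom (ZMod q)) ZMod.intCast_surjective U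
  set n := rootMultiplicity (a : ZMod q) (P.map (Int.castRingHom (ZMod q))) with hn'
  have h1 : n ≤ P.natDegree := by
    have h2 : ((X - C (a : ZMod q)) ^ n).natDegree ≤
        (P.map (Int.castRingHom (ZMod q))).natDegree := natDegree_le_of_dvd ⟨_, hU⟩ hP
    rw [natDegree_pow, natDegree_X_sub_C, mul_one] at h2
    exact h2.trans natDegree_map_le
  have h3 : C (q : ℤ) ∣ P - (X - C a) ^ n * U' := by
    rw [C_dvd_iff_dvd_coeff]
    intro i
    rw [← ZMod.intCast_zmod_eq_zero_iff_dvd]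
    have h4 : (P - (X - C a) ^ n * U').map (Int.castRingHom (ZMod q)) = 0 := by
      rw [Polynomial.map_sub, Polynomial.map_mul, Polynomial.map_pow, Polynomial.map_sub, map_X,
        map_C, sub_eq_zero]
      exact hU
    have h5 := congrArg (fun p => coeff p i) h4
    simp only [coeff_map, coeff_zero] at h5
    exact h5
  obtain ⟨R, hR⟩ := h3
  have hX : y (j X) = a := by
    have h6 := congrArg y hj
    rw [hT, map_sub, map_sub, sub_eq_zero] at h6
    rw [h6]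
    simp
  have hev : y.comp j = (evalRingHom (a : ZMod q)).comp (mapRingHom (Int.castRingHom (ZMod q))) := by
    refine Polynomial.ringHom_ext (fun c => by simp) (by simp [hX])
  refine ⟨n, j U', j R, h1, fun h0 => hn ?_, ?_⟩
  · rw [dvd_iff_isRoot]
    have h7 := congrArg (fun φ : ℤ[X] →+* ZMod q => φ U') hev
    simp only [RingHom.comp_apply, coe_mapRingHom, coe_evalRingHom] at h7
    rw [IsRoot.def, ← h7, h0]
  · have h8 := congrArg j hR
    rw [map_sub, map_mul, map_pow, hj, map_mul] at h8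
    have h9 : j (C (q : ℤ)) = q := by simp
    rw [h9] at h8
    linear_combination h8

theorem deg [IsDomain S] (hT0 : T ≠ 0) (hT : y T = 0) (hu : ∀ z, y z ≠ 0 → IsUnit z)
    (hq : ∀ g, T ∣ (q : S) * g → T ∣ g) {u h : S} (hy : y u ≠ 0) {r : ℕ} (hr : 0 < r)
    (j : ℤ[X] →+* S) (a : ℤ) (hj : j (X - C a) = T) (P₁ P₂ : ℤ[X])
    (hP : (P₁ * P₂).map (Int.castRingHom (ZMod q)) ≠ 0)
    (hd : (q : S) * u + T ^ r * h ∣ j (P₁ * P₂)) : r ≤ P₁.natDegree ∨ r ≤ P₂.natDegree := by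
  by_contra hc
  rw [not_or, not_le, not_le] at hc
  rw [Polynomial.map_mul] at hP
  obtain ⟨v, hv⟩ := (hu u hy).exists_right_inv
  have key : ∀ P : ℤ[X], P.map (Int.castRingHom (ZMod q)) ≠ 0 → P.natDegree < r →
      ∃ (n : ℕ) (w κ : S), IsUnit w ∧ j P = T ^ n * w + ((q : S) * u + T ^ r * h) * κ := by
    intro P h1 h2
    obtain ⟨n, w, ρ, h3, h4, h5⟩ := factor y T j a hj hT P h1
    obtain ⟨s, rfl⟩ : ∃ s, r = n + (s + 1) := ⟨r - n - 1, by omega⟩
    refine ⟨n, w - T ^ (s + 1) * h * v * ρ, v * ρ, hu _ ?_, ?_⟩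
    · simpa [hT] using h4
    · linear_combination h5 - (q : S) * ρ * hv
  obtain ⟨n₁, w₁, κ₁, u₁, e₁⟩ := key P₁ (left_ne_zero_of_mul hP) hc.1
  obtain ⟨n₂, w₂, κ₂, u₂, e₂⟩ := key P₂ (right_ne_zero_of_mul hP) hc.2
  obtain ⟨g, hg⟩ := hd
  rw [map_mul, e₁, e₂] at hg
  refine not_nil y T hT0 hT hu hq (h := h) hy hr (n₁ + n₂) ((u₁.mul u₂).dvd_mul_right.1
    ⟨g - κ₁ * (T ^ n₂ * w₂) - κ₂ * (T ^ n₁ * w₁) - ((q : S) * u + T ^ r * h) * κ₁ * κ₂, ?_⟩)
  linear_combination hg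

end Abs

variable {B : Type} [CommRing B] [Algebra ℤ[X] B] {d : ℕ} [NeZero d] (Γ : Geo B d)

theorem dvd_iff (p : ℤ[X]) (f : B) : algebraMap ℤ[X] B p ∣ f ↔ ∀ l, p ∣ Γ.b.repr f l := by
  constructor
  · rintro ⟨g, rfl⟩ l
    rw [← Algebra.smul_def, Γ.repr_smul]
    exact dvd_mul_right _ _
  · intro h
    choose k hk using h
    refine ⟨∑ l, k l • Γ.b l, ?_⟩
    rw [← Algebra.smul_def, Finset.smul_sum, ← Γ.b.sum_repr f]
    exact Finset.sum_congr rfl fun l _ => by rw [hk, mul_smul]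

theorem t_dvd (a : ℤ) {q : ℕ} (hq : q ≠ 0) (f : B) (h : Γ.t - (a : B) ∣ (q : B) * f) :
    Γ.t - (a : B) ∣ f := by
  have e : Γ.t - (a : B) = algebraMap ℤ[X] B (X - C a) := by simp [Geo.t]
  rw [e, dvd_iff Γ] at h ⊢
  intro l
  have h1 := h l
  rw [← Int.cast_natCast, ← zsmul_eq_mul, Γ.repr_zsmul, dvd_iff_isRoot, IsRoot.def, eval_smul,
    smul_eq_mul, mul_eq_zero] at h1
  rw [dvd_iff_isRoot]
  exact h1.resolve_left (by exact_mod_cast hq)

theorem dvd_nrm (f : B) : f ∣ algebraMap ℤ[X] B (Γ.nrm f) := by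
  classical
  let M := Algebra.leftMulMatrix Γ.b f
  refine ⟨Γ.b.equivFun.symm (M.adjugate.mulVec (Γ.b.repr 1)), Γ.b.ext_elem fun l => ?_⟩
  have h1 := Algebra.leftMulMatrix_mulVec_repr Γ.b f
    (Γ.b.equivFun.symm (M.adjugate.mulVec (Γ.b.repr 1)))
  have h2 : (Γ.b.repr (Γ.b.equivFun.symm (M.adjugate.mulVec (Γ.b.repr 1))) : Fin d → ℤ[X]) =
      M.adjugate.mulVec (Γ.b.repr 1) := Γ.b.equivFun.apply_symm_apply _
  rw [h2, Matrix.mulVec_mulVec, Matrix.mul_adjugate, Matrix.smul_mulVec, Matrix.one_mulVec] at h1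
  rw [← congrFun h1 l, ← mul_one (algebraMap ℤ[X] B _), ← Algebra.smul_def, Γ.repr_smul, Geo.nrm,
    Algebra.norm_eq_matrix_det Γ.b]
  rfl

theorem nrm_ne {q : ℕ} [Fact q.Prime] (hp : (Ideal.span {(q : B)}).IsPrime) (f : B)
    (hf : ¬ (q : B) ∣ f) : (Γ.nrm f).map (Int.castRingHom (ZMod q)) ≠ 0 := by
  classical
  intro h0
  let φ : ℤ[X] →+* (ZMod q)[X] := mapRingHom (Int.castRingHom (ZMod q))
  have hφ : ∀ p : ℤ[X], φ p = 0 ↔ C (q : ℤ) ∣ p := fun p => by
    rw [C_dvd_iff_dvd_coeff, Polynomial.ext_iff]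
    refine forall_congr' fun i => ?_
    rw [← ZMod.intCast_zmod_eq_zero_iff_dvd]
    simp [φ]
  have e : (q : B) = algebraMap ℤ[X] B (C (q : ℤ)) := by simp
  have h1 : (φ.mapMatrix (Algebra.leftMulMatrix Γ.b f)).det = 0 := by
    rw [← RingHom.map_det, ← Algebra.norm_eq_matrix_det Γ.b]
    exact h0
  obtain ⟨v, hv0, hv⟩ := Matrix.exists_mulVec_eq_zero_iff.2 h1
  choose w hw using fun l =>
    map_surjective (Int.castRingHom (ZMod q)) ZMod.intCast_surjective (v l)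
  have h2 : (Γ.b.repr (Γ.b.equivFun.symm w) : Fin d → ℤ[X]) = w := Γ.b.equivFun.apply_symm_apply _
  have h3 : (q : B) ∣ f * Γ.b.equivFun.symm w := by
    rw [e, dvd_iff Γ]
    intro l
    rw [← hφ, ← congrFun (Algebra.leftMulMatrix_mulVec_repr Γ.b f _) l, h2, RingHom.map_mulVec]
    have h4 : φ ∘ w = v := funext hw
    rw [h4]
    exact congrFun hv l
  rcases hp.mem_or_mem (Ideal.mem_span_singleton.2 h3) with h5 | h5
  · exact hf (Ideal.mem_span_singleton.1 h5)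
  · have h6 := Ideal.mem_span_singleton.1 h5
    rw [e, dvd_iff Γ, h2] at h6
    exact hv0 (funext fun l => by rw [← hw l]; exact (hφ _).2 (h6 l))

end EIS

open EIS in
theorem stEIS : St_EIS := by
  intro B _ _ _ d _ Γ q x a hq hp ⟨hxa, s, hs, hsm⟩ m r hr hrc
  classical
  have : Fact q.Prime := ⟨hq⟩
  let M : Submonoid B := (nonZeroDivisors (ZMod q)).comap x
  have hM : ∀ f : B, f ∈ M ↔ x f ≠ 0 := fun f => mem_nonZeroDivisors_iff_ne_zero
  have hM0 : M ≤ nonZeroDivisors B := fun f hf =>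
    mem_nonZeroDivisors_iff_ne_zero.2 fun h => (hM f).1 hf (by rw [h, map_zero])
  let S := Localization M
  have : IsDomain S := IsLocalization.isDomain_localization hM0
  have hinj : Function.Injective (algebraMap B S) := IsLocalization.injective S hM0
  have hun : ∀ f : B, x f ≠ 0 → IsUnit (algebraMap B S f) := fun f hf =>
    IsLocalization.map_units S (⟨f, (hM f).2 hf⟩ : M)
  let y : S →+* ZMod q := IsLocalization.lift (M := M) (g := x) fun f =>
    ((hM f).1 f.2).isUnit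
  have hy : ∀ f : B, y (algebraMap B S f) = x f := fun f => IsLocalization.lift_eq _ f
  have hsurj : ∀ z : S, ∃ f σ : B, x σ ≠ 0 ∧ z * algebraMap B S σ = algebraMap B S f := fun z => by
    obtain ⟨⟨f, σ⟩, h⟩ := IsLocalization.surj M z
    exact ⟨f, σ, (hM _).1 σ.2, h⟩
  have eT : Γ.t - (a : B) = algebraMap ℤ[X] B (X - C a) := by simp [Geo.t]
  set T : S := algebraMap B S (Γ.t - (a : B)) with hTd
  have hT : y T = 0 := by rw [hTd, hy, map_sub, hxa, map_intCast, sub_self]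
  have hT0 : T ≠ 0 := by
    rw [hTd, map_ne_zero_iff _ hinj, eT, map_ne_zero_iff _ Γ.algebraMap_injective]
    exact X_sub_C_ne_zero a
  have hu : ∀ z, y z ≠ 0 → IsUnit z := fun z hz => by
    obtain ⟨f, σ, h1, h2⟩ := hsurj z
    have h3 := congrArg y h2
    rw [map_mul, hy, hy] at h3
    exact isUnit_of_mul_isUnit_left (h2 ▸ hun f (h3 ▸ mul_ne_zero hz h1))
  have hS : ∀ z, y z = 0 → ∃ α β, z = (q : S) * α + T * β := fun z hz => by
    obtain ⟨f, σ, h1, h2⟩ := hsurj z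
    have h3 := congrArg y h2
    rw [map_mul, hy, hy, hz, zero_mul] at h3
    obtain ⟨α, β, h4⟩ := Ideal.mem_span_pair.1 (hsm f h3.symm)
    obtain ⟨v, hv⟩ := (hun (s * σ) (by rw [map_mul]; exact mul_ne_zero hs h1)).exists_right_inv
    have h5 := congrArg (algebraMap B S) h4
    rw [map_add, map_mul, map_mul, map_mul, map_natCast, ← hTd] at h5
    rw [map_mul] at hv
    refine ⟨algebraMap B S α * v, algebraMap B S β * v, ?_⟩
    linear_combination (-v) * h5 + algebraMap B S s * v * h2 - z * hv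
  have hqd : ∀ g, T ∣ (q : S) * g → T ∣ g := by
    rintro g ⟨k, hk⟩
    obtain ⟨g0, σ, h1, h2⟩ := hsurj g
    obtain ⟨k0, τ, h3, h4⟩ := hsurj k
    have h5 : (q : B) * (g0 * τ) = (Γ.t - (a : B)) * (k0 * σ) := by
      apply hinj
      rw [map_mul, map_mul, map_mul, map_mul, map_natCast, ← hTd, ← h2, ← h4]
      linear_combination algebraMap B S σ * algebraMap B S τ * hk
    have h6 := map_dvd (algebraMap B S) (t_dvd Γ a hq.ne_zero _ ⟨_, h5⟩)
    rw [← hTd, map_mul, ← h2, mul_assoc] at h6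
    exact ((hun σ h1).mul (hun τ h3)).dvd_mul_right.1 h6
  obtain ⟨f, g, h, ⟨i, hi⟩, hf⟩ := pigeon y T hS
    ((algebraMap B S).toAddMonoidHom.comp (Γ.elL m).toAddMonoidHom) hrc
  have hf' : algebraMap B S (Γ.el f) = (q : S) * g + T ^ r * h := hf
  obtain ⟨e₀, u, hu0, he₀, hi₀⟩ : ∃ (e₀ : Γ.Ix m → ℤ) (u : S), y u ≠ 0 ∧
      algebraMap B S (Γ.el e₀) = (q : S) * u + T ^ r * h ∧ ¬ (q : ℤ) ∣ e₀ i := by
    by_cases hg : y g = 0
    · refine ⟨f + (q : ℤ) • Pi.single (Γ.ixT 0 (Nat.zero_le m)) 1, g + 1, by simp [hg], ?_,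
        fun hd => hi ?_⟩
      · rw [Γ.el_add, Γ.el_smul, Γ.el_single, Γ.mon_ixT, map_add, hf']
        simp only [pow_zero, one_smul, zsmul_eq_mul, mul_one, Int.cast_natCast, map_natCast]
        ring
      · rw [Pi.add_apply, Pi.smul_apply, smul_eq_mul] at hd
        exact (dvd_add_left (dvd_mul_right _ _)).1 hd
    · exact ⟨f, g, hg, hf', hi⟩
  refine ⟨e₀, fun e he => ?_⟩
  choose k hk using fun i => (he i).symm.dvd
  have hek : e = e₀ + ((q : ℤ) ^ 2) • k := funext fun i => by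
    rw [Pi.add_apply, Pi.smul_apply, smul_eq_mul]
    linear_combination hk i
  have hne : (Γ.nrm (Γ.el e)).map (Int.castRingHom (ZMod q)) ≠ 0 := by
    refine nrm_ne Γ hp _ ?_
    rintro ⟨w, hw⟩
    have h1 := congrFun (Γ.co_el e) i
    rw [hw, ← Int.cast_natCast, ← zsmul_eq_mul, Γ.co_smul, Pi.smul_apply, smul_eq_mul] at h1
    refine hi₀ ⟨Γ.co m w i - q * k i, ?_⟩
    linear_combination -h1 - hk i
  refine ⟨hne, fun P₁ P₂ hP => ?_⟩
  have he' : algebraMap B S (Γ.el e) = (q : S) * (u + q * algebraMap B S (Γ.el k)) + T ^ r * h := by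
    rw [hek, Γ.el_add, Γ.el_smul, map_add, he₀, zsmul_eq_mul, map_mul, map_intCast]
    push_cast
    ring
  refine deg y T hT0 hT hu hqd (u := u + q * algebraMap B S (Γ.el k)) (h := h) (by simpa using hu0)
    hr ((algebraMap B S).comp (algebraMap ℤ[X] B)) a (by rw [RingHom.comp_apply, ← eT]) P₁ P₂
    (hP ▸ hne) ?_
  rw [← he', ← hP]
  exact map_dvd (algebraMap B S) (dvd_nrm Γ _)

end Pool.Agent.Lib.BK2
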