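import Pool.Agent.Lib.BK2.CBas

/-! CORE: assembly of the cross terms. -/

namespace Pool.Agent.Lib.BK2.Co

open Finset Classical

namespace FIN

theorem n1 {k a b u2 : ℝ} (hk0 : 0 < k)
    (hu : k / 4 * a ^ 2 + k / 4 * b ^ 2 - 2 * (k / 32 * a * b) ≤ u2) :
    k * a ^ 2 + k * b ^ 2 ≤ 5 * u2 := by
  nlinarith [mul_nonneg hk0.le (sq_nonneg (a - b)), mul_nonneg hk0.le (sq_nonneg a),
    mul_nonneg hk0.le (sq_nonneg b)]

theorem n2 {k K s m M F u2 : ℝ} (hk0 : 0 < k) (hFk : F * k = K ^ 4 * M) (h4 : m ^ 2 ≤ 3 * M)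
    (h5 : k * s ^ 2 ≤ 10 * u2) : 4 * K ^ 2 * s * m ≤ u2 / 4 + 480 * F := by
  refine le_of_mul_le_mul_right ?_ hk0
  have h6 := sq_nonneg (k * s - 80 * K ^ 2 * m)
  have h7 : K ^ 4 * m ^ 2 ≤ K ^ 4 * (3 * M) := mul_le_mul_of_nonneg_left h4 (by positivity)
  have h8 : k * (k * s ^ 2) ≤ k * (10 * u2) := mul_le_mul_of_nonneg_left h5 hk0.le
  linarith

theorem n3 {k K δ M F : ℝ} (hK : 1 ≤ K) (hk0 : 0 < k) (hkδ : k * δ ≤ 1 / 1000) (hM0 : 0 ≤ M)
    (hFk : F * k = K ^ 4 * M) : K ^ 2 * δ * M ≤ F / 1000 := by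
  refine le_of_mul_le_mul_right ?_ hk0
  have h3 : K ^ 2 * M ≤ K ^ 4 * M :=
    mul_le_mul_of_nonneg_right (pow_le_pow_right₀ hK (by norm_num)) hM0
  have h4 : K ^ 2 * M * (k * δ) ≤ K ^ 2 * M * (1 / 1000) :=
    mul_le_mul_of_nonneg_left hkδ (by positivity)
  linarith

theorem num {k K δ a b n n' u2 r2 d2 x : ℝ} (hK : 1 ≤ K) (hk : 100 * K ≤ k) (hδ0 : 0 < δ)
    (hkδ : k * δ ≤ 1 / 1000) (hδ1 : δ ≤ 1 / 100000)
    (hu : k / 4 * a ^ 2 + k / 4 * b ^ 2 - 2 * (k / 32 * a * b) ≤ u2)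
    (hx : x ≤ u2 / 4 + r2) (hu2 : u2 ≤ x + 4 * K ^ 2 * (a + b) * (n + n' + 1))
    (hr : r2 ≤ 5 * δ ^ 2 * (k * a ^ 2 + k * b ^ 2 + K ^ 2 * (n ^ 2 + n' ^ 2 + 1)))
    (hd : d2 ≤ 2 * u2 + 2 * r2) :
    d2 + 60 * (K ^ 2 * δ * (n ^ 2 + n' ^ 2 + 1)) ≤ 2500 * K ^ 4 / k * (n ^ 2 + n' ^ 2 + 1) := by
  have hk0 : 0 < k := by linarith
  have h0 : (n + n' + 1) ^ 2 ≤ 3 * (n ^ 2 + n' ^ 2 + 1) := by
    linarith [sq_nonneg (n - n'), sq_nonneg (n - 1), sq_nonneg (n' - 1)]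
  have hM0 : 0 ≤ n ^ 2 + n' ^ 2 + 1 := by positivity
  generalize n ^ 2 + n' ^ 2 + 1 = M at *
  have hF0 : 0 ≤ K ^ 4 / k * M := by positivity
  have hFk : K ^ 4 / k * M * k = K ^ 4 * M := by field_simp
  have h5 : 2500 * K ^ 4 / k * M = 2500 * (K ^ 4 / k * M) := by ring
  rw [h5]
  generalize K ^ 4 / k * M = F at *
  have h1 := n1 hk0 hu
  have h9 : 0 ≤ k * a ^ 2 + k * b ^ 2 := by positivity
  have h2 := n3 hK hk0 hkδ hM0 hFk
  have h3 := n2 (s := a + b) (u2 := u2) hk0 hFk h0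
    (by linarith [mul_nonneg hk0.le (sq_nonneg (a - b))])
  have h6 : δ ^ 2 * (k * a ^ 2 + k * b ^ 2) ≤ 1 / 10000 * (5 * u2) :=
    mul_le_mul (by nlinarith) h1 h9 (by norm_num)
  have h7 : δ * (K ^ 2 * δ * M) ≤ 1 * (F / 1000) :=
    mul_le_mul (by linarith) h2 (by positivity) zero_le_one
  linarith

end FIN

theorem stCORE (h0 : St_C0) (hQ1 : St_Q1) (hQ2 : St_Q2) (h1 : St_X1) (h2 : St_X2) (h3 : St_X3)
    (h4 : St_X4) (h5 : St_X5) (hR : St_RES) (hT1 : St_T1) (hT2 : St_T2) (hT3 : St_T3) :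
    St_CORE := by
  intro G W X C O O' _ _ _ _ _ _ _ _ D h KER hK
  obtain ⟨c, c', A, A', S, hk⟩ := h0 G W X C O O' D h KER hK
  refine ⟨A, A', hk, ?_⟩
  have q1 := hQ1 G W X C O O' D h c c' A A' S
  have q2 := hQ2 G W X C O O' D h c c' A A' S
  have x1 := abs_le.1 (h1 G W X C O O' D h c c' A A' S)
  have x2 := abs_le.1 (h2 G W X C O O' D h c c' A A' S)
  have x3 := abs_le.1 (h3 G W X C O O' D h c c' A A' S)
  have x4 := abs_le.1 (h4 G W X C O O' D h c c' A A' S)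
  have x5 := abs_le.1 (h5 G W X C O O' D h c c' A A' S)
  have r := hR G W X C O O' D h c c' A A' S
  have t1 := hT1 G W X C O O' D h A
  have t2 := abs_le.1 (hT2 G W X C O O' D h c c' A A' S)
  have t3 := hT3 G W X C O O' D h c c' A A' S
  set U : G → W → ℝ := fun e w => D.Af c e w - D.Bf c' e w with hU
  set R : G → W → ℝ := fun e w => D.Af c e w - D.Bf c' e w + D.del A A' e w with hRR
  have mono : ∀ {F F' : G → W → ℝ}, (∀ e w, F e w ≤ F' e w) →
      av (fun e => av fun w => D.om e w * F e w) ≤ av fun e => av fun w => D.om e w * F' e w :=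
    fun hF => av_le fun e => av_le fun w => mul_le_mul_of_nonneg_left (hF e w) (h.om_nn e w)
  have eU : D.ip U U = D.ip (D.Af c) (D.Af c) + D.ip (D.Bf c') (D.Bf c') -
      2 * D.ip (D.Bf c') (D.Af c) := by
    rw [hU, D.ip_sub, D.ip_sub', D.ip_sub', D.ip_comm (D.Af c) (D.Bf c')]; ring
  have eU2 : D.ip U U = D.ip U R - (D.ip (D.Af c) (fun e w => D.alp A e w - D.Phi e w) -
      D.ip (D.bet A') (D.Af c) - D.ip (D.Bf c') (D.alp A) +
      D.ip (D.Bf c') fun e w => D.bet A' e w + D.Phi e w) := by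
    simp only [CD.ip, ← av_sub, ← av_add]
    refine congrArg av (funext fun e => congrArg av (funext fun w => ?_))
    simp only [hU, hRR, CD.del]; ring
  have ex : D.ip U R ≤ D.ip U U / 4 + D.ip R R := by
    have : D.ip U U / 4 + D.ip R R =
        av fun e => av fun w => D.om e w * (U e w * U e w / 4 + R e w * R e w) := by
      simp only [CD.ip, div_eq_mul_inv, ← av_mul', ← av_add]
      exact congrArg av (funext fun e => congrArg av (funext fun w => by ring))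
    rw [this]
    exact mono fun e w => by nlinarith [sq_nonneg (U e w / 2 - R e w)]
  have ed : D.ip (D.del A A') (D.del A A') ≤ 2 * D.ip U U + 2 * D.ip R R := by
    have : 2 * D.ip U U + 2 * D.ip R R =
        av fun e => av fun w => D.om e w * (2 * (U e w * U e w) + 2 * (R e w * R e w)) := by
      simp only [CD.ip, mul_add, mul_left_comm _ (2 : ℝ), av_add, av_mul]
    rw [this]
    refine mono fun e w => ?_
    have : D.del A A' e w = R e w - U e w := by simp only [hU, hRR]; ring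
    rw [this]; nlinarith [sq_nonneg (U e w + R e w)]
  have key := FIN.num (u2 := D.ip U U) (r2 := D.ip R R) (x := D.ip U R) h.K1 h.hk h.δ0 h.kδ
    h.δ_le (by rw [eU]; linarith [x1.2]) ex (by linarith [x2.2, x3.1, x4.1, x5.2]) r ed
  have eT : av (fun e => av fun w => D.del A A' e w ^ 2) = D.ip (D.del A A') (D.del A A') +
      (av (fun e => av fun w => (1 - D.om e w) * (D.alp A e w - D.Phi e w) ^ 2) -
      2 * (av fun e => av fun w => (1 - D.om e w) * (D.alp A e w * D.bet A' e w)) +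
      av fun e => av fun w =>
        (1 - D.om e w) * (D.bet A' e w ^ 2 + 2 * D.Phi e w * D.bet A' e w)) := by
    simp only [CD.ip, ← av_mul, ← av_sub, ← av_add]
    refine congrArg av (funext fun e => congrArg av (funext fun w => ?_))
    simp only [CD.del]; ring
  have hp : 0 ≤ D.K ^ 2 * D.δ := mul_nonneg (sq_nonneg _) h.δ0.le
  have fin : av (fun e => av fun w => D.del A A' e w ^ 2) ≤
      2500 * D.K ^ 4 / D.k * (nA A ^ 2 + nA A' ^ 2 + 1) := by
    refine le_trans ?_ key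
    rw [eT]; linarith [t2.1]
  have hG : (0 : ℝ) < Fintype.card G := by exact_mod_cast Fintype.card_pos
  have hW : (0 : ℝ) < Fintype.card W := by exact_mod_cast Fintype.card_pos
  have e1 : ∑ w ∈ D.Wa, ∑ j, A' w j ^ 2 = ∑ w, ∑ j, A' w j ^ 2 :=
    sum_subset (subset_univ _) fun w _ hw => by simp [S.A'0 w hw]
  calc ∑ e, ∑ w ∈ D.Wa, D.del A A' e w ^ 2 ≤ ∑ e, ∑ w, D.del A A' e w ^ 2 :=
        sum_le_sum fun e _ => sum_le_sum_of_subset_of_nonneg (subset_univ _)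
          fun _ _ _ => sq_nonneg _
    _ = Fintype.card G * Fintype.card W * av fun e => av fun w => D.del A A' e w ^ 2 := by
        rw [mul_assoc, ← av_mul, card_mul_av]; simp only [card_mul_av]
    _ ≤ Fintype.card G * Fintype.card W *
        (2500 * D.K ^ 4 / D.k * (nA A ^ 2 + nA A' ^ 2 + 1)) := by gcongr
    _ = _ := by
        rw [e1, nA_sq, nA_sq, av, av]; field_simp

end Pool.Agent.Lib.BK2.Co
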