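import Pool.Agent.Lib.BK2.Stmt

noncomputable section

namespace Pool.Agent.Lib.BK2

/-- Dual form of the main statement. -/
def St_DUALFORM : Prop :=
  ∀ (L : Type) [Field L] [Algebra ℚ L] (n : ℕ) (y : Fin (n + 1) → L), IsCurve y →
    ∀ ω, RegForm y ω → ∀ (ι : Type) [Fintype ι] (γ : ι → Loop y) (a : ι → ℝ),
      (∀ s : List (Lˣ × Lˣ), Integral s → (∀ l, Avoids s (γ l)) → ∑ l, a l * reg s (γ l) = 0) →
      ∑ l, a l * (period ω (γ l)).im = 0

theorem stBK2_of (h : St_DUALFORM) : StBK2 := by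
  intro L _ _ n y hy ω hω ι _ γ
  classical
  by_contra hn
  obtain ⟨f, hf, hf0⟩ := Submodule.exists_dual_map_eq_bot_of_notMem hn inferInstance
  have hfa : ∀ v : ι → ℝ, f v = ∑ l, f (Pi.single l 1) * v l := by
    intro v
    conv_lhs => rw [show v = ∑ l, v l • (Pi.single l (1 : ℝ) : ι → ℝ) from by
      funext j; simp [Finset.sum_apply, Pi.single_apply]]
    rw [map_sum]
    exact Finset.sum_congr rfl fun l _ => by rw [map_smul, smul_eq_mul, mul_comm]
  apply hf
  rw [hfa]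
  refine h L n y hy ω hω ι γ _ fun s hs ha => ?_
  rw [← hfa (fun l => reg s (γ l))]
  have : f (fun l => reg s (γ l)) ∈ Submodule.map f (Submodule.span ℝ
      {r : ι → ℝ | ∃ s : List (Lˣ × Lˣ), Integral s ∧ (∀ l, Avoids s (γ l)) ∧
        r = fun l => reg s (γ l)}) :=
    Submodule.mem_map_of_mem (Submodule.subset_span ⟨s, hs, ha, rfl⟩)
  rw [hf0] at this
  simpa using this

end Pool.Agent.Lib.BK2
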