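import Pool.Agent.Lib.BK2.GDefs

/-! Points of the plane model away from `Δ = 0` lift to homomorphisms. -/

open Polynomial

namespace Pool.Agent.Lib.BK2

theorem stHOM : St_HOM := fun B _ _ _ _ _ Γ π R _ τ y h0 h1 => by
  let φ : ℤ[X][X] →+* R := (evalEvalRingHom τ y).comp (mapRingHom (mapRingHom (Int.castRingHom R)))
  have hφ : ∀ g g', aeval π.u g = aeval π.u g' → φ g = φ g' := fun g g' e => by
    obtain ⟨v, hv⟩ := (π.dvd (g - g')).1 (by rw [map_sub, e, sub_self])
    rw [← sub_eq_zero, ← map_sub, hv, map_mul, show φ π.F = 0 from h0, zero_mul]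
  have hΔ : φ (C π.Δ) ≠ 0 := by
    rw [aeval_def, eval₂_eq_eval_map] at h1
    simpa [φ, evalEval_C] using h1
  choose g hg using π.gen
  have key : ∀ b u, aeval π.u u = b → φ (g b) / φ (C π.Δ) = φ u := fun b u e => by
    rw [div_eq_iff hΔ, ← map_mul]
    exact hφ _ _ (by rw [← hg, map_mul, e, aeval_C, mul_comm])
  refine ⟨{ toFun := fun b => φ (g b) / φ (C π.Δ)
            map_one' := (key 1 1 (map_one _)).trans (map_one _)
            map_zero' := (key 0 0 (map_zero _)).trans (map_zero _)
            map_mul' := fun a b => ?_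
            map_add' := fun a b => ?_ }, (key _ (C X) (aeval_C _ _)).trans ?_,
    (key _ X (aeval_X _)).trans ?_⟩
  · rw [div_mul_div_comm, div_eq_div_iff hΔ (mul_ne_zero hΔ hΔ)]
    simp only [← map_mul]
    exact hφ _ _ (by simp only [map_mul, ← hg, aeval_C]; ring)
  · rw [← add_div, ← map_add]
    exact congrArg (· / _) (hφ _ _ (by rw [map_add, ← hg, ← hg, ← hg, mul_add]))
  · simp [φ]
  · simp [φ]

end Pool.Agent.Lib.BK2
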