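import Pool.Agent.Lib.BK2.Blue1

open Polynomial

noncomputable section

namespace Pool.Agent.Lib.BK2

namespace NRM

section Deg

variable {R : Type} [CommRing R]

theorem deg_sum {ι : Type} (s : Finset ι) (f : ι → R[X]) (u v : WithBot ℕ)
    (h : ∀ i ∈ s, (f i).degree + u ≤ v) : (∑ i ∈ s, f i).degree + u ≤ v := by
  classical
  induction s using Finset.induction_on with
  | empty => simp
  | insert a s ha ih =>
    rw [Finset.sum_insert ha]
    have h1 := h a (Finset.mem_insert_self _ _)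
    have h2 := ih fun i hi => h i (Finset.mem_insert_of_mem hi)
    have h3 := degree_add_le (f a) (∑ i ∈ s, f i)
    rcases le_total (f a).degree (∑ i ∈ s, f i).degree with h4 | h4
    · rw [max_eq_right h4] at h3
      exact (add_le_add_left h3 u).trans h2
    · rw [max_eq_left h4] at h3
      exact (add_le_add_left h3 u).trans h1

theorem deg_prod {ι : Type} (s : Finset ι) (f : ι → R[X]) (u v : ι → ℕ)
    (h : ∀ i ∈ s, (f i).degree + (u i : WithBot ℕ) ≤ (v i : WithBot ℕ)) :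
    (∏ i ∈ s, f i).degree + ((∑ i ∈ s, u i : ℕ) : WithBot ℕ) ≤ ((∑ i ∈ s, v i : ℕ) : WithBot ℕ) := by
  classical
  induction s using Finset.induction_on with
  | empty => simpa using degree_one_le
  | insert a s ha ih =>
    rw [Finset.prod_insert ha, Finset.sum_insert ha, Finset.sum_insert ha]
    have h1 := h a (Finset.mem_insert_self _ _)
    have h2 := ih fun i hi => h i (Finset.mem_insert_of_mem hi)
    have h3 := degree_mul_le (f a) (∏ i ∈ s, f i)
    rw [Nat.cast_add, Nat.cast_add]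
    calc (f a * ∏ i ∈ s, f i).degree + ((u a : WithBot ℕ) + ((∑ i ∈ s, u i : ℕ) : WithBot ℕ))
        ≤ ((f a).degree + (∏ i ∈ s, f i).degree) +
          ((u a : WithBot ℕ) + ((∑ i ∈ s, u i : ℕ) : WithBot ℕ)) := add_le_add_left h3 _
      _ = ((f a).degree + u a) + ((∏ i ∈ s, f i).degree + ((∑ i ∈ s, u i : ℕ) : WithBot ℕ)) := by
          abel
      _ ≤ _ := add_le_add h1 h2

theorem deg_det {d : ℕ} (A : Matrix (Fin d) (Fin d) R[X]) (u v : Fin d → ℕ)
    (h : ∀ l j, (A l j).degree + (u l : WithBot ℕ) ≤ (v j : WithBot ℕ)) :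
    A.det.degree + ((∑ l, u l : ℕ) : WithBot ℕ) ≤ ((∑ j, v j : ℕ) : WithBot ℕ) := by
  rw [Matrix.det_apply]
  refine deg_sum _ _ _ _ fun σ _ => ?_
  have h1 := deg_prod Finset.univ (fun i => A (σ i) i) (fun i => u (σ i)) v fun i _ => h _ _
  rw [Equiv.sum_comp σ u] at h1
  refine le_trans (add_le_add_left ?_ _) h1
  rcases Int.units_eq_one_or (Equiv.Perm.sign σ) with h2 | h2 <;> simp [h2]

theorem nat_of_deg {p : R[X]} {u v : ℕ} (h : p.degree + (u : WithBot ℕ) ≤ (v : WithBot ℕ)) :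
    p = 0 ∨ p.natDegree + u ≤ v := by
  by_cases hp : p = 0
  · exact Or.inl hp
  · right
    rw [degree_eq_natDegree hp, ← Nat.cast_add] at h
    exact_mod_cast h

theorem deg_of_nat {p : R[X]} {u v : ℕ} (h : p = 0 ∨ p.natDegree + u ≤ v) :
    p.degree + (u : WithBot ℕ) ≤ (v : WithBot ℕ) := by
  by_cases hp : p = 0
  · simp [hp]
  · rw [degree_eq_natDegree hp, ← Nat.cast_add]
    exact_mod_cast h.resolve_left hp

/-- Weighted degree bound for the entries of a matrix. -/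
def Dg {d : ℕ} (δ : Fin d → ℕ) (m : ℕ) (A : Matrix (Fin d) (Fin d) R[X]) : Prop :=
  ∀ l j, (A l j).degree + (δ l : WithBot ℕ) ≤ ((m + δ j : ℕ) : WithBot ℕ)

theorem Dg.det {d : ℕ} {δ : Fin d → ℕ} {m : ℕ} {A : Matrix (Fin d) (Fin d) R[X]} (h : Dg δ m A) :
    A.det.natDegree ≤ m * d := by
  have h1 := deg_det A δ (fun j => m + δ j) h
  rcases nat_of_deg h1 with h2 | h2
  · simp [h2]
  · rw [Finset.sum_add_distrib] at h2
    simp only [Finset.sum_const, Finset.card_univ, Fintype.card_fin, smul_eq_mul] at h2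
    rw [mul_comm]
    omega

theorem Dg.adj {d : ℕ} {δ : Fin d → ℕ} {m : ℕ} {A : Matrix (Fin d) (Fin d) R[X]} (h : Dg δ m A)
    (i j : Fin d) : A.adjugate i j = 0 ∨ (A.adjugate i j).natDegree + δ i + m ≤ m * d + δ j := by
  rw [Matrix.adjugate_apply]
  have h1 := deg_det (A.updateRow j (Pi.single i 1)) (Function.update δ j (m + δ i))
    (fun j => m + δ j) (by
      intro l k
      by_cases hl : l = j
      · subst hl
        rw [Matrix.updateRow_self, Function.update_self]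
        by_cases hk : k = i
        · subst hk
          rw [Pi.single_eq_same]
          refine le_trans (add_le_add_left degree_one_le _) ?_
          simp
        · rw [Pi.single_eq_of_ne hk]
          simp
      · rw [Matrix.updateRow_ne hl, Function.update_of_ne hl]
        exact h l k)
  rcases nat_of_deg h1 with h2 | h2
  · exact Or.inl h2
  · right
    rw [Finset.sum_add_distrib, Finset.sum_update_of_mem (Finset.mem_univ j),
      ← Finset.add_sum_erase _ δ (Finset.mem_univ j), Finset.sdiff_singleton_eq_erase] at h2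
    simp only [Finset.sum_const, Finset.card_univ, Fintype.card_fin, smul_eq_mul] at h2
    rw [mul_comm m d]
    omega

end Deg

variable {B : Type} [CommRing B] [Algebra ℤ[X] B] {d : ℕ} [NeZero d] (Γ : Geo B d)

theorem dg_left {m : ℕ} {f : B} (hf : f ∈ Γ.V m) : Dg Γ.δ m (Algebra.leftMulMatrix Γ.b f) := by
  intro l j
  rw [Algebra.leftMulMatrix_eq_repr_mul]
  have h1 : f * Γ.b j = ∑ i, Γ.b.repr f i • (Γ.b i * Γ.b j) := by
    conv_lhs => rw [← Γ.b.sum_repr f]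
    rw [Finset.sum_mul]
    exact Finset.sum_congr rfl fun i _ => smul_mul_assoc _ _ _
  rw [h1, map_sum, Finsupp.finset_sum_apply]
  refine deg_sum _ _ _ _ fun i _ => ?_
  rw [map_smul, Finsupp.smul_apply, smul_eq_mul]
  have h2 := Γ.mul_deg i j l
  have h3 := hf i
  rw [Nat.cast_add] at h2 ⊢
  calc (Γ.b.repr f i * Γ.b.repr (Γ.b i * Γ.b j) l).degree + (Γ.δ l : WithBot ℕ)
      ≤ ((Γ.b.repr f i).degree + (Γ.b.repr (Γ.b i * Γ.b j) l).degree) + (Γ.δ l : WithBot ℕ) :=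
        add_le_add_left (degree_mul_le _ _) _
    _ = (Γ.b.repr f i).degree + ((Γ.b.repr (Γ.b i * Γ.b j) l).degree + (Γ.δ l : WithBot ℕ)) :=
        add_assoc _ _ _
    _ ≤ (Γ.b.repr f i).degree + ((Γ.δ i : WithBot ℕ) + (Γ.δ j : WithBot ℕ)) := add_le_add_right h2 _
    _ = ((Γ.b.repr f i).degree + (Γ.δ i : WithBot ℕ)) + (Γ.δ j : WithBot ℕ) := (add_assoc _ _ _).symm
    _ ≤ _ := add_le_add_left h3 _

theorem mon_eq {m : ℕ} (i : Γ.Ix m) : Γ.mon i = (X ^ (i.2 : ℕ) : ℤ[X]) • Γ.b i.1 := by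
  rw [Geo.mon, Geo.t, Algebra.smul_def, map_pow]

theorem mon_mem {m : ℕ} (i : Γ.Ix m) : Γ.mon i ∈ Γ.V m := by
  intro l
  rw [mon_eq, map_smul, Finsupp.smul_apply, Γ.b.repr_self, smul_eq_mul]
  refine deg_of_nat ?_
  by_cases h : i.1 = l
  · right
    rw [← h, Finsupp.single_eq_same, mul_one, natDegree_X_pow]
    have := i.2.2
    omega
  · left
    rw [Finsupp.single_eq_of_ne' h, mul_zero]

/-- The multiplication matrix of a real vector. -/
def mat {m : ℕ} (e : Γ.Ix m → ℝ) : Matrix (Fin d) (Fin d) ℝ[X] :=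
  ∑ i, (C (e i) : ℝ[X]) •
    (Algebra.leftMulMatrix Γ.b (Γ.mon i)).map (Polynomial.map (Int.castRingHom ℝ))

theorem nrmR_eq {m : ℕ} (e : Γ.Ix m → ℝ) : Γ.nrmR e = (mat Γ e).det := rfl

theorem mat_apply {m : ℕ} (e : Γ.Ix m → ℝ) (l j : Fin d) : mat Γ e l j =
    ∑ i, C (e i) * (Algebra.leftMulMatrix Γ.b (Γ.mon i) l j).map (Int.castRingHom ℝ) := by
  simp [mat, Matrix.sum_apply]

theorem dg_mat {m : ℕ} (e : Γ.Ix m → ℝ) : Dg Γ.δ m (mat Γ e) := by
  intro l j
  rw [mat_apply]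
  refine deg_sum _ _ _ _ fun i _ => le_trans (add_le_add_left ?_ _) (dg_left Γ (mon_mem Γ i) l j)
  refine (degree_mul_le _ _).trans ?_
  refine le_trans (add_le_add degree_C_le degree_map_le) ?_
  simp

theorem nrm_eq (f : B) : Γ.nrm f = (Algebra.leftMulMatrix Γ.b f).det :=
  Algebra.norm_eq_matrix_det Γ.b f

theorem mul_b (f : B) (j : Fin d) :
    f * Γ.b j = ∑ l, Algebra.leftMulMatrix Γ.b f l j • Γ.b l := by
  conv_lhs => rw [← Γ.b.sum_repr (f * Γ.b j)]
  exact Finset.sum_congr rfl fun l _ => by rw [Algebra.leftMulMatrix_eq_repr_mul]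

theorem c1 {m : ℕ} {f : B} (hf : f ∈ Γ.V m) : (Γ.nrm f).natDegree ≤ m * d ∧
    ∃ g ∈ Γ.V (m * d - m), f * g = algebraMap ℤ[X] B (Γ.nrm f) := by
  have hD := dg_left Γ hf
  refine ⟨nrm_eq Γ f ▸ hD.det, ∑ j, (Algebra.leftMulMatrix Γ.b f).adjugate j 0 • Γ.b j, ?_, ?_⟩
  · intro l
    rw [Γ.b.repr_sum_self]
    refine deg_of_nat ?_
    rcases hD.adj l 0 with h | h
    · exact Or.inl h
    · right
      rw [Γ.δ0] at h
      omega
  · rw [Finset.mul_sum]
    simp only [mul_smul_comm, mul_b, Finset.smul_sum, smul_smul]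
    rw [Finset.sum_comm]
    have h1 : ∀ l, ∑ j, ((Algebra.leftMulMatrix Γ.b f).adjugate j 0 *
        Algebra.leftMulMatrix Γ.b f l j) • Γ.b l =
        ((Algebra.leftMulMatrix Γ.b f).det • (1 : Matrix (Fin d) (Fin d) ℤ[X])) l 0 • Γ.b l := by
      intro l
      rw [← Matrix.mul_adjugate, Matrix.mul_apply, Finset.sum_smul]
      exact Finset.sum_congr rfl fun j _ => by rw [mul_comm]
    rw [Finset.sum_congr rfl fun l _ => h1 l, Finset.sum_eq_single (0 : Fin d)]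
    · simp [Γ.b0, nrm_eq, Algebra.smul_def]
    · intro l _ hl
      simp [Matrix.one_apply_ne hl]
    · simp

theorem c2 {m : ℕ} (e : Γ.Ix m → ℤ) :
    Γ.nrmR (fun i => (e i : ℝ)) = (Γ.nrm (Γ.el e)).map (Int.castRingHom ℝ) := by
  rw [nrmR_eq, nrm_eq, ← coe_mapRingHom, RingHom.map_det]
  refine congrArg Matrix.det ?_
  ext1 l j
  rw [mat_apply, Geo.el, map_sum]
  simp only [map_zsmul, RingHom.mapMatrix_apply, Matrix.map_apply, Matrix.sum_apply,
    Matrix.smul_apply, map_sum, coe_mapRingHom]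
  exact Finset.sum_congr rfl fun i _ => by simp

theorem c3 {m : ℕ} (c : ℝ) (e : Γ.Ix m → ℝ) : Γ.nrmR (c • e) = C (c ^ d) * Γ.nrmR e := by
  have h : mat Γ (c • e) = (C c : ℝ[X]) • mat Γ e := by
    ext1 l j
    rw [Matrix.smul_apply, mat_apply, mat_apply, smul_eq_mul, Finset.mul_sum]
    exact Finset.sum_congr rfl fun i _ => by simp [mul_assoc]
  rw [nrmR_eq, nrmR_eq, h, Matrix.det_smul, Fintype.card_fin, C_pow]

theorem c4 {m : ℕ} (H : ℝ) (e : Γ.Ix m → ℤ) (hH : H ≠ 0) :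
    Γ.lc (scl H e) * H ^ d = ((Γ.nrm (Γ.el e)).coeff (m * d) : ℝ) := by
  have h : scl H e = H⁻¹ • fun i => (e i : ℝ) := by
    funext i
    simp [scl, div_eq_inv_mul]
  rw [Geo.lc, h, c3, c2, coeff_C_mul, coeff_map]
  simp only [eq_intCast, inv_pow]
  field_simp

section Sm

variable {E : Type} [NormedAddCommGroup E] [NormedSpace ℝ E]

/-- All coefficients are smooth functions. -/
def Sm (P : E → ℝ[X]) : Prop := ∀ j, ContDiff ℝ 1 fun e => (P e).coeff j

theorem Sm.const (p : ℝ[X]) : Sm fun _ : E => p := fun _ => contDiff_const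

theorem Sm.mul {P Q : E → ℝ[X]} (hP : Sm P) (hQ : Sm Q) : Sm fun e => P e * Q e := by
  intro j
  simp only [coeff_mul]
  exact ContDiff.sum fun x _ => (hP _).mul (hQ _)

theorem Sm.sum {ι : Type} (s : Finset ι) {P : ι → E → ℝ[X]} (h : ∀ i ∈ s, Sm (P i)) :
    Sm fun e => ∑ i ∈ s, P i e := by
  intro j
  simp only [finset_sum_coeff]
  exact ContDiff.sum fun i hi => h i hi j

theorem Sm.prod {ι : Type} (s : Finset ι) {P : ι → E → ℝ[X]} (h : ∀ i ∈ s, Sm (P i)) :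
    Sm fun e => ∏ i ∈ s, P i e := by
  classical
  induction s using Finset.induction_on with
  | empty => simpa using Sm.const (1 : ℝ[X])
  | insert a s ha ih =>
    simp only [Finset.prod_insert ha]
    exact (h a (Finset.mem_insert_self _ _)).mul
      (ih fun i hi => h i (Finset.mem_insert_of_mem hi))

theorem Sm.ofC {c : E → ℝ} (h : ContDiff ℝ 1 c) : Sm fun e => C (c e) := by
  intro j
  simp only [coeff_C]
  split_ifs
  · exact h
  · exact contDiff_const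

end Sm

theorem c5 (m j : ℕ) : ContDiff ℝ 1 fun e : Γ.Ix m → ℝ => (Γ.nrmR e).coeff j := by
  have h : Sm fun e : Γ.Ix m → ℝ => Γ.nrmR e := by
    simp only [nrmR_eq, Matrix.det_apply', mat_apply]
    refine Sm.sum _ fun σ _ => (Sm.const _).mul (Sm.prod _ fun k _ => Sm.sum _ fun i _ => ?_)
    exact (Sm.ofC (contDiff_apply ℝ ℝ i)).mul (Sm.const _)
  exact h j

theorem hom_alg {S : Type} [CommRing S] (φ : B →+* S) (p : ℤ[X]) :
    φ (algebraMap ℤ[X] B p) = aeval (φ Γ.t) p := by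
  have h : φ.comp (algebraMap ℤ[X] B) = (aeval (φ Γ.t) : ℤ[X] →ₐ[ℤ] S).toRingHom := by
    refine Polynomial.ringHom_ext' (RingHom.ext_int _ _) ?_
    simp [Geo.t]
  exact congrArg (fun F : ℤ[X] →+* S => F p) h

theorem aeval_map (z : ℂ) (p : ℤ[X]) : aeval z (p.map (Int.castRingHom ℝ)) = aeval z p :=
  aeval_map_algebraMap ℝ z p

theorem ev_mul_b {m : ℕ} (φ : B →+* ℂ) (e : Γ.Ix m → ℝ) (j : Fin d) :
    Γ.ev φ e * φ (Γ.b j) = ∑ l, aeval (φ Γ.t) (mat Γ e l j) * φ (Γ.b l) := by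
  simp only [Geo.ev, mat_apply, map_sum, Finset.sum_mul, map_mul, aeval_C, aeval_map]
  rw [Finset.sum_comm]
  refine Finset.sum_congr rfl fun i _ => ?_
  rw [mul_assoc, ← map_mul, mul_b, map_sum, Finset.mul_sum]
  refine Finset.sum_congr rfl fun l _ => ?_
  rw [Algebra.smul_def, map_mul, hom_alg Γ, mul_assoc]
  rfl

theorem c6 {m : ℕ} (e : Γ.Ix m → ℝ) : (Γ.nrmR e).natDegree ≤ m * d ∧
    ∃ g : Γ.Ix (m * d - m) → ℝ, ∀ φ : B →+* ℂ, Γ.ev φ e * Γ.ev φ g = aeval (φ Γ.t) (Γ.nrmR e) := by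
  have hD := dg_mat Γ e
  refine ⟨hD.det, fun k => ((mat Γ e).adjugate k.1 0).coeff k.2, fun φ => ?_⟩
  have h1 : Γ.ev φ (fun k : Γ.Ix (m * d - m) => ((mat Γ e).adjugate k.1 0).coeff k.2) =
      ∑ j, aeval (φ Γ.t) ((mat Γ e).adjugate j 0) * φ (Γ.b j) := by
    rw [Geo.ev, Fintype.sum_sigma]
    refine Finset.sum_congr rfl fun j _ => ?_
    simp only [Geo.mon, map_mul, map_pow, ← mul_assoc]
    rw [← Finset.sum_mul]
    refine congrArg (· * φ (Γ.b j)) ?_
    rcases hD.adj j 0 with h | h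
    · simp [h]
    · rw [Γ.δ0] at h
      rw [aeval_eq_sum_range' (n := m * d - m + 1 - Γ.δ j) (by omega),
        Finset.sum_range fun a => ((mat Γ e).adjugate j 0).coeff a • φ Γ.t ^ a]
      exact Finset.sum_congr rfl fun a _ => by simp
  rw [h1, Finset.mul_sum]
  have h2 : ∀ j, Γ.ev φ e * (aeval (φ Γ.t) ((mat Γ e).adjugate j 0) * φ (Γ.b j)) =
      ∑ l, aeval (φ Γ.t) (mat Γ e l j * (mat Γ e).adjugate j 0) * φ (Γ.b l) := by
    intro j
    rw [mul_left_comm, ev_mul_b, Finset.mul_sum]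
    exact Finset.sum_congr rfl fun l _ => by rw [map_mul]; ring
  rw [Finset.sum_congr rfl fun j _ => h2 j, Finset.sum_comm]
  have h3 : ∀ l, ∑ j, aeval (φ Γ.t) (mat Γ e l j * (mat Γ e).adjugate j 0) * φ (Γ.b l) =
      aeval (φ Γ.t) (((mat Γ e).det • (1 : Matrix (Fin d) (Fin d) ℝ[X])) l 0) * φ (Γ.b l) := by
    intro l
    rw [← Matrix.mul_adjugate, Matrix.mul_apply, map_sum, Finset.sum_mul]
  rw [Finset.sum_congr rfl fun l _ => h3 l, Finset.sum_eq_single (0 : Fin d)]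
  · simp [Γ.b0, nrmR_eq]
  · intro l _ hl
    simp [Matrix.one_apply_ne hl]
  · simp

/-- A commutative ring mapping to complex matrices has a character killing a singular element. -/
theorem exists_char {T : Type} [CommRing T] [Algebra ℂ T] {d : ℕ}
    (θ : T →ₐ[ℂ] Matrix (Fin d) (Fin d) ℂ) (E : T) (hE : (θ E).det = 0) :
    ∃ χ : T →ₐ[ℂ] ℂ, χ E = 0 ∧ ∀ x, θ x = 0 → χ x = 0 := by
  have hI : RingHom.ker θ ⊔ Ideal.span {E} ≠ ⊤ := by
    intro h
    have h1 : (1 : T) ∈ RingHom.ker θ ⊔ Ideal.span {E} := h ▸ Submodule.mem_top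
    obtain ⟨k, hk, s, hs, h2⟩ := Submodule.mem_sup.1 h1
    obtain ⟨r, rfl⟩ := Ideal.mem_span_singleton'.1 hs
    have h3 := congrArg (fun x => (θ x).det) h2
    simp only [map_add, map_mul, map_one, RingHom.mem_ker.1 hk, zero_add, Matrix.det_mul, hE,
      Matrix.det_one] at h3
    simp at h3
  obtain ⟨M, hM, hle⟩ := Ideal.exists_le_maximal _ hI
  letI : Field (T ⧸ M) := Ideal.Quotient.field M
  haveI : Algebra.IsIntegral ℂ (T ⧸ M) := ⟨fun x => by
    obtain ⟨y, rfl⟩ := Ideal.Quotient.mk_surjective x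
    refine ⟨(θ y).charpoly, Matrix.charpoly_monic _, ?_⟩
    rw [← aeval_def]
    have h1 : aeval y (θ y).charpoly ∈ M := by
      refine hle (Ideal.mem_sup_left ?_)
      rw [RingHom.mem_ker, ← aeval_algHom_apply]
      exact Matrix.aeval_self_charpoly _
    have h2 := aeval_algHom_apply (Ideal.Quotient.mkₐ ℂ M) y (θ y).charpoly
    rw [Ideal.Quotient.mkₐ_eq_mk] at h2
    rw [h2]
    exact Ideal.Quotient.eq_zero_iff_mem.2 h1⟩
  have hb : Function.Bijective (algebraMap ℂ (T ⧸ M)) :=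
    IsAlgClosed.algebraMap_bijective_of_isIntegral
  let ε : ℂ ≃ₐ[ℂ] (T ⧸ M) := AlgEquiv.ofBijective (Algebra.ofId ℂ (T ⧸ M)) hb
  refine ⟨(ε.symm : (T ⧸ M) →ₐ[ℂ] ℂ).comp (Ideal.Quotient.mkₐ ℂ M), ?_, fun x hx => ?_⟩
  · have h1 : E ∈ M := hle (Ideal.mem_sup_right (Ideal.mem_span_singleton_self E))
    simp [Ideal.Quotient.eq_zero_iff_mem.2 h1]
  · have h1 : x ∈ M := hle (Ideal.mem_sup_left (RingHom.mem_ker.2 hx))
    simp [Ideal.Quotient.eq_zero_iff_mem.2 h1]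

open TensorProduct in
theorem c7 {m : ℕ} (e : Γ.Ix m → ℝ) (z : ℂ) (hz : aeval z (Γ.nrmR e) = 0) :
    ∃ φ : B →+* ℂ, φ Γ.t = z ∧ Γ.ev φ e = 0 := by
  let Lz : B →+* Matrix (Fin d) (Fin d) ℂ :=
    ((aeval z : ℤ[X] →ₐ[ℤ] ℂ).toRingHom.mapMatrix).comp (Algebra.leftMulMatrix Γ.b).toRingHom
  have hL : ∀ f l j, Lz f l j = aeval z (Algebra.leftMulMatrix Γ.b f l j) := fun f l j => rfl
  let θ : ℂ ⊗[ℤ] B →ₐ[ℂ] Matrix (Fin d) (Fin d) ℂ :=
    Algebra.TensorProduct.lift (Algebra.ofId ℂ _) Lz.toIntAlgHom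
      fun x y => Algebra.commutes x _
  have hθ : ∀ (c : ℂ) (f : B), θ (c ⊗ₜ f) = c • Lz f := by
    intro c f
    simp [θ, Algebra.ofId_apply, Algebra.smul_def]
  obtain ⟨χ, h1, h2⟩ := exists_char θ (∑ i, (e i : ℂ) ⊗ₜ Γ.mon i) (by
    rw [← hz, nrmR_eq, AlgHom.map_det]
    refine congrArg Matrix.det ?_
    ext l j
    simp only [map_sum, hθ, Matrix.sum_apply, Matrix.smul_apply, hL, AlgHom.mapMatrix_apply,
      Matrix.map_apply, mat_apply, map_mul, aeval_C, aeval_map, smul_eq_mul]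
    rfl)
  have h3 : ∀ (c : ℂ) (f : B), χ (c ⊗ₜ f) = c * χ (1 ⊗ₜ f) := by
    intro c f
    rw [← smul_eq_mul, ← map_smul, TensorProduct.smul_tmul', smul_eq_mul, mul_one]
  refine ⟨χ.toRingHom.comp (Algebra.TensorProduct.includeRight (R := ℤ) (A := ℂ)).toRingHom,
    ?_, ?_⟩
  · have h4 := h2 (1 ⊗ₜ Γ.t - z ⊗ₜ 1) (by
      rw [map_sub, hθ, hθ, map_one, one_smul, sub_eq_zero]
      ext l j
      rw [hL, Geo.t, AlgHom.commutes, Matrix.algebraMap_matrix_apply]
      by_cases h : l = j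
      · simp [h]
      · simp [h, Matrix.one_apply_ne h])
    rw [map_sub, h3 z, ← Algebra.TensorProduct.one_def, map_one, mul_one, sub_eq_zero] at h4
    exact h4
  · rw [map_sum] at h1
    rw [← h1, Geo.ev]
    exact Finset.sum_congr rfl fun i _ => by rw [h3]; rfl

theorem dvd_iff (q : ℕ) (f : B) :
    (q : B) ∣ f ↔ ∀ l, (Γ.b.repr f l).map (Int.castRingHom (ZMod q)) = 0 := by
  constructor
  · rintro ⟨g, rfl⟩ l
    rw [← nsmul_eq_mul, map_nsmul, Finsupp.smul_apply, nsmul_eq_mul, Polynomial.map_mul,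
      Polynomial.map_natCast, ← C_eq_natCast, ZMod.natCast_self, C_0, zero_mul]
  · intro h
    rw [← Γ.b.sum_repr f]
    refine Finset.dvd_sum fun l _ => ?_
    have h1 : (C (q : ℤ) : ℤ[X]) ∣ Γ.b.repr f l := by
      rw [C_dvd_iff_dvd_coeff]
      intro i
      have h2 := congrArg (fun p => coeff p i) (h l)
      simp only [coeff_map, eq_intCast, coeff_zero] at h2
      exact (ZMod.intCast_zmod_eq_zero_iff_dvd _ _).1 h2
    obtain ⟨g, hg⟩ := h1
    rw [hg, Algebra.smul_def, map_mul, mul_assoc]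
    refine Dvd.dvd.mul_right ?_ _
    simp

theorem c8 (p : ℕ) (f : B) (hp : p.Prime) (hI : (Ideal.span {(p : B)}).IsPrime)
    (h : (Γ.nrm f).map (Int.castRingHom (ZMod p)) = 0) : (p : B) ∣ f := by
  haveI := Fact.mk hp
  rw [nrm_eq, ← coe_mapRingHom, RingHom.map_det] at h
  obtain ⟨v, hv, h1⟩ := Matrix.exists_mulVec_eq_zero_iff.2 h
  have hs : Function.Surjective (Polynomial.map (Int.castRingHom (ZMod p))) :=
    Polynomial.map_surjective _ (ZMod.ringHom_surjective _)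
  choose w hw using fun j => hs (v j)
  have h2 : (p : B) ∣ f * ∑ j, w j • Γ.b j := by
    rw [dvd_iff Γ]
    intro l
    have h3 := congrFun h1 l
    rw [Finset.mul_sum, map_sum, Finsupp.finset_sum_apply, Polynomial.map_sum]
    refine Eq.trans (Finset.sum_congr rfl fun j _ => ?_) h3
    rw [mul_smul_comm, map_smul, Finsupp.smul_apply, smul_eq_mul, Polynomial.map_mul, hw,
      ← Algebra.leftMulMatrix_eq_repr_mul, mul_comm]
    rfl
  rcases hI.mem_or_mem (Ideal.mem_span_singleton.2 h2) with h3 | h3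
  · exact Ideal.mem_span_singleton.1 h3
  · refine absurd (_root_.funext fun l => ?_) hv
    have h4 := (dvd_iff Γ p _).1 (Ideal.mem_span_singleton.1 h3) l
    rw [Γ.b.repr_sum_self, hw] at h4
    exact h4

theorem c9 (g : ℤ[X]) : Γ.nrm (algebraMap ℤ[X] B g) = g ^ d := by
  rw [Geo.nrm, Algebra.norm_algebraMap_of_basis Γ.b, Fintype.card_fin]

theorem c10 (q : ℕ) (f f' : B) (h : (q : B) ∣ f - f') :
    (Γ.nrm f).map (Int.castRingHom (ZMod q)) = (Γ.nrm f').map (Int.castRingHom (ZMod q)) := by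
  rw [nrm_eq, nrm_eq, ← coe_mapRingHom, RingHom.map_det, RingHom.map_det]
  refine congrArg Matrix.det ?_
  ext1 l j
  have h1 := (dvd_iff Γ q _).1 (h.mul_right (Γ.b j)) l
  rw [sub_mul, map_sub, Finsupp.sub_apply, Polynomial.map_sub, sub_eq_zero] at h1
  simpa [Algebra.leftMulMatrix_eq_repr_mul] using h1

end NRM

theorem stNRM : St_NRM := fun _ _ _ _ _ _ Γ m =>
  ⟨fun _ hf => NRM.c1 Γ hf, NRM.c2 Γ, NRM.c3 Γ, NRM.c4 Γ, NRM.c5 Γ m, NRM.c6 Γ, NRM.c7 Γ,
    NRM.c8 Γ, NRM.c9 Γ, NRM.c10 Γ⟩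

end Pool.Agent.Lib.BK2
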