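import Pool.Agent.Lib.BK2.GDefs
import Pool.Agent.Lib.BK2.Bas
import Pool.Agent.Lib.BK2.NRM

/-! Congruence conditions that force irreducible norms. -/

open Polynomial

noncomputable section

namespace Pool.Agent.Lib.BK2

namespace IRR

theorem exists_irr (q : ℕ) [Fact q.Prime] {m : ℕ} (hm : m ≠ 0) : ∃ l : ℤ[X], l.natDegree = m ∧
    Irreducible (l.map (Int.castRingHom (ZMod q))) ∧
    (l.map (Int.castRingHom (ZMod q))).natDegree = m := by
  obtain ⟨α, hα⟩ := Field.exists_primitive_element (ZMod q) (GaloisField q m)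
  rw [Field.primitive_element_iff_minpoly_natDegree_eq, GaloisField.finrank q hm] at hα
  have hi : IsIntegral (ZMod q) α := IsIntegral.of_finite _ _
  obtain ⟨l, h1, h2, -⟩ := lifts_and_natDegree_eq_and_monic
    ((mem_lifts _).2 (map_surjective (Int.castRingHom (ZMod q)) (ZMod.ringHom_surjective _) _))
    (minpoly.monic hi)
  exact ⟨l, h2.trans hα, h1 ▸ minpoly.irreducible hi, h1 ▸ hα⟩

theorem dvd_deg {k : Type} [Field k] (φ : ℤ →+* k) {l : k[X]} (hl : Irreducible l) {d : ℕ}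
    {A B : ℤ[X]} (h : (A * B).map φ = l ^ d) (hd : (A * B).natDegree ≤ l.natDegree * d) :
    l.natDegree ∣ B.natDegree := by
  have h0 : (A * B).map φ ≠ 0 := h ▸ pow_ne_zero _ hl.ne_zero
  have hAB : A * B ≠ 0 := fun h1 => h0 (by rw [h1, Polynomial.map_zero])
  rw [Polynomial.map_mul] at h h0
  have h1 := congrArg natDegree h
  rw [natDegree_mul (left_ne_zero_of_mul h0) (right_ne_zero_of_mul h0), natDegree_pow,
    mul_comm d] at h1
  rw [natDegree_mul (left_ne_zero_of_mul hAB) (right_ne_zero_of_mul hAB)] at hd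
  have h2 : (A.map φ).natDegree ≤ A.natDegree := natDegree_map_le
  have h3 : (B.map φ).natDegree ≤ B.natDegree := natDegree_map_le
  obtain ⟨i, -, hi⟩ := (dvd_prime_pow hl.prime d).1 (Dvd.intro_left _ h)
  have h4 := natDegree_eq_of_degree_eq (degree_eq_degree_of_associated hi)
  rw [natDegree_pow] at h4
  exact ⟨i, by rw [mul_comm, ← h4]; omega⟩

theorem irr {k : Type} [Field k] (φ : ℤ →+* k) {l : k[X]} (hl : Irreducible l) {d r : ℕ}
    (hd0 : d ≠ 0) {N : ℤ[X]} (h : N.map φ = l ^ d) (hd : N.natDegree ≤ l.natDegree * d)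
    (hr : l.natDegree * d < r + l.natDegree)
    (hE : ∀ A B : ℤ[X], N = A * B → r ≤ A.natDegree ∨ r ≤ B.natDegree) :
    Irreducible (N.map (Int.castRingHom ℚ)) ∧ N.natDegree = l.natDegree * d := by
  have hdeg : N.natDegree = l.natDegree * d := le_antisymm hd (by
    rw [mul_comm, ← natDegree_pow, ← h]; exact natDegree_map_le)
  have hpos : 0 < N.natDegree :=
    hdeg ▸ Nat.mul_pos hl.natDegree_pos (Nat.pos_of_ne_zero hd0)
  have hN : N ≠ 0 := fun h0 => by simp [h0] at hpos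
  have key : ∀ A B : ℤ[X], N = A * B → r ≤ A.natDegree → B.natDegree = 0 := fun A B e hA => by
    have h1 := dvd_deg φ hl (e ▸ h) (e ▸ hd)
    have h2 : A * B ≠ 0 := e ▸ hN
    rw [e, natDegree_mul (left_ne_zero_of_mul h2) (right_ne_zero_of_mul h2)] at hd
    exact Nat.eq_zero_of_dvd_of_lt h1 (by omega)
  have hc : N.content ≠ 0 := fun h0 => hN (content_eq_zero_iff.1 h0)
  have hp : Irreducible N.primPart := by
    refine ⟨not_isUnit_of_natDegree_pos _ (by rwa [natDegree_primPart]), fun A B e => ?_⟩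
    have hu : ∀ A B : ℤ[X], N.primPart = A * B → B.natDegree = 0 → IsUnit B := fun A B e h0 => by
      rw [eq_C_of_natDegree_eq_zero h0] at e ⊢
      exact isUnit_C.2 (N.isPrimitive_primPart _ (Dvd.intro_left _ e.symm))
    have e1 : N = C N.content * A * B := by rw [mul_assoc, ← e, ← eq_C_content_mul_primPart]
    rcases hE _ _ e1 with h1 | h1
    · exact .inr (hu A B e (key _ _ e1 h1))
    · refine .inl (hu B A (e.trans (mul_comm _ _)) ?_)
      have := key B _ (e1.trans (mul_comm _ _)) h1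
      rwa [natDegree_C_mul hc] at this
  refine ⟨?_, hdeg⟩
  have h2 := (IsPrimitive.Int.irreducible_iff_irreducible_map_cast N.isPrimitive_primPart).1 hp
  rw [eq_C_content_mul_primPart N, Polynomial.map_mul, map_C]
  exact (irreducible_isUnit_mul (isUnit_C.2 (IsUnit.mk0 _ (by simpa using hc)))).2 h2

theorem crt {a b : ℕ} (h : a.Coprime b) (x y : ℤ) : ∃ z : ℤ, z ≡ x [ZMOD a] ∧ z ≡ y [ZMOD b] := by
  obtain ⟨u, v, huv⟩ := Nat.isCoprime_iff_coprime.2 h
  refine ⟨x * (v * b) + y * (u * a), ?_, ?_⟩ <;> rw [Int.modEq_iff_dvd]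
  · exact ⟨(x - y) * u, by linear_combination (-x) * huv⟩
  · exact ⟨(y - x) * v, by linear_combination (-y) * huv⟩

variable {B : Type} [CommRing B] [Algebra ℤ[X] B] {d : ℕ} [NeZero d] (Γ : Geo B d)

theorem nrm_cong {m : ℕ} (q : ℕ) {e : Γ.Ix m → ℤ} {g : ℤ[X]} (hg : g.natDegree ≤ m)
    (h : ∀ i, e i ≡ Γ.co m (algebraMap ℤ[X] B g) i [ZMOD q]) :
    (Γ.nrm (Γ.el e)).map (Int.castRingHom (ZMod q)) = g.map (Int.castRingHom (ZMod q)) ^ d := by
  choose c hc using fun i => (h i).symm.dvd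
  rw [NRM.c10 Γ q _ (algebraMap ℤ[X] B g), NRM.c9, Polynomial.map_pow]
  refine ⟨Γ.el c, ?_⟩
  rw [← Γ.el_co (Γ.algebraMap_mem hg), ← Γ.el_sub, ← Int.cast_natCast, ← zsmul_eq_mul, ← Γ.el_smul]
  exact congrArg _ (funext hc)

end IRR

theorem stIRR (h1 : St_PT) (h2 : St_EIS) : St_IRR := by
  intro B _ _ _ d _ Γ π ⟨p₀, hp₀⟩
  refine ⟨∑ l, Γ.δ l + Γ.dmax + 2, fun m hm Q hQ => ?_⟩
  have hd : 0 < d := Nat.pos_of_ne_zero (NeZero.ne d)
  have hR : 0 < Q * p₀.factorial := Nat.mul_pos hQ p₀.factorial_pos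
  have hle : p₀ ≤ Q * p₀.factorial := p₀.self_le_factorial.trans (Nat.le_mul_of_pos_left _ hQ)
  obtain ⟨q, x, a, hq, hNq, hx⟩ := h1 B d Γ π (Q * p₀.factorial + 1)
  obtain ⟨q₁, hq₁, hq₁p⟩ := Nat.exists_infinite_primes (q + 1)
  have := Fact.mk hq₁p
  have := Fact.mk hq
  have hcard := Γ.card_Ix_add (m := m) (by omega)
  have hmd : m ≤ m * d := Nat.le_mul_of_pos_right _ hd
  obtain ⟨e₁, he₁⟩ := h2 B d Γ q x a hq (hp₀ q hq (by omega)) hx m (Fintype.card (Γ.Ix m) - 1)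
    (by omega) (by omega)
  obtain ⟨l, hl1, hl2, hl3⟩ := IRR.exists_irr q₁ (m := m) (by omega)
  have c1 : q₁.Coprime (Q * p₀.factorial) :=
    (Nat.coprime_of_lt_prime hR.ne' (by omega) hq₁p)
  have c2 : (q ^ 2).Coprime (q₁ * (Q * p₀.factorial)) :=
    (Nat.Coprime.mul_right ((Nat.coprime_primes hq hq₁p).2 (by omega))
      (Nat.coprime_of_lt_prime hR.ne' (by omega) hq)).pow_left 2
  choose y hy1 hy2 using fun i => IRR.crt c1 (Γ.co m (algebraMap ℤ[X] B l) i)
    (Γ.co m (algebraMap ℤ[X] B 1) i)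
  choose z hz1 hz2 using fun i => IRR.crt c2 (e₁ i) (y i)
  refine ⟨q ^ 2 * (q₁ * (Q * p₀.factorial)), z,
    Nat.mul_pos (pow_pos hq.pos 2) (Nat.mul_pos hq₁p.pos hR),
    ((dvd_mul_right _ _).mul_left _).mul_left _, fun p hp hn => hp₀ p hp ?_, fun e he => ?_⟩
  · by_contra hlt
    exact hn ((((hp.dvd_factorial.2 (by omega)).mul_left _).mul_left _).mul_left _)
  have hA := he₁ e fun i => by
    simpa using ((he i).of_dvd (Int.natCast_dvd_natCast.2 (dvd_mul_right _ _))).trans (hz1 i)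
  have hy : ∀ i, e i ≡ y i [ZMOD (q₁ * (Q * p₀.factorial) : ℕ)] := fun i =>
    ((he i).of_dvd (Int.natCast_dvd_natCast.2 (dvd_mul_left _ _))).trans (hz2 i)
  have hB := IRR.nrm_cong Γ q₁ hl1.le fun i =>
    ((hy i).of_dvd (Int.natCast_dvd_natCast.2 (dvd_mul_right _ _))).trans (hy1 i)
  have hC := IRR.irr _ hl2 hd.ne' hB (hl3.symm ▸ (NRM.c1 Γ (Γ.el_mem e)).1)
    (by rw [hl3]; omega) hA.2
  rw [hl3] at hC
  refine ⟨hC.1, hC.2, fun p hp hpM => ?_⟩
  have := Fact.mk hp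
  rcases (Nat.Prime.dvd_mul hp).1 hpM with h | h
  · obtain rfl := (Nat.prime_dvd_prime_iff_eq hp hq).1 (hp.dvd_of_dvd_pow h)
    exact hA.1
  rcases (Nat.Prime.dvd_mul hp).1 h with h | h
  · obtain rfl := (Nat.prime_dvd_prime_iff_eq hp hq₁p).1 h
    exact hB ▸ pow_ne_zero _ hl2.ne_zero
  · rw [IRR.nrm_cong Γ p (g := 1) (by simp) fun i =>
      (((hy i).of_dvd (Int.natCast_dvd_natCast.2 (dvd_mul_left _ _))).trans (hy2 i)).of_dvd
        (Int.natCast_dvd_natCast.2 h)]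
    simp

end Pool.Agent.Lib.BK2
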