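import Pool.Agent.Lib.BK2.GDefs
import Pool.Agent.Lib.BK2.Bas

open Polynomial

namespace Pool.Agent.Lib.BK2

namespace PLANE

variable {A B : Type} [CommRing A] [IsDomain A] [CharZero A] [CommRing B] [IsDomain B]
  [Algebra A B] [Module.Finite A B] [FaithfulSMul A B]

/-- A primitive element up to one denominator. -/
theorem exists_gen : ∃ (u : B) (Δ : A), Δ ≠ 0 ∧
    ∀ f : B, ∃ g : A[X], algebraMap A B Δ * f = aeval u g := by
  classical
  let K := FractionRing A
  let M := FractionRing B
  let _ : Algebra K M := FractionRing.liftAlgebra A M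
  have : IsScalarTower A K M := FractionRing.isScalarTower_liftAlgebra A M
  have : FiniteDimensional K M := inferInstance
  have : CharZero K := IsFractionRing.charZero_of_isFractionRing A
  obtain ⟨α, hα⟩ := Field.exists_primitive_element K M
  have : IsLocalization (Algebra.algebraMapSubmonoid B (nonZeroDivisors A)) M := inferInstance
  obtain ⟨u, ⟨_, c, hc, rfl⟩, hu⟩ :=
    IsLocalization.exists_mk'_eq (Algebra.algebraMapSubmonoid B (nonZeroDivisors A)) α
  have hc0 : algebraMap A K c ≠ 0 := by
    rw [Ne, FaithfulSMul.algebraMap_eq_zero_iff]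
    exact nonZeroDivisors.ne_zero hc
  have hu' : algebraMap B M u = algebraMap A K c • α := by
    rw [← hu, Algebra.smul_def, ← IsScalarTower.algebraMap_apply,
      IsScalarTower.algebraMap_apply A B M, mul_comm]
    exact (IsLocalization.mk'_spec (M := Algebra.algebraMapSubmonoid B (nonZeroDivisors A)) M u
      ⟨_, c, hc, rfl⟩).symm
  have key : ∀ f : B, ∃ Δ : A, Δ ≠ 0 ∧ ∃ g : A[X], algebraMap A B Δ * f = aeval u g := by
    intro f
    have h1 : algebraMap B M f ∈ Algebra.adjoin K {α} := by
      rw [← IntermediateField.adjoin_simple_toSubalgebra_of_isAlgebraic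
        (Algebra.IsAlgebraic.isAlgebraic α), hα]
      trivial
    have h2 : Algebra.adjoin K {α} ≤ Algebra.adjoin K {algebraMap B M u} := by
      rw [Algebra.adjoin_le_iff, Set.singleton_subset_iff]
      have : α = (algebraMap A K c)⁻¹ • algebraMap B M u := by rw [hu', inv_smul_smul₀ hc0]
      rw [this]
      exact Subalgebra.smul_mem _ (Algebra.self_mem_adjoin_singleton K _) _
    have h3 := h2 h1
    rw [Algebra.adjoin_singleton_eq_range_aeval] at h3
    obtain ⟨p, hp⟩ := h3
    obtain ⟨b, hb, hbp⟩ := IsLocalization.integerNormalization_spec (nonZeroDivisors A) p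
    refine ⟨b, nonZeroDivisors.ne_zero hb,
      IsLocalization.integerNormalization (nonZeroDivisors A) p, IsFractionRing.injective B M ?_⟩
    rw [← aeval_algebraMap_apply, ← aeval_map_algebraMap K, hbp, map_mul,
      ← IsScalarTower.algebraMap_apply, ← hp, ← Algebra.smul_def]
    exact (map_smul ((aeval (algebraMap B M u) : K[X] →ₐ[K] M).restrictScalars A) b p).symm
  choose D hD g hg using key
  obtain ⟨S, hS⟩ := Module.Finite.fg_top (R := A) (M := B)
  refine ⟨u, ∏ s ∈ S, D s, Finset.prod_ne_zero_iff.2 fun s _ => hD s, fun f => ?_⟩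
  have hf : f ∈ Submodule.span A (S : Set B) := hS ▸ Submodule.mem_top
  induction hf using Submodule.span_induction with
  | mem s hs =>
    refine ⟨C (∏ s' ∈ S.erase s, D s') * g s, ?_⟩
    rw [← Finset.prod_erase_mul S D hs, map_mul, mul_assoc, hg, map_mul, aeval_C]
  | zero => exact ⟨0, by simp⟩
  | add a b _ _ ha hb =>
    obtain ⟨p, hp⟩ := ha
    obtain ⟨q, hq⟩ := hb
    exact ⟨p + q, by rw [mul_add, hp, hq, map_add]⟩
  | smul a b _ hb =>
    obtain ⟨q, hq⟩ := hb
    exact ⟨C a * q, by rw [map_mul, aeval_C, ← hq, Algebra.smul_def]; ring⟩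

end PLANE

theorem stPLANE : St_PLANE := by
  intro B _ _ _ d _ Γ
  have : Module.Finite ℤ[X] B := Module.Finite.of_basis Γ.b
  have : FaithfulSMul ℤ[X] B :=
    (faithfulSMul_iff_algebraMap_injective _ _).2 Γ.algebraMap_injective
  obtain ⟨u, Δ, hΔ, h⟩ := PLANE.exists_gen (A := ℤ[X]) (B := B)
  have hi : IsIntegral ℤ[X] u := Algebra.IsIntegral.isIntegral u
  exact ⟨⟨u, minpoly ℤ[X] u, Δ, minpoly.monic hi,
    fun g => minpoly.isIntegrallyClosed_dvd_iff hi g, hΔ, h⟩⟩

end Pool.Agent.Lib.BK2
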