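import Pool.Agent.Lib.BK2.GDefs

open Polynomial

noncomputable section

namespace Pool.Agent.Lib.BK2

namespace PT

/-- Schur: a monic non constant integral polynomial has roots modulo arbitrarily large primes. -/
theorem schur (G : ℤ[X]) (hd : G.natDegree ≠ 0) (M : ℕ) :
    ∃ (q : ℕ) (b : ℤ), q.Prime ∧ M < q ∧ (q : ℤ) ∣ G.eval b := by
  by_cases hc : G.eval 0 = 0
  · obtain ⟨q, h1, h2⟩ := Nat.exists_infinite_primes (M + 1)
    exact ⟨q, 0, h2, h1, by rw [hc]; exact dvd_zero _⟩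
  set c := G.eval 0 with hcdef
  have hne : (G - C c) * (G + C c) ≠ 0 := by
    refine mul_ne_zero (fun h => hd ?_) fun h => hd ?_
    · rw [sub_eq_zero.mp h, natDegree_C]
    · rw [eq_neg_of_add_eq_zero_left h, natDegree_neg, natDegree_C]
  have hk : c * (M.factorial : ℤ) ≠ 0 :=
    mul_ne_zero hc (Nat.cast_ne_zero.mpr (Nat.factorial_ne_zero M))
  have hy : ∃ y : ℤ, ¬ IsRoot ((G - C c) * (G + C c)) (c * (M.factorial : ℤ) * y) := by
    by_contra h
    push Not at h
    exact hne (eq_zero_of_infinite_isRoot _ (Set.infinite_of_injective_forall_mem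
      (f := fun y : ℤ => c * (M.factorial : ℤ) * y) (mul_right_injective₀ hk) h))
  obtain ⟨y, hy⟩ := hy
  obtain ⟨k, hk'⟩ : c * (M.factorial : ℤ) * y - 0 ∣ G.eval (c * (M.factorial : ℤ) * y) - c :=
    sub_dvd_eval_sub _ _ G
  have e : G.eval (c * (M.factorial : ℤ) * y) = c * (1 + (M.factorial : ℤ) * (y * k)) := by
    linear_combination hk'
  have hu : (1 + (M.factorial : ℤ) * (y * k)).natAbs ≠ 1 := by
    intro h
    apply hy
    rw [IsRoot.def, eval_mul, eval_sub, eval_add, eval_C, e]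
    rcases Int.natAbs_eq_iff.mp h with h | h <;> rw [h] <;> simp
  obtain ⟨q, hq, hqd⟩ := Nat.exists_prime_and_dvd hu
  have hqd' : (q : ℤ) ∣ 1 + (M.factorial : ℤ) * (y * k) := Int.natCast_dvd.mpr hqd
  refine ⟨q, c * (M.factorial : ℤ) * y, hq, ?_, by rw [e]; exact hqd'.mul_left c⟩
  by_contra h
  have h1 : (q : ℤ) ∣ (M.factorial : ℤ) * (y * k) :=
    (Int.natCast_dvd_natCast.mpr (hq.dvd_factorial.mpr (not_lt.mp h))).mul_right _
  have h2 : (q : ℤ) ∣ 1 := (dvd_add_left h1).mp hqd'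
  exact hq.one_lt.ne' (Nat.dvd_one.mp (by exact_mod_cast h2))

variable {B : Type} [CommRing B] [Algebra ℤ[X] B]

theorem hom_alg {Q : Type} [CommRing Q] (y : B →+* Q) (a : ℤ)
    (h : y (algebraMap ℤ[X] B X) = a) (r : ℤ[X]) : y (algebraMap ℤ[X] B r) = (r.eval a : ℤ) := by
  have : y.comp (algebraMap ℤ[X] B) = (Int.castRingHom Q).comp (evalRingHom a) := by
    refine Polynomial.ringHom_ext (fun n => ?_) ?_
    · simp
    · simpa using h
  exact RingHom.congr_fun this r

theorem hom_aeval {Q : Type} [CommRing Q] (y : B →+* Q) (a : ℤ)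
    (h : y (algebraMap ℤ[X] B X) = a) (u : B) (g : ℤ[X][X]) :
    y (aeval u g) = aeval (y u) (g.map (evalRingHom a)) := by
  induction g using Polynomial.induction_on' with
  | add p q hp hq => rw [map_add, map_add, hp, hq, Polynomial.map_add, map_add]
  | monomial n r =>
    rw [aeval_monomial, map_mul, map_pow, hom_alg y a h, Polynomial.map_monomial, aeval_monomial]
    rfl

theorem aeval_cast {Q : Type} [CommRing Q] (b : ℤ) (G : ℤ[X]) :
    aeval (b : Q) G = (G.eval b : ℤ) := by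
  have := aeval_algebraMap_apply_eq_algebraMap_eval (A := Q) b G
  simpa using this

theorem hom_aevalZ {A Q : Type} [CommRing A] [CommRing Q] (y : A →+* Q) (u : A) (G : ℤ[X]) :
    y (aeval u G) = aeval (y u) G :=
  (aeval_algHom_apply y.toIntAlgHom u G).symm

theorem split (G : ℤ[X]) (b : ℤ) : ∃ H : ℤ[X], G = C (G.eval b) + (X - C b) * H :=
  ⟨G /ₘ (X - C b), by rw [← modByMonic_X_sub_C_eq_C_eval, modByMonic_add_div]⟩

theorem kill {Q : Type} [CommRing Q] (y : B →+* Q) (a b : ℤ)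
    (h : y (algebraMap ℤ[X] B X) = a) (u : B) (F g : ℤ[X][X]) (H : ℤ[X]) (hF : aeval u F = 0)
    (hH : F.map (evalRingHom a) = C ((F.map (evalRingHom a)).eval b) + (X - C b) * H)
    (h1 : (((F.map (evalRingHom a)).eval b : ℤ) : Q) = 0)
    (h2 : (((g.map (evalRingHom a)).eval b : ℤ) : Q) = 0) :
    y (aeval u g * aeval u H) = 0 := by
  have h3 : (y u - b) * aeval (y u) H = 0 := by
    have h4 := hom_aeval y a h u F
    rw [hF, map_zero, hH] at h4
    simpa [h1] using h4.symm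
  obtain ⟨H', hH'⟩ := split (g.map (evalRingHom a)) b
  have h5 : aeval (y u) (g.map (evalRingHom a)) = (y u - b) * aeval (y u) H' := by
    rw [hH']
    simp [h2]
  rw [map_mul, hom_aeval y a h, hom_aevalZ, h5, mul_right_comm, h3, zero_mul]

end PT

open PT in
theorem stPT (h : St_HOM) : St_PT := by
  intro B _ _ _ d _ Γ π N
  have hd : π.F.natDegree ≠ 0 := by
    intro h0
    have h1 : π.F = 1 := π.monic.natDegree_eq_zero.mp h0
    have h2 := (π.dvd 1).mpr (by rw [h1])
    simp at h2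
  have hF1 : aeval π.u (derivative π.F) ≠ 0 := fun h0 =>
    π.monic.not_dvd_of_natDegree_lt (derivative_ne_zero.mpr hd) (natDegree_derivative_lt hd)
      ((π.dvd _).mp h0)
  have : Module.Finite ℤ[X] B := Module.Finite.of_basis Γ.b
  obtain ⟨R, hR, b', hb'⟩ := (IsIntegral.of_finite ℤ[X]
    (aeval π.u (derivative π.F))).isAlgebraic.exists_nonzero_dvd
    (mem_nonZeroDivisors_of_ne_zero hF1)
  obtain ⟨a, ha⟩ : ∃ a : ℤ, (R * π.Δ).eval a ≠ 0 := by
    by_contra h0
    push Not at h0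
    exact mul_ne_zero hR π.ne (eq_zero_of_infinite_isRoot _
      (Set.infinite_of_injective_forall_mem (f := fun y : ℤ => y) (fun _ _ e => e) h0))
  set G : ℤ[X] := π.F.map (evalRingHom a) with hG
  have hGd : G.natDegree ≠ 0 := by rw [hG, π.monic.natDegree_map]; exact hd
  obtain ⟨q, b, hq, hqM, hqb⟩ := schur G hGd (N + ((R * π.Δ).eval a).natAbs)
  have : Fact q.Prime := ⟨hq⟩
  have hnz : (((R * π.Δ).eval a : ℤ) : ZMod q) ≠ 0 := by
    intro h0
    have h1 := Int.natCast_dvd.mp ((ZMod.intCast_zmod_eq_zero_iff_dvd _ _).mp h0)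
    have h2 := Nat.le_of_dvd (Int.natAbs_pos.mpr ha) h1
    omega
  rw [eval_mul, Int.cast_mul] at hnz
  have hRa := left_ne_zero_of_mul hnz
  have hΔa := right_ne_zero_of_mul hnz
  have hGb : ((G.eval b : ℤ) : ZMod q) = 0 := (ZMod.intCast_zmod_eq_zero_iff_dvd _ _).mpr hqb
  obtain ⟨x, hxt, hxu⟩ := h B d Γ π (ZMod q) (a : ZMod q) (b : ZMod q) (by
    have := map_mapRingHom_evalEval (Int.castRingHom (ZMod q)) π.F a b
    simp only [eq_intCast] at this
    rw [this, ← map_evalRingHom_eval]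
    exact hGb) (by rw [aeval_cast]; exact hΔa)
  have hxa : ∀ g : ℤ[X][X], x (aeval π.u g) = ((g.map (evalRingHom a)).eval b : ℤ) := by
    intro g
    rw [hom_aeval x a hxt, hxu, aeval_cast]
  obtain ⟨H, hH⟩ := split G b
  have hHb : ((H.eval b : ℤ) : ZMod q) ≠ 0 := by
    have h1 : (derivative G).eval b = H.eval b := by
      rw [hH]
      simp
    rw [← h1, hG, derivative_map, ← hxa]
    intro h0
    apply hRa
    rw [← hom_alg x a hxt, hb', map_mul, h0, zero_mul]
  refine ⟨q, x, a, hq, by omega, hxt, algebraMap ℤ[X] B π.Δ * aeval π.u H, ?_, fun f hf => ?_⟩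
  · rw [map_mul, hom_alg x a hxt, hom_aevalZ, hxu, aeval_cast]
    exact mul_ne_zero hΔa hHb
  · obtain ⟨g, hg⟩ := π.gen f
    have hg0 : (((g.map (evalRingHom a)).eval b : ℤ) : ZMod q) = 0 := by
      rw [← hxa, ← hg, map_mul, hf, mul_zero]
    set I : Ideal B := Ideal.span {(q : B), Γ.t - (a : B)} with hI
    have hq0 : ∀ n : ℤ, (n : ZMod q) = 0 → (n : B ⧸ I) = 0 := by
      intro n hn
      obtain ⟨k, rfl⟩ := (ZMod.intCast_zmod_eq_zero_iff_dvd _ _).mp hn
      have : ((q : ℕ) : B ⧸ I) = 0 := by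
        rw [← map_natCast (Ideal.Quotient.mk I), Ideal.Quotient.eq_zero_iff_mem]
        exact Ideal.subset_span (Or.inl rfl)
      rw [Int.cast_mul, Int.cast_natCast, this, zero_mul]
    have ht : Ideal.Quotient.mk I (algebraMap ℤ[X] B X) = a := by
      rw [← map_intCast (Ideal.Quotient.mk I), Ideal.Quotient.eq]
      exact Ideal.subset_span (Or.inr rfl)
    rw [← Ideal.Quotient.eq_zero_iff_mem, mul_right_comm, hg]
    exact kill _ a b ht π.u π.F g H ((π.dvd _).mpr dvd_rfl) hH (hq0 _ hGb) (hq0 _ hg0)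

end Pool.Agent.Lib.BK2
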