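import Pool.Agent.Lib.BK2.Blue0

open Polynomial

noncomputable section

namespace Pool.Agent.Lib.BK2

/-- A plane model `F (t, u) = 0` of `B`, isomorphic to `B` away from `Δ (t) = 0`. -/
structure Geo.Plane {B : Type} [CommRing B] [Algebra ℤ[X] B] {d : ℕ} [NeZero d] (Γ : Geo B d) where
  u : B
  F : ℤ[X][X]
  Δ : ℤ[X]
  monic : F.Monic
  dvd : ∀ g : ℤ[X][X], aeval u g = 0 ↔ F ∣ g
  ne : Δ ≠ 0
  gen : ∀ f : B, ∃ g : ℤ[X][X], algebraMap ℤ[X] B Δ * f = aeval u g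

/-- Absolute irreducibility of an integral plane curve. -/
def AbsIrr (F : ℤ[X][X]) : Prop := Irreducible (F.map (mapRingHom (Int.castRingHom ℂ)))

/-- All large primes stay prime in `B`. -/
def GoodP (B : Type) [CommRing B] : Prop :=
  ∃ p₀ : ℕ, ∀ p : ℕ, p.Prime → p₀ ≤ p → (Ideal.span {(p : B)}).IsPrime

/-- `x` is a point over `q` with `t = a` at which the projection to the `t`-line is unramified. -/
def Geo.Etale {B : Type} [CommRing B] [Algebra ℤ[X] B] {d : ℕ} [NeZero d] (Γ : Geo B d) (q : ℕ)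
    (x : B →+* ZMod q) (a : ℤ) : Prop :=
  x Γ.t = a ∧ ∃ s : B, x s ≠ 0 ∧ ∀ f : B, x f = 0 → s * f ∈ Ideal.span {(q : B), Γ.t - (a : B)}

def St_GEO : Prop :=
  ∀ (L : Type) [Field L] [Algebra ℚ L] (n : ℕ) (y : Fin (n + 1) → L), IsCurve y →
    ∃ (B : Type) (_ : CommRing B) (_ : IsDomain B) (_ : Algebra ℤ[X] B) (d : ℕ) (_ : NeZero d)
      (Γ : Geo B d), Nonempty (Γ.Model y)

def St_PLANE : Prop :=
  ∀ (B : Type) [CommRing B] [IsDomain B] [Algebra ℤ[X] B] (d : ℕ) [NeZero d] (Γ : Geo B d),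
    Nonempty Γ.Plane

def St_ABS : Prop :=
  ∀ (L : Type) [Field L] [Algebra ℚ L],
    (∀ x : L, IsAlgebraic ℚ x → x ∈ Set.range (algebraMap ℚ L)) →
    ∀ (φ : ℤ[X][X] →+* L) (F : ℤ[X][X]), F.Monic → (∀ g, φ g = 0 ↔ F ∣ g) → AbsIrr F

def St_GOOD : Prop :=
  ∀ (B : Type) [CommRing B] [IsDomain B] [Algebra ℤ[X] B] (d : ℕ) [NeZero d] (Γ : Geo B d)
    (π : Γ.Plane), AbsIrr π.F → GoodP B

/-- Two-sided point count for plane curves over prime fields. -/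
def St_STEP : Prop :=
  ∀ F : ℤ[X][X], F.Monic → AbsIrr F → ∃ K θ : ℝ, θ < 1 ∧ ∀ p : ℕ, p.Prime →
    |(Nat.card {z : ZMod p × ZMod p //
      (F.map (mapRingHom (Int.castRingHom (ZMod p)))).evalEval z.1 z.2 = 0} : ℝ) - p| ≤
      K * (p : ℝ) ^ θ

def St_HOM : Prop :=
  ∀ (B : Type) [CommRing B] [IsDomain B] [Algebra ℤ[X] B] (d : ℕ) [NeZero d] (Γ : Geo B d)
    (π : Γ.Plane) (k : Type) [Field k] (a b : k),
    (π.F.map (mapRingHom (Int.castRingHom k))).evalEval a b = 0 → aeval a π.Δ ≠ 0 →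
    ∃ x : B →+* k, x Γ.t = a ∧ x π.u = b

def St_WTR : Prop :=
  ∀ (B : Type) [CommRing B] [IsDomain B] [Algebra ℤ[X] B] (d : ℕ) [NeZero d] (Γ : Geo B d)
    (π : Γ.Plane), AbsIrr π.F → Γ.Weil

def St_PT : Prop :=
  ∀ (B : Type) [CommRing B] [IsDomain B] [Algebra ℤ[X] B] (d : ℕ) [NeZero d] (Γ : Geo B d)
    (_ : Γ.Plane) (N : ℕ), ∃ (q : ℕ) (x : B →+* ZMod q) (a : ℤ), q.Prime ∧ N ≤ q ∧ Γ.Etale q x a

def St_EIS : Prop :=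
  ∀ (B : Type) [CommRing B] [IsDomain B] [Algebra ℤ[X] B] (d : ℕ) [NeZero d] (Γ : Geo B d)
    (q : ℕ) (x : B →+* ZMod q) (a : ℤ), q.Prime → (Ideal.span {(q : B)}).IsPrime →
    Γ.Etale q x a → ∀ m r : ℕ, 0 < r → r < Fintype.card (Γ.Ix m) →
    ∃ e₀ : Γ.Ix m → ℤ, ∀ e : Γ.Ix m → ℤ, (∀ i, e i ≡ e₀ i [ZMOD (q : ℤ) ^ 2]) →
      (Γ.nrm (Γ.el e)).map (Int.castRingHom (ZMod q)) ≠ 0 ∧
      ∀ P₁ P₂ : ℤ[X], Γ.nrm (Γ.el e) = P₁ * P₂ → r ≤ P₁.natDegree ∨ r ≤ P₂.natDegree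

def St_IRR : Prop :=
  ∀ (B : Type) [CommRing B] [IsDomain B] [Algebra ℤ[X] B] (d : ℕ) [NeZero d] (Γ : Geo B d)
    (_ : Γ.Plane), GoodP B → Γ.Irr

theorem stG_of (h1 : St_GEO) (h2 : St_PLANE) (h3 : St_ABS) (h4 : St_GOOD) (h5 : St_WTR)
    (h6 : St_IRR) : St_G := by
  intro L _ _ n y hy
  obtain ⟨B, i1, i2, i3, d, i4, Γ, ⟨μ⟩⟩ := h1 L n y hy
  obtain ⟨π⟩ := h2 B d Γ
  have ha : AbsIrr π.F := h3 L hy.2.1 (μ.ι.comp (aeval π.u : ℤ[X][X] →ₐ[ℤ[X]] B).toRingHom) π.F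
    π.monic fun g => by
      rw [← π.dvd, RingHom.comp_apply, map_eq_zero_iff _ μ.inj]
      rfl
  exact ⟨B, i1, i2, i3, d, i4, Γ, μ, h5 B d Γ π ha, h6 B d Γ π (h4 B d Γ π ha)⟩

end Pool.Agent.Lib.BK2
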