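import Pool.Agent.Lib.BK2.PlaneW
import Pool.Agent.Lib.BK2.GDefs

/-! Adapters for the point counts. -/

open Polynomial

namespace Pool.Agent.Lib.BK2

theorem stSTEP : St_STEP := fun F hm hi => by
  obtain ⟨K, -, hK⟩ := Step.step ℂ F hm hi
  exact ⟨K, 1 / 2, by norm_num, fun p hp => Real.sqrt_eq_rpow p ▸ hK p hp⟩

namespace PW

theorem mod_of {B : Type} [CommRing B] [Algebra ℤ[X] B] {d : ℕ} [NeZero d] {Γ : Geo B d}
    (π : Γ.Plane) (h : AbsIrr π.F) : ∃ Δ, Mod π.u π.F Δ := by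
  obtain ⟨Δ', aa, bb, h1, h2, -⟩ := Step.exists_res ℂ π.F π.monic h
  refine ⟨π.Δ * Δ', π.monic, (π.dvd _).2 dvd_rfl, fun g => (π.dvd g).1, mul_ne_zero π.ne h1,
    fun b => ?_, ⟨C π.Δ * aa, C π.Δ * bb, by rw [C_mul, ← h2]; ring⟩,
    Step.noether ℂ π.F π.monic h, Step.step ℂ π.F π.monic h⟩
  obtain ⟨g, hg⟩ := π.gen (Δ' • b)
  exact ⟨g, by rw [← hg, mul_smul, Algebra.smul_def π.Δ]⟩

theorem wtr : St_WTR := fun _ _ _ _ _ _ Γ π h =>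
  (mod_of π h).elim fun _ h => h.weil Γ

theorem goodP : St_GOOD := fun _ _ _ _ _ _ Γ π h => by
  obtain ⟨_, h⟩ := mod_of π h
  obtain ⟨N, hN⟩ := Filter.eventually_atTop.1 (h.good Γ)
  exact ⟨N, fun p hp hq => hN p hq hp⟩

end PW

end Pool.Agent.Lib.BK2
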