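import Pool.Agent.Lib.BK2.GEO
import Pool.Agent.Lib.BK2.PLANE
import Pool.Agent.Lib.BK2.ABS
import Pool.Agent.Lib.BK2.STEPa
import Pool.Agent.Lib.BK2.HOM
import Pool.Agent.Lib.BK2.PT
import Pool.Agent.Lib.BK2.EIS
import Pool.Agent.Lib.BK2.IRR

namespace Pool.Agent.Lib.BK2

theorem stG : St_G := stG_of stGEO stPLANE stABS PW.goodP PW.wtr (stIRR (stPT stHOM) stEIS)

end Pool.Agent.Lib.BK2
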