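import Pool.Agent.Lib.BK2.G2A

open Polynomial

noncomputable section

namespace Pool.Agent.Lib.BK2.G2

variable {B : Type} [CommRing B] [Algebra ℤ[X] B] {d : ℕ} [NeZero d] (Γ : Geo B d)

theorem repr_alg_one (P : ℤ[X]) (l : Fin d) :
    Γ.b.repr (algebraMap ℤ[X] B P) l = if l = 0 then P else 0 := by
  rw [← mul_one (algebraMap ℤ[X] B P), repr_alg, ← Γ.b0, Module.Basis.repr_self,
    Finsupp.single_apply]
  by_cases h : l = 0
  · simp [h]
  · rw [if_neg (Ne.symm h), if_neg h, mul_zero]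

include Γ in
theorem alg_eq_zero {P : ℤ[X]} (h : algebraMap ℤ[X] B P = 0) : P = 0 := by
  have := repr_alg_one Γ P 0
  rw [h] at this
  simpa using this.symm

theorem alg_mem {P : ℤ[X]} {N : ℕ} (h : P.natDegree ≤ N) : algebraMap ℤ[X] B P ∈ Γ.V N := by
  rw [memV]
  intro l j hj
  rw [repr_alg_one]
  by_cases hl : l = 0
  · rw [if_pos hl]
    rw [hl, Γ.δ0] at hj
    exact coeff_eq_zero_of_natDegree_lt (by omega)
  · rw [if_neg hl, coeff_zero]

theorem exists_mem (v : B) : ∃ N, v ∈ Γ.V N := by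
  refine ⟨Finset.univ.sup fun l => (Γ.b.repr v l).natDegree + Γ.δ l, (memV Γ).2 fun l j hj => ?_⟩
  have := Finset.le_sup (f := fun l => (Γ.b.repr v l).natDegree + Γ.δ l) (Finset.mem_univ l)
  exact coeff_eq_zero_of_natDegree_lt (by omega)

theorem repr_mon {N : ℕ} (j : Γ.Ix N) (l : Fin d) :
    Γ.b.repr (Γ.mon j) l = if j.1 = l then X ^ (j.2 : ℕ) else 0 := by
  rw [Geo.mon, Geo.t, ← map_pow, repr_alg, Module.Basis.repr_self, Finsupp.single_apply]
  by_cases h : j.1 = l
  · simp [h]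
  · simp [h]

theorem mon_mem {N : ℕ} (j : Γ.Ix N) : Γ.mon j ∈ Γ.V N := by
  rw [memV]
  intro l k hk
  rw [repr_mon]
  by_cases h : j.1 = l
  · have h2 := j.2.2
    rw [← h] at hk
    rw [if_pos h, coeff_X_pow, if_neg (by omega)]
  · rw [if_neg h, coeff_zero]

/-- Coordinates as an additive map. -/
def coH (N : ℕ) : B →+ (Γ.Ix N → ℤ) where
  toFun v i := (Γ.b.repr v i.1).coeff i.2
  map_zero' := by ext l; simp
  map_add' v w := by ext l; simp

theorem coH_apply (N : ℕ) (v : B) (i : Γ.Ix N) : coH Γ N v i = (Γ.b.repr v i.1).coeff i.2 := rfl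

theorem coH_mon {N : ℕ} (j k : Γ.Ix N) : coH Γ N (Γ.mon j) k = if j = k then 1 else 0 := by
  obtain ⟨l, a⟩ := j
  obtain ⟨l', a'⟩ := k
  rw [coH_apply, repr_mon]
  by_cases h : l = l'
  · subst h
    simp only [if_true, coeff_X_pow, Sigma.mk.injEq, heq_eq_eq, true_and, Fin.ext_iff]
    exact if_congr eq_comm rfl rfl
  · rw [if_neg h, if_neg (fun hc => h (congrArg Sigma.fst hc)), coeff_zero]

theorem el_eq_zero {N : ℕ} {e : Γ.Ix N → ℤ} (h : Γ.el e = 0) (k : Γ.Ix N) : e k = 0 := by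
  have h1 := congrFun (congrArg (coH Γ N) h) k
  rw [Geo.el, map_sum, Finset.sum_apply, map_zero] at h1
  simp only [map_zsmul, Pi.smul_apply, coH_mon, smul_eq_mul, mul_ite, mul_one, mul_zero,
    Finset.sum_ite_eq', Finset.mem_univ, if_true, Pi.zero_apply] at h1
  exact h1

theorem eq_zero_of_coH {N : ℕ} {v : B} (hv : v ∈ Γ.V N) (h : coH Γ N v = 0) : v = 0 := by
  refine Γ.b.repr.injective ?_
  ext l j
  rw [map_zero, Finsupp.zero_apply, coeff_zero]
  by_cases hj : j < N + 1 - Γ.δ l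
  · exact congrFun h ⟨l, ⟨j, hj⟩⟩
  · exact (memV Γ).1 hv l j (by omega)

theorem sum_mem {N : ℕ} {ι : Type} [Fintype ι] (γ : ι → ℤ) (x : ι → B) (hx : ∀ i, x i ∈ Γ.V N) :
    ∑ i, γ i • x i ∈ Γ.V N := by
  rw [memV]
  intro l j hj
  rw [map_sum, Finsupp.finsetSum_apply, finsetSum_coeff]
  refine Finset.sum_eq_zero fun i _ => ?_
  rw [map_zsmul, Finsupp.smul_apply, coeff_smul, (memV Γ).1 (hx i) l j hj, smul_zero]

theorem card_Ix {m N : ℕ} (hN : Γ.dmax ≤ N) :
    Fintype.card (Γ.Ix (m + N)) = m * d + Fintype.card (Γ.Ix N) := by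
  have hδ : ∀ l, Γ.δ l ≤ N := fun l =>
    le_trans (Finset.le_sup (f := Γ.δ) (Finset.mem_univ l)) hN
  simp only [Fintype.card_sigma, Fintype.card_fin]
  rw [Finset.sum_congr rfl fun l _ => show m + N + 1 - Γ.δ l = m + (N + 1 - Γ.δ l) by
    have := hδ l; omega, Finset.sum_add_distrib]
  simp [mul_comm]

/-- A nontrivial relation. -/
theorem exists_rel {m : ℕ} {f : B} (hf : f ∈ Γ.V m) (v : B) :
    ∃ (N : ℕ) (c : ℤ) (γ : Fin (m * d) → ℤ) (e : Γ.Ix N → ℤ),
      (c ≠ 0 ∨ (∃ i, γ i ≠ 0) ∨ ∃ j, e j ≠ 0) ∧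
      (c : B) * v + algebraMap ℤ[X] B (∑ i, C (γ i) * X ^ (i : ℕ)) + f * Γ.el e = 0 := by
  obtain ⟨N₀, hv⟩ := exists_mem Γ v
  set N := Γ.dmax + m * d + N₀ with hN
  let x : Option (Fin (m * d) ⊕ Γ.Ix N) → B := fun j =>
    match j with
    | none => v
    | some (Sum.inl i) => algebraMap ℤ[X] B (X ^ (i : ℕ))
    | some (Sum.inr j) => f * Γ.mon j
  have hx : ∀ j, x j ∈ Γ.V (m + N) := by
    rintro (_ | i | j)
    · exact mono Γ hv (by omega)
    · refine alg_mem Γ ?_
      have := i.2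
      rw [natDegree_X_pow]
      omega
    · exact mul_mem Γ hf (mon_mem Γ j)
  have hdep : ¬ LinearIndependent ℤ fun j => coH Γ (m + N) (x j) := by
    intro h
    have h1 := h.fintype_card_le_finrank
    rw [Module.finrank_fintype_fun_eq_card, card_Ix Γ (by omega)] at h1
    simp only [Fintype.card_option, Fintype.card_sum, Fintype.card_fin] at h1
    omega
  obtain ⟨g, hg, j, hj⟩ := Fintype.not_linearIndependent_iff.1 hdep
  have h0 : ∑ j, g j • x j = 0 := by
    refine eq_zero_of_coH Γ (sum_mem Γ g x hx) ?_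
    rw [map_sum]
    simpa only [map_zsmul] using hg
  refine ⟨N, g none, fun i => g (some (Sum.inl i)), fun j => g (some (Sum.inr j)), ?_, ?_⟩
  · rcases j with _ | i | j
    · exact Or.inl hj
    · exact Or.inr (Or.inl ⟨i, hj⟩)
    · exact Or.inr (Or.inr ⟨j, hj⟩)
  · rw [Fintype.sum_option, Fintype.sum_sum_type] at h0
    rw [← h0, add_assoc, map_sum, Geo.el, Finset.mul_sum]
    simp only [x, zsmul_eq_mul, map_mul, eq_intCast, map_intCast]
    congr 2
    exact Finset.sum_congr rfl fun j _ => by ring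

end Pool.Agent.Lib.BK2.G2

namespace Pool.Agent.Lib.BK2

open G2

theorem stG2 (hN : St_NRM) : St_G2 := by
  intro B _ _ _ d _ Γ m f hf hc
  obtain ⟨h1, -, -, -, -, -, -, -, h9, -⟩ := hN B d Γ m
  obtain ⟨hdeg, g, hg, hfg⟩ := h1 f hf
  have hd : 0 < d := Nat.pos_of_ne_zero (NeZero.ne d)
  have hmd : m ≤ m * d := Nat.le_mul_of_pos_right m hd
  have hP : Γ.nrm f ≠ 0 := fun h => hc (by rw [h, coeff_zero])
  have hf0 : f ≠ 0 := fun h => hP (alg_eq_zero Γ (by rw [← hfg, h, zero_mul]))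
  have key : ∀ (s : B) (k : ℕ), f * s ∈ Γ.V k → ∀ l,
      D (Γ.b.repr s l) ((k : ℤ) - m - Γ.δ l) := by
    intro s k hs l
    have h2 := (memV Γ).1 (mul_mem Γ hg hs) l
    rw [show g * (f * s) = algebraMap ℤ[X] B (Γ.nrm f) * s by rw [← hfg]; ring, repr_alg] at h2
    refine D.cancel hdeg hc (h2.mono (le_of_eq ?_))
    rw [Nat.cast_add, Nat.cast_sub hmd]
    ring
  refine ⟨fun a s hs => (memV Γ).2 fun l => (key s _ hs l).mono (le_of_eq ?_), ?_, ?_, ?_, ?_⟩
  · push_cast
    ring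
  · intro s hs hm
    refine Γ.b.repr.injective ?_
    ext1 l
    rw [map_zero, Finsupp.zero_apply]
    exact (key s _ hs l).zero_of_neg (by omega)
  · intro hprim c v s hc0 h
    have h2 : ∀ l, C c ∣ Γ.b.repr s l := by
      intro l
      have h3 : algebraMap ℤ[X] B (C c) * (g * v) = algebraMap ℤ[X] B (Γ.nrm f) * s := by
        rw [← hfg, eq_intCast, map_intCast]
        linear_combination g * h
      have h4 := congrArg (fun z => Γ.b.repr z l) h3
      simp only [repr_alg] at h4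
      have h5 : C c ∣ Γ.nrm f * Γ.b.repr s l := ⟨_, h4.symm⟩
      rwa [← dvd_content_iff_C_dvd, content_mul, hprim.content_eq_one, one_mul,
        dvd_content_iff_C_dvd] at h5
    choose r hr using h2
    have h6 : s = algebraMap ℤ[X] B (C c) * Γ.b.equivFun.symm r := by
      refine Γ.b.repr.injective ?_
      ext1 l
      rw [repr_alg, hr l]
      exact congrArg _ (congrFun (Γ.b.equivFun.apply_symm_apply r) l).symm
    have h7 : algebraMap ℤ[X] B (C c) ≠ 0 := fun h => hc0 (C_eq_zero.1 (alg_eq_zero Γ h))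
    refine ⟨Γ.b.equivFun.symm r, mul_left_cancel₀ h7 ?_⟩
    rw [mul_left_comm, ← h6, ← h, eq_intCast, map_intCast]
  · intro a ha S S' hS hS'
    exact relIndex_eq Γ hf hc ha S S' hS hS'
  · intro hirr v
    have hinj : Function.Injective (Int.castRingHom ℚ) := Int.cast_injective
    have hn : ((Γ.nrm f).map (Int.castRingHom ℚ)).natDegree = m * d := by
      rw [natDegree_map_eq_of_injective hinj]
      exact le_antisymm hdeg (le_natDegree_of_ne_zero hc)
    have hpos : 0 < m * d := hn ▸ hirr.natDegree_pos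
    obtain ⟨N, c, γ, e, hne, h⟩ := exists_rel Γ hf v
    set q : ℤ[X] := ∑ i, C (γ i) * X ^ (i : ℕ) with hq
    have hqd : q.natDegree < m * d := by
      by_cases h0 : q = 0
      · rwa [h0, natDegree_zero]
      · exact (natDegree_lt_iff_degree_lt h0).2 (degree_sum_fin_lt γ)
    refine ⟨-q, -Γ.el e, c, fun hc0 => ?_, by rwa [natDegree_neg], ?_⟩
    · rw [hc0, Int.cast_zero, zero_mul, zero_add] at h
      have h2 : algebraMap ℤ[X] B q = f * -Γ.el e := by linear_combination h
      have h3 : Γ.nrm f ∣ q ^ d := by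
        rw [← h9, h2, Geo.nrm, Geo.nrm, map_mul]
        exact Dvd.intro _ rfl
      have h4 : (Γ.nrm f).map (Int.castRingHom ℚ) ∣ q.map (Int.castRingHom ℚ) := by
        refine hirr.prime.dvd_of_dvd_pow (n := d) ?_
        rw [← Polynomial.map_pow]
        exact Polynomial.map_dvd _ h3
      have h5 : q = 0 := by
        by_contra h0
        have h6 := natDegree_le_of_dvd h4 ((Polynomial.map_ne_zero_iff hinj).2 h0)
        rw [hn, natDegree_map_eq_of_injective hinj] at h6
        omega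
      rw [h5, map_zero, zero_add] at h
      have h7 : Γ.el e = 0 := (mul_eq_zero.1 h).resolve_left hf0
      rcases hne with h8 | ⟨i, hi⟩ | ⟨j, hj⟩
      · exact h8 hc0
      · refine hi ?_
        have h8 := congrArg (fun z => z.coeff i) h5
        simp only [hq, finsetSum_coeff, coeff_C_mul, coeff_X_pow, coeff_zero] at h8
        rw [Finset.sum_eq_single i (fun j _ hj => by
          rw [if_neg (fun hc => hj (Fin.ext hc.symm)), mul_zero]) (by simp)] at h8
        simpa using h8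
      · exact hj (el_eq_zero Γ h7 j)
    · rw [map_neg]
      linear_combination h

end Pool.Agent.Lib.BK2
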