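import Pool.Agent.Lib.BK2.Blue1

open Polynomial

noncomputable section

namespace Pool.Agent.Lib.BK2.G2

/-- Degree at most the integer `k`. -/
def D (p : ℤ[X]) (k : ℤ) : Prop := ∀ j : ℕ, k < j → p.coeff j = 0

theorem D.zero_of_neg {p : ℤ[X]} {k : ℤ} (h : D p k) (hk : k < 0) : p = 0 := by
  ext j
  exact h j (by omega)

theorem D.natDegree_le {p : ℤ[X]} {k : ℤ} (h : D p k) : p.natDegree ≤ k.toNat :=
  natDegree_le_iff_coeff_eq_zero.2 fun j hj => h j (by omega)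

theorem D.mono {p : ℤ[X]} {k k' : ℤ} (h : D p k) (hk : k ≤ k') : D p k' :=
  fun j hj => h j (by omega)

theorem D.mul {p q : ℤ[X]} {k k' : ℤ} (h : D p k) (h' : D q k') : D (p * q) (k + k') := by
  intro j hj
  rw [coeff_mul]
  refine Finset.sum_eq_zero fun x hx => ?_
  have hx' : x.1 + x.2 = j := by simpa using hx
  by_cases h1 : k < x.1
  · rw [h _ h1, zero_mul]
  · rw [h' _ (by omega), mul_zero]

theorem D.sum {ι : Type} (s : Finset ι) (p : ι → ℤ[X]) {k : ℤ} (h : ∀ i ∈ s, D (p i) k) :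
    D (∑ i ∈ s, p i) k := by
  intro j hj
  rw [finsetSum_coeff]
  exact Finset.sum_eq_zero fun i hi => h i hi j hj

theorem D.coeff_mul {p q : ℤ[X]} {k k' : ℤ} (h : D p k) (h' : D q k') :
    (p * q).coeff (k + k').toNat = p.coeff k.toNat * q.coeff k'.toNat := by
  by_cases hk : k < 0
  · simp [h.zero_of_neg hk]
  by_cases hk' : k' < 0
  · simp [h'.zero_of_neg hk']
  rw [show (k + k').toNat = k.toNat + k'.toNat by omega]
  exact coeff_mul_add_eq_of_natDegree_le h.natDegree_le h'.natDegree_le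

theorem D.prod {ι : Type} (s : Finset ι) (p : ι → ℤ[X]) (k : ι → ℤ) (h : ∀ i ∈ s, D (p i) (k i)) :
    D (∏ i ∈ s, p i) (∑ i ∈ s, k i) ∧
      (∏ i ∈ s, p i).coeff (∑ i ∈ s, k i).toNat = ∏ i ∈ s, (p i).coeff (k i).toNat := by
  classical
  induction s using Finset.induction_on with
  | empty =>
    refine ⟨fun j hj => ?_, by simp⟩
    simp only [Finset.sum_empty] at hj
    simp only [Finset.prod_empty]
    exact coeff_eq_zero_of_natDegree_lt (by rw [natDegree_one]; omega)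
  | insert a s ha ih =>
    have h1 := h a (Finset.mem_insert_self a s)
    obtain ⟨h2, h3⟩ := ih fun i hi => h i (Finset.mem_insert_of_mem hi)
    rw [Finset.prod_insert ha, Finset.sum_insert ha, Finset.prod_insert ha]
    exact ⟨h1.mul h2, by rw [h1.coeff_mul h2, h3]⟩

theorem deg_iff (p : ℤ[X]) (δ N : ℕ) :
    p.degree + (δ : WithBot ℕ) ≤ (N : WithBot ℕ) ↔ D p ((N : ℤ) - δ) := by
  constructor
  · intro h j hj
    by_contra hc
    have h1 : (j : WithBot ℕ) ≤ p.degree := le_degree_of_ne_zero hc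
    have h2 : (j : WithBot ℕ) + (δ : WithBot ℕ) ≤ (N : WithBot ℕ) :=
      le_trans (by gcongr) h
    have h3 : j + δ ≤ N := by exact_mod_cast h2
    omega
  · intro h
    by_cases hp : p = 0
    · simp [hp]
    rw [degree_eq_natDegree hp]
    have h1 : ¬ ((N : ℤ) - δ < (p.natDegree : ℕ)) := fun hc =>
      leadingCoeff_ne_zero.2 hp (h _ hc)
    have h3 : p.natDegree + δ ≤ N := by omega
    exact_mod_cast h3

theorem D.cancel {P q : ℤ[X]} {n : ℕ} {k : ℤ} (h1 : P.natDegree ≤ n) (h2 : P.coeff n ≠ 0)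
    (h : D (P * q) (n + k)) : D q k := by
  intro j hj
  by_cases hq : q = 0
  · simp [hq]
  refine coeff_eq_zero_of_natDegree_lt ?_
  by_contra hc
  have h3 := coeff_mul_add_eq_of_natDegree_le h1 (le_refl q.natDegree)
  have h4 := h (n + q.natDegree) (by push_cast; omega)
  rw [h4] at h3
  exact mul_ne_zero h2 (leadingCoeff_ne_zero.2 hq) h3.symm

variable {B : Type} [CommRing B] [Algebra ℤ[X] B] {d : ℕ} [NeZero d] (Γ : Geo B d)

theorem memV {N : ℕ} {f : B} : f ∈ Γ.V N ↔ ∀ l, D (Γ.b.repr f l) ((N : ℤ) - Γ.δ l) :=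
  forall_congr' fun _ => deg_iff _ _ _

theorem repr_mul (f g : B) (l : Fin d) :
    Γ.b.repr (f * g) l = ∑ j, Γ.b.repr (f * Γ.b j) l * Γ.b.repr g j := by
  have h := congrFun (Algebra.leftMulMatrix_mulVec_repr Γ.b f g) l
  rw [← h]
  simp only [Matrix.mulVec, dotProduct, Algebra.leftMulMatrix_eq_repr_mul]

theorem D_entry {m : ℕ} {f : B} (hf : f ∈ Γ.V m) (l j : Fin d) :
    D (Γ.b.repr (f * Γ.b j) l) ((m : ℤ) + Γ.δ j - Γ.δ l) := by
  rw [mul_comm, repr_mul]
  refine D.sum _ _ fun i _ => ?_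
  have h1 := (deg_iff _ _ _).1 (Γ.mul_deg j i l)
  have h2 := (memV Γ).1 hf i
  refine (h1.mul h2).mono (le_of_eq ?_)
  push_cast
  ring

theorem mul_mem {a c : ℕ} {f g : B} (hf : f ∈ Γ.V a) (hg : g ∈ Γ.V c) : f * g ∈ Γ.V (a + c) := by
  rw [memV]
  intro l
  rw [repr_mul]
  refine D.sum _ _ fun j _ => ?_
  refine ((D_entry Γ hf l j).mul ((memV Γ).1 hg j)).mono (le_of_eq ?_)
  push_cast
  ring

theorem mono {a c : ℕ} {f : B} (hf : f ∈ Γ.V a) (h : a ≤ c) : f ∈ Γ.V c :=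
  (memV Γ).2 fun l => ((memV Γ).1 hf l).mono (by omega)

theorem add_mem {a : ℕ} {f g : B} (hf : f ∈ Γ.V a) (hg : g ∈ Γ.V a) : f + g ∈ Γ.V a :=
  (memV Γ).2 fun l j hj => by
    rw [map_add, Finsupp.add_apply, coeff_add, (memV Γ).1 hf l j hj, (memV Γ).1 hg l j hj, add_zero]

theorem sub_mem {a : ℕ} {f g : B} (hf : f ∈ Γ.V a) (hg : g ∈ Γ.V a) : f - g ∈ Γ.V a :=
  (memV Γ).2 fun l j hj => by
    rw [map_sub, Finsupp.sub_apply, coeff_sub, (memV Γ).1 hf l j hj, (memV Γ).1 hg l j hj, sub_zero]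

theorem repr_alg (P : ℤ[X]) (s : B) (l : Fin d) :
    Γ.b.repr (algebraMap ℤ[X] B P * s) l = P * Γ.b.repr s l := by
  rw [← Algebra.smul_def, map_smul, Finsupp.smul_apply, smul_eq_mul]

/-- The top coefficients in degree `N`. -/
def tau (N : ℕ) : B →+ (Fin d → ℤ) where
  toFun v l := (Γ.b.repr v l).coeff ((N : ℤ) - Γ.δ l).toNat
  map_zero' := by ext l; simp
  map_add' v w := by ext l; simp

theorem tau_apply (N : ℕ) (v : B) (l : Fin d) :
    tau Γ N v l = (Γ.b.repr v l).coeff ((N : ℤ) - Γ.δ l).toNat := rfl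

/-- The matrix of top coefficients of multiplication by `f`. -/
def top (m : ℕ) (f : B) : Matrix (Fin d) (Fin d) ℤ :=
  Matrix.of fun l j => (Γ.b.repr (f * Γ.b j) l).coeff ((m : ℤ) + Γ.δ j - Γ.δ l).toNat

theorem tau_mul {m N : ℕ} {f s : B} (hf : f ∈ Γ.V m) (hs : s ∈ Γ.V N) :
    tau Γ (m + N) (f * s) = (top Γ m f).mulVec (tau Γ N s) := by
  ext l
  rw [tau_apply, repr_mul, finsetSum_coeff]
  simp only [Matrix.mulVec, dotProduct, top, Matrix.of_apply, tau_apply]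
  refine Finset.sum_congr rfl fun j _ => ?_
  rw [← (D_entry Γ hf l j).coeff_mul ((memV Γ).1 hs j)]
  congr 2
  push_cast
  ring

theorem det_top {m : ℕ} {f : B} (hf : f ∈ Γ.V m) :
    (top Γ m f).det = (Γ.nrm f).coeff (m * d) := by
  rw [Geo.nrm, Algebra.norm_eq_matrix_det Γ.b, Matrix.det_apply, Matrix.det_apply,
    finsetSum_coeff]
  refine Finset.sum_congr rfl fun σ _ => ?_
  have h := (D.prod Finset.univ (fun j => Γ.b.repr (f * Γ.b j) (σ j))
    (fun j => (m : ℤ) + Γ.δ j - Γ.δ (σ j)) fun j _ => D_entry Γ hf (σ j) j).2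
  have hs : (∑ j : Fin d, ((m : ℤ) + Γ.δ j - Γ.δ (σ j))).toNat = m * d := by
    rw [Finset.sum_sub_distrib, Finset.sum_add_distrib,
      Equiv.sum_comp σ fun j => (Γ.δ j : ℤ)]
    simp only [Finset.sum_const, Finset.card_univ, Fintype.card_fin, add_sub_cancel_right,
      nsmul_eq_mul]
    rw [← Nat.cast_mul, Int.toNat_natCast, mul_comm]
  rw [hs] at h
  simp only [Algebra.leftMulMatrix_eq_repr_mul, top, Matrix.of_apply]
  rw [Units.smul_def, Units.smul_def, coeff_smul, h]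

theorem tau_of_mem {a : ℕ} {v : B} (hv : v ∈ Γ.V a) : tau Γ (a + 1) v = 0 := by
  ext l
  exact (memV Γ).1 hv l _ (by push_cast; omega)

theorem mem_of_tau {a : ℕ} {v : B} (hv : v ∈ Γ.V (a + 1)) (h : tau Γ (a + 1) v = 0) :
    v ∈ Γ.V a := by
  rw [memV]
  intro l j hj
  by_cases h1 : ((a + 1 : ℕ) : ℤ) - Γ.δ l < j
  · exact (memV Γ).1 hv l j h1
  · have h2 := congrFun h l
    rw [tau_apply] at h2
    rw [show j = (((a + 1 : ℕ) : ℤ) - Γ.δ l).toNat by push_cast at h1 ⊢; omega]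
    exact h2

theorem tau_surj {N : ℕ} (hN : Γ.dmax ≤ N) (σ : Fin d → ℤ) : ∃ s ∈ Γ.V N, tau Γ N s = σ := by
  have key : ∀ l, Γ.b.repr (Γ.b.equivFun.symm fun l => monomial (N - Γ.δ l) (σ l)) l =
      monomial (N - Γ.δ l) (σ l) := fun l =>
    congrFun (Γ.b.equivFun.apply_symm_apply fun l => monomial (N - Γ.δ l) (σ l)) l
  have hδ : ∀ l, Γ.δ l ≤ N := fun l =>
    le_trans (Finset.le_sup (f := Γ.δ) (Finset.mem_univ l)) hN
  refine ⟨Γ.b.equivFun.symm fun l => monomial (N - Γ.δ l) (σ l), (memV Γ).2 fun l j hj => ?_, ?_⟩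
  · have := hδ l
    rw [key, coeff_monomial, if_neg (by omega)]
  · ext l
    have := hδ l
    rw [tau_apply, key, coeff_monomial, if_pos (by omega)]

omit [NeZero d] in
theorem index_range (A : Matrix (Fin d) (Fin d) ℤ) (hA : A.det ≠ 0) :
    (LinearMap.range A.mulVecLin).toAddSubgroup.index = A.det.natAbs := by
  have hinj : Function.Injective A.mulVecLin := by
    rw [← LinearMap.ker_eq_bot, LinearMap.ker_eq_bot']
    intro v hv
    exact Matrix.eq_zero_of_mulVec_eq_zero hA hv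
  have h := Submodule.natAbs_det_equiv (LinearMap.range A.mulVecLin)
    (LinearEquiv.ofInjective A.mulVecLin hinj)
  have h2 : (LinearMap.range A.mulVecLin).subtype ∘ₗ AddMonoidHom.toIntLinearMap
      ((LinearEquiv.ofInjective A.mulVecLin hinj : _ →+ _)) = Matrix.toLin' A := by
    ext i j
    rfl
  rw [h2, LinearMap.det_toLin'] at h
  exact h.symm

theorem relIndex_eq {m a : ℕ} {f : B} (hf : f ∈ Γ.V m) (hc : (Γ.nrm f).coeff (m * d) ≠ 0)
    (ha : m + Γ.dmax ≤ a + 1) (S S' : AddSubgroup B)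
    (hS : ∀ v, v ∈ S ↔ ∃ u ∈ Γ.V a, ∃ s ∈ Γ.V (a + 1 - m), v = u + f * s)
    (hS' : ∀ v, v ∈ S' ↔ v ∈ Γ.V (a + 1)) :
    S.relIndex S' = ((Γ.nrm f).coeff (m * d)).natAbs := by
  have hN : m + (a + 1 - m) = a + 1 := by omega
  have hmul : ∀ s ∈ Γ.V (a + 1 - m), tau Γ (a + 1) (f * s) =
      (top Γ m f).mulVec (tau Γ (a + 1 - m) s) := fun s hs => by
    have := tau_mul Γ hf hs
    rwa [hN] at this
  have h1 : S ⊓ S' = (LinearMap.range (top Γ m f).mulVecLin).toAddSubgroup.comap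
      (tau Γ (a + 1)) ⊓ S' := by
    ext v
    simp only [AddSubgroup.mem_inf, AddSubgroup.mem_comap, Submodule.mem_toAddSubgroup,
      LinearMap.mem_range, Matrix.mulVecLin_apply, hS, hS']
    refine and_congr_left fun hv => ⟨?_, ?_⟩
    · rintro ⟨u, hu, s, hs, rfl⟩
      exact ⟨tau Γ (a + 1 - m) s, by rw [map_add, tau_of_mem Γ hu, zero_add, hmul s hs]⟩
    · rintro ⟨σ, hσ⟩
      obtain ⟨s, hs, rfl⟩ := tau_surj Γ (N := a + 1 - m) (by omega) σ
      have h2 : f * s ∈ Γ.V (a + 1) := by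
        have := mul_mem Γ hf hs
        rwa [hN] at this
      refine ⟨v - f * s, mem_of_tau Γ (sub_mem Γ hv h2) ?_, s, hs, by ring⟩
      rw [map_sub, hmul s hs, hσ, sub_self]
  have h3 : S'.map (tau Γ (a + 1)) = ⊤ := by
    rw [eq_top_iff]
    intro σ _
    obtain ⟨s, hs, rfl⟩ := tau_surj Γ (N := a + 1) (by omega) σ
    exact ⟨s, (hS' s).2 hs, rfl⟩
  rw [← AddSubgroup.inf_relIndex_right, h1, AddSubgroup.inf_relIndex_right,
    AddSubgroup.relIndex_comap, h3, AddSubgroup.relIndex_top_right,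
    index_range _ (by rwa [det_top Γ hf]), det_top Γ hf]

end Pool.Agent.Lib.BK2.G2
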