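import Mathlib

set_option autoImplicit false

namespace Pool.Agent.Lib.BK2.GEO

variable {L : Type} [Field L] [Algebra ℚ L]

/-- the pair `a, b` dominates `z` at every place -/
def Dom (a b z : L) : Prop :=
  ∀ O : ValuationSubring L, (∀ q : ℚ, algebraMap ℚ L q ∈ O) → ∀ s : L, s * a ∈ O → s * b ∈ O → s * z ∈ O

theorem val_poly (O : ValuationSubring L) (hq : ∀ q : ℚ, algebraMap ℚ L q ∈ O) (x : Fin 2 → L)
    (c : Fin 2 → ℚ) (h : ∀ i, O.valuation (x i - algebraMap ℚ L (c i)) < 1)
    (G : MvPolynomial (Fin 2) ℚ) :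
    O.valuation (MvPolynomial.aeval x G - algebraMap ℚ L (MvPolynomial.eval c G)) < 1 := by
  have h1 : ∀ q : ℚ, O.valuation (algebraMap ℚ L q) ≤ 1 := fun q => (O.valuation_le_one_iff _).2 (hq q)
  induction G using MvPolynomial.induction_on with
  | C a => simp
  | add p q hp hq =>
    have e : MvPolynomial.aeval x (p + q) - algebraMap ℚ L (MvPolynomial.eval c (p + q)) =
        (MvPolynomial.aeval x p - algebraMap ℚ L (MvPolynomial.eval c p)) +
        (MvPolynomial.aeval x q - algebraMap ℚ L (MvPolynomial.eval c q)) := by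
      simp only [map_add]; ring
    rw [e]
    exact Valuation.map_add_lt _ hp hq
  | mul_X p i hp =>
    have e : MvPolynomial.aeval x (p * MvPolynomial.X i) -
        algebraMap ℚ L (MvPolynomial.eval c (p * MvPolynomial.X i)) =
        (MvPolynomial.aeval x p - algebraMap ℚ L (MvPolynomial.eval c p)) *
          (x i - algebraMap ℚ L (c i)) +
        ((MvPolynomial.aeval x p - algebraMap ℚ L (MvPolynomial.eval c p)) * algebraMap ℚ L (c i) +
          algebraMap ℚ L (MvPolynomial.eval c p) * (x i - algebraMap ℚ L (c i))) := by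
      simp only [map_mul, MvPolynomial.aeval_X, MvPolynomial.eval_X]; ring
    rw [e]
    refine Valuation.map_add_lt _ ?_ (Valuation.map_add_lt _ ?_ ?_)
    · rw [map_mul]; exact mul_lt_one_of_lt_of_le hp (h i).le
    · rw [map_mul]; exact mul_lt_one_of_lt_of_le hp (h1 _)
    · rw [map_mul, mul_comm]; exact mul_lt_one_of_lt_of_le (h i) (h1 _)

theorem dom_step (htr : ∀ x : Fin 2 → L, ¬ AlgebraicIndependent ℚ x) (a b z : L) :
    ∃ c0 c1 : ℚ, Dom (a - c0 • z) (b - c1 • z) z := by
  by_cases hz : z = 0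
  · exact ⟨0, 0, fun O _ s _ _ => by rw [hz, mul_zero]; exact O.zero_mem⟩
  have h := htr ![a / z, b / z]
  rw [algebraicIndependent_iff] at h
  push Not at h
  obtain ⟨G, hG, hG0⟩ := h
  obtain ⟨c, hc⟩ : ∃ c : Fin 2 → ℚ, MvPolynomial.eval c G ≠ 0 := by
    by_contra hc
    push Not at hc
    exact hG0 (MvPolynomial.funext fun c => by rw [hc c, map_zero])
  refine ⟨c 0, c 1, fun O hq s ha hb => ?_⟩
  by_contra hs
  have hs0 : s ≠ 0 := by rintro rfl; exact hs (by rw [zero_mul]; exact O.zero_mem)
  have hv : O.valuation (s * z)⁻¹ < 1 := by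
    rw [← O.valuation_le_one_iff, not_le] at hs
    rw [map_inv₀]
    exact inv_lt_one_of_one_lt₀ hs
  have key : ∀ (w : L) (q : ℚ), s * (w - q • z) ∈ O → O.valuation (w / z - algebraMap ℚ L q) < 1 := by
    intro w q hw
    have e : w / z - algebraMap ℚ L q = (s * z)⁻¹ * (s * (w - q • z)) := by
      rw [Algebra.smul_def]; field_simp
    rw [e, map_mul]
    exact mul_lt_one_of_lt_of_le hv ((O.valuation_le_one_iff _).2 hw)
  have h2 := val_poly O hq ![a / z, b / z] c (by
    intro i
    fin_cases i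
    · exact key a (c 0) ha
    · exact key b (c 1) hb) G
  rw [hG, zero_sub, Valuation.map_neg] at h2
  have h3 := (O.valuation_le_one_iff _).2 (hq (MvPolynomial.eval c G)⁻¹)
  have h4 := mul_lt_one_of_lt_of_le h2 h3
  rw [← map_mul, ← map_mul, mul_inv_cancel₀ hc, map_one, map_one] at h4
  exact lt_irrefl _ h4

/-- generic linear projection to the line -/
theorem lin (htr : ∀ x : Fin 2 → L, ¬ AlgebraicIndependent ℚ x) {ι : Type} [Fintype ι]
    (y : ι → L) : ∃ c0 c1 : ι → ℚ, ∀ j, Dom (∑ i, c0 i • y i) (∑ i, c1 i • y i) (y j) := by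
  classical
  have h : ∀ S : Finset ι, ∃ c0 c1 : ι → ℚ, ∀ j ∈ S,
      Dom (∑ i, c0 i • y i) (∑ i, c1 i • y i) (y j) := by
    intro S
    induction S using Finset.induction_on with
    | empty => exact ⟨0, 0, fun j hj => absurd hj (Finset.notMem_empty j)⟩
    | insert k S _ ih =>
      obtain ⟨c0, c1, hc⟩ := ih
      obtain ⟨e0, e1, he⟩ := dom_step htr (∑ i, c0 i • y i) (∑ i, c1 i • y i) (y k)
      have e : ∀ (c : ι → ℚ) (r : ℚ), ∑ i, (c - Pi.single k r : ι → ℚ) i • y i =
          ∑ i, c i • y i - r • y k := by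
        intro c r
        simp only [Pi.sub_apply, sub_smul, Finset.sum_sub_distrib]
        congr 1
        rw [Finset.sum_eq_single k (fun i _ hi => by rw [Pi.single_eq_of_ne hi, zero_smul])
          (fun hk => absurd (Finset.mem_univ k) hk), Pi.single_eq_same]
      refine ⟨c0 - Pi.single k e0, c1 - Pi.single k e1, fun j hj => ?_⟩
      rw [e, e]
      rcases Finset.mem_insert.1 hj with rfl | hj
      · exact he
      · intro O hq s ha hb
        have hz := he O hq s ha hb
        have k2 : ∀ (w : L) (r : ℚ), s * (w - r • y k) ∈ O → s * w ∈ O := by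
          intro w r hw
          have e2 : s * w = s * (w - r • y k) + algebraMap ℚ L r * (s * y k) := by
            rw [Algebra.smul_def]; ring
          rw [e2]
          exact O.add_mem _ _ hw (O.mul_mem _ _ (hq r) hz)
        exact hc j hj O hq s (k2 _ _ ha) (k2 _ _ hb)
  obtain ⟨c0, c1, hc⟩ := h Finset.univ
  exact ⟨c0, c1, fun j => hc j (Finset.mem_univ j)⟩

/-- valuative criterion of integrality over a subalgebra -/
theorem int_of_val (A : Subalgebra ℚ L) (x : L)
    (h : ∀ O : ValuationSubring L, (∀ a ∈ A, a ∈ O) → x ∈ O) : IsIntegral A x := by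
  have h1 := iInf_valuationSubring_superset (s := (A.toSubring : Set L))
  have h2 : x ∈ (integralClosure (Subring.closure (A.toSubring : Set L)) L).toSubring := by
    rw [← h1, Subring.mem_iInf]
    exact fun V => h V.1 fun a ha => V.2 ha
  rw [Subring.closure_eq] at h2
  exact h2

end Pool.Agent.Lib.BK2.GEO
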