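import Pool.Agent.Lib.BK2.Defs

set_option autoImplicit false

namespace Pool.Agent.Lib.BK2.GEO

open Polynomial

theorem den1 (g : ℚ[X]) :
    ∃ c : ℕ, 0 < c ∧ ∃ G : ℤ[X], G.map (Int.castRingHom ℚ) = C (c : ℚ) * g := by
  induction g using Polynomial.induction_on' with
  | add p q hp hq =>
    obtain ⟨c, hc, P, hP⟩ := hp
    obtain ⟨e, he, Q, hQ⟩ := hq
    refine ⟨c * e, Nat.mul_pos hc he, C (e : ℤ) * P + C (c : ℤ) * Q, ?_⟩
    simp only [Polynomial.map_add, Polynomial.map_mul, hP, hQ, Nat.cast_mul, map_mul,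
      map_natCast, Polynomial.map_natCast]
    ring
  | monomial n a =>
    refine ⟨a.den, a.den_pos, monomial n a.num, ?_⟩
    rw [map_monomial, C_mul_monomial, Rat.den_mul_eq_num]
    rfl

theorem den {ι : Type} [Fintype ι] (g : ι → ℚ[X]) :
    ∃ c : ℕ, 0 < c ∧ ∃ G : ι → ℤ[X], ∀ i, (G i).map (Int.castRingHom ℚ) = C (c : ℚ) * g i := by
  classical
  choose c hc G hG using fun i => den1 (g i)
  refine ⟨∏ i, c i, Finset.prod_pos fun i _ => hc i,
    fun i => C ((∏ j ∈ Finset.univ.erase i, c j : ℕ) : ℤ) * G i, fun i => ?_⟩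
  rw [← Finset.prod_erase_mul _ _ (Finset.mem_univ i)]
  simp only [Polynomial.map_mul, hG, Nat.cast_mul, map_mul, map_natCast, Polynomial.map_natCast]
  ring

theorem den_coeff {G : ℤ[X]} {g : ℚ[X]} {c : ℚ} (h : G.map (Int.castRingHom ℚ) = C c * g) {a : ℕ}
    (ha : g.coeff a = 0) : G.coeff a = 0 := by
  have := congrArg (fun p => p.coeff a) h
  simpa [ha] using this

theorem den_aeval {L : Type} [Field L] [Algebra ℚ L] (t : L) {G : ℤ[X]} {g : ℚ[X]} {c : ℕ}
    (h : G.map (Int.castRingHom ℚ) = C (c : ℚ) * g) : aeval t G = c * aeval t g := by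
  have h1 : aeval t (G.map (algebraMap ℤ ℚ)) = aeval t G := aeval_map_algebraMap ℚ t G
  rw [← h1, show algebraMap ℤ ℚ = Int.castRingHom ℚ from rfl, h, map_mul, aeval_C, map_natCast]

theorem deg_le {R : Type} [Semiring R] (g : R[X]) (δ m : ℕ)
    (h : ∀ a, m < a + δ → g.coeff a = 0) : g.degree + (δ : WithBot ℕ) ≤ (m : WithBot ℕ) := by
  by_cases hg : g = 0
  · rw [hg, degree_zero, WithBot.bot_add]; exact bot_le
  · rw [degree_eq_natDegree hg, ← Nat.cast_add, Nat.cast_le]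
    by_contra h1
    exact hg (leadingCoeff_eq_zero.1 (h _ (not_le.1 h1)))

theorem pack {L : Type} [Field L] (t : L) (d : ℕ) (b : Fin (d + 1) → L) (δ : Fin (d + 1) → ℕ)
    (h0 : b 0 = 1) (hδ : δ 0 = 0)
    (hind : ∀ g : Fin (d + 1) → ℤ[X], ∑ i, aeval t (g i) * b i = 0 → g = 0)
    (hmul : ∀ i j, ∃ g : Fin (d + 1) → ℤ[X], (∀ l a, δ i + δ j < a + δ l → (g l).coeff a = 0) ∧
      b i * b j = ∑ l, aeval t (g l) * b l) :
    ∃ (B : Type) (_ : CommRing B) (_ : IsDomain B) (_ : Algebra ℤ[X] B) (Γ : Geo B (d + 1))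
      (ι : B →+* L), Function.Injective ι ∧ ι Γ.t = t ∧ Γ.δ = δ ∧ (∀ i, ι (Γ.b i) = b i) ∧
      ∀ (m : ℕ) (g : Fin (d + 1) → ℤ[X]), (∀ l a, m < a + δ l → (g l).coeff a = 0) →
        ∃ f ∈ Γ.V m, ι f = ∑ l, aeval t (g l) * b l := by
  let _ : Algebra ℤ[X] L := (aeval t : ℤ[X] →ₐ[ℤ] L).toRingHom.toAlgebra
  have hs : ∀ (g : ℤ[X]) (x : L), g • x = aeval t g * x := fun _ _ => rfl
  let M := Submodule.span ℤ[X] (Set.range b)
  have hb : ∀ i, b i ∈ M := fun i => Submodule.subset_span ⟨i, rfl⟩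
  have hM : M * M ≤ M := by
    rw [Submodule.span_mul_span, Submodule.span_le]
    rintro _ ⟨_, ⟨i, rfl⟩, _, ⟨j, rfl⟩, rfl⟩
    obtain ⟨g, _, hg⟩ := hmul i j
    change b i * b j ∈ M
    rw [hg]
    exact M.sum_mem fun l _ => M.smul_mem (g l) (hb l)
  let S : Subalgebra ℤ[X] L := M.toSubalgebra (h0 ▸ hb 0)
    fun x y hx hy => hM (Submodule.mul_mem_mul hx hy)
  let v : Fin (d + 1) → S := fun i => ⟨b i, hb i⟩
  have hv : ∀ g : Fin (d + 1) → ℤ[X], ((∑ l, g l • v l : S) : L) = ∑ l, aeval t (g l) * b l := by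
    intro g
    change S.val _ = _
    rw [map_sum]
    rfl
  have hli : LinearIndependent ℤ[X] v := by
    rw [Fintype.linearIndependent_iff]
    intro g hg i
    have h1 := hv g
    rw [hg] at h1
    exact congrFun (hind g h1.symm) i
  have hsp : ⊤ ≤ Submodule.span ℤ[X] (Set.range v) := by
    rintro ⟨x, hx⟩ -
    obtain ⟨g, hg⟩ := (Submodule.mem_span_range_iff_exists_fun ℤ[X]).1 hx
    exact (Submodule.mem_span_range_iff_exists_fun ℤ[X]).2 ⟨g, Subtype.ext ((hv g).trans hg)⟩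
  let β := Module.Basis.mk hli hsp
  have hβ : ∀ i, β i = v i := Module.Basis.mk_apply hli hsp
  have hr : ∀ (g : Fin (d + 1) → ℤ[X]) l, β.repr (∑ l, g l • v l) l = g l := by
    intro g l
    simp only [← hβ]
    rw [β.repr_sum_self]
  refine ⟨S, inferInstance, inferInstance, inferInstance,
    ⟨β, δ, by rw [hβ]; exact Subtype.ext h0, hδ, fun i j l => ?_⟩, S.val.toRingHom,
    Subtype.val_injective, ?_, rfl, fun i => ?_, fun m g hg => ⟨∑ l, g l • v l, fun l => ?_, hv g⟩⟩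
  · obtain ⟨g, h1, h2⟩ := hmul i j
    have e : β i * β j = ∑ l, g l • v l := by
      rw [hβ, hβ]
      exact Subtype.ext (h2.trans (hv g).symm)
    rw [e, hr]
    exact deg_le _ _ _ (h1 l)
  · change aeval t (X : ℤ[X]) = t
    exact aeval_X t
  · change ((β i : S) : L) = b i
    rw [hβ]
  · change (β.repr _ l).degree + _ ≤ _
    rw [hr]
    exact deg_le _ _ _ (hg l)

/-- integral form of a reduced basis -/
theorem pack2 {L : Type} [Field L] [Algebra ℚ L] (t : L) (d : ℕ) (b : Fin (d + 1) → L)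
    (δ : Fin (d + 1) → ℕ) (h0 : b 0 = 1) (hδ : δ 0 = 0)
    (hind : ∀ g : Fin (d + 1) → ℚ[X], ∑ i, aeval t (g i) * b i = 0 → g = 0)
    (hmul : ∀ i j, ∃ g : Fin (d + 1) → ℚ[X], (∀ l a, δ i + δ j < a + δ l → (g l).coeff a = 0) ∧
      b i * b j = ∑ l, aeval t (g l) * b l) :
    ∃ (B : Type) (_ : CommRing B) (_ : IsDomain B) (_ : Algebra ℤ[X] B) (Γ : Geo B (d + 1))
      (ι : B →+* L), Function.Injective ι ∧ ι Γ.t = t ∧ Γ.δ = δ ∧
      (∀ i, ∃ c : ℕ, ι (Γ.b i) = c * b i) ∧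
      ∀ (m : ℕ) (κ : Type) [Fintype κ] (g : κ → Fin (d + 1) → ℚ[X]),
        (∀ j l a, m < a + δ l → (g j l).coeff a = 0) →
        ∃ c : ℕ, 0 < c ∧ ∀ j, ∃ f ∈ Γ.V m, ι f = c * ∑ l, aeval t (g j l) * b l := by
  have : CharZero L := algebraRat.charZero L
  choose g hg1 hg2 using hmul
  obtain ⟨c, hc, G, hG⟩ := den fun x : Fin (d + 1) × Fin (d + 1) × Fin (d + 1) => g x.1 x.2.1 x.2.2
  let w : Fin (d + 1) → ℕ := fun i => if i = 0 then 1 else c
  let w' : Fin (d + 1) → ℕ := fun i => if i = 0 then c else 1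
  have hw : ∀ i, (w' i : L) * w i = c := fun i => by
    simp only [w, w']
    split_ifs <;> simp
  have hw0 : ∀ i, w i ≠ 0 := fun i => by
    simp only [w]
    split_ifs <;> omega
  have key : ∀ (c' : ℕ) (γ : Fin (d + 1) → ℚ[X]) (Γ : Fin (d + 1) → ℤ[X]),
      (∀ l, (Γ l).map (Int.castRingHom ℚ) = C (c' : ℚ) * γ l) →
      ∑ l, aeval t (C (w' l : ℤ) * Γ l) * (w l * b l) = c * c' * ∑ l, aeval t (γ l) * b l := by
    intro c' γ Γ h
    rw [Finset.mul_sum]
    refine Finset.sum_congr rfl fun l _ => ?_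
    rw [map_mul, aeval_C, map_natCast, den_aeval t (h l), ← hw l]
    ring
  have one : ∀ j : Fin (d + 1), ∃ g : Fin (d + 1) → ℤ[X],
      (∀ l a, δ j < a + δ l → (g l).coeff a = 0) ∧
      (w j : L) * b j = ∑ l, aeval t (g l) * (w l * b l) := by
    intro j
    refine ⟨Pi.single j 1, fun l a ha => ?_, ?_⟩
    · by_cases h : l = j
      · rw [h, Pi.single_eq_same, coeff_one, if_neg]
        rintro rfl
        rw [h] at ha
        omega
      · rw [Pi.single_eq_of_ne h, coeff_zero]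
    · rw [Finset.sum_eq_single j (fun i _ hi => by rw [Pi.single_eq_of_ne hi, map_zero, zero_mul])
        (fun h => absurd (Finset.mem_univ _) h), Pi.single_eq_same, map_one, one_mul]
  obtain ⟨B, i1, i2, i3, Γ, ι, a1, a2, a3, a4, a5⟩ := pack t d (fun i => w i * b i) δ
    (by simp [w, h0]) hδ
    (by
      intro γ hγ
      have h1 := hind (fun i => C (w i : ℚ) * (γ i).map (algebraMap ℤ ℚ)) (by
        rw [← hγ]
        refine Finset.sum_congr rfl fun i _ => ?_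
        rw [map_mul, aeval_C, map_natCast, aeval_map_algebraMap]
        ring)
      funext i
      have h2 : C (w i : ℚ) * (γ i).map (algebraMap ℤ ℚ) = 0 := congrFun h1 i
      rcases mul_eq_zero.1 h2 with h3 | h3
      · exact absurd (Nat.cast_eq_zero.1 (C_eq_zero.1 h3)) (hw0 i)
      · exact (Polynomial.map_eq_zero_iff (RingHom.injective_int _)).1 h3)
    (by
      intro i j
      by_cases hi : i = 0
      · obtain ⟨γ, h1, h2⟩ := one j
        exact ⟨γ, by rw [hi, hδ, zero_add]; exact h1, by rw [← h2, hi, h0]; simp [w]⟩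
      by_cases hj : j = 0
      · obtain ⟨γ, h1, h2⟩ := one i
        exact ⟨γ, by rw [hj, hδ, add_zero]; exact h1, by rw [← h2, hj, h0]; simp [w]⟩
      refine ⟨fun l => C (w' l : ℤ) * G (i, j, l), fun l a ha => ?_, ?_⟩
      · rw [coeff_C_mul, den_coeff (hG (i, j, l)) (hg1 i j l a ha), mul_zero]
      · rw [key c (g i j) _ fun l => hG (i, j, l), ← hg2]
        simp only [w, if_neg hi, if_neg hj]
        ring)
  refine ⟨B, i1, i2, i3, Γ, ι, a1, a2, a3, fun i => ⟨w i, a4 i⟩, fun m κ _ γ hγ => ?_⟩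
  obtain ⟨c', hc', G', hG'⟩ := den fun x : κ × Fin (d + 1) => γ x.1 x.2
  refine ⟨c * c', Nat.mul_pos hc hc', fun j => ?_⟩
  obtain ⟨f, h1, h2⟩ := a5 m (fun l => C (w' l : ℤ) * G' (j, l)) fun l a ha => by
    rw [coeff_C_mul, den_coeff (hG' (j, l)) (hγ j l a ha), mul_zero]
  exact ⟨f, h1, by rw [h2, key c' (γ j) _ fun l => hG' (j, l), Nat.cast_mul]⟩

end Pool.Agent.Lib.BK2.GEO
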