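import Mathlib

set_option autoImplicit false

namespace Pool.Agent.Lib.BK2.GEO

open Polynomial

theorem flag0 {k E : Type} [Field k] [AddCommGroup E] [Module k E] (W : ℕ → Submodule k E)
    (hW : Monotone W) (T : Submodule k E) [FiniteDimensional k T] (hT : ∀ m, W m ≤ T) (j : ℕ) :
    ∀ S : Finset E, LinearIndepOn k id (S : Set E) → (∀ v ∈ S, ∃ m, v ∈ W m) →
      (∀ m, (S : Set E) ⊆ W m ∨ W m ≤ Submodule.span k ((S : Set E) ∩ W m)) →
      Module.finrank k T < S.card + j →
      ∃ S' : Finset E, S ⊆ S' ∧ LinearIndepOn k id (S' : Set E) ∧ (∀ v ∈ S', ∃ m, v ∈ W m) ∧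
        ∀ m, W m ≤ Submodule.span k ((S' : Set E) ∩ W m) := by
  classical
  induction j with
  | zero =>
    intro S h1 h2 _ h4
    exfalso
    have h5 : LinearIndependent k fun v : S =>
        (⟨v.1, by obtain ⟨m, hm⟩ := h2 v.1 v.2; exact hT m hm⟩ : T) :=
      LinearIndependent.of_comp T.subtype h1
    have h6 := h5.fintype_card_le_finrank
    rw [Fintype.card_coe] at h6
    omega
  | succ j ih =>
    intro S h1 h2 h3 h4
    by_cases h : ∀ m, W m ≤ Submodule.span k ((S : Set E) ∩ W m)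
    · exact ⟨S, subset_rfl, h1, h2, h⟩
    push Not at h
    have hm := Nat.find_spec h
    have hmin := fun m' (hm' : m' < Nat.find h) => not_not.1 (Nat.find_min h hm')
    have hS : (S : Set E) ⊆ W (Nat.find h) := (h3 _).resolve_right hm
    rw [Set.inter_eq_left.2 hS, SetLike.not_le_iff_exists] at hm
    obtain ⟨v, hv, hv'⟩ := hm
    have hvS : v ∉ S := fun e => hv' (Submodule.subset_span e)
    obtain ⟨S', a1, a2⟩ := ih (insert v S)
      (by rw [Finset.coe_insert]; exact h1.id_insert hv')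
      (by
        intro u hu
        rcases Finset.mem_insert.1 hu with rfl | hu
        · exact ⟨_, hv⟩
        · exact h2 u hu)
      (by
        intro m
        rcases lt_or_ge m (Nat.find h) with hl | hl
        · refine Or.inr ((hmin m hl).trans (Submodule.span_mono ?_))
          rw [Finset.coe_insert]
          exact Set.inter_subset_inter_left _ (Set.subset_insert _ _)
        · left
          rw [Finset.coe_insert]
          exact Set.insert_subset (hW hl hv) (hS.trans (hW hl)))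
      (by rw [Finset.card_insert_of_notMem hvS]; omega)
    exact ⟨S', (Finset.subset_insert _ _).trans a1, a2⟩

/-- a basis adapted to a flag -/
theorem flag {k E : Type} [Field k] [AddCommGroup E] [Module k E] (W : ℕ → Submodule k E)
    (hW : Monotone W) (T : Submodule k E) [FiniteDimensional k T] (hT : ∀ m, W m ≤ T) (w : E)
    (h0 : w ≠ 0) (hw : w ∈ W 0) :
    ∃ (d : ℕ) (β : Fin (d + 1) → E) (δ : Fin (d + 1) → ℕ), β 0 = w ∧ δ 0 = 0 ∧
      LinearIndependent k β ∧ (∀ i, β i ∈ W (δ i)) ∧ ∀ m, ∀ v ∈ W m,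
        ∃ c : Fin (d + 1) → k, (∀ i, m < δ i → c i = 0) ∧ v = ∑ i, c i • β i := by
  classical
  obtain ⟨S, a1, a2, a3, a4⟩ := flag0 W hW T hT (Module.finrank k T + 1) {w}
    (by rw [Finset.coe_singleton]; exact LinearIndepOn.singleton h0)
    (fun v hv => ⟨0, by rw [Finset.mem_singleton.1 hv]; exact hw⟩)
    (fun m => Or.inl (by rw [Finset.coe_singleton]; exact Set.singleton_subset_iff.2 (hW m.zero_le hw)))
    (by omega)
  have hwS : w ∈ S := a1 (Finset.mem_singleton_self w)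
  obtain ⟨d, hd⟩ : ∃ d, S.card = d + 1 :=
    Nat.exists_eq_succ_of_ne_zero (Finset.card_ne_zero.2 ⟨w, hwS⟩)
  let e0 : S ≃ Fin (d + 1) := S.equivFinOfCardEq hd
  let e : Fin (d + 1) ≃ S := (Equiv.swap 0 (e0 ⟨w, hwS⟩)).trans e0.symm
  have he : (e 0).1 = w := by simp [e]
  refine ⟨d, fun i => (e i).1, fun i => Nat.find (a3 _ (e i).2), he, ?_,
    LinearIndependent.comp a2 e e.injective, fun i => Nat.find_spec (a3 _ (e i).2), fun m v hv => ?_⟩
  · rw [Nat.find_eq_zero, he]; exact hw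
  · refine Submodule.span_induction (p := fun v _ => ∃ c : Fin (d + 1) → k,
      (∀ i, m < Nat.find (a3 _ (e i).2) → c i = 0) ∧ v = ∑ i, c i • (e i).1) ?_ ?_ ?_ ?_ (a4 m hv)
    · rintro u ⟨hu, hu'⟩
      refine ⟨Pi.single (e.symm ⟨u, hu⟩) 1, fun i hi => ?_, ?_⟩
      · refine Pi.single_eq_of_ne ?_ _
        rintro rfl
        refine Nat.find_min _ hi ?_
        rw [e.apply_symm_apply]; exact hu'
      · rw [Finset.sum_eq_single (e.symm ⟨u, hu⟩)
          (fun i _ hi => by rw [Pi.single_eq_of_ne hi, zero_smul])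
          (fun h => absurd (Finset.mem_univ _) h), Pi.single_eq_same, one_smul, e.apply_symm_apply]
    · exact ⟨0, fun _ _ => rfl, by simp⟩
    · rintro u u' _ _ ⟨c, hc, rfl⟩ ⟨c', hc', rfl⟩
      refine ⟨c + c', fun i hi => by rw [Pi.add_apply, hc i hi, hc' i hi, add_zero], ?_⟩
      simp only [Pi.add_apply, add_smul, Finset.sum_add_distrib]
    · rintro a u _ ⟨c, hc, rfl⟩
      refine ⟨a • c, fun i hi => by rw [Pi.smul_apply, hc i hi, smul_zero], ?_⟩
      simp only [Pi.smul_apply, smul_eq_mul, mul_smul, Finset.smul_sum]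

variable {L : Type} [Field L] [Algebra ℚ L]

/-- elements `g` with `u * g` in `B` -/
def col (B : Subalgebra ℚ L) (u : L) : Submodule ℚ L :=
  B.toSubmodule.comap (LinearMap.mulLeft ℚ u)

theorem mem_col {B : Subalgebra ℚ L} {u g : L} : g ∈ col B u ↔ u * g ∈ B := Iff.rfl

/-- reduced basis -/
theorem rb (t : L) (B B' : Subalgebra ℚ L) (ht : t ∈ B) (hs : t⁻¹ ∈ B')
    (t0 : t ≠ 0) (hBB : ∀ f ∈ B, t * f ∈ B' → f = 0)
    (T : Finset L) (hT : ∀ g ∈ B', ∃ g0 ∈ Submodule.span ℚ (T : Set L), t * (g - g0) ∈ B') :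
    ∃ (d : ℕ) (b : Fin (d + 1) → L) (δ : Fin (d + 1) → ℕ), b 0 = 1 ∧ δ 0 = 0 ∧
      (∀ i, b i ∈ B ∧ t⁻¹ ^ δ i * b i ∈ B') ∧
      (∀ m, ∀ f ∈ B, t⁻¹ ^ m * f ∈ B' → ∃ g : Fin (d + 1) → ℚ[X],
        (∀ i a, m < a + δ i → (g i).coeff a = 0) ∧ f = ∑ i, aeval t (g i) * b i) ∧
      ∀ g : Fin (d + 1) → ℚ[X], ∑ i, aeval t (g i) * b i = 0 → g = 0 := by
  classical
  let N := col B' t
  let W : ℕ → Submodule ℚ (L ⧸ N) := fun m => (B'.toSubmodule ⊓ col B (t ^ m)).map N.mkQ
  have hW : Monotone W := by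
    refine monotone_nat_of_le_succ fun m => Submodule.map_mono ?_
    rintro g ⟨h1, h2⟩
    refine ⟨h1, ?_⟩
    have h3 : t ^ m * g ∈ B := h2
    change t ^ (m + 1) * g ∈ B
    rw [pow_succ', mul_assoc]
    exact B.mul_mem ht h3
  have hfd : FiniteDimensional ℚ ((Submodule.span ℚ (T : Set L)).map N.mkQ) := inferInstance
  obtain ⟨d, β, δ, a1, a2, a3, a4, a5⟩ := flag W hW ((Submodule.span ℚ (T : Set L)).map N.mkQ)
    (by
      rintro m _ ⟨g, ⟨h1, _⟩, rfl⟩
      obtain ⟨g0, h2, h3⟩ := hT g h1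
      exact ⟨g0, h2, ((Submodule.Quotient.eq N).2 h3).symm⟩)
    (N.mkQ 1)
    (by
      intro h
      exact one_ne_zero (hBB 1 B.one_mem ((Submodule.Quotient.mk_eq_zero N).1 h)))
    ⟨1, ⟨B'.one_mem, by change t ^ 0 * 1 ∈ B; rw [pow_zero, mul_one]; exact B.one_mem⟩, rfl⟩
  have a6 : ∀ i, ∃ g : L, g ∈ B' ∧ t ^ δ i * g ∈ B ∧ N.mkQ g = β i ∧ (i = 0 → g = 1) := by
    intro i
    by_cases hi : i = 0
    · refine ⟨1, B'.one_mem, ?_, ?_, fun _ => rfl⟩
      · rw [hi, a2, pow_zero, mul_one]; exact B.one_mem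
      · rw [hi, a1]
    · obtain ⟨g, ⟨h1, h2⟩, h3⟩ := a4 i
      exact ⟨g, h1, h2, h3, fun h => absurd h hi⟩
  choose γ g1 g2 g3 g4 using a6
  have top : ∀ (m : ℕ) (c : Fin (d + 1) → ℚ), (∀ i, m < δ i → c i = 0) →
      t⁻¹ ^ m * ∑ i, aeval t (monomial (m - δ i) (c i)) * (t ^ δ i * γ i) = ∑ i, c i • γ i := by
    intro m c hc
    rw [Finset.mul_sum]
    refine Finset.sum_congr rfl fun i _ => ?_
    rcases lt_or_ge m (δ i) with h | h
    · simp [hc i h]
    · obtain ⟨r, rfl⟩ := Nat.exists_eq_add_of_le h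
      rw [aeval_monomial, Nat.add_sub_cancel_left, Algebra.smul_def, inv_pow]
      field_simp
      ring
  have hB : ∀ (g : ℚ[X]) i, aeval t g * (t ^ δ i * γ i) ∈ B := fun g i =>
    B.mul_mem (by
      rw [aeval_eq_sum_range]
      exact B.sum_mem fun a _ => B.smul_mem (B.pow_mem ht a) _) (g2 i)
  have low : ∀ (m : ℕ) (g : ℚ[X]) i, (∀ a, m ≤ a + δ i → g.coeff a = 0) →
      t * (t⁻¹ ^ m * (aeval t g * (t ^ δ i * γ i))) ∈ B' := by
    intro m g i hg
    rw [aeval_eq_sum_range, Finset.sum_mul, Finset.mul_sum, Finset.mul_sum]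
    refine B'.sum_mem fun a _ => ?_
    rcases le_or_gt m (a + δ i) with h | h
    · rw [hg a h, zero_smul, zero_mul, mul_zero, mul_zero]; exact B'.zero_mem
    · obtain ⟨r, rfl⟩ := Nat.exists_eq_add_of_lt h
      have e : t * (t⁻¹ ^ (a + δ i + r + 1) * (g.coeff a • t ^ a * (t ^ δ i * γ i))) =
          g.coeff a • (t⁻¹ ^ r * γ i) := by
        rw [Algebra.smul_def, Algebra.smul_def, inv_pow, inv_pow]
        field_simp
        ring
      rw [e]
      exact B'.smul_mem (B'.mul_mem (B'.pow_mem hs r) (g1 i)) _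
  have sp : ∀ m, ∀ f ∈ B, t * (t⁻¹ ^ m * f) ∈ B' → ∃ g : Fin (d + 1) → ℚ[X],
      (∀ i a, m ≤ a + δ i → (g i).coeff a = 0) ∧ f = ∑ i, aeval t (g i) * (t ^ δ i * γ i) := by
    intro m
    induction m with
    | zero =>
      intro f h1 h2
      rw [pow_zero, one_mul] at h2
      exact ⟨0, fun _ _ _ => by simp, by simp [hBB f h1 h2]⟩
    | succ m ih =>
      intro f h1 h2
      have h3 : t⁻¹ ^ m * f ∈ B' := by
        rwa [pow_succ', mul_assoc, mul_inv_cancel_left₀ t0] at h2
      obtain ⟨c, hc, h4⟩ := a5 m (N.mkQ (t⁻¹ ^ m * f)) ⟨_, ⟨h3, by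
        change t ^ m * (t⁻¹ ^ m * f) ∈ B
        rwa [inv_pow, mul_inv_cancel_left₀ (pow_ne_zero m t0)]⟩, rfl⟩
      have h5 : t * (t⁻¹ ^ m * f - ∑ i, c i • γ i) ∈ B' := by
        refine (Submodule.Quotient.eq N).1 ?_
        change N.mkQ _ = N.mkQ _
        rw [h4, map_sum]
        exact Finset.sum_congr rfl fun i _ => by rw [map_smul, g3]
      rw [← top m c hc, ← mul_sub] at h5
      obtain ⟨g, h6, h7⟩ := ih _ (B.sub_mem h1 (B.sum_mem fun i _ => hB _ i)) h5
      refine ⟨fun i => g i + monomial (m - δ i) (c i), fun i a ha => ?_, ?_⟩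
      · rw [coeff_add, h6 i a (by omega), zero_add, coeff_monomial]
        split_ifs with h8
        · exact hc i (by omega)
        · rfl
      · simp only [map_add, add_mul, Finset.sum_add_distrib]
        rw [← h7, sub_add_cancel]
  have ind : ∀ (m : ℕ) (g : Fin (d + 1) → ℚ[X]), (∀ i a, m ≤ a + δ i → (g i).coeff a = 0) →
      ∑ i, aeval t (g i) * (t ^ δ i * γ i) = 0 → g = 0 := by
    intro m
    induction m with
    | zero =>
      intro g hg _
      ext i a
      simpa using hg i a (Nat.zero_le _)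
    | succ m ih =>
      intro g hg h0
      let c : Fin (d + 1) → ℚ := fun i => if δ i ≤ m then (g i).coeff (m - δ i) else 0
      have hc : ∀ i, m < δ i → c i = 0 := fun i hi => if_neg (by omega)
      have h1 : ∀ i a, m ≤ a + δ i → (g i - monomial (m - δ i) (c i)).coeff a = 0 := by
        intro i a ha
        rw [coeff_sub, coeff_monomial]
        by_cases h2 : m = a + δ i
        · rw [if_pos (by omega), sub_eq_zero]
          simp only [c]
          rw [if_pos (by omega)]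
          congr 1
          omega
        · rw [hg i a (by omega), zero_sub, neg_eq_zero]
          split_ifs with h3
          · exact hc i (by omega)
          · rfl
      have h2 := B'.sum_mem fun i (_ : i ∈ Finset.univ) => low m _ i (h1 i)
      rw [← Finset.mul_sum, ← Finset.mul_sum] at h2
      simp only [map_sub, sub_mul, Finset.sum_sub_distrib] at h2
      rw [h0, zero_sub, mul_neg, top m c hc, mul_neg] at h2
      have h3 : N.mkQ (∑ i, c i • γ i) = 0 :=
        (Submodule.Quotient.mk_eq_zero N).2 (by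
          have := B'.neg_mem h2
          rwa [neg_neg] at this)
      rw [map_sum] at h3
      simp only [map_smul, g3] at h3
      have h4 := Fintype.linearIndependent_iff.1 a3 c h3
      refine ih g (fun i a ha => ?_) h0
      have h5 := h1 i a ha
      rwa [h4 i, monomial_zero_right, sub_zero] at h5
  refine ⟨d, fun i => t ^ δ i * γ i, δ, ?_, a2, fun i => ⟨g2 i, ?_⟩, fun m f h1 h2 => ?_, fun g hg => ?_⟩
  · change t ^ δ 0 * γ 0 = 1
    rw [a2, g4 0 rfl, pow_zero, mul_one]
  · rw [inv_pow, inv_mul_cancel_left₀ (pow_ne_zero _ t0)]; exact g1 i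
  · exact sp (m + 1) f h1 (by rwa [pow_succ', mul_assoc, mul_inv_cancel_left₀ t0])
  · refine ind ((Finset.univ.sup fun i => (g i).natDegree + δ i) + 1) g (fun i a ha => ?_) hg
    have := Finset.le_sup (f := fun i => (g i).natDegree + δ i) (Finset.mem_univ i)
    exact coeff_eq_zero_of_natDegree_lt (by omega)

end Pool.Agent.Lib.BK2.GEO
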