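import Pool.Agent.Lib.BK2.GDefs
import Pool.Agent.Lib.BK2.GeoLin
import Pool.Agent.Lib.BK2.GeoRB
import Pool.Agent.Lib.BK2.GeoPack

set_option autoImplicit false

namespace Pool.Agent.Lib.BK2.GEO

open Polynomial

variable {L : Type} [Field L] [Algebra ℚ L] {n : ℕ}

/-- `z` is the value at `y` of a form of degree `a` -/
def Fm (y : Fin (n + 1) → L) (a : ℕ) (z : L) : Prop :=
  ∃ P : MvPolynomial (Fin (n + 1)) ℚ, P.IsHomogeneous a ∧ MvPolynomial.aeval y P = z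

variable {y : Fin (n + 1) → L}

theorem Fm.mul {a b : ℕ} {z w : L} (h : Fm y a z) (h' : Fm y b w) : Fm y (a + b) (z * w) := by
  obtain ⟨P, h1, rfl⟩ := h
  obtain ⟨Q, h2, rfl⟩ := h'
  exact ⟨P * Q, h1.mul h2, map_mul _ _ _⟩

theorem Fm.add {a : ℕ} {z w : L} (h : Fm y a z) (h' : Fm y a w) : Fm y a (z + w) := by
  obtain ⟨P, h1, rfl⟩ := h
  obtain ⟨Q, h2, rfl⟩ := h'
  exact ⟨P + Q, h1.add h2, map_add _ _ _⟩

theorem Fm.const (q : ℚ) : Fm y 0 (algebraMap ℚ L q) :=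
  ⟨MvPolynomial.C q, MvPolynomial.isHomogeneous_C _ _, MvPolynomial.aeval_C _ _⟩

theorem Fm.zero (a : ℕ) : Fm y a 0 := ⟨0, MvPolynomial.isHomogeneous_zero _ _ _, map_zero _⟩

theorem Fm.pow {z : L} (h : Fm y 1 z) (a : ℕ) : Fm y a (z ^ a) := by
  obtain ⟨P, h1, rfl⟩ := h
  exact ⟨P ^ a, by simpa using h1.pow a, map_pow _ _ _⟩

theorem Fm.of_eq {a b : ℕ} {z w : L} (h : Fm y a z) (e : a = b) (e' : z = w) : Fm y b w :=
  e ▸ e' ▸ h

/-- a linear form -/
noncomputable def lf (c : Fin (n + 1) → ℚ) : MvPolynomial (Fin (n + 1)) ℚ :=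
  ∑ j, MvPolynomial.C (c j) * MvPolynomial.X j

theorem lf_hom (c : Fin (n + 1) → ℚ) : (lf c).IsHomogeneous 1 :=
  MvPolynomial.IsHomogeneous.sum _ _ _ fun j _ =>
    (MvPolynomial.isHomogeneous_X ℚ j).C_mul _

theorem lf_aeval {A : Type} [CommRing A] [Algebra ℚ A] (z : Fin (n + 1) → A) (c : Fin (n + 1) → ℚ) :
    MvPolynomial.aeval z (lf c) = ∑ j, algebraMap ℚ A (c j) * z j := by
  simp [lf]

theorem Fm.up {Y f : L} (hY : Fm y 1 Y) {a b : ℕ} (h : Fm y a (Y ^ a * f)) (hab : a ≤ b) :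
    Fm y b (Y ^ b * f) := by
  obtain ⟨r, rfl⟩ := Nat.exists_eq_add_of_le hab
  exact (h.mul (hY.pow r)).of_eq rfl (by ring)

/-- the affine chart `Y ≠ 0` -/
def ch (y : Fin (n + 1) → L) (Y : L) : Subalgebra ℚ L := Algebra.adjoin ℚ (Set.range fun j => y j / Y)

theorem ch_fm {Y : L} (hY : Fm y 1 Y) (h0 : Y ≠ 0) {f : L} (hf : f ∈ ch y Y) :
    ∃ a, Fm y a (Y ^ a * f) := by
  induction hf using Algebra.adjoin_induction with
  | mem x hx =>
    obtain ⟨j, rfl⟩ := hx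
    exact ⟨1, MvPolynomial.X j, MvPolynomial.isHomogeneous_X ℚ j, by
      rw [MvPolynomial.aeval_X]; field_simp⟩
  | algebraMap q => exact ⟨0, (Fm.const q).of_eq rfl (by ring)⟩
  | add f g _ _ hf hg =>
    obtain ⟨a, ha⟩ := hf
    obtain ⟨b, hb⟩ := hg
    exact ⟨a + b, ((hY.up ha (Nat.le_add_right a b)).add (hY.up hb (Nat.le_add_left b a))).of_eq rfl
      (by ring)⟩
  | mul f g _ _ hf hg =>
    obtain ⟨a, ha⟩ := hf
    obtain ⟨b, hb⟩ := hg
    exact ⟨a + b, (ha.mul hb).of_eq rfl (by ring)⟩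

theorem y_mem (Y : L) (j : Fin (n + 1)) : y j / Y ∈ ch y Y := Algebra.subset_adjoin ⟨j, rfl⟩

theorem lin_mem (Y : L) (c : Fin (n + 1) → ℚ) : (∑ j, algebraMap ℚ L (c j) * y j) / Y ∈ ch y Y := by
  rw [Finset.sum_div]
  refine Subalgebra.sum_mem _ fun j _ => ?_
  rw [mul_div_assoc]
  exact Subalgebra.mul_mem _ (Subalgebra.algebraMap_mem _ _) (y_mem Y j)

theorem ch_le {Y Y' : L} (h0 : Y ≠ 0) (hd : ∀ j, Dom Y Y' (y j)) (O : ValuationSubring L)
    (hq : ∀ q : ℚ, algebraMap ℚ L q ∈ O) (ht : Y' / Y ∈ O) {f : L} (hf : f ∈ ch y Y) : f ∈ O := by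
  induction hf using Algebra.adjoin_induction with
  | mem x hx =>
    obtain ⟨j, rfl⟩ := hx
    have := hd j O hq Y⁻¹ (by rw [inv_mul_cancel₀ h0]; exact O.one_mem) (by rwa [inv_mul_eq_div])
    rwa [inv_mul_eq_div] at this
  | algebraMap q => exact hq q
  | add f g _ _ hf hg => exact O.add_mem _ _ hf hg
  | mul f g _ _ hf hg => exact O.mul_mem _ _ hf hg

theorem alg_of_val (x : L) (h : ∀ O : ValuationSubring L, (∀ q : ℚ, algebraMap ℚ L q ∈ O) → x ∈ O) :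
    IsAlgebraic ℚ x := by
  have h1 := int_of_val ⊥ x fun O hO => h O fun q => hO _ (Subalgebra.algebraMap_mem _ q)
  exact (isIntegral_trans (R := ℚ) x h1).isAlgebraic

theorem ch_shift {Y Y' : L} (h0 : Y ≠ 0) (hs : Y / Y' ∈ ch y Y') {f : L} (hf : f ∈ ch y Y) :
    ∃ m, (Y / Y') ^ m * f ∈ ch y Y' := by
  induction hf using Algebra.adjoin_induction with
  | mem x hx =>
    obtain ⟨j, rfl⟩ := hx
    refine ⟨1, ?_⟩
    rw [show (Y / Y') ^ 1 * (y j / Y) = y j / Y' by field_simp]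
    exact y_mem Y' j
  | algebraMap q => exact ⟨0, by rw [pow_zero, one_mul]; exact Subalgebra.algebraMap_mem _ q⟩
  | add f g _ _ hf hg =>
    obtain ⟨a, ha⟩ := hf
    obtain ⟨b, hb⟩ := hg
    refine ⟨a + b, ?_⟩
    rw [show (Y / Y') ^ (a + b) * (f + g) = (Y / Y') ^ b * ((Y / Y') ^ a * f) +
      (Y / Y') ^ a * ((Y / Y') ^ b * g) by ring]
    exact add_mem (mul_mem (pow_mem hs b) ha) (mul_mem (pow_mem hs a) hb)
  | mul f g _ _ hf hg =>
    obtain ⟨a, ha⟩ := hf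
    obtain ⟨b, hb⟩ := hg
    refine ⟨a + b, ?_⟩
    rw [show (Y / Y') ^ (a + b) * (f * g) = ((Y / Y') ^ a * f) * ((Y / Y') ^ b * g) by ring]
    exact mul_mem ha hb

theorem ch_fin {Y Y' : L} (h0 : Y ≠ 0) (h0' : Y' ≠ 0) (hd : ∀ j, Dom Y Y' (y j))
    (hs : Y' / Y ∈ ch y Y) :
    ∃ T : Finset L, ∀ g ∈ ch y Y, ∃ g0 ∈ Submodule.span ℚ (T : Set L),
      Y / Y' * (g - g0) ∈ ch y Y := by
  let A := Algebra.adjoin ℚ {Y' / Y}
  have hA : A ≤ ch y Y := Algebra.adjoin_le (Set.singleton_subset_iff.2 hs)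
  have hA2 : ∀ a ∈ A, ∃ q : ℚ, Y / Y' * (a - algebraMap ℚ L q) ∈ ch y Y := by
    intro a ha
    induction ha using Algebra.adjoin_induction with
    | mem x hx =>
      refine ⟨0, ?_⟩
      rw [hx, show Y / Y' * (Y' / Y - algebraMap ℚ L 0) = 1 by rw [map_zero]; field_simp; ring]
      exact one_mem _
    | algebraMap q => exact ⟨q, by rw [sub_self, mul_zero]; exact zero_mem _⟩
    | add f g _ _ hf hg =>
      obtain ⟨a, ha⟩ := hf
      obtain ⟨b, hb⟩ := hg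
      refine ⟨a + b, ?_⟩
      rw [show Y / Y' * (f + g - algebraMap ℚ L (a + b)) = Y / Y' * (f - algebraMap ℚ L a) +
        Y / Y' * (g - algebraMap ℚ L b) by rw [map_add]; ring]
      exact add_mem ha hb
    | mul f g h1 _ hf hg =>
      obtain ⟨a, ha⟩ := hf
      obtain ⟨b, hb⟩ := hg
      refine ⟨a * b, ?_⟩
      rw [show Y / Y' * (f * g - algebraMap ℚ L (a * b)) = f * (Y / Y' * (g - algebraMap ℚ L b)) +
        Y / Y' * (f - algebraMap ℚ L a) * algebraMap ℚ L b by rw [map_mul]; ring]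
      exact add_mem (mul_mem (hA h1) hb) (mul_mem ha (Subalgebra.algebraMap_mem _ b))
  have hI : ∀ x ∈ Set.range fun j => y j / Y, IsIntegral A x := by
    rintro _ ⟨j, rfl⟩
    exact int_of_val A _ fun O hO => ch_le h0 hd O
      (fun q => hO _ (Subalgebra.algebraMap_mem _ q))
      (hO _ (Algebra.subset_adjoin (Set.mem_singleton _))) (y_mem Y j)
  obtain ⟨T, hT⟩ := fg_adjoin_of_finite (Set.finite_range _) hI
  have hle : ∀ x ∈ Algebra.adjoin A (Set.range fun j => y j / Y), x ∈ ch y Y := by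
    intro x hx
    induction hx using Algebra.adjoin_induction with
    | mem x hx => exact Algebra.subset_adjoin hx
    | algebraMap a => exact hA a.2
    | add f g _ _ hf hg => exact add_mem hf hg
    | mul f g _ _ hf hg => exact mul_mem hf hg
  refine ⟨T, fun g hg => ?_⟩
  have hg' : g ∈ Submodule.span A (T : Set L) := by
    rw [hT]
    exact (Algebra.adjoin_le (S := (Algebra.adjoin A (Set.range fun j => y j / Y)).restrictScalars ℚ)
      Algebra.subset_adjoin) hg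
  clear hg
  induction hg' using Submodule.span_induction with
  | mem x hx => exact ⟨x, Submodule.subset_span hx, by rw [sub_self, mul_zero]; exact zero_mem _⟩
  | zero => exact ⟨0, zero_mem _, by rw [sub_self, mul_zero]; exact zero_mem _⟩
  | add f g _ _ hf hg =>
    obtain ⟨a, a1, ha⟩ := hf
    obtain ⟨b, b1, hb⟩ := hg
    refine ⟨a + b, add_mem a1 b1, ?_⟩
    rw [show Y / Y' * (f + g - (a + b)) = Y / Y' * (f - a) + Y / Y' * (g - b) by ring]
    exact add_mem ha hb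
  | smul a f h1 hf =>
    obtain ⟨b, b1, hb⟩ := hf
    obtain ⟨q, hq⟩ := hA2 a.1 a.2
    refine ⟨q • b, Submodule.smul_mem _ q b1, ?_⟩
    rw [show Y / Y' * (a • f - q • b) = Y / Y' * (a.1 - algebraMap ℚ L q) * f +
      algebraMap ℚ L q * (Y / Y' * (f - b)) by
        rw [Algebra.smul_def q, show a • f = a.1 * f from rfl]; ring]
    rw [hT] at h1
    exact add_mem (mul_mem hq (hle f h1)) (mul_mem (Subalgebra.algebraMap_mem _ q) hb)

theorem Dom.symm {a b z : L} (h : Dom a b z) : Dom b a z := fun O hq s h1 h2 => h O hq s h2 h1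

/-- the structure theorem; the constant field of `L` may be any number field -/
theorem geo (y : Fin (n + 1) → L) (h1 : Algebra.trdeg ℚ L = 1)
    (h2 : IntermediateField.adjoin ℚ
      (Set.range fun q : Fin (n + 1) × Fin (n + 1) => y q.1 / y q.2) = ⊤) :
    ∃ (B : Type) (_ : CommRing B) (_ : IsDomain B) (_ : Algebra ℤ[X] B) (d : ℕ) (_ : NeZero d)
      (Γ : Geo B d), Nonempty (Γ.Model y) := by
  obtain ⟨c0, c1, hd⟩ := lin (fun x hx => by
    have := hx.cardinalMk_le_trdeg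
    rw [h1] at this
    simp at this) y
  simp only [Algebra.smul_def] at hd
  obtain ⟨Y0, e0⟩ : ∃ Y, Y = ∑ j, algebraMap ℚ L (c0 j) * y j := ⟨_, rfl⟩
  obtain ⟨Y1, e1⟩ : ∃ Y, Y = ∑ j, algebraMap ℚ L (c1 j) * y j := ⟨_, rfl⟩
  rw [← e0, ← e1] at hd
  have f0 : Fm y 1 Y0 := ⟨lf c0, lf_hom _, by rw [lf_aeval, e0]⟩
  have f1 : Fm y 1 Y1 := ⟨lf c1, lf_hom _, by rw [lf_aeval, e1]⟩
  have hna : ∀ s : L, s ≠ 0 → IsAlgebraic ℚ (s * Y0) → ¬ IsAlgebraic ℚ (s * Y1) := by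
    intro s hs a0 a1
    have a2 : ∀ j, s * y j ∈ algebraicClosure ℚ L := fun j =>
      mem_algebraicClosure_iff.2 (alg_of_val _ fun O hq => by
        have a3 : ∀ x : L, IsAlgebraic ℚ x → x ∈ O := fun x hx => by
          let _ : Algebra ℚ O := (RingHom.codRestrict (algebraMap ℚ L) O hq).toAlgebra
          have : IsScalarTower ℚ O L := IsScalarTower.of_algebraMap_eq fun _ => rfl
          obtain ⟨w, rfl⟩ := IsIntegrallyClosed.isIntegral_iff.1
            (hx.isIntegral.tower_top (A := O))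
          exact w.2
        exact hd j O hq s (a3 _ a0) (a3 _ a1))
    have a4 : ⊤ ≤ algebraicClosure ℚ L := by
      rw [← h2, IntermediateField.adjoin_le_iff]
      rintro _ ⟨q, rfl⟩
      have := div_mem (a2 q.1) (a2 q.2)
      rwa [mul_div_mul_left _ _ hs] at this
    have a5 : Algebra.IsAlgebraic ℚ L := ⟨fun x => mem_algebraicClosure_iff.1 (a4 trivial)⟩
    rw [trdeg_eq_zero] at h1
    exact zero_ne_one h1
  have n0 : Y0 ≠ 0 := by
    rintro rfl
    by_cases h : Y1 = 0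
    · exact hna 1 one_ne_zero (by rw [mul_zero]; exact isAlgebraic_zero)
        (by rw [h, mul_zero]; exact isAlgebraic_zero)
    · exact hna Y1⁻¹ (inv_ne_zero h) (by rw [mul_zero]; exact isAlgebraic_zero)
        (by rw [inv_mul_cancel₀ h]; exact isAlgebraic_one)
  have ntr : ¬ IsAlgebraic ℚ (Y1 / Y0) := by
    rw [← inv_mul_eq_div]
    exact hna Y0⁻¹ (inv_ne_zero n0) (by rw [inv_mul_cancel₀ n0]; exact isAlgebraic_one)
  have n1 : Y1 ≠ 0 := by
    rintro rfl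
    exact ntr (by rw [zero_div]; exact isAlgebraic_zero)
  have m0 : Y1 / Y0 ∈ ch y Y0 := by rw [e1]; exact lin_mem _ _
  have m1 : Y0 / Y1 ∈ ch y Y1 := by rw [e0]; exact lin_mem _ _
  have both : ∀ f ∈ ch y Y0, f ∈ ch y Y1 → IsAlgebraic ℚ f := fun f a0 a1 =>
    alg_of_val f fun O hq => (O.mem_or_inv_mem (Y1 / Y0)).elim (fun h => ch_le n0 hd O hq h a0)
      fun h => ch_le n1 (fun j => (hd j).symm) O hq (by rwa [inv_div] at h) a1
  obtain ⟨T, hT⟩ := ch_fin n1 n0 (fun j => (hd j).symm) m1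
  obtain ⟨d, b, δ, b0, δ0, b1, b2, b3⟩ := rb (Y1 / Y0) (ch y Y0) (ch y Y1) m0 (by rwa [inv_div])
    (div_ne_zero n1 n0)
    (fun f a0 a1 => by
      by_contra hf
      have a2 := both _ (mul_mem m0 a0) a1
      have a3 := both f a0 (by
        have := mul_mem m1 a1
        rwa [show Y0 / Y1 * (Y1 / Y0 * f) = f by field_simp] at this)
      have a4 := a2.mul a3.inv
      rw [mul_inv_cancel_right₀ hf] at a4
      exact ntr a4) T hT
  obtain ⟨B, i1, i2, i3, Γ, ι, a1, a2, a3, a4, a5⟩ := pack2 (Y1 / Y0) d b δ b0 δ0 b3 fun i j =>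
    b2 _ _ (mul_mem (b1 i).1 (b1 j).1) (by
      have := mul_mem (b1 i).2 (b1 j).2
      rwa [mul_mul_mul_comm, ← pow_add] at this)
  have hx : ∀ (j : Fin (n + 1)) (k : ℕ), ∃ g : Fin (d + 1) → ℚ[X],
      (∀ i a, k < a + δ i → (g i).coeff a = 0) ∧
      (y j / Y0) ^ k = ∑ i, aeval (Y1 / Y0) (g i) * b i := fun j k =>
    b2 k _ (pow_mem (y_mem Y0 j) k) (by
      rw [← mul_pow, show (Y1 / Y0)⁻¹ * (y j / Y0) = y j / Y1 by field_simp]
      exact pow_mem (y_mem Y1 j) k)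
  choose g hg1 hg2 using hx
  obtain ⟨c, hc, hη⟩ := a5 1 (Fin (n + 1)) (fun j => g j 1) fun j => hg1 j 1
  choose η hη1 hη2 using hη
  choose A0 hA0 using fun i => ch_fm f0 n0 (b1 i).1
  choose A1 hA1 using fun i => ch_fm f1 n1 (b1 i).2
  obtain ⟨A, hA⟩ : ∃ A, ∀ i, A0 i ≤ A ∧ A1 i ≤ A ∧ δ i ≤ A := by
    refine ⟨Finset.univ.sup fun i => A0 i + A1 i + δ i, fun i => ?_⟩
    have := Finset.le_sup (f := fun i => A0 i + A1 i + δ i) (Finset.mem_univ i)
    omega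
  have hrep : ∀ m, 2 * A ≤ m → ∀ l a, a + δ l ≤ m → Fm y m (Y0 ^ m * ((Y1 / Y0) ^ a * b l)) := by
    intro m hm l a ha
    rcases le_or_gt A a with h | h
    · obtain ⟨r, rfl⟩ := Nat.exists_eq_add_of_le ha
      refine (((f1.up (hA1 l) ((hA l).2.1.trans h)).mul (f1.pow (δ l))).mul (f0.pow r)).of_eq rfl ?_
      rw [inv_pow, div_pow, div_pow]
      field_simp
      ring
    · obtain ⟨r, rfl⟩ := Nat.exists_eq_add_of_le (show a ≤ m by omega)
      refine ((f1.pow a).mul (f0.up (hA0 l) (show A0 l ≤ r by have := hA l; omega))).of_eq rfl ?_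
      rw [div_pow]
      field_simp
      ring
  have hrep2 : ∀ m, ∀ i : Γ.Ix m, ∃ P : MvPolynomial (Fin (n + 1)) ℚ, 2 * A ≤ m →
      P.IsHomogeneous m ∧ MvPolynomial.aeval y P = Y0 ^ m * ι (Γ.mon i) := by
    intro m i
    by_cases hm : 2 * A ≤ m
    · obtain ⟨w, hw⟩ := a4 i.1
      have hi : (i.2 : ℕ) + δ i.1 ≤ m := by
        have := i.2.2
        rw [← a3]
        omega
      obtain ⟨P, hP⟩ := ((Fm.const (w : ℚ)).mul (hrep m hm i.1 i.2 hi)).of_eq (zero_add m)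
        (w := Y0 ^ m * ι (Γ.mon i))
        (by rw [Geo.mon, map_mul, map_pow, a2, hw, map_natCast]; ring)
      exact ⟨P, fun _ => hP⟩
    · exact ⟨0, fun h => absurd h hm⟩
  choose rep hrep3 using hrep2
  have hnz : ∀ j, ∃ u v, Fm y (2 * A) u ∧ Fm y (2 * A) v ∧ y j ^ (2 * A + 1) = Y0 * u + Y1 * v := by
    intro j
    have e : y j ^ (2 * A + 1) = ∑ l, ∑ a ∈ Finset.range ((g j (2 * A + 1) l).natDegree + 1),
        algebraMap ℚ L ((g j (2 * A + 1) l).coeff a) * (Y0 ^ (2 * A + 1) * ((Y1 / Y0) ^ a * b l)) := by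
      rw [show y j ^ (2 * A + 1) = Y0 ^ (2 * A + 1) * (y j / Y0) ^ (2 * A + 1) by
        rw [div_pow]; field_simp, hg2, Finset.mul_sum]
      refine Finset.sum_congr rfl fun l _ => ?_
      rw [aeval_eq_sum_range, Finset.sum_mul, Finset.mul_sum]
      refine Finset.sum_congr rfl fun a _ => ?_
      rw [Algebra.smul_def]
      ring
    rw [e]
    have hadd : ∀ z w : L, (∃ u v, Fm y (2 * A) u ∧ Fm y (2 * A) v ∧ z = Y0 * u + Y1 * v) →
        (∃ u v, Fm y (2 * A) u ∧ Fm y (2 * A) v ∧ w = Y0 * u + Y1 * v) →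
        ∃ u v, Fm y (2 * A) u ∧ Fm y (2 * A) v ∧ z + w = Y0 * u + Y1 * v := by
      rintro _ _ ⟨u, v, p1, p2, rfl⟩ ⟨u', v', p3, p4, rfl⟩
      exact ⟨u + u', v + v', p1.add p3, p2.add p4, by ring⟩
    have hz : ∃ u v, Fm y (2 * A) u ∧ Fm y (2 * A) v ∧ (0 : L) = Y0 * u + Y1 * v :=
      ⟨0, 0, Fm.zero _, Fm.zero _, by ring⟩
    refine Finset.sum_induction _ _ hadd hz fun l _ => Finset.sum_induction _ _ hadd hz fun a _ => ?_
    rcases lt_or_ge (2 * A + 1) (a + δ l) with h | h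
    · rw [hg1 j _ l a h, map_zero, zero_mul]; exact hz
    rcases a with _ | a
    · refine ⟨_, 0, ((Fm.const ((g j (2 * A + 1) l).coeff 0)).mul
        (hrep _ le_rfl l 0 (by have := hA l; omega))).of_eq (zero_add _) rfl, Fm.zero _, by ring⟩
    · refine ⟨0, _, Fm.zero _, ((Fm.const ((g j (2 * A + 1) l).coeff (a + 1))).mul
        (hrep _ le_rfl l a (by omega))).of_eq (zero_add _) rfl, ?_⟩
      rw [pow_succ (Y1 / Y0), pow_succ Y0]
      field_simp
      ring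
  refine ⟨B, i1, i2, i3, d + 1, inferInstance, Γ, ⟨⟨ι, a1, c0, c1, e0 ▸ n0, ?_, c, hc, η, hη1,
    fun j => ?_, 2 * A, rep, fun m hm i => (hrep3 m i hm).1, fun m hm i => ?_, fun z hz => ?_⟩⟩⟩
  · rw [a2, ← e0, ← e1, div_mul_cancel₀ _ n0]
  · rw [hη2, ← hg2, ← e0, pow_one, mul_assoc, div_mul_cancel₀ _ n0]
  · rw [← e0]; exact (hrep3 m i hm).2
  · by_contra hc
    push Not at hc
    refine hz.1 (funext fun j => ?_)
    obtain ⟨_, _, ⟨P, p1, rfl⟩, ⟨Q, p2, rfl⟩, p3⟩ := hnz j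
    have p4 := hz.2 (MvPolynomial.X j ^ (2 * A + 1) - (lf c0 * P + lf c1 * Q))
      ⟨⟨2 * A + 1, (by simpa using (MvPolynomial.isHomogeneous_X ℚ j).pow (2 * A + 1) :
          (MvPolynomial.X j ^ (2 * A + 1) : MvPolynomial _ ℚ).IsHomogeneous (2 * A + 1)).sub
        ((add_comm 1 (2 * A) ▸ (lf_hom c0).mul p1).add (add_comm 1 (2 * A) ▸ (lf_hom c1).mul p2))⟩, by
        simp only [map_sub, map_add, map_mul, map_pow, MvPolynomial.aeval_X, lf_aeval]
        rw [p3, ← e0, ← e1, sub_self]⟩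
    simp only [map_sub, map_add, map_mul, map_pow, MvPolynomial.aeval_X, lf_aeval,
      eq_ratCast] at p4
    rw [hc.1, hc.2, zero_mul, zero_mul, add_zero, sub_zero] at p4
    exact pow_eq_zero_iff (Nat.succ_ne_zero _) |>.1 p4

end Pool.Agent.Lib.BK2.GEO

namespace Pool.Agent.Lib.BK2

theorem stGEO : St_GEO := fun _ _ _ _ y hy => GEO.geo y hy.1 hy.2.2

end Pool.Agent.Lib.BK2
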