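import Mathlib

set_option autoImplicit false

namespace Pool.Agent.Lib.BK2.Noe

open Polynomial

theorem coeff_swap {R : Type} [CommRing R] (p : R[X][X]) (i j : ℕ) :
    ((Bivariate.swap p).coeff j).coeff i = (p.coeff i).coeff j := by
  induction p using Polynomial.induction_on' with
  | add p q hp hq => simp only [map_add, coeff_add, hp, hq]
  | monomial n f =>
    induction f using Polynomial.induction_on' with
    | add p q hp hq => simp only [map_add, coeff_add, hp, hq]
    | monomial m r =>
      rw [Bivariate.swap_monomial_monomial]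
      simp only [coeff_monomial]
      by_cases h1 : m = j <;> by_cases h2 : n = i <;> simp [h1, h2, coeff_monomial]

/-- a factor has coefficients of bounded degree -/
theorem deg_factor {k : Type} [Field k] (g h : k[X][X]) (D : ℕ) (h0 : g * h ≠ 0)
    (hD : ∀ i, ((g * h).coeff i).natDegree ≤ D) (i : ℕ) : (g.coeff i).natDegree ≤ D := by
  have e1 : (Bivariate.swap (g * h)).natDegree ≤ D := by
    rw [natDegree_le_iff_coeff_eq_zero]
    intro j hj
    ext l
    rw [coeff_swap, coeff_zero]
    exact coeff_eq_zero_of_natDegree_lt (lt_of_le_of_lt (hD l) hj)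
  have hg : Bivariate.swap g ≠ 0 := fun e => left_ne_zero_of_mul h0 ((map_eq_zero_iff _ (Bivariate.swap (R := k)).injective).1 e)
  have hh : Bivariate.swap h ≠ 0 := fun e => right_ne_zero_of_mul h0 ((map_eq_zero_iff _ (Bivariate.swap (R := k)).injective).1 e)
  rw [map_mul, natDegree_mul hg hh] at e1
  rw [natDegree_le_iff_coeff_eq_zero]
  intro j hj
  rw [← coeff_swap, coeff_eq_zero_of_natDegree_lt (p := Bivariate.swap g) (by omega), coeff_zero]

/-- monic polynomial with prescribed coefficient array -/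
noncomputable def mk {R : Type} [CommRing R] (a D : ℕ) (c : Fin a → Fin (D + 1) → R) : R[X][X] :=
  X ^ a + ∑ i : Fin a, monomial i (∑ j : Fin (D + 1), monomial j (c i j))

theorem mk_map {R S : Type} [CommRing R] [CommRing S] (φ : R →+* S) (a D : ℕ)
    (c : Fin a → Fin (D + 1) → R) :
    (mk a D c).map (mapRingHom φ) = mk a D fun i j => φ (c i j) := by
  simp [mk, Polynomial.map_sum, map_monomial]

theorem mk_monic {R : Type} [CommRing R] [Nontrivial R] (a D : ℕ) (c : Fin a → Fin (D + 1) → R) :
    (mk a D c).Monic ∧ (mk a D c).natDegree = a := by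
  have h : (∑ i : Fin a, monomial (i : ℕ) (∑ j : Fin (D + 1), monomial (j : ℕ) (c i j))).degree
      < (a : WithBot ℕ) := by
    refine lt_of_le_of_lt (degree_sum_le _ _) ?_
    refine (Finset.sup_lt_iff (WithBot.bot_lt_coe a)).2 fun i _ => ?_
    exact lt_of_le_of_lt (degree_monomial_le _ _) (Nat.cast_lt.2 i.2)
  refine ⟨monic_X_pow_add h, ?_⟩
  unfold mk
  rw [natDegree_add_eq_left_of_degree_lt (by rwa [degree_X_pow]), natDegree_X_pow]

theorem eq_mk {R : Type} [CommRing R] (g : R[X][X]) (hg : g.Monic) (D : ℕ)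
    (hD : ∀ i, (g.coeff i).natDegree ≤ D) :
    g = mk g.natDegree D fun i j => (g.coeff i).coeff j := by
  conv_lhs => rw [hg.as_sum]
  unfold mk
  rw [Finset.sum_range]
  congr 1
  refine Finset.sum_congr rfl fun i _ => ?_
  rw [C_mul_X_pow_eq_monomial]
  congr 1
  conv_lhs => rw [as_sum_range' (g.coeff i) (D + 1) (Nat.lt_succ_of_le (hD i))]
  rw [Finset.sum_range]

attribute [local instance] MvPolynomial.algebraMvPolynomial

/-- an ideal of an integral polynomial ring without complex zero contains a nonzero integer -/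
theorem int_mem {ι : Type} [Finite ι] (I : Ideal (MvPolynomial ι ℤ))
    (h : ∀ φ : MvPolynomial ι ℤ →+* ℂ, ¬ I ≤ RingHom.ker φ) :
    ∃ N : ℤ, N ≠ 0 ∧ MvPolynomial.C N ∈ I := by
  by_cases hJ : I.map (algebraMap (MvPolynomial ι ℤ) (MvPolynomial ι ℚ)) = ⊤
  · have h1 : (1 : MvPolynomial ι ℚ) ∈ I.map (algebraMap (MvPolynomial ι ℤ) (MvPolynomial ι ℚ)) := by
      rw [hJ]; trivial
    obtain ⟨⟨x, y⟩, hxy⟩ := (IsLocalization.mem_map_algebraMap_iff
      ((nonZeroDivisors ℤ).map (MvPolynomial.C (σ := ι))) (MvPolynomial ι ℚ)).1 h1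
    obtain ⟨N, hN, e⟩ := y.2
    refine ⟨N, nonZeroDivisors.ne_zero hN, ?_⟩
    rw [one_mul] at hxy
    have hi : Function.Injective (algebraMap (MvPolynomial ι ℤ) (MvPolynomial ι ℚ)) :=
      MvPolynomial.map_injective _ (RingHom.injective_int _)
    have := hi hxy
    rw [e]
    simp only at this
    rw [this]
    exact x.2
  · exfalso
    obtain ⟨m, hm, hle⟩ := Ideal.exists_le_maximal _ hJ
    let _ : Field (MvPolynomial ι ℚ ⧸ m) := Ideal.Quotient.field m
    have _ : Module.Finite ℚ (MvPolynomial ι ℚ ⧸ m) := finite_of_finite_type_of_isJacobsonRing _ _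
    let ψ : (MvPolynomial ι ℚ ⧸ m) →ₐ[ℚ] ℂ := IsAlgClosed.lift
    refine h ((ψ.toRingHom.comp (Ideal.Quotient.mk m)).comp
      (algebraMap (MvPolynomial ι ℤ) (MvPolynomial ι ℚ))) fun x hx => ?_
    rw [RingHom.mem_ker, RingHom.comp_apply, RingHom.comp_apply,
      Ideal.Quotient.eq_zero_iff_mem.2 (hle (Ideal.mem_map_of_mem _ hx)), map_zero]

theorem split_int (f : ℤ[X][X]) (hi : Irreducible (f.map (mapRingHom (Int.castRingHom ℂ))))
    (a b D : ℕ) (ha : a ≠ 0) (hb : b ≠ 0) :
    ∃ N : ℤ, N ≠ 0 ∧ ∀ (k : Type) [Field k] (c : Fin a → Fin (D + 1) → k)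
      (e : Fin b → Fin (D + 1) → k),
      mk a D c * mk b D e = f.map (mapRingHom (Int.castRingHom k)) → (N : k) = 0 := by
  let R := MvPolynomial ((Fin a ⊕ Fin b) × Fin (D + 1)) ℤ
  let U : R[X][X] := mk a D (fun i j => MvPolynomial.X (Sum.inl i, j)) *
    mk b D (fun i j => MvPolynomial.X (Sum.inr i, j)) - f.map (mapRingHom (Int.castRingHom R))
  have hU : ∀ (S : Type) [CommRing S] (φ : R →+* S), U.map (mapRingHom φ) =
      mk a D (fun i j => φ (MvPolynomial.X (Sum.inl i, j))) *
        mk b D (fun i j => φ (MvPolynomial.X (Sum.inr i, j))) -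
        f.map (mapRingHom (Int.castRingHom S)) := by
    intro S _ φ
    simp only [U, Polynomial.map_sub, Polynomial.map_mul, mk_map, Polynomial.map_map,
      mapRingHom_comp]
    congr 3
    exact Subsingleton.elim _ _
  let I : Ideal R := Ideal.span (Set.range fun x : ℕ × ℕ => (U.coeff x.1).coeff x.2)
  have hI : ∀ (S : Type) [CommRing S] (φ : R →+* S), I ≤ RingHom.ker φ ↔ U.map (mapRingHom φ) = 0 := by
    intro S _ φ
    rw [Ideal.span_le, Set.range_subset_iff]
    constructor
    · intro h
      ext i j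
      simpa using h (i, j)
    · intro h x
      have := congrArg (fun p : S[X][X] => (p.coeff x.1).coeff x.2) h
      simpa using this
  obtain ⟨N, hN, hm⟩ := int_mem I fun φ hφ => by
    rw [hI, hU, sub_eq_zero] at hφ
    have h1 := mk_monic a D fun i j => φ (MvPolynomial.X (Sum.inl i, j))
    have h2 := mk_monic b D fun i j => φ (MvPolynomial.X (Sum.inr i, j))
    rcases hi.isUnit_or_isUnit hφ.symm with h | h
    · exact ha (h1.2.symm.trans (natDegree_eq_zero_of_isUnit h))
    · exact hb (h2.2.symm.trans (natDegree_eq_zero_of_isUnit h))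
  refine ⟨N, hN, fun k _ c e h => ?_⟩
  let φ : R →+* k := MvPolynomial.eval₂Hom (Int.castRingHom k)
    fun x => Sum.elim (fun i => c i x.2) (fun i => e i x.2) x.1
  have : I ≤ RingHom.ker φ := by
    rw [hI, hU, sub_eq_zero, ← h]
    simp [φ, R]
  simpa [φ, R] using this hm

end Pool.Agent.Lib.BK2.Noe

namespace Pool.Agent.Lib.BK2

open Polynomial Noe

/-- Noether reduction: an integral plane curve that is irreducible over the complex numbers
stays irreducible over every field of large characteristic. -/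
theorem noether (f : ℤ[X][X]) (hm : f.Monic)
    (hi : Irreducible (f.map (mapRingHom (Int.castRingHom ℂ)))) :
    ∃ p0 : ℕ, ∀ (k : Type) [Field k] (p : ℕ) [CharP k p], p0 ≤ p →
      Irreducible (f.map (mapRingHom (Int.castRingHom k))) := by
  obtain ⟨D, hD⟩ : ∃ D, ∀ i, (f.coeff i).natDegree ≤ D := by
    refine ⟨f.support.sup fun i => (f.coeff i).natDegree, fun i => ?_⟩
    by_cases h : i ∈ f.support
    · exact Finset.le_sup (f := fun i => (f.coeff i).natDegree) h
    · rw [notMem_support_iff.1 h]; simp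
  have hd : f.natDegree ≠ 0 := by
    intro h
    rw [hm.natDegree_eq_zero.1 h, Polynomial.map_one] at hi
    exact not_irreducible_one hi
  choose! N hN0 hN using fun a b => split_int f hi a b D
  refine ⟨((Finset.range (f.natDegree + 1)).sup fun a => (N a (f.natDegree - a)).natAbs) + 1,
    fun k _ p _ hp => ?_⟩
  have hmk := hm.map (mapRingHom (Int.castRingHom k))
  have hdk : (f.map (mapRingHom (Int.castRingHom k))).natDegree = f.natDegree :=
    hm.natDegree_map _
  rw [hmk.irreducible_iff_natDegree]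
  refine ⟨fun h => hd (by rw [← hdk, h, natDegree_one]), fun g h hg hh e => ?_⟩
  by_contra hc
  rw [not_or] at hc
  have hDk : ∀ i, ((g * h).coeff i).natDegree ≤ D := fun i => by
    rw [e, coeff_map]
    exact natDegree_map_le.trans (hD i)
  have h0 : g * h ≠ 0 := (hg.mul hh).ne_zero
  have e1 := eq_mk g hg D (deg_factor g h D h0 hDk)
  have e2 := eq_mk h hh D (deg_factor h g D (by rwa [mul_comm]) (by rwa [mul_comm]))
  have hs : g.natDegree + h.natDegree = f.natDegree := by rw [← hg.natDegree_mul hh, e, hdk]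
  have h1 := hN _ _ hc.1 hc.2 k _ _ (by rw [← e1, ← e2, e])
  have h2 := hN0 _ _ hc.1 hc.2
  rw [CharP.intCast_eq_zero_iff k p, Int.natCast_dvd] at h1
  have h3 := Nat.le_of_dvd (Int.natAbs_pos.2 h2) h1
  have h4 := Finset.le_sup (f := fun a => (N a (f.natDegree - a)).natAbs)
    (Finset.mem_range.2 (show g.natDegree < f.natDegree + 1 by omega))
  simp only [show f.natDegree - g.natDegree = h.natDegree by omega] at h4
  omega

end Pool.Agent.Lib.BK2
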