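import Pool.Agent.Lib.BK2.GDefs
import Pool.Agent.Lib.BK2.Noether
import Pool.Agent.Lib.BK2.Bas2

/-! GOOD: all large primes stay prime. -/

open Polynomial

namespace Pool.Agent.Lib.BK2

namespace GOOD

theorem dvd_of_map {p : ℕ} {g : ℤ[X]} (h : g.map (Int.castRingHom (ZMod p)) = 0) :
    C (p : ℤ) ∣ g := (C_dvd_iff_dvd_coeff _ _).2 fun j => by
  have := congrArg (coeff · j) h
  simp only [coeff_map, coeff_zero, eq_intCast] at this
  exact (ZMod.intCast_zmod_eq_zero_iff_dvd _ _).1 this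

theorem dvd_of_map₂ {p : ℕ} {g : ℤ[X][X]}
    (h : g.map (mapRingHom (Int.castRingHom (ZMod p))) = 0) : (p : ℤ[X][X]) ∣ g := by
  have e : (p : ℤ[X][X]) = C (C (p : ℤ)) := by simp
  rw [e]
  refine (C_dvd_iff_dvd_coeff _ _).2 fun i => dvd_of_map ?_
  have := congrArg (coeff · i) h
  simpa only [coeff_map, coeff_zero, coe_mapRingHom] using this

end GOOD

open GOOD in
theorem stGOOD : St_GOOD := by
  intro B _ _ _ d _ Γ π hF
  obtain ⟨p0, hp0⟩ := noether π.F π.monic hF
  refine ⟨max p0 (π.Δ.leadingCoeff.natAbs + 1), fun p hp hle => ?_⟩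
  have := Fact.mk hp
  have hC : Prime (C (p : ℤ)) := prime_C_iff.2 (Nat.prime_iff_prime_int.1 hp)
  have hΔ : ¬ C (p : ℤ) ∣ π.Δ := fun h => by
    have h1 := Int.natAbs_le_of_dvd_ne_zero ((C_dvd_iff_dvd_coeff _ _).1 h π.Δ.natDegree)
      (leadingCoeff_ne_zero.2 π.ne)
    have h2 := (le_max_right _ _).trans hle
    rw [Int.natAbs_natCast] at h1
    exact absurd (h2.trans h1) (Nat.not_succ_le_self _)
  have hP := (hp0 (ZMod p) p ((le_max_left _ _).trans hle)).prime
  have hs : Function.Surjective (Polynomial.map (mapRingHom (Int.castRingHom (ZMod p)))) :=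
    map_surjective _ (map_surjective _ (ZMod.ringHom_surjective _))
  have key : ∀ (x : B) (g : ℤ[X][X]), algebraMap ℤ[X] B π.Δ * x = aeval π.u g →
      π.F.map (mapRingHom (Int.castRingHom (ZMod p))) ∣
        g.map (mapRingHom (Int.castRingHom (ZMod p))) → (p : B) ∣ x := by
    rintro x g hg ⟨q, hq⟩
    obtain ⟨q, rfl⟩ := hs q
    obtain ⟨g1, h1⟩ := dvd_of_map₂ (p := p) (g := g - π.F * q) (by
      rw [Polynomial.map_sub, Polynomial.map_mul, hq, sub_self])
    have h2 : ((p : ℤ) : B) ∣ π.Δ • x := by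
      refine ⟨aeval π.u g1, ?_⟩
      rw [Algebra.smul_def, hg, sub_eq_iff_eq_add.1 h1, map_add, map_mul, map_mul,
        (π.dvd π.F).2 dvd_rfl, zero_mul, add_zero, map_natCast, Int.cast_natCast]
    rw [← Int.cast_natCast, Γ.dvd_iff_repr]
    intro l
    have h3 := (Γ.dvd_iff_repr _ _).1 h2 l
    rw [Γ.repr_smul] at h3
    exact (hC.dvd_or_dvd h3).resolve_left hΔ
  refine ⟨fun h => ?_, fun {x y} h => ?_⟩
  · have h1 : ((p : ℤ) : B) ∣ Γ.b 0 := by
      rw [Int.cast_natCast, ← Ideal.mem_span_singleton, h]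
      trivial
    have h2 := (Γ.dvd_iff_repr _ _).1 h1 0
    rw [Γ.repr_b, if_pos rfl] at h2
    exact hC.not_dvd_one h2
  · simp only [Ideal.mem_span_singleton] at h ⊢
    obtain ⟨z, hz⟩ := h
    obtain ⟨g, hg⟩ := π.gen x
    obtain ⟨g', hg'⟩ := π.gen y
    obtain ⟨k, hk⟩ := π.gen z
    have h1 : π.F ∣ g * g' - p * (C π.Δ * k) := (π.dvd _).1 (by
      rw [map_sub, map_mul, map_mul, map_mul, ← hg, ← hg', ← hk, aeval_C, map_natCast]
      linear_combination algebraMap ℤ[X] B π.Δ ^ 2 * hz)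
    have h2 := Polynomial.map_dvd (mapRingHom (Int.castRingHom (ZMod p))) h1
    rw [Polynomial.map_sub, Polynomial.map_mul, Polynomial.map_mul, Polynomial.map_natCast,
      CharP.cast_eq_zero, zero_mul, sub_zero] at h2
    exact (hP.dvd_or_dvd h2).imp (key x g hg) (key y g' hg')

end Pool.Agent.Lib.BK2
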