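import Mathlib

/-! Counting the points of a coset of a lattice with a small covering set. -/

open MeasureTheory Module
open scoped ENNReal

set_option linter.unusedSectionVars false

noncomputable section

namespace Pool.Agent.Lib.BK2

namespace LCnt

variable {E : Type*} [NormedAddCommGroup E] [NormedSpace ℝ E] [FiniteDimensional ℝ E]
  [MeasurableSpace E] [BorelSpace E] (L : Submodule ℤ E) [DiscreteTopology L] [IsZLattice ℝ L]
  (μ : Measure E) [Measure.IsAddHaarMeasure μ]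

theorem unfold {F : Set E} (hF : IsAddFundamentalDomain L F μ) {T : Set E} (hT : MeasurableSet T) :
    μ T = ∫⁻ x in F, ∑' g : L, T.indicator 1 (-(g : E) + x) ∂μ := by
  have : MeasurableVAdd L E := (inferInstance : MeasurableVAdd L.toAddSubgroup E)
  have : VAddInvariantMeasure L E μ := (inferInstance : VAddInvariantMeasure L.toAddSubgroup E μ)
  have : Countable L := (Free.chooseBasis ℤ L).equivFun.toEquiv.countable_iff.2 inferInstance
  rw [← lintegral_indicator_one hT, hF.lintegral_eq_tsum', lintegral_tsum]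
  · rfl
  · exact fun g => ((measurable_one.indicator hT).comp (measurable_const_add _)).aemeasurable

omit [FiniteDimensional ℝ E] [MeasurableSpace E] [BorelSpace E] [DiscreteTopology L]
  [IsZLattice ℝ L] [NormedSpace ℝ E] in
theorem tsum_ind (y : E) (S : Set E) :
    ∑' g : L, S.indicator (1 : E → ℝ≥0∞) (y + g) = ({x | x - y ∈ L ∧ x ∈ S}.encard : ℝ≥0∞) := by
  have e : {x | x - y ∈ L ∧ x ∈ S} = (fun g : L => y + g) '' {g | y + g ∈ S} := by
    ext x
    constructor
    · rintro ⟨h1, h2⟩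
      exact ⟨⟨_, h1⟩, by simpa using h2, by simp⟩
    · rintro ⟨g, h1, rfl⟩
      exact ⟨by simp, h1⟩
  rw [e, Function.Injective.encard_image (fun a b h => Subtype.ext (add_left_cancel h)),
    ← ENNReal.tsum_set_one, tsum_subtype {g : L | y + g ∈ S} fun _ => (1 : ℝ≥0∞)]
  refine tsum_congr fun g => ?_
  by_cases h : y + g ∈ S
  · rw [Set.indicator_of_mem h, Set.indicator_of_mem (s := {g : L | y + g ∈ S}) h]
    rfl
  · rw [Set.indicator_of_notMem h, Set.indicator_of_notMem (s := {g : L | y + g ∈ S}) h]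

omit [FiniteDimensional ℝ E] [MeasurableSpace E] [BorelSpace E] [DiscreteTopology L]
  [IsZLattice ℝ L] [NormedSpace ℝ E] in
theorem shift (T : Set E) (x y : E) (l : L) :
    ∑' g : L, T.indicator (1 : E → ℝ≥0∞) (-(g : E) + x) =
      ∑' g : L, T.indicator 1 (y + g + (x - y - l)) := by
  rw [← (Equiv.subLeft l).tsum_eq]
  refine tsum_congr fun g => congrArg _ ?_
  simp only [Equiv.subLeft_apply, Submodule.coe_sub]
  abel

variable {D : Set E} (hD : ∀ x, ∃ l ∈ L, x - l ∈ D) (y : E)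

include hD

theorem le_meas {F : Set E} (hF : IsAddFundamentalDomain L F μ) {S T : Set E}
    (hT : MeasurableSet T) (h : ∀ s ∈ S, ∀ d ∈ D, s + d ∈ T) :
    ({x | x - y ∈ L ∧ x ∈ S}.encard : ℝ≥0∞) * μ F ≤ μ T := by
  rw [unfold L μ hF hT, ← setLIntegral_const]
  refine lintegral_mono fun x => ?_
  obtain ⟨l, hl, hd⟩ := hD (x - y)
  rw [shift L T x y ⟨l, hl⟩, ← tsum_ind]
  refine ENNReal.tsum_le_tsum fun g => ?_
  by_cases hs : y + g ∈ S
  · rw [Set.indicator_of_mem hs, Set.indicator_of_mem (h _ hs _ hd)]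
    rfl
  · rw [Set.indicator_of_notMem hs]
    exact zero_le

theorem meas_le {F : Set E} (hF : IsAddFundamentalDomain L F μ) {S T : Set E}
    (hT : MeasurableSet T) (h : ∀ s ∈ T, ∀ d ∈ D, s - d ∈ S) :
    μ T ≤ ({x | x - y ∈ L ∧ x ∈ S}.encard : ℝ≥0∞) * μ F := by
  rw [unfold L μ hF hT, ← setLIntegral_const]
  refine lintegral_mono fun x => ?_
  obtain ⟨l, hl, hd⟩ := hD (x - y)
  rw [shift L T x y ⟨l, hl⟩, ← tsum_ind]
  refine ENNReal.tsum_le_tsum fun g => ?_
  by_cases hs : y + g + (x - y - l) ∈ T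
  · have := h _ hs _ hd
    rw [add_sub_cancel_right] at this
    rw [Set.indicator_of_mem hs, Set.indicator_of_mem this]
    rfl
  · rw [Set.indicator_of_notMem hs]
    exact zero_le

/-- Upper bound. -/
theorem upper {S T : Set E} (hT : MeasurableSet T) (hT' : μ T ≠ ∞)
    (h : ∀ s ∈ S, ∀ d ∈ D, s + d ∈ T) : {x | x - y ∈ L ∧ x ∈ S}.Finite ∧
      ({x | x - y ∈ L ∧ x ∈ S}.ncard : ℝ) * ZLattice.covolume L μ ≤ μ.real T := by
  have hF := ZLattice.isAddFundamentalDomain (Free.chooseBasis ℤ L) μ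
  have h1 := le_meas L μ hD y hF hT h
  have h0 := ZSpan.measure_fundamentalDomain_ne_zero (μ := μ)
    ((Free.chooseBasis ℤ L).ofZLatticeBasis ℝ L)
  have hf : {x | x - y ∈ L ∧ x ∈ S}.Finite := by
    by_contra hn
    rw [Set.Infinite.encard_eq hn, ENat.toENNReal_top, ENNReal.top_mul h0] at h1
    exact hT' (top_le_iff.1 h1)
  refine ⟨hf, ?_⟩
  rw [ZLattice.covolume_eq_measure_fundamentalDomain L μ hF]
  have := ENNReal.toReal_mono hT' h1
  rwa [ENNReal.toReal_mul, ← hf.cast_ncard_eq, ENat.toENNReal_coe, ENNReal.toReal_natCast] at this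

/-- Lower bound. -/
theorem lower {S T : Set E} (hT : MeasurableSet T) (hf : {x | x - y ∈ L ∧ x ∈ S}.Finite)
    (h : ∀ s ∈ T, ∀ d ∈ D, s - d ∈ S) :
    μ.real T ≤ ({x | x - y ∈ L ∧ x ∈ S}.ncard : ℝ) * ZLattice.covolume L μ := by
  have hF := ZLattice.isAddFundamentalDomain (Free.chooseBasis ℤ L) μ
  have h1 := meas_le L μ hD y hF hT h
  rw [← hf.cast_ncard_eq, ENat.toENNReal_coe] at h1
  rw [ZLattice.covolume_eq_measure_fundamentalDomain L μ hF]
  have := ENNReal.toReal_mono (ENNReal.mul_ne_top (by simp)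
    (ZSpan.fundamentalDomain_isBounded _).measure_lt_top.ne) h1
  rwa [ENNReal.toReal_mul, ENNReal.toReal_natCast] at this

end LCnt

/-- Lattice vectors that span the space give a covering by their parallelepiped. -/
theorem LCnt.cover {E ι : Type*} [AddCommGroup E] [Module ℝ E] [Fintype ι] (L : Submodule ℤ E)
    (v : ι → E) (hv : ∀ i, v i ∈ L) (hs : Submodule.span ℝ (Set.range v) = ⊤) (x : E) :
    ∃ l ∈ L, ∃ c : ι → ℝ, (∀ i, |c i| ≤ 1 / 2) ∧ x - l = ∑ i, c i • v i := by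
  obtain ⟨a, rfl⟩ := (Submodule.mem_span_range_iff_exists_fun ℝ).1 (hs ▸ Submodule.mem_top (x := x))
  refine ⟨∑ i, round (a i) • v i, Submodule.sum_mem _ fun i _ => L.smul_mem _ (hv i),
    fun i => a i - round (a i), fun i => abs_sub_round _, ?_⟩
  rw [← Finset.sum_sub_distrib]
  exact Finset.sum_congr rfl fun i _ => by rw [sub_smul, Int.cast_smul_eq_zsmul]

namespace LCnt

variable {ι : Type*} [Fintype ι]

/-- The open polydisc. -/
def disc (t : ι → ℂ) (r : ι → ℝ) : Set (ι → ℂ) := {z | ∀ i, ‖z i - t i‖ < r i}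

theorem disc_eq (t : ι → ℂ) (r : ι → ℝ) :
    disc t r = Set.univ.pi fun i => Metric.ball (t i) (r i) := by
  ext z
  simp [disc, dist_eq_norm]

theorem disc_meas (t : ι → ℂ) (r : ι → ℝ) : MeasurableSet (disc t r) :=
  disc_eq t r ▸ MeasurableSet.univ_pi fun _ => measurableSet_ball

theorem vol_disc (t : ι → ℂ) {r : ι → ℝ} (hr : ∀ i, 0 ≤ r i) :
    volume (disc t r) = ENNReal.ofReal (∏ i, Real.pi * r i ^ 2) := by
  rw [disc_eq, volume_pi_pi, ENNReal.ofReal_prod_of_nonneg fun i _ => by positivity]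
  refine Finset.prod_congr rfl fun i _ => ?_
  rw [Complex.volume_ball, mul_comm Real.pi, ENNReal.ofReal_mul (by positivity),
    ENNReal.ofReal_pow (hr i), ← NNReal.coe_real_pi, ENNReal.ofReal_coe_nnreal]

theorem real_disc (t : ι → ℂ) {r : ι → ℝ} (hr : ∀ i, 0 ≤ r i) :
    volume.real (disc t r) = ∏ i, Real.pi * r i ^ 2 := by
  rw [Measure.real, vol_disc t hr, ENNReal.toReal_ofReal (Finset.prod_nonneg fun i _ => by positivity)]

/-- Points of a coset of a lattice in a polydisc. -/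
theorem count_disc (L : Submodule ℤ (ι → ℂ)) [DiscreteTopology L] [IsZLattice ℝ L] {ρ : ι → ℝ}
    (hD : ∀ x : ι → ℂ, ∃ l ∈ L, ∀ i, ‖x i - l i‖ ≤ ρ i) (y t : ι → ℂ) {r : ι → ℝ} (hr : ∀ i, ρ i ≤ r i) :
    {x | x - y ∈ L ∧ x ∈ disc t r}.Finite ∧
      ∏ i, Real.pi * (r i - ρ i) ^ 2 ≤
        ({x | x - y ∈ L ∧ x ∈ disc t r}.ncard : ℝ) * ZLattice.covolume L ∧
      ({x | x - y ∈ L ∧ x ∈ disc t r}.ncard : ℝ) * ZLattice.covolume L ≤
        ∏ i, Real.pi * (r i + ρ i) ^ 2 := by
  have h0 : ∀ i, 0 ≤ ρ i := fun i => by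
    obtain ⟨l, -, h⟩ := hD 0
    exact (norm_nonneg _).trans (h i)
  have hp : ∀ i, 0 ≤ r i + ρ i := fun i => by linarith [h0 i, hr i]
  have hm : ∀ i, 0 ≤ r i - ρ i := fun i => by linarith [hr i]
  obtain ⟨hf, h1⟩ := upper L volume (D := {d | ∀ i, ‖d i‖ ≤ ρ i}) hD y (S := disc t r)
    (disc_meas t fun i => r i + ρ i) (by rw [vol_disc t hp]; exact ENNReal.ofReal_ne_top)
    fun s hs d hd i => by
      have := norm_add_le (s i - t i) (d i)
      rw [show s i - t i + d i = (s + d) i - t i by simp only [Pi.add_apply]; ring] at this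
      linarith [hs i, hd i]
  have h2 := lower L volume (D := {d | ∀ i, ‖d i‖ ≤ ρ i}) hD y (S := disc t r)
    (disc_meas t fun i => r i - ρ i) hf fun s hs d hd i => by
      have := norm_sub_le (s i - t i) (d i)
      rw [show s i - t i - d i = (s - d) i - t i by simp only [Pi.sub_apply]; ring] at this
      linarith [hs i, hd i]
  rw [real_disc t hp] at h1
  rw [real_disc t hm] at h2
  exact ⟨hf, h2, h1⟩

end LCnt

end Pool.Agent.Lib.BK2
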