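import Pool.Agent.Lib.BK2.NDefs
import Pool.Agent.Lib.BK2.LCnt

/-! BK2 section N: counting on the grid. -/

namespace Pool.Agent.Lib.BK2.NT

open Finset NumberField MeasureTheory Module

namespace GRID

/-- counting in the lattice of a basis of small vectors -/
theorem cnt {ι J : Type} [Fintype ι] [Fintype J] (B : Basis J ℝ (ι → ℂ)) {r ε κ : ℝ}
    (hr : ∑ j, ‖B j‖ ≤ r) (hε : r ≤ κ * ε) (hκ0 : 0 ≤ κ) (hκ : κ ≤ 1) (hε0 : 0 ≤ ε) :
    (∀ z : ι → ℂ, ∃ l ∈ Submodule.span ℤ (Set.range B), ‖z - l‖ ≤ ε) ∧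
    ∀ (z : ι → ℂ) (ρ : ι → ℝ), (∀ w, ε ≤ ρ w) →
      {x | x ∈ Submodule.span ℤ (Set.range B) ∧ x ∈ LCnt.disc z ρ}.Finite ∧
      Real.pi ^ Fintype.card ι * (∏ w, ρ w ^ 2) * (1 - κ) ^ (2 * Fintype.card ι) ≤
        ({x | x ∈ Submodule.span ℤ (Set.range B) ∧ x ∈ LCnt.disc z ρ}.ncard : ℝ) *
          volume.real (ZSpan.fundamentalDomain B) ∧
      ({x | x ∈ Submodule.span ℤ (Set.range B) ∧ x ∈ LCnt.disc z ρ}.ncard : ℝ) *
          volume.real (ZSpan.fundamentalDomain B) ≤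
        Real.pi ^ Fintype.card ι * (∏ w, ρ w ^ 2) * (1 + κ) ^ (2 * Fintype.card ι) := by
  have hc : ∀ z : ι → ℂ, ∃ l ∈ Submodule.span ℤ (Set.range B), ‖z - l‖ ≤ κ * ε := by
    intro z
    obtain ⟨l, hl, c, hc, e⟩ := LCnt.cover (Submodule.span ℤ (Set.range B)) B
      (fun j => Submodule.subset_span ⟨j, rfl⟩) B.span_eq z
    refine ⟨l, hl, ?_⟩
    rw [e]
    refine (norm_sum_le _ _).trans (le_trans (sum_le_sum fun j _ => ?_) (hr.trans hε))
    rw [norm_smul, Real.norm_eq_abs]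
    nlinarith [hc j, norm_nonneg (B j)]
  refine ⟨fun z => ?_, fun z ρ hρ => ?_⟩
  · obtain ⟨l, hl, h⟩ := hc z
    exact ⟨l, hl, h.trans (by nlinarith)⟩
  have hk : ∀ w, κ * ε ≤ κ * ρ w := fun w => mul_le_mul_of_nonneg_left (hρ w) hκ0
  have hρ0 : ∀ w, 0 ≤ ρ w := fun w => hε0.trans (hρ w)
  obtain ⟨hf, h1, h2⟩ := LCnt.count_disc (Submodule.span ℤ (Set.range B)) (ρ := fun w => κ * ρ w)
    (fun x => by
      obtain ⟨l, hl, h⟩ := hc x
      exact ⟨l, hl, fun i => ((norm_le_pi_norm (x - l) i).trans h).trans (hk i)⟩) 0 z (r := ρ)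
    (fun w => by nlinarith [hρ0 w])
  rw [ZLattice.covolume_eq_measure_fundamentalDomain _ _ (ZSpan.isAddFundamentalDomain B volume)]
    at h1 h2
  simp only [sub_zero] at hf h1 h2
  have e : ∀ s : ℝ, ∏ w, Real.pi * (ρ w + s * ρ w) ^ 2
      = Real.pi ^ Fintype.card ι * (∏ w, ρ w ^ 2) * (1 + s) ^ (2 * Fintype.card ι) := by
    intro s
    rw [pow_mul, ← card_univ, ← prod_const, ← prod_const, ← prod_mul_distrib, ← prod_mul_distrib]
    exact prod_congr rfl fun w _ => by ring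
  refine ⟨hf, le_trans (le_of_eq ?_) h1, h2.trans_eq (e κ)⟩
  rw [sub_eq_add_neg, ← e (-κ)]
  exact prod_congr rfl fun w _ => by ring

theorem exists_kappa (n : ℕ) {η : ℝ} (hη : 0 < η) :
    ∃ κ : ℝ, 0 < κ ∧ κ ≤ 1 ∧ 1 - η ≤ (1 - κ) ^ n ∧ (1 + κ) ^ n ≤ 1 + η := by
  have hn : (0 : ℝ) ≤ n := Nat.cast_nonneg n
  set κ : ℝ := η / ((1 + η) * (n + 1)) with hκ
  have h0 : 0 < κ := by positivity
  have h1 : κ * ((1 + η) * (n + 1)) = η := by rw [hκ]; field_simp
  have h2 : κ ≤ 1 := by rw [hκ, div_le_one (by positivity)]; nlinarith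
  have h3 : 1 - n * κ ≤ (1 - κ) ^ n := by
    have := one_add_mul_le_pow (a := -κ) (by linarith) n
    rw [← sub_eq_add_neg] at this; linarith
  have h4 : (1 + κ) ^ n * (1 - κ) ^ n ≤ 1 := by
    rw [← mul_pow]; exact pow_le_one₀ (by nlinarith) (by nlinarith)
  have h5 : 0 ≤ (1 + κ) ^ n := by positivity
  have h6 : 1 ≤ (1 + η) * (1 - n * κ) := by nlinarith
  refine ⟨κ, h0, h2, le_trans (by nlinarith [mul_pos h0 hη, mul_nonneg hn (mul_pos h0 hη).le]) h3,
    ?_⟩
  have h7 : (1 + κ) ^ n * (1 - n * κ) ≤ 1 := (mul_le_mul_of_nonneg_left h3 h5).trans h4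
  nlinarith [mul_le_mul_of_nonneg_left h6 h5]

variable {K : Type} [Field K] [NumberField K]

/-- `nm` as a linear map -/
noncomputable def nmL : EK K →ₗ[ℝ] ℝ where
  toFun := nm
  map_add' x y := by simp [nm, sum_add_distrib, mul_add]
  map_smul' c x := by simp [nm, mul_sum, mul_left_comm]

end GRID

open GRID in
theorem stGRID (hE : St_EMB) : St_GRID := by
  classical
  intro K _ _ htc b hb hn
  obtain ⟨hc, hd, -⟩ := hE K htc
  have hn0 : 0 < rk K := finrank_pos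
  have hn0' : (0 : ℝ) < rk K := by exact_mod_cast hn0
  set one : EK K := fun _ => 1 with hone
  have hno : nm one = rk K := by rw [← hc]; simp [nm, hone]
  have hli := hb.option (x := one) fun h => by
    have : Submodule.span ℝ (Set.range b) ≤ LinearMap.ker (nmL (K := K)) :=
      Submodule.span_le.2 (by rintro _ ⟨i, rfl⟩; exact hn i)
    have h2 : nm one = 0 := this h
    rw [hno] at h2; exact hn0'.ne' h2
  set B0 := basisOfLinearIndependentOfCardEqFinrank hli
    (by rw [hd, Fintype.card_option, Fintype.card_fin]; omega) with hB0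
  have hs : ∀ i, B0 (some i) = b i := fun i => by simp [hB0]
  have hz : B0 none = one := by simp [hB0]
  set V := volume.real (ZSpan.fundamentalDomain B0) with hV
  have hV0 : 0 < V := by
    rw [hV, ← ZLattice.covolume_eq_measure_fundamentalDomain _ _
      (ZSpan.isAddFundamentalDomain B0 volume)]
    exact ZLattice.covolume_pos _ _
  refine ⟨Real.pi ^ Fintype.card (InfinitePlace K) * rk K / V, by positivity,
    fun L ε η hL hε hη => ?_⟩
  obtain ⟨κ, hκ0, hκ1, hκ2, hκ3⟩ := exists_kappa (rk K) hη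
  set S : ℝ := (∑ j, ‖B0 j‖) * (1 + L / rk K) with hS
  refine ⟨⌈S / (κ * ε)⌉₊ + 1, fun N1 hN => ?_⟩
  have hN0 : (0 : ℝ) < N1 := by exact_mod_cast (by omega : 0 < N1)
  have hN1 : S / N1 ≤ κ * ε := by
    have : S / (κ * ε) ≤ N1 := (Nat.le_ceil _).trans (by exact_mod_cast (by omega))
    rw [div_le_iff₀ (by positivity)] at this
    rw [div_le_iff₀ hN0]; linarith
  set c : Option (Fin (rk K - 1)) → ℝ := fun o => o.elim (L / rk K / N1) fun _ => 1 / N1 with hcd
  have hc0 : ∀ o, 0 < c o := by rintro (_ | i) <;> simp only [hcd, Option.elim] <;> positivity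
  set B := B0.isUnitSMul (w := c) fun o => (hc0 o).ne'.isUnit with hB
  have hBa : ∀ o, B o = c o • B0 o := fun o => Basis.isUnitSMul_apply _ o
  have hvol : volume.real (ZSpan.fundamentalDomain B) = L / rk K / (N1 : ℝ) ^ rk K * V := by
    rw [ZSpan.measureReal_fundamentalDomain B volume B0, hB, Basis.det_isUnitSMul,
      abs_of_pos (prod_pos fun o _ => hc0 o), Fintype.prod_option]
    simp only [hcd, Option.elim, prod_const, card_univ, Fintype.card_fin]
    have hm : (N1 : ℝ) ^ rk K = (N1 : ℝ) ^ (rk K - 1) * N1 := by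
      rw [← pow_succ, Nat.sub_add_cancel hn0]
    rw [hm, ← hV, one_div, inv_pow]; field_simp
  have hg : ∀ a : GC K, gam b L N1 a
      = ∑ o, ((o.elim a.2 a.1 : ℤ) : ℝ) • B o := by
    intro a
    rw [Fintype.sum_option]
    simp only [hBa, hs, hz, hcd, Option.elim, gam, smul_add, smul_sum, smul_smul]
    rw [add_comm]
    refine congrArg₂ (· + ·) (congrArg (· • one) (by ring)) (sum_congr rfl fun i _ => ?_)
    rw [mul_comm]
  have hinj : Function.Injective (gam b L N1) := by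
    intro a a' h
    rw [hg, hg] at h
    have h2 := fun o => congrArg (fun x => B.repr x o) h
    simp only [Basis.repr_sum_self, Int.cast_inj] at h2
    exact Prod.ext (funext fun i => h2 (some i)) (h2 none)
  have hmem : ∀ x, x ∈ Submodule.span ℤ (Set.range B) ↔ ∃ a, gam b L N1 a = x := by
    intro x
    rw [Submodule.mem_span_range_iff_exists_fun]
    constructor
    · rintro ⟨f, rfl⟩
      refine ⟨(fun i => f (some i), f none), ?_⟩
      rw [hg]
      exact sum_congr rfl fun o _ => by cases o <;> simp [Int.cast_smul_eq_zsmul]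
    · rintro ⟨a, rfl⟩
      exact ⟨fun o => o.elim a.2 a.1, by rw [hg]; simp only [Int.cast_smul_eq_zsmul]⟩
  have hsm : ∑ j, ‖B j‖ ≤ S / N1 := by
    rw [hS, mul_div_assoc, sum_mul]
    refine sum_le_sum fun o _ => ?_
    rw [hBa, norm_smul, Real.norm_eq_abs, abs_of_pos (hc0 o), mul_comm]
    refine mul_le_mul_of_nonneg_left ?_ (norm_nonneg _)
    have : 0 < L / rk K := by positivity
    cases o <;> simp only [hcd, Option.elim] <;> gcongr <;> linarith
  obtain ⟨h1, h2⟩ := cnt B hsm hN1 hκ0.le hκ1 hε.le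
  refine ⟨fun z => ?_, fun z ρ hρ => ?_⟩
  · obtain ⟨l, hl, h⟩ := h1 z
    obtain ⟨a, rfl⟩ := (hmem l).1 hl
    exact ⟨a, h⟩
  obtain ⟨hf, h3, h4⟩ := h2 z ρ fun w => (hρ w).1
  have e : {x | x ∈ Submodule.span ℤ (Set.range B) ∧ x ∈ LCnt.disc z ρ}
      = gam b L N1 '' {a | gam b L N1 a ∈ Dsa z ρ} := by
    ext x
    constructor
    · rintro ⟨h5, h6⟩
      obtain ⟨a, rfl⟩ := (hmem x).1 h5
      exact ⟨a, h6, rfl⟩
    · rintro ⟨a, h6, rfl⟩
      exact ⟨(hmem _).2 ⟨a, rfl⟩, h6⟩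
  rw [e] at hf h3 h4
  rw [Set.ncard_image_of_injective _ hinj, hvol, hc] at h3 h4
  refine ⟨Set.Finite.of_finite_image hf hinj.injOn, ?_⟩
  set X : ℝ := Real.pi ^ Fintype.card (InfinitePlace K) * ∏ w, ρ w ^ 2 with hX
  have hX0 : 0 ≤ X := by positivity
  set W : ℝ := L / rk K / (N1 : ℝ) ^ rk K * V with hW
  have hW0 : 0 < W := by positivity
  have e2 : Real.pi ^ Fintype.card (InfinitePlace K) * rk K / V * (∏ w, ρ w ^ 2) *
      (N1 : ℝ) ^ rk K / L = X / W := by rw [hX, hW]; field_simp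
  have h5 := mul_le_mul_of_nonneg_left hκ2 hX0
  have h6 := mul_le_mul_of_nonneg_left hκ3 hX0
  rw [e2, sub_div' hW0.ne', abs_div, abs_of_pos hW0, ← mul_div_assoc]
  refine div_le_div_of_nonneg_right (abs_le.2 ⟨?_, ?_⟩) hW0.le <;> linarith

end Pool.Agent.Lib.BK2.NT
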