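import Mathlib

/-! Elements congruent to one are powers modulo deeper levels. -/

namespace Pool.Agent.Lib.BK2

variable {R : Type} [CommRing R]

/-- second order expansion of a power -/
theorem one_add_pow_exp (x : R) (n : ℕ) : ∃ c : R, (1 + x) ^ n = 1 + n * x + x ^ 2 * c := by
  induction n with
  | zero => exact ⟨0, by simp⟩
  | succ n ih =>
    obtain ⟨c, h⟩ := ih
    refine ⟨n + c + x * c, ?_⟩
    rw [pow_succ, h]; push_cast; ring

theorem one_add_pow_exp1 (x : R) (n : ℕ) : ∃ c : R, (1 + x) ^ n = 1 + x * c := by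
  obtain ⟨c, h⟩ := one_add_pow_exp x n
  exact ⟨n + x * c, by rw [h]; ring⟩

/-- `1 + N ^ 2 L a` is an `N`-th power modulo `N ^ 2 L ^ (i + 1)`. -/
theorem hens_core (N : ℕ) (L a : R) (i : ℕ) :
    ∃ b c : R, 1 + (N : R) ^ 2 * L * a = (1 + N * L * b) ^ N + (N : R) ^ 2 * L ^ (i + 1) * c := by
  induction i with
  | zero =>
    refine ⟨0, a, by simp⟩
  | succ i ih =>
    obtain ⟨b, c, h⟩ := ih
    obtain ⟨c1, h1⟩ := one_add_pow_exp ((N : R) * L ^ (i + 1) * c) N
    obtain ⟨c2, h2⟩ := one_add_pow_exp1 ((N : R) * L * b) N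
    refine ⟨b + L ^ i * c + N * L ^ (i + 1) * b * c,
      -(N * b * c2 * c) - (1 + N * L * b * c2) * L ^ i * c ^ 2 * c1, ?_⟩
    have e : 1 + (N : R) * L * (b + L ^ i * c + N * L ^ (i + 1) * b * c) =
        (1 + N * L * b) * (1 + N * L ^ (i + 1) * c) := by ring
    rw [e, mul_pow, h1, h, h2]; ring

/-- The root can be chosen congruent to one modulo every prime dividing `F`. -/
theorem hens (N L MJ F i : ℕ) (hF : F ≠ 0) (hd : MJ ∣ N ^ 2 * L ^ (i + 1)) (a : R) :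
    ∃ z c : R, 1 + (N : R) ^ 2 * L * a = z ^ N + MJ * c ∧
      ∀ p : ℕ, p.Prime → p ∣ F → ∃ y : R, z = 1 + p * y := by
  obtain ⟨b, c, h⟩ := hens_core N (L : R) a i
  obtain ⟨m, hm⟩ := hd
  classical
  set F' : ℕ := ∏ p ∈ F.primeFactors with ¬p ∣ MJ, p with hF'
  have hco : Nat.Coprime MJ F' := by
    refine Nat.Coprime.prod_right fun p hp => ?_
    rw [Finset.mem_filter] at hp
    exact ((Nat.Prime.coprime_iff_not_dvd (Nat.prime_of_mem_primeFactors hp.1)).2 hp.2).symm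
  obtain ⟨α, β, hab⟩ : IsCoprime (MJ : ℤ) (F' : ℤ) := Nat.isCoprime_iff_coprime.2 hco
  have hab' : (α : R) * MJ + β * F' = 1 := by exact_mod_cast congrArg (Int.cast : ℤ → R) hab
  have hmR : (N : R) ^ 2 * (L : R) ^ (i + 1) = MJ * m := by exact_mod_cast congrArg (Nat.cast : ℕ → R) hm
  set z0 : R := 1 + N * L * b with hz0
  have hdv : (MJ : R) ∣ z0 ^ N - (z0 - α * MJ * (N * L * b)) ^ N :=
    Dvd.dvd.trans ⟨α * (N * L * b), by ring⟩ (sub_dvd_pow_sub_pow _ _ N)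
  obtain ⟨c1, hc1⟩ := hdv
  refine ⟨z0 - α * MJ * (N * L * b), c1 + m * c, ?_, fun p hp hpF => ?_⟩
  · rw [h, hmR]; linear_combination hc1
  · by_cases hpM : p ∣ MJ
    · have h1 : p ∣ N * L := by
        have h2 : p ∣ N ^ 2 * L ^ (i + 1) := hm ▸ Dvd.dvd.mul_right hpM m
        rcases (Nat.Prime.dvd_mul hp).1 h2 with h3 | h3
        · exact Dvd.dvd.mul_right (hp.dvd_of_dvd_pow h3) L
        · exact Dvd.dvd.mul_left (hp.dvd_of_dvd_pow h3) N
      obtain ⟨r, hr⟩ := h1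
      have hrR : (N : R) * L = p * r := by exact_mod_cast congrArg (Nat.cast : ℕ → R) hr
      exact ⟨r * b * (1 - α * MJ), by rw [hz0, hrR]; ring⟩
    · have h1 : p ∣ F' := Finset.dvd_prod_of_mem _
        (Finset.mem_filter.2 ⟨Nat.mem_primeFactors.2 ⟨hp, hpF, hF⟩, hpM⟩)
      obtain ⟨r, hr⟩ := h1
      have hrR : (F' : R) = p * r := by exact_mod_cast congrArg (Nat.cast : ℕ → R) hr
      refine ⟨β * r * (N * L * b), ?_⟩
      rw [hz0]
      rw [hrR] at hab'
      linear_combination (-((N : R) * L * b)) * hab'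

end Pool.Agent.Lib.BK2
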