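import Mathlib

namespace Pool.Agent.Lib.BK2
open Finset Polynomial

/-- uniqueness of the double pole coefficients in a sum of simple fractions -/
theorem ind_frac {J : Type} [Fintype J] (b A B : J → ℂ) (hb : Function.Injective b)
    (hb0 : ∀ j, b j ≠ 0) (S : Set ℂ) (hS : S.Infinite) (hne : ∀ s ∈ S, ∀ j, 1 + b j * s ≠ 0)
    (h : ∀ s ∈ S, ∑ j, (A j / (1 + b j * s) + B j / (1 + b j * s) ^ 2) = 0) (k : J) :
    B k = 0 := by
  classical
  set P : ℂ[X] := ∑ j, (C (A j) * (1 + C (b j) * X) + C (B j)) *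
    ∏ i ∈ univ.erase j, (1 + C (b i) * X) ^ 2 with hP
  have hev : ∀ s : ℂ, P.eval s = ∑ j, (A j * (1 + b j * s) + B j) *
      ∏ i ∈ univ.erase j, (1 + b i * s) ^ 2 := by
    intro s
    simp [hP, eval_finsetSum, eval_prod]
  have hP0 : P = 0 := by
    apply Polynomial.eq_zero_of_infinite_isRoot
    refine hS.mono ?_
    intro s hs
    show P.eval s = 0
    rw [hev]
    have h1 := h s hs
    have h2 : ∑ j, (A j * (1 + b j * s) + B j) * ∏ i ∈ univ.erase j, (1 + b i * s) ^ 2
        = (∏ i, (1 + b i * s) ^ 2) *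
          ∑ j, (A j / (1 + b j * s) + B j / (1 + b j * s) ^ 2) := by
      rw [Finset.mul_sum]
      refine Finset.sum_congr rfl fun j _ => ?_
      rw [← Finset.mul_prod_erase univ (fun i => (1 + b i * s) ^ 2) (mem_univ j)]
      have := hne s hs j
      field_simp
    rw [h2, h1, mul_zero]
  have h3 := hev (-1 / b k)
  rw [hP0, eval_zero, Finset.sum_eq_single k] at h3
  · have h4 : 1 + b k * (-1 / b k) = 0 := by
      have := hb0 k
      field_simp
      ring
    rw [h4, mul_zero, zero_add] at h3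
    rcases mul_eq_zero.1 h3.symm with h5 | h5
    · exact h5
    · exfalso
      obtain ⟨i, hi, hi0⟩ := Finset.prod_eq_zero_iff.1 h5
      have h6 : 1 + b i * (-1 / b k) = 0 := pow_eq_zero_iff (two_ne_zero) |>.1 hi0
      have h7 : b i = b k := by
        have := hb0 k
        field_simp at h6
        linear_combination -h6
      exact (Finset.mem_erase.1 hi).1 (hb h7)
  · intro j _ hjk
    have h4 : 1 + b k * (-1 / b k) = 0 := by
      have := hb0 k
      field_simp
      ring
    rw [Finset.prod_eq_zero (i := k) (Finset.mem_erase.2 ⟨fun h => hjk h.symm, mem_univ _⟩)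
      (by rw [h4]; simp), mul_zero]
  · intro h; exact absurd (mem_univ k) h

theorem ind_slit (a : ℂ) (ha : a.im ≠ 0) (s : ℝ) : 1 + a * (s : ℂ) ∈ Complex.slitPlane := by
  rw [Complex.mem_slitPlane_iff]
  by_cases hs : s = 0
  · left; simp [hs]
  · right; simp [ha, hs]

theorem ind_d1 (a : ℂ) (ha : a.im ≠ 0) (s : ℝ) :
    HasDerivAt (fun s : ℝ => Real.log ‖1 + a * (s : ℂ)‖) (a / (1 + a * s)).re s := by
  have h1 : HasDerivAt (fun z : ℂ => Complex.log (1 + a * z)) (a / (1 + a * (s : ℂ))) (s : ℂ) := by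
    have h2 : HasDerivAt (fun z : ℂ => 1 + a * z) a (s : ℂ) := by
      simpa using ((hasDerivAt_id (s : ℂ)).const_mul a).const_add 1
    exact h2.clog (ind_slit a ha s)
  have h3 := h1.real_of_complex
  simpa [Complex.log_re] using h3

theorem ind_d2 (a : ℂ) (ha : a.im ≠ 0) (s : ℝ) :
    HasDerivAt (fun s : ℝ => (a / (1 + a * (s : ℂ))).re) (-(a ^ 2 / (1 + a * s) ^ 2)).re s := by
  have hne : 1 + a * (s : ℂ) ≠ 0 := Complex.slitPlane_ne_zero (ind_slit a ha s)
  have h1 : HasDerivAt (fun z : ℂ => a / (1 + a * z)) (-(a ^ 2 / (1 + a * (s : ℂ)) ^ 2)) (s : ℂ) := by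
    have h2 : HasDerivAt (fun z : ℂ => 1 + a * z) a (s : ℂ) := by
      simpa using ((hasDerivAt_id (s : ℂ)).const_mul a).const_add 1
    have h3 := (hasDerivAt_const (s : ℂ) a).div h2 hne
    have h4 : (0 * (1 + a * (s : ℂ)) - a * a) / (1 + a * (s : ℂ)) ^ 2
        = -(a ^ 2 / (1 + a * (s : ℂ)) ^ 2) := by ring
    rw [h4] at h3
    exact h3
  exact h1.real_of_complex

/-- the one variable case -/
theorem ind_line {I : Type} [Fintype I] (a : I → ℂ) (hinj : Function.Injective a)
    (hc : ∀ i j, a i ≠ (starRingEnd ℂ) (a j)) (al be : I → ℝ) (ga de : ℝ) (S : Set ℝ)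
    (hS : IsOpen S) (hne : S.Nonempty)
    (h : ∀ s ∈ S, ∑ i, (al i + be i * s) * Real.log ‖1 + a i * (s : ℂ)‖ = ga + de * s) (k : I) :
    al k = 0 := by
  have him : ∀ i, (a i).im ≠ 0 := fun i h0 => hc i i (Complex.conj_eq_iff_im.2 h0).symm
  have h1 : ∀ s ∈ S, ∑ i, (be i * Real.log ‖1 + a i * (s : ℂ)‖
      + (al i + be i * s) * (a i / (1 + a i * s)).re) = de := by
    intro s hs
    have hA : HasDerivAt (fun s : ℝ => ∑ i, (al i + be i * s) * Real.log ‖1 + a i * (s : ℂ)‖)
        (∑ i, (be i * Real.log ‖1 + a i * (s : ℂ)‖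
          + (al i + be i * s) * (a i / (1 + a i * s)).re)) s := by
      refine HasDerivAt.fun_sum fun i _ => ?_
      have h2 : HasDerivAt (fun s : ℝ => al i + be i * s) (be i) s := by
        simpa using ((hasDerivAt_id s).const_mul (be i)).const_add (al i)
      exact h2.fun_mul (ind_d1 (a i) (him i) s)
    have hB : HasDerivAt (fun s : ℝ => ga + de * s) de s := by
      simpa using ((hasDerivAt_id s).const_mul de).const_add ga
    refine hA.unique (hB.congr_of_eventuallyEq ?_)
    filter_upwards [hS.mem_nhds hs] with t ht using h t ht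
  have h2 : ∀ s ∈ S, ∑ i, (be i * (a i / (1 + a i * s)).re + (be i * (a i / (1 + a i * s)).re
      + (al i + be i * s) * (-(a i ^ 2 / (1 + a i * s) ^ 2)).re)) = 0 := by
    intro s hs
    have hA : HasDerivAt (fun s : ℝ => ∑ i, (be i * Real.log ‖1 + a i * (s : ℂ)‖
        + (al i + be i * s) * (a i / (1 + a i * s)).re))
        (∑ i, (be i * (a i / (1 + a i * s)).re + (be i * (a i / (1 + a i * s)).re
          + (al i + be i * s) * (-(a i ^ 2 / (1 + a i * s) ^ 2)).re))) s := by
      refine HasDerivAt.fun_sum fun i _ => ?_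
      have h2 : HasDerivAt (fun s : ℝ => al i + be i * s) (be i) s := by
        simpa using ((hasDerivAt_id s).const_mul (be i)).const_add (al i)
      exact ((ind_d1 (a i) (him i) s).const_mul (be i)).fun_add
        (h2.fun_mul (ind_d2 (a i) (him i) s))
    refine hA.unique ((hasDerivAt_const s de).congr_of_eventuallyEq ?_)
    filter_upwards [hS.mem_nhds hs] with t ht using h1 t ht
  let b : I ⊕ I → ℂ := Sum.elim a fun i => (starRingEnd ℂ) (a i)
  let r : I ⊕ I → I := Sum.elim id id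
  have hbi : Function.Injective b := by
    rintro (i | i) (j | j) hij
    · exact congrArg Sum.inl (hinj hij)
    · exact absurd hij (hc i j)
    · exact absurd hij.symm (hc j i)
    · exact congrArg Sum.inr (hinj ((starRingEnd ℂ).injective hij))
  have hbim : ∀ j, (b j).im ≠ 0 := by
    rintro (i | i)
    · exact him i
    · simpa [b] using him i
  have hb0 : ∀ j, b j ≠ 0 := fun j h0 => hbim j (by rw [h0]; simp)
  have key := ind_frac b (fun j => (be (r j) : ℂ) * b j)
    (fun j => (be (r j) : ℂ) * b j - (al (r j) : ℂ) * b j ^ 2) hbi hb0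
    ((fun s : ℝ => (s : ℂ)) '' S)
    ((infinite_of_mem_nhds hne.some (hS.mem_nhds hne.some_mem)).image
      Complex.ofReal_injective.injOn)
    (by
      rintro _ ⟨s, _, rfl⟩ j
      exact Complex.slitPlane_ne_zero (ind_slit (b j) (hbim j) s))
    (by
      rintro _ ⟨s, hs, rfl⟩
      rw [Fintype.sum_sum_type, ← Finset.sum_add_distrib]
      have h3 := congrArg (fun x : ℝ => 2 * (x : ℂ)) (h2 s hs)
      simp only [Complex.ofReal_sum, Finset.mul_sum, Complex.ofReal_zero, mul_zero] at h3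
      rw [← h3]
      refine Finset.sum_congr rfl fun i _ => ?_
      have hn : 1 + a i * (s : ℂ) ≠ 0 := Complex.slitPlane_ne_zero (ind_slit (a i) (him i) s)
      have hn' : 1 + (starRingEnd ℂ) (a i) * (s : ℂ) ≠ 0 :=
        Complex.slitPlane_ne_zero (ind_slit (b (Sum.inr i)) (hbim _) s)
      simp only [b, r, Sum.elim_inl, Sum.elim_inr, id, Complex.ofReal_add, Complex.ofReal_mul,
        Complex.re_eq_add_conj, map_div₀, map_neg, map_add, map_mul, map_pow, map_one,
        Complex.conj_ofReal]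
      generalize (starRingEnd ℂ) (a i) = c at hn' ⊢
      generalize a i = d at hn ⊢
      have e1 : d / (1 + d * (s : ℂ)) = d * (1 + d * s) / (1 + d * (s : ℂ)) ^ 2 := by
        field_simp
      have e2 : c / (1 + c * (s : ℂ)) = c * (1 + c * s) / (1 + c * (s : ℂ)) ^ 2 := by
        field_simp
      rw [mul_div_assoc (be i : ℂ) d, mul_div_assoc (be i : ℂ) c, e1, e2]
      generalize (1 + d * (s : ℂ)) ^ 2 = x
      generalize (1 + c * (s : ℂ)) ^ 2 = y
      ring) (Sum.inl k)
  simp only [b, r, Sum.elim_inl, id] at key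
  have h4 : (be k : ℂ) - (al k : ℂ) * a k = 0 := by
    have h5 : a k * ((be k : ℂ) - (al k : ℂ) * a k) = 0 := by linear_combination key
    exact (mul_eq_zero.1 h5).resolve_left (hb0 (Sum.inl k))
  have h6 := congrArg Complex.im h4
  simpa [him k] using h6

/-- logarithms of absolute values of linear forms are independent over affine functions -/
theorem ind {V : Type} [NormedAddCommGroup V] [NormedSpace ℝ V] {I : Type} [Fintype I]
    (l : I → V →ₗ[ℝ] ℂ)
    (hnp : ∀ i j, i ≠ j → ∀ c : ℂ, ∃ v, l i v ≠ c * l j v)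
    (hnc : ∀ i j, ∀ c : ℂ, ∃ v, l i v ≠ c * (starRingEnd ℂ) (l j v))
    (U : Set V) (hU : IsOpen U) (h0 : ∀ i, ∀ v ∈ U, l i v ≠ 0)
    (p0 : I → ℝ) (p1 : I → V →ₗ[ℝ] ℝ) (q0 : ℝ) (q1 : V →ₗ[ℝ] ℝ)
    (h : ∀ v ∈ U, ∑ i, (p0 i + p1 i v) * Real.log ‖l i v‖ = q0 + q1 v) :
    ∀ v ∈ U, ∀ i, p0 i + p1 i v = 0 := by
  classical
  intro v hv k
  let f : (I × I) × Bool → V →ₗ[ℝ] ℂ := fun z =>
    if z.2 then l z.1.1 - ((l z.1.1 v / (starRingEnd ℂ) (l z.1.2 v)) •
      (Complex.conjAe.toLinearMap ∘ₗ l z.1.2))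
    else if z.1.1 = z.1.2 then l z.1.1 else l z.1.1 - (l z.1.1 v / l z.1.2 v) • l z.1.2
  have hf : ∀ z, LinearMap.ker (f z) ≠ ⊤ := by
    rintro ⟨⟨i, j⟩, bb⟩ hz
    have hz' : ∀ u, f ((i, j), bb) u = 0 := fun u => by
      have : u ∈ LinearMap.ker (f ((i, j), bb)) := hz ▸ Submodule.mem_top
      exact this
    cases bb
    · by_cases hij : i = j
      · exact h0 i v hv (by simpa [f, hij] using hz' v)
      · obtain ⟨u, hu⟩ := hnp i j hij (l i v / l j v)
        exact hu (by simpa [f, hij, sub_eq_zero] using hz' u)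
    · obtain ⟨u, hu⟩ := hnc i j (l i v / (starRingEnd ℂ) (l j v))
      exact hu (by simpa [f, sub_eq_zero] using hz' u)
  obtain ⟨u, hu⟩ := Submodule.exists_forall_notMem_of_forall_ne_top
    (fun z => LinearMap.ker (f z)) hf
  let a : I → ℂ := fun i => l i u / l i v
  have hinj : Function.Injective a := by
    intro i j hij
    by_contra hne
    apply hu ((i, j), false)
    have h1 := h0 i v hv
    have h2 := h0 j v hv
    simp only [a] at hij
    simp only [LinearMap.mem_ker, f, hne, Bool.false_eq_true, if_false, LinearMap.sub_apply,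
      LinearMap.smul_apply, smul_eq_mul]
    field_simp at hij ⊢
    linear_combination hij
  have hc : ∀ i j, a i ≠ (starRingEnd ℂ) (a j) := by
    intro i j hij
    apply hu ((i, j), true)
    have h1 := h0 i v hv
    have h2 : (starRingEnd ℂ) (l j v) ≠ 0 := by simpa using h0 j v hv
    simp only [a, map_div₀] at hij
    simp only [LinearMap.mem_ker, f, if_true, LinearMap.sub_apply,
      LinearMap.smul_apply, smul_eq_mul, LinearMap.comp_apply, AlgEquiv.toLinearMap_apply,
      Complex.conjAe_coe]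
    field_simp at hij ⊢
    linear_combination hij
  have hcont : Continuous fun s : ℝ => v + s • u := by fun_prop
  refine ind_line a hinj hc (fun i => p0 i + p1 i v) (fun i => p1 i u)
    (q0 + q1 v - ∑ i, (p0 i + p1 i v) * Real.log ‖l i v‖)
    (q1 u - ∑ i, p1 i u * Real.log ‖l i v‖) _ (hU.preimage hcont) ⟨0, by simpa using hv⟩ ?_ k
  intro s hs
  have h1 := h _ hs
  have h2 : ∀ i, Real.log ‖l i (v + s • u)‖
      = Real.log ‖l i v‖ + Real.log ‖1 + a i * (s : ℂ)‖ := by
    intro i
    have h3 : l i (v + s • u) = l i v * (1 + a i * (s : ℂ)) := by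
      have := h0 i v hv
      simp only [a, map_add, map_smul, Complex.real_smul]
      field_simp
    have h4 : 1 + a i * (s : ℂ) ≠ 0 := fun h5 => h0 i _ hs (by rw [h3, h5, mul_zero])
    rw [h3, norm_mul, Real.log_mul (norm_ne_zero_iff.2 (h0 i v hv)) (norm_ne_zero_iff.2 h4)]
  simp only [h2] at h1
  simp only [map_add, map_smul, smul_eq_mul] at h1
  have h6 : ∑ i, (p0 i + (p1 i v + s * p1 i u)) *
      (Real.log ‖l i v‖ + Real.log ‖1 + a i * (s : ℂ)‖)
      = ∑ i, (p0 i + p1 i v + p1 i u * s) * Real.log ‖1 + a i * (s : ℂ)‖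
        + ∑ i, (p0 i + p1 i v) * Real.log ‖l i v‖
        + (∑ i, p1 i u * Real.log ‖l i v‖) * s := by
    rw [Finset.sum_mul, ← Finset.sum_add_distrib, ← Finset.sum_add_distrib]
    exact Finset.sum_congr rfl fun i _ => by ring
  rw [h6] at h1
  linarith

end Pool.Agent.Lib.BK2
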