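import Pool.Agent.Lib.BK2.UnrA

/-! Integrality of the weighted products along one curve of a family of split pairs. -/

open Polynomial

noncomputable section

namespace Pool.Agent.Lib.BK2

namespace UNR

open Finset

theorem prod_zpow_const {G P : Type} [CommGroupWithZero G] {a : G} (ha : a ≠ 0) (s : Finset P)
    (r : P → ℤ) : ∏ q ∈ s, a ^ r q = a ^ ∑ q ∈ s, r q := by
  classical
  induction s using Finset.induction_on with
  | empty => simp
  | insert q s hq ih => rw [prod_insert hq, sum_insert hq, ih, zpow_add₀ ha]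

/-- membership in all valuation subrings -/
theorem integral_of_val {F : Type} [Field F] (s : Set F) (x : F)
    (h : ∀ V : ValuationSubring F, s ⊆ V.toSubring → V.valuation x ≤ 1) :
    IsIntegral (Subring.closure s) x := by
  have : x ∈ (integralClosure (Subring.closure s) F).toSubring := by
    rw [← iInf_valuationSubring_superset, Subring.mem_iInf]
    exact fun V => (V.1.valuation_le_one_iff x).1 (h V.1 V.2)
  exact this

theorem integral_of_map {F k : Type} [Field F] [CommRing k] (O : Subring F) (ρ : O →+* k)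
    (s : Set F) (hs : Subring.closure s ≤ O)
    (hi : ∀ y : O, (y : F) ∈ s → IsIntegral ℤ (ρ y)) (x : O)
    (hx : IsIntegral (Subring.closure s) (x : F)) : IsIntegral ℤ (ρ x) := by
  let ρ' : Subring.closure s →+* k := ρ.comp (Subring.inclusion hs)
  have h1 : ∀ a : Subring.closure s, ρ' a ∈ (integralClosure ℤ k).toSubring := by
    rintro ⟨a, ha⟩
    induction ha using Subring.closure_induction with
    | mem y hy => exact hi ⟨y, hs (Subring.subset_closure hy)⟩ hy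
    | zero => exact (map_zero ρ').symm ▸ zero_mem _
    | one => exact (map_one ρ').symm ▸ one_mem _
    | add y z hy hz h1 h2 => exact (map_add ρ' ⟨y, hy⟩ ⟨z, hz⟩).symm ▸ add_mem h1 h2
    | neg y hy h1 => exact (map_neg ρ' ⟨y, hy⟩).symm ▸ neg_mem h1
    | mul y z hy hz h1 h2 => exact (map_mul ρ' ⟨y, hy⟩ ⟨z, hz⟩).symm ▸ mul_mem h1 h2
  let ρ'' : Subring.closure s →+* integralClosure ℤ k := ρ'.codRestrict _ h1
  obtain ⟨p, hp, hpx⟩ := hx
  have h2 : eval₂ (Subring.inclusion hs) x p = 0 := by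
    apply Subtype.val_injective
    exact (hom_eval₂ p (Subring.inclusion hs) O.subtype x).trans hpx
  have h3 : IsIntegral (integralClosure ℤ k) (ρ x) := by
    refine ⟨p.map ρ'', hp.map _, ?_⟩
    rw [eval₂_map]
    have := hom_eval₂ p (Subring.inclusion hs) ρ x
    rw [h2, map_zero] at this
    exact this.symm
  exact isIntegral_trans _ h3

theorem integral_int_of_val {F : Type} [Field F] (x : F)
    (h : ∀ V : ValuationSubring F, V.valuation x ≤ 1) : IsIntegral ℤ x :=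
  integral_of_map (⊤ : Subring F) (⊤ : Subring F).subtype ∅ le_top (fun _ hy => hy.elim) ⟨x, trivial⟩
    (integral_of_val ∅ x fun V _ => h V)

variable {B : Type} [CommRing B] [Algebra ℤ[X] B] {d : ℕ} [NeZero d] {Γ : Geo B d}

/-- the symmetric form of the local structure -/
def Loc (Γ : Geo B d) (a a' : ℕ) (e w : B) (Z : Finset (Pt B)) : Prop :=
  e ∈ Γ.V a ∧ w ∈ Γ.V a' ∧ (∀ x ∈ Z, x.On e ∧ x.On w) ∧
  (∃ n : ℤ, n ≠ 0 ∧ ∃ s s' : B, (n : B) = e * s + w * s') ∧
  ∀ (F G : Type) [Field F] [LinearOrderedCommGroupWithZero G] (ν : Valuation F G) (ψ : B →+* F),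
    ν (ψ e) < Mx Γ ν ψ ^ a → ν (ψ w) < Mx Γ ν ψ ^ a' →
    ν (ψ Γ.t) ≤ 1 ∧ ∃ x ∈ Z, (∀ f, ν (ψ f) < 1 ↔ x.On f) ∧ ∃ n : ℤ, ν (n : F) = 1 ∧
      ∀ f, x.On f → ∃ α β : B, (n : B) * f = α * e + β * w

theorem Loc.of_split {m m' : ℕ} {e w : B} {Z : Finset (Pt B)} (h : Γ.Split m m' e w Z)
    (hd : Γ.dmax + 1 ≤ m) (hm : 2 * m ≤ m') : Loc Γ m m' e w Z :=
  ⟨h.he, h.hw, fun _ hx => ⟨on_left h hm hx, on_right h hx⟩, exists_int h,
    fun _ _ _ _ ν ψ he hw => loc ν ψ h hd hm he hw⟩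

theorem Loc.symm {a a' : ℕ} {e w : B} {Z : Finset (Pt B)} (h : Loc Γ a a' e w Z) :
    Loc Γ a' a w e Z := by
  obtain ⟨h1, h2, h3, ⟨n, hn, s, s', hs⟩, h5⟩ := h
  refine ⟨h2, h1, fun x hx => (h3 x hx).symm, ⟨n, hn, s', s, by rw [hs, add_comm]⟩,
    fun F G _ _ ν ψ hw he => ?_⟩
  obtain ⟨ht, x, hx, hc, k, hk, hr⟩ := h5 F G ν ψ he hw
  refine ⟨ht, x, hx, hc, k, hk, fun f hf => ?_⟩
  obtain ⟨α, β, h'⟩ := hr f hf
  exact ⟨β, α, by rw [h', add_comm]⟩

theorem Loc.ne_zero {a a' : ℕ} {e w : B} {Z : Finset (Pt B)} (h : Loc Γ a a' e w Z) {F : Type}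
    [Field F] [CharZero F] (ψ : B →+* F) (he : ψ e = 0) : ψ w ≠ 0 := by
  obtain ⟨n, hn, s, s', hs⟩ := h.2.2.2.1
  intro hw
  have := congrArg ψ hs
  rw [map_add, map_mul, map_mul, he, hw, zero_mul, zero_mul, add_zero, map_intCast] at this
  exact hn (by exact_mod_cast this)

open Classical in
/-- the weighted product along a curve is integral -/
theorem row_integral {P : Type} (s : Finset P) {a a' : ℕ} (e : B) (w : P → B)
    (Z : P → Finset (Pt B)) (r : P → ℤ) (h : ∀ q ∈ s, Loc Γ a a' e (w q) (Z q))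
    (h0 : ∑ q ∈ s, r q = 0) (h1 : ∀ x, ∑ q ∈ s with x ∈ Z q, r q = 0) {F : Type} [Field F]
    [CharZero F] (ψ : B →+* F) (he : ψ e = 0) : IsIntegral ℤ (∏ q ∈ s, ψ (w q) ^ r q) := by
  refine integral_int_of_val _ fun V => le_of_eq ?_
  set ν := V.valuation
  have hM : ∀ k : ℕ, 0 < Mx Γ ν ψ ^ k := fun k => pow_pos (Mx_pos Γ ν ψ) k
  have he' : ν (ψ e) < Mx Γ ν ψ ^ a := by
    rw [he, map_zero]
    exact hM a
  rw [map_prod]
  simp only [map_zpow₀]
  by_cases hS : ∃ q ∈ s, ν (ψ (w q)) < Mx Γ ν ψ ^ a'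
  · obtain ⟨q₀, hq₀, hlt⟩ := hS
    obtain ⟨ht, x, hx, hc, n, hn, hr⟩ := (h q₀ hq₀).2.2.2.2 _ _ ν ψ he' hlt
    have hM1 : Mx Γ ν ψ = 1 := max_eq_left ht
    have hle : ∀ (k : ℤ) (f g : B), ν (k : F) = 1 → (∃ α β : B, (k : B) * f = α * e + β * g) →
        ν (ψ f) ≤ ν (ψ g) := by
      rintro k f g hk ⟨α, β, h'⟩
      have h2 := congrArg (fun z => ν (ψ z)) h'
      simp only [map_mul, map_add, map_intCast, he, mul_zero, zero_add, hk, one_mul] at h2
      rw [h2]
      exact mul_le_of_le_one_left' (val_le_one Γ ν ψ ht β)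
    have hval : ∀ q ∈ s, ν (ψ (w q)) = if x ∈ Z q then ν (ψ (w q₀)) else 1 := by
      intro q hq
      by_cases hq' : ν (ψ (w q)) < 1
      · obtain ⟨-, x', hx', hc', n', hn', hr'⟩ :=
          (h q hq).2.2.2.2 _ _ ν ψ he' (by rwa [hM1, one_pow])
        obtain rfl : x = x' := pt_ext fun f => (hc f).symm.trans (hc' f)
        rw [if_pos hx']
        exact le_antisymm (hle n _ _ hn (hr _ ((hc _).1 hq')))
          (hle n' _ _ hn' (hr' _ (((h q₀ hq₀).2.2.1 x hx).2)))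
      · rw [if_neg fun hx' => hq' ((hc _).2 ((h q hq).2.2.1 x hx').2)]
        exact le_antisymm (val_le_one Γ ν ψ ht _) (not_lt.1 hq')
    have h2 : ∀ q ∈ s, ν (ψ (w q)) ^ r q = if x ∈ Z q then ν (ψ (w q₀)) ^ r q else 1 := by
      intro q hq
      rw [hval q hq]
      split_ifs <;> simp
    rw [prod_congr rfl h2, ← prod_filter,
      prod_zpow_const ((map_ne_zero ν).2 ((h q₀ hq₀).ne_zero ψ he)), h1, zpow_zero]
  · have hval : ∀ q ∈ s, ν (ψ (w q)) ^ r q = (Mx Γ ν ψ ^ a') ^ r q := by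
      intro q hq
      rw [le_antisymm (val_le Γ ν ψ (h q hq).2.1) (not_lt.1 fun h' => hS ⟨q, hq, h'⟩)]
    rw [prod_congr rfl hval, prod_zpow_const (hM a').ne', h0, zpow_zero]

/-- values at a zero of a section are algebraic -/
theorem algebraic_of_zero (Γ : Geo B d) {F : Type} [Field F] [Algebra ℚ F] (ψ : B →+* F) {e g : B} {p : ℤ[X]}
    (hp : p ≠ 0) (hg : e * g = algebraMap ℤ[X] B p) (he : ψ e = 0) (b : B) :
    IsAlgebraic ℚ (ψ b) := by
  have h1 : aeval (ψ Γ.t) p = 0 := by rw [← hom_alg Γ, ← hg, map_mul, he, zero_mul]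
  have h2 : IsAlgebraic ℤ (ψ Γ.t) := ⟨p, hp, h1⟩
  have h4 : IsIntegral (Subring.closure {ψ Γ.t}) (ψ b) := by
    refine integral_of_val _ _ fun V hV => val_le_one Γ V.valuation ψ ?_ b
    exact (V.valuation_le_one_iff _).2 (hV (Set.mem_singleton _))
  have h5 : IsIntegral ℚ (ψ Γ.t) := (h2.extendScalars (algebraMap ℤ ℚ).injective_int).isIntegral
  have h6 : Subring.closure {ψ Γ.t} ≤ (integralClosure ℚ F).toSubring :=
    Subring.closure_le.2 (Set.singleton_subset_iff.2 h5)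
  obtain ⟨q, hq, hqb⟩ := h4
  have h7 : IsIntegral (integralClosure ℚ F) (ψ b) := by
    refine ⟨q.map (Subring.inclusion h6), hq.map _, ?_⟩
    rw [eval₂_map]
    exact hqb
  exact (isIntegral_trans (R := ℚ) _ h7).isAlgebraic

end UNR

open UNR in
theorem stINT (hN : St_NRM) : St_INT := by
  classical
  intro B _ _ _ d _ Γ m m' P E W _ ε ω fe fw Z r hd hm h φ
  refine ⟨fun p he => ?_, fun p hw => ?_⟩
  · obtain ⟨-, g, -, hg⟩ := (hN B d Γ m).1 _ (h.split p).he
    refine ⟨algebraic_of_zero Γ φ (h.split p).pe.ne_zero hg he,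
      (Loc.of_split (h.split p) hd hm).ne_zero φ he,
      row_integral (Γ := Γ) (a := m) (a' := m') _ (fe (ε p)) (fun q => fw (ω q)) Z r
        (fun q hq => ?_) (h.row _) (fun x => ?_) φ he⟩
    · rw [← (Finset.mem_filter.1 hq).2]
      exact Loc.of_split (h.split q) hd hm
    · rw [Finset.filter_filter]
      simpa using h.srow (ε p) x
  · obtain ⟨-, g, -, hg⟩ := (hN B d Γ m').1 _ (h.split p).hw
    refine ⟨algebraic_of_zero Γ φ (h.split p).pw.ne_zero hg hw,
      (Loc.of_split (h.split p) hd hm).symm.ne_zero φ hw,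
      row_integral (Γ := Γ) (a := m') (a' := m) _ (fw (ω p)) (fun q => fe (ε q)) Z r
        (fun q hq => ?_) (h.col _) (fun x => ?_) φ hw⟩
    · rw [← (Finset.mem_filter.1 hq).2]
      exact (Loc.of_split (h.split q) hd hm).symm
    · rw [Finset.filter_filter]
      simpa using h.scol (ω p) x

end Pool.Agent.Lib.BK2
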