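import Pool.Agent.Lib.BK2.KDefs
import Pool.Agent.Lib.BK2.Blue1
import Pool.Agent.Lib.BK2.Bas

open Polynomial

namespace Pool.Agent.Lib.BK2

namespace G2K

variable {B : Type} [CommRing B] [Algebra ℤ[X] B] {d : ℕ} [NeZero d] (Γ : Geo B d)

theorem VA_eq (m : ℕ) : Γ.VA m = (Γ.VS m).toAddSubgroup :=
  AddSubgroup.closure_eq (Γ.VS m).toAddSubgroup

theorem mem_VA {m : ℕ} {f : B} : f ∈ Γ.VA m ↔ f ∈ Γ.V m := by
  rw [VA_eq]; rfl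

theorem finrank_VA (m : ℕ) : Module.finrank ℤ (Γ.VA m) = Fintype.card (Γ.Ix m) := by
  rw [VA_eq]
  exact Γ.finrank_VS m

end G2K

theorem stG2K (h : St_G2) : St_G2K := by
  intro B _ _ _ d _ Γ k f hf hc
  obtain ⟨h1, -, h3, h4, -⟩ := h B d Γ k f hf hc
  refine ⟨fun a s hk hs => h1 _ s (by rwa [Nat.add_sub_cancel' hk]),
    fun hp N s hN ⟨u, hu⟩ => h3 hp N s u hN (by rw [← hu, zsmul_eq_mul]), fun a ha => ?_,
    fun a ha => ?_⟩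
  · refine h4 a (by omega) _ _ (fun v => ?_) fun v => G2K.mem_VA Γ
    rw [AddSubgroup.mem_sup]
    constructor
    · rintro ⟨u, hu, _, ⟨s, hs, rfl⟩, rfl⟩
      exact ⟨u, (G2K.mem_VA Γ).1 hu, s, (G2K.mem_VA Γ).1 hs, rfl⟩
    · rintro ⟨u, hu, s, hs, rfl⟩
      exact ⟨u, (G2K.mem_VA Γ).2 hu, _, ⟨s, (G2K.mem_VA Γ).2 hs, rfl⟩, rfl⟩
  · rw [G2K.finrank_VA, G2K.finrank_VA, ← Γ.card_Ix_sub (by omega), Nat.sub_add_cancel (by omega)]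

end Pool.Agent.Lib.BK2
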