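import Pool.Agent.Lib.BK2.KDefs

/-! Index comparison of two maps into a lattice. -/

noncomputable section

namespace Pool.Agent.Lib.BK2

namespace IDX

theorem core (A M κ : Type) [AddCommGroup A] [AddCommGroup M] [Module.Free ℤ M] [Module.Finite ℤ M]
    [Fintype κ] (i j : A →+ M) (φ : κ → M →+ ℂ) (z : κ → ℂ)
    (hr : Module.finrank ℤ M = Fintype.card κ)
    (hφ : LinearIndependent ℂ (fun k => (φ k : M → ℂ))) (hij : ∀ a, i a = 0 → j a = 0)
    (hz : ∀ k a, φ k (j a) = z k * φ k (i a)) (hi : i.range.index ≠ 0) (hj : j.range.index ≠ 0) :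
    (j.range.index : ℝ) = i.range.index * ∏ k, ‖z k‖ := by
  classical
  have fi : i.range.FiniteIndex := ⟨hi⟩
  have fj : j.range.FiniteIndex := ⟨hj⟩
  have ri := (AddSubgroup.finrank_eq_of_finiteIndex i.range).trans hr
  have rj := (AddSubgroup.finrank_eq_of_finiteIndex j.range).trans hr
  have f1 : Module.Finite ℤ i.range := inferInstanceAs (Module.Finite ℤ i.range.toIntSubmodule)
  have f2 : Module.Finite ℤ j.range := inferInstanceAs (Module.Finite ℤ j.range.toIntSubmodule)
  have g1 : Module.Free ℤ i.range := inferInstanceAs (Module.Free ℤ i.range.toIntSubmodule)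
  have g2 : Module.Free ℤ j.range := inferInstanceAs (Module.Free ℤ j.range.toIntSubmodule)
  let b : Module.Basis κ ℤ M :=
    (Module.finBasisOfFinrankEq ℤ M hr).reindex (Fintype.equivFin κ).symm
  let c : Module.Basis κ ℤ i.range :=
    (Module.finBasisOfFinrankEq ℤ i.range ri).reindex (Fintype.equivFin κ).symm
  choose s hs using fun x : i.range => x.2
  have hT : ∀ (x : i.range) a, i a = x → j (s x) = j a := fun x a h => by
    rw [← sub_eq_zero, ← map_sub]
    exact hij _ (by rw [map_sub, hs, h, sub_self])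
  let T : i.range →+ j.range := AddMonoidHom.mk' (fun x => ⟨j (s x), s x, rfl⟩) fun x y =>
    Subtype.ext ((hT (x + y) (s x + s y) (by rw [map_add, hs, hs]; rfl)).trans (map_add j _ _))
  have hs' : Function.Surjective T.toIntLinearMap := by
    rintro ⟨_, a, rfl⟩
    exact ⟨⟨i a, a, rfl⟩, Subtype.ext (hT _ a rfl)⟩
  have hi' : Function.Injective T.toIntLinearMap :=
    OrzechProperty.injective_of_surjective_of_injective
      (LinearEquiv.ofFinrankEq (R := ℤ) i.range j.range (ri.trans rj.symm)).toLinearMap _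
      (LinearEquiv.injective _) hs'
  let c' := c.map (LinearEquiv.ofBijective T.toIntLinearMap ⟨hi', hs'⟩)
  have lin : ∀ k (v : M), φ k v = ∑ l, φ k (b l) * (b.repr v l : ℂ) := fun k v => by
    conv_lhs => rw [← b.sum_repr v, map_sum]
    exact Finset.sum_congr rfl fun l _ => by rw [map_zsmul, zsmul_eq_mul, mul_comm]
  have key : ∀ v : κ → M, (Matrix.of fun k l => φ k (v l)).det =
      (Matrix.of fun k l => φ k (b l)).det * (b.det v : ℂ) := fun v => by
    rw [Module.Basis.det_apply, ← eq_intCast (Int.castRingHom ℂ), RingHom.map_det,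
      ← Matrix.det_mul]
    refine congrArg _ (Matrix.ext fun k l => ?_)
    rw [Matrix.mul_apply]
    exact lin k (v l)
  have h0 : (Matrix.of fun k l => φ k (b l)).det ≠ 0 := fun h => by
    obtain ⟨w, hw, hw'⟩ := Matrix.exists_vecMul_eq_zero_iff.2 h
    refine hw (funext (Fintype.linearIndependent_iff.1 hφ w (funext fun v => ?_)))
    have h1 : ∀ l, ∑ k, w k * φ k (b l) = 0 := fun l => congrFun hw' l
    simp only [Finset.sum_apply, Pi.smul_apply, smul_eq_mul, Pi.zero_apply, lin _ v,
      Finset.mul_sum, ← mul_assoc]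
    rw [Finset.sum_comm]
    exact Finset.sum_eq_zero fun l _ => by rw [← Finset.sum_mul, h1, zero_mul]
  have h2 : (Matrix.of fun k l => φ k (c' l : M)) =
      Matrix.diagonal z * Matrix.of fun k l => φ k (c l : M) := Matrix.ext fun k l => by
    rw [Matrix.diagonal_mul, Matrix.of_apply, Matrix.of_apply, ← hs (c l), ← hz]
    rfl
  have h3 := key fun l => (c' l : M)
  rw [h2, Matrix.det_mul, key fun l => (c l : M), Matrix.det_diagonal, mul_left_comm] at h3
  have h4 := congrArg norm (mul_left_cancel₀ h0 h3)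
  rw [norm_mul, norm_prod, Complex.norm_intCast, Complex.norm_intCast] at h4
  rw [AddSubgroup.index_eq_natAbs_det b _ c, AddSubgroup.index_eq_natAbs_det b _ c',
    Nat.cast_natAbs, Nat.cast_natAbs, Int.cast_abs, Int.cast_abs, ← h4, mul_comm]

end IDX

theorem stIDX : St_IDX := fun A M κ _ _ _ _ _ i j φ z => IDX.core A M κ i j φ z

end Pool.Agent.Lib.BK2
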