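import Pool.Agent.Lib.BK2.KDefs

open Polynomial

noncomputable section

namespace Pool.Agent.Lib.BK2

namespace KPROD

variable {B : Type} [CommRing B] [Algebra ℤ[X] B] {d : ℕ} [NeZero d] (Γ : Geo B d)

theorem ev_scl {m : ℕ} (φ : B →+* ℂ) (H : ℝ) (e : Γ.Ix m → ℤ) :
    Γ.ev φ (scl H e) = φ (Γ.el e) / H := by
  simp only [Geo.ev, Geo.el, scl, map_sum, map_zsmul, Finset.sum_div]
  refine Finset.sum_congr rfl fun i _ => ?_
  rw [zsmul_eq_mul]
  push_cast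
  ring

theorem nrmR_scl {m : ℕ} (H : ℝ) (e : Γ.Ix m → ℤ) :
    Γ.nrmR (scl H e) = C (H⁻¹ ^ d) * (Γ.nrm (Γ.el e)).map (Int.castRingHom ℝ) := by
  have h1 : (∑ i, (C (scl H e i) : ℝ[X]) •
      (Algebra.leftMulMatrix Γ.b (Γ.mon i)).map (Polynomial.map (Int.castRingHom ℝ))) =
      (C H⁻¹ : ℝ[X]) • (Polynomial.mapRingHom (Int.castRingHom ℝ)).mapMatrix
        (Algebra.leftMulMatrix Γ.b (Γ.el e)) := by
    simp only [Geo.el, map_sum, map_zsmul, Finset.smul_sum]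
    refine Finset.sum_congr rfl fun i _ => ?_
    have h0 : (C (scl H e i) : ℝ[X]) = C H⁻¹ * (e i : ℝ[X]) := by
      rw [scl, div_eq_mul_inv, map_mul, map_intCast, mul_comm]
    rw [h0, mul_smul, Int.cast_smul_eq_zsmul]
    rfl
  rw [Geo.nrmR, h1, Matrix.det_smul, ← RingHom.map_det, Geo.nrm,
    Algebra.norm_eq_matrix_det Γ.b, Fintype.card_fin, map_pow]
  rfl

theorem lc_scl {m : ℕ} (H : ℝ) (e : Γ.Ix m → ℤ) :
    Γ.lc (scl H e) = H⁻¹ ^ d * (((Γ.nrm (Γ.el e)).coeff (m * d) : ℤ) : ℝ) := by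
  rw [Geo.lc, nrmR_scl, coeff_C_mul, coeff_map]
  rfl

variable {Γ}

theorem one (h : St_PROD1) [IsDomain B] {D k k' ν : ℕ} {U : Set (Γ.Ix k → ℝ)}
    (ρ : Γ.Roots k ν U) {H H' : ℝ} (hH : 0 < H) (hH' : 0 < H') (e : Γ.Ix k → ℤ)
    (w : Γ.Ix k' → ℤ) (Z : Finset (Pt B)) (he : scl H e ∈ U)
    (hh : Γ.Half D k k' (Γ.el e) (Γ.el w) Z) :
    ∑ x ∈ Z, Real.log x.p = 2 * ∑ s, ρ.lam (scl H e) (scl H' w) (some s) +
      k' * Real.log |Γ.lc (scl H e)| + (k * d * Real.log H' + k' * d * Real.log H) := by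
  let φ : Fin ν ⊕ Fin ν → B →+* ℂ := Sum.elim (ρ.φ (scl H e))
    fun s => (starRingEnd ℂ).comp (ρ.φ (scl H e) s)
  have hz : ∀ s, ρ.φ (scl H e) s (Γ.el e) = 0 := fun s => by
    have := ρ.zero _ he s
    rw [ev_scl] at this
    exact (div_eq_zero_iff.1 this).resolve_right (by exact_mod_cast hH.ne')
  obtain ⟨h1, h2⟩ := h B d Γ D k k' (Γ.el e) (Γ.el w) Z (Fin ν ⊕ Fin ν) φ hh
    (by rw [Fintype.card_sum, Fintype.card_fin, ← ρ.card]; ring)
    (by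
      rintro (s | s)
      · exact hz s
      · show starRingEnd ℂ (ρ.φ (scl H e) s (Γ.el e)) = 0
        rw [hz s, map_zero])
    (by
      rintro (s | s) (s' | s') hs
      · exact congrArg _ (ρ.inj _ he s s' hs)
      · exact absurd hs (ρ.nre _ he s s')
      · exact absurd hs.symm (ρ.nre _ he s' s)
      · exact congrArg _ (ρ.inj _ he s s' ((starRingEnd ℂ).injective hs)))
  have hn : ∀ s, ‖ρ.φ (scl H e) s (Γ.el w)‖ ≠ 0 := fun s => norm_ne_zero_iff.2 (h1 (Sum.inl s))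
  have hc : (((Γ.nrm (Γ.el e)).coeff (k * d) : ℤ) : ℝ) ≠ 0 := by exact_mod_cast hh.cf
  have h3 : ∏ s, ‖φ s (Γ.el w)‖ = (∏ s, ‖ρ.φ (scl H e) s (Γ.el w)‖) ^ 2 := by
    rw [Fintype.prod_sum_type, sq]
    refine congrArg₂ _ rfl (Finset.prod_congr rfl fun s _ => ?_)
    exact Complex.norm_conj _
  have h4 := congrArg Real.log h2
  rw [h3, Real.log_prod (fun x _ => by exact_mod_cast x.1.2.ne_zero),
    Real.log_mul (pow_ne_zero _ (abs_ne_zero.2 hc))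
      (pow_ne_zero _ (Finset.prod_ne_zero_iff.2 fun s _ => hn s)),
    Real.log_pow, Real.log_pow, Real.log_prod (fun s _ => hn s)] at h4
  have h5 : ∑ s, ρ.lam (scl H e) (scl H' w) (some s) =
      ∑ s, Real.log ‖ρ.φ (scl H e) s (Γ.el w)‖ - ν * Real.log H' := by
    have : ∀ s, ρ.lam (scl H e) (scl H' w) (some s) =
        Real.log ‖ρ.φ (scl H e) s (Γ.el w)‖ - Real.log H' := fun s => by
      show Real.log ‖Γ.ev (ρ.φ (scl H e) s) (scl H' w)‖ = _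
      rw [ev_scl, norm_div, Complex.norm_real, Real.norm_of_nonneg hH'.le,
        Real.log_div (hn s) hH'.ne']
    simp only [this, Finset.sum_sub_distrib, Finset.sum_const, Finset.card_univ,
      Fintype.card_fin, nsmul_eq_mul]
  have h6 : Real.log |Γ.lc (scl H e)| =
      Real.log |(((Γ.nrm (Γ.el e)).coeff (k * d) : ℤ) : ℝ)| - d * Real.log H := by
    rw [lc_scl, Real.log_abs, Real.log_abs, Real.log_mul (pow_ne_zero _ (inv_ne_zero hH.ne')) hc,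
      Real.log_pow, Real.log_inv]
    ring
  have h7 : (2 : ℝ) * ν = k * d := by exact_mod_cast ρ.card
  rw [h4, h5, h6, ← h7]
  push_cast
  ring

end KPROD

theorem stPROD (h : St_PROD1) : St_PROD := by
  intro B _ _ _ d _ Γ m m' ν ν' U U' ρ ρ' h1 h2 H H' hH hH' e w Z he hw hs
  refine ⟨KPROD.one h ρ hH hH' e w Z he (hs.half₁ h1 h2), ?_⟩
  rw [KPROD.one h ρ' hH' hH w e Z hw (hs.half₂ h1 h2)]
  ring

end Pool.Agent.Lib.BK2
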