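import Pool.Agent.Lib.BK2.KDefs
import Pool.Agent.Lib.BK2.Bas

/-! The product formula on one curve. -/

open Polynomial

noncomputable section

namespace Pool.Agent.Lib.BK2

namespace KP1

theorem absIdx (hI : St_IDX) (V A κ : Type) [AddCommGroup V] [AddCommGroup A] [Module.Finite ℤ V]
    [Fintype κ] (K : AddSubgroup V) (htf : ∀ (N : ℤ) (v : V), N ≠ 0 → N • v ∈ K → v ∈ K)
    (i j : A →+ V) (φ : κ → V →+ ℂ) (z : κ → ℂ)
    (hr : Module.finrank ℤ V = Module.finrank ℤ K + Fintype.card κ)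
    (hK : ∀ s, ∀ v ∈ K, φ s v = 0) (hli : LinearIndependent ℂ fun s => (φ s : V → ℂ))
    (hij : ∀ a, i a ∈ K → j a ∈ K) (hz : ∀ s a, φ s (j a) = z s * φ s (i a))
    (h1 : (i.range ⊔ K).index ≠ 0) (h2 : (j.range ⊔ K).index ≠ 0) :
    ((j.range ⊔ K).index : ℝ) = (i.range ⊔ K).index * ∏ s, ‖z s‖ := by
  set q : V →+ V ⧸ K := QuotientAddGroup.mk' K with hq
  have hs : Function.Surjective q := QuotientAddGroup.mk'_surjective K
  have hq0 : ∀ v, q v = 0 ↔ v ∈ K := fun v => QuotientAddGroup.eq_zero_iff v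
  have : Module.Finite ℤ (V ⧸ K) := Module.Finite.of_surjective q.toIntLinearMap hs
  have : Module.IsTorsionFree ℤ (V ⧸ K) := by
    refine Module.IsTorsionFree.of_smul_eq_zero fun N m h => ?_
    obtain ⟨v, rfl⟩ := hs m
    by_cases hN : N = 0
    · exact Or.inl hN
    · rw [← map_zsmul, hq0] at h
      exact Or.inr ((hq0 v).2 (htf N v hN h))
  have hidx : ∀ l : A →+ V, (q.comp l).range.index = (l.range ⊔ K).index := by
    intro l
    rw [← AddSubgroup.index_comap_of_surjective _ hs, ← AddMonoidHom.map_range,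
      AddSubgroup.comap_map_eq, hq, QuotientAddGroup.ker_mk']
  have hrk : Module.finrank ℤ (V ⧸ K) = Fintype.card κ := by
    have e1 := Submodule.finrank_quotient_add_finrank (LinearMap.ker q.toIntLinearMap)
    have e2 := (LinearMap.quotKerEquivOfSurjective q.toIntLinearMap hs).finrank_eq
    have e3 : Module.finrank ℤ (LinearMap.ker q.toIntLinearMap) = Module.finrank ℤ K := by
      refine LinearEquiv.finrank_eq (AddEquiv.toIntLinearEquiv ?_)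
      exact ⟨⟨fun v => ⟨v.1, (hq0 _).1 v.2⟩, fun v => ⟨v.1, (hq0 _).2 v.2⟩, fun _ => rfl,
        fun _ => rfl⟩, fun _ _ => rfl⟩
    omega
  have key := hI A (V ⧸ K) κ (q.comp i) (q.comp j)
    (fun s => QuotientAddGroup.lift K (φ s) (hK s)) z hrk ?_ ?_ ?_
    (by rw [hidx]; exact h1) (by rw [hidx]; exact h2)
  · rwa [hidx, hidx] at key
  · rw [Fintype.linearIndependent_iff] at hli ⊢
    intro c hc
    refine hli c (funext fun v => ?_)
    have e := congrFun hc (q v)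
    simp only [Finset.sum_apply] at e ⊢
    exact e
  · intro a h
    exact (hq0 _).2 (hij a ((hq0 _).1 h))
  · intro s a
    exact hz s a

variable {B : Type} [CommRing B] [Algebra ℤ[X] B] {d : ℕ} [NeZero d] (Γ : Geo B d)

theorem VA_eq (m : ℕ) : Γ.VA m = (Γ.VS m).toAddSubgroup :=
  AddSubgroup.closure_eq (Γ.VS m).toAddSubgroup

theorem mem_VA {m : ℕ} {f : B} : f ∈ Γ.VA m ↔ f ∈ Γ.V m := by rw [VA_eq]; rfl

theorem VA_mono {m m' : ℕ} (h : m ≤ m') : Γ.VA m ≤ Γ.VA m' := fun _ hf =>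
  (mem_VA Γ).2 (Geo.V_mono h ((mem_VA Γ).1 hf))

theorem finite_VA (m : ℕ) : Module.Finite ℤ (Γ.VA m) := by
  refine Module.Finite.of_surjective
    (AddMonoidHom.toIntLinearMap (((Γ.elL m).toAddMonoidHom).codRestrict (Γ.VA m)
      fun e => (mem_VA Γ).2 (Γ.el_mem e))) fun v => ?_
  exact ⟨Γ.co m v.1, Subtype.ext (Γ.el_co ((mem_VA Γ).1 v.2))⟩

/-- All multiples of `f`. -/
def FB (f : B) : AddSubgroup B := (AddMonoidHom.mulLeft f).range

omit [Algebra ℤ[X] B] in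
theorem mem_FB {f v : B} : v ∈ FB f ↔ f ∣ v :=
  ⟨fun ⟨s, h⟩ => ⟨s, h.symm⟩, fun ⟨s, h⟩ => ⟨s, h.symm⟩⟩

theorem relW {f : B} {a a' : ℕ} (h : a ≤ a') :
    (Γ.VA a ⊔ FB f).relIndex (Γ.VA a' ⊔ FB f) = (Γ.VA a ⊔ FB f).relIndex (Γ.VA a') := by
  have e : Γ.VA a' ⊔ FB f = Γ.VA a' ⊔ (Γ.VA a ⊔ FB f) := by
    rw [← sup_assoc, sup_eq_left.2 (VA_mono Γ h)]
  rw [e, AddSubgroup.relIndex_sup_right]

theorem relW_pow {f : B} {k c : ℕ}
    (h1 : ∀ a s, k ≤ a → f * s ∈ Γ.V a → s ∈ Γ.V (a - k))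
    (h3 : ∀ a, k + Γ.dmax ≤ a →
      (Γ.VA a ⊔ Γ.mulS f (a + 1 - k)).relIndex (Γ.VA (a + 1)) = c)
    {a : ℕ} (ha : k + Γ.dmax ≤ a) (j : ℕ) :
    (Γ.VA a ⊔ FB f).relIndex (Γ.VA (a + j) ⊔ FB f) = c ^ j := by
  induction j with
  | zero => simp
  | succ j ih =>
    rw [← AddSubgroup.relIndex_mul_relIndex _ (Γ.VA (a + j) ⊔ FB f) _
      (sup_le_sup_right (VA_mono Γ (by omega)) _) (sup_le_sup_right (VA_mono Γ (by omega)) _), ih,
      pow_succ, relW Γ (by omega), ← h3 (a + j) (by omega), ← add_assoc,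
      ← AddSubgroup.inf_relIndex_right (Γ.VA (a + j) ⊔ FB f),
      ← AddSubgroup.inf_relIndex_right (Γ.VA (a + j) ⊔ Γ.mulS f _)]
    congr 2
    ext v
    simp only [AddSubgroup.mem_inf, AddSubgroup.mem_sup, and_congr_left_iff]
    intro hv
    constructor
    · rintro ⟨u, hu, _, ⟨s, rfl⟩, rfl⟩
      refine ⟨u, hu, _, ⟨s, (mem_VA Γ).2 (h1 _ s (by omega) ?_), rfl⟩, rfl⟩
      have := (Γ.VA (a + j + 1)).sub_mem hv (VA_mono Γ (Nat.le_succ _) hu)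
      rw [add_sub_cancel_left] at this
      exact (mem_VA Γ).1 this
    · rintro ⟨u, hu, _, ⟨s, -, rfl⟩, rfl⟩
      exact ⟨u, hu, _, ⟨s, rfl⟩, rfl⟩

omit [Algebra ℤ[X] B] in
theorem crt (Z : Finset (Pt B)) (hZ : Set.InjOn Pt.p (Z : Set (Pt B)))
    (r : ∀ x : Z, ZMod x.1.1) : ∃ n : ℤ, ∀ x : Z, (n : ZMod x.1.1) = r x := by
  have hc : Pairwise fun x y : Z => Nat.Coprime (x.1.1 : ℕ) (y.1.1 : ℕ) := fun x y h =>
    (Nat.coprime_primes x.1.1.2 y.1.1.2).2 fun h' => h (Subtype.ext (hZ x.2 y.2 h'))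
  obtain ⟨m, hm⟩ := (ZMod.prodEquivPi (fun x : Z => (x.1.1 : ℕ)) hc).surjective r
  obtain ⟨n, rfl⟩ := ZMod.intCast_surjective m
  rw [map_intCast] at hm
  exact ⟨n, fun x => by rw [← hm]; rfl⟩

theorem index_Z (D : ℕ) (Z : Finset (Pt B)) (hZ : Set.InjOn Pt.p (Z : Set (Pt B)))
    (S : AddSubgroup (Γ.VA D)) (hS : ∀ v, v ∈ S ↔ ∀ x ∈ Z, x.On (v : B)) :
    S.index = ∏ x ∈ Z, x.p := by
  let ψ : Γ.VA D →+ ∀ x : Z, ZMod x.1.1 :=
    AddMonoidHom.pi fun x => x.1.2.toAddMonoidHom.comp (Γ.VA D).subtype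
  have e : S = ψ.ker := by
    ext v
    rw [hS, AddMonoidHom.mem_ker, funext_iff]
    exact ⟨fun h x => h x.1 x.2, fun h x hx => h ⟨x, hx⟩⟩
  have hs : ψ.range = ⊤ := by
    refine AddMonoidHom.range_eq_top.2 fun r => ?_
    obtain ⟨n, hn⟩ := crt Z hZ r
    refine ⟨⟨n, (mem_VA Γ).2 (Γ.intCast_mem n D)⟩, funext fun x => ?_⟩
    rw [← hn]
    exact map_intCast x.1.2 n
  rw [e, AddSubgroup.index_ker, hs, AddSubgroup.card_top, Nat.card_pi, ← Finset.prod_coe_sort Z]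
  exact Finset.prod_congr rfl fun x _ => Nat.card_zmod _

end KP1

open KP1 in
theorem stPROD1 (hI : St_IDX) (hG : St_G2K) : St_PROD1 := by
  intro B _ _ _ d _ Γ D k k' f g Z κ _ φ h hκ h0 hinj
  obtain ⟨g1, g2, g3, g4⟩ := hG B d Γ k f h.hf h.cf
  have hk := h.hk
  set c : ℤ := (Γ.nrm f).coeff (k * d) with hc
  have hc0 : c.natAbs ≠ 0 := Int.natAbs_ne_zero.2 h.cf
  have hf0 : f ≠ 0 := by
    rintro rfl
    have : Module.Free ℤ[X] B := Module.Free.of_basis Γ.b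
    have : Module.Finite ℤ[X] B := Module.Finite.of_basis Γ.b
    exact h.cf (by rw [Geo.nrm, Algebra.norm_zero, coeff_zero])
  have := finite_VA Γ D
  have hW := fun a ha j => relW_pow Γ g1 g3 (a := a) ha j
  set K : AddSubgroup (Γ.VA D) := (FB f).addSubgroupOf (Γ.VA D) with hK
  have mK : ∀ v : Γ.VA D, v ∈ K ↔ f ∣ (v : B) := fun v => mem_FB
  let i : Γ.VA (D - k') →+ Γ.VA D := AddSubgroup.inclusion (VA_mono Γ (Nat.sub_le _ _))
  let j : Γ.VA (D - k') →+ Γ.VA D :=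
    ((AddMonoidHom.mulLeft g).comp (Γ.VA (D - k')).subtype).codRestrict (Γ.VA D) fun a =>
      (mem_VA Γ).2 (Geo.mul_mem_of_le h.hg ((mem_VA Γ).1 a.2) (by omega))
  have e1 : (i.range ⊔ K).index = c.natAbs ^ k' := by
    have e := hW (D - k') (by omega) k'
    rw [show D - k' + k' = D by omega, relW Γ (Nat.sub_le _ _), AddSubgroup.relIndex] at e
    rw [← e]
    congr 1
    ext v
    rw [AddSubgroup.mem_addSubgroupOf, AddSubgroup.mem_sup, AddSubgroup.mem_sup]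
    constructor
    · rintro ⟨_, ⟨a, rfl⟩, u, hu, rfl⟩
      exact ⟨a, a.2, u, hu, rfl⟩
    · rintro ⟨a, ha, u, hu, e'⟩
      have ha' := VA_mono Γ (Nat.sub_le D k') ha
      refine ⟨_, ⟨⟨a, ha⟩, rfl⟩, ⟨u, ?_⟩, hu, Subtype.ext e'⟩
      rw [eq_sub_of_add_eq' e']
      exact (Γ.VA D).sub_mem v.2 ha'
  have e2 : (j.range ⊔ K).index = ∏ x ∈ Z, x.p := by
    refine index_Z Γ D Z h.inj _ fun v => ?_
    rw [← h.lat v ((mem_VA Γ).1 v.2), AddSubgroup.mem_sup]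
    constructor
    · rintro ⟨_, ⟨a, rfl⟩, u, hu, rfl⟩
      obtain ⟨s, hs⟩ := (mK u).1 hu
      refine ⟨s, g1 D s (by omega) (hs ▸ (mem_VA Γ).1 u.2), a, (mem_VA Γ).1 a.2, ?_⟩
      rw [← hs, add_comm]; rfl
    · rintro ⟨s, hs, s', hs', e⟩
      refine ⟨_, ⟨⟨s', (mem_VA Γ).2 hs'⟩, rfl⟩, ⟨f * s, (mem_VA Γ).2
        (Geo.mul_mem_of_le h.hf hs (by omega))⟩, (mK _).2 ⟨s, rfl⟩, Subtype.ext ?_⟩
      rw [e, add_comm]; rfl
  have hp : ∏ x ∈ Z, x.p ≠ 0 := Finset.prod_ne_zero_iff.2 fun x _ => x.1.2.ne_zero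
  have key := absIdx hI (Γ.VA D) (Γ.VA (D - k')) κ K
    (fun N v hN hv => (mK v).2 (g2 h.pf N v hN ((mK _).1 hv))) i j
    (fun s => (φ s).toAddMonoidHom.comp (Γ.VA D).subtype) (fun s => φ s g) ?_ ?_ ?_ ?_ ?_
    (by rw [e1]; exact pow_ne_zero _ hc0) (by rw [e2]; exact hp)
  · rw [e1, e2] at key
    push_cast at key
    rw [Nat.cast_natAbs, Int.cast_abs] at key
    refine ⟨fun s hs => ?_, key⟩
    rw [Finset.prod_eq_zero (Finset.mem_univ s) (by rw [hs, norm_zero]), mul_zero] at key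
    exact hp (by exact_mod_cast key)
  · rw [g4 D (by omega), hκ]
    congr 1
    refine LinearEquiv.finrank_eq (AddEquiv.toIntLinearEquiv (AddEquiv.ofBijective
      ((((AddMonoidHom.mulLeft f).comp (Γ.VA (D - k)).subtype).codRestrict (Γ.VA D) fun a =>
        (mem_VA Γ).2 (Geo.mul_mem_of_le h.hf ((mem_VA Γ).1 a.2) (by omega))).codRestrict K
          fun a => (mK _).2 ⟨a, rfl⟩) ⟨fun a a' e => ?_, fun v => ?_⟩))
    · exact Subtype.ext (mul_left_cancel₀ hf0 (congrArg (fun v : K => (v.1 : B)) e))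
    · obtain ⟨s, hs⟩ := (mK _).1 v.2
      exact ⟨⟨s, (mem_VA Γ).2 (g1 D s (by omega) (hs ▸ (mem_VA Γ).1 v.1.2))⟩,
        Subtype.ext (Subtype.ext hs.symm)⟩
  · intro s v hv
    obtain ⟨u, hu⟩ := (mK v).1 hv
    change φ s v = 0
    rw [hu, map_mul, h0, zero_mul]
  · have hl := (linearIndependent_monoidHom B ℂ).comp (fun s => (φ s : B →* ℂ))
      fun s s' e => hinj (congrArg (fun u : B →* ℂ => u Γ.t) e)
    rw [Fintype.linearIndependent_iff] at hl ⊢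
    intro a ha
    refine hl a (funext fun b => ?_)
    obtain ⟨m, hm⟩ := Γ.exists_mem_V b
    have hb : b ∈ Γ.VA (D + m) ⊔ FB f :=
      AddSubgroup.mem_sup_left ((mem_VA Γ).2 (Geo.V_mono (by omega) hm))
    have hN := AddSubgroup.nsmul_relIndex_mem (Γ.VA D ⊔ FB f) hb
    rw [hW D (by omega) m] at hN
    obtain ⟨u, hu, _, ⟨s, rfl⟩, e⟩ := AddSubgroup.mem_sup.1 hN
    have e3 := congrFun ha ⟨u, hu⟩
    have e4 : ∀ s', φ s' u = ((c.natAbs ^ m : ℕ) : ℂ) * φ s' b := fun s' => by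
      rw [← nsmul_eq_mul, ← map_nsmul, ← e, map_add, AddMonoidHom.coe_mulLeft, map_mul, h0,
        zero_mul, add_zero]
    simp only [Finset.sum_apply, Pi.smul_apply, smul_eq_mul, Pi.zero_apply, Function.comp,
      MonoidHom.coe_coe] at e3 ⊢
    refine mul_left_cancel₀ (Nat.cast_ne_zero.2 (pow_ne_zero m hc0) :
      ((c.natAbs ^ m : ℕ) : ℂ) ≠ 0) ?_
    rw [mul_zero, Finset.mul_sum, ← e3]
    refine Finset.sum_congr rfl fun s' _ => ?_
    rw [mul_left_comm, ← e4]; rfl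
  · intro a ha
    exact (mK _).2 (Dvd.dvd.mul_left ((mK _).1 ha) g)
  · intro s a
    exact map_mul (φ s) g a

end Pool.Agent.Lib.BK2
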