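import Pool.Agent.Lib.BK2.KDefs

/-! The regulator of a weighted family of symbols. -/

open MvPolynomial

noncomputable section

namespace Pool.Agent.Lib.BK2

namespace KREG

variable {L : Type} [Field L] [Algebra ℚ L] {n : ℕ} {y : Fin (n + 1) → L} {z : Fin (n + 1) → ℂ}

/-- `c` is the value of `f` at `z` computed from a fraction of forms. -/
def Rep (y : Fin (n + 1) → L) (f : L) (z : Fin (n + 1) → ℂ) (c : ℂ) : Prop :=
  ∃ (F G : MvPolynomial (Fin (n + 1)) ℚ) (a : ℕ), F.IsHomogeneous a ∧ G.IsHomogeneous a ∧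
    f * aeval y G = aeval y F ∧ aeval z G ≠ 0 ∧ c * aeval z G = aeval z F

lemma Rep.value {f : L} {c : ℂ} (hz : z ∈ Cone y) (h : Rep y f z c) : value y f z = c := by
  obtain ⟨F, G, a, hF, hG, h1, h2, h3⟩ := h
  have h : ∃ p : MvPolynomial (Fin (n + 1)) ℚ × MvPolynomial (Fin (n + 1)) ℚ,
      (∃ a, p.1.IsHomogeneous a ∧ p.2.IsHomogeneous a) ∧ f * aeval y p.2 = aeval y p.1 ∧
        aeval z p.2 ≠ 0 := ⟨(F, G), ⟨a, hF, hG⟩, h1, h2⟩
  rw [BK2.value, dif_pos h]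
  obtain ⟨⟨b, k1, k2⟩, k3, k4⟩ := h.choose_spec
  have := hz.2 (F * h.choose.2 - h.choose.1 * G) ⟨⟨a + b, (hF.mul k2).sub
    (by rw [add_comm a b]; exact k1.mul hG)⟩, by
      rw [map_sub, map_mul, map_mul, ← h1, ← k3]; ring⟩
  rw [map_sub, map_mul, map_mul, ← h3] at this
  rw [div_eq_iff k4]
  refine mul_right_cancel₀ h2 ?_
  linear_combination -this

lemma Rep.one : Rep y 1 z 1 :=
  ⟨1, 1, 0, isHomogeneous_one _ _, isHomogeneous_one _ _, by simp, by simp, by simp⟩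

lemma Rep.mul {f g : L} {c c' : ℂ} (h : Rep y f z c) (h' : Rep y g z c') :
    Rep y (f * g) z (c * c') := by
  obtain ⟨F, G, a, hF, hG, h1, h2, h3⟩ := h
  obtain ⟨F', G', a', hF', hG', h1', h2', h3'⟩ := h'
  refine ⟨F * F', G * G', a + a', hF.mul hF', hG.mul hG', ?_, ?_, ?_⟩
  · rw [map_mul, map_mul, ← h1, ← h1']; ring
  · rw [map_mul]; exact mul_ne_zero h2 h2'
  · rw [map_mul, map_mul, ← h3, ← h3']; ring

lemma Rep.inv {f : L} {c : ℂ} (h : Rep y f z c) (hf : f ≠ 0) (hc : c ≠ 0) :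
    Rep y f⁻¹ z c⁻¹ := by
  obtain ⟨F, G, a, hF, hG, h1, h2, h3⟩ := h
  refine ⟨G, F, a, hG, hF, ?_, ?_, ?_⟩
  · rw [← h1, inv_mul_cancel_left₀ hf]
  · rw [← h3]; exact mul_ne_zero hc h2
  · rw [← h3, inv_mul_cancel_left₀ hc]

lemma Rep.pow {f : L} {c : ℂ} (h : Rep y f z c) (k : ℕ) : Rep y (f ^ k) z (c ^ k) := by
  induction k with
  | zero => simpa using Rep.one
  | succ k ih => rw [pow_succ, pow_succ]; exact ih.mul h

lemma Rep.zpow {f : L} {c : ℂ} (h : Rep y f z c) (hf : f ≠ 0) (hc : c ≠ 0) (k : ℤ) :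
    Rep y (f ^ k) z (c ^ k) := by
  obtain ⟨k, rfl | rfl⟩ := k.eq_nat_or_neg
  · simpa using h.pow k
  · simpa using (h.pow k).inv (pow_ne_zero _ hf) (pow_ne_zero _ hc)

variable {B : Type} [CommRing B] [Algebra (Polynomial ℤ) B] {d : ℕ} [NeZero d] {Γ : Geo B d}

lemma rep_base (μ : Γ.Model y) {m : ℕ} (hm : μ.m₀ ≤ m) {H : ℝ} (hH : 0 < H)
    {e e₀ : Γ.Ix m → ℤ} {f : L} (hf : f * μ.ι (Γ.el e₀) = μ.ι (Γ.el e))
    (h0 : μ.evC (scl H e₀) z ≠ 0) : Rep y f z (μ.evC (scl H e) z / μ.evC (scl H e₀) z) := by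
  have hH' : (H : ℂ) ≠ 0 := by exact_mod_cast hH.ne'
  have k1 : ∀ e : Γ.Ix m → ℤ, (∑ i, C (e i : ℚ) * μ.rep m i).IsHomogeneous m := fun e =>
    IsHomogeneous.sum _ _ _ fun i _ => (μ.hom m hm i).C_mul _
  have k2 : ∀ e : Γ.Ix m → ℤ, aeval y (∑ i, C (e i : ℚ) * μ.rep m i) =
      (∑ j, algebraMap ℚ L (μ.Y₀ j) * y j) ^ m * μ.ι (Γ.el e) := fun e => by
    rw [Geo.el, map_sum, map_sum, Finset.mul_sum]
    refine Finset.sum_congr rfl fun i _ => ?_
    rw [map_mul, μ.hrep m hm, aeval_C, map_intCast, map_zsmul, zsmul_eq_mul]; ring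
  have k3 : ∀ e : Γ.Ix m → ℤ, aeval z (∑ i, C (e i : ℚ) * μ.rep m i) =
      H * μ.evC (scl H e) z := fun e => by
    rw [Geo.Model.evC, map_sum, Finset.mul_sum]
    refine Finset.sum_congr rfl fun i _ => ?_
    rw [map_mul, aeval_C, map_intCast, scl]
    push_cast
    field_simp
  refine ⟨_, _, m, k1 e, k1 e₀, ?_, ?_, ?_⟩
  · rw [k2, k2, ← hf]; ring
  · rw [k3]; exact mul_ne_zero hH' h0
  · rw [k3, k3]; field_simp

lemma cd_aeval {γ : ℝ → Fin (n + 1) → ℂ} (h : ContDiff ℝ 1 γ) (P : MvPolynomial (Fin (n + 1)) ℚ) :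
    ContDiff ℝ 1 fun u => aeval (γ u) P := by
  induction P using MvPolynomial.induction_on with
  | C a => simpa using contDiff_const
  | add p q hp hq => simpa using hp.add hq
  | mul_X p i hp => simpa using hp.mul (contDiff_pi.1 h i)

lemma cd_evC (μ : Γ.Model y) (γ : Loop y) {m : ℕ} (e : Γ.Ix m → ℝ) :
    ContDiff ℝ 1 fun u => μ.evC e (γ.pt u) :=
  ContDiff.sum fun _ _ => contDiff_const.mul (cd_aeval γ.smooth _)

/-- The integrand of `eta`. -/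
def bil (f g : ℝ → ℂ) (u : ℝ) : ℝ :=
  Real.log ‖f u‖ * (logDeriv g u).im - Real.log ‖g u‖ * (logDeriv f u).im

lemma eta_eq (f g : ℝ → ℂ) : eta f g = ∫ u in (0 : ℝ)..1, bil f g u := rfl

lemma bil_int {f g : ℝ → ℂ} (hf : ContDiff ℝ 1 f) (hg : ContDiff ℝ 1 g) (f0 : ∀ u, f u ≠ 0)
    (g0 : ∀ u, g u ≠ 0) : IntervalIntegrable (bil f g) MeasureTheory.volume 0 1 := by
  have k1 : ∀ f : ℝ → ℂ, ContDiff ℝ 1 f → (∀ u, f u ≠ 0) → Continuous fun u => Real.log ‖f u‖ :=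
    fun f hf f0 => hf.continuous.norm.log fun u => norm_ne_zero_iff.2 (f0 u)
  have k2 : ∀ f : ℝ → ℂ, ContDiff ℝ 1 f → (∀ u, f u ≠ 0) → Continuous fun u => (logDeriv f u).im :=
    fun f hf f0 => Complex.continuous_im.comp ((hf.continuous_deriv le_rfl).div hf.continuous f0)
  exact (((k1 f hf f0).mul (k2 g hg g0)).sub ((k1 g hg g0).mul (k2 f hf f0))).intervalIntegrable _ _

lemma eta_four {f f₀ g g₀ : ℝ → ℂ} (hf : ContDiff ℝ 1 f) (hf₀ : ContDiff ℝ 1 f₀)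
    (hg : ContDiff ℝ 1 g) (hg₀ : ContDiff ℝ 1 g₀) (a : ∀ u, f u ≠ 0) (a₀ : ∀ u, f₀ u ≠ 0)
    (b : ∀ u, g u ≠ 0) (b₀ : ∀ u, g₀ u ≠ 0) (r : ℤ) :
    eta (fun u => (f u / f₀ u) ^ r) (fun u => g u / g₀ u) =
      r * (eta f g - eta f g₀ - eta f₀ g + eta f₀ g₀) := by
  simp only [eta_eq]
  rw [← intervalIntegral.integral_sub (bil_int hf hg a b) (bil_int hf hg₀ a b₀),
    ← intervalIntegral.integral_sub ((bil_int hf hg a b).sub (bil_int hf hg₀ a b₀))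
      (bil_int hf₀ hg a₀ b),
    ← intervalIntegral.integral_add (((bil_int hf hg a b).sub (bil_int hf hg₀ a b₀)).sub
      (bil_int hf₀ hg a₀ b)) (bil_int hf₀ hg₀ a₀ b₀), ← intervalIntegral.integral_const_mul]
  refine intervalIntegral.integral_congr fun u _ => ?_
  have d : ∀ f : ℝ → ℂ, ContDiff ℝ 1 f → DifferentiableAt ℝ f u := fun f hf =>
    hf.differentiable one_ne_zero u
  simp only [bil]
  rw [logDeriv_fun_zpow ((d f hf).fun_div (d f₀ hf₀) (a₀ u)),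
    logDeriv_div u (a u) (a₀ u) (d f hf) (d f₀ hf₀), logDeriv_div u (b u) (b₀ u) (d g hg) (d g₀ hg₀),
    norm_zpow, Real.log_zpow, norm_div, norm_div,
    Real.log_div (norm_ne_zero_iff.2 (a u)) (norm_ne_zero_iff.2 (a₀ u)),
    Real.log_div (norm_ne_zero_iff.2 (b u)) (norm_ne_zero_iff.2 (b₀ u))]
  simp only [Complex.mul_im, Complex.sub_im, Complex.intCast_re, Complex.intCast_im, zero_mul,
    add_zero]
  ring

open Classical in
lemma fib {P X : Type} [Fintype P] (ε : P → X) (r : P → ℤ) (h : ∀ e, ∑ p with ε p = e, r p = 0)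
    (φ : X → ℝ) : ∑ p, (r p : ℝ) * φ (ε p) = 0 := by
  rw [← Finset.sum_fiberwise_of_maps_to (t := Finset.univ.image ε) (g := ε)
    fun p hp => Finset.mem_image_of_mem ε hp]
  refine Finset.sum_eq_zero fun e _ => ?_
  rw [Finset.sum_congr rfl (g := fun p => (r p : ℝ) * φ e)
    fun p hp => by rw [(Finset.mem_filter.1 hp).2], ← Finset.sum_mul, ← Int.cast_sum, h e]
  simp

end KREG

open KREG in
theorem stREG : St_REG := by
  intro L _ _ n y B _ _ d _ Γ μ γ m m' hm hm' H H' hH hH' P _ ε ω r p₀ f g h1 h2 h3 h4 h5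
  have v1 : ∀ p u, value y ((f p ^ r p : Lˣ) : L) (γ.pt u) =
      (μ.evC (scl H (ε p)) (γ.pt u) / μ.evC (scl H (ε p₀)) (γ.pt u)) ^ r p := fun p u => by
    rw [Units.val_zpow_eq_zpow_val]
    exact ((rep_base μ hm hH (h4 p) (h3 p₀ u).1).zpow (f p).ne_zero
      (div_ne_zero (h3 p u).1 (h3 p₀ u).1) _).value (γ.mem u)
  have v2 : ∀ p u, value y (g p : L) (γ.pt u) =
      μ.evC (scl H' (ω p)) (γ.pt u) / μ.evC (scl H' (ω p₀)) (γ.pt u) := fun p u =>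
    (rep_base μ hm' hH' (h5 p) (h3 p₀ u).2).value (γ.mem u)
  refine ⟨fun q hq u => ?_, ?_⟩
  · obtain ⟨p, -, rfl⟩ := List.mem_map.1 hq
    rw [v1, v2]
    exact ⟨zpow_ne_zero _ (div_ne_zero (h3 p u).1 (h3 p₀ u).1),
      div_ne_zero (h3 p u).2 (h3 p₀ u).2⟩
  · rw [reg, List.map_map, Finset.sum_map_toList]
    simp only [Function.comp_apply, v1, v2]
    rw [Finset.sum_congr rfl fun p _ => eta_four (cd_evC μ γ _) (cd_evC μ γ _) (cd_evC μ γ _)
      (cd_evC μ γ _) (fun u => (h3 p u).1) (fun u => (h3 p₀ u).1) (fun u => (h3 p u).2)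
      (fun u => (h3 p₀ u).2) (r p)]
    simp only [mul_add, mul_sub, Finset.sum_add_distrib, Finset.sum_sub_distrib]
    have e1 := fib ε r (fun e => (Finset.sum_congr (Finset.filter_congr_decidable _ _ _).symm
      fun _ _ => rfl).symm.trans (h1 e)) fun e =>
      eta (fun u => μ.evC (scl H e) (γ.pt u)) fun u => μ.evC (scl H' (ω p₀)) (γ.pt u)
    have e2 := fib ω r (fun e => (Finset.sum_congr (Finset.filter_congr_decidable _ _ _).symm
      fun _ _ => rfl).symm.trans (h2 e)) fun w =>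
      eta (fun u => μ.evC (scl H (ε p₀)) (γ.pt u)) fun u => μ.evC (scl H' w) (γ.pt u)
    have e3 := fib ε r (fun e => (Finset.sum_congr (Finset.filter_congr_decidable _ _ _).symm
      fun _ _ => rfl).symm.trans (h1 e)) fun _ =>
      eta (fun u => μ.evC (scl H (ε p₀)) (γ.pt u)) fun u => μ.evC (scl H' (ω p₀)) (γ.pt u)
    rw [e1, e2, e3]
    ring

end Pool.Agent.Lib.BK2
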