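import Pool.Agent.Lib.BK2.UnrB

/-! Torsion tame symbols at every discrete valuation. -/

open Polynomial

noncomputable section

namespace Pool.Agent.Lib.BK2

namespace UNR

open Finset

variable {B : Type} [CommRing B] [Algebra ℤ[X] B] {d : ℕ} [NeZero d] {Γ : Geo B d}
  {L : Type} [Field L] (v : Valuation L (WithZero (Multiplicative ℤ))) (ι : B →+* L)

theorem val_le_max (ht : v (ι Γ.t) ≤ 1) {n : ℤ} (hn : v (n : L) = 1) {f e w : B}
    (h : ∃ α β : B, (n : B) * f = α * e + β * w) : v (ι f) ≤ max (v (ι e)) (v (ι w)) := by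
  obtain ⟨α, β, h⟩ := h
  have h1 := congrArg (fun z => v (ι z)) h
  simp only [map_mul, map_add, map_intCast, hn, one_mul] at h1
  rw [h1]
  refine (v.map_add _ _).trans (max_le_max ?_ ?_)
  · rw [map_mul]
    exact mul_le_of_le_one_left' (val_le_one Γ v ι ht _)
  · rw [map_mul]
    exact mul_le_of_le_one_left' (val_le_one Γ v ι ht _)

/-- if the generators of the maximal ideal have different orders, ratios of elements of minimal
order are constants -/
theorem pi_eq_of_lt (ht : v (ι Γ.t) ≤ 1) {x : Pt B} (hc : ∀ f, v (ι f) < 1 ↔ x.On f)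
    (hint : ∀ (k : ℤ) (u : Lˣ), (u : L) = k → v u = 1 → pi v u = 1) {n : ℤ} (hn : v (n : L) = 1)
    {g h f : B} (hlt : v (ι h) < v (ι g)) (hr : ∃ α β : B, (n : B) * f = α * g + β * h)
    {G F : Lˣ} (hG : (G : L) = ι g) (hF : (F : L) = ι f) (hv : v F = v G) : pi v F = pi v G := by
  obtain ⟨α, β, hr⟩ := hr
  obtain ⟨k, hk⟩ := exists_lift x α
  have hn0 : (n : L) ≠ 0 := (_root_.map_ne_zero v).1 (by rw [hn]; exact one_ne_zero)
  have hG0 : v G ≠ 0 := val_ne v G
  have h1 : ((Units.mk0 (n : L) hn0 * F / G : Lˣ) : L) - k = ι (α - k) + ι β * (ι h / G) := by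
    have h2 := congrArg ι hr
    rw [map_mul, map_add, map_mul, map_mul, map_intCast, ← hF, ← hG] at h2
    rw [Units.val_div_eq_div_val, Units.val_mul, Units.val_mk0, h2, map_sub, map_intCast]
    field_simp
    ring
  have h2 : v (((Units.mk0 (n : L) hn0 * F / G : Lˣ) : L) - k) < 1 := by
    rw [h1]
    refine v.map_add_lt ((hc _).2 hk) ?_
    rw [map_mul, map_div₀]
    refine mul_lt_one_of_nonneg_of_lt_one_right (val_le_one Γ v ι ht _) zero_le ?_
    rw [div_lt_one₀ (zero_lt_iff.2 hG0), hG]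
    exact hlt
  have h3 : v ((Units.mk0 (n : L) hn0 * F / G : Lˣ) : L) = 1 := by
    rw [Units.val_div_eq_div_val, Units.val_mul, Units.val_mk0, map_div₀, map_mul, hn, one_mul,
      hv, div_self hG0]
  have h4 : v (k : L) = 1 := by
    have := v.map_sub_eq_of_lt_left (h3 ▸ h2)
    rwa [sub_sub_cancel, h3] at this
  have hk0 : (k : L) ≠ 0 := (_root_.map_ne_zero v).1 (by rw [h4]; exact one_ne_zero)
  have h5 := tor_of_sub v (u' := Units.mk0 (k : L) hk0) h4 h2
  rw [hint k (Units.mk0 (k : L) hk0) rfl h4, _root_.map_div, map_mul,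
    hint n (Units.mk0 (n : L) hn0) rfl hn, one_mul, div_eq_one] at h5
  exact h5

/-- the symbols of the pairs through one point form a coboundary -/
theorem star (ht : v (ι Γ.t) ≤ 1) {x : Pt B} (hc : ∀ f, v (ι f) < 1 ↔ x.On f)
    (hint : ∀ (k : ℤ) (u : Lˣ), (u : L) = k → v u = 1 → pi v u = 1) {P : Type} (S : P → Prop)
    (e w : P → B) (E W : P → Lˣ) (hE : ∀ p, (E p : L) = ι (e p)) (hW : ∀ p, (W p : L) = ι (w p))
    (hon : ∀ p, S p → x.On (e p) ∧ x.On (w p))
    (hr : ∀ p, S p → ∃ n : ℤ, v (n : L) = 1 ∧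
      ∀ f, x.On f → ∃ α β : B, (n : B) * f = α * e p + β * w p) :
    ∃ γ : Lˣ → Qt v, ∀ p, S p → T v (E p) (W p) = γ (E p) / γ (W p) := by
  have key : ∀ (g h : B) (G : Lˣ) (n : ℤ), (G : L) = ι g → x.On g → v (ι h) < v (ι g) →
      v (n : L) = 1 → (∀ f, x.On f → ∃ α β : B, (n : B) * f = α * g + β * h) →
      ∃ γ : Lˣ → Qt v, ∀ p, S p → T v (E p) (W p) = γ (E p) / γ (W p) := by
    intro g h G n hG hg hlt hn hrep
    refine ⟨fun F => T v F G, fun p hp => ?_⟩
    obtain ⟨n', hn', hr'⟩ := hr p hp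
    have h1 := val_le_max v ι ht hn' (hr' g hg)
    have h2 := val_le_max v ι ht hn (hrep _ (hon p hp).1)
    have h3 := val_le_max v ι ht hn (hrep _ (hon p hp).2)
    rw [max_eq_left hlt.le] at h2 h3
    rcases le_max_iff.1 h1 with h4 | h4
    · have h5 : v (E p) = v G := by rw [hE, hG, le_antisymm h2 h4]
      have h6 := pi_eq_of_lt v ι ht hc hint hn hlt (hrep _ (hon p hp).1) hG (hE p) h5
      simp only [T, h6, ord_congr v h5, div_self', one_div, inv_div]
    · have h5 : v (W p) = v G := by rw [hW, hG, le_antisymm h3 h4]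
      have h6 := pi_eq_of_lt v ι ht hc hint hn hlt (hrep _ (hon p hp).2) hG (hW p) h5
      simp only [T, h6, ord_congr v h5, div_self', div_one]
  by_cases h : ∀ p, S p → v (ι (e p)) = v (ι (w p))
  · by_cases hS : ∃ p, S p
    · obtain ⟨p₀, hp₀⟩ := hS
      refine ⟨fun F => pi v F ^ ord v (E p₀), fun p hp => ?_⟩
      have hle : ∀ p q, S p → S q → v (ι (e q)) ≤ v (ι (e p)) := by
        intro p q hp hq
        obtain ⟨n, hn, hr'⟩ := hr p hp
        have := val_le_max v ι ht hn (hr' _ (hon q hq).1)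
        rwa [← h p hp, max_self] at this
      have h1 : v (E p) = v (E p₀) := by
        rw [hE, hE, le_antisymm (hle p₀ p hp₀ hp) (hle p p₀ hp hp₀)]
      have h2 : v (W p) = v (E p₀) := by rw [← h1, hW, hE, h p hp]
      rw [T, ord_congr v h1, ord_congr v h2]
    · exact ⟨fun _ => 1, fun p hp => absurd ⟨p, hp⟩ hS⟩
  · rw [not_forall] at h
    obtain ⟨p, h⟩ := h
    rw [Classical.not_imp] at h
    obtain ⟨n, hn, hr'⟩ := hr p h.1
    rcases lt_or_gt_of_ne h.2 with h' | h'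
    · refine key (w p) (e p) (W p) n (hW p) (hon p h.1).2 h' hn fun f hf => ?_
      obtain ⟨α, β, h''⟩ := hr' f hf
      exact ⟨β, α, by rw [h'', add_comm]⟩
    · exact key (e p) (w p) (E p) n (hE p) (hon p h.1).1 h' hn hr'

theorem val_int_one (hv : ∀ l : ℕ, l.Prime → v (l : L) = 1) {n : ℤ} (hn : n ≠ 0) :
    v (n : L) = 1 := by
  have h : ∀ k : ℕ, k ≠ 0 → v (k : L) = 1 := by
    intro k
    induction k using induction_on_primes with
    | zero => exact fun h => absurd rfl h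
    | one => simp
    | prime_mul p a hp ih =>
      intro h
      rw [Nat.cast_mul, map_mul, hv p hp, ih (right_ne_zero_of_mul h), one_mul]
  rcases Int.natAbs_eq n with h' | h'
  · rw [h', Int.cast_natCast]
    exact h _ (Int.natAbs_ne_zero.2 hn)
  · rw [h', Int.cast_neg, Valuation.map_neg, Int.cast_natCast]
    exact h _ (Int.natAbs_ne_zero.2 hn)

/-- a section with nonzero top coefficient does not vanish at infinity -/
theorem val_inf (hv : ∀ l : ℕ, l.Prime → v (l : L) = 1) (ht : 1 < v (ι Γ.t)) {a : ℕ} {e g : B}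
    {p : ℤ[X]} (he : e ∈ Γ.V a) (hg : g ∈ Γ.V (a * d - a)) (hp : p.natDegree ≤ a * d)
    (hc : p.coeff (a * d) ≠ 0) (h : e * g = algebraMap ℤ[X] B p) :
    v (ι e) = Mx Γ v ι ^ a := by
  have hM : Mx Γ v ι = v (ι Γ.t) := max_eq_right ht.le
  have hpos : ∀ k : ℕ, 0 < Mx Γ v ι ^ k := fun k => pow_pos (Mx_pos Γ v ι) k
  have h1 : v (aeval (ι Γ.t) p) = Mx Γ v ι ^ (a * d) := by
    rw [aeval_eq_sum_range' (Nat.lt_succ_of_le hp), sum_range_succ_comm]
    have h2 : v (p.coeff (a * d) • ι Γ.t ^ (a * d)) = Mx Γ v ι ^ (a * d) := by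
      rw [zsmul_eq_mul, map_mul, val_int_one v hv hc, one_mul, map_pow, hM]
    rw [v.map_add_eq_of_lt_left, h2]
    rw [h2]
    refine v.map_sum_lt (hpos _).ne' fun i hi => ?_
    rw [zsmul_eq_mul, map_mul, map_pow, hM]
    exact (mul_le_of_le_one_left' (val_int v _)).trans_lt
      (pow_lt_pow_right₀ ht (mem_range.1 hi))
  refine le_antisymm (val_le Γ v ι he) (not_lt.1 fun hlt => ?_)
  rw [← hom_alg Γ, ← h, map_mul, map_mul] at h1
  have h3 := mul_lt_mul_of_lt_of_le_of_nonneg_of_pos hlt (val_le Γ v ι hg) zero_le (hpos _)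
  have h4 : a ≤ a * d := Nat.le_mul_of_pos_right _ (Nat.pos_of_ne_zero (NeZero.ne d))
  rw [h1, ← pow_add, Nat.add_sub_cancel' h4] at h3
  exact lt_irrefl _ h3

open Classical in
theorem prod_rows {P E Q : Type} [Fintype P] [CommGroup Q] (ε : P → E) (γ : P → Q)
    (h : ∀ p, ∏ q with ε q = ε p, γ q = 1) : ∏ p, γ p = 1 := by
  rw [← prod_fiberwise_of_maps_to (s := univ) (t := univ.image ε) (g := ε)
    fun p _ => mem_image_of_mem _ (mem_univ p)]
  refine prod_eq_one fun e he => ?_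
  obtain ⟨p, -, rfl⟩ := mem_image.1 he
  exact h p

open Classical in
theorem prod_row' {P E Q : Type} [Fintype P] [CommGroup Q] (ε : P → E) (r : P → ℤ)
    (h : ∀ e, ∑ p with ε p = e, r p = 0) (γ : P → Q)
    (hγ : ∀ p q, ε p = ε q → γ p = γ q) : ∏ p, γ p ^ r p = 1 := by
  have := prod_row ε (fun _ => True) r (fun e => by simpa using h e) γ hγ
  simpa using this

open Classical in
/-- one half of the product in residue characteristic zero -/
theorem half_zero (hv : ∀ l : ℕ, l.Prime → v (l : L) = 1) (ht : v (ι Γ.t) ≤ 1) {P E : Type}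
    [Fintype P] (ε : P → E) (fe : E → B) (w : P → B) (Z : P → Finset (Pt B)) (r : P → ℤ)
    {a a' : ℕ} (h : ∀ p, Loc Γ a a' (fe (ε p)) (w p) (Z p))
    (row : ∀ e, ∑ p with ε p = e, r p = 0) (srow : ∀ e x, ∑ p with ε p = e ∧ x ∈ Z p, r p = 0)
    (hlog : ∀ (φ : B →+* ℂ) p, φ (fe (ε p)) = 0 →
      ∑ q with ε q = ε p, (r q : ℝ) * Real.log ‖φ (w q)‖ = 0)
    (hn : ∀ p, ∃ (g : B) (q : ℤ[X]), q ≠ 0 ∧ fe (ε p) * g = algebraMap ℤ[X] B q)
    (U W : P → Lˣ) (hU : ∀ p, (U p : L) = ι (fe (ε p))) (hW : ∀ p, (W p : L) = ι (w p)) :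
    ∏ p, (pi v (W p) ^ ord v (U p)) ^ r p = 1 := by
  refine prod_rows ε _ fun p => ?_
  have h1 : ∀ q ∈ univ.filter fun q => ε q = ε p,
      (pi v (W q) ^ ord v (U q)) ^ r q = (pi v (W q) ^ r q) ^ ord v (U p) := by
    intro q hq
    rw [ord_congr v (f := U q) (g := U p) (by rw [hU, hU, (mem_filter.1 hq).2]), ← zpow_mul,
      ← zpow_mul, mul_comm]
  rw [prod_congr rfl h1, prod_zpow]
  by_cases h2 : v (ι (fe (ε p))) < 1
  · obtain ⟨g, q, hq, hg⟩ := hn p
    rw [row_tor (Γ := Γ) (a := a) (a' := a') v ι hv ht (univ.filter fun q => ε q = ε p)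
      (fe (ε p)) w Z r (fun q hq => (mem_filter.1 hq).2 ▸ h q) (row _) (fun x => by
        rw [filter_filter]
        simpa using srow (ε p) x) (fun φ hφ => hlog φ p hφ) hq hg h2 W hW, one_zpow]
  · rw [ord_zero v (by rw [hU]; exact le_antisymm (val_le_one Γ v ι ht _) (not_lt.1 h2)),
      zpow_zero]

end UNR

open UNR Finset in
theorem stUNR (hN : St_NRM) : St_UNR := by
  classical
  intro B _ _ _ d _ Γ m m' P E W _ ε ω fe fw Z r hd hm h hl hl' L _ _ ι f g a b hf hg ha hb v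
  refine integral_of_T v (fun p => f p ^ r p) g ?_
  have hθ := th_ne Γ v ι
  let A : Lˣ := Units.mk0 (a / th Γ v ι ^ m) (div_ne_zero ha (pow_ne_zero _ hθ))
  let A' : Lˣ := Units.mk0 (b / th Γ v ι ^ m') (div_ne_zero hb (pow_ne_zero _ hθ))
  obtain ⟨U, hfU, hU⟩ : ∃ U : P → Lˣ, (∀ p, f p = U p * A⁻¹) ∧
      ∀ p, (U p : L) * th Γ v ι ^ m = ι (fe (ε p)) :=
    ⟨fun p => f p * A, fun p => by simp, fun p => by
      rw [← hf, Units.val_mul, Units.val_mk0, mul_assoc, div_mul_cancel₀ _ (pow_ne_zero _ hθ)]⟩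
  obtain ⟨V, hgV, hV⟩ : ∃ V : P → Lˣ, (∀ p, g p = V p * A'⁻¹) ∧
      ∀ p, (V p : L) * th Γ v ι ^ m' = ι (fw (ω p)) :=
    ⟨fun p => g p * A', fun p => by simp, fun p => by
      rw [← hg, Units.val_mul, Units.val_mk0, mul_assoc, div_mul_cancel₀ _ (pow_ne_zero _ hθ)]⟩
  have hUe : ∀ p q, ε p = ε q → U p = U q := fun p q hpq =>
    Units.ext (mul_right_cancel₀ (pow_ne_zero m hθ) (by rw [hU, hU, hpq]))
  have hVe : ∀ p q, ω p = ω q → V p = V q := fun p q hpq =>
    Units.ext (mul_right_cancel₀ (pow_ne_zero m' hθ) (by rw [hV, hV, hpq]))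
  suffices hs : ∏ p, T v (U p) (V p) ^ r p = 1 by
    simp only [T_zpow, hfU, hgV, T_mul_left, T_mul_right, mul_zpow, prod_mul_distrib]
    rw [hs, prod_row' ε r h.row (fun p => T v (U p) A'⁻¹) fun p q hpq => by rw [hUe p q hpq],
      prod_row' ω r h.col (fun p => T v A⁻¹ (V p)) fun p q hpq => by rw [hVe p q hpq],
      prod_row' ε r h.row (fun _ => T v A⁻¹ A'⁻¹) fun _ _ _ => rfl]
    simp
  have hloc : ∀ p, Loc Γ m m' (fe (ε p)) (fw (ω p)) (Z p) := fun p =>
    Loc.of_split (h.split p) hd hm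
  have hpos : ∀ k : ℕ, 0 < Mx Γ v ι ^ k := fun k => pow_pos (Mx_pos Γ v ι) k
  have hUv : ∀ p, v (ι (fe (ε p))) = v (U p) * Mx Γ v ι ^ m := fun p => by
    rw [← hU, map_mul, map_pow, val_th]
  have hVv : ∀ p, v (ι (fw (ω p))) = v (V p) * Mx Γ v ι ^ m' := fun p => by
    rw [← hV, map_mul, map_pow, val_th]
  have hone : ∀ (u : Lˣ) (k : ℕ) (z : B), z ∈ Γ.V k → v (ι z) = v u * Mx Γ v ι ^ k →
      ¬ v (ι z) < Mx Γ v ι ^ k → v u = 1 := by
    intro u k z hz h1 h2
    have h3 := le_antisymm (val_le Γ v ι hz) (not_lt.1 h2)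
    rw [h1] at h3
    exact mul_right_cancel₀ (hpos k).ne' (h3.trans (one_mul _).symm)
  have hNe := fun p => (hN B d Γ m).1 _ (h.split p).he
  have hNw := fun p => (hN B d Γ m').1 _ (h.split p).hw
  by_cases hv : ∀ l : ℕ, l.Prime → v (l : L) = 1
  · by_cases ht : v (ι Γ.t) ≤ 1
    · simp only [th, if_pos ht, one_pow, mul_one] at hU hV
      simp only [T, div_zpow, prod_div_distrib]
      rw [half_zero v ι hv ht ω fw (fun p => fe (ε p)) Z r (fun p => (hloc p).symm) h.col h.scol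
          hl' (fun p => (hNw p).2.imp fun g hg => ⟨_, (h.split p).pw.ne_zero, hg.2⟩) V U hV hU,
        half_zero v ι hv ht ε fe (fun p => fw (ω p)) Z r hloc h.row h.srow
          hl (fun p => (hNe p).2.imp fun g hg => ⟨_, (h.split p).pe.ne_zero, hg.2⟩) U V hU hV,
        div_one]
    · rw [not_le] at ht
      refine prod_eq_one fun p _ => ?_
      obtain ⟨h1, g₁, hg₁, h2⟩ := hNe p
      obtain ⟨h3, g₂, hg₂, h4⟩ := hNw p
      rw [T, ord_zero v (hone _ _ _ (h.split p).he (hUv p)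
          (val_inf v ι hv ht (h.split p).he hg₁ h1 (h.split p).ce h2).not_lt),
        ord_zero v (hone _ _ _ (h.split p).hw (hVv p)
          (val_inf v ι hv ht (h.split p).hw hg₂ h3 (h.split p).cw h4).not_lt)]
      simp
  · obtain ⟨l, hl, hvl⟩ : ∃ l : ℕ, l.Prime ∧ v (l : L) < 1 := by
      by_contra hc
      exact hv fun l hl => le_antisymm (by simpa using val_int v (l : ℤ))
        (not_lt.1 fun h' => hc ⟨l, hl, h'⟩)
    have hout : ∀ p, ¬ (v (ι (fe (ε p))) < Mx Γ v ι ^ m ∧ v (ι (fw (ω p))) < Mx Γ v ι ^ m') →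
        T v (U p) (V p) = 1 := by
      intro p hp
      obtain ⟨-, g₁, -, h2⟩ := hNe p
      obtain ⟨-, g₂, -, h4⟩ := hNw p
      by_cases h5 : v (ι (fe (ε p))) < Mx Γ v ι ^ m
      · have h6 := hone _ _ _ (h.split p).hw (hVv p) fun h' => hp ⟨h5, h'⟩
        rw [T, ord_zero v h6, tors Γ v ι hl hvl (h.split p).pe h2 h5 (h.split p).hw (hV p) h6]
        simp
      · have h6 := hone _ _ _ (h.split p).he (hUv p) h5
        by_cases h7 : v (ι (fw (ω p))) < Mx Γ v ι ^ m'
        · rw [T, ord_zero v h6, tors Γ v ι hl hvl (h.split p).pw h4 h7 (h.split p).he (hU p) h6]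
          simp
        · rw [T, ord_zero v h6, ord_zero v (hone _ _ _ (h.split p).hw (hVv p) h7)]
          simp
    by_cases hS : ∃ p, v (ι (fe (ε p))) < Mx Γ v ι ^ m ∧ v (ι (fw (ω p))) < Mx Γ v ι ^ m'
    · obtain ⟨p₀, h1, h2⟩ := hS
      obtain ⟨ht, x, -, hc, -⟩ := (hloc p₀).2.2.2.2 _ _ v ι h1 h2
      have hM : Mx Γ v ι = 1 := max_eq_left ht
      obtain ⟨-, g₁, -, h3⟩ := hNe p₀
      have hint : ∀ (k : ℤ) (u : Lˣ), (u : L) = k → v u = 1 → pi v u = 1 := fun k u hu h1' =>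
        tors Γ v ι hl hvl (h.split p₀).pe h3 h1 (j := 0) (f := (k : B))
          (by simpa using V_int Γ k (V_one Γ 0)) (by rw [pow_zero, mul_one, hu, map_intCast]) h1'
      simp only [th, if_pos ht, one_pow, mul_one] at hU hV
      simp only [hM, one_pow] at hout
      have hin : ∀ p, v (ι (fe (ε p))) < 1 → v (ι (fw (ω p))) < 1 → x ∈ Z p ∧
          ∃ n : ℤ, v (n : L) = 1 ∧
            ∀ f, x.On f → ∃ α β : B, (n : B) * f = α * fe (ε p) + β * fw (ω p) := by
        intro p h4 h5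
        obtain ⟨-, x', hx', hc', hr'⟩ := (hloc p).2.2.2.2 _ _ v ι (by rwa [hM, one_pow])
          (by rwa [hM, one_pow])
        obtain rfl : x = x' := pt_ext fun f => (hc f).symm.trans (hc' f)
        exact ⟨hx', hr'⟩
      obtain ⟨γ, hγ⟩ := star v ι ht hc hint (fun p => x ∈ Z p) _ _ U V hU hV
        (fun p hp => (hloc p).2.2.1 x hp) fun p hp =>
          (hin p ((hc _).2 ((hloc p).2.2.1 x hp).1) ((hc _).2 ((hloc p).2.2.1 x hp).2)).2
      rw [← prod_filter_mul_prod_filter_not univ fun p => x ∈ Z p,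
        prod_eq_one (s := univ.filter fun p => x ∉ Z p) fun p hp => by
          rw [hout p fun h' => (mem_filter.1 hp).2 (hin p h'.1 h'.2).1, one_zpow], mul_one,
        prod_congr rfl fun p hp => by rw [hγ p (mem_filter.1 hp).2, div_zpow], prod_div_distrib]
      have h4 := prod_row ε (fun p => x ∈ Z p) r (fun e => h.srow e x)
        (fun p => γ (U p)) fun p q hpq => by rw [hUe p q hpq]
      have h5 := prod_row ω (fun p => x ∈ Z p) r (fun e => h.scol e x)
        (fun p => γ (V p)) fun p q hpq => by rw [hVe p q hpq]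
      rw [div_eq_one]
      exact h4.trans h5.symm
    · exact prod_eq_one fun p _ => by rw [hout p fun h' => hS ⟨p, h'⟩, one_zpow]

end Pool.Agent.Lib.BK2
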