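import Pool.Agent.Lib.BK2.KFIN
import Pool.Agent.Lib.BK2.KIDX
import Pool.Agent.Lib.BK2.KPROD
import Pool.Agent.Lib.BK2.KPROD1
import Pool.Agent.Lib.BK2.KG2K
import Pool.Agent.Lib.BK2.KREG
import Pool.Agent.Lib.BK2.KUNR
import Pool.Agent.Lib.BK2.INT
import Pool.Agent.Lib.BK2.NRM
import Pool.Agent.Lib.BK2.G2

namespace Pool.Agent.Lib.BK2

theorem stK_all : St_K := stK (stINT stNRM) (stUNR stNRM) stREG

theorem stPROD_all : St_PROD := stPROD (stPROD1 stIDX (stG2K (stG2 stNRM)))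

end Pool.Agent.Lib.BK2
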