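import Pool.Agent.Lib.BK2.Defs

open Polynomial

noncomputable section

namespace Pool.Agent.Lib.BK2

open Classical in
/-- A finite family of split pairs with integer weights whose row, column and star sums vanish. -/
structure Fam {B : Type} [CommRing B] [Algebra ℤ[X] B] {d : ℕ} [NeZero d] (Γ : Geo B d)
    (m m' : ℕ) {P E W : Type} [Fintype P] (ε : P → E) (ω : P → W) (fe : E → B) (fw : W → B)
    (Z : P → Finset (Pt B)) (r : P → ℤ) : Prop where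
  split : ∀ p, Γ.Split m m' (fe (ε p)) (fw (ω p)) (Z p)
  row : ∀ e, ∑ p with ε p = e, r p = 0
  col : ∀ w, ∑ p with ω p = w, r p = 0
  srow : ∀ e x, ∑ p with ε p = e ∧ x ∈ Z p, r p = 0
  scol : ∀ w x, ∑ p with ω p = w ∧ x ∈ Z p, r p = 0

open Classical in
/-- nonvanishing, algebraicity and integrality at the complex zeros -/
def St_INT : Prop :=
  ∀ (B : Type) [CommRing B] [IsDomain B] [Algebra ℤ[X] B] (d : ℕ) [NeZero d] (Γ : Geo B d)
    (m m' : ℕ) (P E W : Type) [Fintype P] (ε : P → E) (ω : P → W) (fe : E → B) (fw : W → B)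
    (Z : P → Finset (Pt B)) (r : P → ℤ), Γ.dmax + 1 ≤ m → 2 * m ≤ m' →
    Fam Γ m m' ε ω fe fw Z r → ∀ φ : B →+* ℂ,
    (∀ p, φ (fe (ε p)) = 0 → (∀ b, IsAlgebraic ℚ (φ b)) ∧ φ (fw (ω p)) ≠ 0 ∧
      IsIntegral ℤ (∏ q with ε q = ε p, φ (fw (ω q)) ^ r q)) ∧
    ∀ p, φ (fw (ω p)) = 0 → (∀ b, IsAlgebraic ℚ (φ b)) ∧ φ (fe (ε p)) ≠ 0 ∧
      IsIntegral ℤ (∏ q with ω q = ω p, φ (fe (ε q)) ^ r q)

open Classical in
/-- torsion tame symbols at all discrete valuations -/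
def St_UNR : Prop :=
  ∀ (B : Type) [CommRing B] [IsDomain B] [Algebra ℤ[X] B] (d : ℕ) [NeZero d] (Γ : Geo B d)
    (m m' : ℕ) (P E W : Type) [Fintype P] (ε : P → E) (ω : P → W) (fe : E → B) (fw : W → B)
    (Z : P → Finset (Pt B)) (r : P → ℤ), Γ.dmax + 1 ≤ m → 2 * m ≤ m' →
    Fam Γ m m' ε ω fe fw Z r →
    (∀ (φ : B →+* ℂ) p, φ (fe (ε p)) = 0 →
      ∑ q with ε q = ε p, (r q : ℝ) * Real.log ‖φ (fw (ω q))‖ = 0) →
    (∀ (φ : B →+* ℂ) p, φ (fw (ω p)) = 0 →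
      ∑ q with ω q = ω p, (r q : ℝ) * Real.log ‖φ (fe (ε q))‖ = 0) →
    ∀ (L : Type) [Field L] [Algebra ℚ L] (ι : B →+* L) (f g : P → Lˣ) (a b : L),
      (∀ p, (f p : L) * a = ι (fe (ε p))) → (∀ p, (g p : L) * b = ι (fw (ω p))) → a ≠ 0 → b ≠ 0 →
      Integral (Finset.univ.toList.map fun p => (f p ^ r p, g p))

end Pool.Agent.Lib.BK2
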