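import Pool.Agent.Lib.BK2.Blue0
import Pool.Agent.Lib.BK2.UnrStmt

open Polynomial

noncomputable section

namespace Pool.Agent.Lib.BK2

open Classical in
/-- The regulator of the symbol list of a weighted family with zero row and column sums. -/
def St_REG : Prop :=
  ∀ (L : Type) [Field L] [Algebra ℚ L] (n : ℕ) (y : Fin (n + 1) → L)
    (B : Type) [CommRing B] [Algebra ℤ[X] B] (d : ℕ) [NeZero d] (Γ : Geo B d)
    (μ : Γ.Model y) (γ : Loop y) (m m' : ℕ), μ.m₀ ≤ m → μ.m₀ ≤ m' →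
    ∀ (H H' : ℝ), 0 < H → 0 < H' → ∀ (P : Type) [Fintype P] (ε : P → Γ.Ix m → ℤ)
      (ω : P → Γ.Ix m' → ℤ) (r : P → ℤ) (p₀ : P) (f g : P → Lˣ),
    (∀ e, ∑ p with ε p = e, r p = 0) → (∀ w, ∑ p with ω p = w, r p = 0) →
    (∀ p u, μ.evC (scl H (ε p)) (γ.pt u) ≠ 0 ∧ μ.evC (scl H' (ω p)) (γ.pt u) ≠ 0) →
    (∀ p, (f p : L) * μ.ι (Γ.el (ε p₀)) = μ.ι (Γ.el (ε p))) →
    (∀ p, (g p : L) * μ.ι (Γ.el (ω p₀)) = μ.ι (Γ.el (ω p))) →
    Avoids (Finset.univ.toList.map fun p => (f p ^ r p, g p)) γ ∧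
      reg (Finset.univ.toList.map fun p => (f p ^ r p, g p)) γ =
        ∑ p, (r p : ℝ) * eta (fun u => μ.evC (scl H (ε p)) (γ.pt u))
          fun u => μ.evC (scl H' (ω p)) (γ.pt u)

/-- Index comparison of two maps into a lattice with a full set of eigen-characters. -/
def St_IDX : Prop :=
  ∀ (A M κ : Type) [AddCommGroup A] [AddCommGroup M] [Module.Free ℤ M] [Module.Finite ℤ M]
    [Fintype κ] (i j : A →+ M) (φ : κ → M →+ ℂ) (z : κ → ℂ),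
    Module.finrank ℤ M = Fintype.card κ → LinearIndependent ℂ (fun k => (φ k : M → ℂ)) →
    (∀ a, i a = 0 → j a = 0) → (∀ k a, φ k (j a) = z k * φ k (i a)) →
    i.range.index ≠ 0 → j.range.index ≠ 0 →
    (j.range.index : ℝ) = i.range.index * ∏ k, ‖z k‖

namespace Geo

variable {B : Type} [CommRing B] [Algebra ℤ[X] B] {d : ℕ} [NeZero d] (Γ : Geo B d)

/-- The lattice spanned by the monomials of degree at most `m`. -/
def VA (m : ℕ) : AddSubgroup B := AddSubgroup.closure (Γ.V m)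

/-- The multiples of `f` by elements of degree at most `m`. -/
def mulS (f : B) (m : ℕ) : AddSubgroup B := (Γ.VA m).map (AddMonoidHom.mulLeft f)

/-- One half of a split pair: `f` of degree `k` is the modulus, `D` the total degree. -/
structure Half (D k k' : ℕ) (f g : B) (Z : Finset (Pt B)) : Prop where
  hf : f ∈ Γ.V k
  hg : g ∈ Γ.V k'
  hk : k + k' + Γ.dmax ≤ D
  inj : Set.InjOn Pt.p (Z : Set (Pt B))
  pf : (Γ.nrm f).IsPrimitive
  cf : (Γ.nrm f).coeff (k * d) ≠ 0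
  lat : ∀ v ∈ Γ.V D, (∃ s ∈ Γ.V (D - k), ∃ s' ∈ Γ.V (D - k'), v = f * s + g * s') ↔
    ∀ x ∈ Z, x.On v

variable {Γ}

theorem Split.half₁ {m m' : ℕ} {e w : B} {Z : Finset (Pt B)} (h : Γ.Split m m' e w Z)
    (h1 : Γ.dmax + 1 ≤ m) (h2 : 2 * m ≤ m') : Γ.Half (2 * m') m m' e w Z :=
  ⟨h.he, h.hw, by omega, h.inj, h.pe, h.ce, fun v hv => by
    rw [show 2 * m' - m' = m' by omega]
    exact h.lat v hv⟩

theorem Split.half₂ {m m' : ℕ} {e w : B} {Z : Finset (Pt B)} (h : Γ.Split m m' e w Z)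
    (h1 : Γ.dmax + 1 ≤ m) (h2 : 2 * m ≤ m') : Γ.Half (2 * m') m' m w e Z :=
  ⟨h.hw, h.he, by omega, h.inj, h.pw, h.cw, fun v hv => by
    rw [show 2 * m' - m' = m' by omega, ← h.lat v hv]
    exact ⟨fun ⟨s, hs, s', hs', e1⟩ => ⟨s', hs', s, hs, by rw [e1, add_comm]⟩,
      fun ⟨s, hs, s', hs', e1⟩ => ⟨s', hs', s, hs, by rw [e1, add_comm]⟩⟩⟩

end Geo

/-- Division by an element with nonzero top coefficient and primitive norm. -/
def St_G2K : Prop :=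
  ∀ (B : Type) [CommRing B] [IsDomain B] [Algebra ℤ[X] B] (d : ℕ) [NeZero d] (Γ : Geo B d)
    (k : ℕ) (f : B), f ∈ Γ.V k → (Γ.nrm f).coeff (k * d) ≠ 0 →
    (∀ a s, k ≤ a → f * s ∈ Γ.V a → s ∈ Γ.V (a - k)) ∧
    ((Γ.nrm f).IsPrimitive → ∀ (N : ℤ) (s : B), N ≠ 0 → f ∣ N • s → f ∣ s) ∧
    (∀ a, k + Γ.dmax ≤ a → (Γ.VA a ⊔ Γ.mulS f (a + 1 - k)).relIndex (Γ.VA (a + 1)) =
      ((Γ.nrm f).coeff (k * d)).natAbs) ∧
    ∀ a, k + Γ.dmax ≤ a → Module.finrank ℤ (Γ.VA a) = Module.finrank ℤ (Γ.VA (a - k)) + k * d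

/-- The product formula on one curve, integral form. -/
def St_PROD1 : Prop :=
  ∀ (B : Type) [CommRing B] [IsDomain B] [Algebra ℤ[X] B] (d : ℕ) [NeZero d] (Γ : Geo B d)
    (D k k' : ℕ) (f g : B) (Z : Finset (Pt B)) (κ : Type) [Fintype κ] (φ : κ → B →+* ℂ),
    Γ.Half D k k' f g Z → Fintype.card κ = k * d → (∀ s, φ s f = 0) →
    (Function.Injective fun s => φ s Γ.t) →
    (∀ s, φ s g ≠ 0) ∧
      ∏ x ∈ Z, (x.p : ℝ) = |(((Γ.nrm f).coeff (k * d) : ℤ) : ℝ)| ^ k' * ∏ s, ‖φ s g‖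

end Pool.Agent.Lib.BK2
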