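import Pool.Agent.Lib.BK2.KDefs
import Pool.Agent.Lib.BK2.Dual0

open Polynomial Finset

noncomputable section

namespace Pool.Agent.Lib.BK2

namespace KFIN

open Classical in
/-- Row, column and star sums vanish. -/
structure Bal {P E W X : Type} [Fintype P] (ε : P → E) (ω : P → W) (Z : P → Finset X)
    (r : P → ℤ) : Prop where
  row : ∀ e, ∑ p with ε p = e, r p = 0
  col : ∀ w, ∑ p with ω p = w, r p = 0
  srow : ∀ e x, ∑ p with ε p = e ∧ x ∈ Z p, r p = 0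
  scol : ∀ w x, ∑ p with ω p = w ∧ x ∈ Z p, r p = 0

open Classical in
theorem row_of {P E : Type} [Fintype P] (ε : P → E) (r : P → ℤ)
    (h : ∀ p₀, ∑ p, r p * (if ε p = ε p₀ then 1 else 0) = 0) (e : E) :
    ∑ p with ε p = e, r p = 0 := by
  by_cases he : ∃ p₀, ε p₀ = e
  · obtain ⟨p₀, rfl⟩ := he
    rw [← h p₀, sum_filter]
    exact sum_congr rfl fun p _ => by split_ifs <;> simp
  · exact sum_eq_zero fun p hp => absurd ⟨p, (mem_filter.mp hp).2⟩ he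

open Classical in
theorem srow_of {P E X : Type} [Fintype P] (ε : P → E) (Z : P → Finset X) (T : Finset X)
    (hT : ∀ p, Z p ⊆ T) (r : P → ℤ)
    (h : ∀ i : P × T, ∑ p, r p * (if ε p = ε i.1 ∧ i.2.1 ∈ Z p then 1 else 0) = 0) (e : E)
    (x : X) : ∑ p with ε p = e ∧ x ∈ Z p, r p = 0 := by
  by_cases he : ∃ p₀, ε p₀ = e ∧ x ∈ Z p₀
  · obtain ⟨p₀, rfl, hx⟩ := he
    rw [← h (p₀, ⟨x, hT p₀ hx⟩), sum_filter]
    exact sum_congr rfl fun p _ => by split_ifs <;> simp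
  · exact sum_eq_zero fun p hp => absurd ⟨p, (mem_filter.mp hp).2⟩ he

open Classical in
theorem star_sum {P E X : Type} [Fintype P] (ε : P → E) (Z : P → Finset X) (T : Finset X)
    (hT : ∀ p, Z p ⊆ T) (c : P × T → ℝ) : ∃ c' : E → X → ℝ, ∀ p,
      ∑ i : P × T, c i * ((if ε p = ε i.1 ∧ i.2.1 ∈ Z p then 1 else 0 : ℤ) : ℝ) =
        ∑ x ∈ Z p, c' (ε p) x := by
  refine ⟨fun e x => if h : x ∈ T then ∑ p₀, if e = ε p₀ then c (p₀, ⟨x, h⟩) else 0 else 0,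
    fun p => ?_⟩
  have e1 : Z p = T.filter (· ∈ Z p) := by
    ext x
    simp only [mem_filter]
    exact ⟨fun h => ⟨hT p h, h⟩, fun h => h.2⟩
  rw [Fintype.sum_prod_type_right]
  conv_rhs => rw [e1, sum_filter, ← sum_coe_sort]
  refine sum_congr rfl fun x _ => ?_
  by_cases hx : x.1 ∈ Z p
  · simp only [hx, and_true, if_true, x.2, dif_pos]
    exact sum_congr rfl fun p₀ _ => by split_ifs <;> simp
  · simp [hx]

open Classical in
theorem arch_sum {P E S : Type} [Fintype P] [Fintype S] (ε : P → E) (lam : P → S → ℝ)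
    (c : P → ℝ) (C : P × S → ℝ) : ∃ (c' : E → ℝ) (C' : E → S → ℝ), ∀ p,
      ∑ i, c i * ((if ε p = ε i then 1 else 0 : ℤ) : ℝ) +
        ∑ j : P × S, C j * (if ε p = ε j.1 then lam p j.2 else 0) =
        c' (ε p) + ∑ s, C' (ε p) s * lam p s := by
  refine ⟨fun e => ∑ i, if e = ε i then c i else 0,
    fun e s => ∑ i, if e = ε i then C (i, s) else 0, fun p => ?_⟩
  rw [Fintype.sum_prod_type_right]
  refine congrArg₂ (· + ·) (sum_congr rfl fun i _ => by split_ifs <;> simp)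
    (sum_congr rfl fun s _ => ?_)
  rw [sum_mul]
  exact sum_congr rfl fun i _ => by split_ifs <;> simp

open Classical in
theorem ite_sum' {P E : Type} [Fintype P] (ε : P → E) (r : P → ℤ) (u : P → ℝ) (e : E) :
    ∑ p, (r p : ℝ) * (if ε p = e then u p else 0) = ∑ p with ε p = e, (r p : ℝ) * u p := by
  rw [sum_filter]
  exact sum_congr rfl fun p _ => by split_ifs <;> simp

open Classical in
theorem dual2 {P E W X S S' : Type} [Fintype P] [Fintype S] [Fintype S'] (ε : P → E) (ω : P → W)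
    (Z : P → Finset X) (lam : P → S → ℝ) (lam' : P → S' → ℝ) (Φ : P → ℝ)
    (hd : ∀ p s, ∃ δ : ℝ, 0 < δ ∧ ∀ r, Bal ε ω Z r →
      (∀ s', |∑ q with ε q = ε p, (r q : ℝ) * lam q s'| < δ) →
        ∑ q with ε q = ε p, (r q : ℝ) * lam q s = 0)
    (hd' : ∀ p s, ∃ δ : ℝ, 0 < δ ∧ ∀ r, Bal ε ω Z r →
      (∀ s', |∑ q with ω q = ω p, (r q : ℝ) * lam' q s'| < δ) →
        ∑ q with ω q = ω p, (r q : ℝ) * lam' q s = 0)
    (hΦ : ∀ r, Bal ε ω Z r → (∀ p s, ∑ q with ε q = ε p, (r q : ℝ) * lam q s = 0) →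
      (∀ p s, ∑ q with ω q = ω p, (r q : ℝ) * lam' q s = 0) → ∑ p, (r p : ℝ) * Φ p = 0) :
    ∃ (c : E → X → ℝ) (c' : W → X → ℝ) (a : E → ℝ) (C : E → S → ℝ) (a' : W → ℝ)
      (C' : W → S' → ℝ), ∀ p, Φ p = ∑ x ∈ Z p, c (ε p) x + (a (ε p) + ∑ s, C (ε p) s * lam p s) +
        ∑ x ∈ Z p, c' (ω p) x + (a' (ω p) + ∑ s, C' (ω p) s * lam' p s) := by
  let T : Finset X := univ.biUnion Z
  have hT : ∀ p, Z p ⊆ T := fun p => subset_biUnion_of_mem Z (mem_univ p)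
  let A : (P ⊕ P) ⊕ (P × T) ⊕ (P × T) → P → ℤ := fun i p =>
    Sum.elim (Sum.elim (fun i => if ε p = ε i then 1 else 0) fun i => if ω p = ω i then 1 else 0)
      (Sum.elim (fun i => if ε p = ε i.1 ∧ i.2.1 ∈ Z p then 1 else 0)
        fun i => if ω p = ω i.1 ∧ i.2.1 ∈ Z p then 1 else 0) i
  let Λ : (P × S) ⊕ (P × S') → P → ℝ := fun j p =>
    Sum.elim (fun j => if ε p = ε j.1 then lam p j.2 else 0)
      (fun j => if ω p = ω j.1 then lam' p j.2 else 0) j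
  have hbal : ∀ r : P → ℤ, (∀ i, ∑ p, r p * A i p = 0) → Bal ε ω Z r := fun r h =>
    ⟨row_of ε r fun p => h (.inl (.inl p)), row_of ω r fun p => h (.inl (.inr p)),
      srow_of ε Z T hT r fun i => h (.inr (.inl i)), srow_of ω Z T hT r fun i => h (.inr (.inr i))⟩
  have hΛ : ∀ (r : P → ℤ) p s, ∑ q, (r q : ℝ) * Λ (.inl (p, s)) q =
      ∑ q with ε q = ε p, (r q : ℝ) * lam q s := fun r p s => ite_sum' ε r (lam · s) (ε p)
  have hΛ' : ∀ (r : P → ℤ) p s, ∑ q, (r q : ℝ) * Λ (.inr (p, s)) q =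
      ∑ q with ω q = ω p, (r q : ℝ) * lam' q s := fun r p s => ite_sum' ω r (lam' · s) (ω p)
  choose δ hδ hd using hd
  choose δ' hδ' hd' using hd'
  obtain ⟨δ₀, hδ₀, hle⟩ : ∃ δ₀ : ℝ, 0 < δ₀ ∧ ∀ j : (P × S) ⊕ (P × S'),
      δ₀ ≤ Sum.elim (fun j => δ j.1 j.2) (fun j => δ' j.1 j.2) j := by
    obtain ⟨b, hb, h⟩ := Pi.exists_forall_pos_add_lt (x := fun _ : (P × S) ⊕ (P × S') => (0 : ℝ))
      (y := Sum.elim (fun j => δ j.1 j.2) fun j => δ' j.1 j.2) (by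
        rintro (j | j)
        exacts [hδ _ _, hδ' _ _])
    exact ⟨b, hb, fun j => by simpa using (h j).le⟩
  obtain ⟨c, C, h⟩ := DUAL.dual A Λ Φ ⟨δ₀, hδ₀, fun r hr hs => by
      rintro (⟨p, s⟩ | ⟨p, s⟩)
      · rw [hΛ]
        refine hd p s r (hbal r hr) fun s' => ?_
        rw [← hΛ]
        exact (hs _).trans_le (hle (.inl (p, s)))
      · rw [hΛ']
        refine hd' p s r (hbal r hr) fun s' => ?_
        rw [← hΛ']
        exact (hs _).trans_le (hle (.inr (p, s)))⟩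
    fun r hr hs => hΦ r (hbal r hr) (fun p s => by rw [← hΛ]; exact hs _)
      fun p s => by rw [← hΛ']; exact hs _
  obtain ⟨c1, h1⟩ := star_sum ε Z T hT fun i => c (.inr (.inl i))
  obtain ⟨c2, h2⟩ := star_sum ω Z T hT fun i => c (.inr (.inr i))
  obtain ⟨a1, C1, h3⟩ := arch_sum ε lam (fun i => c (.inl (.inl i))) fun j => C (.inl j)
  obtain ⟨a2, C2, h4⟩ := arch_sum ω lam' (fun i => c (.inl (.inr i))) fun j => C (.inr j)
  refine ⟨c1, c2, a1, C1, a2, C2, fun p => ?_⟩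
  rw [h p, ← h1, ← h2, ← h3, ← h4]
  simp only [Fintype.sum_sum_type, A, Λ, Sum.elim_inl, Sum.elim_inr]
  ring

variable {B : Type} [CommRing B] [Algebra ℤ[X] B] {d : ℕ} [NeZero d] (Γ : Geo B d)

theorem ev_scl {m : ℕ} (φ : B →+* ℂ) (H : ℝ) (e : Γ.Ix m → ℤ) :
    Γ.ev φ (scl H e) = φ (Γ.el e) / H := by
  simp only [Geo.ev, Geo.el, scl, map_sum, zsmul_eq_mul, sum_div]
  refine sum_congr rfl fun i _ => ?_
  push_cast
  simp only [map_mul, map_intCast]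
  ring

include Γ in
theorem finType : Algebra.FiniteType ℤ B := by
  have : Module.Finite ℤ[X] B := Module.Finite.of_basis Γ.b
  exact Algebra.FiniteType.trans (S := ℤ[X]) inferInstance inferInstance

variable {Γ}

theorem root_norm {m ν : ℕ} {U : Set (Γ.Ix m → ℝ)} (ρ : Γ.Roots m ν U) {H : ℝ}
    {e : Γ.Ix m → ℤ} (he : scl H e ∈ U) (ψ : B →+* ℂ) (h : ψ (Γ.el e) = 0) :
    ∃ s, ∀ b, ‖ψ b‖ = ‖ρ.φ (scl H e) s b‖ := by
  obtain ⟨s, h1 | h1⟩ := ρ.all _ he ψ (by rw [ev_scl, h, zero_div])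
  · exact ⟨s, fun b => by rw [← h1]⟩
  · refine ⟨s, fun b => ?_⟩
    rw [h1, RingHom.comp_apply, RCLike.norm_conj]

theorem root_zero {m ν : ℕ} {U : Set (Γ.Ix m → ℝ)} (ρ : Γ.Roots m ν U) {H : ℝ} (hH : 0 < H)
    {e : Γ.Ix m → ℤ} (he : scl H e ∈ U) (s : Fin ν) : ρ.φ (scl H e) s (Γ.el e) = 0 := by
  have := ρ.zero _ he s
  rw [ev_scl, div_eq_zero_iff] at this
  exact this.resolve_right (by exact_mod_cast hH.ne')

theorem lam_sum {m m' ν : ℕ} {U : Set (Γ.Ix m → ℝ)} (ρ : Γ.Roots m ν U) {H H' : ℝ} (hH : 0 < H)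
    (hH' : 0 < H') {P : Type} (ε : P → Γ.Ix m → ℤ) (ω : P → Γ.Ix m' → ℤ)
    (hU : ∀ p, scl H (ε p) ∈ U)
    (hne : ∀ (φ : B →+* ℂ) p, φ (Γ.el (ε p)) = 0 → φ (Γ.el (ω p)) ≠ 0) (r : P → ℤ) (p : P)
    (S : Finset P) (hS : ∀ q, q ∈ S ↔ ε q = ε p) (row : ∑ q ∈ S, r q = 0) (s : Fin ν) :
    ∑ q ∈ S, (r q : ℝ) * ρ.lam (scl H (ε q)) (scl H' (ω q)) (some s) =
      ∑ q ∈ S, (r q : ℝ) * Real.log ‖ρ.φ (scl H (ε p)) s (Γ.el (ω q))‖ := by
  have h0 : ∑ q ∈ S, (r q : ℝ) * Real.log H' = 0 := by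
    rw [← sum_mul, ← Int.cast_sum, row, Int.cast_zero, zero_mul]
  rw [← sub_zero (∑ q ∈ S, (r q : ℝ) * Real.log ‖ρ.φ (scl H (ε p)) s (Γ.el (ω q))‖),
    ← h0, ← sum_sub_distrib]
  refine sum_congr rfl fun q hq => ?_
  have hq' := (hS q).mp hq
  have h1 := hne _ q (root_zero ρ hH (hU q) s)
  simp only [Geo.Roots.lam]
  rw [← hq', ev_scl, norm_div, Real.log_div (norm_ne_zero_iff.mpr h1)
    (norm_ne_zero_iff.mpr (by exact_mod_cast hH'.ne')), Complex.norm_real, Real.norm_eq_abs,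
    abs_of_pos hH', mul_sub]

theorem disc_side {m m' ν : ℕ} {U : Set (Γ.Ix m → ℝ)} (ρ : Γ.Roots m ν U) {H H' : ℝ}
    (hH : 0 < H) (hH' : 0 < H') {P : Type} [Fintype P] (ε : P → Γ.Ix m → ℤ)
    (ω : P → Γ.Ix m' → ℤ) (hU : ∀ p, scl H (ε p) ∈ U)
    (hne : ∀ (φ : B →+* ℂ) p, φ (Γ.el (ε p)) = 0 →
      (∀ b, IsAlgebraic ℚ (φ b)) ∧ φ (Γ.el (ω p)) ≠ 0) (p : P) (s : Fin ν)
    (S : Finset P) (hS : ∀ q, q ∈ S ↔ ε q = ε p) :
    ∃ δ : ℝ, 0 < δ ∧ ∀ r : P → ℤ, ∑ q ∈ S, r q = 0 →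
      (∀ φ : B →+* ℂ, φ (Γ.el (ε p)) = 0 → IsIntegral ℤ (∏ q ∈ S, φ (Γ.el (ω q)) ^ r q)) →
      (∀ s', |∑ q ∈ S, (r q : ℝ) * ρ.lam (scl H (ε q)) (scl H' (ω q)) (some s')| < δ) →
      ∑ q ∈ S, (r q : ℝ) * ρ.lam (scl H (ε q)) (scl H' (ω q)) (some s) = 0 := by
  classical
  have := finType Γ
  have hz := root_zero ρ hH (hU p) s
  obtain ⟨δ, hδ, h⟩ := DUAL.disc_hom B (ρ.φ (scl H (ε p)) s) (hne _ p hz).1
  refine ⟨δ, hδ, fun r row hint hs => ?_⟩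
  have L := lam_sum ρ hH hH' ε ω hU (fun φ p h => (hne φ p h).2) r p S hS row
  rw [L, ← sum_coe_sort]
  refine h S (fun q => Γ.el (ω q)) (fun q => r q)
    (fun q => (hne _ q.1 (by rw [(hS _).mp q.2]; exact hz)).2) ?_ fun ψ hψ => ?_
  · have := hint _ hz
    rwa [← prod_coe_sort] at this
  · obtain ⟨s', hs'⟩ := root_norm ρ (hU p) ψ (hψ _ hz)
    have := hs s'
    rw [L, ← sum_coe_sort] at this
    simpa only [hs'] using this

open Classical in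
theorem mem_fib {P E : Type} [Fintype P] (ε : P → E) (e : E) (q : P) :
    q ∈ univ.filter (fun q => ε q = e) ↔ ε q = e := by simp

theorem ne_zero_of {f : B} [Nontrivial B] {k : ℕ} (h : (Γ.nrm f).coeff k ≠ 0) : f ≠ 0 := by
  have : Module.Finite ℤ[X] B := Module.Finite.of_basis Γ.b
  have : Module.Free ℤ[X] B := Module.Free.of_basis Γ.b
  rintro rfl
  exact h (by rw [Geo.nrm, Algebra.norm_zero, coeff_zero])

end KFIN

open KFIN in
theorem stK (hINT : St_INT) (hUNR : St_UNR) (hREG : St_REG) : St_K := by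
  intro L _ _ n y B _ _ _ d _ Γ μ ι _ γ a m m' ν ν' U U' ρ ρ' hm0 hm hm' hO hO' hK H H' hH hH'
    P Z hP
  classical
  rcases P.eq_empty_or_nonempty with rfl | ⟨q₀, hq₀⟩
  · exact ⟨0, 0, 0, 0, fun q hq => absurd hq (notMem_empty _)⟩
  let ε : P → Γ.Ix m → ℤ := fun p => p.1.1
  let ω : P → Γ.Ix m' → ℤ := fun p => p.1.2
  let Z' : P → Finset (Pt B) := fun p => Z p.1.1 p.1.2
  have hU : ∀ p, scl H (ε p) ∈ U := fun p => (hP p.1 p.2).1
  have hU' : ∀ p, scl H' (ω p) ∈ U' := fun p => (hP p.1 p.2).2.1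
  have hS : ∀ p, Γ.Split m m' (Γ.el (ε p)) (Γ.el (ω p)) (Z' p) := fun p => (hP p.1 p.2).2.2
  have hF : ∀ r, Bal ε ω Z' r → Fam Γ m m' ε ω Γ.el Γ.el Z' r := fun r h =>
    ⟨hS, h.row, h.col, h.srow, h.scol⟩
  have I := fun r (h : Bal ε ω Z' r) => hINT B d Γ m m' P _ _ ε ω Γ.el Γ.el Z' r hm hm' (hF r h)
  have b0 : Bal ε ω Z' (0 : P → ℤ) := ⟨by simp, by simp, by simp, by simp⟩
  have hne : ∀ (φ : B →+* ℂ) p, φ (Γ.el (ε p)) = 0 →
      (∀ b, IsAlgebraic ℚ (φ b)) ∧ φ (Γ.el (ω p)) ≠ 0 := fun φ p h =>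
    ⟨((I 0 b0 φ).1 p h).1, ((I 0 b0 φ).1 p h).2.1⟩
  have hne' : ∀ (φ : B →+* ℂ) p, φ (Γ.el (ω p)) = 0 →
      (∀ b, IsAlgebraic ℚ (φ b)) ∧ φ (Γ.el (ε p)) ≠ 0 := fun φ p h =>
    ⟨((I 0 b0 φ).2 p h).1, ((I 0 b0 φ).2 p h).2.1⟩
  obtain ⟨c, c', a1, C, a2, C', h⟩ := dual2 ε ω Z'
    (fun p s => ρ.lam (scl H (ε p)) (scl H' (ω p)) (some s))
    (fun p s => ρ'.lam (scl H' (ω p)) (scl H (ε p)) (some s))
    (fun p => μ.Phi γ a (scl H (ε p)) (scl H' (ω p)))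
    (fun p s => by
      obtain ⟨δ, hδ, h⟩ := disc_side ρ hH hH' ε ω hU hne p s _ (mem_fib ε (ε p))
      exact ⟨δ, hδ, fun r hr => h r (hr.row _) fun φ hφ => ((I r hr φ).1 p hφ).2.2⟩)
    (fun p s => by
      obtain ⟨δ, hδ, h⟩ := disc_side ρ' hH' hH ω ε hU' hne' p s _ (mem_fib ω (ω p))
      exact ⟨δ, hδ, fun r hr => h r (hr.col _) fun φ hφ => ((I r hr φ).2 p hφ).2.2⟩)
    (fun r hr h1 h2 => by
      have n1 : ∀ p, μ.ι (Γ.el (ε p)) ≠ 0 := fun p =>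
        (map_ne_zero_iff _ μ.inj).mpr (ne_zero_of (hS p).ce)
      have n2 : ∀ p, μ.ι (Γ.el (ω p)) ≠ 0 := fun p =>
        (map_ne_zero_iff _ μ.inj).mpr (ne_zero_of (hS p).cw)
      let p₀ : P := ⟨q₀, hq₀⟩
      let f : P → Lˣ := fun p => Units.mk0 _ (div_ne_zero (n1 p) (n1 p₀))
      let g : P → Lˣ := fun p => Units.mk0 _ (div_ne_zero (n2 p) (n2 p₀))
      have hf : ∀ p, (f p : L) * μ.ι (Γ.el (ε p₀)) = μ.ι (Γ.el (ε p)) := fun p =>
        div_mul_cancel₀ _ (n1 p₀)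
      have hg : ∀ p, (g p : L) * μ.ι (Γ.el (ω p₀)) = μ.ι (Γ.el (ω p)) := fun p =>
        div_mul_cancel₀ _ (n2 p₀)
      have hI := hUNR B d Γ m m' P _ _ ε ω Γ.el Γ.el Z' r hm hm' (hF r hr)
        (fun φ p hφ => by
          obtain ⟨s, hs⟩ := root_norm ρ (hU p) φ hφ
          have := h1 p s
          rw [lam_sum ρ hH hH' ε ω hU (fun φ p h => (hne φ p h).2) r p _ (mem_fib ε (ε p))
            (hr.row _)] at this
          simpa only [hs] using this)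
        (fun φ p hφ => by
          obtain ⟨s, hs⟩ := root_norm ρ' (hU' p) φ hφ
          have := h2 p s
          rw [lam_sum ρ' hH' hH ω ε hU' (fun φ p h => (hne' φ p h).2) r p _ (mem_fib ω (ω p))
            (hr.col _)] at this
          simpa only [hs] using this)
        L μ.ι f g _ _ hf hg (n1 p₀) (n2 p₀)
      have R := fun l => hREG L n y B d Γ μ (γ l) m m' hm0 (by omega) H H' hH hH' P ε ω r p₀ f g
        (fun e => (sum_congr (by ext q; simp) fun _ _ => rfl).trans (hr.row e))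
        (fun e => (sum_congr (by ext q; simp) fun _ _ => rfl).trans (hr.col e))
        (fun p u => ⟨hO _ (hU p) l u, hO' _ (hU' p) l u⟩) hf hg
      rw [← hK _ hI fun l => (R l).1]
      simp only [Geo.Model.Phi, mul_sum]
      rw [sum_comm]
      refine sum_congr rfl fun l _ => ?_
      rw [(R l).2, mul_sum]
      exact sum_congr rfl fun p _ => by ring)
  refine ⟨c, fun w x => -c' w x, fun e o => o.elim (a1 e) (C e),
    fun w o => -o.elim (a2 w) (C' w), fun q hq => ?_⟩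
  have := h ⟨q, hq⟩
  simp only [Fintype.sum_option, Option.elim_none, Option.elim_some, neg_mul, sum_neg_distrib]
  simp only [ε, ω, Z'] at this
  rw [this]
  simp only [Geo.Roots.lam]
  ring

end Pool.Agent.Lib.BK2
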