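import Pool.Agent.Lib.BK2.LDefs

/-! BK2, local limit theorem on a finite group: abstract tools. -/

namespace Pool.Agent.Lib.BK2

open Finset
open scoped Classical ComplexConjugate

noncomputable section

namespace LA

/-! The exponential -/

lemma ee_add (x y : ℝ) : ee (x + y) = ee x * ee y := by
  unfold ee
  rw [← Complex.exp_add]
  congr 1
  push_cast
  ring

lemma ee_eq (x : ℝ) : ee x = Complex.exp (Complex.I * (2 * Real.pi * x : ℝ)) := by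
  unfold ee
  congr 1
  push_cast
  ring

lemma norm_ee (x : ℝ) : ‖ee x‖ = 1 := by
  rw [ee_eq, Complex.norm_exp_I_mul_ofReal]

lemma ee_zero : ee 0 = 1 := by simp [ee]

lemma ee_sub (x y : ℝ) : ‖ee x - ee y‖ = ‖ee (x - y) - 1‖ := by
  have h : ee x - ee y = ee y * (ee (x - y) - 1) := by
    rw [mul_sub, ← ee_add, mul_one]
    congr 2
    ring
  rw [h, norm_mul, norm_ee, one_mul]

lemma ee_up (x y : ℝ) : ‖ee x - ee y‖ ≤ 7 * |x - y| := by
  rw [ee_sub, ee_eq]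
  refine Real.norm_exp_I_mul_ofReal_sub_one_le.trans ?_
  rw [Real.norm_eq_abs, abs_mul, abs_of_pos (by positivity : 0 < 2 * Real.pi)]
  exact mul_le_mul_of_nonneg_right (by linarith [Real.pi_lt_d2]) (abs_nonneg _)

lemma ee_low {x y : ℝ} (h : |x - y| ≤ 1 / 2) : 4 * |x - y| ≤ ‖ee x - ee y‖ := by
  rw [ee_sub, ee_eq, Complex.norm_exp_I_mul_ofReal_sub_one]
  have h1 : |2 * Real.pi * (x - y) / 2| = Real.pi * |x - y| := by
    rw [show 2 * Real.pi * (x - y) / 2 = Real.pi * (x - y) by ring, abs_mul,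
      abs_of_pos Real.pi_pos]
  have h2 := Real.mul_abs_le_abs_sin (x := 2 * Real.pi * (x - y) / 2) (by
    rw [h1]
    nlinarith [Real.pi_pos])
  rw [h1, ← mul_assoc, div_mul_cancel₀ _ Real.pi_pos.ne'] at h2
  rw [Real.norm_eq_abs, abs_mul, abs_two]
  linarith

lemma ee_nat (x : ℝ) (i : ℕ) : ee (x * i) = ee x ^ i := by
  induction i with
  | zero => simp [ee_zero]
  | succ i ih => rw [pow_succ, ← ih, ← ee_add, Nat.cast_succ, mul_add, mul_one]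

lemma dirichlet {x : ℝ} (h : |x| ≤ 1 / 2) (L : ℕ) :
    2 * |x| * ‖∑ i ∈ range L, ee (x * i)‖ ≤ 1 := by
  have h1 := ee_low (x := x) (y := 0) (by simpa using h)
  rw [sub_zero, ee_zero] at h1
  have h2 : ‖(∑ i ∈ range L, ee x ^ i) * (ee x - 1)‖ ≤ 2 := by
    rw [geom_sum_mul]
    refine (norm_sub_le _ _).trans ?_
    rw [norm_pow, norm_ee]
    norm_num
  rw [norm_mul] at h2
  simp only [ee_nat]
  nlinarith [norm_nonneg (∑ i ∈ range L, ee x ^ i)]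

lemma pow_sub_le {u v : ℂ} (hu : ‖u‖ ≤ 1) (hv : ‖v‖ ≤ 1) (l : ℕ) :
    ‖u ^ l - v ^ l‖ ≤ l * ‖u - v‖ := by
  induction l with
  | zero => simp
  | succ l ih =>
    have h : u ^ (l + 1) - v ^ (l + 1) = u * (u ^ l - v ^ l) + (u - v) * v ^ l := by ring
    have h1 : ‖v ^ l‖ ≤ 1 := by rw [norm_pow]; exact pow_le_one₀ (norm_nonneg _) hv
    rw [h]
    refine (norm_add_le _ _).trans ?_
    rw [norm_mul, norm_mul]
    push_cast
    nlinarith [norm_nonneg (u - v), norm_nonneg (u ^ l - v ^ l), norm_nonneg u,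
      norm_nonneg (v ^ l), mul_le_mul_of_nonneg_right hu (norm_nonneg (u ^ l - v ^ l)),
      mul_le_mul_of_nonneg_left h1 (norm_nonneg (u - v))]

/-! Expectations of unimodular functions -/

variable {Y : Type} {T : Finset Y} {ω : Y → ℝ}

/-- probability weights. -/
def Pr (T : Finset Y) (ω : Y → ℝ) : Prop := (∀ y ∈ T, 0 ≤ ω y) ∧ ∑ y ∈ T, ω y = 1

/-- expectation. -/
def Ex (T : Finset Y) (ω : Y → ℝ) (u : Y → ℂ) : ℂ := ∑ y ∈ T, (ω y : ℂ) * u y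

/-- mean square oscillation. -/
def Qf (T : Finset Y) (ω : Y → ℝ) (u : Y → ℂ) : ℝ :=
  ∑ y ∈ T, ω y * ∑ z ∈ T, ω z * ‖u y - u z‖ ^ 2

lemma Pr.sum_le (h : Pr T ω) {f : Y → ℝ} {c : ℝ} (hf : ∀ y ∈ T, f y ≤ c) :
    ∑ y ∈ T, ω y * f y ≤ c := by
  refine (sum_le_sum fun y hy => mul_le_mul_of_nonneg_left (hf y hy) (h.1 y hy)).trans ?_
  rw [← sum_mul, h.2, one_mul]

lemma Pr.mono (h : Pr T ω) {f g : Y → ℝ} (hf : ∀ y ∈ T, f y ≤ g y) :
    ∑ y ∈ T, ω y * f y ≤ ∑ y ∈ T, ω y * g y :=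
  sum_le_sum fun y hy => mul_le_mul_of_nonneg_left (hf y hy) (h.1 y hy)

lemma Pr.norm_le (h : Pr T ω) {u : Y → ℂ} {c : ℝ} (hu : ∀ y ∈ T, ‖u y‖ ≤ c) : ‖Ex T ω u‖ ≤ c := by
  refine (norm_sum_le _ _).trans (le_trans (le_of_eq ?_) (h.sum_le hu))
  refine sum_congr rfl fun y hy => ?_
  rw [norm_mul, Complex.norm_real, Real.norm_of_nonneg (h.1 y hy)]

lemma Pr.sub_le (h : Pr T ω) {u v : Y → ℂ} {c : ℝ} (hu : ∀ y ∈ T, ‖u y - v y‖ ≤ c) :
    ‖Ex T ω u - Ex T ω v‖ ≤ c := by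
  refine le_trans (le_of_eq ?_) (h.norm_le hu)
  simp only [Ex, mul_sub, sum_sub_distrib]

lemma Pr.qf_eq (h : Pr T ω) {u : Y → ℂ} (hu : ∀ y, ‖u y‖ = 1) :
    Qf T ω u = 2 - 2 * ‖Ex T ω u‖ ^ 2 := by
  have h1 : ∀ y z, ‖u y - u z‖ ^ 2 = 2 - 2 * (u y * conj (u z)).re := fun y z => by
    rw [← Complex.normSq_eq_norm_sq, Complex.normSq_sub, Complex.normSq_eq_norm_sq,
      Complex.normSq_eq_norm_sq, hu, hu]
    ring
  have h2 : ‖Ex T ω u‖ ^ 2 = ∑ y ∈ T, ω y * ∑ z ∈ T, ω z * (u y * conj (u z)).re := by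
    have h3 : ‖Ex T ω u‖ ^ 2 = (Ex T ω u * conj (Ex T ω u)).re := by
      rw [Complex.mul_conj, Complex.normSq_eq_norm_sq, Complex.ofReal_re]
    rw [h3, Ex, map_sum, sum_mul_sum, Complex.re_sum]
    refine sum_congr rfl fun y _ => ?_
    rw [Complex.re_sum, mul_sum]
    refine sum_congr rfl fun z _ => ?_
    rw [map_mul, Complex.conj_ofReal, ← Complex.re_ofReal_mul, ← Complex.re_ofReal_mul]
    congr 1
    ring
  rw [h2, Qf, mul_sum]
  have h4 : (2 : ℝ) = ∑ y ∈ T, ω y * 2 := by rw [← sum_mul, h.2, one_mul]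
  refine Eq.trans ?_ (congrArg (· - _) h4.symm)
  rw [← sum_sub_distrib]
  refine sum_congr rfl fun y _ => ?_
  simp only [h1, mul_sub, sum_sub_distrib, ← h4, mul_sum]
  congr 1
  exact sum_congr rfl fun z _ => by ring

lemma Pr.qf_le (h : Pr T ω) {u : Y → ℂ} (hu : ∀ y, ‖u y‖ = 1) :
    Qf T ω u ≤ 4 * (1 - ‖Ex T ω u‖) := by
  rw [h.qf_eq hu]
  nlinarith [sq_nonneg (1 - ‖Ex T ω u‖)]

lemma Pr.le_qf (h : Pr T ω) {u : Y → ℂ} (hu : ∀ y, ‖u y‖ = 1) :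
    2 * (1 - ‖Ex T ω u‖) ≤ Qf T ω u := by
  rw [h.qf_eq hu]
  nlinarith [h.norm_le fun y _ => (hu y).le, norm_nonneg (Ex T ω u)]

lemma Pr.qf_comb (h : Pr T ω) {f : Y → Y → ℝ} {u v : Y → ℂ} {a b c : ℝ}
    (hf : ∀ y ∈ T, ∀ z ∈ T, f y z ≤ a * ‖u y - u z‖ ^ 2 + b * ‖v y - v z‖ ^ 2 + c) :
    ∑ y ∈ T, ω y * ∑ z ∈ T, ω z * f y z ≤ a * Qf T ω u + b * Qf T ω v + c := by
  have h4 : ∑ y ∈ T, ω y * c = c := by rw [← sum_mul, h.2, one_mul]
  refine (h.mono fun y hy => h.mono fun z hz => hf y hy z hz).trans (le_of_eq ?_)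
  simp only [Qf, mul_add, sum_add_distrib, h4, mul_sum]
  congr 2 <;> exact sum_congr rfl fun y _ => sum_congr rfl fun z _ => by ring

lemma sq_mul_le {a b c d : ℂ} (ha : ‖a‖ = 1) (hd : ‖d‖ = 1) :
    ‖a * b - c * d‖ ^ 2 ≤ 2 * ‖a - c‖ ^ 2 + 2 * ‖b - d‖ ^ 2 := by
  have h1 : ‖a * b - c * d‖ ≤ ‖a - c‖ + ‖b - d‖ := by
    rw [show a * b - c * d = (a - c) * d + a * (b - d) by ring]
    refine (norm_add_le _ _).trans ?_
    rw [norm_mul, norm_mul, ha, hd, mul_one, one_mul]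
  nlinarith [norm_nonneg (a * b - c * d), sq_nonneg (‖a - c‖ - ‖b - d‖)]

lemma Pr.qf_mul (h : Pr T ω) {u v : Y → ℂ} (hu : ∀ y, ‖u y‖ = 1) (hv : ∀ y, ‖v y‖ = 1) :
    Qf T ω (fun y => u y * v y) ≤ 2 * Qf T ω u + 2 * Qf T ω v := by
  have := h.qf_comb (u := u) (v := v) (a := 2) (b := 2) (c := 0)
    (f := fun y z => ‖u y * v y - u z * v z‖ ^ 2) fun y _ z _ => by
      rw [add_zero]
      exact sq_mul_le (hu y) (hv z)
  rwa [add_zero] at this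

lemma Pr.qf_pow (h : Pr T ω) {u : Y → ℂ} (hu : ∀ y, ‖u y‖ = 1) (l : ℕ) :
    Qf T ω (fun y => u y ^ l) ≤ (l : ℝ) ^ 2 * Qf T ω u := by
  have := h.qf_comb (u := u) (v := u) (a := (l : ℝ) ^ 2) (b := 0) (c := 0)
    (f := fun y z => ‖u y ^ l - u z ^ l‖ ^ 2) fun y _ z _ => by
      rw [add_zero, zero_mul, add_zero, ← mul_pow]
      exact pow_le_pow_left₀ (norm_nonneg _) (pow_sub_le (hu y).le (hu z).le l) 2
  rwa [add_zero, zero_mul, add_zero] at this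

lemma Pr.def_mul (h : Pr T ω) {u v : Y → ℂ} (hu : ∀ y, ‖u y‖ = 1) (hv : ∀ y, ‖v y‖ = 1) :
    1 - ‖Ex T ω fun y => u y * v y‖ ≤ 4 * (1 - ‖Ex T ω u‖) + 4 * (1 - ‖Ex T ω v‖) := by
  have h1 := h.le_qf (u := fun y => u y * v y) fun y => by rw [norm_mul, hu, hv, mul_one]
  linarith [h.qf_mul hu hv, h.qf_le hu, h.qf_le hv]

lemma Pr.def_pow (h : Pr T ω) {u : Y → ℂ} (hu : ∀ y, ‖u y‖ = 1) (l : ℕ) :
    1 - ‖Ex T ω fun y => u y ^ l‖ ≤ 2 * (l : ℝ) ^ 2 * (1 - ‖Ex T ω u‖) := by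
  have h1 := h.le_qf (u := fun y => u y ^ l) fun y => by rw [norm_pow, hu, one_pow]
  nlinarith [h.qf_pow hu l, mul_le_mul_of_nonneg_left (h.qf_le hu) (sq_nonneg (l : ℝ))]

/-! Fourier analysis of tuples -/

variable {G J : Type} [AddCommGroup G] [Fintype J] {ψ : J → AddChar G ℂ} {n : ℝ} {φ : Y → G}

lemma char_sum (χ : AddChar G ℂ) {κ : Type} (s : Finset κ) (g : κ → G) :
    χ (∑ i ∈ s, g i) = ∏ i ∈ s, χ (g i) := by
  induction s using Finset.induction_on with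
  | empty => simp
  | insert a s ha ih => rw [sum_insert ha, prod_insert ha, AddChar.map_add_eq_mul, ih]

lemma ex_pow (χ : AddChar G ℂ) (m : ℕ) : Ex T ω (fun y => χ (φ y)) ^ m =
    ∑ f ∈ Fintype.piFinset (fun _ : Fin m => T), ((∏ i, ω (f i) : ℝ) : ℂ) * χ (∑ i, φ (f i)) := by
  rw [Ex, sum_pow']
  refine sum_congr rfl fun f _ => ?_
  rw [prod_mul_distrib, char_sum, Complex.ofReal_prod]

lemma inversion (ho : ∀ g, ∑ j, ψ j g = if g = 0 then (n : ℂ) else 0) (m : ℕ) (τ : G) :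
    ((n * tupP T ω φ m τ : ℝ) : ℂ) = ∑ j, Ex T ω (fun y => ψ j (φ y)) ^ m * ψ j (-τ) := by
  simp only [ex_pow, sum_mul]
  rw [sum_comm, tupP, mul_sum, Complex.ofReal_sum]
  refine sum_congr rfl fun f _ => ?_
  simp only [mul_assoc, ← AddChar.map_add_eq_mul, ← mul_sum, ho, add_neg_eq_zero]
  split_ifs <;> simp [mul_comm]

lemma sum_prod_w (h : Pr T ω) (m : ℕ) : Pr (Fintype.piFinset fun _ : Fin m => T)
    fun f => ∏ i, ω (f i) :=
  ⟨fun f hf => prod_nonneg fun i _ => h.1 _ (Fintype.mem_piFinset.1 hf i), by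
    rw [← sum_pow', h.2, one_pow]⟩

lemma parseval [Finite G] (ho : ∀ g, ∑ j, ψ j g = if g = 0 then (n : ℂ) else 0) (h : Pr T ω)
    (m : ℕ) {D : ℝ} (hD : ∀ τ, n * tupP T ω φ m τ ≤ D) :
    ∑ j, ‖Ex T ω fun y => ψ j (φ y)‖ ^ (2 * m) ≤ D := by
  have h1 : ((∑ j, ‖Ex T ω fun y => ψ j (φ y)‖ ^ (2 * m) : ℝ) : ℂ) =
      ((∑ f ∈ Fintype.piFinset (fun _ : Fin m => T),
        (∏ i, ω (f i)) * (n * tupP T ω φ m (∑ i, φ (f i))) : ℝ) : ℂ) := by
    rw [Complex.ofReal_sum, Complex.ofReal_sum]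
    simp only [Complex.ofReal_mul (∏ i, ω _), inversion ho, mul_sum]
    rw [sum_comm]
    refine sum_congr rfl fun j _ => ?_
    rw [mul_comm 2, pow_mul, ← norm_pow, ← Complex.normSq_eq_norm_sq, ← Complex.mul_conj]
    nth_rewrite 2 [ex_pow]
    rw [map_sum, mul_sum]
    refine sum_congr rfl fun f _ => ?_
    rw [map_mul, Complex.conj_ofReal, AddChar.map_neg_eq_conj]
    ring
  rw [Complex.ofReal_injective h1]
  exact (sum_prod_w h m).sum_le fun f _ => hD _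

lemma tupP_succ (m : ℕ) (τ : G) :
    tupP T ω φ (m + 1) τ = ∑ y ∈ T, ω y * tupP T ω φ m (τ - φ y) := by
  unfold tupP
  simp only [mul_sum]
  rw [← sum_product']
  refine sum_nbij' (fun f => (f 0, Fin.tail f)) (fun p => Fin.cons p.1 p.2) ?_ ?_ ?_ ?_ ?_
  · intro f hf
    have := Fintype.mem_piFinset.1 hf
    exact mem_product.2 ⟨this 0, Fintype.mem_piFinset.2 fun i => this _⟩
  · intro p hp
    refine Fintype.mem_piFinset.2 fun i => ?_
    refine Fin.cases ?_ (fun i => ?_) i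
    · exact (mem_product.1 hp).1
    · exact Fintype.mem_piFinset.1 (mem_product.1 hp).2 i
  · intro f _
    exact Fin.cons_self_tail f
  · intro p _
    simp
  · intro f _
    simp only [Fin.sum_univ_succ, Fin.prod_univ_succ, Fin.tail, eq_sub_iff_add_eq', mul_ite,
      mul_zero]

lemma tupP_sup (h : Pr T ω) {j : ℕ} {D : ℝ} (hD : ∀ τ, n * tupP T ω φ j τ ≤ D) {m : ℕ}
    (hm : j ≤ m) : ∀ τ, n * tupP T ω φ m τ ≤ D := by
  induction m, hm using Nat.le_induction with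
  | base => exact hD
  | succ m _ ih =>
    intro τ
    rw [tupP_succ, mul_sum]
    refine le_trans (le_of_eq (sum_congr rfl fun y _ => ?_)) (h.sum_le fun y _ => ih (τ - φ y))
    ring

lemma tupP_mono {T' : Finset Y} {ω' : Y → ℝ} (hT : T' ⊆ T) (h : ∀ y ∈ T, 0 ≤ ω y)
    (h' : ∀ y ∈ T', 0 ≤ ω' y ∧ ω' y ≤ 2 * ω y) (m : ℕ) (τ : G) :
    tupP T' ω' φ m τ ≤ 2 ^ m * tupP T ω φ m τ := by
  unfold tupP
  rw [mul_sum]
  refine le_trans (sum_le_sum fun f hf => ?_) (sum_le_sum_of_subset_of_nonneg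
    (Fintype.piFinset_subset _ _ fun _ => hT) fun f hf _ => ?_)
  · have h1 := Fintype.mem_piFinset.1 hf
    split_ifs
    · refine (prod_le_prod (fun i _ => (h' _ (h1 i)).1) fun i _ => (h' _ (h1 i)).2).trans ?_
      rw [prod_mul_distrib, prod_const, card_univ, Fintype.card_fin]
    · simp
  · have h1 := Fintype.mem_piFinset.1 hf
    split_ifs
    · exact mul_nonneg (by positivity) (prod_nonneg fun i _ => h _ (h1 i))
    · simp

/-! Finite sets of characters closed under products -/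

lemma image_mul {A : Type} [CommGroup A] {Γ : Finset A} (h : ∀ a ∈ Γ, ∀ b ∈ Γ, a * b ∈ Γ) {a : A}
    (ha : a ∈ Γ) : Γ.image (a * ·) = Γ :=
  eq_of_subset_of_card_le (fun b hb => by
    obtain ⟨c, hc, rfl⟩ := mem_image.1 hb
    exact h a ha c hc) (card_image_of_injective _ (mul_right_injective a)).ge

lemma pow_card {A : Type} [CommGroup A] {Γ : Finset A} (h : ∀ a ∈ Γ, ∀ b ∈ Γ, a * b ∈ Γ) {a : A}
    (ha : a ∈ Γ) : a ^ Γ.card = 1 := by
  have h1 : ∏ b ∈ Γ, b = ∏ b ∈ Γ, a * b := by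
    nth_rewrite 1 [← image_mul h ha]
    exact prod_image fun b _ c _ hbc => mul_right_injective a hbc
  rw [prod_mul_distrib, prod_const] at h1
  exact (mul_eq_right.1 h1.symm)

lemma sum_sq [Finite G] {Γ : Finset (AddChar G ℂ)} (h : ∀ a ∈ Γ, ∀ b ∈ Γ, a * b ∈ Γ)
    {a : AddChar G ℂ} (ha : a ∈ Γ) {g g' : G} (hg : a g ≠ a g') :
    ∑ χ ∈ Γ, ‖χ g - χ g'‖ ^ 2 = 2 * Γ.card := by
  have h1 : ∑ χ ∈ Γ, χ (g - g') = ∑ χ ∈ Γ, a (g - g') * χ (g - g') := by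
    nth_rewrite 1 [← image_mul h ha]
    exact sum_image fun b _ c _ hbc => mul_right_injective a hbc
  have h2 : ∑ χ ∈ Γ, χ (g - g') = 0 := by
    rw [← mul_sum] at h1
    by_contra h3
    refine hg ?_
    rw [← sub_add_cancel g g', AddChar.map_add_eq_mul,
      mul_right_cancel₀ h3 (h1.symm.trans (one_mul _).symm), one_mul]
  have h3 : ∀ χ : AddChar G ℂ, ‖χ g - χ g'‖ ^ 2 = 2 - 2 * (χ (g - g')).re := fun χ => by
    rw [← Complex.normSq_eq_norm_sq, Complex.normSq_sub, Complex.normSq_eq_norm_sq,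
      Complex.normSq_eq_norm_sq, χ.norm_apply, χ.norm_apply, ← AddChar.map_neg_eq_conj,
      ← AddChar.map_add_eq_mul, ← sub_eq_add_neg]
    ring
  simp only [h3, sum_sub_distrib, ← mul_sum, ← Complex.re_sum, h2]
  simp [mul_comm]

end LA

end

end Pool.Agent.Lib.BK2
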