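import Mathlib

/-! BK2, section L: the abstract local limit theorem. Definitions and block statements. -/

set_option linter.unusedVariables false

namespace Pool.Agent.Lib.BK2

open Finset
open scoped Classical

/-- `e(x) = exp(2 pi i x)`. -/
noncomputable def ee (x : ℝ) : ℂ := Complex.exp (2 * Real.pi * x * Complex.I)

/-- characteristic function of the weights `w` at the points `a`. -/
noncomputable def chf {ι : Type} (S : Finset ι) (w a : ι → ℝ) (θ : ℝ) : ℂ :=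
  ∑ i ∈ S, (w i : ℂ) * ee (θ * a i)

/-- the frequencies `|t| ≤ P/2`. -/
noncomputable def frq (P : ℕ) : Finset ℤ := Finset.Icc (-((P / 2 : ℕ) : ℤ)) ((P / 2 : ℕ) : ℤ)

/-- the trigonometric model `D_m(s)`. -/
noncomputable def Dm {ι : Type} (S : Finset ι) (w a : ι → ℝ) (P m : ℕ) (s : ℝ) : ℝ :=
  (1 / (P : ℝ)) * ∑ t ∈ frq P, (chf S w a (t / P) ^ m * ee (-(t / P * s))).re

/-- a probability on `[1,2]` with variance at least `c0`. -/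
structure Law {ι : Type} (S : Finset ι) (w a : ι → ℝ) (c0 : ℝ) : Prop where
  nn : ∀ i ∈ S, 0 ≤ w i
  one : ∑ i ∈ S, w i = 1
  lo : ∀ i ∈ S, 1 ≤ a i
  hi : ∀ i ∈ S, a i ≤ 2
  var : c0 ≤ ∑ i ∈ S, w i * (a i - ∑ j ∈ S, w j * a j) ^ 2

def St_MOD : Prop :=
  ∀ c0 : ℝ, 0 < c0 → ∃ (c K : ℝ) (k0 : ℕ), 0 < c ∧ 0 < K ∧ 4 ≤ k0 ∧
    ∀ (ι : Type) (S : Finset ι) (w a : ι → ℝ), Law S w a c0 → ∀ k P : ℕ, k0 ≤ k → k ≤ P →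
      ∀ s0 : ℝ, s0 = k * ∑ j ∈ S, w j * a j →
      c / Real.sqrt k ≤ Dm S w a P k s0 ∧
      (∀ m : ℕ, k ≤ m + 2 → ∀ s : ℝ, |Dm S w a P m s| ≤ K / Real.sqrt k) ∧
      (∀ m : ℕ, k ≤ m + 2 → ∀ s s' : ℝ, |Dm S w a P m s - Dm S w a P m s'| ≤ K * |s - s'| / k) ∧
      (∀ (m : ℕ) (s : ℝ), Dm S w a P (m + 1) s = ∑ i ∈ S, w i * Dm S w a P m (s - a i)) ∧
      (∀ b : ℝ, 1 ≤ b → b ≤ 2 →
        |Dm S w a P (k - 1) (s0 - b) / Dm S w a P k s0 - 1| ≤ K / Real.sqrt k ∧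
        |Dm S w a P (k - 1) (s0 - b) / Dm S w a P k s0 - 1| ≤ 1 / 2) ∧
      (∀ b : ℝ, 2 ≤ b → b ≤ 4 →
        |Dm S w a P (k - 2) (s0 - b) / Dm S w a P k s0 - 1| ≤ K / Real.sqrt k ∧
        |Dm S w a P (k - 2) (s0 - b) / Dm S w a P k s0 - 1| ≤ 1 / 2) ∧
      (∀ (κ : Type) (T : Finset κ) (μ b f : κ → ℝ), (∀ x ∈ T, 0 ≤ μ x) → ∑ x ∈ T, μ x ≤ 2 →
        (∀ x ∈ T, 1 ≤ b x ∧ b x ≤ 2) → ∑ x ∈ T, μ x * f x = 0 → ∑ x ∈ T, μ x * f x * b x = 0 →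
        |∑ x ∈ T, ∑ y ∈ T, μ x * f x * (μ y * f y) *
            (Dm S w a P (k - 2) (s0 - (b x + b y)) / Dm S w a P k s0)|
          ≤ K / (k : ℝ) ^ 2 * ∑ x ∈ T, μ x * f x ^ 2 ∧
        |∑ x ∈ T, μ x * f x * (Dm S w a P (k - 1) (s0 - b x) / Dm S w a P k s0)|
          ≤ K / (k : ℝ) * Real.sqrt (∑ x ∈ T, μ x * f x ^ 2))


open Classical in
/-- weight of the `m`-tuples from `S` whose images add up to `τ`. -/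
noncomputable def tupP {Ω G : Type} [AddCommGroup G] (S : Finset Ω) (w : Ω → ℝ) (φ : Ω → G)
    (m : ℕ) (τ : G) : ℝ :=
  ∑ f ∈ Fintype.piFinset (fun _ : Fin m => S), if ∑ i, φ (f i) = τ then ∏ i, w (f i) else 0

/-- the finite model group. -/
abbrev FG (H : Type) (s N1 : ℕ) : Type := H × (Fin s → ZMod N1) × ZMod N1

/-- position of a point `x` with noise `o`, `i`. -/
def fpos {ι Ω H : Type} {s N1 : ℕ} (h : ι → H) (v : ι → Ω → Fin s → ZMod N1) (l : ι → Ω → ℤ)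
    (y : ι × Ω × ℕ) : FG H s N1 := (h y.1, v y.1 y.2.1, ((l y.1 y.2.1 + y.2.2 : ℤ) : ZMod N1))

/-- normalised density of `m` noisy points of `M` at `τ`. -/
noncomputable def fden {ι Ω H : Type} [AddCommGroup H] [Fintype H] {s N1 : ℕ} (M : Finset ι)
    (w : ι → ℝ) (B : Finset Ω) (L1 : ℕ) (h : ι → H) (v : ι → Ω → Fin s → ZMod N1)
    (l : ι → Ω → ℤ) (m : ℕ) (τ : FG H s N1) : ℝ :=
  (Fintype.card H * (N1 : ℝ) ^ (s + 1)) *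
    tupP (M ×ˢ B ×ˢ range L1) (fun y => w y.1 / ((∑ x ∈ M, w x) * B.card * L1)) (fpos h v l) m τ

/-- The abstract local limit theorem (from LF, L1, L2, L3); this is what section N uses. -/
def St_ALLT : Prop :=
  ∀ (C c0 : ℝ) (j : ℕ), 0 < C → 0 < c0 → 1 ≤ j →
  ∃ (C1 L0 P0 : ℕ) (b0 K : ℝ), 0 < b0 ∧ 0 < K ∧
  ∀ (ι Ω H κ : Type) [AddCommGroup H] [Fintype H] (s N1 P L1 : ℕ) (S : Finset ι) (w a : ι → ℝ)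
    (B : Finset Ω) (h : ι → H) (v : ι → Ω → Fin s → ZMod N1) (l : ι → Ω → ℤ)
    (Sb : Finset κ) (wb ab : κ → ℝ) (η η1 : ℝ),
    N1.Prime → C1 < N1 → P ≤ N1 → P0 ≤ P → L0 ≤ L1 → B.Nonempty → Law S w a c0 → Law Sb wb ab c0 →
    0 < η → 0 < η1 →
    (∀ x ∈ S, ∀ o ∈ B, ∀ i < L1, |((l x o + i : ℤ) : ℝ) * P / N1 - a x| ≤ η) →
    (∀ t ∈ frq P, ‖chf S w a (t / P) - chf Sb wb ab (t / P)‖ ≤ η1) →
    (∀ τ, fden S w B L1 h v l j τ ≤ C * P) →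
    ∃ Z : Finset ℝ, Z.card ≤ C1 ∧ ∀ b1 b2 : ℝ, 0 < b1 → b2 ≤ b0 → K * Real.sqrt (b1 + η) ≤ b2 →
      (∀ β ∈ Z, β ≤ b1 ∨ b2 < β) →
      ∃ (M : Finset ι) (γ : ℕ), M ⊆ S ∧ 1 ≤ γ ∧ γ ≤ C1 ∧
        1 - K * Real.sqrt (b1 + η) ≤ ∑ x ∈ M, w x ∧
        (∀ m, j ≤ m → ∀ τ, fden M w B L1 h v l m τ ≤ K * P) ∧
        ∀ (k i : ℕ) (X : Fin i → ι), C1.factorial ∣ k → 2 * j + 2 ≤ k → i ≤ 2 → (∀ r, X r ∈ M) →
          ∀ (h0 : H) (v0 : Fin s → ZMod N1) (l0 : ℤ),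
            |fden M w B L1 h v l (k - i) (C1.factorial • h0 - ∑ r, h (X r), v0, (l0 : ZMod N1))
                / (P * γ) - Dm Sb wb ab P (k - i) (l0 * P / N1)|
              ≤ K * (1 - b2 / 2) ^ k + K * k * (Real.sqrt (b1 + η) + η1)

/-! ### Random walks on `G₀ × ZMod N` -/

section walk

variable {G₀ κ : Type} [AddCommGroup G₀] {N : ℕ} [NeZero N]

/-- The character `(χ, t)`. -/
noncomputable def chL (χ : AddChar G₀ ℂ) (t : ZMod N) (y : G₀ × ZMod N) : ℂ :=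
  χ y.1 * ZMod.stdAddChar (t * y.2)

/-- The Fourier transform of the weights `w` at the positions `p`. -/
noncomputable def hat (T : Finset κ) (w : κ → ℝ) (p : κ → G₀ × ZMod N) (χ : AddChar G₀ ℂ)
    (t : ZMod N) : ℂ := ∑ x ∈ T, (w x : ℂ) * chL χ t (p x)

/-- The residue `u` has an integer lift `z` with `z P / N` within `η` of `s`. -/
def Nr (P : ℕ) (u : ZMod N) (s η : ℝ) : Prop := ∃ z : ℤ, u = z ∧ |(z : ℝ) * P / N - s| ≤ η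

/-- A law on `[1,2]` together with positions whose last coordinate is about `a N / P`. -/
structure FamL (P : ℕ) (T : Finset κ) (w a : κ → ℝ) (p : κ → G₀ × ZMod N) (c0 η : ℝ) : Prop where
  law : Law T w a c0
  pos : ∀ x ∈ T, Nr P (p x).2 (a x) η
  le : η ≤ 1
  one : 1 ≤ P
  lt : 2 * (P / 2) < N

/-- Large Fourier coefficients have a small last frequency. -/
def Wrap (T : Finset κ) (w : κ → ℝ) (p : κ → G₀ × ZMod N) (C1 : ℕ) : Prop :=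
  ∀ χ t, 1 / 2 ≤ ‖hat T w p χ t‖ → 2 * C1 * t.valMinAbs.natAbs < N

/-- The density bound at step `j`. -/
def Dens [Fintype G₀] (P : ℕ) (T : Finset κ) (w : κ → ℝ) (p : κ → G₀ × ZMod N) (j : ℕ) (C : ℝ) :
    Prop := ∀ y, tupP T w p j y ≤ C * P / (Fintype.card G₀ * N)

end walk

/-- Finite Fourier analysis. -/
structure St_LF : Prop where
  lip : ∀ x y : ℝ, ‖ee x - ee y‖ ≤ 7 * |x - y|
  low : ∀ x : ℝ, |x| ≤ 1 / 2 → 4 * |x| ≤ ‖1 - ee x‖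
  std : ∀ (N : ℕ) [NeZero N] (z : ℤ), ZMod.stdAddChar (z : ZMod N) = ee (z / N)
  var : ∀ (ι : Type) (S : Finset ι) (w a : ι → ℝ) (c0 θ : ℝ), Law S w a c0 → |θ| ≤ 1 / 2 →
    ‖chf S w a θ‖ ≤ 1 - 8 * c0 * θ ^ 2
  inv : ∀ (G₀ κ : Type) [AddCommGroup G₀] [Fintype G₀] (N : ℕ) [NeZero N] (T : Finset κ)
    (w : κ → ℝ) (p : κ → G₀ × ZMod N) (m : ℕ) (y : G₀ × ZMod N),
    (tupP T w p m y : ℂ) * (Fintype.card G₀ * N) =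
      ∑ χ : AddChar G₀ ℂ, ∑ t : ZMod N, hat T w p χ t ^ m * chL χ t (-y)
  par : ∀ (G₀ κ : Type) [AddCommGroup G₀] [Fintype G₀] (N : ℕ) [NeZero N] (T : Finset κ)
    (w : κ → ℝ) (p : κ → G₀ × ZMod N) (j : ℕ) (B : ℝ), (∀ x ∈ T, 0 ≤ w x) → ∑ x ∈ T, w x = 1 →
    (∀ y, tupP T w p j y ≤ B) →
      ∑ χ : AddChar G₀ ℂ, ∑ t : ZMod N, ‖hat T w p χ t‖ ^ (2 * j) ≤ B * (Fintype.card G₀ * N)
  le : ∀ (G₀ κ : Type) [AddCommGroup G₀] [Fintype G₀] (N : ℕ) [NeZero N] (T : Finset κ)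
    (w : κ → ℝ) (p : κ → G₀ × ZMod N), (∀ x ∈ T, 0 ≤ w x) → ∀ χ t,
      ‖hat T w p χ t‖ ≤ ∑ x ∈ T, w x
  neg : ∀ (G₀ κ : Type) [AddCommGroup G₀] [Fintype G₀] (N : ℕ) [NeZero N] (T : Finset κ)
    (w : κ → ℝ) (p : κ → G₀ × ZMod N) χ t, ‖hat T w p χ⁻¹ (-t)‖ = ‖hat T w p χ t‖
  tri : ∀ (G₀ κ : Type) [AddCommGroup G₀] [Fintype G₀] (N : ℕ) [NeZero N] (T : Finset κ)
    (w : κ → ℝ) (p : κ → G₀ × ZMod N), (∀ x ∈ T, 0 ≤ w x) → ∑ x ∈ T, w x = 1 → ∀ χ χ' t t',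
      √(1 - ‖hat T w p (χ * χ') (t + t')‖) ≤ √(1 - ‖hat T w p χ t‖) + √(1 - ‖hat T w p χ' t'‖)
  pow : ∀ (G₀ κ : Type) [AddCommGroup G₀] [Fintype G₀] (N : ℕ) [NeZero N] (T : Finset κ)
    (w : κ → ℝ) (p : κ → G₀ × ZMod N), (∀ x ∈ T, 0 ≤ w x) → ∑ x ∈ T, w x = 1 → ∀ χ t (r : ℕ),
      1 - ‖hat T w p (χ ^ r) (r * t)‖ ≤ r ^ 2 * (1 - ‖hat T w p χ t‖)
  shift : ∀ (G₀ κ : Type) [AddCommGroup G₀] [Fintype G₀] (N : ℕ) [NeZero N] (P : ℕ) (T : Finset κ)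
    (w a : κ → ℝ) (p : κ → G₀ × ZMod N) (c0 η : ℝ), FamL P T w a p c0 η → ∀ χ t (τ : ℤ),
      ‖hat T w p χ (t + τ) - hat T w p χ t‖ ≤ 21 * |(τ : ℝ)| / P
  cmp : ∀ (G₀ κ : Type) [AddCommGroup G₀] [Fintype G₀] (N : ℕ) [NeZero N] (P : ℕ) (T : Finset κ)
    (w a : κ → ℝ) (p : κ → G₀ × ZMod N) (c0 η : ℝ), FamL P T w a p c0 η → ∀ τ ∈ frq P,
      ‖hat T w p 1 τ - chf T w a (τ / P)‖ ≤ 4 * η

/-- Few large coefficients (from LF). -/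
def St_L1 : Prop := ∀ (G₀ κ : Type) [AddCommGroup G₀] [Fintype G₀] (N : ℕ) [NeZero N] (P : ℕ)
  (T : Finset κ) (w a : κ → ℝ) (p : κ → G₀ × ZMod N) (c0 η C : ℝ) (j C1 : ℕ),
  FamL P T w a p c0 η → 1 ≤ j → Dens P T w p j C → 336 * C * j ≤ C1 → 1 ≤ C1 →
    (∀ B : Finset (AddChar G₀ ℂ), (∀ χ ∈ B, ∃ t, 1 - 1 / (8 * j : ℝ) ≤ ‖hat T w p χ t‖) →
      B.card ≤ C1) ∧
    (Wrap T w p C1 → ∀ t, 1 - 1 / (8 * j * C1 ^ 2 : ℝ) ≤ ‖hat T w p 1 t‖ →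
      ∃ τ ∈ frq P, t = τ)

/-- The group of bad characters and the majority set (from LF, L1). -/
def St_L2 : Prop := ∀ (C1 : ℕ) (c0 : ℝ), 0 < c0 → ∃ K : ℝ, 0 < K ∧
  ∀ (G₀ κ : Type) [AddCommGroup G₀] [Fintype G₀] (N : ℕ) [NeZero N] (P : ℕ)
    (T : Finset κ) (w a : κ → ℝ) (p : κ → G₀ × ZMod N) (η C : ℝ) (j : ℕ),
    FamL P T w a p c0 η → 1 ≤ j → Dens P T w p j C → 336 * C * j ≤ C1 → 1 ≤ C1 → Wrap T w p C1 →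
    ∀ b1 b2 : ℝ, 0 ≤ b1 → 4 * b1 ≤ b2 → b2 ≤ 1 / (8 * j : ℝ) →
      C1 ^ 2 * b1 ≤ 1 / (8 * j * C1 ^ 2 : ℝ) →
      (∀ χ, (∃ t, 1 - b1 ≤ ‖hat T w p χ t‖) ∨ ∀ t, ‖hat T w p χ t‖ < 1 - b2) →
      ∃ (Γ : Finset (AddChar G₀ ℂ)) (c : AddChar G₀ ℂ → ℂ), 1 ∈ Γ ∧ Γ.card ≤ C1 ∧
        (∀ χ ∈ Γ, χ ^ C1.factorial = 1) ∧ (∀ χ ∉ Γ, ∀ t, ‖hat T w p χ t‖ < 1 - b2) ∧
        1 - K * √(b1 + η) ≤ ∑ x ∈ T.filter fun x => ∀ χ ∈ Γ, χ (p x).1 = c χ, w x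

/-- The local limit theorem on the majority set (from LF). -/
def St_L3 : Prop := ∀ (G₀ κ : Type) [AddCommGroup G₀] [Fintype G₀] (N : ℕ) [NeZero N] (P : ℕ)
  (T : Finset κ) (w a : κ → ℝ) (p : κ → G₀ × ZMod N) (c0 η C : ℝ) (j : ℕ),
  FamL P T w a p c0 η → 1 ≤ j → Dens P T w p j C → ∀ (M : Finset κ) (ε b : ℝ), M ⊆ T →
    1 - ε ≤ ∑ x ∈ M, w x → 4 * ε ≤ b → b ≤ 1 →
    ∀ (Γ : Finset (AddChar G₀ ℂ)) (c : AddChar G₀ ℂ → ℂ), 1 ∈ Γ →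
    (∀ x ∈ M, ∀ χ ∈ Γ, χ (p x).1 = c χ) → (∀ χ ∉ Γ, ∀ t, ‖hat T w p χ t‖ ≤ 1 - b) →
    (∀ t : ZMod N, (∀ τ ∈ frq P, t ≠ (τ : ZMod N)) → ‖hat T w p 1 t‖ ≤ 1 - b) →
    ∀ (ι : Type) (S : Finset ι) (w' a' : ι → ℝ) (η1 : ℝ), (∀ i ∈ S, 0 ≤ w' i) →
    ∑ i ∈ S, w' i = 1 → (∀ τ ∈ frq P, ‖chf T w a (τ / P) - chf S w' a' (τ / P)‖ ≤ η1) →
    ∀ (m : ℕ) (y : G₀ × ZMod N) (s : ℝ), 2 * j ≤ m → (∀ χ ∈ Γ, χ y.1 = c χ ^ m) →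
    Nr P y.2 s η1 →
      |Fintype.card G₀ * N / (P * Γ.card) * tupP M (fun x => w x / ∑ x ∈ M, w x) p m y -
        Dm S w' a' P m s| ≤ 2 ^ j * C * (1 - b / 2) ^ (m - 2 * j) + 20 * m * (ε + η + η1)

end Pool.Agent.Lib.BK2
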