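import Pool.Agent.Lib.BK2.LGlueA

/-! BK2, section L: the local limit theorem from the blocks LF, L1, L2, L3. -/

set_option linter.unusedVariables false

namespace Pool.Agent.Lib.BK2

open Finset
open scoped Classical

namespace GLUE

theorem num (j k i : ℕ) (C K K2 b r η η1 : ℝ) (hC : 0 < C) (hK2 : 0 < K2)
    (hK : K = 20 * (K2 + 1) + 2 ^ (3 * j + 2) * C) (hb0 : 0 ≤ b) (hb : b ≤ 1) (hr : 0 ≤ r)
    (hη : η ≤ r) (hη0 : 0 ≤ η) (hη1 : 0 ≤ η1) (hk : 2 * j + 2 ≤ k) (hi : i ≤ 2) :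
    2 ^ j * C * (1 - b / 2) ^ (k - i - 2 * j) + 20 * ((k - i : ℕ) : ℝ) * (K2 * r + η + η1) ≤
      K * (1 - b / 2) ^ k + K * k * (r + η1) := by
  have h2 : (1 : ℝ) / 2 ≤ 1 - b / 2 := by linarith
  have h3 : 1 - b / 2 ≤ 1 := by linarith
  have h4 : (1 - b / 2) ^ (k - i - 2 * j) ≤ 2 ^ (2 * j + 2) * (1 - b / 2) ^ k := by
    have e : k = (k - (2 * j + 2)) + (2 * j + 2) := by omega
    calc (1 - b / 2) ^ (k - i - 2 * j) ≤ (1 - b / 2) ^ (k - (2 * j + 2)) :=
          pow_le_pow_of_le_one (by linarith) h3 (by omega)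
      _ = (1 - b / 2) ^ (k - (2 * j + 2)) * (2 * (1 / 2)) ^ (2 * j + 2) := by norm_num
      _ ≤ (1 - b / 2) ^ (k - (2 * j + 2)) * (2 * (1 - b / 2)) ^ (2 * j + 2) := by gcongr
      _ = 2 ^ (2 * j + 2) * ((1 - b / 2) ^ (k - (2 * j + 2)) * (1 - b / 2) ^ (2 * j + 2)) := by
          rw [mul_pow]; ring
      _ = _ := by rw [← pow_add, ← e]
  have h5 : 2 ^ j * C * (1 - b / 2) ^ (k - i - 2 * j) ≤ K * (1 - b / 2) ^ k := by
    calc 2 ^ j * C * (1 - b / 2) ^ (k - i - 2 * j)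
        ≤ 2 ^ j * C * (2 ^ (2 * j + 2) * (1 - b / 2) ^ k) := by gcongr
      _ = (2 ^ (3 * j + 2) * C) * (1 - b / 2) ^ k := by ring
      _ ≤ K * (1 - b / 2) ^ k := by
          refine mul_le_mul_of_nonneg_right ?_ (by positivity)
          rw [hK]; linarith
  have h6 : ((k - i : ℕ) : ℝ) ≤ k := by exact_mod_cast Nat.sub_le k i
  have h7 : 20 * (K2 * r + η + η1) ≤ K * (r + η1) := by
    have : 0 ≤ 2 ^ (3 * j + 2) * C * (r + η1) := by positivity
    have : 0 ≤ K2 * η1 := by positivity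
    rw [hK]; nlinarith
  have h8 : 20 * ((k - i : ℕ) : ℝ) * (K2 * r + η + η1) ≤ K * k * (r + η1) := by
    calc 20 * ((k - i : ℕ) : ℝ) * (K2 * r + η + η1)
        = ((k - i : ℕ) : ℝ) * (20 * (K2 * r + η + η1)) := by ring
      _ ≤ k * (K * (r + η1)) := mul_le_mul h6 h7 (by positivity) (by positivity)
      _ = _ := by ring
  linarith

/-- the defect of a character. -/
noncomputable def beta {G₀ κ : Type} [AddCommGroup G₀] {N : ℕ} [NeZero N] (T : Finset κ)
    (w : κ → ℝ) (p : κ → G₀ × ZMod N) (χ : AddChar G₀ ℂ) : ℝ :=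
  1 - univ.sup' univ_nonempty fun t : ZMod N => ‖hat T w p χ t‖

theorem beta_ex {G₀ κ : Type} [AddCommGroup G₀] {N : ℕ} [NeZero N] (T : Finset κ)
    (w : κ → ℝ) (p : κ → G₀ × ZMod N) (χ : AddChar G₀ ℂ) :
    ∃ t, ‖hat T w p χ t‖ = 1 - beta T w p χ := by
  obtain ⟨t, -, ht⟩ := exists_mem_eq_sup' (univ_nonempty (α := ZMod N))
    fun t : ZMod N => ‖hat T w p χ t‖
  exact ⟨t, by unfold beta; rw [ht]; ring⟩

theorem beta_le {G₀ κ : Type} [AddCommGroup G₀] {N : ℕ} [NeZero N] (T : Finset κ)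
    (w : κ → ℝ) (p : κ → G₀ × ZMod N) (χ : AddChar G₀ ℂ) (t : ZMod N) :
    ‖hat T w p χ t‖ ≤ 1 - beta T w p χ := by
  have := le_sup' (fun t : ZMod N => ‖hat T w p χ t‖) (mem_univ t)
  unfold beta
  linarith

end GLUE

open GLUE in
theorem stALLTof (hF : St_LF) (h1 : St_L1) (h2 : St_L2) (h3 : St_L3) : St_ALLT := by
  intro C c0 j hC hc0 hj
  obtain ⟨C1, hC1, hC2⟩ : ∃ C1 : ℕ, 336 * C * j ≤ C1 ∧ 2 ≤ C1 :=
    ⟨⌈336 * C * j⌉₊ + 2, by have := Nat.le_ceil (336 * C * j); push_cast; linarith, by omega⟩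
  obtain ⟨K2, hK2, h2⟩ := h2 C1 c0 hc0
  obtain ⟨K, hK⟩ : ∃ K : ℝ, K = 20 * (K2 + 1) + 2 ^ (3 * j + 2) * C := ⟨_, rfl⟩
  have hjr : (1 : ℝ) ≤ j := by exact_mod_cast hj
  have hC1r : (2 : ℝ) ≤ C1 := by exact_mod_cast hC2
  have hKa : 20 * (K2 + 1) ≤ K := by
    have : 0 ≤ 2 ^ (3 * j + 2) * C := by positivity
    linarith
  have hKb : 2 ^ j * C ≤ K := by
    have : (2 : ℝ) ^ j ≤ 2 ^ (3 * j + 2) := pow_le_pow_right₀ (by norm_num) (by omega)
    nlinarith
  obtain ⟨b0, hb0⟩ : ∃ b0 : ℝ, b0 = 1 / (8 * j * C1 ^ 2) := ⟨_, rfl⟩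
  have hb0p : 0 < b0 := by rw [hb0]; positivity
  have hb0a : b0 ≤ 1 / (8 * j) := by
    rw [hb0]
    refine one_div_le_one_div_of_le (by positivity) ?_
    nlinarith [mul_nonneg (by positivity : (0 : ℝ) ≤ 8 * j) (by nlinarith : (0 : ℝ) ≤ C1 ^ 2 - 1)]
  have hb0b : C1 ^ 2 * b0 ≤ 1 / 8 := by
    have : C1 ^ 2 * b0 = 1 / (8 * j) := by rw [hb0]; field_simp
    rw [this]
    exact one_div_le_one_div_of_le (by norm_num) (by linarith)
  have hb0c : b0 ≤ 1 / 8 :=
    hb0a.trans (one_div_le_one_div_of_le (by norm_num) (by linarith))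
  refine ⟨C1, 2 * C1 + 1, 1, b0, K, hb0p, by linarith, ?_⟩
  intro ι Ω H κ _ _ s N1 P L1 S w a B h v l Sb wb ab η η1 hN hCN hPN hP hL hB hS hSb hη hη1 hpos
    hchf hden
  have : NeZero N1 := ⟨hN.ne_zero⟩
  have hL1 : 1 ≤ L1 := by omega
  by_cases hη' : 1 < η
  · refine ⟨∅, by simp, fun b1 b2 hb1 hb2 hb _ => ?_⟩
    exfalso
    have : 1 ≤ √(b1 + η) := Real.one_le_sqrt.2 (by linarith)
    nlinarith
  push Not at hη'
  set T := S ×ˢ B ×ˢ range L1 with hT
  set u : ι × Ω × ℕ → ℝ := fun y => w y.1 / (B.card * L1) with hu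
  set p := gp h v l with hp
  have hPr : (0 : ℝ) < P := by exact_mod_cast hP
  have hNr : (0 : ℝ) < N1 := by exact_mod_cast hN.pos
  have hGr : (0 : ℝ) < Fintype.card (H × (Fin s → ZMod N1)) := by
    exact_mod_cast Fintype.card_pos
  have hlaw : Law T u (fun y => a y.1) c0 := law_T S B L1 hB hL1 w a c0 hS
  have hfam : FamL P T u (fun y => a y.1) p c0 η := by
    refine ⟨hlaw, fun y hy => ?_, hη', hP, ?_⟩
    · simp only [hT, mem_product, mem_range] at hy
      exact ⟨l y.1 y.2.1 + y.2.2, rfl, hpos _ hy.1 _ hy.2.1 _ hy.2.2⟩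
    · have := hN.eq_two_or_odd
      omega
  have hdens : Dens P T u p j C := by
    intro y
    have := hden (y.1.1, y.1.2, y.2)
    rw [fden_eq, hS.one] at this
    simp only [div_one] at this
    rw [le_div_iff₀ (by positivity), mul_comm]
    exact this
  have hwrap : Wrap T u p C1 := wrap_T hF S B L1 C1 hB hL w hS.nn hS.one h v l
  obtain ⟨h1a, h1b⟩ := h1 _ _ N1 P T u _ p c0 η C j C1 hfam hj hdens hC1 (by omega)
  refine ⟨(univ.filter fun χ => beta T u p χ ≤ 1 / (8 * j)).image (beta T u p), ?_, ?_⟩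
  · refine card_image_le.trans (h1a _ fun χ hχ => ?_)
    obtain ⟨t, ht⟩ := beta_ex T u p χ
    exact ⟨t, by rw [ht]; linarith [(mem_filter.1 hχ).2]⟩
  intro b1 b2 hb1 hb2 hb hz
  set r := √(b1 + η) with hr
  have hr0 : 0 ≤ r := Real.sqrt_nonneg _
  have hrr : r ^ 2 = b1 + η := Real.sq_sqrt (by linarith)
  have hr1 : 20 * r ≤ b2 := by nlinarith [mul_nonneg hK2.le hr0]
  have hr2 : 20 * (K2 * r) ≤ b2 := by nlinarith
  have hb2p : 0 ≤ b2 := by linarith
  have hb1a : b1 ≤ r ^ 2 := by linarith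
  have hηr : η ≤ r := by nlinarith
  obtain ⟨Γ, c, hΓ1, hΓc, hΓp, hΓn, hΓw⟩ := h2 _ _ N1 P T u _ p η C j hfam hj hdens hC1 (by omega)
    hwrap b1 b2 hb1.le (by nlinarith) (hb2.trans hb0a) (by
      rw [← hb0]
      have e1 : r ≤ b0 := by linarith
      have e2 : r ^ 2 ≤ b0 ^ 2 := by gcongr
      have e3 : (C1 : ℝ) ^ 2 * b1 ≤ C1 ^ 2 * b0 ^ 2 := by gcongr; linarith
      nlinarith) (by
      intro χ
      by_cases hχ : beta T u p χ ≤ 1 / (8 * j)
      · rcases hz _ (mem_image_of_mem _ (mem_filter.2 ⟨mem_univ χ, hχ⟩)) with h' | h'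
        · obtain ⟨t, ht⟩ := beta_ex T u p χ
          exact Or.inl ⟨t, by rw [ht]; linarith⟩
        · exact Or.inr fun t => by linarith [beta_le T u p χ t]
      · exact Or.inr fun t => by linarith [beta_le T u p χ t, not_le.1 hχ])
  set M := S.filter fun x => ∀ χ ∈ Γ, χ (h x, 0) = c χ with hM
  have hMS : M ⊆ S := filter_subset _ _
  have hTM : (T.filter fun x => ∀ χ ∈ Γ, χ (p x).1 = c χ) = M ×ˢ B ×ˢ range L1 := by
    ext y
    have : (∀ χ ∈ Γ, χ (p y).1 = c χ) ↔ ∀ χ ∈ Γ, χ (h y.1, 0) = c χ := by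
      refine forall₂_congr fun χ hχ => ?_
      rw [← triv hN hCN χ (hΓp χ hχ) (h y.1) (v y.1 y.2.1)]
      rfl
    simp only [mem_filter, hT, hM, mem_product, this]
    tauto
  have hW : ∑ y ∈ M ×ˢ B ×ˢ range L1, u y = ∑ x ∈ M, w x := sum_T1 M B L1 hB hL1 w
  rw [hTM, hW] at hΓw
  have hW2 : 1 / 2 ≤ ∑ x ∈ M, w x := by linarith
  have hsub : M ×ˢ B ×ˢ range L1 ⊆ T := product_subset_product_left hMS
  refine ⟨M, Γ.card, hMS, card_pos.2 ⟨1, hΓ1⟩, hΓc, by nlinarith, ?_, ?_⟩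
  · intro m hm τ
    rw [fden_eq]
    have hn : ∀ y ∈ M ×ˢ B ×ˢ range L1, 0 ≤ u y / ∑ x ∈ M, w x ∧ u y / ∑ x ∈ M, w x ≤ 2 * u y := by
      intro y hy
      have := hlaw.nn y (hsub hy)
      refine ⟨by positivity, ?_⟩
      rw [div_le_iff₀ (by linarith)]
      nlinarith
    have := tupP_le (M ×ˢ B ×ˢ range L1) (fun y => u y / ∑ x ∈ M, w x) p (fun y hy => (hn y hy).1)
      (by rw [← sum_div, hW, div_self (by linarith)]) j
      (2 ^ j * (C * P / (Fintype.card (H × (Fin s → ZMod N1)) * N1)))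
      (fun τ => (tupP_sub T _ u _ p hlaw.nn hsub hn j τ).trans
        (mul_le_mul_of_nonneg_left (hdens τ) (by positivity))) m hm ((τ.1, τ.2.1), τ.2.2)
    calc _ ≤ ((Fintype.card (H × (Fin s → ZMod N1)) : ℝ) * N1) *
          (2 ^ j * (C * P / (Fintype.card (H × (Fin s → ZMod N1)) * N1))) :=
          mul_le_mul_of_nonneg_left this (by positivity)
      _ = (2 ^ j * C) * P := by field_simp
      _ ≤ K * P := by gcongr
  · intro k i X hk hjk hi hX h0 v0 l0
    have hMne : M.Nonempty := by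
      by_contra hne
      rw [not_nonempty_iff_eq_empty.1 hne, sum_empty] at hW2
      linarith
    obtain ⟨x0, hx0⟩ := hMne
    have := h3 _ _ N1 P T u _ p c0 η C j hfam hj hdens (M ×ˢ B ×ˢ range L1) (K2 * r) b2 hsub
      (by rw [hW]; exact hΓw) (by nlinarith [mul_nonneg hK2.le hr0]) (by linarith) Γ c hΓ1
      (fun y hy => (mem_filter.1 (hTM ▸ hy : y ∈ T.filter fun x => ∀ χ ∈ Γ, χ (p x).1 = c χ)).2)
      (fun χ hχ t => (hΓn χ hχ t).le)
      (fun t ht => by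
        by_contra hc
        obtain ⟨τ, hτ, e⟩ := h1b hwrap t (by rw [← hb0]; linarith [not_le.1 hc])
        exact ht τ hτ e)
      κ Sb wb ab η1 hSb.nn hSb.one
      (fun τ hτ => by rw [hT, hu, chf_T S B L1 hB hL1]; exact hchf τ hτ)
      (k - i) ((C1.factorial • h0 - ∑ r, h (X r), v0), (l0 : ZMod N1)) (l0 * P / N1) (by omega)
      (fun χ hχ => by
        have hc : ∀ x ∈ M, χ (h x, 0) = c χ := fun x hx => (mem_filter.1 hx).2 χ hχ
        have hf : ∀ y, χ y ^ C1.factorial = 1 := fun y => by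
          rw [← AddChar.pow_apply, hΓp χ hχ, AddChar.one_apply]
        have hck : c χ ^ k = 1 := by
          obtain ⟨q, rfl⟩ := hk
          rw [pow_mul, ← hc x0 hx0, hf, one_pow]
        have hc0 : c χ ≠ 0 := fun e => by
          rw [e, zero_pow (by omega)] at hck
          exact zero_ne_one hck
        have hs : χ (∑ r, ((h (X r), 0) : H × (Fin s → ZMod N1))) = c χ ^ i := by
          have : ∀ t : Finset (Fin i), χ (∑ r ∈ t, ((h (X r), 0) : H × (Fin s → ZMod N1))) =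
              c χ ^ t.card := by
            intro t
            induction t using Finset.induction_on with
            | empty => simp
            | insert q t hq ih =>
              rw [sum_insert hq, AddChar.map_add_eq_mul, ih, hc _ (hX q), card_insert_of_notMem hq,
                pow_succ']
          simpa using this univ
        have he : ((C1.factorial • h0 - ∑ r, h (X r), 0) : H × (Fin s → ZMod N1)) +
            ∑ r, ((h (X r), 0) : H × (Fin s → ZMod N1)) = C1.factorial • (h0, 0) := by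
          ext
          · simp [Prod.fst_sum]
          · simp [Prod.snd_sum]
        have hm := congrArg χ he
        rw [AddChar.map_add_eq_mul, hs, AddChar.map_nsmul_eq_pow, hf] at hm
        show χ (C1.factorial • h0 - ∑ r, h (X r), v0) = _
        rw [triv hN hCN χ (hΓp χ hχ)]
        refine mul_right_cancel₀ (pow_ne_zero i hc0) ?_
        rw [hm, ← pow_add, Nat.sub_add_cancel (by omega), hck])
      ⟨l0, rfl, by simpa using hη1.le⟩
    rw [hW] at this
    rw [fden_eq, mul_div_right_comm]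
    exact this.trans (num j k i C K K2 b2 r η η1 hC hK2 hK hb2p (by linarith) hr0 hηr hη.le hη1.le
      hjk hi)

end Pool.Agent.Lib.BK2
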