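import Pool.Agent.Lib.BK2.LDefs

/-! BK2, section L: lemmas for the glue of the local limit theorem. -/

set_option linter.unusedVariables false

namespace Pool.Agent.Lib.BK2.GLUE

open Finset
open scoped Classical

theorem tupP_nn {Ω G : Type} [AddCommGroup G] (S : Finset Ω) (w : Ω → ℝ) (φ : Ω → G)
    (hw : ∀ x ∈ S, 0 ≤ w x) (m : ℕ) (τ : G) : 0 ≤ tupP S w φ m τ := by
  unfold tupP
  refine sum_nonneg fun f hf => ?_
  split_ifs
  · exact prod_nonneg fun i _ => hw _ (Fintype.mem_piFinset.1 hf i)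
  · exact le_rfl

theorem tupP_succ {Ω G : Type} [AddCommGroup G] (S : Finset Ω) (w : Ω → ℝ) (φ : Ω → G)
    (m : ℕ) (τ : G) : tupP S w φ (m + 1) τ = ∑ x ∈ S, w x * tupP S w φ m (τ - φ x) := by
  unfold tupP
  simp_rw [mul_sum]
  rw [← sum_product']
  symm
  refine sum_bij' (fun z _ => Fin.cons z.1 z.2) (fun f _ => (f 0, Fin.tail f)) ?_ ?_ ?_ ?_ ?_
  · intro z hz
    rw [mem_product] at hz
    rw [Fintype.mem_piFinset]
    intro i
    refine Fin.cases ?_ (fun i => ?_) i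
    · simpa using hz.1
    · simpa using Fintype.mem_piFinset.1 hz.2 i
  · intro f hf
    rw [mem_product]
    exact ⟨Fintype.mem_piFinset.1 hf 0,
      Fintype.mem_piFinset.2 fun i => Fintype.mem_piFinset.1 hf i.succ⟩
  · intro z hz
    simp
  · intro f hf
    simp
  · intro z hz
    simp only [Fin.sum_univ_succ, Fin.prod_univ_succ, Fin.cons_zero, Fin.cons_succ]
    have : (∑ i, φ (z.2 i) = τ - φ z.1) ↔ (φ z.1 + ∑ i, φ (z.2 i) = τ) := by
      rw [eq_sub_iff_add_eq, add_comm]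
    by_cases h : ∑ i, φ (z.2 i) = τ - φ z.1
    · rw [if_pos h, if_pos (this.1 h)]
    · rw [if_neg h, if_neg (fun h' => h (this.2 h')), mul_zero]

theorem tupP_le {Ω G : Type} [AddCommGroup G] (S : Finset Ω) (w : Ω → ℝ) (φ : Ω → G)
    (hw : ∀ x ∈ S, 0 ≤ w x) (h1 : ∑ x ∈ S, w x = 1) (j : ℕ) (D : ℝ)
    (hD : ∀ τ, tupP S w φ j τ ≤ D) (m : ℕ) (hm : j ≤ m) : ∀ τ, tupP S w φ m τ ≤ D := by
  induction m, hm using Nat.le_induction with
  | base => exact hD
  | succ m hm ih =>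
    intro τ
    rw [tupP_succ]
    calc ∑ x ∈ S, w x * tupP S w φ m (τ - φ x) ≤ ∑ x ∈ S, w x * D :=
          sum_le_sum fun x hx => mul_le_mul_of_nonneg_left (ih _) (hw x hx)
      _ = D := by rw [← sum_mul, h1, one_mul]

theorem tupP_sub {Ω G : Type} [AddCommGroup G] (S M : Finset Ω) (w w' : Ω → ℝ) (φ : Ω → G)
    (hw : ∀ x ∈ S, 0 ≤ w x) (hM : M ⊆ S) (hw' : ∀ x ∈ M, 0 ≤ w' x ∧ w' x ≤ 2 * w x)
    (j : ℕ) (τ : G) : tupP M w' φ j τ ≤ 2 ^ j * tupP S w φ j τ := by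
  induction j generalizing τ with
  | zero => unfold tupP; simp
  | succ j ih =>
    rw [tupP_succ, tupP_succ, mul_sum]
    calc ∑ x ∈ M, w' x * tupP M w' φ j (τ - φ x)
        ≤ ∑ x ∈ M, 2 ^ (j + 1) * (w x * tupP S w φ j (τ - φ x)) := by
          refine sum_le_sum fun x hx => ?_
          calc w' x * tupP M w' φ j (τ - φ x) ≤ (2 * w x) * (2 ^ j * tupP S w φ j (τ - φ x)) :=
                mul_le_mul (hw' x hx).2 (ih _) (tupP_nn _ _ _ (fun x hx => (hw' x hx).1) _ _)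
                  (by have := hw x (hM hx); positivity)
            _ = _ := by ring
      _ ≤ _ := by
          refine sum_le_sum_of_subset_of_nonneg hM fun x hx _ => ?_
          have := hw x hx
          have := tupP_nn S w φ hw j (τ - φ x)
          positivity

/-- positions in `(H × V) × ZMod N`. -/
def gp {ι Ω H : Type} {s N1 : ℕ} (h : ι → H) (v : ι → Ω → Fin s → ZMod N1) (l : ι → Ω → ℤ)
    (y : ι × Ω × ℕ) : (H × (Fin s → ZMod N1)) × ZMod N1 :=
  ((h y.1, v y.1 y.2.1), ((l y.1 y.2.1 + y.2.2 : ℤ) : ZMod N1))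

theorem tupP_gp {ι Ω H : Type} [AddCommGroup H] {s N1 : ℕ} (T : Finset (ι × Ω × ℕ))
    (u : ι × Ω × ℕ → ℝ) (h : ι → H) (v : ι → Ω → Fin s → ZMod N1) (l : ι → Ω → ℤ) (m : ℕ)
    (τ : FG H s N1) :
    tupP T u (fpos h v l) m τ = tupP T u (gp h v l) m ((τ.1, τ.2.1), τ.2.2) := by
  unfold tupP
  refine sum_congr rfl fun f hf => ?_
  have : (∑ i, fpos h v l (f i) = τ) ↔ (∑ i, gp h v l (f i) = ((τ.1, τ.2.1), τ.2.2)) := by
    simp only [Prod.ext_iff, Prod.fst_sum, Prod.snd_sum, fpos, gp, and_assoc]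
  by_cases hh : ∑ i, fpos h v l (f i) = τ
  · rw [if_pos hh, if_pos (this.1 hh)]
  · rw [if_neg hh, if_neg (fun h' => hh (this.2 h'))]

theorem fden_eq {ι Ω H : Type} [AddCommGroup H] [Fintype H] {s N1 : ℕ} [NeZero N1] (M : Finset ι)
    (w : ι → ℝ) (B : Finset Ω) (L1 : ℕ) (h : ι → H) (v : ι → Ω → Fin s → ZMod N1)
    (l : ι → Ω → ℤ) (m : ℕ) (τ : FG H s N1) :
    fden M w B L1 h v l m τ = (Fintype.card (H × (Fin s → ZMod N1)) * N1) *
      tupP (M ×ˢ B ×ˢ range L1) (fun y => w y.1 / (B.card * L1) / ∑ x ∈ M, w x) (gp h v l) m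
        ((τ.1, τ.2.1), τ.2.2) := by
  unfold fden
  rw [tupP_gp]
  have e1 : (fun y : ι × Ω × ℕ => w y.1 / ((∑ x ∈ M, w x) * B.card * L1)) =
      fun y => w y.1 / (B.card * L1) / ∑ x ∈ M, w x := by
    funext y
    rw [div_div]
    congr 1
    ring
  have e2 : (Fintype.card H * (N1 : ℝ) ^ (s + 1)) =
      (Fintype.card (H × (Fin s → ZMod N1)) * N1) := by
    simp [Fintype.card_prod, ZMod.card, pow_succ, mul_assoc]
  rw [e1, e2]

theorem sum_T {ι Ω 𝕜 : Type} [Field 𝕜] [CharZero 𝕜] (M : Finset ι) (B : Finset Ω) (L : ℕ)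
    (hB : B.Nonempty) (hL : 1 ≤ L) (f g : ι → 𝕜) :
    ∑ y ∈ M ×ˢ B ×ˢ range L, f y.1 / (B.card * L) * g y.1 = ∑ x ∈ M, f x * g x := by
  rw [sum_product]
  refine sum_congr rfl fun x hx => ?_
  have h1 : (B.card : 𝕜) ≠ 0 := Nat.cast_ne_zero.2 hB.card_pos.ne'
  have h2 : (L : 𝕜) ≠ 0 := Nat.cast_ne_zero.2 (by omega)
  simp only [sum_const, card_product, card_range, nsmul_eq_mul, Nat.cast_mul]
  field_simp

theorem sum_T1 {ι Ω : Type} (M : Finset ι) (B : Finset Ω) (L : ℕ)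
    (hB : B.Nonempty) (hL : 1 ≤ L) (f : ι → ℝ) :
    ∑ y ∈ M ×ˢ B ×ˢ range L, f y.1 / (B.card * L) = ∑ x ∈ M, f x := by
  simpa using sum_T M B L hB hL f (fun _ => 1)

theorem law_T {ι Ω : Type} (S : Finset ι) (B : Finset Ω) (L : ℕ) (hB : B.Nonempty) (hL : 1 ≤ L)
    (w a : ι → ℝ) (c0 : ℝ) (h : Law S w a c0) :
    Law (S ×ˢ B ×ˢ range L) (fun y => w y.1 / (B.card * L)) (fun y => a y.1) c0 where
  nn y hy := by have := h.nn _ (mem_product.1 hy).1; positivity
  one := by rw [sum_T1 S B L hB hL, h.one]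
  lo y hy := h.lo _ (mem_product.1 hy).1
  hi y hy := h.hi _ (mem_product.1 hy).1
  var := by
    rw [sum_T S B L hB hL w a, sum_T S B L hB hL w (fun x => (a x - ∑ j ∈ S, w j * a j) ^ 2)]
    exact h.var

theorem chf_T {ι Ω : Type} (S : Finset ι) (B : Finset Ω) (L : ℕ) (hB : B.Nonempty) (hL : 1 ≤ L)
    (w a : ι → ℝ) (θ : ℝ) :
    chf (S ×ˢ B ×ˢ range L) (fun y => w y.1 / (B.card * L)) (fun y => a y.1) θ = chf S w a θ := by
  unfold chf
  rw [← sum_T S B L hB hL (fun x => (w x : ℂ)) (fun x => ee (θ * a x))]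
  refine sum_congr rfl fun y _ => ?_
  push_cast
  rfl

theorem wrap_T (hF : St_LF) {ι Ω H : Type} [AddCommGroup H] [Fintype H] {s N : ℕ} [NeZero N]
    (S : Finset ι) (B : Finset Ω) (L C1 : ℕ) (hB : B.Nonempty) (hL : 2 * C1 + 1 ≤ L)
    (w : ι → ℝ) (hw : ∀ x ∈ S, 0 ≤ w x) (h1 : ∑ x ∈ S, w x = 1) (h : ι → H)
    (v : ι → Ω → Fin s → ZMod N) (l : ι → Ω → ℤ) :
    Wrap (S ×ˢ B ×ˢ range L) (fun y => w y.1 / (B.card * L)) (gp h v l) C1 := by
  intro χ t ht
  set u : ℂ := ZMod.stdAddChar t with hu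
  have hN : (0 : ℝ) < N := Nat.cast_pos.2 (Nat.pos_of_ne_zero (NeZero.ne N))
  have hLp : (0 : ℝ) < L := Nat.cast_pos.2 (by omega)
  have hBp : (0 : ℝ) < B.card := Nat.cast_pos.2 hB.card_pos
  have hun : ∀ z : ZMod N, ‖(ZMod.stdAddChar z : ℂ)‖ = 1 := fun z => AddChar.norm_apply _ _
  have key : hat (S ×ˢ B ×ˢ range L) (fun y => w y.1 / (B.card * L)) (gp h v l) χ t * (u - 1) =
      ∑ x ∈ S, ∑ o ∈ B, ((w x / (B.card * L) : ℝ) : ℂ) *
        (χ (h x, v x o) * ZMod.stdAddChar (t * (l x o : ZMod N)) * (u ^ L - 1)) := by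
    unfold hat
    rw [sum_product, sum_mul]
    refine sum_congr rfl fun x _ => ?_
    rw [sum_product, sum_mul]
    refine sum_congr rfl fun o _ => ?_
    rw [← geom_sum_mul, mul_comm (∑ i ∈ range L, u ^ i), ← mul_assoc, mul_sum, mul_sum, sum_mul]
    refine sum_congr rfl fun i _ => ?_
    simp only [chL, gp]
    have : ZMod.stdAddChar (t * ((l x o + i : ℤ) : ZMod N)) =
        ZMod.stdAddChar (t * (l x o : ZMod N)) * u ^ i := by
      rw [hu, ← AddChar.map_nsmul_eq_pow, ← AddChar.map_add_eq_mul]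
      congr 1
      push_cast
      ring
    rw [this]
    ring
  have hb : ‖hat (S ×ˢ B ×ˢ range L) (fun y => w y.1 / (B.card * L)) (gp h v l) χ t * (u - 1)‖ ≤
      2 / L := by
    rw [key]
    calc _ ≤ ∑ x ∈ S, ∑ o ∈ B, w x / (B.card * L) * 2 := by
          refine (norm_sum_le _ _).trans (sum_le_sum fun x hx => ?_)
          refine (norm_sum_le _ _).trans (sum_le_sum fun o ho => ?_)
          have h0 : 0 ≤ w x / (B.card * L) := by have := hw x hx; positivity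
          rw [norm_mul, norm_mul, norm_mul, AddChar.norm_apply, hun, Complex.norm_real,
            Real.norm_of_nonneg h0, one_mul, one_mul]
          refine mul_le_mul_of_nonneg_left ?_ h0
          calc ‖u ^ L - 1‖ ≤ ‖u ^ L‖ + ‖(1 : ℂ)‖ := norm_sub_le _ _
            _ = 2 := by rw [norm_pow, hu, hun]; norm_num
      _ = 2 / L := by
          simp only [sum_const, nsmul_eq_mul]
          have : ∀ x ∈ S, (B.card : ℝ) * (w x / (B.card * L) * 2) = w x * (2 / L) := by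
            intro x _; field_simp
          rw [sum_congr rfl this, ← sum_mul, h1, one_mul]
  have hue : u = ee ((t.valMinAbs : ℝ) / N) := by
    rw [hu, ← hF.std N t.valMinAbs, ZMod.coe_valMinAbs]
  have hz : |(t.valMinAbs : ℝ)| = (t.valMinAbs.natAbs : ℝ) := by
    rw [Nat.cast_natAbs, Int.cast_abs]
  have hhalf : |(t.valMinAbs : ℝ) / N| ≤ 1 / 2 := by
    rw [abs_div, abs_of_pos hN, hz, div_le_iff₀ hN]
    have := ZMod.natAbs_valMinAbs_le t
    have h2 : 2 * t.valMinAbs.natAbs ≤ N := by omega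
    have h3 : (2 * t.valMinAbs.natAbs : ℝ) ≤ N := by exact_mod_cast h2
    linarith
  have hlow := hF.low _ hhalf
  rw [← hue, abs_div, abs_of_pos hN, hz, norm_sub_rev] at hlow
  rw [norm_mul] at hb
  have h4 : 1 / 2 * (4 * ((t.valMinAbs.natAbs : ℝ) / N)) ≤ 2 / L :=
    (mul_le_mul ht hlow (by positivity) (norm_nonneg _)).trans hb
  have h5 : (t.valMinAbs.natAbs : ℝ) * L ≤ N := by
    have : (t.valMinAbs.natAbs : ℝ) / N ≤ 1 / L := by
      have : 2 / (L : ℝ) = 2 * (1 / L) := by ring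
      linarith
    rw [div_le_div_iff₀ hN hLp] at this
    linarith
  have h6 : t.valMinAbs.natAbs * L ≤ N := by exact_mod_cast h5
  have hN' := Nat.pos_of_ne_zero (NeZero.ne N)
  rcases Nat.eq_zero_or_pos t.valMinAbs.natAbs with h7 | h7
  · rw [h7]; simpa using hN'
  · nlinarith

theorem triv {H : Type} [AddCommGroup H] {s N C1 : ℕ} (hN : N.Prime) (hC : C1 < N)
    (χ : AddChar (H × (Fin s → ZMod N)) ℂ) (hχ : χ ^ C1.factorial = 1) (x : H)
    (v : Fin s → ZMod N) : χ (x, v) = χ (x, 0) := by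
  have h1 : χ (0, v) ^ C1.factorial = 1 := by rw [← AddChar.pow_apply, hχ, AddChar.one_apply]
  have h2 : χ (0, v) ^ N = 1 := by
    rw [← AddChar.map_nsmul_eq_pow]
    have : N • ((0, v) : H × (Fin s → ZMod N)) = 0 := by
      ext i
      · simp
      · simp
    rw [this, AddChar.map_zero_eq_one]
  have h3 : Nat.gcd C1.factorial N = 1 :=
    ((Nat.Prime.coprime_iff_not_dvd hN).2 (fun h => by
      have := (hN.dvd_factorial).1 h; omega)).symm
  have h4 : χ (0, v) = 1 := by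
    have := pow_gcd_eq_one.2 ⟨h1, h2⟩
    rwa [h3, pow_one] at this
  have : ((x, v) : H × (Fin s → ZMod N)) = (x, 0) + (0, v) := by simp
  rw [this, AddChar.map_add_eq_mul, h4, mul_one]

end Pool.Agent.Lib.BK2.GLUE
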