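import Pool.Agent.Lib.BK2.RDefs
import Pool.Agent.Lib.BK2.IND
import Pool.Agent.Lib.BK2.Bas

open Polynomial

namespace Pool.Agent.Lib.BK2

theorem stLIND : St_LIND := by
  intro B _ _ d _ Γ m ν m' U ρ hm' e he W hW h0
  have e0 : ∀ φ : B →+* ℂ, Γ.evL φ m' (Pi.single (Γ.ixT 0 (Nat.zero_le _)) 1) = 1 := by
    intro φ
    rw [Γ.evL_apply, Γ.ev_single, Γ.mon_ixT]; simp
  have e1 : ∀ φ : B →+* ℂ, Γ.evL φ m' (Pi.single (Γ.ixT 1 hm') 1) = φ Γ.t := by
    intro φ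
    rw [Γ.evL_apply, Γ.ev_single, Γ.mon_ixT]; simp
  have key : ∀ (p₀ : Fin ν → ℝ) (p₁ : Fin ν → (Γ.Ix m' → ℝ) →ₗ[ℝ] ℝ) (q₀ : ℝ)
      (q₁ : (Γ.Ix m' → ℝ) →ₗ[ℝ] ℝ),
      (∀ w ∈ W, ∑ j, (p₀ j + p₁ j w) * Real.log ‖Γ.ev (ρ.φ e j) w‖ = q₀ + q₁ w) →
      ∀ w ∈ W, ∀ j, p₀ j + p₁ j w = 0 := by
    intro p₀ p₁ q₀ q₁ h
    refine ind (fun j => Γ.evL (ρ.φ e j) m') ?_ ?_ W hW (fun j w hw => h0 w hw j) p₀ p₁ q₀ q₁ h
    · intro i j hij c
      by_contra hc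
      push Not at hc
      have a0 := hc (Pi.single (Γ.ixT 0 (Nat.zero_le _)) 1)
      have a1 := hc (Pi.single (Γ.ixT 1 hm') 1)
      rw [e0, e0, mul_one] at a0
      rw [e1, e1, ← a0, one_mul] at a1
      exact hij (ρ.inj e he i j a1)
    · intro i j c
      by_contra hc
      push Not at hc
      have a0 := hc (Pi.single (Γ.ixT 0 (Nat.zero_le _)) 1)
      have a1 := hc (Pi.single (Γ.ixT 1 hm') 1)
      rw [e0, e0, map_one, mul_one] at a0
      rw [e1, e1, ← a0, one_mul] at a1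
      exact ρ.nre e he i j a1
  refine ⟨key, ?_⟩
  rintro ⟨w0, hw0⟩ C hC
  have h1 := key (fun j => C (some j)) 0 (-C none) 0 (fun w hw => by
    have := hC w hw
    rw [Fintype.sum_option] at this
    simp only [Geo.Roots.lam, mul_one] at this
    simp only [Pi.zero_apply, LinearMap.zero_apply, add_zero]
    linarith) w0 hw0
  simp only [Pi.zero_apply, LinearMap.zero_apply, add_zero] at h1
  have h2 := hC w0 hw0
  rw [Fintype.sum_option] at h2
  simp only [Geo.Roots.lam, mul_one, h1, zero_mul, Finset.sum_const_zero, add_zero] at h2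
  funext o
  cases o with
  | none => exact h2
  | some j => exact h1 j

end Pool.Agent.Lib.BK2
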