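import Pool.Agent.Lib.BK2.LNF

/-! The lattices `A ∩ R` and the count of their points in polydiscs. -/

open MeasureTheory Module NumberField
open scoped nonZeroDivisors Classical

set_option linter.unusedSectionVars false

noncomputable section

namespace Pool.Agent.Lib.BK2

namespace LCnt

variable {K : Type} [Field K] [NumberField K] {R : Subring K} {F : ℕ}

/-- The lattice `A ∩ R`. -/
def la (R : Subring K) (A : FractionalIdeal (𝓞 K)⁰ K) : AddSubgroup K := ag A ⊓ R.toAddSubgroup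

theorem mem_la {A : FractionalIdeal (𝓞 K)⁰ K} {x : K} : x ∈ la R A ↔ x ∈ A ∧ x ∈ R := Iff.rfl

theorem mem_one {x : K} : x ∈ (1 : FractionalIdeal (𝓞 K)⁰ K) ↔ IsIntegral ℤ x := by
  rw [FractionalIdeal.mem_one_iff]
  exact ⟨fun ⟨y, h⟩ => h ▸ y.2, fun h => ⟨⟨x, h⟩, rfl⟩⟩

theorem int_mul {A : FractionalIdeal (𝓞 K)⁰ K} {a x : K} (ha : IsIntegral ℤ a) (hx : x ∈ A) :
    a * x ∈ A := (A : Submodule (𝓞 K) K).smul_mem (⟨a, ha⟩ : 𝓞 K) hx

theorem int_of_inv {A : (FractionalIdeal (𝓞 K)⁰ K)ˣ} {s x : K}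
    (hs : s ∈ ((A⁻¹ : (FractionalIdeal (𝓞 K)⁰ K)ˣ) : FractionalIdeal (𝓞 K)⁰ K))
    (hx : x ∈ (A : FractionalIdeal (𝓞 K)⁰ K)) : IsIntegral ℤ (s * x) := by
  have := FractionalIdeal.mul_mem_mul hs hx
  rwa [Units.inv_mul, mem_one] at this

theorem ne_zero_of_cop (hF : 1 < F) {s : ℕ} (hs : s.Coprime F) : (s : K) ≠ 0 := by
  rintro e
  rw [Nat.cast_eq_zero] at e
  rw [e, Nat.coprime_zero_left] at hs
  omega

theorem relIndex_la {I J : FractionalIdeal (𝓞 K)⁰ K} (h : I ≤ J) {s : ℕ} (hs : s.Coprime F)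
    (h1 : ∀ a ∈ J, (s : K) * a ∈ I) (h2 : ∀ a ∈ J, (F : K) * a ∈ R) :
    (la R I).relIndex (la R J) = (ag I).relIndex (ag J) := by
  have e1 : la R I = ag I ⊓ la R J := by
    rw [la, la, ← inf_assoc, inf_eq_left.2 (show ag I ≤ ag J from h)]
  have e2 : la R J ⊔ ag I = ag J := by
    refine le_antisymm (sup_le inf_le_left h) fun a ha => ?_
    obtain ⟨u, v, e⟩ := Nat.isCoprime_iff_coprime.2 hs
    have e' : (u : K) * s + v * F = 1 := by exact_mod_cast congrArg (Int.cast : ℤ → K) e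
    have : a = v • ((F : K) * a) + u • ((s : K) * a) := by
      simp only [zsmul_eq_mul]
      linear_combination -a * e'
    rw [this]
    exact add_mem (AddSubgroup.mem_sup_left (zsmul_mem
      (mem_la.2 ⟨int_mul (isIntegral_natCast F) ha, h2 a ha⟩) _))
      (AddSubgroup.mem_sup_right (zsmul_mem (mem_ag.2 (h1 a ha)) _))
  rw [e1, AddSubgroup.inf_relIndex_right, ← e2, AddSubgroup.relIndex_sup_right]

section data

variable (hF : 1 < F) (h1 : ∀ s : ℕ, s.Coprime F → (s : K)⁻¹ ∈ R)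
  (h3 : ∀ a : K, IsIntegral ℤ a → (F : K) * a ∈ R) {A : (FractionalIdeal (𝓞 K)⁰ K)ˣ} {s : ℕ}
  (hs : s.Coprime F) (hA : (s : K) ∈ (A : FractionalIdeal (𝓞 K)⁰ K))
  (hA' : (s : K) ∈ ((A⁻¹ : (FractionalIdeal (𝓞 K)⁰ K)ˣ) : FractionalIdeal (𝓞 K)⁰ K))

include hF h1 h3 hs hA' in
theorem mul_mem_R {a : K} (ha : a ∈ (A : FractionalIdeal (𝓞 K)⁰ K)) : (F : K) * a ∈ R := by
  have := R.mul_mem (h1 s hs) (h3 _ (int_of_inv hA' ha))
  rwa [mul_left_comm, inv_mul_cancel_left₀ (ne_zero_of_cop hF hs)] at this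

include hF hs hA' in
theorem discrete_la : DiscreteTopology (im (la R (A : FractionalIdeal (𝓞 K)⁰ K))) :=
  discrete_im (ne_zero_of_cop hF hs) fun _ hg => int_of_inv hA' hg.1

variable [IsTotallyComplex K]

include hF h1 h3 hs hA hA' in
theorem lattice_la : haveI := discrete_la (R := R) hF hs hA'
    IsZLattice ℝ (im (la R (A : FractionalIdeal (𝓞 K)⁰ K))) := by
  have := discrete_la (R := R) hF hs hA'
  have h0 : (F : K) * s ≠ 0 := mul_ne_zero (by exact_mod_cast (by omega : F ≠ 0))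
    (ne_zero_of_cop hF hs)
  refine lattice_im (v := fun i => (F : K) * s * integralBasis K i)
    ((integralBasis K).linearIndependent.map' (LinearMap.mulLeft ℚ ((F : K) * s))
      (LinearMap.ker_eq_bot.2 (mul_right_injective₀ h0)))
    (finrank_eq_card_basis (integralBasis K)).symm fun i => ?_
  have hi : (s : K) * integralBasis K i ∈ (A : FractionalIdeal (𝓞 K)⁰ K) := by
    rw [mul_comm, integralBasis_apply]
    exact int_mul (RingOfIntegers.basis K i).2 hA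
  rw [mul_assoc]
  exact ⟨int_mul (isIntegral_natCast F) hi, mul_mem_R hF h1 h3 hs hA' hi⟩

include hF h1 h3 hs hA hA' in
theorem covol_la : ZLattice.covolume (im (la R (A : FractionalIdeal (𝓞 K)⁰ K))) =
    (FractionalIdeal.absNorm (A : FractionalIdeal (𝓞 K)⁰ K) : ℝ) *
      ZLattice.covolume (im (la R 1)) := by
  have h0 : (s : K) ≠ 0 := ne_zero_of_cop hF hs
  let I : (FractionalIdeal (𝓞 K)⁰ K)ˣ := Units.mk0 (FractionalIdeal.spanSingleton (𝓞 K)⁰ (s : K))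
    (FractionalIdeal.spanSingleton_ne_zero_iff.2 h0)
  have mI : ∀ a : K, IsIntegral ℤ a → (s : K) * a ∈ (I : FractionalIdeal (𝓞 K)⁰ K) := fun a ha =>
    mul_comm a s ▸ int_mul ha (FractionalIdeal.mem_spanSingleton_self _ _)
  have hs1 : (s : K) ∈ (1 : FractionalIdeal (𝓞 K)⁰ K) := mem_one.2 (isIntegral_natCast s)
  have hI : (s : K) ∈ (I : FractionalIdeal (𝓞 K)⁰ K) := FractionalIdeal.mem_spanSingleton_self _ _
  have hI' : (s : K) ∈ ((I⁻¹ : (FractionalIdeal (𝓞 K)⁰ K)ˣ) : FractionalIdeal (𝓞 K)⁰ K) := by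
    rw [Units.val_inv_eq_inv_val, Units.val_mk0, FractionalIdeal.spanSingleton_inv]
    have := int_mul ((isIntegral_natCast (B := K) s).mul (isIntegral_natCast s))
      (FractionalIdeal.mem_spanSingleton_self (𝓞 K)⁰ (s : K)⁻¹)
    rwa [mul_inv_cancel_right₀ h0] at this
  have := discrete_la (R := R) hF hs hA'
  have := lattice_la hF h1 h3 hs hA hA'
  have := discrete_la (R := R) hF hs hI'
  have := lattice_la hF h1 h3 hs hI hI'
  have : DiscreteTopology (im (la R (1 : FractionalIdeal (𝓞 K)⁰ K))) :=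
    discrete_la (R := R) (A := 1) hF hs hs1
  have : IsZLattice ℝ (im (la R (1 : FractionalIdeal (𝓞 K)⁰ K))) :=
    lattice_la (A := 1) hF h1 h3 hs hs1 hs1
  have l1 : (I : FractionalIdeal (𝓞 K)⁰ K) ≤ A := FractionalIdeal.spanSingleton_le_iff_mem.2 hA
  have l2 : (I : FractionalIdeal (𝓞 K)⁰ K) ≤ 1 := FractionalIdeal.spanSingleton_le_iff_mem.2 hs1
  have c1 := covol_im (Λ := la R I) (Λ' := la R A) (inf_le_inf_right _ l1)
  have c2 := covol_im (Λ := la R I) (Λ' := la R 1) (inf_le_inf_right _ l2)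
  rw [relIndex_la l1 (Nat.coprime_mul_iff_left.2 ⟨hs, hs⟩) (fun a ha => by
    rw [Nat.cast_mul, mul_assoc]
    exact mI _ (int_of_inv hA' ha)) fun a ha => mul_mem_R hF h1 h3 hs hA' ha] at c1
  rw [relIndex_la l2 hs (fun a ha => mI _ (mem_one.1 ha)) fun a ha => h3 _ (mem_one.1 ha)] at c2
  have n1 := relIndex_ideal I A l1
  have n2 := relIndex_ideal I 1 l2
  rw [Units.val_one, map_one, mul_one] at n2
  have n0 : ((ag (I : FractionalIdeal (𝓞 K)⁰ K)).relIndex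
      (ag (A : FractionalIdeal (𝓞 K)⁰ K)) : ℝ) ≠ 0 := by
    intro e
    rw [Nat.cast_eq_zero] at e
    rw [e, Nat.cast_zero, zero_mul] at n1
    exact I.ne_zero (FractionalIdeal.absNorm_eq_zero_iff.1 n1.symm)
  have n3 := congrArg (Rat.cast : ℚ → ℝ) (n1.trans n2.symm)
  push_cast at n3
  refine mul_left_cancel₀ n0 ?_
  rw [← c1, c2, ← mul_assoc, n3]

variable {ι : Type*} [Fintype ι] {ω : ι → K} {Δ : ℝ} (hω : LinearIndependent ℚ ω)
  (hc : Fintype.card ι = finrank ℚ K) (hR : ∀ i, ω i ∈ R) (hZ : ∀ i, IsIntegral ℤ (ω i))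
  (hΔ : ∀ i (w : InfinitePlace K), w (ω i) ≤ Δ)

include hω hc hΔ in
theorem Delta_pos : 0 < Δ := by
  obtain ⟨i⟩ : Nonempty ι := Fintype.card_pos_iff.1 (hc ▸ finrank_pos)
  obtain ⟨w⟩ : Nonempty (InfinitePlace K) := inferInstance
  exact (InfinitePlace.pos_iff.2 (hω.ne_zero i)).trans_le (hΔ i w)

theorem prod_sq (c : ℝ) (r : InfinitePlace K → ℝ) :
    ∏ w, Real.pi * (c * r w) ^ 2 = c ^ finrank ℚ K * ∏ w, Real.pi * r w ^ 2 := by
  rw [← two_card, pow_mul, ← Finset.card_univ, ← Finset.prod_const, ← Finset.prod_mul_distrib]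
  exact Finset.prod_congr rfl fun w _ => by ring

include hF h1 h3 hω hc hR hZ hΔ in
theorem covol_one_le : ZLattice.covolume (im (la R 1)) ≤
    (finrank ℚ K * Δ) ^ finrank ℚ K * Real.pi ^ Fintype.card (InfinitePlace K) := by
  have hs1 : ((1 : ℕ) : K) ∈ (1 : FractionalIdeal (𝓞 K)⁰ K) := mem_one.2 (isIntegral_natCast 1)
  have : DiscreteTopology (im (la R (1 : FractionalIdeal (𝓞 K)⁰ K))) :=
    discrete_la (R := R) (A := 1) hF (Nat.coprime_one_left F) hs1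
  have : IsZLattice ℝ (im (la R (1 : FractionalIdeal (𝓞 K)⁰ K))) :=
    lattice_la (A := 1) hF h1 h3 (Nat.coprime_one_left F) hs1 hs1
  have hp : 0 < finrank ℚ K * Δ / 2 :=
    half_pos (mul_pos (Nat.cast_pos.2 finrank_pos) (Delta_pos hω hc hΔ))
  obtain ⟨hf, -, h⟩ := count_disc (im (la R 1)) (cover_im (Λ := la R 1) hω hc
    (fun i => ⟨mem_one.2 (hZ i), hR i⟩) (ρ := fun _ => Δ) hΔ) 0 0
    (r := fun _ => finrank ℚ K * Δ / 2) fun _ => le_rfl
  have h0 := (Set.ncard_pos hf).2 ⟨0, by simp, fun w => by simpa using hp⟩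
  have e := prod_sq (K := K) (finrank ℚ K * Δ) fun _ => 1
  simp only [mul_one, one_pow, Finset.prod_const, Finset.card_univ] at e
  simp only [add_halves, Finset.prod_const, Finset.card_univ, e] at h
  exact (le_mul_of_one_le_left (ZLattice.covolume_pos _ _).le (by exact_mod_cast h0)).trans h

include hF h1 h3 hs hA hA' hω hc hR hZ hΔ in
/-- A covering of the space by translates of a small polydisc. -/
theorem cover_la {ρ : InfinitePlace K → ℝ} (hρ : ∀ w, 0 ≤ ρ w)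
    (h : (FractionalIdeal.absNorm (A : FractionalIdeal (𝓞 K)⁰ K) : ℝ) *
      ((finrank ℚ K * Δ) ^ 2) ^ finrank ℚ K < ∏ w, ρ w ^ 2) (x : InfinitePlace K → ℂ) :
    ∃ l ∈ im (la R (A : FractionalIdeal (𝓞 K)⁰ K)), ∀ w, ‖x w - l w‖ ≤ ρ w := by
  have := discrete_la (R := R) hF hs hA'
  have := lattice_la hF h1 h3 hs hA hA'
  have hΔ0 := Delta_pos hω hc hΔ
  have hn : (0 : ℝ) < finrank ℚ K := Nat.cast_pos.2 finrank_pos
  have hN : (0 : ℝ) ≤ (FractionalIdeal.absNorm (A : FractionalIdeal (𝓞 K)⁰ K) : ℝ) := by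
    exact_mod_cast FractionalIdeal.absNorm_nonneg _
  obtain ⟨g, hg, g0, hw⟩ := minkowski (Λ := la R A) (r := fun w => 2 / (finrank ℚ K * Δ) * ρ w)
    (fun w => mul_nonneg (by positivity) (hρ w)) (by
      rw [prod_sq, covol_la hF h1 h3 hs hA hA', Finset.prod_mul_distrib, Finset.prod_const,
        Finset.card_univ, div_pow, div_mul_eq_mul_div, lt_div_iff₀ (by positivity)]
      calc _ ≤ (FractionalIdeal.absNorm (A : FractionalIdeal (𝓞 K)⁰ K) : ℝ) *
            ((finrank ℚ K * Δ) ^ finrank ℚ K * Real.pi ^ Fintype.card (InfinitePlace K)) *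
            2 ^ finrank ℚ K * (finrank ℚ K * Δ) ^ finrank ℚ K := by
            gcongr
            exact covol_one_le hF h1 h3 hω hc hR hZ hΔ
        _ = 2 ^ finrank ℚ K * (Real.pi ^ Fintype.card (InfinitePlace K) *
            ((FractionalIdeal.absNorm (A : FractionalIdeal (𝓞 K)⁰ K) : ℝ) *
              ((finrank ℚ K * Δ) ^ 2) ^ finrank ℚ K)) := by ring
        _ < _ := by gcongr)
  obtain ⟨l, hl, h2⟩ := cover_im (Λ := la R A) (v := fun i => g * ω i)
    (hω.map' (LinearMap.mulLeft ℚ g) (LinearMap.ker_eq_bot.2 (mul_right_injective₀ g0))) hc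
    (fun i => ⟨mul_comm g _ ▸ int_mul (hZ i) hg.1, R.mul_mem hg.2 (hR i)⟩)
    (ρ := fun w => 2 / (finrank ℚ K * Δ) * ρ w * Δ) (fun i w => by
      rw [map_mul]
      exact mul_le_mul (hw w).le (hΔ i w) (apply_nonneg _ _)
        (mul_nonneg (by positivity) (hρ w))) x
  refine ⟨l, hl, fun w => (h2 w).trans (le_of_eq ?_)⟩
  field_simp

include hF h1 h3 hs hA hA' hω hc hR hZ hΔ in
/-- Points of a coset of `A ∩ R` in a polydisc, inside the complex space. -/
theorem count_la {η : ℝ} (hη : 0 < η) (hη1 : η ≤ 1) {r : InfinitePlace K → ℝ} (hr : ∀ w, 0 ≤ r w)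
    (h : (FractionalIdeal.absNorm (A : FractionalIdeal (𝓞 K)⁰ K) : ℝ) *
      ((finrank ℚ K * Δ) ^ 2 / η) ^ finrank ℚ K < ∏ w, r w ^ 2) (y t : InfinitePlace K → ℂ) :
    {x | x - y ∈ im (la R (A : FractionalIdeal (𝓞 K)⁰ K)) ∧ x ∈ disc t r}.Finite ∧
      (1 - η) ^ finrank ℚ K * ∏ w, Real.pi * r w ^ 2 ≤
        ({x | x - y ∈ im (la R (A : FractionalIdeal (𝓞 K)⁰ K)) ∧ x ∈ disc t r}.ncard : ℝ) *
          ((FractionalIdeal.absNorm (A : FractionalIdeal (𝓞 K)⁰ K) : ℝ) *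
            ZLattice.covolume (im (la R 1))) ∧
      ({x | x - y ∈ im (la R (A : FractionalIdeal (𝓞 K)⁰ K)) ∧ x ∈ disc t r}.ncard : ℝ) *
          ((FractionalIdeal.absNorm (A : FractionalIdeal (𝓞 K)⁰ K) : ℝ) *
            ZLattice.covolume (im (la R 1))) ≤
        (1 + η) ^ finrank ℚ K * ∏ w, Real.pi * r w ^ 2 := by
  have := discrete_la (R := R) hF hs hA'
  have := lattice_la hF h1 h3 hs hA hA'
  have := count_disc _ (cover_la hF h1 h3 hs hA hA' hω hc hR hZ hΔ (ρ := fun w => η * r w)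
    (fun w => mul_nonneg hη.le (hr w)) (by
      rw [div_pow, ← mul_div_assoc, div_lt_iff₀ (by positivity)] at h
      refine h.trans_eq ?_
      simp only [mul_pow, Finset.prod_mul_distrib, Finset.prod_const, Finset.card_univ]
      rw [← pow_mul, two_card, mul_comm])) y t (r := r) fun w => mul_le_of_le_one_left (hr w) hη1
  simpa only [covol_la hF h1 h3 hs hA hA', ← prod_sq, sub_mul, add_mul, one_mul] using this

include hF h1 h3 hs hA hA' hω hc hR hZ hΔ in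
/-- Points of a coset of `Q (A ∩ R)` in a polydisc. -/
theorem count_K {η : ℝ} (hη : 0 < η) (hη1 : η ≤ 1) {Q : ℕ} (hQ : 0 < Q)
    {r : InfinitePlace K → ℝ} (hr : ∀ w, 0 ≤ r w)
    (h : (FractionalIdeal.absNorm (A : FractionalIdeal (𝓞 K)⁰ K) : ℝ) *
      (Q * (finrank ℚ K * Δ) ^ 2 / η) ^ finrank ℚ K < ∏ w, r w ^ 2) (g₀ : K)
    (t : InfinitePlace K → ℂ) (S : Set K)
    (hS : ∀ g, g ∈ S ↔ (∃ a ∈ la R (A : FractionalIdeal (𝓞 K)⁰ K), g - g₀ = Q * a) ∧
      ∀ w : InfinitePlace K, ‖w.embedding g - t w‖ < r w) :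
    S.Finite ∧
      (1 - η) ^ finrank ℚ K * ∏ w, Real.pi * r w ^ 2 ≤
        (S.ncard : ℝ) * ((Q : ℝ) ^ finrank ℚ K *
          (FractionalIdeal.absNorm (A : FractionalIdeal (𝓞 K)⁰ K) : ℝ) *
            ZLattice.covolume (im (la R 1))) ∧
      (S.ncard : ℝ) * ((Q : ℝ) ^ finrank ℚ K *
          (FractionalIdeal.absNorm (A : FractionalIdeal (𝓞 K)⁰ K) : ℝ) *
            ZLattice.covolume (im (la R 1))) ≤
        (1 + η) ^ finrank ℚ K * ∏ w, Real.pi * r w ^ 2 := by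
  have hQ' : (0 : ℝ) < Q := Nat.cast_pos.2 hQ
  have hQK : (Q : K) ≠ 0 := Nat.cast_ne_zero.2 hQ.ne'
  have hQC : (Q : ℂ) ≠ 0 := Nat.cast_ne_zero.2 hQ.ne'
  have e0 : ∏ w, ((Q : ℝ)⁻¹ * r w) ^ 2 = ((Q : ℝ) ^ finrank ℚ K)⁻¹ * ∏ w, r w ^ 2 := by
    simp only [mul_pow, Finset.prod_mul_distrib, Finset.prod_const, Finset.card_univ]
    rw [← pow_mul, two_card, inv_pow]
  obtain ⟨k1, k2, k3⟩ := count_la hF h1 h3 hs hA hA' hω hc hR hZ hΔ hη hη1
    (r := fun w => (Q : ℝ)⁻¹ * r w) (fun w => mul_nonneg (by positivity) (hr w)) (by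
      rw [e0, lt_inv_mul_iff₀ (by positivity)]
      refine lt_of_eq_of_lt ?_ h
      rw [mul_div_assoc, mul_pow (Q : ℝ)]
      ring) 0 fun w => (t w - w.embedding g₀) / Q
  have hn : ∀ (g : K) (w : InfinitePlace K), ‖sg K ((g - g₀) / Q) w - (t w - w.embedding g₀) / Q‖ <
      (Q : ℝ)⁻¹ * r w ↔ ‖w.embedding g - t w‖ < r w := fun g w => by
    rw [sg_apply, map_div₀, map_sub, map_natCast, ← sub_div, sub_sub_sub_cancel_right, norm_div,
      Complex.norm_natCast, div_eq_inv_mul, mul_lt_mul_iff_right₀ (by positivity)]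
  have hi : Function.Injective fun g : K => sg K ((g - g₀) / Q) := fun a b e =>
    sub_left_injective ((div_left_inj' hQK).1 (sg_inj e))
  have e : (fun g : K => sg K ((g - g₀) / Q)) '' S =
      {x | x - 0 ∈ im (la R (A : FractionalIdeal (𝓞 K)⁰ K)) ∧
        x ∈ disc (fun w => (t w - w.embedding g₀) / Q) fun w => (Q : ℝ)⁻¹ * r w} := by
    ext x
    constructor
    · rintro ⟨g, hg, rfl⟩
      obtain ⟨⟨a, ha, e⟩, h2⟩ := (hS g).1 hg
      refine ⟨?_, fun w => (hn g w).2 (h2 w)⟩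
      rw [sub_zero, sg_mem, e, mul_div_cancel_left₀ _ hQK]
      exact ha
    · rintro ⟨h2, h4⟩
      rw [sub_zero] at h2
      obtain ⟨a, ha, rfl⟩ := h2
      have e : (g₀ + Q * a - g₀) / Q = a := by rw [add_sub_cancel_left, mul_div_cancel_left₀ _ hQK]
      refine ⟨g₀ + Q * a, (hS _).2 ⟨⟨a, ha, add_sub_cancel_left _ _⟩, fun w => (hn _ w).1 ?_⟩,
        congrArg _ e⟩
      rw [e]
      exact h4 w
  rw [← e] at k1 k2 k3
  rw [Set.ncard_image_of_injective _ hi, prod_sq, inv_pow] at k2 k3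
  have hp : (0 : ℝ) < (Q : ℝ) ^ finrank ℚ K := by positivity
  refine ⟨k1.of_finite_image hi.injOn, ?_, ?_⟩
  · rw [mul_left_comm, inv_mul_le_iff₀ hp] at k2
    exact k2.trans_eq (by ring)
  · rw [mul_left_comm _ _⁻¹, le_inv_mul_iff₀ hp] at k3
    exact le_of_eq_of_le (by ring) k3

end data

end LCnt

end Pool.Agent.Lib.BK2
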