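import Pool.Agent.Lib.BK2.LCnt

/-! Lattices in a totally complex number field. -/

open MeasureTheory Module NumberField
open scoped nonZeroDivisors Classical

set_option linter.unusedSectionVars false

noncomputable section

namespace Pool.Agent.Lib.BK2

namespace LCnt

theorem covol_index {E : Type*} [NormedAddCommGroup E] [NormedSpace ℝ E] [FiniteDimensional ℝ E]
    [MeasurableSpace E] [BorelSpace E] (μ : Measure E) [Measure.IsAddHaarMeasure μ]
    (L₁ L₂ : Submodule ℤ E) [DiscreteTopology L₁] [IsZLattice ℝ L₁] [DiscreteTopology L₂]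
    [IsZLattice ℝ L₂] (h : L₁ ≤ L₂) : ZLattice.covolume L₁ μ =
      L₁.toAddSubgroup.relIndex L₂.toAddSubgroup * ZLattice.covolume L₂ μ := by
  let b₁ : Basis (Fin (finrank ℝ E)) ℤ L₁ := Module.finBasisOfFinrankEq ℤ L₁ (ZLattice.rank ℝ L₁)
  let b₂ : Basis (Fin (finrank ℝ E)) ℤ L₂ := Module.finBasisOfFinrankEq ℤ L₂ (ZLattice.rank ℝ L₂)
  rw [AddSubgroup.relIndex_eq_natAbs_det L₁.toAddSubgroup L₂.toAddSubgroup h b₁ b₂,
    Nat.cast_natAbs, Int.cast_abs,
    ZLattice.covolume_eq_det_mul_measureReal L₁ μ b₁ (b₂.ofZLatticeBasis ℝ L₂),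
    ZLattice.covolume_eq_measure_fundamentalDomain L₂ μ (ZLattice.isAddFundamentalDomain b₂ μ)]
  congr 2
  rw [Basis.det_apply, Basis.det_apply, Int.cast_det]
  congr 1
  ext i j
  rw [Matrix.map_apply, Basis.toMatrix_apply, Basis.toMatrix_apply]
  exact b₂.ofZLatticeBasis_repr_apply ℝ L₂ ⟨b₁ j, h (SetLike.coe_mem _)⟩ i

variable {K : Type} [Field K] [NumberField K]

/-- The additive group of a fractional ideal. -/
def ag (I : FractionalIdeal (𝓞 K)⁰ K) : AddSubgroup K := (I : Submodule (𝓞 K) K).toAddSubgroup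

theorem mem_ag {I : FractionalIdeal (𝓞 K)⁰ K} {x : K} : x ∈ ag I ↔ x ∈ I := Iff.rfl

theorem relIndex_ideal (I J : (FractionalIdeal (𝓞 K)⁰ K)ˣ) (h : (I : FractionalIdeal (𝓞 K)⁰ K) ≤ J) :
    ((ag (I : FractionalIdeal (𝓞 K)⁰ K)).relIndex (ag (J : FractionalIdeal (𝓞 K)⁰ K)) : ℚ) *
      FractionalIdeal.absNorm (J : FractionalIdeal (𝓞 K)⁰ K) =
        FractionalIdeal.absNorm (I : FractionalIdeal (𝓞 K)⁰ K) := by
  have e : ∀ I : (FractionalIdeal (𝓞 K)⁰ K)ˣ, (mixedEmbedding.idealLattice K I).toAddSubgroup =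
      (ag (I : FractionalIdeal (𝓞 K)⁰ K)).map (mixedEmbedding K).toAddMonoidHom := fun I => by
    ext x
    exact mixedEmbedding.mem_idealLattice K I
  have h1 := covol_index volume (mixedEmbedding.idealLattice K I) (mixedEmbedding.idealLattice K J)
    fun x hx => by
      obtain ⟨y, hy, rfl⟩ := (mixedEmbedding.mem_idealLattice K I).1 hx
      exact (mixedEmbedding.mem_idealLattice K J).2 ⟨y, h hy, rfl⟩
  rw [e, e, AddSubgroup.relIndex_map_map_of_injective _ _ (mixedEmbedding_injective K),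
    mixedEmbedding.covolume_idealLattice, mixedEmbedding.covolume_idealLattice, mul_assoc,
    mul_assoc, ← mul_assoc _ (_ : ℝ) (_ * _)] at h1
  have h2 : (2⁻¹ : ℝ) ^ InfinitePlace.nrComplexPlaces K * √|(discr K : ℝ)| ≠ 0 :=
    mul_ne_zero (by positivity) (Real.sqrt_ne_zero'.2 (abs_pos.2 (by exact_mod_cast discr_ne_zero K)))
  exact_mod_cast (mul_right_cancel₀ h2 h1).symm

variable (K) in
/-- The embedding at all infinite places. -/
def sg : K →+* (InfinitePlace K → ℂ) := RingHom.pi fun w => w.embedding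

theorem sg_apply (g : K) (w : InfinitePlace K) : sg K g w = w.embedding g := rfl

theorem norm_sg (g : K) (w : InfinitePlace K) : ‖sg K g w‖ = w g := w.norm_embedding_eq g

theorem sg_inj : Function.Injective (sg K) := (sg K).injective

/-- The image of a subgroup. -/
def im (Λ : AddSubgroup K) : Submodule ℤ (InfinitePlace K → ℂ) :=
  (Λ.map (sg K).toAddMonoidHom).toIntSubmodule

theorem mem_im {Λ : AddSubgroup K} {x : InfinitePlace K → ℂ} : x ∈ im Λ ↔ ∃ g ∈ Λ, sg K g = x :=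
  Iff.rfl

theorem sg_mem {Λ : AddSubgroup K} {g : K} : sg K g ∈ im Λ ↔ g ∈ Λ :=
  ⟨fun ⟨_, h, e⟩ => sg_inj e ▸ h, fun h => ⟨g, h, rfl⟩⟩

theorem finite_ball {Λ : AddSubgroup K} {s : K} (hs : s ≠ 0) (h : ∀ g ∈ Λ, IsIntegral ℤ (s * g))
    (B : ℝ) : {g : K | g ∈ Λ ∧ ∀ w : InfinitePlace K, w g ≤ B}.Finite := by
  refine ((Embeddings.finite_of_norm_le K ℂ (‖sg K s‖ * B)).preimage
    (mul_right_injective₀ hs).injOn).subset fun g hg => ⟨h g hg.1, fun φ => ?_⟩
  rw [← InfinitePlace.apply, map_mul]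
  exact mul_le_mul (norm_sg s _ ▸ norm_le_pi_norm (sg K s) _) (hg.2 _) (apply_nonneg _ _)
    (norm_nonneg _)

theorem discrete_im {Λ : AddSubgroup K} {s : K} (hs : s ≠ 0) (h : ∀ g ∈ Λ, IsIntegral ℤ (s * g)) :
    DiscreteTopology (im Λ) := by
  refine discreteTopology_of_isOpen_singleton_zero ?_
  refine isOpen_singleton_of_finite_mem_nhds 0 (s := Metric.closedBall 0 1)
    (Metric.closedBall_mem_nhds _ one_pos) ?_
  refine Set.Finite.of_finite_image ?_ (Set.injOn_of_injective Subtype.val_injective)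
  refine ((finite_ball hs h 1).image (sg K)).subset ?_
  rintro _ ⟨⟨_, g, hg, rfl⟩, h1, rfl⟩
  refine ⟨g, ⟨hg, fun w => ?_⟩, rfl⟩
  rw [mem_closedBall_zero_iff] at h1
  exact norm_sg g w ▸ (norm_le_pi_norm _ w).trans h1

variable [IsTotallyComplex K]

theorem span_range : Submodule.span ℝ (Set.range (sg K)) = ⊤ := by
  let π : mixedEmbedding.mixedSpace K →ₗ[ℝ] (InfinitePlace K → ℂ) :=
    { toFun := fun x w => x.2 ⟨w, IsTotallyComplex.isComplex w⟩
      map_add' := fun _ _ => rfl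
      map_smul' := fun _ _ => rfl }
  have hπ : LinearMap.range π = ⊤ :=
    LinearMap.range_eq_top.2 fun z => ⟨(0, fun w => z w.1), rfl⟩
  rw [eq_top_iff, ← hπ, LinearMap.range_eq_map, ← (mixedEmbedding.latticeBasis K).span_eq,
    Submodule.map_span]
  refine Submodule.span_mono ?_
  rintro _ ⟨_, ⟨i, rfl⟩, rfl⟩
  rw [mixedEmbedding.latticeBasis_apply]
  exact ⟨_, rfl⟩

theorem span_top {ι : Type*} [Fintype ι] {v : ι → K} (hv : LinearIndependent ℚ v)
    (hc : Fintype.card ι = finrank ℚ K) : Submodule.span ℝ (Set.range fun i => sg K (v i)) = ⊤ := by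
  have : Nonempty ι := Fintype.card_pos_iff.1 (hc ▸ finrank_pos)
  rw [eq_top_iff, ← span_range, Submodule.span_le]
  rintro _ ⟨g, rfl⟩
  obtain ⟨a, rfl⟩ := (Submodule.mem_span_range_iff_exists_fun ℚ).1
    (hv.span_eq_top_of_card_eq_finrank hc ▸ Submodule.mem_top (x := g))
  rw [map_sum]
  refine Submodule.sum_mem _ fun i _ => ?_
  rw [map_rat_smul, ← Rat.cast_smul_eq_qsmul ℝ]
  exact Submodule.smul_mem _ _ (Submodule.subset_span ⟨i, rfl⟩)

theorem lattice_im {Λ : AddSubgroup K} [DiscreteTopology (im Λ)] {ι : Type*} [Fintype ι]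
    {v : ι → K} (hv : LinearIndependent ℚ v) (hc : Fintype.card ι = finrank ℚ K)
    (h : ∀ i, v i ∈ Λ) : IsZLattice ℝ (im Λ) :=
  ⟨eq_top_iff.2 (span_top hv hc ▸ Submodule.span_mono (by
    rintro _ ⟨i, rfl⟩
    exact sg_mem.2 (h i)))⟩

theorem covol_im {Λ Λ' : AddSubgroup K} [DiscreteTopology (im Λ)] [IsZLattice ℝ (im Λ)]
    [DiscreteTopology (im Λ')] [IsZLattice ℝ (im Λ')] (h : Λ ≤ Λ') :
    ZLattice.covolume (im Λ) = Λ.relIndex Λ' * ZLattice.covolume (im Λ') := by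
  rw [covol_index volume (im Λ) (im Λ') fun _ ⟨g, hg, e⟩ => ⟨g, h hg, e⟩,
    ← AddSubgroup.relIndex_map_map_of_injective (f := (sg K).toAddMonoidHom) Λ Λ' sg_inj]
  rfl

/-- Covering by the parallelepiped of independent elements. -/
theorem cover_im {Λ : AddSubgroup K} {ι : Type*} [Fintype ι] {v : ι → K}
    (hv : LinearIndependent ℚ v) (hc : Fintype.card ι = finrank ℚ K) (h : ∀ i, v i ∈ Λ)
    {ρ : InfinitePlace K → ℝ} (hρ : ∀ i w, w (v i) ≤ ρ w) (x : InfinitePlace K → ℂ) :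
    ∃ l ∈ im Λ, ∀ w, ‖x w - l w‖ ≤ finrank ℚ K * ρ w / 2 := by
  obtain ⟨l, hl, c, hc', e⟩ := cover (im Λ) _ (fun i => sg_mem.2 (h i)) (span_top hv hc) x
  refine ⟨l, hl, fun w => ?_⟩
  rw [← Pi.sub_apply, e, Finset.sum_apply]
  refine (norm_sum_le _ _).trans ((Finset.sum_le_card_nsmul _ _ (1 / 2 * ρ w) fun i _ => ?_).trans
    (le_of_eq ?_))
  · rw [Pi.smul_apply, norm_smul, norm_sg, Real.norm_eq_abs]
    exact mul_le_mul (hc' i) (hρ i w) (apply_nonneg _ _) (by norm_num)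
  · rw [Finset.card_univ, hc, nsmul_eq_mul]
    ring

theorem finrank_eq : finrank ℝ (InfinitePlace K → ℂ) = finrank ℚ K := by
  rw [Module.finrank_pi_fintype, IsTotallyComplex.finrank]
  simp only [Complex.finrank_real_complex, Finset.sum_const, Finset.card_univ, smul_eq_mul]
  rw [InfinitePlace.card_eq_nrRealPlaces_add_nrComplexPlaces,
    IsTotallyComplex.nrRealPlaces_eq_zero, zero_add, mul_comm]

theorem two_card : 2 * Fintype.card (InfinitePlace K) = finrank ℚ K := by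
  rw [IsTotallyComplex.finrank, InfinitePlace.card_eq_nrRealPlaces_add_nrComplexPlaces,
    IsTotallyComplex.nrRealPlaces_eq_zero, zero_add]

/-- Minkowski's theorem for a polydisc. -/
theorem minkowski {Λ : AddSubgroup K} [DiscreteTopology (im Λ)] [IsZLattice ℝ (im Λ)]
    {r : InfinitePlace K → ℝ} (hr : ∀ w, 0 ≤ r w)
    (h : ZLattice.covolume (im Λ) * 2 ^ finrank ℚ K < ∏ w, Real.pi * r w ^ 2) :
    ∃ g ∈ Λ, g ≠ 0 ∧ ∀ w : InfinitePlace K, w g < r w := by
  have hF := ZLattice.isAddFundamentalDomain (Free.chooseBasis ℤ (im Λ)) volume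
  have : Countable (im Λ).toAddSubgroup := (inferInstance : Countable (im Λ))
  obtain ⟨⟨_, g, hg, rfl⟩, h0, h1⟩ :=
    exists_ne_zero_mem_lattice_of_measure_mul_two_pow_lt_measure (L := (im Λ).toAddSubgroup)
      (s := disc 0 r) hF (fun x hx w => by simpa using hx w)
      (disc_eq 0 r ▸ convex_pi fun w _ => convex_ball _ _) (by
        rw [vol_disc 0 hr, finrank_eq, ← ENNReal.ofReal_toReal
          (ZSpan.fundamentalDomain_isBounded _).measure_lt_top.ne, ← Measure.real,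
          ← ZLattice.covolume_eq_measure_fundamentalDomain _ _ hF, ← ENNReal.ofReal_ofNat,
          ← ENNReal.ofReal_pow (by norm_num), ← ENNReal.ofReal_mul (ZLattice.covolume_pos _ _).le,
          ENNReal.ofReal_lt_ofReal_iff_of_nonneg
            (mul_nonneg (ZLattice.covolume_pos _ _).le (by positivity))]
        exact h)
  refine ⟨g, hg, fun e => h0 (Subtype.ext (by simp [e])), fun w => ?_⟩
  have := h1 w
  rwa [Pi.zero_apply, sub_zero, ← norm_sg] at *

end LCnt

end Pool.Agent.Lib.BK2
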