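import Pool.Agent.Lib.BK2.RDefs

/-! Differentiating the solution of an overdetermined linear system. -/

noncomputable section

namespace Pool.Agent.Lib.BK2

open Finset

namespace LSYS

theorem diff_det {O : Type} [Fintype O] [DecidableEq O] (N : ℝ → Matrix O O ℝ)
    (h : ∀ i j, DifferentiableAt ℝ (fun ε => N ε i j) 0) :
    DifferentiableAt ℝ (fun ε => (N ε).det) 0 := by
  simp only [Matrix.det_apply']
  exact DifferentiableAt.fun_sum fun σ _ =>
    (DifferentiableAt.fun_finsetProd fun i _ => h _ _).const_mul _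

theorem diff_sol {O : Type} [Fintype O] [DecidableEq O] (G : ℝ → Matrix O O ℝ) (x ρ : ℝ → O → ℝ)
    (hG : ∀ i j, DifferentiableAt ℝ (fun ε => G ε i j) 0) (h0 : G 0 = 1)
    (hρ : ∀ i, DifferentiableAt ℝ (fun ε => ρ ε i) 0)
    (h : ∀ᶠ ε in nhds (0 : ℝ), (G ε).mulVec (x ε) = ρ ε) (i : O) :
    DifferentiableAt ℝ (fun ε => x ε i) 0 := by
  have d1 := diff_det G hG
  have n1 : (G 0).det ≠ 0 := by rw [h0, Matrix.det_one]; exact one_ne_zero
  have d2 := diff_det (fun ε => (G ε).updateCol i (ρ ε)) fun a b => by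
    by_cases k : b = i
    · simpa only [k, Matrix.updateCol_self] using hρ a
    · simpa only [Matrix.updateCol_ne k] using hG a b
  refine (d2.fun_div d1 n1).congr_of_eventuallyEq ?_
  filter_upwards [h, d1.continuousAt.eventually_ne n1] with ε k1 k2
  rw [eq_div_iff k2, ← Matrix.cramer_apply, Matrix.cramer_eq_adjugate_mulVec, ← k1,
    Matrix.mulVec_mulVec, Matrix.adjugate_mul, Matrix.smul_mulVec, Matrix.one_mulVec,
    Pi.smul_apply, smul_eq_mul, mul_comm]

theorem exists_inv {E O : Type} [Fintype O] [DecidableEq O] (A₀ : E → O → ℝ)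
    (h : ∀ C : O → ℝ, (∀ e, ∑ j, C j * A₀ e j = 0) → C = 0) (j : O) :
    ∃ c : E →₀ ℝ, ∀ k, ∑ e ∈ c.support, c e * A₀ e k = if j = k then 1 else 0 := by
  have h1 : Submodule.span ℝ (Set.range A₀) = ⊤ := by
    by_contra k
    obtain ⟨f, f0, hf⟩ := Submodule.exists_le_ker_of_lt_top _ (lt_top_iff_ne_top.2 k)
    have := h (fun i => f fun j => if i = j then 1 else 0) fun e => by
      have l : f (A₀ e) = 0 := hf (Submodule.subset_span ⟨e, rfl⟩)
      rw [LinearMap.pi_apply_eq_sum_univ] at l
      simpa only [smul_eq_mul, mul_comm] using l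
    refine f0 (LinearMap.ext fun v => ?_)
    rw [LinearMap.pi_apply_eq_sum_univ]
    exact sum_eq_zero fun i _ => by rw [show f _ = 0 from congrFun this i, smul_zero]
  obtain ⟨c, hc⟩ := Finsupp.mem_span_range_iff_exists_finsupp.1
    (h1 ▸ Submodule.mem_top : (fun k => if j = k then (1 : ℝ) else 0) ∈
      Submodule.span ℝ (Set.range A₀))
  refine ⟨c, fun k => ?_⟩
  have := congrFun hc k
  simpa only [Finsupp.sum, Finset.sum_apply, Pi.smul_apply, smul_eq_mul] using this

end LSYS

theorem stLSYS : St_LSYS := by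
  intro E O V _ _ _ A₀ hA x₀ A₁ r₁ A x r hx h0 h1 h2 h3
  classical
  choose c hc using LSYS.exists_inv A₀ hA
  refine ⟨fun j => ∑ e ∈ (c j).support, c j e • (r₁ e - ∑ k, x₀ k • A₁ e k), fun u e => ?_⟩
  have d : ∀ j, DifferentiableAt ℝ (fun ε => x u ε j) 0 := LSYS.diff_sol
    (fun ε => Matrix.of fun j k => ∑ e ∈ (c j).support, c j e * A u ε e k) (x u)
    (fun ε j => ∑ e ∈ (c j).support, c j e * r u ε e)
    (fun j k => DifferentiableAt.fun_sum fun e _ => (h1 u e k).differentiableAt.const_mul _)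
    (by
      ext j k
      simp only [Matrix.of_apply, h0, hc, Matrix.one_apply])
    (fun j => DifferentiableAt.fun_sum fun e _ => (h2 u e).differentiableAt.const_mul _) (by
      have := (Filter.eventually_all_finset (univ.biUnion fun j => (c j).support)).2
        fun e _ => h3 u e
      filter_upwards [this] with ε k
      funext j
      simp only [Matrix.mulVec, dotProduct, Matrix.of_apply, sum_mul]
      rw [sum_comm]
      refine sum_congr rfl fun e l => ?_
      rw [← k e (mem_biUnion.2 ⟨j, mem_univ _, l⟩), mul_sum]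
      exact sum_congr rfl fun i _ => by ring)
  have key : ∀ e, ∑ j, deriv (fun ε => x u ε j) 0 * A₀ e j + ∑ j, x₀ j * A₁ e j u = r₁ e u :=
    fun e => by
      have k := HasDerivAt.fun_sum fun j (_ : j ∈ univ) => (d j).hasDerivAt.fun_mul (h1 u e j)
      have := k.unique ((h2 u e).congr_of_eventuallyEq (h3 u e))
      simpa only [h0, hx, sum_add_distrib] using this
  rw [← key e]
  refine congrArg (· + _) (sum_congr rfl fun j _ => congrArg (· * _) ?_)
  simp only [LinearMap.coe_sum, Finset.sum_apply, LinearMap.smul_apply, LinearMap.sub_apply,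
    smul_eq_mul, ← key, add_sub_cancel_right, mul_sum]
  rw [sum_comm, sum_congr rfl (g := fun k => if j = k then deriv (fun ε => x u ε k) 0 else 0)
    fun k _ => ?_, sum_ite_eq, if_pos (mem_univ _)]
  rw [← mul_boole, ← hc j k, mul_sum]
  exact sum_congr rfl fun e _ => by ring

end Pool.Agent.Lib.BK2
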