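import Pool.Agent.Lib.BK2.LDefs

/-! BK2: the trigonometric model. -/

namespace Pool.Agent.Lib.BK2

open Finset

namespace MOD

lemma ee_eq (x : ℝ) : ee x = Complex.exp (((2 * Real.pi * x : ℝ) : ℂ) * Complex.I) := by
  unfold ee; push_cast; rfl

lemma norm_ee (x : ℝ) : ‖ee x‖ = 1 := by rw [ee_eq]; exact Complex.norm_exp_ofReal_mul_I _

lemma ee_re (x : ℝ) : (ee x).re = Real.cos (2 * Real.pi * x) := by
  rw [ee_eq]; exact Complex.exp_ofReal_mul_I_re _

lemma ee_im (x : ℝ) : (ee x).im = Real.sin (2 * Real.pi * x) := by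
  rw [ee_eq]; exact Complex.exp_ofReal_mul_I_im _

lemma ee_add (x y : ℝ) : ee (x + y) = ee x * ee y := by
  unfold ee; rw [← Complex.exp_add]; congr 1; push_cast; ring

lemma ee_zero : ee 0 = 1 := by unfold ee; simp

lemma ee_nat (n : ℕ) (x : ℝ) : ee (n * x) = ee x ^ n := by
  induction n with
  | zero => simp [ee_zero]
  | succ n ih => rw [pow_succ, ← ih, ← ee_add]; congr 1; push_cast; ring

lemma norm_ee_sub_one (x : ℝ) : ‖ee x - 1‖ ≤ 8 * |x| := by
  rw [ee_eq, mul_comm]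
  refine Real.norm_exp_I_mul_ofReal_sub_one_le.trans ?_
  rw [Real.norm_eq_abs, abs_mul, abs_of_pos (by positivity : 0 < 2 * Real.pi)]
  have := Real.pi_le_four
  have := abs_nonneg x
  nlinarith

lemma norm_ee_sub (x y : ℝ) : ‖ee x - ee y‖ ≤ 8 * |x - y| := by
  have : ee x - ee y = ee y * (ee (x - y) - 1) := by
    rw [mul_sub, ← ee_add]; simp
  rw [this, norm_mul, norm_ee, one_mul]; exact norm_ee_sub_one _

lemma norm_ee_two (x : ℝ) :
    ‖ee x - 1 - ((2 * Real.pi * x : ℝ) : ℂ) * Complex.I‖ ≤ 192 * x ^ 2 := by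
  set y : ℝ := 2 * Real.pi * x with hy
  have hn : ‖(y : ℂ) * Complex.I‖ = |y| := by simp
  have hy2 : y ^ 2 ≤ 64 * x ^ 2 := by
    have h1 := Real.pi_le_four
    have h2 := Real.pi_pos
    have : Real.pi ^ 2 ≤ 16 := by nlinarith
    rw [hy]; nlinarith [sq_nonneg x]
  have key : ‖ee x - 1 - (y : ℂ) * Complex.I‖ ≤ 3 * y ^ 2 := by
    rcases le_total |y| 1 with h | h
    · rw [ee_eq]
      have := Complex.norm_exp_sub_one_sub_id_le (x := (y : ℂ) * Complex.I) (by rw [hn]; exact h)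
      rw [hn, sq_abs] at this
      nlinarith [sq_nonneg y]
    · have h1 : ‖ee x - 1 - (y : ℂ) * Complex.I‖ ≤ 1 + 1 + |y| := by
        refine (norm_sub_le _ _).trans ?_
        rw [hn]
        have := norm_sub_le (ee x) 1
        rw [norm_ee, norm_one] at this
        linarith
      have h2 : y ^ 2 = |y| ^ 2 := (sq_abs y).symm
      rw [h2]; nlinarith
  linarith

lemma abs_sin_sub (y : ℝ) : |Real.sin y - y| ≤ |y| ^ 3 := by
  have h : ∀ z : ℝ, 0 < z → |Real.sin z - z| ≤ |z| ^ 3 := by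
    intro z hz
    have h1 := Real.sin_gt_sub_cube hz
    have h2 := Real.sin_le hz.le
    rw [abs_of_pos hz, abs_le]
    have : 0 < z ^ 3 := by positivity
    constructor <;> linarith
  rcases lt_trichotomy y 0 with hy | hy | hy
  · have := h (-y) (by linarith)
    rw [Real.sin_neg, abs_neg] at this
    have e : -Real.sin y - -y = -(Real.sin y - y) := by ring
    rwa [e, abs_neg] at this
  · simp [hy]
  · exact h y hy

lemma norm_pow_sub (a b : ℂ) (r : ℝ) (ha : ‖a‖ ≤ r) (hb : ‖b‖ ≤ r) (n : ℕ) :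
    ‖a ^ (n + 1) - b ^ (n + 1)‖ ≤ (n + 1) * ‖a - b‖ * r ^ n := by
  have hr : 0 ≤ r := (norm_nonneg a).trans ha
  induction n with
  | zero => simp
  | succ n ih =>
    have e : a ^ (n + 1 + 1) - b ^ (n + 1 + 1)
        = a * (a ^ (n + 1) - b ^ (n + 1)) + (a - b) * b ^ (n + 1) := by ring
    rw [e]
    refine (norm_add_le _ _).trans ?_
    rw [norm_mul, norm_mul, norm_pow]
    have h1 : ‖a‖ * ‖a ^ (n + 1) - b ^ (n + 1)‖ ≤ r * ((n + 1) * ‖a - b‖ * r ^ n) :=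
      mul_le_mul ha ih (norm_nonneg _) hr
    have h2 : ‖a - b‖ * ‖b‖ ^ (n + 1) ≤ ‖a - b‖ * r ^ (n + 1) :=
      mul_le_mul_of_nonneg_left (pow_le_pow_left₀ (norm_nonneg _) hb _) (norm_nonneg _)
    push_cast
    calc _ ≤ r * ((n + 1) * ‖a - b‖ * r ^ n) + ‖a - b‖ * r ^ (n + 1) := add_le_add h1 h2
      _ = _ := by ring

/-! ### grid sums -/

lemma sum_nat (R : ℝ) (hR : 0 < R) (n : ℕ) :
    ∑ t ∈ range n, 1 / (1 + (((t + 1 : ℕ) : ℝ) / R) ^ 2) ≤ 2 * R - 2 * R ^ 2 / (R + n) := by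
  induction n with
  | zero => simp; field_simp; rfl
  | succ n ih =>
    rw [sum_range_succ]
    have hn : (0 : ℝ) ≤ n := Nat.cast_nonneg n
    have : 1 / (1 + (((n + 1 : ℕ) : ℝ) / R) ^ 2)
        ≤ 2 * R ^ 2 / (R + n) - 2 * R ^ 2 / (R + ((n + 1 : ℕ) : ℝ)) := by
      push_cast
      rw [div_sub_div _ _ (by positivity) (by positivity), div_le_div_iff₀ (by positivity)
        (by positivity)]
      have e : (1 + ((n + 1) / R) ^ 2) = (R ^ 2 + (n + 1) ^ 2) / R ^ 2 := by field_simp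
      rw [e]
      have e2 : (2 * R ^ 2 * (R + (n + 1)) - (R + n) * (2 * R ^ 2)) * ((R ^ 2 + (n + 1) ^ 2) / R ^ 2)
          = 2 * (R ^ 2 + (n + 1) ^ 2) := by field_simp; ring
      rw [e2]
      nlinarith [sq_nonneg (R - (n + 1))]
    linarith

lemma sum_Icc_even (g : ℤ → ℝ) (hg : ∀ t, g (-t) = g t) (n : ℕ) :
    ∑ t ∈ Finset.Icc (-(n : ℤ)) (n : ℤ), g t = g 0 + 2 * ∑ t ∈ range n, g ((t + 1 : ℕ) : ℤ) := by
  induction n with
  | zero => simp
  | succ n ih =>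
    have e : Finset.Icc (-((n + 1 : ℕ) : ℤ)) ((n + 1 : ℕ) : ℤ)
        = insert (-((n + 1 : ℕ) : ℤ)) (insert ((n + 1 : ℕ) : ℤ) (Finset.Icc (-(n : ℤ)) (n : ℤ))) := by
      ext t; simp only [mem_Icc, mem_insert]; push_cast; omega
    rw [e, sum_insert, sum_insert, ih, sum_range_succ, hg]
    · ring
    · simp only [mem_Icc]; push_cast; omega
    · simp only [mem_Icc, mem_insert]; push_cast; omega

lemma sum_frq (R : ℝ) (hR : 1 ≤ R) (P : ℕ) :
    ∑ t ∈ frq P, 1 / (1 + ((t : ℝ) / R) ^ 2) ≤ 5 * R := by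
  unfold frq
  rw [sum_Icc_even (fun t : ℤ => 1 / (1 + ((t : ℝ) / R) ^ 2))
    (by intro t; push_cast; rw [neg_div, neg_sq])]
  have h := sum_nat R (by linarith) (P / 2)
  have h2 : 0 ≤ 2 * R ^ 2 / (R + ((P / 2 : ℕ) : ℝ)) := by positivity
  simp only [Int.cast_zero, zero_div, Int.cast_natCast]
  norm_num at h ⊢
  linarith

lemma pow_le_exp (α : ℝ) (hα : 0 < α) (n : ℕ) (u : ℝ) (hu : 0 ≤ u) :
    u ^ n ≤ (n.factorial : ℝ) / α ^ n * Real.exp (α * u) := by
  have h := Real.pow_div_factorial_le_exp (α * u) (by positivity) n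
  rw [div_le_iff₀ (by positivity), mul_pow] at h
  rw [div_mul_eq_mul_div, le_div_iff₀ (by positivity)]
  linarith

lemma exists_pt (α : ℝ) (hα : 0 < α) : ∃ C : ℝ, 0 < C ∧ ∀ j ≤ 4, ∀ x : ℝ, 0 ≤ x →
    x ^ j * Real.exp (-(α * x ^ 2)) ≤ C * (1 / (1 + x ^ 2)) := by
  refine ⟨4 * (1 + 6 / α ^ 3), by positivity, fun j hj x hx => ?_⟩
  have h3 := pow_le_exp α hα 3 (x ^ 2) (sq_nonneg x)
  have h0 : 1 ≤ Real.exp (α * x ^ 2) := Real.one_le_exp (by positivity)
  have h1 : x ^ j * (1 + x ^ 2) ≤ 4 * (1 + (x ^ 2) ^ 3) := by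
    rcases le_total x 1 with h | h
    · have : x ^ j ≤ 1 := pow_le_one₀ hx h
      have h2 : x ^ 2 ≤ 1 := pow_le_one₀ hx h
      have : 0 ≤ (x ^ 2) ^ 3 := by positivity
      nlinarith [pow_nonneg hx j]
    · have a1 : x ^ j ≤ x ^ 4 := pow_le_pow_right₀ h hj
      have a2 : 1 ≤ x ^ 2 := one_le_pow₀ h
      have a3 : (x ^ 2) ^ 3 = x ^ 4 * x ^ 2 := by ring
      have a4 : 0 ≤ x ^ 4 := by positivity
      rw [a3]; nlinarith
  rw [Real.exp_neg, mul_one_div, le_div_iff₀ (by positivity), mul_right_comm,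
    ← div_eq_mul_inv, div_le_iff₀ (by positivity)]
  have e : ((3 : ℕ).factorial : ℝ) = 6 := by norm_num [Nat.factorial]
  rw [e] at h3
  nlinarith

lemma exists_grid (α : ℝ) (hα : 0 < α) : ∃ K : ℝ, 0 < K ∧ ∀ j ≤ 4, ∀ k P : ℕ, 1 ≤ k → k ≤ P →
    (1 / (P : ℝ)) * ∑ t ∈ frq P, |(t : ℝ) / P| ^ j * Real.exp (-(α * k * ((t : ℝ) / P) ^ 2))
      ≤ K / Real.sqrt k ^ (j + 1) := by
  obtain ⟨C, hC, h⟩ := exists_pt α hα
  refine ⟨5 * C, by positivity, fun j hj k P hk hkP => ?_⟩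
  have hk' : (1 : ℝ) ≤ k := by exact_mod_cast hk
  have hP : (k : ℝ) ≤ P := by exact_mod_cast hkP
  set q := Real.sqrt k with hq
  have hq1 : 1 ≤ q := by rw [hq]; exact Real.one_le_sqrt.2 hk'
  have hqq : q ^ 2 = k := Real.sq_sqrt (by linarith)
  have hR : 1 ≤ (P : ℝ) / q := by rw [le_div_iff₀ (by linarith)]; nlinarith
  have hs := sum_frq _ hR P
  have ht : ∀ t ∈ frq P, |(t : ℝ) / P| ^ j * Real.exp (-(α * k * ((t : ℝ) / P) ^ 2))
      ≤ C / q ^ j * (1 / (1 + ((t : ℝ) / (P / q)) ^ 2)) := by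
    intro t _
    have h1 := h j hj (|(t : ℝ) / P| * q) (by positivity)
    have e1 : (|(t : ℝ) / P| * q) ^ 2 = k * ((t : ℝ) / P) ^ 2 := by rw [mul_pow, sq_abs, hqq]; ring
    have e2 : ((t : ℝ) / (P / q)) ^ 2 = k * ((t : ℝ) / P) ^ 2 := by
      rw [← hqq]; field_simp
    rw [e1, mul_pow] at h1
    rw [e2, div_mul_eq_mul_div, le_div_iff₀ (by positivity), mul_assoc α]
    linarith
  refine (mul_le_mul_of_nonneg_left (sum_le_sum ht) (by positivity)).trans ?_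
  rw [← mul_sum]
  calc _ ≤ (1 / (P : ℝ)) * (C / q ^ j * (5 * (P / q))) := by gcongr
    _ = _ := by
      have : (0 : ℝ) < P := by linarith
      rw [pow_succ]; field_simp

/-! ### the characteristic function -/

variable {ι : Type} {S : Finset ι} {w a : ι → ℝ} {c0 : ℝ}

lemma normSq_chf (θ : ℝ) : ‖chf S w a θ‖ ^ 2
    = ∑ i ∈ S, ∑ j ∈ S, w i * w j * Real.cos (2 * Real.pi * (θ * (a i - a j))) := by
  rw [Complex.sq_norm, Complex.normSq_apply]
  unfold chf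
  simp only [Complex.re_sum, Complex.im_sum, Complex.re_ofReal_mul, Complex.im_ofReal_mul,
    ee_re, ee_im, sum_mul_sum, ← sum_add_distrib]
  refine sum_congr rfl fun i _ => sum_congr rfl fun j _ => ?_
  have : 2 * Real.pi * (θ * (a i - a j)) = 2 * Real.pi * (θ * a i) - 2 * Real.pi * (θ * a j) := by
    ring
  rw [this, Real.cos_sub]; ring

lemma two_var (h1 : ∑ i ∈ S, w i = 1) :
    ∑ i ∈ S, ∑ j ∈ S, w i * w j * (a i - a j) ^ 2
      = 2 * ∑ i ∈ S, w i * (a i - ∑ j ∈ S, w j * a j) ^ 2 := by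
  set μ := ∑ j ∈ S, w j * a j with hμ
  have h0 : ∑ i ∈ S, w i * (a i - μ) = 0 := by
    simp only [mul_sub, sum_sub_distrib, ← sum_mul, h1, ← hμ]; ring
  have : ∀ i ∈ S, ∑ j ∈ S, w i * w j * (a i - a j) ^ 2
      = w i * (a i - μ) ^ 2 * (∑ j ∈ S, w j) - 2 * (w i * (a i - μ)) * (∑ j ∈ S, w j * (a j - μ))
        + w i * ∑ j ∈ S, w j * (a j - μ) ^ 2 := by
    intro i _
    simp only [mul_sum, ← sum_sub_distrib, ← sum_add_distrib]
    exact sum_congr rfl fun j _ => by ring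
  rw [sum_congr rfl this, h0, h1]
  simp only [mul_one, mul_zero, sub_zero, sum_add_distrib, ← sum_mul, h1]
  ring

lemma normSq_chf_le (hL : Law S w a c0) (θ : ℝ) (hθ : |θ| ≤ 1 / 2) :
    ‖chf S w a θ‖ ^ 2 ≤ 1 - 16 * c0 * θ ^ 2 := by
  rw [normSq_chf]
  have h : ∀ i ∈ S, ∀ j ∈ S, w i * w j * Real.cos (2 * Real.pi * (θ * (a i - a j)))
      ≤ w i * w j - 8 * θ ^ 2 * (w i * w j * (a i - a j) ^ 2) := by
    intro i hi j hj
    have hd : |a i - a j| ≤ 1 := by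
      have := hL.lo i hi; have := hL.hi i hi; have := hL.lo j hj; have := hL.hi j hj
      rw [abs_le]; constructor <;> linarith
    have hx : |2 * Real.pi * (θ * (a i - a j))| ≤ Real.pi := by
      rw [abs_mul, abs_mul θ, abs_of_pos (by positivity : 0 < 2 * Real.pi)]
      have : |θ| * |a i - a j| ≤ 1 / 2 * 1 := mul_le_mul hθ hd (abs_nonneg _) (by norm_num)
      nlinarith [Real.pi_pos]
    have hc := Real.cos_le_one_sub_mul_cos_sq hx
    have e : 2 / Real.pi ^ 2 * (2 * Real.pi * (θ * (a i - a j))) ^ 2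
        = 8 * θ ^ 2 * (a i - a j) ^ 2 := by
      have := Real.pi_pos.ne'
      field_simp; ring
    rw [e] at hc
    have hw : 0 ≤ w i * w j := mul_nonneg (hL.nn i hi) (hL.nn j hj)
    nlinarith
  refine (sum_le_sum fun i hi => sum_le_sum fun j hj => h i hi j hj).trans ?_
  simp only [sum_sub_distrib, ← mul_sum]
  have e := two_var (a := a) hL.one
  simp only [mul_assoc, ← mul_sum] at e ⊢
  rw [e, hL.one]
  simp only [mul_one, hL.one]
  have := hL.var
  nlinarith [sq_nonneg θ]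

lemma abs_frq {P : ℕ} {t : ℤ} (ht : t ∈ frq P) : |(t : ℝ) / P| ≤ 1 / 2 := by
  rcases Nat.eq_zero_or_pos P with rfl | hP
  · simp
  have hP' : (0 : ℝ) < P := by exact_mod_cast hP
  unfold frq at ht
  rw [mem_Icc] at ht
  have h1 : 2 * |t| ≤ (P : ℤ) := by
    have : |t| ≤ ((P / 2 : ℕ) : ℤ) := abs_le.2 ht
    omega
  have h2 : 2 * |(t : ℝ)| ≤ P := by exact_mod_cast h1
  rw [abs_div, abs_of_pos hP', div_le_iff₀ hP']; linarith

lemma norm_chf_pow (hL : Law S w a c0) (h0 : 0 < c0) (θ : ℝ) (hθ : |θ| ≤ 1 / 2) {k m : ℕ}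
    (hk : 4 ≤ k) (hm : k ≤ m + 2) :
    ‖chf S w a θ‖ ^ m ≤ Real.exp (-(4 * c0 * k * θ ^ 2)) := by
  have h1 : ‖chf S w a θ‖ ≤ Real.exp (-(8 * c0 * θ ^ 2)) := by
    refine (pow_le_pow_iff_left₀ (norm_nonneg _) (Real.exp_pos _).le two_ne_zero).1 ?_
    refine (normSq_chf_le hL θ hθ).trans ?_
    rw [← Real.exp_nat_mul]
    have := Real.add_one_le_exp (((2 : ℕ) : ℝ) * -(8 * c0 * θ ^ 2))
    push_cast at this ⊢; linarith
  refine (pow_le_pow_left₀ (norm_nonneg _) h1 m).trans ?_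
  rw [← Real.exp_nat_mul, Real.exp_le_exp]
  have h2 : (k : ℝ) ≤ 2 * m := by exact_mod_cast (by omega : k ≤ 2 * m)
  have : 0 ≤ c0 * θ ^ 2 := by positivity
  nlinarith

lemma Dm_succ (P m : ℕ) (s : ℝ) :
    Dm S w a P (m + 1) s = ∑ i ∈ S, w i * Dm S w a P m (s - a i) := by
  unfold Dm
  simp only [mul_sum]
  rw [sum_comm]
  refine sum_congr rfl fun t _ => ?_
  rw [pow_succ, mul_assoc]
  nth_rewrite 2 [chf]
  rw [sum_mul, mul_sum, Complex.re_sum, mul_sum]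
  refine sum_congr rfl fun i _ => ?_
  have e : ee (-(t / P * (s - a i))) = ee (t / P * a i) * ee (-(t / P * s)) := by
    rw [← ee_add]; congr 1; ring
  rw [e]
  have e2 : chf S w a (t / P) ^ m * ((w i : ℂ) * ee (t / P * a i) * ee (-(t / P * s)))
      = (w i : ℂ) * (chf S w a (t / P) ^ m * (ee (t / P * a i) * ee (-(t / P * s)))) := by ring
  rw [e2, Complex.re_ofReal_mul]; ring

/-- a sum over the frequencies with termwise bounds. -/
lemma abs_sum_le {P : ℕ} (z : ℤ → ℝ) (g : ℤ → ℝ) (A B : ℝ) (hA : 0 ≤ A)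
    (h : ∀ t ∈ frq P, |z t| ≤ A * g t) (hB : (1 / (P : ℝ)) * ∑ t ∈ frq P, g t ≤ B) :
    |(1 / (P : ℝ)) * ∑ t ∈ frq P, z t| ≤ A * B := by
  rw [abs_mul, abs_of_nonneg (by positivity : (0 : ℝ) ≤ 1 / (P : ℝ))]
  calc _ ≤ (1 / (P : ℝ)) * ∑ t ∈ frq P, A * g t :=
        mul_le_mul_of_nonneg_left ((abs_sum_le_sum_abs _ _).trans (sum_le_sum h)) (by positivity)
    _ = A * ((1 / (P : ℝ)) * ∑ t ∈ frq P, g t) := by rw [← mul_sum]; ring
    _ ≤ A * B := mul_le_mul_of_nonneg_left hB hA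

lemma abs_mean (hL : Law S w a c0) {i : ι} (hi : i ∈ S) : |a i - ∑ j ∈ S, w j * a j| ≤ 1 := by
  have h1 : ∑ j ∈ S, w j * 1 ≤ ∑ j ∈ S, w j * a j :=
    sum_le_sum fun j hj => mul_le_mul_of_nonneg_left (hL.lo j hj) (hL.nn j hj)
  have h2 : ∑ j ∈ S, w j * a j ≤ ∑ j ∈ S, w j * 2 :=
    sum_le_sum fun j hj => mul_le_mul_of_nonneg_left (hL.hi j hj) (hL.nn j hj)
  rw [← sum_mul, hL.one] at h1 h2
  have := hL.lo i hi; have := hL.hi i hi
  rw [abs_le]; constructor <;> linarith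

/-- lower bound for one frequency. -/
lemma re_pow_ge (hL : Law S w a c0) (h0 : 0 < c0) (θ : ℝ) (hθ : |θ| ≤ 1 / 2) {k : ℕ}
    (hk : 4 ≤ k) :
    (if 64 * (k * θ ^ 2) ≤ 1 then (1 / 2 : ℝ) else 0)
      - 4 * (|θ| ^ 1 * Real.exp (-(4 * c0 * k * θ ^ 2)))
      - 512 * k * (|θ| ^ 3 * Real.exp (-(4 * c0 * k * θ ^ 2)))
      ≤ (chf S w a θ ^ k * ee (-(θ * (k * ∑ j ∈ S, w j * a j)))).re := by
  set μ := ∑ j ∈ S, w j * a j with hμ
  set E := Real.exp (-(4 * c0 * k * θ ^ 2)) with hE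
  have hE0 : 0 < E := Real.exp_pos _
  set φ := chf S w a θ * ee (-(θ * μ)) with hφ
  have e1 : chf S w a θ ^ k * ee (-(θ * (k * μ))) = φ ^ k := by
    rw [hφ, mul_pow, ← ee_nat]; congr 2; ring
  have hn : ‖φ‖ = ‖chf S w a θ‖ := by rw [hφ, norm_mul, norm_ee, mul_one]
  have e2 : φ = ∑ i ∈ S, (w i : ℂ) * ee (θ * (a i - μ)) := by
    rw [hφ, chf, sum_mul]
    refine sum_congr rfl fun i _ => ?_
    rw [mul_assoc, ← ee_add]; congr 2; ring
  have hre : φ.re = ∑ i ∈ S, w i * Real.cos (2 * Real.pi * (θ * (a i - μ))) := by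
    rw [e2, Complex.re_sum]; simp only [Complex.re_ofReal_mul, ee_re]
  have him : φ.im = ∑ i ∈ S, w i * Real.sin (2 * Real.pi * (θ * (a i - μ))) := by
    rw [e2, Complex.im_sum]; simp only [Complex.im_ofReal_mul, ee_im]
  have hy : ∀ i ∈ S, |2 * Real.pi * (θ * (a i - μ))| ≤ 2 * Real.pi * |θ| := by
    intro i hi
    rw [abs_mul, abs_mul θ, abs_of_pos (by positivity : 0 < 2 * Real.pi)]
    have := mul_le_mul_of_nonneg_left (abs_mean hL hi) (abs_nonneg θ)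
    have := Real.pi_pos
    nlinarith
  have hpi := Real.pi_le_four
  have hpi0 := Real.pi_pos
  have him2 : |φ.im| ≤ 512 * |θ| ^ 3 := by
    have h0' : ∑ i ∈ S, w i * (2 * Real.pi * (θ * (a i - μ))) = 0 := by
      have : ∀ i ∈ S, w i * (2 * Real.pi * (θ * (a i - μ)))
          = 2 * Real.pi * θ * (w i * a i) - 2 * Real.pi * θ * μ * w i := fun i _ => by ring
      rw [sum_congr rfl this, sum_sub_distrib, ← mul_sum, ← mul_sum, hL.one, ← hμ]; ring
    rw [him, ← sub_zero (∑ i ∈ S, _), ← h0', ← sum_sub_distrib]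
    refine (abs_sum_le_sum_abs _ _).trans ?_
    have : ∀ i ∈ S, |w i * Real.sin (2 * Real.pi * (θ * (a i - μ)))
        - w i * (2 * Real.pi * (θ * (a i - μ)))| ≤ w i * (512 * |θ| ^ 3) := by
      intro i hi
      rw [← mul_sub, abs_mul, abs_of_nonneg (hL.nn i hi)]
      refine mul_le_mul_of_nonneg_left ((abs_sin_sub _).trans ?_) (hL.nn i hi)
      have h8 : |2 * Real.pi * (θ * (a i - μ))| ≤ 8 * |θ| := by
        have := hy i hi; have := abs_nonneg θ; nlinarith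
      calc _ ≤ (8 * |θ|) ^ 3 := pow_le_pow_left₀ (abs_nonneg _) h8 3
        _ = _ := by ring
    refine (sum_le_sum this).trans ?_
    rw [← sum_mul, hL.one, one_mul]
  obtain ⟨n, rfl⟩ : ∃ n, k = n + 1 := ⟨k - 1, by omega⟩
  have hrn : |φ.re| ≤ ‖φ‖ := Complex.abs_re_le_norm φ
  have hd := norm_pow_sub φ (φ.re : ℂ) ‖φ‖ le_rfl (by simpa using hrn) n
  have e3 : ‖φ - (φ.re : ℂ)‖ = |φ.im| := by
    have : φ - (φ.re : ℂ) = (φ.im : ℂ) * Complex.I := by
      apply Complex.ext <;> simp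
    rw [this]; simp
  have hpn : ‖φ‖ ^ n ≤ E := by rw [hn]; exact norm_chf_pow hL h0 θ hθ hk (by omega)
  have hpk : ‖φ‖ ^ (n + 1) ≤ E := by rw [hn]; exact norm_chf_pow hL h0 θ hθ hk (by omega)
  have hd2 : φ.re ^ (n + 1) - 512 * ((n + 1 : ℕ) : ℝ) * (|θ| ^ 3 * E) ≤ (φ ^ (n + 1)).re := by
    have h1 : |(φ ^ (n + 1) - (φ.re : ℂ) ^ (n + 1)).re| ≤ _ := (Complex.abs_re_le_norm _).trans hd
    rw [Complex.sub_re, ← Complex.ofReal_pow, Complex.ofReal_re, e3, abs_le] at h1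
    have h2 : ((n : ℝ) + 1) * |φ.im| * ‖φ‖ ^ n ≤ (n + 1) * (512 * |θ| ^ 3) * E := by gcongr
    push_cast; linarith [h1.1]
  rw [e1]
  refine le_trans (sub_le_sub_right ?_ _) hd2
  have hpos : 0 ≤ 4 * (|θ| ^ 1 * E) := by positivity
  split_ifs with hs
  · have hc : 1 - 32 * θ ^ 2 ≤ φ.re := by
      rw [hre]
      have : ∀ i ∈ S, w i * (1 - 32 * θ ^ 2)
          ≤ w i * Real.cos (2 * Real.pi * (θ * (a i - μ))) := by
        intro i hi
        refine mul_le_mul_of_nonneg_left (le_trans ?_ Real.one_sub_sq_div_two_le_cos) (hL.nn i hi)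
        have h8 : |2 * Real.pi * (θ * (a i - μ))| ≤ 8 * |θ| := by
          have := hy i hi; have := abs_nonneg θ; nlinarith
        have := pow_le_pow_left₀ (abs_nonneg _) h8 2
        rw [sq_abs, mul_pow 8, sq_abs] at this
        linarith
      have h2 := sum_le_sum this
      rwa [← sum_mul, hL.one, one_mul] at h2
    have hn1 : (1 : ℝ) ≤ ((n + 1 : ℕ) : ℝ) := by exact_mod_cast Nat.succ_pos n
    have hθ2 : 64 * θ ^ 2 ≤ 1 := by nlinarith [sq_nonneg θ]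
    have hb := one_add_mul_le_pow (a := -(32 * θ ^ 2)) (by nlinarith [sq_nonneg θ]) (n + 1)
    have hp := pow_le_pow_left₀ (by nlinarith [sq_nonneg θ]) hc (n + 1)
    rw [← sub_eq_add_neg] at hb
    nlinarith
  · rcases le_total |θ| (1 / 4) with h4 | h4
    · have : 0 ≤ φ.re := by
        rw [hre]
        refine sum_nonneg fun i hi => mul_nonneg (hL.nn i hi) ?_
        have := abs_le.1 ((hy i hi).trans (show 2 * Real.pi * |θ| ≤ Real.pi / 2 by nlinarith))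
        exact Real.cos_nonneg_of_neg_pi_div_two_le_of_le this.1 this.2
      have := pow_nonneg this (n + 1)
      linarith
    · have h1 : |φ.re ^ (n + 1)| ≤ E := by
        rw [abs_pow]; exact (pow_le_pow_left₀ (abs_nonneg _) hrn _).trans hpk
      have := (abs_le.1 h1).1
      rw [pow_one]; nlinarith

lemma count_main {k P : ℕ} (hk : 1 ≤ k) (hP : k ≤ P) :
    1 / (16 * Real.sqrt k) ≤ (1 / (P : ℝ)) *
      ∑ t ∈ frq P, (if 64 * (k * ((t : ℝ) / P) ^ 2) ≤ 1 then (1 / 2 : ℝ) else 0) := by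
  have hk' : (1 : ℝ) ≤ k := by exact_mod_cast hk
  have hP' : (k : ℝ) ≤ P := by exact_mod_cast hP
  have hP0 : (0 : ℝ) < P := by linarith
  set q := Real.sqrt k with hq
  have hq1 : 1 ≤ q := by rw [hq]; exact Real.one_le_sqrt.2 hk'
  have hqq : q ^ 2 = k := Real.sq_sqrt (by linarith)
  set n := ⌊(P : ℝ) / (8 * q)⌋₊ with hn
  have hn1 : (n : ℝ) ≤ P / (8 * q) := Nat.floor_le (by positivity)
  have hn2 : (P : ℝ) / (8 * q) < n + 1 := Nat.lt_floor_add_one _
  have hn3 : 8 * q * n ≤ P := by rw [le_div_iff₀ (by positivity)] at hn1; linarith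
  have hn0 : (0 : ℝ) ≤ n := Nat.cast_nonneg n
  have hn4 : 8 * n ≤ P := by
    have : (8 : ℝ) * n ≤ P := by nlinarith
    exact_mod_cast this
  have hsub : Finset.Icc (0 : ℤ) n ⊆ frq P := by
    intro t ht
    unfold frq
    rw [mem_Icc] at ht ⊢
    omega
  have h1 : ∑ t ∈ Finset.Icc (0 : ℤ) n, (1 / 2 : ℝ)
      ≤ ∑ t ∈ frq P, (if 64 * (k * ((t : ℝ) / P) ^ 2) ≤ 1 then (1 / 2 : ℝ) else 0) := by
    refine le_trans (le_of_eq (sum_congr rfl fun t ht => ?_))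
      (sum_le_sum_of_subset_of_nonneg hsub fun t _ _ => by split_ifs <;> norm_num)
    rw [mem_Icc] at ht
    have t0 : (0 : ℝ) ≤ t := by exact_mod_cast ht.1
    have t1 : (t : ℝ) ≤ n := by exact_mod_cast ht.2
    rw [if_pos]
    have : 8 * q * t ≤ P := by nlinarith
    have h2 : (8 * q * t) ^ 2 ≤ (P : ℝ) ^ 2 := pow_le_pow_left₀ (by positivity) this 2
    rw [← hqq, div_pow, ← mul_div_assoc, ← mul_div_assoc, div_le_one (by positivity)]
    nlinarith
  refine le_trans ?_ (mul_le_mul_of_nonneg_left h1 (by positivity))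
  simp only [sum_const, Int.card_Icc, nsmul_eq_mul]
  have e : (((n : ℤ) + 1 - 0).toNat : ℝ) = n + 1 := by
    have : ((n : ℤ) + 1 - 0).toNat = n + 1 := by omega
    rw [this]; push_cast; ring
  rw [e, div_lt_iff₀ (by positivity)] at *
  rw [div_le_iff₀ (by positivity)]
  have : 1 / (P : ℝ) * ((n + 1) * (1 / 2)) * (16 * q) = (n + 1) * (8 * q) / P := by
    field_simp; ring
  rw [this, le_div_iff₀ hP0]; linarith

lemma norm_chf_orth {κ : Type} (T : Finset κ) (μ b f : κ → ℝ) (hμ : ∀ x ∈ T, 0 ≤ μ x)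
    (hm : ∑ x ∈ T, μ x ≤ 2) (hb : ∀ x ∈ T, 1 ≤ b x ∧ b x ≤ 2) (h0 : ∑ x ∈ T, μ x * f x = 0)
    (h1 : ∑ x ∈ T, μ x * f x * b x = 0) (θ : ℝ) :
    ‖chf T (fun x => μ x * f x) b θ‖ ≤ 1536 * θ ^ 2 * Real.sqrt (∑ x ∈ T, μ x * f x ^ 2) := by
  have e : chf T (fun x => μ x * f x) b θ = ∑ x ∈ T, ((μ x * f x : ℝ) : ℂ) *
      (ee (θ * b x) - 1 - ((2 * Real.pi * (θ * b x) : ℝ) : ℂ) * Complex.I) := by
    have a0 : ∑ x ∈ T, ((μ x * f x : ℝ) : ℂ) = 0 := by rw [← Complex.ofReal_sum, h0]; simp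
    have a1 : ∑ x ∈ T, ((μ x * f x : ℝ) : ℂ) * (((2 * Real.pi * (θ * b x) : ℝ) : ℂ) * Complex.I)
        = 0 := by
      have : ∀ x ∈ T, ((μ x * f x : ℝ) : ℂ) * (((2 * Real.pi * (θ * b x) : ℝ) : ℂ) * Complex.I)
          = ((μ x * f x * b x : ℝ) : ℂ) * (((2 * Real.pi * θ : ℝ) : ℂ) * Complex.I) := by
        intro x _; push_cast; ring
      rw [sum_congr rfl this, ← sum_mul, ← Complex.ofReal_sum, h1]; simp
    simp only [mul_sub, sum_sub_distrib, mul_one, a0, a1, sub_zero, chf]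
  rw [e]
  refine (norm_sum_le _ _).trans ?_
  have h2 : ∀ x ∈ T, ‖((μ x * f x : ℝ) : ℂ) *
      (ee (θ * b x) - 1 - ((2 * Real.pi * (θ * b x) : ℝ) : ℂ) * Complex.I)‖
      ≤ 768 * θ ^ 2 * (Real.sqrt (μ x) * (Real.sqrt (μ x) * |f x|)) := by
    intro x hx
    rw [norm_mul, Complex.norm_real, Real.norm_eq_abs, abs_mul, abs_of_nonneg (hμ x hx),
      ← mul_assoc (Real.sqrt _), Real.mul_self_sqrt (hμ x hx), mul_comm (768 * θ ^ 2)]
    refine mul_le_mul_of_nonneg_left ((norm_ee_two _).trans ?_)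
      (mul_nonneg (hμ x hx) (abs_nonneg _))
    have hb2 : b x ^ 2 ≤ 4 := by nlinarith [(hb x hx).1, (hb x hx).2]
    rw [mul_pow]; nlinarith [sq_nonneg θ]
  refine (sum_le_sum h2).trans ?_
  rw [← mul_sum]
  have h3 : ∑ x ∈ T, Real.sqrt (μ x) * (Real.sqrt (μ x) * |f x|)
      ≤ 2 * Real.sqrt (∑ x ∈ T, μ x * f x ^ 2) := by
    have cs := sum_mul_sq_le_sq_mul_sq T (fun x => Real.sqrt (μ x))
      (fun x => Real.sqrt (μ x) * |f x|)
    have a1 : ∑ x ∈ T, Real.sqrt (μ x) ^ 2 = ∑ x ∈ T, μ x :=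
      sum_congr rfl fun x hx => Real.sq_sqrt (hμ x hx)
    have a2 : ∑ x ∈ T, (Real.sqrt (μ x) * |f x|) ^ 2 = ∑ x ∈ T, μ x * f x ^ 2 :=
      sum_congr rfl fun x hx => by rw [mul_pow, Real.sq_sqrt (hμ x hx), sq_abs]
    rw [a1, a2] at cs
    have a3 : 0 ≤ ∑ x ∈ T, μ x * f x ^ 2 :=
      sum_nonneg fun x hx => mul_nonneg (hμ x hx) (sq_nonneg _)
    refine (le_abs_self _).trans (abs_le_of_sq_le_sq' ?_ (by positivity) |> abs_le.2)
    rw [mul_pow, Real.sq_sqrt a3]; nlinarith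
  nlinarith [sq_nonneg θ]

lemma sum_Dm {κ : Type} (T : Finset κ) (g b : κ → ℝ) (P m : ℕ) (s : ℝ) :
    ∑ x ∈ T, g x * Dm S w a P m (s - b x) = (1 / (P : ℝ)) * ∑ t ∈ frq P,
      (chf S w a (t / P) ^ m * ee (-(t / P * s)) * chf T g b (t / P)).re := by
  unfold Dm
  simp only [mul_sum]
  rw [sum_comm]
  refine sum_congr rfl fun t _ => ?_
  nth_rewrite 3 [chf]
  rw [mul_sum, Complex.re_sum, mul_sum]
  refine sum_congr rfl fun i _ => ?_
  have e : ee (-(t / P * (s - b i))) = ee (-(t / P * s)) * ee (t / P * b i) := by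
    rw [← ee_add]; congr 1; ring
  rw [e]
  have e2 : chf S w a (t / P) ^ m * ee (-(t / P * s)) * ((g i : ℂ) * ee (t / P * b i))
      = (g i : ℂ) * (chf S w a (t / P) ^ m * (ee (-(t / P * s)) * ee (t / P * b i))) := by ring
  rw [e2, Complex.re_ofReal_mul]; ring

lemma chf_prod {κ : Type} (T : Finset κ) (g b : κ → ℝ) (θ : ℝ) :
    chf (T ×ˢ T) (fun z => g z.1 * g z.2) (fun z => b z.1 + b z.2) θ = chf T g b θ ^ 2 := by
  unfold chf
  rw [sq, sum_mul_sum, sum_product]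
  refine sum_congr rfl fun x _ => sum_congr rfl fun y _ => ?_
  rw [mul_add, ee_add]; push_cast; ring

lemma avg_le (hL : Law S w a c0) (F : ι → ℝ) (y B : ℝ) (h : ∀ i ∈ S, |y - F i| ≤ B) :
    |y - ∑ i ∈ S, w i * F i| ≤ B := by
  have e : y - ∑ i ∈ S, w i * F i = ∑ i ∈ S, w i * (y - F i) := by
    simp only [mul_sub, sum_sub_distrib, ← sum_mul, hL.one, one_mul]
  rw [e]
  refine (abs_sum_le_sum_abs _ _).trans ?_
  have : ∀ i ∈ S, |w i * (y - F i)| ≤ w i * B := fun i hi => by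
    rw [abs_mul, abs_of_nonneg (hL.nn i hi)]
    exact mul_le_mul_of_nonneg_left (h i hi) (hL.nn i hi)
  refine (sum_le_sum this).trans ?_
  rw [← sum_mul, hL.one, one_mul]

lemma ratio_le {x D q A : ℝ} (hq : 0 < q) (hD : 1 / 32 / q ≤ D) (h : |x - D| ≤ A / q ^ 2) :
    |x / D - 1| ≤ 32 * A / q := by
  have hD0 : 0 < D := lt_of_lt_of_le (by positivity) hD
  have hA : 0 ≤ A / q ^ 2 := (abs_nonneg _).trans h
  rw [div_sub_one hD0.ne', abs_div, abs_of_pos hD0]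
  calc _ ≤ A / q ^ 2 / (1 / 32 / q) := by gcongr
    _ = _ := by field_simp

end MOD

open MOD in
theorem stMOD : St_MOD := by
  intro c0 h0
  obtain ⟨K, hK, hg⟩ := exists_grid (4 * c0) (by positivity)
  set A : ℝ := 32 * 516 * K with hA
  refine ⟨1 / 32, 32 * 1536 ^ 2 * K, ⌈A ^ 2⌉₊ + 4, by norm_num, by positivity, by omega, ?_⟩
  intro ι S w a hL k P hk hP s0 hs0
  have hk4 : 4 ≤ k := by omega
  have hk' : (4 : ℝ) ≤ k := by exact_mod_cast hk4
  have hg' := fun j hj => hg j hj k P (by omega) hP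
  set q := Real.sqrt k with hq
  have hq1 : 1 ≤ q := by rw [hq]; exact Real.one_le_sqrt.2 (by linarith)
  have hq0 : 0 < q := by linarith
  have hqq : q ^ 2 = k := Real.sq_sqrt (by linarith)
  have hAq : A ≤ q := by
    refine Real.le_sqrt_of_sq_le ((Nat.le_ceil _).trans ?_)
    exact_mod_cast (by omega : ⌈A ^ 2⌉₊ ≤ k)
  have hpw : ∀ m : ℕ, k ≤ m + 2 → ∀ t ∈ frq P, ‖chf S w a (t / P)‖ ^ m
      ≤ Real.exp (-(4 * c0 * k * ((t : ℝ) / P) ^ 2)) :=
    fun m hm t ht => norm_chf_pow hL h0 _ (abs_frq ht) hk4 hm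
  have hlow : 1 / 32 / q ≤ Dm S w a P k s0 := by
    have h1 := sum_le_sum fun (t : ℤ) (ht : t ∈ frq P) => re_pow_ge hL h0 _ (abs_frq ht) hk4
    have h2 := mul_le_mul_of_nonneg_left h1 (by positivity : (0 : ℝ) ≤ 1 / (P : ℝ))
    rw [sum_sub_distrib, sum_sub_distrib, ← mul_sum, ← mul_sum, ← hs0] at h2
    have h3 := count_main (k := k) (by omega) hP
    have g1 := hg' 1 (by norm_num)
    have g3 := mul_le_mul_of_nonneg_left (hg' 3 (by norm_num)) (by linarith : (0 : ℝ) ≤ 512 * k)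
    have e3 : 512 * (k : ℝ) * (K / q ^ (3 + 1)) = 512 * (K / q ^ (1 + 1)) := by
      rw [← hqq]; norm_num; field_simp
    have e4 : 516 * (K / q ^ (1 + 1)) ≤ 1 / 32 / q := by
      rw [← mul_div_assoc, div_div, div_le_div_iff₀ (by positivity) (by positivity)]
      have := mul_le_mul_of_nonneg_right hAq hq0.le
      rw [hA] at this
      norm_num; nlinarith
    have e5 : 1 / (16 * q) = 2 * (1 / 32 / q) := by field_simp; ring
    rw [← hq, e5] at h3
    rw [e3] at g3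
    unfold Dm
    nlinarith
  have hD0 : 0 < Dm S w a P k s0 := lt_of_lt_of_le (by positivity) hlow
  have hlip : ∀ m : ℕ, k ≤ m + 2 → ∀ s s' : ℝ,
      |Dm S w a P m s - Dm S w a P m s'| ≤ 8 * |s - s'| * (K / q ^ (1 + 1)) := by
    intro m hm s s'
    unfold Dm
    rw [← mul_sub, ← sum_sub_distrib]
    refine abs_sum_le _ _ _ _ (by positivity) (fun t ht => ?_) (hg' 1 (by norm_num))
    rw [← Complex.sub_re, ← mul_sub]
    refine (Complex.abs_re_le_norm _).trans ?_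
    rw [norm_mul, norm_pow]
    have h1 := norm_ee_sub (-(t / P * s)) (-(t / P * s'))
    have e : -((t : ℝ) / P * s) - -(t / P * s') = -(t / P * (s - s')) := by ring
    rw [e, abs_neg, abs_mul] at h1
    calc _ ≤ Real.exp (-(4 * c0 * k * ((t : ℝ) / P) ^ 2)) * (8 * (|(t : ℝ) / P| * |s - s'|)) :=
          mul_le_mul (hpw m hm t ht) h1 (norm_nonneg _) (Real.exp_pos _).le
      _ = _ := by ring
  obtain ⟨n, rfl⟩ : ∃ n, k = n + 2 := ⟨k - 2, by omega⟩
  have hKq : 0 ≤ K / q ^ (1 + 1) := by positivity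
  have hfin : ∀ x B : ℝ, B ≤ 16 * K → |x - Dm S w a P (n + 2) s0| ≤ B / q ^ 2 →
      |x / Dm S w a P (n + 2) s0 - 1| ≤ 32 * 1536 ^ 2 * K / q ∧
      |x / Dm S w a P (n + 2) s0 - 1| ≤ 1 / 2 := by
    intro x B hB h
    have h1 := ratio_le hq0 hlow h
    refine ⟨h1.trans (div_le_div_of_nonneg_right (by nlinarith) hq0.le), h1.trans ?_⟩
    rw [div_le_iff₀ hq0]; nlinarith
  refine ⟨hlow, fun m hm s => ?_, fun m hm s s' => ?_, Dm_succ P, fun b hb1 hb2 => ?_,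
    fun b hb1 hb2 => ?_, fun κ T μ b f hμ hm hb hf0 hf1 => ⟨?_, ?_⟩⟩
  · have := abs_sum_le (P := P) (fun t => (chf S w a (t / P) ^ m * ee (-(t / P * s))).re) _ 1 _
      zero_le_one (fun t ht => by
        refine (Complex.abs_re_le_norm _).trans ?_
        rw [norm_mul, norm_ee, norm_pow, mul_one, one_mul, pow_zero, one_mul]
        exact hpw m hm t ht) (hg' 0 (by norm_num))
    rw [one_mul, zero_add, pow_one] at this
    exact this.trans (by gcongr; nlinarith)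
  · refine (hlip m hm s s').trans ?_
    rw [show (1 + 1 : ℕ) = 2 from rfl, hqq, ← mul_div_assoc]
    have := abs_nonneg (s - s')
    gcongr ?_ / _
    nlinarith [mul_nonneg this hK.le]
  · refine hfin _ (8 * K) (by linarith) ?_
    rw [Dm_succ P (n + 1)]
    refine avg_le hL _ _ _ fun i hi => (hlip (n + 1) (by omega) _ _).trans ?_
    have : |s0 - b - (s0 - a i)| ≤ 1 := by
      have := hL.lo i hi; have := hL.hi i hi
      rw [abs_le]; constructor <;> linarith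
    rw [mul_div_assoc]; nlinarith
  · refine hfin _ (16 * K) le_rfl ?_
    rw [Dm_succ P (n + 1)]
    refine avg_le hL _ _ _ fun i hi => ?_
    rw [Dm_succ P n]
    refine avg_le hL _ _ _ fun j hj => (hlip n (by omega) _ _).trans ?_
    have : |s0 - b - (s0 - a i - a j)| ≤ 2 := by
      have := hL.lo i hi; have := hL.hi i hi; have := hL.lo j hj; have := hL.hi j hj
      rw [abs_le]; constructor <;> linarith
    rw [mul_div_assoc]; nlinarith
  · set F := ∑ x ∈ T, μ x * f x ^ 2 with hF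
    have hF0 : 0 ≤ F := sum_nonneg fun x hx => mul_nonneg (hμ x hx) (sq_nonneg _)
    have e := sum_Dm (S := S) (w := w) (a := a) (T ×ˢ T)
      (fun z => μ z.1 * f z.1 * (μ z.2 * f z.2)) (fun z => b z.1 + b z.2) P n s0
    rw [sum_product] at e
    simp only [← mul_div_assoc, ← sum_div, Nat.add_sub_cancel]
    rw [e, abs_div, abs_of_pos hD0]
    have h1 := abs_sum_le (P := P) (fun t => (chf S w a (t / P) ^ n * ee (-(t / P * s0)) *
      chf (T ×ˢ T) (fun z => μ z.1 * f z.1 * (μ z.2 * f z.2)) (fun z => b z.1 + b z.2)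
        (t / P)).re) _ (1536 ^ 2 * F) _ (by positivity) (fun t ht => by
        refine (Complex.abs_re_le_norm _).trans ?_
        rw [chf_prod T (fun x => μ x * f x) b, norm_mul, norm_mul, norm_ee, norm_pow, norm_pow,
          mul_one]
        have h2 := pow_le_pow_left₀ (norm_nonneg _)
          (norm_chf_orth T μ b f hμ hm hb hf0 hf1 (t / P)) 2
        rw [mul_pow, Real.sq_sqrt hF0] at h2
        refine (mul_le_mul (hpw n le_rfl t ht) h2 (by positivity) (Real.exp_pos _).le).trans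
          (le_of_eq ?_)
        rw [show (4 : ℕ) = 2 * 2 from rfl, pow_mul, sq_abs]; ring) (hg' 4 le_rfl)
    calc _ ≤ 1536 ^ 2 * F * (K / q ^ (4 + 1)) / (1 / 32 / q) := by gcongr
      _ = _ := by rw [← hqq]; field_simp
  · set F := Real.sqrt (∑ x ∈ T, μ x * f x ^ 2) with hF
    have hF0 : 0 ≤ F := Real.sqrt_nonneg _
    have e := sum_Dm (S := S) (w := w) (a := a) T (fun x => μ x * f x) b P (n + 1) s0
    simp only [← mul_div_assoc, ← sum_div, show n + 2 - 1 = n + 1 from rfl]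
    rw [e, abs_div, abs_of_pos hD0]
    have h1 := abs_sum_le (P := P) (fun t => (chf S w a (t / P) ^ (n + 1) * ee (-(t / P * s0)) *
      chf T (fun x => μ x * f x) b (t / P)).re) _ (1536 * F) _ (by positivity) (fun t ht => by
        refine (Complex.abs_re_le_norm _).trans ?_
        rw [norm_mul, norm_mul, norm_ee, norm_pow, mul_one]
        refine (mul_le_mul (hpw (n + 1) (by omega) t ht)
          (norm_chf_orth T μ b f hμ hm hb hf0 hf1 (t / P)) (by positivity)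
          (Real.exp_pos _).le).trans (le_of_eq ?_)
        rw [sq_abs]; ring) (hg' 2 (by norm_num))
    calc _ ≤ 1536 * F * (K / q ^ (2 + 1)) / (1 / 32 / q) := by gcongr
      _ = 32 * 1536 * K / q ^ 2 * F := by field_simp
      _ ≤ _ := by rw [hqq]; gcongr; norm_num

end Pool.Agent.Lib.BK2
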