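import Pool.Agent.Lib.BK2.Blue1

open Polynomial

noncomputable section

namespace Pool.Agent.Lib.BK2

namespace MODP

variable {B : Type} [CommRing B] [Algebra ℤ[X] B] {d : ℕ} [NeZero d] (Γ : Geo B d)

theorem map_alg {R : Type} [CommRing R] (x : B →+* R) (g : ℤ[X]) :
    x (algebraMap ℤ[X] B g) = g.eval₂ (Int.castRingHom R) (x Γ.t) := by
  have h : x.comp (algebraMap ℤ[X] B) = Polynomial.eval₂RingHom (Int.castRingHom R) (x Γ.t) := by
    apply Polynomial.ringHom_ext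
    · intro a
      simp
    · simp [Geo.t]
  exact congrArg (fun φ : ℤ[X] →+* R => φ g) h

theorem map_eq {R : Type} [CommRing R] (x : B →+* R) (f : B) :
    x f = ∑ l, (Γ.b.repr f l).eval₂ (Int.castRingHom R) (x Γ.t) * x (Γ.b l) := by
  conv_lhs => rw [← Γ.b.sum_repr f]
  rw [map_sum]
  refine Finset.sum_congr rfl fun l _ => ?_
  rw [Algebra.smul_def, map_mul, map_alg Γ]

theorem hom_ext {R : Type} [CommRing R] (x x' : B →+* R) (ht : x Γ.t = x' Γ.t)
    (hb : ∀ l, x (Γ.b l) = x' (Γ.b l)) : x = x' := by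
  ext f
  rw [map_eq Γ x, map_eq Γ x', ht]
  exact Finset.sum_congr rfl fun l _ => by rw [hb]

include Γ in
theorem finite_hom (R : Type) [CommRing R] [Finite R] : Finite (B →+* R) := by
  refine Finite.of_injective (fun x : B →+* R => (x Γ.t, fun l => x (Γ.b l))) ?_
  intro x x' h
  simp only [Prod.mk.injEq] at h
  exact hom_ext Γ x x' h.1 fun l => congrFun h.2 l

theorem card_fibre (F : Type) [Field F] [Finite F] (τ : F) :
    Nat.card {x : B →+* F // x Γ.t = τ} ≤ d := by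
  have := finite_hom Γ F
  have : Fintype {x : B →+* F // x Γ.t = τ} := Fintype.ofFinite _
  have h0 := linearIndependent_monoidHom B F
  have h1 : LinearIndependent F
      (fun x : {x : B →+* F // x Γ.t = τ} => ((x.1 : B →* F) : B → F)) :=
    h0.comp (fun x : {x : B →+* F // x Γ.t = τ} => (x.1 : B →* F)) (by
      intro x x' h
      apply Subtype.ext
      ext f
      exact congrArg (fun φ : B →* F => φ f) h)
  have h2 : LinearIndependent F
      (fun x : {x : B →+* F // x Γ.t = τ} => (fun l => x.1 (Γ.b l) : Fin d → F)) := by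
    rw [Fintype.linearIndependent_iff] at h1 ⊢
    intro g hg
    apply h1 g
    funext f
    have hl : ∀ l, ∑ x : {x : B →+* F // x Γ.t = τ}, g x * x.1 (Γ.b l) = 0 := by
      intro l
      have := congrFun hg l
      simpa [Finset.sum_apply] using this
    simp only [Finset.sum_apply, Pi.smul_apply, smul_eq_mul, MonoidHom.coe_coe, Pi.zero_apply]
    have e : ∀ x : {x : B →+* F // x Γ.t = τ}, g x * x.1 f =
        ∑ l, (Γ.b.repr f l).eval₂ (Int.castRingHom F) τ * (g x * x.1 (Γ.b l)) := by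
      intro x
      rw [map_eq Γ x.1 f, x.2, Finset.mul_sum]
      exact Finset.sum_congr rfl fun l _ => by ring
    rw [Finset.sum_congr rfl fun x _ => e x, Finset.sum_comm]
    refine Finset.sum_eq_zero fun l _ => ?_
    rw [← Finset.mul_sum, hl, mul_zero]
  have h3 := h2.fintype_card_le_finrank
  rw [Nat.card_eq_fintype_card]
  simpa using h3

theorem card_le_of_mem (F : Type) [Field F] [Finite F] (S : Finset F) (q : (B →+* F) → Prop)
    (hq : ∀ x, q x → x Γ.t ∈ S) : Nat.card {x // q x} ≤ S.card * d := by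
  classical
  have := finite_hom Γ F
  have : Fintype (B →+* F) := Fintype.ofFinite _
  rw [Nat.card_eq_fintype_card, Fintype.card_subtype]
  rw [Finset.card_eq_sum_card_fiberwise (f := fun x : B →+* F => x Γ.t) (t := S)
    (fun x hx => hq x (by simpa using hx))]
  rw [← smul_eq_mul]
  refine Finset.sum_le_card_nsmul _ _ _ fun τ _ => ?_
  refine le_trans ?_ (card_fibre Γ F τ)
  rw [Nat.card_eq_fintype_card, Fintype.card_subtype]
  apply Finset.card_le_card
  intro x hx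
  simp only [Finset.mem_filter, Finset.mem_univ, true_and] at hx ⊢
  exact hx.2

theorem le_dmax (l : Fin d) : Γ.δ l ≤ Γ.dmax :=
  Finset.le_sup (f := Γ.δ) (Finset.mem_univ l)

/-- The index of the monomial `t ^ s`. -/
def ixt (m s : ℕ) (h : s ≤ m) : Γ.Ix m := ⟨0, ⟨s, by rw [Γ.δ0]; omega⟩⟩

theorem mon_ixt (m s : ℕ) (h : s ≤ m) : Γ.mon (ixt Γ m s h) = Γ.t ^ s := by
  simp [Geo.mon, ixt, Γ.b0]

/-- The index of the monomial `b l`. -/
def ixb (m : ℕ) (h : Γ.dmax ≤ m) (l : Fin d) : Γ.Ix m :=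
  ⟨l, ⟨0, by have := le_dmax Γ l; omega⟩⟩

theorem mon_ixb (m : ℕ) (h : Γ.dmax ≤ m) (l : Fin d) : Γ.mon (ixb Γ m h l) = Γ.b l := by
  simp [Geo.mon, ixb]

theorem el_two {m : ℕ} (i i' : Γ.Ix m) (α β : ℤ) :
    Γ.el ((Pi.single i α : Γ.Ix m → ℤ) + Pi.single i' β) = α * Γ.mon i + β * Γ.mon i' := by
  classical
  simp only [Geo.el, Pi.add_apply, add_smul, Finset.sum_add_distrib]
  rw [Finset.sum_eq_single i, Finset.sum_eq_single i']
  · simp
  · intro j _ hj
    simp [Pi.single_eq_of_ne hj]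
  · simp
  · intro j _ hj
    simp [Pi.single_eq_of_ne hj]
  · simp

theorem two_points (m : ℕ) (hm : Γ.dmax ≤ m) (h1 : 1 ≤ m) (p : ℕ) (x x' : B →+* ZMod p)
    (hp : p.Prime) (hx : x ≠ x') (u u' : ZMod p) :
    ∃ e : Γ.Ix m → ℤ, x (Γ.el e) = u ∧ x' (Γ.el e) = u' := by
  have := Fact.mk hp
  have hi : ∃ i : Γ.Ix m, x (Γ.mon i) ≠ x' (Γ.mon i) := by
    by_contra hc
    push Not at hc
    apply hx
    apply hom_ext Γ
    · have := hc (ixt Γ m 1 h1)
      rwa [mon_ixt, pow_one] at this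
    · intro l
      have := hc (ixb Γ m hm l)
      rwa [mon_ixb] at this
  obtain ⟨i, hi⟩ := hi
  have hne : x (Γ.mon i) - x' (Γ.mon i) ≠ 0 := sub_ne_zero.2 hi
  obtain ⟨β, hβ⟩ := ZMod.intCast_surjective ((u - u') / (x (Γ.mon i) - x' (Γ.mon i)))
  obtain ⟨α, hα⟩ := ZMod.intCast_surjective (u - (β : ZMod p) * x (Γ.mon i))
  refine ⟨Pi.single (ixt Γ m 0 (Nat.zero_le m)) α + Pi.single i β, ?_, ?_⟩
  · rw [el_two, mon_ixt]
    simp [hα]
  · rw [el_two, mon_ixt]
    simp only [pow_zero, mul_one, map_add, map_intCast, map_mul, hα]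
    have : (β : ZMod p) * (x (Γ.mon i) - x' (Γ.mon i)) = u - u' := by
      rw [hβ, div_mul_cancel₀ _ hne]
    linear_combination -this

theorem mon_split (a a' : ℕ) (h : Γ.dmax ≤ a') (k : Γ.Ix (a + a')) :
    ∃ (i : Γ.Ix a) (j : Γ.Ix a'), Γ.mon i * Γ.mon j = Γ.mon k := by
  obtain ⟨l, s, hs⟩ := k
  have hl := le_dmax Γ l
  refine ⟨ixt Γ a (min s a) (min_le_right _ _), ⟨l, ⟨s - min s a, by omega⟩⟩, ?_⟩
  rw [mon_ixt]
  simp only [Geo.mon]
  rw [← mul_assoc, ← pow_add]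
  congr 2
  omega

/-- Coordinates as a linear map. -/
def coL (c : ℕ) : B →+ (Γ.Ix c → ℤ) where
  toFun := Γ.co c
  map_zero' := by
    funext i
    simp [Geo.co]
  map_add' f g := by
    funext i
    simp [Geo.co]

theorem coL_mon {c : ℕ} (k : Γ.Ix c) : coL Γ c (Γ.mon k) = Pi.single k 1 := by
  classical
  funext k'
  obtain ⟨l, s⟩ := k
  obtain ⟨l', s'⟩ := k'
  have e : Γ.mon ⟨l, s⟩ = (X ^ (s : ℕ) : ℤ[X]) • Γ.b l := by
    simp [Geo.mon, Geo.t, Algebra.smul_def]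
  show (Γ.b.repr (Γ.mon ⟨l, s⟩) l').coeff s' = _
  rw [e, map_smul, Module.Basis.repr_self]
  by_cases hl : l' = l
  · subst hl
    by_cases hs : s' = s
    · subst hs
      simp
    · have h1 : (⟨l', s'⟩ : Γ.Ix c) ≠ ⟨l', s⟩ := by
        intro h
        exact hs (eq_of_heq (Sigma.mk.inj h).2)
      have h2 : (s' : ℕ) ≠ s := fun h => hs (Fin.ext h)
      simp [Pi.single_eq_of_ne h1, coeff_X_pow, h2]
  · have h1 : (⟨l', s'⟩ : Γ.Ix c) ≠ ⟨l, s⟩ := by
      intro h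
      exact hl (Sigma.mk.inj h).1
    simp [Pi.single_eq_of_ne h1, Finsupp.single_eq_of_ne hl]

theorem coL_el {c : ℕ} (v : Γ.Ix c → ℤ) : coL Γ c (Γ.el v) = v := by
  classical
  simp only [Geo.el, map_sum, map_zsmul, coL_mon]
  funext k
  simp [Finset.sum_apply, Pi.single_apply]

theorem coL_mul {m a : ℕ} (c : ℕ) (u : Γ.Ix m → ℤ) (j : Γ.Ix a) :
    coL Γ c (Γ.el u * Γ.mon j) = Γ.mulv c u (Pi.single j 1) := by
  classical
  funext k
  simp only [Geo.el, Finset.sum_mul, smul_mul_assoc, map_sum, map_zsmul, Geo.mulv,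
    Finset.sum_apply, Pi.smul_apply, smul_eq_mul, Int.cast_id]
  refine Finset.sum_congr rfl fun i _ => ?_
  rw [Finset.sum_eq_single j]
  · simp [coL]
  · intro j' _ hj
    simp [Pi.single_eq_of_ne hj]
  · simp

theorem gens (m a c : ℕ) (hm : Γ.dmax ≤ m) (h1 : 1 ≤ m) (ha : Γ.dmax ≤ a) (hc : c = m + a)
    (P : ℕ) (x : B →+* ZMod P) (hP : 0 < P) :
    ∃ 𝒰 : Finset (Γ.Ix m → ℤ), (∀ u ∈ 𝒰, x (Γ.el u) = 0 ∧ ∀ i, |u i| ≤ P) ∧
      ∀ v : Γ.Ix c → ℤ, x (Γ.el v) = 0 → v ∈ Submodule.span ℤ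
        ({z | ∃ u ∈ 𝒰, ∃ j : Γ.Ix a, z = Γ.mulv c u (Pi.single j 1)} ∪
          {z | ∃ k : Γ.Ix c, z = Pi.single k (P : ℤ)}) := by
  classical
  have : NeZero P := ⟨hP.ne'⟩
  subst hc
  set 𝒰 : Finset (Γ.Ix m → ℤ) :=
    (Fintype.piFinset fun _ => Finset.Icc (-(P : ℤ)) P).filter fun u => x (Γ.el u) = 0 with h𝒰
  refine ⟨𝒰, ?_, ?_⟩
  · intro u hu
    rw [h𝒰, Finset.mem_filter, Fintype.mem_piFinset] at hu
    exact ⟨hu.2, fun i => abs_le.2 (Finset.mem_Icc.1 (hu.1 i))⟩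
  set S := Submodule.span ℤ
    ({z | ∃ u ∈ 𝒰, ∃ j : Γ.Ix a, z = Γ.mulv (m + a) u (Pi.single j 1)} ∪
      {z | ∃ k : Γ.Ix (m + a), z = Pi.single k (P : ℤ)}) with hS
  set T : AddSubgroup B := S.toAddSubgroup.comap (coL Γ (m + a)) with hT
  have step : ∀ (i : Γ.Ix m) (j : Γ.Ix a), ∃ n : ℤ, (n : ZMod P) = x (Γ.mon i) ∧
      Γ.mon i * Γ.mon j - n * Γ.mon j ∈ T := by
    intro i j
    refine ⟨((x (Γ.mon i)).val : ℤ), by simp, ?_⟩
    have hv : ((x (Γ.mon i)).val : ℤ) < P := by exact_mod_cast ZMod.val_lt _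
    have hv0 : (0 : ℤ) ≤ ((x (Γ.mon i)).val : ℤ) := Int.natCast_nonneg _
    have hel := el_two Γ i (ixt Γ m 0 (Nat.zero_le m)) 1 (-((x (Γ.mon i)).val : ℤ))
    rw [mon_ixt] at hel
    have hu : ((Pi.single i 1 : Γ.Ix m → ℤ) +
        Pi.single (ixt Γ m 0 (Nat.zero_le m)) (-((x (Γ.mon i)).val : ℤ))) ∈ 𝒰 := by
      rw [h𝒰, Finset.mem_filter, Fintype.mem_piFinset]
      refine ⟨fun l => ?_, ?_⟩
      · rw [Finset.mem_Icc, Pi.add_apply, Pi.single_apply, Pi.single_apply]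
        split_ifs <;> constructor <;> omega
      · rw [hel]
        simp
    have : Γ.mon i * Γ.mon j - (((x (Γ.mon i)).val : ℤ) : B) * Γ.mon j =
        Γ.el ((Pi.single i 1 : Γ.Ix m → ℤ) +
          Pi.single (ixt Γ m 0 (Nat.zero_le m)) (-((x (Γ.mon i)).val : ℤ))) * Γ.mon j := by
      rw [hel]
      push_cast
      ring
    rw [this, hT, AddSubgroup.mem_comap, coL_mul]
    exact Submodule.subset_span (Or.inl ⟨_, hu, j, rfl⟩)
  have smulT : ∀ (n : ℤ) (f : B), f ∈ T → (n : B) * f ∈ T := by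
    intro n f hf
    have := T.zsmul_mem hf n
    rwa [zsmul_eq_mul] at this
  have trans : ∀ (f g : B) (n : ℤ), f - n * g ∈ T → x f = n * x g →
      (∃ n' : ℤ, (n' : ZMod P) = x g ∧ g - n' ∈ T) → ∃ n' : ℤ, (n' : ZMod P) = x f ∧ f - n' ∈ T := by
    rintro f g n hf hx ⟨n', hn', hg⟩
    refine ⟨n * n', by rw [hx, ← hn']; push_cast; ring, ?_⟩
    have := T.add_mem hf (smulT n _ hg)
    have e : f - ((n * n' : ℤ) : B) = f - n * g + n * (g - n') := by
      push_cast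
      ring
    rwa [e]
  have gt : ∀ s, s ≤ a → ∃ n : ℤ, (n : ZMod P) = x (Γ.t ^ s) ∧ Γ.t ^ s - n ∈ T := by
    intro s
    induction s with
    | zero => exact fun _ => ⟨1, by simp, by simp⟩
    | succ s ih =>
      intro hs
      obtain ⟨n, hn, hT'⟩ := step (ixt Γ m 1 h1) (ixt Γ a s (by omega))
      rw [mon_ixt] at hn
      rw [mon_ixt, mon_ixt, ← pow_add, add_comm 1 s] at hT'
      refine trans _ _ n hT' ?_ (ih (by omega))
      rw [hn, ← map_mul, ← pow_add, add_comm 1 s]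
  have ga : ∀ j : Γ.Ix a, ∃ n : ℤ, (n : ZMod P) = x (Γ.mon j) ∧ Γ.mon j - n ∈ T := by
    rintro ⟨l, s, hs⟩
    obtain ⟨n, hn, hT'⟩ := step (ixb Γ m hm l) (ixt Γ a s (by omega))
    rw [mon_ixb] at hn
    rw [mon_ixb, mon_ixt, mul_comm (Γ.b l)] at hT'
    refine trans _ _ n hT' ?_ (gt s (by omega))
    show x (Γ.t ^ s * Γ.b l) = _
    rw [map_mul, hn, mul_comm]
  have gc : ∀ k : Γ.Ix (m + a), ∃ n : ℤ, (n : ZMod P) = x (Γ.mon k) ∧ Γ.mon k - n ∈ T := by
    intro k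
    obtain ⟨i, j, hij⟩ := mon_split Γ m a ha k
    obtain ⟨n, hn, hT'⟩ := step i j
    rw [hij] at hT'
    refine trans _ _ n hT' ?_ (ga j)
    rw [hn, ← map_mul, hij]
  choose n hn hnT using gc
  intro v hv
  have h2 : Γ.el v - ((∑ k, v k * n k : ℤ) : B) ∈ T := by
    have := T.sum_mem fun k (_ : k ∈ Finset.univ) => smulT (v k) _ (hnT k)
    have e : Γ.el v - ((∑ k, v k * n k : ℤ) : B) = ∑ k, (v k : B) * (Γ.mon k - n k) := by
      simp only [Geo.el, zsmul_eq_mul, mul_sub, Finset.sum_sub_distrib]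
      push_cast
      rfl
    rwa [e]
  have h3 : ((∑ k, v k * n k : ℤ) : ZMod P) = 0 := by
    rw [← hv]
    simp only [Geo.el, zsmul_eq_mul, map_sum, map_mul, map_intCast]
    push_cast
    exact Finset.sum_congr rfl fun k _ => by rw [hn]
  obtain ⟨r, hr⟩ := (ZMod.intCast_zmod_eq_zero_iff_dvd _ _).1 h3
  have h4 : ((P : ℤ) : B) ∈ T := by
    have e : ((P : ℤ) : B) = (P : ℤ) • Γ.mon (ixt Γ (m + a) 0 (Nat.zero_le _)) := by
      rw [mon_ixt]
      simp
    rw [e, hT, AddSubgroup.mem_comap, map_zsmul, coL_mon]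
    refine Submodule.subset_span (Or.inr ⟨ixt Γ (m + a) 0 (Nat.zero_le _), ?_⟩)
    rw [← Pi.single_smul]
    simp
  have h5 : Γ.el v ∈ T := by
    have := T.add_mem h2 (smulT r _ h4)
    have e : Γ.el v = Γ.el v - ((∑ k, v k * n k : ℤ) : B) + r * ((P : ℤ) : B) := by
      rw [hr]
      push_cast
      ring
    rwa [e]
  rw [hT, AddSubgroup.mem_comap, coL_el] at h5
  exact h5

end MODP

theorem stMODP (hN : St_NRM) : St_MODP := by
  intro B _ _ _ d _ Γ
  have fin : ∀ p : ℕ, p.Prime → Finite (B →+* ZMod p) := by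
    intro p hp
    have := Fact.mk hp
    exact MODP.finite_hom Γ (ZMod p)
  refine ⟨fun p hp => ⟨fin p hp, ?_⟩, ?_, ?_, fun m hm h1 p x x' hp hx u u' =>
    MODP.two_points Γ m hm h1 p x x' hp hx u u', MODP.mon_split Γ, MODP.gens Γ⟩
  · have := Fact.mk hp
    have := MODP.card_le_of_mem Γ (ZMod p) Finset.univ (fun _ => True) fun _ _ => Finset.mem_univ _
    rw [Finset.card_univ, ZMod.card, mul_comm] at this
    rwa [Nat.card_congr (Equiv.subtypeUnivEquiv fun _ => trivial)] at this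
  · intro R
    have h1 : {q : Nat.Primes | (q : ℕ) ≤ R}.Finite :=
      (Set.finite_Iic R).preimage Nat.Primes.coe_nat_injective.injOn
    have h2 := h1.biUnion (t := fun q : Nat.Primes =>
      Set.range fun x : B →+* ZMod q => (⟨q, x⟩ : Pt B)) fun q _ => by
        have := fin q q.2
        exact Set.finite_range _
    refine h2.subset ?_
    rintro ⟨q, x⟩ hx
    exact Set.mem_biUnion (x := q) hx ⟨x, rfl⟩
  · intro m f hf p hp hne
    have := Fact.mk hp
    classical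
    obtain ⟨hdeg, g, -, hg⟩ := (hN B d Γ m).1 f hf
    have := MODP.card_le_of_mem Γ (ZMod p)
      ((Γ.nrm f).map (Int.castRingHom (ZMod p))).roots.toFinset (fun x => x f = 0) (by
        intro x hx
        rw [Multiset.mem_toFinset, mem_roots hne, IsRoot.def, eval_map, ← MODP.map_alg Γ, ← hg,
          map_mul, hx, zero_mul])
    refine this.trans (Nat.mul_le_mul_right _ ?_)
    exact (Multiset.toFinset_card_le _).trans ((card_roots' _).trans
      (natDegree_map_le.trans hdeg))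

end Pool.Agent.Lib.BK2
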