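import Pool.Agent.Lib.BK2.NDefs

/-!
Section N, block BAS: elementary facts on fractional ideals and on the localised order.
-/

namespace Pool.Agent.Lib.BK2.NT

open Finset NumberField

namespace BAS

variable {K : Type} [Field K] [NumberField K]

omit [NumberField K] in
theorem mem_one {x : K} :
    x ∈ (1 : FractionalIdeal (nonZeroDivisors (RingOfIntegers K)) K) ↔ IsIntegral ℤ x := by
  rw [FractionalIdeal.mem_one_iff]
  constructor
  · rintro ⟨y, rfl⟩
    exact y.isIntegral_coe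
  · intro h
    exact ⟨⟨x, h⟩, rfl⟩

theorem int_mul_mem {A : FractionalIdeal (nonZeroDivisors (RingOfIntegers K)) K} {a x : K}
    (ha : IsIntegral ℤ a) (hx : x ∈ A) : a * x ∈ A := by
  have h := FractionalIdeal.mul_mem_mul (mem_one.2 ha) hx
  rwa [one_mul] at h

omit [NumberField K] in
theorem add_mem' {A : FractionalIdeal (nonZeroDivisors (RingOfIntegers K)) K} {x y : K}
    (hx : x ∈ A) (hy : y ∈ A) : x + y ∈ A :=
  Submodule.add_mem (A : Submodule (RingOfIntegers K) K) hx hy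

omit [NumberField K] in
theorem sub_mem' {A : FractionalIdeal (nonZeroDivisors (RingOfIntegers K)) K} {x y : K}
    (hx : x ∈ A) (hy : y ∈ A) : x - y ∈ A :=
  Submodule.sub_mem (A : Submodule (RingOfIntegers K) K) hx hy

theorem mem_span {g x : K} :
    x ∈ FractionalIdeal.spanSingleton (nonZeroDivisors (RingOfIntegers K)) g ↔
      ∃ a : K, IsIntegral ℤ a ∧ a * g = x := by
  rw [FractionalIdeal.mem_spanSingleton]
  constructor
  · rintro ⟨z, hz⟩
    exact ⟨z, z.isIntegral_coe, by rw [← hz, Algebra.smul_def]⟩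
  · rintro ⟨a, ha, h⟩
    exact ⟨⟨a, ha⟩, by rw [← h, Algebra.smul_def]; rfl⟩

omit [NumberField K] in
theorem nat_int (s : ℕ) : IsIntegral ℤ (s : K) := by
  have h : IsIntegral ℤ (algebraMap ℤ K (s : ℤ)) := isIntegral_algebraMap
  simpa using h

omit [NumberField K] in
theorem int_int (s : ℤ) : IsIntegral ℤ (s : K) := by
  have h : IsIntegral ℤ (algebraMap ℤ K s) := isIntegral_algebraMap
  simpa using h

theorem le_iff (A B : FI K) : A.1 ≤ B.1 ↔ Itg (A * B⁻¹) := by
  unfold Itg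
  constructor
  · intro h
    have h2 : A.1 * (B⁻¹ : FI K).1 ≤ B.1 * (B⁻¹ : FI K).1 := by gcongr
    rwa [Units.mul_inv, ← Units.val_mul] at h2
  · intro h
    have h2 : (A * B⁻¹ : FI K).1 * B.1 ≤ 1 * B.1 := by gcongr
    rwa [one_mul, ← Units.val_mul, inv_mul_cancel_right] at h2

theorem div_ne {g : K} {A : FI K} (h : IsDiv g A) : g ≠ 0 := by
  rintro rfl
  apply A.ne_zero
  rw [h, FractionalIdeal.spanSingleton_zero]

theorem div_inv {g : K} {A : FI K} (h : IsDiv g A) : IsDiv g⁻¹ A⁻¹ := by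
  unfold IsDiv at *
  rw [Units.val_inv_eq_inv_val, h, FractionalIdeal.spanSingleton_inv]

theorem inv_mem_of_int {R : Subring K} {g : K} (hg : g ∈ R) (h0 : g ≠ 0)
    (h : IsIntegral R g⁻¹) : g⁻¹ ∈ R := by
  obtain ⟨p, hp, hx⟩ := h
  rw [Polynomial.eval₂_eq_sum_range, Finset.sum_range_succ, hp.coeff_natDegree, map_one,
    one_mul] at hx
  generalize p.natDegree = n at hx
  rcases n with _ | n
  · simp at hx
  have h1 : g⁻¹ = -∑ i ∈ range (n + 1), (algebraMap R K) (p.coeff i) * g ^ (n - i) := by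
    have h2 : ∑ i ∈ range (n + 1), (algebraMap R K) (p.coeff i) * g ^ (n - i)
        = (∑ i ∈ range (n + 1), (algebraMap R K) (p.coeff i) * g⁻¹ ^ i) * g ^ n := by
      rw [Finset.sum_mul]
      refine Finset.sum_congr rfl fun i hi => ?_
      have hi' : i ≤ n := Nat.lt_succ_iff.1 (Finset.mem_range.1 hi)
      rw [pow_sub₀ g h0 hi', inv_pow]
      ring
    rw [h2, eq_neg_of_add_eq_zero_left hx, inv_pow, pow_succ]
    field_simp
  rw [h1]
  exact R.neg_mem (R.sum_mem fun i _ => R.mul_mem (p.coeff i).2 (R.pow_mem hg _))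

theorem pt_prime {F p : ℕ} {P : FI K} (h : IsPt F P p) :
    ∃ I : Ideal (RingOfIntegers K), I.IsMaximal ∧ (I : FractionalIdeal _ K) = P.1 := by
  obtain ⟨hp, -, I, hI, hn⟩ := h
  have h1 : I.IsPrime := Ideal.isPrime_of_irreducible_absNorm (by rw [hn]; exact hp)
  have h2 : I ≠ ⊥ := by
    rintro rfl
    rw [Ideal.absNorm_bot] at hn
    exact hp.ne_zero hn.symm
  exact ⟨I, h1.isMaximal h2, hI⟩

theorem coe_prod {ι : Type} (d : Finset ι) (Pt : ι → FI K) (I : ι → Ideal (RingOfIntegers K))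
    (h : ∀ x ∈ d, (I x : FractionalIdeal _ K) = (Pt x).1) :
    (∏ x ∈ d, Pt x).1 = ((∏ x ∈ d, I x : Ideal (RingOfIntegers K)) : FractionalIdeal _ K) := by
  rw [Units.coe_prod]
  have h2 := map_prod (FractionalIdeal.coeIdealHom (nonZeroDivisors (RingOfIntegers K)) K) I d
  simp only [FractionalIdeal.coeIdealHom_apply] at h2
  rw [h2]
  exact Finset.prod_congr rfl fun x hx => (h x hx).symm

theorem ne_zero_of_cop {D : ND K} (h : D.OK) {s : ℕ} (hs : s.Coprime D.F) : (s : K) ≠ 0 := by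
  have h3 : 3 ≤ D.F := h.Q3.trans (Nat.le_of_dvd h.Fpos h.QF)
  have : s ≠ 0 := by
    rintro rfl
    rw [Nat.coprime_zero_left] at hs
    omega
  exact_mod_cast this

end BAS

open BAS

theorem stBAS : St_BAS := by
  intro K _ _ D h
  have un_mul : ∀ g g', D.Un g → D.Un g' → D.Un (g * g') := by
    rintro g g' ⟨a1, a2, a3⟩ ⟨b1, b2, b3⟩
    exact ⟨mul_ne_zero a1 b1, D.R.mul_mem a2 b2, by rw [mul_inv]; exact D.R.mul_mem a3 b3⟩
  have un_inv : ∀ g, D.Un g → D.Un g⁻¹ := by
    rintro g ⟨a1, a2, a3⟩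
    exact ⟨inv_ne_zero a1, a3, by rw [inv_inv]; exact a2⟩
  have hQ : (D.Q : K) ∈ D.R := natCast_mem D.R _
  refine
    { cop_one := ⟨1, Nat.coprime_one_left _, by simp, by simp⟩
      cop_mul := ?_
      cop_inv := ?_
      pt := ?_
      un_cop := ?_
      cop_un := ?_
      un_mul := un_mul
      un_inv := un_inv
      u_one := ⟨⟨one_ne_zero, D.R.one_mem, by rw [inv_one]; exact D.R.one_mem⟩,
        0, D.R.zero_mem, by simp⟩
      u_mul := ?_
      u_inv := ?_
      u_div := ?_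
      cls := ?_
      meet := ?_
      nI_pos := ?_
      nI_one := by simp [nI]
      nI_mul := fun A B => by simp [nI]
      nI_itg := ?_
      div_ex := ?_
      div_ne := fun g A hd => div_ne hd
      div_mul := ?_
      div_inv := fun g A hd => div_inv hd
      div_mem := ?_
      le_prod := ?_
      pt_le := ?_
      inj := ?_ }
  · rintro A B ⟨s, hs, s1, s2⟩ ⟨t, ht, t1, t2⟩
    refine ⟨s * t, Nat.Coprime.mul_left hs ht, ?_, ?_⟩
    · rw [Nat.cast_mul, Units.val_mul]
      exact FractionalIdeal.mul_mem_mul s1 t1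
    · rw [Nat.cast_mul, mul_inv, Units.val_mul]
      exact FractionalIdeal.mul_mem_mul s2 t2
  · rintro A ⟨s, hs, s1, s2⟩
    exact ⟨s, hs, s2, by rw [inv_inv]; exact s1⟩
  · intro P p hP
    obtain ⟨J, hJ, hJP⟩ := pt_prime hP
    obtain ⟨hp, hF, I, hI, hn⟩ := hP
    have hit : Itg P := by
      unfold Itg
      rw [← hI]
      exact FractionalIdeal.coeIdeal_le_one
    refine ⟨⟨p, (Nat.Prime.coprime_iff_not_dvd hp).2 hF, ?_, ?_⟩, hit, ⟨J, hJ.isPrime, hJP⟩, ?_⟩
    · rw [← hI]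
      have h1 := FractionalIdeal.mem_coeIdeal_of_mem (P := K)
        (nonZeroDivisors (RingOfIntegers K)) (Ideal.absNorm_mem I)
      rwa [map_natCast, hn] at h1
    · have h1 : (1 : FI K).1 ≤ (P⁻¹ : FI K).1 := by
        rw [le_iff, one_mul, inv_inv]
        exact hit
      exact h1 (mem_one.2 (nat_int p))
    · unfold nI
      rw [← hI, FractionalIdeal.coeIdeal_absNorm, hn]
      simp
  · rintro g A ⟨a1, a2, a3⟩ hd
    obtain ⟨s, hs, s1⟩ := h.int g a2
    obtain ⟨t, ht, t1⟩ := h.int g⁻¹ a3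
    refine ⟨s * t, Nat.Coprime.mul_left hs ht, ?_, ?_⟩
    · rw [hd, mem_span]
      refine ⟨s * (t * g⁻¹), (nat_int s).mul t1, ?_⟩
      push_cast
      field_simp
    · rw [div_inv hd, mem_span]
      refine ⟨t * (s * g), (nat_int t).mul s1, ?_⟩
      push_cast
      field_simp
  · rintro g A hg hd ⟨s, hs, s1, -⟩
    have h0 := div_ne hd
    refine ⟨h0, hg, inv_mem_of_int hg h0 ?_⟩
    rw [hd, mem_span] at s1
    obtain ⟨a, ha, hag⟩ := s1
    have hs0 := ne_zero_of_cop h hs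
    have h1 : g⁻¹ = a * algebraMap D.R K ⟨_, h.inv s hs⟩ := by
      show g⁻¹ = a * (s : K)⁻¹
      field_simp
      rw [← hag]
      ring
    rw [h1]
    exact (ha.tower_top).mul isIntegral_algebraMap
  · rintro g g' ⟨a1, b, hb, e⟩ ⟨a2, b', hb', e'⟩
    refine ⟨un_mul _ _ a1 a2, b + b' + D.Q * b * b',
      D.R.add_mem (D.R.add_mem hb hb') (D.R.mul_mem (D.R.mul_mem hQ hb) hb'), ?_⟩
    rw [e, e']
    ring
  · rintro g ⟨a1, b, hb, e⟩
    refine ⟨un_inv _ a1, -(b * g⁻¹), D.R.neg_mem (D.R.mul_mem hb a1.2.2), ?_⟩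
    have h0 := a1.1
    field_simp
    rw [e]
    ring
  · rintro g z a1 a2 ⟨b, hb, e⟩
    refine ⟨by rw [div_eq_mul_inv]; exact un_mul _ _ a1 (un_inv _ a2), b * z⁻¹,
      D.R.mul_mem hb a2.2.2, ?_⟩
    have h0 := a2.1
    rw [e]
    field_simp
  · rintro A g g' ⟨s, hs, s1, -⟩ hg hg' ⟨b, hb, e⟩
    refine ⟨b, ⟨?_, hb⟩, e⟩
    obtain ⟨t, ht, t1⟩ := h.int b hb
    have h1 : (D.Q : K) * b ∈ A.1 := by
      have := sub_mem' hg.1 hg'.1
      rwa [e, add_sub_cancel_left] at this
    have h2 : (t * b : K) * s ∈ A.1 := int_mul_mem t1 s1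
    have hc : IsCoprime ((s * t : ℕ) : ℤ) (D.Q : ℤ) :=
      Nat.isCoprime_iff_coprime.2 ((Nat.Coprime.mul_left hs ht).coprime_dvd_right h.QF)
    obtain ⟨u, v, huv⟩ := hc
    have h3 : ((u * ((s * t : ℕ) : ℤ) + v * (D.Q : ℤ) : ℤ) : K) = 1 := by rw [huv]; simp
    have h4 := add_mem' (int_mul_mem (int_int u) h2) (int_mul_mem (int_int v) h1)
    have h5 : (u : K) * ((t * b : K) * s) + v * ((D.Q : K) * b) = b := by
      push_cast at h3
      linear_combination b * h3
    rwa [h5] at h4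
  · rintro A ⟨s, hs, s1, -⟩
    have hQ0 : 0 < D.Q := by have := h.Q3; omega
    have ht : 0 < D.Q.totient := Nat.totient_pos.2 hQ0
    have hs0 := ne_zero_of_cop h hs
    have hsp : (s ^ D.Q.totient).Coprime D.F := Nat.Coprime.pow_left _ hs
    refine ⟨((s ^ D.Q.totient : ℕ) : K), ⟨?_, natCast_mem D.R _⟩,
      ⟨ne_zero_of_cop h hsp, natCast_mem D.R _, h.inv _ hsp⟩, ?_⟩
    · obtain ⟨k, hk⟩ := Nat.exists_eq_succ_of_ne_zero ht.ne'
      rw [hk, pow_succ, Nat.cast_mul]
      exact int_mul_mem (nat_int _) s1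
    · have h1 := Nat.ModEq.pow_totient (hs.coprime_dvd_right h.QF)
      obtain ⟨c, hc⟩ := h1.symm.dvd
      refine ⟨(c : K), intCast_mem D.R _, ?_⟩
      have h2 : (((s ^ D.Q.totient : ℕ) : ℤ) : K) = ((1 + D.Q * c : ℤ) : K) := by
        rw [← hc]
        simp
      simpa using h2
  · intro A
    unfold nI
    have h1 := FractionalIdeal.absNorm_nonneg A.1
    have h2 : FractionalIdeal.absNorm A.1 ≠ 0 := fun h0 =>
      A.ne_zero (FractionalIdeal.absNorm_eq_zero_iff.1 h0)
    exact_mod_cast lt_of_le_of_ne h1 h2.symm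
  · intro A hA
    obtain ⟨I, hI⟩ := FractionalIdeal.le_one_iff_exists_coeIdeal.1 hA
    unfold nI
    have h2 : FractionalIdeal.absNorm A.1 ≠ 0 := fun h0 =>
      A.ne_zero (FractionalIdeal.absNorm_eq_zero_iff.1 h0)
    rw [← hI, FractionalIdeal.coeIdeal_absNorm] at h2 ⊢
    have h3 : Ideal.absNorm I ≠ 0 := by exact_mod_cast h2
    exact_mod_cast Nat.one_le_iff_ne_zero.2 h3
  · intro g hg
    exact ⟨Units.mk0 _ (FractionalIdeal.spanSingleton_ne_zero_iff.2 hg), rfl⟩
  · intro g g' A B hA hB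
    unfold IsDiv at *
    rw [Units.val_mul, hA, hB, FractionalIdeal.spanSingleton_mul_spanSingleton]
  · intro g A C hd
    rw [← le_iff, hd, FractionalIdeal.spanSingleton_le_iff_mem]
  · intro A d p hA hd
    rw [← le_iff]
    obtain ⟨J, hJ⟩ := FractionalIdeal.le_one_iff_exists_coeIdeal.1 hA
    have hch : ∀ P : FI K, ∃ I : Ideal (RingOfIntegers K),
        P ∈ d → I.IsMaximal ∧ (I : FractionalIdeal _ K) = P.1 := by
      intro P
      by_cases hP : P ∈ d
      · obtain ⟨I, hI⟩ := pt_prime (hd P hP)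
        exact ⟨I, fun _ => hI⟩
      · exact ⟨⊥, fun h' => absurd h' hP⟩
    choose I hI using hch
    rw [coe_prod d (fun P => P) I fun x hx => (hI x hx).2, ← hJ,
      FractionalIdeal.coeIdeal_le_coeIdeal]
    constructor
    · intro hl
      rw [← Ideal.dvd_iff_le]
      refine Finset.prod_dvd_of_coprime ?_ fun P hP => ?_
      · intro P hP P' hP' hne
        refine Ideal.isCoprime_iff_sup_eq.2 ((hI P hP).1.coprime_of_ne (hI P' hP').1 ?_)
        intro he
        exact hne (Units.ext (by rw [← (hI P hP).2, ← (hI P' hP').2, he]))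
      · have h1 := hl P hP
        rw [← (hI P hP).2, FractionalIdeal.coeIdeal_le_coeIdeal] at h1
        exact Ideal.dvd_iff_le.2 h1
    · intro hl P hP
      rw [← (hI P hP).2, FractionalIdeal.coeIdeal_le_coeIdeal]
      exact hl.trans (Ideal.dvd_iff_le.1 (Finset.dvd_prod_of_mem I hP))
  · intro ι d Pt p P q hd hP hl
    obtain ⟨J, hJ, hJP⟩ := pt_prime hP
    have hch : ∀ x : ι, ∃ I : Ideal (RingOfIntegers K),
        x ∈ d → I.IsMaximal ∧ (I : FractionalIdeal _ K) = (Pt x).1 := by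
      intro x
      by_cases hx : x ∈ d
      · obtain ⟨I, hI⟩ := pt_prime (hd x hx)
        exact ⟨I, fun _ => hI⟩
      · exact ⟨⊥, fun h' => absurd h' hx⟩
    choose I hI using hch
    rw [coe_prod d Pt I fun x hx => (hI x hx).2, ← hJP, FractionalIdeal.coeIdeal_le_coeIdeal,
      hJ.isPrime.prod_le] at hl
    obtain ⟨x, hx, hle⟩ := hl
    refine ⟨x, hx, Units.ext ?_⟩
    rw [← (hI x hx).2, ← hJP, (hI x hx).1.eq_of_le hJ.ne_top hle]
  · intro g g' A hg hg' hw
    have h0 := div_ne hg'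
    have h1 : g ∈ FractionalIdeal.spanSingleton (nonZeroDivisors (RingOfIntegers K)) g' := by
      rw [← hg', hg]
      exact FractionalIdeal.mem_spanSingleton_self _ _
    obtain ⟨a, ha, hag⟩ := mem_span.1 h1
    have hlt : ∀ w : InfinitePlace K, w (a - 1) < 1 := by
      intro w
      have h2 := hw w
      simp only [emb] at h2
      rw [← map_sub, InfinitePlace.norm_embedding_eq, InfinitePlace.norm_embedding_eq,
        show g - g' = (a - 1) * g' by rw [← hag]; ring, map_mul] at h2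
      have h3 : 0 < w g' := InfinitePlace.pos_iff.2 h0
      by_contra hc
      push Not at hc
      nlinarith
    by_contra hne
    have ha1 : (⟨a - 1, ha.sub isIntegral_one⟩ : RingOfIntegers K) ≠ 0 := by
      intro he
      have h2 : a - 1 = 0 := congrArg Subtype.val he
      apply hne
      rw [← hag, sub_eq_zero.1 h2, one_mul]
    obtain ⟨w⟩ : Nonempty (InfinitePlace K) := inferInstance
    have h4 := InfinitePlace.one_le_of_lt_one (w := w) ha1 fun z _ => hlt z
    exact absurd (hlt w) (not_lt.2 h4)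

end Pool.Agent.Lib.BK2.NT
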