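import Pool.Agent.Lib.BK2.NDefs
import Pool.Agent.Lib.BK2.LLat

/-! Uniform count of the points of a class in a polydisc. -/

open NumberField Module

namespace Pool.Agent.Lib.BK2.NT

namespace CNT

theorem pow_le {n : ℕ} (hn : 0 < n) {η : ℝ} (h0 : 0 < η) (h1 : η ≤ 1) :
    (1 + η / (2 * n)) ^ n ≤ 1 + η ∧ 1 - η ≤ (1 - η / (2 * n)) ^ n := by
  have hn' : (1 : ℝ) ≤ n := by exact_mod_cast hn
  have e : (n : ℝ) * (η / (2 * n)) = η / 2 := by field_simp
  have hb : η / (2 * n) ≤ 1 := by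
    rw [div_le_one (by positivity)]
    linarith
  constructor
  · have a1 : (1 + η / (2 * n)) ^ n ≤ Real.exp (η / (2 * n)) ^ n :=
      pow_le_pow_left₀ (by positivity) (by linarith [Real.add_one_le_exp (η / (2 * n))]) n
    rw [← Real.exp_nat_mul, e] at a1
    have a2 := Real.abs_exp_sub_one_le (x := η / 2) (by rw [abs_of_pos (by linarith)]; linarith)
    rw [abs_of_pos (by linarith : 0 < η / 2)] at a2
    linarith [le_abs_self (Real.exp (η / 2) - 1)]
  · have a1 := one_add_mul_le_pow (a := -(η / (2 * n))) (by linarith) n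
    rw [mul_neg, e, ← sub_eq_add_neg, ← sub_eq_add_neg] at a1
    linarith

end CNT

open LCnt in
theorem stCNT : St_CNT := by
  intro K _ _ D hD
  have := hD.tc
  have hF : 1 < D.F := lt_of_lt_of_le (by have := hD.Q3; omega) (Nat.le_of_dvd hD.Fpos hD.QF)
  have hs1 : ((1 : ℕ) : K) ∈ (1 : FractionalIdeal (nonZeroDivisors (𝓞 K)) K) :=
    mem_one.2 (isIntegral_natCast 1)
  have : DiscreteTopology (im (la D.R 1)) :=
    discrete_la (R := D.R) (A := 1) hF (Nat.coprime_one_left _) hs1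
  have : IsZLattice ℝ (im (la D.R 1)) :=
    lattice_la (A := 1) hF hD.inv hD.cond (Nat.coprime_one_left _) hs1 hs1
  have hc := ZLattice.covolume_pos (im (la D.R 1)) MeasureTheory.volume
  have hn : 0 < rk K := finrank_pos
  have hn' : (0 : ℝ) < rk K := Nat.cast_pos.2 hn
  have hcard : Fintype.card (Fin (rk K)) = finrank ℚ K := Fintype.card_fin _
  have hΔ := Delta_pos hD.omL hcard hD.omB
  refine ⟨Real.pi ^ Fintype.card (InfinitePlace K) / ZLattice.covolume (im (la D.R 1)),
    by positivity, ?_⟩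
  rintro A d g0 y ρ ε η ⟨s, hs, hA, hA'⟩ hd hε hη hη1 hρ hB
  have hd' : (0 : ℝ) < d := by exact_mod_cast hd
  have hN : 0 < nI A := by
    refine lt_of_le_of_ne (by unfold nI; exact_mod_cast FractionalIdeal.absNorm_nonneg _) fun e => ?_
    exact A.ne_zero (FractionalIdeal.absNorm_eq_zero_iff.1 (by unfold nI at e; exact_mod_cast e.symm))
  have hy : 0 ≤ Nv y := Finset.prod_nonneg fun _ _ => by positivity
  have e1 : ∏ w, (ρ w * ‖y w‖) ^ 2 = (∏ w, ρ w ^ 2) * Nv y := by
    simp only [mul_pow, Finset.prod_mul_distrib, Nv]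
  have e2 : ε ^ rk K ≤ ∏ w, ρ w ^ 2 := by
    rw [rk, ← two_card, pow_mul, ← Finset.card_univ, ← Finset.prod_const]
    exact Finset.prod_le_prod (fun _ _ => by positivity) fun w _ =>
      pow_le_pow_left₀ hε.le (hρ w).1 2
  obtain ⟨p1, p2⟩ := CNT.pow_le hn hη hη1
  obtain ⟨k1, k2, k3⟩ := count_K hF hD.inv hD.cond hs hA hA' hD.omL hcard hD.omR hD.omI hD.omB
    (η := η / (2 * rk K)) (by positivity)
    (by rw [div_le_one (by positivity)]; linarith [show (1 : ℝ) ≤ rk K by exact_mod_cast hn])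
    (Q := d) hd (r := fun w => ρ w * ‖y w‖)
    (fun w => mul_nonneg (hε.le.trans (hρ w).1) (norm_nonneg _)) (by
      rw [e1]
      calc _ < nI A * (ε * (8 * (rk K : ℝ) ^ 3 * d * D.Δ ^ 2 / (η * ε))) ^ rk K := by
            refine mul_lt_mul_of_pos_left (pow_lt_pow_left₀ ?_ (by positivity) hn.ne') hN
            have e : ε * (8 * (rk K : ℝ) ^ 3 * d * D.Δ ^ 2 / (η * ε)) =
                4 * (d * (rk K * D.Δ) ^ 2 / (η / (2 * rk K))) := by field_simp; ring
            have : 0 < d * (rk K * D.Δ) ^ 2 / (η / (2 * rk K)) := by positivity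
            rw [e]
            linarith
        _ = ε ^ rk K * ((8 * (rk K : ℝ) ^ 3 * d * D.Δ ^ 2 / (η * ε)) ^ rk K * nI A) := by
            rw [mul_pow]; ring
        _ ≤ _ := mul_le_mul e2 hB (by positivity) ((pow_pos hε _).le.trans e2))
    g0 y (D.Bl A d g0 y ρ) fun g => and_congr
      (exists_congr fun a => and_congr Iff.rfl sub_eq_iff_eq_add'.symm) Iff.rfl
  refine ⟨k1, ?_⟩
  have hP : 0 < (d : ℝ) ^ rk K * nI A * ZLattice.covolume (im (la D.R 1)) := by positivity
  have e3 : ∏ w, Real.pi * (ρ w * ‖y w‖) ^ 2 =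
      xp (Real.pi ^ Fintype.card (InfinitePlace K) / ZLattice.covolume (im (la D.R 1))) A d y ρ *
        ((d : ℝ) ^ rk K * nI A * ZLattice.covolume (im (la D.R 1))) := by
    rw [Finset.prod_mul_distrib, e1, Finset.prod_const, Finset.card_univ, xp]
    field_simp
  have hx : 0 ≤ xp (Real.pi ^ Fintype.card (InfinitePlace K) / ZLattice.covolume (im (la D.R 1)))
      A d y ρ := by
    have := (pow_pos hε _).le.trans e2
    unfold xp
    positivity
  rw [e3, ← mul_assoc _ (xp _ _ _ _ _)] at k2 k3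
  have k4 := le_of_mul_le_mul_right k2 hP
  have k5 := le_of_mul_le_mul_right k3 hP
  rw [abs_le]
  constructor
  · nlinarith [mul_le_mul_of_nonneg_right p2 hx]
  · nlinarith [mul_le_mul_of_nonneg_right p1 hx]

end Pool.Agent.Lib.BK2.NT
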