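import Pool.Agent.Lib.BK2.NBlue

namespace Pool.Agent.Lib.BK2.NT

open Finset

namespace DIST

theorem split {Ω : Type} (S : Finset Ω) {n : ℕ} (a : Fin (n + 1)) (g : (Fin (n + 1) → Ω) → ℝ) :
    ∑ f ∈ Fintype.piFinset (fun _ : Fin (n + 1) => S), g f =
      ∑ y ∈ S, ∑ f ∈ Fintype.piFinset (fun _ : Fin n => S), g (Fin.insertNth a y f) := by
  rw [← Finset.sum_product' S _ (fun y f => g (Fin.insertNth a y f))]
  symm
  refine Finset.sum_equiv (Fin.insertNthEquiv (fun _ => Ω) a) (fun x => ?_) (fun x _ => rfl)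
  rw [Fin.mem_piFinset_iff_pivot_removeNth a, Finset.mem_product]
  have e : (Fin.insertNthEquiv (fun _ => Ω) a) x = Fin.insertNth a x.1 x.2 := rfl
  rw [e, Fin.insertNth_apply_same, Fin.removeNth_insertNth]
  rfl

variable {Ω G : Type} [AddCommGroup G] (S : Finset Ω) (w : Ω → ℝ) (φ : Ω → G) (lab : Ω → ℕ)

open Classical in
theorem one {θ Bd : ℝ} (hw : ∀ y ∈ S, 0 ≤ w y)
    (hθ : ∀ q, ∑ y ∈ S.filter (fun y => lab y = q), w y ≤ θ) {n : ℕ} (hB0 : 0 ≤ Bd)
    (hB : ∀ τ, tupP S w φ n τ ≤ Bd) (a : Fin (n + 1)) (q : ℕ) (τ : G) :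
    ∑ f ∈ Fintype.piFinset (fun _ : Fin (n + 1) => S),
      (if ∑ i, φ (f i) = τ ∧ lab (f a) = q then ∏ i, w (f i) else 0) ≤ θ * Bd := by
  rw [split S a]
  refine le_trans (Finset.sum_le_sum (g := fun y => (if lab y = q then w y else 0) * Bd)
    fun y hy => ?_) ?_
  · by_cases h : lab y = q
    · rw [if_pos h]
      refine le_trans (le_of_eq ?_) (mul_le_mul_of_nonneg_left (hB (τ - φ y)) (hw y hy))
      rw [tupP, Finset.mul_sum]
      refine Finset.sum_congr rfl fun f _ => ?_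
      rw [Fin.sum_univ_succAbove _ a, Fin.prod_univ_succAbove _ a]
      simp only [Fin.insertNth_apply_same, Fin.insertNth_apply_succAbove, h, and_true,
        eq_sub_iff_add_eq', mul_ite, mul_zero]
    · simp [h]
  · rw [← Finset.sum_mul, ← Finset.sum_filter]
    exact mul_le_mul_of_nonneg_right (hθ q) hB0

open Classical in
theorem two {θ Bd : ℝ} (hw : ∀ y ∈ S, 0 ≤ w y) (h1 : ∑ y ∈ S, w y ≤ 1) (hθ0 : 0 ≤ θ)
    (hθ : ∀ q, ∑ y ∈ S.filter (fun y => lab y = q), w y ≤ θ) {n : ℕ} (hB0 : 0 ≤ Bd)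
    (hB : ∀ τ, tupP S w φ n τ ≤ Bd) (a : Fin (n + 2)) (b : Fin (n + 1)) (τ : G) :
    ∑ f ∈ Fintype.piFinset (fun _ : Fin (n + 2) => S),
      (if ∑ i, φ (f i) = τ ∧ lab (f (a.succAbove b)) = lab (f a) then ∏ i, w (f i) else 0) ≤
      θ * Bd := by
  rw [split S a]
  refine le_trans (Finset.sum_le_sum (g := fun y => w y * (θ * Bd)) fun y hy => ?_) ?_
  · refine le_trans (le_of_eq ?_) (mul_le_mul_of_nonneg_left
      (one S w φ lab hw hθ hB0 hB b (lab y) (τ - φ y)) (hw y hy))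
    rw [Finset.mul_sum]
    refine Finset.sum_congr rfl fun f _ => ?_
    rw [Fin.sum_univ_succAbove _ a, Fin.prod_univ_succAbove _ a]
    simp only [Fin.insertNth_apply_same, Fin.insertNth_apply_succAbove,
      eq_sub_iff_add_eq', mul_ite, mul_zero]
  · rw [← Finset.sum_mul]
    exact mul_le_of_le_one_left (mul_nonneg hθ0 hB0) h1

end DIST

open Classical in
theorem stDIST : St_DIST := by
  intro Ω G _ S w φ lab fb m j θ Bd hw h1 hθ hB hm τ
  obtain ⟨n, rfl⟩ : ∃ n, m = n + 2 := ⟨m - 2, by omega⟩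
  have hW : ∀ k, ∀ f ∈ Fintype.piFinset (fun _ : Fin k => S), 0 ≤ ∏ i, w (f i) := fun k f hf =>
    Finset.prod_nonneg fun i _ => hw _ (Fintype.mem_piFinset.1 hf i)
  have hθ0 : 0 ≤ θ :=
    le_trans (Finset.sum_nonneg fun y hy => hw y (Finset.mem_filter.1 hy).1) (hθ 0)
  have hB0 : 0 ≤ Bd := le_trans (Finset.sum_nonneg fun f hf => by
    split_ifs
    · exact hW _ f hf
    · exact le_rfl) (hB j le_rfl τ)
  rw [tupP, tupQ, ← Finset.sum_sub_distrib]
  refine le_trans (Finset.sum_le_sum (g := fun f =>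
    (∑ a : Fin (n + 2), ∑ b : Fin (n + 1),
      if ∑ i, φ (f i) = τ ∧ lab (f (a.succAbove b)) = lab (f a) then ∏ i, w (f i) else 0) +
    ∑ a : Fin (n + 2), ∑ q ∈ fb,
      if ∑ i, φ (f i) = τ ∧ lab (f a) = q then ∏ i, w (f i) else 0) fun f hf => ?_) ?_
  · have h0 := hW _ f hf
    have n1 : ∀ (a : Fin (n + 2)) (b : Fin (n + 1)), 0 ≤ (if ∑ i, φ (f i) = τ ∧
        lab (f (a.succAbove b)) = lab (f a) then ∏ i, w (f i) else 0) := fun a b => by
      split_ifs
      · exact h0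
      · exact le_rfl
    have n2 : ∀ (a : Fin (n + 2)) (q : ℕ), 0 ≤ (if ∑ i, φ (f i) = τ ∧
        lab (f a) = q then ∏ i, w (f i) else 0) := fun a b => by
      split_ifs
      · exact h0
      · exact le_rfl
    have p1 := Finset.sum_nonneg fun a (_ : a ∈ Finset.univ) =>
      Finset.sum_nonneg fun b (_ : b ∈ Finset.univ) => n1 a b
    have p2 := Finset.sum_nonneg fun a (_ : a ∈ Finset.univ) =>
      Finset.sum_nonneg fun q (_ : q ∈ fb) => n2 a q
    by_cases hs : ∑ i, φ (f i) = τ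
    · by_cases hi : Function.Injective fun i => lab (f i)
      · by_cases hf : ∀ i, lab (f i) ∉ fb
        · rw [if_pos hs, if_pos ⟨hs, hi, hf⟩, sub_self]
          exact add_nonneg p1 p2
        · rw [if_pos hs, if_neg fun h => hf h.2.2, sub_zero]
          obtain ⟨a, ha⟩ := not_forall.1 hf
          refine le_add_of_nonneg_of_le p1 (le_trans ?_ (Finset.single_le_sum (fun a _ =>
            Finset.sum_nonneg fun q _ => n2 a q) (Finset.mem_univ a)))
          refine le_trans ?_ (Finset.single_le_sum (fun q _ => n2 a q) (not_not.1 ha))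
          rw [if_pos ⟨hs, rfl⟩]
      · rw [if_pos hs, if_neg fun h => hi h.2.1, sub_zero]
        obtain ⟨a, a', he, hne⟩ := Function.not_injective_iff.1 hi
        obtain ⟨b, rfl⟩ := Fin.exists_succAbove_eq hne.symm
        refine le_add_of_le_of_nonneg (le_trans ?_ (Finset.single_le_sum (fun a _ =>
          Finset.sum_nonneg fun q _ => n1 a q) (Finset.mem_univ a))) p2
        refine le_trans ?_ (Finset.single_le_sum (fun q _ => n1 a q) (Finset.mem_univ b))
        rw [if_pos ⟨hs, he.symm⟩]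
    · rw [if_neg hs, if_neg fun h => hs h.1, sub_self]
      exact add_nonneg p1 p2
  · rw [Finset.sum_add_distrib, Finset.sum_comm, Finset.sum_comm (s := Fintype.piFinset _)]
    have e1 : ∑ a : Fin (n + 2), ∑ f ∈ Fintype.piFinset (fun _ : Fin (n + 2) => S),
        ∑ b : Fin (n + 1), (if ∑ i, φ (f i) = τ ∧ lab (f (a.succAbove b)) = lab (f a)
          then ∏ i, w (f i) else 0) ≤ ∑ _a : Fin (n + 2), ∑ _b : Fin (n + 1), θ * Bd :=
      Finset.sum_le_sum fun a _ => by
        rw [Finset.sum_comm]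
        exact Finset.sum_le_sum fun b _ =>
          DIST.two S w φ lab hw h1 hθ0 hθ hB0 (hB n (by omega)) a b τ
    have e2 : ∑ a : Fin (n + 2), ∑ f ∈ Fintype.piFinset (fun _ : Fin (n + 2) => S),
        ∑ q ∈ fb, (if ∑ i, φ (f i) = τ ∧ lab (f a) = q
          then ∏ i, w (f i) else 0) ≤ ∑ _a : Fin (n + 2), ∑ _q ∈ fb, θ * Bd :=
      Finset.sum_le_sum fun a _ => by
        rw [Finset.sum_comm]
        exact Finset.sum_le_sum fun q _ =>
          DIST.one S w φ lab hw hθ hB0 (hB (n + 1) (by omega)) a q τ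
    refine le_trans (add_le_add e1 e2) ?_
    simp only [Finset.sum_const, Finset.card_univ, Fintype.card_fin, nsmul_eq_mul]
    push_cast
    nlinarith [mul_nonneg hθ0 hB0, mul_nonneg (Nat.cast_nonneg (α := ℝ) n) (mul_nonneg hθ0 hB0)]

end Pool.Agent.Lib.BK2.NT
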