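import Pool.Agent.Lib.BK2.NDefs

/-! BK2 block N.EMB: the archimedean embedding, logarithm and exponential. -/

namespace Pool.Agent.Lib.BK2.NT

open Finset NumberField

theorem stLOG : St_LOG := by
  refine ⟨fun y hy => ?_, fun z hz => ?_⟩
  · have h0 : y ≠ 0 := by
      rintro rfl
      norm_num at hy
    refine ⟨Complex.log y, Complex.exp_log h0, ?_⟩
    have h := Complex.norm_log_one_add_le (z := y - 1) (by linarith)
    rw [add_sub_cancel] at h
    have h1 : (1 - ‖y - 1‖)⁻¹ ≤ 2 := by
      rw [inv_le_comm₀ (by linarith) two_pos]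
      linarith
    have h2 := mul_le_mul_of_nonneg_left h1 (sq_nonneg ‖y - 1‖)
    nlinarith [sq_nonneg ‖y - 1‖]
  · have h := Complex.norm_exp_sub_one_sub_id_le hz
    have h1 := norm_add_le (Complex.exp z - 1 - z) z
    rw [sub_add_cancel] at h1
    nlinarith

namespace EMB

variable {K : Type} [Field K] [NumberField K]

open Classical in
/-- all complex embeddings from one in each conjugate pair -/
noncomputable def dbl (K : Type) [Field K] : EK K →ₗ[ℝ] ((K →+* ℂ) → ℂ) where
  toFun y φ := if (InfinitePlace.mk φ).embedding = φ then y (InfinitePlace.mk φ)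
    else starRingEnd ℂ (y (InfinitePlace.mk φ))
  map_add' y y' := by
    funext φ
    simp only [Pi.add_apply]
    split_ifs <;> simp
  map_smul' c y := by
    funext φ
    simp only [Pi.smul_apply, RingHom.id_apply]
    split_ifs <;> simp

omit [NumberField K] in
theorem dbl_emb (g : K) : dbl K (emb g) = canonicalEmbedding K g := by
  classical
  funext φ
  change (if _ then _ else _) = φ g
  split_ifs with h
  · change (InfinitePlace.mk φ).embedding g = _
    rw [h]
  · change starRingEnd ℂ ((InfinitePlace.mk φ).embedding g) = _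
    rw [(InfinitePlace.embedding_mk_eq φ).resolve_left h, ComplexEmbedding.conjugate_coe_eq,
      Complex.conj_conj]

theorem indep {ι : Type} {om : ι → K} (h : LinearIndependent ℚ om) :
    LinearIndependent ℝ fun j => emb (om j) := by
  classical
  have h1 := h.map' (integralBasis K).equivFun.toLinearMap (LinearEquiv.ker _)
  have h2 := (linearIndependent_algebraMap_comp_iff (S := ℂ)).2 h1
  have h3 : LinearIndependent ℂ ((canonicalEmbedding.latticeBasis K).equivFun.toLinearMap ∘
      fun j => canonicalEmbedding K (om j)) := by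
    have e : ((canonicalEmbedding.latticeBasis K).equivFun.toLinearMap ∘
        fun j => canonicalEmbedding K (om j)) = fun j => algebraMap ℚ ℂ ∘
          ((integralBasis K).equivFun.toLinearMap ∘ om) j :=
      funext fun j => funext fun i => canonicalEmbedding.integralBasis_repr_apply K (om j) i
    rw [e]
    exact h2
  have h4 : LinearIndependent ℝ fun j => canonicalEmbedding K (om j) :=
    (LinearIndependent.of_comp _ h3).restrict_scalars' ℝ
  refine LinearIndependent.of_comp (dbl K) ?_
  have e : ((dbl K) ∘ fun j => emb (om j)) = fun j => canonicalEmbedding K (om j) :=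
    funext fun j => dbl_emb (om j)
  rw [e]
  exact h4

end EMB

theorem stEMB : St_EMB := by
  intro K _ _ hK
  have h1 : 2 * Fintype.card (InfinitePlace K) = rk K := by
    rw [rk, ← InfinitePlace.sum_mult_eq]
    simp [IsTotallyComplex.mult_eq, mul_comm]
  have h4 : ∀ g : K, Nv (emb g) = |((Algebra.norm ℚ g : ℚ) : ℝ)| := fun g => by
    have := InfinitePlace.prod_eq_abs_norm g
    simp only [IsTotallyComplex.mult_eq, Rat.cast_abs] at this
    rw [← this]
    exact prod_congr rfl fun w _ => by rw [emb, InfinitePlace.norm_embedding_eq]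
  refine ⟨h1, ?_, fun _ _ h => EMB.indep h, h4, fun g A h => ?_, fun z => ?_⟩
  · rw [← h1, Module.finrank_pi_fintype]
    simp [mul_comm]
  · rw [h4, nI, h, FractionalIdeal.absNorm_span_singleton, Rat.cast_abs]
  · rw [Nv, nm, mul_sum, Real.exp_sum]
    refine prod_congr rfl fun w _ => ?_
    rw [cexp, Complex.norm_exp, ← Real.exp_nat_mul]
    rfl

end Pool.Agent.Lib.BK2.NT
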