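import Pool.Agent.Lib.BK2.NDefs
import Pool.Agent.Lib.BK2.MERT

/-! Euler products over the primes of a number field. -/

namespace Pool.Agent.Lib.BK2.NT

open Finset NumberField UniqueFactorizationMonoid
open scoped Classical

namespace EUL

variable {K : Type} [Field K] [NumberField K]

/-- The rational prime below a prime ideal. -/
noncomputable def ch (P : Ideal (𝓞 K)) : ℕ := (Ideal.absNorm P).minFac

theorem ch_spec {P : Ideal (𝓞 K)} (hP : Prime P) : (ch P).Prime ∧ ((ch P : ℕ) : 𝓞 K) ∈ P ∧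
    ∃ f, 0 < f ∧ Ideal.absNorm P = ch P ^ f := by
  have : P.IsMaximal := (Ideal.isPrime_of_prime hP).isMaximal hP.ne_zero
  obtain ⟨p, n, hn, h1, h2, h3⟩ := Ideal.exists_prime_and_absNorm_eq_pow P
  have e : ch P = p := by rw [ch, h3, h2.pow_minFac hn.ne']
  rw [e]
  exact ⟨h2, h1, n, hn, h3⟩

theorem ch_le {P : Ideal (𝓞 K)} (hP : Prime P) : ch P ≤ Ideal.absNorm P := by
  obtain ⟨h1, -, f, hf, h2⟩ := ch_spec hP
  rw [h2]
  exact Nat.le_self_pow hf.ne' _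

theorem two_le {P : Ideal (𝓞 K)} (hP : Prime P) : 2 ≤ Ideal.absNorm P :=
  (ch_spec hP).1.two_le.trans (ch_le hP)

theorem card_le (S : Finset (Ideal (𝓞 K))) (q : ℕ) (h : ∀ P ∈ S, Prime P ∧ ch P = q) :
    S.card ≤ rk K := by
  rcases S.eq_empty_or_nonempty with rfl | ⟨P₀, h0⟩
  · simp
  have hq : q.Prime := (h P₀ h0).2 ▸ (ch_spec (h P₀ h0).1).1
  have h1 : ∏ P ∈ S, P ∣ Ideal.span {(q : 𝓞 K)} :=
    prod_primes_dvd _ (fun P hP => (h P hP).1) fun P hP => by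
      rw [Ideal.dvd_span_singleton, ← (h P hP).2]; exact (ch_spec (h P hP).1).2.1
  have h2 := Nat.le_of_dvd (by
    rw [Ideal.absNorm_span_natCast]; exact pow_pos hq.pos _) (map_dvd Ideal.absNorm h1)
  rw [Ideal.absNorm_span_natCast, RingOfIntegers.rank, map_prod] at h2
  have h3 : q ^ S.card ≤ ∏ P ∈ S, Ideal.absNorm P :=
    pow_card_le_prod _ _ _ fun P hP => (h P hP).2 ▸ ch_le (h P hP).1
  exact (Nat.pow_le_pow_iff_right hq.one_lt).1 (h3.trans h2)

theorem sum_ch (S : Finset (Ideal (𝓞 K))) (h : ∀ P ∈ S, Prime P) (g : ℕ → ℝ) (hg : ∀ q, 0 ≤ g q) :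
    ∑ P ∈ S, g (ch P) ≤ rk K * ∑ q ∈ S.image ch, g q := by
  rw [sum_comp g ch, mul_sum]
  refine sum_le_sum fun q _ => ?_
  rw [nsmul_eq_mul]
  refine mul_le_mul_of_nonneg_right (Nat.cast_le.2 (card_le _ q fun P hP => ?_)) (hg q)
  exact ⟨h P (mem_filter.1 hP).1, (mem_filter.1 hP).2⟩

theorem sum_sq (Q : Finset ℕ) (h : ∀ q ∈ Q, 2 ≤ q) : ∑ q ∈ Q, ((q : ℝ) ^ 2)⁻¹ ≤ 1 := by
  have h1 := sum_Ioo_inv_sq_le (α := ℝ) 1 (Q.sup id + 1)
  refine (sum_le_sum_of_subset_of_nonneg (fun q hq => ?_) fun _ _ _ => by positivity).trans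
    (h1.trans (by norm_num))
  have := le_sup (f := id) hq
  have := h q hq
  rw [mem_Ioo]
  simp only [id] at *
  omega

theorem inv_le_exp {x : ℝ} (h1 : x ≤ 1 / 2) : (1 - x)⁻¹ ≤ Real.exp (x + 2 * x ^ 2) := by
  refine le_trans ?_ (Real.add_one_le_exp _)
  rw [inv_le_iff_one_le_mul₀ (by linarith)]
  nlinarith [mul_nonneg (sq_nonneg x) (sub_nonneg.2 h1)]

theorem x_le {P : Ideal (𝓞 K)} (hP : Prime P) :
    0 < 1 / (Ideal.absNorm P : ℝ) ∧ 1 / (Ideal.absNorm P : ℝ) ≤ 1 / 2 := by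
  have h : (2 : ℝ) ≤ Ideal.absNorm P := by exact_mod_cast two_le hP
  exact ⟨by positivity, one_div_le_one_div_of_le two_pos h⟩

/-- The Euler product bound. -/
theorem euler (S D : Finset (Ideal (𝓞 K))) (hS : ∀ P ∈ S, Prime P)
    (hD : ∀ I ∈ D, I ≠ ⊥ ∧ (normalizedFactors I).toFinset ⊆ S) :
    ∑ I ∈ D, 1 / (Ideal.absNorm I : ℝ) ≤ ∏ P ∈ S, (1 - 1 / (Ideal.absNorm P : ℝ))⁻¹ := by
  set M := D.sup (fun I => (normalizedFactors I).card) + 1
  let e : Ideal (𝓞 K) → S → ℕ := fun I P => (normalizedFactors I).count P.1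
  have h1 : ∀ I ∈ D, I = ∏ P : S, P.1 ^ e I P := fun I hI => by
    conv_lhs => rw [← Ideal.prod_normalizedFactors_eq_self (hD I hI).1,
      prod_multiset_count_of_subset _ S (hD I hI).2]
    exact (prod_coe_sort S fun P => P ^ (normalizedFactors I).count P).symm
  have h2 : Set.InjOn e D := fun I hI J hJ h => by rw [h1 I hI, h1 J hJ, h]
  calc ∑ I ∈ D, 1 / (Ideal.absNorm I : ℝ)
      = ∑ I ∈ D, ∏ P : S, (1 / (Ideal.absNorm P.1 : ℝ)) ^ e I P := by
        refine sum_congr rfl fun I hI => ?_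
        conv_lhs => rw [h1 I hI]
        simp [map_prod]
    _ = ∑ x ∈ D.image e, ∏ P : S, (1 / (Ideal.absNorm P.1 : ℝ)) ^ x P := by rw [sum_image h2]
    _ ≤ ∑ x ∈ Fintype.piFinset fun _ : S => range M,
          ∏ P : S, (1 / (Ideal.absNorm P.1 : ℝ)) ^ x P := by
        refine sum_le_sum_of_subset_of_nonneg (fun x hx => ?_) fun _ _ _ => by positivity
        obtain ⟨I, hI, rfl⟩ := mem_image.1 hx
        refine Fintype.mem_piFinset.2 fun P => mem_range.2 (Nat.lt_succ_of_le ?_)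
        exact (Multiset.count_le_card _ _).trans
          (le_sup (f := fun I => (normalizedFactors I).card) hI)
    _ = ∏ P : S, ∑ a ∈ range M, (1 / (Ideal.absNorm P.1 : ℝ)) ^ a :=
        (prod_univ_sum (fun _ : S => range M) fun P a => (1 / (Ideal.absNorm P.1 : ℝ)) ^ a).symm
    _ ≤ ∏ P : S, (1 - 1 / (Ideal.absNorm P.1 : ℝ))⁻¹ := by
        refine prod_le_prod (fun _ _ => by positivity) fun P _ => ?_
        have := x_le (hS P.1 P.2)
        have h3 := geom_sum_Ico_le_of_lt_one (m := 0) (n := M) this.1.le (by linarith)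
        rwa [pow_zero, one_div (1 - _), ← range_eq_Ico] at h3
    _ = _ := prod_coe_sort S fun P => (1 - 1 / (Ideal.absNorm P : ℝ))⁻¹

theorem prod_le_exp (S : Finset (Ideal (𝓞 K))) (hS : ∀ P ∈ S, Prime P) :
    ∏ P ∈ S, (1 - 1 / (Ideal.absNorm P : ℝ))⁻¹ ≤
      Real.exp (∑ P ∈ S, 1 / (Ideal.absNorm P : ℝ) + 2 * rk K) := by
  have h1 : ∏ P ∈ S, (1 - 1 / (Ideal.absNorm P : ℝ))⁻¹ ≤ ∏ P ∈ S,
      Real.exp (1 / (Ideal.absNorm P : ℝ) + 2 * (1 / (Ideal.absNorm P : ℝ)) ^ 2) :=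
    prod_le_prod (fun P hP => inv_nonneg.2 (by linarith [(x_le (hS P hP)).2]))
      fun P hP => inv_le_exp (x_le (hS P hP)).2
  rw [← Real.exp_sum, sum_add_distrib, ← mul_sum] at h1
  refine h1.trans (Real.exp_le_exp.2 ?_)
  have h2 := sum_ch S hS (fun q => ((q : ℝ) ^ 2)⁻¹) fun _ => by positivity
  have h3 := sum_sq (S.image ch) fun q hq => by
    obtain ⟨P, hP, rfl⟩ := mem_image.1 hq
    exact (ch_spec (hS P hP)).1.two_le
  have h4 : ∑ P ∈ S, (1 / (Ideal.absNorm P : ℝ)) ^ 2 ≤ ∑ P ∈ S, ((ch P : ℝ) ^ 2)⁻¹ := by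
    refine sum_le_sum fun P hP => ?_
    have h5 : (0 : ℝ) < ch P := by exact_mod_cast (ch_spec (hS P hP)).1.pos
    have h6 : (ch P : ℝ) ≤ Ideal.absNorm P := by exact_mod_cast ch_le (hS P hP)
    rw [one_div, inv_pow]
    gcongr
  have h5 : (0 : ℝ) ≤ rk K := Nat.cast_nonneg _
  nlinarith

theorem window {T v : ℝ} (hT : 2 ≤ T) (hv : 1 ≤ v) (Q : Finset ℕ) (h : ∀ q ∈ Q, q.Prime) :
    ∑ q ∈ Q, (if T ≤ q ∧ (q : ℝ) ≤ T ^ v then 1 / (q : ℝ) else 0) ≤ Real.log v + 33 := by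
  have hz : T ≤ T ^ v := Real.self_le_rpow_of_one_le (by linarith) hv
  have h1 := mert_two_le hT hz (Q.filter fun q => T < q ∧ (q : ℝ) ≤ T ^ v) fun l hl =>
    ⟨h l (mem_filter.1 hl).1, (mem_filter.1 hl).2⟩
  rw [Real.log_rpow (by linarith), mul_div_cancel_right₀ _ (Real.log_pos (by linarith)).ne',
    sum_filter] at h1
  have h2 : ∑ q ∈ Q, (if q = ⌊T⌋₊ then (1 : ℝ) else 0) ≤ 1 := by
    rw [sum_ite_eq']; split_ifs <;> norm_num
  have h3 : ∑ q ∈ Q, (if T ≤ q ∧ (q : ℝ) ≤ T ^ v then 1 / (q : ℝ) else 0) ≤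
      ∑ q ∈ Q, ((if T < q ∧ (q : ℝ) ≤ T ^ v then 1 / (q : ℝ) else 0) +
        if q = ⌊T⌋₊ then (1 : ℝ) else 0) := by
    refine sum_le_sum fun q hq => ?_
    have h4 : (0 : ℝ) ≤ 1 / (q : ℝ) := by positivity
    have h5 : 1 / (q : ℝ) ≤ 1 := div_le_one_of_le₀ (by exact_mod_cast (h q hq).one_le) (by positivity)
    by_cases h6 : T = q
    · rw [if_neg (c := T < q ∧ _) (fun h => h.1.ne h6), if_pos (c := q = _) (by simp [h6])]
      split_ifs <;> linarith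
    · have h7 : (T ≤ q ∧ (q : ℝ) ≤ T ^ v) ↔ (T < q ∧ (q : ℝ) ≤ T ^ v) :=
        and_congr_left fun _ => ⟨fun h => lt_of_le_of_ne h h6, le_of_lt⟩
      simp only [h7]
      split_ifs <;> linarith
  rw [sum_add_distrib] at h3
  linarith [h1.1, h1.2]

theorem rest {T v : ℝ} (hT : 2 ≤ T) (hv : 1 ≤ v) (S : Finset (Ideal (𝓞 K)))
    (hS : ∀ P ∈ S, Prime P ∧ (Ideal.absNorm P : ℝ) ≤ T ^ v ∧
      ((Ideal.absNorm P).Prime → T ≤ Ideal.absNorm P)) :
    ∑ P ∈ S, 1 / (Ideal.absNorm P : ℝ) ≤ rk K * (Real.log v + 34) := by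
  have h1 := sum_ch S (fun P hP => (hS P hP).1)
    (fun q => (if T ≤ q ∧ (q : ℝ) ≤ T ^ v then 1 / (q : ℝ) else 0) + ((q : ℝ) ^ 2)⁻¹) fun q => by
      split_ifs <;> positivity
  have h0 : ∀ q ∈ S.image ch, q.Prime := fun q hq => by
    obtain ⟨P, hP, rfl⟩ := mem_image.1 hq
    exact (ch_spec (hS P hP).1).1
  have h2 := window hT hv _ h0
  have h3 := sum_sq _ fun q hq => (h0 q hq).two_le
  refine le_trans (sum_le_sum fun P hP => ?_) (h1.trans ?_)
  · obtain ⟨p1, p2, p3⟩ := hS P hP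
    obtain ⟨q1, -, f, hf, q2⟩ := ch_spec p1
    have h5 : (1 : ℝ) ≤ ch P := by exact_mod_cast q1.one_le
    by_cases h4 : f = 1
    · rw [h4, pow_one] at q2
      rw [q2] at p2 p3 ⊢
      rw [if_pos ⟨p3 q1, p2⟩]
      exact le_add_of_nonneg_right (by positivity)
    · refine le_add_of_nonneg_of_le (by split_ifs <;> positivity) ?_
      rw [q2, one_div, Nat.cast_pow]
      exact inv_anti₀ (by positivity) (pow_le_pow_right₀ h5 (by omega))
  · rw [sum_add_distrib]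
    exact mul_le_mul_of_nonneg_left (by linarith) (Nat.cast_nonneg _)

/-- The integral ideal of an integral fractional ideal. -/
noncomputable def idl (A : FI K) : Ideal (𝓞 K) :=
  if h : ∃ I : Ideal (𝓞 K), (I : FractionalIdeal (nonZeroDivisors (𝓞 K)) K) = A.1 then h.choose
  else ⊥

theorem idl_eq {A : FI K} {I : Ideal (𝓞 K)}
    (h : (I : FractionalIdeal (nonZeroDivisors (𝓞 K)) K) = A.1) : idl A = I := by
  have h1 : ∃ I : Ideal (𝓞 K), (I : FractionalIdeal (nonZeroDivisors (𝓞 K)) K) = A.1 := ⟨I, h⟩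
  rw [idl, dif_pos h1]
  exact FractionalIdeal.coeIdeal_injective (h1.choose_spec.trans h.symm)

theorem coe_idl {A : FI K} (h : Itg A) :
    (idl A : FractionalIdeal (nonZeroDivisors (𝓞 K)) K) = A.1 := by
  obtain ⟨I, hI⟩ := FractionalIdeal.le_one_iff_exists_coeIdeal.1 h
  rw [idl_eq hI, hI]

theorem idl_inj {A B : FI K} (hA : Itg A) (hB : Itg B) (h : idl A = idl B) : A = B :=
  Units.ext (by rw [← coe_idl hA, h, coe_idl hB])

theorem idl_ne {A : FI K} (hA : Itg A) : idl A ≠ ⊥ := fun h =>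
  A.ne_zero (by rw [← coe_idl hA, h]; simp)

theorem nI_eq {A : FI K} (hA : Itg A) : nI A = Ideal.absNorm (idl A) := by
  rw [nI, ← coe_idl hA, FractionalIdeal.coeIdeal_absNorm]; simp

theorem pt {F p : ℕ} {P : FI K} (h : IsPt F P p) :
    Itg P ∧ Prime (idl P) ∧ Ideal.absNorm (idl P) = p := by
  obtain ⟨hp, -, I, hI, hn⟩ := h
  have h0 : Itg P := FractionalIdeal.le_one_iff_exists_coeIdeal.2 ⟨I, hI⟩
  refine ⟨h0, Ideal.prime_of_isPrime (idl_ne h0) ?_, by rw [idl_eq hI, hn]⟩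
  rw [idl_eq hI]
  exact Ideal.isPrime_of_irreducible_absNorm (by rw [hn]; exact hp)

theorem fib (F q : ℕ) (S : Finset (FI K)) (h : ∀ P ∈ S, IsPt F P q) : S.card ≤ rk K := by
  rw [← card_image_of_injOn (f := idl) fun A hA B hB => idl_inj (pt (h A hA)).1 (pt (h B hB)).1]
  refine card_le _ q fun I hI => ?_
  obtain ⟨P, hP, rfl⟩ := mem_image.1 hI
  exact ⟨(pt (h P hP)).2.1, by rw [ch, (pt (h P hP)).2.2, (h P hP).1.minFac_eq]⟩

theorem not_dvd {F : ℕ} {A : FI K} (hA : Itg A) (hc : Cop F A) {P : Ideal (𝓞 K)} (hP : Prime P)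
    (h : idl A ≤ P) : ¬ ch P ∣ F := by
  intro hd
  obtain ⟨s, h1, h2, -⟩ := hc
  rw [← coe_idl hA, FractionalIdeal.mem_coeIdeal] at h2
  obtain ⟨a, ha, h3⟩ := h2
  have h4 : a = s := FaithfulSMul.algebraMap_injective (𝓞 K) K (by rw [h3, map_natCast])
  have h5 : IsCoprime (s : 𝓞 K) (ch P : ℕ) := (h1.coprime_dvd_right hd).cast
  obtain ⟨x, y, h6⟩ := h5
  refine (Ideal.isPrime_of_prime hP).ne_top ((Ideal.eq_top_iff_one _).2 ?_)
  rw [← h6]
  exact P.add_mem (P.mul_mem_left _ (h (h4 ▸ ha))) (P.mul_mem_left _ (ch_spec hP).2.1)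

theorem fin (F : ℕ) (T : ℝ) : {P : FI K | IsPt F P (Ideal.absNorm (idl P)) ∧
    (Ideal.absNorm (idl P) : ℝ) < T}.Finite := by
  refine Set.Finite.of_finite_image (f := idl) ?_ fun A hA B hB => idl_inj (pt hA.1).1 (pt hB.1).1
  refine (Ideal.finite_setOfPred_absNorm_le ⌈T⌉₊).subset ?_
  rintro _ ⟨P, hP, rfl⟩
  exact Nat.cast_le.1 (hP.2.le.trans (Nat.le_ceil T))

end EUL

open EUL

theorem stFIB : St_FIB := fun _ _ _ F q S h => fib F q S h

theorem stEUL : St_EUL := by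
  intro n u
  refine ⟨Real.exp (n * (Real.log (max u 1) + 34) + 2 * n) * Real.exp (2 * n), by positivity,
    fun K _ _ F T Y hn hF hT hY hu => ?_⟩
  subst hn
  set S := (fin (K := K) F T).toFinset with hSd
  have hS : ∀ P, P ∈ S ↔ IsPt F P (Ideal.absNorm (idl P)) ∧ (Ideal.absNorm (idl P) : ℝ) < T :=
    fun P => Set.Finite.mem_toFinset _
  refine ⟨S, fun P => Ideal.absNorm (idl P), fun P hP => (hS P).1 hP, fun q => ?_, fun D hD => ?_⟩
  · exact fib F q _ fun P hP => (mem_filter.1 hP).2 ▸ ((hS P).1 (mem_filter.1 hP).1).1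
  have iS : Set.InjOn idl (S : Set (FI K)) := fun A hA B hB =>
    idl_inj (pt ((hS A).1 hA).1).1 (pt ((hS B).1 hB).1).1
  have iD : Set.InjOn idl (D : Set (FI K)) := fun A hA B hB => idl_inj (hD A hA).2.1 (hD B hB).2.1
  set R := (D.biUnion fun A => (normalizedFactors (idl A)).toFinset) \ S.image idl with hR
  have pS : ∀ P ∈ S.image idl, Prime P := fun I hI => by
    obtain ⟨P, hP, rfl⟩ := mem_image.1 hI
    exact (pt ((hS P).1 hP).1).2.1
  have pR : ∀ P ∈ R, Prime P ∧ (Ideal.absNorm P : ℝ) ≤ T ^ max u 1 ∧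
      ((Ideal.absNorm P).Prime → T ≤ Ideal.absNorm P) := fun P hP => by
    obtain ⟨h1, h2⟩ := mem_sdiff.1 hP
    obtain ⟨A, hA, h3⟩ := mem_biUnion.1 h1
    rw [Multiset.mem_toFinset] at h3
    have h4 := prime_of_normalized_factor P h3
    have h5 := ((Ideal.mem_normalizedFactors_iff (idl_ne (hD A hA).2.1)).1 h3).2
    refine ⟨h4, ?_, fun h6 => not_lt.1 fun h7 => h2 ?_⟩
    · have h6 := Nat.le_of_dvd (Nat.pos_of_ne_zero fun h => idl_ne (hD A hA).2.1
        (Ideal.absNorm_eq_zero_iff.1 h)) (Ideal.absNorm_dvd_absNorm_of_le h5)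
      have h7 := (hD A hA).2.2
      rw [nI_eq (hD A hA).2.1] at h7
      exact (Nat.cast_le.2 h6).trans (h7.trans (hu.trans
        (Real.rpow_le_rpow_of_exponent_le (by linarith) (le_max_left _ _))))
    · have h8 : idl (Units.mk0 (P : FractionalIdeal (nonZeroDivisors (𝓞 K)) K)
          (FractionalIdeal.coeIdeal_ne_zero.2 h4.ne_zero)) = P := idl_eq rfl
      refine mem_image.2 ⟨_, (hS _).2 ?_, h8⟩
      rw [h8]
      refine ⟨⟨h6, ?_, P, rfl, rfl⟩, h7⟩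
      have h9 := not_dvd (hD A hA).2.1 (hD A hA).1 h4 h5
      rwa [ch, h6.minFac_eq] at h9
  have h1 := euler (S.image idl ∪ R) (D.image idl)
    (fun P hP => (mem_union.1 hP).elim (pS P) fun h => (pR P h).1) fun I hI => by
      obtain ⟨A, hA, rfl⟩ := mem_image.1 hI
      refine ⟨idl_ne (hD A hA).2.1, ?_⟩
      rw [hR, union_sdiff_self_eq_union]
      exact (subset_biUnion_of_mem (fun A => (normalizedFactors (idl A)).toFinset) hA).trans
        subset_union_right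
  have h0 : ∑ A ∈ D, 1 / nI A = ∑ A ∈ D, 1 / (Ideal.absNorm (idl A) : ℝ) :=
    sum_congr rfl fun A hA => by rw [nI_eq (hD A hA).2.1]
  rw [sum_image iD, prod_union disjoint_sdiff, ← h0] at h1
  have h2 := (prod_le_exp R fun P hP => (pR P hP).1).trans
    (Real.exp_le_exp.2 (add_le_add_left (rest hT (le_max_right u 1) R pR) _))
  have h3 := prod_le_exp _ pS
  have h4 : ∀ P ∈ S.image idl, 0 < 1 - 1 / (Ideal.absNorm P : ℝ) := fun P hP => by
    linarith [(x_le (pS P hP)).2]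
  have h5 : 0 < ∏ P ∈ S.image idl, (1 - 1 / (Ideal.absNorm P : ℝ)) := prod_pos h4
  rw [prod_inv_distrib] at h1 h3
  rw [sum_image iS, Real.exp_add] at h3
  rw [prod_image iS] at h1 h3 h5
  have h6 := h1.trans (mul_le_mul_of_nonneg_left h2 (inv_nonneg.2 h5.le))
  have h7 : 1 ≤ Real.exp (2 * (rk K : ℝ)) := Real.one_le_exp (by positivity)
  constructor
  · rw [inv_mul_eq_div, le_div_iff₀ h5] at h6
    exact h6.trans (le_mul_of_one_le_right (Real.exp_pos _).le h7)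
  · refine h6.trans ((mul_le_mul_of_nonneg_right h3 (Real.exp_pos _).le).trans_eq (by ring))

end Pool.Agent.Lib.BK2.NT
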