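import Pool.Agent.Lib.BK2.NBlue

/-! The frame of the finite model. -/

namespace Pool.Agent.Lib.BK2.NT

open Finset NumberField

namespace FRAME

variable {K : Type} [Field K] [NumberField K]

/-- `nm` as a linear map -/
noncomputable def nmL (K : Type) [Field K] [NumberField K] : EK K →ₗ[ℝ] ℝ where
  toFun := nm
  map_add' x y := by simp only [nm, Pi.add_apply, Complex.add_re, sum_add_distrib, mul_add]
  map_smul' c x := by
    simp only [nm, Pi.smul_apply, Complex.smul_re, smul_eq_mul, RingHom.id_apply, ← mul_sum]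
    ring

theorem nmL_apply (z : EK K) : nmL K z = nm z := rfl

theorem nm_le (h : 2 * Fintype.card (InfinitePlace K) = rk K) (z : EK K) :
    |nm z| ≤ rk K * ‖z‖ := by
  have h1 : |∑ w, (z w).re| ≤ ∑ _w : InfinitePlace K, ‖z‖ :=
    (abs_sum_le_sum_abs _ _).trans (sum_le_sum fun w _ =>
      (Complex.abs_re_le_norm _).trans (norm_le_pi_norm z w))
  rw [sum_const, card_univ, nsmul_eq_mul] at h1
  rw [nm, abs_mul, abs_two, ← h]
  push_cast
  linarith

theorem nm_gam (h : 2 * Fintype.card (InfinitePlace K) = rk K) {b : Fin (rk K - 1) → EK K}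
    (hb : ∀ i, nm (b i) = 0) (L : ℝ) (N1 : ℕ) (a : GC K) :
    nm (gam b L N1 a) = a.2 * L / N1 := by
  have h0 : (rk K : ℝ) ≠ 0 := Nat.cast_ne_zero.2 Module.finrank_pos.ne'
  have h1 : nmL K (fun _ => (1 : ℂ)) = rk K := by
    rw [nmL_apply, nm, ← h]; simp
  rw [← nmL_apply, gam, map_smul, map_add, map_sum, map_smul, h1]
  simp only [map_smul, nmL_apply, hb, smul_eq_mul, mul_zero, sum_const_zero, zero_add]
  field_simp

end FRAME

open FRAME in
theorem stFRAME (hE : St_EMB) : St_FRAME := by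
  intro K _ _ D M δ T e0 η P L0 N0 hD hM hG hT hP he he1 hη hη1
  have hc := (hE K hD.tc).1
  have hn : (1 : ℝ) ≤ rk K := Nat.one_le_cast.2 Module.finrank_pos
  have hl : 0 < Real.log T := Real.log_pos hT
  have hP' : (0 : ℝ) < P := Nat.cast_pos.2 hP
  have hL : 0 < P * Real.log T := mul_pos hP' hl
  obtain ⟨N2, hN2⟩ := hG.2 _ e0 η hL he hη
  obtain ⟨N1, hN1, hp⟩ := Nat.exists_infinite_primes
    (N0 + N2 + ⌈((max L0 1 : ℕ) : ℝ) * (P * Real.log T) / e0⌉₊)
  have hg := hN2 N1 (by omega)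
  have hN : (0 : ℝ) < N1 := Nat.cast_pos.2 hp.pos
  choose r hr using hg.1
  obtain ⟨hf, hcard⟩ := hg.2 0 (fun _ => e0) fun _ => ⟨le_rfl, he1⟩
  have hmem : ∀ o, o ∈ hf.toFinset ↔ ‖gam M.b (P * Real.log T) N1 o‖ < e0 := fun o => by
    rw [Set.Finite.mem_toFinset, pi_norm_lt_iff he]
    simp [Dsa]
  have hL1 : ((max L0 1 : ℕ) : ℝ) * (P * Real.log T) / N1 ≤ e0 := by
    have h1 : ((max L0 1 : ℕ) : ℝ) * (P * Real.log T) / e0 ≤ N1 :=
      (Nat.le_ceil _).trans (Nat.cast_le.2 (by omega))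
    rw [div_le_iff₀ he] at h1
    rw [div_le_iff₀ hN]
    linarith
  have hne : e0 ≤ rk K * e0 := le_mul_of_one_le_left he.le hn
  refine ⟨⟨T, P, N1, max L0 1, e0, hf.toFinset, fun A => r (M.Ψ A)⟩, rfl, rfl, rfl,
    ⟨hT, hP, hp.pos, le_max_right _ _, he, hmem, fun A => hr _, ?_⟩, hp, by show N0 ≤ N1; omega,
    le_max_left _ _, hg, ⟨0, (hmem 0).2 (by simpa [gam] using he)⟩, ?_, fun A o ho i hi => ?_⟩
  · show ((max L0 1 : ℕ) : ℝ) * (P * Real.log T / (rk K * N1)) ≤ e0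
    refine le_trans ?_ hL1
    rw [← mul_div_assoc]
    exact div_le_div_of_nonneg_left (by positivity) hN (le_mul_of_one_le_left hN.le hn)
  · show δ * e0 ^ rk K * (N1 : ℝ) ^ rk K / (2 * (P * Real.log T)) ≤ hf.toFinset.card
    rw [Set.ncard_eq_toFinset_card _ hf, prod_const, card_univ, ← pow_mul, hc] at hcard
    have h1 := (abs_le.1 hcard).1
    have h2 : 0 ≤ δ * e0 ^ rk K * (N1 : ℝ) ^ rk K / (P * Real.log T) := by
      have := hG.1
      positivity
    rw [mul_comm (2 : ℝ), ← div_div]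
    nlinarith
  · show |(((r (M.Ψ A)).2 + o.2 + i : ℤ) : ℝ) * P / N1 - Real.log (nI A) / Real.log T|
      ≤ 3 * rk K * e0 / Real.log T
    have h1 := nm_le hc (M.Ψ A - gam M.b (P * Real.log T) N1 (r (M.Ψ A)))
    rw [← nmL_apply, map_sub, nmL_apply, nmL_apply, hM.ps.1, nm_gam hc hM.lu.2.1] at h1
    have h2 := nm_le hc (gam M.b (P * Real.log T) N1 o)
    rw [nm_gam hc hM.lu.2.1] at h2
    have h3 := h1.trans (mul_le_mul_of_nonneg_left (hr _) (by positivity))
    have h4 := h2.trans (mul_le_mul_of_nonneg_left ((hmem o).1 ho).le (by positivity))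
    have h5 : (i : ℝ) * (P * Real.log T) / N1 ≤ e0 := by
      refine le_trans ?_ hL1
      have : (i : ℝ) ≤ (max L0 1 : ℕ) := Nat.cast_le.2 (le_of_lt hi)
      gcongr
    have h6 : 0 ≤ (i : ℝ) * (P * Real.log T) / N1 := by positivity
    have e : (((r (M.Ψ A)).2 + o.2 + i : ℤ) : ℝ) * P / N1 - Real.log (nI A) / Real.log T =
        (((r (M.Ψ A)).2 : ℝ) * (P * Real.log T) / N1 + o.2 * (P * Real.log T) / N1 +
          i * (P * Real.log T) / N1 - Real.log (nI A)) / Real.log T := by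
      push_cast
      field_simp
    rw [e, abs_div, abs_of_pos hl]
    refine div_le_div_of_nonneg_right (abs_le.2 ⟨?_, ?_⟩) hl.le
    · linarith [(abs_le.1 h3).2, (abs_le.1 h4).1]
    · linarith [(abs_le.1 h3).1, (abs_le.1 h4).2]

end Pool.Agent.Lib.BK2.NT
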