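import Pool.Agent.Lib.BK2.NDefs

/-! Section N: the finite ray class group and the model of the Arakelov class group. -/

namespace Pool.Agent.Lib.BK2.NT

open NumberField

namespace GRP1

variable {K : Type} [Field K] [NumberField K] {D : ND K}

theorem u_nat (hD : D.OK) {s : ℕ} (hs : s.Coprime D.F) (h0 : s ≠ 0) :
    D.U ((s ^ D.Q.totient : ℕ) : K) := by
  refine ⟨⟨Nat.cast_ne_zero.2 (pow_ne_zero _ h0), natCast_mem _ _, hD.inv _ (hs.pow_left _)⟩, ?_⟩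
  obtain ⟨b, hb⟩ := (Nat.ModEq.pow_totient (hs.coprime_dvd_right hD.QF)).symm.dvd
  refine ⟨b, intCast_mem _ _, ?_⟩
  have := congrArg (Int.cast : ℤ → K) hb
  push_cast at this ⊢
  linear_combination this

theorem data (hD : D.OK) (hB : Bas D) {g : K} {A : FI K} (hg : IsDiv g A) (hA : Cop D.F A) :
    ∃ (a b : 𝓞 K) (t : ℕ) (u : K), t.Coprime D.F ∧ t ≠ 0 ∧ (a : K) * b = t ∧ D.U u ∧ g = a * u := by
  obtain ⟨s, hs, h1, h2⟩ := hA
  have hg0 := hB.div_ne _ _ hg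
  have h0 : s ≠ 0 := by
    rintro rfl
    have h3 := Nat.le_of_dvd hD.Fpos hD.QF
    have h4 := hD.Q3
    rw [Nat.coprime_zero_left] at hs
    omega
  rw [hg, FractionalIdeal.mem_spanSingleton] at h1
  rw [hB.div_inv _ _ hg, FractionalIdeal.mem_spanSingleton] at h2
  obtain ⟨b, hb⟩ := h1
  obtain ⟨a, ha⟩ := h2
  rw [Algebra.smul_def] at ha hb
  obtain ⟨n, hn⟩ := Nat.exists_eq_add_one_of_ne_zero
    (Nat.totient_pos.2 (by have := hD.Q3; omega : 0 < D.Q)).ne'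
  have hs0 : (s : K) ≠ 0 := Nat.cast_ne_zero.2 h0
  have ha' : algebraMap (𝓞 K) K a = s * g := by
    rw [← ha]
    field_simp
  refine ⟨a * (s : 𝓞 K) ^ n, b, s ^ (n + 2), _, hs.pow_left _, pow_ne_zero _ h0, ?_,
    hB.u_inv _ (u_nat hD hs h0), ?_⟩
  · simp only [RingOfIntegers.coe_eq_algebraMap, map_mul, map_pow, map_natCast, Nat.cast_pow]
    rw [ha']
    linear_combination (s : K) ^ (n + 1) * hb
  · simp only [RingOfIntegers.coe_eq_algebraMap, map_mul, map_pow, map_natCast, Nat.cast_pow]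
    rw [hn, ha']
    field_simp
    ring

theorem cg_div (hD : D.OK) {a a' b' : 𝓞 K} {t : ℕ} (ht : t.Coprime D.F) (h0 : t ≠ 0)
    (h : (a' : K) * b' = t) (hd : ((D.F * D.Q : ℕ) : 𝓞 K) ∣ a - a') : D.Cg (a / a') 1 := by
  obtain ⟨c, hc⟩ := hd
  have ht0 : (t : K) ≠ 0 := Nat.cast_ne_zero.2 h0
  have ha0 : (a' : K) ≠ 0 := left_ne_zero_of_mul (h ▸ ht0)
  refine ⟨D.F * ((c * b' : 𝓞 K) : K) * (t : K)⁻¹,
    mul_mem (hD.cond _ (c * b').isIntegral_coe) (hD.inv t ht), ?_⟩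
  have := congrArg ((↑) : 𝓞 K → K) hc
  push_cast at this ⊢
  field_simp
  linear_combination (t : K) * this - D.F * D.Q * c * h

theorem mem_of_cg {g : K} (h : D.Cg g 1) : g ∈ D.R := by
  obtain ⟨b, hb, rfl⟩ := h
  exact add_mem (one_mem _) (mul_mem (natCast_mem _ _) hb)

def CG (hB : Bas D) : Subgroup (FI K) where
  carrier := {A | Cop D.F A}
  mul_mem' := hB.cop_mul _ _
  one_mem' := hB.cop_one
  inv_mem' := hB.cop_inv _

def PG (hB : Bas D) : Subgroup (CG hB) where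
  carrier := {A | ∃ g, D.U g ∧ IsDiv g A.1}
  mul_mem' := fun ⟨g, h, e⟩ ⟨g', h', e'⟩ => ⟨g * g', hB.u_mul _ _ h h', hB.div_mul _ _ _ _ e e'⟩
  one_mem' := ⟨1, hB.u_one, FractionalIdeal.spanSingleton_one.symm⟩
  inv_mem' := fun ⟨g, h, e⟩ => ⟨g⁻¹, hB.u_inv _ h, hB.div_inv _ _ e⟩

theorem finite (hD : D.OK) (hB : Bas D) : Finite (CG hB ⧸ PG hB) := by
  let φ : CG hB → ClassGroup (𝓞 K) := fun A => ClassGroup.mk K A.1
  have key : ∀ A : CG hB, ∃ (a b : 𝓞 K) (t : ℕ) (u : K), t.Coprime D.F ∧ t ≠ 0 ∧ (a : K) * b = t ∧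
      D.U u ∧ IsDiv (a * u) (A * (Function.invFun φ (φ A))⁻¹).1 := by
    intro A
    have h1 : ClassGroup.mk K (A * (Function.invFun φ (φ A))⁻¹).1 = 1 := by
      rw [Subgroup.coe_mul, Subgroup.coe_inv, map_mul, map_inv, mul_inv_eq_one]
      exact (Function.invFun_eq ⟨A, rfl⟩ : φ _ = φ A).symm
    obtain ⟨g, hg⟩ := (FractionalIdeal.isPrincipal_iff _).1 (ClassGroup.mk_eq_one_iff.1 h1)
    obtain ⟨a, b, t, u, h2, h3, h4, h5, rfl⟩ := data hD hB hg (A * _).2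
    exact ⟨a, b, t, u, h2, h3, h4, h5, hg⟩
  choose a b t u h1 h2 h3 h4 h5 using key
  have hI : Ideal.span {((D.F * D.Q : ℕ) : 𝓞 K)} ≠ ⊥ := by
    have := hD.Fpos
    have := hD.Q3
    rw [Ne, Ideal.span_singleton_eq_bot, Nat.cast_eq_zero]
    positivity
  have := Ideal.finiteQuotientOfFreeOfNeBot _ hI
  refine Finite.of_injective (fun q : CG hB ⧸ PG hB => (φ q.out,
    Ideal.Quotient.mk (Ideal.span {((D.F * D.Q : ℕ) : 𝓞 K)}) (a q.out))) fun q q' e => ?_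
  obtain ⟨e1, e2⟩ := Prod.mk.inj e
  rw [← q.out_eq', ← q'.out_eq', QuotientGroup.eq]
  generalize q.out = A at *
  generalize q'.out = A' at *
  rw [Ideal.Quotient.eq, Ideal.mem_span_singleton] at e2
  have c1 := cg_div hD (h1 A) (h2 A) (h3 A) (dvd_sub_comm.1 e2)
  have c2 := cg_div hD (h1 A') (h2 A') (h3 A') e2
  have n1 : (a A : K) ≠ 0 := left_ne_zero_of_mul (h3 A ▸ Nat.cast_ne_zero.2 (h2 A))
  have n2 : (a A' : K) ≠ 0 := left_ne_zero_of_mul (h3 A' ▸ Nat.cast_ne_zero.2 (h2 A'))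
  have hu : D.U ((a A' : K) / a A) :=
    ⟨⟨div_ne_zero n2 n1, mem_of_cg c1, by rw [inv_div]; exact mem_of_cg c2⟩, c1⟩
  refine ⟨_, hB.u_mul _ _ (hB.u_mul _ _ hu (h4 A')) (hB.u_inv _ (h4 A)), ?_⟩
  have h6 := hB.div_mul _ _ _ _ (h5 A') (hB.div_inv _ _ (h5 A))
  rw [← Subgroup.coe_inv, ← Subgroup.coe_mul, e1, mul_inv_rev A, inv_inv, mul_assoc A',
    inv_mul_cancel_left, mul_comm A'] at h6
  rwa [show (a A' : K) / a A * u A' * (u A)⁻¹ = a A' * u A' * (a A * u A)⁻¹ by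
    rw [mul_inv, div_eq_mul_inv]; ring]

end GRP1

theorem stGRP1 (hBAS : St_BAS) : St_GRP1 := by
  classical
  intro K _ _ D hD
  have hB := hBAS K D hD
  have := GRP1.finite hD hB
  refine ⟨Additive (GRP1.CG hB ⧸ GRP1.PG hB), inferInstance, Fintype.ofFinite _, fun A =>
    if h : Cop D.F A then Additive.ofMul (QuotientGroup.mk ⟨A, h⟩) else 0, fun A B hA hA' => ?_,
    fun h => ?_, fun A hA => ?_⟩
  · beta_reduce
    rw [dif_pos hA, dif_pos hA', dif_pos (hB.cop_mul _ _ hA hA'), ← ofMul_mul,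
      ← QuotientGroup.mk_mul]
    rfl
  · obtain ⟨A, hA⟩ := QuotientGroup.mk_surjective h.toMul
    exact ⟨A.1, A.2, (dif_pos A.2).trans (congrArg Additive.ofMul hA)⟩
  · beta_reduce
    rw [dif_pos hA, ofMul_eq_zero, QuotientGroup.eq_one_iff]
    rfl

theorem stGRP (hBAS : St_BAS) (h1 : St_GRP1) (h2 : St_GRP2) (h3 : St_GRP3) : St_GRP := by
  intro K _ _ D hD
  have hB := hBAS K D hD
  obtain ⟨H, _, _, cl, hcl⟩ := h1 K D hD
  obtain ⟨b, hb⟩ := h2 K D hD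
  obtain ⟨Ψ, hΨ⟩ := h3 K D hD b hb
  refine ⟨⟨H, cl, Ψ, b⟩, hcl, hb, hΨ, fun A z hA h0 hz => ?_⟩
  obtain ⟨g, hg, e⟩ := (hcl.2.2 A hA).1 h0
  have e0 : cexp (fun w => Complex.log (emb g w)) = emb g := funext fun w =>
    Complex.exp_log ((map_ne_zero _).2 hg.1.1)
  obtain ⟨u, hu, e1, e2⟩ := (hb.2.2.1 _).1 (sub_mem hz (hΨ.2.2 g A _ hg e e0))
  refine ⟨u * g, hB.u_mul _ _ hu hg, one_mul A ▸ hB.div_mul _ _ _ _ e1 e, funext fun w => ?_⟩
  have h4 := congrFun e2 w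
  have h5 := congrFun e0 w
  simp only [cexp, emb, Pi.sub_apply, sub_sub_sub_cancel_right, map_mul] at h4 h5 ⊢
  rw [← h4, Complex.exp_sub, h5, div_mul_cancel₀ _ ((map_ne_zero _).2 hg.1.1)]

end Pool.Agent.Lib.BK2.NT
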