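import Pool.Agent.Lib.BK2.NDefs

/-!
The lattice of logarithms of the units that are one modulo `Q`.
-/

namespace Pool.Agent.Lib.BK2.NT

open Finset NumberField

namespace GRP2

theorem exists_basis {E : Type*} [NormedAddCommGroup E] [NormedSpace ℝ E] [FiniteDimensional ℝ E]
    (L : Submodule ℤ E) [hL : DiscreteTopology L] (n : ℕ)
    (h : Module.finrank ℝ (Submodule.span ℝ (L : Set E)) = n) :
    ∃ b : Fin n → E, LinearIndependent ℝ b ∧ Submodule.span ℤ (Set.range b) = L := by
  have h1 : Module.finrank ℤ L = n := by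
    have hd : DiscreteTopology (Submodule.span ℤ (L : Set E)) := by
      rw [Submodule.span_eq]; exact hL
    have := Real.finrank_eq_int_finrank_of_discrete hd
    rw [Set.finrank, Set.finrank, Submodule.span_eq] at this
    rw [← this, h]
  let b0 := Module.finBasisOfFinrankEq ℤ L h1
  have hs : Submodule.span ℤ (Set.range (L.subtype ∘ b0)) = L := by
    rw [Set.range_comp, ← Submodule.map_span, b0.span_eq, Submodule.map_top,
      Submodule.range_subtype]
  refine ⟨L.subtype ∘ b0, ?_, hs⟩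
  rw [linearIndependent_iff_card_eq_finrank_span, Fintype.card_fin, Set.finrank,
    ← Submodule.span_span_of_tower ℤ, hs, h]

variable {K : Type} [Field K] [NumberField K]

/-- `nm` as a linear map -/
noncomputable def nmL : EK K →ₗ[ℝ] ℝ where
  toFun := nm
  map_add' x y := by simp [nm, sum_add_distrib, mul_add]
  map_smul' c x := by simp [nm, mul_sum, mul_left_comm]

/-- twice the real parts away from the distinguished place -/
noncomputable def prj : EK K →ₗ[ℝ] Units.dirichletUnitTheorem.logSpace K where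
  toFun z := fun w => 2 * (z w.1).re
  map_add' x y := by ext w; simp [mul_add]
  map_smul' c x := by ext w; simp [mul_left_comm]

theorem isDiv_one : IsDiv (1 : K) (1 : FI K) := by
  simp [IsDiv, FractionalIdeal.spanSingleton_one]

/-- the group of logarithms -/
def Lam {D : ND K} (hB : Bas D) : Submodule ℤ (EK K) :=
  AddSubgroup.toIntSubmodule
    { carrier := {z | ∃ u, D.U u ∧ IsDiv u 1 ∧ cexp z = emb u}
      zero_mem' := ⟨1, hB.u_one, isDiv_one, by ext w; simp [cexp, emb]⟩
      add_mem' := by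
        rintro z z' ⟨u, h1, h2, h3⟩ ⟨u', h1', h2', h3'⟩
        refine ⟨u * u', hB.u_mul _ _ h1 h1', by simpa using hB.div_mul _ _ _ _ h2 h2', ?_⟩
        ext w
        have a := congrFun h3 w
        have b := congrFun h3' w
        simp only [cexp, emb] at a b ⊢
        simp [Complex.exp_add, a, b]
      neg_mem' := by
        rintro z ⟨u, h1, h2, h3⟩
        refine ⟨u⁻¹, hB.u_inv _ h1, by simpa using hB.div_inv _ _ h2, ?_⟩
        ext w
        have a := congrFun h3 w
        simp only [cexp, emb] at a ⊢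
        simp [Complex.exp_neg, a] }

theorem mem_Lam {D : ND K} (hB : Bas D) (z : EK K) :
    z ∈ Lam hB ↔ ∃ u, D.U u ∧ IsDiv u 1 ∧ cexp z = emb u := Iff.rfl

theorem small {D : ND K} (hB : Bas D) (hL : St_LOG) (z : EK K) (hz : z ∈ Lam hB)
    (h : ‖z‖ < 1 / 2) : z = 0 := by
  obtain ⟨u, -, h2, h3⟩ := hz
  have hw : ∀ w, ‖z w‖ < 1 / 2 := fun w => (norm_le_pi_norm z w).trans_lt h
  have hu : u = 1 := by
    refine hB.inj u 1 1 h2 isDiv_one fun w => ?_
    have a := congrFun h3 w
    have b : emb (1 : K) w = 1 := by simp [emb]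
    rw [b, ← a, norm_one]
    have c := hL.2 (z w) (by linarith [hw w])
    have d := norm_nonneg (z w)
    have e := hw w
    simp only [cexp]
    nlinarith
  ext w
  have a := congrFun h3 w
  simp only [cexp, emb, hu, map_one] at a
  obtain ⟨n, hn⟩ := Complex.exp_eq_one_iff.mp a
  have e := hw w
  rw [hn] at e ⊢
  have f : ‖(n : ℂ) * (2 * Real.pi * Complex.I)‖ = |(n : ℝ)| * (2 * Real.pi) := by
    simp [abs_of_pos Real.pi_pos]
  rw [f] at e
  have g : n = 0 := by
    by_contra g
    have : (1 : ℝ) ≤ |(n : ℝ)| := by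
      rw [← Int.cast_abs]; exact_mod_cast Int.one_le_abs g
    nlinarith [Real.pi_gt_three]
  simp [g]

theorem nm_zero {D : ND K} (hD : D.OK) (hB : Bas D) (hE : St_EMB) (z : EK K) (hz : z ∈ Lam hB) :
    nm z = 0 := by
  obtain ⟨u, -, h2, h3⟩ := hz
  obtain ⟨-, -, -, -, e1, e2⟩ := hE K hD.tc
  have a := e2 z
  rw [h3, ← e1 u 1 h2, hB.nI_one] at a
  exact (Real.exp_eq_one_iff _).mp a.symm

/-- a power of a unit is one modulo `F Q` -/
theorem pow_U {D : ND K} (hD : D.OK) (u : (𝓞 K)ˣ) :
    ∃ f : ℕ, 0 < f ∧ D.U (((u ^ f : (𝓞 K)ˣ) : 𝓞 K) : K) := by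
  have hN : ((D.Q * D.F : ℕ) : 𝓞 K) ≠ 0 := by
    have := hD.Q3
    have := hD.Fpos
    exact Nat.cast_ne_zero.mpr (by positivity)
  let I : Ideal (𝓞 K) := Ideal.span {((D.Q * D.F : ℕ) : 𝓞 K)}
  have hI : I ≠ ⊥ := by simpa [I, Ideal.span_singleton_eq_bot] using hN
  have : Finite (𝓞 K ⧸ I) := Ideal.finiteQuotientOfFreeOfNeBot I hI
  obtain ⟨f, hf, h1⟩ := isOfFinOrder_iff_pow_eq_one.mp
    (isOfFinOrder_of_finite (Units.map (Ideal.Quotient.mk I).toMonoidHom u))
  have key : ∀ v : (𝓞 K)ˣ, Units.map (Ideal.Quotient.mk I).toMonoidHom v = 1 →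
      D.Cg ((v : 𝓞 K) : K) 1 := by
    intro v hv
    have a : Ideal.Quotient.mk I (v : 𝓞 K) = Ideal.Quotient.mk I 1 := by
      simpa using congrArg Units.val hv
    rw [Ideal.Quotient.eq, Ideal.mem_span_singleton] at a
    obtain ⟨c, hc⟩ := a
    refine ⟨D.F * (c : K), hD.cond _ c.isIntegral_coe, ?_⟩
    have := congrArg (algebraMap (𝓞 K) K) hc
    simp only [map_sub, map_one, map_mul, map_natCast, Nat.cast_mul] at this
    linear_combination this
  have mem : ∀ g, D.Cg g 1 → g ∈ D.R := by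
    rintro g ⟨b, hb, rfl⟩
    exact D.R.add_mem D.R.one_mem (D.R.mul_mem (natCast_mem D.R _) hb)
  have k1 := key (u ^ f) (by rw [map_pow, h1])
  have k2 := key (u ^ f)⁻¹ (by rw [map_inv, map_pow, h1, inv_one])
  refine ⟨f, hf, ⟨Units.coe_ne_zero _, mem _ k1, ?_⟩, k1⟩
  have := mem _ k2
  have e : ((((u ^ f)⁻¹ : (𝓞 K)ˣ) : 𝓞 K) : K) = (((u ^ f : (𝓞 K)ˣ) : 𝓞 K) : K)⁻¹ :=
    map_units_inv (algebraMap (𝓞 K) K) (u ^ f)
  rwa [e] at this

theorem isDiv_unit (v : (𝓞 K)ˣ) : IsDiv ((v : 𝓞 K) : K) (1 : FI K) := by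
  have := FractionalIdeal.coeIdeal_span_singleton (S := nonZeroDivisors (𝓞 K)) (P := K)
    (v : 𝓞 K)
  rw [Ideal.span_singleton_eq_top.mpr v.isUnit] at this
  simp only [IsDiv, Units.val_one]
  rw [← this, FractionalIdeal.coeIdeal_top]

theorem span_eq {D : ND K} (hD : D.OK) (hB : Bas D) (hE : St_EMB) :
    Submodule.span ℝ (Lam hB : Set (EK K)) = LinearMap.ker (nmL (K := K)) := by
  classical
  have hle : Submodule.span ℝ (Lam hB : Set (EK K)) ≤ LinearMap.ker (nmL (K := K)) :=
    Submodule.span_le.mpr fun z hz => nm_zero hD hB hE z hz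
  refine le_antisymm hle fun z hz => ?_
  set S := Submodule.span ℝ (Lam hB : Set (EK K)) with hS
  have him : ∀ y : EK K, (∀ w, (y w).re = 0) → y ∈ S := by
    intro y hy
    have e : y = ∑ w, ((y w).im / (2 * Real.pi)) •
        (Pi.single w (2 * Real.pi * Complex.I) : EK K) := by
      ext v
      rw [Finset.sum_apply, Finset.sum_eq_single v]
      · have hp : (Real.pi : ℂ) ≠ 0 := by exact_mod_cast Real.pi_ne_zero
        simp only [Pi.smul_apply, Pi.single_eq_same, Complex.real_smul]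
        push_cast
        field_simp
        apply Complex.ext <;> simp [hy v]
      · intro w _ hw
        simp [Pi.single_eq_of_ne hw.symm]
      · simp
    rw [e]
    refine S.sum_mem fun w _ => S.smul_mem _ (Submodule.subset_span ⟨1, hB.u_one, isDiv_one, ?_⟩)
    ext v
    by_cases h : v = w
    · subst h
      simp [cexp, emb]
    · simp [cexp, emb, Pi.single_eq_of_ne h]
  have htop : S.map prj = ⊤ := by
    rw [eq_top_iff, ← Units.dirichletUnitTheorem.unitLattice_span_eq_top K]
    refine Submodule.span_le.mpr ?_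
    rintro _ ⟨u, -, rfl⟩
    obtain ⟨f, hf, hU⟩ := pow_U hD u.toMul
    have hne : ∀ w : InfinitePlace K,
        w.embedding (((u.toMul ^ f : (𝓞 K)ˣ) : 𝓞 K) : K) ≠ 0 := fun w => by
      rw [map_ne_zero]; exact Units.coe_ne_zero _
    refine ⟨(1 / (f : ℝ)) • fun w => Complex.log
      (w.embedding (((u.toMul ^ f : (𝓞 K)ˣ) : 𝓞 K) : K)), S.smul_mem _ (Submodule.subset_span
        ⟨_, hU, isDiv_unit _, ?_⟩), ?_⟩
    · ext w
      simp only [cexp, emb]
      exact Complex.exp_log (hne w)
    · ext w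
      have hm : w.1.mult = 2 := by
        have := hD.tc
        exact IsTotallyComplex.mult_eq w.1
      have hf' : (f : ℝ) ≠ 0 := by positivity
      change 2 * ((1 / (f : ℝ)) • Complex.log _).re =
        (w.1.mult : ℝ) * Real.log (w.1 ((u.toMul : 𝓞 K) : K))
      have e : (((u.toMul ^ f : (𝓞 K)ˣ) : 𝓞 K) : K) = ((u.toMul : 𝓞 K) : K) ^ f :=
        Units.coe_pow _ _
      rw [hm, Complex.real_smul, Complex.re_ofReal_mul, Complex.log_re,
        InfinitePlace.norm_embedding_eq, e, map_pow, Real.log_pow]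
      push_cast
      field_simp
  obtain ⟨s, hs, hp⟩ : prj z ∈ S.map prj := by rw [htop]; trivial
  have hk : z - s ∈ LinearMap.ker (nmL (K := K)) := Submodule.sub_mem _ hz (hle hs)
  have h1 : ∀ w, w ≠ Units.dirichletUnitTheorem.w₀ → ((z - s) w).re = 0 := by
    intro w hw
    have a : 2 * (s w).re = 2 * (z w).re := congrFun hp ⟨w, hw⟩
    simp only [Pi.sub_apply, Complex.sub_re]
    linarith
  have h2 : ∀ w, ((z - s) w).re = 0 := by
    intro w
    by_cases hw : w = Units.dirichletUnitTheorem.w₀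
    · have a : 2 * ∑ v, ((z - s) v).re = 0 := hk
      rw [Finset.sum_eq_single w (fun v _ hv => h1 v (hw ▸ hv)) (by simp)] at a
      linarith
    · exact h1 w hw
  simpa using S.add_mem (him _ h2) hs

theorem finrank_ker (hE : St_EMB) (hK : IsTotallyComplex K) :
    Module.finrank ℝ (LinearMap.ker (nmL (K := K))) = rk K - 1 := by
  obtain ⟨e0, e1, -⟩ := hE K hK
  have a := LinearMap.finrank_range_add_finrank_ker (nmL (K := K))
  have b : LinearMap.range (nmL (K := K)) = ⊤ := by
    refine LinearMap.range_eq_top.mpr fun x => ⟨fun _ => (x / rk K : ℝ), ?_⟩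
    have hp : (0 : ℝ) < rk K := by exact_mod_cast (Module.finrank_pos : 0 < rk K)
    have e : (rk K : ℝ) = 2 * Fintype.card (InfinitePlace K) := by exact_mod_cast e0.symm
    change 2 * ∑ _w : InfinitePlace K, ((x / rk K : ℝ) : ℂ).re = x
    simp only [Complex.ofReal_re, sum_const, card_univ, nsmul_eq_mul]
    rw [← mul_assoc, ← e]
    field_simp
  rw [b, finrank_top, Module.finrank_self, e1] at a
  omega

end GRP2

theorem stGRP2 (hB : St_BAS) (hL : St_LOG) (hE : St_EMB) : St_GRP2 := by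
  intro K _ _ D hD
  have B := hB K D hD
  have : DiscreteTopology (GRP2.Lam B) := by
    refine discreteTopology_of_isOpen_singleton_zero ?_
    have : ({0} : Set (GRP2.Lam B)) = Subtype.val ⁻¹' Metric.ball (0 : EK K) (1 / 2) := by
      ext z
      simp only [Set.mem_singleton_iff, Set.mem_preimage, mem_ball_zero_iff]
      constructor
      · rintro rfl
        simp
      · intro h
        exact Subtype.ext (GRP2.small B hL z z.2 h)
    rw [this]
    exact Metric.isOpen_ball.preimage continuous_subtype_val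
  obtain ⟨b, h1, h2⟩ := GRP2.exists_basis (GRP2.Lam B) (rk K - 1)
    (by rw [GRP2.span_eq hD B hE]; exact GRP2.finrank_ker hE hD.tc)
  refine ⟨b, h1, fun i => GRP2.nm_zero hD B hE _ ?_, fun z => ?_, fun z hz => ?_⟩
  · rw [← h2]; exact Submodule.subset_span ⟨i, rfl⟩
  · rw [Lu, h2]; exact GRP2.mem_Lam B z
  · rw [Lu, h2] at hz; exact GRP2.small B hL z hz

end Pool.Agent.Lib.BK2.NT
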