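import Pool.Agent.Lib.BK2.NDefs

namespace Pool.Agent.Lib.BK2.NT

open Finset NumberField

namespace GRP3

variable {K : Type} [Field K] [NumberField K]

theorem nm_add (z z' : EK K) : nm (z + z') = nm z + nm z' := by
  simp [nm, Finset.sum_add_distrib, mul_add]

theorem nm_sub (z z' : EK K) : nm (z - z') = nm z - nm z' := by
  simp [nm, Finset.sum_sub_distrib, mul_sub]

theorem nm_lu (b : Fin (rk K - 1) → EK K) (hb : ∀ i, nm (b i) = 0) (z : EK K) (hz : z ∈ Lu b) :
    nm z = 0 := by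
  refine Submodule.span_induction (p := fun z _ => nm z = 0) ?_ ?_ ?_ ?_ hz
  · rintro _ ⟨i, rfl⟩
    exact hb i
  · simp [nm]
  · intro x y _ _ hx hy
    rw [nm_add, hx, hy, add_zero]
  · intro a x _ hx
    have : nm (a • x) = a * nm x := by
      simp [nm, Finset.mul_sum, mul_left_comm]
    rw [this, hx, mul_zero]

theorem nm_const (r : ℝ) :
    nm (fun _ : InfinitePlace K => (r : ℂ)) = r * (2 * Fintype.card (InfinitePlace K)) := by
  simp [nm]
  ring

theorem cexp_add (z z' : EK K) : cexp (z + z') = cexp z * cexp z' := by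
  funext w
  simp [cexp, Complex.exp_add]

theorem cexp_neg (z : EK K) : cexp (-z) = (cexp z)⁻¹ := by
  funext w
  simp [cexp, Complex.exp_neg]

theorem emb_mul (g g' : K) : emb (g * g') = emb g * emb g' := by
  funext w
  simp [emb]

theorem emb_inv (g : K) : emb g⁻¹ = (emb g)⁻¹ := by
  funext w
  simp [emb]

theorem quot_div (L : AddSubgroup (EK K)) {n : ℤ} (hn : n ≠ 0) :
    Function.Surjective fun a : EK K ⧸ L => n • a := by
  intro q
  obtain ⟨z, rfl⟩ := QuotientAddGroup.mk_surjective q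
  refine ⟨QuotientAddGroup.mk ((n : ℂ)⁻¹ • z), ?_⟩
  have h : n • ((n : ℂ)⁻¹ • z) = z := by
    have hn' : (n : ℂ) ≠ 0 := Int.cast_ne_zero.2 hn
    rw [← Int.cast_smul_eq_zsmul ℂ, smul_smul, mul_inv_cancel₀ hn', one_smul]
  show n • (QuotientAddGroup.mk ((n : ℂ)⁻¹ • z) : EK K ⧸ L) = _
  rw [← QuotientAddGroup.mk_zsmul, h]

/-- the graph of the logarithm on principal ideals -/
def gr (D : ND K) (hB : Bas D) (L : AddSubgroup (EK K)) :
    AddSubgroup (Additive (FI K) × (EK K ⧸ L)) where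
  carrier := {x | ∃ g z, D.U g ∧ IsDiv g x.1.toMul ∧ cexp z = emb g ∧
    x.2 = QuotientAddGroup.mk z}
  zero_mem' := by
    refine ⟨1, 0, hB.u_one, ?_, ?_, rfl⟩
    · show (1 : FI K).1 = _
      simp
    · funext w
      simp [cexp, emb]
  add_mem' := by
    rintro x y ⟨g, z, hg, hd, hz, hx⟩ ⟨g', z', hg', hd', hz', hy⟩
    refine ⟨g * g', z + z', hB.u_mul _ _ hg hg', hB.div_mul _ _ _ _ hd hd', ?_, ?_⟩
    · rw [cexp_add, emb_mul, hz, hz']
    · rw [Prod.snd_add, hx, hy, QuotientAddGroup.mk_add]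
  neg_mem' := by
    rintro x ⟨g, z, hg, hd, hz, hx⟩
    refine ⟨g⁻¹, -z, hB.u_inv _ hg, hB.div_inv _ _ hd, ?_, ?_⟩
    · rw [cexp_neg, emb_inv, hz]
    · rw [Prod.snd_neg, hx, QuotientAddGroup.mk_neg]

theorem ext_hom (D : ND K) (hB : Bas D) (b : Fin (rk K - 1) → EK K) (hL : LuOK D b) :
    ∃ φ : Additive (FI K) →+ (EK K ⧸ (Lu b).toAddSubgroup),
      ∀ g A z, D.U g → IsDiv g A → cexp z = emb g →
        φ (Additive.ofMul A) = QuotientAddGroup.mk z := by
  letI : DivisibleBy (EK K ⧸ (Lu b).toAddSubgroup) ℤ :=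
    divisibleByOfSMulRightSurj _ _ fun hn => quot_div _ hn
  let G := gr D hB (Lu b).toAddSubgroup
  let f : G →+ Additive (FI K) := (AddMonoidHom.fst _ _).comp G.subtype
  let s : G →+ (EK K ⧸ (Lu b).toAddSubgroup) := (AddMonoidHom.snd _ _).comp G.subtype
  have hf : Function.Injective f := by
    rw [injective_iff_map_eq_zero]
    rintro ⟨⟨A, q⟩, g, z, hg, hd, hz, hq⟩ h0
    have hA : A = 0 := h0
    subst hA
    have hz' : z ∈ Lu b := (hL.2.2.1 z).2 ⟨g, hg, hd, hz⟩
    have hq0 : q = 0 := by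
      have hq' : q = QuotientAddGroup.mk z := hq
      rw [hq']
      exact (QuotientAddGroup.eq_zero_iff z).2 hz'
    subst hq0
    rfl
  obtain ⟨φ, hφ⟩ := (Module.Baer.of_divisible _).extension_property_addMonoidHom f hf s
  refine ⟨φ, fun g A z hg hd hz => ?_⟩
  have hm : (Additive.ofMul A, (QuotientAddGroup.mk z : EK K ⧸ (Lu b).toAddSubgroup)) ∈ G :=
    ⟨g, z, hg, hd, hz, rfl⟩
  exact DFunLike.congr_fun hφ ⟨_, hm⟩

end GRP3

open GRP3 in
theorem stGRP3 (hBAS : St_BAS) (hE : St_EMB) : St_GRP3 := by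
  intro K _ _ D hD b hL
  have hB := hBAS K D hD
  obtain ⟨hn, -, -, -, hI, hN⟩ := hE K hD.tc
  obtain ⟨φ, hφ⟩ := ext_hom D hB b hL
  have hn0 : (2 * Fintype.card (InfinitePlace K) : ℝ) ≠ 0 := by
    have : 0 < Fintype.card (InfinitePlace K) := Fintype.card_pos
    positivity
  let o : FI K → EK K := fun A => (φ (Additive.ofMul A)).out
  have ho : ∀ A, (QuotientAddGroup.mk (o A) : EK K ⧸ (Lu b).toAddSubgroup)
      = φ (Additive.ofMul A) := fun A => QuotientAddGroup.out_eq' _
  let c : FI K → ℝ := fun A =>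
    (Real.log (nI A) - nm (o A)) / (2 * Fintype.card (InfinitePlace K))
  have key : ∀ x y : EK K, (QuotientAddGroup.mk x : EK K ⧸ (Lu b).toAddSubgroup)
      = QuotientAddGroup.mk y → x - y ∈ Lu b := by
    intro x y h
    have h1 : (QuotientAddGroup.mk (x - y) : EK K ⧸ (Lu b).toAddSubgroup) = 0 := by
      rw [QuotientAddGroup.mk_sub, h, sub_self]
    exact (QuotientAddGroup.eq_zero_iff _).1 h1
  refine ⟨fun A => o A + fun _ => (c A : ℂ), fun A => ?_, fun A B => ?_, fun g A z hg hd hz => ?_⟩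
  · rw [nm_add, nm_const]
    simp only [c]
    rw [div_mul_cancel₀ _ hn0]
    ring
  · have h1 : o (A * B) - (o A + o B) ∈ Lu b := by
      apply key
      rw [QuotientAddGroup.mk_add, ho, ho, ho, ← map_add]
      rfl
    have h2 := nm_lu b hL.2.1 _ h1
    rw [nm_sub, nm_add] at h2
    have h3 : c (A * B) = c A + c B := by
      simp only [c]
      rw [hB.nI_mul, Real.log_mul (hB.nI_pos A).ne' (hB.nI_pos B).ne', ← add_div]
      have : nm (o (A * B)) = nm (o A) + nm (o B) := by linarith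
      rw [this]
      ring
    have h4 : ((o (A * B) + fun _ => (c (A * B) : ℂ)) - (o A + fun _ => (c A : ℂ))
        - (o B + fun _ => (c B : ℂ)) : EK K) = o (A * B) - (o A + o B) := by
      funext w
      simp only [h3, Pi.add_apply, Pi.sub_apply, Complex.ofReal_add]
      ring
    rw [h4]
    exact h1
  · have h1 : z - o A ∈ Lu b := by
      apply key
      rw [ho, hφ g A z hg hd hz]
    have h2 := nm_lu b hL.2.1 _ h1
    rw [nm_sub] at h2
    have h3 : c A = 0 := by
      simp only [c]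
      rw [hI g A hd, ← hz, hN, Real.log_exp]
      have : nm z - nm (o A) = 0 := h2
      rw [this, zero_div]
    have h4 : (z - (o A + fun _ => (c A : ℂ)) : EK K) = z - o A := by
      funext w
      simp [h3]
    rw [h4]
    exact h1

end Pool.Agent.Lib.BK2.NT
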