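import Pool.Agent.Lib.BK2.NDefs

namespace Pool.Agent.Lib.BK2.NT

open Finset NumberField

namespace RHO

variable {K : Type} [Field K] [NumberField K]

theorem nm_add (z z' : EK K) : nm (z + z') = nm z + nm z' := by
  simp only [nm, Pi.add_apply, Complex.add_re, Finset.sum_add_distrib]
  ring

theorem nm_sub (z z' : EK K) : nm (z - z') = nm z - nm z' := by
  simp only [nm, Pi.sub_apply, Complex.sub_re, Finset.sum_sub_distrib]
  ring

theorem nm_smul (c : ℝ) (z : EK K) : nm (c • z) = c * nm z := by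
  simp only [nm, Pi.smul_apply, Complex.smul_re, smul_eq_mul, ← Finset.mul_sum]
  ring

theorem nm_sum {I : Type} (s : Finset I) (f : I → EK K) :
    nm (∑ i ∈ s, f i) = ∑ i ∈ s, nm (f i) := by
  classical
  induction s using Finset.induction_on with
  | empty => simp [nm]
  | insert a s ha ih => rw [Finset.sum_insert ha, Finset.sum_insert ha, nm_add, ih]

theorem nm_gam (hc : 2 * Fintype.card (InfinitePlace K) = rk K) (b : Fin (rk K - 1) → EK K)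
    (hb : ∀ i, nm (b i) = 0) (N1 : ℕ) (a : GC K) : nm (gam b 1 N1 a) = (a.2 : ℝ) / N1 := by
  have h1 : nm (fun _ : InfinitePlace K => (1 : ℂ)) = rk K := by
    rw [← hc]
    simp [nm]
  have h2 : (rk K : ℝ) ≠ 0 := by
    have : 0 < rk K := Module.finrank_pos
    positivity
  rw [gam, nm_smul, nm_add, nm_sum, nm_smul, h1]
  simp only [nm_smul, hb, mul_zero, Finset.sum_const_zero, zero_add]
  field_simp

theorem gam_shift (b : Fin (rk K - 1) → EK K) (N1 : ℕ) (hN : 0 < N1) (a : GC K)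
    (k : Fin (rk K - 1) → ℤ) :
    gam b 1 N1 (fun i => a.1 i - N1 * k i, a.2) = gam b 1 N1 a - ∑ i, k i • b i := by
  have h : (N1 : ℝ) ≠ 0 := by positivity
  have h1 : ∑ i, ((a.1 i - N1 * k i : ℤ) : ℝ) • b i
      = ∑ i, (a.1 i : ℝ) • b i - (N1 : ℝ) • ∑ i, k i • b i := by
    rw [Finset.smul_sum, ← Finset.sum_sub_distrib]
    refine Finset.sum_congr rfl fun i _ => ?_
    rw [← Int.cast_smul_eq_zsmul ℝ (k i), smul_smul, ← sub_smul]
    push_cast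
    rfl
  simp only [gam]
  rw [h1, sub_add_eq_add_sub, smul_sub, smul_smul, one_div, inv_mul_cancel₀ h, one_smul]

theorem Nv_le (hc : 2 * Fintype.card (InfinitePlace K) = rk K) (x y : EK K) (c : ℝ)
    (h : ∀ w, ‖x w‖ ≤ c * ‖y w‖) : Nv x ≤ c ^ rk K * Nv y := by
  calc Nv x ≤ ∏ w, c ^ 2 * ‖y w‖ ^ 2 := by
        refine Finset.prod_le_prod (fun _ _ => sq_nonneg _) fun w _ => ?_
        rw [← mul_pow]
        exact pow_le_pow_left₀ (norm_nonneg _) (h w) 2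
    _ = c ^ rk K * Nv y := by
        rw [Finset.prod_mul_distrib, Finset.prod_const, Finset.card_univ, ← pow_mul, hc]
        rfl

/-- the ideals attached to one class and one grid point -/
theorem one (hL : St_LOG) (hE : St_EMB) (hU : St_UNITS) (D : ND K) (M : Mdl K) (ρ0 X : ℝ)
    (hD : D.OK) (hB : Bas D) (hM : M.OK D) (hC : D.Cnt ρ0)
    (hX : (512 * (rk K : ℝ) ^ 3 * D.Δ ^ 4) ^ rk K ≤ X) (N1 : ℕ) (hN : 0 < N1) (h : M.H)
    (a : GC K) (ha : X ≤ Real.exp ((a.2 : ℝ) / N1)) :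
    ∃ T : Finset (FI K), (∀ A ∈ T, Cop D.F A ∧ Itg A ∧
        nI A ≤ (9 / 8) ^ rk K * Real.exp ((a.2 : ℝ) / N1) ∧ M.cl A = h ∧
        ∃ k : Fin (rk K - 1) → ℤ,
          gam M.b 1 N1 (fun i => a.1 i - N1 * k i, a.2) ∈ Dsa (M.Ψ A) fun _ => 1) ∧
      ρ0 * (1 / 8) ^ rk K * Real.exp ((a.2 : ℝ) / N1) / (D.Q : ℝ) ^ rk K ≤ 2 * T.card := by
  classical
  obtain ⟨hc, -, -, -, hdiv, hexp⟩ := hE K hD.tc
  obtain ⟨A0, hA0, hcl⟩ := hM.cl.2.1 h
  have hA0' := hB.cop_inv A0 hA0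
  obtain ⟨g0, hg0, hg0U⟩ := hB.meet A0⁻¹ hA0'
  have hp0 := hB.nI_pos A0
  have hinv : nI A0⁻¹ = 1 / nI A0 := by
    have h1 := hB.nI_mul A0⁻¹ A0
    rw [inv_mul_cancel, hB.nI_one] at h1
    rw [eq_div_iff hp0.ne', ← h1]
  set y : EK K := cexp (gam M.b 1 N1 a - M.Ψ A0) with hy
  have hNy : Nv y = Real.exp ((a.2 : ℝ) / N1) / nI A0 := by
    rw [hy, hexp, nm_sub, nm_gam hc M.b hM.lu.2.1, hM.ps.1, Real.exp_sub, Real.exp_log hp0]
  have hy0 : ∀ w, 0 < ‖y w‖ := fun w => norm_pos_iff.2 (Complex.exp_ne_zero _)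
  have hQF : (D.Q : ℝ) ≤ D.Δ :=
    le_trans (by exact_mod_cast Nat.le_of_dvd hD.Fpos hD.QF) hD.FΔ
  have hbig : ∀ d : ℕ, (d : ℝ) ≤ D.Δ ^ 2 → D.Big A0⁻¹ d y (1 / 8) (1 / 8) := by
    intro d hd
    rw [ND.Big, hinv, hNy, mul_one_div]
    refine div_le_div_of_nonneg_right (le_trans ?_ (hX.trans ha)) hp0.le
    refine pow_le_pow_left₀ (by positivity) ?_ _
    have h1 : (0 : ℝ) ≤ 512 * (rk K : ℝ) ^ 3 * D.Δ ^ 2 := by positivity
    have h2 := mul_le_mul_of_nonneg_left hd h1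
    calc _ = 512 * (rk K : ℝ) ^ 3 * D.Δ ^ 2 * d := by ring
      _ ≤ _ := h2.trans (le_of_eq (by ring))
  have hF1 : (1 : ℝ) ≤ D.F := by exact_mod_cast hD.Fpos
  have hΔ : 1 ≤ D.Δ := hF1.trans hD.FΔ
  have hrad : ∀ _w : InfinitePlace K, (1 / 8 : ℝ) ≤ 1 / 8 ∧ (1 / 8 : ℝ) ≤ 1 :=
    fun _ => ⟨le_rfl, by norm_num⟩
  have hun := hU K D ρ0 hD hC A0⁻¹ g0 1 y (fun _ => 1 / 8) (1 / 8) hA0' hg0 hB.u_one.1 hg0U.2
    (by norm_num) hrad (hbig _ (by
      push_cast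
      rw [sq]
      exact mul_le_mul hQF hD.FΔ (by positivity) (by positivity)))
  have hfin := (hC.2 A0⁻¹ D.Q g0 y (fun _ => 1 / 8) (1 / 8) (1 / 8) hA0'
    (le_trans (by norm_num) hD.Q3) (by norm_num) (by norm_num) (by norm_num) hrad
    (hbig _ (hQF.trans (by nlinarith)))).1
  have hfin' : {g | g ∈ D.Bl A0⁻¹ D.Q g0 y (fun _ => 1 / 8) ∧ D.Un g}.Finite :=
    hfin.subset fun g hg => hg.1
  have hxp : xp ρ0 A0⁻¹ D.Q y (fun _ => 1 / 8)
      = ρ0 * (1 / 8) ^ rk K * Real.exp ((a.2 : ℝ) / N1) / (D.Q : ℝ) ^ rk K := by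
    have hQ : (0 : ℝ) < D.Q := by exact_mod_cast lt_of_lt_of_le (by norm_num) hD.Q3
    rw [xp, hinv, hNy, Finset.prod_const, Finset.card_univ, ← pow_mul, hc]
    field_simp
  have hex : ∀ g : K, ∃ C : FI K, g ≠ 0 → IsDiv g C := fun g => by
    by_cases hg : g = 0
    · exact ⟨1, fun h => absurd hg h⟩
    · obtain ⟨C, hC⟩ := hB.div_ex g hg
      exact ⟨C, fun _ => hC⟩
  choose dv hdv using hex
  refine ⟨hfin'.toFinset.image fun g => dv g * A0, ?_, ?_⟩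
  · intro A hA
    obtain ⟨g, hg, rfl⟩ := Finset.mem_image.1 hA
    obtain ⟨⟨⟨b, hb, hgb⟩, hds⟩, hgu⟩ := hfin'.mem_toFinset.1 hg
    have hd := hdv g hgu.1
    have hcop := hB.un_cop g _ hgu hd
    have hUg : D.U g := by
      obtain ⟨b', hb', hb''⟩ := hg0U.2
      exact ⟨hgu, b' + b, D.R.add_mem hb' hb.2, by rw [hgb, hb'']; ring⟩
    have hmem : g ∈ (A0⁻¹ : FI K).1 := by
      rw [hgb]
      refine Submodule.add_mem (A0⁻¹ : FI K).1.1 hg0.1 ?_
      rw [← nsmul_eq_mul]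
      exact Submodule.smul_of_tower_mem _ _ hb.1
    refine ⟨hB.cop_mul _ _ hcop hA0, ?_, ?_, ?_, ?_⟩
    · have := (hB.div_mem g A0⁻¹ _ hd).1 hmem
      rwa [inv_inv] at this
    · rw [hB.nI_mul, hdiv g _ hd, ← le_div_iff₀ hp0, mul_div_assoc, ← hNy]
      refine Nv_le hc _ _ _ fun w => ?_
      have h1 := hds w
      have h2 := norm_sub_norm_le (emb g w) (y w)
      linarith
    · rw [hM.cl.1 _ _ hcop hA0, hcl, (hM.cl.2.2 _ hcop).2 ⟨g, hUg, hd⟩, zero_add]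
    · have hz : ∀ w, ∃ z : ℂ, Complex.exp z = emb g w / y w ∧ ‖z‖ < 1 := by
        intro w
        have h0 : y w ≠ 0 := norm_pos_iff.1 (hy0 w)
        have h1 : ‖emb g w / y w - 1‖ < 1 / 8 := by
          rw [div_sub_one h0, norm_div, div_lt_iff₀ (hy0 w)]
          exact hds w
        obtain ⟨z, hz, hz'⟩ := hL.1 _ (h1.le.trans (by norm_num))
        refine ⟨z, hz, hz'.trans_lt ?_⟩
        have h2 := norm_nonneg (emb g w / y w - 1)
        nlinarith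
      choose z hz hz' using hz
      have h1 := hM.ps.2.2 g (dv g) (gam M.b 1 N1 a - M.Ψ A0 + z) hUg hd (by
        funext w
        have h0 : y w ≠ 0 := norm_pos_iff.1 (hy0 w)
        have h2 : y w = Complex.exp ((gam M.b 1 N1 a - M.Ψ A0) w) := rfl
        show Complex.exp ((gam M.b 1 N1 a - M.Ψ A0) w + z w) = emb g w
        rw [Complex.exp_add, hz, ← h2]
        field_simp)
      have h2 := Submodule.sub_mem _ h1 (hM.ps.2.1 (dv g) A0)
      obtain ⟨k, hk⟩ := (Submodule.mem_span_range_iff_exists_fun ℤ).1 h2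
      refine ⟨k, fun w => ?_⟩
      rw [gam_shift _ _ hN, hk]
      have h3 : (gam M.b 1 N1 a - (gam M.b 1 N1 a - M.Ψ A0 + z - M.Ψ (dv g) -
          (M.Ψ (dv g * A0) - M.Ψ (dv g) - M.Ψ A0))) w - M.Ψ (dv g * A0) w = -z w := by
        simp only [Pi.sub_apply, Pi.add_apply]
        ring
      rw [h3, norm_neg]
      exact hz' w
  · rw [Finset.card_image_of_injOn, ← Set.ncard_eq_toFinset_card _ hfin', ← hxp]
    · exact hun
    · intro g hg g' hg' hgg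
      obtain ⟨⟨-, hds⟩, hgu⟩ := hfin'.mem_toFinset.1 hg
      obtain ⟨⟨-, hds'⟩, hgu'⟩ := hfin'.mem_toFinset.1 hg'
      have h1 : dv g = dv g' := mul_right_cancel hgg
      refine hB.inj g g' (dv g) (hdv g hgu.1) (h1 ▸ hdv g' hgu'.1) fun w => ?_
      have h2 := hds w
      have h3 := hds' w
      have h4 := norm_sub_le_norm_sub_add_norm_sub (emb g w) (y w) (emb g' w)
      have h5 := norm_sub_norm_le (y w) (emb g' w)
      have h6 := hy0 w
      rw [norm_sub_rev] at h3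
      linarith

theorem dbl {P A : Type} [DecidableEq A] (s : Finset P) (T : P → Finset A) (f : A → ℝ)
    (hf : ∀ a, 0 ≤ f a) (m : ℝ) (hm : ∀ a, ((s.filter fun p => a ∈ T p).card : ℝ) ≤ m) :
    ∑ p ∈ s, ∑ a ∈ T p, f a ≤ m * ∑ a ∈ s.biUnion T, f a := by
  calc ∑ p ∈ s, ∑ a ∈ T p, f a = ∑ p ∈ s, ∑ a ∈ s.biUnion T, if a ∈ T p then f a else 0 := by
        refine Finset.sum_congr rfl fun p hp => ?_
        rw [Finset.sum_ite_mem, Finset.inter_eq_right.2 (Finset.subset_biUnion_of_mem T hp)]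
    _ = ∑ a ∈ s.biUnion T, ((s.filter fun p => a ∈ T p).card : ℝ) * f a := by
        rw [Finset.sum_comm]
        refine Finset.sum_congr rfl fun a _ => ?_
        rw [← Finset.sum_filter, Finset.sum_const, nsmul_eq_mul]
    _ ≤ _ := by
        rw [Finset.mul_sum]
        exact Finset.sum_le_sum fun a _ => mul_le_mul_of_nonneg_right (hm a) (hf a)

end RHO

open RHO in
theorem stRHO (hB : St_BAS) (hL : St_LOG) (hE : St_EMB) (hU : St_UNITS) : St_RHO := by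
  classical
  intro n
  refine ⟨1 / (4 * 9 ^ n), by positivity, ?_⟩
  intro K _ _ D M ρ0 δ X Y hn hD hM hC hG hX hXY
  subst hn
  have hb := hB K D hD
  have hn0 : 0 < rk K := Module.finrank_pos
  obtain ⟨N0, hN0⟩ := hG.2 1 (1 / 8) 1 one_pos (by norm_num) one_pos
  obtain ⟨N1, hN, -, hgr⟩ : ∃ N1 : ℕ, 0 < N1 ∧ GrOK M.b δ 1 N1 (1 / 8) 1 :=
    ⟨N0 + 1, Nat.succ_pos _, hN0 _ (Nat.le_succ _)⟩
  have hN' : (0 : ℝ) < N1 := by exact_mod_cast hN
  have hN1 : (1 : ℝ) ≤ N1 := by exact_mod_cast hN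
  have hF1 : (1 : ℝ) ≤ D.F := by exact_mod_cast hD.Fpos
  have hΔ : 0 < D.Δ := lt_of_lt_of_le one_pos (hF1.trans hD.FΔ)
  have hX0 : 0 < X := lt_of_lt_of_le (by positivity) hX
  have hY0 : 0 < Y := hX0.trans_le hXY
  have hQ : (0 : ℝ) < D.Q := by exact_mod_cast lt_of_lt_of_le (by norm_num) hD.Q3
  have hδ := hG.1
  have hρ := hC.1
  let s : Finset (M.H × GC K) := univ ×ˢ ((Fintype.piFinset fun _ => Finset.Ico (0 : ℤ) N1) ×ˢ
    Finset.Icc ⌈N1 * Real.log X⌉ ⌊N1 * (Real.log Y - rk K)⌋)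
  have hs : ∀ p ∈ s, (∀ i, 0 ≤ p.2.1 i ∧ p.2.1 i < N1) ∧ X ≤ Real.exp ((p.2.2 : ℝ) / N1) ∧
      (9 / 8) ^ rk K * Real.exp ((p.2.2 : ℝ) / N1) ≤ Y := by
    intro p hp
    obtain ⟨h1, h2⟩ := Finset.mem_product.1 (Finset.mem_product.1 hp).2
    obtain ⟨h3, h4⟩ := Finset.mem_Icc.1 h2
    refine ⟨fun i => Finset.mem_Ico.1 (Fintype.mem_piFinset.1 h1 i), ?_, ?_⟩
    · rw [← Real.log_le_iff_le_exp hX0, le_div_iff₀ hN', mul_comm]
      exact Int.ceil_le.1 h3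
    · have h5 : (p.2.2 : ℝ) / N1 ≤ Real.log Y - rk K := by
        rw [div_le_iff₀ hN', mul_comm]
        exact Int.le_floor.1 h4
      have h6 : (9 / 8 : ℝ) ^ rk K ≤ Real.exp (rk K) := by
        rw [← Real.exp_one_pow]
        refine pow_le_pow_left₀ (by norm_num) ?_ _
        have := Real.add_one_le_exp (1 : ℝ)
        linarith
      calc _ ≤ Real.exp (rk K) * Real.exp (Real.log Y - rk K) :=
            mul_le_mul h6 (Real.exp_le_exp.2 h5) (Real.exp_pos _).le (Real.exp_pos _).le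
        _ = Y := by rw [← Real.exp_add, add_sub_cancel, Real.exp_log hY0]
  have hT : ∀ p : M.H × GC K, ∃ T : Finset (FI K), p ∈ s → (∀ A ∈ T, Cop D.F A ∧ Itg A ∧
        nI A ≤ (9 / 8) ^ rk K * Real.exp ((p.2.2 : ℝ) / N1) ∧ M.cl A = p.1 ∧
        ∃ k : Fin (rk K - 1) → ℤ,
          gam M.b 1 N1 (fun i => p.2.1 i - N1 * k i, p.2.2) ∈ Dsa (M.Ψ A) fun _ => 1) ∧
      ρ0 * (1 / 8) ^ rk K * Real.exp ((p.2.2 : ℝ) / N1) / (D.Q : ℝ) ^ rk K ≤ 2 * T.card := by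
    intro p
    by_cases hp : p ∈ s
    · obtain ⟨T, hT⟩ := one hL hE hU D M ρ0 X hD hb hM hC hX N1 hN p.1 p.2 (hs p hp).2.1
      exact ⟨T, fun _ => hT⟩
    · exact ⟨∅, fun h => absurd h hp⟩
  choose T hT using hT
  refine ⟨s.biUnion T, fun A hA => ?_, ?_⟩
  · obtain ⟨p, hp, hA⟩ := Finset.mem_biUnion.1 hA
    obtain ⟨h1, h2, h3, -⟩ := (hT p hp).1 A hA
    exact ⟨h1, h2, h3.trans (hs p hp).2.2⟩
  have hm : ∀ A, ((s.filter fun p => A ∈ T p).card : ℝ) ≤ 2 * (δ * (N1 : ℝ) ^ rk K) := by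
    intro A
    obtain ⟨hf, hcnt⟩ := hgr (M.Ψ A) (fun _ => 1) fun _ => ⟨by norm_num, le_rfl⟩
    simp only [one_pow, Finset.prod_const_one, mul_one, div_one, one_mul] at hcnt
    have h1 : (s.filter fun p => A ∈ T p).card ≤ hf.toFinset.card := by
      refine Finset.card_le_card_of_surjOn
        (fun a' : GC K => ((M.cl A, (fun i => a'.1 i % N1, a'.2)) : M.H × GC K)) ?_
      intro p hp
      obtain ⟨hp, hA⟩ := Finset.mem_filter.1 hp
      obtain ⟨-, -, -, h4, k, hk⟩ := (hT p hp).1 A hA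
      refine ⟨(fun i => p.2.1 i - N1 * k i, p.2.2), hf.mem_toFinset.2 hk, ?_⟩
      refine Prod.ext h4 (Prod.ext (funext fun i => ?_) rfl)
      show (p.2.1 i - N1 * k i) % N1 = p.2.1 i
      rw [Int.sub_mul_emod_self_left, Int.emod_eq_of_lt ((hs p hp).1 i).1 ((hs p hp).1 i).2]
    rw [← Set.ncard_eq_toFinset_card _ hf] at h1
    have h2 : ((s.filter fun p => A ∈ T p).card : ℝ) ≤
        (({a | gam M.b 1 N1 a ∈ Dsa (M.Ψ A) fun _ => 1} : Set (GC K)).ncard : ℝ) := by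
      exact_mod_cast h1
    linarith [(abs_le.1 hcnt).2]
  have hd := dbl s T (fun A => 1 / nI A) (fun A => (one_div_pos.2 (hb.nI_pos A)).le) _ hm
  have hlow : ∀ p ∈ s, ρ0 / (2 * 9 ^ rk K * (D.Q : ℝ) ^ rk K) ≤ ∑ A ∈ T p, 1 / nI A := by
    intro p hp
    obtain ⟨h1, h2⟩ := hT p hp
    have he := Real.exp_pos ((p.2.2 : ℝ) / N1)
    have h3 : ((T p).card : ℝ) * (1 / ((9 / 8) ^ rk K * Real.exp ((p.2.2 : ℝ) / N1)))
        ≤ ∑ A ∈ T p, 1 / nI A := by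
      rw [← nsmul_eq_mul, ← Finset.sum_const]
      exact Finset.sum_le_sum fun A hA =>
        one_div_le_one_div_of_le (hb.nI_pos A) (h1 A hA).2.2.1
    refine le_trans ?_ h3
    have h4 : ρ0 * (1 / 8) ^ rk K * Real.exp ((p.2.2 : ℝ) / N1) / (D.Q : ℝ) ^ rk K / 2
        ≤ (T p).card := by linarith
    refine le_trans (le_of_eq ?_) (mul_le_mul_of_nonneg_right h4 (by positivity))
    rw [div_pow, div_pow, one_pow]
    field_simp
  have hcard : (Fintype.card M.H : ℝ) * (N1 : ℝ) ^ rk K * (Real.log (Y / X) - rk K - 1)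
      ≤ s.card := by
    have h1 : (N1 : ℝ) * (Real.log (Y / X) - rk K - 1) ≤
        ((Finset.Icc ⌈N1 * Real.log X⌉ ⌊N1 * (Real.log Y - rk K)⌋).card : ℝ) := by
      have h2 : ((⌊N1 * (Real.log Y - rk K)⌋ + 1 - ⌈N1 * Real.log X⌉ : ℤ) : ℝ) ≤
          ((Finset.Icc ⌈N1 * Real.log X⌉ ⌊N1 * (Real.log Y - rk K)⌋).card : ℝ) := by
        rw [Int.card_Icc]
        generalize ⌊N1 * (Real.log Y - rk K)⌋ + 1 - ⌈N1 * Real.log X⌉ = z
        exact_mod_cast Int.self_le_toNat z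
      have h3 := Int.sub_one_lt_floor (N1 * (Real.log Y - rk K))
      have h4 := Int.ceil_lt_add_one (N1 * Real.log X)
      push_cast at h2
      rw [Real.log_div hY0.ne' hX0.ne']
      linarith
    have h2 : (s.card : ℝ) = (Fintype.card M.H : ℝ) * ((N1 : ℝ) ^ (rk K - 1) *
        ((Finset.Icc ⌈N1 * Real.log X⌉ ⌊N1 * (Real.log Y - rk K)⌋).card : ℝ)) := by
      simp [s, Finset.card_product, Fintype.card_piFinset]
    have h3 : (N1 : ℝ) ^ rk K = (N1 : ℝ) ^ (rk K - 1) * N1 := by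
      rw [← pow_succ, Nat.sub_add_cancel hn0]
    rw [h2, h3, mul_assoc, mul_assoc]
    exact mul_le_mul_of_nonneg_left (mul_le_mul_of_nonneg_left h1 (by positivity))
      (Nat.cast_nonneg _)
  have h5 : (s.card : ℝ) * (ρ0 / (2 * 9 ^ rk K * (D.Q : ℝ) ^ rk K))
      ≤ ∑ p ∈ s, ∑ A ∈ T p, 1 / nI A := by
    rw [← nsmul_eq_mul, ← Finset.sum_const]
    exact Finset.sum_le_sum hlow
  have h6 := (mul_le_mul_of_nonneg_right hcard (by positivity)).trans (h5.trans hd)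
  refine le_of_mul_le_mul_left (a := 2 * (δ * (N1 : ℝ) ^ rk K)) (le_trans (le_of_eq ?_) h6)
    (by positivity)
  rw [rho]
  field_simp
  ring

end Pool.Agent.Lib.BK2.NT
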