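import Pool.Agent.Lib.PhiP.Sieve
import Pool.Agent.Lib.BK2.MERT

/-! BK2, abstract upper bound sieve. -/

namespace Pool.Agent.Lib.BK2

open Finset
open scoped Classical

namespace SIEVE

variable {ι : Type}

theorem sum_fib {S : Finset ι} {p : ι → ℕ} {n : ℕ}
    (hn : ∀ q, (S.filter fun x => p x = q).card ≤ n) (f : ℕ → ℝ) (hf : ∀ q, 0 ≤ f q) :
    ∑ x ∈ S, f (p x) ≤ n * ∑ q ∈ S.image p, f q := by
  rw [← sum_fiberwise_of_maps_to (g := p) (t := S.image p) fun x hx => mem_image_of_mem p hx,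
    mul_sum]
  refine sum_le_sum fun q _ => ?_
  rw [sum_congr rfl fun x hx => by rw [(mem_filter.1 hx).2], sum_const, nsmul_eq_mul]
  exact mul_le_mul_of_nonneg_right (by exact_mod_cast hn q) (hf q)

theorem tele (N : ℕ) : ∑ m ∈ Ioc 0 N, Real.log (1 + 1 / (m : ℝ)) = Real.log (N + 1) := by
  induction N with
  | zero => simp
  | succ N ih =>
    rw [sum_Ioc_succ_top (Nat.zero_le N), ih, ← Real.log_mul (by positivity) (by positivity)]
    congr 1
    push_cast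
    field_simp

theorem prod_le {S : Finset ι} {p : ι → ℕ} {n : ℕ} {z : ℝ} (hz : 2 ≤ z)
    (hp : ∀ x ∈ S, (p x).Prime ∧ (p x : ℝ) ≤ z)
    (hn : ∀ q, (S.filter fun x => p x = q).card ≤ n) :
    ∑ d ∈ S.powerset, ∏ x ∈ d, (1 : ℝ) / p x ≤ z ^ (2 * n) := by
  have h0 : ∀ q : ℕ, 0 ≤ Real.log (1 + 1 / (q : ℝ)) := fun q =>
    Real.log_nonneg (le_add_of_nonneg_right (by positivity))
  rw [← prod_one_add, ← Real.log_le_log_iff (prod_pos fun x _ => by positivity) (by positivity),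
    Real.log_prod (fun x _ => by positivity), Real.log_pow]
  refine (sum_fib hn (fun q => Real.log (1 + 1 / (q : ℝ))) h0).trans ?_
  have h1 : ∑ q ∈ S.image p, Real.log (1 + 1 / (q : ℝ)) ≤ 2 * Real.log z := by
    refine (sum_le_sum_of_subset_of_nonneg (t := Ioc 0 ⌊z⌋₊) (fun q hq => ?_)
      fun q _ _ => h0 q).trans ?_
    · obtain ⟨x, hx, rfl⟩ := mem_image.1 hq
      exact mem_Ioc.2 ⟨(hp x hx).1.pos, Nat.le_floor (hp x hx).2⟩
    · have h2 : (⌊z⌋₊ : ℝ) ≤ z := Nat.floor_le (by linarith)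
      rw [tele, two_mul, ← Real.log_mul (by linarith) (by linarith)]
      exact Real.log_le_log (by positivity) (by nlinarith)
  push_cast
  nlinarith [Nat.cast_nonneg (α := ℝ) n]

theorem ind_prod {A : Type} (Om : Finset A) (d : Finset ι) (ev : ι → A → Prop)
    [DecidablePred fun a => ∀ x ∈ d, ev x a] :
    ∑ a ∈ Om, (1 : ℝ) * ∏ x ∈ d, (if ev x a then (1 : ℝ) else 0) =
      ((Om.filter fun a => ∀ x ∈ d, ev x a).card : ℝ) := by
  rw [card_filter]
  push_cast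
  refine sum_congr rfl fun a _ => ?_
  rw [one_mul, prod_ite_zero]
  by_cases h : ∀ x ∈ d, ev x a
  · rw [if_pos h, if_pos h, prod_const_one]
  · rw [if_neg h, if_neg h]

end SIEVE

open SIEVE

/-- Upper bound sieve with an arbitrary bound `Rem` for the sum of the remainders. -/
theorem sieve_rem {ι A : Type} (n : ℕ) (S : Finset ι) (p : ι → ℕ) (z : ℝ) (Om : Finset A)
    (ev : ι → A → Prop)
    [∀ d : Finset ι, DecidablePred fun a => ∀ x ∈ d, ev x a]
    [DecidablePred fun a => ∀ x ∈ S, ¬ ev x a]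
    (X0 Rem : ℝ) (hz : 2 ≤ z) (hX : 0 ≤ X0)
    (hp : ∀ x ∈ S, (p x).Prime ∧ (p x : ℝ) ≤ z)
    (hn : ∀ q, (S.filter fun x => p x = q).card ≤ n)
    (hR : ∑ d ∈ S.powerset.filter (fun d => ∏ x ∈ d, (p x : ℝ) ≤ z ^ (48 * n + 22)),
      |((Om.filter fun a => ∀ x ∈ d, ev x a).card : ℝ) - X0 * ∏ x ∈ d, (1 : ℝ) / p x| ≤ Rem) :
    |((Om.filter fun a => ∀ x ∈ S, ¬ ev x a).card : ℝ) - X0 * ∏ x ∈ S, (1 - (1 : ℝ) / p x)| ≤
      3 / 32 * (X0 * ∏ x ∈ S, (1 - (1 : ℝ) / p x)) + 2 * z * Rem := by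
  have hz0 : 0 < z := by linarith
  have hl : 2 / 3 ≤ Real.log z :=
    le_trans (by linarith [Real.log_two_gt_d9]) (Real.log_le_log two_pos hz)
  have hΛ : ∑ x ∈ S, (1 : ℝ) / p x * Real.log (p x) ≤ 4 * n * Real.log z := by
    have h1 := sum_fib hn (fun q => Real.log q / q) fun q =>
      div_nonneg (Real.log_natCast_nonneg q) (Nat.cast_nonneg q)
    have h2 := mert_one_le (x := z) (by linarith) (S.image p) fun q hq => by
      obtain ⟨x, hx, rfl⟩ := mem_image.1 hq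
      exact hp x hx
    have h3 := mul_le_mul_of_nonneg_left (show ∑ q ∈ S.image p, Real.log q / q ≤
      4 * Real.log z by linarith) (Nat.cast_nonneg (α := ℝ) n)
    rw [sum_congr rfl fun x _ => show (1 : ℝ) / p x * Real.log (p x) = Real.log (p x) / p x by ring]
    linarith
  have he : Real.exp (12 * (4 * n * Real.log z)) * z ^ 22 = z ^ (48 * n + 22) := by
    rw [pow_add, show 12 * (4 * n * Real.log z) = ((48 * n : ℕ) : ℝ) * Real.log z by
      push_cast; ring, Real.exp_nat_mul, Real.exp_log hz0]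
  have key := PhiP.FL2 S (fun x => (p x : ℝ)) (fun x => (1 : ℝ) / p x) z _ Om (fun _ => 1)
    (fun x a => if ev x a then 1 else 0) X0 Rem hz (fun x hx => by
      have h2 : (2 : ℝ) ≤ p x := by exact_mod_cast (hp x hx).1.two_le
      exact ⟨h2, (hp x hx).2, by positivity, one_div_le_one_div_of_le two_pos h2⟩) hΛ
    (fun _ _ => zero_le_one) (fun x _ a _ => by split_ifs <;> norm_num) hX (by
      simp only [ind_prod, he]
      exact hR)
  have e : ∑ a ∈ Om, (1 : ℝ) * ∏ x ∈ S, (1 - if ev x a then (1 : ℝ) else 0) =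
      ((Om.filter fun a => ∀ x ∈ S, ¬ ev x a).card : ℝ) := by
    rw [← ind_prod Om S fun x a => ¬ ev x a]
    refine sum_congr rfl fun a _ => congrArg _ (prod_congr rfl fun x _ => ?_)
    by_cases h : ev x a <;> simp [h]
  rwa [e] at key

/-- Upper bound sieve, relative errors. -/
theorem sieve_rel {ι A : Type} (n : ℕ) (S : Finset ι) (p : ι → ℕ) (z : ℝ) (Om : Finset A)
    (ev : ι → A → Prop)
    [∀ d : Finset ι, DecidablePred fun a => ∀ x ∈ d, ev x a]
    [DecidablePred fun a => ∀ x ∈ S, ¬ ev x a]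
    (X0 η : ℝ) (hz : 2 ≤ z) (hX : 0 ≤ X0) (hη : 0 ≤ η)
    (hp : ∀ x ∈ S, (p x).Prime ∧ (p x : ℝ) ≤ z)
    (hn : ∀ q, (S.filter fun x => p x = q).card ≤ n)
    (hR : ∀ d ⊆ S, ∏ x ∈ d, (p x : ℝ) ≤ z ^ (48 * n + 22) →
      |((Om.filter fun a => ∀ x ∈ d, ev x a).card : ℝ) - X0 * ∏ x ∈ d, (1 : ℝ) / p x| ≤
        η * (X0 * ∏ x ∈ d, (1 : ℝ) / p x)) :
    ((Om.filter fun a => ∀ x ∈ S, ¬ ev x a).card : ℝ) ≤
      X0 * (2 * ∏ x ∈ S, (1 - (1 : ℝ) / p x) + 2 * η * z ^ (2 * n + 1)) := by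
  have h := (abs_le.1 (sieve_rem n S p z Om ev X0 (η * (X0 * z ^ (2 * n))) hz hX hp hn ?_)).2
  · have h0 : 0 ≤ X0 * ∏ x ∈ S, (1 - (1 : ℝ) / p x) := mul_nonneg hX (prod_nonneg fun x hx => by
      have h2 : (2 : ℝ) ≤ p x := by exact_mod_cast (hp x hx).1.two_le
      linarith [one_div_le_one_div_of_le two_pos h2])
    rw [pow_succ]
    linarith
  · refine (sum_le_sum fun d hd => hR d (mem_powerset.1 (mem_filter.1 hd).1)
      (mem_filter.1 hd).2).trans ?_
    rw [← mul_sum, ← mul_sum]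
    refine mul_le_mul_of_nonneg_left (mul_le_mul_of_nonneg_left (le_trans
      (sum_le_sum_of_subset_of_nonneg (filter_subset _ _) fun d _ _ =>
        prod_nonneg fun x _ => by positivity) (prod_le hz hp hn)) hX) hη

/-- Upper bound sieve, absolute errors. -/
theorem sieve_abs {ι A : Type} (n : ℕ) (S : Finset ι) (p : ι → ℕ) (z : ℝ) (Om : Finset A)
    (ev : ι → A → Prop)
    [∀ d : Finset ι, DecidablePred fun a => ∀ x ∈ d, ev x a]
    [DecidablePred fun a => ∀ x ∈ S, ¬ ev x a]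
    (X0 E : ℝ) (hz : 2 ≤ z) (hX : 0 ≤ X0) (hE : 0 ≤ E)
    (hp : ∀ x ∈ S, (p x).Prime ∧ (p x : ℝ) ≤ z)
    (hn : ∀ q, (S.filter fun x => p x = q).card ≤ n)
    (hR : ∀ d ⊆ S, ∏ x ∈ d, (p x : ℝ) ≤ z ^ (48 * n + 22) →
      |((Om.filter fun a => ∀ x ∈ d, ev x a).card : ℝ) - X0 * ∏ x ∈ d, (1 : ℝ) / p x| ≤ E) :
    ((Om.filter fun a => ∀ x ∈ S, ¬ ev x a).card : ℝ) ≤
      2 * X0 * ∏ x ∈ S, (1 - (1 : ℝ) / p x) + 2 * E * z ^ (50 * n + 23) := by
  have h := (abs_le.1 (sieve_rem n S p z Om ev X0 (E * (z ^ (48 * n + 22) * z ^ (2 * n)))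
    hz hX hp hn ?_)).2
  · have h0 : 0 ≤ X0 * ∏ x ∈ S, (1 - (1 : ℝ) / p x) := mul_nonneg hX (prod_nonneg fun x hx => by
      have h2 : (2 : ℝ) ≤ p x := by exact_mod_cast (hp x hx).1.two_le
      linarith [one_div_le_one_div_of_le two_pos h2])
    have e : z ^ (50 * n + 23) = z * (z ^ (48 * n + 22) * z ^ (2 * n)) := by ring
    rw [e]
    linarith
  · have hz0 : 0 < z := by linarith
    refine (sum_le_sum (g := fun d => E * (z ^ (48 * n + 22) * ∏ x ∈ d, (1 : ℝ) / p x))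
      fun d hd => ?_).trans ?_
    · obtain ⟨h1, h2⟩ := mem_filter.1 hd
      refine (hR d (mem_powerset.1 h1) h2).trans (le_mul_of_one_le_right hE ?_)
      have h3 : 0 < ∏ x ∈ d, (p x : ℝ) := prod_pos fun x hx => by
        exact_mod_cast (hp x (mem_powerset.1 h1 hx)).1.pos
      rw [prod_div_distrib, prod_const_one, mul_one_div, one_le_div h3]
      exact h2
    · rw [← mul_sum, ← mul_sum]
      refine mul_le_mul_of_nonneg_left (mul_le_mul_of_nonneg_left (le_trans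
        (sum_le_sum_of_subset_of_nonneg (filter_subset _ _) fun d _ _ =>
          prod_nonneg fun x _ => by positivity) (prod_le hz hp hn)) (by positivity)) hE

theorem prod_le_exp {ι : Type} (S : Finset ι) (p : ι → ℕ) (hp : ∀ x ∈ S, 1 ≤ p x) :
    ∏ x ∈ S, (1 - (1 : ℝ) / p x) ≤ Real.exp (-∑ x ∈ S, (1 : ℝ) / p x) := by
  rw [← sum_neg_distrib, Real.exp_sum]
  refine prod_le_prod (fun x hx => ?_) fun x _ => by linarith [Real.add_one_le_exp (-(1 / (p x : ℝ)))]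
  have h2 : (1 : ℝ) ≤ p x := by exact_mod_cast hp x hx
  rw [sub_nonneg, div_le_one (by linarith)]
  exact h2

end Pool.Agent.Lib.BK2
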