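import Pool.Agent.Lib.BK2.NDefs
import Pool.Agent.Lib.BK2.SIEVE

/-! Rough ideals in small balls. -/

namespace Pool.Agent.Lib.BK2.NT

open Finset NumberField
open scoped Classical

namespace ROUGH

theorem prod_ge {ι : Type} {S : Finset ι} {p : ι → ℕ} {n : ℕ} {z : ℝ} (hz : 2 ≤ z)
    (hp : ∀ x ∈ S, (p x).Prime ∧ (p x : ℝ) ≤ z)
    (hn : ∀ q, (S.filter fun x => p x = q).card ≤ n) :
    1 ≤ z ^ (4 * n) * ∏ x ∈ S, (1 - (1 : ℝ) / p x) := by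
  have h1 := SIEVE.prod_le hz hp hn
  rw [← prod_one_add] at h1
  have h2 : ∀ x ∈ S, 0 ≤ (1 : ℝ) / p x ∧ (1 : ℝ) / p x ≤ 1 / 2 := fun x hx =>
    ⟨by positivity, one_div_le_one_div_of_le two_pos (by exact_mod_cast (hp x hx).1.two_le)⟩
  have h3 : 0 ≤ ∏ x ∈ S, (1 - (1 : ℝ) / p x) := prod_nonneg fun x hx => by linarith [h2 x hx]
  have h4 : 0 ≤ ∏ x ∈ S, (1 + (1 : ℝ) / p x) := prod_nonneg fun x hx => by linarith [h2 x hx]
  calc (1 : ℝ) ≤ ∏ x ∈ S, ((1 + (1 : ℝ) / p x) ^ 2 * (1 - (1 : ℝ) / p x)) := by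
        refine le_trans (prod_const_one (s := S)).ge
          (prod_le_prod (fun _ _ => zero_le_one) fun x hx => ?_)
        obtain ⟨h5, h6⟩ := h2 x hx
        generalize (1 : ℝ) / p x = y at h5 h6
        nlinarith [mul_nonneg h5 (show 0 ≤ 1 - y - y ^ 2 by nlinarith)]
    _ ≤ _ := by
        rw [prod_mul_distrib, prod_pow, show 4 * n = 2 * n * 2 by ring, pow_mul]
        exact mul_le_mul_of_nonneg_right (pow_le_pow_left₀ h4 h1 2) h3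

variable {K : Type} [Field K] [NumberField K] {D : ND K} (hB : Bas D)

include hB

theorem nI_prod (d : Finset (FI K)) (p : FI K → ℕ) (hd : ∀ P ∈ d, IsPt D.F P (p P)) :
    Cop D.F (∏ P ∈ d, P) ∧ Itg (∏ P ∈ d, P) ∧ nI (∏ P ∈ d, P) = ∏ P ∈ d, (p P : ℝ) := by
  induction d using Finset.induction_on with
  | empty => exact ⟨hB.cop_one, le_rfl, hB.nI_one⟩
  | insert P d hP ih =>
    obtain ⟨h1, h2, h3⟩ := ih fun P hP => hd P (mem_insert_of_mem hP)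
    obtain ⟨h4, h5, -, h6⟩ := hB.pt P _ (hd P (mem_insert_self _ _))
    rw [prod_insert hP, prod_insert hP, hB.nI_mul, h3, h6]
    exact ⟨hB.cop_mul _ _ h4 h1, mul_le_one' h5 h2, rfl⟩

theorem mem_iff (B : FI K) (d : Finset (FI K)) (p : FI K → ℕ) (hd : ∀ P ∈ d, IsPt D.F P (p P))
    {g : K} (hg : g ∈ B.1) : (∀ P ∈ d, g ∈ (B * P).1) ↔ g ∈ (B * ∏ P ∈ d, P).1 := by
  by_cases h0 : g = 0
  · subst h0
    exact iff_of_true (fun P _ => FractionalIdeal.zero_mem _) (FractionalIdeal.zero_mem _)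
  obtain ⟨C, hC⟩ := hB.div_ex g h0
  have h1 := (hB.div_mem g B C hC).1 hg
  rw [hB.div_mem g _ C hC, mul_inv, ← mul_assoc, ← hB.le_prod _ d p h1 hd]
  refine forall₂_congr fun P hP => ?_
  have := hB.le_prod _ {P} p h1 (by simpa using hd P hP)
  rw [prod_singleton] at this
  rw [hB.div_mem g _ C hC, mul_inv, ← mul_assoc, ← this]
  simp

omit hB in
theorem cls_mem {A : FI K} {g g₀ : K} (h0 : g₀ ∈ D.L A) (hu : D.Cg g₀ 1) (h : g ∈ D.Cls A D.Q g₀) :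
    g ∈ D.L A ∧ D.Cg g 1 := by
  obtain ⟨b, hb, rfl⟩ := h
  obtain ⟨c, hc, h⟩ := hu
  refine ⟨⟨A.1.val.add_mem h0.1 ?_, add_mem h0.2 (mul_mem (natCast_mem _ _) hb.2)⟩,
    c + b, add_mem hc hb.2, by rw [h]; ring⟩
  rw [← nsmul_eq_mul]
  exact nsmul_mem (show b ∈ A.1.val from hb.1) _

omit hB in
theorem cg {g g' : K} (h : D.Cg g 1) (h' : D.Cg g' 1) : D.Cg g g' := by
  obtain ⟨b, hb, rfl⟩ := h
  obtain ⟨c, hc, rfl⟩ := h'
  exact ⟨b - c, sub_mem hb hc, by ring⟩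

theorem cls_iff {B : FI K} (hc : Cop D.F B) (d : Finset (FI K)) (p : FI K → ℕ)
    (hd : ∀ P ∈ d, IsPt D.F P (p P)) {g₁ : K} (h1 : g₁ ∈ D.L B) (hu : D.U g₁) :
    ∃ g₂, ∀ g, (g ∈ D.Cls B D.Q g₁ ∧ ∀ P ∈ d, g ∈ (B * P).1) ↔
      g ∈ D.Cls (B * ∏ P ∈ d, P) D.Q g₂ := by
  obtain ⟨h2, h3, -⟩ := nI_prod hB d p hd
  have h4 := hB.cop_mul _ _ hc h2
  obtain ⟨g₂, h5, h6⟩ := hB.meet _ h4
  refine ⟨g₂, fun g => ⟨fun h => ?_, fun h => ?_⟩⟩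
  · obtain ⟨h7, h8⟩ := cls_mem h1 hu.2 h.1
    exact hB.cls _ _ _ h4 ⟨(mem_iff hB B d p hd h7.1).1 h.2, h7.2⟩ h5 (cg h8 h6.2)
  · obtain ⟨h7, h8⟩ := cls_mem h5 h6.2 h
    have h9 : g ∈ B.1 := (mul_le_of_le_one_right' h3 : B.1 * _ ≤ B.1) h7.1
    exact ⟨hB.cls _ _ _ hc ⟨h9, h7.2⟩ h1 (cg h8 hu.2), (mem_iff hB B d p hd h9).2 h7.1⟩

theorem nI_inv (A : FI K) : nI A⁻¹ = (nI A)⁻¹ := by
  have := hB.nI_mul A A⁻¹
  rw [mul_inv_cancel, hB.nI_one] at this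
  exact eq_inv_of_mul_eq_one_right this.symm

theorem sieve (hD : D.OK) {ρ0 T ε : ℝ} (hC : D.Cnt ρ0) {k : ℕ} (hT : 2 ≤ T)
    (hT' : 8 * (rk K : ℝ) ^ 3 ≤ T) (hΔ : D.Δ ≤ T ^ k) (S : Finset (FI K)) (p : FI K → ℕ)
    (hS : ∀ P ∈ S, IsPt D.F P (p P) ∧ (p P : ℝ) < T)
    (hn : ∀ q, (S.filter fun P => p P = q).card ≤ rk K) {A0 : FI K} (h0 : Cop D.F A0)
    (hA : T ^ ((3 * k + 6 * rk K + 3) * rk K + (48 * rk K + 22)) ≤ nI A0) (hε : 1 / T ≤ ε)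
    (hε' : ε ≤ 1 / 8) {g₁ : K} (h1 : g₁ ∈ D.L A0⁻¹) (hu : D.U g₁) (G : Finset K)
    (hG : ∀ g ∈ G, g ∈ D.Bl A0⁻¹ D.Q g₁ 1 (fun _ => 2 * ε) ∧ ∀ P ∈ S, g ∉ (A0⁻¹ * P).1) :
    (G.card : ℝ) ≤ 4 * xp ρ0 A0⁻¹ D.Q 1 (fun _ => 2 * ε) * ∏ P ∈ S, (1 - (1 : ℝ) / p P) := by
  have hT0 : 0 < T := by linarith
  have hT1 : 1 ≤ T := by linarith
  have hε0 : 0 < ε := lt_of_lt_of_le (by positivity) hε
  have hc := hB.cop_inv _ h0
  have hQ : (D.Q : ℝ) ≤ D.Δ := le_trans (by exact_mod_cast Nat.le_of_dvd hD.Fpos hD.QF) hD.FΔ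
  have hQ0 : (0 : ℝ) < D.Q := by have := hD.Q3; positivity
  have hN : Nv (1 : EK K) = 1 := by simp [Nv]
  have hA0 := hB.nI_pos A0
  have key : ∀ d ⊆ S, ∏ P ∈ d, (p P : ℝ) ≤ T ^ (48 * rk K + 22) → ∀ g₀,
      (D.Bl (A0⁻¹ * ∏ P ∈ d, P) D.Q g₀ 1 fun _ => 2 * ε).Finite ∧
      |((D.Bl (A0⁻¹ * ∏ P ∈ d, P) D.Q g₀ 1 fun _ => 2 * ε).ncard : ℝ) -
        xp ρ0 A0⁻¹ D.Q 1 (fun _ => 2 * ε) * ∏ P ∈ d, (1 : ℝ) / p P| ≤
      (T ^ (6 * rk K + 1))⁻¹ * (xp ρ0 A0⁻¹ D.Q 1 (fun _ => 2 * ε) * ∏ P ∈ d, (1 : ℝ) / p P) := by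
    intro d hd hp g₀
    obtain ⟨h2, -, h3⟩ := nI_prod hB d p fun P hP => (hS P (hd hP)).1
    have h4 : xp ρ0 A0⁻¹ D.Q 1 (fun _ => 2 * ε) * ∏ P ∈ d, (1 : ℝ) / p P =
        xp ρ0 (A0⁻¹ * ∏ P ∈ d, P) D.Q 1 fun _ => 2 * ε := by
      rw [xp, xp, hB.nI_mul, h3, prod_div_distrib, prod_const_one, ← mul_assoc, div_mul_div_comm,
        mul_one]
    rw [h4]
    refine hC.2 _ _ _ _ _ ε _ (hB.cop_mul _ _ hc h2) (by have := hD.Q3; omega) hε0 (by positivity)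
      (inv_le_one_of_one_le₀ (one_le_pow₀ hT1)) (fun _ => ⟨by linarith, by linarith⟩) ?_
    rw [ND.Big, hN, hB.nI_mul, h3, nI_inv hB, ← mul_assoc, mul_right_comm, ← div_eq_mul_inv,
      div_le_one hA0]
    refine le_trans ?_ hA
    rw [pow_add T _ (48 * rk K + 22), pow_mul]
    refine mul_le_mul (pow_le_pow_left₀ (by positivity) ?_ _) hp (by positivity) (by positivity)
    rw [div_le_iff₀ (by positivity)]
    calc 8 * (rk K : ℝ) ^ 3 * D.Q * D.Δ ^ 2 ≤ T * T ^ k * (T ^ k) ^ 2 := by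
          gcongr
          · exact hQ.trans hΔ
          · exact hQ0.le.trans hQ
      _ = T ^ (3 * k + 6 * rk K + 3) * ((T ^ (6 * rk K + 1))⁻¹ * (1 / T)) := by
          field_simp
          ring
      _ ≤ _ := by gcongr
  have hfin := (key ∅ (empty_subset _) (by simpa using one_le_pow₀ hT1) g₁).1
  rw [prod_empty, mul_one] at hfin
  have hX : 0 ≤ xp ρ0 A0⁻¹ D.Q 1 fun _ => 2 * ε := by
    have := hC.1
    have := hB.nI_pos A0⁻¹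
    rw [xp, hN]
    positivity
  have hp : ∀ P ∈ S, (p P).Prime ∧ (p P : ℝ) ≤ T := fun P hP => ⟨(hS P hP).1.1, (hS P hP).2.le⟩
  have h5 := sieve_rel (rk K) S p T hfin.toFinset (fun P g => g ∈ (A0⁻¹ * P).1) _
    (T ^ (6 * rk K + 1))⁻¹ hT hX (by positivity) hp hn fun d hd hd' => by
      obtain ⟨g₂, h⟩ := cls_iff hB hc d p (fun P hP => (hS P (hd hP)).1) h1 hu
      have h6 : ((hfin.toFinset.filter fun g => ∀ P ∈ d, g ∈ (A0⁻¹ * P).1 : Finset K) : Set K) =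
          D.Bl (A0⁻¹ * ∏ P ∈ d, P) D.Q g₂ 1 fun _ => 2 * ε := by
        ext g
        simp only [coe_filter, Set.Finite.mem_toFinset, ND.Bl, Set.mem_ofPred_eq, ← h]
        tauto
      rw [← Set.ncard_coe_finset, h6]
      exact (key d hd hd' g₂).2
  have h7 : G ⊆ hfin.toFinset.filter fun g => ∀ P ∈ S, ¬g ∈ (A0⁻¹ * P).1 := fun g hg =>
    mem_filter.2 ⟨hfin.mem_toFinset.2 (hG g hg).1, (hG g hg).2⟩
  refine le_trans (by exact_mod_cast card_le_card h7) (h5.trans ?_)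
  have h8 : (T ^ (6 * rk K + 1))⁻¹ * T ^ (2 * rk K + 1) ≤ ∏ P ∈ S, (1 - (1 : ℝ) / p P) := by
    rw [show (T ^ (6 * rk K + 1))⁻¹ * T ^ (2 * rk K + 1) = 1 / T ^ (4 * rk K) by
      field_simp; ring, div_le_iff₀' (by positivity)]
    exact prod_ge hT hp hn
  nlinarith [mul_le_mul_of_nonneg_left h8 hX]

theorem gen (hL : St_LOG) (hE : St_EMB) (hD : D.OK) {M : Mdl K} (hM : M.OK D) {A0 A : FI K}
    (h0 : Cop D.F A0) (hA : Cop D.F A) (hc : M.cl A = M.cl A0) {ε : ℝ} (hε : ε ≤ 1 / 8)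
    (hl : ∃ l ∈ Lu M.b, ‖M.Ψ A - M.Ψ A0 - l‖ < ε) :
    ∃ g, D.U g ∧ IsDiv g (A * A0⁻¹) ∧ emb g ∈ Dsc 1 (fun _ => 2 * ε) ∧
      1 / nI A ≤ Real.exp (rk K) / nI A0 := by
  obtain ⟨l, hl, hz⟩ := hl
  obtain ⟨e1, -, -, -, e2, e3⟩ := hE K hD.tc
  have h1 := hB.cop_mul _ _ hA (hB.cop_inv _ h0)
  have h2 := hM.cl.1 _ _ h1 h0
  have h3 := hM.ps.2.1 (A * A0⁻¹) A0
  rw [inv_mul_cancel_right] at h2 h3
  obtain ⟨g, hg, hg', h⟩ := hM.key _ (M.Ψ A - M.Ψ A0 - l) h1 (by simpa [hc] using h2) (by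
    have := sub_mem h3 hl
    rwa [sub_right_comm (M.Ψ A), sub_right_comm] at this)
  generalize M.Ψ A - M.Ψ A0 - l = z at hz h
  have h4 : ∀ w, ‖z w‖ < ε := fun w => (norm_le_pi_norm z w).trans_lt hz
  refine ⟨g, hg, hg', fun w => ?_, ?_⟩
  · have h5 := hL.2 (z w) (by linarith [h4 w])
    have h6 := norm_nonneg (z w)
    rw [← h]
    simp only [cexp, Pi.one_apply, norm_one]
    nlinarith [h4 w]
  · have h5 := hB.nI_mul (A * A0⁻¹) A0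
    rw [inv_mul_cancel_right, e2 g _ hg', ← h, e3] at h5
    have h6 : -nm z ≤ rk K := by
      have h7 : ∑ w, -(z w).re ≤ ∑ _w : InfinitePlace K, (1 / 8 : ℝ) := sum_le_sum fun w _ => by
        linarith [neg_le_abs (z w).re, Complex.abs_re_le_norm (z w), h4 w]
      rw [sum_neg_distrib, sum_const, card_univ, nsmul_eq_mul] at h7
      rw [nm, ← e1]
      push_cast
      linarith [Nat.cast_nonneg (α := ℝ) (Fintype.card (InfinitePlace K))]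
    rw [h5, ← div_div, one_div, ← Real.exp_neg]
    exact div_le_div_of_nonneg_right (Real.exp_le_exp.2 h6) (hB.nI_pos A0).le

end ROUGH

open ROUGH in
theorem stROUGH (hBas : St_BAS) (hL : St_LOG) (hE : St_EMB) (hR : St_RHO) (hU : St_EUL) :
    St_ROUGH := by
  intro n u
  obtain ⟨c, hc, hR⟩ := hR n
  obtain ⟨C, hC, hU⟩ := hU n (((4 * ⌈u⌉₊ + 1) * n + 2 : ℕ) : ℝ)
  refine ⟨(3 * ⌈u⌉₊ + 6 * n + 3) * n + (48 * n + 22), 4 * 2 ^ n * Real.exp n * (C / c),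
    512 * (n : ℝ) ^ 3 + Real.exp (n + 1), by omega, by positivity, ?_⟩
  intro K _ _ D M ρ0 δ T hn hD hM hCn hG hT hΔ
  subst hn
  have hB := hBas K D hD
  have hn0 : (0 : ℝ) ≤ rk K := Nat.cast_nonneg _
  have h1 := Real.add_one_le_exp ((rk K : ℝ) + 1)
  have h2 : (0 : ℝ) ≤ (rk K : ℝ) ^ 3 := by positivity
  have hT2 : 2 ≤ T := by linarith
  have hT0 : 0 < T := by linarith
  have hT1 : 1 ≤ T := by linarith
  have hlog : (rk K : ℝ) + 1 ≤ Real.log T := (Real.le_log_iff_exp_le hT0).2 (by linarith)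
  have hΔ' : D.Δ ≤ T ^ ⌈u⌉₊ := hΔ.trans (by
    rw [← Real.rpow_natCast]
    exact Real.rpow_le_rpow_of_exponent_le hT1 (Nat.le_ceil u))
  have hΔ0 : 0 ≤ D.Δ := le_trans (Nat.cast_nonneg _) hD.FΔ
  generalize ⌈u⌉₊ = k at *
  obtain ⟨𝒜, h3, h4⟩ := hR K D M ρ0 δ (T ^ ((4 * k + 1) * rk K)) (T ^ ((4 * k + 1) * rk K + 2)) rfl
    hD hM hCn hG (by
      rw [pow_mul]
      refine pow_le_pow_left₀ (by positivity) ?_ _
      calc 512 * (rk K : ℝ) ^ 3 * D.Δ ^ 4 ≤ T * (T ^ k) ^ 4 := by gcongr; linarith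
        _ = _ := by ring) (pow_le_pow_right₀ hT1 (by omega))
  obtain ⟨S, p, hS, hS', h5⟩ := hU K D.F T (T ^ ((4 * k + 1) * rk K + 2)) rfl hD.Fpos hT2
    (one_le_pow₀ hT1) (by rw [Real.rpow_natCast])
  obtain ⟨h6, h7⟩ := h5 𝒜 h3
  have hδ := hG.1
  have hρ := hCn.1
  have hQ0 : (0 : ℝ) < D.Q := by have := hD.Q3; positivity
  have hH : (0 : ℝ) < Fintype.card M.H := by exact_mod_cast Fintype.card_pos
  have hr : 0 < rho D M ρ0 δ := by rw [rho]; positivity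
  have h8 : rho D M ρ0 δ * Real.log T ≤ (∑ A ∈ 𝒜, 1 / nI A) / c := by
    rw [pow_add, mul_div_cancel_left₀ _ (by positivity), Real.log_pow] at h4
    rw [le_div_iff₀' hc, ← mul_assoc]
    refine le_trans (mul_le_mul_of_nonneg_left ?_ (by positivity)) h4
    push_cast
    linarith
  have h9 : (1 : ℝ) ≤ 4 * 2 ^ rk K * Real.exp (rk K) :=
    one_le_mul_of_one_le_of_one_le (one_le_mul_of_one_le_of_one_le (by norm_num)
      (one_le_pow₀ one_le_two)) (Real.one_le_exp hn0)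
  refine ⟨fun A0 ε 𝒟 h0 hA hε hε' h𝒟 => ?_, fun Sg hSg => ?_⟩
  · have hε0 : 0 < ε := lt_of_lt_of_le (by positivity) hε
    obtain ⟨g₁, hg₁, hu⟩ := hB.meet _ (hB.cop_inv _ h0)
    have k1 : ∀ A ∈ 𝒟, _ := fun A hA =>
      gen hB hL hE hD hM h0 (h𝒟 A hA).1 (h𝒟 A hA).2.2.2.1 hε' (h𝒟 A hA).2.2.2.2
    choose! g k2 k3 k4 k5 using k1
    have k6 := sieve hB hD hCn hT2 (by linarith) hΔ' S p hS hS' h0 hA hε hε' hg₁ hu (𝒟.image g) (by
      intro x hx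
      obtain ⟨A, hA, rfl⟩ := mem_image.1 hx
      obtain ⟨-, k7, k8, -⟩ := h𝒟 A hA
      have k9 : g A ∈ (A0⁻¹).1 := (hB.div_mem _ _ _ (k3 A hA)).2 (by simpa using k7)
      refine ⟨⟨hB.cls _ _ _ (hB.cop_inv _ h0) ⟨k9, (k2 A hA).1.2.1⟩ hg₁ (cg (k2 A hA).2 hu.2),
        k4 A hA⟩, fun P hP h => k8 P _ (hS P hP).1 (hS P hP).2 ?_⟩
      rw [hB.div_mem _ _ _ (k3 A hA), mul_inv, ← mul_assoc, mul_inv_cancel_right] at h
      exact (hB.le_prod A {P} p k7 (by simpa using (hS P hP).1)).2 (by simpa using h) P (by simp))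
    rw [card_image_of_injOn fun A hA A' hA' h => mul_right_cancel (Units.ext
      ((k3 A hA).trans ((congrArg _ h).trans (k3 A' hA').symm)))] at k6
    have hA0 := hB.nI_pos A0
    have k7 : xp ρ0 A0⁻¹ D.Q 1 (fun _ => 2 * ε) =
        (2 * ε) ^ rk K * nI A0 * rho D M ρ0 δ * δ / Fintype.card M.H := by
      rw [xp, rho, nI_inv hB, prod_const, card_univ, ← pow_mul, (hE K hD.tc).1,
        show Nv (1 : EK K) = 1 by simp [Nv]]
      field_simp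
    have k8 : 0 ≤ ∏ P ∈ S, (1 - (1 : ℝ) / p P) := prod_nonneg fun P hP => by
      have : (2 : ℝ) ≤ p P := by exact_mod_cast (hS P hP).1.1.two_le
      linarith [one_div_le_one_div_of_le two_pos this]
    have hl0 : 0 < Real.log T := by linarith
    have k9 : rho D M ρ0 δ * ∏ P ∈ S, (1 - (1 : ℝ) / p P) ≤ C / c / Real.log T := by
      rw [le_div_iff₀ hl0, mul_right_comm]
      refine (mul_le_mul_of_nonneg_right h8 k8).trans ?_
      rw [div_mul_eq_mul_div]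
      exact div_le_div_of_nonneg_right h6 hc.le
    calc ∑ A ∈ 𝒟, 1 / nI A ≤ 𝒟.card * (Real.exp (rk K) / nI A0) := by
          rw [← nsmul_eq_mul]
          exact sum_le_card_nsmul _ _ _ k5
      _ ≤ _ := mul_le_mul_of_nonneg_right k6 (by positivity)
      _ = 4 * (2 * ε) ^ rk K * Real.exp (rk K) * δ / Fintype.card M.H *
          (rho D M ρ0 δ * ∏ P ∈ S, (1 - (1 : ℝ) / p P)) := by
          rw [k7]
          field_simp
      _ ≤ _ := mul_le_mul_of_nonneg_left k9 (by positivity)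
      _ = _ := by
          rw [mul_pow]
          field_simp
  · have k1 := Real.exp_le_exp.2 (hSg S p hS)
    calc _ ≤ _ := h8
      _ ≤ C * Real.exp Sg / c := by
          gcongr
          exact h7.trans (mul_le_mul_of_nonneg_left k1 hC.le)
      _ = 1 * (C / c) * Real.exp Sg := by ring
      _ ≤ _ := by gcongr

end Pool.Agent.Lib.BK2.NT
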