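import Pool.Agent.Lib.BK2.NBlue
import Pool.Agent.Lib.BK2.NRHO

namespace Pool.Agent.Lib.BK2.NT

open Finset NumberField

namespace TUPL

variable {K : Type} [Field K] [NumberField K]

/-- the grid map is additive -/
noncomputable def gamH (b : Fin (rk K - 1) → EK K) (L : ℝ) (N1 : ℕ) : GC K →+ EK K :=
  AddMonoidHom.mk' (gam b L N1) (by
    intro a a'
    simp only [gam, Prod.fst_add, Prod.snd_add, Pi.add_apply, Int.cast_add, add_smul, add_mul,
      Finset.sum_add_distrib, smul_add]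
    abel)

theorem gam_nsmul (b : Fin (rk K - 1) → EK K) (L : ℝ) (N1 : ℕ) (hN : 1 ≤ N1) (c : GC K) :
    gam b L N1 (N1 • c) = ∑ i, (c.1 i : ℝ) • b i
      + ((c.2 : ℝ) * (L / rk K)) • (fun _ => (1 : ℂ)) := by
  have h : (N1 : ℝ) ≠ 0 := by positivity
  have h1 : gam b L N1 (N1 • c) = N1 • gam b L N1 c := map_nsmul (gamH b L N1) N1 c
  rw [h1, gam, ← Nat.cast_smul_eq_nsmul ℝ, smul_smul, mul_one_div_cancel h, one_smul]

theorem cong (f : Fr K) (M : Mdl K) (h h' : M.H) (a a' : GC K)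
    (e : gpos f M h a = gpos f M h' a') : ∃ c : GC K, a' = a + f.N1 • c := by
  have h1 : ∀ i, ∃ c : ℤ, a'.1 i - a.1 i = f.N1 * c := fun i =>
    (ZMod.intCast_eq_intCast_iff_dvd_sub _ _ _).1 (congrFun (congrArg (fun z => z.2.1) e) i)
  obtain ⟨c2, h2⟩ : ∃ c : ℤ, a'.2 - a.2 = f.N1 * c :=
    (ZMod.intCast_eq_intCast_iff_dvd_sub _ _ _).1 (congrArg (fun z => z.2.2) e)
  choose c1 h1 using h1
  refine ⟨(c1, c2), Prod.ext (funext fun i => ?_) ?_⟩
  · have := h1 i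
    show a'.1 i = a.1 i + f.N1 • c1 i
    rw [nsmul_eq_mul]
    linarith
  · show a'.2 = a.2 + f.N1 • c2
    rw [nsmul_eq_mul]
    linarith

theorem nm_le (hc : 2 * Fintype.card (InfinitePlace K) = rk K) (u : EK K) (s : ℝ)
    (h : ∀ w, ‖u w‖ ≤ s) : |nm u| ≤ rk K * s := by
  have h1 : |∑ w, (u w).re| ≤ ∑ _w : InfinitePlace K, s :=
    (Finset.abs_sum_le_sum_abs _ _).trans
      (Finset.sum_le_sum fun w _ => (Complex.abs_re_le_norm _).trans (h w))
  rw [Finset.sum_const, Finset.card_univ, nsmul_eq_mul] at h1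
  rw [nm, abs_mul, abs_two, ← hc]
  push_cast
  linarith

theorem shift (hc : 2 * Fintype.card (InfinitePlace K) = rk K) (b : Fin (rk K - 1) → EK K)
    (hb : ∀ i, nm (b i) = 0) (L : ℝ) (N1 : ℕ) (hN : 1 ≤ N1) (c : GC K)
    (h : |nm (gam b L N1 (N1 • c))| < L) :
    c.2 = 0 ∧ gam b L N1 (N1 • c) = ∑ i, (c.1 i : ℝ) • b i ∧ gam b L N1 (N1 • c) ∈ Lu b := by
  have h1 : nm (fun _ : InfinitePlace K => (1 : ℂ)) = rk K := by
    rw [← hc]
    simp [nm]
  have h2 : (rk K : ℝ) ≠ 0 := by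
    have : 0 < rk K := Module.finrank_pos
    positivity
  have hL : 0 < L := (abs_nonneg _).trans_lt h
  rw [gam_nsmul b L N1 hN] at h ⊢
  rw [RHO.nm_add, RHO.nm_sum, RHO.nm_smul, h1] at h
  simp only [RHO.nm_smul, hb, mul_zero, Finset.sum_const_zero, zero_add] at h
  rw [mul_assoc, div_mul_cancel₀ _ h2, abs_mul, abs_of_pos hL, mul_lt_iff_lt_one_left hL] at h
  have h3 : c.2 = 0 := by
    have : |c.2| < 1 := by exact_mod_cast h
    exact Int.abs_lt_one_iff.1 this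
  rw [h3]
  simp only [Int.cast_zero, zero_mul, zero_smul, add_zero, true_and]
  refine Submodule.sum_mem _ fun i _ => ?_
  rw [Int.cast_smul_eq_zsmul]
  exact Submodule.smul_mem _ _ (Submodule.subset_span ⟨i, rfl⟩)

theorem itg_mul (A B : FI K) (hA : Itg A) (hB : Itg B) : Itg (A * B) := by
  show A.1 * B.1 ≤ 1
  exact mul_le_one' hA hB

theorem prod_facts {D : ND K} {M : Mdl K} (hB : Bas D) (hM : M.OK D) {I : Type} (s : Finset I)
    (Q : I → FI K) (q : I → ℕ) (h : ∀ i ∈ s, IsPt D.F (Q i) (q i)) :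
    Cop D.F (∏ i ∈ s, Q i) ∧ Itg (∏ i ∈ s, Q i) ∧ nI (∏ i ∈ s, Q i) = ∏ i ∈ s, (q i : ℝ) ∧
      M.cl (∏ i ∈ s, Q i) = ∑ i ∈ s, M.cl (Q i) ∧
      ∀ C, M.Ψ (C * ∏ i ∈ s, Q i) - M.Ψ C - ∑ i ∈ s, M.Ψ (Q i) ∈ Lu M.b := by
  classical
  induction s using Finset.induction_on with
  | empty =>
    have h1 := hM.cl.1 1 1 hB.cop_one hB.cop_one
    rw [mul_one] at h1
    simp only [Finset.prod_empty, Finset.sum_empty, mul_one, sub_self]
    exact ⟨hB.cop_one, le_rfl, hB.nI_one, left_eq_add.1 h1, fun _ => Submodule.zero_mem _⟩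
  | insert a s ha ih =>
    obtain ⟨h1, h2, h3, h4, h5⟩ := ih fun i hi => h i (Finset.mem_insert_of_mem hi)
    obtain ⟨g1, g2, -, g4⟩ := hB.pt _ _ (h a (Finset.mem_insert_self _ _))
    simp only [Finset.prod_insert ha, Finset.sum_insert ha]
    refine ⟨hB.cop_mul _ _ g1 h1, itg_mul _ _ g2 h2, by rw [hB.nI_mul, g4, h3],
      by rw [hM.cl.1 _ _ g1 h1, h4], fun C => ?_⟩
    have h6 := Submodule.add_mem _ (h5 (C * Q a)) (hM.ps.2.1 C (Q a))
    rw [← mul_assoc]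
    have h7 : M.Ψ (C * Q a * ∏ i ∈ s, Q i) - M.Ψ C - (M.Ψ (Q a) + ∑ i ∈ s, M.Ψ (Q i))
        = M.Ψ (C * Q a * ∏ i ∈ s, Q i) - M.Ψ (C * Q a) - ∑ i ∈ s, M.Ψ (Q i)
          + (M.Ψ (C * Q a) - M.Ψ C - M.Ψ (Q a)) := by abel
    rw [h7]
    exact h6

/-- total grid position of a tuple -/
def tot {ι : Type} (f : Fr K) (Pt : ι → FI K) (y : ι × GC K × ℕ) : GC K :=
  f.r (Pt y.1) + y.2.1 + (0, (y.2.2 : ℤ))

theorem sum_fpos {ι I : Type} [Fintype I] (f : Fr K) (M : Mdl K) (Pt : ι → FI K)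
    (t : I → ι × GC K × ℕ) :
    ∑ i, fpos (fh M Pt) (fv f Pt) (fl f Pt) (t i)
      = gpos f M (∑ i, M.cl (Pt (t i).1)) (∑ i, tot f Pt (t i)) := by
  refine Prod.ext ?_ (Prod.ext (funext fun j => ?_) ?_)
  · simp [Prod.fst_sum, fpos, fh, gpos]
  · simp [Prod.fst_sum, Prod.snd_sum, fpos, fv, gpos, tot]
  · simp [Prod.snd_sum, fpos, fl, gpos, tot]

theorem tot_near {ι : Type} (f : Fr K) (M : Mdl K) (hf : f.OK M) (Pt : ι → FI K)
    (y : ι × GC K × ℕ) (h1 : y.2.1 ∈ f.B) (h2 : y.2.2 < f.L1) :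
    ‖f.gm M (tot f Pt y) - M.Ψ (Pt y.1)‖ ≤ 3 * f.e0 := by
  have h3 : f.gm M (tot f Pt y) = f.gm M (f.r (Pt y.1)) + f.gm M y.2.1
      + f.gm M (0, (y.2.2 : ℤ)) := by
    show gamH M.b f.L f.N1 (_ + _ + _) = _
    rw [map_add, map_add]
    rfl
  have hL : 0 ≤ f.L := mul_nonneg (Nat.cast_nonneg _) (Real.log_pos hf.T1).le
  have h4 : ‖f.gm M (0, (y.2.2 : ℤ))‖ ≤ f.e0 := by
    refine (pi_norm_le_iff_of_nonneg hf.e0.le).2 fun w => le_trans ?_ hf.L1e
    have h5 : (y.2.2 : ℝ) ≤ f.L1 := by exact_mod_cast h2.le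
    have h6 : f.gm M (0, (y.2.2 : ℤ)) w = (((y.2.2 : ℝ) * (f.L / (rk K * f.N1)) : ℝ) : ℂ) := by
      simp only [Fr.gm, gam, Pi.zero_apply, Int.cast_zero, zero_smul, Finset.sum_const_zero,
        zero_add, Pi.smul_apply, Complex.real_smul, Int.cast_natCast]
      push_cast
      ring
    rw [h6, Complex.norm_real, Real.norm_of_nonneg (by positivity)]
    exact mul_le_mul_of_nonneg_right h5 (by positivity)
  have h5 := (hf.memB _).1 h1
  have h6 := hf.rnd (Pt y.1)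
  have h7 : f.gm M (tot f Pt y) - M.Ψ (Pt y.1) = -(M.Ψ (Pt y.1) - f.gm M (f.r (Pt y.1)))
      + f.gm M y.2.1 + f.gm M (0, (y.2.2 : ℤ)) := by
    rw [h3]
    abel
  rw [h7]
  have h8 := norm_add₃_le (a := -(M.Ψ (Pt y.1) - f.gm M (f.r (Pt y.1)))) (b := f.gm M y.2.1)
    (c := f.gm M (0, (y.2.2 : ℤ)))
  rw [norm_neg] at h8
  linarith

variable {D : ND K} {M : Mdl K} {f : Fr K} {ι : Type} {Mj : Finset ι} {Pt : ι → FI K}
  {p : ι → ℕ} {k : ℕ} {X : Finset ι} {A0 Bz : FI K} {z g0 : K} {ζ : EK K}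
  {ρ : InfinitePlace K → ℝ} {ε2 : ℝ}

/-- a tuple with the right sum gives a split element -/
theorem elt (hB : Bas D) (hL : St_LOG) (hE : St_EMB)
    (T : Tgt D M f Mj Pt p k X A0 Bz z g0 ζ ρ ε2) (a : GC K)
    (ha : f.gm M a ∈ Dsa (zX M Pt X A0 Bz ζ) (fun w => ρ w * (1 - ε2) - 3 * k * f.e0))
    (n0 : 0 ≤ nm (zX M Pt X A0 Bz ζ))
    (n1 : nm (zX M Pt X A0 Bz ζ) ≤ (2 * k + 1) * Real.log f.T)
    (n2 : (2 * k + 1) * Real.log f.T + rk K < f.L)
    (t : Fin (k - X.card) → ι × GC K × ℕ) (ht : ∀ i, t i ∈ Mj ×ˢ f.B ×ˢ range f.L1)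
    (hs : ∑ i, fpos (fh M Pt) (fv f Pt) (fl f Pt) (t i) = gpos f M (hX M Pt X A0 Bz) a)
    (hi : Function.Injective fun i => p (t i).1) (hn : ∀ i, p (t i).1 ∉ X.image p) :
    ∃ g, (g ∈ D.Bl A0 D.Q g0 (emb g0) ρ ∧ Spl D A0 Mj Pt p k X g) ∧
      IsDiv g (A0 * (∏ x ∈ X, Pt x) * ∏ i, Pt (t i).1) := by
  classical
  obtain ⟨hc, -⟩ := hE K T.ok.tc
  have hM := T.mok
  have htM : ∀ i, (t i).1 ∈ Mj := fun i => (Finset.mem_product.1 (ht i)).1
  obtain ⟨x1, x2, -, x4, -⟩ := prod_facts hB hM X Pt p fun x hx => (T.win.1 x (T.sub hx)).1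
  obtain ⟨y1, y2, -, y4, y5⟩ := prod_facts hB hM univ (fun i => Pt (t i).1) (fun i => p (t i).1)
    fun i _ => (T.win.1 _ (htM i)).1
  rw [sum_fpos] at hs
  have hcl : ∑ i, M.cl (Pt (t i).1) = hX M Pt X A0 Bz := congrArg Prod.fst hs
  obtain ⟨c, hc'⟩ := cong f M _ _ _ _ hs
  have hgm : f.gm M a = ∑ i, f.gm M (tot f Pt (t i)) + gam M.b f.L f.N1 (f.N1 • c) := by
    show gamH M.b f.L f.N1 a = _
    rw [hc', map_add, map_sum]
    rfl
  obtain ⟨u, hu⟩ : ∃ u : EK K, u = f.gm M a - zX M Pt X A0 Bz ζ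
      - ∑ i, (f.gm M (tot f Pt (t i)) - M.Ψ (Pt (t i).1)) := ⟨_, rfl⟩
  have hu1 : ∀ w, ‖u w‖ < ρ w * (1 - ε2) := by
    intro w
    have h1 := ha w
    have h2 : ‖∑ i, (f.gm M (tot f Pt (t i)) - M.Ψ (Pt (t i).1))‖ ≤ 3 * k * f.e0 := by
      refine (norm_sum_le _ _).trans ((Finset.sum_le_sum fun i _ => tot_near f M T.fok Pt (t i)
        (Finset.mem_product.1 (Finset.mem_product.1 (ht i)).2).1
        (Finset.mem_range.1 (Finset.mem_product.1 (Finset.mem_product.1 (ht i)).2).2)).trans ?_)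
      rw [Finset.sum_const, Finset.card_univ, Fintype.card_fin, nsmul_eq_mul]
      have h3 : ((k - X.card : ℕ) : ℝ) ≤ k := by exact_mod_cast Nat.sub_le _ _
      nlinarith [T.fok.e0]
    have h3 := (norm_le_pi_norm _ w).trans h2
    have h4 := norm_sub_le (f.gm M a w - zX M Pt X A0 Bz ζ w)
      ((∑ i, (f.gm M (tot f Pt (t i)) - M.Ψ (Pt (t i).1))) w)
    rw [hu]
    simp only [Pi.sub_apply] at h1 h4 ⊢
    linarith
  have hu2 : ∀ w, ‖u w‖ ≤ ε2 := fun w => by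
    have h1 := T.rad w
    have h2 := hu1 w
    nlinarith [mul_pos h1.1 (h1.1.trans_le h1.2)]
  have hsh : gam M.b f.L f.N1 (f.N1 • c) = u + zX M Pt X A0 Bz ζ - ∑ i, M.Ψ (Pt (t i).1) := by
    rw [hu, hgm, Finset.sum_sub_distrib]
    abel
  have hlT := Real.log_pos T.fok.T1
  have hnm : 0 ≤ nm (∑ i, M.Ψ (Pt (t i).1)) ∧
      nm (∑ i, M.Ψ (Pt (t i).1)) ≤ 2 * k * Real.log f.T := by
    rw [RHO.nm_sum]
    have h1 : ∀ i, 0 ≤ nm (M.Ψ (Pt (t i).1)) ∧ nm (M.Ψ (Pt (t i).1)) ≤ 2 * Real.log f.T := by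
      intro i
      obtain ⟨g1, g2, g3⟩ := T.win.1 _ (htM i)
      rw [hM.ps.1, (hB.pt _ _ g1).2.2.2]
      refine ⟨Real.log_natCast_nonneg _, ?_⟩
      have := Real.log_le_log (by linarith [T.fok.T1]) g3
      rwa [Real.log_pow] at this
    refine ⟨Finset.sum_nonneg fun i _ => (h1 i).1,
      (Finset.sum_le_sum fun i _ => (h1 i).2).trans ?_⟩
    rw [Finset.sum_const, Finset.card_univ, Fintype.card_fin, nsmul_eq_mul]
    have h3 : ((k - X.card : ℕ) : ℝ) ≤ k := by exact_mod_cast Nat.sub_le _ _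
    nlinarith
  obtain ⟨-, -, hlu⟩ := shift hc M.b hM.lu.2.1 f.L f.N1 T.fok.N1 c (by
    rw [hsh, RHO.nm_sub, RHO.nm_add]
    have h1 := abs_le.1 (nm_le hc u 1 fun w => (hu2 w).trans (T.e2.trans (by norm_num)))
    rw [abs_lt]
    constructor <;> linarith [h1.1, h1.2, hnm.1, hnm.2])
  have hBz := hB.un_cop z Bz T.un T.div
  have hBz' := hB.cop_inv Bz hBz
  have hc1 := hB.cop_mul _ _ T.cop x1
  have hc2 := hB.cop_mul _ _ hc1 hBz'
  have hclB : M.cl Bz⁻¹ + M.cl Bz = 0 := by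
    have h1 := hM.cl.1 1 1 hB.cop_one hB.cop_one
    rw [mul_one] at h1
    rw [← hM.cl.1 _ _ hBz' hBz, inv_mul_cancel, left_eq_add.1 h1]
  obtain ⟨g', hg1, hg2, hg3⟩ := hM.key (A0 * (∏ x ∈ X, Pt x) * Bz⁻¹ * ∏ i, Pt (t i).1) (ζ + u)
    (hB.cop_mul _ _ hc2 y1) (by
      rw [hM.cl.1 _ _ hc2 y1, hM.cl.1 _ _ hc1 hBz', hM.cl.1 _ _ T.cop x1, x4, y4, hcl, hX,
        ← hclB]
      abel) (by
      have h1 := Submodule.sub_mem _ hlu (y5 (A0 * (∏ x ∈ X, Pt x) * Bz⁻¹))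
      have h2 : ζ + u - M.Ψ (A0 * (∏ x ∈ X, Pt x) * Bz⁻¹ * ∏ i, Pt (t i).1)
          = gam M.b f.L f.N1 (f.N1 • c) - (M.Ψ (A0 * (∏ x ∈ X, Pt x) * Bz⁻¹ * ∏ i, Pt (t i).1)
            - M.Ψ (A0 * (∏ x ∈ X, Pt x) * Bz⁻¹) - ∑ i, M.Ψ (Pt (t i).1)) := by
        rw [hsh, zX]
        abel
      rw [h2]
      exact h1)
  have hdiv : IsDiv (g' * z) (A0 * (∏ x ∈ X, Pt x) * ∏ i, Pt (t i).1) := by
    have h1 := hB.div_mul _ _ _ _ hg2 T.div
    rwa [mul_right_comm _ _ Bz, inv_mul_cancel_right] at h1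
  have hun := hB.un_mul _ _ hg1.1 T.un
  have hti : Function.Injective fun i => (t i).1 := fun i j h => hi (congrArg p h)
  have hdj : Disjoint X (univ.image fun i => (t i).1) := by
    refine Finset.disjoint_right.2 fun x hx hx' => ?_
    obtain ⟨i, -, rfl⟩ := Finset.mem_image.1 hx
    exact hn i (Finset.mem_image_of_mem _ hx')
  refine ⟨g' * z, ⟨⟨hB.cls _ _ _ T.cop ⟨?_, hun.2.1⟩ T.mem ?_, fun w => ?_⟩, hun,
    X ∪ univ.image fun i => (t i).1, ?_, ?_, ?_, Finset.subset_union_left, ?_⟩, hdiv⟩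
  · refine (hB.div_mem _ A0 _ hdiv).2 ?_
    rw [mul_assoc A0, mul_comm A0, mul_inv_cancel_right]
    exact itg_mul _ _ x2 y2
  · obtain ⟨b1, hb1, e1⟩ := hg1.2
    obtain ⟨b2, hb2, e2⟩ := T.cg
    exact ⟨b1 * z - b2, D.R.sub_mem (D.R.mul_mem hb1 T.un.2.1) hb2, by rw [e1, e2]; ring⟩
  · have hz : emb z w ≠ 0 := (map_ne_zero _).2 T.un.1
    have h0 : 0 < ‖emb g0 w‖ := norm_pos_iff.2 ((map_ne_zero _).2 T.g0ne)
    have h1 : Complex.exp (ζ w) = emb g0 w / emb z w := by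
      have := congrFun T.log w
      simpa [cexp, emb] using this
    have h2 : emb (g' * z) w - emb g0 w = (Complex.exp (u w) - 1) * emb g0 w := by
      have h3 : Complex.exp (ζ w + u w) = emb g' w := congrFun hg3 w
      have h4 : emb (g' * z) w = emb g' w * emb z w := map_mul _ _ _
      rw [h4, ← h3, Complex.exp_add, h1]
      field_simp
    rw [h2, norm_mul]
    refine mul_lt_mul_of_pos_right ((hL.2 _ ((hu2 w).trans (T.e2.trans (by norm_num)))).trans_lt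
      ?_) h0
    have h5 := hu1 w
    have h6 := hu2 w
    have h7 := T.rad w
    have h8 := norm_nonneg (u w)
    have h9 : 0 < 1 + ε2 := by linarith [h7.1, h7.2]
    calc ‖u w‖ * (1 + ‖u w‖) ≤ ‖u w‖ * (1 + ε2) := mul_le_mul_of_nonneg_left (by linarith) h8
      _ < ρ w * (1 - ε2) * (1 + ε2) := mul_lt_mul_of_pos_right h5 h9
      _ ≤ ρ w := by nlinarith [mul_nonneg h7.1.le (sq_nonneg ε2)]
  · refine Finset.union_subset T.sub fun x hx => ?_
    obtain ⟨i, -, rfl⟩ := Finset.mem_image.1 hx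
    exact htM i
  · rw [Finset.card_union_of_disjoint hdj, Finset.card_image_of_injective _ hti,
      Finset.card_univ, Fintype.card_fin, Nat.add_sub_cancel' T.card]
  · intro x hx y hy hxy
    rcases Finset.mem_union.1 hx with hx | hx <;> rcases Finset.mem_union.1 hy with hy | hy
    · exact T.inj hx hy hxy
    · obtain ⟨i, -, rfl⟩ := Finset.mem_image.1 hy
      exact absurd (hxy ▸ Finset.mem_image_of_mem p hx) (hn i)
    · obtain ⟨i, -, rfl⟩ := Finset.mem_image.1 hx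
      exact absurd (hxy ▸ Finset.mem_image_of_mem p hy) (hn i)
    · obtain ⟨i, -, rfl⟩ := Finset.mem_image.1 hx
      obtain ⟨j, -, rfl⟩ := Finset.mem_image.1 hy
      rw [hi hxy]
  · rw [Finset.prod_union hdj, Finset.prod_image fun i _ j _ h => hti h, ← mul_assoc]
    exact hdiv

/-- two points of the small disc with the same image in the finite model are equal -/
theorem sep (hE : St_EMB) (hD : D.OK) (hM : M.OK D) (hf : f.OK M) (hL : (rk K : ℝ) < f.L)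
    (y : EK K) (a a' : GC K) (h : M.H) (ha : ∀ w, ‖f.gm M a w - y w‖ < 1 / 4)
    (ha' : ∀ w, ‖f.gm M a' w - y w‖ < 1 / 4) (e : gpos f M h a = gpos f M h a') : a' = a := by
  obtain ⟨hc, -⟩ := hE K hD.tc
  obtain ⟨c, hc'⟩ := cong f M _ _ _ _ e
  have h1 : gam M.b f.L f.N1 (f.N1 • c) = f.gm M a' - f.gm M a := by
    show _ = gamH M.b f.L f.N1 a' - gamH M.b f.L f.N1 a
    rw [hc', map_add, add_sub_cancel_left]
    rfl
  have h2 : ∀ w, ‖gam M.b f.L f.N1 (f.N1 • c) w‖ < 1 / 2 := by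
    intro w
    have h3 := norm_sub_le_norm_sub_add_norm_sub (f.gm M a' w) (y w) (f.gm M a w)
    rw [norm_sub_rev (y w)] at h3
    rw [h1, Pi.sub_apply]
    linarith [ha w, ha' w]
  obtain ⟨h3, h4, h5⟩ := shift hc M.b hM.lu.2.1 f.L f.N1 hf.N1 c
    ((nm_le hc _ 1 fun w => (h2 w).le.trans (by norm_num)).trans_lt (by linarith))
  have h6 := hM.lu.2.2.2 _ h5 ((pi_norm_lt_iff (by norm_num)).2 h2)
  rw [h4] at h6
  have h7 := Fintype.linearIndependent_iff.1 hM.lu.1 _ h6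
  have h8 : c = 0 := Prod.ext (funext fun i => by exact_mod_cast h7 i) h3
  rw [hc', h8, smul_zero, add_zero]

theorem sum_one {A : Type} (s : Finset A) (c : A → Prop) (d : ∀ a, Decidable (c a)) (w v : ℝ)
    (hv : 0 ≤ v) (h1 : ∀ a ∈ s, ∀ a' ∈ s, c a → c a' → a' = a) (h2 : ∀ a ∈ s, c a → w ≤ v) :
    ∑ a ∈ s, (@ite _ (c a) (d a) w 0) ≤ v := by
  by_cases h : ∃ a ∈ s, c a
  · obtain ⟨a, ha, hc⟩ := h
    rw [Finset.sum_eq_single_of_mem a ha fun a' ha' hne =>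
      if_neg fun h => hne (h1 a ha a' ha' hc h), if_pos hc]
    exact h2 a ha hc
  · rw [Finset.sum_eq_zero fun a ha => if_neg fun hc => h ⟨a, ha, hc⟩]
    exact hv

end TUPL

open TUPL in
theorem stTUPL (hBas : St_BAS) (hL : St_LOG) (hE : St_EMB) : St_TUPL := by
  classical
  intro K _ _ D M f ι Mj Pt p k X A0 Bz z g0 ζ ρ ε2 Gd T hGd n0 n1 n2
  have hB := hBas K D T.ok
  obtain ⟨hc, -, -, -, hdv, -⟩ := hE K T.ok.tc
  have hfin : {g | g ∈ D.Bl A0 D.Q g0 (emb g0) ρ ∧ Spl D A0 Mj Pt p k X g}.Finite :=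
    T.fin.subset fun g hg => hg.1
  let Good : (Fin (k - X.card) → ι) → Prop := fun x => Function.Injective x ∧
    ∃ g ∈ hfin.toFinset, IsDiv g (A0 * (∏ x ∈ X, Pt x) * ∏ i, Pt (x i))
  let GX := (Fintype.piFinset fun _ : Fin (k - X.card) => Mj).filter Good
  have hpt : ∀ x ∈ GX, ∀ i, x i ∈ Mj := fun x hx =>
    Fintype.mem_piFinset.1 (Finset.mem_filter.1 hx).1
  have hGX : GX.card ≤ (k - X.card).factorial * hfin.toFinset.card := by
    have hex : ∀ x : Fin (k - X.card) → ι, ∃ g : K, x ∈ GX → g ∈ hfin.toFinset ∧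
        IsDiv g (A0 * (∏ x ∈ X, Pt x) * ∏ i, Pt (x i)) := fun x => by
      by_cases hx : x ∈ GX
      · obtain ⟨g, hg⟩ := (Finset.mem_filter.1 hx).2.2
        exact ⟨g, fun _ => hg⟩
      · exact ⟨0, fun h => absurd h hx⟩
    choose gg hgg using hex
    refine Finset.card_le_mul_card_image_of_maps_to (f := gg) (fun x hx => (hgg x hx).1) _
      fun g _ => ?_
    rcases (GX.filter fun x => gg x = g).eq_empty_or_nonempty with h0 | ⟨x0, hx0⟩
    · rw [h0]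
      exact Nat.zero_le _
    obtain ⟨hx0, e0⟩ := Finset.mem_filter.1 hx0
    have h1 : (GX.filter fun x => gg x = g) ⊆
        univ.image fun σ : Equiv.Perm (Fin (k - X.card)) => fun j => x0 (σ j) := by
      intro x hx
      obtain ⟨hx, e1⟩ := Finset.mem_filter.1 hx
      have h2 : ∏ i, Pt (x0 i) = ∏ i, Pt (x i) := by
        have h3 : (A0 * (∏ x ∈ X, Pt x) * ∏ i, Pt (x0 i)).1
            = (A0 * (∏ x ∈ X, Pt x) * ∏ i, Pt (x i)).1 := by
          rw [(hgg x0 hx0).2, (hgg x hx).2, e0, e1]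
        exact mul_left_cancel (Units.ext h3)
      have h3 : ∀ j, ∃ i, x0 i = x j := by
        intro j
        obtain ⟨i, -, hi⟩ := hB.pt_le _ univ (fun i => Pt (x0 i)) (fun i => p (x0 i)) (Pt (x j))
          (p (x j)) (fun i _ => (T.win.1 _ (hpt x0 hx0 i)).1) (T.win.1 _ (hpt x hx j)).1 (by
            rw [h2, ← Finset.mul_prod_erase univ (fun i => Pt (x i)) (mem_univ j)]
            have h4 := (prod_facts hB T.mok (univ.erase j) (fun i => Pt (x i)) (fun i => p (x i))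
              fun i _ => (T.win.1 _ (hpt x hx i)).1).2.1
            exact mul_le_of_le_one_right' h4)
        exact ⟨i, T.win.2 (hpt x0 hx0 i) (hpt x hx j) hi⟩
      choose σ hσ using h3
      have h5 : Function.Injective σ := fun j j' h =>
        (Finset.mem_filter.1 hx).2.1 (by rw [← hσ j, ← hσ j', h])
      exact Finset.mem_image.2 ⟨Equiv.ofBijective σ (Finite.injective_iff_bijective.1 h5),
        mem_univ _, funext hσ⟩
    refine (Finset.card_le_card h1).trans (Finset.card_image_le.trans ?_)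
    rw [Finset.card_univ, Fintype.card_perm, Fintype.card_fin]
  have he2 : 0 < 1 - ε2 := by linarith [T.e2]
  have hN0 : 0 < Nv (emb g0) := Finset.prod_pos fun w _ =>
    pow_pos (norm_pos_iff.2 ((map_ne_zero _).2 T.g0ne)) 2
  have hp0 : ∀ x ∈ Mj, (0 : ℝ) < p x := fun x hx => by exact_mod_cast (T.win.1 x hx).1.1.pos
  have hm0 : 0 < mass Mj p := Finset.sum_pos (fun x hx => one_div_pos.2 (hp0 x hx)) T.ne
  have hA0 : 0 < nI A0 * ∏ x ∈ X, (p x : ℝ) :=
    mul_pos (hB.nI_pos A0) (Finset.prod_pos fun x hx => hp0 x (T.sub hx))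
  obtain ⟨W, hW, hW0⟩ : ∃ W : ℝ, W = (nI A0 * ∏ x ∈ X, (p x : ℝ)) /
      (mass Mj p ^ (k - X.card) * (1 - ε2) ^ rk K * Nv (emb g0)) ∧ 0 ≤ W :=
    ⟨_, rfl, by positivity⟩
  have hwt : ∀ x ∈ GX, ∏ i, wt Mj p (x i) ≤ W := by
    intro x hx
    obtain ⟨-, g, hg, hd⟩ := (Finset.mem_filter.1 hx).2
    have hds := (hfin.mem_toFinset.1 hg).1.2
    have h1 := hdv _ _ hd
    rw [hB.nI_mul, hB.nI_mul,
      (prod_facts hB T.mok X Pt p fun x hx => (T.win.1 x (T.sub hx)).1).2.2.1,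
      (prod_facts hB T.mok univ (fun i => Pt (x i)) (fun i => p (x i))
        fun i _ => (T.win.1 _ (hpt x hx i)).1).2.2.1] at h1
    have h2 := RHO.Nv_le hc (emb g0) (emb g) (1 / (1 - ε2)) fun w => by
      rw [one_div, inv_mul_eq_div, le_div_iff₀ he2]
      have h3 := hds w
      have h4 := norm_sub_norm_le (emb g0 w) (emb g w)
      rw [norm_sub_rev] at h4
      have h5 := mul_le_mul_of_nonneg_right (T.rad w).2 (norm_nonneg (emb g0 w))
      linarith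
    have h3 : 0 < ∏ i, (p (x i) : ℝ) := Finset.prod_pos fun i _ => hp0 _ (hpt x hx i)
    rw [← h1, div_pow, one_pow, one_div, inv_mul_eq_div, le_div_iff₀ (by positivity)] at h2
    simp only [wt, Finset.prod_div_distrib, Finset.prod_const, Finset.card_univ, Fintype.card_fin,
      one_pow]
    rw [hW, div_div, div_le_div_iff₀ (by positivity) (by positivity)]
    have h4 := mul_le_mul_of_nonneg_left h2 (pow_pos hm0 (k - X.card)).le
    linarith
  let SS := Fintype.piFinset fun _ : Fin (k - X.card) => Mj ×ˢ f.B ×ˢ range f.L1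
  let GT := SS.filter fun t => (fun i => (t i).1) ∈ GX
  have hGT : GT.card ≤ GX.card * (f.B.card * f.L1) ^ (k - X.card) := by
    have h1 := Finset.card_le_card_of_injOn (s := GT)
      (t := GX ×ˢ Fintype.piFinset fun _ : Fin (k - X.card) => f.B ×ˢ range f.L1)
      (fun t => (fun i => (t i).1, fun i => (t i).2))
      (fun t ht => Finset.mem_coe.2 (Finset.mem_product.2 ⟨(Finset.mem_filter.1 ht).2,
        Fintype.mem_piFinset.2 fun i => (Finset.mem_product.1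
          (Fintype.mem_piFinset.1 (Finset.mem_filter.1 ht).1 i)).2⟩))
      (fun t _ t' _ h => funext fun i => Prod.ext (congrFun (congrArg Prod.fst h) i)
        (congrFun (congrArg Prod.snd h) i))
    simpa [Finset.card_product, Fintype.card_piFinset] using h1
  have hlT := Real.log_pos T.fok.T1
  have hrk : (rk K : ℝ) < f.L := by
    have : 0 ≤ (2 * (k : ℝ) + 1) * Real.log f.T := by positivity
    linarith
  have hq : ∀ a ∈ Gd, ∀ w, ‖f.gm M a w - zX M Pt X A0 Bz ζ w‖ < 1 / 4 := by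
    intro a ha w
    have h1 := hGd a ha w
    have h2 := T.rad w
    have h3 : 0 ≤ 3 * (k : ℝ) * f.e0 := by have := T.fok.e0; positivity
    have h4 := mul_pos h2.1 (h2.1.trans_le h2.2)
    have h5 := T.e2
    simp only at h1
    linarith [h2.2]
  obtain ⟨V, hV, hV0⟩ : ∃ V : ℝ, V = W / ((f.B.card : ℝ) * f.L1) ^ (k - X.card) ∧ 0 ≤ V :=
    ⟨_, rfl, by positivity⟩
  simp only [tupQ]
  rw [Finset.sum_comm]
  refine le_trans (Finset.sum_le_sum (g := fun t => if (fun i => (t i).1) ∈ GX then V else 0)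
    fun t ht => ?_) ?_
  · refine sum_one Gd _ _ _ _ (by split_ifs; exacts [hV0, le_rfl]) (fun a ha a' ha' h h' =>
      sep hE T.ok T.mok T.fok hrk _ a a' _ (hq a ha) (hq a' ha') (h.1.symm.trans h'.1)) ?_
    rintro a ha ⟨hs, hi, hn⟩
    have ht' := Fintype.mem_piFinset.1 ht
    obtain ⟨g, hg, hd⟩ := elt hB hL hE T a (hGd a ha) n0 n1 n2 t ht' hs hi hn
    have hx : (fun i => (t i).1) ∈ GX := Finset.mem_filter.2 ⟨Fintype.mem_piFinset.2
      fun i => (Finset.mem_product.1 (ht' i)).1, fun i j h => hi (congrArg p h), g,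
      hfin.mem_toFinset.2 hg, hd⟩
    rw [if_pos hx, hV]
    simp only [wn, Finset.prod_div_distrib, Finset.prod_const, Finset.card_univ, Fintype.card_fin]
    exact div_le_div_of_nonneg_right (hwt _ hx) (by positivity)
  · rw [← Finset.sum_filter, Finset.sum_const, nsmul_eq_mul, mul_div_assoc, ← hW]
    have h1 : (GT.card : ℝ) ≤ GX.card * ((f.B.card : ℝ) * f.L1) ^ (k - X.card) := by
      exact_mod_cast hGT
    have h2 : (GX.card : ℝ) ≤ nSpl D A0 Mj Pt p k X g0 ρ * (k - X.card).factorial := by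
      rw [nSpl, Set.ncard_eq_toFinset_card _ hfin, mul_comm]
      exact_mod_cast hGX
    have h3 : ((f.B.card : ℝ) * f.L1) ^ (k - X.card) * V ≤ W := by
      rw [hV]
      by_cases h4 : ((f.B.card : ℝ) * f.L1) ^ (k - X.card) = 0
      · rw [h4, zero_mul]
        exact hW0
      · rw [mul_div_cancel₀ _ h4]
    calc (GT.card : ℝ) * V ≤ GX.card * ((f.B.card : ℝ) * f.L1) ^ (k - X.card) * V :=
          mul_le_mul_of_nonneg_right h1 hV0
      _ ≤ GX.card * W := by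
          rw [mul_assoc]
          exact mul_le_mul_of_nonneg_left h3 (Nat.cast_nonneg _)
      _ ≤ _ := mul_le_mul_of_nonneg_right h2 hW0

end Pool.Agent.Lib.BK2.NT
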