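import Pool.Agent.Lib.BK2.NBlue

namespace Pool.Agent.Lib.BK2.NT

open Finset NumberField

namespace TUPU

theorem sum_noise {ι Ω : Type} (M : Finset ι) (N : Finset Ω) (hN : N.Nonempty) (m : ℕ)
    (h : (Fin m → ι) → ℝ) :
    ∑ f ∈ Fintype.piFinset (fun _ : Fin m => M ×ˢ N),
      h (fun i => (f i).1) * (1 / (N.card : ℝ)) ^ m =
      ∑ u ∈ Fintype.piFinset (fun _ : Fin m => M), h u := by
  classical
  have h1 : ∑ f ∈ Fintype.piFinset (fun _ : Fin m => M ×ˢ N),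
      h (fun i => (f i).1) * (1 / (N.card : ℝ)) ^ m =
      ∑ q ∈ (Fintype.piFinset fun _ : Fin m => M) ×ˢ (Fintype.piFinset fun _ : Fin m => N),
        h q.1 * (1 / (N.card : ℝ)) ^ m := by
    refine Finset.sum_nbij' (fun f => (fun i => (f i).1, fun i => (f i).2))
      (fun q i => (q.1 i, q.2 i)) ?_ ?_ ?_ ?_ ?_
    · intro f hf
      simp only [Fintype.mem_piFinset, mem_product] at hf ⊢
      exact ⟨fun i => (hf i).1, fun i => (hf i).2⟩
    · intro q hq
      simp only [Fintype.mem_piFinset, mem_product] at hq ⊢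
      exact fun i => ⟨hq.1 i, hq.2 i⟩
    · intro f _; rfl
    · intro q _; rfl
    · intro f _; rfl
  rw [h1, Finset.sum_product]
  refine Finset.sum_congr rfl fun u _ => ?_
  have hc : (N.card : ℝ) ≠ 0 := by exact_mod_cast hN.card_pos.ne'
  simp only [Finset.sum_const, Fintype.card_piFinset, Finset.prod_const, Finset.card_univ,
    Fintype.card_fin, nsmul_eq_mul]
  push_cast
  rw [one_div, inv_pow]
  field_simp

theorem exists_ord {ι : Type} [DecidableEq ι] (Y : Finset ι) (m : ℕ) (hY : Y.card = m) :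
    ∃ O : Finset (Fin m → ι), O.card = m.factorial ∧
      ∀ u ∈ O, Function.Injective u ∧ univ.image u = Y := by
  classical
  let σ : Fin m ≃ Y := (Y.equivFinOfCardEq hY).symm
  refine ⟨univ.image fun π : Equiv.Perm (Fin m) => fun i => (σ (π i) : ι), ?_, ?_⟩
  · rw [Finset.card_image_of_injective, Finset.card_univ, Fintype.card_perm, Fintype.card_fin]
    intro π π' h
    ext i
    have := congrFun h i
    rw [σ.injective (Subtype.ext this)]
  · intro u hu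
    obtain ⟨π, -, rfl⟩ := Finset.mem_image.1 hu
    refine ⟨fun i j h => π.injective (σ.injective (Subtype.ext h)), ?_⟩
    ext y
    simp only [mem_image, mem_univ, true_and]
    constructor
    · rintro ⟨i, rfl⟩; exact (σ (π i)).2
    · intro hy
      exact ⟨π.symm (σ.symm ⟨y, hy⟩), by simp⟩

variable {K : Type} [Field K] [NumberField K]

theorem cop_prod {D : ND K} (hB : Bas D) {ι : Type} (s : Finset ι) (A : ι → FI K)
    (h : ∀ x ∈ s, Cop D.F (A x)) : Cop D.F (∏ x ∈ s, A x) :=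
  Finset.prod_induction A (Cop D.F) hB.cop_mul hB.cop_one h

theorem cl_prod {D : ND K} (hB : Bas D) {M : Mdl K} (hM : M.OK D) {ι : Type} (s : Finset ι)
    (A : ι → FI K) (h : ∀ x ∈ s, Cop D.F (A x)) : M.cl (∏ x ∈ s, A x) = ∑ x ∈ s, M.cl (A x) := by
  classical
  induction s using Finset.induction_on with
  | empty =>
    have := hM.cl.1 1 1 hB.cop_one hB.cop_one
    simpa using this
  | insert a s ha ih =>
    rw [Finset.prod_insert ha, Finset.sum_insert ha,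
      hM.cl.1 _ _ (h a (mem_insert_self _ _))
        (cop_prod hB s A fun x hx => h x (mem_insert_of_mem hx)),
      ih fun x hx => h x (mem_insert_of_mem hx)]

theorem cl_inv {D : ND K} (hB : Bas D) {M : Mdl K} (hM : M.OK D) (A : FI K) (h : Cop D.F A) :
    M.cl A⁻¹ = -M.cl A := by
  have h1 : M.cl (1 : FI K) = 0 := by simpa using hM.cl.1 1 1 hB.cop_one hB.cop_one
  have := hM.cl.1 A A⁻¹ h (hB.cop_inv A h)
  rw [mul_inv_cancel, h1] at this
  exact (neg_eq_of_add_eq_zero_right this.symm).symm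

theorem psi_prod {D : ND K} {M : Mdl K} (hM : M.OK D) {ι : Type} (s : Finset ι)
    (A : ι → FI K) : M.Ψ (∏ x ∈ s, A x) - ∑ x ∈ s, M.Ψ (A x) ∈ Lu M.b := by
  classical
  induction s using Finset.induction_on with
  | empty =>
    have := (Lu M.b).neg_mem (hM.ps.2.1 1 1)
    simpa using this
  | insert a s ha ih =>
    rw [Finset.prod_insert ha, Finset.sum_insert ha]
    have := (Lu M.b).add_mem (hM.ps.2.1 (A a) (∏ x ∈ s, A x)) ih
    have e : M.Ψ (A a * ∏ x ∈ s, A x) - (M.Ψ (A a) + ∑ x ∈ s, M.Ψ (A x)) =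
        M.Ψ (A a * ∏ x ∈ s, A x) - M.Ψ (A a) - M.Ψ (∏ x ∈ s, A x) +
          (M.Ψ (∏ x ∈ s, A x) - ∑ x ∈ s, M.Ψ (A x)) := by abel
    rw [e]; exact this

theorem nI_prod {D : ND K} (hB : Bas D) {ι : Type} (s : Finset ι) (A : ι → FI K) :
    nI (∏ x ∈ s, A x) = ∏ x ∈ s, nI (A x) := by
  classical
  induction s using Finset.induction_on with
  | empty => simpa using hB.nI_one
  | insert a s ha ih => rw [Finset.prod_insert ha, Finset.prod_insert ha, hB.nI_mul, ih]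

theorem gm_add (f : Fr K) (M : Mdl K) (a a' : GC K) :
    f.gm M (a + a') = f.gm M a + f.gm M a' := by
  simp only [Fr.gm, gam, Prod.fst_add, Prod.snd_add, Pi.add_apply, Int.cast_add, add_smul,
    add_mul, Finset.sum_add_distrib, smul_add]
  abel

theorem gm_zero (f : Fr K) (M : Mdl K) : f.gm M 0 = 0 := by
  simp [Fr.gm, gam]

theorem gm_sum (f : Fr K) (M : Mdl K) {ι : Type} (s : Finset ι) (a : ι → GC K) :
    f.gm M (∑ i ∈ s, a i) = ∑ i ∈ s, f.gm M (a i) := by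
  classical
  induction s using Finset.induction_on with
  | empty => simpa using gm_zero f M
  | insert x s hx ih => rw [Finset.sum_insert hx, Finset.sum_insert hx, gm_add, ih]

theorem gm_lu (f : Fr K) (M : Mdl K) (hf : f.OK M) (l : EK K) (hl : l ∈ Lu M.b) :
    ∃ c : Fin (rk K - 1) → ℤ, f.gm M (fun i => f.N1 * c i, 0) = l := by
  obtain ⟨c, rfl⟩ := (Submodule.mem_span_range_iff_exists_fun ℤ).1 hl
  refine ⟨c, ?_⟩
  have hN : (f.N1 : ℝ) ≠ 0 := by have := hf.N1; positivity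
  simp only [Fr.gm, gam, Int.cast_zero, zero_mul, zero_smul, add_zero, Finset.smul_sum, smul_smul]
  refine Finset.sum_congr rfl fun i _ => ?_
  rw [← Int.cast_smul_eq_zsmul ℝ]
  congr 1
  push_cast
  field_simp

theorem gm_last (f : Fr K) (M : Mdl K) (hf : f.OK M) (l : ℕ) (hl : l < f.L1) :
    ‖f.gm M (0, (l : ℤ))‖ ≤ f.e0 := by
  have hL : 0 ≤ f.L := mul_nonneg (Nat.cast_nonneg _) (Real.log_nonneg hf.T1.le)
  have h1 : f.gm M (0, (l : ℤ)) = ((l : ℝ) * (f.L / (rk K * f.N1))) • fun _ => (1 : ℂ) := by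
    simp only [Fr.gm, gam, Pi.zero_apply, Int.cast_zero, zero_smul, Finset.sum_const_zero,
      zero_add, smul_smul, Int.cast_natCast]
    congr 1
    rw [← div_div]; ring
  have h2 : 0 ≤ f.L / (rk K * f.N1) := by positivity
  rw [h1, pi_norm_le_iff_of_nonneg hf.e0.le]
  intro w
  rw [Pi.smul_apply, norm_smul, norm_one, mul_one, Real.norm_eq_abs, abs_of_nonneg (by positivity)]
  refine le_trans (mul_le_mul_of_nonneg_right ?_ h2) hf.L1e
  exact_mod_cast hl.le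

omit [NumberField K] in
theorem emb_mul (a b : K) (w : InfinitePlace K) : emb (a * b) w = emb a w * emb b w := by
  simp [emb]

omit [NumberField K] in
theorem emb_div (a b : K) (w : InfinitePlace K) : emb (a / b) w = emb a w / emb b w := by
  simp [emb]

section
variable {D : ND K} {M : Mdl K} {f : Fr K} {ι : Type} {Mj : Finset ι} {Pt : ι → FI K}
  {p : ι → ℕ} {k : ℕ} {X : Finset ι} {A0 Bz : FI K} {z g0 : K} {ζ : EK K}
  {ρ : InfinitePlace K → ℝ} {ε2 : ℝ}

theorem hit (hB : Bas D) (hL : St_LOG) (hT : Tgt D M f Mj Pt p k X A0 Bz z g0 ζ ρ ε2)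
    {g : K} (hg : g ∈ D.Bl A0 D.Q g0 (emb g0) ρ) (hU : D.Un g) {m : ℕ} (hm : m ≤ k)
    (u : Fin m → ι) (hu : ∀ i, u i ∈ Mj)
    (hd : IsDiv g (A0 * (∏ x ∈ X, Pt x) * ∏ i, Pt (u i)))
    (o : Fin m → GC K × ℕ) (ho : ∀ i, o i ∈ f.B ×ˢ range f.L1) :
    ∃ a, f.gm M a ∈ Dsa (zX M Pt X A0 Bz ζ) (fun w => ρ w * (1 + 2 * ε2) + 3 * k * f.e0) ∧
      ∑ i, fpos (fh M Pt) (fv f Pt) (fl f Pt) (u i, o i) = gpos f M (hX M Pt X A0 Bz) a := by
  have hM := hT.mok
  have hf := hT.fok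
  have cP : ∀ x ∈ Mj, Cop D.F (Pt x) := fun x hx => (hB.pt _ _ (hT.win.1 x hx).1).1
  have cX : Cop D.F (∏ x ∈ X, Pt x) := cop_prod hB X Pt fun x hx => cP x (hT.sub hx)
  have cU : Cop D.F (∏ i, Pt (u i)) := cop_prod hB _ _ fun i _ => cP _ (hu i)
  have cZ : Cop D.F Bz := hB.un_cop z Bz hT.un hT.div
  have hcg : D.Cg g z := by
    obtain ⟨b, hb, e1⟩ := hg.1
    obtain ⟨b', hb', e2⟩ := hT.cg
    exact ⟨b + b', D.R.add_mem hb.2 hb', by rw [e1, e2]; ring⟩
  have hUq : D.U (g / z) := hB.u_div g z hU hT.un hcg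
  have hdq : IsDiv (g / z) (A0 * (∏ x ∈ X, Pt x) * Bz⁻¹ * ∏ i, Pt (u i)) := by
    have := hB.div_mul _ _ _ _ hd (hB.div_inv _ _ hT.div)
    rw [div_eq_mul_inv, mul_right_comm _ Bz⁻¹]
    exact this
  have c1 : Cop D.F (A0 * (∏ x ∈ X, Pt x) * Bz⁻¹) :=
    hB.cop_mul _ _ (hB.cop_mul _ _ hT.cop cX) (hB.cop_inv _ cZ)
  have hcl : ∑ i, M.cl (Pt (u i)) = hX M Pt X A0 Bz := by
    have h0 := (hM.cl.2.2 _ (hB.cop_mul _ _ c1 cU)).2 ⟨_, hUq, hdq⟩
    rw [hM.cl.1 _ _ c1 cU, hM.cl.1 _ _ (hB.cop_mul _ _ hT.cop cX) (hB.cop_inv _ cZ),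
      hM.cl.1 _ _ hT.cop cX, cl_inv hB hM _ cZ, cl_prod hB hM _ _ (fun i _ => cP _ (hu i)),
      cl_prod hB hM _ _ fun x hx => cP x (hT.sub hx)] at h0
    rw [hX, eq_neg_of_add_eq_zero_right h0]
    abel
  have hlog : ∀ w, ∃ y : ℂ, Complex.exp y = emb (g / g0) w ∧ ‖y‖ < ρ w * (1 + 2 * ε2) := by
    intro w
    have h1 : ‖emb g w - emb g0 w‖ < ρ w * ‖emb g0 w‖ := hg.2 w
    have h2 : 0 < ‖emb g0 w‖ := by
      by_contra h
      have h3 : ‖emb g0 w‖ = 0 := le_antisymm (not_lt.1 h) (norm_nonneg _)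
      rw [h3, mul_zero] at h1
      exact absurd h1 (not_lt.2 (norm_nonneg _))
    have h3 : ‖emb (g / g0) w - 1‖ < ρ w := by
      rw [emb_div, div_sub_one (norm_pos_iff.1 h2), norm_div, div_lt_iff₀ h2]
      exact h1
    have h4 := hT.rad w
    have h5 := hT.e2
    obtain ⟨y, hy, hn⟩ := hL.1 (emb (g / g0) w) (by linarith)
    refine ⟨y, hy, lt_of_le_of_lt hn ?_⟩
    have h6 := norm_nonneg (emb (g / g0) w - 1)
    calc _ ≤ ‖emb (g / g0) w - 1‖ * (1 + 2 * ε2) :=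
          mul_le_mul_of_nonneg_left (by linarith) h6
      _ < _ := mul_lt_mul_of_pos_right h3 (by linarith)
  choose ζ' hζ hζn using hlog
  have hexp : cexp (ζ + ζ') = emb (g / z) := by
    funext w
    have h1 : Complex.exp (ζ w) = emb (g0 / z) w := congrFun hT.log w
    have h2 : g / z = g0 / z * (g / g0) := by
      have := hT.g0ne
      field_simp
    simp only [cexp, Pi.add_apply, Complex.exp_add]
    rw [h1, hζ w, h2, emb_mul]
  have hl : zX M Pt X A0 Bz ζ + ζ' - ∑ i, M.Ψ (Pt (u i)) ∈ Lu M.b := by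
    have h1 := hM.ps.2.2 _ _ _ hUq hdq hexp
    have h2 := hM.ps.2.1 (A0 * (∏ x ∈ X, Pt x) * Bz⁻¹) (∏ i, Pt (u i))
    have h3 := psi_prod hM univ fun i => Pt (u i)
    have h4 := (Lu M.b).add_mem ((Lu M.b).add_mem h1 h2) h3
    have e : zX M Pt X A0 Bz ζ + ζ' - ∑ i, M.Ψ (Pt (u i)) =
        ζ + ζ' - M.Ψ (A0 * (∏ x ∈ X, Pt x) * Bz⁻¹ * ∏ i, Pt (u i)) +
          (M.Ψ (A0 * (∏ x ∈ X, Pt x) * Bz⁻¹ * ∏ i, Pt (u i)) -
            M.Ψ (A0 * (∏ x ∈ X, Pt x) * Bz⁻¹) - M.Ψ (∏ i, Pt (u i))) +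
          (M.Ψ (∏ i, Pt (u i)) - ∑ i, M.Ψ (Pt (u i))) := by
      rw [zX]; abel
    rw [e]; exact h4
  obtain ⟨c, hc⟩ := gm_lu f M hf _ hl
  let a : Fin m → GC K := fun i => f.r (Pt (u i)) + (o i).1 + (0, ((o i).2 : ℤ))
  have herr : ∀ i, ‖f.gm M (a i) - M.Ψ (Pt (u i))‖ ≤ 3 * f.e0 := by
    intro i
    have h1 := hf.rnd (Pt (u i))
    have h2 := (hf.memB _).1 (Finset.mem_product.1 (ho i)).1
    have h3 := gm_last f M hf _ (Finset.mem_range.1 (Finset.mem_product.1 (ho i)).2)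
    have e : f.gm M (a i) - M.Ψ (Pt (u i)) = -(M.Ψ (Pt (u i)) - f.gm M (f.r (Pt (u i)))) +
        f.gm M (o i).1 + f.gm M (0, ((o i).2 : ℤ)) := by
      simp only [a, gm_add]; abel
    rw [e]
    refine le_trans (norm_add₃_le) ?_
    rw [norm_neg]
    linarith
  refine ⟨∑ i, a i + (fun i => f.N1 * c i, 0), fun w => ?_, ?_⟩
  · rw [gm_add, gm_sum, hc]
    have e : (∑ i, f.gm M (a i) + (zX M Pt X A0 Bz ζ + ζ' - ∑ i, M.Ψ (Pt (u i)))) w -
        zX M Pt X A0 Bz ζ w = ζ' w + (∑ i, (f.gm M (a i) - M.Ψ (Pt (u i)))) w := by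
      rw [Finset.sum_sub_distrib]
      simp only [Pi.add_apply, Pi.sub_apply]
      ring
    rw [e]
    have h1 : ‖(∑ i, (f.gm M (a i) - M.Ψ (Pt (u i)))) w‖ ≤ 3 * k * f.e0 := by
      refine le_trans (norm_le_pi_norm _ w) (le_trans (norm_sum_le _ _) ?_)
      refine le_trans (Finset.sum_le_sum fun i _ => herr i) ?_
      rw [Finset.sum_const, Finset.card_univ, Fintype.card_fin, nsmul_eq_mul]
      have h2 : (m : ℝ) ≤ k := by exact_mod_cast hm
      have := hf.e0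
      nlinarith
    exact lt_of_le_of_lt (norm_add_le _ _) (add_lt_add_of_lt_of_le (hζn w) h1)
  · refine Prod.ext ?_ (Prod.ext ?_ ?_)
    · rw [Prod.fst_sum]; exact hcl
    · funext j
      simp [gpos, fpos, fv, a, Prod.fst_sum, Prod.snd_sum, Finset.sum_apply]
    · simp [gpos, fpos, fl, a, Prod.snd_sum]

theorem close (hB : Bas D) (hT : Tgt D M f Mj Pt p k X A0 Bz z g0 ζ ρ ε2) {g g' : K}
    (hg : g ∈ D.Bl A0 D.Q g0 (emb g0) ρ) (hg' : g' ∈ D.Bl A0 D.Q g0 (emb g0) ρ) {A : FI K}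
    (h : IsDiv g A) (h' : IsDiv g' A) : g = g' := by
  refine hB.inj g g' A h h' fun w => ?_
  have h1 : ‖emb g w - emb g0 w‖ < ρ w * ‖emb g0 w‖ := hg.2 w
  have h2 : ‖emb g' w - emb g0 w‖ < ρ w * ‖emb g0 w‖ := hg'.2 w
  have h3 : ρ w * ‖emb g0 w‖ ≤ 1 / 4 * ‖emb g0 w‖ :=
    mul_le_mul_of_nonneg_right (le_trans (hT.rad w).2 hT.e2) (norm_nonneg _)
  have h4 : ‖emb g w - emb g' w‖ ≤ ‖emb g w - emb g0 w‖ + ‖emb g' w - emb g0 w‖ := by
    rw [← norm_neg (emb g' w - emb g0 w)]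
    refine le_trans (le_of_eq ?_) (norm_add_le _ _)
    congr 1; ring
  have h5 : ‖emb g0 w‖ ≤ ‖emb g' w‖ + ‖emb g' w - emb g0 w‖ := by
    refine le_trans (le_of_eq ?_) (norm_sub_le _ _)
    congr 1; ring
  have := norm_nonneg (emb g0 w)
  linarith

theorem nv_le (hE : St_EMB) (hT : Tgt D M f Mj Pt p k X A0 Bz z g0 ζ ρ ε2) {g : K}
    (hg : g ∈ D.Bl A0 D.Q g0 (emb g0) ρ) : Nv (emb g) ≤ (1 + ε2) ^ rk K * Nv (emb g0) := by
  rw [← (hE K hT.ok.tc).1, pow_mul, Nv, Nv, ← Finset.card_univ, ← Finset.prod_const,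
    ← Finset.prod_mul_distrib]
  refine Finset.prod_le_prod (fun w _ => by positivity) fun w _ => ?_
  rw [← mul_pow]
  refine pow_le_pow_left₀ (norm_nonneg _) ?_ 2
  have h1 : ‖emb g w - emb g0 w‖ < ρ w * ‖emb g0 w‖ := hg.2 w
  have h3 : ρ w * ‖emb g0 w‖ ≤ ε2 * ‖emb g0 w‖ :=
    mul_le_mul_of_nonneg_right (hT.rad w).2 (norm_nonneg _)
  have h5 : ‖emb g w‖ ≤ ‖emb g0 w‖ + ‖emb g w - emb g0 w‖ := by
    refine le_trans (le_of_eq ?_) (norm_add_le _ _)
    congr 1; ring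
  linarith

end

end TUPU

open TUPU in
theorem stTUPU (hBAS : St_BAS) (hL : St_LOG) (hE : St_EMB) : St_TUPU := by
  classical
  intro K _ _ D M f ι Mj Pt p k X A0 Bz z g0 ζ ρ ε2 Gd hT hGd
  have hB := hBAS K D hT.ok
  set m := k - X.card with hm
  have hp : ∀ x ∈ Mj, (0 : ℝ) < p x := fun x hx => by
    exact_mod_cast (hT.win.1 x hx).1.1.pos
  have hmass : 0 < mass Mj p :=
    Finset.sum_pos (fun x hx => one_div_pos.2 (hp x hx)) hT.ne
  have hwt : ∀ x ∈ Mj, 0 ≤ wt Mj p x := fun x hx => by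
    have := hp x hx
    rw [wt]; positivity
  have hfin : {g | g ∈ D.Bl A0 D.Q g0 (emb g0) ρ ∧ Spl D A0 Mj Pt p k X g}.Finite :=
    hT.fin.subset fun g hg => hg.1
  have hO : ∀ g ∈ hfin.toFinset, ∃ O : Finset (Fin m → ι), O.card = m.factorial ∧
      ∀ u ∈ O, (∀ i, u i ∈ Mj) ∧ IsDiv g (A0 * (∏ x ∈ X, Pt x) * ∏ i, Pt (u i)) := by
    intro g hg
    obtain ⟨-, -, Z, hZ, hk, -, hXZ, hd⟩ := hfin.mem_toFinset.1 hg
    obtain ⟨O, hc, hO⟩ := exists_ord (Z \ X) m (by rw [Finset.card_sdiff_of_subset hXZ, hk])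
    refine ⟨O, hc, fun u hu => ⟨fun i => ?_, ?_⟩⟩
    · have : u i ∈ Z \ X := (hO u hu).2 ▸ Finset.mem_image_of_mem u (Finset.mem_univ i)
      exact hZ (Finset.mem_sdiff.1 this).1
    · have h1 : ∏ x ∈ Z \ X, Pt x = ∏ i, Pt (u i) := by
        rw [← (hO u hu).2, Finset.prod_image fun i _ j _ h => (hO u hu).1 h]
      rw [← h1, mul_assoc, mul_comm (∏ x ∈ X, Pt x), Finset.prod_sdiff hXZ]
      exact hd
  choose! O hOc hO using hO
  set N := f.B ×ˢ range f.L1 with hN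
  have hBne : f.B.Nonempty := ⟨0, (hT.fok.memB 0).2 (by rw [gm_zero, norm_zero]; exact hT.fok.e0)⟩
  have hNne : N.Nonempty := hBne.product (Finset.nonempty_range_iff.2 (by have := hT.fok.L1; omega))
  set U := hfin.toFinset.biUnion O with hU
  set cst := (nI A0 * ∏ x ∈ X, (p x : ℝ)) /
    (mass Mj p ^ m * (1 + ε2) ^ rk K * Nv (emb g0)) with hcst
  have hnA := hB.nI_pos A0
  have hpX : 0 < ∏ x ∈ X, (p x : ℝ) := Finset.prod_pos fun x hx => hp x (hT.sub hx)
  have hlow : ∀ g ∈ hfin.toFinset, ∀ u ∈ O g, cst ≤ ∏ i, wt Mj p (u i) := by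
    intro g hg u hu
    obtain ⟨hu1, hu2⟩ := hO g hg u hu
    have h1 := (hE K hT.ok.tc).2.2.2.2.1 g _ hu2
    have hn : ∀ x ∈ Mj, nI (Pt x) = p x := fun x hx => (hB.pt _ _ (hT.win.1 x hx).1).2.2.2
    rw [hB.nI_mul, hB.nI_mul, nI_prod hB, nI_prod hB,
      Finset.prod_congr rfl fun x hx => hn x (hT.sub hx),
      Finset.prod_congr rfl fun i _ => hn (u i) (hu1 i)] at h1
    have h2 := nv_le hE hT (hfin.mem_toFinset.1 hg).1
    have h3 : 0 < ∏ i, (p (u i) : ℝ) := Finset.prod_pos fun i _ => hp _ (hu1 i)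
    have h4 : ∏ i, wt Mj p (u i) = 1 / (mass Mj p ^ m * ∏ i, (p (u i) : ℝ)) := by
      simp only [wt, Finset.prod_div_distrib, Finset.prod_const, Finset.card_univ,
        Fintype.card_fin, one_pow]
      rw [div_div, mul_comm]
    have h5 : 0 < (1 + ε2) ^ rk K * Nv (emb g0) := lt_of_lt_of_le (by rw [← h1]; positivity) h2
    rw [h4, hcst, mul_assoc, div_le_div_iff₀ (by positivity) (by positivity), one_mul,
      mul_left_comm]
    exact mul_le_mul_of_nonneg_left (h1 ▸ h2) (by positivity)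
  have hdis : (hfin.toFinset : Set K).PairwiseDisjoint O := by
    intro g hg g' hg' hne
    refine Finset.disjoint_left.2 fun u hu hu' => hne ?_
    exact close hB hT (hfin.mem_toFinset.1 hg).1 (hfin.mem_toFinset.1 hg').1
      (hO g hg u hu).2 (hO g' hg' u hu').2
  have hUsub : U ⊆ Fintype.piFinset fun _ : Fin m => Mj := by
    intro u hu
    obtain ⟨g, hg, hu⟩ := Finset.mem_biUnion.1 hu
    exact Fintype.mem_piFinset.2 (hO g hg u hu).1
  calc _ = ∑ g ∈ hfin.toFinset, (m.factorial : ℝ) * cst := by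
        rw [Finset.sum_const, nsmul_eq_mul, nSpl, Set.ncard_eq_toFinset_card _ hfin, hcst]
        ring
    _ ≤ ∑ g ∈ hfin.toFinset, ∑ u ∈ O g, ∏ i, wt Mj p (u i) := by
        refine Finset.sum_le_sum fun g hg => ?_
        rw [← hOc g hg, ← nsmul_eq_mul]
        exact Finset.card_nsmul_le_sum _ _ _ (hlow g hg)
    _ = ∑ u ∈ Fintype.piFinset (fun _ : Fin m => Mj),
          if u ∈ U then ∏ i, wt Mj p (u i) else 0 := by
        rw [← Finset.sum_biUnion hdis, ← Finset.sum_filter, Finset.filter_mem_eq_inter,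
          Finset.inter_eq_right.2 hUsub]
    _ = _ := (sum_noise Mj N hNne m _).symm
    _ ≤ _ := by
        simp only [tupP]
        rw [Finset.sum_comm]
        refine Finset.sum_le_sum fun F hF => ?_
        have hF' := Fintype.mem_piFinset.1 hF
        have hw : ∀ i, 0 ≤ wn Mj p f.B f.L1 (F i) := fun i => by
          have := hwt _ (Finset.mem_product.1 (hF' i)).1
          rw [wn]; positivity
        have hnn : ∀ a ∈ Gd, 0 ≤ @ite ℝ (∑ i, fpos (fh M Pt) (fv f Pt) (fl f Pt) (F i) =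
            gpos f M (hX M Pt X A0 Bz) a) (Classical.propDecidable _)
            (∏ i, wn Mj p f.B f.L1 (F i)) 0 := by
          intro a _
          split_ifs
          · exact Finset.prod_nonneg fun i _ => hw i
          · exact le_rfl
        split_ifs with hFU
        · obtain ⟨g, hg, hu⟩ := Finset.mem_biUnion.1 hFU
          have hg' := hfin.mem_toFinset.1 hg
          obtain ⟨a, ha, he⟩ := hit hB hL hT hg'.1 hg'.2.1 (Nat.sub_le k X.card)
            (fun i => (F i).1) (hO g hg _ hu).1 (hO g hg _ hu).2 (fun i => (F i).2)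
            fun i => (Finset.mem_product.1 (hF' i)).2
          refine le_trans (le_of_eq ?_) (Finset.single_le_sum hnn (hGd a ha))
          rw [if_pos he]
          simp only [wn, Finset.prod_div_distrib, Finset.prod_const, Finset.card_univ,
            Fintype.card_fin, hN, Finset.card_product, Finset.card_range]
          push_cast
          rw [one_div, inv_pow, div_eq_mul_inv]
        · rw [zero_mul]
          exact Finset.sum_nonneg hnn

end Pool.Agent.Lib.BK2.NT
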