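import Pool.Agent.Lib.BK2.NDefs

/-!
Block N.UNITS: at most half of the expected number of elements of a unit class are not units.
-/

namespace Pool.Agent.Lib.BK2.NT

open Finset NumberField Polynomial

namespace UNITS

theorem count {α : Type} (B Bad : Finset α) (T : Finset ℕ) (r : α → ℕ → α → Prop)
    [∀ a t b, Decidable (r a t b)] (lo M : ℝ)
    (hlo : ∀ g ∈ Bad, ∀ t ∈ T, lo ≤ ((B.filter fun g' => r g t g').card : ℝ))
    (hhi : ∀ g' ∈ B, ∑ t ∈ T, ((Bad.filter fun g => r g t g').card : ℝ) ≤ M) :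
    (Bad.card : ℝ) * T.card * lo ≤ B.card * M := by
  calc (Bad.card : ℝ) * T.card * lo = ∑ _g ∈ Bad, ∑ _t ∈ T, lo := by simp [mul_assoc]
    _ ≤ ∑ g ∈ Bad, ∑ t ∈ T, ∑ g' ∈ B, (if r g t g' then (1 : ℝ) else 0) := by
        refine sum_le_sum fun g hg => sum_le_sum fun t ht => ?_
        rw [sum_boole]
        exact hlo g hg t ht
    _ = ∑ g' ∈ B, ∑ t ∈ T, ∑ g ∈ Bad, (if r g t g' then (1 : ℝ) else 0) := by
        rw [sum_comm]
        rw [sum_congr rfl fun t _ => sum_comm]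
        rw [sum_comm]
    _ ≤ ∑ _g' ∈ B, M := by
        refine sum_le_sum fun g' hg' => ?_
        simp only [sum_boole]
        exact hhi g' hg'
    _ = B.card * M := by simp

variable {K : Type} [Field K] [NumberField K]

/-- `g` is invertible modulo `q` in `R` -/
def Gd (R : Subring K) (q : ℕ) (g : K) : Prop := ∃ h ∈ R, ∃ b ∈ R, g * h = 1 + q * b

omit [NumberField K] in
theorem gd_add {R : Subring K} {q : ℕ} {g b : K} (hb : b ∈ R) (h : Gd R q g) :
    Gd R q (g + q * b) := by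
  obtain ⟨h, hh, c, hc, e⟩ := h
  refine ⟨h, hh, c + b * h, R.add_mem hc (R.mul_mem hb hh), ?_⟩
  linear_combination e

theorem un_of_gd {D : ND K} (hD : D.OK) {g : K} (hg : g ∈ D.R) (h0 : g ≠ 0)
    (h : ∀ q : ℕ, q.Prime → q ∣ D.F → Gd D.R q g) : D.Un g := by
  refine ⟨h0, hg, ?_⟩
  set g' : D.R := ⟨g, hg⟩ with hg'
  have hal : IsAlgebraic ℤ g' := by
    have h1 : IsAlgebraic ℤ g :=
      (IsFractionRing.isAlgebraic_iff ℤ ℚ K).2 (Algebra.IsAlgebraic.isAlgebraic g)
    exact (isAlgebraic_algHom_iff (D.R.subtype.toIntAlgHom) Subtype.val_injective).1 h1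
  have hne : g' ≠ 0 := fun e => h0 (congrArg Subtype.val e)
  obtain ⟨m, hm, hdvd⟩ := hal.exists_nonzero_dvd (mem_nonZeroDivisors_of_ne_zero hne)
  have key : ∀ k : ℕ, k ≠ 0 → IsCoprime (k : D.R) g' := by
    intro k
    induction k using induction_on_primes with
    | zero => intro h; exact absurd rfl h
    | one => intro _; simpa using isCoprime_one_left
    | prime_mul p a hp ih =>
      intro hpa
      have ha : a ≠ 0 := fun e => hpa (by simp [e])
      rw [Nat.cast_mul]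
      refine IsCoprime.mul_left ?_ (ih ha)
      by_cases hpF : p ∣ D.F
      · obtain ⟨u, hu, b, hb, e⟩ := h p hp hpF
        refine ⟨⟨-b, D.R.neg_mem hb⟩, ⟨u, hu⟩, Subtype.ext ?_⟩
        simp only [hg']
        push_cast
        linear_combination e
      · have hc : p.Coprime D.F := (Nat.Prime.coprime_iff_not_dvd hp).2 hpF
        have hp0 : (p : K) ≠ 0 := by exact_mod_cast hp.ne_zero
        refine ⟨⟨(p : K)⁻¹, hD.inv p hc⟩, 0, Subtype.ext ?_⟩
        push_cast
        simp [hp0]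
  have hk := key m.natAbs (Int.natAbs_ne_zero.2 hm)
  have hd2 : g' ∣ (m.natAbs : D.R) := by
    have e : ((m.natAbs : ℕ) : D.R) = (m.sign : D.R) * algebraMap ℤ D.R m := by
      rw [← Int.cast_natCast, ← Int.sign_mul_self_eq_natAbs, Int.cast_mul, eq_intCast]
    rw [e]
    exact Dvd.dvd.mul_left hdvd _
  have hu : IsUnit g' := hk.isUnit_of_dvd' hd2 dvd_rfl
  obtain ⟨v, hv⟩ := hu.exists_right_inv
  have e : g * (v : K) = 1 := congrArg Subtype.val hv
  have : g⁻¹ = v := (eq_inv_of_mul_eq_one_right e).symm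
  rw [this]
  exact v.2

theorem roots {D : ND K} (hD : D.OK) {q : ℕ} (hq : q.Prime) (hqF : q ∣ D.F) {g : K}
    (hg : g ∈ D.R) {c : ℕ} (hc : ¬ q ∣ c) [DecidablePred fun t : ℕ => ¬ Gd D.R q (g + c * t)] :
    ((range q).filter fun t : ℕ => ¬ Gd D.R q (g + c * t)).card ≤ rk K := by
  classical
  have := Fact.mk hq
  obtain ⟨s, hs, ha⟩ := hD.int g hg
  set a : K := s * g with ha'
  have haR : a ∈ D.R := D.R.mul_mem (natCast_mem _ _) hg
  set P := minpoly ℤ a with hP
  have hmon : P.Monic := minpoly.monic ha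
  have hdeg : P.natDegree ≤ rk K := by
    have h1 := minpoly.isIntegrallyClosed_eq_field_fractions' ℚ ha
    have h2 := minpoly.natDegree_le (A := ℚ) a
    rw [h1, hmon.natDegree_map] at h2
    exact h2
  have hsq : ¬ q ∣ s := fun h => hq.one_lt.ne' (Nat.eq_one_of_dvd_coprimes hs h hqF)
  have hsc : ((s : ZMod q) * c) ≠ 0 := by
    rw [← Nat.cast_mul, Ne, ZMod.natCast_eq_zero_iff]
    intro h
    rcases (Nat.Prime.dvd_mul hq).1 h with h | h
    · exact hsq h
    · exact hc h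
  set Pq := P.map (Int.castRingHom (ZMod q)) with hPq
  have hPq0 : Pq ≠ 0 := (hmon.map _).ne_zero
  calc _ ≤ Pq.roots.toFinset.card := by
        refine card_le_card_of_injOn (fun t : ℕ => -((s : ZMod q) * c * t)) ?_ ?_
        · intro t ht
          rw [mem_coe, mem_filter] at ht
          rw [mem_coe, Multiset.mem_toFinset, mem_roots hPq0]
          by_contra hr
          apply ht.2
          set u : ℤ := -((s : ℤ) * c * t) with hu
          have hev : ¬ (q : ℤ) ∣ P.eval u := by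
            intro h
            apply hr
            have e : (-((s : ZMod q) * c * t)) = Int.castRingHom (ZMod q) u := by simp [hu]
            rw [IsRoot.def]
            beta_reduce
            rw [e, hPq, eval_map, eval₂_at_apply]
            exact (ZMod.intCast_zmod_eq_zero_iff_dvd _ _).2 h
          obtain ⟨x, v, hxv⟩ := (Irreducible.coprime_iff_not_dvd
            (Nat.prime_iff_prime_int.1 hq).irreducible).2 hev
          obtain ⟨S, hS⟩ := X_sub_C_dvd_sub_C_eval (a := u) (p := P)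
          have hS' := congrArg (aeval a) hS
          have h0 : aeval a P = 0 := minpoly.aeval ℤ a
          simp only [map_sub, map_mul, aeval_X, h0, eq_intCast, map_intCast] at hS'
          have hSR : aeval a S ∈ D.R := by
            rw [aeval_eq_sum_range]
            exact D.R.sum_mem fun i _ => zsmul_mem (D.R.pow_mem haR i) _
          refine ⟨-(v * s * aeval a S), D.R.neg_mem (D.R.mul_mem (D.R.mul_mem (intCast_mem _ _)
            (natCast_mem _ _)) hSR), -x, D.R.neg_mem (intCast_mem _ _), ?_⟩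
          have e1 : (x : K) * q + v * ((P.eval u : ℤ) : K) = 1 := by exact_mod_cast hxv
          have e2 : (u : K) = -((s : K) * c * t) := by simp [hu]
          rw [e2, ha'] at hS'
          linear_combination e1 + v * hS'
        · intro t ht t' ht' e
          rw [mem_coe, mem_filter, mem_range] at ht ht'
          have e' : (t : ZMod q) = t' := mul_left_cancel₀ hsc (neg_inj.1 e)
          exact Nat.ModEq.eq_of_lt_of_lt ((ZMod.natCast_eq_natCast_iff _ _ _).1 e') ht.1 ht'.1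
    _ ≤ Pq.natDegree := (Multiset.toFinset_card_le _).trans (card_roots' _)
    _ ≤ rk K := by rw [hPq, hmon.natDegree_map]; exact hdeg

theorem L_add {D : ND K} {A : FI K} {g g' : K} (h : g ∈ D.L A) (h' : g' ∈ D.L A) :
    g + g' ∈ D.L A :=
  ⟨(A.1 : Submodule (RingOfIntegers K) K).add_mem h.1 h'.1, D.R.add_mem h.2 h'.2⟩

theorem L_neg {D : ND K} {A : FI K} {g : K} (h : g ∈ D.L A) : -g ∈ D.L A :=
  ⟨(A.1 : Submodule (RingOfIntegers K) K).neg_mem h.1, D.R.neg_mem h.2⟩

theorem L_mul {D : ND K} {A : FI K} {g : K} (k : ℕ) (h : g ∈ D.L A) : (k : K) * g ∈ D.L A := by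
  refine ⟨?_, D.R.mul_mem (natCast_mem _ _) h.2⟩
  rw [← nsmul_eq_mul]
  exact nsmul_mem (S := (A.1 : Submodule (RingOfIntegers K) K)) h.1 k

theorem nI_pos (A : FI K) : 0 < nI A := by
  have h1 := FractionalIdeal.absNorm_nonneg A.1
  have h2 : FractionalIdeal.absNorm A.1 ≠ 0 := fun h =>
    A.ne_zero (FractionalIdeal.absNorm_eq_zero_iff.1 h)
  unfold nI
  exact_mod_cast lt_of_le_of_ne h1 h2.symm

theorem big_mono {D : ND K} {A : FI K} {d d' : ℕ} {y : EK K} {ε η : ℝ} (hε : 0 < ε) (hη : 0 < η)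
    (hd : d ≤ d') (h : D.Big A d' y ε η) : D.Big A d y ε η := by
  refine le_trans ?_ h
  have := nI_pos A
  have hd' : (d : ℝ) ≤ d' := by exact_mod_cast hd
  gcongr

theorem xp_pos {D : ND K} (hD : D.OK) {ρ0 : ℝ} (h0 : 0 < ρ0) {A : FI K} {d : ℕ} (hd : 1 ≤ d)
    {y : EK K} {ρ : InfinitePlace K → ℝ} {ε η : ℝ} (hε : 0 < ε) (hη : 0 < η)
    (hρ : ∀ w, ε ≤ ρ w ∧ ρ w ≤ 1) (h : D.Big A d y ε η) : 0 < xp ρ0 A d y ρ := by
  have h1 := nI_pos A
  have h2 : (0 : ℝ) < d := by exact_mod_cast hd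
  have h3 : (0 : ℝ) < rk K := by exact_mod_cast Module.finrank_pos
  have h4 : 0 < D.Δ := lt_of_lt_of_le (by exact_mod_cast hD.Fpos) hD.FΔ
  have h5 : 0 < Nv y := lt_of_lt_of_le (by positivity) h
  have h6 : 0 < ∏ w, ρ w ^ 2 := prod_pos fun w _ => pow_pos (hε.trans_le (hρ w).1) 2
  unfold xp
  positivity

theorem bad_q {D : ND K} (hD : D.OK) {ρ0 : ℝ} (hC : D.Cnt ρ0) {A : FI K} {g0 : K} {y : EK K}
    {ρ : InfinitePlace K → ℝ} {ε : ℝ} (hA : Cop D.F A) (hg0 : g0 ∈ D.L A) (hε : 0 < ε)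
    (hρ : ∀ w, ε ≤ ρ w ∧ ρ w ≤ 1) (hB : D.Big A (D.Q * D.F) y ε (1 / 8)) {q : ℕ} (hq : q.Prime)
    (hqF : q ∣ D.F) (hqQ : ¬ q ∣ D.Q) (B : Finset K) (hBm : ∀ g, g ∈ B ↔ g ∈ D.Bl A D.Q g0 y ρ)
    [DecidablePred fun g => ¬ Gd D.R q g] :
    ((B.filter fun g => ¬ Gd D.R q g).card : ℝ) ≤ 9 / 7 * rk K * (1 / (q : ℝ)) * B.card := by
  classical
  obtain ⟨s0, hs0, hs0A, -⟩ := id hA
  have hsL : (s0 : K) ∈ D.L A := ⟨hs0A, natCast_mem _ _⟩
  have hc : ¬ q ∣ D.Q * s0 := by
    intro h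
    rcases (Nat.Prime.dvd_mul hq).1 h with h | h
    · exact hqQ h
    · exact hq.one_lt.ne' (Nat.eq_one_of_dvd_coprimes hs0 h hqF)
  have hQ1 : 1 ≤ D.Q * q := Nat.mul_pos (by have := hD.Q3; omega) hq.pos
  have hB' : D.Big A (D.Q * q) y ε (1 / 8) :=
    big_mono hε (by norm_num) (Nat.mul_le_mul_left _ (Nat.le_of_dvd hD.Fpos hqF)) hB
  have hx := xp_pos hD hC.1 hQ1 hε (by norm_num) hρ hB'
  set x := xp ρ0 A (D.Q * q) y ρ with hx'
  have hcnt := fun g1 => hC.2 A (D.Q * q) g1 y ρ ε (1 / 8) hA hQ1 hε (by norm_num) (by norm_num)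
    hρ hB'
  have hq0 : (0 : ℝ) < q := by exact_mod_cast hq.pos
  have main := count B (B.filter fun g => ¬ Gd D.R q g) (range q)
    (fun g t g' => ∃ b ∈ D.L A, g = g' + ((D.Q * s0 : ℕ) : K) * t + ((D.Q * q : ℕ) : K) * b)
    (7 / 8 * x) (rk K * (9 / 8 * x)) ?_ ?_
  · rw [card_range] at main
    rw [mul_one_div, div_mul_eq_mul_div, le_div_iff₀ hq0]
    refine le_of_mul_le_mul_right ?_ (show 0 < 7 / 8 * x by positivity)
    refine main.trans (le_of_eq ?_)
    ring
  · intro g hg t _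
    obtain ⟨hf, hn⟩ := hcnt (g - ((D.Q * s0 : ℕ) : K) * t)
    have h1 := (abs_le.1 hn).1
    have h2 : hf.toFinset ⊆ B.filter fun g' =>
        ∃ b ∈ D.L A, g = g' + ((D.Q * s0 : ℕ) : K) * t + ((D.Q * q : ℕ) : K) * b := by
      intro g' hg'
      rw [Set.Finite.mem_toFinset] at hg'
      obtain ⟨⟨b, hb, e⟩, hy⟩ := hg'
      obtain ⟨⟨b1, hb1, e1⟩, -⟩ := (hBm g).1 (mem_filter.1 hg).1
      refine mem_filter.2 ⟨(hBm g').2 ⟨⟨b1 + -((t : K) * s0) + q * b,
        L_add (L_add hb1 (L_neg (L_mul t hsL))) (L_mul q hb), ?_⟩, hy⟩, -b, L_neg hb, ?_⟩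
      · rw [e, e1]; push_cast; ring
      · rw [e]; ring
    have h3 : ((hf.toFinset.card : ℕ) : ℝ) ≤ _ := Nat.cast_le.2 (card_le_card h2)
    rw [← Set.ncard_eq_toFinset_card _ hf] at h3
    linarith
  · intro g' hg'
    obtain ⟨⟨b1, hb1, e1⟩, -⟩ := (hBm g').1 hg'
    have hg'R : g' ∈ D.R := by
      rw [e1]; exact D.R.add_mem hg0.2 (D.R.mul_mem (natCast_mem _ _) hb1.2)
    have hr : ((((range q).filter fun t : ℕ =>
        ¬ Gd D.R q (g' + ((D.Q * s0 : ℕ) : K) * t)).card : ℕ) : ℝ) ≤ rk K :=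
      Nat.cast_le.2 (roots hD hq hqF hg'R hc)
    calc _ ≤ ∑ t ∈ range q,
          (if ¬ Gd D.R q (g' + ((D.Q * s0 : ℕ) : K) * t) then 9 / 8 * x else 0) := by
          refine sum_le_sum fun t _ => ?_
          split_ifs with hgd
          · refine le_of_eq ?_
            rw [Nat.cast_eq_zero, card_eq_zero, filter_eq_empty_iff]
            rintro g hg ⟨b, hb, e⟩
            apply (mem_filter.1 hg).2
            have := gd_add (D.R.mul_mem (natCast_mem D.R D.Q) hb.2) hgd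
            rw [e]
            push_cast at this ⊢
            rwa [mul_comm (D.Q : K) (q : K), mul_assoc (q : K)]
          · obtain ⟨hf, hn⟩ := hcnt (g' + ((D.Q * s0 : ℕ) : K) * t)
            have h1 := (abs_le.1 hn).2
            have h2 : ((B.filter fun g => ¬ Gd D.R q g).filter fun g => ∃ b ∈ D.L A,
                g = g' + ((D.Q * s0 : ℕ) : K) * t + ((D.Q * q : ℕ) : K) * b) ⊆ hf.toFinset := by
              intro g hg
              rw [Set.Finite.mem_toFinset]
              exact ⟨(mem_filter.1 hg).2, ((hBm g).1 (mem_filter.1 (mem_filter.1 hg).1).1).2⟩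
            have h3 : _ ≤ ((hf.toFinset.card : ℕ) : ℝ) := Nat.cast_le.2 (card_le_card h2)
            rw [← Set.ncard_eq_toFinset_card _ hf] at h3
            linarith
      _ = (((range q).filter fun t : ℕ =>
            ¬ Gd D.R q (g' + ((D.Q * s0 : ℕ) : K) * t)).card : ℝ) * (9 / 8 * x) := by
          rw [← sum_filter, sum_const, nsmul_eq_mul]
      _ ≤ _ := by gcongr

end UNITS

open UNITS in
theorem stUNITS : St_UNITS := by
  classical
  intro K _ _ D ρ0 hD hC A g0 z y ρ ε hA hg0 hz hgz hε hρ hB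
  have hQ1 : 1 ≤ D.Q := by have := hD.Q3; omega
  have hB' : D.Big A D.Q y ε (1 / 8) :=
    big_mono hε (by norm_num) (Nat.le_mul_of_pos_right _ hD.Fpos) hB
  have hx := xp_pos hD hC.1 hQ1 hε (by norm_num) hρ hB'
  obtain ⟨hf, hn⟩ := hC.2 A D.Q g0 y ρ ε (1 / 8) hA hQ1 hε (by norm_num) (by norm_num) hρ hB'
  have h1 := (abs_le.1 hn).1
  rw [Set.ncard_eq_toFinset_card _ hf] at h1
  set B := hf.toFinset with hBd
  have hBm : ∀ g, g ∈ B ↔ g ∈ D.Bl A D.Q g0 y ρ := fun g => Set.Finite.mem_toFinset hf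
  have e : {g | g ∈ D.Bl A D.Q g0 y ρ ∧ D.Un g} = ↑(B.filter fun g => D.Un g) := by
    ext g
    simp [hBm]
  rw [e, Set.ncard_coe_finset]
  set S := D.F.primeFactors.filter (fun q => ¬ q ∣ D.Q) with hS
  have hsub : B.filter (fun g => ¬ D.Un g) ⊆
      S.biUnion fun q => B.filter fun g => ¬ Gd D.R q g := by
    intro g hg
    obtain ⟨hgB, hgU⟩ := mem_filter.1 hg
    obtain ⟨⟨b1, hb1, e1⟩, hy⟩ := (hBm g).1 hgB
    obtain ⟨b2, hb2, e2⟩ := hgz
    have hgR : g ∈ D.R := by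
      rw [e1]; exact D.R.add_mem hg0.2 (D.R.mul_mem (natCast_mem _ _) hb1.2)
    have h0 : g ≠ 0 := by
      intro h
      obtain ⟨w⟩ : Nonempty (InfinitePlace K) := inferInstance
      have h2 := hy w
      simp only [emb, h, map_zero, zero_sub, norm_neg] at h2
      nlinarith [(hρ w).2, norm_nonneg (y w)]
    by_contra hcon
    apply hgU
    refine un_of_gd hD hgR h0 fun q hq hqF => ?_
    by_cases hqQ : q ∣ D.Q
    · obtain ⟨k, hk⟩ := hqQ
      refine ⟨z⁻¹, hz.2.2, k * (b1 + b2) * z⁻¹, D.R.mul_mem (D.R.mul_mem (natCast_mem _ _)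
        (D.R.add_mem hb1.2 hb2)) hz.2.2, ?_⟩
      have hz0 := hz.1
      rw [e1, e2, hk]
      push_cast
      field_simp
      ring
    · by_contra hgd
      exact hcon (mem_biUnion.2 ⟨q, mem_filter.2
        ⟨Nat.mem_primeFactors.2 ⟨hq, hqF, hD.Fpos.ne'⟩, hqQ⟩, mem_filter.2 ⟨hgB, hgd⟩⟩)
  have h3 : (0 : ℝ) < rk K := by exact_mod_cast Module.finrank_pos
  have h4 : ((B.filter fun g => ¬ D.Un g).card : ℝ) ≤ 9 / 56 * B.card := by
    calc _ ≤ ∑ q ∈ S, ((B.filter fun g => ¬ Gd D.R q g).card : ℝ) := by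
          exact_mod_cast (card_le_card hsub).trans card_biUnion_le
      _ ≤ ∑ q ∈ S, 9 / 7 * (rk K : ℝ) * (1 / (q : ℝ)) * B.card := by
          refine sum_le_sum fun q hq => ?_
          obtain ⟨hq1, hq2⟩ := mem_filter.1 hq
          exact bad_q hD hC hA hg0 hε hρ hB (Nat.prime_of_mem_primeFactors hq1)
            (Nat.dvd_of_mem_primeFactors hq1) hq2 B hBm
      _ = 9 / 7 * (rk K : ℝ) * (∑ q ∈ S, 1 / (q : ℝ)) * B.card := by
          rw [mul_sum, sum_mul]
      _ ≤ 9 / 7 * (rk K : ℝ) * (1 / (8 * rk K)) * B.card := by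
          have := hD.iota
          gcongr
      _ = _ := by field_simp; ring
  have h5 : ((B.filter fun g => D.Un g).card : ℝ) + (B.filter fun g => ¬ D.Un g).card = B.card := by
    exact_mod_cast card_filter_add_card_filter_not _
  linarith

end Pool.Agent.Lib.BK2.NT
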