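import Pool.Agent.Lib.BK2.NTUP
import Pool.Agent.Lib.BK2.NBAS
import Pool.Agent.Lib.BK2.NEMB
import Pool.Agent.Lib.BK2.NEUL
import Pool.Agent.Lib.BK2.NCNT
import Pool.Agent.Lib.BK2.NGRP1
import Pool.Agent.Lib.BK2.NGRP2
import Pool.Agent.Lib.BK2.NGRP3
import Pool.Agent.Lib.BK2.GRID
import Pool.Agent.Lib.BK2.NUNITS
import Pool.Agent.Lib.BK2.NRHO
import Pool.Agent.Lib.BK2.NROUGH
import Pool.Agent.Lib.BK2.NFRAME
import Pool.Agent.Lib.BK2.NDENS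
import Pool.Agent.Lib.BK2.NDIST
import Pool.Agent.Lib.BK2.NTUPU
import Pool.Agent.Lib.BK2.NTUPL
import Pool.Agent.Lib.BK2.ALLT
import Pool.Agent.Lib.BK2.MOD

/-! Section N without hypotheses. -/

namespace Pool.Agent.Lib.BK2.NT

theorem allGRP : St_GRP :=
  stGRP stBAS (stGRP1 stBAS) (stGRP2 stBAS stLOG stEMB) (stGRP3 stBAS stEMB)

theorem allROUGH : St_ROUGH :=
  stROUGH stBAS stLOG stEMB (stRHO stBAS stLOG stEMB stUNITS) stEUL

theorem allTUP : St_TUP :=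
  stTUP stBAS stEMB stFIB stCNT allGRP (stGRID stEMB) allROUGH (stFRAME stEMB)
    (stDENS stBAS stEMB) stDIST (stTUPU stBAS stLOG stEMB) (stTUPL stBAS stLOG stEMB) stALLT stMOD

end Pool.Agent.Lib.BK2.NT
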