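import Pool.Agent.Lib.BK2.NDefs
import Pool.Agent.Lib.BK2.LDefs

/-!
Section N, part 2: the finite model and the count of split elements.
-/

namespace Pool.Agent.Lib.BK2.NT

open Finset NumberField

/-- the data of the finite model -/
structure Fr (K : Type) [Field K] [NumberField K] where
  T : ℝ
  P : ℕ
  N1 : ℕ
  L1 : ℕ
  e0 : ℝ
  B : Finset (GC K)
  r : FI K → GC K

section
variable {K : Type} [Field K] [NumberField K]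

/-- the period in the direction of the norm -/
noncomputable def Fr.L (f : Fr K) : ℝ := f.P * Real.log f.T
/-- grid points of the model -/
noncomputable def Fr.gm (f : Fr K) (M : Mdl K) (a : GC K) : EK K := gam M.b f.L f.N1 a

structure Fr.OK (f : Fr K) (M : Mdl K) : Prop where
  T1 : 1 < f.T
  P1 : 1 ≤ f.P
  N1 : 1 ≤ f.N1
  L1 : 1 ≤ f.L1
  e0 : 0 < f.e0
  memB : ∀ o, o ∈ f.B ↔ ‖f.gm M o‖ < f.e0
  rnd : ∀ A, ‖M.Ψ A - f.gm M (f.r A)‖ ≤ f.e0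
  L1e : (f.L1 : ℝ) * (f.L / (rk K * f.N1)) ≤ f.e0

def fh {ι : Type} (M : Mdl K) (Pt : ι → FI K) (x : ι) : M.H := M.cl (Pt x)
def fv {ι : Type} (f : Fr K) (Pt : ι → FI K) (x : ι) (o : GC K) : Fin (rk K - 1) → ZMod f.N1 :=
  fun i => (((f.r (Pt x)).1 i + o.1 i : ℤ) : ZMod f.N1)
def fl {ι : Type} (f : Fr K) (Pt : ι → FI K) (x : ι) (o : GC K) : ℤ := (f.r (Pt x)).2 + o.2
/-- the image of a class and a grid point in the finite model -/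
def gpos (f : Fr K) (M : Mdl K) (h : M.H) (a : GC K) : FG M.H (rk K - 1) f.N1 :=
  (h, fun i => ((a.1 i : ℤ) : ZMod f.N1), ((a.2 : ℤ) : ZMod f.N1))

/-- the points `Pt x` are distinct primes of prime norm `p x` in the window -/
def Win {ι : Type} (F : ℕ) (T : ℝ) (S : Finset ι) (Pt : ι → FI K) (p : ι → ℕ) : Prop :=
  (∀ x ∈ S, IsPt F (Pt x) (p x) ∧ T ≤ p x ∧ (p x : ℝ) ≤ T ^ 2) ∧ Set.InjOn Pt (S : Set ι)

/-- `g` is a unit of `R` whose divisor is `A0` times `k` points of `M` over distinct primes,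
among them those of `X` -/
def Spl {ι : Type} (D : ND K) (A0 : FI K) (M : Finset ι) (Pt : ι → FI K) (p : ι → ℕ) (k : ℕ)
    (X : Finset ι) (g : K) : Prop :=
  D.Un g ∧ ∃ Z ⊆ M, Z.card = k ∧ Set.InjOn p (Z : Set ι) ∧ X ⊆ Z ∧ IsDiv g (A0 * ∏ x ∈ Z, Pt x)

/-- the number of split elements of a class in a polydisc -/
noncomputable def nSpl {ι : Type} (D : ND K) (A0 : FI K) (M : Finset ι) (Pt : ι → FI K)
    (p : ι → ℕ) (k : ℕ) (X : Finset ι) (g0 : K) (ρ : InfinitePlace K → ℝ) : ℝ :=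
  ({g | g ∈ D.Bl A0 D.Q g0 (emb g0) ρ ∧ Spl D A0 M Pt p k X g}.ncard : ℝ)
end

/-- sum of the reciprocals -/
noncomputable def mass {ι : Type} (S : Finset ι) (p : ι → ℕ) : ℝ := ∑ y ∈ S, 1 / (p y : ℝ)
/-- normalised weights -/
noncomputable def wt {ι : Type} (S : Finset ι) (p : ι → ℕ) (x : ι) : ℝ := 1 / (p x : ℝ) / mass S p
/-- weights of noisy points -/
noncomputable def wn {ι Ω : Type} (M : Finset ι) (p : ι → ℕ) (B : Finset Ω) (L1 : ℕ)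
    (y : ι × Ω × ℕ) : ℝ := wt M p y.1 / (B.card * L1)

open Classical in
/-- weight of the `m`-tuples with distinct labels outside `fb` whose images add up to `τ`. -/
noncomputable def tupQ {Ω G : Type} [AddCommGroup G] (S : Finset Ω) (w : Ω → ℝ) (φ : Ω → G)
    (lab : Ω → ℕ) (fb : Finset ℕ) (m : ℕ) (τ : G) : ℝ :=
  ∑ f ∈ Fintype.piFinset (fun _ : Fin m => S),
    if ∑ i, φ (f i) = τ ∧ Function.Injective (fun i => lab (f i)) ∧ ∀ i, lab (f i) ∉ fb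
    then ∏ i, w (f i) else 0

def St_DIST : Prop :=
  ∀ (Ω G : Type) [AddCommGroup G] (S : Finset Ω) (w : Ω → ℝ) (φ : Ω → G) (lab : Ω → ℕ)
    (fb : Finset ℕ) (m j : ℕ) (θ Bd : ℝ), (∀ y ∈ S, 0 ≤ w y) → ∑ y ∈ S, w y ≤ 1 →
    (∀ q, ∑ y ∈ S.filter (fun y => lab y = q), w y ≤ θ) →
    (∀ m', j ≤ m' → ∀ τ, tupP S w φ m' τ ≤ Bd) → j + 2 ≤ m →
    ∀ τ, tupP S w φ m τ - tupQ S w φ lab fb m τ ≤ ((m : ℝ) ^ 2 + m * fb.card) * θ * Bd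

def St_FRAME : Prop :=
  ∀ (K : Type) [Field K] [NumberField K] (D : ND K) (M : Mdl K) (δ T e0 η : ℝ) (P L0 N0 : ℕ),
    D.OK → M.OK D → Grid M.b δ → 1 < T → 1 ≤ P → 0 < e0 → e0 ≤ 1 → 0 < η → η ≤ 1 / 2 →
    ∃ f : Fr K, f.T = T ∧ f.P = P ∧ f.e0 = e0 ∧ f.OK M ∧ f.N1.Prime ∧ N0 ≤ f.N1 ∧ L0 ≤ f.L1 ∧
      GrOK M.b δ f.L f.N1 e0 η ∧ f.B.Nonempty ∧
      δ * e0 ^ rk K * (f.N1 : ℝ) ^ rk K / (2 * f.L) ≤ f.B.card ∧
      ∀ (A : FI K), ∀ o ∈ f.B, ∀ i < f.L1,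
        |(((f.r A).2 + o.2 + i : ℤ) : ℝ) * P / f.N1 - Real.log (nI A) / Real.log T|
          ≤ 3 * rk K * e0 / Real.log T

def St_DENS : Prop :=
  ∀ (K : Type) [Field K] [NumberField K] (D : ND K) (M : Mdl K) (f : Fr K) (δ C cm : ℝ) (j : ℕ)
    (ι : Type) (S : Finset ι) (Pt : ι → FI K) (p : ι → ℕ), D.OK → M.OK D → f.OK M →
    Rough D M δ f.T C j → 0 < δ → 0 < C → 1 ≤ j → Win D.F f.T S Pt p → 0 < cm → cm ≤ mass S p →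
    1 / f.T ≤ 7 * j * f.e0 → 7 * j * f.e0 ≤ 1 / 8 → j + 1 ≤ f.P → (rk K : ℝ) < Real.log f.T →
    δ * f.e0 ^ rk K * (f.N1 : ℝ) ^ rk K / (2 * f.L) ≤ f.B.card →
    ∀ τ, fden S (wt S p) f.B f.L1 (fh M Pt) (fv f Pt) (fl f Pt) j τ
      ≤ 2 * C * (7 * j) ^ rk K * (j : ℝ) ^ j / cm ^ j * f.P

/-- common data of the two comparison statements -/
structure Tgt {K : Type} [Field K] [NumberField K] (D : ND K) (M : Mdl K) (f : Fr K) {ι : Type}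
    (Mj : Finset ι) (Pt : ι → FI K) (p : ι → ℕ) (k : ℕ) (X : Finset ι) (A0 Bz : FI K) (z g0 : K)
    (ζ : EK K) (ρ : InfinitePlace K → ℝ) (ε2 : ℝ) : Prop where
  ok : D.OK
  mok : M.OK D
  fok : f.OK M
  win : Win D.F f.T Mj Pt p
  ne : Mj.Nonempty
  sub : X ⊆ Mj
  inj : Set.InjOn p (X : Set ι)
  card : X.card ≤ k
  cop : Cop D.F A0
  un : D.Un z
  div : IsDiv z Bz
  mem : g0 ∈ D.L A0
  cg : D.Cg g0 z
  g0ne : g0 ≠ 0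
  log : cexp ζ = emb (g0 / z)
  rad : ∀ w, 0 < ρ w ∧ ρ w ≤ ε2
  e2 : ε2 ≤ 1 / 4
  fin : (D.Bl A0 D.Q g0 (emb g0) ρ).Finite

/-- the archimedean target -/
noncomputable def zX {K : Type} [Field K] [NumberField K] (M : Mdl K) {ι : Type} (Pt : ι → FI K)
    (X : Finset ι) (A0 Bz : FI K) (ζ : EK K) : EK K := ζ - M.Ψ (A0 * (∏ x ∈ X, Pt x) * Bz⁻¹)

/-- the target class -/
noncomputable def hX {K : Type} [Field K] [NumberField K] (M : Mdl K) {ι : Type} (Pt : ι → FI K)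
    (X : Finset ι) (A0 Bz : FI K) : M.H := M.cl Bz - M.cl A0 - ∑ x ∈ X, M.cl (Pt x)

def St_TUPU : Prop :=
  ∀ (K : Type) [Field K] [NumberField K] (D : ND K) (M : Mdl K) (f : Fr K) (ι : Type)
    (Mj : Finset ι) (Pt : ι → FI K) (p : ι → ℕ) (k : ℕ) (X : Finset ι) (A0 Bz : FI K) (z g0 : K)
    (ζ : EK K) (ρ : InfinitePlace K → ℝ) (ε2 : ℝ) (Gd : Finset (GC K)),
    Tgt D M f Mj Pt p k X A0 Bz z g0 ζ ρ ε2 →
    (∀ a, f.gm M a ∈ Dsa (zX M Pt X A0 Bz ζ) (fun w => ρ w * (1 + 2 * ε2) + 3 * k * f.e0) →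
      a ∈ Gd) →
    nSpl D A0 Mj Pt p k X g0 ρ * (k - X.card).factorial * (nI A0 * ∏ x ∈ X, (p x : ℝ)) /
        (mass Mj p ^ (k - X.card) * (1 + ε2) ^ rk K * Nv (emb g0))
      ≤ ∑ a ∈ Gd, tupP (Mj ×ˢ f.B ×ˢ range f.L1) (wn Mj p f.B f.L1)
          (fpos (fh M Pt) (fv f Pt) (fl f Pt)) (k - X.card) (gpos f M (hX M Pt X A0 Bz) a)

def St_TUPL : Prop :=
  ∀ (K : Type) [Field K] [NumberField K] (D : ND K) (M : Mdl K) (f : Fr K) (ι : Type)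
    (Mj : Finset ι) (Pt : ι → FI K) (p : ι → ℕ) (k : ℕ) (X : Finset ι) (A0 Bz : FI K) (z g0 : K)
    (ζ : EK K) (ρ : InfinitePlace K → ℝ) (ε2 : ℝ) (Gd : Finset (GC K)),
    Tgt D M f Mj Pt p k X A0 Bz z g0 ζ ρ ε2 →
    (∀ a ∈ Gd, f.gm M a ∈ Dsa (zX M Pt X A0 Bz ζ) (fun w => ρ w * (1 - ε2) - 3 * k * f.e0)) →
    0 ≤ nm (zX M Pt X A0 Bz ζ) → nm (zX M Pt X A0 Bz ζ) ≤ (2 * k + 1) * Real.log f.T →
    (2 * k + 1) * Real.log f.T + rk K < f.L →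
    ∑ a ∈ Gd, tupQ (Mj ×ˢ f.B ×ˢ range f.L1) (wn Mj p f.B f.L1)
          (fpos (fh M Pt) (fv f Pt) (fl f Pt)) (fun y => p y.1) (X.image p) (k - X.card)
          (gpos f M (hX M Pt X A0 Bz) a)
      ≤ nSpl D A0 Mj Pt p k X g0 ρ * (k - X.card).factorial * (nI A0 * ∏ x ∈ X, (p x : ℝ)) /
        (mass Mj p ^ (k - X.card) * (1 - ε2) ^ rk K * Nv (emb g0))

/-- the error term of the local limit theorem -/
noncomputable def terr (K : ℝ) (k : ℕ) (b1 b2 η ε2 : ℝ) : ℝ :=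
  K * Real.sqrt k * ((1 - b2 / 2) ^ k + k * (Real.sqrt (b1 + η) + ε2))

open Classical in
/-- The local limit theorem for one number field: the output of section N. -/
def St_TUP : Prop :=
  ∀ (n : ℕ) (u c0 : ℝ), 0 < c0 → ∃ (C1 P0 k0 : ℕ) (b0 K0 : ℝ), 2 ≤ C1 ∧ 0 < b0 ∧ 0 < K0 ∧
  ∀ (P : ℕ) (η : ℝ), P0 ≤ P → 0 < η → η ≤ b0 → ∃ T0 : ℝ, ∀ T : ℝ, T0 ≤ T →
  ∀ (K : Type) [Field K] [NumberField K] (D : ND K), rk K = n → D.OK → D.Δ ≤ T ^ u →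
  ∀ (ι κ : Type) (S : Finset ι) (Pt : ι → FI K) (p : ι → ℕ) (Sb : Finset κ) (wb ab : κ → ℝ)
    (mb Sg ε : ℝ), Win D.F T S Pt p → c0 ≤ mb → Law Sb wb ab c0 →
    (∀ t ∈ frq P, ‖chf S (fun x => 1 / (mb * p x)) (fun x => Real.log (p x) / Real.log T) (t / P) -
      chf Sb wb ab (t / P)‖ ≤ η) →
    (∀ i : ℕ, i ≤ 2 → |∑ x ∈ S, 1 / (mb * p x) * (Real.log (p x) / Real.log T) ^ i -
      ∑ y ∈ Sb, wb y * ab y ^ i| ≤ η) →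
    SgB K D.F T Sg → 1 / Real.sqrt T ≤ ε →
  ∃ Z : Finset ℝ, Z.card ≤ C1 ∧ ∀ b1 b2 : ℝ, 0 < b1 → b2 ≤ b0 → K0 * Real.sqrt (b1 + η) ≤ b2 →
    (∀ β ∈ Z, β ≤ b1 ∨ b2 < β) →
  ∃ Mj : Finset ι, Mj ⊆ S ∧ ∑ x ∈ S \ Mj, 1 / (mb * p x) ≤ K0 * Real.sqrt (b1 + η) ∧
  ∀ k : ℕ, k0 ≤ k → C1.factorial ∣ k → 3 * k ≤ P →
  ∃ κ0 : ℝ, 1 / (K0 ^ k * k.factorial * Real.exp Sg) ≤ κ0 ∧
  ∀ (A1 : FI K) (z g0 : K) (ρ : InfinitePlace K → ℝ) (ε2 : ℝ) (X : Finset ι),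
    Cop D.F A1 → D.Un z → g0 ∈ D.L (A1 ^ C1.factorial) → D.Cg g0 (z ^ C1.factorial) →
    (∀ w, ε ≤ ρ w ∧ ρ w ≤ ε2) →
    |Real.log (Nv (emb g0) / nI (A1 ^ C1.factorial)) / Real.log T - k * ∑ y ∈ Sb, wb y * ab y| ≤ η →
    X ⊆ Mj → Set.InjOn p (X : Set ι) → X.card ≤ 2 → terr K0 k b1 b2 η ε2 ≤ 1 →
    (D.Bl (A1 ^ C1.factorial) D.Q g0 (emb g0) ρ).Finite ∧
    |nSpl D (A1 ^ C1.factorial) Mj Pt p k X g0 ρ /
          (κ0 * (D.Bl (A1 ^ C1.factorial) D.Q g0 (emb g0) ρ).ncard) -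
        k.descFactorial X.card *
          (Dm Sb wb ab P (k - X.card) (k * ∑ y ∈ Sb, wb y * ab y -
              ∑ x ∈ X, Real.log (p x) / Real.log T) /
            Dm Sb wb ab P k (k * ∑ y ∈ Sb, wb y * ab y)) * ∏ x ∈ X, 1 / (mb * p x)|
      ≤ terr K0 k b1 b2 η ε2 * (k : ℝ) ^ X.card * ∏ x ∈ X, 1 / (mb * p x)

end Pool.Agent.Lib.BK2.NT
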