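import Pool.Agent.Lib.BK2.NBlue
import Pool.Agent.Lib.BK2.NRHO

namespace Pool.Agent.Lib.BK2.NT

open Finset NumberField

namespace DENS

variable {K : Type} [Field K] [NumberField K]

/-- `gam` as a homomorphism -/
noncomputable def gamH (b : Fin (rk K - 1) → EK K) (L : ℝ) (N1 : ℕ) : GC K →+ EK K :=
  AddMonoidHom.mk' (gam b L N1) fun a a' => by
    simp only [gam, Prod.fst_add, Prod.snd_add, Pi.add_apply, Int.cast_add, add_smul, add_mul,
      Finset.sum_add_distrib, smul_add]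
    abel

theorem nm_one (hc : 2 * Fintype.card (InfinitePlace K) = rk K) :
    nm (fun _ : InfinitePlace K => (1 : ℂ)) = rk K := by
  rw [← hc]
  simp [nm]

theorem nm_le (hc : 2 * Fintype.card (InfinitePlace K) = rk K) (z : EK K) :
    |nm z| ≤ rk K * ‖z‖ := by
  rw [nm, abs_mul, abs_two, ← hc]
  push_cast
  rw [mul_assoc]
  refine mul_le_mul_of_nonneg_left ((Finset.abs_sum_le_sum_abs _ _).trans ?_) zero_le_two
  refine (Finset.sum_le_sum fun w _ => (Complex.abs_re_le_norm _).trans (norm_le_pi_norm z w)).trans ?_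
  simp

theorem nm_Lu {b : Fin (rk K - 1) → EK K} (hb : ∀ i, nm (b i) = 0) {l : EK K} (hl : l ∈ Lu b) :
    nm l = 0 := by
  induction hl using Submodule.span_induction with
  | mem x hx => obtain ⟨i, rfl⟩ := hx; exact hb i
  | zero => simp [nm]
  | add x y _ _ h1 h2 => rw [RHO.nm_add, h1, h2, add_zero]
  | smul c x _ h => rw [← Int.cast_smul_eq_zsmul ℝ, RHO.nm_smul, h, mul_zero]

/-- congruent grid points whose difference has small norm differ by the logarithm of a unit -/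
theorem per (hc : 2 * Fintype.card (InfinitePlace K) = rk K) {b : Fin (rk K - 1) → EK K}
    (hb : ∀ i, nm (b i) = 0) {L : ℝ} {N1 : ℕ} (hN : 1 ≤ N1) {a a' : GC K}
    (h1 : ∀ i, (a.1 i : ZMod N1) = a'.1 i) (h2 : (a.2 : ZMod N1) = a'.2)
    (h3 : |nm (gam b L N1 a - gam b L N1 a')| < L) :
    ∃ c : Fin (rk K - 1) → ℤ, (∀ i, a.1 i - a'.1 i = N1 * c i) ∧ a.2 = a'.2 ∧
      gam b L N1 a - gam b L N1 a' = ∑ i, c i • b i := by
  choose c hc1 using fun i => (ZMod.intCast_eq_intCast_iff_dvd_sub _ _ _).1 (h1 i).symm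
  obtain ⟨c2, hc2⟩ := (ZMod.intCast_eq_intCast_iff_dvd_sub _ _ _).1 h2.symm
  have hN0 : (N1 : ℝ) ≠ 0 := by positivity
  have hn : (rk K : ℝ) ≠ 0 := by
    have : 0 < rk K := Module.finrank_pos
    positivity
  have e : gam b L N1 a - gam b L N1 a' =
      ∑ i, c i • b i + ((c2 : ℝ) * (L / rk K)) • (fun _ => (1 : ℂ)) := by
    rw [← show gam b L N1 (a - a') = gam b L N1 a - gam b L N1 a' from map_sub (gamH b L N1) a a',
      gam, smul_add, Finset.smul_sum, smul_smul, Prod.snd_sub, hc2]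
    congr 1
    · refine Finset.sum_congr rfl fun i _ => ?_
      rw [Prod.fst_sub, Pi.sub_apply, hc1, smul_smul, ← Int.cast_smul_eq_zsmul ℝ]
      congr 1
      push_cast
      field_simp
    · congr 1
      push_cast
      field_simp
  have hl : ∑ i, c i • b i ∈ Lu b :=
    Submodule.sum_mem _ fun i _ => Submodule.smul_mem _ _ (Submodule.subset_span ⟨i, rfl⟩)
  rw [e, RHO.nm_add, nm_Lu hb hl, RHO.nm_smul, nm_one hc, zero_add, mul_assoc,
    div_mul_cancel₀ _ hn, abs_mul] at h3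
  have hL : 0 < L := lt_of_le_of_lt (by positivity) h3
  rw [abs_of_pos hL] at h3
  have h4 : |(c2 : ℝ)| < 1 := by nlinarith
  have h5 : c2 = 0 := Int.abs_lt_one_iff.1 (by exact_mod_cast h4)
  refine ⟨c, hc1, by rw [h5] at hc2; linarith, ?_⟩
  rw [e, h5]
  simp

theorem prod_facts {D : ND K} (hB : Bas D) {M : Mdl K} (hM : M.OK D) {I : Type} (s : Finset I)
    (Pt : I → FI K) (p : I → ℕ) (h : ∀ i ∈ s, IsPt D.F (Pt i) (p i)) :
    Cop D.F (∏ i ∈ s, Pt i) ∧ Itg (∏ i ∈ s, Pt i) ∧ nI (∏ i ∈ s, Pt i) = ∏ i ∈ s, (p i : ℝ) ∧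
      M.cl (∏ i ∈ s, Pt i) = ∑ i ∈ s, M.cl (Pt i) ∧
      M.Ψ (∏ i ∈ s, Pt i) - ∑ i ∈ s, M.Ψ (Pt i) ∈ Lu M.b := by
  classical
  induction s using Finset.induction_on with
  | empty =>
    have h1 := hM.cl.1 1 1 hB.cop_one hB.cop_one
    have h2 := (Lu M.b).neg_mem (hM.ps.2.1 1 1)
    rw [mul_one] at h1 h2
    refine ⟨hB.cop_one, le_rfl, hB.nI_one, by simpa using h1, by simpa using h2⟩
  | insert i s hi ih =>
    obtain ⟨h1, h2, h3, h4, h5⟩ := ih fun i hi => h i (mem_insert_of_mem hi)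
    obtain ⟨g1, g2, -, g3⟩ := hB.pt _ _ (h i (mem_insert_self _ _))
    rw [prod_insert hi, prod_insert hi, sum_insert hi, sum_insert hi]
    refine ⟨hB.cop_mul _ _ g1 h1, mul_le_one' g2 h2, by rw [hB.nI_mul, g3, h3],
      by rw [hM.cl.1 _ _ g1 h1, h4], ?_⟩
    have h6 := (Lu M.b).add_mem (hM.ps.2.1 (Pt i) (∏ i ∈ s, Pt i)) h5
    rwa [show M.Ψ (Pt i * ∏ i ∈ s, Pt i) - M.Ψ (Pt i) - M.Ψ (∏ i ∈ s, Pt i) +
      (M.Ψ (∏ i ∈ s, Pt i) - ∑ i ∈ s, M.Ψ (Pt i)) =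
      M.Ψ (Pt i * ∏ i ∈ s, Pt i) - (M.Ψ (Pt i) + ∑ i ∈ s, M.Ψ (Pt i)) by abel] at h6

/-- the grid point of a noisy point -/
def ga {ι : Type} (f : Fr K) (Pt : ι → FI K) (y : ι × GC K × ℕ) : GC K :=
  f.r (Pt y.1) + y.2.1 + (0, (y.2.2 : ℤ))

theorem sum_fpos {ι I : Type} (f : Fr K) (M : Mdl K) (Pt : ι → FI K) (s : Finset I)
    (y : I → ι × GC K × ℕ) : ∑ i ∈ s, fpos (fh M Pt) (fv f Pt) (fl f Pt) (y i) =
      gpos f M (∑ i ∈ s, M.cl (Pt (y i).1)) (∑ i ∈ s, ga f Pt (y i)) := by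
  refine Prod.ext ?_ (Prod.ext (funext fun k => ?_) ?_)
  · simp [fpos, gpos, fh, Prod.fst_sum]
  · simp [fpos, gpos, fv, ga, Prod.fst_sum, Prod.snd_sum]
  · simp [fpos, gpos, fl, ga, Prod.snd_sum]

theorem near {ι : Type} {f : Fr K} {M : Mdl K} (hf : f.OK M) (Pt : ι → FI K) (y : ι × GC K × ℕ)
    (h1 : y.2.1 ∈ f.B) (h2 : y.2.2 < f.L1) :
    ‖M.Ψ (Pt y.1) - f.gm M (ga f Pt y)‖ ≤ 3 * f.e0 := by
  have e : f.gm M (ga f Pt y) = f.gm M (f.r (Pt y.1)) + f.gm M y.2.1 +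
      f.gm M (0, (y.2.2 : ℤ)) := by
    change gamH M.b f.L f.N1 _ = gamH M.b f.L f.N1 _ + gamH M.b f.L f.N1 _ + gamH M.b f.L f.N1 _
    rw [← map_add, ← map_add]
    rfl
  have hL : 0 ≤ f.L := mul_nonneg (Nat.cast_nonneg _) (Real.log_nonneg hf.T1.le)
  have h3 : ‖f.gm M (0, (y.2.2 : ℤ))‖ ≤ f.e0 := by
    refine le_trans ?_ hf.L1e
    rw [Fr.gm, gam]
    simp only [Pi.zero_apply, Int.cast_zero, zero_smul, Finset.sum_const_zero, zero_add, smul_smul,
      Int.cast_natCast]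
    refine (pi_norm_le_iff_of_nonneg (by positivity)).2 fun w => ?_
    rw [Pi.smul_apply, norm_smul, norm_one, mul_one, Real.norm_of_nonneg (by positivity)]
    calc 1 / (f.N1 : ℝ) * (y.2.2 * (f.L / rk K)) = y.2.2 * (f.L / (rk K * f.N1)) := by
          rw [div_mul_eq_div_div]; ring
      _ ≤ _ := mul_le_mul_of_nonneg_right (by exact_mod_cast h2.le) (by positivity)
  have h4 := hf.rnd (Pt y.1)
  have h5 := (hf.memB _).1 h1
  rw [e, ← sub_sub, ← sub_sub]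
  linarith [norm_sub_le (M.Ψ (Pt y.1) - f.gm M (f.r (Pt y.1)) - f.gm M y.2.1)
    (f.gm M (0, (y.2.2 : ℤ))), norm_sub_le (M.Ψ (Pt y.1) - f.gm M (f.r (Pt y.1))) (f.gm M y.2.1)]

/-- distinct noise vectors are not congruent -/
theorem sep (hc : 2 * Fintype.card (InfinitePlace K) = rk K) {D : ND K} {f : Fr K} {M : Mdl K}
    (hM : M.OK D) (hf : f.OK M) (he : f.e0 ≤ 1 / 8) (hn : (rk K : ℝ) < Real.log f.T) {o o' : GC K}
    (ho : o ∈ f.B) (ho' : o' ∈ f.B) (h1 : ∀ i, (o.1 i : ZMod f.N1) = o'.1 i)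
    (h2 : (o.2 : ZMod f.N1) = o'.2) : o = o' := by
  have h3 : ‖f.gm M o - f.gm M o'‖ < 1 / 2 := by
    linarith [norm_sub_le (f.gm M o) (f.gm M o'), (hf.memB _).1 ho, (hf.memB _).1 ho']
  have hP : (1 : ℝ) ≤ f.P := by exact_mod_cast hf.P1
  have hn0 : (0 : ℝ) ≤ rk K := Nat.cast_nonneg _
  obtain ⟨c, g1, g2, g3⟩ := per hc hM.lu.2.1 (L := f.L) hf.N1 h1 h2 (by
    refine (nm_le hc _).trans_lt ?_
    have := mul_le_mul_of_nonneg_left h3.le hn0
    rw [Fr.L]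
    change rk K * ‖f.gm M o - f.gm M o'‖ < _
    nlinarith)
  have hl : ∑ i, c i • M.b i ∈ Lu M.b :=
    Submodule.sum_mem _ fun i _ => Submodule.smul_mem _ _ (Submodule.subset_span ⟨i, rfl⟩)
  have h4 := hM.lu.2.2.2 _ hl (g3 ▸ h3)
  have h5 := Fintype.linearIndependent_iff.1 hM.lu.1 (fun i => (c i : ℝ)) (by
    simpa only [Int.cast_smul_eq_zsmul] using h4)
  refine Prod.ext (funext fun i => ?_) g2
  have h6 : c i = 0 := by exact_mod_cast h5 i
  have h7 := g1 i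
  rw [h6, mul_zero] at h7
  linarith

/-- two tuples with the same image have close products -/
theorem close (hc : 2 * Fintype.card (InfinitePlace K) = rk K) {D : ND K} (hB : Bas D) {f : Fr K}
    {M : Mdl K} (hM : M.OK D) (hf : f.OK M) {j : ℕ} (hj : 1 ≤ j) (he : 7 * j * f.e0 ≤ 1 / 8)
    (hP : j + 1 ≤ f.P) (hn : (rk K : ℝ) < Real.log f.T) {ι : Type} {S : Finset ι}
    {Pt : ι → FI K} {p : ι → ℕ} (hW : Win D.F f.T S Pt p) {y y' : Fin j → ι × GC K × ℕ}
    (hy : ∀ i, y i ∈ S ×ˢ f.B ×ˢ range f.L1) (hy' : ∀ i, y' i ∈ S ×ˢ f.B ×ˢ range f.L1)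
    (h : ∑ i, fpos (fh M Pt) (fv f Pt) (fl f Pt) (y i) =
      ∑ i, fpos (fh M Pt) (fv f Pt) (fl f Pt) (y' i)) :
    M.cl (∏ i, Pt (y i).1) = M.cl (∏ i, Pt (y' i).1) ∧
      ∃ l ∈ Lu M.b, ‖M.Ψ (∏ i, Pt (y i).1) - M.Ψ (∏ i, Pt (y' i).1) - l‖ < 7 * j * f.e0 := by
  have hT : 0 < f.T := zero_lt_one.trans hf.T1
  have key : ∀ y : Fin j → ι × GC K × ℕ, (∀ i, y i ∈ S ×ˢ f.B ×ˢ range f.L1) →
      M.cl (∏ i, Pt (y i).1) = ∑ i, M.cl (Pt (y i).1) ∧
      M.Ψ (∏ i, Pt (y i).1) - ∑ i, M.Ψ (Pt (y i).1) ∈ Lu M.b ∧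
      ‖∑ i, M.Ψ (Pt (y i).1) - f.gm M (∑ i, ga f Pt (y i))‖ ≤ 3 * j * f.e0 ∧
      j * Real.log f.T ≤ nm (∑ i, M.Ψ (Pt (y i).1)) ∧
      nm (∑ i, M.Ψ (Pt (y i).1)) ≤ 2 * j * Real.log f.T := by
    intro y hy
    simp only [mem_product, mem_range] at hy
    obtain ⟨-, -, -, h4, h5⟩ := prod_facts hB hM univ (fun i => Pt (y i).1) (fun i => p (y i).1)
      fun i _ => (hW.1 _ (hy i).1).1
    have e : f.gm M (∑ i, ga f Pt (y i)) = ∑ i, f.gm M (ga f Pt (y i)) :=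
      map_sum (gamH M.b f.L f.N1) _ _
    have e2 : ∀ i, nm (M.Ψ (Pt (y i).1)) = Real.log (p (y i).1) := fun i => by
      rw [hM.ps.1, (hB.pt _ _ (hW.1 _ (hy i).1).1).2.2.2]
    refine ⟨h4, h5, ?_, ?_, ?_⟩
    · rw [e, ← sum_sub_distrib]
      refine (norm_sum_le _ _).trans ((sum_le_sum fun i _ =>
        near hf Pt (y i) (hy i).2.1 (hy i).2.2).trans ?_)
      simp only [sum_const, card_univ, Fintype.card_fin, nsmul_eq_mul]
      linarith
    · rw [RHO.nm_sum]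
      refine le_trans ?_ (sum_le_sum (f := fun _ => Real.log f.T) fun i _ => by
        rw [e2]; exact Real.log_le_log hT (hW.1 _ (hy i).1).2.1)
      simp
    · rw [RHO.nm_sum]
      refine le_trans (sum_le_sum (g := fun _ => 2 * Real.log f.T) fun i _ => ?_) ?_
      · have h6 := hW.1 _ (hy i).1
        have h7 := Real.log_le_log (hT.trans_le h6.2.1) h6.2.2
        rw [Real.log_pow] at h7
        rw [e2]
        exact_mod_cast h7
      · simp only [sum_const, card_univ, Fintype.card_fin, nsmul_eq_mul]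
        linarith
  obtain ⟨a1, a2, a3, a4, a5⟩ := key y hy
  obtain ⟨b1, b2, b3, b4, b5⟩ := key y' hy'
  rw [sum_fpos, sum_fpos] at h
  obtain ⟨c1, c2⟩ := Prod.ext_iff.1 h
  obtain ⟨c2, c3⟩ := Prod.ext_iff.1 c2
  set u := ∑ i, M.Ψ (Pt (y i).1)
  set u' := ∑ i, M.Ψ (Pt (y' i).1)
  set v := f.gm M (∑ i, ga f Pt (y i)) with hv
  set v' := f.gm M (∑ i, ga f Pt (y' i)) with hv'
  have h6 : ‖u - v - (u' - v')‖ ≤ 6 * j * f.e0 := by linarith [norm_sub_le (u - v) (u' - v')]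
  have hj' : (1 : ℝ) ≤ j := by exact_mod_cast hj
  have hP' : (j : ℝ) + 1 ≤ f.P := by exact_mod_cast hP
  have hn0 : (0 : ℝ) ≤ rk K := Nat.cast_nonneg _
  have he0 := hf.e0
  obtain ⟨c, -, -, g3⟩ := per hc hM.lu.2.1 (L := f.L) hf.N1 (congrFun c2) c3 (by
    change |nm (v - v')| < f.P * Real.log f.T
    have h7 : nm (v - v') = nm u - nm u' - nm (u - v - (u' - v')) := by
      simp only [RHO.nm_sub]; ring
    have h8 := abs_le.1 (nm_le hc (u - v - (u' - v')))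
    have h9 : rk K * ‖u - v - (u' - v')‖ ≤ rk K * 1 :=
      mul_le_mul_of_nonneg_left (by nlinarith) hn0
    have h10 := mul_le_mul_of_nonneg_right hP' (hn0.trans hn.le)
    rw [h7, abs_lt]
    constructor <;> linarith [h8.1, h8.2])
  have hl : v - v' ∈ Lu M.b := by
    rw [show v - v' = _ from g3]
    exact Submodule.sum_mem _ fun i _ => Submodule.smul_mem _ _ (Submodule.subset_span ⟨i, rfl⟩)
  refine ⟨by rw [a1, b1]; exact c1, _, (Lu M.b).add_mem ((Lu M.b).sub_mem a2 b2) hl, ?_⟩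
  rw [show M.Ψ (∏ i, Pt (y i).1) - M.Ψ (∏ i, Pt (y' i).1) -
    (M.Ψ (∏ i, Pt (y i).1) - u - (M.Ψ (∏ i, Pt (y' i).1) - u') + (v - v')) =
    u - v - (u' - v') by abel]
  nlinarith

end DENS

open DENS in
theorem stDENS (hBas : St_BAS) (hE : St_EMB) : St_DENS := by
  classical
  intro K _ _ D M f δ C cm j ι S Pt p hD hM hf hR hδ hC hj hW hcm hms h1 h2 hP hn hBc τ
  have hB := hBas K D hD
  have hc := (hE K hD.tc).1
  obtain ⟨j, rfl⟩ : ∃ j', j = j' + 1 := ⟨j - 1, by omega⟩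
  have hT : 0 < f.T := zero_lt_one.trans hf.T1
  have hlT : 0 < Real.log f.T := Real.log_pos hf.T1
  have hm : 0 < mass S p := hcm.trans_le hms
  have he0 := hf.e0
  have hN : (0 : ℝ) < f.N1 := by exact_mod_cast hf.N1
  have hL1 : (0 : ℝ) < f.L1 := by exact_mod_cast hf.L1
  have hP0 : (0 : ℝ) < f.P := by exact_mod_cast hf.P1
  have hL : 0 < f.L := mul_pos hP0 hlT
  have hB0 : (0 : ℝ) < f.B.card := lt_of_lt_of_le (by positivity) hBc
  have hH : (0 : ℝ) < Fintype.card M.H := by exact_mod_cast Fintype.card_pos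
  have hw : ∑ x ∈ S, wt S p x = 1 := by
    simp only [wt]
    rw [← sum_div]
    exact div_self hm.ne'
  set Y := (Fintype.piFinset fun _ : Fin (j + 1) => S ×ˢ f.B ×ˢ range f.L1).filter
    fun y => ∑ i, fpos (fh M Pt) (fv f Pt) (fl f Pt) (y i) = τ with hY
  have hmem : ∀ y ∈ Y, (∀ i, y i ∈ S ×ˢ f.B ×ˢ range f.L1) ∧
      ∑ i, fpos (fh M Pt) (fv f Pt) (fl f Pt) (y i) = τ := fun y hy =>
    ⟨Fintype.mem_piFinset.1 (mem_filter.1 hy).1, (mem_filter.1 hy).2⟩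
  set X := Y.image fun y i => (y i).1 with hX
  have hXS : ∀ x ∈ X, ∀ i, x i ∈ S := fun x hx i => by
    obtain ⟨y, hy, rfl⟩ := mem_image.1 hx
    exact (mem_product.1 ((hmem y hy).1 i)).1
  have hpf := fun x (hx : x ∈ X) => prod_facts hB hM univ (fun i => Pt (x i)) (fun i => p (x i))
    fun i _ => (hW.1 _ (hXS x hx i)).1
  -- the rough ideals
  have s1 : ∑ A ∈ X.image fun x => ∏ i, Pt (x i), 1 / nI A ≤
      C * (7 * (j + 1 : ℕ) * f.e0) ^ rk K * δ / (Fintype.card M.H * Real.log f.T) := by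
    rcases Y.eq_empty_or_nonempty with h0 | ⟨y0, hy0⟩
    · rw [hX, h0, image_empty, image_empty, sum_empty]
      positivity
    have hx0 : (fun i => (y0 i).1) ∈ X := mem_image_of_mem _ hy0
    refine hR (∏ i, Pt (y0 i).1) _ _ (hpf _ hx0).1 ?_ h1 h2 fun A hA => ?_
    · rw [(hpf _ hx0).2.2.1]
      refine le_trans ?_ (prod_le_prod (f := fun _ => f.T) (fun _ _ => hT.le)
        fun i _ => (hW.1 _ (hXS _ hx0 i)).2.1)
      simp
    · obtain ⟨x, hx, rfl⟩ := mem_image.1 hA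
      refine ⟨(hpf x hx).1, (hpf x hx).2.1, fun P q hq hlt hle => ?_, ?_⟩
      · obtain ⟨i, -, hi⟩ := hB.pt_le _ univ (fun i => Pt (x i)) (fun i => p (x i)) P q
          (fun i _ => (hW.1 _ (hXS x hx i)).1) hq hle
        have g1 := hW.1 _ (hXS x hx i)
        have g2 := (hB.pt _ _ g1.1).2.2.2
        rw [show Pt (x i) = P from hi, (hB.pt _ _ hq).2.2.2] at g2
        linarith [g1.2.1]
      · obtain ⟨y, hy, rfl⟩ := mem_image.1 hx
        exact close hc hB hM hf hj h2 hP hn hW (hmem y hy).1 (hmem y0 hy0).1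
          ((hmem y hy).2.trans (hmem y0 hy0).2.symm)
  -- few tuples have the same product
  have s2 : ∑ x ∈ X, ∏ i, 1 / (p (x i) : ℝ) ≤ ((j + 1 : ℕ) : ℝ) ^ (j + 1) *
      ∑ A ∈ X.image fun x => ∏ i, Pt (x i), 1 / nI A := by
    rw [sum_congr rfl (g := fun x => 1 / nI (∏ i, Pt (x i))) fun x hx => by
      rw [(hpf x hx).2.2.1, prod_div_distrib, prod_const_one],
      sum_comp (fun A : FI K => 1 / nI A) fun x : Fin (j + 1) → ι => ∏ i, Pt (x i), mul_sum]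
    refine sum_le_sum fun A hA => ?_
    obtain ⟨x', hx', rfl⟩ := mem_image.1 hA
    rw [nsmul_eq_mul]
    refine mul_le_mul_of_nonneg_right ?_ (one_div_nonneg.2 (hB.nI_pos _).le)
    have g1 : X.filter (fun x => ∏ i, Pt (x i) = ∏ i, Pt (x' i)) ⊆
        Fintype.piFinset fun _ => univ.image x' := fun x hx => by
      obtain ⟨hx, he⟩ := mem_filter.1 hx
      refine Fintype.mem_piFinset.2 fun i => ?_
      obtain ⟨i', -, hi⟩ := hB.pt_le _ univ (fun i => Pt (x' i)) (fun i => p (x' i)) (Pt (x i))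
        (p (x i)) (fun i _ => (hW.1 _ (hXS x' hx' i)).1) (hW.1 _ (hXS x hx i)).1 (by
          rw [← he, ← mul_prod_erase univ (fun i => Pt (x i)) (mem_univ i), Units.val_mul]
          exact mul_le_of_le_one_right' (prod_facts hB hM _ (fun i => Pt (x i))
            (fun i => p (x i)) fun i _ => (hW.1 _ (hXS x hx i)).1).2.1)
      exact mem_image.2 ⟨i', mem_univ _, hW.2 (hXS _ hx' _) (hXS _ hx _) hi⟩
    have g2 := card_le_card g1
    rw [Fintype.card_piFinset, prod_const, card_univ, Fintype.card_fin] at g2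
    have g3 : (univ.image x').card ≤ j + 1 := card_image_le.trans (by simp)
    exact_mod_cast g2.trans (Nat.pow_le_pow_left g3 _)
  -- the first noise vector is determined by the rest
  have s3 : ∑ y ∈ Y, ∏ i, 1 / (p (y i).1 : ℝ) ≤
      (∑ x ∈ X, ∏ i, 1 / (p (x i) : ℝ)) * ((f.B.card : ℝ) ^ j * (f.L1 : ℝ) ^ (j + 1)) := by
    let ψ : (Fin (j + 1) → ι × GC K × ℕ) → (Fin (j + 1) → ι) × (Fin j → GC K) × (Fin (j + 1) → ℕ) :=
      fun y => (fun i => (y i).1, fun i => (y i.succ).2.1, fun i => (y i).2.2)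
    have hinj : Set.InjOn ψ (Y : Set _) := fun y hy y' hy' he => by
      obtain ⟨e1, e2⟩ := Prod.ext_iff.1 he
      obtain ⟨e2, e3⟩ := Prod.ext_iff.1 e2
      have e4 : ∀ i : Fin j, y i.succ = y' i.succ := fun i =>
        Prod.ext (congrFun e1 _) (Prod.ext (congrFun e2 i) (congrFun e3 _))
      have e5 := (hmem y hy).2.trans (hmem y' hy').2.symm
      rw [Fin.sum_univ_succ, Fin.sum_univ_succ, sum_congr rfl fun i _ => by rw [e4 i],
        add_left_inj] at e5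
      have e6 : (y 0).1 = (y' 0).1 := congrFun e1 0
      have e7 : (y 0).2.2 = (y' 0).2.2 := congrFun e3 0
      obtain ⟨e8, e9⟩ := Prod.ext_iff.1 (Prod.ext_iff.1 e5).2
      have e10 : (y 0).2.1 = (y' 0).2.1 := by
        refine sep hc hM hf ?_ hn (mem_product.1 (mem_product.1 ((hmem y hy).1 0)).2).1
          (mem_product.1 (mem_product.1 ((hmem y' hy').1 0)).2).1 (fun i => ?_) ?_
        · push_cast at h2
          nlinarith [mul_nonneg (Nat.cast_nonneg (α := ℝ) j) he0.le]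
        · simpa [fpos, fv, e6] using congrFun e8 i
        · simpa [fpos, fl, e6, e7] using e9
      funext i
      exact Fin.cases (Prod.ext e6 (Prod.ext e10 e7)) e4 i
    have g1 : ∑ y ∈ Y, ∏ i, 1 / (p (y i).1 : ℝ) = ∑ z ∈ Y.image ψ, ∏ i, 1 / (p (z.1 i) : ℝ) :=
      (sum_image (f := fun z : (Fin (j + 1) → ι) × (Fin j → GC K) × (Fin (j + 1) → ℕ) =>
        ∏ i, 1 / (p (z.1 i) : ℝ)) hinj).symm
    rw [g1]
    refine (sum_le_sum_of_subset_of_nonneg (t := X ×ˢ (Fintype.piFinset fun _ => f.B) ×ˢ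
      Fintype.piFinset fun _ => range f.L1) (fun z hz => ?_) fun z _ _ => by positivity).trans ?_
    · obtain ⟨y, hy, rfl⟩ := mem_image.1 hz
      have g2 := (hmem y hy).1
      simp only [mem_product] at g2
      exact mem_product.2 ⟨mem_image_of_mem _ hy, mem_product.2
        ⟨Fintype.mem_piFinset.2 fun i => (g2 _).2.1, Fintype.mem_piFinset.2 fun i => (g2 _).2.2⟩⟩
    · rw [sum_product, sum_mul]
      refine le_of_eq (sum_congr rfl fun x _ => ?_)
      simp only [sum_const, card_product, Fintype.card_piFinset, prod_const, card_univ,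
        Fintype.card_fin, card_range, nsmul_eq_mul]
      push_cast
      ring
  have s4 : tupP (S ×ˢ f.B ×ˢ range f.L1)
      (fun y => wt S p y.1 / ((∑ x ∈ S, wt S p x) * f.B.card * f.L1))
      (fpos (fh M Pt) (fv f Pt) (fl f Pt)) (j + 1) τ =
      (∑ y ∈ Y, ∏ i, 1 / (p (y i).1 : ℝ)) / (mass S p * f.B.card * f.L1) ^ (j + 1) := by
    rw [tupP, hY, sum_filter, sum_div]
    refine sum_congr rfl fun y _ => ?_
    split_ifs
    · rw [hw, ← Fin.prod_const, ← prod_div_distrib]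
      refine prod_congr rfl fun i _ => ?_
      rw [wt]
      field_simp
    · simp
  have hrk : rk K - 1 + 1 = rk K := Nat.sub_add_cancel Module.finrank_pos
  rw [fden, s4, hrk]
  have s5 := s3.trans (mul_le_mul_of_nonneg_right (s2.trans
    (mul_le_mul_of_nonneg_left s1 (by positivity))) (by positivity))
  refine (mul_le_mul_of_nonneg_left (div_le_div_of_nonneg_right s5 (by positivity))
    (by positivity)).trans ?_
  have s6 : δ * f.e0 ^ rk K * (f.N1 : ℝ) ^ rk K / f.B.card ≤ 2 * (f.P * Real.log f.T) := by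
    rw [div_le_iff₀ (by positivity)] at hBc
    rw [div_le_iff₀ hB0]
    rw [Fr.L] at hBc
    linarith
  have s7 : 1 / mass S p ^ (j + 1) ≤ 1 / cm ^ (j + 1) :=
    one_div_le_one_div_of_le (by positivity) (pow_le_pow_left₀ hcm.le hms _)
  calc _ = C * (7 * ((j + 1 : ℕ) : ℝ)) ^ rk K * ((j + 1 : ℕ) : ℝ) ^ (j + 1) / Real.log f.T *
        ((δ * f.e0 ^ rk K * (f.N1 : ℝ) ^ rk K / f.B.card) * (1 / mass S p ^ (j + 1))) := by
        simp only [mul_pow, pow_succ (f.B.card : ℝ)]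
        field_simp
    _ ≤ C * (7 * ((j + 1 : ℕ) : ℝ)) ^ rk K * ((j + 1 : ℕ) : ℝ) ^ (j + 1) / Real.log f.T *
        (2 * (f.P * Real.log f.T) * (1 / cm ^ (j + 1))) :=
        mul_le_mul_of_nonneg_left (mul_le_mul s6 s7 (by positivity) (by positivity)) (by positivity)
    _ = _ := by field_simp

end Pool.Agent.Lib.BK2.NT
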