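import Mathlib

/-!
Section N: one number field. Lattices cut out by an order, the finite model of the Arakelov ray
class group, and the statements of the blocks.
-/

namespace Pool.Agent.Lib.BK2.NT

open Finset NumberField

/-- invertible fractional ideals -/
abbrev FI (K : Type) [Field K] [NumberField K] : Type :=
  (FractionalIdeal (nonZeroDivisors (RingOfIntegers K)) K)ˣ

/-- the archimedean space -/
abbrev EK (K : Type) [Field K] : Type := InfinitePlace K → ℂ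

/-- the degree -/
noncomputable abbrev rk (K : Type) [Field K] [NumberField K] : ℕ := Module.finrank ℚ K

/-- grid coordinates -/
abbrev GC (K : Type) [Field K] [NumberField K] : Type := (Fin (rk K - 1) → ℤ) × ℤ

section
variable {K : Type} [Field K] [NumberField K]

noncomputable def emb (g : K) : EK K := fun w => w.embedding g
noncomputable def cexp (z : EK K) : EK K := fun w => Complex.exp (z w)
/-- logarithm of the norm of `cexp z` -/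
noncomputable def nm (z : EK K) : ℝ := 2 * ∑ w, (z w).re
/-- norm of an archimedean vector -/
noncomputable def Nv (y : EK K) : ℝ := ∏ w, ‖y w‖ ^ 2
/-- norm of a fractional ideal -/
noncomputable def nI (A : FI K) : ℝ := ((FractionalIdeal.absNorm A.1 : ℚ) : ℝ)
/-- `A` is prime to `F` -/
def Cop (F : ℕ) (A : FI K) : Prop :=
  ∃ s : ℕ, s.Coprime F ∧ (s : K) ∈ A.1 ∧ (s : K) ∈ (A⁻¹ : FI K).1
/-- `A` is generated by `g` -/
def IsDiv (g : K) (A : FI K) : Prop := A.1 = FractionalIdeal.spanSingleton _ g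
/-- `A` is an integral ideal -/
def Itg (A : FI K) : Prop := A.1 ≤ 1
/-- `P` is a prime ideal -/
def IsPr (P : FI K) : Prop :=
  ∃ I : Ideal (RingOfIntegers K), I.IsPrime ∧ (I : FractionalIdeal _ K) = P.1
/-- `P` is a prime ideal of prime norm `p` not dividing `F` -/
def IsPt (F : ℕ) (P : FI K) (p : ℕ) : Prop :=
  p.Prime ∧ ¬ p ∣ F ∧
    ∃ I : Ideal (RingOfIntegers K), (I : FractionalIdeal _ K) = P.1 ∧ Ideal.absNorm I = p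
/-- polydisc with relative radii -/
def Dsc (y : EK K) (ρ : InfinitePlace K → ℝ) : Set (EK K) := {z | ∀ w, ‖z w - y w‖ < ρ w * ‖y w‖}
/-- polydisc with absolute radii -/
def Dsa (y : EK K) (ρ : InfinitePlace K → ℝ) : Set (EK K) := {z | ∀ w, ‖z w - y w‖ < ρ w}
end

/-- an order localised at the primes of `F`, a modulus `Q`, and a size bound -/
structure ND (K : Type) [Field K] [NumberField K] where
  R : Subring K
  F : ℕ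
  Q : ℕ
  Δ : ℝ
  om : Fin (rk K) → K

/-- the model of the ray class group -/
structure Mdl (K : Type) [Field K] [NumberField K] where
  H : Type
  [ab : AddCommGroup H]
  [fin : Fintype H]
  cl : FI K → H
  Ψ : FI K → EK K
  b : Fin (rk K - 1) → EK K

attribute [instance] Mdl.ab Mdl.fin

section
variable {K : Type} [Field K] [NumberField K]

structure ND.OK (D : ND K) : Prop where
  tc : IsTotallyComplex K
  Fpos : 0 < D.F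
  Q3 : 3 ≤ D.Q
  QF : D.Q ∣ D.F
  FΔ : (D.F : ℝ) ≤ D.Δ
  inv : ∀ s : ℕ, s.Coprime D.F → (s : K)⁻¹ ∈ D.R
  int : ∀ g ∈ D.R, ∃ s : ℕ, s.Coprime D.F ∧ IsIntegral ℤ ((s : K) * g)
  cond : ∀ a : K, IsIntegral ℤ a → (D.F : K) * a ∈ D.R
  omR : ∀ j, D.om j ∈ D.R
  omI : ∀ j, IsIntegral ℤ (D.om j)
  omL : LinearIndependent ℚ D.om
  omB : ∀ j (w : InfinitePlace K), w (D.om j) ≤ D.Δ
  iota : ∑ q ∈ D.F.primeFactors.filter (fun q => ¬ q ∣ D.Q), (1 / (q : ℝ)) ≤ 1 / (8 * rk K)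

/-- the lattice `A ∩ R` -/
def ND.L (D : ND K) (A : FI K) : Set K := {g | g ∈ A.1 ∧ g ∈ D.R}
/-- the class of `g0` modulo `d (A ∩ R)` -/
def ND.Cls (D : ND K) (A : FI K) (d : ℕ) (g0 : K) : Set K := {g | ∃ b ∈ D.L A, g = g0 + d * b}
/-- units of `R` -/
def ND.Un (D : ND K) (g : K) : Prop := g ≠ 0 ∧ g ∈ D.R ∧ g⁻¹ ∈ D.R
/-- `g` and `z` agree modulo `Q R` -/
def ND.Cg (D : ND K) (g z : K) : Prop := ∃ b ∈ D.R, g = z + D.Q * b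
/-- units of `R` that are `1` modulo `Q` -/
def ND.U (D : ND K) (g : K) : Prop := D.Un g ∧ D.Cg g 1
/-- elements of a class in a polydisc -/
def ND.Bl (D : ND K) (A : FI K) (d : ℕ) (g0 : K) (y : EK K) (ρ : InfinitePlace K → ℝ) : Set K :=
  {g | g ∈ D.Cls A d g0 ∧ emb g ∈ Dsc y ρ}
/-- the image of `d (A ∩ R)` -/
noncomputable def ND.Lam (D : ND K) (A : FI K) (d : ℕ) : Submodule ℤ (EK K) :=
  Submodule.span ℤ (emb '' D.Cls A d 0)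
/-- expected number of elements of a class in a polydisc -/
noncomputable def xp (ρ0 : ℝ) (A : FI K) (d : ℕ) (y : EK K) (ρ : InfinitePlace K → ℝ) : ℝ :=
  ρ0 * (∏ w, ρ w ^ 2) * Nv y / ((d : ℝ) ^ rk K * nI A)
/-- size condition for counting -/
def ND.Big (D : ND K) (A : FI K) (d : ℕ) (y : EK K) (ε η : ℝ) : Prop :=
  (8 * (rk K : ℝ) ^ 3 * d * D.Δ ^ 2 / (η * ε)) ^ rk K * nI A ≤ Nv y
/-- uniform count of lattice points -/
def ND.Cnt (D : ND K) (ρ0 : ℝ) : Prop :=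
  0 < ρ0 ∧ ∀ (A : FI K) (d : ℕ) (g0 : K) (y : EK K) (ρ : InfinitePlace K → ℝ) (ε η : ℝ),
    Cop D.F A → 1 ≤ d → 0 < ε → 0 < η → η ≤ 1 → (∀ w, ε ≤ ρ w ∧ ρ w ≤ 1) → D.Big A d y ε η →
    (D.Bl A d g0 y ρ).Finite ∧
      |((D.Bl A d g0 y ρ).ncard : ℝ) - xp ρ0 A d y ρ| ≤ η * xp ρ0 A d y ρ

/-- the logarithms of units -/
noncomputable def Lu (b : Fin (rk K - 1) → EK K) : Submodule ℤ (EK K) :=
  Submodule.span ℤ (Set.range b)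

def ClOK (D : ND K) {H : Type} [AddCommGroup H] (cl : FI K → H) : Prop :=
  (∀ A B, Cop D.F A → Cop D.F B → cl (A * B) = cl A + cl B) ∧
  (∀ h, ∃ A, Cop D.F A ∧ cl A = h) ∧
  ∀ A, Cop D.F A → (cl A = 0 ↔ ∃ g, D.U g ∧ IsDiv g A)

def LuOK (D : ND K) (b : Fin (rk K - 1) → EK K) : Prop :=
  LinearIndependent ℝ b ∧ (∀ i, nm (b i) = 0) ∧
  (∀ z, z ∈ Lu b ↔ ∃ u, D.U u ∧ IsDiv u 1 ∧ cexp z = emb u) ∧
  ∀ z ∈ Lu b, ‖z‖ < 1 / 2 → z = 0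

def PsOK (D : ND K) (b : Fin (rk K - 1) → EK K) (Ψ : FI K → EK K) : Prop :=
  (∀ A, nm (Ψ A) = Real.log (nI A)) ∧
  (∀ A B, Ψ (A * B) - Ψ A - Ψ B ∈ Lu b) ∧
  ∀ g A z, D.U g → IsDiv g A → cexp z = emb g → z - Ψ A ∈ Lu b

structure Mdl.OK (M : Mdl K) (D : ND K) : Prop where
  cl : ClOK D M.cl
  lu : LuOK D M.b
  ps : PsOK D M.b M.Ψ
  key : ∀ A z, Cop D.F A → M.cl A = 0 → z - M.Ψ A ∈ Lu M.b →
    ∃ g, D.U g ∧ IsDiv g A ∧ cexp z = emb g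

/-- the grid point with coordinates `a` -/
noncomputable def gam (b : Fin (rk K - 1) → EK K) (L : ℝ) (N1 : ℕ) (a : GC K) : EK K :=
  (1 / (N1 : ℝ)) • (∑ i, (a.1 i : ℝ) • b i + ((a.2 : ℝ) * (L / rk K)) • (fun _ => (1 : ℂ)))

/-- rounding and counting on the grid -/
def GrOK (b : Fin (rk K - 1) → EK K) (δ L : ℝ) (N1 : ℕ) (ε η : ℝ) : Prop :=
  (∀ z : EK K, ∃ a, ‖z - gam b L N1 a‖ ≤ ε) ∧
  ∀ (z : EK K) (ρ : InfinitePlace K → ℝ), (∀ w, ε ≤ ρ w ∧ ρ w ≤ 1) →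
    {a | gam b L N1 a ∈ Dsa z ρ}.Finite ∧
      |(({a | gam b L N1 a ∈ Dsa z ρ} : Set (GC K)).ncard : ℝ)
          - δ * (∏ w, ρ w ^ 2) * (N1 : ℝ) ^ rk K / L|
        ≤ η * (δ * (∏ w, ρ w ^ 2) * (N1 : ℝ) ^ rk K / L)

def Grid (b : Fin (rk K - 1) → EK K) (δ : ℝ) : Prop :=
  0 < δ ∧ ∀ L ε η : ℝ, 0 < L → 0 < ε → 0 < η → ∃ N0 : ℕ, ∀ N1, N0 ≤ N1 → GrOK b δ L N1 ε η

/-- density of the ideals prime to `F` -/
noncomputable def rho (D : ND K) (M : Mdl K) (ρ0 δ : ℝ) : ℝ :=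
  Fintype.card M.H * ρ0 / (δ * (D.Q : ℝ) ^ rk K)

/-- `Sg` bounds the sum of `1/p` over the degree one primes of norm below `T` -/
def SgB (K : Type) [Field K] [NumberField K] (F : ℕ) (T Sg : ℝ) : Prop :=
  ∀ (S : Finset (FI K)) (p : FI K → ℕ), (∀ P ∈ S, IsPt F P (p P) ∧ (p P : ℝ) < T) →
    ∑ P ∈ S, 1 / (p P : ℝ) ≤ Sg

/-- rough ideals in a small ball of the Arakelov class group -/
def Rough (D : ND K) (M : Mdl K) (δ T C : ℝ) (j : ℕ) : Prop :=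
  ∀ (A0 : FI K) (ε1 : ℝ) (𝒟 : Finset (FI K)), Cop D.F A0 → T ^ j ≤ nI A0 → 1 / T ≤ ε1 →
    ε1 ≤ 1 / 8 →
    (∀ A ∈ 𝒟, Cop D.F A ∧ Itg A ∧ (∀ P p, IsPt D.F P p → (p : ℝ) < T → ¬ A.1 ≤ P.1) ∧ M.cl A = M.cl A0 ∧
      ∃ l ∈ Lu M.b, ‖M.Ψ A - M.Ψ A0 - l‖ < ε1) →
    ∑ A ∈ 𝒟, 1 / nI A ≤ C * ε1 ^ rk K * δ / (Fintype.card M.H * Real.log T)
end

/-- elementary facts -/
structure Bas {K : Type} [Field K] [NumberField K] (D : ND K) : Prop where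
  cop_one : Cop D.F (1 : FI K)
  cop_mul : ∀ A B : FI K, Cop D.F A → Cop D.F B → Cop D.F (A * B)
  cop_inv : ∀ A : FI K, Cop D.F A → Cop D.F A⁻¹
  pt : ∀ (P : FI K) p, IsPt D.F P p → Cop D.F P ∧ Itg P ∧ IsPr P ∧ nI P = p
  un_cop : ∀ g A, D.Un g → IsDiv g A → Cop D.F A
  cop_un : ∀ g A, g ∈ D.R → IsDiv g A → Cop D.F A → D.Un g
  un_mul : ∀ g g', D.Un g → D.Un g' → D.Un (g * g')
  un_inv : ∀ g, D.Un g → D.Un g⁻¹
  u_one : D.U 1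
  u_mul : ∀ g g', D.U g → D.U g' → D.U (g * g')
  u_inv : ∀ g, D.U g → D.U g⁻¹
  u_div : ∀ g z, D.Un g → D.Un z → D.Cg g z → D.U (g / z)
  cls : ∀ A g g', Cop D.F A → g ∈ D.L A → g' ∈ D.L A → D.Cg g g' → g ∈ D.Cls A D.Q g'
  meet : ∀ A, Cop D.F A → ∃ g ∈ D.L A, D.U g
  nI_pos : ∀ A : FI K, 0 < nI A
  nI_one : nI (1 : FI K) = 1
  nI_mul : ∀ A B : FI K, nI (A * B) = nI A * nI B
  nI_itg : ∀ A : FI K, Itg A → 1 ≤ nI A
  div_ex : ∀ g : K, g ≠ 0 → ∃ A, IsDiv g A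
  div_ne : ∀ (g : K) A, IsDiv g A → g ≠ 0
  div_mul : ∀ (g g' : K) A B, IsDiv g A → IsDiv g' B → IsDiv (g * g') (A * B)
  div_inv : ∀ (g : K) A, IsDiv g A → IsDiv g⁻¹ A⁻¹
  div_mem : ∀ (g : K) A C, IsDiv g C → (g ∈ A.1 ↔ Itg (C * A⁻¹))
  le_prod : ∀ (A : FI K) (d : Finset (FI K)) (p : FI K → ℕ), Itg A → (∀ P ∈ d, IsPt D.F P (p P)) →
    ((∀ P ∈ d, A.1 ≤ P.1) ↔ Itg (A * (∏ P ∈ d, P)⁻¹))
  pt_le : ∀ (ι : Type) (d : Finset ι) (Pt : ι → FI K) (p : ι → ℕ) (P : FI K) (q : ℕ),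
    (∀ x ∈ d, IsPt D.F (Pt x) (p x)) → IsPt D.F P q → (∏ x ∈ d, Pt x).1 ≤ P.1 → ∃ x ∈ d, Pt x = P
  inj : ∀ (g g' : K) A, IsDiv g A → IsDiv g' A → (∀ w, ‖emb g w - emb g' w‖ < ‖emb g' w‖) → g = g'

def St_BAS : Prop := ∀ (K : Type) [Field K] [NumberField K] (D : ND K), D.OK → Bas D

/-- logarithm and exponential near the origin -/
def St_LOG : Prop :=
  (∀ y : ℂ, ‖y - 1‖ ≤ 1 / 2 → ∃ z : ℂ, Complex.exp z = y ∧ ‖z‖ ≤ ‖y - 1‖ * (1 + 2 * ‖y - 1‖)) ∧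
  ∀ z : ℂ, ‖z‖ ≤ 1 → ‖Complex.exp z - 1‖ ≤ ‖z‖ * (1 + ‖z‖)

/-- the archimedean embedding -/
def St_EMB : Prop :=
  ∀ (K : Type) [Field K] [NumberField K], IsTotallyComplex K →
    2 * Fintype.card (InfinitePlace K) = rk K ∧ Module.finrank ℝ (EK K) = rk K ∧
    (∀ (ι : Type) (om : ι → K), LinearIndependent ℚ om → LinearIndependent ℝ fun j => emb (om j)) ∧
    (∀ g : K, Nv (emb g) = |((Algebra.norm ℚ g : ℚ) : ℝ)|) ∧
    (∀ (g : K) (A : FI K), IsDiv g A → nI A = Nv (emb g)) ∧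
    ∀ z : EK K, Nv (cexp z) = Real.exp (nm z)

/-- the lattices `d (A ∩ R)` and their covolumes -/
def St_LAT : Prop :=
  ∀ (K : Type) [Field K] [NumberField K] (D : ND K), D.OK → ∀ (A : FI K) (d : ℕ), Cop D.F A →
    1 ≤ d → (∀ x, x ∈ D.Lam A d ↔ ∃ g ∈ D.Cls A d 0, x = emb g) ∧
    ∃ _ : DiscreteTopology (D.Lam A d), IsZLattice ℝ (D.Lam A d) ∧
      ZLattice.covolume (D.Lam A d) = (d : ℝ) ^ rk K * nI A * ZLattice.covolume (D.Lam 1 1)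

def St_CNT : Prop :=
  ∀ (K : Type) [Field K] [NumberField K] (D : ND K), D.OK → ∃ ρ0, D.Cnt ρ0

/-- at most half of the expected number of elements of a unit class are not units -/
def St_UNITS : Prop :=
  ∀ (K : Type) [Field K] [NumberField K] (D : ND K) (ρ0 : ℝ), D.OK → D.Cnt ρ0 →
    ∀ (A : FI K) (g0 z : K) (y : EK K) (ρ : InfinitePlace K → ℝ) (ε : ℝ), Cop D.F A →
      g0 ∈ D.L A → D.Un z → D.Cg g0 z → 0 < ε → (∀ w, ε ≤ ρ w ∧ ρ w ≤ 1) →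
      D.Big A (D.Q * D.F) y ε (1 / 8) →
      xp ρ0 A D.Q y ρ ≤ 2 * ({g | g ∈ D.Bl A D.Q g0 y ρ ∧ D.Un g}.ncard : ℝ)

def St_GRP1 : Prop :=
  ∀ (K : Type) [Field K] [NumberField K] (D : ND K), D.OK →
    ∃ (H : Type) (_ : AddCommGroup H) (_ : Fintype H) (cl : FI K → H), ClOK D cl

def St_GRP2 : Prop :=
  ∀ (K : Type) [Field K] [NumberField K] (D : ND K), D.OK → ∃ b, LuOK D b

def St_GRP3 : Prop :=
  ∀ (K : Type) [Field K] [NumberField K] (D : ND K), D.OK → ∀ b, LuOK D b → ∃ Ψ, PsOK D b Ψ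

def St_GRP : Prop :=
  ∀ (K : Type) [Field K] [NumberField K] (D : ND K), D.OK → ∃ M : Mdl K, M.OK D

def St_GRID : Prop :=
  ∀ (K : Type) [Field K] [NumberField K], IsTotallyComplex K → ∀ b : Fin (rk K - 1) → EK K,
    LinearIndependent ℝ b → (∀ i, nm (b i) = 0) → ∃ δ, Grid b δ

/-- every class contains many ideals -/
def St_RHO : Prop :=
  ∀ n : ℕ, ∃ c : ℝ, 0 < c ∧ ∀ (K : Type) [Field K] [NumberField K] (D : ND K) (M : Mdl K)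
    (ρ0 δ X Y : ℝ), rk K = n → D.OK → M.OK D → D.Cnt ρ0 → Grid M.b δ →
    (512 * (n : ℝ) ^ 3 * D.Δ ^ 4) ^ n ≤ X → X ≤ Y →
    ∃ 𝒟 : Finset (FI K), (∀ A ∈ 𝒟, Cop D.F A ∧ Itg A ∧ nI A ≤ Y) ∧
      c * rho D M ρ0 δ * (Real.log (Y / X) - n - 1) ≤ ∑ A ∈ 𝒟, 1 / nI A

/-- Euler products -/
def St_EUL : Prop :=
  ∀ (n : ℕ) (u : ℝ), ∃ C : ℝ, 0 < C ∧ ∀ (K : Type) [Field K] [NumberField K] (F : ℕ) (T Y : ℝ),
    rk K = n → 0 < F → 2 ≤ T → 1 ≤ Y → Y ≤ T ^ u →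
    ∃ (S : Finset (FI K)) (p : FI K → ℕ), (∀ P ∈ S, IsPt F P (p P) ∧ (p P : ℝ) < T) ∧
      (∀ q, (S.filter fun P => p P = q).card ≤ n) ∧
      ∀ 𝒟 : Finset (FI K), (∀ A ∈ 𝒟, Cop F A ∧ Itg A ∧ nI A ≤ Y) →
        (∑ A ∈ 𝒟, 1 / nI A) * ∏ P ∈ S, (1 - 1 / (p P : ℝ)) ≤ C ∧
        ∑ A ∈ 𝒟, 1 / nI A ≤ C * Real.exp (∑ P ∈ S, 1 / (p P : ℝ))

/-- at most `rk K` points lie over one prime -/
def St_FIB : Prop :=
  ∀ (K : Type) [Field K] [NumberField K] (F q : ℕ) (S : Finset (FI K)),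
    (∀ P ∈ S, IsPt F P q) → S.card ≤ rk K

def St_ROUGH : Prop :=
  ∀ (n : ℕ) (u : ℝ), ∃ (j : ℕ) (C T0 : ℝ), 1 ≤ j ∧ 0 < C ∧
    ∀ (K : Type) [Field K] [NumberField K] (D : ND K) (M : Mdl K) (ρ0 δ T : ℝ), rk K = n → D.OK →
      M.OK D → D.Cnt ρ0 → Grid M.b δ → T0 ≤ T → D.Δ ≤ T ^ u →
      Rough D M δ T C j ∧
        ∀ Sg, SgB K D.F T Sg → rho D M ρ0 δ * Real.log T ≤ C * Real.exp Sg

end Pool.Agent.Lib.BK2.NT
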