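import Pool.Agent.Lib.BK2.Defs

/-! Weak forms of the hypotheses `Weil` and `Irr` that also hold when the field of constants is a
number field. -/

open Polynomial

noncomputable section

namespace Pool.Agent.Lib.BK2.Geo

variable {B : Type} [CommRing B] [Algebra ℤ[X] B] {d : ℕ} [NeZero d] (Γ : Geo B d)

/-- Mertens' second theorem for the points over prime fields. -/
def Mert (_ : Geo B d) : Prop :=
  ∃ K : ℝ, ∀ Y z : ℝ, 2 ≤ Y → Y ≤ z →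
    |∑ p ∈ (Finset.Ioc ⌊Y⌋₊ ⌊z⌋₊).filter Nat.Prime, (Nat.card (B →+* ZMod p) : ℝ) / (p : ℝ) ^ 2 -
      Real.log (Real.log z / Real.log Y)| ≤ K / Real.log Y

/-- Congruence conditions that force irreducible norms. -/
def Irr0 : Prop :=
  ∃ m₁ : ℕ, ∀ m ≥ m₁, ∀ Q : ℕ, 0 < Q → ∃ (M₀ : ℕ) (e₀ : Γ.Ix m → ℤ), 0 < M₀ ∧ Q ∣ M₀ ∧
    ∀ e : Γ.Ix m → ℤ, (∀ i, e i ≡ e₀ i [ZMOD M₀]) →
      Irreducible ((Γ.nrm (Γ.el e)).map (Int.castRingHom ℚ)) ∧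
      (Γ.nrm (Γ.el e)).natDegree = m * d ∧
      ∀ q : ℕ, q.Prime → q ∣ M₀ → (Γ.nrm (Γ.el e)).map (Int.castRingHom (ZMod q)) ≠ 0

theorem Irr.irr0 {Γ : Geo B d} (h : Γ.Irr) : Γ.Irr0 := by
  obtain ⟨m₁, h⟩ := h
  refine ⟨m₁, fun m hm Q hQ => ?_⟩
  obtain ⟨M₀, e₀, h1, h2, -, h3⟩ := h m hm Q hQ
  exact ⟨M₀, e₀, h1, h2, h3⟩

end Pool.Agent.Lib.BK2.Geo
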