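import Pool.Agent.Lib.BK2.STEP
import Pool.Agent.Lib.BK2.Defs

/-!
A plane model of the curve, good primes and the point count.
-/

namespace Pool.Agent.Lib.BK2.PW

open Finset Polynomial Filter Step

theorem disj {L M ι : Type} [Field L] [CharZero L] [Field M] [CharZero M] [Algebra L M]
    [IsGalois L M]
    (halg : ∀ x : L, IsAlgebraic ℚ x → x ∈ Set.range (algebraMap ℚ L)) (w : ι → L)
    (hw : LinearIndependent ℚ w) (s : Finset ι) : ∀ c : ι → M,
    (∀ i, IsAlgebraic ℚ (c i)) → ∑ i ∈ s, c i * algebraMap L _ (w i) = 0 → ∀ i ∈ s, c i = 0 := by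
  classical
  induction s using Finset.induction_on with
  | empty => simp
  | insert a s ha ih =>
    intro c hc h
    rw [sum_insert ha] at h
    by_cases h0 : c a = 0
    · rw [h0, zero_mul, zero_add] at h
      simpa [h0] using ih c hc h
    exfalso
    have h1 : algebraMap L _ (w a) + ∑ i ∈ s, c i / c a * algebraMap L _ (w i) = 0 := by
      have := congrArg (· / c a) h
      simpa [add_div, mul_div_cancel_left₀ _ h0, sum_div, div_mul_eq_mul_div] using this
    have h2 : ∀ i, IsAlgebraic ℚ (c i / c a) := fun i => by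
      rw [div_eq_mul_inv]; exact (hc i).mul (hc a).inv
    have h3 : ∀ i ∈ s, ∃ q : ℚ, algebraMap L M (algebraMap ℚ L q) = c i / c a :=
      fun i hi => by
      obtain ⟨z, hz⟩ := (InfiniteGalois.mem_range_algebraMap_iff_fixed (k := L) (c i / c a)).2
        fun σ => sub_eq_zero.1 (ih (fun i => σ (c i / c a) - c i / c a)
          (fun i => ((h2 i).algHom (σ.toAlgHom.restrictScalars ℚ)).sub (h2 i)) (by
            have := congrArg σ h1
            simp only [map_add, map_sum, map_mul, AlgEquiv.commutes, map_zero] at this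
            simp only [sub_mul, sum_sub_distrib]
            linear_combination this - h1) i hi)
      obtain ⟨q, rfl⟩ := halg z ((isAlgebraic_algebraMap_iff
        (algebraMap L M).injective).1 (hz ▸ h2 i))
      exact ⟨q, hz⟩
    choose! q hq using h3
    have h4 := linearIndependent_iff'.1 hw (insert a s) (Function.update q a 1) (by
      apply (algebraMap L M).injective
      rw [sum_insert ha, Function.update_self, one_smul, map_add, map_sum, map_zero, ← h1]
      congr 1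
      refine sum_congr rfl fun i hi => ?_
      rw [Function.update_of_ne (ne_of_mem_of_not_mem hi ha), Algebra.smul_def, map_mul, hq i hi])
      a (mem_insert_self _ _)
    simp at h4

theorem coeff_poly {R : Type*} [CommRing R] {d c : ℕ} (x : Fin d × Fin c → R) (z : Fin d × Fin c) :
    ((poly x).coeff z.1).coeff z.2 = x z := by
  simp only [poly, finsetSum_coeff, coeff_monomial]
  rw [sum_eq_single z]
  · simp
  · intro y _ hy
    split_ifs with h
    · rw [coeff_monomial, if_neg fun e => hy (Prod.ext (Fin.ext h) (Fin.ext e))]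
    · rfl
  · simp

theorem degree_poly {R : Type*} [CommRing R] {d c : ℕ} (x : Fin d × Fin c → R) :
    (poly x).degree < d :=
  (degree_sum_le _ _).trans_lt ((Finset.sup_lt_iff (WithBot.bot_lt_coe d)).2 fun z _ =>
    (degree_monomial_le _ _).trans_lt (WithBot.coe_lt_coe.2 z.1.2))

variable {B : Type} [CommRing B] [IsDomain B] [Algebra ℤ[X] B] {d : ℕ} [NeZero d] (Γ : Geo B d)

include Γ in
theorem prim : ∃ (θ : B) (Δ : ℤ[X]), Δ ≠ 0 ∧ ∀ b : B, ∃ g : ℤ[X][X], aeval θ g = Δ • b := by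
  have : Module.Free ℤ[X] B := .of_basis Γ.b
  have : Module.Finite ℤ[X] B := .of_basis Γ.b
  let K := FractionRing ℤ[X]
  let E := FractionRing B
  let _ : Algebra K E := FractionRing.liftAlgebra ℤ[X] E
  have : IsScalarTower ℤ[X] K E := FractionRing.isScalarTower_liftAlgebra ℤ[X] E
  have : FiniteDimensional K E := inferInstance
  obtain ⟨α, hα⟩ := Field.exists_primitive_element K E
  obtain ⟨⟨θ, _, s, hs, rfl⟩, e⟩ :=
    IsLocalization.surj (Algebra.algebraMapSubmonoid B (nonZeroDivisors ℤ[X])) α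
  dsimp only at e
  have hs' : algebraMap ℤ[X] K s ≠ 0 := IsFractionRing.to_map_ne_zero_of_mem_nonZeroDivisors hs
  have h1 : ∀ b : B, ∃ (r : ℤ[X]) (g : ℤ[X][X]), r ≠ 0 ∧ aeval θ g = r • b := fun b => by
    have hb : algebraMap B E b ∈ (IntermediateField.adjoin K {α}).toSubalgebra := by
      rw [hα]; trivial
    rw [IntermediateField.adjoin_simple_toSubalgebra_of_isAlgebraic
      (Algebra.IsAlgebraic.isAlgebraic α), Algebra.adjoin_singleton_eq_range_aeval] at hb
    obtain ⟨P, hP⟩ := hb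
    have e1 : α = aeval (algebraMap B E θ) (C (algebraMap ℤ[X] K s)⁻¹ * X) := by
      rw [map_mul, aeval_C, aeval_X, ← e, ← IsScalarTower.algebraMap_apply,
        IsScalarTower.algebraMap_apply ℤ[X] K E, map_inv₀, mul_comm, mul_assoc,
        mul_inv_cancel₀ ((_root_.map_ne_zero _).2 hs'), mul_one]
    obtain ⟨r, hr, e2⟩ := IsLocalization.integerNormalization_spec (nonZeroDivisors ℤ[X])
      (P.comp (C (algebraMap ℤ[X] K s)⁻¹ * X))
    refine ⟨r, IsLocalization.integerNormalization (nonZeroDivisors ℤ[X])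
      (P.comp (C (algebraMap ℤ[X] K s)⁻¹ * X)), nonZeroDivisors.ne_zero hr,
      IsFractionRing.injective B E ?_⟩
    rw [← aeval_algebraMap_apply, ← aeval_map_algebraMap K, e2, ← algebraMap_smul K r, map_smul,
      aeval_comp, ← e1, algebraMap_smul, Algebra.smul_def, Algebra.smul_def, map_mul,
      ← IsScalarTower.algebraMap_apply]
    exact congrArg _ hP
  choose r g hr hg using h1
  refine ⟨θ, ∏ i, r (Γ.b i), prod_ne_zero_iff.2 fun i _ => hr _, fun b => ?_⟩
  refine ⟨∑ i, (Γ.b.repr b i * ∏ j ∈ univ.erase i, r (Γ.b j)) • g (Γ.b i), ?_⟩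
  conv_rhs => rw [← Γ.b.sum_repr b, smul_sum]
  rw [map_sum]
  refine sum_congr rfl fun i _ => ?_
  rw [map_smul, hg, smul_smul, smul_smul, ← mul_prod_erase _ _ (mem_univ i)]
  congr 1
  ring

omit [IsDomain B] in
theorem hom_aeval {R : Type} [CommRing R] (x : B →+* R) (θ : B) (g : ℤ[X][X]) :
    x (aeval θ g) = (g.map (mapRingHom (Int.castRingHom R))).evalEval (x Γ.t) (x θ) := by
  rw [← map_evalRingHom_eval, Polynomial.map_map, eval_map, aeval_def, hom_eval₂]
  congr 1
  exact Polynomial.ringHom_ext (fun z => by simp) (by simp [Geo.t])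

omit [IsDomain B] in
theorem hom_alg {R : Type} [CommRing R] (x : B →+* R) (P : ℤ[X]) :
    x (algebraMap ℤ[X] B P) = (P.map (Int.castRingHom R)).eval (x Γ.t) := by
  simpa [evalEval_C] using hom_aeval Γ x 0 (C P)

/-- A plane model. -/
structure Mod (θ : B) (f : ℤ[X][X]) (Δ : ℤ[X]) : Prop where
  monic : f.Monic
  root : aeval θ f = 0
  dvd : ∀ g : ℤ[X][X], aeval θ g = 0 → f ∣ g
  ne : Δ ≠ 0
  den : ∀ b : B, ∃ g : ℤ[X][X], aeval θ g = Δ • b
  sep : ∃ aa bb, aa * f + bb * derivative f = C Δ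
  red : ∀ᶠ p : ℕ in atTop, ∀ (k : Type) [Field k] [CharP k p],
    Irreducible (f.map (mapRingHom (Int.castRingHom k)))
  cnt : ∃ K : ℝ, 0 ≤ K ∧ ∀ p : ℕ, p.Prime → |((pts f p).ncard : ℝ) - p| ≤ K * √p

include Γ in
theorem exists_mod' {L : Type} (M : Type) [Field L] [CharZero L] [Field M] [CharZero M]
    [IsAlgClosed M] [Algebra L M] [IsGalois L M]
    (halg : ∀ x : L, IsAlgebraic ℚ x → x ∈ Set.range (algebraMap ℚ L)) (ι : B →+* L)
    (hι : Function.Injective ι) : ∃ (θ : B) (f : ℤ[X][X]) (Δ : ℤ[X]), Mod θ f Δ := by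
  have : Module.Free ℤ[X] B := .of_basis Γ.b
  have : Module.Finite ℤ[X] B := .of_basis Γ.b
  obtain ⟨θ, Δ, hΔ, hden⟩ := prim Γ
  have hint : IsIntegral ℤ[X] θ := Algebra.IsIntegral.isIntegral θ
  have hm := minpoly.monic hint
  have hdvd : ∀ g : ℤ[X][X], aeval θ g = 0 → minpoly ℤ[X] θ ∣ g := fun g =>
    minpoly.isIntegrallyClosed_dvd hint
  set f := minpoly ℤ[X] θ
  let O := algebraicClosure ℚ M
  have : IsAlgClosed O := (algebraicClosure.isAlgClosure ℚ M).isAlgClosed
  have hirr : Irreducible (f.map (mapRingHom (Int.castRingHom O))) := by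
    have hm' := hm.map (mapRingHom (Int.castRingHom O))
    let x : B →+* M := (algebraMap L M).comp ι
    let ev : Polynomial (Polynomial O) →+* M :=
      eval₂RingHom (eval₂RingHom (algebraMap O M) (x Γ.t)) (x θ)
    have h0 : ev (f.map (mapRingHom (Int.castRingHom O))) = 0 := by
      have := congrArg x (minpoly.aeval ℤ[X] θ)
      rw [aeval_def, hom_eval₂, map_zero] at this
      rw [← this, coe_eval₂RingHom, eval₂_map]
      congr 1
      exact Polynomial.ringHom_ext (fun z => by simp) (by simp [Geo.t])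
    have h1 : ∀ g : Polynomial (Polynomial O), g.natDegree < f.natDegree → ev g = 0 → g = 0 :=
      fun g hg h => by
      obtain ⟨c, hc⟩ := exists_deg g
      obtain ⟨n, hn⟩ : ∃ n, f.natDegree = n + 1 := ⟨f.natDegree - 1, by omega⟩
      obtain ⟨u, rfl⟩ := exists_poly (d := n) g (by omega) hc
      have hw : LinearIndependent ℤ fun z : Fin (n + 1) × Fin (c + 1) =>
          ι (Γ.t ^ (z.2 : ℕ) * θ ^ (z.1 : ℕ)) := by
        refine Fintype.linearIndependent_iff.2 fun v hv z => ?_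
        have e : poly v = 0 := eq_zero_of_dvd_of_degree_lt (hdvd _ (hι (by
          rw [map_zero, ← hv]
          simp [poly, ← C_mul_X_pow_eq_monomial, Geo.t, mul_assoc])))
          (by rw [degree_eq_natDegree hm.ne_zero, hn]; exact degree_poly v)
        rw [← coeff_poly v z, e, coeff_zero, coeff_zero]
      have h2 := disj halg _ ((LinearIndependent.iff_fractionRing ℤ ℚ).1 hw) univ
        (fun z => (u z : M)) (fun z => mem_algebraicClosure_iff.1 (u z).2) (by
          rw [← h]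
          simp [poly, ev, x, mul_assoc])
      rw [show u = 0 from funext fun z => Subtype.ext (h2 z (mem_univ _))]
      simp [poly]
    rw [hm'.irreducible_iff_natDegree]
    refine ⟨fun e => ?_, fun g h hg hh e => ?_⟩
    · rw [e, map_one] at h0
      exact one_ne_zero h0
    have hd := congrArg natDegree e
    rw [hg.natDegree_mul hh, hm.natDegree_map] at hd
    by_contra hne
    push Not at hne
    rw [← e, map_mul, mul_eq_zero] at h0
    exact h0.elim (fun h => hg.ne_zero (h1 _ (by omega) h)) fun h => hh.ne_zero (h1 _ (by omega) h)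
  obtain ⟨Δ', aa, bb, h1, h2, -⟩ := exists_res O f hm hirr
  refine ⟨θ, f, Δ * Δ', hm, minpoly.aeval _ _, hdvd, mul_ne_zero hΔ h1, fun b => ?_,
    ⟨C Δ * aa, C Δ * bb, by rw [C_mul, ← h2]; ring⟩, noether O f hm hirr, step O f hm hirr⟩
  rw [mul_smul]
  exact hden _

include Γ in
theorem exists_mod {L : Type} [Field L] [i : Algebra ℚ L]
    (halg : ∀ x : L, IsAlgebraic ℚ x → x ∈ Set.range (algebraMap ℚ L)) (ι : B →+* L)
    (hι : Function.Injective ι) : ∃ (θ : B) (f : ℤ[X][X]) (Δ : ℤ[X]), Mod θ f Δ := by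
  have : CharZero L := algebraRat.charZero L
  obtain rfl : i = DivisionRing.toRatAlgebra := Subsingleton.elim _ _
  exact exists_mod' Γ (AlgebraicClosure L) halg ι hι

variable {θ : B} {f : ℤ[X][X]} {Δ : ℤ[X]}

theorem red_ne {Δ : ℤ[X]} (hΔ : Δ ≠ 0) {p : ℕ} (hp : Δ.leadingCoeff.natAbs < p) :
    Δ.map (Int.castRingHom (ZMod p)) ≠ 0 := fun e => by
  have := congrArg (coeff · Δ.natDegree) e
  simp only [coeff_map, coeff_natDegree, eq_intCast, coeff_zero,
    ZMod.intCast_zmod_eq_zero_iff_dvd] at this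
  exact absurd (Nat.le_of_dvd (Int.natAbs_pos.2 (leadingCoeff_ne_zero.2 hΔ))
    (Int.natCast_dvd.1 this)) (not_le.2 hp)

theorem map_eq_zero_iff_dvd (p : ℕ) (g : ℤ[X]) :
    g.map (Int.castRingHom (ZMod p)) = 0 ↔ (p : ℤ[X]) ∣ g := by
  rw [← C_eq_natCast, C_dvd_iff_dvd_coeff, Polynomial.ext_iff]
  simp [ZMod.intCast_zmod_eq_zero_iff_dvd]

theorem map_map_eq_zero_iff_dvd (p : ℕ) (g : ℤ[X][X]) :
    g.map (mapRingHom (Int.castRingHom (ZMod p))) = 0 ↔ (p : ℤ[X][X]) ∣ g := by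
  rw [← C_eq_natCast, C_dvd_iff_dvd_coeff, Polynomial.ext_iff]
  simp [map_eq_zero_iff_dvd]

omit [IsDomain B] in
theorem dvd_iff_repr (p : ℕ) (b : B) : (p : B) ∣ b ↔ ∀ i, (p : ℤ[X]) ∣ Γ.b.repr b i := by
  refine ⟨?_, fun h => ?_⟩
  · rintro ⟨c, rfl⟩ i
    rw [← nsmul_eq_mul, map_nsmul, Finsupp.smul_apply, nsmul_eq_mul]
    exact dvd_mul_right _ _
  · rw [← Γ.b.sum_repr b]
    refine dvd_sum fun i _ => ?_
    rw [Algebra.smul_def, ← map_natCast (algebraMap ℤ[X] B)]
    exact (_root_.map_dvd _ (h i)).mul_right _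

include Γ in
omit [IsDomain B] in
theorem Mod.good (h : Mod θ f Δ) :
    ∀ᶠ p : ℕ in atTop, p.Prime → (Ideal.span {(p : B)}).IsPrime := by
  filter_upwards [h.red, eventually_gt_atTop Δ.leadingCoeff.natAbs] with p hp hpΔ hpr
  have : Fact p.Prime := ⟨hpr⟩
  have hΔ := red_ne h.ne hpΔ
  have hf := (hp (ZMod p)).prime
  set ρ := mapRingHom (Int.castRingHom (ZMod p))
  have h1 : ∀ b : B, (p : B) ∣ Δ • b → (p : B) ∣ b := fun b hb => by
    rw [dvd_iff_repr Γ] at hb ⊢
    intro i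
    have := hb i
    rw [map_smul, Finsupp.smul_apply, smul_eq_mul, ← map_eq_zero_iff_dvd, Polynomial.map_mul,
      mul_eq_zero] at this
    exact (map_eq_zero_iff_dvd _ _).1 (this.resolve_left hΔ)
  have h2 : ∀ g : ℤ[X][X], f.map ρ ∣ g.map ρ → (p : B) ∣ aeval θ g := by
    rintro g ⟨v, hv⟩
    obtain ⟨v, rfl⟩ := map_surjective ρ (map_surjective _ ZMod.intCast_surjective) v
    rw [← Polynomial.map_mul, ← sub_eq_zero, ← Polynomial.map_sub, map_map_eq_zero_iff_dvd] at hv
    simpa [h.root] using map_dvd (aeval θ) hv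
  have h3 : ∀ g : ℤ[X][X], (p : B) ∣ aeval θ g → f.map ρ ∣ g.map ρ := by
    rintro g ⟨c, hc⟩
    obtain ⟨v, hv⟩ := h.den c
    have e1 := Polynomial.map_dvd ρ (h.dvd (C Δ * g - p * v) (by
      rw [map_sub, map_mul, map_mul, hv, hc, aeval_C, map_natCast, Algebra.smul_def]; ring))
    rw [Polynomial.map_sub, (map_map_eq_zero_iff_dvd p _).2 (dvd_mul_right _ _), sub_zero,
      Polynomial.map_mul, map_C] at e1
    refine (hf.dvd_or_dvd e1).resolve_left fun e => ?_
    have e2 := natDegree_le_of_dvd e (C_ne_zero.2 hΔ)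
    rw [natDegree_C, Nat.le_zero] at e2
    exact hf.not_isUnit (eq_one_of_monic_natDegree_zero (h.monic.map _) e2 ▸ isUnit_one)
  refine ⟨fun e => ?_, fun {a b} hab => ?_⟩
  · rw [Ideal.span_singleton_eq_top, isUnit_iff_dvd_one] at e
    have := h3 1 (by simpa using e)
    rw [Polynomial.map_one] at this
    exact hf.not_dvd_one this
  simp only [Ideal.mem_span_singleton] at hab ⊢
  obtain ⟨u, hu⟩ := h.den a
  obtain ⟨v, hv⟩ := h.den b
  have := h3 (u * v) (by
    rw [map_mul, hu, hv, smul_mul_smul_comm, Algebra.smul_def]; exact hab.mul_left _)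
  rw [Polynomial.map_mul] at this
  exact (hf.dvd_or_dvd this).imp (fun e => h1 _ (hu ▸ h2 _ e)) fun e => h1 _ (hv ▸ h2 _ e)

omit [IsDomain B] in
theorem Mod.lift (h : Mod θ f Δ) {R : Type} [Field R] (τ y : R)
    (h0 : (f.map (mapRingHom (Int.castRingHom R))).evalEval τ y = 0)
    (h1 : (Δ.map (Int.castRingHom R)).eval τ ≠ 0) : ∃ x : B →+* R, x Γ.t = τ ∧ x θ = y := by
  let φ : ℤ[X][X] →+* R := (evalEvalRingHom τ y).comp (mapRingHom (mapRingHom (Int.castRingHom R)))
  have hφ : ∀ g g', aeval θ g = aeval θ g' → φ g = φ g' := fun g g' e => by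
    obtain ⟨v, hv⟩ := h.dvd (g - g') (by rw [map_sub, e, sub_self])
    rw [← sub_eq_zero, ← map_sub, hv, map_mul, show φ f = 0 from h0, zero_mul]
  have hΔ : φ (C Δ) ≠ 0 := by simpa [φ, evalEval_C] using h1
  choose g hg using h.den
  have key : ∀ b u, aeval θ u = b → φ (g b) / φ (C Δ) = φ u := fun b u e => by
    rw [div_eq_iff hΔ, ← map_mul]
    exact hφ _ _ (by rw [hg, map_mul, e, aeval_C, Algebra.smul_def, mul_comm])
  refine ⟨{ toFun := fun b => φ (g b) / φ (C Δ)
            map_one' := (key 1 1 (map_one _)).trans (map_one _)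
            map_zero' := (key 0 0 (map_zero _)).trans (map_zero _)
            map_mul' := fun a b => ?_
            map_add' := fun a b => ?_ }, (key _ (C X) (aeval_C _ _)).trans ?_,
    (key _ X (aeval_X _)).trans ?_⟩
  · rw [div_mul_div_comm, div_eq_div_iff hΔ (mul_ne_zero hΔ hΔ)]
    simp only [← map_mul]
    exact hφ _ _ (by simp only [map_mul, hg, aeval_C, Algebra.smul_def]; ring)
  · rw [← add_div, ← map_add]
    exact congrArg (· / _) (hφ _ _ (by rw [map_add, hg, hg, hg, smul_add]))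
  · simp [φ]
  · simp [φ]

omit [IsDomain B] in
theorem Mod.inj (h : Mod θ f Δ) {R : Type} [Field R] {x x' : B →+* R} (e : x Γ.t = x' Γ.t)
    (e' : x θ = x' θ) (h1 : (Δ.map (Int.castRingHom R)).eval (x Γ.t) ≠ 0) : x = x' := by
  ext b
  obtain ⟨g, hg⟩ := h.den b
  have e1 := hom_aeval Γ x θ g
  have e2 := hom_aeval Γ x' θ g
  rw [hg, Algebra.smul_def, map_mul, hom_alg Γ] at e1 e2
  rw [← e, ← e', ← e1] at e2
  exact (mul_left_cancel₀ h1 e2).symm

theorem few {Δ : ℤ[X]} (hΔ : Δ ≠ 0) : ∃ R : ℕ, ∀ (p : ℕ) [Fact p.Prime],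
    #{τ : ZMod p | (Δ.map (Int.castRingHom (ZMod p))).eval τ = 0} ≤ R := by
  refine ⟨Δ.leadingCoeff.natAbs + Δ.natDegree, fun p _ => ?_⟩
  rcases le_or_gt p Δ.leadingCoeff.natAbs with h | h
  · exact (card_le_univ _).trans ((ZMod.card p).le.trans (h.trans (Nat.le_add_right _ _)))
  refine (card_le_card (t := (Δ.map (Int.castRingHom (ZMod p))).roots.toFinset) fun t ht => ?_).trans
    ((Multiset.toFinset_card_le _).trans ((card_roots' _).trans
      (natDegree_map_le.trans (Nat.le_add_left _ _))))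
  rw [Multiset.mem_toFinset, mem_roots (red_ne hΔ h)]
  exact (mem_filter.1 ht).2

/-- The roots of a fibre. -/
noncomputable def rts {R : Type} [Field R] [DecidableEq R] (g : ℤ[X][X]) (τ : R) : Finset R :=
  ((g.map (mapRingHom (Int.castRingHom R))).map (evalRingHom τ)).roots.toFinset

theorem card_rts {R : Type} [Field R] [DecidableEq R] (g : ℤ[X][X]) (τ : R) :
    (rts g τ).card ≤ g.natDegree :=
  (Multiset.toFinset_card_le _).trans ((card_roots' _).trans
    (natDegree_map_le.trans natDegree_map_le))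

theorem mem_rts {R : Type} [Field R] [DecidableEq R] {g : ℤ[X][X]} (hg : g.Monic) (τ y : R) :
    y ∈ rts g τ ↔ (g.map (mapRingHom (Int.castRingHom R))).evalEval τ y = 0 := by
  rw [rts, Multiset.mem_toFinset, mem_roots ((hg.map _).map _).ne_zero, IsRoot,
    map_evalRingHom_eval]

omit [IsDomain B] in
theorem fibre : ∃ D : ℕ, ∀ (R : Type) [Field R] (S : Finset R),
    {x : B →+* R | x Γ.t ∈ S}.Finite ∧ {x : B →+* R | x Γ.t ∈ S}.ncard ≤ S.card * D := by
  have : Module.Finite ℤ[X] B := .of_basis Γ.b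
  have hi : ∀ i, IsIntegral ℤ[X] (Γ.b i) := fun i => Algebra.IsIntegral.isIntegral _
  choose m hm hm' using hi
  refine ⟨∏ i, (m i).natDegree, fun R _ S => ?_⟩
  classical
  let T : Finset (R × (Fin d → R)) :=
    S.biUnion fun τ => {τ} ×ˢ Fintype.piFinset fun i => rts (m i) τ
  have h1 : ∀ x ∈ {x : B →+* R | x Γ.t ∈ S}, (x Γ.t, fun i => x (Γ.b i)) ∈ (T : Set _) :=
    fun x hx => mem_biUnion.2 ⟨_, hx, mem_product.2 ⟨mem_singleton_self _,
      Fintype.mem_piFinset.2 fun i => (mem_rts (hm i) _ _).2 (by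
        rw [← hom_aeval Γ, aeval_def, hm', map_zero])⟩⟩
  have h2 : Set.InjOn (fun x : B →+* R => (x Γ.t, fun i => x (Γ.b i)))
      {x : B →+* R | x Γ.t ∈ S} := fun x _ x' _ e => by
    ext b
    rw [← Γ.b.sum_repr b, map_sum, map_sum]
    refine sum_congr rfl fun i _ => ?_
    rw [Algebra.smul_def, map_mul, map_mul, hom_alg Γ, hom_alg Γ, (Prod.mk.inj e).1,
      congrFun (Prod.mk.inj e).2 i]
  refine ⟨.of_injOn h1 h2 T.finite_toSet, (Set.ncard_le_ncard_of_injOn _ h1 h2).trans ?_⟩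
  rw [Set.ncard_coe_finset]
  refine card_biUnion_le.trans (sum_le_card_nsmul _ _ _ fun τ _ => ?_)
  rw [card_product, card_singleton, one_mul, Fintype.card_piFinset]
  exact prod_le_prod' fun i _ => card_rts _ _

omit [IsDomain B] in
/-- The number of points off the zeros of `Δ`. -/
theorem Mod.count (h : Mod θ f Δ) : ∃ K : ℝ, ∀ p : ℕ, p.Prime →
    |({x : B →+* ZMod p | (Δ.map (Int.castRingHom (ZMod p))).eval (x Γ.t) ≠ 0}.ncard : ℝ) - p| ≤
      K * √p := by
  obtain ⟨K, -, hK⟩ := h.cnt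
  obtain ⟨R, hR⟩ := few h.ne
  refine ⟨K + (R * f.natDegree : ℕ), fun p hp => ?_⟩
  have : Fact p.Prime := ⟨hp⟩
  classical
  let Z : Set (ZMod p × ZMod p) := {z | (Δ.map (Int.castRingHom (ZMod p))).eval z.1 = 0}
  have h1 : {x : B →+* ZMod p | (Δ.map (Int.castRingHom (ZMod p))).eval (x Γ.t) ≠ 0}.ncard =
      (pts f p \ Z).ncard := by
    refine Set.ncard_congr (fun x _ => (x Γ.t, x θ)) (fun x hx => ⟨?_, hx⟩)
      (fun x x' hx _ e => h.inj Γ (Prod.mk.inj e).1 (Prod.mk.inj e).2 hx) fun z hz => ?_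
    · exact (hom_aeval Γ x θ f).symm.trans (by rw [h.root, map_zero])
    · obtain ⟨x, e1, e2⟩ := h.lift Γ z.1 z.2 hz.1 hz.2
      exact ⟨x, by rw [Set.mem_ofPred_eq, e1]; exact hz.2, Prod.ext e1 e2⟩
  have h2 : (pts f p ∩ Z).ncard ≤ R * f.natDegree := by
    let T : Finset (ZMod p × ZMod p) :=
      (univ.filter fun τ : ZMod p => (Δ.map (Int.castRingHom (ZMod p))).eval τ = 0).biUnion
        fun τ => {τ} ×ˢ rts f τ
    have hT : ∀ z ∈ pts f p ∩ Z, z ∈ T := fun z hz => mem_biUnion.2 ⟨z.1,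
      mem_filter.2 ⟨mem_univ _, hz.2⟩, mem_product.2 ⟨mem_singleton_self _,
        (mem_rts h.monic _ _).2 hz.1⟩⟩
    refine (Set.ncard_le_ncard (t := (T : Set (ZMod p × ZMod p))) (fun z hz => hT z hz)).trans ?_
    rw [Set.ncard_coe_finset]
    refine card_biUnion_le.trans ((sum_le_card_nsmul _ _ f.natDegree fun τ _ => ?_).trans
      (Nat.mul_le_mul_right _ (hR p)))
    rw [card_product, card_singleton, one_mul]
    exact card_rts _ _
  have h3 := Set.ncard_inter_add_ncard_sdiff_eq_ncard (pts f p) Z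
  have h4 := hK p hp
  have h6 : (1 : ℝ) ≤ √p := Real.one_le_sqrt.2 (by exact_mod_cast hp.pos)
  rw [h1]
  rw [← h3] at h4
  generalize (pts f p \ Z).ncard = u at *
  generalize (pts f p ∩ Z).ncard = v at *
  generalize R * f.natDegree = w at *
  have h7 : (v : ℝ) ≤ w := by exact_mod_cast h2
  have h8 : (w : ℝ) ≤ w * √p := le_mul_of_one_le_right (Nat.cast_nonneg _) h6
  have h9 : (0 : ℝ) ≤ v := Nat.cast_nonneg _
  rw [abs_le] at h4 ⊢
  push_cast at h4
  constructor <;> nlinarith [h4.1, h4.2]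

include Γ in
omit [IsDomain B] in
theorem Mod.weil' (h : Mod θ f Δ) : ∃ K : ℝ, ∀ p : ℕ, p.Prime →
    |(Nat.card (B →+* ZMod p) : ℝ) - p| ≤ K * √p := by
  obtain ⟨K, hK⟩ := h.count Γ
  obtain ⟨R, hR⟩ := few h.ne
  obtain ⟨D, hD⟩ := fibre Γ
  refine ⟨K + (R * D : ℕ), fun p hp => ?_⟩
  have : Fact p.Prime := ⟨hp⟩
  have : Finite (B →+* ZMod p) := Set.finite_univ_iff.1 (by simpa using (hD (ZMod p) univ).1)
  have h2 := (hD (ZMod p) (univ.filter fun τ : ZMod p =>
    (Δ.map (Int.castRingHom (ZMod p))).eval τ = 0)).2.trans (Nat.mul_le_mul_right _ (hR p))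
  have h3 := Set.ncard_add_ncard_compl
    {x : B →+* ZMod p | (Δ.map (Int.castRingHom (ZMod p))).eval (x Γ.t) ≠ 0}
  have h4 := hK p hp
  have h6 : (1 : ℝ) ≤ √p := Real.one_le_sqrt.2 (by exact_mod_cast hp.pos)
  simp only [mem_filter, mem_univ, true_and] at h2
  simp only [Set.compl_ofPred, not_not] at h3
  rw [← h3]
  generalize {x : B →+* ZMod p | (Δ.map (Int.castRingHom (ZMod p))).eval (x Γ.t) ≠ 0}.ncard = u at *
  generalize {x : B →+* ZMod p | (Δ.map (Int.castRingHom (ZMod p))).eval (x Γ.t) = 0}.ncard = v at *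
  generalize R * D = w at *
  have h7 : (v : ℝ) ≤ w := by exact_mod_cast h2
  have h8 : (w : ℝ) ≤ w * √p := le_mul_of_one_le_right (Nat.cast_nonneg _) h6
  have h9 : (0 : ℝ) ≤ v := Nat.cast_nonneg _
  rw [abs_le] at h4 ⊢
  push_cast
  constructor <;> nlinarith [h4.1, h4.2]

omit [IsDomain B] in
theorem Mod.weil (h : Mod θ f Δ) : Γ.Weil := by
  obtain ⟨K, hK⟩ := h.weil' Γ
  exact ⟨K, 1 / 2, by norm_num, fun p hp => Real.sqrt_eq_rpow p ▸ hK p hp⟩

omit [IsDomain B] in
theorem Mod.etale (h : Mod θ f Δ) : ∀ᶠ q : ℕ in atTop, q.Prime →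
    ∃ (x : B →+* ZMod q) (a : ℤ) (s : B), x s ≠ 0 ∧ x Γ.t = a ∧
      ∀ b, x b = 0 → s * b ∈ Ideal.span {(q : B), Γ.t - a} := by
  obtain ⟨K, hK⟩ := h.count Γ
  filter_upwards [eventually_gt_atTop ⌈K ^ 2⌉₊] with q hq hp
  have : Fact q.Prime := ⟨hp⟩
  obtain ⟨x, hx⟩ : {x : B →+* ZMod q |
      (Δ.map (Int.castRingHom (ZMod q))).eval (x Γ.t) ≠ 0}.Nonempty := by
    refine Set.nonempty_of_ncard_ne_zero fun e => ?_
    have h1 := hK q hp
    have h2 : K ^ 2 < q := (Nat.le_ceil _).trans_lt (by exact_mod_cast hq)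
    have h3 : K < √q := Real.lt_sqrt_of_sq_lt h2
    have h4 : 0 < √(q : ℝ) := Real.sqrt_pos.2 (by exact_mod_cast hp.pos)
    rw [e, Nat.cast_zero, zero_sub, abs_neg, Nat.abs_cast] at h1
    nlinarith [Real.mul_self_sqrt (Nat.cast_nonneg (α := ℝ) q)]
  obtain ⟨a, ha⟩ := ZMod.intCast_surjective (x Γ.t)
  let ρ : ℤ[X] →+* ZMod q := (evalRingHom (x Γ.t)).comp (mapRingHom (Int.castRingHom (ZMod q)))
  have hρ : ∀ g : ℤ[X][X], (g.map ρ).eval (x θ) = x (aeval θ g) := fun g => by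
    rw [hom_aeval Γ, ← map_evalRingHom_eval, Polynomial.map_map]
  have hsur : Function.Surjective ρ := fun z => by
    obtain ⟨n, rfl⟩ := ZMod.intCast_surjective z
    exact ⟨n, map_intCast _ _⟩
  have hker : ∀ g : ℤ[X][X], g.map ρ = 0 → aeval θ g ∈ Ideal.span {(q : B), Γ.t - a} :=
    fun g hg => by
    rw [aeval_eq_sum_range]
    refine Ideal.sum_mem _ fun i _ => ?_
    rw [Algebra.smul_def]
    refine Ideal.mul_mem_right _ _ ?_
    have e1 : ρ (g.coeff i) = 0 := by rw [← coeff_map, hg, coeff_zero]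
    obtain ⟨r, hr⟩ := X_sub_C_dvd_sub_C_eval (a := a) (p := g.coeff i)
    obtain ⟨n, hn⟩ : (q : ℤ) ∣ (g.coeff i).eval a := by
      rw [← ZMod.intCast_zmod_eq_zero_iff_dvd, ← e1]
      change _ = ((g.coeff i).map _).eval _
      rw [← ha, eval_intCast_map, eq_intCast, Int.cast_id]
    rw [eq_add_of_sub_eq hr, hn]
    refine Ideal.mem_span_pair.2 ⟨n, algebraMap ℤ[X] B r, ?_⟩
    simp [Geo.t]
    ring
  obtain ⟨u, hu⟩ : X - C (x θ) ∣ f.map ρ := dvd_iff_isRoot.2 ((hρ f).trans (by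
    rw [h.root, map_zero]))
  obtain ⟨u, rfl⟩ := map_surjective ρ hsur u
  obtain ⟨aa, bb, hs⟩ := h.sep
  refine ⟨x, a, algebraMap ℤ[X] B Δ * aeval θ u, ?_, ha.symm, fun b hb => ?_⟩
  · rw [map_mul, hom_alg Γ, ← hρ]
    refine mul_ne_zero hx fun e => hx ?_
    have := congrArg (fun g : ℤ[X][X] => (g.map ρ).eval (x θ)) hs
    simp only [Polynomial.map_add, Polynomial.map_mul, ← derivative_map, hu] at this
    simpa [e, ρ] using this.symm
  · obtain ⟨g, hg⟩ := h.den b
    obtain ⟨v, hv⟩ : X - C (x θ) ∣ g.map ρ := dvd_iff_isRoot.2 ((hρ g).trans (by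
      rw [hg, Algebra.smul_def, map_mul, hb, mul_zero]))
    obtain ⟨v, rfl⟩ := map_surjective ρ hsur v
    have := hker (u * g - f * v) (by
      rw [Polynomial.map_sub, Polynomial.map_mul, Polynomial.map_mul, hu, hv]; ring)
    rw [map_sub, map_mul, map_mul, h.root, zero_mul, sub_zero, hg, Algebra.smul_def] at this
    rwa [mul_assoc, mul_left_comm]

variable {L : Type} [Field L] [Algebra ℚ L]
  (halg : ∀ x : L, IsAlgebraic ℚ x → x ∈ Set.range (algebraMap ℚ L)) (ι : B →+* L)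
  (hι : Function.Injective ι)

include halg hι

theorem weil : Γ.Weil := by
  obtain ⟨_, _, _, h⟩ := exists_mod Γ halg ι hι
  exact h.weil Γ

include Γ in
theorem good : ∃ N : ℕ, 0 < N ∧ ∀ p : ℕ, p.Prime → ¬ p ∣ N → (Ideal.span {(p : B)}).IsPrime := by
  obtain ⟨_, _, _, h⟩ := exists_mod Γ halg ι hι
  obtain ⟨N, hN⟩ := eventually_atTop.1 (h.good Γ)
  exact ⟨N.factorial, N.factorial_pos, fun p hp hd =>
    hN p (le_of_not_ge fun e => hd (Nat.dvd_factorial hp.pos e)) hp⟩

theorem etale : ∃ N : ℕ, ∀ q : ℕ, N ≤ q → q.Prime → (Ideal.span {(q : B)}).IsPrime ∧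
    ∃ (x : B →+* ZMod q) (a : ℤ) (s : B), x s ≠ 0 ∧ x Γ.t = a ∧
      ∀ b, x b = 0 → s * b ∈ Ideal.span {(q : B), Γ.t - a} := by
  obtain ⟨_, _, _, h⟩ := exists_mod Γ halg ι hι
  obtain ⟨N, hN⟩ := eventually_atTop.1 ((h.good Γ).and (h.etale Γ))
  exact ⟨N, fun q hq hp => ⟨(hN q hq).1 hp, (hN q hq).2 hp⟩⟩

end Pool.Agent.Lib.BK2.PW
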