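import Pool.Agent.Lib.BK2.NFG
import Pool.Agent.Lib.BK2.HOM
import Pool.Agent.Lib.BK2.PlaneW

/-! The number of points over prime fields when the constants form a number field. -/

open Polynomial NumberField Finset

namespace Pool.Agent.Lib.BK2

namespace NFCNTK

variable {B : Type} [CommRing B] [IsDomain B] [Algebra ℤ[X] B] {d : ℕ} [NeZero d] {Γ : Geo B d}
  {π : Γ.Plane} {K : Type} [Field K] [NumberField K] (c : π.Con K)

theorem map_int {R S : Type} [CommRing R] [CommRing S] (ψ : R →+* S) (g : ℤ[X][X]) :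
    (g.map (mapRingHom (Int.castRingHom R))).map (mapRingHom ψ) =
      g.map (mapRingHom (Int.castRingHom S)) := by
  rw [Polynomial.map_map, mapRingHom_comp, RingHom.ext_int (ψ.comp _) (Int.castRingHom S)]

omit [IsDomain B] in
theorem on_F {k : Type} [Field k] (ψ : 𝓞 K →+* k) {a b : k}
    (h : (c.G.map (mapRingHom ψ)).evalEval a b = 0) :
    (π.F.map (mapRingHom (Int.castRingHom k))).evalEval a b = 0 := by
  obtain ⟨q, hq⟩ := (c.dvd (π.F.map (mapRingHom (Int.castRingHom _)))).1 (by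
    rw [map_int, ← PW.hom_aeval Γ, (π.dvd _).2 dvd_rfl, map_zero])
  rw [← map_int ψ, hq, Polynomial.map_mul, evalEval_mul, h, zero_mul]

omit [IsDomain B] in
theorem det (r : 𝓞 K) : ∃ (n : ℕ) (g : ℤ[X][X]), ∀ (k : Type) [Field k] (ψ : 𝓞 K →+* k) (a b : k),
    (c.G.map (mapRingHom ψ)).evalEval a b = 0 →
      ψ r * ((π.Δ * c.D ^ n).map (Int.castRingHom k)).eval a =
        (g.map (mapRingHom (Int.castRingHom k))).evalEval a b := by
  obtain ⟨n, b, e⟩ := IsLocalization.Away.surj (algebraMap ℤ[X] B c.D) (c.j r)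
  obtain ⟨g, hg⟩ := π.gen b
  obtain ⟨q, hq⟩ := (c.dvd (C (C r) * (C (π.Δ * c.D ^ n)).map (mapRingHom (Int.castRingHom _)) -
      g.map (mapRingHom (Int.castRingHom _)))).1 (by
    rw [Polynomial.map_sub, Polynomial.map_mul, map_int, map_int, evalEval_sub, evalEval_mul,
      ← PW.hom_aeval Γ, ← PW.hom_aeval Γ, ← hg, aeval_C, map_mul, map_mul, map_mul, ← e, map_pow,
      map_pow]
    simp only [map_C, coe_mapRingHom, evalEval_C, eval_C]
    ring)
  refine ⟨n, g, fun k _ ψ a b h => ?_⟩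
  have := congrArg (fun q => (q.map (mapRingHom ψ)).evalEval a b) hq
  simp only [Polynomial.map_sub, Polynomial.map_mul, map_int, evalEval_sub, evalEval_mul, h,
    zero_mul, sub_eq_zero] at this
  rw [← this]
  simp only [map_C, coe_mapRingHom, evalEval_C, eval_C]

omit [IsDomain B] in
theorem uniq {k : Type} [Field k] {ψ ψ' : 𝓞 K →+* k} {a b : k}
    (h : (c.G.map (mapRingHom ψ)).evalEval a b = 0)
    (h' : (c.G.map (mapRingHom ψ')).evalEval a b = 0)
    (h0 : ((π.Δ * c.D).map (Int.castRingHom k)).eval a ≠ 0) : ψ = ψ' := by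
  ext r
  obtain ⟨n, g, hg⟩ := det c r
  rw [Polynomial.map_mul, eval_mul, mul_ne_zero_iff] at h0
  refine mul_right_cancel₀ ?_ ((hg k ψ a b h).trans (hg k ψ' a b h').symm)
  rw [Polynomial.map_mul, Polynomial.map_pow, eval_mul, eval_pow]
  exact mul_ne_zero h0.1 (pow_ne_zero _ h0.2)

omit [IsDomain B] in
theorem inj {k : Type} [Field k] {x x' : B →+* k} (e : x Γ.t = x' Γ.t) (e' : x π.u = x' π.u)
    (h1 : (π.Δ.map (Int.castRingHom k)).eval (x Γ.t) ≠ 0) : x = x' := by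
  ext b
  obtain ⟨g, hg⟩ := π.gen b
  have e1 := PW.hom_aeval Γ x π.u g
  have e2 := PW.hom_aeval Γ x' π.u g
  rw [← hg, map_mul, PW.hom_alg Γ] at e1 e2
  rw [← e, ← e', ← e1] at e2
  exact (mul_left_cancel₀ h1 e2).symm

theorem fin (K : Type) [Field K] [NumberField K] (k : Type) [Field k] :
    Finite (𝓞 K →+* k) ∧ Nat.card (𝓞 K →+* k) ≤ Module.finrank ℤ (𝓞 K) :=
  ⟨.of_equiv _ (RingHom.equivIntAlgHom _ _).symm,
    (Nat.card_congr (RingHom.equivIntAlgHom _ _)).trans_le (card_algHom_le_finrank ℤ _ k)⟩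

theorem good {k : Type} [Field k] [DecidableEq k] [Fintype k] [Fintype (B →+* k)]
    [Fintype (𝓞 K →+* k)] :
    #{x : B →+* k | ((π.Δ * c.D).map (Int.castRingHom k)).eval (x Γ.t) ≠ 0} =
      ∑ ψ : 𝓞 K →+* k, #{z : k × k | (c.G.map (mapRingHom ψ)).evalEval z.1 z.2 = 0 ∧
        ((π.Δ * c.D).map (Int.castRingHom k)).eval z.1 ≠ 0} := by
  have hu : ∀ x : B →+* k, ((π.Δ * c.D).map (Int.castRingHom k)).eval (x Γ.t) ≠ 0 →
      IsUnit (x (algebraMap ℤ[X] B c.D)) := fun x hx => by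
    rw [Polynomial.map_mul, eval_mul, mul_ne_zero_iff] at hx
    rw [PW.hom_alg Γ]
    exact hx.2.isUnit
  have hΔ : ∀ a : k, ((π.Δ * c.D).map (Int.castRingHom k)).eval a ≠ 0 →
      (π.Δ.map (Int.castRingHom k)).eval a ≠ 0 := fun a ha => by
    rw [Polynomial.map_mul, eval_mul, mul_ne_zero_iff] at ha
    exact ha.1
  rw [← card_sigma]
  refine card_bij (fun x hx => ⟨c.psi x (hu x (mem_filter.1 hx).2), x Γ.t, x π.u⟩)
    (fun x hx => mem_sigma.2 ⟨mem_univ _, mem_filter.2 ⟨mem_univ _, c.psi_G _ _,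
      (mem_filter.1 hx).2⟩⟩) (fun x hx x' _ e => ?_) ?_
  · have e1 := congrArg (fun w : Σ _ : 𝓞 K →+* k, k × k => w.2) e
    exact inj (Prod.mk.inj e1).1 (Prod.mk.inj e1).2 (hΔ _ (mem_filter.1 hx).2)
  · rintro ⟨ψ, a, b⟩ hw
    obtain ⟨-, h1, h2⟩ := mem_filter.1 (mem_sigma.1 hw).2
    obtain ⟨x, rfl, rfl⟩ := stHOM B d Γ π k a b (on_F c ψ h1) (by
      rw [aeval_def, eval₂_eq_eval_map]; exact hΔ _ h2)
    refine ⟨x, mem_filter.2 ⟨mem_univ _, h2⟩, ?_⟩
    rw [uniq c (c.psi_G _ _) h1 h2]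

theorem bad {k : Type} [Field k] [DecidableEq k] [Fintype k] {G : k[X][X]} (hG : G.Monic)
    (S : Finset k) :
    #{z : k × k | G.evalEval z.1 z.2 = 0 ∧ z.1 ∈ S} ≤ #S * G.natDegree := by
  refine (card_le_card (t := S.biUnion fun a => {a} ×ˢ (G.map (evalRingHom a)).roots.toFinset)
    fun z hz => ?_).trans (card_biUnion_le.trans (sum_le_card_nsmul _ _ _ fun a _ => ?_))
  · obtain ⟨-, h1, h2⟩ := mem_filter.1 hz
    refine mem_biUnion.2 ⟨_, h2, mem_product.2 ⟨mem_singleton_self _, ?_⟩⟩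
    rwa [Multiset.mem_toFinset, mem_roots (hG.map _).ne_zero, IsRoot, map_evalRingHom_eval]
  · rw [card_product, card_singleton, one_mul]
    exact (Multiset.toFinset_card_le _).trans ((card_roots' _).trans natDegree_map_le)

theorem arith {u v w : ℕ} {q A s : ℝ} (h : |((u + v : ℕ) : ℝ) - q| ≤ A * s) (hv : v ≤ w)
    (hs : 1 ≤ s) : |(u : ℝ) - q| ≤ (|A| + w) * s := by
  have h7 : (v : ℝ) ≤ w := by exact_mod_cast hv
  have h8 : (w : ℝ) ≤ w * s := le_mul_of_one_le_right (Nat.cast_nonneg _) hs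
  have h9 : (0 : ℝ) ≤ v := Nat.cast_nonneg _
  have h1 : A * s ≤ |A| * s := mul_le_mul_of_nonneg_right (le_abs_self A) (by linarith)
  rw [abs_le] at h ⊢
  push_cast at h
  constructor <;> nlinarith [h.1, h.2]

theorem arith' {u v w : ℕ} {q A s : ℝ} (h : |(u : ℝ) - q| ≤ A * s) (hv : v ≤ w)
    (hs : 1 ≤ s) : |((u + v : ℕ) : ℝ) - q| ≤ (A + w) * s := by
  have h7 : (v : ℝ) ≤ w := by exact_mod_cast hv
  have h8 : (w : ℝ) ≤ w * s := le_mul_of_one_le_right (Nat.cast_nonneg _) hs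
  have h9 : (0 : ℝ) ≤ v := Nat.cast_nonneg _
  rw [abs_le] at h ⊢
  push_cast
  constructor <;> nlinarith [h.1, h.2]

end NFCNTK

open NFCNTK in
theorem stCNTK (h : St_STEPK) : St_CNTK := by
  intro B _ _ _ d _ Γ π K _ _ c
  obtain ⟨A, hA⟩ := h K c.G c.monic c.irr
  obtain ⟨R, hR⟩ := PW.few (mul_ne_zero π.ne c.ne)
  obtain ⟨D, hD⟩ := PW.fibre Γ
  refine ⟨Module.finrank ℤ (𝓞 K) * (|A| + (R * c.G.natDegree : ℕ)) + (R * D : ℕ), fun p hp => ?_⟩
  have : Fact p.Prime := ⟨hp⟩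
  classical
  have : Finite (B →+* ZMod p) := Set.finite_univ_iff.1 (by simpa using (hD (ZMod p) univ).1)
  obtain ⟨f1, f2⟩ := fin K (ZMod p)
  have := Fintype.ofFinite (B →+* ZMod p)
  have := Fintype.ofFinite (𝓞 K →+* ZMod p)
  have h6 : (1 : ℝ) ≤ √p := Real.one_le_sqrt.2 (by exact_mod_cast hp.pos)
  have h1 : ∀ ψ : 𝓞 K →+* ZMod p, |(#{z : ZMod p × ZMod p |
      (c.G.map (mapRingHom ψ)).evalEval z.1 z.2 = 0 ∧
        ((π.Δ * c.D).map (Int.castRingHom (ZMod p))).eval z.1 ≠ 0} : ℝ) - p| ≤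
      (|A| + (R * c.G.natDegree : ℕ)) * √p := fun ψ => by
    have a1 := hA p hp ψ
    rw [Nat.card_eq_fintype_card, Fintype.card_subtype, ← card_filter_add_card_filter_not
      (fun z : ZMod p × ZMod p => ((π.Δ * c.D).map (Int.castRingHom (ZMod p))).eval z.1 ≠ 0),
      filter_filter, filter_filter] at a1
    refine arith a1 ?_ h6
    have a2 := (bad (c.monic.map (mapRingHom ψ)) _).trans
      (Nat.mul_le_mul (hR p) natDegree_map_le)
    simpa only [mem_filter, mem_univ, true_and, not_not] using a2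
  have h2 := (hD (ZMod p) _).2.trans (Nat.mul_le_mul_right _ (hR p))
  rw [Nat.card_eq_fintype_card, ← card_univ, ← card_filter_add_card_filter_not
    (fun x : B →+* ZMod p => ((π.Δ * c.D).map (Int.castRingHom (ZMod p))).eval (x Γ.t) ≠ 0)]
  refine arith' ?_ ?_ h6
  · rw [good (k := ZMod p) c, Nat.cast_sum, Nat.card_eq_fintype_card, ← nsmul_eq_mul, ← card_univ, ← sum_const,
      ← sum_sub_distrib]
    refine (abs_sum_le_sum_abs _ _).trans ((sum_le_card_nsmul _ _ _ fun ψ _ => h1 ψ).trans ?_)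
    rw [nsmul_eq_mul, mul_assoc, card_univ, ← Nat.card_eq_fintype_card]
    exact mul_le_mul_of_nonneg_right (by exact_mod_cast f2) (by positivity)
  · rw [← Set.ncard_coe_finset]
    simpa only [mem_filter, mem_univ, true_and, not_not, coe_filter] using h2

end Pool.Agent.Lib.BK2
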