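import Pool.Agent.Lib.BK2.NFBlue

/-! The norm of the second member of a split pair is primitive. -/

open Polynomial Finset

noncomputable section

namespace Pool.Agent.Lib.BK2

namespace Prim2

section Weight

variable {k : Type} [CommRing k]

/-- the substitution `Y ↦ Y t ^ j`, with values in polynomials in `t` over `k[Y]` -/
def tw (j : ℕ) : k[X][X] →+* k[X][X] :=
  eval₂RingHom (mapRingHom C) (C X * X ^ j)

theorem tw_C (j : ℕ) (a : k[X]) : tw j (C a) = a.map C := by simp [tw]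

theorem tw_X (j : ℕ) : tw (k := k) j X = C X * X ^ j := by simp [tw]

theorem tw_coeff (j : ℕ) (P : k[X][X]) (n i : ℕ) :
    ((tw j P).coeff (n + j * i)).coeff i = (P.coeff i).coeff n := by
  induction P using Polynomial.induction_on' with
  | add p q hp hq => simp only [map_add, coeff_add, hp, hq]
  | monomial a c =>
    rw [← C_mul_X_pow_eq_monomial, map_mul, map_pow, tw_C, tw_X, mul_pow, ← C_pow, ← pow_mul,
      ← mul_assoc, coeff_mul_X_pow', coeff_C_mul_X_pow]
    by_cases h : i = a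
    · subst h
      rw [if_pos (by omega), if_pos rfl, Nat.add_sub_cancel, coeff_mul_C, coeff_map,
        coeff_C_mul_X_pow, if_pos rfl]
    · rw [if_neg h, coeff_zero]
      split_ifs
      · rw [coeff_mul_C, coeff_map, coeff_C_mul_X_pow, if_neg h]
      · simp

theorem le_tw (j : ℕ) (P : k[X][X]) (i : ℕ) (h : P.coeff i ≠ 0) :
    tw j P ≠ 0 ∧ (P.coeff i).natDegree + j * i ≤ (tw j P).natDegree := by
  have h1 : (tw j P).coeff ((P.coeff i).natDegree + j * i) ≠ 0 := fun e => by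
    have := tw_coeff j P (P.coeff i).natDegree i
    rw [e, coeff_zero] at this
    exact leadingCoeff_ne_zero.2 h this.symm
  exact ⟨fun e => h1 (by rw [e, coeff_zero]), le_natDegree_of_ne_zero h1⟩

theorem det_le {S : Type} [CommRing S] {n : Type} [Fintype n] [DecidableEq n] (M : Matrix n n S[X])
    (δ : n → ℕ) (j : ℕ) (h : ∀ l i, M l i ≠ 0 → (M l i).natDegree + δ l ≤ j + δ i) :
    M.det.natDegree ≤ j * Fintype.card n := by
  rw [Matrix.det_apply']
  refine natDegree_sum_le_of_forall_le _ _ fun σ _ => ?_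
  by_cases h0 : ∃ i, M (σ i) i = 0
  · obtain ⟨i, hi⟩ := h0
    rw [prod_eq_zero (f := fun i => M (σ i) i) (mem_univ i) hi, mul_zero, natDegree_zero]
    exact Nat.zero_le _
  · refine natDegree_mul_le.trans ?_
    rw [natDegree_intCast, zero_add]
    refine (natDegree_prod_le _ _).trans ?_
    have h1 : ∑ i, ((M (σ i) i).natDegree + δ (σ i)) ≤ ∑ i, (j + δ i) :=
      sum_le_sum fun i _ => h _ _ fun e => h0 ⟨i, e⟩
    rw [sum_add_distrib, sum_add_distrib, Equiv.sum_comp σ δ, sum_const, card_univ, smul_eq_mul,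
      mul_comm] at h1
    omega

theorem tw_charpoly [Nontrivial k] {n : Type} [Fintype n] [DecidableEq n] (M : Matrix n n k[X])
    (δ : n → ℕ) (j : ℕ) (h : ∀ l i, M l i ≠ 0 → (M l i).natDegree + δ l ≤ j + δ i) :
    (tw j M.charpoly).natDegree ≤ j * Fintype.card n := by
  rw [Matrix.charpoly, RingHom.map_det]
  refine det_le _ δ j fun l i hne => ?_
  rw [RingHom.mapMatrix_apply, Matrix.map_apply] at hne ⊢
  have h1 : M l i ≠ 0 → ((M l i).map (C : k →+* k[X])).natDegree + δ l ≤ j + δ i := fun e =>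
    (Nat.add_le_add_right natDegree_map_le _).trans (h l i e)
  by_cases e : l = i
  · subst e
    rw [Matrix.charmatrix_apply_eq, map_sub, tw_X, tw_C]
    refine Nat.add_le_add_right ((natDegree_sub_le _ _).trans (max_le ?_ ?_)) _
    · exact natDegree_C_mul_X_pow_le _ _
    · by_cases e0 : M l l = 0
      · simp [e0]
      · have := h1 e0
        omega
  · rw [Matrix.charmatrix_apply_ne _ _ _ e, map_neg, tw_C] at hne ⊢
    rw [natDegree_neg]
    exact h1 fun e0 => hne (by simp [e0])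

theorem factor_le [IsDomain k] {μ χ : k[X][X]} (hμ : μ.Monic) (hχ : χ.Monic) (hd : μ ∣ χ) (j : ℕ)
    (h : (tw j χ).natDegree ≤ j * χ.natDegree) (h0 : μ.coeff 0 ≠ 0) :
    (μ.coeff 0).natDegree ≤ j * μ.natDegree := by
  obtain ⟨ν, rfl⟩ := hd
  have hν : ν.Monic := hμ.of_mul_monic_left hχ
  obtain ⟨a1, a2⟩ := le_tw j μ 0 h0
  obtain ⟨b1, b2⟩ := le_tw j ν ν.natDegree (by rw [hν.coeff_natDegree]; exact one_ne_zero)
  rw [map_mul, natDegree_mul a1 b1, hμ.natDegree_mul hν, mul_add] at h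
  omega

end Weight

variable {B : Type} [CommRing B] [Algebra ℤ[X] B] {d : ℕ} [NeZero d] (Γ : Geo B d)

theorem repr_deg {j : ℕ} {f : B} (hf : f ∈ Γ.V j) (l i : Fin d)
    (h : Algebra.leftMulMatrix Γ.b f l i ≠ 0) :
    (Algebra.leftMulMatrix Γ.b f l i).natDegree + Γ.δ l ≤ j + Γ.δ i := by
  rw [Algebra.leftMulMatrix_eq_repr_mul] at h ⊢
  have e : Γ.b.repr (f * Γ.b i) l = ∑ a, Γ.b.repr f a * Γ.b.repr (Γ.b a * Γ.b i) l := by
    conv_lhs => rw [← Γ.b.sum_repr f]
    simp only [sum_mul, smul_mul_assoc, map_sum, map_smul, Finsupp.coe_finsetSum, Finset.sum_apply,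
      Finsupp.smul_apply, smul_eq_mul]
  have h1 : ∀ a, Γ.b.repr f a * Γ.b.repr (Γ.b a * Γ.b i) l ≠ 0 →
      (Γ.b.repr f a * Γ.b.repr (Γ.b a * Γ.b i) l).natDegree + Γ.δ l ≤ j + Γ.δ i := fun a ha => by
    have a1 := hf a
    have a2 := Γ.mul_deg a i l
    rw [degree_eq_natDegree (left_ne_zero_of_mul ha)] at a1
    rw [degree_eq_natDegree (right_ne_zero_of_mul ha)] at a2
    have a3 : (Γ.b.repr f a).natDegree + Γ.δ a ≤ j := by exact_mod_cast a1
    have a4 : (Γ.b.repr (Γ.b a * Γ.b i) l).natDegree + Γ.δ l ≤ Γ.δ a + Γ.δ i := by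
      exact_mod_cast a2
    have := natDegree_mul_le (p := Γ.b.repr f a) (q := Γ.b.repr (Γ.b a * Γ.b i) l)
    omega
  rw [e] at h ⊢
  obtain ⟨a, -, ha⟩ := exists_ne_zero_of_sum_ne_zero h
  have h2 := h1 a ha
  have h3 : (∑ a, Γ.b.repr f a * Γ.b.repr (Γ.b a * Γ.b i) l).natDegree ≤ j + Γ.δ i - Γ.δ l := by
    refine natDegree_sum_le_of_forall_le _ _ fun c _ => ?_
    by_cases hc : Γ.b.repr f c * Γ.b.repr (Γ.b c * Γ.b i) l = 0
    · rw [hc, natDegree_zero]; exact Nat.zero_le _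
    · have := h1 c hc
      omega
  omega

theorem poly_mem {j : ℕ} {g : ℤ[X]} (hg : g.natDegree ≤ j) : algebraMap ℤ[X] B g ∈ Γ.V j := by
  intro l
  rw [Algebra.algebraMap_eq_smul_one, ← Γ.b0, map_smul, Module.Basis.repr_self,
    Finsupp.smul_apply, smul_eq_mul]
  by_cases h : l = 0
  · subst h
    rw [Finsupp.single_eq_same, mul_one, Γ.δ0, Nat.cast_zero, add_zero]
    exact degree_le_natDegree.trans (by exact_mod_cast hg)
  · rw [Finsupp.single_eq_of_ne h, mul_zero, degree_zero, WithBot.bot_add]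
    exact bot_le

/-- a vertical component through `w` -/
theorem exists_comp {p : ℕ} (hp : p.Prime) {w : B}
    (h : (Γ.nrm w).map (Int.castRingHom (ZMod p)) = 0) :
    ∃ Q : Ideal B, Q.IsPrime ∧ w ∈ Q ∧ ∀ g : ℤ[X],
      algebraMap ℤ[X] B g ∈ Q ↔ g.map (Int.castRingHom (ZMod p)) = 0 := by
  have : Fact p.Prime := ⟨hp⟩
  have : Module.Finite ℤ[X] B := Module.Finite.of_basis Γ.b
  let φ : ℤ[X] →+* (ZMod p)[X] := mapRingHom (Int.castRingHom (ZMod p))
  have : (RingHom.ker φ).IsPrime := RingHom.ker_isPrime φ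
  obtain ⟨Q, h1, h2, h3⟩ := Ideal.exists_ideal_over_prime_of_isIntegral (RingHom.ker φ)
    (Ideal.span {w}) (fun g hg => by
      obtain ⟨s, hs⟩ := Ideal.mem_span_singleton'.1 (Ideal.mem_comap.1 hg)
      have e := congrArg (fun v => φ (Algebra.norm ℤ[X] v)) hs
      have h' : φ (Algebra.norm ℤ[X] w) = 0 := h
      simp only [map_mul, h', mul_zero, Algebra.norm_algebraMap_of_basis Γ.b, map_pow] at e
      exact pow_eq_zero_iff (by simpa using NeZero.ne d) |>.1 e.symm)
  refine ⟨Q, h2, h1 (Ideal.subset_span rfl), fun g => ?_⟩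
  rw [← Ideal.mem_comap, h3]
  rfl

/-- no nonzero `y` on a vertical component has `t ^ a y` of degree less than `a` -/
theorem no_small {p : ℕ} (hp : p.Prime) (Q : Ideal B) (hQ : Q.IsPrime)
    (hc : ∀ g : ℤ[X], algebraMap ℤ[X] B g ∈ Q ↔ g.map (Int.castRingHom (ZMod p)) = 0)
    {a j : ℕ} (hj : j < a) {y z : B} (hz : z ∈ Γ.V j)
    (e : z - algebraMap ℤ[X] B (X ^ a) * y ∈ Q) : y ∈ Q := by
  classical
  have : Fact p.Prime := ⟨hp⟩
  let φ : ℤ[X] →+* (ZMod p)[X] := mapRingHom (Int.castRingHom (ZMod p))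
  have hφ : Function.Surjective φ := map_surjective _ (ZMod.ringHom_surjective _)
  let π := Ideal.Quotient.mk Q
  let σ : (ZMod p)[X] →+* B ⧸ Q := φ.liftOfSurjective hφ ⟨π.comp (algebraMap ℤ[X] B), fun g hg =>
    Ideal.Quotient.eq_zero_iff_mem.2 ((hc g).2 hg)⟩
  have hσ : ∀ g, σ (φ g) = π (algebraMap ℤ[X] B g) := fun g =>
    φ.liftOfRightInverse_comp_apply _ _ _ g
  have hinj : Function.Injective σ := (injective_iff_map_eq_zero σ).2 fun g hg => by
    obtain ⟨g, rfl⟩ := hφ g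
    rw [hσ] at hg
    exact (hc g).1 (Ideal.Quotient.eq_zero_iff_mem.1 hg)
  let _ := σ.toAlgebra
  have : FaithfulSMul (ZMod p)[X] (B ⧸ Q) := (faithfulSMul_iff_algebraMap_injective _ _).2 hinj
  have root : ∀ f : B, aeval (π f) ((Algebra.leftMulMatrix Γ.b f).map φ).charpoly = 0 := fun f => by
    have h1 : aeval f (Algebra.leftMulMatrix Γ.b f).charpoly = 0 :=
      Algebra.leftMulMatrix_injective Γ.b (by
        rw [← aeval_algHom_apply, Matrix.aeval_self_charpoly, map_zero])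
    rw [Matrix.charpoly_map, aeval_def, eval₂_map]
    have h2 : (algebraMap (ZMod p)[X] (B ⧸ Q)).comp φ = π.comp (algebraMap ℤ[X] B) :=
      RingHom.ext hσ
    rw [h2, ← hom_eval₂, ← aeval_def, h1, map_zero]
  have int : ∀ f : B, IsIntegral (ZMod p)[X] (π f) := fun f =>
    ⟨_, Matrix.charpoly_monic _, root f⟩
  by_contra hy
  have hy0 : π y ≠ 0 := fun e => hy (Ideal.Quotient.eq_zero_iff_mem.1 e)
  have hz' : π z = (X ^ a : (ZMod p)[X]) • π y := by
    have := Ideal.Quotient.eq.2 e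
    rw [map_mul, ← hσ] at this
    have e1 : φ (X ^ a) = X ^ a := by simp [φ]
    rw [e1] at this
    exact this
  have hX : (X ^ a : (ZMod p)[X]) ≠ 0 := pow_ne_zero _ X_ne_zero
  have hmin : minpoly (ZMod p)[X] (π z) = (minpoly (ZMod p)[X] (π y)).scaleRoots (X ^ a) := by
    rw [hz', IsIntegrallyClosed.minpoly_smul hX (int y)]
  have h0 : (minpoly (ZMod p)[X] (π y)).coeff 0 ≠ 0 := fun e0 => by
    obtain ⟨ν, hν⟩ := X_dvd_iff.2 e0
    have h1 := minpoly.aeval (ZMod p)[X] (π y)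
    rw [hν, map_mul, aeval_X, mul_eq_zero, or_iff_right hy0] at h1
    have hm := minpoly.monic (int y)
    have hν0 : ν ≠ 0 := fun e => hm.ne_zero (by rw [hν, e, mul_zero])
    have h2 := natDegree_le_of_dvd (minpoly.isIntegrallyClosed_dvd (int y) h1) hν0
    rw [hν, natDegree_X_mul hν0] at h2
    omega
  have hc0 : (minpoly (ZMod p)[X] (π z)).coeff 0 =
      (minpoly (ZMod p)[X] (π y)).coeff 0 * (X ^ a) ^ (minpoly (ZMod p)[X] (π y)).natDegree := by
    rw [hmin, coeff_scaleRoots, Nat.sub_zero]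
  have h1 := factor_le (minpoly.monic (int z)) (Matrix.charpoly_monic _)
    (minpoly.isIntegrallyClosed_dvd (int z) (root z)) j (by
      rw [Matrix.charpoly_natDegree_eq_dim]
      refine tw_charpoly _ Γ.δ j fun l i hne => ?_
      rw [Matrix.map_apply] at hne ⊢
      exact (Nat.add_le_add_right natDegree_map_le _).trans
        (repr_deg Γ hz l i fun e => hne (by rw [e, map_zero])))
    (by rw [hc0]; exact mul_ne_zero h0 (pow_ne_zero _ hX))
  rw [hc0, natDegree_mul h0 (pow_ne_zero _ hX), natDegree_pow, natDegree_X_pow, hmin,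
    natDegree_scaleRoots] at h1
  have h2 := minpoly.natDegree_pos (int y)
  nlinarith

end Prim2

open Prim2 in
theorem stPRIM2 : St_PRIM2 := by
  intro B _ _ d _ Γ m m' e w Z hm hmm hinj hlat
  classical
  have key : ∀ p : ℕ, p.Prime → (Γ.nrm w).map (Int.castRingHom (ZMod p)) ≠ 0 := by
    intro p hp h
    have : Fact p.Prime := ⟨hp⟩
    obtain ⟨Q, hQ, hw, hc⟩ := exists_comp Γ hp h
    obtain ⟨a, ha⟩ : ∃ a : ℤ, ∀ x ∈ Z, x.p = p → x.On (algebraMap ℤ[X] B (X - C a)) := by
      by_cases hx : ∃ x ∈ Z, x.p = p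
      · obtain ⟨x, hx, hxp⟩ := hx
        obtain ⟨a, ha⟩ := ZMod.intCast_surjective (x.2 (algebraMap ℤ[X] B X))
        refine ⟨a, fun x' hx' hp' => ?_⟩
        rw [hinj hx' hx (hp'.trans hxp.symm), Pt.On, map_sub, map_sub, ← ha, eq_intCast,
          map_intCast, map_intCast, sub_self]
      · exact ⟨0, fun x hx' hp' => absurd ⟨x, hx', hp'⟩ hx⟩
    let P : ℕ := ∏ x ∈ Z.filter (fun x => x.p ≠ p), x.p
    have hP : (P : ZMod p) ≠ 0 := by
      rw [Nat.cast_prod, prod_ne_zero_iff]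
      intro x hx e
      rw [ZMod.natCast_eq_zero_iff] at e
      exact (mem_filter.1 hx).2 ((Nat.prime_dvd_prime_iff_eq hp x.1.2).1 e).symm
    let g : ℤ[X] := C (P : ℤ) * (X - C a)
    have hg : g.natDegree ≤ 1 := (natDegree_C_mul_le _ _).trans (natDegree_X_sub_C_le _)
    have hon : ∀ x ∈ Z, x.On (algebraMap ℤ[X] B g) := fun x hx => by
      rw [Pt.On, map_mul, map_mul]
      by_cases hxp : x.p = p
      · exact mul_eq_zero_of_right _ (ha x hx hxp)
      · refine mul_eq_zero_of_left ?_ _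
        rw [eq_intCast, map_intCast, map_intCast, Int.cast_natCast, ZMod.natCast_eq_zero_iff]
        exact dvd_prod_of_mem _ (mem_filter.2 ⟨hx, hxp⟩)
    have hg0 : algebraMap ℤ[X] B g ∉ Q := fun hq => by
      have := (hc g).1 hq
      rw [Polynomial.map_mul, Polynomial.map_sub, map_C, map_X, map_C] at this
      exact mul_ne_zero (C_ne_zero.2 (by simpa using hP)) (X_sub_C_ne_zero _) this
    obtain ⟨y, -, y', -, h1⟩ := hlat _ (poly_mem Γ (hg.trans (by omega))) hon
    obtain ⟨z, hz, z', -, h2⟩ := hlat (algebraMap ℤ[X] B (X ^ (2 * m' - 1) * g))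
      (poly_mem Γ (natDegree_mul_le.trans (by rw [natDegree_X_pow]; omega))) fun x hx => by
        rw [Pt.On, map_mul, map_mul]
        exact mul_eq_zero_of_right _ (hon x hx)
    have he : e ∉ Q := fun he => hg0 (by
      rw [h1]; exact Q.add_mem (Q.mul_mem_right _ he) (Q.mul_mem_right _ hw))
    have h3 : e * (z - algebraMap ℤ[X] B (X ^ (2 * m' - 1)) * y) ∈ Q := by
      have : e * (z - algebraMap ℤ[X] B (X ^ (2 * m' - 1)) * y) =
          w * (algebraMap ℤ[X] B (X ^ (2 * m' - 1)) * y' - z') := by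
        rw [map_mul, h1] at h2
        linear_combination -h2
      rw [this]
      exact Q.mul_mem_right _ hw
    have h4 := no_small Γ hp Q hQ hc (by omega) hz ((hQ.mem_or_mem h3).resolve_left he)
    exact hg0 (by rw [h1]; exact Q.add_mem (Q.mul_mem_left _ h4) (Q.mul_mem_right _ hw))
  intro r hr
  by_contra hu
  obtain ⟨p, hp, hpr⟩ := Int.exists_prime_and_dvd (n := r) fun e => hu (Int.isUnit_iff_natAbs_eq.2 e)
  refine key p.natAbs (Int.prime_iff_natAbs_prime.1 hp) ?_
  obtain ⟨s, hs⟩ := (map_dvd C hpr).trans hr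
  rw [hs, Polynomial.map_mul, map_C, eq_intCast,
    (ZMod.intCast_zmod_eq_zero_iff_dvd p p.natAbs).2 (by simp), C_0, zero_mul]

end Pool.Agent.Lib.BK2
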