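import Pool.Agent.Lib.BK2.NFG
import Pool.Agent.Lib.BK2.PRIM2

/-! Polynomials of small degree vanish on no component of a fibre. -/

open Polynomial NumberField

noncomputable section

namespace Pool.Agent.Lib.BK2

namespace NFComp

theorem key {k0 k : Type} [Field k0] [Field k] [Algebra k0 k] (t u : k) (ht : Transcendental k0 t)
    (G g : k0[X][X]) (hm : G.Monic) (hi : Irreducible G)
    (hG : (G.map (mapRingHom (algebraMap k0 k))).evalEval t u = 0)
    (hg : (g.map (mapRingHom (algebraMap k0 k))).evalEval t u = 0)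
    (hlt : g.natDegree < G.natDegree) : g = 0 := by
  let σ : k0[X] →+* k := (aeval t : k0[X] →ₐ[k0] k).toRingHom
  let _ := σ.toAlgebra
  have : FaithfulSMul k0[X] k :=
    (faithfulSMul_iff_algebraMap_injective _ _).2 (transcendental_iff_injective.1 ht)
  have e : ∀ P : k0[X][X], aeval u P = (P.map (mapRingHom (algebraMap k0 k))).evalEval t u := by
    intro P
    have h : (evalRingHom t).comp (mapRingHom (algebraMap k0 k)) = algebraMap k0[X] k :=
      RingHom.ext fun p => eval_map_algebraMap p t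
    rw [← map_evalRingHom_eval, Polynomial.map_map, h, eval_map_algebraMap]
  rw [← e] at hG hg
  have hu : IsIntegral k0[X] u := ⟨G, hm, hG⟩
  by_contra h0
  have h1 := natDegree_le_of_dvd (minpoly.isIntegrallyClosed_dvd hu hg) h0
  have h2 := eq_of_monic_of_associated (minpoly.monic hu) hm
    ((minpoly.irreducible hu).associated_of_dvd hi (minpoly.isIntegrallyClosed_dvd hu hG))
  rw [h2] at h1
  omega

theorem hom_ev {B S : Type} [CommRing B] [Algebra ℤ[X] B] [CommRing S] (x : B →+* S) (u : B)
    (g : ℤ[X][X]) : x (aeval u g) =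
      (g.map (mapRingHom (Int.castRingHom S))).evalEval (x (algebraMap ℤ[X] B X)) (x u) := by
  have h : (evalRingHom (x (algebraMap ℤ[X] B X))).comp (mapRingHom (Int.castRingHom S)) =
      x.comp (algebraMap ℤ[X] B) := Polynomial.ringHom_ext (fun n => by simp) (by simp)
  rw [← map_evalRingHom_eval, Polynomial.map_map, h, eval_map, aeval_def, hom_eval₂]

end NFComp

open NFComp in
theorem stCOMP (h : St_NOEK) : St_COMP := by
  intro B _ _ _ d _ Γ π K _ _ c
  obtain ⟨p₀, hp₀⟩ := h K c.G c.monic c.irr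
  refine ⟨p₀ + c.D.leadingCoeff.natAbs + 1, fun q hq hN g hlt hg h0 => hg ?_⟩
  have : Fact q.Prime := ⟨hq⟩
  obtain ⟨Q, hQ, hw, hc⟩ := Prim2.exists_comp Γ hq h0
  obtain ⟨k, _, x, hx⟩ : ∃ (k : Type) (_ : Field k) (x : B →+* k), ∀ f, x f = 0 ↔ f ∈ Q :=
    ⟨FractionRing (B ⧸ Q), inferInstance, (algebraMap (B ⧸ Q) _).comp (Ideal.Quotient.mk Q),
      fun f => by
        rw [RingHom.comp_apply, map_eq_zero_iff _ (IsFractionRing.injective _ _),
          Ideal.Quotient.eq_zero_iff_mem]⟩
  have : CharP k q := (CharP.charP_iff_prime_eq_zero hq).2 (by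
    rw [← map_natCast x, ← map_natCast (algebraMap ℤ[X] B), hx, hc, Polynomial.map_natCast,
      ← map_natCast (C : ZMod q →+* (ZMod q)[X]), ZMod.natCast_self, map_zero])
  let _ : Algebra (ZMod q) k := ZMod.algebra k q
  have hD : IsUnit (x (algebraMap ℤ[X] B c.D)) := by
    refine Ne.isUnit fun e => ?_
    have h1 := congrArg (fun p => p.coeff c.D.natDegree) ((hc _).1 ((hx _).1 e))
    simp only [coeff_map, eq_intCast, coeff_zero, coeff_natDegree] at h1
    have h2 := Nat.le_of_dvd (Int.natAbs_pos.2 (leadingCoeff_ne_zero.2 c.ne))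
      (Int.natCast_dvd.1 ((ZMod.intCast_zmod_eq_zero_iff_dvd _ _).1 h1))
    omega
  have ht : Transcendental (ZMod q) (x Γ.t) := transcendental_iff.2 fun p hp => by
    obtain ⟨r, rfl⟩ := map_surjective _ (ZMod.ringHom_surjective (Int.castRingHom (ZMod q))) p
    refine (hc r).1 ((hx _).1 ?_)
    have e : x.comp (algebraMap ℤ[X] B) = (aeval (x Γ.t) : (ZMod q)[X] →ₐ[ZMod q] k).toRingHom.comp
        (mapRingHom (Int.castRingHom (ZMod q))) :=
      Polynomial.ringHom_ext (fun n => by simp) (by simp [Geo.t])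
    exact (RingHom.congr_fun e r).trans hp
  let k0 := algebraicClosure (ZMod q) k
  have hψ : ∀ r, c.psi x hD r ∈ k0 := fun r => mem_algebraicClosure_iff'.2
    ((map_isIntegral_int (c.psi x hD) (RingOfIntegers.isIntegral r)).tower_top)
  let ψ0 : 𝓞 K →+* k0 := (c.psi x hD).codRestrict k0 hψ
  have : CharP k0 q := (algebraMap k0 k).charP (algebraMap k0 k).injective q
  have h1 := key (x Γ.t) (x π.u) (ht.extendScalars k0) (c.G.map (mapRingHom ψ0))
    (g.map (mapRingHom (Int.castRingHom k0))) (c.monic.map _) (hp₀ k0 q (by omega) ψ0)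
    (by rw [Polynomial.map_map, mapRingHom_comp]; exact c.psi_G x hD)
    (by
      rw [Polynomial.map_map, mapRingHom_comp,
        RingHom.ext_int ((algebraMap k0 k).comp _) (Int.castRingHom k)]
      exact (hom_ev x π.u g).symm.trans ((hx _).2 hw))
    (by rw [c.monic.natDegree_map]; exact natDegree_map_le.trans_lt hlt)
  rw [RingHom.ext_int (Int.castRingHom k0)
    ((algebraMap (ZMod q) k0).comp (Int.castRingHom (ZMod q))), ← mapRingHom_comp,
    ← Polynomial.map_map] at h1
  exact (Polynomial.map_eq_zero_iff (map_injective _ (algebraMap (ZMod q) k0).injective)).1 h1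

end Pool.Agent.Lib.BK2
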