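import Pool.Agent.Lib.BK2.NFG
import Pool.Agent.Lib.BK2.Bas

/-! The field of constants and the equation of the plane model over its ring of integers. -/

open Polynomial NumberField

noncomputable section

namespace Pool.Agent.Lib.BK2

namespace NFCONST

section Abs

variable {R L E : Type} [CommRing R] [Field L] [CharZero L] [Algebra R L] [Field E] [Algebra L E]
  [Algebra R E] [IsScalarTower R L E]

theorem exists_fun (hL : ∀ x : L, IsIntegral R x → x ∈ Set.range (algebraMap R L)) {S : Set E}
    (hf : S.Finite) (hS : ∀ s ∈ S, IsIntegral R s) :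
    ∃ Λ : E →ₗ[L] L, Λ 1 ≠ 0 ∧ ∀ s ∈ S, ∃ z : R, Λ s = algebraMap R L z := by
  have : Finite S := hf
  let M := IntermediateField.adjoin L S
  have : FiniteDimensional L M :=
    IntermediateField.finiteDimensional_adjoin fun s hs => (hS s hs).tower_top
  obtain ⟨Λ, hΛ⟩ := LinearMap.exists_extend (p := M.toSubmodule) (Algebra.trace L M)
  have e : ∀ x : M, Λ x = Algebra.trace L M x := fun x => LinearMap.congr_fun hΛ x
  refine ⟨Λ, ?_, fun s hs => ?_⟩
  · have := e 1
    rw [← map_one (algebraMap L M), Algebra.trace_algebraMap, nsmul_one] at this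
    rw [← map_one (algebraMap L E)]
    exact this.trans_ne (Nat.cast_ne_zero.2 Module.finrank_pos.ne')
  · let x : M := ⟨s, IntermediateField.subset_adjoin L S hs⟩
    have h1 : IsIntegral R x :=
      (isIntegral_algHom_iff (M.val.restrictScalars R) Subtype.val_injective).1 (hS s hs)
    obtain ⟨z, hz⟩ := hL _ (Algebra.isIntegral_trace (L := L) h1)
    exact ⟨z, (e x).trans hz.symm⟩

theorem le_deg [IsDomain R] (hL : ∀ x : L, IsIntegral R x → x ∈ Set.range (algebraMap R L))
    (t u : L) (F : R[X][X])
    (hF : ∀ g : R[X][X], (g.map (mapRingHom (algebraMap R L))).evalEval t u = 0 → F ∣ g)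
    (G : E[X][X]) (hG : G.Monic) (hi : ∀ i j, IsIntegral R ((G.coeff i).coeff j))
    (h0 : G.evalEval (algebraMap L E t) (algebraMap L E u) = 0) :
    F.natDegree ≤ G.natDegree := by
  have hf : (Set.range fun q : ℕ × ℕ => (G.coeff q.1).coeff q.2).Finite := by
    refine Set.Finite.subset (Set.Finite.insert 0 ((G.support.finite_toSet.biUnion
      fun i _ => (G.coeff i).support.finite_toSet.image (G.coeff i).coeff))) ?_
    rintro _ ⟨q, rfl⟩
    by_cases h : (G.coeff q.1).coeff q.2 = 0
    · exact Or.inl h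
    · exact Or.inr (Set.mem_biUnion (mem_support_iff.2 fun e => h (by rw [e, coeff_zero]))
        ⟨_, mem_support_iff.2 h, rfl⟩)
  obtain ⟨Λ, h1, h2⟩ := exists_fun hL hf (by rintro _ ⟨q, rfl⟩; exact hi _ _)
  choose z hz using fun i j => h2 ((G.coeff i).coeff j) ⟨(i, j), rfl⟩
  let G₀ : R[X][X] := ∑ i ∈ Finset.range (G.natDegree + 1),
    monomial i (∑ j ∈ Finset.range ((G.coeff i).natDegree + 1), monomial j (z i j))
  let φ : R[X][X] →+* L :=
    (evalEvalRingHom t u).comp (mapRingHom (mapRingHom (algebraMap R L)))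
  have e1 : φ G₀ = 0 := by
    rw [← map_zero Λ, ← h0, evalEval, eval_eq_sum_range (p := G), eval_finsetSum, map_sum,
      map_sum]
    refine Finset.sum_congr rfl fun i _ => ?_
    rw [eval_mul, eval_pow, eval_C, eval_eq_sum_range, Finset.sum_mul, map_sum, map_sum,
      map_sum]
    refine Finset.sum_congr rfl fun j _ => ?_
    rw [← map_pow (algebraMap L E), ← map_pow (algebraMap L E), mul_assoc,
      ← map_mul (algebraMap L E), mul_comm ((G.coeff i).coeff j), ← Algebra.smul_def, map_smul, hz]
    simp [← C_mul_X_pow_eq_monomial, φ]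
    ring
  have e2 : G₀.natDegree ≤ G.natDegree := natDegree_sum_le_of_forall_le _ _ fun i hi =>
    (natDegree_monomial_le _).trans (Nat.lt_succ_iff.1 (Finset.mem_range.1 hi))
  refine (natDegree_le_of_dvd (hF _ e1) fun e => h1 ?_).trans e2
  have e3 := congrArg (fun p : R[X][X] => (p.coeff G.natDegree).coeff 0) e
  have e4 := hz G.natDegree 0
  simp only [hG.coeff_natDegree, coeff_one_zero] at e4
  simp only [G₀, finsetSum_coeff, coeff_monomial, Finset.sum_ite_eq', Finset.mem_range,
    Nat.lt_succ_self, if_true, coeff_zero, hG.coeff_natDegree, natDegree_one, zero_add,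
    Finset.range_one, Finset.sum_singleton] at e3
  rw [e4, e3, map_zero]

attribute [local instance] Polynomial.algebra in
theorem exists_lift {W : Type} [Field W] [Algebra R W] (F : R[X][X]) (hF : F.Monic) (G : W[X][X])
    (hG : G.Monic) (h : G ∣ F.map (mapRingHom (algebraMap R W))) :
    ∃ G' : (integralClosure R W)[X][X], G'.map (mapRingHom (algebraMap _ W)) = G ∧
      G'.natDegree = G.natDegree ∧ G'.Monic := by
  refine lifts_and_natDegree_eq_and_monic ((lifts_iff_coeff_lifts _).2 fun i => ?_) hG
  refine (mem_lifts _).1 ((lifts_iff_coeff_lifts _).2 fun j => ?_)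
  exact ⟨⟨_, (isIntegral_coeff_of_dvd F G hF hG h i).coeff j⟩, rfl⟩

theorem abs_irr [IsDomain R] [FaithfulSMul R L] {W : Type} [Field W] [Algebra R W]
    [FaithfulSMul R W] (hL : ∀ x : L, IsIntegral R x → x ∈ Set.range (algebraMap R L))
    (t u : L) (F : R[X][X]) (hm : F.Monic)
    (hF : ∀ g : R[X][X], (g.map (mapRingHom (algebraMap R L))).evalEval t u = 0 ↔ F ∣ g) :
    Irreducible (F.map (mapRingHom (algebraMap R W))) := by
  have hm' := hm.map (mapRingHom (algebraMap R W))
  have hd := hm.natDegree_map (mapRingHom (algebraMap R W))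
  refine hm'.irreducible_iff_natDegree.2 ⟨fun e => ?_, fun G H hG hH e => ?_⟩
  · rw [e, natDegree_one, eq_comm, hm.natDegree_eq_zero] at hd
    have := (hF 1).2 (hd ▸ dvd_rfl)
    simp at this
  obtain ⟨G', g1, g2, g3⟩ := exists_lift F hm G hG ⟨H, e.symm⟩
  obtain ⟨H', h1, h2, h3⟩ := exists_lift F hm H hH ⟨G, by rw [← e, mul_comm]⟩
  have e1 : G' * H' = F.map (mapRingHom (algebraMap R _)) := by
    refine Polynomial.map_injective (mapRingHom (algebraMap _ W))
      (Polynomial.map_injective _ Subtype.val_injective) ?_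
    rw [Polynomial.map_mul, g1, h1, e, Polynomial.map_map, mapRingHom_comp]
    rfl
  let E := AlgebraicClosure L
  have : FaithfulSMul R E := (faithfulSMul_iff_algebraMap_injective _ _).2
    ((algebraMap L E).injective.comp (FaithfulSMul.algebraMap_injective R L))
  have : FaithfulSMul R (integralClosure R W) := (faithfulSMul_iff_algebraMap_injective _ _).2
    fun a b h => FaithfulSMul.algebraMap_injective R W (congrArg Subtype.val h)
  let σ : integralClosure R W →ₐ[R] E := IsAlgClosed.lift
  have key : ∀ P : (integralClosure R W)[X][X], P.Monic →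
      (P.map (mapRingHom σ.toRingHom)).evalEval (algebraMap L E t) (algebraMap L E u) = 0 →
      F.natDegree ≤ P.natDegree :=
    fun P hP h0 => (le_deg hL t u F (fun g => (hF g).1) _ (hP.map _) (fun i j => by
      rw [coeff_map, coe_mapRingHom, coeff_map]
      exact (integralClosure.isIntegral _).map σ) h0).trans natDegree_map_le
  have e2 : ((G' * H').map (mapRingHom σ.toRingHom)).evalEval
      (algebraMap L E t) (algebraMap L E u) = 0 := by
    rw [e1, Polynomial.map_map, mapRingHom_comp, ← map_zero (algebraMap L E), ← (hF F).2 dvd_rfl,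
      ← map_mapRingHom_evalEval, Polynomial.map_map, mapRingHom_comp, ← IsScalarTower.algebraMap_eq]
    exact congrArg (fun r => (F.map (mapRingHom r)).evalEval _ _) σ.comp_algebraMap
  have e3 : G.natDegree + H.natDegree = F.natDegree := by
    rw [← hG.natDegree_mul hH, e, hd]
  rw [Polynomial.map_mul, evalEval_mul, mul_eq_zero] at e2
  rcases e2 with e2 | e2
  · have := key G' g3 e2
    omega
  · have := key H' h3 e2
    omega

end Abs

theorem aeval_int {R L : Type} [CommRing R] [CommRing L] (f : R →+* L) (t : L) (g : ℤ[X]) :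
    (g.map (Int.castRingHom R)).eval₂ f t = aeval t g := by
  rw [eval₂_map, aeval_def]
  exact congrArg (fun r => g.eval₂ r t) (RingHom.ext_int _ _)

/-- independent constants stay independent over the polynomials in a transcendental element -/
theorem indep {K L ι : Type} [Field K] [CharZero K] [Field L] [Algebra K L] [Fintype ι] (t : L)
    (ht : Transcendental K t) (w : ι → K) (hw : LinearIndependent ℚ w) (g : ι → ℤ[X])
    (h : ∑ i, aeval t (g i) * algebraMap K L (w i) = 0) (i : ι) : g i = 0 := by
  have h1 : ∑ i, (g i).map (Int.castRingHom K) * C (w i) = 0 := by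
    refine transcendental_iff.1 ht _ ?_
    rw [map_sum, ← h]
    refine Finset.sum_congr rfl fun i _ => ?_
    rw [map_mul, aeval_C, aeval_def, aeval_int]
  ext a
  have h2 := congrArg (fun p : K[X] => p.coeff a) h1
  simp only [finsetSum_coeff, coeff_mul_C, coeff_map, eq_intCast, coeff_zero] at h2
  have h3 := Fintype.linearIndependent_iff.1 hw (fun i => ((g i).coeff a : ℚ)) (by
    rw [← h2]
    exact Finset.sum_congr rfl fun i _ => by rw [Algebra.smul_def, map_intCast]) i
  simpa using h3

theorem main {B : Type} [CommRing B] [IsDomain B] [Algebra ℤ[X] B] {d : ℕ} [NeZero d] (Γ : Geo B d)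
    (π : Γ.Plane) (L : Type) [Field L] [CharZero L] [Algebra B L] [IsFractionRing B L] :
    ∃ (K : Type) (_ : Field K) (_ : NumberField K), Nonempty (π.Con K) := by
  classical
  have : Module.Finite ℤ[X] B := Module.Finite.of_basis Γ.b
  have : FaithfulSMul ℤ[X] B :=
    (faithfulSMul_iff_algebraMap_injective _ _).2 Γ.algebraMap_injective
  have hBL := IsFractionRing.injective B L
  let _ : Algebra ℤ[X] L := ((algebraMap B L).comp (algebraMap ℤ[X] B)).toAlgebra
  have : IsScalarTower ℤ[X] B L := IsScalarTower.of_algebraMap_eq fun _ => rfl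
  obtain ⟨t, et⟩ : ∃ t, t = algebraMap B L Γ.t := ⟨_, rfl⟩
  obtain ⟨u, eu⟩ : ∃ u, u = algebraMap B L π.u := ⟨_, rfl⟩
  have ha : ∀ g : ℤ[X], algebraMap ℤ[X] L g = aeval t g := fun g =>
    RingHom.congr_fun (f := algebraMap ℤ[X] L) (g := (aeval t : ℤ[X] →ₐ[ℤ] L).toRingHom)
      (Polynomial.ringHom_ext' (RingHom.ext_int _ _) (by simp [et]; rfl)) g
  have hinj : Function.Injective (algebraMap ℤ[X] L) := hBL.comp Γ.algebraMap_injective
  have ht0 : Transcendental ℤ t := transcendental_iff.2 fun g hg =>
    hinj (by rw [ha, hg, map_zero])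
  have : Algebra.IsAlgebraic ℤ ℚ := IsLocalization.isAlgebraic ℚ (nonZeroDivisors ℤ)
  let K := algebraicClosure ℚ L
  have : Algebra.IsAlgebraic ℚ K := algebraicClosure.isAlgebraic ℚ L
  have ht : Transcendental K t := (ht0.extendScalars ℚ).extendScalars K
  have hloc : IsLocalization (Algebra.algebraMapSubmonoid B (nonZeroDivisors ℤ[X])) L :=
    inferInstance
  have hden : ∀ (ι : Type) [Fintype ι] (x : ι → L), ∃ D : ℤ[X], D ≠ 0 ∧ ∀ i, ∃ b : B,
      algebraMap B L b = algebraMap ℤ[X] L D * x i := by
    intro ι _ x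
    obtain ⟨⟨_, D, hD, rfl⟩, h⟩ := IsLocalization.exist_integer_multiples_of_finite
      (Algebra.algebraMapSubmonoid B (nonZeroDivisors ℤ[X])) x
    refine ⟨D, nonZeroDivisors.ne_zero hD, fun i => ?_⟩
    obtain ⟨b, hb⟩ := h i
    exact ⟨b, by rw [hb, Algebra.smul_def]; rfl⟩
  have hfin : Module.Finite ℚ K := by
    refine Module.rank_lt_aleph0_iff.1 ((rank_le (n := d) fun s hs => ?_).trans_lt
      (Cardinal.natCast_lt_aleph0))
    obtain ⟨D, hD, hb⟩ := hden s fun i => algebraMap K L i.1
    choose b hb using hb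
    have h1 : LinearIndependent ℤ[X] b := by
      refine Fintype.linearIndependent_iff.2 fun g hg => indep t ht _ hs g ?_
      have h2 := congrArg (algebraMap B L) hg
      rw [map_sum, map_zero] at h2
      refine mul_left_cancel₀ (hinj.ne_iff' (map_zero _) |>.2 hD) ?_
      rw [mul_zero, ← h2, Finset.mul_sum]
      refine Finset.sum_congr rfl fun i _ => ?_
      rw [Algebra.smul_def, map_mul, hb, ← IsScalarTower.algebraMap_apply, ha (g i)]
      ring
    have h3 := h1.fintype_card_le_finrank
    rwa [Module.finrank_eq_card_basis Γ.b, Fintype.card_fin, Fintype.card_coe] at h3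
  have : NumberField K := { to_finiteDimensional := hfin }
  have hOL : Function.Injective (algebraMap (𝓞 K) L) :=
    (algebraMap K L).injective.comp (IsFractionRing.injective (𝓞 K) K)
  have : FaithfulSMul (𝓞 K) L := (faithfulSMul_iff_algebraMap_injective _ _).2 hOL
  have hL : ∀ x : L, IsIntegral (𝓞 K) x → x ∈ Set.range (algebraMap (𝓞 K) L) := by
    intro x hx
    have h1 : IsIntegral ℤ x := isIntegral_trans (R := ℤ) x hx
    let y : K := ⟨x, mem_algebraicClosure_iff.2 (h1.tower_top (A := ℚ)).isAlgebraic⟩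
    have h2 : IsIntegral ℤ y :=
      (isIntegral_algHom_iff (algebraMap K L).toIntAlgHom (algebraMap K L).injective).1 h1
    exact ⟨⟨y, h2⟩, rfl⟩
  have htO : Transcendental (𝓞 K) t := ht0.extendScalars (𝓞 K)
  let _ : Algebra (𝓞 K)[X] L := (eval₂RingHom (algebraMap (𝓞 K) L) t).toAlgebra
  have : FaithfulSMul (𝓞 K)[X] L := (faithfulSMul_iff_algebraMap_injective _ _).2
    (transcendental_iff_injective.1 htO)
  have hev : ∀ g : (𝓞 K)[X][X],
      (g.map (mapRingHom (algebraMap (𝓞 K) L))).evalEval t u = aeval u g := fun g =>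
    RingHom.congr_fun (f := (evalEvalRingHom t u).comp (mapRingHom (mapRingHom (algebraMap _ L))))
      (g := (aeval u : (𝓞 K)[X][X] →ₐ[(𝓞 K)[X]] L).toRingHom)
      (Polynomial.ringHom_ext' (Polynomial.ringHom_ext' (RingHom.ext fun r => by
        simp [RingHom.algebraMap_toAlgebra]) (by simp [RingHom.algebraMap_toAlgebra])) (by simp)) g
  have hup : ∀ g : ℤ[X][X], aeval u (g.map (mapRingHom (Int.castRingHom (𝓞 K)))) =
      algebraMap B L (aeval π.u g) := by
    intro g
    rw [← aeval_algebraMap_apply, ← eu, aeval_def, aeval_def, eval₂_map]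
    refine congrArg (fun r => g.eval₂ r u) (RingHom.ext fun c => ?_)
    rw [ha, ← aeval_int (algebraMap (𝓞 K) L)]
    rfl
  have hu : IsIntegral (𝓞 K)[X] u := ⟨π.F.map (mapRingHom (Int.castRingHom (𝓞 K))), π.monic.map _, by
    rw [← aeval_def, hup, (π.dvd _).2 dvd_rfl, map_zero]⟩
  have hG : ∀ g : (𝓞 K)[X][X], (g.map (mapRingHom (algebraMap (𝓞 K) L))).evalEval t u = 0 ↔
      minpoly (𝓞 K)[X] u ∣ g := fun g => by
    rw [hev, minpoly.isIntegrallyClosed_dvd_iff hu]
  let ω := RingOfIntegers.basis K
  obtain ⟨D, hD, hb⟩ := hden _ fun i => algebraMap (𝓞 K) L (ω i)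
  choose b hb using hb
  have hD0 : algebraMap ℤ[X] L D ≠ 0 := hinj.ne_iff' (map_zero _) |>.2 hD
  let S := Localization.Away (algebraMap ℤ[X] B D)
  let ι : S →+* L := IsLocalization.Away.lift (algebraMap ℤ[X] B D) (g := algebraMap B L) hD0.isUnit
  have hι : ∀ f : B, ι (algebraMap B S f) = algebraMap B L f := IsLocalization.Away.lift_eq _ _
  have hιi : Function.Injective ι := by
    refine (injective_iff_map_eq_zero ι).2 fun s hs => ?_
    obtain ⟨n, f, e⟩ := IsLocalization.Away.surj (algebraMap ℤ[X] B D) s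
    have h1 := congrArg ι e
    rw [map_mul, hs, zero_mul, hι, eq_comm, map_eq_zero_iff _ hBL] at h1
    rw [h1, map_zero] at e
    exact ((IsLocalization.Away.algebraMap_isUnit (algebraMap ℤ[X] B D)).pow n).mul_left_eq_zero.1 e
  have hr : ∀ r : 𝓞 K, algebraMap (𝓞 K) L r ∈ ι.range := by
    intro r
    rw [← ω.sum_repr r, map_sum]
    refine sum_mem fun i _ => ?_
    rw [map_zsmul]
    refine zsmul_mem ?_ _
    refine ⟨IsLocalization.Away.invSelf (algebraMap ℤ[X] B D) * algebraMap B S (b i),
      mul_left_cancel₀ hD0 ?_⟩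
    rw [← hb, IsScalarTower.algebraMap_apply ℤ[X] B L, ← hι, ← map_mul, ← mul_assoc,
      IsLocalization.Away.mul_invSelf, one_mul, hι]
  let e : S ≃+* ι.range := RingEquiv.ofBijective ι.rangeRestrict
    ⟨fun a b h => hιi (congrArg Subtype.val h), ι.rangeRestrict_surjective⟩
  let j : 𝓞 K →+* S := e.symm.toRingHom.comp ((algebraMap (𝓞 K) L).codRestrict ι.range hr)
  have hj : ι.comp j = algebraMap (𝓞 K) L := RingHom.ext fun r =>
    congrArg Subtype.val (e.apply_symm_apply ⟨_, hr r⟩)
  refine ⟨K, inferInstance, inferInstance, ⟨⟨D, hD, j, minpoly (𝓞 K)[X] u, minpoly.monic hu,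
    fun g => ?_, ?_, fun φ => ?_⟩⟩⟩
  · rw [← hG, ← map_eq_zero_iff ι hιi, ← map_mapRingHom_evalEval, hι, hι, Polynomial.map_map,
      mapRingHom_comp, hj, et, eu]
  · let w : Module.Free.ChooseBasisIndex ℤ (𝓞 K) × Fin (minpoly (𝓞 K)[X] u).natDegree → L :=
      fun x => algebraMap (𝓞 K) L (ω x.1) * u ^ (x.2 : ℕ)
    have h1 : ∀ (l : Fin (minpoly (𝓞 K)[X] u).natDegree) (c : (𝓞 K)[X]),
        c • u ^ (l : ℕ) ∈ Submodule.span ℤ[X] (Set.range w) := by
      intro l c
      induction c using Polynomial.induction_on' with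
      | add p q hp hq => rw [add_smul]; exact add_mem hp hq
      | monomial n r =>
        have e1 : (monomial n r : (𝓞 K)[X]) • u ^ (l : ℕ) =
            ∑ i, (monomial n (ω.repr r i) : ℤ[X]) • w (i, l) := by
          rw [Algebra.smul_def, RingHom.algebraMap_toAlgebra, coe_eval₂RingHom, eval₂_monomial]
          conv_lhs => rw [← ω.sum_repr r]
          rw [map_sum, Finset.sum_mul, Finset.sum_mul]
          refine Finset.sum_congr rfl fun i _ => ?_
          rw [Algebra.smul_def (monomial n (ω.repr r i) : ℤ[X]), ha, aeval_monomial, map_zsmul,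
            zsmul_eq_mul, eq_intCast]
          simp only [w]
          ring
        rw [e1]
        exact Submodule.sum_mem _ fun i _ => Submodule.smul_mem _ _
          (Submodule.subset_span ⟨_, rfl⟩)
    have h2 : ∀ g : (𝓞 K)[X][X], aeval u g ∈ Submodule.span ℤ[X] (Set.range w) := by
      intro g
      rw [← aeval_modByMonic_eq_self_of_root (minpoly.aeval (𝓞 K)[X] u),
        aeval_eq_sum_range' (natDegree_modByMonic_lt g (minpoly.monic hu) (minpoly.ne_one _ u)),
        Finset.sum_range]
      exact Submodule.sum_mem _ fun l _ => h1 l _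
    have h3 : LinearIndependent ℤ[X] fun i => algebraMap B L (π.Δ • Γ.b i) := by
      refine Fintype.linearIndependent_iff.2 fun g hg i => ?_
      have h4 : ∑ i, (g i * π.Δ) • Γ.b i = 0 := hBL (by
        rw [map_zero, ← hg, map_sum]
        refine Finset.sum_congr rfl fun i _ => ?_
        rw [mul_smul, Algebra.smul_def (g i), map_mul, Algebra.smul_def (g i)]
        rfl)
      exact (mul_eq_zero.1 (Fintype.linearIndependent_iff.1 Γ.b.linearIndependent _ h4 i)).resolve_right
        π.ne
    have h5 := linearIndependent_le_span_aux' _ h3 (Set.range w) (by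
      rintro _ ⟨i, rfl⟩
      obtain ⟨g, hg⟩ := π.gen (Γ.b i)
      change algebraMap B L (π.Δ • Γ.b i) ∈ _
      rw [Algebra.smul_def, hg, ← hup]
      exact h2 _)
    have h6 := Fintype.card_range_le w
    rw [Fintype.card_prod, Fintype.card_fin, ← Module.finrank_eq_card_chooseBasisIndex,
      RingOfIntegers.rank] at h6
    rw [Fintype.card_fin] at h5
    exact h5.trans h6
  · let _ : Algebra (𝓞 K) ℂ := φ.toAlgebra
    have : FaithfulSMul (𝓞 K) ℂ := (faithfulSMul_iff_algebraMap_injective _ _).2
      ((RingHom.injective_iff_ker_eq_bot φ).2 (Ideal.eq_bot_of_comap_eq_bot (R := ℤ) (by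
        rw [RingHom.comap_ker, ← RingHom.injective_iff_ker_eq_bot]
        exact RingHom.injective_int _)))
    exact abs_irr (W := ℂ) hL t u _ (minpoly.monic hu) hG

end NFCONST

theorem stCONST : St_CONST := by
  intro B _ _ _ d _ Γ π
  have : CharZero B := by
    refine charZero_of_injective_ringHom (R := ℤ[X]) (f := algebraMap ℤ[X] B) Γ.algebraMap_injective
  have : CharZero (FractionRing B) := IsFractionRing.charZero_of_isFractionRing B
  exact NFCONST.main Γ π (FractionRing B)

end Pool.Agent.Lib.BK2
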