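import Pool.Agent.Lib.BK2.NFG
import Pool.Agent.Lib.BK2.EIS
import Pool.Agent.Lib.BK2.NRM
import Pool.Agent.Lib.BK2.PlaneW

/-! Eisenstein sections when the constants form a number field. -/

open Polynomial NumberField

noncomputable section

namespace Pool.Agent.Lib.BK2

namespace NFEIS

theorem exists_prime {S : Type} [CommRing S] [IsDomain S] {q : ℕ} [Fact q.Prime]
    (y : S →+* ZMod q) (T : S) (hT0 : T ≠ 0) (hT : y T = 0) (hu : ∀ z, y z ≠ 0 → IsUnit z)
    (hq : ∀ g, T ∣ (q : S) * g → T ∣ g) {u h : S} (hy : y u ≠ 0) {r : ℕ} (hr : 0 < r)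
    (j : ℤ[X] →+* S) (a : ℤ) (hj : j (X - C a) = T) (P : ℤ[X])
    (hP : P.map (Int.castRingHom (ZMod q)) ≠ 0) (hd : (q : S) * u + T ^ r * h ∣ j P) :
    ∃ J : Ideal S, J.IsPrime ∧ (q : S) * u + T ^ r * h ∈ J ∧ T ∉ J ∧ (∀ z ∈ J, y z = 0) ∧
      CharZero (S ⧸ J) := by
  have h1 : T ∉ (Ideal.span {(q : S) * u + T ^ r * h}).radical := fun ⟨k, hk⟩ =>
    EIS.not_nil y T hT0 hT hu hq hy hr k (Ideal.mem_span_singleton.1 hk)
  rw [Ideal.radical_eq_sInf, Ideal.mem_sInf] at h1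
  push Not at h1
  obtain ⟨J, ⟨h2, hJ⟩, h3⟩ := h1
  have h4 := (Ideal.span_singleton_le_iff_mem _).1 h2
  have h5 : ∀ z ∈ J, y z = 0 := fun z hz => by
    by_contra h0
    exact hJ.ne_top (Ideal.eq_top_of_isUnit_mem _ hz (hu z h0))
  refine ⟨J, hJ, h4, h3, h5, ?_⟩
  rcases CharP.char_is_prime_or_zero (S ⧸ J) (ringChar (S ⧸ J)) with hp | hp
  · exfalso
    have h6 : ((ringChar (S ⧸ J) : ℕ) : S) ∈ J := by
      rw [← Ideal.Quotient.eq_zero_iff_mem, map_natCast]
      exact CharP.cast_eq_zero _ _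
    have h7 := h5 _ h6
    rw [map_natCast, ZMod.natCast_eq_zero_iff,
      Nat.prime_dvd_prime_iff_eq (Fact.out : q.Prime) hp] at h7
    rw [← h7] at h6
    obtain ⟨n, w, ρ, -, h8, h9⟩ := EIS.factor y T j a hj hT P hP
    have h10 : T ^ n * w ∈ J := by
      have := J.sub_mem (Ideal.mem_of_dvd J hd h4) (J.mul_mem_right ρ h6)
      rwa [h9, add_sub_cancel_right] at this
    exact (hJ.mem_or_mem h10).elim (fun e => h3 (hJ.mem_of_pow_mem _ e)) fun e => h8 (h5 _ e)
  · have : CharP (S ⧸ J) 0 := hp ▸ ringChar.charP _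
    exact CharP.charP_to_charZero _

theorem deg_ge {K E : Type} [Field K] [NumberField K] [Field E] [CharZero E] (θ : E)
    (ψ : 𝓞 K →+* E) (hψ : ∀ w, ψ w ∈ IntermediateField.adjoin ℚ {θ}) {r : ℕ}
    (hi : ∀ g : (𝓞 K)[X], g.natDegree < r → (g.map ψ).eval θ = 0 → g = 0) (hr : 0 < r)
    {P : ℤ[X]} (hP : P ≠ 0) (h0 : aeval θ P = 0) : Module.finrank ℚ K * r ≤ P.natDegree := by
  classical
  have hP' : P.map (Int.castRingHom ℚ) ≠ 0 :=
    (Polynomial.map_ne_zero_iff (Int.castRingHom ℚ).injective_int).2 hP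
  have h1 : aeval θ (P.map (Int.castRingHom ℚ)) = 0 := (aeval_map_algebraMap ℚ θ P).trans h0
  have hint : IsIntegral ℚ θ := (show IsAlgebraic ℚ θ from ⟨_, hP', h1⟩).isIntegral
  have := IntermediateField.adjoin.finiteDimensional hint
  let b := RingOfIntegers.basis K
  let v : Module.Free.ChooseBasisIndex ℤ (𝓞 K) × Fin r → IntermediateField.adjoin ℚ {θ} :=
    fun z => ⟨ψ (b z.1) * θ ^ (z.2 : ℕ), mul_mem (hψ _)
      (pow_mem (IntermediateField.mem_adjoin_simple_self ℚ θ) _)⟩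
  have hv : LinearIndependent ℤ v := by
    refine Fintype.linearIndependent_iff.2 fun n hn z => ?_
    have h2 := hi (∑ l : Fin r, monomial l (∑ i, n (i, l) • b i))
      ((natDegree_sum_le_of_forall_le _ _ (n := r - 1) fun l _ =>
        (natDegree_monomial_le _).trans (by have := l.2; omega)).trans_lt (by omega)) (by
      have h3 := congrArg Subtype.val hn
      simp only [AddSubmonoidClass.coe_finsetSum, Fintype.sum_prod_type_right, v] at h3
      simp only [Polynomial.map_sum, map_monomial, eval_finsetSum, eval_monomial, map_sum,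
        map_zsmul, Finset.sum_mul]
      simpa [mul_assoc] using h3)
    have h4 := congrArg (fun g => g.coeff z.2) h2
    simp only [finsetSum_coeff, coeff_monomial, Fin.val_inj, Finset.sum_ite_eq', Finset.mem_univ,
      if_true, coeff_zero] at h4
    exact Fintype.linearIndependent_iff.1 b.linearIndependent (fun i => n (i, z.2)) h4 z.1
  have h5 := ((LinearIndependent.iff_fractionRing ℤ ℚ).1 hv).fintype_card_le_finrank
  rw [Fintype.card_prod, Fintype.card_fin, ← Module.finrank_eq_card_chooseBasisIndex,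
    RingOfIntegers.rank, IntermediateField.adjoin.finrank hint] at h5
  exact h5.trans ((natDegree_le_of_dvd (minpoly.dvd ℚ θ h1) hP').trans natDegree_map_le)

variable {B : Type} [CommRing B] [Algebra ℤ[X] B] {d : ℕ} [NeZero d] {Γ : Geo B d}

/-- the degree bound for a section through a point of characteristic zero -/
theorem bound (hI : St_INDK) (hG : St_GEN) {π : Γ.Plane} {K : Type} [Field K] [NumberField K]
    (c : π.Con K) {S : Type} [CommRing S] [IsDomain S] [CharZero S] {q : ℕ} [Fact q.Prime]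
    (hU : ∀ ψ : 𝓞 K →+* ZMod q, ∃ s : 𝓞 K, ψ s ≠ 0 ∧ ∀ w : 𝓞 K, ψ w = 0 → (q : 𝓞 K) ∣ s * w)
    (y : S →+* ZMod q) (hu : ∀ z, y z ≠ 0 → IsUnit z) (x : B →+* S)
    (hD : y (x (algebraMap ℤ[X] B c.D)) ≠ 0) {a : ℤ} (ha : y (x Γ.t) = a) (hT : x Γ.t ≠ a)
    {r : ℕ} (hr : 0 < r) {h : S} (hq : (q : S) = (x Γ.t - a) ^ r * h) {e : B} (he : x e = 0)
    (hs : ((Γ.nrm e).map (Int.castRingHom ℚ)).Separable) {P₁ P₂ : ℤ[X]}
    (hP : Γ.nrm e = P₁ * P₂) :
    Module.finrank ℚ K * r ≤ P₁.natDegree ∨ Module.finrank ℚ K * r ≤ P₂.natDegree := by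
  obtain ⟨s, hs1, hs2⟩ := hU (y.comp (c.psi x (hu _ hD)))
  have h1 := hI K S q y (c.psi x (hu _ hD)) (x Γ.t) h a r s hu ha hT hq hs1 hs2
  obtain ⟨E, _, ι, hinj⟩ : ∃ (E : Type) (_ : Field E) (ι : S →+* E), Function.Injective ι :=
    ⟨FractionRing S, _, _, IsFractionRing.injective S _⟩
  have : CharZero E := charZero_of_injective_ringHom hinj
  let z : B →+* E := ι.comp x
  have h2 := hG B d Γ E z e (by simp [z, he]) hs
  have key : ∀ P : ℤ[X], P ≠ 0 → z (algebraMap ℤ[X] B P) = 0 →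
      Module.finrank ℚ K * r ≤ P.natDegree := fun P hP0 hP1 => by
    refine deg_ge (z Γ.t) (ι.comp (c.psi x (hu _ hD))) (fun w => ?_)
      (fun g hg h0 => h1 g hg (hinj ?_)) hr hP0 ?_
    · obtain ⟨n, b, hb⟩ := c.den w
      have h3 := congrArg ι (hb S x (hu _ hD))
      rw [map_mul, map_pow] at h3
      have h4 : ι (x (algebraMap ℤ[X] B c.D)) ≠ 0 := ((hu _ hD).map _).ne_zero
      exact (eq_div_of_mul_eq (pow_ne_zero _ h4) h3).symm ▸ div_mem (h2 b) (pow_mem (h2 _) _)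
    · rw [map_zero, ← h0, ← Polynomial.map_map]
      exact (eval_map_apply _ _).symm
    · rw [← hP1, Γ.algebraMap_eq]
      exact aeval_algHom_apply z.toIntAlgHom _ _
  have h0 : P₁ * P₂ ≠ 0 := fun h0 => hs.ne_zero (by rw [hP, h0, Polynomial.map_zero])
  obtain ⟨g, hg⟩ := EIS.dvd_nrm Γ e
  have h5 := congrArg z hg
  rw [hP, map_mul, map_mul, map_mul, show z e = 0 by simp [z, he], zero_mul, mul_eq_zero] at h5
  exact h5.imp (key _ (left_ne_zero_of_mul h0)) (key _ (right_ne_zero_of_mul h0))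

theorem poly_add {R : Type} [CommRing R] {n c : ℕ} (f g : Fin n × Fin c → R) :
    Step.poly (f + g) = Step.poly f + Step.poly g := by
  simp only [Step.poly, Pi.add_apply, map_add, Finset.sum_add_distrib]

theorem poly_mem (u : B) (n : ℕ) : ∃ c₁ : ℕ, ∀ (k : ℕ) (f : Fin n × Fin (k + 1) → ℤ),
    aeval u (Step.poly f) ∈ Γ.V (k + c₁) := by
  choose w hw using fun i : Fin n => Γ.exists_mem_V (u ^ (i : ℕ))
  refine ⟨Finset.univ.sup w, fun k f => ?_⟩
  rw [Step.poly, map_sum]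
  refine Geo.V_sum fun z _ => ?_
  rw [aeval_monomial, ← Algebra.smul_def]
  exact Geo.smul_mem ((natDegree_monomial_le _).trans (Nat.lt_succ_iff.1 z.2.2))
    (Geo.V_mono (Finset.le_sup (Finset.mem_univ z.1)) (hw z.1))

end NFEIS

open EIS NFEIS in
theorem stEISK (hPT : St_PTK) (hC : St_COMP) (hU : St_UNRK) (hI : St_INDK) (hG : St_GEN) :
    St_EISK := by
  intro B _ _ _ d _ Γ π K _ _ c
  classical
  obtain ⟨N₁, hN₁⟩ := hC B d Γ π K c
  obtain ⟨N₂, hN₂⟩ := hU K
  obtain ⟨c₁, hc₁⟩ := poly_mem (Γ := Γ) π.u c.G.natDegree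
  refine ⟨d * c₁ + Module.finrank ℚ K + c₁ + 1, fun N => ?_⟩
  obtain ⟨q, x, a, hq, hNq, ⟨hxa, s, hs, hsm⟩, hxD⟩ := hPT B d Γ π c.D c.ne (N + N₁ + N₂)
  refine ⟨q, hq, by omega, fun m hm => ?_⟩
  obtain ⟨k, rfl⟩ : ∃ k, m = k + 1 + c₁ := ⟨m - c₁ - 1, by omega⟩
  have hn : 0 < c.G.natDegree := Nat.pos_of_ne_zero fun h0 => by
    have h1 := c.deg
    rw [h0, mul_zero, Nat.le_zero] at h1
    exact NeZero.ne d h1
  obtain ⟨r, hr'⟩ : ∃ r, c.G.natDegree * (k + 2) = r + 2 :=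
    ⟨c.G.natDegree * (k + 2) - 2, by have := Nat.mul_le_mul hn (Nat.le_add_left 2 k); omega⟩
  have : Fact q.Prime := ⟨hq⟩
  let M : Submonoid B := (nonZeroDivisors (ZMod q)).comap x
  have hM : ∀ f : B, f ∈ M ↔ x f ≠ 0 := fun f => mem_nonZeroDivisors_iff_ne_zero
  have hM0 : M ≤ nonZeroDivisors B := fun f hf =>
    mem_nonZeroDivisors_iff_ne_zero.2 fun h => (hM f).1 hf (by rw [h, map_zero])
  let S := Localization M
  have : IsDomain S := IsLocalization.isDomain_localization hM0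
  have hinj : Function.Injective (algebraMap B S) := IsLocalization.injective S hM0
  have hun : ∀ f : B, x f ≠ 0 → IsUnit (algebraMap B S f) := fun f hf =>
    IsLocalization.map_units S (⟨f, (hM f).2 hf⟩ : M)
  let y : S →+* ZMod q := IsLocalization.lift (M := M) (g := x) fun f =>
    ((hM f).1 f.2).isUnit
  have hy : ∀ f : B, y (algebraMap B S f) = x f := fun f => IsLocalization.lift_eq _ f
  have hsurj : ∀ z : S, ∃ f σ : B, x σ ≠ 0 ∧ z * algebraMap B S σ = algebraMap B S f := fun z => by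
    obtain ⟨⟨f, σ⟩, h⟩ := IsLocalization.surj M z
    exact ⟨f, σ, (hM _).1 σ.2, h⟩
  have eT : Γ.t - (a : B) = algebraMap ℤ[X] B (X - C a) := by simp [Geo.t]
  set T : S := algebraMap B S (Γ.t - (a : B)) with hTd
  have hT : y T = 0 := by rw [hTd, hy, map_sub, hxa, map_intCast, sub_self]
  have hT0 : T ≠ 0 := by
    rw [hTd, map_ne_zero_iff _ hinj, eT, map_ne_zero_iff _ Γ.algebraMap_injective]
    exact X_sub_C_ne_zero a
  have hu : ∀ z, y z ≠ 0 → IsUnit z := fun z hz => by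
    obtain ⟨f, σ, h1, h2⟩ := hsurj z
    have h3 := congrArg y h2
    rw [map_mul, hy, hy] at h3
    exact isUnit_of_mul_isUnit_left (h2 ▸ hun f (h3 ▸ mul_ne_zero hz h1))
  have hS : ∀ z, y z = 0 → ∃ α β, z = (q : S) * α + T * β := fun z hz => by
    obtain ⟨f, σ, h1, h2⟩ := hsurj z
    have h3 := congrArg y h2
    rw [map_mul, hy, hy, hz, zero_mul] at h3
    obtain ⟨α, β, h4⟩ := Ideal.mem_span_pair.1 (hsm f h3.symm)
    obtain ⟨v, hv⟩ := (hun (s * σ) (by rw [map_mul]; exact mul_ne_zero hs h1)).exists_right_inv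
    have h5 := congrArg (algebraMap B S) h4
    rw [map_add, map_mul, map_mul, map_mul, map_natCast, ← hTd] at h5
    rw [map_mul] at hv
    refine ⟨algebraMap B S α * v, algebraMap B S β * v, ?_⟩
    linear_combination (-v) * h5 + algebraMap B S s * v * h2 - z * hv
  have hqd : ∀ g, T ∣ (q : S) * g → T ∣ g := by
    rintro g ⟨k, hk⟩
    obtain ⟨g0, σ, h1, h2⟩ := hsurj g
    obtain ⟨k0, τ, h3, h4⟩ := hsurj k
    have h5 : (q : B) * (g0 * τ) = (Γ.t - (a : B)) * (k0 * σ) := by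
      apply hinj
      rw [map_mul, map_mul, map_mul, map_mul, map_natCast, ← hTd, ← h2, ← h4]
      linear_combination algebraMap B S σ * algebraMap B S τ * hk
    have h6 := map_dvd (algebraMap B S) (t_dvd Γ a hq.ne_zero _ ⟨_, h5⟩)
    rw [← hTd, map_mul, ← h2, mul_assoc] at h6
    exact ((hun σ h1).mul (hun τ h3)).dvd_mul_right.1 h6
  obtain ⟨f, g, h, ⟨i, hi⟩, hf⟩ := pigeon y T hS (I := Fin c.G.natDegree × Fin (k + 1 + 1))
    (AddMonoidHom.mk' (fun f => algebraMap B S (aeval π.u (Step.poly f))) fun f g => by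
      rw [poly_add, map_add, map_add]) (r := r + 1) (by
      rw [Fintype.card_prod, Fintype.card_fin, Fintype.card_fin, hr']; omega)
  have hf' : algebraMap B S (aeval π.u (Step.poly f)) = (q : S) * g + T ^ (r + 1) * h := hf
  have hne := hN₁ q hq (by omega) (Step.poly f)
    ((natDegree_lt_iff_degree_lt fun e => hi (by
      rw [← PW.coeff_poly f i, e, coeff_zero, coeff_zero]; exact dvd_zero _)).2 (PW.degree_poly f))
    fun e => hi (by
      rw [← ZMod.intCast_zmod_eq_zero_iff_dvd, ← PW.coeff_poly f i]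
      simpa using congrArg (fun g => (g.coeff i.1).coeff i.2) e)
  obtain ⟨f₀, u, hu0, hf₀, he₀, hi₀⟩ : ∃ (f₀ : B) (u : S), y u ≠ 0 ∧ f₀ ∈ Γ.V (k + 1 + c₁) ∧
      algebraMap B S f₀ = (q : S) * u + T ^ (r + 1) * h ∧
      (q : B) ∣ f₀ - aeval π.u (Step.poly f) := by
    by_cases hg : y g = 0
    · refine ⟨aeval π.u (Step.poly f) + q, g + 1, by simp [hg], Geo.V_add (hc₁ _ f)
        (by simpa using Γ.intCast_mem q _), ?_, by simp⟩
      rw [map_add, hf', map_natCast]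
      ring
    · exact ⟨_, g, hg, hc₁ _ f, hf', by simp⟩
  refine ⟨Γ.co _ f₀, fun e he => ?_⟩
  choose l hl using fun i => (he i).symm.dvd
  have hek : Γ.el e = f₀ + (q : B) ^ 2 * Γ.el l := by
    have h1 : e = Γ.co _ f₀ + ((q : ℤ) ^ 2) • l := funext fun i => by
      rw [Pi.add_apply, Pi.smul_apply, smul_eq_mul]
      linear_combination hl i
    rw [h1, Γ.el_add, Γ.el_smul, Γ.el_co hf₀, zsmul_eq_mul]
    push_cast
    rfl
  have hne' : (Γ.nrm (Γ.el e)).map (Int.castRingHom (ZMod q)) ≠ 0 := by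
    rwa [NRM.c10 Γ q _ (aeval π.u (Step.poly f))]
    rw [hek, add_sub_right_comm]
    exact hi₀.add ((dvd_pow_self _ two_ne_zero).mul_right _)
  refine ⟨hne', fun hsep P₁ P₂ hP => ?_⟩
  have he' : algebraMap B S (Γ.el e) =
      (q : S) * (u + q * algebraMap B S (Γ.el l)) + T ^ (r + 1) * h := by
    rw [hek, map_add, he₀, map_mul, map_pow, map_natCast]
    ring
  have hu1 : y (u + q * algebraMap B S (Γ.el l)) ≠ 0 := by simpa using hu0
  obtain ⟨J, hJ, j1, j2, j3, j4⟩ := exists_prime y T hT0 hT hu hqd (h := h) hu1 r.succ_pos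
    ((algebraMap B S).comp (algebraMap ℤ[X] B)) a (by rw [RingHom.comp_apply, ← eT]) _ hne'
    (he' ▸ map_dvd (algebraMap B S) (dvd_nrm Γ _))
  obtain ⟨v, hv⟩ := (hu _ hu1).exists_right_inv
  have e1 : ((Ideal.Quotient.mk J).comp (algebraMap B S)) Γ.t - a = Ideal.Quotient.mk J T := by
    simp [hTd]
  have key := bound hI hG c (hN₂ q hq (by omega)) (Ideal.Quotient.lift J y j3)
    (fun z hz => by
      obtain ⟨z, rfl⟩ := Ideal.Quotient.mk_surjective z
      exact (hu z hz).map _)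
    ((Ideal.Quotient.mk J).comp (algebraMap B S)) (fun h0 => hxD ((hy _).symm.trans h0)) (a := a)
    ((hy _).trans hxa)
    (fun h0 => j2 (Ideal.Quotient.eq_zero_iff_mem.1 (e1.symm.trans (sub_eq_zero.2 h0))))
    r.succ_pos (h := Ideal.Quotient.mk J (-h * v)) (by
      rw [e1, ← map_pow, ← map_mul, ← map_natCast (Ideal.Quotient.mk J), Ideal.Quotient.eq]
      have h1 := J.mul_mem_right v j1
      rwa [show ((q : S) * (u + q * algebraMap B S (Γ.el l)) + T ^ (r + 1) * h) * v =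
        q - T ^ (r + 1) * (-h * v) by linear_combination (q : S) * hv] at h1)
    (e := Γ.el e) (Ideal.Quotient.eq_zero_iff_mem.2 (he' ▸ j1)) hsep hP
  have h1 : d * (k + 2) ≤ Module.finrank ℚ K * (r + 2) := by
    rw [← hr', ← mul_assoc]
    exact Nat.mul_le_mul_right _ c.deg
  refine key.imp (fun h2 => ?_) fun h2 => ?_ <;> nlinarith

end Pool.Agent.Lib.BK2
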