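import Pool.Agent.Lib.BK2.RDefs

/-! Left kernels of the multiplication matrix at a simple root of the norm. -/

open Polynomial Matrix

noncomputable section

namespace Pool.Agent.Lib.BK2.RMat

section

variable {n K : Type} [Fintype n] [DecidableEq n] [Field K] {M : Matrix n n K} {i j : n}

/-- a left null vector is determined by its `j`-th coordinate -/
theorem ker_inj (h : adjugate M i j ≠ 0) {v : n → K} (hv : v ᵥ* M = 0) (hj : v j = 0) :
    v = 0 := by
  rw [adjugate_apply] at h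
  refine eq_zero_of_vecMul_eq_zero h (funext fun l => ?_)
  refine Eq.trans (Finset.sum_congr rfl fun k _ => ?_) (congrFun hv l)
  by_cases e : k = j
  · rw [e, hj, zero_mul, zero_mul]
  · exact congrArg (v k * ·) (congrFun (updateRow_ne e) l)

theorem ker_prop (h : adjugate M i j ≠ 0) {u v : n → K} (hu : u ᵥ* M = 0) (hv : v ᵥ* M = 0)
    (l : n) : u l * v j = u j * v l := by
  have h1 := ker_inj h (v := v j • u - u j • v)
    (by rw [sub_vecMul, smul_vecMul, smul_vecMul, hu, hv, smul_zero, smul_zero, sub_zero])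
    (by simp [mul_comm])
  have h2 := congrFun h1 l
  simp only [Pi.sub_apply, Pi.smul_apply, smul_eq_mul, Pi.zero_apply] at h2
  linear_combination h2

theorem adj_null (h : M.det = 0) (i : n) : adjugate M i ᵥ* M = 0 := funext fun l => by
  have h1 := congrFun (congrFun (adjugate_mul M) i) l
  rw [h, zero_smul] at h1
  exact h1

/-- at a simple root of the determinant the adjugate is not zero -/
theorem adj_ne {R : Type} [CommRing R] [Algebra R K] [Nonempty n] (N : Matrix n n R[X]) (z : K)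
    (h0 : aeval z N.det = 0) (h1 : aeval z (derivative N.det) ≠ 0) :
    ∃ i j, adjugate (N.map (aeval z)) i j ≠ 0 := by
  by_contra hn
  push Not at hn
  have ha : ∀ i j, aeval z (adjugate N i j) = 0 := fun i j => by
    have h := (aeval z : R[X] →ₐ[R] K).map_adjugate N
    exact (congrFun (congrFun h i) j).trans (hn i j)
  have e : N.map (aeval z) * (adjugate N).map (fun p => aeval z (derivative p)) =
      aeval z (derivative N.det) • (1 : Matrix n n K) := by
    ext i j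
    have h := congrArg (fun p => aeval z (derivative p)) (congrFun (congrFun (mul_adjugate N) i) j)
    simp only [Matrix.mul_apply, derivative_mul, map_sum, map_add, map_mul, ha, mul_zero,
      zero_add] at h
    rw [Matrix.mul_apply]
    refine h.trans ?_
    by_cases hij : i = j <;> simp [hij]
  have h := congrArg det e
  have h2 : (N.map (aeval z)).det = 0 := ((aeval z : R[X] →ₐ[R] K).map_det N).symm.trans h0
  rw [det_mul, h2, zero_mul, det_smul, det_one, mul_one] at h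
  exact pow_ne_zero _ h1 h.symm

end

variable {B : Type} [CommRing B] [Algebra ℤ[X] B] {d : ℕ} [NeZero d] (Γ : Geo B d) {m : ℕ}

/-- the matrix of multiplication by a real vector -/
def pm (e : Γ.Ix m → ℝ) : Matrix (Fin d) (Fin d) ℝ[X] :=
  ∑ i, (C (e i) : ℝ[X]) •
    (Algebra.leftMulMatrix Γ.b (Γ.mon i)).map (Polynomial.map (Int.castRingHom ℝ))

theorem nrmR_eq (e : Γ.Ix m → ℝ) : Γ.nrmR e = (pm Γ e).det := rfl

theorem pm_apply (e : Γ.Ix m → ℝ) (l j : Fin d) : pm Γ e l j =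
    ∑ i, C (e i) * (Γ.b.repr (Γ.mon i * Γ.b j) l).map (Int.castRingHom ℝ) := by
  simp only [pm, Matrix.sum_apply, Matrix.smul_apply, Matrix.map_apply, smul_eq_mul,
    Algebra.leftMulMatrix_eq_repr_mul]

/-- its value at `z` -/
def Nm (e : Γ.Ix m → ℝ) (z : ℂ) : Matrix (Fin d) (Fin d) ℂ := (pm Γ e).map (aeval z)

theorem det_Nm (e : Γ.Ix m → ℝ) (z : ℂ) : (Nm Γ e z).det = aeval z (Γ.nrmR e) :=
  ((aeval z : ℝ[X] →ₐ[ℝ] ℂ).map_det (pm Γ e)).symm

theorem aeval_cast (z : ℂ) (p : ℤ[X]) : aeval z (p.map (Int.castRingHom ℝ)) = aeval z p :=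
  aeval_map_algebraMap ℝ z p

theorem Nm_apply (e : Γ.Ix m → ℝ) (z : ℂ) (l j : Fin d) :
    Nm Γ e z l j = ∑ i, (e i : ℂ) * aeval z (Γ.b.repr (Γ.mon i * Γ.b j) l) := by
  simp only [Nm, Matrix.map_apply, pm_apply, map_sum, map_mul, aeval_C, aeval_cast,
    Complex.coe_algebraMap]

theorem simple_adj {e : Γ.Ix m → ℝ} {z : ℂ} (h : Γ.Simple e z) :
    ∃ i j, adjugate (Nm Γ e z) i j ≠ 0 := adj_ne (pm Γ e) z h.1 h.2

/-- additive maps that are semilinear over the evaluation at `z` -/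
def Semi (z : ℂ) (L : B →+ ℂ) : Prop := ∀ (p : ℤ[X]) (f : B), L (p • f) = aeval z p * L f

theorem Semi.eq {z : ℂ} {L : B →+ ℂ} (h : Semi z L) (f : B) :
    L f = ∑ l, aeval z (Γ.b.repr f l) * L (Γ.b l) := by
  conv_lhs => rw [← Γ.b.sum_repr f]
  rw [map_sum]
  exact Finset.sum_congr rfl fun l _ => h _ _

theorem Semi.vec {z : ℂ} {L : B →+ ℂ} (h : Semi z L) (e : Γ.Ix m → ℝ) (j : Fin d) :
    ((fun l => L (Γ.b l)) ᵥ* Nm Γ e z) j = ∑ i, (e i : ℂ) * L (Γ.mon i * Γ.b j) := by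
  simp only [vecMul, dotProduct, Nm_apply, Finset.mul_sum]
  rw [Finset.sum_comm]
  refine Finset.sum_congr rfl fun i _ => ?_
  rw [h.eq Γ (Γ.mon i * Γ.b j), Finset.mul_sum]
  exact Finset.sum_congr rfl fun l _ => by ring

theorem hom_alg (ψ : B →+* ℂ) (p : ℤ[X]) : ψ (algebraMap ℤ[X] B p) = aeval (ψ Γ.t) p :=
  RingHom.congr_fun (Polynomial.ringHom_ext' (f := ψ.comp (algebraMap ℤ[X] B))
    (g := (aeval (ψ Γ.t) : ℤ[X] →ₐ[ℤ] ℂ).toRingHom) (RingHom.ext_int _ _) (by simp [Geo.t])) p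

theorem semi_hom (ψ : B →+* ℂ) : Semi (ψ Γ.t) ψ.toAddMonoidHom := fun p f => by
  rw [Algebra.smul_def, ← hom_alg]
  exact map_mul ψ _ _

theorem hom_eq (ψ : B →+* ℂ) (f : B) : ψ f = ∑ l, aeval (ψ Γ.t) (Γ.b.repr f l) * ψ (Γ.b l) :=
  (semi_hom Γ ψ).eq Γ f

/-- the values of a point on the basis form a left eigenvector -/
theorem hom_vec (ψ : B →+* ℂ) (e : Γ.Ix m → ℝ) (j : Fin d) :
    ((fun l => ψ (Γ.b l)) ᵥ* Nm Γ e (ψ Γ.t)) j = Γ.ev ψ e * ψ (Γ.b j) := by
  refine ((semi_hom Γ ψ).vec Γ e j).trans ?_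
  rw [Geo.ev, Finset.sum_mul]
  exact Finset.sum_congr rfl fun i _ => by rw [mul_assoc, ← map_mul]; rfl

theorem hom_null {ψ : B →+* ℂ} {e : Γ.Ix m → ℝ} (h : Γ.ev ψ e = 0) :
    (fun l => ψ (Γ.b l)) ᵥ* Nm Γ e (ψ Γ.t) = 0 := funext fun j => by
  rw [hom_vec, h, zero_mul, Pi.zero_apply]

theorem hom_b0 (ψ : B →+* ℂ) : ψ (Γ.b 0) = 1 := by rw [Γ.b0, map_one]

/-- at a point above a simple root, left null vectors are multiples of the point -/
theorem null_eq {ψ : B →+* ℂ} {e : Γ.Ix m → ℝ} (hs : Γ.Simple e (ψ Γ.t)) (h : Γ.ev ψ e = 0)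
    {v : Fin d → ℂ} (hv : v ᵥ* Nm Γ e (ψ Γ.t) = 0) (l : Fin d) : v l = v 0 * ψ (Γ.b l) := by
  obtain ⟨i, j, hij⟩ := simple_adj Γ hs
  have h1 := ker_prop hij hv (hom_null Γ h)
  have h2 : ψ (Γ.b j) ≠ 0 := fun h0 => one_ne_zero ((hom_b0 Γ ψ).symm.trans
    (congrFun (ker_inj hij (hom_null Γ h) h0) 0))
  have h3 := h1 0
  rw [hom_b0, mul_one] at h3
  refine mul_right_cancel₀ h2 ?_
  rw [h1 l, ← h3]
  ring

end Pool.Agent.Lib.BK2.RMat
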