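import Pool.Agent.Lib.BK2.NFG
import Pool.Agent.Lib.BK2.RMat

open Polynomial NumberField Matrix

noncomputable section

namespace Pool.Agent.Lib.BK2

namespace NFGEN

theorem aeval_mem {E : Type} [Field E] [CharZero E] (θ : E) (p : ℤ[X]) :
    aeval θ p ∈ IntermediateField.adjoin ℚ {θ} := by
  rw [← aeval_map_algebraMap ℚ]
  exact IntermediateField.algebra_adjoin_le_adjoin ℚ _ (aeval_mem_adjoin_singleton ℚ θ)

end NFGEN

open NFGEN in
theorem stGEN : St_GEN := by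
  intro B _ _ d _ Γ E _ _ z e he hs
  have halg : ∀ p : ℤ[X], z (algebraMap ℤ[X] B p) = aeval (z Γ.t) p := fun p =>
    RingHom.congr_fun (Polynomial.ringHom_ext' (f := z.comp (algebraMap ℤ[X] B))
      (g := (aeval (z Γ.t) : ℤ[X] →ₐ[ℤ] E).toRingHom) (RingHom.ext_int _ _) (by simp [Geo.t])) p
  have hz : ∀ f, z f = ∑ l, aeval (z Γ.t) (Γ.b.repr f l) * z (Γ.b l) := fun f => by
    conv_lhs => rw [← Γ.b.sum_repr f]
    rw [map_sum]
    exact Finset.sum_congr rfl fun l _ => by rw [Algebra.smul_def, map_mul, halg]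
  let N : Matrix (Fin d) (Fin d) ℤ[X] := Algebra.leftMulMatrix Γ.b e
  have hN : Γ.nrm e = N.det := Algebra.norm_eq_matrix_det Γ.b e
  have h0 : z (Γ.b 0) = 1 := by rw [Γ.b0, map_one]
  have hnull : (fun l => z (Γ.b l)) ᵥ* N.map (aeval (z Γ.t)) = 0 := funext fun j => by
    have h := hz (e * Γ.b j)
    rw [map_mul, he, zero_mul] at h
    simp only [vecMul, dotProduct, Matrix.map_apply, N, Algebra.leftMulMatrix_eq_repr_mul,
      Pi.zero_apply]
    rw [h]
    exact Finset.sum_congr rfl fun l _ => mul_comm _ _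
  have hdet : (N.map (aeval (z Γ.t))).det = 0 :=
    exists_vecMul_eq_zero_iff.1 ⟨_, fun h => one_ne_zero (h0.symm.trans (congrFun h 0)), hnull⟩
  have h1 : aeval (z Γ.t) N.det = 0 := ((aeval (z Γ.t) : ℤ[X] →ₐ[ℤ] E).map_det N).trans hdet
  have h2 : aeval (z Γ.t) (derivative N.det) ≠ 0 := by
    have h := hs.aeval_derivative_ne_zero (x := z Γ.t)
      (by rw [hN]; exact (aeval_map_algebraMap ℚ _ _).trans h1)
    rw [derivative_map, hN] at h
    exact fun h3 => h ((aeval_map_algebraMap ℚ _ _).trans h3)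
  obtain ⟨i, j, hij⟩ := RMat.adj_ne N (z Γ.t) h1 h2
  have hm : ∀ l, adjugate (N.map (aeval (z Γ.t))) i l ∈ IntermediateField.adjoin ℚ {z Γ.t} :=
    fun l => by
      have h := congrFun (congrFun ((aeval (z Γ.t) : ℤ[X] →ₐ[ℤ] E).map_adjugate N) i) l
      exact (show aeval (z Γ.t) (adjugate N i l) = adjugate (N.map (aeval (z Γ.t))) i l from h) ▸
        aeval_mem _ _
  have hp := RMat.ker_prop hij (RMat.adj_null hdet i) hnull
  have h3 := hp 0
  rw [h0, mul_one] at h3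
  have h4 : adjugate (N.map (aeval (z Γ.t))) i 0 ≠ 0 := fun h => hij (by rw [← h3, h, zero_mul])
  have h5 : z (Γ.b j) ∈ IntermediateField.adjoin ℚ {z Γ.t} := by
    rw [← mul_div_cancel_left₀ (z (Γ.b j)) h4, h3]
    exact div_mem (hm j) (hm 0)
  intro f
  rw [hz f]
  refine sum_mem fun l _ => mul_mem (NFGEN.aeval_mem (z Γ.t) (Γ.b.repr f l)) ?_
  rw [← mul_div_cancel_left₀ (z (Γ.b l)) hij, ← hp l]
  exact div_mem (mul_mem (hm l) h5) (hm j)

theorem stUNRK : St_UNRK := by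
  intro K _ _
  have hD : differentIdeal ℤ (𝓞 K) ≠ ⊥ := differentIdeal_ne_bot
  have hn : Ideal.absNorm (differentIdeal ℤ (𝓞 K)) ≠ 0 := Ideal.absNorm_eq_zero_iff.not.2 hD
  refine ⟨Ideal.absNorm (differentIdeal ℤ (𝓞 K)) + 1, fun q hq hN ψ => ?_⟩
  have hp : Prime (q : ℤ) := Nat.prime_iff_prime_int.1 hq
  have : (Ideal.span {(q : ℤ)}).IsMaximal :=
    ((Ideal.span_singleton_prime hp.ne_zero).2 hp).isMaximal (by simpa using hq.ne_zero)
  have hmap : (Ideal.span {(q : ℤ)}).map (algebraMap ℤ (𝓞 K)) = Ideal.span {(q : 𝓞 K)} := by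
    rw [Ideal.map_span, Set.image_singleton, map_natCast]
  obtain ⟨a, ha⟩ : RingHom.ker ψ ∣ (Ideal.span {(q : ℤ)}).map (algebraMap ℤ (𝓞 K)) := by
    rw [hmap, Ideal.dvd_iff_le, Ideal.span_singleton_le_iff_mem, RingHom.mem_ker, map_natCast,
      ZMod.natCast_self]
  have hPa : ¬ a ≤ RingHom.ker ψ := fun h => by
    have h1 := pow_sub_one_dvd_differentIdeal ℤ (p := Ideal.span {(q : ℤ)}) (RingHom.ker ψ) 2
      (by simpa using hq.ne_zero)
      (by rw [pow_two, ha]; exact mul_dvd_mul_left _ (Ideal.dvd_iff_le.2 h))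
    rw [show 2 - 1 = 1 from rfl, pow_one, Ideal.dvd_iff_le] at h1
    have h2 := h1 (Ideal.absNorm_mem _)
    rw [RingHom.mem_ker, map_natCast, ZMod.natCast_eq_zero_iff] at h2
    have := Nat.le_of_dvd (Nat.pos_of_ne_zero hn) h2
    omega
  obtain ⟨s, hs, hs'⟩ := SetLike.not_le_iff_exists.1 hPa
  refine ⟨s, hs', fun r hr => ?_⟩
  rw [← Ideal.mem_span_singleton, ← hmap, ha, mul_comm s r]
  exact Ideal.mul_mem_mul hr hs

end Pool.Agent.Lib.BK2
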