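import Pool.Agent.Lib.BK2.NFG

/-! Eisenstein's criterion over the constants. -/

open Polynomial NumberField Finset

namespace Pool.Agent.Lib.BK2

namespace NFINDK

variable {R S F : Type} [CommRing R] [CommRing S] [IsDomain S] [CommRing F] [IsDomain F]

theorem step (y : S →+* F) (ψ : R →+* S) (T h : S) (r : ℕ) (s p : R) (hT : y T = 0) (hT0 : T ≠ 0)
    (hp : ψ p = T ^ r * h) (hs : y (ψ s) ≠ 0) (hw : ∀ w : R, y (ψ w) = 0 → p ∣ s * w)
    (c : ℕ → R) (hc : ∑ i ∈ range r, ψ (c i) * T ^ i = 0) :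
    ∀ n < r, y (ψ (c n)) = 0 := by
  intro n
  induction n using Nat.strong_induction_on with
  | _ n ih =>
    intro hn
    have h1 : ∑ i ∈ range r, ψ s * ψ (c i) * T ^ i = 0 := by
      have h2 := congrArg (fun z => ψ s * z) hc
      simp only [Finset.mul_sum, mul_zero] at h2
      simpa only [mul_assoc] using h2
    rw [← Finset.add_sum_erase _ _ (mem_range.2 hn)] at h1
    have h3 : T ^ (n + 1) ∣ ∑ i ∈ (range r).erase n, ψ s * ψ (c i) * T ^ i := by
      refine Finset.dvd_sum fun i hi => ?_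
      obtain ⟨hin, hir⟩ := mem_erase.1 hi
      rcases lt_or_gt_of_ne hin with h4 | h4
      · obtain ⟨e, he⟩ := hw _ (ih i h4 (mem_range.1 hir))
        rw [← map_mul, he, map_mul, hp]
        exact (((pow_dvd_pow T hn).mul_right h).mul_right _).mul_right _
      · exact (pow_dvd_pow T h4).mul_left _
    have h5 : T ^ (n + 1) ∣ ψ s * ψ (c n) * T ^ n := by
      rw [eq_neg_of_add_eq_zero_left h1]
      exact (dvd_neg).2 h3
    rw [pow_succ', mul_dvd_mul_iff_right (pow_ne_zero n hT0)] at h5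
    obtain ⟨e, he⟩ := h5
    have h6 := congrArg y he
    rw [map_mul, map_mul, hT, zero_mul] at h6
    exact (mul_eq_zero.1 h6).resolve_left hs

theorem iter (y : S →+* F) (ψ : R →+* S) (T h : S) (r : ℕ) (s p : R) (hT : y T = 0) (hT0 : T ≠ 0)
    (hp : ψ p = T ^ r * h) (hp0 : ψ p ≠ 0) (hs : y (ψ s) ≠ 0)
    (hw : ∀ w : R, y (ψ w) = 0 → p ∣ s * w) (k : ℕ) :
    ∀ c : ℕ → R, ∑ i ∈ range r, ψ (c i) * T ^ i = 0 → ∀ n < r, p ^ k ∣ s ^ k * c n := by
  induction k with
  | zero => intro c _ n _; simp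
  | succ k ih =>
    intro c hc n hn
    have h1 : ∀ i, ∃ e : R, i < r → s * c i = p * e := by
      intro i
      by_cases hi : i < r
      · obtain ⟨e, he⟩ := hw _ (step y ψ T h r s p hT hT0 hp hs hw c hc i hi)
        exact ⟨e, fun _ => he⟩
      · exact ⟨0, fun h0 => absurd h0 hi⟩
    choose e he using h1
    have h2 : ∑ i ∈ range r, ψ (e i) * T ^ i = 0 := by
      refine (mul_eq_zero.1 ?_).resolve_left hp0
      have h3 := congrArg (fun z => ψ s * z) hc
      simp only [Finset.mul_sum, mul_zero] at h3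
      rw [Finset.mul_sum, ← h3]
      refine Finset.sum_congr rfl fun i hi => ?_
      rw [← mul_assoc, ← mul_assoc, ← map_mul, ← map_mul, he i (mem_range.1 hi)]
    obtain ⟨f, hf⟩ := ih e h2 n hn
    refine ⟨f, ?_⟩
    rw [pow_succ, mul_assoc, he n hn, mul_left_comm, hf]
    ring

end NFINDK

theorem stINDK : St_INDK := by
  intro K _ _ S _ _ _ q hq y ψ θ h a r s _ hθ hne hqe hs hw g hg hev
  have hT : y (θ - a) = 0 := by rw [map_sub, hθ, map_intCast, sub_self]
  have hT0 : θ - (a : S) ≠ 0 := sub_ne_zero.2 hne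
  have hp : ψ (q : 𝓞 K) = (θ - a) ^ r * h := by rw [map_natCast, hqe]
  have hp0 : ψ (q : 𝓞 K) ≠ 0 := by
    rw [map_natCast]
    exact Nat.cast_ne_zero.2 hq.out.ne_zero
  set g' : (𝓞 K)[X] := taylor (a : 𝓞 K) g with hg'
  have hd : g'.natDegree < r := by rwa [hg', natDegree_taylor]
  have h1 : ∑ i ∈ range r, ψ (g'.coeff i) * (θ - a) ^ i = 0 := by
    have h2 : (g'.map ψ).eval (θ - a) = 0 := by
      rw [hg', map_taylor, taylor_eval, map_intCast, sub_add_cancel, hev]
    rw [eval_map, eval₂_eq_sum_range' ψ hd] at h2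
    exact h2
  set P : Ideal (𝓞 K) := RingHom.ker (y.comp ψ) with hP
  have hPp : P.IsPrime := RingHom.ker_isPrime _
  have hqP : (q : 𝓞 K) ∈ P := by
    rw [hP, RingHom.mem_ker, map_natCast, ZMod.natCast_self]
  have hsP : s ∉ P := hs
  have h3 : g' = 0 := by
    ext1 n
    rw [coeff_zero]
    by_cases hn : n < r
    · have h4 : g'.coeff n ∈ (⨅ k : ℕ, P ^ k) := by
        refine Ideal.mem_iInf.2 fun k => ?_
        obtain ⟨f, hf⟩ := NFINDK.iter y ψ _ h r s q hT hT0 hp hp0 hs hw k _ h1 n hn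
        have h5 : s ^ k * g'.coeff n ∈ P ^ k := by
          rw [hf]
          exact Ideal.mul_mem_right _ _ (Ideal.pow_mem_pow hqP k)
        exact (Ideal.IsPrime.mul_mem_pow P h5).resolve_left fun h6 => hsP (hPp.mem_of_pow_mem k h6)
      rwa [Ideal.iInf_pow_eq_bot_of_isDomain P hPp.ne_top, Ideal.mem_bot] at h4
    · exact coeff_eq_zero_of_natDegree_lt (lt_of_lt_of_le hd (not_lt.1 hn))
  exact (taylor_eq_zero _ _).1 h3

end Pool.Agent.Lib.BK2
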