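import Pool.Agent.Lib.BK2.NFG

/-! Mertens' first theorem for a number field. -/

open Filter Topology Finset

noncomputable section

namespace Pool.Agent.Lib.BK2

namespace NFMK1

open helper22.PIT

theorem wt_le_one (X : ℝ) (m : ℕ) : wt X m ≤ 1 := by
  unfold wt
  split_ifs
  · exact zero_le_one
  · exact tent_le_one _

theorem wt_zero {X : ℝ} (hX : 0 < X) {m : ℕ} (hm : 3 * X ≤ m) : wt X m = 0 :=
  wt_eq_zero hX (by nlinarith [Real.exp_one_lt_d9])

theorem wt_mul {X : ℝ} {d : ℕ} (hd : d ≠ 0) (m : ℕ) : wt X (d * m) = wt (X / d) m := by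
  unfold wt
  by_cases hm : m = 0
  · simp [hm]
  · rw [if_neg (mul_ne_zero hd hm), if_neg hm]
    congr 2
    push_cast
    rw [div_div_eq_mul_div, mul_comm]

theorem tsum_eq (a : ℕ → ℝ) {X : ℝ} (hX : 0 < X) {N : ℕ} (hN : 3 * X ≤ N) :
    ∑' m, a m * wt X m = ∑ m ∈ Icc 1 N, a m * wt X m := by
  refine tsum_eq_sum fun m hm => ?_
  rw [mem_Icc, not_and_or] at hm
  rcases hm with hm | hm
  · obtain rfl : m = 0 := by omega
    simp [wt]
  · have : (N : ℝ) ≤ m := by exact_mod_cast (not_le.1 hm).le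
    rw [wt_zero hX (hN.trans this), mul_zero]

theorem conv (a L : ℕ → ℝ)
    (hc : ∀ n : ℕ, n ≠ 0 → Real.log n * a n = ∑ p ∈ n.divisorsAntidiagonal, L p.1 * a p.2)
    {X : ℝ} (hX : 0 < X) {N : ℕ} (hN : 3 * X ≤ N) :
    ∑ m ∈ Icc 1 N, Real.log m * a m * wt X m =
      ∑ d ∈ Icc 1 N, L d * ∑ m ∈ Icc 1 N, a m * wt (X / d) m := by
  have h1 : ∀ m ∈ Icc 1 N, Real.log m * a m * wt X m =
      ∑ p ∈ (Icc 1 N ×ˢ Icc 1 N).filter (fun p => p.1 * p.2 = m),
        L p.1 * a p.2 * wt X (p.1 * p.2) := by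
    intro m hm
    rw [mem_Icc] at hm
    rw [hc m (by omega), sum_mul]
    refine sum_congr ?_ fun p hp => by rw [(mem_filter.1 hp).2]
    ext p
    simp only [Nat.mem_divisorsAntidiagonal, mem_filter, mem_product, mem_Icc]
    constructor
    · rintro ⟨h, h0⟩
      have h1 : p.1 ≠ 0 := fun e => h0 (by rw [← h, e, zero_mul])
      have h2 : p.2 ≠ 0 := fun e => h0 (by rw [← h, e, mul_zero])
      have h3 : p.1 ≤ m := h ▸ Nat.le_mul_of_pos_right _ (Nat.pos_of_ne_zero h2)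
      have h4 : p.2 ≤ m := h ▸ Nat.le_mul_of_pos_left _ (Nat.pos_of_ne_zero h1)
      exact ⟨⟨⟨by omega, by omega⟩, by omega, by omega⟩, h⟩
    · rintro ⟨-, h⟩
      exact ⟨h, by omega⟩
  rw [sum_congr rfl h1, sum_fiberwise_eq_sum_filter, sum_filter, sum_product]
  refine sum_congr rfl fun d hd => ?_
  rw [mul_sum]
  refine sum_congr rfl fun m hm => ?_
  rw [mem_Icc] at hd hm
  rw [← wt_mul (by omega)]
  split_ifs with h
  · ring
  · have h2 : N ≤ d * m := by
      by_contra hc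
      exact h (mem_Icc.2 ⟨Nat.mul_pos hd.1 hm.1, (not_le.1 hc).le⟩)
    have h3 : (N : ℝ) ≤ (d * m : ℕ) := by exact_mod_cast h2
    rw [wt_zero hX (hN.trans h3)]
    ring

theorem cheb (L : ℕ → ℝ) (hL : ∀ n, 0 ≤ L n) (B θ : ℝ) (h0 : 0 ≤ θ) (h1 : θ < 1) (hB0 : 0 ≤ B)
    (hB : ∀ n : ℕ, ∑ k ∈ Icc 1 n, L k ≤ B * n) :
    ∃ K : ℝ, ∀ n : ℕ, ∑ d ∈ Icc 1 n, L d * (d : ℝ) ^ (-θ) ≤ K * (n : ℝ) ^ (1 - θ) := by
  obtain ⟨r, hr, hr1⟩ : ∃ r : ℝ, r = (1 / 2 : ℝ) ^ (1 - θ) ∧ r < 1 :=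
    ⟨_, rfl, Real.rpow_lt_one (by norm_num) (by norm_num) (by linarith)⟩
  have hK : 0 ≤ 2 * B / (1 - r) := div_nonneg (by linarith) (by linarith)
  refine ⟨2 * B / (1 - r), fun n => ?_⟩
  induction n using Nat.strong_induction_on with
  | _ n ih =>
    rcases Nat.eq_zero_or_pos n with rfl | hn
    · simp only [zero_lt_one, Icc_eq_empty_of_lt, sum_empty]
      positivity
    have hnr : (0 : ℝ) < n := Nat.cast_pos.2 hn
    have e : Icc 1 n = Icc 1 (n / 2) ∪ Ioc (n / 2) n := by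
      ext x
      simp only [mem_Icc, mem_union, mem_Ioc]
      omega
    have hdis : Disjoint (Icc 1 (n / 2)) (Ioc (n / 2) n) := by
      rw [disjoint_left]
      intro x hx hx'
      simp only [mem_Icc, mem_Ioc] at hx hx'
      omega
    have a1 : (((n / 2 : ℕ) : ℝ)) ^ (1 - θ) ≤ r * (n : ℝ) ^ (1 - θ) := by
      rw [hr, ← Real.mul_rpow (by norm_num) hnr.le]
      refine Real.rpow_le_rpow (by positivity) ?_ (by linarith)
      have := Nat.cast_div_le (α := ℝ) (m := n) (n := 2)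
      push_cast at this
      linarith
    have a2 : ∑ d ∈ Ioc (n / 2) n, L d * (d : ℝ) ^ (-θ) ≤ 2 * B * (n : ℝ) ^ (1 - θ) := by
      calc ∑ d ∈ Ioc (n / 2) n, L d * (d : ℝ) ^ (-θ)
          ≤ ∑ d ∈ Ioc (n / 2) n, L d * (2 * (n : ℝ) ^ (-θ)) := by
            refine sum_le_sum fun d hd => mul_le_mul_of_nonneg_left ?_ (hL d)
            rw [mem_Ioc] at hd
            have b1 : n ≤ 2 * d := by omega
            have b2 : (n : ℝ) / 2 ≤ d := by
              have : (n : ℝ) ≤ 2 * d := by exact_mod_cast b1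
              linarith
            calc (d : ℝ) ^ (-θ) ≤ ((n : ℝ) / 2) ^ (-θ) :=
                  Real.rpow_le_rpow_of_nonpos (by positivity) b2 (by linarith)
              _ = 2 ^ θ * (n : ℝ) ^ (-θ) := by
                  rw [Real.div_rpow hnr.le (by norm_num), Real.rpow_neg (by norm_num : (0 : ℝ) ≤ 2),
                    div_inv_eq_mul, mul_comm]
              _ ≤ 2 * (n : ℝ) ^ (-θ) := by
                  refine mul_le_mul_of_nonneg_right ?_ (by positivity)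
                  simpa using Real.rpow_le_rpow_of_exponent_le (by norm_num : (1 : ℝ) ≤ 2) h1.le
        _ = (∑ d ∈ Ioc (n / 2) n, L d) * (2 * (n : ℝ) ^ (-θ)) := by rw [sum_mul]
        _ ≤ (B * n) * (2 * (n : ℝ) ^ (-θ)) := by
            refine mul_le_mul_of_nonneg_right (le_trans ?_ (hB n)) (by positivity)
            exact sum_le_sum_of_subset_of_nonneg (e ▸ subset_union_right) fun i _ _ => hL i
        _ = 2 * B * (n : ℝ) ^ (1 - θ) := by
            rw [sub_eq_add_neg, Real.rpow_add hnr, Real.rpow_one]; ring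
    have a3 := (ih (n / 2) (by omega)).trans (mul_le_mul_of_nonneg_left a1 hK)
    rw [e, sum_union hdis]
    have a4 : 2 * B / (1 - r) * (r * (n : ℝ) ^ (1 - θ)) + 2 * B * (n : ℝ) ^ (1 - θ) =
        2 * B / (1 - r) * (n : ℝ) ^ (1 - θ) := by
      have : 1 - r ≠ 0 := by linarith
      field_simp
      ring
    linarith

theorem c_pos (a : ℕ → ℝ) (ha : ∀ n, 0 ≤ a n) (l c C θ : ℝ) (hl : 0 < l) (hθ : θ < 1)
    (hA : Tendsto (fun n : ℕ => (∑ k ∈ Icc 1 n, a k) / n) atTop (𝓝 l))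
    (hZ : ∀ X : ℝ, 1 ≤ X → |∑' m : ℕ, a m * wt X m - c * X| ≤ C * X ^ θ) : 0 < c := by
  have t3 : Tendsto (fun k : ℕ => (∑ m ∈ Icc 1 (3 * k), a m) / (3 * k : ℕ)) atTop (𝓝 l) :=
    hA.comp (tendsto_id.const_mul_atTop' (by norm_num))
  have t2 : Tendsto (fun k : ℕ => (∑ m ∈ Icc 1 (2 * k), a m) / (2 * k : ℕ)) atTop (𝓝 l) :=
    hA.comp (tendsto_id.const_mul_atTop' (by norm_num))
  have t1 : Tendsto (fun k : ℕ => C * ((2 * k : ℕ) : ℝ) ^ (-(1 - θ))) atTop (𝓝 (C * 0)) :=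
    ((tendsto_rpow_neg_atTop (by linarith)).comp (tendsto_natCast_atTop_atTop.comp
      (tendsto_id.const_mul_atTop' (by norm_num)))).const_mul C
  have key : (3 * l - 2 * l) / 4 ≤ c + C * 0 := by
    refine le_of_tendsto_of_tendsto (((t3.const_mul 3).sub (t2.const_mul 2)).div_const 4)
      (t1.const_add c) ?_
    filter_upwards [eventually_ge_atTop 1] with k hk
    have hk' : (1 : ℝ) ≤ k := by exact_mod_cast hk
    have hX : (0 : ℝ) < 2 * k := by linarith
    have h1 := (abs_le.1 (hZ (2 * k) (by linarith))).2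
    rw [tsum_eq a hX (N := 6 * k) (by push_cast; linarith)] at h1
    have h2 : (∑ m ∈ Icc 1 (3 * k), a m - ∑ m ∈ Icc 1 (2 * k), a m) / 2 ≤
        ∑ m ∈ Icc 1 (6 * k), a m * wt (2 * k) m := by
      rw [← sum_sdiff_eq_sub (Icc_subset_Icc_right (by omega)), sum_div]
      calc ∑ m ∈ Icc 1 (3 * k) \ Icc 1 (2 * k), a m / 2
          ≤ ∑ m ∈ Icc 1 (3 * k) \ Icc 1 (2 * k), a m * wt (2 * k) m := by
            refine sum_le_sum fun m hm => ?_
            rw [Finset.mem_sdiff, mem_Icc, mem_Icc] at hm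
            have b1 : (2 * k : ℝ) ≤ m := by exact_mod_cast (by omega : 2 * k ≤ m)
            have b2 : (m : ℝ) ≤ 3 * k := by exact_mod_cast hm.1.2
            have b3 : 1 ≤ (m : ℝ) / (2 * k) := by rw [le_div_iff₀ hX]; linarith
            have b4 : (m : ℝ) / (2 * k) ≤ 3 / 2 := by rw [div_le_iff₀ hX]; linarith
            have b5 := Real.log_le_sub_one_of_pos (by linarith : 0 < (m : ℝ) / (2 * k))
            have b6 : 1 / 2 ≤ wt (2 * k) m := by
              rw [wt, if_neg (by omega), tent, abs_of_nonneg (Real.log_nonneg b3)]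
              exact le_max_of_le_right (by linarith)
            nlinarith [ha m]
        _ ≤ _ := sum_le_sum_of_subset_of_nonneg
            (sdiff_subset.trans (Icc_subset_Icc_right (by omega)))
            fun i _ _ => mul_nonneg (ha i) (wt_nonneg _ _)
    have h3 : (2 * k : ℝ) ^ θ = (2 * k : ℝ) ^ (-(1 - θ)) * (2 * k) := by
      rw [← Real.rpow_add_one hX.ne']
      congr 1
      ring
    have e : (3 * ((∑ m ∈ Icc 1 (3 * k), a m) / (3 * k : ℕ)) -
        2 * ((∑ m ∈ Icc 1 (2 * k), a m) / (2 * k : ℕ))) / 4 =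
        (∑ m ∈ Icc 1 (3 * k), a m - ∑ m ∈ Icc 1 (2 * k), a m) / 2 / (2 * k) := by
      push_cast
      field_simp
      ring
    rw [e, div_le_iff₀ hX]
    push_cast
    rw [h3] at h1
    nlinarith
  linarith

theorem main (a L : ℕ → ℝ) (ha : ∀ n, 0 ≤ a n) (hL : ∀ n, 0 ≤ L n) (B c C θ : ℝ) (hB0 : 0 ≤ B)
    (hB : ∀ n : ℕ, ∑ k ∈ Icc 1 n, L k ≤ B * n) (hc0 : 0 < c) (h0 : 0 ≤ θ) (hθ : θ < 1)
    (hc : ∀ n : ℕ, n ≠ 0 → Real.log n * a n = ∑ p ∈ n.divisorsAntidiagonal, L p.1 * a p.2)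
    (hZ : ∀ X : ℝ, 1 ≤ X → |∑' m : ℕ, a m * wt X m - c * X| ≤ C * X ^ θ) :
    ∃ A : ℝ, ∀ n : ℕ, 1 ≤ n → |∑ k ∈ Icc 1 n, L k / k - Real.log n| ≤ A := by
  obtain ⟨K, hK⟩ := cheb L hL B θ h0 hθ hB0 hB
  have hC : 0 ≤ C := by simpa using (abs_nonneg _).trans (hZ 1 le_rfl)
  obtain ⟨D, hD⟩ : ∃ D : ℝ, D = ∑ m ∈ Icc 1 3, a m := ⟨_, rfl⟩
  have hD0 : 0 ≤ D := hD ▸ sum_nonneg fun i _ => ha i
  refine ⟨((c + C) + C * K + D * (3 * B) + C / (1 - θ)) / c, fun n hn => ?_⟩
  have hX : (1 : ℝ) ≤ n := by exact_mod_cast hn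
  have hX0 : (0 : ℝ) < n := by linarith
  have hN : 3 * (n : ℝ) ≤ (3 * n : ℕ) := by push_cast; rfl
  set S := ∑ m ∈ Icc 1 (3 * n), a m * wt n m with hS
  have hS1 : |S - c * n| ≤ C * (n : ℝ) ^ θ := by rw [hS, ← tsum_eq a hX0 hN]; exact hZ n hX
  have hp : (n : ℝ) ^ θ ≤ n := by simpa using Real.rpow_le_rpow_of_exponent_le hX hθ.le
  have hS2 : S ≤ (c + C) * n := by nlinarith [(abs_le.1 hS1).2]
  have e1 : |∑ m ∈ Icc 1 (3 * n), Real.log m * a m * wt n m - Real.log n * S| ≤ S := by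
    rw [hS, mul_sum, ← sum_sub_distrib]
    refine (abs_sum_le_sum_abs _ _).trans (sum_le_sum fun m hm => ?_)
    have hm0 : m ≠ 0 := by rw [mem_Icc] at hm; omega
    have hm1 : (0 : ℝ) < m := Nat.cast_pos.2 (Nat.pos_of_ne_zero hm0)
    have : Real.log m * a m * wt n m - Real.log n * (a m * wt n m) =
        Real.log (m / n) * (a m * wt n m) := by rw [Real.log_div hm1.ne' hX0.ne']; ring
    have hw : 0 ≤ a m * wt n m := mul_nonneg (ha m) (wt_nonneg _ _)
    rw [this, abs_mul, abs_of_nonneg hw]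
    by_cases h : wt n m = 0
    · simp [h]
    · rw [wt, if_neg hm0] at h
      exact mul_le_of_le_one_left hw (abs_lt_of_tent h).le
  have e2 : |Real.log n * S - Real.log n * (c * n)| ≤ C / (1 - θ) * n := by
    rw [← mul_sub, abs_mul, abs_of_nonneg (Real.log_nonneg hX)]
    calc Real.log n * |S - c * n| ≤ ((n : ℝ) ^ (1 - θ) / (1 - θ)) * (C * (n : ℝ) ^ θ) :=
          mul_le_mul (Real.log_le_rpow_div hX0.le (by linarith)) hS1 (abs_nonneg _)
            (div_nonneg (by positivity) (by linarith))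
      _ = C / (1 - θ) * ((n : ℝ) ^ (1 - θ) * (n : ℝ) ^ θ) := by ring
      _ = _ := by rw [← Real.rpow_add hX0, sub_add_cancel, Real.rpow_one]
  set T : ℕ → ℝ := fun d => ∑ m ∈ Icc 1 (3 * n), a m * wt (n / d) m with hT
  have e3 : |∑ d ∈ Icc 1 n, L d * T d - c * n * ∑ k ∈ Icc 1 n, L k / k| ≤ C * K * n := by
    rw [mul_sum, ← sum_sub_distrib]
    calc _ ≤ ∑ d ∈ Icc 1 n, C * (n : ℝ) ^ θ * (L d * (d : ℝ) ^ (-θ)) := by
          refine (abs_sum_le_sum_abs _ _).trans (sum_le_sum fun d hd => ?_)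
          rw [mem_Icc] at hd
          have d1 : (1 : ℝ) ≤ d := by exact_mod_cast hd.1
          have d2 : (d : ℝ) ≤ n := by exact_mod_cast hd.2
          have d3 : 1 ≤ (n : ℝ) / d := by rw [le_div_iff₀ (by linarith)]; linarith
          have d4 := hZ _ d3
          rw [tsum_eq a (by linarith) (N := 3 * n)
            (by have := div_le_self hX0.le d1; linarith)] at d4
          have : L d * T d - c * n * (L d / d) = L d * (T d - c * (n / d)) := by ring
          rw [this, abs_mul, abs_of_nonneg (hL d)]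
          refine (mul_le_mul_of_nonneg_left d4 (hL d)).trans_eq ?_
          rw [Real.div_rpow hX0.le (by linarith), Real.rpow_neg (by linarith)]
          ring
      _ = C * (n : ℝ) ^ θ * ∑ d ∈ Icc 1 n, L d * (d : ℝ) ^ (-θ) := by rw [mul_sum]
      _ ≤ C * (n : ℝ) ^ θ * (K * (n : ℝ) ^ (1 - θ)) :=
          mul_le_mul_of_nonneg_left (hK n) (by positivity)
      _ = C * K * ((n : ℝ) ^ (1 - θ) * (n : ℝ) ^ θ) := by ring
      _ = _ := by rw [← Real.rpow_add hX0, sub_add_cancel, Real.rpow_one]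
  have hsub : Icc 1 n ⊆ Icc 1 (3 * n) := Icc_subset_Icc_right (by omega)
  have e4 : |∑ d ∈ Icc 1 (3 * n), L d * T d - ∑ d ∈ Icc 1 n, L d * T d| ≤ D * (3 * B) * n := by
    rw [← sum_sdiff_eq_sub hsub]
    calc _ ≤ ∑ d ∈ Icc 1 (3 * n) \ Icc 1 n, L d * D := by
          refine (abs_sum_le_sum_abs _ _).trans (sum_le_sum fun d hd => ?_)
          rw [Finset.mem_sdiff, mem_Icc, mem_Icc] at hd
          have d1 : (1 : ℝ) ≤ d := by exact_mod_cast hd.1.1
          have d2 : (n : ℝ) ≤ d := by exact_mod_cast (by omega : n ≤ d)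
          have d3 : (n : ℝ) / d ≤ 1 := by rw [div_le_iff₀ (by linarith)]; linarith
          have d4 : T d = ∑ m ∈ Icc 1 3, a m * wt (n / d) m := by
            rw [← tsum_eq a (by positivity) (N := 3) (by push_cast; linarith), hT]
            exact (tsum_eq a (by positivity) (by have := div_le_self hX0.le d1; linarith)).symm
          have d5 : 0 ≤ T d := sum_nonneg fun i _ => mul_nonneg (ha i) (wt_nonneg _ _)
          rw [abs_of_nonneg (mul_nonneg (hL d) d5)]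
          refine mul_le_mul_of_nonneg_left ?_ (hL d)
          rw [d4, hD]
          exact sum_le_sum fun i _ => mul_le_of_le_one_right (ha i) (wt_le_one _ _)
      _ ≤ ∑ d ∈ Icc 1 (3 * n), L d * D :=
          sum_le_sum_of_subset_of_nonneg sdiff_subset fun i _ _ => mul_nonneg (hL i) hD0
      _ = (∑ d ∈ Icc 1 (3 * n), L d) * D := by rw [sum_mul]
      _ ≤ (B * (3 * n : ℕ)) * D := mul_le_mul_of_nonneg_right (hB _) hD0
      _ = _ := by push_cast; ring
  have e5 : ∑ m ∈ Icc 1 (3 * n), Real.log m * a m * wt n m = ∑ d ∈ Icc 1 (3 * n), L d * T d :=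
    conv a L hc hX0 hN
  rw [e5] at e1
  rw [le_div_iff₀ hc0]
  refine le_of_mul_le_mul_right ?_ hX0
  have e6 : |∑ k ∈ Icc 1 n, L k / k - Real.log n| * c * n =
      |c * n * ∑ k ∈ Icc 1 n, L k / k - Real.log n * (c * n)| := by
    rw [mul_assoc, ← abs_of_pos (mul_pos hc0 hX0), ← abs_mul, abs_of_pos (mul_pos hc0 hX0)]
    congr 1
    ring
  rw [e6, abs_le]
  rw [abs_le] at e1 e2 e3 e4
  constructor <;> nlinarith [e1.1, e1.2, e2.1, e2.2, e3.1, e3.2, e4.1, e4.2]

end NFMK1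

open NFMK1 helper22.PIT NumberField Ideal in
theorem stMK1 : St_MK1 := by
  intro K _ _
  obtain ⟨c, C, θ, hθ, hZ⟩ := smooth_count K
  have hA : Tendsto (fun n : ℕ => (∑ k ∈ Finset.Icc 1 n, (aK K k : ℝ)) / n) atTop
      (𝓝 (dedekindZeta_residue K)) := by
    refine ((Ideal.tendsto_norm_le_div_atTop₀ K).comp tendsto_natCast_atTop_atTop).congr
      fun n ↦ ?_
    simp only [Function.comp_apply, Nat.cast_le, ← Nat.cast_sum, aK]
    congr
    rw [← add_left_inj 1, ← card_norm_le_eq_card_norm_le_add_one,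
      show Finset.Icc 1 n = Finset.Ioc 0 n from Finset.Icc_succ_left_eq_Ioc _ _,
      show 1 = Nat.card {I : Ideal (𝓞 K) // absNorm I = 0} by simp [Ideal.absNorm_eq_zero_iff],
      Finset.sum_Ioc_add_eq_sum_Icc (n.zero_le),
      ← Finset.card_preimage_eq_sum_card_image_eq (fun k _ ↦ finite_setOfPred_absNorm_eq k)]
    simp [Set.coe_eq_subtype]
  have hc := c_pos (fun n => (aK K n : ℝ)) (fun _ => Nat.cast_nonneg _) _ c C θ
    (dedekindZeta_residue_pos K) hθ hA hZ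
  have hC : 0 ≤ C := by simpa using (abs_nonneg _).trans (hZ 1 le_rfl)
  have h4 : 0 ≤ Real.log 4 := Real.log_nonneg (by norm_num)
  refine main (fun n => (aK K n : ℝ)) (LamK K) (fun _ => Nat.cast_nonneg _) (LamK_nonneg K)
    (Module.finrank ℤ (𝓞 K) * (Real.log 4 + 4)) c C (max θ 0) (by positivity) (fun n => ?_) hc
    (le_max_right _ _) (max_lt hθ one_pos) (LamK_conv K) fun X hX => (hZ X hX).trans
      (mul_le_mul_of_nonneg_left (Real.rpow_le_rpow_of_exponent_le hX (le_max_left _ _)) hC)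
  refine (Finset.sum_le_sum fun k _ => LamK_le K k).trans ?_
  rw [← Finset.mul_sum, mul_assoc]
  refine mul_le_mul_of_nonneg_left ?_ (Nat.cast_nonneg _)
  have := Chebyshev.psi_le_const_mul_self (x := n) (Nat.cast_nonneg n)
  rw [Chebyshev.psi, Nat.floor_natCast] at this
  exact this

end Pool.Agent.Lib.BK2
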