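import Pool.Agent.Lib.BK2.NFG
import Pool.Agent.Lib.BK2.MERT

/-! BK2: Mertens' second theorem for the primes of degree one of a number field. -/

namespace Pool.Agent.Lib.BK2

open Finset NumberField MERT helper22.PIT

namespace NFMK2

/-- the error term of the weighted first estimate -/
noncomputable def Rw (c : ℕ → ℝ) (n : ℕ) : ℝ :=
  ∑ l ∈ (Ioc 0 n).filter Nat.Prime, c l * Real.log l / l - Real.log n

theorem abel {c : ℕ → ℝ} {A : ℝ} (hA : ∀ n, 1 ≤ n → |Rw c n| ≤ A) (a : ℕ) (ha : 2 ≤ a) (b : ℕ)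
    (hab : a ≤ b) :
    |∑ p ∈ (Ioc a b).filter Nat.Prime, c p / p - (Rw c b / Real.log b - Rw c a / Real.log a) -
      (Real.log (Real.log b) - Real.log (Real.log a))| ≤
      (A + 1) * (1 / Real.log a - 1 / Real.log b) := by
  induction b, hab using Nat.le_induction with
  | base => simp
  | succ b hab ih =>
    have hb : (2 : ℝ) ≤ b := by exact_mod_cast ha.trans hab
    obtain ⟨s1, s2⟩ := log_step (show (1 : ℝ) ≤ b by linarith)
    have s3 : 1 / (b : ℝ) ≤ 1 := by rw [div_le_one (by linarith)]; linarith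
    have hu : 0 < Real.log b := Real.log_pos (by linarith)
    have hR := abs_le.1 (hA b (by omega))
    have e1 : ∑ p ∈ (Ioc a (b + 1)).filter Nat.Prime, c p / p =
        ∑ p ∈ (Ioc a b).filter Nat.Prime, c p / p +
          (Rw c (b + 1) - Rw c b + (Real.log (b + 1) - Real.log b)) / Real.log (b + 1) := by
      rw [Rw, Rw, sum_filter, sum_filter, sum_filter, sum_filter, sum_Ioc_succ_top hab,
        sum_Ioc_succ_top (Nat.zero_le b)]
      push_cast
      have : 0 < Real.log ((b : ℝ) + 1) := by linarith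
      split_ifs
      · congr 1
        field_simp
        ring
      · simp
    rw [e1]
    push_cast
    set u := Real.log b
    set v := Real.log ((b : ℝ) + 1)
    have hv : 0 < v := by linarith
    have d0 : 0 ≤ 1 / u - 1 / v := sub_nonneg.2 (one_div_le_one_div_of_le hu (by linarith))
    have l1 : Real.log v - Real.log u ≤ (v - u) / u := by
      have := Real.log_le_sub_one_of_pos (div_pos hv hu)
      rw [Real.log_div hv.ne' hu.ne'] at this
      refine this.trans (le_of_eq ?_)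
      field_simp
    have l2 : (v - u) / v ≤ Real.log v - Real.log u := by
      have := Real.log_le_sub_one_of_pos (div_pos hu hv)
      rw [Real.log_div hu.ne' hv.ne'] at this
      have e : u / v - 1 = -((v - u) / v) := by field_simp; ring
      linarith
    have l3 : (v - u) / u - (v - u) / v ≤ 1 / u - 1 / v := by
      have e : (v - u) / u - (v - u) / v = (v - u) * (1 / u - 1 / v) := by ring
      rw [e]
      exact mul_le_of_le_one_left d0 (by linarith)
    have e2 : (Rw c (b + 1) - Rw c b + (v - u)) / v = Rw c (b + 1) / v - Rw c b / u +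
        Rw c b * (1 / u - 1 / v) + (v - u) / v := by ring
    have m1 := mul_le_mul_of_nonneg_right hR.1 d0
    have m2 := mul_le_mul_of_nonneg_right hR.2 d0
    rw [abs_le] at ih ⊢
    rw [e2]
    constructor <;> linarith [ih.1, ih.2]

theorem two {c : ℕ → ℝ} {A : ℝ} (hA : ∀ n, 1 ≤ n → |Rw c n| ≤ A) {y z : ℝ} (hy : 2 ≤ y)
    (hyz : y ≤ z) :
    |∑ p ∈ (Ioc ⌊y⌋₊ ⌊z⌋₊).filter Nat.Prime, c p / p - Real.log (Real.log z / Real.log y)| ≤
      (6 * A + 4) / Real.log y := by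
  have hz : 2 ≤ z := hy.trans hyz
  have hA0 : 0 ≤ A := (abs_nonneg _).trans (hA 1 le_rfl)
  obtain ⟨a1, a2, a3, -⟩ := floor_log hy
  obtain ⟨b1, b2, b3, -⟩ := floor_log hz
  obtain ⟨c1, c2, c3⟩ := loglog_floor hy
  obtain ⟨d1, d2, d3⟩ := loglog_floor hz
  have hv : 0 < Real.log y := Real.log_pos (by linarith)
  have hw : Real.log y ≤ Real.log z := Real.log_le_log (by linarith) hyz
  have hab : ⌊y⌋₊ ≤ ⌊z⌋₊ := Nat.floor_mono hyz
  have h := abs_le.1 (abel hA _ a1 _ hab)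
  have hu : 0 < Real.log ⌊y⌋₊ := by linarith
  have hu' : Real.log ⌊y⌋₊ ≤ Real.log ⌊z⌋₊ :=
    Real.log_le_log (by exact_mod_cast (show 0 < ⌊y⌋₊ by omega)) (by exact_mod_cast hab)
  have i1 : 1 / Real.log ⌊z⌋₊ ≤ 1 / Real.log ⌊y⌋₊ := one_div_le_one_div_of_le hu hu'
  have i2 : 1 / Real.log z ≤ 1 / Real.log y := one_div_le_one_div_of_le hv hw
  have i3 : 0 < 1 / Real.log ⌊z⌋₊ := one_div_pos.2 (by linarith)
  have i4 : 0 < 1 / Real.log ⌊y⌋₊ := one_div_pos.2 hu
  have r1 := abs_le.1 (hA ⌊y⌋₊ (by omega))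
  have r2 := abs_le.1 (hA ⌊z⌋₊ (by omega))
  have m1 := mul_le_mul_of_nonneg_right r1.1 i4.le
  have m2 := mul_le_mul_of_nonneg_right r1.2 i4.le
  have m3 := mul_le_mul_of_nonneg_right r2.1 i3.le
  have m4 := mul_le_mul_of_nonneg_right r2.2 i3.le
  have e2 : 2 / Real.log y = 2 * (1 / Real.log y) := by ring
  rw [e2] at c3
  have m5 := mul_le_mul_of_nonneg_left i1 hA0
  have m6 := mul_le_mul_of_nonneg_left c3 hA0
  have m7 := mul_nonneg hA0 i3.le
  rw [Real.log_div (by linarith) hv.ne', abs_le]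
  have e1 : (6 * A + 4) / Real.log y = (6 * A + 4) * (1 / Real.log y) := by ring
  have e3 : Rw c ⌊y⌋₊ / Real.log ⌊y⌋₊ = Rw c ⌊y⌋₊ * (1 / Real.log ⌊y⌋₊) := by ring
  have e4 : Rw c ⌊z⌋₊ / Real.log ⌊z⌋₊ = Rw c ⌊z⌋₊ * (1 / Real.log ⌊z⌋₊) := by ring
  have i5 : 0 < 1 / Real.log y := one_div_pos.2 hv
  rw [e3, e4] at h
  rw [e1]
  constructor <;> linarith [h.1, h.2]

variable (K : Type) [Field K] [NumberField K]

theorem card_hom {p : ℕ} (hp : p.Prime) : Nat.card (𝓞 K →+* ZMod p) = (idN K p).card := by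
  have : Fact p.Prime := ⟨hp⟩
  rw [← Nat.card_eq_finsetCard]
  have h1 : ∀ f : 𝓞 K →+* ZMod p, RingHom.ker f ∈ idN K p := fun f => by
    rw [mem_idN, Ideal.absNorm_apply, Submodule.cardQuot_apply,
      Nat.card_congr (RingHom.quotientKerEquivOfSurjective (ZMod.ringHom_surjective f)).toEquiv,
      Nat.card_zmod]
  refine Nat.card_congr (Equiv.ofBijective (fun f => ⟨RingHom.ker f, h1 f⟩) ⟨fun f g h => ?_, ?_⟩)
  · exact ZMod.ringHom_eq_of_ker_eq f g (congrArg Subtype.val h)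
  · rintro ⟨I, hI⟩
    have h2 : Nat.card (𝓞 K ⧸ I) = p := (mem_idN K).1 hI
    have : Finite (𝓞 K ⧸ I) := Nat.finite_of_card_ne_zero (h2 ▸ hp.ne_zero)
    have := Fintype.ofFinite (𝓞 K ⧸ I)
    let e := ZMod.ringEquivOfPrime (𝓞 K ⧸ I) hp (Nat.card_eq_fintype_card.symm.trans h2)
    refine ⟨(e.symm : _ →+* ZMod p).comp (Ideal.Quotient.mk I), Subtype.ext ?_⟩
    ext x
    simp [RingHom.mem_ker, Ideal.Quotient.eq_zero_iff_mem]

theorem lam_prime {p : ℕ} (hp : p.Prime) : LamK K p = (idN K p).card * Real.log p := by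
  classical
  have e : ppN K p = (idN K p).image fun P => (P, 1) := by
    ext ⟨P, k⟩
    simp only [mem_ppN, mem_image, mem_idN, Prod.mk.injEq]
    refine ⟨fun ⟨_, _, _, h⟩ => ?_, ?_⟩
    · obtain ⟨h4, h5⟩ := (Nat.Prime.pow_eq_iff hp).mp h
      exact ⟨P, h4, rfl, h5.symm⟩
    · rintro ⟨_, h, rfl, rfl⟩
      exact ⟨Ideal.isPrime_of_irreducible_absNorm (h ▸ hp),
        fun e => hp.ne_zero (by simp [← h, e]), le_rfl, by simpa using h⟩
  rw [LamK, e, sum_image fun _ _ _ _ h => (Prod.mk.inj h).1,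
    sum_congr rfl fun P hP => by rw [(mem_idN K).mp hP], sum_const, nsmul_eq_mul]

open ArithmeticFunction in
theorem non_prime : ∃ C : ℝ, ∀ n : ℕ,
    ∑ k ∈ (Icc 1 n).filter (fun k => ¬ k.Prime), LamK K k / k ≤ C := by
  have hs := vonMangoldt.summable_residueClass_non_primes_div (q := 1) 0
  refine ⟨Module.finrank ℤ (𝓞 K) * ∑' k : ℕ,
    (if k.Prime then 0 else vonMangoldt.residueClass (0 : ZMod 1) k) / k, fun n => ?_⟩
  refine le_trans ?_ (mul_le_mul_of_nonneg_left (hs.sum_le_tsum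
    ((Icc 1 n).filter fun k => ¬ k.Prime) fun k _ => ?_) (Nat.cast_nonneg _))
  · rw [mul_sum]
    refine sum_le_sum fun k hk => ?_
    rw [if_neg (mem_filter.1 hk).2, vonMangoldt.residueClass,
      Set.indicator_of_mem (s := {n : ℕ | (n : ZMod 1) = 0}) (Subsingleton.elim (α := ZMod 1) _ _),
      ← mul_div_assoc]
    exact div_le_div_of_nonneg_right (LamK_le K k) (Nat.cast_nonneg _)
  · positivity [vonMangoldt.residueClass_nonneg (0 : ZMod 1) k]

end NFMK2

open NFMK2 in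
theorem stMK2 (h : St_MK1) : St_MK2 := by
  intro K _ _
  obtain ⟨A, hA⟩ := h K
  obtain ⟨C, hC⟩ := non_prime K
  refine ⟨6 * (A + C) + 4, fun Y z hY hz =>
    two (c := fun p => (Nat.card (𝓞 K →+* ZMod p) : ℝ)) (fun n hn => ?_) hY hz⟩
  have h1 := abs_le.1 (hA n hn)
  have h2 := hC n
  have h3 : 0 ≤ ∑ k ∈ (Icc 1 n).filter (fun k => ¬ k.Prime), LamK K k / k :=
    sum_nonneg fun k _ => div_nonneg (LamK_nonneg K k) (Nat.cast_nonneg _)
  have h4 : ∑ l ∈ (Ioc 0 n).filter Nat.Prime,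
      (Nat.card (𝓞 K →+* ZMod l) : ℝ) * Real.log l / l =
      ∑ k ∈ (Icc 1 n).filter Nat.Prime, LamK K k / k :=
    sum_congr rfl fun p hp => by
      rw [card_hom K (mem_filter.1 hp).2, lam_prime K (mem_filter.1 hp).2]
  rw [← sum_filter_add_sum_filter_not (Icc 1 n) Nat.Prime] at h1
  rw [Rw, h4, abs_le]
  constructor <;> linarith [h1.1, h1.2]

end Pool.Agent.Lib.BK2
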