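import Pool.Agent.Lib.BK2.GDefs
import Pool.Agent.Lib.BK2.NF0
import Pool.Agent.Lib.helper22.PIT

/-! Section G when the field of constants is a number field. -/

open Polynomial NumberField

noncomputable section

namespace Pool.Agent.Lib.BK2

/-- The constants `K` of the function field and the equation `G` of the plane model over `𝓞 K`. -/
structure Geo.Plane.Con {B : Type} [CommRing B] [Algebra ℤ[X] B] {d : ℕ} [NeZero d] {Γ : Geo B d}
    (π : Γ.Plane) (K : Type) [Field K] [NumberField K] where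
  D : ℤ[X]
  ne : D ≠ 0
  j : 𝓞 K →+* Localization.Away (algebraMap ℤ[X] B D)
  G : (𝓞 K)[X][X]
  monic : G.Monic
  dvd : ∀ g : (𝓞 K)[X][X],
    (g.map (mapRingHom j)).evalEval (algebraMap B _ Γ.t) (algebraMap B _ π.u) = 0 ↔ G ∣ g
  deg : d ≤ Module.finrank ℚ K * G.natDegree
  irr : ∀ φ : 𝓞 K →+* ℂ, Irreducible (G.map (mapRingHom φ))

namespace Geo.Plane.Con

variable {B : Type} [CommRing B] [Algebra ℤ[X] B] {d : ℕ} [NeZero d] {Γ : Geo B d} {π : Γ.Plane}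
  {K : Type} [Field K] [NumberField K] (c : π.Con K) {S : Type} [CommRing S] (x : B →+* S)
  (h : IsUnit (x (algebraMap ℤ[X] B c.D)))

/-- The extension of `x` to the localization. -/
def ext : Localization.Away (algebraMap ℤ[X] B c.D) →+* S := IsLocalization.Away.lift _ h

theorem ext_alg (f : B) : c.ext x h (algebraMap B _ f) = x f := IsLocalization.Away.lift_eq _ h f

/-- The homomorphism on the constants induced by `x`. -/
def psi : 𝓞 K →+* S := (c.ext x h).comp c.j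

theorem psi_ev (g : (𝓞 K)[X][X]) : (g.map (mapRingHom (c.psi x h))).evalEval (x Γ.t) (x π.u) =
    c.ext x h ((g.map (mapRingHom c.j)).evalEval (algebraMap B _ Γ.t) (algebraMap B _ π.u)) := by
  rw [← map_mapRingHom_evalEval, ext_alg, ext_alg, Polynomial.map_map, mapRingHom_comp]
  rfl

theorem psi_G : (c.G.map (mapRingHom (c.psi x h))).evalEval (x Γ.t) (x π.u) = 0 := by
  rw [psi_ev, (c.dvd _).2 dvd_rfl, map_zero]

/-- denominators of the constants -/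
theorem den (r : 𝓞 K) : ∃ (n : ℕ) (b : B), ∀ (S : Type) [CommRing S] (x : B →+* S)
    (h : IsUnit (x (algebraMap ℤ[X] B c.D))),
    c.psi x h r * x (algebraMap ℤ[X] B c.D) ^ n = x b := by
  obtain ⟨n, b, e⟩ := IsLocalization.Away.surj (algebraMap ℤ[X] B c.D) (c.j r)
  refine ⟨n, b, fun S _ x h => ?_⟩
  have := congrArg (c.ext x h) e
  rwa [map_mul, map_pow, ext_alg, ext_alg] at this

end Geo.Plane.Con

/-- `y` are homogeneous coordinates of the generic point of an integral projective curve over `ℚ`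
with function field `L`. -/
def IsCurve0 {L : Type} [Field L] [Algebra ℚ L] {n : ℕ} (y : Fin (n + 1) → L) : Prop :=
  Algebra.trdeg ℚ L = 1 ∧
    IntermediateField.adjoin ℚ (Set.range fun q : Fin (n + 1) × Fin (n + 1) => y q.1 / y q.2) = ⊤

def St_G0 : Prop :=
  ∀ (L : Type) [Field L] [Algebra ℚ L] (n : ℕ) (y : Fin (n + 1) → L), IsCurve0 y →
    ∃ (B : Type) (_ : CommRing B) (_ : IsDomain B) (_ : Algebra ℤ[X] B) (d : ℕ) (_ : NeZero d)
      (Γ : Geo B d) (_ : Γ.Model y), Γ.Mert ∧ Γ.Irr0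

def St_CONST : Prop :=
  ∀ (B : Type) [CommRing B] [IsDomain B] [Algebra ℤ[X] B] (d : ℕ) [NeZero d] (Γ : Geo B d)
    (π : Γ.Plane), ∃ (K : Type) (_ : Field K) (_ : NumberField K), Nonempty (π.Con K)

def St_NOEK : Prop :=
  ∀ (K : Type) [Field K] [NumberField K] (G : (𝓞 K)[X][X]), G.Monic →
    (∀ φ : 𝓞 K →+* ℂ, Irreducible (G.map (mapRingHom φ))) →
    ∃ p₀ : ℕ, ∀ (k : Type) [Field k] (p : ℕ) [CharP k p], p₀ ≤ p →
      ∀ ψ : 𝓞 K →+* k, Irreducible (G.map (mapRingHom ψ))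

def St_STEPK : Prop :=
  ∀ (K : Type) [Field K] [NumberField K] (G : (𝓞 K)[X][X]), G.Monic →
    (∀ φ : 𝓞 K →+* ℂ, Irreducible (G.map (mapRingHom φ))) →
    ∃ A : ℝ, ∀ p : ℕ, p.Prime → ∀ ψ : 𝓞 K →+* ZMod p,
      |(Nat.card {z : ZMod p × ZMod p // (G.map (mapRingHom ψ)).evalEval z.1 z.2 = 0} : ℝ) - p| ≤
        A * √p

def St_CNTK : Prop :=
  ∀ (B : Type) [CommRing B] [IsDomain B] [Algebra ℤ[X] B] (d : ℕ) [NeZero d] (Γ : Geo B d)
    (π : Γ.Plane) (K : Type) [Field K] [NumberField K] (_ : π.Con K),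
    ∃ A : ℝ, ∀ p : ℕ, p.Prime →
      |(Nat.card (B →+* ZMod p) : ℝ) - (Nat.card (𝓞 K →+* ZMod p) : ℝ) * p| ≤ A * √p

/-- Mertens' first theorem for a number field. -/
def St_MK1 : Prop :=
  ∀ (K : Type) [Field K] [NumberField K], ∃ A : ℝ, ∀ n : ℕ, 1 ≤ n →
    |∑ k ∈ Finset.Icc 1 n, helper22.PIT.LamK K k / k - Real.log n| ≤ A

/-- Mertens' second theorem for the primes of degree one. -/
def St_MK2 : Prop :=
  ∀ (K : Type) [Field K] [NumberField K], ∃ A : ℝ, ∀ Y z : ℝ, 2 ≤ Y → Y ≤ z →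
    |∑ p ∈ (Finset.Ioc ⌊Y⌋₊ ⌊z⌋₊).filter Nat.Prime, (Nat.card (𝓞 K →+* ZMod p) : ℝ) / p -
      Real.log (Real.log z / Real.log Y)| ≤ A / Real.log Y

/-- Sections with separable norm. -/
def St_SEP : Prop :=
  ∀ (B : Type) [CommRing B] [IsDomain B] [Algebra ℤ[X] B] (d : ℕ) [NeZero d] (Γ : Geo B d)
    (_ : Γ.Plane), ∃ m₁ : ℕ, ∀ m ≥ m₁, ∃ e : Γ.Ix m → ℤ,
      (Γ.nrm (Γ.el e)).natDegree = m * d ∧ ((Γ.nrm (Γ.el e)).map (Int.castRingHom ℚ)).Separable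

/-- At a zero of a section with separable norm, `t` generates the residue field. -/
def St_GEN : Prop :=
  ∀ (B : Type) [CommRing B] [Algebra ℤ[X] B] (d : ℕ) [NeZero d] (Γ : Geo B d)
    (E : Type) [Field E] [CharZero E] (z : B →+* E) (e : B), z e = 0 →
    ((Γ.nrm e).map (Int.castRingHom ℚ)).Separable →
    ∀ f : B, z f ∈ IntermediateField.adjoin ℚ {z Γ.t}

/-- Large primes are unramified. -/
def St_UNRK : Prop :=
  ∀ (K : Type) [Field K] [NumberField K], ∃ N : ℕ, ∀ q : ℕ, q.Prime → N ≤ q →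
    ∀ ψ : 𝓞 K →+* ZMod q, ∃ s : 𝓞 K, ψ s ≠ 0 ∧ ∀ r : 𝓞 K, ψ r = 0 → (q : 𝓞 K) ∣ s * r

def St_PTK : Prop :=
  ∀ (B : Type) [CommRing B] [IsDomain B] [Algebra ℤ[X] B] (d : ℕ) [NeZero d] (Γ : Geo B d)
    (_ : Γ.Plane) (D : ℤ[X]), D ≠ 0 → ∀ N : ℕ, ∃ (q : ℕ) (x : B →+* ZMod q) (a : ℤ),
      q.Prime ∧ N ≤ q ∧ Γ.Etale q x a ∧ x (algebraMap ℤ[X] B D) ≠ 0

/-- Polynomials of small degree in `u` vanish on no component of the fibre. -/
def St_COMP : Prop :=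
  ∀ (B : Type) [CommRing B] [IsDomain B] [Algebra ℤ[X] B] (d : ℕ) [NeZero d] (Γ : Geo B d)
    (π : Γ.Plane) (K : Type) [Field K] [NumberField K] (c : π.Con K),
    ∃ N : ℕ, ∀ q : ℕ, q.Prime → N ≤ q → ∀ g : ℤ[X][X], g.natDegree < c.G.natDegree →
      g.map (mapRingHom (Int.castRingHom (ZMod q))) ≠ 0 →
      (Γ.nrm (aeval π.u g)).map (Int.castRingHom (ZMod q)) ≠ 0

/-- Eisenstein's criterion over the constants, in a local ring `S` with maximal ideal `(q, T)`. -/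
def St_INDK : Prop :=
  ∀ (K : Type) [Field K] [NumberField K] (S : Type) [CommRing S] [IsDomain S] [CharZero S]
    (q : ℕ) [Fact q.Prime] (y : S →+* ZMod q) (ψ : 𝓞 K →+* S) (θ h : S) (a : ℤ) (r : ℕ)
    (s : 𝓞 K), (∀ z, y z ≠ 0 → IsUnit z) → y θ = a → θ ≠ a → (q : S) = (θ - a) ^ r * h →
    y (ψ s) ≠ 0 → (∀ w : 𝓞 K, y (ψ w) = 0 → (q : 𝓞 K) ∣ s * w) →
    ∀ g : (𝓞 K)[X], g.natDegree < r → (g.map ψ).eval θ = 0 → g = 0

def St_EISK : Prop :=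
  ∀ (B : Type) [CommRing B] [IsDomain B] [Algebra ℤ[X] B] (d : ℕ) [NeZero d] (Γ : Geo B d)
    (π : Γ.Plane) (K : Type) [Field K] [NumberField K] (_ : π.Con K),
    ∃ c₀ : ℕ, ∀ N : ℕ, ∃ q : ℕ, q.Prime ∧ N ≤ q ∧ ∀ m ≥ c₀, ∃ e₀ : Γ.Ix m → ℤ,
      ∀ e : Γ.Ix m → ℤ, (∀ i, e i ≡ e₀ i [ZMOD (q : ℤ) ^ 2]) →
      (Γ.nrm (Γ.el e)).map (Int.castRingHom (ZMod q)) ≠ 0 ∧
      (((Γ.nrm (Γ.el e)).map (Int.castRingHom ℚ)).Separable →
        ∀ P₁ P₂ : ℤ[X], Γ.nrm (Γ.el e) = P₁ * P₂ →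
          m * d ≤ P₁.natDegree + c₀ ∨ m * d ≤ P₂.natDegree + c₀)

def St_IRRK : Prop :=
  ∀ (B : Type) [CommRing B] [IsDomain B] [Algebra ℤ[X] B] (d : ℕ) [NeZero d] (Γ : Geo B d)
    (π : Γ.Plane) (K : Type) [Field K] [NumberField K] (_ : π.Con K), Γ.Irr0

end Pool.Agent.Lib.BK2
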