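import Pool.Agent.Lib.BK2.Noether
import Pool.Agent.Lib.BK2.NFG

/-! Noether reduction over the ring of integers of a number field. -/

open Polynomial NumberField

namespace Pool.Agent.Lib.BK2

namespace NFNOEK

open Noe

variable {O : Type} [CommRing O] [Algebra ℤ O] [Algebra.FiniteType ℤ O]

/-- an ideal of a finitely generated ring without complex zero contains a nonzero integer -/
theorem int_mem (I : Ideal O) (h : ∀ φ : O →+* ℂ, ¬ I ≤ RingHom.ker φ) :
    ∃ N : ℤ, N ≠ 0 ∧ (N : O) ∈ I := by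
  obtain ⟨n, f, hf⟩ := Algebra.FiniteType.iff_quotient_mvPolynomial''.1
    (inferInstance : Algebra.FiniteType ℤ O)
  obtain ⟨N, hN, hm⟩ := Noe.int_mem (I.comap f.toRingHom) fun φ hφ => by
    have hk : RingHom.ker f.toRingHom ≤ RingHom.ker φ := fun x hx =>
      hφ (by rw [Ideal.mem_comap, RingHom.mem_ker.1 hx]; exact I.zero_mem)
    refine h (f.toRingHom.liftOfSurjective hf ⟨φ, hk⟩) fun x hx => ?_
    obtain ⟨y, rfl⟩ := hf x
    exact (f.toRingHom.liftOfRightInverse_comp_apply _ _ ⟨φ, hk⟩ y).trans (hφ hx)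
  exact ⟨N, hN, by simpa using hm⟩

theorem split (f : O[X][X]) (hi : ∀ φ : O →+* ℂ, Irreducible (f.map (mapRingHom φ)))
    (a b D : ℕ) (ha : a ≠ 0) (hb : b ≠ 0) :
    ∃ N : ℤ, N ≠ 0 ∧ ∀ (k : Type) [Field k] (ψ : O →+* k) (c : Fin a → Fin (D + 1) → k)
      (e : Fin b → Fin (D + 1) → k), mk a D c * mk b D e = f.map (mapRingHom ψ) → (N : k) = 0 := by
  let R := MvPolynomial ((Fin a ⊕ Fin b) × Fin (D + 1)) O
  have : Algebra.FiniteType ℤ R := Algebra.FiniteType.trans (S := O) inferInstance inferInstance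
  let U : R[X][X] := mk a D (fun i j => MvPolynomial.X (Sum.inl i, j)) *
    mk b D (fun i j => MvPolynomial.X (Sum.inr i, j)) - f.map (mapRingHom MvPolynomial.C)
  have hU : ∀ (S : Type) [CommRing S] (φ : R →+* S), U.map (mapRingHom φ) =
      mk a D (fun i j => φ (MvPolynomial.X (Sum.inl i, j))) *
        mk b D (fun i j => φ (MvPolynomial.X (Sum.inr i, j))) -
        f.map (mapRingHom (φ.comp MvPolynomial.C)) := by
    intro S _ φ
    simp only [U, Polynomial.map_sub, Polynomial.map_mul, mk_map, Polynomial.map_map,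
      mapRingHom_comp]
  let I : Ideal R := Ideal.span (Set.range fun x : ℕ × ℕ => (U.coeff x.1).coeff x.2)
  have hI : ∀ (S : Type) [CommRing S] (φ : R →+* S),
      I ≤ RingHom.ker φ ↔ U.map (mapRingHom φ) = 0 := by
    intro S _ φ
    rw [Ideal.span_le, Set.range_subset_iff]
    constructor
    · intro h
      ext i j
      simpa using h (i, j)
    · intro h x
      have := congrArg (fun p : S[X][X] => (p.coeff x.1).coeff x.2) h
      simpa using this
  obtain ⟨N, hN, hm⟩ := int_mem I fun φ hφ => by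
    rw [hI, hU, sub_eq_zero] at hφ
    have h1 := mk_monic a D fun i j => φ (MvPolynomial.X (Sum.inl i, j))
    have h2 := mk_monic b D fun i j => φ (MvPolynomial.X (Sum.inr i, j))
    rcases (hi _).isUnit_or_isUnit hφ.symm with h | h
    · exact ha (h1.2.symm.trans (natDegree_eq_zero_of_isUnit h))
    · exact hb (h2.2.symm.trans (natDegree_eq_zero_of_isUnit h))
  refine ⟨N, hN, fun k _ ψ c e h => ?_⟩
  let φ : R →+* k := MvPolynomial.eval₂Hom ψ
    fun x => Sum.elim (fun i => c i x.2) (fun i => e i x.2) x.1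
  have : I ≤ RingHom.ker φ := by
    rw [hI, hU, sub_eq_zero, show φ.comp MvPolynomial.C = ψ from
      MvPolynomial.eval₂Hom_comp_C _ _, ← h]
    simp [φ, R]
  simpa using this hm

theorem noether (f : O[X][X]) (hm : f.Monic) (hd : f.natDegree ≠ 0)
    (hi : ∀ φ : O →+* ℂ, Irreducible (f.map (mapRingHom φ))) :
    ∃ p₀ : ℕ, ∀ (k : Type) [Field k] (p : ℕ) [CharP k p], p₀ ≤ p →
      ∀ ψ : O →+* k, Irreducible (f.map (mapRingHom ψ)) := by
  obtain ⟨D, hD⟩ : ∃ D, ∀ i, (f.coeff i).natDegree ≤ D := by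
    refine ⟨f.support.sup fun i => (f.coeff i).natDegree, fun i => ?_⟩
    by_cases h : i ∈ f.support
    · exact Finset.le_sup (f := fun i => (f.coeff i).natDegree) h
    · rw [notMem_support_iff.1 h]; simp
  choose! N hN0 hN using fun a b => split f hi a b D
  refine ⟨((Finset.range (f.natDegree + 1)).sup fun a => (N a (f.natDegree - a)).natAbs) + 1,
    fun k _ p _ hp ψ => ?_⟩
  have hmk := hm.map (mapRingHom ψ)
  have hdk : (f.map (mapRingHom ψ)).natDegree = f.natDegree := hm.natDegree_map _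
  rw [hmk.irreducible_iff_natDegree]
  refine ⟨fun h => hd (by rw [← hdk, h, natDegree_one]), fun g h hg hh e => ?_⟩
  by_contra hc
  rw [not_or] at hc
  have hDk : ∀ i, ((g * h).coeff i).natDegree ≤ D := fun i => by
    rw [e, coeff_map]
    exact natDegree_map_le.trans (hD i)
  have h0 : g * h ≠ 0 := (hg.mul hh).ne_zero
  have e1 := eq_mk g hg D (deg_factor g h D h0 hDk)
  have e2 := eq_mk h hh D (deg_factor h g D (by rwa [mul_comm]) (by rwa [mul_comm]))
  have hs : g.natDegree + h.natDegree = f.natDegree := by rw [← hg.natDegree_mul hh, e, hdk]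
  have h1 := hN _ _ hc.1 hc.2 k ψ _ _ (by rw [← e1, ← e2, e])
  have h2 := hN0 _ _ hc.1 hc.2
  rw [CharP.intCast_eq_zero_iff k p, Int.natCast_dvd] at h1
  have h3 := Nat.le_of_dvd (Int.natAbs_pos.2 h2) h1
  have h4 := Finset.le_sup (f := fun a => (N a (f.natDegree - a)).natAbs)
    (Finset.mem_range.2 (show g.natDegree < f.natDegree + 1 by omega))
  simp only [show f.natDegree - g.natDegree = h.natDegree by omega] at h4
  omega

end NFNOEK

theorem stNOEK : St_NOEK := by
  intro K _ _ G hG hi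
  refine NFNOEK.noether G hG (fun h => ?_) hi
  have h1 := hi ((IsAlgClosed.lift : K →ₐ[ℚ] ℂ).toRingHom.comp (algebraMap (𝓞 K) K))
  rw [hG.natDegree_eq_zero.1 h, Polynomial.map_one] at h1
  exact not_irreducible_one h1

end Pool.Agent.Lib.BK2
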