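import Pool.Agent.Lib.BK2.NFG
import Pool.Agent.Lib.BK2.PT
import Pool.Agent.Lib.BK2.HOM

/-! Unramified points away from a given divisor. -/

open Polynomial

noncomputable section

namespace Pool.Agent.Lib.BK2

open PT in
theorem stPTK : St_PTK := by
  intro B _ _ _ d _ Γ π D hD N
  have hd : π.F.natDegree ≠ 0 := by
    intro h0
    have h1 : π.F = 1 := π.monic.natDegree_eq_zero.mp h0
    have h2 := (π.dvd 1).mpr (by rw [h1])
    simp at h2
  have hF1 : aeval π.u (derivative π.F) ≠ 0 := fun h0 =>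
    π.monic.not_dvd_of_natDegree_lt (derivative_ne_zero.mpr hd) (natDegree_derivative_lt hd)
      ((π.dvd _).mp h0)
  have : Module.Finite ℤ[X] B := Module.Finite.of_basis Γ.b
  obtain ⟨R, hR, b', hb'⟩ := (IsIntegral.of_finite ℤ[X]
    (aeval π.u (derivative π.F))).isAlgebraic.exists_nonzero_dvd
    (mem_nonZeroDivisors_of_ne_zero hF1)
  obtain ⟨a, ha⟩ : ∃ a : ℤ, (R * π.Δ * D).eval a ≠ 0 := by
    by_contra h0
    push Not at h0
    exact mul_ne_zero (mul_ne_zero hR π.ne) hD (eq_zero_of_infinite_isRoot _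
      (Set.infinite_of_injective_forall_mem (f := fun y : ℤ => y) (fun _ _ e => e) h0))
  set G : ℤ[X] := π.F.map (evalRingHom a) with hG
  have hGd : G.natDegree ≠ 0 := by rw [hG, π.monic.natDegree_map]; exact hd
  obtain ⟨q, b, hq, hqM, hqb⟩ := schur G hGd (N + ((R * π.Δ * D).eval a).natAbs)
  have : Fact q.Prime := ⟨hq⟩
  have hnz : (((R * π.Δ * D).eval a : ℤ) : ZMod q) ≠ 0 := by
    intro h0
    have h1 := Int.natCast_dvd.mp ((ZMod.intCast_zmod_eq_zero_iff_dvd _ _).mp h0)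
    have h2 := Nat.le_of_dvd (Int.natAbs_pos.mpr ha) h1
    omega
  rw [eval_mul, eval_mul, Int.cast_mul, Int.cast_mul] at hnz
  have hRa := left_ne_zero_of_mul (left_ne_zero_of_mul hnz)
  have hΔa := right_ne_zero_of_mul (left_ne_zero_of_mul hnz)
  have hDa := right_ne_zero_of_mul hnz
  have hGb : ((G.eval b : ℤ) : ZMod q) = 0 := (ZMod.intCast_zmod_eq_zero_iff_dvd _ _).mpr hqb
  obtain ⟨x, hxt, hxu⟩ := stHOM B d Γ π (ZMod q) (a : ZMod q) (b : ZMod q) (by
    have := map_mapRingHom_evalEval (Int.castRingHom (ZMod q)) π.F a b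
    simp only [eq_intCast] at this
    rw [this, ← map_evalRingHom_eval]
    exact hGb) (by rw [aeval_cast]; exact hΔa)
  have hxa : ∀ g : ℤ[X][X], x (aeval π.u g) = ((g.map (evalRingHom a)).eval b : ℤ) := by
    intro g
    rw [hom_aeval x a hxt, hxu, aeval_cast]
  obtain ⟨H, hH⟩ := split G b
  have hHb : ((H.eval b : ℤ) : ZMod q) ≠ 0 := by
    have h1 : (derivative G).eval b = H.eval b := by
      rw [hH]
      simp
    rw [← h1, hG, derivative_map, ← hxa]
    intro h0
    apply hRa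
    rw [← hom_alg x a hxt, hb', map_mul, h0, zero_mul]
  refine ⟨q, x, a, hq, by omega,
    ⟨hxt, algebraMap ℤ[X] B π.Δ * aeval π.u H, ?_, fun f hf => ?_⟩,
    by rw [hom_alg x a hxt]; exact hDa⟩
  · rw [map_mul, hom_alg x a hxt, hom_aevalZ, hxu, aeval_cast]
    exact mul_ne_zero hΔa hHb
  · obtain ⟨g, hg⟩ := π.gen f
    have hg0 : (((g.map (evalRingHom a)).eval b : ℤ) : ZMod q) = 0 := by
      rw [← hxa, ← hg, map_mul, hf, mul_zero]
    set I : Ideal B := Ideal.span {(q : B), Γ.t - (a : B)} with hI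
    have hq0 : ∀ n : ℤ, (n : ZMod q) = 0 → (n : B ⧸ I) = 0 := by
      intro n hn
      obtain ⟨k, rfl⟩ := (ZMod.intCast_zmod_eq_zero_iff_dvd _ _).mp hn
      have : ((q : ℕ) : B ⧸ I) = 0 := by
        rw [← map_natCast (Ideal.Quotient.mk I), Ideal.Quotient.eq_zero_iff_mem]
        exact Ideal.subset_span (Or.inl rfl)
      rw [Int.cast_mul, Int.cast_natCast, this, zero_mul]
    have ht : Ideal.Quotient.mk I (algebraMap ℤ[X] B X) = a := by
      rw [← map_intCast (Ideal.Quotient.mk I), Ideal.Quotient.eq]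
      exact Ideal.subset_span (Or.inr rfl)
    rw [← Ideal.Quotient.eq_zero_iff_mem, mul_right_comm, hg]
    exact kill _ a b ht π.u π.F g H ((π.dvd _).mpr dvd_rfl) hH (hq0 _ hGb) (hq0 _ hg0)

end Pool.Agent.Lib.BK2
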