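import Pool.Agent.Lib.BK2.NFG
import Pool.Agent.Lib.BK2.Bas2

/-! Row NF.SEP: sections with separable norm. -/

open Polynomial

noncomputable section

namespace Pool.Agent.Lib.BK2

namespace NFSEP

variable {B : Type} [CommRing B] [IsDomain B] [Algebra ℤ[X] B] {d : ℕ} [NeZero d] {Γ : Geo B d}
  (π : Γ.Plane)

theorem prime_F : Prime π.F := by
  have h : RingHom.ker (aeval π.u : ℤ[X][X] →ₐ[ℤ[X]] B) = Ideal.span {π.F} := by
    ext g
    rw [RingHom.mem_ker, Ideal.mem_span_singleton]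
    exact π.dvd g
  exact (Ideal.span_singleton_prime π.monic.ne_zero).1 (h ▸ RingHom.ker_isPrime _)

theorem le_deg : d ≤ π.F.natDegree := by
  classical
  have hΔ : algebraMap ℤ[X] B π.Δ ≠ 0 := fun h =>
    π.ne (Γ.algebraMap_injective (h.trans (map_zero _).symm))
  have hl : LinearIndependent ℤ[X] fun l => algebraMap ℤ[X] B π.Δ * Γ.b l :=
    Γ.b.linearIndependent.map' (LinearMap.mulLeft ℤ[X] (algebraMap ℤ[X] B π.Δ))
      (LinearMap.ker_eq_bot.2 (mul_right_injective₀ hΔ))
  have h1 : π.F ≠ 1 := (prime_F π).ne_one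
  have h2 := linearIndependent_le_span_aux' _ hl
    (Set.range fun i : Fin π.F.natDegree => π.u ^ (i : ℕ)) (by
      rintro _ ⟨l, rfl⟩
      obtain ⟨g, hg⟩ := π.gen (Γ.b l)
      change algebraMap ℤ[X] B π.Δ * Γ.b l ∈ _
      rw [hg, ← aeval_modByMonic_eq_self_of_root ((π.dvd _).2 dvd_rfl),
        aeval_eq_sum_range' (natDegree_modByMonic_lt g π.monic h1)]
      exact Submodule.sum_mem _ fun i hi => Submodule.smul_mem _ _
        (Submodule.subset_span ⟨⟨i, Finset.mem_range.1 hi⟩, rfl⟩))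
  rw [Fintype.card_fin] at h2
  exact h2.trans ((Fintype.card_range_le _).trans (Fintype.card_fin _).le)

theorem charpoly_eq : (Algebra.leftMulMatrix Γ.b π.u).charpoly = π.F := by
  have h1 : aeval π.u (Algebra.leftMulMatrix Γ.b π.u).charpoly = 0 :=
    Algebra.leftMulMatrix_injective Γ.b (by
      rw [← aeval_algHom_apply, Matrix.aeval_self_charpoly, map_zero])
  refine eq_of_monic_of_dvd_of_natDegree_le π.monic (Matrix.charpoly_monic _) ((π.dvd _).1 h1) ?_
  rw [Matrix.charpoly_natDegree_eq_dim, Fintype.card_fin]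
  exact le_deg π

theorem deg_F : π.F.natDegree = d := by
  rw [← charpoly_eq π, Matrix.charpoly_natDegree_eq_dim, Fintype.card_fin]

theorem nrm_sub (g : ℤ[X]) : Γ.nrm (algebraMap ℤ[X] B g - π.u) = π.F.eval g := by
  rw [← charpoly_eq π, Matrix.eval_charpoly, Geo.nrm_eq, map_sub, AlgHom.commutes]
  rfl

/-- substitution of `X ^ m + N` for the outer variable -/
def sb (m : ℕ) : ℤ[X][X] →+* ℤ[X][X] := eval₂RingHom (mapRingHom C) (X ^ m + C X)

theorem sb_prime (m : ℕ) {F : ℤ[X][X]} (h : Prime F) : Prime (sb m F) := by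
  let E : ℤ[X][X] ≃+* ℤ[X][X] :=
    (algEquivAevalXAddC (X ^ m : ℤ[X])).toRingEquiv.trans Bivariate.swap.toRingEquiv
  have hE : sb m = (E : ℤ[X][X] →+* ℤ[X][X]) := by
    refine Polynomial.ringHom_ext (fun a => ?_) ?_
    · simp [sb, E, Bivariate.swap_C]
    · simp [sb, E, Bivariate.swap_C, Bivariate.swap_Y, add_comm]
  rw [hE]
  exact (MulEquiv.prime_iff E).2 h

theorem sb_eval (m : ℕ) (n : ℤ) (F : ℤ[X][X]) :
    (sb m F).map (evalRingHom n) = F.eval (X ^ m + C n) := by
  have h : (mapRingHom (evalRingHom n)).comp (sb m) = evalRingHom (X ^ m + C n) := by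
    refine Polynomial.ringHom_ext (fun a => ?_) ?_
    · have : (evalRingHom n).comp (C : ℤ →+* ℤ[X]) = RingHom.id ℤ := Subsingleton.elim _ _
      simp [sb, Polynomial.map_map, this]
    · simp [sb]
  exact congrArg (fun f => f F) h

theorem sb_monic (m : ℕ) {F : ℤ[X][X]} (hF : F.Monic) (h : ∀ i, (F.coeff i).natDegree < m) :
    (sb m F).Monic ∧ (sb m F).natDegree = m * F.natDegree := by
  have hm : m ≠ 0 := by have := h 0; omega
  have hg : (X ^ m + C X : ℤ[X][X]).Monic := monic_X_pow_add_C _ hm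
  have hd : (X ^ m + C X : ℤ[X][X]).natDegree = m := natDegree_X_pow_add_C
  have h1 : sb m F = (X ^ m + C X) ^ F.natDegree +
      ∑ i ∈ Finset.range F.natDegree, (F.coeff i).map C * (X ^ m + C X) ^ i := by
    conv_lhs => rw [hF.as_sum]
    simp [sb, eval₂_finsetSum]
  have h2 : ((X ^ m + C X : ℤ[X][X]) ^ F.natDegree).natDegree = m * F.natDegree := by
    rw [hg.natDegree_pow, hd, mul_comm]
  have h3 : (∑ i ∈ Finset.range F.natDegree, (F.coeff i).map C * (X ^ m + C X : ℤ[X][X]) ^ i).degree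
      < ((X ^ m + C X : ℤ[X][X]) ^ F.natDegree).degree := by
    rw [degree_eq_natDegree (hg.pow _).ne_zero, h2]
    refine (degree_sum_le _ _).trans_lt ((Finset.sup_lt_iff (WithBot.bot_lt_coe _)).2 fun i hi => ?_)
    refine degree_le_natDegree.trans_lt (Nat.cast_lt.2 (natDegree_mul_le.trans_lt ?_))
    rw [hg.natDegree_pow, hd]
    have h4 := (natDegree_map_le (f := (C : ℤ →+* ℤ[X]))).trans_lt (h i)
    have h5 : m * (i + 1) ≤ m * F.natDegree := Nat.mul_le_mul_left m (Finset.mem_range.1 hi)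
    nlinarith
  rw [h1]
  exact ⟨(hg.pow _).add_of_left h3, (natDegree_add_eq_left_of_degree_lt h3).trans h2⟩

theorem exists_sep {H : ℤ[X][X]} (hm : H.Monic) (hp : Irreducible H) :
    ∃ n : ℤ, ((H.map (evalRingHom n)).map (Int.castRingHom ℚ)).Separable := by
  have h0 : H.natDegree ≠ 0 := fun h =>
    not_irreducible_one (eq_one_of_monic_natDegree_zero hm h ▸ hp)
  obtain ⟨a, b, -, -, e⟩ := exists_mul_add_mul_eq_C_resultant H (derivative H) le_rfl le_rfl
    (.inl h0)
  have hR : resultant H (derivative H) H.natDegree (derivative H).natDegree ≠ 0 := fun e => by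
    have hφ := IsFractionRing.injective ℤ[X] (FractionRing ℤ[X])
    have hs := (hm.irreducible_iff_irreducible_map_fraction_map (K := FractionRing ℤ[X])).1 hp
    have := resultant_ne_zero _ _ hs.separable
    rw [derivative_map, natDegree_map_eq_of_injective hφ, natDegree_map_eq_of_injective hφ,
      resultant_map_map, e, map_zero] at this
    exact this rfl
  set R := resultant H (derivative H) H.natDegree (derivative H).natDegree
  obtain ⟨n, hn⟩ : ∃ n : ℤ, R.eval n ≠ 0 := by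
    by_contra h
    exact hR (Polynomial.funext fun n => by simpa using not_exists.1 h n)
  refine ⟨n, ?_⟩
  rw [Polynomial.map_map]
  set ψ := (Int.castRingHom ℚ).comp (evalRingHom n)
  have h1 : ψ R ≠ 0 := by simpa [ψ] using hn
  have h2 := congrArg (Polynomial.map ψ) e
  rw [Polynomial.map_add, Polynomial.map_mul, Polynomial.map_mul, map_C, ← derivative_map] at h2
  refine ⟨C (ψ R)⁻¹ * a.map ψ, C (ψ R)⁻¹ * b.map ψ, ?_⟩
  have h3 : C (ψ R)⁻¹ * C (ψ R) = 1 := by rw [← C_mul, inv_mul_cancel₀ h1, C_1]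
  rw [← h3, ← h2]
  ring

end NFSEP

open NFSEP in
theorem stSEP : St_SEP := by
  intro B _ _ _ d _ Γ π
  obtain ⟨m0, hu⟩ := Γ.exists_mem_V π.u
  refine ⟨m0 + (π.F.support.sup fun i => (π.F.coeff i).natDegree) + 1, fun m hm => ?_⟩
  have hc : ∀ i, (π.F.coeff i).natDegree < m := fun i => by
    by_cases hi : i ∈ π.F.support
    · have := Finset.le_sup (f := fun i => (π.F.coeff i).natDegree) hi
      omega
    · rw [notMem_support_iff.1 hi, natDegree_zero]
      omega
  obtain ⟨h1, h2⟩ := sb_monic m π.monic hc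
  obtain ⟨n, hn⟩ := exists_sep h1 (sb_prime m (prime_F π)).irreducible
  have hv : algebraMap ℤ[X] B (X ^ m + C n) - π.u ∈ Γ.V m :=
    Geo.V_sub (Γ.algebraMap_mem natDegree_X_pow_add_C.le) (Geo.V_mono (by omega) hu)
  refine ⟨Γ.co m (algebraMap ℤ[X] B (X ^ m + C n) - π.u), ?_⟩
  rw [Γ.el_co hv, nrm_sub, ← sb_eval]
  exact ⟨by rw [h1.natDegree_map, h2, deg_F], hn⟩

end Pool.Agent.Lib.BK2
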