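import Pool.Agent.Lib.BK2.STEP
import Pool.Agent.Lib.BK2.NFG

/-!
The point count over prime fields for a plane curve over the integers of a number field.
-/

namespace Pool.Agent.Lib.BK2.NFSTEPK

open Finset Polynomial Filter NumberField Step

variable {R : Type} [CommRing R] [IsDomain R]

/-- The points of the reduction along `ψ`. -/
def pts (f : R[X][X]) {p : ℕ} (ψ : R →+* ZMod p) : Set (ZMod p × ZMod p) :=
  {z | (f.map (mapRingHom ψ)).evalEval z.1 z.2 = 0}

theorem exists_res (Ω : Type) [Field Ω] [CharZero Ω] (ι : R →+* Ω) (hι : Function.Injective ι)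
    (f : R[X][X]) (hm : f.Monic) (hirr : Irreducible (f.map (mapRingHom ι))) :
    ∃ (Δ : R[X]) (aa bb : R[X][X]), Δ ≠ 0 ∧ aa * f + bb * derivative f = C Δ ∧
      bb.natDegree ≤ f.natDegree := by
  have h0 : f.natDegree ≠ 0 := fun h => by
    rw [eq_one_of_monic_natDegree_zero hm h, Polynomial.map_one] at hirr
    exact not_irreducible_one hirr
  obtain ⟨a, b, -, hb, e⟩ := exists_mul_add_mul_eq_C_resultant f (derivative f) le_rfl le_rfl
    (.inl h0)
  refine ⟨_, a, b, fun e => ?_, by rw [← e]; ring, natDegree_le_of_degree_le hb.le⟩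
  let φ : R[X] →+* RatFunc Ω := (algebraMap (Polynomial Ω) (RatFunc Ω)).comp (mapRingHom ι)
  have hφ : Function.Injective φ := (IsFractionRing.injective _ _).comp (map_injective _ hι)
  have hs : (f.map φ).Separable := by
    rw [← Polynomial.map_map]
    exact (((hm.map _).irreducible_iff_irreducible_map_fraction_map).1 hirr).separable
  have := resultant_ne_zero _ _ hs
  rw [derivative_map, natDegree_map_eq_of_injective hφ, natDegree_map_eq_of_injective hφ,
    resultant_map_map, e, map_zero] at this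
  exact this rfl

theorem step_large [Algebra.IsAlgebraic ℤ R] (Ω : Type) [Field Ω] [CharZero Ω] (ι : R →+* Ω)
    (hι : Function.Injective ι) (f : R[X][X]) (hm : f.Monic)
    (hirr : Irreducible (f.map (mapRingHom ι))) (p₀ : ℕ)
    (hN : ∀ (k : Type) [Field k] (p : ℕ) [CharP k p], p₀ ≤ p →
      ∀ ψ : R →+* k, Irreducible (f.map (mapRingHom ψ))) :
    ∃ K : ℕ, ∀ᶠ p : ℕ in atTop, p.Prime → ∀ ψ : R →+* ZMod p,
      |((pts f ψ).ncard : ℝ) - p| ≤ K * √p := by
  obtain ⟨Δ, aa, bb, hΔ0, hΔ, hbd⟩ := exists_res Ω ι hι f hm hirr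
  obtain ⟨n, hn0, hn⟩ := (Algebra.IsAlgebraic.isAlgebraic (R := ℤ) Δ.leadingCoeff).exists_nonzero_dvd
    (mem_nonZeroDivisors_of_ne_zero (leadingCoeff_ne_zero.2 hΔ0))
  obtain ⟨c₁, hc₁⟩ := exists_deg f
  obtain ⟨c₂, hc₂⟩ := exists_deg bb
  obtain ⟨c, h1, h2, h3⟩ : ∃ c, c₁ ≤ c ∧ c₂ ≤ c ∧ Δ.natDegree ≤ c :=
    ⟨c₁ + c₂ + Δ.natDegree, by omega, by omega, by omega⟩
  obtain ⟨B, hB⟩ := count' f.natDegree c
  refine ⟨B + c * f.natDegree, ?_⟩
  filter_upwards [eventually_ge_atTop p₀, eventually_ge_atTop B,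
    eventually_gt_atTop n.natAbs] with p hp hpB hpΔ hpr ψ
  have : Fact p.Prime := ⟨hpr⟩
  classical
  let k := AlgebraicClosure (ZMod p)
  let θ : ZMod p →+* k := ZMod.castHom dvd_rfl k
  have hθ : ∀ z : k, z ^ p = z ↔ ∃ t, θ t = z := fun z => by
    rw [← Subfield.mem_bot_iff_pow_eq_self k p, ← ZMod.fieldRange_castHom_eq_bot p,
      RingHom.mem_fieldRange]
  obtain ⟨χ, hc⟩ : ∃ χ, θ.comp ψ = χ := ⟨_, rfl⟩
  have hχ : (frobenius k p).comp χ = χ := by
    rw [← hc, ← RingHom.comp_assoc, Subsingleton.elim ((frobenius k p).comp θ) θ]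
  set f₀ := f.map (mapRingHom ψ) with hf₀
  set Δ₀ := Δ.map ψ with hΔ₀
  have hf₁ : f.map (mapRingHom χ) = f₀.map (mapRingHom θ) := by
    rw [hf₀, Polynomial.map_map, mapRingHom_comp, hc]
  have hΔ₁ : Δ.map χ = Δ₀.map θ := by rw [hΔ₀, Polynomial.map_map, hc]
  have hΔ₂ : Δ₀ ≠ 0 := fun e => by
    have := congrArg (coeff · Δ.natDegree) e
    simp only [hΔ₀, coeff_map, coeff_natDegree, coeff_zero] at this
    have h := map_dvd ψ hn
    rw [this, zero_dvd_iff, eq_intCast, map_intCast, ZMod.intCast_zmod_eq_zero_iff_dvd] at h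
    exact absurd (Nat.le_of_dvd (Int.natAbs_pos.2 hn0) (Int.natCast_dvd.1 h)) (not_le.2 hpΔ)
  let S₀ : Finset (ZMod p) := univ.filter fun t => Δ₀.eval t ≠ 0
  have hS₀ : #(univ.filter fun t => ¬ Δ₀.eval t ≠ 0) ≤ c := by
    refine (card_le_card (t := Δ₀.roots.toFinset) fun t ht => ?_).trans
      ((Multiset.toFinset_card_le _).trans ((card_roots' _).trans (natDegree_map_le.trans h3)))
    rw [Multiset.mem_toFinset, mem_roots hΔ₂]
    exact not_not.1 (mem_filter.1 ht).2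
  let r₀ : ZMod p → ℕ := fun t => #{z | f₀.evalEval t z = 0}
  let r : k → ℕ := fun t => {z | z ^ p = z ∧
    ((f.map (mapRingHom χ)).map (evalRingHom t)).IsRoot z}.ncard
  have hr : ∀ t, r (θ t) = r₀ t := fun t => by
    simp only [r, r₀]
    rw [← card_image_of_injective _ θ.injective, ← Set.ncard_coe_finset]
    congr 1
    ext z
    simp only [Set.mem_ofPred_eq, hθ, IsRoot, map_evalRingHom_eval, hf₁, coe_image, coe_filter,
      mem_univ, true_and, Set.mem_image]
    constructor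
    · rintro ⟨⟨z, rfl⟩, h⟩
      rw [map_mapRingHom_evalEval, map_eq_zero] at h
      exact ⟨z, h, rfl⟩
    · rintro ⟨z, h, rfl⟩
      exact ⟨⟨z, rfl⟩, by rw [map_mapRingHom_evalEval, h, map_zero]⟩
  have hmain := hB p k (f.map (mapRingHom χ)) (Δ.map χ)
    (aa.map (mapRingHom χ)) (bb.map (mapRingHom χ))
    (S₀.image θ) r (hm.map _) (hm.natDegree_map _) (deg_map _ fun i => (hc₁ i).trans h1)
    (by rw [Polynomial.map_map, mapRingHom_comp, hχ])
    (hN k p hp χ) (by
      rw [derivative_map, ← Polynomial.map_mul, ← Polynomial.map_mul, ← Polynomial.map_add, hΔ,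
        map_C, coe_mapRingHom])
    (by rw [hΔ₁]; exact Polynomial.map_ne_zero hΔ₂) (natDegree_map_le.trans h3)
    (deg_map _ fun i => (hc₂ i).trans h2) (natDegree_map_le.trans hbd) hpB
    (fun t ht => by
      obtain ⟨s, hs, rfl⟩ := mem_image.1 ht
      refine ⟨(hθ _).2 ⟨s, rfl⟩, ?_⟩
      rw [hΔ₁, eval_map_apply, _root_.map_ne_zero]
      exact (mem_filter (p := fun t => Δ₀.eval t ≠ 0).1 hs).2)
    (by
      have := card_filter_add_card_filter_not (s := univ) fun t => Δ₀.eval t ≠ 0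
      rw [card_univ, ZMod.card] at this
      rw [card_image_of_injective _ θ.injective]
      change p ≤ #(univ.filter fun t => Δ₀.eval t ≠ 0) + c
      omega)
    fun _ _ => rfl
  rw [sum_image θ.injective.injOn, sum_congr rfl fun t _ => hr t] at hmain
  have h4 : (pts f ψ).ncard = ∑ t, r₀ t := by
    have : pts f ψ = (univ.filter fun z : ZMod p × ZMod p => f₀.evalEval z.1 z.2 = 0 :
        Finset _) := by
      ext z; simp [pts, hf₀]
    rw [this, Set.ncard_coe_finset, card_filter, Fintype.sum_prod_type]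
    simp only [r₀, card_filter]
  have h5 : ∑ t ∈ univ.filter fun t => ¬ Δ₀.eval t ≠ 0, r₀ t ≤ c * f.natDegree := by
    refine (sum_le_card_nsmul _ _ f.natDegree fun t _ => ?_).trans (Nat.mul_le_mul_right _ hS₀)
    have hm' := (hm.map (mapRingHom ψ)).map (evalRingHom t)
    refine (card_le_card (t := (f₀.map (evalRingHom t)).roots.toFinset) fun z hz => ?_).trans
      ((Multiset.toFinset_card_le _).trans ((card_roots' _).trans
        (natDegree_map_le.trans natDegree_map_le)))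
    rw [Multiset.mem_toFinset, mem_roots hm'.ne_zero, IsRoot, map_evalRingHom_eval]
    exact (mem_filter.1 hz).2
  rw [h4, ← sum_filter_add_sum_filter_not univ fun t => Δ₀.eval t ≠ 0]
  have h6 : (1 : ℝ) ≤ √p := Real.one_le_sqrt.2 (by exact_mod_cast hpr.pos)
  change |((∑ t ∈ S₀, r₀ t + _ : ℕ) : ℝ) - p| ≤ _
  generalize ∑ t ∈ S₀, r₀ t = u at hmain ⊢
  generalize ∑ t ∈ univ.filter fun t => ¬ Δ₀.eval t ≠ 0, r₀ t = v at h5 ⊢
  generalize c * f.natDegree = w at h5 ⊢
  have h7 : (v : ℝ) ≤ w := by exact_mod_cast h5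
  have h8 : (w : ℝ) ≤ w * √p := le_mul_of_one_le_right (Nat.cast_nonneg _) h6
  have h9 : (0 : ℝ) ≤ v := Nat.cast_nonneg _
  rw [abs_le] at hmain ⊢
  push_cast
  constructor <;> nlinarith [hmain.1, hmain.2]

/-- The number of points modulo `p` of an absolutely irreducible curve is `p + O(√p)`. -/
theorem step (f : R[X][X]) (K : ℕ) (hK : ∀ᶠ p : ℕ in atTop, p.Prime → ∀ ψ : R →+* ZMod p,
      |((pts f ψ).ncard : ℝ) - p| ≤ K * √p) :
    ∃ K : ℝ, ∀ p : ℕ, p.Prime → ∀ ψ : R →+* ZMod p, |((pts f ψ).ncard : ℝ) - p| ≤ K * √p := by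
  obtain ⟨N, hN⟩ := eventually_atTop.1 hK
  refine ⟨K + (N ^ 2 + N), fun p hp ψ => ?_⟩
  have h6 : (1 : ℝ) ≤ √p := Real.one_le_sqrt.2 (by exact_mod_cast hp.pos)
  rcases le_or_gt N p with h | h
  · refine (hN p h hp ψ).trans (mul_le_mul_of_nonneg_right (le_add_of_nonneg_right ?_) ?_) <;>
      positivity
  have : Fact p.Prime := ⟨hp⟩
  have h1 : (pts f ψ).ncard ≤ N ^ 2 := by
    refine (Set.ncard_le_card _).trans ?_
    rw [Nat.card_prod, Nat.card_zmod, sq]
    exact Nat.mul_le_mul h.le h.le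
  have h2 : ((pts f ψ).ncard : ℝ) ≤ N ^ 2 := by exact_mod_cast h1
  have h3 : (p : ℝ) ≤ N := by exact_mod_cast h.le
  have h4 : (0 : ℝ) ≤ (pts f ψ).ncard := Nat.cast_nonneg _
  have h5 : (K : ℝ) + (N ^ 2 + N) ≤ (K + (N ^ 2 + N)) * √p :=
    le_mul_of_one_le_right (by positivity) h6
  have h7 : (0 : ℝ) ≤ p := Nat.cast_nonneg _
  have h8 : (0 : ℝ) ≤ K := Nat.cast_nonneg _
  rw [abs_le]
  constructor <;> nlinarith [sq_nonneg (N : ℝ)]

end Pool.Agent.Lib.BK2.NFSTEPK

namespace Pool.Agent.Lib.BK2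

open NumberField

theorem stSTEPK (h : St_NOEK) : St_STEPK := by
  intro K _ _ G hm hirr
  obtain ⟨p₀, hN⟩ := h K G hm hirr
  obtain ⟨σ⟩ : Nonempty (K →+* ℂ) := inferInstance
  obtain ⟨A, hA⟩ := NFSTEPK.step_large ℂ (σ.comp (algebraMap (𝓞 K) K))
    (σ.injective.comp (IsFractionRing.injective (𝓞 K) K)) G hm (hirr _) p₀ hN
  exact NFSTEPK.step G A hA

end Pool.Agent.Lib.BK2
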