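import Pool.Agent.Lib.BK2.NFGlue
import Pool.Agent.Lib.BK2.NFConst
import Pool.Agent.Lib.BK2.NFNoe
import Pool.Agent.Lib.BK2.NFStep
import Pool.Agent.Lib.BK2.NFCnt
import Pool.Agent.Lib.BK2.NFMk1
import Pool.Agent.Lib.BK2.NFMk2
import Pool.Agent.Lib.BK2.NFSep
import Pool.Agent.Lib.BK2.NFGen
import Pool.Agent.Lib.BK2.NFPt
import Pool.Agent.Lib.BK2.NFComp
import Pool.Agent.Lib.BK2.NFInd
import Pool.Agent.Lib.BK2.NFEis
import Pool.Agent.Lib.BK2.NFIrr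

/-! Section G over number fields, without hypotheses. -/

namespace Pool.Agent.Lib.BK2

theorem stG0 : St_G0 :=
  stG0_of stCONST (stCNTK (stSTEPK stNOEK)) (stMK2 stMK1)
    (stIRRK (stEISK stPTK (stCOMP stNOEK) stUNRK stINDK stGEN) stSEP)

end Pool.Agent.Lib.BK2
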