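import Pool.Agent.Lib.BK2.NF0

/-! Primitivity of norms without the hypothesis that the fibres are integral. -/

open Polynomial

noncomputable section

namespace Pool.Agent.Lib.BK2

/-- At most `d` translates of `f` by polynomials in `t` have norm zero modulo `p`. -/
def St_PRIM1 : Prop :=
  ∀ (B : Type) [CommRing B] [Algebra ℤ[X] B] (d : ℕ) [NeZero d] (Γ : Geo B d) (p : ℕ), p.Prime →
    (∀ f : B, ∃ S : Finset (ZMod p)[X], S.card ≤ d ∧ ∀ g : ℤ[X],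
      (Γ.nrm (f + algebraMap ℤ[X] B g)).map (Int.castRingHom (ZMod p)) = 0 →
        g.map (Int.castRingHom (ZMod p)) ∈ S) ∧
    ∀ (m : ℕ) (Ω : Finset (Γ.Ix m → ℤ)) (A : Γ.Ix m → Finset ℤ) (N : ℕ),
      Ω ⊆ Fintype.piFinset A →
      (∀ i (r : ZMod p), ((A i).filter fun z : ℤ => (z : ZMod p) = r).card ≤ N) →
      (∀ e ∈ Ω, (Γ.nrm (Γ.el e)).map (Int.castRingHom (ZMod p)) = 0) →
      Ω.card ≤ d * N ^ (m + 1) * ∏ i ∈ Finset.univ.filter (fun i : Γ.Ix m => i.1 ≠ 0), (A i).card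

/-- If `e` and `w` generate all sections through `Z`, the norm of `w` is primitive. -/
def St_PRIM2 : Prop :=
  ∀ (B : Type) [CommRing B] [Algebra ℤ[X] B] (d : ℕ) [NeZero d] (Γ : Geo B d) (m m' : ℕ)
    (e w : B) (Z : Finset (Pt B)), 2 ≤ m → m ≤ 2 * m' → Set.InjOn Pt.p (Z : Set (Pt B)) →
    (∀ v ∈ Γ.V (2 * m'), (∀ x ∈ Z, x.On v) →
      ∃ s ∈ Γ.V (2 * m' - m), ∃ s' ∈ Γ.V m', v = e * s + w * s') →
    (Γ.nrm w).IsPrimitive

/-- The two sided point count gives the Mertens estimate. -/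
def St_WM : Prop :=
  ∀ (B : Type) [CommRing B] [Algebra ℤ[X] B] (d : ℕ) [NeZero d] (Γ : Geo B d), Γ.Weil → Γ.Mert

end Pool.Agent.Lib.BK2
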