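import Pool.Agent.Lib.BK2.OBS0

open Polynomial

noncomputable section

namespace Pool.Agent.Lib.BK2

namespace OBS

variable {B : Type} [CommRing B] [Algebra ℤ[X] B] {d : ℕ} [NeZero d] {Γ : Geo B d}
variable {L : Type} [Field L] [Algebra ℚ L] {n : ℕ} {y : Fin (n + 1) → L} (μ : Γ.Model y)
variable {ι : Type} [Fintype ι] {γ : ι → Loop y} {a : ι → ℝ}

/-- The functional of the first order equation. -/
def Th {N : ℕ} (c : Fin N → ℝ) (z v : Fin N → Fin (n + 1) → ℂ) (γ : ι → Loop y) (a : ι → ℝ)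
    (W : (Fin (n + 1) → ℂ) → ℂ) (ξ : (Fin (n + 1) → ℂ) → (Fin (n + 1) → ℂ) → ℂ) : ℝ :=
  ∑ t, c t * (ξ (z t) (v t)).re + T2 γ a W ξ

section

variable {N : ℕ} {c : Fin N → ℝ} {z v : Fin N → Fin (n + 1) → ℂ} {W : (Fin (n + 1) → ℂ) → ℂ}

theorem Th_add (hW : ∀ l, Continuous fun u => W ((γ l).pt u)) (h0 : ∀ l u, W ((γ l).pt u) ≠ 0)
    {ξ ξ' : (Fin (n + 1) → ℂ) → (Fin (n + 1) → ℂ) → ℂ} (h : Ct γ ξ) (h' : Ct γ ξ') :
    Th c z v γ a W (ξ + ξ') = Th c z v γ a W ξ + Th c z v γ a W ξ' := by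
  simp only [Th, T2_add hW h0 h h', Pi.add_apply, Complex.add_re, mul_add, Finset.sum_add_distrib]
  ring

theorem Th_smul (r : ℝ) (ξ : (Fin (n + 1) → ℂ) → (Fin (n + 1) → ℂ) → ℂ) :
    Th c z v γ a W (r • ξ) = r * Th c z v γ a W ξ := by
  simp only [Th, T2_smul, Pi.smul_apply, Complex.smul_re, smul_eq_mul, mul_add, Finset.mul_sum]
  congr 1
  exact Finset.sum_congr rfl fun t _ => by ring

theorem Th_congr {ξ ξ' : (Fin (n + 1) → ℂ) → (Fin (n + 1) → ℂ) → ℂ}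
    (h1 : ∀ t, ξ (z t) (v t) = ξ' (z t) (v t))
    (h : ∀ l u, ξ ((γ l).pt u) (deriv (γ l).pt u) = ξ' ((γ l).pt u) (deriv (γ l).pt u)) :
    Th c z v γ a W ξ = Th c z v γ a W ξ' := by
  simp only [Th, h1, T2_congr h]

end

theorem ev_mulv (hK : St_CONE) {p q r : ℕ} (hp : μ.m₀ ≤ p) (hq : μ.m₀ ≤ q) (h : p + q = r)
    (φ : B →+* ℂ) (e : Γ.Ix p → ℝ) (s : Γ.Ix q → ℝ) :
    Γ.ev φ (Γ.mulv r e s) = Γ.ev φ e * Γ.ev φ s := by
  obtain ⟨z, hz, v, -, h1⟩ := (hK L n y B d Γ μ).1 φ 0 (fun f g => by simp)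
  rw [← (h1 r (by omega) _).1, ← (h1 p hp e).1, ← (h1 q hq s).1]
  exact (hK L n y B d Γ μ).2.2 p q r hp hq h e s z hz

/-- The first order equation. -/
theorem first (hD : St_RDER) (hC : St_CHAIN) (hP : St_PHI2) (hK : St_CONE) (hI : St_LIND)
    (hS : St_LSYS) {m m' ν ν' : ℕ} (hm : μ.m₀ ≤ m) (hm1 : 1 ≤ m) (hm' : μ.m₀ ≤ m')
    {U : Set (Γ.Ix m → ℝ)} {U' : Set (Γ.Ix m' → ℝ)} (ρ : Γ.Roots m ν U) (ρ' : Γ.Roots m' ν' U')
    (hU : U.Nonempty) (hO : μ.Off γ U) (hO' : μ.Off γ U')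
    (hne : ∀ e ∈ U, ∀ w ∈ U', (∀ j, Γ.ev (ρ.φ e j) w ≠ 0) ∧ ∀ j, Γ.ev (ρ'.φ w j) e ≠ 0)
    (C : (Γ.Ix m → ℝ) → Option (Fin ν) → ℝ) (C' : (Γ.Ix m' → ℝ) → Option (Fin ν') → ℝ)
    (h : ∀ e ∈ U, ∀ w ∈ U',
      ∑ j, C e j * ρ.lam e w j - ∑ j, C' w j * ρ'.lam w e j = μ.Phi γ a e w)
    {w : Γ.Ix m' → ℝ} (hw : w ∈ U') :
    ∃ (z v : Fin ν' → Fin (n + 1) → ℂ) (Λ : Option (Fin ν') → (Γ.Ix m' → ℝ) →ₗ[ℝ] ℝ),
      (∀ t, z t ∈ Cone y ∧ v t ∈ Tan y (z t) ∧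
        ∀ k ≥ μ.m₀, ∀ e : Γ.Ix k → ℝ, μ.evC e (z t) = Γ.ev (ρ'.φ w t) e) ∧
      ∀ e ∈ U, ∀ u, (∀ j, Γ.ev (ρ.φ e j) u = 0) → ∑ j, Λ j u * ρ'.lam w e j =
        Th (fun t => C' w (some t)) z v γ a (μ.evC w) (xi μ e u) := by
  choose D hD1 hD2 using fun t => motion hD ρ' hw t
  choose z hz v hv hzv using fun t => (hK L n y B d Γ μ).1 (ρ'.φ w t) (D t) (hD1 t)
  have hWc : ∀ l, Continuous fun u => μ.evC w ((γ l).pt u) := fun l =>
    (evC_smooth μ hC (γ l) w).continuous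
  let A₁ : U → Option (Fin ν') → (Γ.Ix m' → ℝ) →ₗ[ℝ] ℝ := fun e j =>
    match j with
    | none => 0
    | some t => IsLinearMap.mk' (fun u => -(xi μ e.1 u (z t) (v t)).re)
        ⟨fun u u' => by rw [xi_add]; simp; ring, fun c u => by rw [xi_smul]; simp⟩
  let R₁ : U → Option (Fin ν) → (Γ.Ix m' → ℝ) → ℝ := fun e j u =>
    match j with
    | none => 0
    | some t => (Γ.ev (ρ.φ e.1 t) u / Γ.ev (ρ.φ e.1 t) w).re
  have hR1 : ∀ e j u u', R₁ e j (u + u') = R₁ e j u + R₁ e j u' := by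
    rintro e (_ | t) u u'
    · simp [R₁]
    · simp only [R₁, ev_add, add_div, Complex.add_re]
  have hR2 : ∀ e j (c : ℝ) u, R₁ e j (c • u) = c * R₁ e j u := by
    rintro e (_ | t) c u
    · simp [R₁]
    · simp only [R₁, ev_smul, mul_div_assoc, Complex.re_ofReal_mul]
  let r₁ : U → (Γ.Ix m' → ℝ) →ₗ[ℝ] ℝ := fun e => IsLinearMap.mk'
    (fun u => ∑ j, C e.1 j * R₁ e j u + T2 γ a (μ.evC w) (xi μ e.1 u))
    ⟨fun u u' => by
      rw [xi_add, T2_add hWc (hO' w hw) (ct_xi μ hC (hO e.1 e.2) u) (ct_xi μ hC (hO e.1 e.2) u')]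
      simp only [hR1, mul_add, Finset.sum_add_distrib]
      ring, fun c u => by
      rw [xi_smul, T2_smul, smul_eq_mul, mul_add, Finset.mul_sum]
      congr 1
      exact Finset.sum_congr rfl fun j _ => by rw [hR2]; ring⟩
  refine (hS U (Option (Fin ν')) (Γ.Ix m' → ℝ) (fun e j => ρ'.lam w e.1 j)
    (fun c hc => (hI B d Γ m' ν' m U' ρ' hm1 w hw U ρ.op (fun e he => (hne e he w hw).2)).2 hU c
      fun e he => hc ⟨e, he⟩)
    (C' w) A₁ r₁ (fun u ε e j => ρ'.lam (w + ε • u) e.1 j) (fun u ε => C' (w + ε • u))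
    (fun u ε e => ∑ j, C e.1 j * ρ.lam e.1 (w + ε • u) j - μ.Phi γ a e.1 (w + ε • u))
    (fun u => by simp) (fun u e j => by simp) ?_ ?_ ?_).elim fun Λ hΛ => ?_
  rotate_right
  · refine ⟨z, v, Λ, fun t => ⟨hz t, hv t, fun k hk e => (hzv t k hk e).1⟩, fun e he u hu => ?_⟩
    have h1 := hΛ u ⟨e, he⟩
    have h2 : r₁ ⟨e, he⟩ u = T2 γ a (μ.evC w) (xi μ e u) := by
      change ∑ j, C e j * R₁ ⟨e, he⟩ j u + _ = _
      rw [Finset.sum_eq_zero, zero_add]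
      rintro (_ | t) -
      · simp [R₁]
      · simp [R₁, hu t]
    have h3 : ∑ j, C' w j * A₁ ⟨e, he⟩ j u =
        -∑ t, C' w (some t) * (xi μ e u (z t) (v t)).re := by
      rw [Fintype.sum_option, ← Finset.sum_neg_distrib]
      simp [A₁]
    rw [h2, h3] at h1
    rw [Th]
    linarith
  · rintro u e (_ | t)
    · exact hasDerivAt_const (0 : ℝ) (1 : ℝ)
    · have h1 : HasDerivAt (fun ε : ℝ => Γ.ev (ρ'.φ (w + ε • u) t) e.1)
          (∑ i, (e.1 i : ℂ) * -(Γ.ev (ρ'.φ w t) u * D t (Γ.mon i))) 0 :=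
        HasDerivAt.fun_sum fun i _ => (hD2 t u (Γ.mon i)).const_mul (e.1 i : ℂ)
      have h2 := hasDerivAt_log_norm h1 (by simpa using (hne e.1 e.2 w hw).2 t)
      have h3 : ∑ i, (e.1 i : ℂ) * -(Γ.ev (ρ'.φ w t) u * D t (Γ.mon i)) =
          -(Γ.ev (ρ'.φ w t) u * Γ.dev (D t) e.1) := by
        rw [Geo.dev, Finset.mul_sum, ← Finset.sum_neg_distrib]
        exact Finset.sum_congr rfl fun i _ => by ring
      rw [h3] at h2
      simp only [zero_smul, add_zero] at h2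
      have h4 : A₁ e (some t) u =
          (-(Γ.ev (ρ'.φ w t) u * Γ.dev (D t) e.1) / Γ.ev (ρ'.φ w t) e.1).re := by
        change -(xi μ e.1 u (z t) (v t)).re = _
        rw [xi, (hzv t m' hm' u).1, (hzv t m hm e.1).1, (hzv t m hm e.1).2, neg_div,
          Complex.neg_re, mul_div_assoc]
      rw [h4]
      exact h2
  · intro u e
    have h1 : ∀ j, HasDerivAt (fun ε : ℝ => ρ.lam e.1 (w + ε • u) j) (R₁ e j u) 0 := by
      rintro (_ | t)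
      · exact hasDerivAt_const (0 : ℝ) (1 : ℝ)
      · have h2 : HasDerivAt (fun ε : ℝ => Γ.ev (ρ.φ e.1 t) (w + ε • u))
            (Γ.ev (ρ.φ e.1 t) u) 0 := by
          simp only [ev_add, ev_smul]
          simpa using ((hasDerivAt_id (0 : ℝ)).ofReal_comp.mul_const
            (Γ.ev (ρ.φ e.1 t) u)).const_add (Γ.ev (ρ.φ e.1 t) w)
        have h3 := hasDerivAt_log_norm h2 (by simpa using (hne e.1 e.2 w hw).1 t)
        simp only [zero_smul, add_zero] at h3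
        exact h3
    have h4 := (HasDerivAt.fun_sum fun j (_ : j ∈ Finset.univ) =>
      (h1 j).const_mul (C e.1 j)).fun_sub (phi_deriv μ (a := a) hC hP (hO e.1 e.2) (hO' w hw) u)
    rw [sub_neg_eq_add] at h4
    exact h4
  · intro u e
    refine (line_mem ρ'.op hw u).mono fun ε hε => ?_
    have := h e.1 e.2 _ hε
    linarith

end OBS

open OBS in
theorem stOBS (hD : St_RDER) (hC : St_CHAIN) (hP : St_PHI2) (hK : St_CONE) (hW : St_WR)
    (hI : St_LIND) (hS : St_LSYS) : St_OBS := by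
  intro L _ _ n y B _ _ _ d _ Γ μ ι _ γ a ω hω hper m hm hm1
  obtain ⟨k₀, hk₀⟩ := hW L n y B d Γ μ ω hω m hm hm1
  refine ⟨2 * m + k₀ + μ.m₀, fun m' hm' ν ν' U U' ρ ρ' hU hU' hO hO' hne => ?_⟩
  rintro ⟨C, C', h⟩
  obtain ⟨w, hw⟩ := hU'
  obtain ⟨k, hk⟩ : ∃ k, k + 2 * m = m' := ⟨m' - 2 * m, by omega⟩
  have hk1 : μ.m₀ ≤ k := by omega
  have hm2 : μ.m₀ ≤ m' := by omega
  have hm3 : μ.m₀ ≤ 2 * m := by omega
  obtain ⟨z, v, Λ, hz, hΛ⟩ := first μ hD hC hP hK hI hS hm hm1 hm2 ρ ρ' hU hO hO' hne C C' h hw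
  have hWc : ∀ l, Continuous fun u => μ.evC w ((γ l).pt u) := fun l =>
    (evC_smooth μ hC (γ l) w).continuous
  set Θ := Th (fun t => C' w (some t)) z v γ a (μ.evC w) with hΘ
  have hlin : ∀ (s : Γ.Ix k → ℝ) (e' : Γ.Ix m → ℝ), IsLinearMap ℝ fun e => Θ (μ.wr s e e') :=
    fun s e' => ⟨fun e₁ e₂ => by
      rw [wr_add, hΘ, Th_add hWc (hO' w hw) (ct_wr μ hC s e₁ e') (ct_wr μ hC s e₂ e')],
      fun c e => by rw [wr_smul, hΘ, Th_smul, smul_eq_mul]⟩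
  have h1 : ∀ (s : Γ.Ix k → ℝ), ∀ e' ∈ U, ∀ e ∈ U, Θ (μ.wr s e e') = 0 := by
    intro s e' he'
    let uL : (Γ.Ix m → ℝ) →ₗ[ℝ] (Γ.Ix m' → ℝ) := IsLinearMap.mk'
      (fun e => Γ.mulv m' (Γ.mulv (2 * m) e e') s)
      ⟨fun e₁ e₂ => by rw [mulv_add_left, mulv_add_left],
        fun c e => by rw [mulv_smul_left, mulv_smul_left]⟩
    have hev : ∀ (φ : B →+* ℂ) e, Γ.ev φ (uL e) = Γ.ev φ e * Γ.ev φ e' * Γ.ev φ s := fun φ e => by
      change Γ.ev φ (Γ.mulv m' (Γ.mulv (2 * m) e e') s) = _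
      rw [ev_mulv μ hK hm3 hk1 (by omega), ev_mulv μ hK hm hm (by omega)]
    have hevC : ∀ x ∈ Cone y, ∀ e, μ.evC (uL e) x = μ.evC e x * μ.evC e' x * μ.evC s x :=
      fun x hx e => by
        change μ.evC (Γ.mulv m' (Γ.mulv (2 * m) e e') s) x = _
        rw [(hK L n y B d Γ μ).2.2 _ _ _ hm3 hk1 (by omega) _ _ x hx,
          (hK L n y B d Γ μ).2.2 _ _ _ hm hm (by omega) _ _ x hx]
    have hsub : ∀ e ∈ U, ∑ t, Λ (some t) (uL e) * Real.log ‖Γ.ev (ρ'.φ w t) e‖ =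
        ∑ t, Λ (some t) (uL e) * Real.log ‖Γ.ev (ρ'.φ w t) e'‖ + Θ (μ.wr s e e') := by
      intro e he
      have h2 := hΛ e he (uL e) fun j => by rw [hev, ρ.zero e he j]; simp
      have h3 := hΛ e' he' (uL e) fun j => by rw [hev, ρ.zero e' he' j]; simp
      have key : ∀ x ∈ Cone y, ∀ v', μ.evC e x ≠ 0 → μ.evC e' x ≠ 0 →
          xi μ e (uL e) x v' = (xi μ e' (uL e) + μ.wr s e e') x v' := by
        intro x hx v' h5 h6
        simp only [Pi.add_apply, xi, Geo.Model.wr, hevC x hx]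
        field_simp
        ring
      have h4 : Θ (xi μ e (uL e)) = Θ (xi μ e' (uL e)) + Θ (μ.wr s e e') := by
        rw [hΘ, ← Th_add hWc (hO' w hw) (ct_xi μ hC (hO e' he') _) (ct_wr μ hC s e e')]
        refine Th_congr (fun t => key _ (hz t).1 _ ?_ ?_) fun l u =>
          key _ ((γ l).mem u) _ (hO e he l u) (hO e' he' l u)
        · rw [(hz t).2.2 m hm]
          exact (hne e he w hw).2 t
        · rw [(hz t).2.2 m hm]
          exact (hne e' he' w hw).2 t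
      rw [Fintype.sum_option] at h2 h3
      simp only [Geo.Roots.lam] at h2 h3
      linarith
    have h5 := (hI B d Γ m' ν' m U' ρ' hm1 w hw U ρ.op (fun e he => (hne e he w hw).2)).1
      0 (fun t => Λ (some t) ∘ₗ uL) 0
      (∑ t, Real.log ‖Γ.ev (ρ'.φ w t) e'‖ • (Λ (some t) ∘ₗ uL) + (hlin s e').mk' _)
      (fun e he => by
        simp only [Pi.zero_apply, zero_add, LinearMap.comp_apply, LinearMap.add_apply,
          LinearMap.sum_apply, LinearMap.smul_apply, smul_eq_mul, IsLinearMap.mk'_apply]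
        rw [hsub e he]
        congr 1
        exact Finset.sum_congr rfl fun t _ => mul_comm _ _)
    intro e he
    have h6 := hsub e he
    have h7 : ∀ t, Λ (some t) (uL e) = 0 := fun t => by simpa using h5 e he t
    simpa [h7] using h6.symm
  have h2 : ∀ (s : Γ.Ix k → ℝ), ∀ e' ∈ U, ∀ e, Θ (μ.wr s e e') = 0 := fun s e' he' =>
    lin_zero (hlin s e') ρ.op hU (h1 s e' he')
  have h3 : ∀ (s : Γ.Ix k → ℝ) (e' e : Γ.Ix m → ℝ), Θ (μ.wr s e e') = 0 := fun s e' =>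
    lin_zero (hlin s e') ρ.op hU fun e he => by
      rw [wr_swap, hΘ, Th_smul, ← hΘ, h2 s e he e', mul_zero]
  have h4 : ∀ ξ ∈ μ.Wr k m, Ct γ ξ ∧ Θ ξ = 0 := by
    intro ξ hξ
    induction hξ using Submodule.span_induction with
    | mem ξ hξ =>
      obtain ⟨s, e, e', rfl⟩ := hξ
      exact ⟨ct_wr μ hC s e e', h3 s e' e⟩
    | zero =>
      refine ⟨fun l => continuous_const, ?_⟩
      have := Th_smul (c := fun t => C' w (some t)) (z := z) (v := v) (γ := γ) (a := a)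
        (W := μ.evC w) 0 0
      rwa [zero_smul, zero_mul] at this
    | add ξ ξ' _ _ h5 h6 =>
      exact ⟨h5.1.add h6.1, by rw [hΘ, Th_add hWc (hO' w hw) h5.1 h6.1, ← hΘ, h5.2, h6.2, add_zero]⟩
    | smul c ξ _ h5 => exact ⟨h5.1.smul c, by rw [hΘ, Th_smul, ← hΘ, h5.2, mul_zero]⟩
  obtain ⟨ξ, hξ, hξ2⟩ := hk₀ k (by omega) m' hk w
  have h5 := (h4 ξ hξ).2
  rw [hΘ, Th, Finset.sum_eq_zero, zero_add] at h5
  · apply hper
    rw [← h5, T2]
    refine Finset.sum_congr rfl fun l _ => ?_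
    rw [period]
    congr 3
    funext u
    rw [← hξ2 _ ((γ l).mem u) _ ((hC L n y (γ l)).2 u), mul_div_cancel_left₀ _ (hO' w hw l u)]
  · intro t _
    rw [← hξ2 _ (hz t).1 _ (hz t).2.1, (hz t).2.2 m' hm2, ρ'.zero w hw t]
    simp

end Pool.Agent.Lib.BK2
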