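import Pool.Agent.Lib.BK2.RDefs

noncomputable section

namespace Pool.Agent.Lib.BK2

namespace PHI1

theorem deriv_comb {I : Type} [Fintype I] (f : I → ℝ → ℂ) (hf : ∀ i, ContDiff ℝ 1 (f i))
    (c : I → ℝ) (u : ℝ) :
    deriv (fun u => ∑ i, (c i : ℂ) * f i u) u = ∑ i, (c i : ℂ) * deriv (f i) u := by
  refine HasDerivAt.deriv ?_
  exact HasDerivAt.fun_sum fun i _ =>
    (((hf i).differentiable (by simp) u).hasDerivAt).const_mul (c i : ℂ)

theorem cont_comb {X I : Type} [TopologicalSpace X] [Fintype I] (c : X → I → ℝ)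
    (hc : Continuous c) (f : I → ℝ → ℂ) (hf : ∀ i, Continuous (f i)) :
    Continuous fun p : X × ℝ => ∑ i, (c p.1 i : ℂ) * f i p.2 := by
  refine continuous_finsetSum _ fun i _ => Continuous.mul ?_ ((hf i).comp continuous_snd)
  exact Complex.continuous_ofReal.comp ((continuous_apply i).comp (hc.comp continuous_fst))

end PHI1

theorem stPHI1 : St_PHI1 := by
  intro I J _ _ f g hf hg
  rw [continuousOn_iff_continuous_domRestrict]
  set S : Set ((I → ℝ) × (J → ℝ)) :=
    {q | (∀ u, ∑ i, (q.1 i : ℂ) * f i u ≠ 0) ∧ ∀ u, ∑ j, (q.2 j : ℂ) * g j u ≠ 0} with hS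
  have c1 : Continuous fun q : S => q.1.1 := continuous_fst.comp continuous_subtype_val
  have c2 : Continuous fun q : S => q.1.2 := continuous_snd.comp continuous_subtype_val
  have a1 := PHI1.cont_comb _ c1 f fun i => (hf i).continuous
  have a2 := PHI1.cont_comb _ c2 g fun i => (hg i).continuous
  have b1 := PHI1.cont_comb _ c1 (fun i => deriv (f i)) fun i => (hf i).continuous_deriv le_rfl
  have b2 := PHI1.cont_comb _ c2 (fun i => deriv (g i)) fun i => (hg i).continuous_deriv le_rfl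
  have n1 : ∀ p : S × ℝ, ∑ i, (p.1.1.1 i : ℂ) * f i p.2 ≠ 0 := fun p => p.1.2.1 p.2
  have n2 : ∀ p : S × ℝ, ∑ i, (p.1.1.2 i : ℂ) * g i p.2 ≠ 0 := fun p => p.1.2.2 p.2
  have l1 := a1.norm.log fun p => norm_ne_zero_iff.2 (n1 p)
  have l2 := a2.norm.log fun p => norm_ne_zero_iff.2 (n2 p)
  have d1 := Complex.continuous_im.comp (b1.div a1 n1)
  have d2 := Complex.continuous_im.comp (b2.div a2 n2)
  have key := intervalIntegral.continuous_parametric_intervalIntegral_of_continuous'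
    (μ := MeasureTheory.volume)
    (f := fun (q : S) (u : ℝ) =>
      Real.log ‖∑ i, (q.1.1 i : ℂ) * f i u‖ *
          ((∑ j, (q.1.2 j : ℂ) * deriv (g j) u) / ∑ j, (q.1.2 j : ℂ) * g j u).im -
        Real.log ‖∑ j, (q.1.2 j : ℂ) * g j u‖ *
          ((∑ i, (q.1.1 i : ℂ) * deriv (f i) u) / ∑ i, (q.1.1 i : ℂ) * f i u).im)
    ((l1.mul d2).sub (l2.mul d1)) 0 1
  refine key.congr fun q => ?_
  simp only [Set.domRestrict_apply, eta, PHI1.deriv_comb f hf, PHI1.deriv_comb g hg]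

end Pool.Agent.Lib.BK2
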