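import Pool.Agent.Lib.BK2.RDefs

/-! The derivative of the regulator integral in the second variable. -/

open Set MeasureTheory Filter Topology

noncomputable section

namespace Pool.Agent.Lib.BK2

namespace PHI2

lemma log_norm {e : ℝ → ℂ} {e' : ℂ} {u : ℝ} (h : HasDerivAt e e' u) (h0 : e u ≠ 0) :
    HasDerivAt (fun u => Real.log ‖e u‖) (e' / e u).re u := by
  have hn : ‖e u‖ ^ 2 ≠ 0 := pow_ne_zero _ (norm_ne_zero_iff.2 h0)
  have h1 := (h.norm_sq.log hn).div_const 2
  have h2 : (fun u => Real.log (‖e u‖ ^ 2) / 2) = fun u => Real.log ‖e u‖ := by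
    funext v; rw [Real.log_pow]; push_cast; ring
  have h3 : 2 * inner ℝ (e u) e' / ‖e u‖ ^ 2 / 2 = (e' / e u).re := by
    rw [Complex.inner, Complex.div_re, Complex.normSq_eq_norm_sq]
    simp only [Complex.mul_re, Complex.conj_re, Complex.conj_im]
    field_simp
    ring
  rw [← h2, ← h3]
  exact h1

lemma eta_mul {e w p : ℝ → ℂ} (he : ContDiff ℝ 1 e) (hw : ContDiff ℝ 1 w) (hp : ContDiff ℝ 1 p)
    (e1 : e 1 = e 0) (p1 : p 1 = p 0) (e0 : ∀ u, e u ≠ 0) (w0 : ∀ u, w u ≠ 0)
    (ps : ∀ u ∈ uIcc (0 : ℝ) 1, p u ∈ Complex.slitPlane) :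
    eta e (fun u => w u * p u) =
      eta e w - (∫ u in (0 : ℝ)..1, Complex.log (p u) * (deriv e u / e u)).im := by
  have de : ∀ u, HasDerivAt e (deriv e u) u := fun u =>
    (he.differentiable one_ne_zero u).hasDerivAt
  have dw : ∀ u, HasDerivAt w (deriv w u) u := fun u =>
    (hw.differentiable one_ne_zero u).hasDerivAt
  have dp : ∀ u, HasDerivAt p (deriv p u) u := fun u =>
    (hp.differentiable one_ne_zero u).hasDerivAt
  have p0 : ∀ u ∈ uIcc (0 : ℝ) 1, p u ≠ 0 := fun u hu => Complex.slitPlane_ne_zero (ps u hu)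
  have ca : Continuous fun u => deriv e u / e u :=
    (he.continuous_deriv le_rfl).div he.continuous e0
  have cw : Continuous fun u => deriv w u / w u :=
    (hw.continuous_deriv le_rfl).div hw.continuous w0
  have cp : ContinuousOn (fun u => deriv p u / p u) (uIcc (0 : ℝ) 1) :=
    (hp.continuous_deriv le_rfl).continuousOn.div hp.continuous.continuousOn p0
  have cl : ContinuousOn (fun u => Complex.log (p u)) (uIcc (0 : ℝ) 1) :=
    hp.continuous.continuousOn.clog ps
  have le : Continuous fun u => Real.log ‖e u‖ :=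
    he.continuous.norm.log fun u => norm_ne_zero_iff.2 (e0 u)
  have lw : Continuous fun u => Real.log ‖w u‖ :=
    hw.continuous.norm.log fun u => norm_ne_zero_iff.2 (w0 u)
  let G' : ℝ → ℝ := fun u => (deriv e u / e u).re * (Complex.log (p u)).im +
    Real.log ‖e u‖ * (deriv p u / p u).im
  have iG : IntervalIntegrable G' volume 0 1 := ContinuousOn.intervalIntegrable
    (((Complex.continuous_re.comp ca).continuousOn.mul
      (Complex.continuous_im.comp_continuousOn cl)).add
      (le.continuousOn.mul (Complex.continuous_im.comp_continuousOn cp)))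
  have hG : ∫ u in (0 : ℝ)..1, G' u = 0 := by
    rw [intervalIntegral.integral_eq_sub_of_hasDerivAt
      (f := fun u => Real.log ‖e u‖ * (Complex.log (p u)).im) (fun u hu => ?_) iG, e1, p1, sub_self]
    exact (log_norm (de u) (e0 u)).mul
      (Complex.imCLM.hasFDerivAt.comp_hasDerivAt u ((dp u).clog_real (ps u hu)))
  have iL : IntervalIntegrable (fun u => Complex.log (p u) * (deriv e u / e u)) volume 0 1 :=
    (cl.mul ca.continuousOn).intervalIntegrable
  have i0 : IntervalIntegrable (fun u => Real.log ‖e u‖ * (deriv w u / w u).im -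
      Real.log ‖w u‖ * (deriv e u / e u).im) volume 0 1 :=
    ((le.mul (Complex.continuous_im.comp cw)).sub
      (lw.mul (Complex.continuous_im.comp ca))).intervalIntegrable _ _
  have iI : IntervalIntegrable (fun u => (Complex.log (p u) * (deriv e u / e u)).im) volume 0 1 :=
    (Complex.continuous_im.comp_continuousOn (cl.mul ca.continuousOn)).intervalIntegrable
  have hI := Complex.imCLM.intervalIntegral_comp_comm iL
  simp only [Complex.imCLM_apply] at hI
  have hS := intervalIntegral.integral_sub (i0.add iG) iI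
  rw [intervalIntegral.integral_add i0 iG, hG, add_zero] at hS
  rw [← hI, eta, eta, ← hS]
  refine intervalIntegral.integral_congr fun u hu => ?_
  have h1 : deriv (fun u => w u * p u) u / (w u * p u) = deriv w u / w u + deriv p u / p u := by
    have := w0 u
    have := p0 u hu
    rw [((dw u).fun_mul (dp u)).deriv]
    field_simp
  simp only [G', h1, norm_mul, Complex.add_im, Complex.mul_im, Complex.log_re,
    Real.log_mul (norm_ne_zero_iff.2 (w0 u)) (norm_ne_zero_iff.2 (p0 u hu))]
  ring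

lemma der {a q : ℝ → ℂ} (ha : Continuous a) (hq : Continuous q) :
    HasDerivAt (fun ε : ℝ => ∫ u in (0 : ℝ)..1, Complex.log (1 + ε * q u) * a u)
      (∫ u in (0 : ℝ)..1, q u * a u) 0 ∧
    ∀ᶠ ε : ℝ in 𝓝 0, ∀ u ∈ uIcc (0 : ℝ) 1, 1 + ε * q u ∈ Complex.slitPlane := by
  obtain ⟨M, hM⟩ := isCompact_uIcc.exists_bound_of_continuousOn (f := q) (s := uIcc (0 : ℝ) 1)
    hq.continuousOn
  obtain ⟨A, hA⟩ := isCompact_uIcc.exists_bound_of_continuousOn (f := a) (s := uIcc (0 : ℝ) 1)
    ha.continuousOn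
  have M0 : 0 ≤ M := (norm_nonneg _).trans (hM 0 left_mem_uIcc)
  have hs : ∀ᶠ ε : ℝ in 𝓝 0, ‖ε‖ * M < 1 / 2 :=
    (continuous_norm.mul continuous_const).continuousAt.eventually_lt continuousAt_const (by simp)
  have hb : ∀ ε : ℝ, ∀ u ∈ uIcc (0 : ℝ) 1, ‖(ε : ℂ) * q u‖ ≤ ‖ε‖ * M := fun ε u hu => by
    rw [norm_mul, Complex.norm_real]
    exact mul_le_mul_of_nonneg_left (hM u hu) (norm_nonneg _)
  have hp : ∀ᶠ ε : ℝ in 𝓝 0, ∀ u ∈ uIcc (0 : ℝ) 1, 1 + ε * q u ∈ Complex.slitPlane :=
    hs.mono fun ε h u hu => Complex.mem_slitPlane_of_norm_lt_one ((hb ε u hu).trans_lt (by linarith))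
  refine ⟨hasDerivAt_iff_isLittleO_nhds_zero.2 ?_, hp⟩
  refine Asymptotics.IsBigO.trans_isLittleO (g := fun ε : ℝ => ε ^ 2)
    (Asymptotics.IsBigO.of_bound (M ^ 2 * A) ?_) (Asymptotics.isLittleO_pow_id one_lt_two)
  filter_upwards [hs, hp] with ε h h'
  have i1 : IntervalIntegrable (fun u => Complex.log (1 + ε * q u) * a u) volume 0 1 :=
    (((continuous_const.add (continuous_const.mul hq)).continuousOn.clog h').mul
      ha.continuousOn).intervalIntegrable
  have i2 : IntervalIntegrable (fun u => ε • (q u * a u)) volume 0 1 :=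
    ((hq.mul ha).const_smul ε).intervalIntegrable _ _
  simp only [zero_add, Complex.ofReal_zero, zero_mul, add_zero, Complex.log_one,
    intervalIntegral.integral_zero, sub_zero]
  rw [← intervalIntegral.integral_smul, ← intervalIntegral.integral_sub i1 i2]
  refine (intervalIntegral.norm_integral_le_of_norm_le_const (C := M ^ 2 * A * ‖ε ^ 2‖)
    fun u hu => ?_).trans (by simp)
  have hu' := uIoc_subset_uIcc hu
  have h1 := hb ε u hu'
  have h2 := Complex.norm_log_one_add_sub_self_le (z := ε * q u) (by linarith)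
  have h3 : (1 - ‖(ε : ℂ) * q u‖)⁻¹ ≤ 2 := inv_le_of_inv_le₀ two_pos (by linarith)
  have h4 : ‖(ε : ℂ) * q u‖ ^ 2 ≤ (‖ε‖ * M) ^ 2 := pow_le_pow_left₀ (norm_nonneg _) h1 2
  have h5 : ‖Complex.log (1 + ε * q u) - ε * q u‖ ≤ (‖ε‖ * M) ^ 2 := by
    have := mul_le_mul h4 h3 (inv_nonneg.2 (by linarith)) (sq_nonneg _)
    linarith
  rw [Complex.real_smul, ← mul_assoc, ← sub_mul, norm_mul, norm_pow]
  calc _ ≤ (‖ε‖ * M) ^ 2 * A := mul_le_mul h5 (hA u hu') (norm_nonneg _) (sq_nonneg _)
    _ = _ := by ring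

end PHI2

theorem stPHI2 : St_PHI2 := by
  intro e w h he hw hh e1 w1 h1 e0 w0
  have hq : ContDiff ℝ 1 fun u => h u / w u := by
    simp only [div_eq_mul_inv]
    exact hh.mul (hw.inv w0)
  obtain ⟨d, s⟩ := PHI2.der ((he.continuous_deriv le_rfl).div he.continuous e0) hq.continuous
  have d2 := (Complex.imCLM.hasFDerivAt.comp_hasDerivAt (0 : ℝ) d).const_sub (eta e w)
  refine d2.congr_of_eventuallyEq (s.mono fun ε hε => ?_)
  have e2 : (fun u => w u + (ε : ℂ) * h u) = fun u => w u * (1 + ε * (h u / w u)) := by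
    funext u
    have := w0 u
    field_simp
  simp only [e2]
  exact PHI2.eta_mul he hw (contDiff_const.add (contDiff_const.mul hq)) e1
    (by simp only [w1, h1]) e0 w0 hε

end Pool.Agent.Lib.BK2
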