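import Pool.Agent.Lib.BK2.RDefs
import Pool.Agent.Lib.BK2.NRM
import Pool.Agent.Lib.BK2.Bas

open Polynomial TrivSqZeroExt

noncomputable section

namespace Pool.Agent.Lib.BK2

namespace RDER

theorem fst_aeval (τ : DualNumber ℂ) (p : ℝ[X]) : (aeval τ p).fst = aeval τ.fst p := by
  induction p using Polynomial.induction_on' with
  | add p q hp hq => rw [map_add, map_add, fst_add, hp, hq]
  | monomial n c => simp [aeval_monomial, algebraMap_eq_inl']

theorem snd_aeval (τ : DualNumber ℂ) (p : ℝ[X]) :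
    (aeval τ p).snd = aeval τ.fst (derivative p) * τ.snd := by
  induction p using Polynomial.induction_on' with
  | add p q hp hq => rw [map_add, map_add, map_add, snd_add, hp, hq, add_mul]
  | monomial n c =>
    simp only [aeval_monomial, algebraMap_eq_inl', derivative_monomial, DualNumber.snd_mul, fst_inl,
      snd_inl, snd_pow, zero_mul, add_zero, map_mul, map_natCast, nsmul_eq_mul, smul_eq_mul,
      Nat.pred_eq_sub_one]
    ring

/-- at a simple root of the determinant the left kernel is a line -/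
theorem ker_line {d : ℕ} [NeZero d] (N : Matrix (Fin d) (Fin d) ℝ[X]) (z : ℂ)
    (hz : aeval z (derivative N.det) ≠ 0) (a b : Fin d → ℂ) (a0 : a 0 = 1) (b0 : b 0 = 0)
    (ha : ∀ j, ∑ l, aeval z (N l j) * a l = 0) (hb : ∀ j, ∑ l, aeval z (N l j) * b l = 0) :
    b = 0 := by
  funext k
  by_contra hk
  have k0 : (0 : Fin d) ≠ k := fun h => hk (h ▸ b0)
  let τ : DualNumber ℂ := inl z + inr 1
  have τ1 : τ.fst = z := by simp [τ]
  have τ2 : τ.snd = 1 := by simp [τ]
  let M : Matrix (Fin d) (Fin d) (DualNumber ℂ) := (aeval τ : ℝ[X] →ₐ[ℝ] _).mapMatrix N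
  have row : ∀ c : Fin d → ℂ, (∀ j, ∑ l, aeval z (N l j) * c l = 0) →
      ∃ r : Fin d → DualNumber ℂ,
        ∑ l, (inl (c l) : DualNumber ℂ) • M l = (DualNumber.eps : DualNumber ℂ) • r := by
    intro c hc
    refine ⟨fun j => inl ((∑ l, (inl (c l) : DualNumber ℂ) • M l) j).snd, funext fun j => ?_⟩
    refine TrivSqZeroExt.ext ?_ (by simp)
    rw [Finset.sum_apply, fst_sum]
    refine Eq.trans (Finset.sum_congr rfl fun l _ => ?_) ((hc j).trans (by simp))
    change (inl (c l) * aeval τ (N l j)).fst = _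
    rw [fst_mul, fst_inl, fst_aeval, τ1, mul_comm]
  obtain ⟨r, hr⟩ := row b hb
  obtain ⟨r', hr'⟩ := row (fun l => a l - a k / b k * b l) fun j => by
    simp only [mul_sub, Finset.sum_sub_distrib, mul_left_comm _ (a k / b k), ← Finset.mul_sum, ha,
      hb, mul_zero, sub_zero]
  have h1 := Matrix.det_updateRow_sum M k fun l => inl (b l)
  have h2 := Matrix.det_updateRow_sum (M.updateRow k (∑ l, (inl (b l) : DualNumber ℂ) • M l)) 0
    fun l => inl (a l - a k / b k * b l)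
  have h3 : ∑ l, (inl (a l - a k / b k * b l) : DualNumber ℂ) •
      M.updateRow k (∑ l, (inl (b l) : DualNumber ℂ) • M l) l =
      (DualNumber.eps : DualNumber ℂ) • r' := by
    refine Eq.trans (Finset.sum_congr rfl fun l _ => ?_) hr'
    by_cases h : l = k
    · subst h
      rw [div_mul_cancel₀ _ hk, sub_self, inl_zero, zero_smul, zero_smul]
    · rw [Matrix.updateRow_ne h]
  rw [h3, h1, hr, Matrix.det_updateRow_smul, Matrix.updateRow_comm _ k0.symm,
    Matrix.det_updateRow_smul, ← mul_assoc, DualNumber.eps_mul_eps, zero_mul, a0, b0, mul_zero,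
    sub_zero, inl_one, one_smul, ← AlgHom.map_det] at h2
  have h4 := congrArg snd h2
  rw [smul_eq_mul, DualNumber.snd_mul, snd_inl, zero_mul, add_zero, fst_inl, snd_aeval, τ1, τ2,
    mul_one, snd_zero] at h4
  exact mul_ne_zero hk hz h4.symm

variable {B : Type} [CommRing B] [Algebra ℤ[X] B] {d : ℕ} [NeZero d] {Γ : Geo B d}

theorem root_of_ev {m : ℕ} {e : Γ.Ix m → ℝ} {ψ : B →+* ℂ} (h : Γ.ev ψ e = 0) :
    aeval (ψ Γ.t) (Γ.nrmR e) = 0 := by
  obtain ⟨g, hg⟩ := (NRM.c6 Γ e).2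
  rw [← hg, h, zero_mul]

/-- the labelled zeros lie over simple roots of the norm -/
theorem simple {m ν : ℕ} {U : Set (Γ.Ix m → ℝ)} (ρ : Γ.Roots m ν U) {e : Γ.Ix m → ℝ} (he : e ∈ U)
    (s : Fin ν) : Γ.Simple e (ρ.φ e s Γ.t) := by
  classical
  refine ⟨root_of_ev (ρ.zero e he s), fun h => ?_⟩
  have h0 : (Γ.nrmR e).map (algebraMap ℝ ℂ) ≠ 0 :=
    Polynomial.map_ne_zero fun h0 => ρ.lead e he (by rw [Geo.lc, h0, coeff_zero])
  have rt : ∀ ψ : B →+* ℂ, Γ.ev ψ e = 0 → ((Γ.nrmR e).map (algebraMap ℝ ℂ)).IsRoot (ψ Γ.t) :=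
    fun ψ h => (eval_map_algebraMap _ _).trans (root_of_ev h)
  let f : Fin ν ⊕ Fin ν → ℂ :=
    Sum.elim (fun s => ρ.φ e s Γ.t) fun s => starRingEnd ℂ (ρ.φ e s Γ.t)
  have hf : Function.Injective f := by
    rintro (s | s) (s' | s') h
    · exact congrArg _ (ρ.inj e he s s' h)
    · exact absurd h (ρ.nre e he s s')
    · exact absurd h.symm (ρ.nre e he s' s)
    · exact congrArg _ (ρ.inj e he s s' ((starRingEnd ℂ).injective h))
  have h1 : Finset.univ.image f ⊆ ((Γ.nrmR e).map (algebraMap ℝ ℂ)).roots.toFinset := by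
    intro x hx
    obtain ⟨s | s, -, rfl⟩ := Finset.mem_image.1 hx
    · exact Multiset.mem_toFinset.2 ((mem_roots h0).2 (rt _ (ρ.zero e he s)))
    · exact Multiset.mem_toFinset.2 ((mem_roots h0).2 (rt ((starRingEnd ℂ).comp (ρ.φ e s))
        (by rw [Geo.ev_conj, ρ.zero e he s, map_zero])))
  have h2 := Finset.card_le_card h1
  rw [Finset.card_image_of_injective _ hf, Finset.card_univ, Fintype.card_sum,
    Fintype.card_fin] at h2
  have h3 := (card_roots' ((Γ.nrmR e).map (algebraMap ℝ ℂ))).trans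
    (natDegree_map_le.trans (NRM.c6 Γ e).1)
  have h4 := ρ.card
  have h5 := Multiset.nodup_iff_count_le_one.1 (Multiset.toFinset_card_eq_card_iff_nodup.1
    (le_antisymm (Multiset.toFinset_card_le _) (h3.trans (by omega)))) (ρ.φ e s Γ.t)
  rw [count_roots] at h5
  exact absurd ((one_lt_rootMultiplicity_iff_isRoot h0).2 ⟨rt _ (ρ.zero e he s), by
    rw [derivative_map]; exact (eval_map_algebraMap _ _).trans h⟩) (not_lt.2 h5)

theorem der_zero {m : ℕ} {e : Γ.Ix m → ℝ} {φ : B →+* ℂ} (h0 : Γ.ev φ e = 0)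
    (hs : aeval (φ Γ.t) (derivative (Γ.nrmR e)) ≠ 0) {D : B →+ ℂ} (hD : IsDer φ D)
    (h1 : Γ.dev D e = 0) : D = 0 := by
  have D1 : D 1 = 0 := by simpa using hD 1 1
  let Φ : B →+* DualNumber ℂ :=
    { toFun := fun f => (φ f, D f)
      map_one' := TrivSqZeroExt.ext (map_one φ) D1
      map_zero' := TrivSqZeroExt.ext (map_zero φ) (map_zero D)
      map_add' := fun f g => TrivSqZeroExt.ext (map_add φ f g) (map_add D f g)
      map_mul' := fun f g => TrivSqZeroExt.ext (map_mul φ f g)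
        (((hD f g).trans (by rw [mul_comm (φ g)]; rfl)).trans (DualNumber.snd_mul _ _).symm) }
  have Φ1 : ∀ f, (Φ f).fst = φ f := fun _ => rfl
  have Φ2 : ∀ f, (Φ f).snd = D f := fun _ => rfl
  have am : ∀ p : ℤ[X], Φ (algebraMap ℤ[X] B p) = aeval (Φ Γ.t) (p.map (Int.castRingHom ℝ)) :=
    fun p => (NRM.hom_alg Γ Φ p).trans (aeval_map_algebraMap ℝ _ p).symm
  have e0 : ∑ i, algebraMap ℝ (DualNumber ℂ) (e i) * Φ (Γ.mon i) = 0 := by
    refine TrivSqZeroExt.ext ?_ ?_
    · rw [fst_sum]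
      exact (Finset.sum_congr rfl fun i _ => by simp [algebraMap_eq_inl', Φ1]).trans h0
    · rw [snd_sum]
      exact (Finset.sum_congr rfl fun i _ => by simp [algebraMap_eq_inl', Φ2]).trans h1
  have key : ∀ j, ∑ l, aeval (Φ Γ.t) (NRM.mat Γ e l j) * Φ (Γ.b l) = 0 := fun j => by
    rw [← zero_mul (Φ (Γ.b j)), ← e0]
    simp only [NRM.mat_apply, map_sum, Finset.sum_mul, map_mul, aeval_C, ← am]
    rw [Finset.sum_comm]
    refine Finset.sum_congr rfl fun i _ => ?_
    rw [mul_assoc, ← map_mul, NRM.mul_b, map_sum, Finset.mul_sum]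
    exact Finset.sum_congr rfl fun l _ => by rw [Algebra.smul_def, map_mul, mul_assoc]
  have dt : D Γ.t = 0 := by
    have h2 : ((aeval (Φ Γ.t) : ℝ[X] →ₐ[ℝ] _).mapMatrix (NRM.mat Γ e)).det = 0 := by
      have h3 : Matrix.vecMul (fun l => Φ (Γ.b l))
          ((aeval (Φ Γ.t) : ℝ[X] →ₐ[ℝ] _).mapMatrix (NRM.mat Γ e)) = 0 :=
        funext fun j => (Finset.sum_congr rfl fun l _ => mul_comm _ _).trans (key j)
      have h4 := congrFun (congrArg (Matrix.vecMul ·
        ((aeval (Φ Γ.t) : ℝ[X] →ₐ[ℝ] _).mapMatrix (NRM.mat Γ e)).adjugate) h3) 0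
      simp only [Matrix.vecMul_vecMul, Matrix.mul_adjugate, Matrix.vecMul_smul, Matrix.vecMul_one,
        Matrix.zero_vecMul, Pi.smul_apply, Γ.b0, map_one, smul_eq_mul, mul_one] at h4
      exact h4
    rw [← AlgHom.map_det] at h2
    have h5 := congrArg snd h2
    rw [snd_aeval] at h5
    exact (mul_eq_zero.1 h5).resolve_left hs
  have db := ker_line (NRM.mat Γ e) (φ Γ.t) hs (fun l => φ (Γ.b l)) (fun l => D (Γ.b l))
    (by rw [Γ.b0, map_one]) (by rw [Γ.b0, D1])
    (fun j => by rw [← NRM.ev_mul_b, h0, zero_mul]) fun j => by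
      have h2 := congrArg snd (key j)
      simpa only [snd_sum, DualNumber.snd_mul, fst_aeval, snd_aeval, Φ1, Φ2, dt, mul_zero, zero_mul,
        add_zero, snd_zero] using h2
  ext f
  rw [← Γ.b.sum_repr f, map_sum]
  refine Finset.sum_eq_zero fun l _ => ?_
  rw [Algebra.smul_def, hD, show D (Γ.b l) = 0 from congrFun db l, ← Φ2, am, snd_aeval, Φ2, dt]
  simp

end RDER

theorem stRDER (_ : St_RHOM) : St_RDER := fun _ _ _ _ _ _ _ _ _ ρ e he s _ hD h =>
  RDER.der_zero (ρ.zero e he s) (RDER.simple ρ he s).2 hD h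

end Pool.Agent.Lib.BK2
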