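import Pool.Agent.Lib.BK2.RMat

/-! The point of the curve above a simple root of the norm. -/

open Polynomial Matrix

noncomputable section

namespace Pool.Agent.Lib.BK2

namespace RHOM

open RMat

variable {B : Type} [CommRing B] [Algebra ℤ[X] B] {d : ℕ} [NeZero d] (Γ : Geo B d) {m : ℕ}

/-- the semilinear map with given values on the basis -/
def lam (z : ℂ) (v : Fin d → ℂ) : B →+ ℂ where
  toFun f := ∑ l, aeval z (Γ.b.repr f l) * v l
  map_zero' := by simp
  map_add' f g := by simp [add_mul, Finset.sum_add_distrib]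

theorem lam_apply (z : ℂ) (v : Fin d → ℂ) (f : B) :
    lam Γ z v f = ∑ l, aeval z (Γ.b.repr f l) * v l := rfl

theorem lam_b (z : ℂ) (v : Fin d → ℂ) (l : Fin d) : lam Γ z v (Γ.b l) = v l := by
  rw [lam_apply, Finset.sum_eq_single l (fun k _ hk => by
    rw [Γ.b.repr_self, Finsupp.single_eq_of_ne hk, map_zero, zero_mul])
    (fun h => absurd (Finset.mem_univ l) h), Γ.b.repr_self, Finsupp.single_eq_same, map_one,
    one_mul]

theorem lam_semi (z : ℂ) (v : Fin d → ℂ) : Semi z (lam Γ z v) := fun p f => by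
  simp only [lam_apply, map_smul, Finsupp.smul_apply, smul_eq_mul, map_mul, Finset.mul_sum,
    mul_assoc]

theorem semi_mul {z : ℂ} {L : B →+ ℂ} (h : Semi z L) (g : B) :
    Semi z (L.comp (AddMonoidHom.mulLeft g)) := fun p f => by
  change L (g * p • f) = _ * L (g * f)
  rw [mul_smul_comm, h]

theorem null_all {z : ℂ} {L : B →+ ℂ} (h : Semi z L) {e : Γ.Ix m → ℝ}
    (hn : (fun l => L (Γ.b l)) ᵥ* Nm Γ e z = 0) (f : B) :
    ∑ i, (e i : ℂ) * L (Γ.mon i * f) = 0 := by
  have h1 : ∀ i : Γ.Ix m,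
      L (Γ.mon i * f) = ∑ l, aeval z (Γ.b.repr f l) * L (Γ.mon i * Γ.b l) := fun i =>
    (semi_mul h (Γ.mon i)).eq Γ f
  simp only [h1, Finset.mul_sum]
  rw [Finset.sum_comm]
  refine Finset.sum_eq_zero fun l _ => ?_
  have h2 := (h.vec Γ e l).symm.trans (congrFun hn l)
  calc _ = aeval z (Γ.b.repr f l) * ∑ i, (e i : ℂ) * L (Γ.mon i * Γ.b l) := by
        rw [Finset.mul_sum]
        exact Finset.sum_congr rfl fun i _ => by ring
    _ = 0 := by rw [h2, Pi.zero_apply, mul_zero]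

theorem exists_hom {e : Γ.Ix m → ℝ} {z : ℂ} (hs : Γ.Simple e z) :
    ∃ ψ : B →+* ℂ, ψ Γ.t = z ∧ Γ.ev ψ e = 0 := by
  obtain ⟨i, j, hij⟩ := simple_adj Γ hs
  set v := adjugate (Nm Γ e z) i with hv
  have hL := lam_semi Γ z v
  set L := lam Γ z v with hLd
  have hn : (fun l => L (Γ.b l)) ᵥ* Nm Γ e z = 0 := by
    rw [show (fun l => L (Γ.b l)) = v from funext (lam_b Γ z v)]
    exact adj_null ((det_Nm Γ e z).trans hs.1) i
  have hj : L (Γ.b j) ≠ 0 := by
    rw [hLd, lam_b]
    exact hij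
  have key : ∀ g f, L (g * f) * L (Γ.b j) = L (g * Γ.b j) * L f := by
    intro g f
    have hg := semi_mul hL g
    have h1 : (fun l => (L.comp (AddMonoidHom.mulLeft g)) (Γ.b l)) ᵥ* Nm Γ e z = 0 :=
      funext fun k => (hg.vec Γ e k).trans (Eq.trans (Finset.sum_congr rfl fun a _ =>
        congrArg (fun x => (e a : ℂ) * L x) (mul_left_comm g _ _)) (null_all Γ hL hn (g * Γ.b k)))
    have h2 : L (g * f) = ∑ l, aeval z (Γ.b.repr f l) * L (g * Γ.b l) := hg.eq Γ f
    rw [h2, hL.eq Γ f, Finset.sum_mul, Finset.mul_sum]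
    refine Finset.sum_congr rfl fun l _ => ?_
    have h3 : L (g * Γ.b l) * L (Γ.b j) = L (g * Γ.b j) * L (Γ.b l) := ker_prop hij h1 hn l
    rw [mul_assoc, h3]
    ring
  have h1 : L 1 ≠ 0 := fun h => by
    have h2 := key (Γ.b j) 1
    rw [mul_one, h, mul_zero] at h2
    exact mul_ne_zero hj hj h2
  have hm : ∀ g f, L (g * f) * L 1 = L g * L f := fun g f => by
    have h2 := key g 1
    rw [mul_one] at h2
    refine mul_right_cancel₀ hj ?_
    linear_combination L 1 * key g f - L f * h2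
  refine ⟨{ toFun := fun f => L f / L 1
            map_one' := div_self h1
            map_mul' := fun g f => by
              field_simp
              exact hm g f
            map_zero' := by rw [map_zero, zero_div]
            map_add' := fun g f => by rw [map_add, add_div] }, ?_, ?_⟩
  · change L (algebraMap ℤ[X] B X) / L 1 = z
    rw [Algebra.algebraMap_eq_smul_one, hL, aeval_X, mul_div_assoc, div_self h1, mul_one]
  · change ∑ a, (e a : ℂ) * (L (Γ.mon a) / L 1) = 0
    have h2 := null_all Γ hL hn 1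
    simp only [mul_one] at h2
    simp only [← mul_div_assoc, ← Finset.sum_div, h2, zero_div]

theorem contDiffAt_det {E n : Type} [NormedAddCommGroup E] [NormedSpace ℝ E] [Fintype n]
    [DecidableEq n] {M : E → Matrix n n ℂ} {x : E} (h : ∀ i j, ContDiffAt ℝ 1 (M · i j) x) :
    ContDiffAt ℝ 1 (fun e => (M e).det) x := by
  simp only [det_apply']
  exact ContDiffAt.sum fun σ _ => contDiffAt_const.mul (contDiffAt_prod fun k _ => h _ _)

theorem contDiffAt_aeval {E : Type} [NormedAddCommGroup E] [NormedSpace ℝ E] {τ : E → ℂ} {x : E}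
    (h : ContDiffAt ℝ 1 τ x) (p : ℤ[X]) : ContDiffAt ℝ 1 (fun e => aeval (τ e) p) x :=
  ((p.contDiff_aeval (𝕜 := ℂ) 1).restrict_scalars ℝ).contDiffAt.comp x h

theorem smooth {U : Set (Γ.Ix m → ℝ)} {φ : (Γ.Ix m → ℝ) → (B →+* ℂ)} (hU : IsOpen U)
    (ht : ContDiffOn ℝ 1 (fun e => φ e Γ.t) U)
    (h : ∀ e ∈ U, Γ.Simple e (φ e Γ.t) ∧ Γ.ev (φ e) e = 0) (f : B) :
    ContDiffOn ℝ 1 (fun e => φ e f) U := by
  intro x hx
  have hτ := ht.contDiffAt (hU.mem_nhds hx)
  have hA : ∀ i l, ContDiffAt ℝ 1 (fun e => adjugate (Nm Γ e (φ e Γ.t)) i l) x := fun i l => by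
    simp only [adjugate_apply]
    refine contDiffAt_det fun a b => ?_
    by_cases hal : a = l
    · simp only [hal, updateRow_self]
      exact contDiffAt_const
    · simp only [updateRow_ne hal, Nm_apply]
      exact ContDiffAt.sum fun k _ => (Complex.ofRealCLM.contDiff.contDiffAt.comp x
        (contDiffAt_apply ℝ ℝ k x)).mul (contDiffAt_aeval hτ _)
  have hrow : ∀ e ∈ U, ∀ i l, adjugate (Nm Γ e (φ e Γ.t)) i l =
      adjugate (Nm Γ e (φ e Γ.t)) i 0 * φ e (Γ.b l) := fun e he i l =>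
    null_eq Γ (h e he).1 (h e he).2 (adj_null ((det_Nm Γ e _).trans (h e he).1.1) i) l
  obtain ⟨i, j, hij⟩ := simple_adj Γ (h x hx).1
  have h0 : adjugate (Nm Γ x (φ x Γ.t)) i 0 ≠ 0 := left_ne_zero_of_mul (hrow x hx i j ▸ hij)
  have hb : ∀ l, ContDiffAt ℝ 1 (fun e => φ e (Γ.b l)) x := fun l => by
    refine (((hA i 0).inv h0).mul (hA i l)).congr_of_eventuallyEq ?_
    filter_upwards [hU.mem_nhds hx, (hA i 0).continuousAt.eventually_ne h0] with e he hne
    rw [hrow e he i l]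
    exact (inv_mul_cancel_left₀ hne _).symm
  have e : (fun e => φ e f) = fun e => ∑ l, aeval (φ e Γ.t) (Γ.b.repr f l) * φ e (Γ.b l) :=
    funext fun e => hom_eq Γ (φ e) f
  rw [e]
  exact (ContDiffAt.sum fun l _ => (contDiffAt_aeval hτ _).mul (hb l)).contDiffWithinAt

end RHOM

open RMat in
theorem stRHOM : St_RHOM := by
  intro B _ _ d _ Γ m
  refine ⟨fun e ψ h => ?_, fun e τ hs => ?_, fun U φ hU ht h => RHOM.smooth Γ hU ht h⟩
  · rw [← det_Nm]
    by_contra hn
    exact one_ne_zero ((hom_b0 Γ ψ).symm.trans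
      (congrFun (eq_zero_of_vecMul_eq_zero hn (hom_null Γ h)) 0))
  · refine existsUnique_of_exists_of_unique (RHOM.exists_hom Γ hs) ?_
    rintro ψ ψ' ⟨rfl, h⟩ ⟨ht, h'⟩
    have h1 := hom_null Γ h'
    rw [ht] at h1
    refine RingHom.ext fun f => ?_
    rw [hom_eq Γ ψ f, hom_eq Γ ψ' f, ht]
    refine Finset.sum_congr rfl fun l _ => ?_
    rw [null_eq Γ hs h h1 l, hom_b0, one_mul]

end Pool.Agent.Lib.BK2
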