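import Pool.Agent.Lib.BK2.Defs

/-! Degree and smoothness of the norm of a real vector. -/

open Polynomial

noncomputable section

namespace Pool.Agent.Lib.BK2.ROOT

/-- Families of polynomials with `C¹` coefficients. -/
def Sm {E : Type} [NormedAddCommGroup E] [NormedSpace ℝ E] (P : E → ℝ[X]) : Prop :=
  ∀ k, ContDiff ℝ 1 fun e => (P e).coeff k

section
variable {E : Type} [NormedAddCommGroup E] [NormedSpace ℝ E]

theorem Sm.const (q : ℝ[X]) : Sm (fun _ : E => q) := fun _ => contDiff_const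

theorem Sm.add {P Q : E → ℝ[X]} (hP : Sm P) (hQ : Sm Q) : Sm (fun e => P e + Q e) := fun k => by
  simp only [coeff_add]
  exact (hP k).add (hQ k)

theorem Sm.mul {P Q : E → ℝ[X]} (hP : Sm P) (hQ : Sm Q) : Sm (fun e => P e * Q e) := fun k => by
  simp only [coeff_mul]
  exact ContDiff.sum fun x _ => (hP x.1).mul (hQ x.2)

theorem Sm.sum {ι : Type} (s : Finset ι) {P : ι → E → ℝ[X]} (hP : ∀ i ∈ s, Sm (P i)) :
    Sm (fun e => ∑ i ∈ s, P i e) := fun k => by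
  simp only [finsetSum_coeff]
  exact ContDiff.sum fun i hi => hP i hi k

theorem Sm.prod {ι : Type} (s : Finset ι) {P : ι → E → ℝ[X]} (hP : ∀ i ∈ s, Sm (P i)) :
    Sm (fun e => ∏ i ∈ s, P i e) := by
  classical
  induction s using Finset.induction_on with
  | empty => simpa using Sm.const (E := E) 1
  | insert a s ha ih =>
    simp only [Finset.prod_insert ha]
    exact (hP a (Finset.mem_insert_self a s)).mul
      (ih fun i hi => hP i (Finset.mem_insert_of_mem hi))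

theorem Sm.C {f : E → ℝ} (hf : ContDiff ℝ 1 f) : Sm (fun e => (C (f e) : ℝ[X])) := fun k => by
  simp only [coeff_C]
  split_ifs
  · exact hf
  · exact contDiff_const

end

variable {B : Type} [CommRing B] [Algebra ℤ[X] B] {d : ℕ} [NeZero d] (Γ : Geo B d)

theorem nrmR_eq {m : ℕ} (e : Γ.Ix m → ℝ) : Γ.nrmR e =
    ∑ σ : Equiv.Perm (Fin d), ((Equiv.Perm.sign σ : ℤ) : ℝ[X]) * ∏ j, ∑ i, C (e i) *
      (Γ.b.repr (Γ.mon i * Γ.b j) (σ j)).map (Int.castRingHom ℝ) := by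
  rw [Geo.nrmR, Matrix.det_apply']
  refine Finset.sum_congr rfl fun σ _ => ?_
  congr 1
  refine Finset.prod_congr rfl fun j _ => ?_
  rw [Matrix.sum_apply]
  refine Finset.sum_congr rfl fun i _ => ?_
  rw [Matrix.smul_apply, Matrix.map_apply, Algebra.leftMulMatrix_eq_repr_mul, smul_eq_mul]

theorem sm_nrmR (m : ℕ) : Sm (fun e : Γ.Ix m → ℝ => Γ.nrmR e) := by
  simp only [nrmR_eq]
  exact Sm.sum _ fun σ _ => (Sm.const _).mul (Sm.prod _ fun j _ => Sm.sum _ fun i _ =>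
    (Sm.C (contDiff_apply ℝ ℝ i)).mul (Sm.const _))

theorem repr_mon {m : ℕ} (i : Γ.Ix m) (j l : Fin d) :
    (Γ.b.repr (Γ.mon i * Γ.b j) l).degree + (Γ.δ l : WithBot ℕ) ≤ ((m + Γ.δ j : ℕ) : WithBot ℕ) := by
  have h1 : Γ.mon i * Γ.b j = (X ^ (i.2 : ℕ) : ℤ[X]) • (Γ.b i.1 * Γ.b j) := by
    rw [Geo.mon, Geo.t, Algebra.smul_def, map_pow, mul_assoc]
  have h2 : (i.2 : ℕ) + Γ.δ i.1 ≤ m := by have := i.2.2; omega
  rw [h1, map_smul, Finsupp.smul_apply, smul_eq_mul, degree_mul, degree_X_pow, add_assoc]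
  calc ((i.2 : ℕ) : WithBot ℕ) + ((Γ.b.repr (Γ.b i.1 * Γ.b j) l).degree + (Γ.δ l : WithBot ℕ))
      ≤ ((i.2 : ℕ) : WithBot ℕ) + ((Γ.δ i.1 + Γ.δ j : ℕ) : WithBot ℕ) :=
        add_le_add le_rfl (Γ.mul_deg i.1 j l)
    _ = (((i.2 : ℕ) + (Γ.δ i.1 + Γ.δ j) : ℕ) : WithBot ℕ) := by push_cast; rfl
    _ ≤ _ := by exact_mod_cast (by omega)

theorem entry_deg {m : ℕ} (e : Γ.Ix m → ℝ) (j l : Fin d)
    (h : ∑ i, C (e i) * (Γ.b.repr (Γ.mon i * Γ.b j) l).map (Int.castRingHom ℝ) ≠ 0) :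
    (∑ i, C (e i) * (Γ.b.repr (Γ.mon i * Γ.b j) l).map (Int.castRingHom ℝ)).natDegree + Γ.δ l ≤
      m + Γ.δ j := by
  have key : ∀ i : Γ.Ix m, Γ.b.repr (Γ.mon i * Γ.b j) l ≠ 0 →
      (Γ.b.repr (Γ.mon i * Γ.b j) l).natDegree + Γ.δ l ≤ m + Γ.δ j := fun i hi => by
    have := repr_mon Γ i j l
    rw [degree_eq_natDegree hi] at this
    exact_mod_cast this
  obtain ⟨i0, -, hi0⟩ := Finset.exists_ne_zero_of_sum_ne_zero h
  have h0 : Γ.b.repr (Γ.mon i0 * Γ.b j) l ≠ 0 := fun h0 => hi0 (by rw [h0]; simp)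
  have h1 := key i0 h0
  have h2 : (∑ i, C (e i) * (Γ.b.repr (Γ.mon i * Γ.b j) l).map (Int.castRingHom ℝ)).natDegree ≤
      m + Γ.δ j - Γ.δ l := by
    refine natDegree_sum_le_of_forall_le _ _ fun i _ => ?_
    refine (natDegree_C_mul_le _ _).trans (natDegree_map_le.trans ?_)
    by_cases hi : Γ.b.repr (Γ.mon i * Γ.b j) l = 0
    · rw [hi, natDegree_zero]; exact Nat.zero_le _
    · have := key i hi; omega
  omega

theorem natDegree_nrmR {m : ℕ} (e : Γ.Ix m → ℝ) : (Γ.nrmR e).natDegree ≤ m * d := by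
  rw [nrmR_eq]
  refine natDegree_sum_le_of_forall_le _ _ fun σ _ => ?_
  refine natDegree_mul_le.trans ?_
  rw [natDegree_intCast, zero_add]
  by_cases h : ∀ j, ∑ i, C (e i) *
      (Γ.b.repr (Γ.mon i * Γ.b j) (σ j)).map (Int.castRingHom ℝ) ≠ 0
  · refine (natDegree_prod_le _ _).trans ?_
    have h1 := Finset.sum_le_sum (s := Finset.univ) fun j _ => entry_deg Γ e j (σ j) (h j)
    rw [Finset.sum_add_distrib, Finset.sum_add_distrib, Equiv.sum_comp σ Γ.δ, Finset.sum_const,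
      Finset.card_univ, Fintype.card_fin, smul_eq_mul, mul_comm d m] at h1
    omega
  · push Not at h
    obtain ⟨j, hj⟩ := h
    rw [Finset.prod_eq_zero (Finset.mem_univ j) hj, natDegree_zero]
    exact Nat.zero_le _

end Pool.Agent.Lib.BK2.ROOT
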