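import Pool.Agent.Lib.BK2.RDefs
import Pool.Agent.Lib.BK2.ROOT0

/-! Labelled zeros near a vector with separable norm without real roots. -/

open Polynomial

noncomputable section

namespace Pool.Agent.Lib.BK2

namespace ROOT

variable {B : Type} [CommRing B] [Algebra ℤ[X] B] {d : ℕ} [NeZero d] (Γ : Geo B d)

theorem ev_conj {m : ℕ} (ψ : B →+* ℂ) (e : Γ.Ix m → ℝ) :
    Γ.ev ((starRingEnd ℂ).comp ψ) e = starRingEnd ℂ (Γ.ev ψ e) := by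
  simp only [Geo.ev, map_sum, map_mul, Complex.conj_ofReal, RingHom.comp_apply]

end ROOT

theorem stROOT (h1 : St_RPOL) (h2 : St_RHOM) : St_ROOT := by
  intro B _ _ d _ Γ m e₀ hsep hdeg hre
  classical
  obtain ⟨ν, U, τ, hU, he₀, hν, hsm, hτ⟩ := h1 (Γ.Ix m) (m * d) Γ.nrmR e₀
    (ROOT.natDegree_nrmR Γ) (ROOT.sm_nrmR Γ m) hsep hdeg hre
  obtain ⟨g1, g2, g3⟩ := h2 B d Γ m
  have hex : ∀ (e : Γ.Ix m → ℝ) (s : Fin ν), ∃ ψ : B →+* ℂ, e ∈ U →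
      (ψ Γ.t = τ e s ∧ Γ.ev ψ e = 0) ∧
        ∀ ψ' : B →+* ℂ, ψ' Γ.t = τ e s ∧ Γ.ev ψ' e = 0 → ψ' = ψ := by
    intro e s
    by_cases he : e ∈ U
    · obtain ⟨ψ, hψ⟩ := g2 e (τ e s) ((hτ e he).2.1 s)
      exact ⟨ψ, fun _ => hψ⟩
    · obtain ⟨ψ, -⟩ := g2 e₀ (τ e₀ s) ((hτ e₀ he₀).2.1 s)
      exact ⟨ψ, fun h => absurd h he⟩
  choose φ hφ using hex
  have ht : ∀ e ∈ U, ∀ s, φ e s Γ.t = τ e s := fun e he s => (hφ e s he).1.1
  refine ⟨ν, U, ⟨φ, hU, hν, fun s => ?_, fun e he s => (hφ e s he).1.2, fun e he ψ hψ => ?_,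
    fun e he s s' h => ?_, fun e he s s' => ?_, fun e he => (hτ e he).1⟩, he₀⟩
  · refine g3 U (fun e => φ e s) hU ((hsm s).congr fun e he => ht e he s) fun e he => ⟨?_, ?_⟩
    · rw [ht e he s]
      exact (hτ e he).2.1 s
    · exact (hφ e s he).1.2
  · obtain ⟨s, hs | hs⟩ := (hτ e he).2.2.1 (ψ Γ.t) (g1 e ψ hψ)
    · exact ⟨s, Or.inl ((hφ e s he).2 ψ ⟨hs, hψ⟩)⟩
    · refine ⟨s, Or.inr ?_⟩
      have h := (hφ e s he).2 ((starRingEnd ℂ).comp ψ)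
        ⟨by rw [RingHom.comp_apply, hs, Complex.conj_conj], by rw [ROOT.ev_conj, hψ, map_zero]⟩
      rw [← h]
      ext f
      simp
  · rw [ht e he, ht e he] at h
    exact (hτ e he).2.2.2.1 s s' h
  · rw [ht e he, ht e he]
    exact (hτ e he).2.2.2.2 s s'

end Pool.Agent.Lib.BK2
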