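import Pool.Agent.Lib.BK2.RDefs

open Polynomial Filter Topology

noncomputable section

namespace Pool.Agent.Lib.BK2

namespace RPOL

variable {I : Type} [Fintype I]

theorem contDiff_aeval {N : ℕ} {P : (I → ℝ) → ℝ[X]} (hd : ∀ e, (P e).natDegree ≤ N)
    (hc : ∀ k, ContDiff ℝ 1 fun e => (P e).coeff k) :
    ContDiff ℝ 1 fun q : (I → ℝ) × ℂ => aeval q.2 (P q.1) := by
  have e : (fun q : (I → ℝ) × ℂ => aeval q.2 (P q.1)) =
      fun q => ∑ k ∈ Finset.range (N + 1), (P q.1).coeff k • q.2 ^ k :=
    funext fun q => aeval_eq_sum_range' (Nat.lt_succ_of_le (hd q.1)) _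
  rw [e]
  exact ContDiff.sum fun k _ => ((hc k).comp contDiff_fst).smul (contDiff_snd.pow k)

theorem contDiff_der {N : ℕ} {P : (I → ℝ) → ℝ[X]} (hd : ∀ e, (P e).natDegree ≤ N)
    (hc : ∀ k, ContDiff ℝ 1 fun e => (P e).coeff k) :
    ContDiff ℝ 1 fun q : (I → ℝ) × ℂ => aeval q.2 (derivative (P q.1)) :=
  contDiff_aeval (N := N) (P := fun e => derivative (P e))
    (fun e => (natDegree_derivative_le _).trans ((Nat.sub_le _ _).trans (hd e))) fun k => by
      simp only [coeff_derivative]
      exact (hc (k + 1)).mul contDiff_const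

/-- a simple root moves smoothly -/
theorem exists_root {N : ℕ} {P : (I → ℝ) → ℝ[X]} (hd : ∀ e, (P e).natDegree ≤ N)
    (hc : ∀ k, ContDiff ℝ 1 fun e => (P e).coeff k) {e₀ : I → ℝ} {z₀ : ℂ}
    (h0 : aeval z₀ (P e₀) = 0) (h1 : aeval z₀ (derivative (P e₀)) ≠ 0) :
    ∃ τ : (I → ℝ) → ℂ, τ e₀ = z₀ ∧ ContDiffAt ℝ 1 τ e₀ ∧ ∀ᶠ e in 𝓝 e₀, aeval (τ e) (P e) = 0 := by
  have hF : ContDiffAt ℝ 1 (fun q : (I → ℝ) × ℂ => aeval q.2 (P q.1)) (e₀, z₀) :=
    (contDiff_aeval hd hc).contDiffAt
  have a1 := (hF.differentiableAt one_ne_zero).hasFDerivAt.comp z₀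
    (hasFDerivAt_prodMk_right (𝕜 := ℝ) e₀ z₀)
  have a2 := ((P e₀).hasDerivAt_aeval z₀).hasFDerivAt.restrictScalars ℝ
  have a3 := a1.unique a2
  have hi : (fderiv ℝ (fun q : (I → ℝ) × ℂ => aeval q.2 (P q.1)) (e₀, z₀) ∘L
      ContinuousLinearMap.inr ℝ (I → ℝ) ℂ).IsInvertible := by
    rw [a3]
    refine ContinuousLinearMap.IsInvertible.of_inverse
      (g := ContinuousLinearMap.mul ℝ ℂ (aeval z₀ (derivative (P e₀)))⁻¹) ?_ ?_
    · refine ContinuousLinearMap.ext fun z => ?_
      simp only [ContinuousLinearMap.comp_apply, ContinuousLinearMap.mul_apply',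
        ContinuousLinearMap.coe_restrictScalars', ContinuousLinearMap.toSpanSingleton_apply,
        smul_eq_mul, ContinuousLinearMap.id_apply]
      field_simp
    · refine ContinuousLinearMap.ext fun z => ?_
      simp only [ContinuousLinearMap.comp_apply, ContinuousLinearMap.mul_apply',
        ContinuousLinearMap.coe_restrictScalars', ContinuousLinearMap.toSpanSingleton_apply,
        smul_eq_mul, ContinuousLinearMap.id_apply]
      field_simp
  refine ⟨hF.implicitFunction one_ne_zero hi, hF.implicitFunction_apply_self one_ne_zero hi,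
    hF.contDiffAt_implicitFunction one_ne_zero hi, ?_⟩
  filter_upwards [hF.eventually_apply_implicitFunction one_ne_zero hi] with e he
  exact he.trans h0

theorem aeval_conj' (p : ℝ[X]) {z : ℂ} (h : aeval z p = 0) : aeval (starRingEnd ℂ z) p = 0 := by
  rw [aeval_conj, h, map_zero]

/-- the pairs of conjugate numbers are distinct -/
theorem inj_elim {ν : ℕ} {τ : Fin ν → ℂ} (hp : ∀ s, 0 < (τ s).im) (hi : Function.Injective τ) :
    Function.Injective (Sum.elim τ fun s => starRingEnd ℂ (τ s)) := by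
  have hne : ∀ s s', τ s ≠ starRingEnd ℂ (τ s') := fun s s' h => by
    have := congrArg Complex.im h
    rw [Complex.conj_im] at this
    linarith [hp s, hp s']
  rintro (s | s) (s' | s') h
  · exact congrArg _ (hi h)
  · exact absurd h (hne s s')
  · exact absurd h.symm (hne s' s)
  · exact congrArg _ (hi ((starRingEnd ℂ).injective h))

theorem card_le {p : ℝ[X]} (hp : p ≠ 0) {T : Finset ℂ} (h : ∀ z ∈ T, aeval z p = 0) :
    T.card ≤ p.natDegree := by
  have h1 : T ⊆ (p.aroots ℂ).toFinset := fun z hz =>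
    Multiset.mem_toFinset.2 (mem_aroots.2 ⟨hp, h z hz⟩)
  refine (Finset.card_le_card h1).trans ((Multiset.toFinset_card_le _).trans ?_)
  exact (card_roots' _).trans (natDegree_map_le)

end RPOL

open RPOL in
theorem stRPOL : St_RPOL := by
  intro I _ N P e₀ hd hc hs hN hr
  classical
  have hp0 : P e₀ ≠ 0 := hs.ne_zero
  set R : Finset ℂ := ((P e₀).aroots ℂ).toFinset with hR
  have hRm : ∀ z, z ∈ R ↔ aeval z (P e₀) = 0 := fun z => by
    rw [hR, Multiset.mem_toFinset, mem_aroots]; exact and_iff_right hp0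
  have hRc : R.card = N := by
    rw [hR, Multiset.toFinset_card_of_nodup (nodup_roots hs.map), ← hN,
      ← (IsAlgClosed.splits _).natDegree_eq_card_roots, natDegree_map]
  set S : Finset ℂ := R.filter fun z => 0 < z.im with hS
  let σ : Fin S.card → ℂ := fun s => (S.equivFin.symm s : ℂ)
  have σi : Function.Injective σ := fun s s' h => S.equivFin.symm.injective (Subtype.ext h)
  have σm : ∀ s, aeval (σ s) (P e₀) = 0 ∧ 0 < (σ s).im := fun s => by
    have := Finset.mem_filter.1 (S.equivFin.symm s).2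
    exact ⟨(hRm _).1 this.1, this.2⟩
  have σs : ∀ z, aeval z (P e₀) = 0 → 0 < z.im → ∃ s, σ s = z := fun z h h' =>
    ⟨S.equivFin ⟨z, Finset.mem_filter.2 ⟨(hRm z).2 h, h'⟩⟩, by simp [σ]⟩
  have hcard : 2 * S.card = N := by
    have e : R = Finset.univ.image (Sum.elim σ fun s => starRingEnd ℂ (σ s)) := by
      ext z
      rw [hRm, Finset.mem_image]
      constructor
      · intro h
        rcases lt_trichotomy z.im 0 with h' | h' | h'
        · obtain ⟨s, hs'⟩ := σs _ (aeval_conj' _ h) (by rw [Complex.conj_im]; linarith)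
          exact ⟨.inr s, Finset.mem_univ _, by simp [hs']⟩
        · refine absurd ?_ (hr z.re)
          have : z = algebraMap ℝ ℂ z.re := Complex.ext rfl (by simpa using h')
          rw [this, aeval_algebraMap_apply, map_eq_zero] at h
          exact h
        · obtain ⟨s, hs'⟩ := σs _ h h'
          exact ⟨.inl s, Finset.mem_univ _, hs'⟩
      · rintro ⟨s | s, -, rfl⟩
        · exact (σm s).1
        · exact aeval_conj' _ (σm s).1
    rw [← hRc, e, Finset.card_image_of_injective _ (inj_elim (fun s => (σm s).2) σi)]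
    simp [two_mul]
  have hder : ∀ s, aeval (σ s) (derivative (P e₀)) ≠ 0 := fun s =>
    hs.aeval_derivative_ne_zero (σm s).1
  choose τ τ0 τ1 τ2 using fun s => exists_root hd hc (σm s).1 (hder s)
  have hev : ∀ᶠ e in 𝓝 e₀, (P e).coeff N ≠ 0 ∧ (∀ s, ContDiffAt ℝ 1 (τ s) e) ∧
      (∀ s, aeval (τ s e) (P e) = 0) ∧ (∀ s, aeval (τ s e) (derivative (P e)) ≠ 0) ∧
      (∀ s, 0 < (τ s e).im) ∧ ∀ s s', s ≠ s' → τ s e ≠ τ s' e := by
    refine ((hc N).continuous.continuousAt.eventually_ne ?_).and (.and ?_ (.and ?_ (.and ?_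
      (.and ?_ ?_))))
    · rw [← hN]; exact leadingCoeff_ne_zero.2 hp0
    · exact eventually_all.2 fun s => (τ1 s).eventually (by simp)
    · exact eventually_all.2 τ2
    · refine eventually_all.2 fun s => ?_
      have : ContinuousAt (fun e => aeval (τ s e) (derivative (P e))) e₀ :=
        (contDiff_der hd hc).continuous.continuousAt.comp
          (f := fun e => (e, τ s e)) (continuousAt_id.prodMk (τ1 s).continuousAt)
      exact this.eventually_ne (by rw [τ0]; exact hder s)
    · refine eventually_all.2 fun s => ?_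
      exact continuousAt_const.eventually_lt
        (Complex.continuous_im.continuousAt.comp (τ1 s).continuousAt)
        (by change 0 < (τ s e₀).im; rw [τ0]; exact (σm s).2)
    · refine eventually_all.2 fun s => eventually_all.2 fun s' => ?_
      by_cases h : s = s'
      · exact .of_forall fun _ h' => absurd h h'
      · have := ((τ1 s).continuousAt.sub (τ1 s').continuousAt).eventually_ne (y := 0)
          (by change τ s e₀ - τ s' e₀ ≠ 0; rw [τ0, τ0]; exact sub_ne_zero.2 fun e => h (σi e))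
        exact this.mono fun e he _ => sub_ne_zero.1 he
  obtain ⟨U, hU, ho, hm⟩ := eventually_nhds_iff.1 hev
  refine ⟨S.card, U, fun e s => τ s e, ho, hm, hcard,
    fun s e he => ((hU e he).2.1 s).contDiffWithinAt, fun e he => ?_⟩
  obtain ⟨h1, -, h2, h3, h4, h5⟩ := hU e he
  have hi : Function.Injective fun s => τ s e := fun s s' h => by_contra fun h' => h5 s s' h' h
  have hj := inj_elim h4 hi
  refine ⟨h1, fun s => ⟨h2 s, h3 s⟩, fun z hz => ?_, hi,
    fun s s' h => Sum.inl_ne_inr (hj (a₁ := .inl s) (a₂ := .inr s') h)⟩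
  by_contra hn
  have hz' : z ∉ Finset.univ.image (Sum.elim (fun s => τ s e) fun s => starRingEnd ℂ (τ s e)) := by
    intro h
    obtain ⟨s | s, -, rfl⟩ := Finset.mem_image.1 h
    · exact hn ⟨s, .inl rfl⟩
    · exact hn ⟨s, .inr rfl⟩
  have := card_le (p := P e) (fun h => h1 (by rw [h, coeff_zero]))
    (T := insert z (Finset.univ.image
      (Sum.elim (fun s => τ s e) fun s => starRingEnd ℂ (τ s e)))) fun w hw => by
      rcases Finset.mem_insert.1 hw with rfl | hw
      · exact hz
      · obtain ⟨s | s, -, rfl⟩ := Finset.mem_image.1 hw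
        · exact h2 s
        · exact aeval_conj' _ (h2 s)
  rw [Finset.card_insert_of_notMem hz', Finset.card_image_of_injective _ hj] at this
  simp only [Finset.card_univ, Fintype.card_sum, Fintype.card_fin] at this
  have := hd e
  omega

end Pool.Agent.Lib.BK2
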