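import Pool.Agent.Lib.BK2.RGlue
import Pool.Agent.Lib.BK2.CEN1
import Pool.Agent.Lib.BK2.CEN2
import Pool.Agent.Lib.BK2.CHAIN
import Pool.Agent.Lib.BK2.CONE
import Pool.Agent.Lib.BK2.LIND
import Pool.Agent.Lib.BK2.LSYS
import Pool.Agent.Lib.BK2.OBS
import Pool.Agent.Lib.BK2.PHI1
import Pool.Agent.Lib.BK2.PHI2
import Pool.Agent.Lib.BK2.RDER
import Pool.Agent.Lib.BK2.RHOM
import Pool.Agent.Lib.BK2.ROOT
import Pool.Agent.Lib.BK2.RPOL
import Pool.Agent.Lib.BK2.WR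

namespace Pool.Agent.Lib.BK2

theorem stR0 : St_R0 :=
  stR0_of (stROOT stRPOL stRHOM) stCEN1 stCEN20 stCHAIN stPHI1 stLIND
    (stOBS (stRDER stRHOM) stCHAIN stPHI2 stCONE (stWR stCONE) stLIND stLSYS)

theorem stR : St_R := stR_of stR0

end Pool.Agent.Lib.BK2
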