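import Pool.Agent.Lib.BK2.ZZ
import Pool.Agent.Lib.BK2.R
import Pool.Agent.Lib.BK2.KAll
import Pool.Agent.Lib.BK2.APst
import Pool.Agent.Lib.BK2.NFG

/-! BK2 for curves over arbitrary number fields: the main statement from the remaining blocks. -/

noncomputable section

namespace Pool.Agent.Lib.BK2

theorem NFFin.span_of_dual {ι α : Type} [Fintype ι] (P : α → Prop) (Q : α → Prop)
    (r : α → ι → ℝ) (w : ι → ℝ)
    (h : ∀ a : ι → ℝ, (∀ s, P s → Q s → ∑ l, a l * r s l = 0) → ∑ l, a l * w l = 0) :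
    w ∈ Submodule.span ℝ {v : ι → ℝ | ∃ s, P s ∧ Q s ∧ v = r s} := by
  classical
  by_contra hn
  obtain ⟨f, hf, hf0⟩ := Submodule.exists_dual_map_eq_bot_of_notMem hn inferInstance
  have hfa : ∀ v : ι → ℝ, f v = ∑ l, f (Pi.single l 1) * v l := by
    intro v
    conv_lhs => rw [show v = ∑ l, v l • (Pi.single l (1 : ℝ) : ι → ℝ) from by
      funext j; simp [Finset.sum_apply, Pi.single_apply]]
    rw [map_sum]
    exact Finset.sum_congr rfl fun l _ => by rw [map_smul, smul_eq_mul, mul_comm]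
  apply hf
  rw [hfa]
  refine h _ fun s hs ha => ?_
  rw [← hfa (r s)]
  have : f (r s) ∈ Submodule.map f (Submodule.span ℝ {v : ι → ℝ | ∃ s, P s ∧ Q s ∧ v = r s}) :=
    Submodule.mem_map_of_mem (Submodule.subset_span ⟨s, hs, ha, rfl⟩)
  rw [hf0] at this
  simpa using this

/-- The main statement without the assumption that `ℚ` is algebraically closed in `L`. -/
theorem nf_of_blocks (hG : St_G0) (hZE : St_ZE) (hZG : St_ZG) (hLAW : St_ZLAW) (hZONE : St_ZONE)
    (hPAR : St_ZPAR) (hZF : St_ZF) (hS : St_S) (L : Type) [Field L] [Algebra ℚ L] (n : ℕ)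
    (y : Fin (n + 1) → L) (h1 : Algebra.trdeg ℚ L = 1)
    (h2 : IntermediateField.adjoin ℚ
      (Set.range fun q : Fin (n + 1) × Fin (n + 1) => y q.1 / y q.2) = ⊤)
    (ω) (hω : RegForm y ω) (ι : Type) [Fintype ι] (γ : ι → Loop y) :
    (fun l => (period ω (γ l)).im) ∈ Submodule.span ℝ
      {r : ι → ℝ | ∃ s : List (Lˣ × Lˣ), Integral s ∧ (∀ l, Avoids s (γ l)) ∧
        r = fun l => reg s (γ l)} := by
  refine NFFin.span_of_dual _ _ _ _ fun a hreg => ?_
  obtain ⟨B, _, _, _, d, _, Γ, μ, hW, hI⟩ := hG L n y ⟨h1, h2⟩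
  exact ZZ.main stR0 hZE hZG hLAW hZONE hPAR hZF hS stK_all stAP Γ μ hW hI ω hω ι γ a hreg

end Pool.Agent.Lib.BK2
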