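import Pool.Agent.Lib.BK2.NFBlue
import Pool.Agent.Lib.BK2.MERT

/-! The Mertens estimate from the point count. -/

open Polynomial Finset

noncomputable section

namespace Pool.Agent.Lib.BK2

namespace WMert

theorem tail {s : ℝ} (hs : 0 < s) : ∃ K : ℝ, 0 ≤ K ∧ ∀ Y : ℝ, 2 ≤ Y → ∀ S : Finset ℕ,
    (∀ n ∈ S, Y ≤ n) → ∑ n ∈ S, (n : ℝ) ^ (-1 - s) ≤ K / Real.log Y := by
  have h1 : Summable fun n : ℕ => (n : ℝ) ^ (-1 - s / 2) :=
    Real.summable_nat_rpow.2 (by linarith)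
  have h0 : 0 ≤ ∑' n : ℕ, (n : ℝ) ^ (-1 - s / 2) := tsum_nonneg fun n => by positivity
  refine ⟨(∑' n : ℕ, (n : ℝ) ^ (-1 - s / 2)) * (2 / s), by positivity, fun Y hY S hS => ?_⟩
  have hl : 0 < Real.log Y := Real.log_pos (by linarith)
  have h2 : Real.log Y ≤ Y ^ (s / 2) / (s / 2) := Real.log_le_rpow_div (by linarith) (by linarith)
  have h3 : 0 < Y ^ (s / 2) := by positivity
  have h4 : Y ^ (-(s / 2)) ≤ 2 / s / Real.log Y := by
    rw [Real.rpow_neg (by linarith), le_div_iff₀ hl, inv_mul_le_iff₀ h3]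
    calc Real.log Y ≤ _ := h2
      _ = _ := by field_simp
  calc ∑ n ∈ S, (n : ℝ) ^ (-1 - s) ≤ ∑ n ∈ S, (n : ℝ) ^ (-1 - s / 2) * Y ^ (-(s / 2)) := by
        refine sum_le_sum fun n hn => ?_
        have hn0 : (0 : ℝ) < n := by linarith [hS n hn]
        rw [show -1 - s = -1 - s / 2 + -(s / 2) by ring, Real.rpow_add hn0]
        exact mul_le_mul_of_nonneg_left
          (Real.rpow_le_rpow_of_nonpos (by linarith) (hS n hn) (by linarith)) (by positivity)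
    _ ≤ (∑' n : ℕ, (n : ℝ) ^ (-1 - s / 2)) * (2 / s / Real.log Y) := by
        rw [← sum_mul]
        exact mul_le_mul (h1.sum_le_tsum _ fun n _ => by positivity) h4 (by positivity) h0
    _ = _ := by ring

theorem mem_ge {Y z : ℝ} {n : ℕ} (h : n ∈ (Ioc ⌊Y⌋₊ ⌊z⌋₊).filter Nat.Prime) : Y ≤ n := by
  have h1 : ⌊Y⌋₊ + 1 ≤ n := (mem_Ioc.1 (mem_filter.1 h).1).1
  have h2 : ((⌊Y⌋₊ + 1 : ℕ) : ℝ) ≤ n := by exact_mod_cast h1
  push_cast at h2
  linarith [Nat.lt_floor_add_one Y]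

/-- comparison of the point count with a multiple of `p` -/
theorem cmp (a r : ℕ → ℝ) {K θ : ℝ} (hθ : θ < 1)
    (h : ∀ p : ℕ, p.Prime → |a p - r p * p| ≤ K * (p : ℝ) ^ θ) :
    ∃ K' : ℝ, ∀ Y z : ℝ, 2 ≤ Y →
      |∑ p ∈ (Ioc ⌊Y⌋₊ ⌊z⌋₊).filter Nat.Prime, a p / (p : ℝ) ^ 2 -
        ∑ p ∈ (Ioc ⌊Y⌋₊ ⌊z⌋₊).filter Nat.Prime, r p / p| ≤ K' / Real.log Y := by
  obtain ⟨K₁, -, hK₁⟩ := tail (s := 1 - θ) (by linarith)
  refine ⟨|K| * K₁, fun Y z hY => ?_⟩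
  rw [← sum_sub_distrib, mul_div_assoc]
  refine (abs_sum_le_sum_abs _ _).trans (le_trans ?_ (mul_le_mul_of_nonneg_left
    (hK₁ Y hY _ fun n hn => mem_ge (z := z) hn) (abs_nonneg _)))
  rw [mul_sum]
  refine sum_le_sum fun p hp => ?_
  have hp' := (mem_filter.1 hp).2
  have hp0 : (0 : ℝ) < p := by exact_mod_cast hp'.pos
  have h1 : a p / (p : ℝ) ^ 2 - r p / p = (a p - r p * p) / (p : ℝ) ^ 2 := by field_simp
  have h2 : (p : ℝ) ^ (-1 - (1 - θ)) = (p : ℝ) ^ θ / (p : ℝ) ^ 2 := by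
    rw [show -1 - (1 - θ) = θ - (2 : ℕ) by push_cast; ring, Real.rpow_sub_natCast hp0.ne']
  rw [h1, h2, abs_div, abs_of_pos (a := (p : ℝ) ^ 2) (by positivity), ← mul_div_assoc]
  exact div_le_div_of_nonneg_right ((h p hp').trans
    (mul_le_mul_of_nonneg_right (le_abs_self _) (by positivity))) (by positivity)

end WMert

theorem stWM : St_WM := by
  intro B _ _ d _ Γ ⟨K, θ, hθ, h⟩
  obtain ⟨K', hK'⟩ := WMert.cmp (fun p => (Nat.card (B →+* ZMod p) : ℝ)) (fun _ => 1) hθ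
    (K := K) (fun p hp => by rw [one_mul]; exact h p hp)
  refine ⟨K' + 22, fun Y z hY hz => ?_⟩
  have h1 := abs_le.1 (hK' Y z hY)
  have h2 := abs_le.1 (mert_two hY hz)
  rw [add_div, abs_le]
  constructor <;> linarith [h1.1, h1.2, h2.1, h2.2]

end Pool.Agent.Lib.BK2
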