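import Pool.Agent.Lib.BK2.NFG
import Pool.Agent.Lib.BK2.WMert
import Pool.Agent.Lib.BK2.GEO
import Pool.Agent.Lib.BK2.PLANE

open Polynomial NumberField

namespace Pool.Agent.Lib.BK2

/-- Section G over a number field from its blocks. -/
theorem stG0_of (h1 : St_CONST) (h2 : St_CNTK) (h3 : St_MK2) (h4 : St_IRRK) : St_G0 := by
  intro L _ _ n y hy
  obtain ⟨B, i1, i2, i3, d, i4, Γ, ⟨μ⟩⟩ := GEO.geo y hy.1 hy.2
  obtain ⟨π⟩ := stPLANE B d Γ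
  obtain ⟨K, j1, j2, ⟨c⟩⟩ := h1 B d Γ π
  refine ⟨B, i1, i2, i3, d, i4, Γ, μ, ?_, h4 B d Γ π K c⟩
  obtain ⟨A, hA⟩ := h2 B d Γ π K c
  obtain ⟨A', hA'⟩ := h3 K
  obtain ⟨K', hK'⟩ := WMert.cmp (fun p => (Nat.card (B →+* ZMod p) : ℝ))
    (fun p => (Nat.card (𝓞 K →+* ZMod p) : ℝ)) (θ := 1 / 2) (by norm_num) (K := A)
    (fun p hp => by rw [← Real.sqrt_eq_rpow]; exact hA p hp)
  refine ⟨K' + A', fun Y z hY hz => ?_⟩
  have h1 := abs_le.1 (hK' Y z hY)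
  have h2 := abs_le.1 (hA' Y z hY hz)
  rw [add_div, abs_le]
  constructor <;> linarith [h1.1, h1.2, h2.1, h2.2]

end Pool.Agent.Lib.BK2
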