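import Pool.Agent.Lib.BK2.NFG
import Pool.Agent.Lib.BK2.IRR

/-! Congruence conditions that force irreducible norms, constants a number field. -/

open Polynomial

noncomputable section

namespace Pool.Agent.Lib.BK2

namespace NFIRRK

theorem res_ne {P : ℤ[X]} (h : (P.map (Int.castRingHom ℚ)).Separable) :
    resultant P (derivative P) P.natDegree (P.natDegree - 1) ≠ 0 := by
  intro h0
  have h1 := resultant_ne_zero _ _ h
  rw [natDegree_derivative, natDegree_map_eq_of_injective (Int.castRingHom ℚ).injective_int,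
    derivative_map, resultant_map_map, h0, map_zero] at h1
  exact h1 rfl

theorem sep_of {k : Type} [Field k] (φ : ℤ →+* k) {P N : ℤ[X]} {n : ℕ} (hn : n ≠ 0)
    (hN : N.natDegree ≤ n) (h : N.map φ = P.map φ)
    (hr : φ (resultant P (derivative P) n (n - 1)) ≠ 0) :
    (N.map (Int.castRingHom ℚ)).Separable ∧ N.map φ ≠ 0 := by
  rw [← resultant_map_map, ← derivative_map, ← h, derivative_map, resultant_map_map] at hr
  obtain ⟨a, b, -, -, e⟩ := exists_mul_add_mul_eq_C_resultant N (derivative N) hN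
    ((natDegree_derivative_le N).trans (Nat.sub_le_sub_right hN 1)) (.inl hn)
  constructor
  · have h0 : ((resultant N (derivative N) n (n - 1) : ℤ) : ℚ) ≠ 0 := fun h0 =>
      hr (by rw [Int.cast_eq_zero.1 h0, map_zero])
    have e1 := congrArg (Polynomial.map (Int.castRingHom ℚ)) e
    rw [map_C, eq_intCast] at e1
    simp only [Polynomial.map_add, Polynomial.map_mul, ← derivative_map] at e1
    refine ⟨C ((resultant N (derivative N) n (n - 1) : ℤ) : ℚ)⁻¹ * a.map (Int.castRingHom ℚ),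
      C ((resultant N (derivative N) n (n - 1) : ℤ) : ℚ)⁻¹ * b.map (Int.castRingHom ℚ), ?_⟩
    rw [mul_assoc, mul_assoc, ← mul_add, mul_comm (a.map _), mul_comm (b.map _), e1, ← C_mul,
      inv_mul_cancel₀ h0, C_1]
  · intro h0
    have e1 := congrArg (Polynomial.map φ) e
    simp only [Polynomial.map_add, Polynomial.map_mul, map_C, ← derivative_map, h0,
      derivative_zero, zero_mul, add_zero] at e1
    exact hr (C_eq_zero.1 e1.symm)

end NFIRRK

theorem stIRRK (h1 : St_EISK) (h2 : St_SEP) : St_IRRK := by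
  intro B _ _ _ d _ Γ π K _ _ c
  obtain ⟨c₀, h1⟩ := h1 B d Γ π K c
  obtain ⟨m₁, h2⟩ := h2 B d Γ π
  refine ⟨c₀ + m₁ + 1, fun m hm Q hQ => ?_⟩
  have hd : 0 < d := Nat.pos_of_ne_zero (NeZero.ne d)
  have hmd : m ≤ m * d := Nat.le_mul_of_pos_right _ hd
  obtain ⟨e₂, hd₂, hs₂⟩ := h2 m (by omega)
  have hρ := NFIRRK.res_ne hs₂
  rw [hd₂] at hρ
  obtain ⟨q, hq, hNq, h1⟩ := h1 (Q + 1)
  obtain ⟨e₁, he₁⟩ := h1 m (by omega)
  obtain ⟨q₁, hq₁, hq₁p⟩ := Nat.exists_infinite_primes (q + 1)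
  obtain ⟨q₂, hq₂, hq₂p⟩ := Nat.exists_infinite_primes (q₁ + 1 + (resultant (Γ.nrm (Γ.el e₂))
    (derivative (Γ.nrm (Γ.el e₂))) (m * d) (m * d - 1)).natAbs)
  have := Fact.mk hq₂p
  have := Fact.mk hq₁p
  have := Fact.mk hq
  have hρ' : Int.castRingHom (ZMod q₂) (resultant (Γ.nrm (Γ.el e₂))
      (derivative (Γ.nrm (Γ.el e₂))) (m * d) (m * d - 1)) ≠ 0 := fun h =>
    hρ (Int.eq_zero_of_dvd_of_natAbs_lt_natAbs ((ZMod.intCast_zmod_eq_zero_iff_dvd _ _).1 h)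
      (by rw [Int.natAbs_natCast]; omega))
  obtain ⟨l, hl1, hl2, hl3⟩ := IRR.exists_irr q₁ (m := m) (by omega)
  have c0 : q₂.Coprime Q := Nat.coprime_of_lt_prime hQ.ne' (by omega) hq₂p
  have c1 : q₁.Coprime (q₂ * Q) :=
    Nat.Coprime.mul_right ((Nat.coprime_primes hq₁p hq₂p).2 (by omega))
      (Nat.coprime_of_lt_prime hQ.ne' (by omega) hq₁p)
  have c2 : (q ^ 2).Coprime (q₁ * (q₂ * Q)) :=
    (Nat.Coprime.mul_right ((Nat.coprime_primes hq hq₁p).2 (by omega))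
      (Nat.Coprime.mul_right ((Nat.coprime_primes hq hq₂p).2 (by omega))
        (Nat.coprime_of_lt_prime hQ.ne' (by omega) hq))).pow_left 2
  choose u hu1 hu2 using fun i => IRR.crt c0 (e₂ i) (Γ.co m (algebraMap ℤ[X] B 1) i)
  choose y hy1 hy2 using fun i => IRR.crt c1 (Γ.co m (algebraMap ℤ[X] B l) i) (u i)
  choose z hz1 hz2 using fun i => IRR.crt c2 (e₁ i) (y i)
  refine ⟨q ^ 2 * (q₁ * (q₂ * Q)), z,
    Nat.mul_pos (pow_pos hq.pos 2) (Nat.mul_pos hq₁p.pos (Nat.mul_pos hq₂p.pos hQ)),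
    ((dvd_mul_left _ _).mul_left _).mul_left _, fun e he => ?_⟩
  have hA := he₁ e fun i => by
    simpa using ((he i).of_dvd (Int.natCast_dvd_natCast.2 (dvd_mul_right _ _))).trans (hz1 i)
  have hy : ∀ i, e i ≡ y i [ZMOD (q₁ * (q₂ * Q) : ℕ)] := fun i =>
    ((he i).of_dvd (Int.natCast_dvd_natCast.2 (dvd_mul_left _ _))).trans (hz2 i)
  have hu : ∀ i, e i ≡ u i [ZMOD (q₂ * Q : ℕ)] := fun i =>
    ((hy i).of_dvd (Int.natCast_dvd_natCast.2 (dvd_mul_left _ _))).trans (hy2 i)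
  have hB := IRR.nrm_cong Γ q₁ hl1.le fun i =>
    ((hy i).of_dvd (Int.natCast_dvd_natCast.2 (dvd_mul_right _ _))).trans (hy1 i)
  have hdeg := (NRM.c1 Γ (Γ.el_mem e)).1
  have hS := NFIRRK.sep_of _ (by omega) hdeg (NRM.c10 Γ q₂ _ (Γ.el e₂) (by
    choose v hv using fun i => (((hu i).of_dvd
      (Int.natCast_dvd_natCast.2 (dvd_mul_right _ _))).trans (hu1 i)).symm.dvd
    refine ⟨Γ.el v, ?_⟩
    rw [← Γ.el_sub, ← Int.cast_natCast, ← zsmul_eq_mul, ← Γ.el_smul]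
    exact congrArg _ (funext hv))) hρ'
  have hC := IRR.irr (r := m * d - c₀) _ hl2 hd.ne' hB (hl3.symm ▸ hdeg) (by rw [hl3]; omega)
    fun P₁ P₂ h => (hA.2 hS.1 P₁ P₂ h).imp (by omega) (by omega)
  rw [hl3] at hC
  refine ⟨hC.1, hC.2, fun p hp hpM => ?_⟩
  have := Fact.mk hp
  rcases (Nat.Prime.dvd_mul hp).1 hpM with h | h
  · obtain rfl := (Nat.prime_dvd_prime_iff_eq hp hq).1 (hp.dvd_of_dvd_pow h)
    exact hA.1
  rcases (Nat.Prime.dvd_mul hp).1 h with h | h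
  · obtain rfl := (Nat.prime_dvd_prime_iff_eq hp hq₁p).1 h
    exact hB ▸ pow_ne_zero _ hl2.ne_zero
  rcases (Nat.Prime.dvd_mul hp).1 h with h | h
  · obtain rfl := (Nat.prime_dvd_prime_iff_eq hp hq₂p).1 h
    exact hS.2
  · rw [IRR.nrm_cong Γ p (g := 1) (by simp) fun i =>
      (((hu i).of_dvd (Int.natCast_dvd_natCast.2 (dvd_mul_left _ _))).trans (hu2 i)).of_dvd
        (Int.natCast_dvd_natCast.2 h)]
    simp

end Pool.Agent.Lib.BK2
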