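import Pool.Agent.Lib.BK2.NDefs

/-! Block LAT: the lattices cut out by an order and their covolumes. -/

namespace Pool.Agent.Lib.BK2.NT

open NumberField Module

namespace LAT

variable {K : Type} [Field K] [NumberField K]

/-- the embedding as an additive map -/
noncomputable def eA (K : Type) [Field K] [NumberField K] : K →+ EK K where
  toFun := emb
  map_zero' := funext fun w => map_zero w.embedding
  map_add' x y := funext fun w => map_add w.embedding x y

/-- full lattices -/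
def Full (M : AddSubgroup K) : Prop := Submodule.IsLattice ℚ M.toIntSubmodule

/-- the image in the archimedean space -/
noncomputable def im (M : AddSubgroup K) : Submodule ℤ (EK K) := Submodule.span ℤ (emb '' M)

/-- multiples -/
def mu (d : ℕ) (M : AddSubgroup K) : AddSubgroup K := M.map (nsmulAddMonoidHom d)

omit [NumberField K] in
theorem mem_mu {d : ℕ} {M : AddSubgroup K} {x : K} : x ∈ mu d M ↔ ∃ b ∈ M, x = d * b := by
  simp only [mu, AddSubgroup.mem_map, nsmulAddMonoidHom_apply, nsmul_eq_mul, eq_comm]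

theorem im_eq (M : AddSubgroup K) : im M = (M.map (eA K)).toIntSubmodule :=
  Submodule.span_eq (M.map (eA K)).toIntSubmodule

theorem mem_im {M : AddSubgroup K} {x : EK K} : x ∈ im M ↔ ∃ g ∈ M, x = emb g := by
  rw [im_eq]
  exact ⟨fun ⟨g, hg, e⟩ => ⟨g, hg, e.symm⟩, fun ⟨g, hg, e⟩ => ⟨g, hg, e.symm⟩⟩

theorem Full.of_le {M N : AddSubgroup K} (hN : Full N) (hle : M ≤ N) {m : ℕ} (hm : m ≠ 0)
    (h : ∀ x ∈ N, (m : K) * x ∈ M) : Full M := by
  refine ⟨hN.fg.of_le hle, top_unique (hN.span_eq_top.ge.trans (Submodule.span_le.2 fun x hx => ?_))⟩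
  have e : x = (m : ℚ)⁻¹ • ((m : K) * x) := by
    rw [← nsmul_eq_mul, ← Nat.cast_smul_eq_nsmul ℚ, smul_smul, inv_mul_cancel₀ (Nat.cast_ne_zero.2 hm),
      one_smul]
  rw [e]
  exact Submodule.smul_mem _ _ (Submodule.subset_span (h x hx))

theorem Full.mu {M : AddSubgroup K} (hM : Full M) {d : ℕ} (hd : d ≠ 0) : Full (mu d M) :=
  hM.of_le (fun x hx => by
    obtain ⟨b, hb, rfl⟩ := mem_mu.1 hx
    rw [← nsmul_eq_mul]
    exact M.nsmul_mem hb d) hd fun x hx => mem_mu.2 ⟨x, hx, rfl⟩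

theorem Full.rank {M : AddSubgroup K} (hM : Full M) : finrank ℤ M.toIntSubmodule = rk K := by
  have : Submodule.IsLattice ℚ M.toIntSubmodule := hM
  rw [finrank, Submodule.IsLattice.rank' ℚ M.toIntSubmodule]
  rfl

theorem Full.basis {M : AddSubgroup K} (hM : Full M) :
    ∃ b : Basis (Fin (rk K)) ℚ K, M = .closure (Set.range b) := by
  have : Submodule.IsLattice ℚ M.toIntSubmodule := hM
  let b := finBasisOfFinrankEq ℤ M.toIntSubmodule hM.rank
  refine ⟨b.extendOfIsLattice ℚ, AddSubgroup.toIntSubmodule.injective ?_⟩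
  rw [AddSubgroup.toIntSubmodule_closure]
  have e : Set.range (b.extendOfIsLattice ℚ) = M.toIntSubmodule.subtype '' Set.range b := by
    rw [← Set.range_comp]
    exact congrArg Set.range (funext fun i => b.extendOfIsLattice_apply ℚ i)
  rw [e, ← Submodule.map_span, b.span_eq, Submodule.map_subtype_top]

theorem Full.index_mu {M : AddSubgroup K} (hM : Full M) (d : ℕ) :
    (LAT.mu d M).relIndex M = d ^ rk K := by
  have : Submodule.IsLattice ℚ M.toIntSubmodule := hM
  rw [← hM.rank]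
  exact AddSubgroup.relIndex_map_nsmul d M

theorem exists_rb (hE : St_EMB) (hK : IsTotallyComplex K) (b : Basis (Fin (rk K)) ℚ K) :
    ∃ B : Basis (Fin (rk K)) ℝ (EK K), (∀ i, B i = emb (b i)) ∧
      im (.closure (Set.range b)) = Submodule.span ℤ (Set.range B) := by
  obtain ⟨-, h2, h3, -⟩ := hE K hK
  have : Nonempty (Fin (rk K)) := ⟨⟨0, finrank_pos⟩⟩
  let B := basisOfLinearIndependentOfCardEqFinrank (h3 _ b b.linearIndependent)
    ((Fintype.card_fin _).trans h2.symm)
  have hB : ∀ i, B i = emb (b i) := fun i =>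
    congrFun (coe_basisOfLinearIndependentOfCardEqFinrank _ _) i
  refine ⟨B, hB, ?_⟩
  rw [im_eq, AddMonoidHom.map_closure, AddSubgroup.toIntSubmodule_closure, ← Set.range_comp]
  exact congrArg (fun f => Submodule.span ℤ (Set.range f)) (funext fun i => (hB i).symm)

theorem Full.lat (hE : St_EMB) (hK : IsTotallyComplex K) {M : AddSubgroup K} (hM : Full M) :
    ∃ _ : DiscreteTopology (im M), IsZLattice ℝ (im M) := by
  obtain ⟨b, rfl⟩ := hM.basis
  obtain ⟨B, -, e⟩ := exists_rb hE hK b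
  rw [e]
  exact ⟨inferInstance, inferInstance⟩

theorem Full.cov (hE : St_EMB) (hK : IsTotallyComplex K) {M N : AddSubgroup K} (hM : Full M)
    (hN : Full N) (h : M ≤ N) :
    ZLattice.covolume (im M) = M.relIndex N * ZLattice.covolume (im N) := by
  obtain ⟨b, eb⟩ := hM.basis
  obtain ⟨c, ec⟩ := hN.basis
  have hi := AddSubgroup.relIndex_eq_abs_det M N h b c eb ec
  obtain ⟨B, hB, e⟩ := exists_rb hE hK b
  obtain ⟨C, hC, e'⟩ := exists_rb hE hK c
  have hr : ∀ x i, C.repr (emb x) i = (c.repr x i : ℝ) := fun x i => by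
    have h1 : emb x = ∑ j, (c.repr x j : ℝ) • C j := by
      have := congrArg (eA K) (c.sum_repr x)
      rw [map_sum] at this
      refine this.symm.trans (Finset.sum_congr rfl fun j _ => ?_)
      rw [map_rat_smul, hC, Rat.cast_smul_eq_qsmul]
      rfl
    rw [h1, C.repr_sum_self]
  have hd : C.det B = ((c.det b : ℚ) : ℝ) := by
    rw [Basis.det_apply, Basis.det_apply, Rat.cast_det]
    refine congrArg Matrix.det (Matrix.ext fun i j => ?_)
    rw [Matrix.map_apply, Basis.toMatrix_apply, Basis.toMatrix_apply, hB, hr]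
  have hi' : (M.relIndex N : ℝ) = |C.det B| := by
    rw [hd, ← Rat.cast_abs, ← hi, Rat.cast_natCast]
  rw [hi', eb, ec, e, e', ZLattice.covolume_eq_measure_fundamentalDomain _ _
    (ZSpan.isAddFundamentalDomain B _), ZLattice.covolume_eq_measure_fundamentalDomain _ _
    (ZSpan.isAddFundamentalDomain C _), ZSpan.measureReal_fundamentalDomain B _ C,
    ZSpan.measureReal_fundamentalDomain C _ C, Basis.det_self, abs_one, one_mul]

/-- the additive group of a fractional ideal -/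
def ad (A : FI K) : AddSubgroup K := (A.1 : Submodule (RingOfIntegers K) K).toAddSubgroup

theorem mem_ad {A : FI K} {x : K} : x ∈ ad A ↔ x ∈ A.1 := Iff.rfl

theorem full_ad (A : FI K) : Full (ad A) := by
  have e : (ad A).toIntSubmodule = Submodule.span ℤ (Set.range (basisOfFractionalIdeal K A)) :=
    Submodule.ext fun x => (mem_span_basisOfFractionalIdeal K).symm
  rw [Full, e]
  exact ⟨Submodule.fg_span (Set.finite_range _), by
    rw [Submodule.span_span_of_tower, Basis.span_eq]⟩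

theorem mul_mem {A : FI K} {s x : K} (hs : s ∈ (A⁻¹ : FI K).1) (hx : x ∈ A.1) :
    s * x ∈ (1 : FI K).1 := by
  have := FractionalIdeal.mul_mem_mul hs hx
  rwa [← Units.val_mul, inv_mul_cancel] at this

theorem int_of_mem {x : K} (hx : x ∈ (1 : FI K).1) : IsIntegral ℤ x := by
  obtain ⟨y, rfl⟩ := (FractionalIdeal.mem_one_iff _).1 hx
  exact y.isIntegral_coe

theorem index_ad {A : FI K} {s : ℕ} (hs : (s : K) ∈ (A⁻¹ : FI K).1) :
    ((mu s (ad A)).relIndex (ad 1) : ℝ) = (s : ℝ) ^ rk K * nI A := by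
  have hm : ∀ x, x ∈ FractionalIdeal.spanSingleton (nonZeroDivisors (RingOfIntegers K)) (s : K) * A.1
      ↔ x ∈ mu s (ad A) := fun x => by
    rw [FractionalIdeal.mem_singleton_mul, mem_mu]
    rfl
  obtain ⟨I, hI⟩ := FractionalIdeal.le_one_iff_exists_coeIdeal.1
    (show FractionalIdeal.spanSingleton (nonZeroDivisors (RingOfIntegers K)) (s : K) * A.1 ≤ 1 from
      fun x hx => by
        obtain ⟨b, hb, rfl⟩ := mem_mu.1 ((hm x).1 hx)
        exact mul_mem hs hb)
  let f : RingOfIntegers K →+ K := (algebraMap (RingOfIntegers K) K).toAddMonoidHom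
  have e1 : mu s (ad A) = I.toAddSubgroup.map f := AddSubgroup.ext fun x => by
    rw [← hm, ← hI, FractionalIdeal.mem_coeIdeal]
    rfl
  have e2 : ad (1 : FI K) = (⊤ : AddSubgroup (RingOfIntegers K)).map f :=
    AddSubgroup.ext fun x => ((FractionalIdeal.mem_one_iff (nonZeroDivisors (RingOfIntegers K))).trans
      ⟨fun ⟨y, e⟩ => ⟨y, trivial, e⟩, fun ⟨y, _, e⟩ => ⟨y, e⟩⟩)
  have e3 := congrArg FractionalIdeal.absNorm hI
  rw [FractionalIdeal.coeIdeal_absNorm, map_mul, FractionalIdeal.absNorm_span_singleton,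
    Algebra.norm_natCast, abs_of_nonneg (by positivity)] at e3
  rw [e1, e2, AddSubgroup.relIndex_map_map_of_injective _ _ RingOfIntegers.coe_injective,
    AddSubgroup.relIndex_top_right, ← Ideal.absNorm_eq_index, nI]
  exact_mod_cast e3

variable {D : ND K}

theorem index_mu (hD : D.OK) {s : ℕ} (hs : s.Coprime D.F) (h0 : s ≠ 0) (M : AddSubgroup K) :
    D.R.toAddSubgroup.relIndex (mu s M) = D.R.toAddSubgroup.relIndex M := by
  rw [mu, ← AddSubgroup.relIndex_comap]
  refine congrArg (fun H : AddSubgroup K => H.relIndex M) (AddSubgroup.ext fun x => ?_)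
  change s • x ∈ D.R ↔ x ∈ D.R
  refine ⟨fun h => ?_, fun h => nsmul_mem h s⟩
  have := D.R.mul_mem (hD.inv s hs) h
  rwa [nsmul_eq_mul, inv_mul_cancel_left₀ (Nat.cast_ne_zero.2 h0)] at this

theorem index_R (hD : D.OK) {A : FI K} {s : ℕ} (hs : s.Coprime D.F) (h0 : s ≠ 0)
    (h1 : (s : K) ∈ A.1) (h2 : (s : K) ∈ (A⁻¹ : FI K).1) :
    D.R.toAddSubgroup.relIndex (ad A) = D.R.toAddSubgroup.relIndex (ad 1) := by
  have l1 : mu s (ad A) ≤ ad 1 := fun x hx => by
    obtain ⟨b, hb, rfl⟩ := mem_mu.1 hx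
    exact mul_mem h2 hb
  have l2 : mu s (ad 1) ≤ ad A := fun x hx => by
    obtain ⟨b, hb, rfl⟩ := mem_mu.1 hx
    have := FractionalIdeal.mul_mem_mul h1 (mem_ad.1 hb)
    rwa [← Units.val_mul, mul_one] at this
  have n1 : D.R.toAddSubgroup.relIndex (ad 1) ≠ 0 := by
    have l3 : mu D.F (ad (1 : FI K)) ≤ D.R.toAddSubgroup := fun x hx => by
      obtain ⟨b, hb, rfl⟩ := mem_mu.1 hx
      exact hD.cond b (int_of_mem hb)
    refine ne_zero_of_dvd_ne_zero ?_ (AddSubgroup.relIndex_dvd_of_le_left (ad 1) l3)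
    rw [(full_ad 1).index_mu]
    exact pow_ne_zero _ hD.Fpos.ne'
  have n2 : D.R.toAddSubgroup.relIndex (ad A) ≠ 0 := fun h =>
    n1 (AddSubgroup.relIndex_eq_zero_of_le_right l1 ((index_mu hD hs h0 _).trans h))
  exact le_antisymm ((index_mu hD hs h0 _).ge.trans (AddSubgroup.relIndex_le_of_le_right l1 n1))
    ((index_mu hD hs h0 _).ge.trans (AddSubgroup.relIndex_le_of_le_right l2 n2))

theorem lam_eq (D : ND K) (A : FI K) (d : ℕ) :
    D.Cls A d 0 = (mu d (ad A ⊓ D.R.toAddSubgroup) : Set K) := by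
  ext x
  rw [SetLike.mem_coe, mem_mu]
  simp only [ND.Cls, Set.mem_ofPred_eq, zero_add]
  rfl

theorem full_L (hD : D.OK) {A : FI K} {s : ℕ} (h0 : s ≠ 0) (h2 : (s : K) ∈ (A⁻¹ : FI K).1) :
    Full (ad A ⊓ D.R.toAddSubgroup) := by
  refine (full_ad A).of_le inf_le_left (mul_ne_zero hD.Fpos.ne' h0) fun x hx => ⟨?_, ?_⟩
  · rw [← nsmul_eq_mul]
    exact (ad A).nsmul_mem hx _
  · rw [Nat.cast_mul, mul_assoc]
    exact hD.cond _ (int_of_mem (mul_mem h2 hx))

end LAT

open LAT in
theorem stLAT (hE : St_EMB) : St_LAT := by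
  intro K _ _ D hD A d ⟨s, hs, h1, h2⟩ hd
  have h0 : s ≠ 0 := by
    rintro rfl
    have h3 := Nat.le_of_dvd hD.Fpos hD.QF
    have h4 := hD.Q3
    rw [Nat.coprime_zero_left] at hs
    omega
  have one : ((1 : ℕ) : K) ∈ ((1 : FI K)⁻¹ : FI K).1 := by
    rw [inv_one, Nat.cast_one]
    exact FractionalIdeal.one_mem_one _
  have fA := full_L hD h0 h2
  have f1 := full_L hD one_ne_zero one
  have eL : ∀ B e, D.Lam B e = im (mu e (ad B ⊓ D.R.toAddSubgroup)) := fun B e => by
    rw [ND.Lam, lam_eq]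
    rfl
  have hd0 : d ≠ 0 := by omega
  have le : ∀ (e : ℕ) (M : AddSubgroup K), mu e M ≤ M := fun e M x hx => by
    obtain ⟨b, hb, rfl⟩ := mem_mu.1 hx
    rw [← nsmul_eq_mul]
    exact M.nsmul_mem hb e
  rw [eL, eL, lam_eq]
  obtain ⟨i1, i2⟩ := (fA.mu hd0).lat hE hD.tc
  refine ⟨fun x => mem_im, i1, i2, ?_⟩
  have c1 := ((full_ad A).mu h0).cov hE hD.tc (full_ad A) (le _ _)
  have c2 := ((full_ad A).mu h0).cov hE hD.tc (full_ad 1) fun x hx => by
    obtain ⟨b, hb, rfl⟩ := mem_mu.1 hx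
    exact mul_mem h2 hb
  rw [c1, (full_ad A).index_mu, index_ad h2, Nat.cast_pow, mul_assoc] at c2
  have c3 := mul_left_cancel₀ (pow_ne_zero _ (Nat.cast_ne_zero.2 h0)) c2
  rw [(fA.mu hd0).cov hE hD.tc fA (le _ _), (f1.mu one_ne_zero).cov hE hD.tc f1 (le _ _),
    fA.index_mu, f1.index_mu, fA.cov hE hD.tc (full_ad A) inf_le_left,
    f1.cov hE hD.tc (full_ad 1) inf_le_left, AddSubgroup.inf_relIndex_left,
    AddSubgroup.inf_relIndex_left, index_R hD hs h0 h1 h2, c3]
  push_cast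
  ring

end Pool.Agent.Lib.BK2.NT
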