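import Pool.Agent.Lib.BK2.NTUP3

/-! The local limit theorem for one number field. -/

namespace Pool.Agent.Lib.BK2.NT

open Finset NumberField

namespace TUP

theorem nums (Ka K0 c0 η b1 b2 sb mb mS mM : ℝ) (hKa : 0 < Ka) (hK : 32 * Ka + 64 ≤ K0)
    (hc0 : 0 < c0) (hη : 0 < η) (hη2 : η ≤ 1 / 100) (hsb : η ≤ sb) (hb2 : b2 ≤ 1 / 100)
    (hKb : K0 * sb ≤ b2) (hmb : c0 ≤ mb) (m1 : mb * (1 - η) ≤ mS) (m2 : mS ≤ mb * (1 + η))
    (hM : (1 - Ka * sb) * mS ≤ mM) :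
    mb * (1 - (η + Ka * sb)) ≤ mM ∧ c0 / 2 ≤ mM ∧ (mS - mM) / mb ≤ K0 * sb := by
  have hsb0 : 0 ≤ sb := hη.le.trans hsb
  have hmb0 : 0 < mb := by linarith
  have h0 := mul_le_mul_of_nonneg_right hK hsb0
  have hy0 : 0 ≤ Ka * sb := by positivity
  have hy : Ka * sb ≤ 1 / 100 := by linarith
  have hm3 : mb * (1 - (η + Ka * sb)) ≤ mM := by
    refine le_trans ?_ hM
    refine le_trans ?_ (mul_le_mul_of_nonneg_left m1 (by linarith))
    linarith [mul_nonneg hmb0.le (mul_nonneg hη.le hy0)]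
  refine ⟨hm3, le_trans ?_ hm3, ?_⟩
  · have := mul_le_mul_of_nonneg_left (show 1 / 2 ≤ 1 - (η + Ka * sb) by linarith) hmb0.le
    linarith
  · rw [div_le_iff₀ hmb0]
    have h1 : Ka * sb * mS ≤ Ka * sb * (mb * (1 + η)) := mul_le_mul_of_nonneg_left m2 hy0
    have h2 : Ka * sb * mb * η ≤ Ka * sb * mb * 1 :=
      mul_le_mul_of_nonneg_left (by linarith) (by positivity)
    have h3 : 2 * Ka * (sb * mb) ≤ K0 * (sb * mb) :=
      mul_le_mul_of_nonneg_right (by linarith) (by positivity)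
    linarith

theorem eps (P j η T : ℝ) (hj : 1 ≤ j) (hP : 56 * j ≤ P) (hη : 0 < η) (hη2 : η ≤ 1 / 100)
    (hT0 : 1 < T) (hT : (P / η) ^ 2 ≤ T) :
    0 < η / (P * Real.sqrt T) ∧ η / (P * Real.sqrt T) ≤ 1 ∧
      1 / T ≤ 7 * j * (η / (P * Real.sqrt T)) ∧ 7 * j * (η / (P * Real.sqrt T)) ≤ 1 / 8 ∧
      P * (η / (P * Real.sqrt T)) = η * (1 / Real.sqrt T) := by
  have hP0 : 0 < P := by linarith
  have hT1 : 0 < T := by linarith
  have hsT : P / η ≤ Real.sqrt T := Real.le_sqrt_of_sq_le hT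
  have hs1 : 1 ≤ Real.sqrt T := Real.one_le_sqrt.2 hT0.le
  have hs0 : 0 < Real.sqrt T := by linarith
  have he : P * (η / (P * Real.sqrt T)) = η * (1 / Real.sqrt T) := by field_simp
  have h0 : 0 < η / (P * Real.sqrt T) := by positivity
  have h1 : η / (P * Real.sqrt T) * T = Real.sqrt T / (P / η) := by
    field_simp
    rw [Real.sq_sqrt hT1.le]
  have h2 : 1 ≤ η / (P * Real.sqrt T) * T := by
    rw [h1]; exact (one_le_div (by positivity)).2 hsT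
  have h3 : P * (η / (P * Real.sqrt T)) ≤ η := by
    rw [he]; exact mul_le_of_le_one_right hη.le (div_le_one_of_le₀ hs1 hs0.le)
  generalize η / (P * Real.sqrt T) = e at h0 h2 h3 he ⊢
  have h4 := mul_le_mul_of_nonneg_right hP h0.le
  have h5 := mul_le_mul_of_nonneg_right hj h0.le
  refine ⟨h0, by linarith, ?_, by linarith, he⟩
  rw [div_le_iff₀ hT1]
  have := mul_le_mul_of_nonneg_right hj (show 0 ≤ e * T by positivity)
  linarith

theorem eta_le (η b1 : ℝ) (hη : 0 < η) (hη2 : η ≤ 1 / 100) (hb : 0 < b1) :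
    η ≤ Real.sqrt (b1 + η) := Real.le_sqrt_of_sq_le (by nlinarith)

end TUP

open TUP

theorem stTUP (hBas : St_BAS) (hE : St_EMB) (hFib : St_FIB) (hCnt : St_CNT) (hGrp : St_GRP)
    (hGrid : St_GRID) (hRo : St_ROUGH) (hFr : St_FRAME) (hDe : St_DENS) (hDi : St_DIST)
    (hTU : St_TUPU) (hTL : St_TUPL) (hAl : St_ALLT) (hMo : St_MOD) : St_TUP := by
  classical
  intro n u c0 hc0
  obtain ⟨j, Cr, T0r, hj, hCr, hRo⟩ := hRo n u
  have hj' : (1 : ℝ) ≤ j := by exact_mod_cast hj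
  obtain ⟨C1, L0, P0, b0, Ka, hb0, hKa, hAl⟩ := hAl
    (2 * Cr * (7 * j) ^ n * (j : ℝ) ^ j / (c0 / 2) ^ j) (c0 / 2) j (by positivity) (by positivity) hj
  obtain ⟨cM, KM, k0, hcM, hKM, hk0, hMo⟩ := hMo c0 hc0
  obtain ⟨K0, hK1, hK2, hK4⟩ : ∃ K0 : ℝ, 4 / c0 * (1 + Cr / cM) ≤ K0 ∧
      2 * (3 * Ka + 2 * KM + 1) / cM + 4 * (2 * n + 4 : ℕ) * (2 * Ka + 4) ≤ K0 ∧
      32 * Ka + 64 ≤ K0 := by
    have a1 : 0 ≤ 4 / c0 * (1 + Cr / cM) := by positivity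
    have a2 : 0 ≤ 2 * (3 * Ka + 2 * KM + 1) / cM := by positivity
    have a3 : (0 : ℝ) ≤ 4 * (2 * n + 4 : ℕ) * (2 * Ka + 4) := by positivity
    exact ⟨4 / c0 * (1 + Cr / cM) + (2 * (3 * Ka + 2 * KM + 1) / cM +
      4 * (2 * n + 4 : ℕ) * (2 * Ka + 4)) + (32 * Ka + 64), by linarith only [a2, a3, hKa],
      by linarith only [a1, hKa], by linarith only [a1, a2, a3]⟩
  obtain ⟨q, hq⟩ : C1.factorial ∣ (max C1 2).factorial :=
    Nat.factorial_dvd_factorial (le_max_left _ _)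
  refine ⟨max C1 2, P0 + 56 * j, k0 + 2 * j + 4 + ⌈n * (3 * |u| + 2)⌉₊,
    min b0 (min (c0 / 100) (1 / 100)), K0, le_max_right _ _, by positivity,
    by linarith only [hK4, hKa], ?_⟩
  intro P η hP hη hηb
  have hη1 : η ≤ c0 / 100 := hηb.trans ((min_le_right _ _).trans (min_le_left _ _))
  have hη2 : η ≤ 1 / 100 := hηb.trans ((min_le_right _ _).trans (min_le_right _ _))
  have hPj : (56 : ℝ) * j ≤ P := by exact_mod_cast (by omega : 56 * j ≤ P)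
  refine ⟨max (max T0r (Real.exp (3 * n / η + n + 1))) (max ((P / η) ^ 2)
    (max (8 * (n : ℝ) ^ 3 / η) (3 * P ^ 2 * (2 * n / c0) * Ka / η))), fun T hT => ?_⟩
  simp only [max_le_iff] at hT
  obtain ⟨⟨hT1, hT2⟩, hT3, hT4, hT5⟩ := hT
  have hT0 : 0 < T := lt_of_lt_of_le (Real.exp_pos _) hT2
  have hlog : 3 * n / η + n + 1 ≤ Real.log T := (Real.le_log_iff_exp_le hT0).2 hT2
  have hn0 : (0 : ℝ) ≤ n := Nat.cast_nonneg n
  have hnη : (0 : ℝ) ≤ 3 * n / η := div_nonneg (by linarith only [hn0]) hη.le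
  have hl0 : 0 < Real.log T := by linarith only [hlog, hn0, hnη]
  have hT1' : 1 < T := (Real.log_pos_iff hT0.le).1 hl0
  have hnl : 3 * n / Real.log T ≤ η := by
    rw [div_le_iff₀ hl0]
    have : 3 * n / η ≤ Real.log T := by linarith only [hlog, hn0]
    rw [div_le_iff₀ hη] at this
    linarith only [this]
  have hnl2 : (n : ℝ) < Real.log T := by linarith only [hlog, hnη]
  obtain ⟨he00, he2, he3, he4, he5⟩ := eps P j η T hj' hPj hη hη2 hT1' hT3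
  generalize η / (P * Real.sqrt T) = e0 at he00 he2 he3 he4 he5
  intro K _ _ D hrk hD hΔ ι κ S Pt p Sb wb ab mb Sg ε hW hmb hLb hcf hmom hSg hε
  subst hrk
  have hB := hBas K D hD
  obtain ⟨ρ0, hC⟩ := hCnt K D hD
  obtain ⟨M, hM⟩ := hGrp K D hD
  obtain ⟨δ, hG⟩ := hGrid K hD.tc M.b hM.lu.1 hM.lu.2.1
  obtain ⟨hR1, hR2⟩ := hRo K D M ρ0 δ T rfl hD hM hC hG hT1 hΔ
  obtain ⟨f, rfl, rfl, rfl, hf, hN1, hN0, hL0, hGr, hBne, hBc, hnear⟩ := hFr K D M δ T e0 η P L0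
    (C1 + 1 + P) hD hM hG hT1' (by omega) he00 he2 hη (by linarith only [hη2])
  have ha12 : ∀ x ∈ S, 1 ≤ Real.log (p x) / Real.log f.T ∧ Real.log (p x) / Real.log f.T ≤ 2 :=
    fun x hx => by
      obtain ⟨-, h1, h2⟩ := hW.1 x hx
      refine ⟨(one_le_div hl0).2 (Real.log_le_log hT0 h1), (div_le_iff₀ hl0).2 ?_⟩
      have := Real.log_le_log (hT0.trans_le h1) h2
      rwa [Real.log_pow, Nat.cast_ofNat] at this
  obtain ⟨m1, m2, hLaw, hch⟩ := norm_law S p (fun x => Real.log (p x) / Real.log f.T) Sb wb ab mb c0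
    η hc0 hmb hLb hη hη1 hη2 ha12 hmom
  have hmb0 : 0 < mb := hc0.trans_le hmb
  have hmS : c0 / 2 ≤ mass S p := by
    have := mul_le_mul_of_nonneg_left (show 1 / 2 ≤ 1 - η by linarith only [hη2]) hmb0.le
    linarith only [this, m1, hmb]
  have hmS0 : 0 < mass S p := by linarith only [hmS, hc0]
  have hrk1 : rk K - 1 + 1 = rk K := Nat.sub_add_cancel (Module.finrank_pos (R := ℚ) (M := K))
  obtain ⟨Z, hZ, hAl⟩ := hAl ι (GC K) M.H κ (rk K - 1) f.N1 f.P f.L1 S (wt S p)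
    (fun x => Real.log (p x) / Real.log f.T) f.B (fh M Pt)
    (fv f Pt) (fl f Pt) Sb wb ab η (2 * η) hN1 (by omega) (by omega) (by omega) hL0 hBne hLaw
    (law_mono hLb (by linarith only [hc0])) hη (by linarith only [hη])
    (fun x hx o ho i hi => by
      have h1 := hnear (Pt x) o ho i hi
      rw [(hB.pt _ _ (hW.1 x hx).1).2.2.2] at h1
      refine h1.trans (le_trans ?_ hnl)
      exact div_le_div_of_nonneg_right (mul_le_of_le_one_right (by linarith only [hn0]) he2) hl0.le)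
    (fun t ht => (norm_sub_le_norm_sub_add_norm_sub _ _ _).trans
      ((add_le_add (hch _) (hcf t ht)).trans (two_mul η).ge))
    (hDe K D M f δ Cr (c0 / 2) j ι S Pt p hD hM hf hR1 hG.1 hCr hj hW (half_pos hc0) hmS he3 he4
      (by omega) hnl2 hBc)
  refine ⟨Z, hZ.trans (le_max_left _ _), fun b1 b2 hb1 hb2 hKb hzone => ?_⟩
  have hb2' : b2 ≤ 1 / 100 := hb2.trans ((min_le_right _ _).trans (min_le_right _ _))
  have hηsb := eta_le η b1 hη hη2 hb1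
  obtain ⟨Mj, γ, hMS, hγ, -, hMw, hsup, hloc⟩ := hAl b1 b2 hb1 (hb2.trans (min_le_left _ _))
    ((mul_le_mul_of_nonneg_right (by linarith only [hK4, hKa]) (Real.sqrt_nonneg _)).trans hKb)
    hzone
  rw [wt_sum, le_div_iff₀ hmS0] at hMw
  have hMle : mass Mj p ≤ mass S p :=
    sum_le_sum_of_subset_of_nonneg hMS fun x _ _ => one_div_nonneg.2 (Nat.cast_nonneg _)
  obtain ⟨hm3, hm4, hm5⟩ := nums Ka K0 c0 η b1 b2 _ mb _ _ hKa hK4 hc0 hη hη2 hηsb hb2' hKb hmb m1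
    m2 hMw
  have hm0 : 0 < mass Mj p := (half_pos hc0).trans_le hm4
  have hMne : Mj.Nonempty := by
    rw [nonempty_iff_ne_empty]
    rintro rfl
    rw [mass, sum_empty] at hm0
    exact lt_irrefl _ hm0
  have hWM : Win D.F f.T Mj Pt p := ⟨fun x hx => hW.1 x (hMS hx), hW.2.mono (coe_subset.2 hMS)⟩
  refine ⟨Mj, hMS, ?_, fun k hk hCk hkP => ?_⟩
  · refine le_trans (le_of_eq ?_) hm5
    rw [mass, mass, ← sum_sdiff_eq_sub hMS, sum_div]
    exact sum_congr rfl fun x _ => by rw [div_div, mul_comm]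
  have hk1 : 1 ≤ k := by omega
  obtain ⟨d1, -, d3, -, d5, d6, -⟩ := hMo κ Sb wb ab hLb k f.P (by omega) (by omega) _ rfl
  have hrho : 0 < rho D M ρ0 δ := by
    have h1 : (0 : ℝ) < Fintype.card M.H := by exact_mod_cast Fintype.card_pos
    have h2 : (0 : ℝ) < D.Q := by exact_mod_cast lt_of_lt_of_le (by norm_num) hD.Q3
    exact div_pos (mul_pos h1 hC.1) (mul_pos hG.1 (pow_pos h2 _))
  refine ⟨γ * Dm Sb wb ab f.P k (k * ∑ y ∈ Sb, wb y * ab y) * mass Mj p ^ k /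
      (k.factorial * (rho D M ρ0 δ * Real.log f.T)),
    kap cM Cr c0 K0 _ _ _ _ γ k hcM hCr hc0 (Real.exp_pos _) hγ hk1 d1 hm4 (mul_pos hrho hl0)
      (hR2 Sg hSg) hK1, ?_⟩
  obtain ⟨mn1, mn2, -⟩ := law_mean hLb
  refine step hE hFib hDi hTU hTL hD hB hM hf hC hG.1 hWM hMne (Dm Sb wb ab f.P) u c0 η _
    ((1 - b2 / 2) ^ k) Ka KM cM K0 mb _ ε γ j k _ hc0 hη hη2 hηsb
    (pow_nonneg (by linarith only [hb2']) k) hKa hKM hcM (by linarith only [hK4, hKa]) hK2 hmb0 hm4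
    (hMle.trans m2) hm3 (le_mul_of_one_le_right (Nat.cast_nonneg _) mn1)
    ((mul_le_mul_of_nonneg_left mn2 (Nat.cast_nonneg _)).trans (mul_comm _ _).le) hγ (by omega)
    (by omega) ?_ hkP hΔ hT4 hT5 hnl hnl2 he5 hε hBne hGr (fun m hm τ => ?_)
    (fun X hXM hX2 h0 b => ?_) d1 d3 (fun b h1 h2 => (d5 b h1 h2).2) (fun b h1 h2 => (d6 b h1 h2).2)
  · have h1 : ((⌈rk K * (3 * |u| + 2)⌉₊ + 1 : ℕ) : ℝ) ≤ k := by exact_mod_cast (by omega)
    push_cast at h1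
    linarith only [h1, Nat.le_ceil (rk K * (3 * |u| + 2))]
  · have := hsup m hm τ
    rwa [fden_eq S Mj p hmS0, hrk1] at this
  · have h1 := hloc k X.card (fun r => (X.equivFin.symm r : ι))
      ((Dvd.intro _ hq.symm).trans hCk) (by omega) hX2 (fun r => hXM (X.equivFin.symm r).2)
      (q • h0) (fun i => ((b.1 i : ℤ) : ZMod f.N1)) b.2
    have h2 : C1.factorial • q • h0 - ∑ r, fh M Pt (X.equivFin.symm r : ι)
        = (max C1 2).factorial • h0 - ∑ x ∈ X, M.cl (Pt x) := by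
      rw [← mul_nsmul', ← hq, X.equivFin.symm.sum_comp (fun y : X => fh M Pt y),
        sum_coe_sort X (fh M Pt)]
      rfl
    rw [h2, fden_eq S Mj p hmS0, hrk1] at h1
    exact h1

end Pool.Agent.Lib.BK2.NT
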