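import Pool.Agent.Lib.BK2.NBlue

/-! Real inequalities and bookkeeping for the local limit theorem. -/

namespace Pool.Agent.Lib.BK2.NT.TUP

open Finset

theorem fin (r Y g e f1 f2 s : ℝ) (hY : 0 ≤ Y) (hg0 : 0 ≤ g) (hg : g ≤ 2) (he : 0 ≤ e)
    (hU : r ≤ Y * ((g + e) * f1)) (hL : Y * ((g - e) * f2) ≤ r) (h1 : f1 ≤ 1 + s)
    (h2 : 1 - s ≤ f2) (h3 : f2 ≤ 1 + s) (hs0 : 0 ≤ s) (hs : s ≤ 1) :
    |r - Y * g| ≤ (2 * s + 2 * e) * Y := by
  have a1 : (g + e) * f1 ≤ g + (2 * s + 2 * e) := by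
    have := mul_le_mul_of_nonneg_left h1 (add_nonneg hg0 he)
    nlinarith [mul_le_mul_of_nonneg_right hg hs0, mul_le_mul_of_nonneg_left hs he]
  have a2 : g - (2 * s + 2 * e) ≤ (g - e) * f2 := by
    have b1 := mul_le_mul_of_nonneg_left h2 hg0
    have b2 := mul_le_mul_of_nonneg_left h3 he
    nlinarith [mul_le_mul_of_nonneg_right hg hs0, mul_le_mul_of_nonneg_left hs he]
  have c1 := mul_le_mul_of_nonneg_left a1 hY
  have c2 := mul_le_mul_of_nonneg_left a2 hY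
  rw [abs_le]
  constructor <;> nlinarith

theorem pow_up (x : ℝ) (q : ℕ) (hx : 0 ≤ x) (h : q * x ≤ 1) : (1 + x) ^ q ≤ 1 + 2 * (q * x) := by
  have h1 : (1 + x) ^ q ≤ Real.exp (q * x) := by
    rw [Real.exp_nat_mul]
    exact pow_le_pow_left₀ (by linarith) (by linarith [Real.add_one_le_exp x]) q
  have h0 : 0 ≤ (q : ℝ) * x := by positivity
  have h2 := Real.abs_exp_sub_one_le (x := q * x) (by rw [abs_of_nonneg h0]; exact h)
  rw [abs_of_nonneg h0] at h2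
  linarith [(abs_le.1 h2).2]

theorem pow_low (x : ℝ) (q : ℕ) (hx : x ≤ 1) : 1 - q * x ≤ (1 - x) ^ q := by
  have := one_add_mul_le_pow (a := -x) (by linarith) q
  simpa [sub_eq_add_neg] using this

/-- the two correction factors -/
theorem factors (n i : ℕ) (t η e2 x : ℝ) (hi : i ≤ 2) (hx : (2 * n + 4 : ℕ) * x ≤ 1 / 4)
    (hη : 0 ≤ η) (he : 0 ≤ e2) (h1 : 2 * e2 + 2 * η ≤ x) (ht1 : 1 - x ≤ t) (ht2 : t ≤ 1 + x) :
    t ^ i * ((1 + η) * (1 + 2 * e2 + η) ^ n * (1 + e2) ^ n / (1 - η))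
        ≤ 1 + 2 * ((2 * n + 4 : ℕ) * x) ∧
      1 - 2 * ((2 * n + 4 : ℕ) * x)
        ≤ t ^ i * ((1 - η) * (1 - e2 - η) ^ n * (1 - e2) ^ n / (1 + η)) ∧
      t ^ i * ((1 - η) * (1 - e2 - η) ^ n * (1 - e2) ^ n / (1 + η))
        ≤ 1 + 2 * ((2 * n + 4 : ℕ) * x) := by
  have hx0 : 0 ≤ x := by linarith
  have hn : (0 : ℝ) ≤ n := Nat.cast_nonneg n
  have hx1 : x ≤ 1 / 16 := by
    push_cast at hx
    nlinarith
  have ht0 : 0 ≤ t := by linarith
  have hup := pow_up x (2 * n + 4) hx0 (by linarith)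
  have hlo := pow_low x (2 * n + 4) (by linarith)
  have e1 : (1 + x) ^ (2 * n + 4) = (1 + x) ^ 2 * ((1 + x) * (1 + x) ^ n * (1 + x) ^ n * (1 + x)) := by
    ring
  have e2' : (1 - x) ^ (2 * n + 4) = (1 - x) ^ 2 * ((1 - x) * (1 - x) ^ n * (1 - x) ^ n * (1 - x)) := by
    ring
  have ti : t ^ i ≤ (1 + x) ^ 2 :=
    (pow_le_pow_left₀ ht0 ht2 i).trans (pow_le_pow_right₀ (by linarith) hi)
  have ti' : (1 - x) ^ 2 ≤ t ^ i :=
    (pow_le_pow_of_le_one (by linarith) (by linarith) hi).trans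
      (pow_le_pow_left₀ (by linarith) ht1 i)
  have i1 : 1 / (1 - η) ≤ 1 + x := by
    rw [div_le_iff₀ (by linarith)]
    nlinarith
  have i2 : 1 - x ≤ 1 / (1 + η) := by
    rw [le_div_iff₀ (by linarith)]
    nlinarith
  have hq : 0 ≤ ((2 * n + 4 : ℕ) : ℝ) * x := by positivity
  refine ⟨?_, ?_, ?_⟩
  · refine le_trans ?_ hup
    rw [e1, div_eq_mul_one_div]
    have p0 : 0 ≤ 1 / (1 - η) := by
      have : 0 < 1 - η := by linarith
      positivity
    have p1 : (1 + 2 * e2 + η) ^ n ≤ (1 + x) ^ n := pow_le_pow_left₀ (by linarith) (by linarith) n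
    have p2 : (1 + e2) ^ n ≤ (1 + x) ^ n := pow_le_pow_left₀ (by linarith) (by linarith) n
    have p3 : 1 + η ≤ 1 + x := by linarith
    exact mul_le_mul ti (mul_le_mul (mul_le_mul (mul_le_mul p3 p1 (by positivity) (by positivity))
      p2 (by positivity) (by positivity)) i1 p0 (by positivity)) (by positivity) (by positivity)
  · refine le_trans (by linarith) (hlo.trans ?_)
    rw [e2', div_eq_mul_one_div]
    have p0 : 0 ≤ 1 - x := by linarith
    have p1 : (1 - x) ^ n ≤ (1 - e2 - η) ^ n := pow_le_pow_left₀ p0 (by linarith) n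
    have p2 : (1 - x) ^ n ≤ (1 - e2) ^ n := pow_le_pow_left₀ p0 (by linarith) n
    have p3 : 1 - x ≤ 1 - η := by linarith
    have q1 : 0 ≤ 1 - η := by linarith
    have q2 : 0 ≤ 1 - e2 - η := by linarith
    have q3 : 0 ≤ 1 - e2 := by linarith
    exact mul_le_mul ti' (mul_le_mul (mul_le_mul (mul_le_mul p3 p1 (by positivity) q1)
      p2 (by positivity) (by positivity)) i2 p0 (by positivity)) (by positivity) (by positivity)
  · refine le_trans ?_ hup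
    have a1 : (1 - η) * (1 - e2 - η) ^ n * (1 - e2) ^ n / (1 + η) ≤ 1 := by
      rw [div_le_one (by linarith)]
      have b1 : (1 - e2 - η) ^ n ≤ 1 := pow_le_one₀ (by linarith) (by linarith)
      have b2 : (1 - e2) ^ n ≤ 1 := pow_le_one₀ (by linarith) (by linarith)
      have b3 : 0 ≤ (1 - e2 - η) ^ n := pow_nonneg (by linarith) n
      have b4 : 0 ≤ (1 - e2) ^ n := pow_nonneg (by linarith) n
      have b5 : (1 - η) * (1 - e2 - η) ^ n ≤ 1 := mul_le_one₀ (by linarith) b3 b1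
      have b6 : (1 - η) * (1 - e2 - η) ^ n * (1 - e2) ^ n ≤ 1 := mul_le_one₀ b5 b4 b2
      linarith
    refine (mul_le_of_le_one_right (pow_nonneg ht0 i) a1).trans (ti.trans ?_)
    exact pow_le_pow_right₀ (by linarith) (by omega)

theorem law_mono {κ : Type} {S : Finset κ} {w a : κ → ℝ} {c c' : ℝ} (h : Law S w a c)
    (hc : c' ≤ c) : Law S w a c' := ⟨h.nn, h.one, h.lo, h.hi, hc.trans h.var⟩

theorem law_mean {κ : Type} {S : Finset κ} {w a : κ → ℝ} {c : ℝ} (h : Law S w a c) :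
    1 ≤ ∑ y ∈ S, w y * a y ∧ ∑ y ∈ S, w y * a y ≤ 2 ∧ ∑ y ∈ S, w y * a y ^ 2 ≤ 4 := by
  refine ⟨?_, ?_, ?_⟩
  · rw [← h.one]
    exact sum_le_sum fun y hy => le_mul_of_one_le_right (h.nn y hy) (h.lo y hy)
  · calc _ ≤ ∑ y ∈ S, w y * 2 := sum_le_sum fun y hy =>
          mul_le_mul_of_nonneg_left (h.hi y hy) (h.nn y hy)
      _ = 2 := by rw [← sum_mul, h.one, one_mul]
  · calc _ ≤ ∑ y ∈ S, w y * 4 := sum_le_sum fun y hy =>
          mul_le_mul_of_nonneg_left (by nlinarith [h.hi y hy, h.lo y hy]) (h.nn y hy)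
      _ = 4 := by rw [← sum_mul, h.one, one_mul]

theorem var_eq {κ : Type} (S : Finset κ) (w a : κ → ℝ) (h : ∑ y ∈ S, w y = 1) :
    ∑ i ∈ S, w i * (a i - ∑ j ∈ S, w j * a j) ^ 2 =
      ∑ i ∈ S, w i * a i ^ 2 - (∑ j ∈ S, w j * a j) ^ 2 := by
  set m := ∑ j ∈ S, w j * a j with hm
  have : ∀ i, w i * (a i - m) ^ 2 = w i * a i ^ 2 - 2 * m * (w i * a i) + m ^ 2 * w i :=
    fun i => by ring
  simp only [this, sum_add_distrib, sum_sub_distrib, ← mul_sum, h, ← hm]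
  ring

theorem ee_norm (x : ℝ) : ‖ee x‖ = 1 := by
  unfold ee
  rw [show (2 * Real.pi * x * Complex.I : ℂ) = ((2 * Real.pi * x : ℝ) : ℂ) * Complex.I by
    push_cast; ring, Complex.norm_exp_ofReal_mul_I]

/-- normalising the weights -/
theorem norm_law {ι κ : Type} (S : Finset ι) (p : ι → ℕ) (a : ι → ℝ) (Sb : Finset κ)
    (wb ab : κ → ℝ) (mb c0 η : ℝ) (hc0 : 0 < c0) (hmb : c0 ≤ mb) (hL : Law Sb wb ab c0)
    (hη0 : 0 < η) (hη : η ≤ c0 / 100) (hη1 : η ≤ 1 / 100) (ha : ∀ x ∈ S, 1 ≤ a x ∧ a x ≤ 2)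
    (hm : ∀ i : ℕ, i ≤ 2 → |∑ x ∈ S, 1 / (mb * p x) * a x ^ i - ∑ y ∈ Sb, wb y * ab y ^ i| ≤ η) :
    mb * (1 - η) ≤ mass S p ∧ mass S p ≤ mb * (1 + η) ∧ Law S (wt S p) a (c0 / 2) ∧
      ∀ θ, ‖chf S (wt S p) a θ - chf S (fun x => 1 / (mb * p x)) a θ‖ ≤ η := by
  have hmb0 : 0 < mb := by linarith
  have h0 := hm 0 (by norm_num)
  have h1 := hm 1 (by norm_num)
  have h2 := hm 2 le_rfl
  simp only [pow_zero, mul_one, hL.one] at h0
  simp only [pow_one] at h1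
  set s := ∑ x ∈ S, 1 / (mb * (p x : ℝ)) with hs
  have hms : mass S p = mb * s := by
    rw [hs, mul_sum]
    exact sum_congr rfl fun x _ => by field_simp
  obtain ⟨s1, s2⟩ := abs_le.1 h0
  have hs0 : 0 < s := by linarith
  have hw : ∀ x, wt S p x = 1 / (mb * p x) / s := fun x => by
    rw [wt, hms]; field_simp
  have hone : ∑ x ∈ S, wt S p x = 1 := by
    simp only [hw, ← sum_div, ← hs]
    exact div_self hs0.ne'
  refine ⟨by rw [hms]; gcongr; linarith, by rw [hms]; gcongr; linarith,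
    ⟨fun x _ => by rw [hw]; positivity, hone, fun x hx => (ha x hx).1, fun x hx => (ha x hx).2,
      ?_⟩, fun θ => ?_⟩
  · rw [var_eq _ _ _ hone]
    have hv := hL.var
    rw [var_eq _ _ _ hL.one] at hv
    obtain ⟨m1, m2, m3⟩ := law_mean hL
    have e1 : ∑ x ∈ S, wt S p x * a x = (∑ x ∈ S, 1 / (mb * p x) * a x) / s := by
      rw [sum_div]; exact sum_congr rfl fun x _ => by rw [hw]; ring
    have e2 : ∑ x ∈ S, wt S p x * a x ^ 2 = (∑ x ∈ S, 1 / (mb * p x) * a x ^ 2) / s := by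
      rw [sum_div]; exact sum_congr rfl fun x _ => by rw [hw]; ring
    rw [e1, e2]
    set A := ∑ x ∈ S, 1 / (mb * p x) * a x
    set B := ∑ x ∈ S, 1 / (mb * p x) * a x ^ 2
    set A' := ∑ y ∈ Sb, wb y * ab y
    set B' := ∑ y ∈ Sb, wb y * ab y ^ 2
    obtain ⟨a1, a2⟩ := abs_le.1 h1
    obtain ⟨b1, b2⟩ := abs_le.1 h2
    have hB0 : 0 ≤ B' := by nlinarith
    have c1 : B' - 5 * η ≤ B / s := by
      rw [le_div_iff₀ hs0]
      by_cases hb : 0 ≤ B' - 5 * η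
      · nlinarith [mul_le_mul_of_nonneg_left (show s ≤ 1 + η by linarith) hb]
      · nlinarith
    have c2 : A / s ≤ A' + 4 * η := by
      rw [div_le_iff₀ hs0]
      nlinarith [mul_le_mul_of_nonneg_left (show 1 - η ≤ s by linarith)
        (show 0 ≤ A' + 4 * η by linarith)]
    have c3 : 0 ≤ A / s := div_nonneg (by linarith) hs0.le
    have c4 : (A / s) ^ 2 ≤ (A' + 4 * η) ^ 2 := pow_le_pow_left₀ c3 c2 2
    nlinarith
  · unfold chf
    rw [← sum_sub_distrib]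
    refine (norm_sum_le _ _).trans ?_
    have : ∀ x ∈ S, ‖(wt S p x : ℂ) * ee (θ * a x) - ((1 / (mb * p x) : ℝ) : ℂ) * ee (θ * a x)‖
        = 1 / (mb * p x) * (|1 - s| / s) := fun x _ => by
      rw [← sub_mul, norm_mul, ee_norm, mul_one, ← Complex.ofReal_sub, Complex.norm_real,
        Real.norm_eq_abs, hw, show 1 / (mb * (p x : ℝ)) / s - 1 / (mb * p x)
          = 1 / (mb * p x) * ((1 - s) / s) by field_simp, abs_mul,
        abs_of_nonneg (by positivity : (0 : ℝ) ≤ 1 / (mb * p x)), abs_div, abs_of_pos hs0]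
    rw [sum_congr rfl this, ← sum_mul, ← hs, mul_div_cancel₀ _ hs0.ne', abs_sub_comm]
    exact h0

theorem wt_sum {ι : Type} (S M : Finset ι) (p : ι → ℕ) :
    ∑ x ∈ M, wt S p x = mass M p / mass S p := by
  rw [mass, sum_div]; rfl

theorem fden_eq {ι Ω H : Type} [AddCommGroup H] [Fintype H] {s N1 : ℕ} (S M : Finset ι)
    (p : ι → ℕ) (hS : 0 < mass S p) (B : Finset Ω) (L1 : ℕ) (h : ι → H)
    (v : ι → Ω → Fin s → ZMod N1) (l : ι → Ω → ℤ) (m : ℕ) (τ : FG H s N1) :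
    fden M (wt S p) B L1 h v l m τ = (Fintype.card H * (N1 : ℝ) ^ (s + 1)) *
      tupP (M ×ˢ B ×ˢ range L1) (wn M p B L1) (fpos h v l) m τ := by
  have : (fun y : ι × Ω × ℕ => wt S p y.1 / ((∑ x ∈ M, wt S p x) * B.card * L1))
      = wn M p B L1 := by
    funext y
    rw [wt_sum, wn, wt, wt]
    have := hS.ne'
    field_simp
  rw [fden, this]

theorem wn_sum {ι Ω : Type} (M M' : Finset ι) (p : ι → ℕ) (B : Finset Ω) (L1 : ℕ)
    (hB : B.Nonempty) (hL : 1 ≤ L1) :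
    ∑ y ∈ M' ×ˢ B ×ˢ range L1, wn M p B L1 y = mass M' p / mass M p := by
  rw [sum_product, ← wt_sum]
  refine sum_congr rfl fun x _ => ?_
  have h1 : (0 : ℝ) < B.card := by exact_mod_cast hB.card_pos
  have h2 : (0 : ℝ) < L1 := by exact_mod_cast hL
  simp only [wn, sum_const, card_product, card_range, nsmul_eq_mul]
  push_cast
  field_simp

end Pool.Agent.Lib.BK2.NT.TUP
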