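import Pool.Agent.Lib.BK2.NTUP0

/-! The ratio of the counts, norms of targets, classes of targets. -/

namespace Pool.Agent.Lib.BK2.NT.TUP

open Finset NumberField

theorem ratio (aS aB W cU cL G β D' E XB κ Y tt D0 η fU fL u l : ℝ) (hS : 0 ≤ aS) (hW : 0 < W)
    (hG : 0 < G) (hβ : 0 < β) (hD' : 0 ≤ D') (hE : 0 ≤ E) (hX : 0 < XB) (hκ : 0 < κ) (hY : 0 ≤ Y)
    (ht : 0 ≤ tt) (hD0 : 0 < D0) (hη0 : 0 ≤ η) (hη : η < 1) (hfU : 0 ≤ fU) (hfL : 0 ≤ fL)
    (hu : 0 < u) (hl : 0 < l)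
    (hU : aS * W / u ≤ cU * (β * (D' + E))) (hL : cL * (β * (D' - E)) ≤ aS * W / l)
    (h1 : cU ≤ (1 + η) * fU * G) (h2 : (1 - η) * fL * G ≤ cL)
    (h3 : (1 - η) * XB ≤ aB) (h4 : aB ≤ (1 + η) * XB)
    (hid : G * β * D0 = Y * tt * (W * κ * XB)) :
    aS / (κ * aB) ≤ Y * ((D' / D0 + E / D0) * (tt * ((1 + η) * fU * u / (1 - η)))) ∧
      Y * ((D' / D0 - E / D0) * (tt * ((1 - η) * fL * l / (1 + η)))) ≤ aS / (κ * aB) := by
  have e1 : 0 < 1 - η := by linarith
  have e2 : 0 < 1 + η := by linarith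
  have hB : 0 < aB := lt_of_lt_of_le (by positivity) h3
  have hYt : Y * tt = G * β * D0 / (W * κ * XB) := by rw [hid]; field_simp
  constructor
  · have a1 : aS ≤ (1 + η) * fU * G * (β * (D' + E)) * u / W := by
      rw [le_div_iff₀ hW, ← div_le_iff₀ hu]
      exact hU.trans (mul_le_mul_of_nonneg_right h1 (by positivity))
    have a2 : aS / (κ * aB) ≤ (1 + η) * fU * G * (β * (D' + E)) * u / W / (κ * ((1 - η) * XB)) :=
      div_le_div₀ (by positivity) a1 (by positivity) (mul_le_mul_of_nonneg_left h3 hκ.le)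
    refine a2.trans (le_of_eq ?_)
    rw [show Y * ((D' / D0 + E / D0) * (tt * ((1 + η) * fU * u / (1 - η)))) =
      Y * tt * ((D' / D0 + E / D0) * ((1 + η) * fU * u / (1 - η))) by ring, hYt]
    field_simp
  · rw [show Y * ((D' / D0 - E / D0) * (tt * ((1 - η) * fL * l / (1 + η)))) =
      Y * tt * ((D' / D0 - E / D0) * ((1 - η) * fL * l / (1 + η))) by ring, hYt]
    by_cases hde : 0 ≤ D' - E
    · have a1 : (1 - η) * fL * G * (β * (D' - E)) * l / W ≤ aS := by
        rw [div_le_iff₀ hW, ← le_div_iff₀ hl]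
        exact (mul_le_mul_of_nonneg_right h2 (by positivity)).trans hL
      have a2 : (1 - η) * fL * G * (β * (D' - E)) * l / W / (κ * ((1 + η) * XB)) ≤ aS / (κ * aB) :=
        div_le_div₀ hS a1 (by positivity) (mul_le_mul_of_nonneg_left h4 hκ.le)
      refine le_trans (le_of_eq ?_) a2
      field_simp
    · refine le_trans ?_ (div_nonneg hS (by positivity))
      refine mul_nonpos_of_nonneg_of_nonpos (by positivity)
        (mul_nonpos_of_nonpos_of_nonneg ?_ (by positivity))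
      rw [← sub_div]
      exact div_nonpos_of_nonpos_of_nonneg (by linarith) hD0.le

variable {K : Type} [Field K] [NumberField K]

theorem nm_sub (z z' : EK K) : nm (z - z') = nm z - nm z' := by
  simp only [nm, Pi.sub_apply, Complex.sub_re, sum_sub_distrib]
  ring

theorem nm_abs (h2 : 2 * Fintype.card (InfinitePlace K) = rk K) (z : EK K) (c : ℝ)
    (h : ∀ w, ‖z w‖ ≤ c) : |nm z| ≤ rk K * c := by
  rw [nm, abs_mul, abs_two, ← h2]
  push_cast
  rw [mul_assoc]
  refine mul_le_mul_of_nonneg_left ((abs_sum_le_sum_abs _ _).trans ?_) zero_le_two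
  refine (sum_le_card_nsmul _ _ c fun w _ => (Complex.abs_re_le_norm _).trans (h w)).trans ?_
  rw [card_univ, nsmul_eq_mul]

theorem nm_gam (h2 : 2 * Fintype.card (InfinitePlace K) = rk K) (b : Fin (rk K - 1) → EK K)
    (hb : ∀ i, nm (b i) = 0) (L : ℝ) (N1 : ℕ) (a : GC K) :
    nm (gam b L N1 a) = a.2 * L / N1 := by
  have hn : (rk K : ℝ) ≠ 0 := by exact_mod_cast (Module.finrank_pos (R := ℚ) (M := K)).ne'
  have hb' : ∀ i, ∑ w, (b i w).re = 0 := fun i => by
    have := hb i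
    rw [nm] at this
    linarith
  have h3 : (Fintype.card (InfinitePlace K) : ℝ) = rk K / 2 := by
    rw [← h2]; push_cast; ring
  simp only [nm, gam, Pi.smul_apply, Pi.add_apply, Finset.sum_apply, Complex.smul_re,
    Complex.add_re, Complex.re_sum, Complex.one_re, smul_eq_mul, ← mul_sum, sum_add_distrib]
  rw [sum_comm]
  simp only [← mul_sum, hb', mul_zero, sum_const_zero, sum_const, card_univ, nsmul_eq_mul, h3]
  field_simp
  ring

variable {D : ND K}

theorem nI_inv (hB : Bas D) (A : FI K) : nI A⁻¹ = (nI A)⁻¹ := by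
  have := hB.nI_mul A A⁻¹
  rw [mul_inv_cancel, hB.nI_one] at this
  exact eq_inv_of_mul_eq_one_right this.symm

theorem nI_prod (hB : Bas D) {ι : Type} (X : Finset ι) (Pt : ι → FI K) :
    nI (∏ x ∈ X, Pt x) = ∏ x ∈ X, nI (Pt x) := by
  classical
  induction X using Finset.induction_on with
  | empty => simpa using hB.nI_one
  | insert x X hx ih => rw [prod_insert hx, prod_insert hx, hB.nI_mul, ih]

theorem cop_pow (hB : Bas D) (A : FI K) (hA : Cop D.F A) (N : ℕ) : Cop D.F (A ^ N) := by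
  induction N with
  | zero => simpa using hB.cop_one
  | succ N ih => rw [pow_succ]; exact hB.cop_mul _ _ ih hA

theorem un_pow (hB : Bas D) (z : K) (hz : D.Un z) (N : ℕ) : D.Un (z ^ N) := by
  induction N with
  | zero => simpa using hB.u_one.1
  | succ N ih => rw [pow_succ]; exact hB.un_mul _ _ ih hz

theorem div_pow' (hB : Bas D) (z : K) (A : FI K) (h : IsDiv z A) (N : ℕ) :
    IsDiv (z ^ N) (A ^ N) := by
  induction N with
  | zero => simp [IsDiv]
  | succ N ih => rw [pow_succ, pow_succ]; exact hB.div_mul _ _ _ _ ih h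

theorem cl_pow (hB : Bas D) {M : Mdl K} (hM : M.OK D) (A : FI K) (hA : Cop D.F A) (N : ℕ) :
    M.cl (A ^ N) = N • M.cl A := by
  induction N with
  | zero =>
    have := hM.cl.1 1 1 hB.cop_one hB.cop_one
    rw [mul_one] at this
    simpa using this
  | succ N ih => rw [pow_succ, hM.cl.1 _ _ (cop_pow hB A hA N) hA, ih, succ_nsmul]

theorem nm_zX (hE : St_EMB) (hB : Bas D) (hD : D.OK) {M : Mdl K} (hM : M.OK D) {ι : Type}
    (Pt : ι → FI K) (p : ι → ℕ) (X : Finset ι) (hX : ∀ x ∈ X, IsPt D.F (Pt x) (p x))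
    (A0 Bz : FI K) (z g0 : K) (ζ : EK K) (hz : IsDiv z Bz) (hg : 0 < Nv (emb g0))
    (hζ : cexp ζ = emb (g0 / z)) :
    nm (zX M Pt X A0 Bz ζ) = Real.log (Nv (emb g0) / nI A0) - ∑ x ∈ X, Real.log (p x) := by
  obtain ⟨-, -, -, -, e5, e6⟩ := hE K hD.tc
  have h1 : Nv (emb (g0 / z)) = Nv (emb g0) / nI Bz := by
    rw [e5 z Bz hz]
    simp only [Nv, emb, map_div₀, norm_div, div_pow, prod_div_distrib]
  have h2 : nm ζ = Real.log (Nv (emb g0) / nI Bz) := by
    rw [← h1, ← hζ, e6, Real.log_exp]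
  have h3 : ∏ x ∈ X, nI (Pt x) = ∏ x ∈ X, (p x : ℝ) :=
    prod_congr rfl fun x hx => (hB.pt _ _ (hX x hx)).2.2.2
  have h4 : ∀ x ∈ X, (p x : ℝ) ≠ 0 := fun x hx => by exact_mod_cast (hX x hx).1.pos.ne'
  have a0 := (hB.nI_pos A0).ne'
  have b0 := (hB.nI_pos Bz).ne'
  rw [zX, nm_sub, h2, hM.ps.1, hB.nI_mul, hB.nI_mul, nI_inv hB, nI_prod hB, h3,
    Real.log_mul (mul_ne_zero a0 (prod_ne_zero_iff.2 h4)) (inv_ne_zero b0),
    Real.log_mul a0 (prod_ne_zero_iff.2 h4), Real.log_prod h4, Real.log_inv,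
    Real.log_div hg.ne' b0, Real.log_div hg.ne' a0]
  ring

theorem exists_log (g : K) (hg : g ≠ 0) : ∃ ζ : EK K, cexp ζ = emb g :=
  ⟨fun w => Complex.log (emb g w), funext fun w =>
    Complex.exp_log ((map_ne_zero w.embedding).2 hg)⟩

theorem prod_scale (h2 : 2 * Fintype.card (InfinitePlace K) = rk K) (ρ : InfinitePlace K → ℝ)
    (c : ℝ) : ∏ w, (ρ w * c) ^ 2 = c ^ rk K * ∏ w, ρ w ^ 2 := by
  simp only [mul_pow, prod_mul_distrib, prod_const, card_univ, ← pow_mul, h2]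
  ring

/-- the weight of the points over one prime -/
theorem fibre (hF : St_FIB) {ι Ω : Type} (F : ℕ) (T : ℝ) (hT : 0 < T) (M : Finset ι)
    (Pt : ι → FI K) (p : ι → ℕ) (hW : Win F T M Pt p) (hm : 0 < mass M p) (B : Finset Ω) (L1 : ℕ)
    (hB : B.Nonempty) (hL : 1 ≤ L1) (q : ℕ) :
    ∑ y ∈ (M ×ˢ B ×ˢ range L1).filter (fun y => p y.1 = q), wn M p B L1 y
      ≤ rk K / (T * mass M p) := by
  classical
  have e : (M ×ˢ B ×ˢ range L1).filter (fun y => p y.1 = q)
      = (M.filter fun x => p x = q) ×ˢ B ×ˢ range L1 := by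
    ext y
    simp only [mem_filter, mem_product]
    tauto
  rw [e, wn_sum _ _ _ _ _ hB hL, ← div_div]
  refine div_le_div_of_nonneg_right ?_ hm.le
  have hc : (M.filter fun x => p x = q).card ≤ rk K := by
    rw [← card_image_of_injOn (hW.2.mono (coe_subset.2 (filter_subset _ _)))]
    refine hF K F q _ fun P hP => ?_
    obtain ⟨x, hx, rfl⟩ := mem_image.1 hP
    rw [← (mem_filter.1 hx).2]
    exact (hW.1 x (mem_filter.1 hx).1).1
  refine (sum_le_card_nsmul _ _ (1 / T) fun x hx =>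
    one_div_le_one_div_of_le hT (hW.1 x (mem_filter.1 hx).1).2.1).trans ?_
  rw [nsmul_eq_mul, mul_one_div]
  exact div_le_div_of_nonneg_right (by exact_mod_cast hc) hT.le

end Pool.Agent.Lib.BK2.NT.TUP
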