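import Pool.Agent.Lib.BK2.NTUP1

/-! Comparison of split elements with the finite model. -/

namespace Pool.Agent.Lib.BK2.NT.TUP

open Finset NumberField

variable {K : Type} [Field K] [NumberField K]

theorem core (hE : St_EMB) (hFib : St_FIB) (hDi : St_DIST) (hTU : St_TUPU) (hTL : St_TUPL)
    {D : ND K} (hB : Bas D) {M : Mdl K} {f : Fr K} {ι : Type} {Mj : Finset ι} {Pt : ι → FI K}
    {p : ι → ℕ} {k : ℕ} {X : Finset ι} {A0 Bz : FI K} {z g0 : K} {ζ : EK K}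
    {ρ : InfinitePlace K → ℝ} {ε2 : ℝ} (hT : Tgt D M f Mj Pt p k X A0 Bz z g0 ζ ρ ε2)
    (ρ0 δ η Ka D' D0 E0 E1 mb : ℝ) (γ j : ℕ) (hρ0 : 0 < ρ0) (hδ : 0 < δ) (hη0 : 0 ≤ η)
    (hη : η ≤ 1 / 8) (he2 : ε2 ≤ 1 / 8) (hγ : 1 ≤ γ) (hk : 1 ≤ k) (hX2 : X.card ≤ 2)
    (hj : j + 4 ≤ k) (hD' : 0 ≤ D') (hD0 : 0 < D0) (hE0 : 0 ≤ E0) (hKa : 0 ≤ Ka) (hmb : 0 < mb)
    (hBne : f.B.Nonempty) (hGr : GrOK M.b δ f.L f.N1 f.e0 η)
    (hrad : ∀ w, 3 * k * f.e0 ≤ η * ρ w)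
    (hcnt : |((D.Bl A0 D.Q g0 (emb g0) ρ).ncard : ℝ) - xp ρ0 A0 D.Q (emb g0) ρ|
      ≤ η * xp ρ0 A0 D.Q (emb g0) ρ)
    (hsup : ∀ m, j ≤ m → ∀ τ, (Fintype.card M.H * (f.N1 : ℝ) ^ rk K) *
      tupP (Mj ×ˢ f.B ×ˢ range f.L1) (wn Mj p f.B f.L1) (fpos (fh M Pt) (fv f Pt) (fl f Pt)) m τ
        ≤ Ka * f.P)
    (hloc : ∀ a, |nm (f.gm M a) - nm (zX M Pt X A0 Bz ζ)| ≤ rk K →
      |(Fintype.card M.H * (f.N1 : ℝ) ^ rk K) *
        tupP (Mj ×ˢ f.B ×ˢ range f.L1) (wn Mj p f.B f.L1) (fpos (fh M Pt) (fv f Pt) (fl f Pt))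
          (k - X.card) (gpos f M (hX M Pt X A0 Bz) a) / (f.P * γ) - D'| ≤ E0)
    (hE1 : 3 * (k : ℝ) ^ 2 * (rk K / (f.T * mass Mj p)) * Ka ≤ E1)
    (hn0 : 0 ≤ nm (zX M Pt X A0 Bz ζ))
    (hn1 : nm (zX M Pt X A0 Bz ζ) ≤ (2 * k + 1) * Real.log f.T)
    (hn2 : (2 * k + 1) * Real.log f.T + rk K < f.L) :
    nSpl D A0 Mj Pt p k X g0 ρ /
        (γ * D0 * mass Mj p ^ k / (k.factorial * (rho D M ρ0 δ * Real.log f.T)) *
          (D.Bl A0 D.Q g0 (emb g0) ρ).ncard)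
      ≤ (k.descFactorial X.card * ∏ x ∈ X, 1 / (mb * p x)) * ((D' / D0 + (E0 + E1) / D0) *
        ((mb / mass Mj p) ^ X.card *
          ((1 + η) * (1 + 2 * ε2 + η) ^ rk K * (1 + ε2) ^ rk K / (1 - η)))) ∧
    (k.descFactorial X.card * ∏ x ∈ X, 1 / (mb * p x)) * ((D' / D0 - (E0 + E1) / D0) *
        ((mb / mass Mj p) ^ X.card *
          ((1 - η) * (1 - ε2 - η) ^ rk K * (1 - ε2) ^ rk K / (1 + η))))
      ≤ nSpl D A0 Mj Pt p k X g0 ρ /
        (γ * D0 * mass Mj p ^ k / (k.factorial * (rho D M ρ0 δ * Real.log f.T)) *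
          (D.Bl A0 D.Q g0 (emb g0) ρ).ncard) := by
  classical
  obtain ⟨e2r, -⟩ := hE K hT.ok.tc
  have hp0 : ∀ x ∈ Mj, (0 : ℝ) < p x := fun x hx => by exact_mod_cast (hT.win.1 x hx).1.1.pos
  have hm : 0 < mass Mj p := sum_pos (fun x hx => one_div_pos.2 (hp0 x hx)) hT.ne
  have hT0 : 0 < f.T := by linarith [hT.fok.T1]
  have hlog : 0 < Real.log f.T := Real.log_pos hT.fok.T1
  have hP : (0 : ℝ) < f.P := by exact_mod_cast hT.fok.P1
  have hN1 : (0 : ℝ) < f.N1 := by exact_mod_cast hT.fok.N1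
  have hγ' : (1 : ℝ) ≤ γ := by exact_mod_cast hγ
  have hk' : (1 : ℝ) ≤ k := by exact_mod_cast hk
  have hH : (0 : ℝ) < Fintype.card M.H := by exact_mod_cast Fintype.card_pos
  have hQ : (0 : ℝ) < D.Q := by exact_mod_cast lt_of_lt_of_le (by norm_num) hT.ok.Q3
  have hA0 := hB.nI_pos A0
  have hNv : 0 < Nv (emb g0) := prod_pos fun w _ =>
    pow_pos (norm_pos_iff.2 ((map_ne_zero w.embedding).2 hT.g0ne)) 2
  have hV : 0 < ∏ w, ρ w ^ 2 := prod_pos fun w _ => pow_pos (hT.rad w).1 2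
  have hpX : 0 < ∏ x ∈ X, (p x : ℝ) := prod_pos fun x hx => hp0 x (hT.sub hx)
  have he0 := hT.fok.e0
  obtain ⟨w0⟩ : Nonempty (InfinitePlace K) := inferInstance
  have hε2 : 0 < ε2 := lt_of_lt_of_le (hT.rad w0).1 (hT.rad w0).2
  have hee : ∀ w, 3 * f.e0 ≤ η * ρ w := fun w => le_trans (by nlinarith) (hrad w)
  set Nn : ℝ := Fintype.card M.H * (f.N1 : ℝ) ^ rk K with hNn
  have hNn0 : 0 < Nn := by positivity
  set zx := zX M Pt X A0 Bz ζ with hzx
  set S' := Mj ×ˢ f.B ×ˢ range f.L1 with hS'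
  set φ := fpos (fh M Pt) (fv f Pt) (fl f Pt) with hφ
  have hE1' : 0 ≤ E1 := le_trans (by positivity) hE1
  have near : ∀ (c : ℝ) (a : GC K), c ≤ 2 → gam M.b f.L f.N1 a ∈ Dsa zx (fun w => ρ w * c) →
      |nm (f.gm M a) - nm zx| ≤ rk K := fun c a hc ha => by
    rw [← nm_sub]
    refine (nm_abs e2r _ 1 fun w => ?_).trans (by rw [mul_one])
    have h1 := ha w
    have h2 := hT.rad w
    have h3 : ρ w * c ≤ 1 := by nlinarith
    exact h1.le.trans h3
  obtain ⟨fU, cU⟩ := hGr.2 zx (fun w => ρ w * (1 + 2 * ε2 + η)) fun w => by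
    have h2 := hT.rad w
    have h3 := hee w
    constructor <;> nlinarith
  obtain ⟨fL, cL⟩ := hGr.2 zx (fun w => ρ w * (1 - ε2 - η)) fun w => by
    have h2 := hT.rad w
    have h3 := hee w
    constructor <;> nlinarith
  rw [prod_scale e2r, Set.ncard_eq_toFinset_card _ fU] at cU
  rw [prod_scale e2r, Set.ncard_eq_toFinset_card _ fL] at cL
  have hU := hTU K D M f ι Mj Pt p k X A0 Bz z g0 ζ ρ ε2 fU.toFinset hT fun a ha => by
    rw [Set.Finite.mem_toFinset]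
    intro w
    have h1 := ha w
    have h3 := hrad w
    exact h1.trans_le (by nlinarith)
  have hL := hTL K D M f ι Mj Pt p k X A0 Bz z g0 ζ ρ ε2 fL.toFinset hT (fun a ha w => by
    rw [Set.Finite.mem_toFinset] at ha
    have h1 := ha w
    have h3 := hrad w
    exact h1.trans_le (by nlinarith)) hn0 hn1 hn2
  have tU : ∀ a ∈ fU.toFinset, tupP S' (wn Mj p f.B f.L1) φ (k - X.card)
      (gpos f M (hX M Pt X A0 Bz) a) ≤ f.P * γ / Nn * (D' + (E0 + E1)) := fun a ha => by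
    rw [Set.Finite.mem_toFinset] at ha
    have h1 := (abs_le.1 (hloc a (near _ a (by linarith) ha))).2
    rw [sub_le_iff_le_add, div_le_iff₀ (by positivity)] at h1
    rw [div_mul_eq_mul_div, le_div_iff₀ hNn0]
    nlinarith [mul_nonneg hE1' (show 0 ≤ (f.P : ℝ) * γ by positivity)]
  have tL : ∀ a ∈ fL.toFinset, f.P * γ / Nn * (D' - (E0 + E1)) ≤ tupQ S' (wn Mj p f.B f.L1) φ
      (fun y => p y.1) (X.image p) (k - X.card) (gpos f M (hX M Pt X A0 Bz) a) := fun a ha => by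
    rw [Set.Finite.mem_toFinset] at ha
    have h1 := (abs_le.1 (hloc a (near _ a (by linarith) ha))).1
    rw [le_sub_iff_add_le, le_div_iff₀ (by positivity)] at h1
    have h2 := hDi _ _ S' (wn Mj p f.B f.L1) φ (fun y => p y.1) (X.image p) (k - X.card) j
      (rk K / (f.T * mass Mj p)) (Ka * f.P / Nn)
      (fun y _ => by unfold wn wt; positivity)
      (by rw [wn_sum _ _ _ _ _ hBne hT.fok.L1, div_self hm.ne'])
      (fun q => by
        have := fibre hFib D.F f.T hT0 Mj Pt p hT.win hm f.B f.L1 hBne hT.fok.L1 q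
        exact this)
      (fun m' hm' τ => by
        rw [le_div_iff₀ hNn0, mul_comm]
        exact hsup m' hm' τ) (by omega) (gpos f M (hX M Pt X A0 Bz) a)
    have h3 : (((k - X.card : ℕ) : ℝ) ^ 2 + ((k - X.card : ℕ) : ℝ) * (X.image p).card)
        ≤ 3 * (k : ℝ) ^ 2 := by
      have a1 : ((k - X.card : ℕ) : ℝ) ≤ k := by exact_mod_cast Nat.sub_le _ _
      have a2 : ((X.image p).card : ℝ) ≤ 2 := by exact_mod_cast card_image_le.trans hX2
      have a3 : (0 : ℝ) ≤ ((k - X.card : ℕ) : ℝ) := Nat.cast_nonneg _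
      have a4 : (0 : ℝ) ≤ (X.image p).card := Nat.cast_nonneg _
      nlinarith [mul_le_mul a1 a2 a4 (by linarith), mul_le_mul a1 a1 a3 (by linarith)]
    have h4 : (((k - X.card : ℕ) : ℝ) ^ 2 + ((k - X.card : ℕ) : ℝ) * (X.image p).card) *
        (rk K / (f.T * mass Mj p)) * (Ka * f.P / Nn) ≤ E1 * (f.P * γ) / Nn := by
      rw [← mul_div_assoc]
      refine div_le_div_of_nonneg_right ?_ hNn0.le
      calc _ ≤ 3 * (k : ℝ) ^ 2 * (rk K / (f.T * mass Mj p)) * (Ka * f.P) := by gcongr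
        _ = 3 * (k : ℝ) ^ 2 * (rk K / (f.T * mass Mj p)) * Ka * f.P := by ring
        _ ≤ E1 * (f.P * γ) := mul_le_mul hE1 (le_mul_of_one_le_right hP.le hγ') hP.le hE1'
    have h5 : f.P * γ / Nn * (D' - E0) ≤ tupP S' (wn Mj p f.B f.L1) φ (k - X.card)
        (gpos f M (hX M Pt X A0 Bz) a) := by
      rw [div_mul_eq_mul_div, div_le_iff₀ hNn0]
      linarith
    have h6 : f.P * γ / Nn * (D' - (E0 + E1)) = f.P * γ / Nn * (D' - E0) - E1 * (f.P * γ) / Nn := by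
      ring
    linarith
  have sU := (sum_le_card_nsmul _ _ _ tU)
  have sL := (card_nsmul_le_sum _ _ _ tL)
  rw [nsmul_eq_mul] at sU sL
  have hxp : 0 < xp ρ0 A0 D.Q (emb g0) ρ := by unfold xp; positivity
  have hrho : 0 < rho D M ρ0 δ := by unfold rho; positivity
  have hL0 : 0 < f.L := by unfold Fr.L; positivity
  refine ratio _ _ ((k - X.card).factorial * (nI A0 * ∏ x ∈ X, (p x : ℝ)) /
      (mass Mj p ^ (k - X.card) * Nv (emb g0))) fU.toFinset.card fL.toFinset.card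
    (δ * (∏ w, ρ w ^ 2) * (f.N1 : ℝ) ^ rk K / f.L) (f.P * γ / Nn) D' (E0 + E1)
    (xp ρ0 A0 D.Q (emb g0) ρ) _ _ _ D0 η _ _ _ _ (by unfold nSpl; positivity) (by positivity)
    (by positivity) (by positivity) hD' (by positivity) hxp (by positivity)
    (mul_nonneg (Nat.cast_nonneg _) (prod_nonneg fun x _ => by positivity)) (by positivity) hD0
    hη0 (by linarith) (by positivity) (pow_nonneg (by linarith) _) (by positivity)
    (pow_pos (by linarith) _) (le_trans (le_of_eq ?_) (hU.trans sU))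
    (le_trans (sL.trans hL) (le_of_eq ?_)) ?_ ?_ ?_ ?_ ?_
  · field_simp
  · have : (0 : ℝ) < (1 - ε2) ^ rk K := pow_pos (by linarith) _
    field_simp
  · refine le_trans (sub_le_iff_le_add.1 (abs_le.1 cU).2) (le_of_eq ?_)
    ring
  · have := (abs_le.1 cL).1
    refine le_trans (le_of_eq ?_) (neg_le_sub_iff_le_add.1 this |> sub_le_iff_le_add.2)
    ring
  · linarith [(abs_le.1 hcnt).1]
  · linarith [(abs_le.1 hcnt).2]
  · have a1 : (k.factorial : ℝ) = (k - X.card).factorial * k.descFactorial X.card := by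
      exact_mod_cast (Nat.factorial_mul_descFactorial hT.card).symm
    have a2 : mass Mj p ^ k = mass Mj p ^ (k - X.card) * mass Mj p ^ X.card := by
      rw [← pow_add, Nat.sub_add_cancel hT.card]
    have a3 : ∏ x ∈ X, 1 / (mb * (p x : ℝ)) = 1 / (mb ^ X.card * ∏ x ∈ X, (p x : ℝ)) := by
      rw [prod_div_distrib, prod_mul_distrib, prod_const, prod_const, one_pow]
    have a4 : (0 : ℝ) < k.descFactorial X.card := by
      exact_mod_cast Nat.descFactorial_pos.2 hT.card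
    rw [a1, a2, a3, div_pow, hNn]
    unfold xp rho Fr.L
    field_simp

end Pool.Agent.Lib.BK2.NT.TUP
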