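import Pool.Agent.Lib.BK2.NTUP2

/-! The local limit theorem for one number field: a fixed number of points. -/

namespace Pool.Agent.Lib.BK2.NT

open Finset NumberField

namespace TUP

theorem kap (cM Cr c0 K0 D0 m r E : ℝ) (γ k : ℕ) (hcM : 0 < cM) (hCr : 0 < Cr) (hc0 : 0 < c0)
    (hE : 0 < E) (hγ : 1 ≤ γ) (hk : 1 ≤ k) (hD : cM / Real.sqrt k ≤ D0) (hm : c0 / 2 ≤ m)
    (hr0 : 0 < r) (hr : r ≤ Cr * E) (hK : 4 / c0 * (1 + Cr / cM) ≤ K0) :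
    1 / (K0 ^ k * k.factorial * E) ≤ γ * D0 * m ^ k / (k.factorial * r) := by
  have hk' : (1 : ℝ) ≤ k := by exact_mod_cast hk
  have hγ' : (1 : ℝ) ≤ γ := by exact_mod_cast hγ
  have hs : 0 < Real.sqrt k := Real.sqrt_pos.2 (by linarith)
  have hK0 : 0 < K0 := lt_of_lt_of_le (by positivity) hK
  have hf : (0 : ℝ) < k.factorial := by exact_mod_cast k.factorial_pos
  have hm0 : 0 < m := by linarith
  have hD0 : 0 < D0 := lt_of_lt_of_le (by positivity) hD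
  have h1 : 2 * (1 + Cr / cM) ≤ K0 * m := by
    calc 2 * (1 + Cr / cM) = 4 / c0 * (1 + Cr / cM) * (c0 / 2) := by field_simp; ring
      _ ≤ K0 * m := by gcongr
  have h0 : 0 ≤ Cr / cM := by positivity
  have h2 : Real.sqrt k * (Cr / cM) ≤ (K0 * m) ^ k := by
    refine le_trans ?_ (pow_le_pow_left₀ (by positivity) h1 k)
    rw [mul_pow]
    refine mul_le_mul ?_ ?_ h0 (by positivity)
    · refine (Real.sqrt_le_iff.2 ⟨by linarith, by nlinarith⟩ : Real.sqrt k ≤ k).trans ?_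
      exact_mod_cast Nat.lt_two_pow_self.le
    · exact le_trans (by linarith) (le_self_pow₀ (by linarith) (by omega))
  rw [div_le_iff₀ hs] at hD
  have h3 : Cr ≤ D0 * (K0 * m) ^ k := by
    calc Cr = cM * (Cr / cM) := by field_simp
      _ ≤ D0 * Real.sqrt k * (Cr / cM) := by gcongr
      _ = D0 * (Real.sqrt k * (Cr / cM)) := by ring
      _ ≤ _ := by gcongr
  rw [div_le_div_iff₀ (by positivity) (by positivity)]
  calc 1 * (k.factorial * r) ≤ 1 * (k.factorial * (D0 * (K0 * m) ^ k * E)) := by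
        gcongr
        exact hr.trans (by gcongr)
    _ = 1 * D0 * m ^ k * (K0 ^ k * k.factorial * E) := by rw [mul_pow]; ring
    _ ≤ _ := by gcongr

theorem big (n : ℕ) (u η T Q Δ a b s : ℝ) (hT : 1 ≤ T) (hη : 0 < η) (hQ0 : 0 ≤ Q) (hQ : Q ≤ Δ)
    (hΔ : Δ ≤ T ^ u) (hn : 8 * (n : ℝ) ^ 3 / η ≤ T) (ha : 0 < a) (hb : 0 < b) (hT1 : 1 < T)
    (hs : s ≤ Real.log (b / a) / Real.log T) (hns : n * (3 * |u| + 2) ≤ s) :
    (8 * (n : ℝ) ^ 3 * Q * Δ ^ 2 / (η * (1 / Real.sqrt T))) ^ n * a ≤ b := by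
  have hT0 : 0 < T := by linarith
  have hl := Real.log_pos hT1
  have h1 : Δ ≤ T ^ |u| := hΔ.trans (Real.rpow_le_rpow_of_exponent_le hT (le_abs_self u))
  have hΔ0 : 0 ≤ Δ := hQ0.trans hQ
  have h2 : Real.sqrt T ≤ T := Real.sqrt_le_iff.2 ⟨hT0.le, by nlinarith⟩
  have hs0 : 0 < Real.sqrt T := Real.sqrt_pos.2 hT0
  have h3 : 8 * (n : ℝ) ^ 3 * Q * Δ ^ 2 / (η * (1 / Real.sqrt T)) ≤ T ^ (3 * |u| + 2) := by
    have e : T ^ (3 * |u| + 2) = T * T ^ |u| * (T ^ |u|) ^ 2 * T := by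
      rw [Real.rpow_add hT0, mul_comm 3, Real.rpow_mul hT0.le, Real.rpow_ofNat, Real.rpow_ofNat]
      ring
    rw [e, show 8 * (n : ℝ) ^ 3 * Q * Δ ^ 2 / (η * (1 / Real.sqrt T)) =
      8 * (n : ℝ) ^ 3 / η * Q * Δ ^ 2 * Real.sqrt T by field_simp]
    gcongr
    exact hQ.trans h1
  rw [← le_div_iff₀ ha]
  refine (pow_le_pow_left₀ (by positivity) h3 n).trans ?_
  rw [← Real.rpow_natCast, ← Real.rpow_mul hT0.le, Real.rpow_def_of_pos hT0,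
    ← Real.exp_log (div_pos hb ha)]
  refine Real.exp_le_exp.2 ?_
  rw [le_div_iff₀ hl] at hs
  nlinarith

theorem errs (cM Ka KM K0 D0 q sb η ε2 : ℝ) (n k : ℕ) (hcM : 0 < cM) (hKa : 0 < Ka) (hKM : 0 < KM)
    (hk : 1 ≤ k) (hD : cM / Real.sqrt k ≤ D0) (hq : 0 ≤ q) (hη : 0 ≤ η) (hsb : η ≤ sb)
    (he : 0 ≤ ε2) (hK : 2 * (3 * Ka + 2 * KM + 1) / cM + 4 * (2 * n + 4 : ℕ) * (2 * Ka + 4) ≤ K0) :
    2 * (2 * ((2 * n + 4 : ℕ) * ((2 * Ka + 4) * (sb + ε2)))) +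
        2 * ((Ka * q + Ka * k * (sb + 2 * η) + KM * (2 * η) / k + η) / D0)
      ≤ K0 * Real.sqrt k * (q + k * (sb + ε2)) := by
  have hk' : (1 : ℝ) ≤ k := by exact_mod_cast hk
  have hs1 : 1 ≤ Real.sqrt k := Real.one_le_sqrt.2 hk'
  have hD0 : 0 < D0 := lt_of_lt_of_le (by positivity) hD
  have hsb0 : 0 ≤ sb := hη.trans hsb
  set σ := sb + ε2 with hσ
  have hσ0 : 0 ≤ σ := by positivity
  have hσk : σ ≤ q + k * σ := by nlinarith
  have a1 : KM * (2 * η) / k ≤ 2 * KM * (q + k * σ) := by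
    refine (div_le_self (by positivity) hk').trans ?_
    nlinarith [mul_le_mul_of_nonneg_left (show η ≤ q + k * σ by linarith) hKM.le]
  have a2 : Ka * q + Ka * k * (sb + 2 * η) ≤ 3 * Ka * (q + k * σ) := by
    have : Ka * k * (sb + 2 * η) ≤ Ka * k * (3 * σ) :=
      mul_le_mul_of_nonneg_left (by linarith) (by positivity)
    nlinarith [mul_nonneg hKa.le hq]
  have a3 : Ka * q + Ka * k * (sb + 2 * η) + KM * (2 * η) / k + η
      ≤ (3 * Ka + 2 * KM + 1) * (q + k * σ) := by linarith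
  have a4 : (Ka * q + Ka * k * (sb + 2 * η) + KM * (2 * η) / k + η) / D0
      ≤ (3 * Ka + 2 * KM + 1) / cM * Real.sqrt k * (q + k * σ) := by
    refine (div_le_div₀ (by positivity) a3 (by positivity) hD).trans (le_of_eq ?_)
    field_simp
  have a5 : σ ≤ Real.sqrt k * (q + k * σ) := hσk.trans (le_mul_of_one_le_left (by positivity) hs1)
  have a6 := mul_le_mul_of_nonneg_left a5
    (show (0 : ℝ) ≤ 4 * (2 * n + 4 : ℕ) * (2 * Ka + 4) by positivity)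
  have a7 := mul_le_mul_of_nonneg_right hK
    (show 0 ≤ Real.sqrt k * (q + k * σ) by positivity)
  have a8 : 2 * (3 * Ka + 2 * KM + 1) / cM = 2 * ((3 * Ka + 2 * KM + 1) / cM) := by ring
  rw [a8] at a7
  nlinarith

theorem close (r dsc Pi D' D0 mb m η ε2 sb q Ka KM cM K0 : ℝ) (n i k : ℕ) (hi : i ≤ 2)
    (hk : 1 ≤ k) (hcM : 0 < cM) (hKa : 0 < Ka) (hKM : 0 < KM) (hd0 : 0 ≤ dsc)
    (hd : dsc ≤ (k : ℝ) ^ i) (hPi : 0 ≤ Pi) (hD : cM / Real.sqrt k ≤ D0)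
    (hg : |D' / D0 - 1| ≤ 1 / 2) (hq : 0 ≤ q) (hη : 0 ≤ η) (hsb : η ≤ sb) (he : 0 ≤ ε2)
    (hK : 2 * (3 * Ka + 2 * KM + 1) / cM + 4 * (2 * n + 4 : ℕ) * (2 * Ka + 4) ≤ K0)
    (hσ : K0 * (sb + ε2) ≤ 1) (hmb : 0 < mb) (hm : 0 < m) (hm1 : m ≤ mb * (1 + η))
    (hm3 : mb * (1 - (η + Ka * sb)) ≤ m)
    (hU : r ≤ dsc * Pi * ((D' / D0 +
        (Ka * q + Ka * k * (sb + 2 * η) + KM * (2 * η) / k + η) / D0) * ((mb / m) ^ i *
          ((1 + η) * (1 + 2 * ε2 + η) ^ n * (1 + ε2) ^ n / (1 - η)))))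
    (hL : dsc * Pi * ((D' / D0 -
        (Ka * q + Ka * k * (sb + 2 * η) + KM * (2 * η) / k + η) / D0) * ((mb / m) ^ i *
          ((1 - η) * (1 - ε2 - η) ^ n * (1 - ε2) ^ n / (1 + η)))) ≤ r) :
    |r - dsc * (D' / D0) * Pi| ≤ K0 * Real.sqrt k * (q + k * (sb + ε2)) * (k : ℝ) ^ i * Pi := by
  have hk' : (1 : ℝ) ≤ k := by exact_mod_cast hk
  have hD0 : 0 < D0 := lt_of_lt_of_le (by positivity) hD
  have hsb0 : 0 ≤ sb := hη.trans hsb
  have hn4 : (4 : ℝ) ≤ (2 * n + 4 : ℕ) := by exact_mod_cast Nat.le_add_left 4 _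
  have a2 : 0 ≤ 2 * (3 * Ka + 2 * KM + 1) / cM := by positivity
  have hK3 : 4 * (2 * n + 4 : ℕ) * (2 * Ka + 4) ≤ K0 := by linarith only [a2, hK]
  have hσ0 : 0 ≤ sb + ε2 := by positivity
  have hx : ((2 * n + 4 : ℕ) : ℝ) * ((2 * Ka + 4) * (sb + ε2)) ≤ 1 / 4 := by
    have := mul_le_mul_of_nonneg_right hK3 hσ0
    linarith only [this, hσ]
  have hKs : 0 ≤ Ka * ε2 := by positivity
  have hKs' : 0 ≤ Ka * sb := by positivity
  have hx2 : (2 * Ka + 4) * (sb + ε2) ≤ 1 / 16 := by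
    have := mul_le_mul_of_nonneg_right hn4 (show 0 ≤ (2 * Ka + 4) * (sb + ε2) by positivity)
    linarith only [this, hx]
  obtain ⟨f1, f2, f3⟩ := factors n i (mb / m) η ε2 ((2 * Ka + 4) * (sb + ε2)) hi
    hx hη he (by linarith only [hKs, hKs', hsb, hsb0, he])
    (by
      rw [le_div_iff₀ hm]
      have h1 : (1 - η) * m ≤ (1 - η) * (mb * (1 + η)) :=
        mul_le_mul_of_nonneg_left hm1 (by linarith only [hx2, hKs, hKs', hsb, he])
      have h2 : (1 - (2 * Ka + 4) * (sb + ε2)) * m ≤ (1 - η) * m :=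
        mul_le_mul_of_nonneg_right (by linarith only [hKs, hKs', hsb, hsb0, he]) hm.le
      linarith only [h1, h2, mul_nonneg hmb.le (sq_nonneg η)])
    (by
      rw [div_le_iff₀ hm]
      have h1 : (1 + 2 * (η + Ka * sb)) * m ≤ (1 + (2 * Ka + 4) * (sb + ε2)) * m :=
        mul_le_mul_of_nonneg_right (by linarith only [hKs, hKs', hsb, hsb0, he]) hm.le
      have h2 := mul_le_mul_of_nonneg_left hm3 (show 0 ≤ 1 + 2 * (η + Ka * sb) by positivity)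
      have h3 : 0 ≤ mb * ((η + Ka * sb) * (1 - 2 * (η + Ka * sb))) :=
        mul_nonneg hmb.le (mul_nonneg (by positivity)
          (by linarith only [hx2, hKs, hKs', hsb, hsb0, he]))
      linarith only [h1, h2, h3])
  obtain ⟨hg1, hg2⟩ := abs_le.1 hg
  have hfinal := fin _ _ _ _ _ _ _ (mul_nonneg hd0 hPi) (by linarith only [hg1])
    (by linarith only [hg2]) (by positivity) hU hL f1 f2 f3 (by positivity) (by linarith only [hx])
  have herr := errs cM Ka KM K0 D0 q sb η ε2 n k hcM hKa hKM hk hD hq hη hsb he hK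
  rw [mul_right_comm]
  refine hfinal.trans ?_
  rw [mul_assoc _ ((k : ℝ) ^ i)]
  refine mul_le_mul herr (mul_le_mul_of_nonneg_right hd hPi) (by positivity) ?_
  exact le_trans (by positivity) herr

theorem small (K0 q sb ε2 : ℝ) (k : ℕ) (hk : 1 ≤ k) (hK : 8 ≤ K0) (hq : 0 ≤ q) (hsb : 0 ≤ sb)
    (he : 0 ≤ ε2) (h : K0 * Real.sqrt k * (q + k * (sb + ε2)) ≤ 1) :
    K0 * (sb + ε2) ≤ 1 ∧ ε2 ≤ 1 / 8 := by
  have hk' : (1 : ℝ) ≤ k := by exact_mod_cast hk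
  have h1 : K0 * (sb + ε2) ≤ 1 := by
    refine le_trans ?_ h
    rw [mul_assoc]
    refine mul_le_mul_of_nonneg_left ?_ (by linarith)
    refine le_trans ?_ (le_mul_of_one_le_left (by positivity) (Real.one_le_sqrt.2 hk'))
    have := le_mul_of_one_le_left (show 0 ≤ sb + ε2 by positivity) hk'
    linarith
  refine ⟨h1, ?_⟩
  have := mul_le_mul_of_nonneg_right hK (show 0 ≤ sb + ε2 by positivity)
  linarith

theorem eone (k P n c0 Ka η T m : ℝ) (hk0 : 0 ≤ k) (hk : k ≤ P) (hn : 0 ≤ n) (hc : 0 < c0)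
    (hKa : 0 < Ka) (hη : 0 < η) (hT : 0 < T) (hm : c0 / 2 ≤ m)
    (h : 3 * P ^ 2 * (2 * n / c0) * Ka / η ≤ T) : 3 * k ^ 2 * (n / (T * m)) * Ka ≤ η := by
  have hm0 : 0 < m := by linarith
  have h0 : 3 * P ^ 2 * (2 * n / c0) * Ka / T ≤ η := by
    rw [div_le_iff₀ hη] at h
    rw [div_le_iff₀ hT]
    linarith
  refine le_trans ?_ h0
  have h1 : n / (T * m) ≤ 2 * n / c0 / T := by
    rw [div_div, div_le_div_iff₀ (by positivity) (by positivity)]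
    have := mul_le_mul_of_nonneg_left hm (show 0 ≤ 2 * n * T by positivity)
    linarith
  calc _ ≤ 3 * P ^ 2 * (2 * n / c0 / T) * Ka := by gcongr
    _ = _ := by ring

theorem step (hE : St_EMB) (hFib : St_FIB) (hDi : St_DIST) (hTU : St_TUPU) (hTL : St_TUPL)
    {K : Type} [Field K] [NumberField K] {D : ND K} (hD : D.OK) (hB : Bas D) {M : Mdl K}
    (hM : M.OK D) {f : Fr K} (hf : f.OK M) {ρ0 δ : ℝ} (hC : D.Cnt ρ0) (hδ : 0 < δ) {ι : Type}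
    {Mj : Finset ι} {Pt : ι → FI K} {p : ι → ℕ} (hW : Win D.F f.T Mj Pt p) (hMne : Mj.Nonempty)
    (Dq : ℕ → ℝ → ℝ) (u c0 η sb q Ka KM cM K0 mb s0 ε : ℝ) (γ j k N : ℕ)
    (hc0 : 0 < c0) (hη : 0 < η) (hη2 : η ≤ 1 / 100) (hsb : η ≤ sb) (hq : 0 ≤ q) (hKa : 0 < Ka)
    (hKM : 0 < KM) (hcM : 0 < cM) (hK8 : 8 ≤ K0)
    (hK : 2 * (3 * Ka + 2 * KM + 1) / cM + 4 * (2 * rk K + 4 : ℕ) * (2 * Ka + 4) ≤ K0)
    (hmb : 0 < mb) (hm4 : c0 / 2 ≤ mass Mj p) (hm1 : mass Mj p ≤ mb * (1 + η))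
    (hm3 : mb * (1 - (η + Ka * sb)) ≤ mass Mj p) (hs1 : k ≤ s0) (hs2 : s0 ≤ 2 * k)
    (hγ : 1 ≤ γ) (hj : j + 4 ≤ k) (hk7 : 7 ≤ k) (hku : rk K * (3 * |u| + 2) + 1 ≤ k)
    (hkP : 3 * k ≤ f.P) (hΔ : D.Δ ≤ f.T ^ u) (hT4 : 8 * (rk K : ℝ) ^ 3 / η ≤ f.T)
    (hT5 : 3 * (f.P : ℝ) ^ 2 * (2 * rk K / c0) * Ka / η ≤ f.T)
    (hnl : 3 * rk K / Real.log f.T ≤ η) (hnl2 : rk K < Real.log f.T)
    (he0 : f.P * f.e0 = η * (1 / Real.sqrt f.T)) (hε : 1 / Real.sqrt f.T ≤ ε)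
    (hBne : f.B.Nonempty) (hGr : GrOK M.b δ f.L f.N1 f.e0 η)
    (hsup : ∀ m, j ≤ m → ∀ τ, (Fintype.card M.H * (f.N1 : ℝ) ^ rk K) *
      tupP (Mj ×ˢ f.B ×ˢ range f.L1) (wn Mj p f.B f.L1) (fpos (fh M Pt) (fv f Pt) (fl f Pt)) m τ
        ≤ Ka * f.P)
    (hloc : ∀ X ⊆ Mj, X.card ≤ 2 → ∀ (h0 : M.H) (b : GC K),
      |(Fintype.card M.H * (f.N1 : ℝ) ^ rk K) *
        tupP (Mj ×ˢ f.B ×ˢ range f.L1) (wn Mj p f.B f.L1) (fpos (fh M Pt) (fv f Pt) (fl f Pt))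
          (k - X.card) (gpos f M (N • h0 - ∑ x ∈ X, M.cl (Pt x)) b) / (f.P * γ) -
        Dq (k - X.card) (b.2 * f.P / f.N1)| ≤ Ka * q + Ka * k * (sb + 2 * η))
    (d1 : cM / Real.sqrt k ≤ Dq k s0)
    (d3 : ∀ m : ℕ, k ≤ m + 2 → ∀ s s' : ℝ, |Dq m s - Dq m s'| ≤ KM * |s - s'| / k)
    (d5 : ∀ b : ℝ, 1 ≤ b → b ≤ 2 → |Dq (k - 1) (s0 - b) / Dq k s0 - 1| ≤ 1 / 2)
    (d6 : ∀ b : ℝ, 2 ≤ b → b ≤ 4 → |Dq (k - 2) (s0 - b) / Dq k s0 - 1| ≤ 1 / 2)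
    (A1 : FI K) (z g0 : K) (ρ : InfinitePlace K → ℝ) (ε2 : ℝ) (X : Finset ι)
    (hA1 : Cop D.F A1) (hz : D.Un z) (hg0 : g0 ∈ D.L (A1 ^ N)) (hcg : D.Cg g0 (z ^ N))
    (hρ : ∀ w, ε ≤ ρ w ∧ ρ w ≤ ε2)
    (hnorm : |Real.log (Nv (emb g0) / nI (A1 ^ N)) / Real.log f.T - s0| ≤ η)
    (hXM : X ⊆ Mj) (hXi : Set.InjOn p (X : Set ι)) (hX2 : X.card ≤ 2)
    (herr : K0 * Real.sqrt k * (q + k * (sb + ε2)) ≤ 1) :
    (D.Bl (A1 ^ N) D.Q g0 (emb g0) ρ).Finite ∧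
    |nSpl D (A1 ^ N) Mj Pt p k X g0 ρ /
          (γ * Dq k s0 * mass Mj p ^ k / (k.factorial * (rho D M ρ0 δ * Real.log f.T)) *
            (D.Bl (A1 ^ N) D.Q g0 (emb g0) ρ).ncard) -
        k.descFactorial X.card *
          (Dq (k - X.card) (s0 - ∑ x ∈ X, Real.log (p x) / Real.log f.T) / Dq k s0) *
            ∏ x ∈ X, 1 / (mb * p x)|
      ≤ K0 * Real.sqrt k * (q + k * (sb + ε2)) * (k : ℝ) ^ X.card * ∏ x ∈ X, 1 / (mb * p x) := by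
  have hT1 := hf.T1
  have hT0 : 0 < f.T := by linarith only [hT1]
  have hl0 : 0 < Real.log f.T := Real.log_pos hT1
  have hk1 : 1 ≤ k := by omega
  have hk7' : (7 : ℝ) ≤ k := by exact_mod_cast hk7
  have hkP' : 3 * (k : ℝ) ≤ f.P := by exact_mod_cast hkP
  have hD0 : 0 < Dq k s0 := lt_of_lt_of_le (by positivity) d1
  have hm0 : 0 < mass Mj p := by linarith only [hm4, hc0]
  obtain ⟨hn1, hn2⟩ := abs_le.1 hnorm
  obtain ⟨w0⟩ : Nonempty (InfinitePlace K) := inferInstance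
  have hg0ne : g0 ≠ 0 := by
    rintro rfl
    have : Nv (emb (0 : K)) = 0 := prod_eq_zero (mem_univ w0) (by simp [emb])
    rw [this, zero_div, Real.log_zero, zero_div] at hn1
    linarith only [hn1, hs1, hk7', hη2]
  have hNv : 0 < Nv (emb g0) := prod_pos fun w _ =>
    pow_pos (norm_pos_iff.2 ((map_ne_zero w.embedding).2 hg0ne)) 2
  have hA0 := cop_pow hB A1 hA1 N
  have hsq : 0 < 1 / Real.sqrt f.T := one_div_pos.2 (Real.sqrt_pos.2 hT0)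
  have hε0 : 0 < ε := lt_of_lt_of_le hsq hε
  have hε2 : 0 ≤ ε2 := (hε0.le.trans (hρ w0).1).trans (hρ w0).2
  obtain ⟨hσ, hε3⟩ := small K0 q sb ε2 k hk1 hK8 hq (hη.le.trans hsb) hε2 herr
  obtain ⟨hfin, hcnt⟩ := hC.2 (A1 ^ N) D.Q g0 (emb g0) ρ (1 / Real.sqrt f.T) η hA0
    (le_trans (by norm_num) hD.Q3) hsq hη (by linarith only [hη2])
    (fun w => ⟨hε.trans (hρ w).1, by linarith only [(hρ w).2, hε3]⟩)
    (big (rk K) u η f.T D.Q D.Δ _ _ (k - 1) hT1.le hη (Nat.cast_nonneg _)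
      (le_trans (by exact_mod_cast Nat.le_of_dvd hD.Fpos hD.QF) hD.FΔ) hΔ hT4 (hB.nI_pos _) hNv hT1
      (by linarith only [hn1, hs1, hη2]) (by linarith only [hku]))
  refine ⟨hfin, ?_⟩
  obtain ⟨B1, hB1⟩ := hB.div_ex z hz.1
  have hB1c := hB.un_cop z B1 hz hB1
  have hzN := un_pow hB z hz N
  obtain ⟨ζ, hζ⟩ := exists_log (g0 / z ^ N) (div_ne_zero hg0ne hzN.1)
  have hTg : Tgt D M f Mj Pt p k X (A1 ^ N) (B1 ^ N) (z ^ N) g0 ζ ρ ε2 :=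
    ⟨hD, hM, hf, hW, hMne, hXM, hXi, by omega, hA0, hzN, div_pow' hB z B1 hB1 N, hg0, hcg, hg0ne,
      hζ, fun w => ⟨hε0.trans_le (hρ w).1, (hρ w).2⟩, by linarith only [hε3], hfin⟩
  have hzx := nm_zX hE hB hD hM Pt p X (fun x hx => (hW.1 x (hXM hx)).1) (A1 ^ N) (B1 ^ N) (z ^ N)
    g0 ζ hTg.div hNv hζ
  have ha12 : ∀ x ∈ X, 1 ≤ Real.log (p x) / Real.log f.T ∧ Real.log (p x) / Real.log f.T ≤ 2 :=
    fun x hx => by
      obtain ⟨-, h1, h2⟩ := hW.1 x (hXM hx)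
      refine ⟨(one_le_div hl0).2 (Real.log_le_log hT0 h1), (div_le_iff₀ hl0).2 ?_⟩
      have := Real.log_le_log (hT0.trans_le h1) h2
      rwa [Real.log_pow, Nat.cast_ofNat] at this
  have hzx' : nm (zX M Pt X (A1 ^ N) (B1 ^ N) ζ) / Real.log f.T =
      Real.log (Nv (emb g0) / nI (A1 ^ N)) / Real.log f.T -
        ∑ x ∈ X, Real.log (p x) / Real.log f.T := by
    rw [hzx, sub_div, sum_div]
  have hsa1 : (X.card : ℝ) ≤ ∑ x ∈ X, Real.log (p x) / Real.log f.T := by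
    have := card_nsmul_le_sum X _ 1 fun x hx => (ha12 x hx).1
    rwa [nsmul_eq_mul, mul_one] at this
  have hsa2 : ∑ x ∈ X, Real.log (p x) / Real.log f.T ≤ X.card * 2 := by
    have := sum_le_card_nsmul X _ 2 fun x hx => (ha12 x hx).2
    rwa [nsmul_eq_mul] at this
  generalize ∑ x ∈ X, Real.log (p x) / Real.log f.T = sa at hzx' hsa1 hsa2 ⊢
  have hX2' : (X.card : ℝ) ≤ 2 := by exact_mod_cast hX2
  have hsa0 : 0 ≤ sa := (Nat.cast_nonneg _).trans hsa1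
  have hg : |Dq (k - X.card) (s0 - sa) / Dq k s0 - 1| ≤ 1 / 2 := by
    obtain h | h | h : X.card = 0 ∨ X.card = 1 ∨ X.card = 2 := by omega
    · have : sa = 0 := by rw [h] at hsa2; push_cast at hsa2; linarith only [hsa0, hsa2]
      rw [h, this, Nat.sub_zero, sub_zero, div_self hD0.ne']
      norm_num
    · rw [h] at hsa1 hsa2 ⊢
      push_cast at hsa1 hsa2
      exact d5 sa hsa1 (by linarith only [hsa2])
    · rw [h] at hsa1 hsa2 ⊢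
      push_cast at hsa1 hsa2
      exact d6 sa hsa1 (by linarith only [hsa2])
  have hD'0 : 0 ≤ Dq (k - X.card) (s0 - sa) := by
    have : 0 ≤ Dq (k - X.card) (s0 - sa) / Dq k s0 := by linarith only [(abs_le.1 hg).1]
    exact (div_nonneg_iff.1 this).elim (·.1) fun h => absurd h.2 (not_le.2 hD0)
  obtain ⟨e2r, -⟩ := hE K hD.tc
  have hsb0 : 0 ≤ sb := hη.le.trans hsb
  obtain ⟨hU, hL⟩ := core hE hFib hDi hTU hTL hB hTg ρ0 δ η Ka (Dq (k - X.card) (s0 - sa)) (Dq k s0)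
    (Ka * q + Ka * k * (sb + 2 * η) + KM * (2 * η) / k) η mb γ j hC.1 hδ hη.le
    (by linarith only [hη2]) hε3 hγ hk1 hX2 hj hD'0 hD0 (by positivity) hKa.le hmb hBne hGr
    (fun w => by
      calc 3 * k * f.e0 ≤ f.P * f.e0 := mul_le_mul_of_nonneg_right hkP' hf.e0.le
        _ = η * (1 / Real.sqrt f.T) := he0
        _ ≤ η * ρ w := mul_le_mul_of_nonneg_left (hε.trans (hρ w).1) hη.le)
    hcnt hsup
    (fun b hb => by
      have h1 := hloc X hXM hX2 (M.cl B1 - M.cl A1) b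
      have h2 : N • (M.cl B1 - M.cl A1) - ∑ x ∈ X, M.cl (Pt x) = hX M Pt X (A1 ^ N) (B1 ^ N) := by
        rw [hX, cl_pow hB hM _ hB1c, cl_pow hB hM _ hA1, nsmul_sub]
      rw [h2] at h1
      have h3 := d3 (k - X.card) (by omega) (b.2 * f.P / f.N1) (s0 - sa)
      have h4 : (b.2 : ℝ) * f.P / f.N1 = nm (f.gm M b) / Real.log f.T := by
        rw [Fr.gm, nm_gam e2r _ hM.lu.2.1, Fr.L, div_div, ← mul_assoc, mul_div_mul_right _ _ hl0.ne']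
      have h5 : |(b.2 : ℝ) * f.P / f.N1 - (s0 - sa)| ≤ 2 * η := by
        have h6 : |nm (f.gm M b) / Real.log f.T -
            nm (zX M Pt X (A1 ^ N) (B1 ^ N) ζ) / Real.log f.T| ≤ η := by
          rw [← sub_div, abs_div, abs_of_pos hl0]
          refine le_trans (div_le_div_of_nonneg_right (hb.trans ?_) hl0.le) hnl
          exact le_mul_of_one_le_left (Nat.cast_nonneg _) (by norm_num)
        rw [hzx'] at h6
        rw [h4, abs_le]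
        constructor <;> linarith only [(abs_le.1 h6).1, (abs_le.1 h6).2, hn1, hn2]
      have h7 : KM * |(b.2 : ℝ) * f.P / f.N1 - (s0 - sa)| / k ≤ KM * (2 * η) / k :=
        div_le_div_of_nonneg_right (mul_le_mul_of_nonneg_left h5 hKM.le) (Nat.cast_nonneg _)
      exact (abs_sub_le _ _ _).trans (add_le_add h1 (h3.trans h7)))
    (eone k f.P (rk K) c0 Ka η f.T _ (Nat.cast_nonneg _) (by linarith only [hkP', hk7'])
      (Nat.cast_nonneg _) hc0 hKa hη hT0 hm4 hT5)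
    (by
      have : 0 ≤ nm (zX M Pt X (A1 ^ N) (B1 ^ N) ζ) / Real.log f.T := by
        rw [hzx']; linarith only [hn1, hs1, hk7', hsa2, hX2', hη2]
      exact (div_nonneg_iff.1 this).elim (·.1) fun h => absurd h.2 (not_le.2 hl0))
    (by rw [← div_le_iff₀ hl0, hzx']; linarith only [hn2, hs2, hsa0, hη2])
    (by
      have h1 := mul_le_mul_of_nonneg_right hkP' hl0.le
      have h2 := mul_le_mul_of_nonneg_right hk7' hl0.le
      unfold Fr.L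
      linarith only [h1, h2, hnl2, hl0])
  exact close _ _ _ _ _ mb _ η ε2 sb q Ka KM cM K0 (rk K) X.card k hX2 hk1 hcM hKa hKM
    (Nat.cast_nonneg _) (by exact_mod_cast Nat.descFactorial_le_pow k X.card)
    (prod_nonneg fun x _ => by positivity) d1 hg hq hη.le hsb hε2 hK hσ hmb hm0 hm1 hm3 hU hL

end TUP

end Pool.Agent.Lib.BK2.NT
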