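import Pool.Agent.Lib.BK2.RDefs

open Polynomial

noncomputable section

namespace Pool.Agent.Lib.BK2.OBS

theorem hasDerivAt_log_norm {g : ℝ → ℂ} {g' : ℂ} {x : ℝ} (h : HasDerivAt g g' x) (h0 : g x ≠ 0) :
    HasDerivAt (fun ε => Real.log ‖g ε‖) (g' / g x).re x := by
  have h1 : ‖g x‖ ^ 2 ≠ 0 := pow_ne_zero _ (norm_ne_zero_iff.2 h0)
  have h2 := (h.norm_sq.log h1).const_mul (1 / 2 : ℝ)
  have e1 : (fun ε => Real.log ‖g ε‖) = fun ε => 1 / 2 * Real.log (‖g ε‖ ^ 2) := by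
    funext ε
    rw [Real.log_pow]
    push_cast
    ring
  have e2 : (g' / g x).re = 1 / 2 * (2 * inner ℝ (g x) g' / ‖g x‖ ^ 2) := by
    rw [Complex.div_re, Complex.inner, Complex.normSq_eq_norm_sq]
    simp only [Complex.mul_re, Complex.conj_re, Complex.conj_im]
    field_simp
    ring
  rw [e1, e2]
  exact h2

theorem lin_zero {V : Type} [NormedAddCommGroup V] [NormedSpace ℝ V] {f : V → ℝ}
    (hf : IsLinearMap ℝ f) {U : Set V} (hU : IsOpen U) (hne : U.Nonempty)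
    (h : ∀ v ∈ U, f v = 0) (v : V) : f v = 0 := by
  obtain ⟨v₀, h₀⟩ := hne
  have h1 : Continuous fun ε : ℝ => v₀ + ε • v := by fun_prop
  have h2 : ∀ᶠ ε in nhds (0 : ℝ), v₀ + ε • v ∈ U :=
    h1.continuousAt.eventually (hU.mem_nhds (by simpa using h₀))
  obtain ⟨ε, h3, h4⟩ := ((h2.filter_mono (nhdsWithin_le_nhds (s := {0}ᶜ))).and
    self_mem_nhdsWithin).exists
  have h5 := h _ h3
  rw [hf.map_add, hf.map_smul, h _ h₀, zero_add, smul_eq_mul] at h5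
  exact (mul_eq_zero.1 h5).resolve_left h4

variable {B : Type} [CommRing B] [Algebra ℤ[X] B] {d : ℕ} [NeZero d] {Γ : Geo B d}

theorem ev_add {m : ℕ} (φ : B →+* ℂ) (e e' : Γ.Ix m → ℝ) :
    Γ.ev φ (e + e') = Γ.ev φ e + Γ.ev φ e' := by
  simp [Geo.ev, add_mul, Finset.sum_add_distrib]

theorem ev_smul {m : ℕ} (φ : B →+* ℂ) (c : ℝ) (e : Γ.Ix m → ℝ) :
    Γ.ev φ (c • e) = c * Γ.ev φ e := by
  simp [Geo.ev, Finset.mul_sum, mul_assoc]

theorem mulv_add_left {a a' : ℕ} (c : ℕ) (e e' : Γ.Ix a → ℝ) (s : Γ.Ix a' → ℝ) :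
    Γ.mulv c (e + e') s = Γ.mulv c e s + Γ.mulv c e' s := by
  funext k
  simp [Geo.mulv, add_mul, Finset.sum_add_distrib]

theorem mulv_smul_left {a a' : ℕ} (c : ℕ) (r : ℝ) (e : Γ.Ix a → ℝ) (s : Γ.Ix a' → ℝ) :
    Γ.mulv c (r • e) s = r • Γ.mulv c e s := by
  funext k
  simp [Geo.mulv, Finset.mul_sum, mul_assoc]

theorem exists_one (Γ : Geo B d) (m : ℕ) : ∃ o : Γ.Ix m → ℝ, ∀ φ : B →+* ℂ, Γ.ev φ o = 1 := by
  classical
  refine ⟨Pi.single ⟨0, ⟨0, by rw [Γ.δ0]; omega⟩⟩ 1, fun φ => ?_⟩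
  rw [Geo.ev, Finset.sum_eq_single ⟨0, ⟨0, by rw [Γ.δ0]; omega⟩⟩]
  · simp [Geo.mon, Γ.b0]
  · intro i _ hi
    simp [Pi.single_eq_of_ne hi]
  · simp

theorem line_mem {I : Type} [Fintype I] {U : Set (I → ℝ)} (hU : IsOpen U) {w : I → ℝ}
    (hw : w ∈ U) (u : I → ℝ) : ∀ᶠ ε in nhds (0 : ℝ), w + ε • u ∈ U := by
  have h1 : Continuous fun ε : ℝ => w + ε • u := by fun_prop
  exact h1.continuousAt.eventually (hU.mem_nhds (by simpa using hw))

/-- First order motion of a labelled zero. -/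
theorem motion (hD : St_RDER) {m ν : ℕ} {U : Set (Γ.Ix m → ℝ)} (ρ : Γ.Roots m ν U)
    {w : Γ.Ix m → ℝ} (hw : w ∈ U) (s : Fin ν) :
    ∃ D : B →+ ℂ, IsDer (ρ.φ w s) D ∧ ∀ (u : Γ.Ix m → ℝ) (f : B),
      HasDerivAt (fun ε : ℝ => ρ.φ (w + ε • u) s f) (-(Γ.ev (ρ.φ w s) u * D f)) 0 := by
  have hd : ∀ f, DifferentiableAt ℝ (fun e => ρ.φ e s f) w := fun f =>
    ((ρ.smooth s f).contDiffAt (ρ.op.mem_nhds hw)).differentiableAt one_ne_zero
  have hl : ∀ u : Γ.Ix m → ℝ, HasDerivAt (fun ε : ℝ => w + ε • u) u 0 := fun u => by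
    simpa using ((hasDerivAt_id (0 : ℝ)).smul_const u).const_add w
  have hk : ∀ (u : Γ.Ix m → ℝ) (f : B), HasDerivAt (fun ε : ℝ => ρ.φ (w + ε • u) s f)
      (fderiv ℝ (fun e => ρ.φ e s f) w u) 0 := fun u f =>
    (hd f).hasFDerivAt.comp_hasDerivAt_of_eq 0 (hl u) (by simp)
  let Du : (Γ.Ix m → ℝ) → B →+ ℂ := fun u => AddMonoidHom.mk'
    (fun f => fderiv ℝ (fun e => ρ.φ e s f) w u) fun f g =>
      (hk u (f + g)).unique (by simpa only [map_add] using (hk u f).fun_add (hk u g))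
  have hk' : ∀ (u : Γ.Ix m → ℝ) (f : B), HasDerivAt (fun ε : ℝ => ρ.φ (w + ε • u) s f)
      (Du u f) 0 := hk
  have hder : ∀ u, IsDer (ρ.φ w s) (Du u) := fun u f g => by
    have h1 := (hk' u f).fun_mul (hk' u g)
    simp only [zero_smul, add_zero] at h1
    have h2 := (hk' u (f * g)).unique (by simpa only [map_mul] using h1)
    rw [h2]
    ring
  have hz : ∀ u, Γ.dev (Du u) w + Γ.ev (ρ.φ w s) u = 0 := fun u => by
    have h1 : HasDerivAt (fun ε : ℝ => Γ.ev (ρ.φ (w + ε • u) s) (w + ε • u))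
        (∑ i, ((u i : ℂ) * ρ.φ w s (Γ.mon i) + (w i : ℂ) * Du u (Γ.mon i))) 0 := by
      refine HasDerivAt.fun_sum fun i _ => ?_
      have h2 : HasDerivAt (fun ε : ℝ => (((w + ε • u) i : ℝ) : ℂ)) (u i : ℂ) 0 :=
        (hasDerivAt_pi.1 (hl u) i).ofReal_comp
      simpa using h2.fun_mul (hk' u (Γ.mon i))
    have h3 : HasDerivAt (fun ε : ℝ => Γ.ev (ρ.φ (w + ε • u) s) (w + ε • u)) 0 0 :=
      (hasDerivAt_const (0 : ℝ) (0 : ℂ)).congr_of_eventuallyEq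
        ((line_mem ρ.op hw u).mono fun ε hε => ρ.zero _ hε s)
    have h4 := h1.unique h3
    rw [Finset.sum_add_distrib] at h4
    rw [add_comm]
    exact h4
  obtain ⟨o, ho⟩ := exists_one Γ m
  refine ⟨-Du o, fun f g => by rw [AddMonoidHom.neg_apply, hder o f g]; simp; ring, fun u f => ?_⟩
  let c := Γ.ev (ρ.φ w s) u
  let E : B →+ ℂ := Du u - (AddMonoidHom.mulLeft c).comp (Du o)
  have hE : ∀ g, E g = Du u g - c * Du o g := fun g => rfl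
  have h0 : E = 0 := by
    refine hD B d Γ m ν U ρ w hw s E (fun f g => ?_) ?_
    · rw [hE, hE, hE, hder u, hder o]
      ring
    · have h1 := hz u
      have h2 := hz o
      rw [ho] at h2
      have h3 : Γ.dev E w = Γ.dev (Du u) w - c * Γ.dev (Du o) w := by
        simp only [Geo.dev, hE, Finset.mul_sum, ← Finset.sum_sub_distrib]
        exact Finset.sum_congr rfl fun i _ => by ring
      rw [h3]
      linear_combination h1 - c * h2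
  have h5 : Du u f = -(c * (-Du o) f) := by
    have := hE f
    rw [h0, AddMonoidHom.zero_apply] at this
    rw [AddMonoidHom.neg_apply]
    linear_combination -this
  rw [← h5]
  exact hk' u f

variable {L : Type} [Field L] [Algebra ℚ L] {n : ℕ} {y : Fin (n + 1) → L} (μ : Γ.Model y)

theorem evC_add {m : ℕ} (e e' : Γ.Ix m → ℝ) (z : Fin (n + 1) → ℂ) :
    μ.evC (e + e') z = μ.evC e z + μ.evC e' z := by
  simp [Geo.Model.evC, add_mul, Finset.sum_add_distrib]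

theorem evC_smul {m : ℕ} (c : ℝ) (e : Γ.Ix m → ℝ) (z : Fin (n + 1) → ℂ) :
    μ.evC (c • e) z = c * μ.evC e z := by
  simp [Geo.Model.evC, Finset.mul_sum, mul_assoc]

theorem dC_add {m : ℕ} (e e' : Γ.Ix m → ℝ) (z v : Fin (n + 1) → ℂ) :
    μ.dC (e + e') z v = μ.dC e z v + μ.dC e' z v := by
  simp [Geo.Model.dC, add_mul, Finset.sum_add_distrib]

theorem dC_smul {m : ℕ} (c : ℝ) (e : Γ.Ix m → ℝ) (z v : Fin (n + 1) → ℂ) :
    μ.dC (c • e) z v = c * μ.dC e z v := by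
  simp [Geo.Model.dC, Finset.mul_sum, mul_assoc]

theorem evC_smooth (hC : St_CHAIN) (γ : Loop y) {m : ℕ} (e : Γ.Ix m → ℝ) :
    ContDiff ℝ 1 fun u => μ.evC e (γ.pt u) :=
  ContDiff.sum fun i _ => contDiff_const.mul ((hC L n y γ).1 (μ.rep m i)).1

theorem evC_deriv (hC : St_CHAIN) (γ : Loop y) {m : ℕ} (e : Γ.Ix m → ℝ) (u : ℝ) :
    deriv (fun u => μ.evC e (γ.pt u)) u = μ.dC e (γ.pt u) (deriv γ.pt u) :=
  (HasDerivAt.fun_sum fun i _ =>
    (((hC L n y γ).1 (μ.rep m i)).2 u).const_mul (e i : ℂ)).deriv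

theorem dC_cont (hC : St_CHAIN) (γ : Loop y) {m : ℕ} (e : Γ.Ix m → ℝ) :
    Continuous fun u => μ.dC e (γ.pt u) (deriv γ.pt u) := by
  have h := (evC_smooth μ hC γ e).continuous_deriv le_rfl
  rwa [funext (evC_deriv μ hC γ e)] at h

/-- Continuity along the loops. -/
def Ct {ι : Type} (γ : ι → Loop y) (ξ : (Fin (n + 1) → ℂ) → (Fin (n + 1) → ℂ) → ℂ) : Prop :=
  ∀ l, Continuous fun u => ξ ((γ l).pt u) (deriv (γ l).pt u)

/-- The period part of the functional. -/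
def T2 {ι : Type} [Fintype ι] (γ : ι → Loop y) (a : ι → ℝ) (W : (Fin (n + 1) → ℂ) → ℂ)
    (ξ : (Fin (n + 1) → ℂ) → (Fin (n + 1) → ℂ) → ℂ) : ℝ :=
  ∑ l, a l * (∫ u in (0 : ℝ)..1, ξ ((γ l).pt u) (deriv (γ l).pt u) / W ((γ l).pt u)).im

variable {ι : Type} [Fintype ι] {γ : ι → Loop y} {a : ι → ℝ} {W : (Fin (n + 1) → ℂ) → ℂ}

theorem T2_add (hW : ∀ l, Continuous fun u => W ((γ l).pt u)) (h0 : ∀ l u, W ((γ l).pt u) ≠ 0)
    {ξ ξ' : (Fin (n + 1) → ℂ) → (Fin (n + 1) → ℂ) → ℂ} (h : Ct γ ξ) (h' : Ct γ ξ') :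
    T2 γ a W (ξ + ξ') = T2 γ a W ξ + T2 γ a W ξ' := by
  rw [T2, T2, T2, ← Finset.sum_add_distrib]
  refine Finset.sum_congr rfl fun l _ => ?_
  rw [← mul_add, ← Complex.add_im, ← intervalIntegral.integral_add
    (((h l).div₀ (hW l) (h0 l)).intervalIntegrable _ _)
    (((h' l).div₀ (hW l) (h0 l)).intervalIntegrable _ _)]
  simp only [Pi.add_apply, add_div]

theorem T2_smul (c : ℝ) (ξ : (Fin (n + 1) → ℂ) → (Fin (n + 1) → ℂ) → ℂ) :
    T2 γ a W (c • ξ) = c * T2 γ a W ξ := by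
  rw [T2, T2, Finset.mul_sum]
  refine Finset.sum_congr rfl fun l _ => ?_
  simp only [Pi.smul_apply, smul_div_assoc, intervalIntegral.integral_smul, Complex.smul_im,
    smul_eq_mul]
  ring

theorem T2_congr {ξ ξ' : (Fin (n + 1) → ℂ) → (Fin (n + 1) → ℂ) → ℂ}
    (h : ∀ l u, ξ ((γ l).pt u) (deriv (γ l).pt u) = ξ' ((γ l).pt u) (deriv (γ l).pt u)) :
    T2 γ a W ξ = T2 γ a W ξ' := by
  simp only [T2, h]

omit [Fintype ι] in
theorem Ct.add {ξ ξ' : (Fin (n + 1) → ℂ) → (Fin (n + 1) → ℂ) → ℂ} (h : Ct γ ξ) (h' : Ct γ ξ') :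
    Ct γ (ξ + ξ') := fun l => (h l).add (h' l)

omit [Fintype ι] in
theorem Ct.smul {ξ : (Fin (n + 1) → ℂ) → (Fin (n + 1) → ℂ) → ℂ} (c : ℝ) (h : Ct γ ξ) :
    Ct γ (c • ξ) := fun l => (h l).const_smul c

omit [Fintype ι] in
theorem ct_wr (hC : St_CHAIN) {k m : ℕ} (s : Γ.Ix k → ℝ) (e e' : Γ.Ix m → ℝ) :
    Ct γ (μ.wr s e e') := fun l =>
  (evC_smooth μ hC (γ l) s).continuous.mul
    (((evC_smooth μ hC (γ l) e').continuous.mul (dC_cont μ hC (γ l) e)).sub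
      ((evC_smooth μ hC (γ l) e).continuous.mul (dC_cont μ hC (γ l) e')))

theorem wr_add {k m : ℕ} (s : Γ.Ix k → ℝ) (e₁ e₂ e' : Γ.Ix m → ℝ) :
    μ.wr s (e₁ + e₂) e' = μ.wr s e₁ e' + μ.wr s e₂ e' := by
  funext z v
  simp only [Geo.Model.wr, Pi.add_apply, evC_add, dC_add]
  ring

theorem wr_smul {k m : ℕ} (s : Γ.Ix k → ℝ) (c : ℝ) (e e' : Γ.Ix m → ℝ) :
    μ.wr s (c • e) e' = c • μ.wr s e e' := by
  funext z v
  simp only [Geo.Model.wr, Pi.smul_apply, evC_smul, dC_smul, Complex.real_smul]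
  ring

theorem wr_swap {k m : ℕ} (s : Γ.Ix k → ℝ) (e e' : Γ.Ix m → ℝ) :
    μ.wr s e e' = (-1 : ℝ) • μ.wr s e' e := by
  funext z v
  simp only [Geo.Model.wr, Pi.smul_apply, Complex.real_smul]
  push_cast
  ring

/-- The form `u de / e`. -/
def xi {m m' : ℕ} (e : Γ.Ix m → ℝ) (u : Γ.Ix m' → ℝ) (z v : Fin (n + 1) → ℂ) : ℂ :=
  μ.evC u z * (μ.dC e z v / μ.evC e z)

theorem xi_add {m m' : ℕ} (e : Γ.Ix m → ℝ) (u u' : Γ.Ix m' → ℝ) :
    xi μ e (u + u') = xi μ e u + xi μ e u' := by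
  funext z v
  simp only [xi, Pi.add_apply, evC_add]
  ring

theorem xi_smul {m m' : ℕ} (e : Γ.Ix m → ℝ) (c : ℝ) (u : Γ.Ix m' → ℝ) :
    xi μ e (c • u) = c • xi μ e u := by
  funext z v
  simp only [xi, Pi.smul_apply, evC_smul, Complex.real_smul]
  ring

omit [Fintype ι] in
theorem ct_xi (hC : St_CHAIN) {m m' : ℕ} {e : Γ.Ix m → ℝ}
    (he : ∀ l u, μ.evC e ((γ l).pt u) ≠ 0) (u : Γ.Ix m' → ℝ) : Ct γ (xi μ e u) := fun l =>
  (evC_smooth μ hC (γ l) u).continuous.mul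
    ((dC_cont μ hC (γ l) e).div (evC_smooth μ hC (γ l) e).continuous (he l))

theorem phi_deriv (hC : St_CHAIN) (hP : St_PHI2) {m m' : ℕ} {e : Γ.Ix m → ℝ} {w : Γ.Ix m' → ℝ}
    (he : ∀ l u, μ.evC e ((γ l).pt u) ≠ 0) (hw : ∀ l u, μ.evC w ((γ l).pt u) ≠ 0)
    (u : Γ.Ix m' → ℝ) :
    HasDerivAt (fun ε : ℝ => μ.Phi γ a e (w + ε • u)) (-T2 γ a (μ.evC w) (xi μ e u)) 0 := by
  rw [T2, ← Finset.sum_neg_distrib]
  refine HasDerivAt.fun_sum fun l _ => ?_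
  have hp : (γ l).pt 1 = (γ l).pt 0 := by simpa using (γ l).closed 0
  have h := (hP _ _ _ (evC_smooth μ hC (γ l) e) (evC_smooth μ hC (γ l) w)
    (evC_smooth μ hC (γ l) u) (by simp only [hp]) (by simp only [hp]) (by simp only [hp])
    (he l) (hw l)).const_mul (a l)
  simp only [evC_deriv μ hC] at h
  simp only [evC_add, evC_smul, xi]
  have e1 : ∀ p q r : ℂ, p * r / q = p / q * r := fun p q r => by ring
  simp only [e1]
  rw [← mul_neg]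
  exact h

end Pool.Agent.Lib.BK2.OBS
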