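import Pool.Agent.Lib.BK2.ODefs

/-! The discriminant of an integral generator. -/

open Polynomial

noncomputable section

namespace Pool.Agent.Lib.BK2

theorem stCOND : St_COND := by
  intro K _ _ θ hθ hgen
  have hq : IsIntegral ℚ θ := hθ.tower_top
  have htop : Algebra.adjoin ℚ {θ} = ⊤ := by
    rw [eq_top_iff]
    intro a _
    obtain ⟨q, rfl⟩ := hgen a
    exact Polynomial.aeval_mem_adjoin_singleton ℚ θ
  let pb : PowerBasis ℚ K := PowerBasis.ofAdjoinEqTop hq htop
  have hg : pb.gen = θ := PowerBasis.ofAdjoinEqTop_gen hq htop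
  have hd : Module.finrank ℚ K = pb.dim := pb.finrank
  have hmin : (minpoly ℤ θ).natDegree = pb.dim := by
    rw [← pb.natDegree_minpoly, hg, minpoly.isIntegrallyClosed_eq_field_fractions' ℚ hθ,
      (minpoly.monic hθ).natDegree_map]
  obtain ⟨D, hD⟩ := IsIntegrallyClosed.isIntegral_iff.1
    (Algebra.discr_isIntegral ℚ (R := ℤ) (b := pb.basis) fun i => by
      rw [pb.basis_eq_pow, hg]; exact hθ.pow _)
  have hD0 : D ≠ 0 := by
    rintro rfl
    exact Algebra.discr_not_zero_of_basis ℚ pb.basis (by simpa using hD.symm)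
  rw [hd]
  refine ⟨by simpa only [pb.coe_basis, hg] using pb.basis.linearIndependent, D.natAbs,
    Int.natAbs_pos.2 hD0, fun a ha => ?_, fun Δ hΔ hσ => ?_⟩
  · have h1 := Algebra.discr_mul_isIntegral_mem_adjoin ℚ (R := ℤ) (B := pb) (hg ▸ hθ) ha
    rw [hg, Algebra.adjoin_singleton_eq_range_aeval, ← hD] at h1
    obtain ⟨q, hq⟩ := h1
    refine ⟨(C D.sign * q) %ₘ minpoly ℤ θ, ?_, ?_⟩
    · rw [← hmin]
      exact natDegree_modByMonic_lt _ (minpoly.monic hθ) (minpoly.ne_one ℤ θ)
    · have h2 : aeval θ q = (D : K) * a := by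
        rw [show aeval θ q = _ from hq, Algebra.smul_def]; simp
      rw [aeval_modByMonic_eq_self_of_root (minpoly.aeval ℤ θ), map_mul, h2, aeval_C, ← mul_assoc,
        ← Int.cast_natCast D.natAbs, ← Int.sign_mul_self_eq_natAbs, Int.cast_mul, eq_intCast]
  · let e : Fin pb.dim ≃ (K →ₐ[ℚ] ℂ) := Fintype.equivOfCardEq (by
      rw [Fintype.card_fin, AlgHom.card, hd])
    have h1 := congrArg norm (Algebra.discr_powerBasis_eq_prod ℚ ℂ pb e)
    rw [← hD, norm_prod] at h1
    have h2 : ((D.natAbs : ℕ) : ℝ) = ‖algebraMap ℚ ℂ (algebraMap ℤ ℚ D)‖ := by simp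
    have h3 : (1 : ℝ) ≤ 2 * Δ := by linarith
    rw [h2, h1]
    calc _ ≤ ∏ i : Fin pb.dim, ((2 * Δ) ^ 2) ^ (Finset.Ioi i).card := by
          refine Finset.prod_le_prod (fun _ _ => norm_nonneg _) fun i _ => ?_
          rw [norm_prod, ← Finset.prod_const]
          refine Finset.prod_le_prod (fun _ _ => norm_nonneg _) fun j _ => ?_
          rw [norm_pow, hg]
          refine pow_le_pow_left₀ (norm_nonneg _) ((norm_sub_le _ _).trans ?_) 2
          have h4 := hσ (e j).toRingHom
          have h5 := hσ (e i).toRingHom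
          change ‖e j θ‖ ≤ Δ at h4
          change ‖e i θ‖ ≤ Δ at h5
          linarith
      _ = (2 * Δ) ^ (2 * ∑ i : Fin pb.dim, (Finset.Ioi i).card) := by
          rw [Finset.prod_pow_eq_pow_sum, pow_mul]
      _ ≤ _ := by
          refine pow_le_pow_right₀ h3 ?_
          have h4 : ∑ i : Fin pb.dim, (Finset.Ioi i).card = ∑ i ∈ Finset.range pb.dim, i := by
            simp only [Fin.card_Ioi]
            rw [Fin.sum_univ_eq_sum_range (fun i => pb.dim - 1 - i), Finset.sum_range_reflect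
              (fun i => i)]
          rw [h4, mul_comm, Finset.sum_range_id_mul_two, sq]
          exact Nat.mul_le_mul_left _ (Nat.sub_le _ _)

end Pool.Agent.Lib.BK2
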