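import Pool.Agent.Lib.BK2.ODefs
import Pool.Agent.Lib.BK2.Bas

/-! The number field cut out by a section and its complex places. -/

open Polynomial NumberField

noncomputable section

namespace Pool.Agent.Lib.BK2

namespace OCUT

variable {B : Type} [CommRing B] [Algebra ℤ[X] B] {d : ℕ} [NeZero d] (Γ : Geo B d)

theorem map_aev {S T : Type} [CommRing S] [CommRing T] (σ : S →+* T) (x : S) (g : ℤ[X]) :
    σ (g.eval₂ (Int.castRingHom S) x) = g.eval₂ (Int.castRingHom T) (σ x) := by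
  rw [hom_eval₂, RingHom.ext_int (σ.comp _) (Int.castRingHom T)]

theorem map_alg {S : Type} [CommRing S] (ψ : B →+* S) (g : ℤ[X]) :
    ψ (algebraMap ℤ[X] B g) = g.eval₂ (Int.castRingHom S) (ψ Γ.t) := by
  rw [Γ.algebraMap_eq, ← map_aev]
  rfl

theorem aev_map {S : Type} [CommRing S] (i : ℚ →+* S) (x : S) (g : ℤ[X]) :
    (g.map (Int.castRingHom ℚ)).eval₂ i x = g.eval₂ (Int.castRingHom S) x := by
  rw [eval₂_map, RingHom.ext_int (i.comp _) (Int.castRingHom S)]

end OCUT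

open OCUT in
theorem stCUT (hN : St_NRM) (hG : St_G2) : St_CUT := by
  intro B _ _ _ d _ Γ m ν U ρ H e hH hU hm hirr hdeg hprim
  set f := Γ.el e with hf
  set P := Γ.nrm f with hP
  have hfV : f ∈ Γ.V m := Γ.el_mem e
  have hP0 : P ≠ 0 := hprim.ne_zero
  have hc : P.coeff (m * d) ≠ 0 := by
    rw [← hdeg]; exact leadingCoeff_ne_zero.2 hP0
  obtain ⟨-, g0, -, hg0⟩ := (hN B d Γ m).1 f hfV
  obtain ⟨-, -, G3, -, G5⟩ := hG B d Γ m f hfV hc
  have root : ∀ {S : Type} [CommRing S] (ψ : B →+* S), ψ f = 0 → P.eval₂ (Int.castRingHom S) (ψ Γ.t) = 0 := by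
    intro S _ ψ h
    rw [← map_alg, ← hg0, map_mul, h, zero_mul]
  have key : ∀ v : B, ∃ (g : ℤ[X]) (s : B) (c : ℤ), c ≠ 0 ∧ g.natDegree < m * d ∧
      (c : B) * v = algebraMap ℤ[X] B g + f * s ∧
      ∀ {S : Type} [CommRing S] (ψ : B →+* S), ψ f = 0 →
        (c : S) * ψ v = g.eval₂ (Int.castRingHom S) (ψ Γ.t) := by
    intro v
    obtain ⟨g, s, c, h1, h2, h3⟩ := G5 hirr v
    refine ⟨g, s, c, h1, h2, h3, fun ψ h => ?_⟩
    have := congrArg ψ h3
    rwa [map_mul, map_add, map_mul, h, zero_mul, add_zero, map_alg Γ, map_intCast] at this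
  set PQ := P.map (Int.castRingHom ℚ) with hPQ
  have hPQd : PQ.natDegree = m * d := by
    rw [hPQ, natDegree_map_eq_of_injective (RingHom.injective_int _), hdeg]
  have : Fact (Irreducible PQ) := ⟨hirr⟩
  have hz : ∀ s, ρ.φ (scl H e) s f = 0 := fun s => by
    have := ρ.zero _ hU s
    rw [Geo.ev_scl, div_eq_zero_iff] at this
    exact this.resolve_right (by exact_mod_cast hH.ne')
  let σ : Fin ν → (AdjoinRoot PQ →+* ℂ) := fun s =>
    AdjoinRoot.lift (algebraMap ℚ ℂ) (ρ.φ (scl H e) s Γ.t) (by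
      rw [hPQ, aev_map]; exact root _ (hz s))
  have hσ : ∀ s, σ s (AdjoinRoot.root PQ) = ρ.φ (scl H e) s Γ.t := fun s => AdjoinRoot.lift_root _
  have hν : 0 < ν := by
    have h1 := ρ.card
    have h2 : 0 < m * d := Nat.mul_pos hm (Nat.pos_of_ne_zero (NeZero.ne d))
    omega
  set s0 : Fin ν := ⟨0, hν⟩
  have hr : ∀ v, ρ.φ (scl H e) s0 v ∈ (σ s0).range := fun v => by
    obtain ⟨g, s, c, h1, -, -, h4⟩ := key v
    refine ⟨g.eval₂ (Int.castRingHom _) (AdjoinRoot.root PQ) / c, ?_⟩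
    have hc' : (c : ℂ) ≠ 0 := by exact_mod_cast h1
    rw [map_div₀, map_aev, hσ, map_intCast, ← h4 _ (hz s0)]
    field_simp
  let E : AdjoinRoot PQ ≃+* (σ s0).range := RingEquiv.ofBijective (σ s0).rangeRestrict
    ⟨fun a b h => (σ s0).injective (congrArg Subtype.val h), (σ s0).rangeRestrict_surjective⟩
  let π : B →+* AdjoinRoot PQ :=
    E.symm.toRingHom.comp ((ρ.φ (scl H e) s0).codRestrict (σ s0).range hr)
  have hπ0 : ∀ v, σ s0 (π v) = ρ.φ (scl H e) s0 v := fun v =>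
    congrArg Subtype.val (E.apply_symm_apply ⟨_, hr v⟩)
  have hπt : π Γ.t = AdjoinRoot.root PQ := (σ s0).injective (by rw [hπ0, hσ])
  have hπf : π f = 0 := (σ s0).injective (by rw [hπ0, hz, map_zero])
  have hπ : ∀ s v, σ s (π v) = ρ.φ (scl H e) s v := fun s v => by
    obtain ⟨g, s', c, h1, -, -, h4⟩ := key v
    have hc' : (c : ℂ) ≠ 0 := by exact_mod_cast h1
    have h5 := congrArg (σ s) (h4 π hπf)
    rw [map_mul, map_intCast, map_aev, hπt, hσ, ← h4 _ (hz s)] at h5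
    exact mul_left_cancel₀ hc' h5
  have : CharZero (AdjoinRoot PQ) := (σ s0).charZero
  have hPQ0 : PQ ≠ 0 := hirr.ne_zero
  have alg : (AdjoinRoot.instAlgebra PQ : Algebra ℚ (AdjoinRoot PQ)) =
      DivisionRing.toRatAlgebra := Subsingleton.elim _ _
  have fin : @Module.Finite ℚ (AdjoinRoot PQ) _ _ DivisionRing.toRatAlgebra.toModule := by
    rw [← alg]; exact (AdjoinRoot.powerBasis hPQ0).finite
  have : NumberField (AdjoinRoot PQ) := @NumberField.mk _ _ _ fin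
  have ext : ∀ τ τ' : AdjoinRoot PQ →+* ℂ,
      τ (AdjoinRoot.root PQ) = τ' (AdjoinRoot.root PQ) → τ = τ' := fun τ τ' h =>
    AdjoinRoot.ringHom_ext (Subsingleton.elim _ _) h
  have all : ∀ τ : AdjoinRoot PQ →+* ℂ, ∃ s, InfinitePlace.mk (σ s) = InfinitePlace.mk τ := by
    intro τ
    obtain ⟨s, h | h⟩ := ρ.all _ hU (τ.comp π) (by
      rw [Geo.ev_scl, RingHom.comp_apply, ← hf, hπf, map_zero, zero_div])
    · refine ⟨s, congrArg _ (ext _ _ ?_)⟩
      rw [hσ, ← h, RingHom.comp_apply, hπt]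
    · refine ⟨s, ?_⟩
      rw [← InfinitePlace.mk_conjugate_eq]
      refine congrArg _ (ext _ _ ?_)
      have := congrArg (fun ψ : B →+* ℂ => ψ Γ.t) h
      simp only [RingHom.comp_apply, hπt] at this
      rw [ComplexEmbedding.conjugate_coe_eq, hσ, this]
  have tc : IsTotallyComplex (AdjoinRoot PQ) := ⟨fun w => by
    obtain ⟨s, hs⟩ := all w.embedding
    rw [InfinitePlace.mk_embedding] at hs
    refine ⟨σ s, fun h => ?_, hs⟩
    have := congrArg (fun ψ : AdjoinRoot PQ →+* ℂ => ψ (AdjoinRoot.root PQ))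
      (ComplexEmbedding.isReal_iff.1 h)
    simp only [ComplexEmbedding.conjugate_coe_eq, hσ] at this
    exact ρ.nre _ hU s s this.symm⟩
  refine ⟨AdjoinRoot PQ, inferInstance, inferInstance, tc,
    ⟨π, hfV, hirr, hdeg, hprim, fun v => ⟨fun h => ?_, ?_⟩, ?_, fun a => ?_⟩, σ, hπ,
    fun s s' h => ?_, fun w => ?_⟩
  · obtain ⟨g, s, c, h1, h2, h3, h4⟩ := key v
    have h5 := h4 π hπf
    rw [h, mul_zero, hπt, ← aev_map (AdjoinRoot.of PQ), ← AdjoinRoot.algebraMap_eq, ← aeval_def,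
      AdjoinRoot.aeval_eq, eq_comm, AdjoinRoot.mk_eq_zero] at h5
    have h6 : g.map (Int.castRingHom ℚ) = 0 := eq_zero_of_dvd_of_natDegree_lt h5 (by
      rw [hPQd, natDegree_map_eq_of_injective (RingHom.injective_int _)]; exact h2)
    rw [Polynomial.map_eq_zero_iff (RingHom.injective_int _)] at h6
    rw [h6, map_zero, zero_add] at h3
    exact G3 hprim c v s h1 h3
  · rintro ⟨s, rfl⟩
    rw [map_mul, hπf, zero_mul]
  · rw [← hPQd, ← alg]
    exact (AdjoinRoot.powerBasis hPQ0).finrank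
  · obtain ⟨q, rfl⟩ := AdjoinRoot.mk_surjective a
    refine ⟨q, ?_⟩
    rw [hπt, ← alg]
    exact AdjoinRoot.aeval_eq q
  · rcases InfinitePlace.mk_eq_iff.1 h with h1 | h1
    · exact ρ.inj _ hU s s' (by rw [← hσ, ← hσ, h1])
    · exfalso
      refine ρ.nre _ hU s' s ?_
      rw [← hσ, ← hσ, ← h1, ComplexEmbedding.conjugate_coe_eq]
  · obtain ⟨s, hs⟩ := all w.embedding
    exact ⟨s, hs.trans (InfinitePlace.mk_embedding w)⟩

end Pool.Agent.Lib.BK2
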