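import Pool.Agent.Lib.BK2.ODefs
import Pool.Agent.Lib.BK2.Bas

/-! Division by the trivialising polynomial. -/

open Polynomial
open scoped Pointwise

noncomputable section

namespace Pool.Agent.Lib.BK2

namespace ODIV

theorem map_eq_zero {p : ℕ} {f : ℤ[X]} (h : f.map (Int.castRingHom (ZMod p)) = 0) :
    C (p : ℤ) ∣ f := (C_dvd_iff_dvd_coeff _ _).2 fun i => by
  have := congrArg (coeff · i) h
  simpa [ZMod.intCast_zmod_eq_zero_iff_dvd] using this

theorem poly {p : ℕ} (hp : p.Prime) {ell P : ℤ[X]} (hm : ell.Monic) (hP : P.IsPrimitive)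
    (hd : P.natDegree < ell.natDegree) (hi : Irreducible (ell.map (Int.castRingHom (ZMod p))))
    (D : ℕ) (hD : P.natDegree ≤ D) (g : ℤ[X]) (hg : g.natDegree ≤ D + ell.natDegree) :
    ∃ a b r : ℤ[X], a.natDegree ≤ D ∧ r.natDegree ≤ ell.natDegree ∧
      g = ell * a + P * b + C (p : ℤ) * r := by
  have := Fact.mk hp
  have h1 : P.map (Int.castRingHom (ZMod p)) ≠ 0 := fun h => by
    have := Int.isUnit_iff_natAbs_eq.1 (hP _ (map_eq_zero h))
    exact hp.ne_one (by simpa using this)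
  have h2 : IsCoprime (ell.map (Int.castRingHom (ZMod p))) (P.map (Int.castRingHom (ZMod p))) :=
    hi.coprime_iff_not_dvd.2 fun h => by
      have h3 := natDegree_le_of_dvd h h1
      rw [hm.natDegree_map] at h3
      have := natDegree_map_le (p := P) (f := Int.castRingHom (ZMod p))
      omega
  obtain ⟨α, β, h⟩ := h2
  obtain ⟨β, rfl⟩ := map_surjective _ (ZMod.ringHom_surjective (Int.castRingHom (ZMod p))) β
  have h3 : ell ≠ 1 := by
    rintro rfl
    simp at hd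
  have h4 := natDegree_modByMonic_lt (g * β) hm h3
  have h5 : (g - P * (g * β %ₘ ell)).natDegree ≤ D + ell.natDegree :=
    (natDegree_sub_le _ _).trans (max_le hg (natDegree_mul_le.trans (by omega)))
  have h6 : ((g - P * (g * β %ₘ ell)) %ₘ ell).map (Int.castRingHom (ZMod p)) = 0 := by
    rw [map_modByMonic _ hm, modByMonic_eq_zero_iff_dvd (hm.map _), modByMonic_eq_sub_mul_div]
    refine ⟨α * g.map (Int.castRingHom (ZMod p)) +
      (P * (g * β /ₘ ell)).map (Int.castRingHom (ZMod p)), ?_⟩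
    simp only [Polynomial.map_sub, Polynomial.map_mul]
    linear_combination -g.map (Int.castRingHom (ZMod p)) * h
  obtain ⟨r, hr⟩ := map_eq_zero h6
  refine ⟨(g - P * (g * β %ₘ ell)) /ₘ ell, g * β %ₘ ell, r, ?_, ?_, ?_⟩
  · rw [natDegree_divByMonic _ hm]
    omega
  · rw [← natDegree_C_mul (p := r) (a := (p : ℤ)) (by exact_mod_cast hp.ne_zero), ← hr]
    exact (natDegree_modByMonic_lt _ hm h3).le
  · linear_combination hr - modByMonic_add_div (g - P * (g * β %ₘ ell)) ell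

end ODIV

open ODIV Geo in
theorem stDIV (hN : St_NRM) (hO : St_OINT) : St_DIV := by
  intro B _ _ _ d _ Γ m e K _ _ κ m1 F ell h
  have h0 : κ.π (algebraMap ℤ[X] B (Γ.nrm e)) = 0 := by
    obtain ⟨g, -, hg⟩ := ((hN B d Γ m).1 e κ.he).2
    exact (κ.ker _).2 ⟨g, hg.symm⟩
  have hm1 := h.hm1
  have key : ∀ j, m * d + Γ.dmax ≤ j → ∀ p : ℕ, p.Prime → p ∣ F → ∀ v ∈ Γ.V (j + m1),
      ∃ u ∈ Γ.V j, ∃ w ∈ Γ.V (j + m1), κ.π v = κ.lv ell * κ.π u + (p : ℤ) • κ.π w := by
    intro j hj p hp hF v hv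
    have h1 : ∀ l, ∃ a b r : ℤ[X], a.natDegree ≤ j - Γ.δ l ∧ r.natDegree ≤ ell.natDegree ∧
        Γ.b.repr v l = ell * a + Γ.nrm e * b + C (p : ℤ) * r := fun l => by
      have := Γ.δ_le l
      refine poly hp h.mon κ.prim (by rw [κ.deg, h.dg]; omega) (h.ir p hp hF) _
        (by rw [κ.deg]; omega) _ (natDegree_le_iff_coeff_eq_zero.2 fun k hk => ?_)
      exact Γ.mem_V.1 hv l k (by rw [h.dg] at hk; omega)
    choose a b r ha hr hv using h1
    refine ⟨∑ l, a l • Γ.b l, V_sum fun l _ => V_mono ?_ (smul_mem (ha l) (Γ.b_mem l)),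
      ∑ l, r l • Γ.b l, V_sum fun l _ => V_mono ?_ (smul_mem (hr l) (Γ.b_mem l)), ?_⟩
    · have := Γ.δ_le l
      omega
    · have := Γ.δ_le l
      rw [h.dg]
      omega
    · rw [← Γ.b.sum_repr v, map_sum, map_sum, map_sum, Finset.mul_sum, Finset.smul_sum,
        ← Finset.sum_add_distrib]
      refine Finset.sum_congr rfl fun l _ => ?_
      simp only [hv, Algebra.smul_def, map_mul, map_add, h0, Cut.lv, eq_intCast, map_intCast]
      ring
  have dv : ∀ j, m * d + Γ.dmax ≤ j → ∃ s : ℕ, s.Coprime F ∧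
      ∀ v ∈ Γ.V (j + m1), ∃ u ∈ Γ.V j, (s : K) * κ.π v = κ.lv ell * κ.π u := by
    intro j hj
    let f : B →ₗ[ℤ] K := κ.π.toAddMonoidHom.toIntLinearMap
    let N : Submodule ℤ K := (Γ.VS j).map (LinearMap.mulLeft ℤ (κ.lv ell) ∘ₗ f)
    let J : Ideal ℤ := N.colon ((Γ.VS (j + m1)).map f)
    have hfg : ((Γ.VS (j + m1)).map f).FG := by
      rw [VS_eq_span]
      exact (Submodule.fg_span (Set.finite_range _)).map f
    refine ⟨(Submodule.IsPrincipal.generator J).natAbs, (Nat.coprime_of_dvd fun p hp hF hs => ?_).symm,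
      fun v hv => ?_⟩
    · obtain ⟨r, hr, hr'⟩ := Submodule.exists_sub_one_mem_and_smul_le_of_fg_of_le_sup
        (I := Ideal.span {(p : ℤ)}) (N := N) hfg le_rfl (by
          rintro _ ⟨v, hv, rfl⟩
          obtain ⟨u, hu, w, hw, h1⟩ := key j hj p hp hF v hv
          exact Submodule.mem_sup.2 ⟨_, ⟨u, hu, rfl⟩, _, Submodule.smul_mem_smul
            (Ideal.mem_span_singleton_self _) ⟨w, hw, rfl⟩, h1.symm⟩)
      have h1 : r ∈ J := Submodule.mem_colon.2 fun x hx => hr' (Submodule.smul_mem_pointwise_smul x r _ hx)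
      have h2 : (p : ℤ) ∣ r := (Int.natCast_dvd.2 hs).trans
        ((Submodule.IsPrincipal.mem_iff_generator_dvd J).1 h1)
      have h3 := dvd_sub h2 (Ideal.mem_span_singleton.1 hr)
      rw [sub_sub_cancel] at h3
      exact hp.ne_one (by simpa using Int.natCast_dvd.1 h3)
    · have h1 : ((Submodule.IsPrincipal.generator J).natAbs : ℤ) ∈ J :=
        (Submodule.IsPrincipal.mem_iff_generator_dvd J).2 (Int.dvd_natAbs.2 dvd_rfl)
      obtain ⟨u, hu, h2⟩ := Submodule.mem_colon.1 h1 _ ⟨v, hv, rfl⟩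
      refine ⟨u, hu, ?_⟩
      rw [zsmul_eq_mul, Int.cast_natCast] at h2
      exact h2.symm
  refine ⟨fun h1 => ?_, (hO B d Γ m e K κ (by have := h.hm; omega)).2.1, dv⟩
  obtain ⟨s, hs, h2⟩ := dv _ le_rfl
  obtain ⟨u, -, h3⟩ := h2 1 (Γ.one_mem _)
  rw [h1, zero_mul, map_one, mul_one, Nat.cast_eq_zero] at h3
  rw [h3, Nat.coprime_zero_left] at hs
  have := h.F2
  omega

end Pool.Agent.Lib.BK2
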