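import Pool.Agent.Lib.BK2.Blue1
import Pool.Agent.Lib.BK2.NFBlue
import Pool.Agent.Lib.BK2.NDefs

/-! Section O: the order cut out by a section `e`. -/

open Polynomial NumberField
open scoped nonZeroDivisors

noncomputable section

namespace Pool.Agent.Lib.BK2

variable {B : Type} [CommRing B] [Algebra ℤ[X] B] {d : ℕ} [NeZero d]

/-- `K` is the number field cut out by the section `e`. -/
structure Cut (Γ : Geo B d) (m : ℕ) (e : B) (K : Type) [Field K] [NumberField K] where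
  π : B →+* K
  he : e ∈ Γ.V m
  irr : Irreducible ((Γ.nrm e).map (Int.castRingHom ℚ))
  deg : (Γ.nrm e).natDegree = m * d
  prim : (Γ.nrm e).IsPrimitive
  ker : ∀ f, π f = 0 ↔ e ∣ f
  rank : Module.finrank ℚ K = m * d
  gen : ∀ a : K, ∃ q : ℚ[X], aeval (π Γ.t) q = a

/-- The three properties of the semilocal order that section N uses. -/
structure OrdAx {K : Type} [Field K] (R : Subring K) (F : ℕ) : Prop where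
  inv : ∀ s : ℕ, s.Coprime F → (s : K)⁻¹ ∈ R
  int : ∀ g ∈ R, ∃ s : ℕ, s.Coprime F ∧ IsIntegral ℤ ((s : K) * g)
  con : ∀ a : K, IsIntegral ℤ a → (F : K) * a ∈ R

namespace Cut

variable {Γ : Geo B d} {m : ℕ} {e : B} {K : Type} [Field K] [NumberField K] (κ : Cut Γ m e K)

/-- The leading coefficient of the norm of `e`. -/
def c (_ : Cut Γ m e K) : ℤ := (Γ.nrm e).coeff (m * d)

/-- The integral generator `c θ`. -/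
def θ1 : K := (κ.c : K) * κ.π Γ.t

/-- The value of a polynomial at `θ`. -/
def lv (ell : ℤ[X]) : K := κ.π (algebraMap ℤ[X] B ell)

/-- The level `F` and the trivialising polynomial `ell`. -/
structure Ok (m1 F : ℕ) (ell : ℤ[X]) : Prop where
  hm : 2 ≤ m
  hm1 : m * d + Γ.dmax + 1 ≤ m1
  F2 : 2 ≤ F
  cF : κ.c ∣ (F : ℤ)
  mon : ell.Monic
  dg : ell.natDegree = m1
  ir : ∀ p : ℕ, p.Prime → p ∣ F → Irreducible (ell.map (Int.castRingHom (ZMod p)))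
  cond : ∀ a : K, IsIntegral ℤ a → ∃ q : ℤ[X], q.natDegree < m * d ∧ (F : K) * a = aeval κ.θ1 q

/-- Division by `c` and by `ell`. -/
structure Div (m1 F : ℕ) (ell : ℤ[X]) : Prop where
  ne : κ.lv ell ≠ 0
  low : ∀ j, m * d + Γ.dmax ≤ j → ∀ v ∈ Γ.V (j + 1), ∃ u ∈ Γ.V j, (κ.c : K) * κ.π v = κ.π u
  dv : ∀ j, m * d + Γ.dmax ≤ j → ∃ s : ℕ, s.Coprime F ∧
    ∀ v ∈ Γ.V (j + m1), ∃ u ∈ Γ.V j, (s : K) * κ.π v = κ.lv ell * κ.π u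

/-- Integrality of the values of sections. -/
def Intg : Prop := ∀ (a : ℕ), ∀ v ∈ Γ.V a, IsIntegral ℤ ((κ.c : K) ^ a * κ.π v)

/-- `R` is the order localised at `F`. -/
def IsOrd (m1 F : ℕ) (ell : ℤ[X]) (R : Subring K) : Prop :=
  ∀ j, 1 ≤ j → ∀ g : K, g ∈ R ↔
    ∃ s : ℕ, s.Coprime F ∧ ∃ v ∈ Γ.V (j * m1), (s : K) * g * κ.lv ell ^ j = κ.π v

/-- `I` is the part of `ell θ` prime to `F` and `A0` is its inverse. -/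
structure IsIdl (m1 F : ℕ) (ell : ℤ[X]) (I : Ideal (𝓞 K))
    (A0 : (FractionalIdeal (𝓞 K)⁰ K)ˣ) : Prop where
  inv : (A0 : FractionalIdeal (𝓞 K)⁰ K) * (I : FractionalIdeal (𝓞 K)⁰ K) = 1
  nrm : (Ideal.absNorm I : ℚ) = |Algebra.norm ℚ (κ.lv ell)| * |(κ.c : ℚ)| ^ m1
  cop : ∃ s : ℕ, s.Coprime F ∧ (s : 𝓞 K) ∈ I
  up : ∃ a ∈ I, (a : K) = (κ.c : K) ^ m1 * κ.lv ell
  dn : ∃ k : ℕ, ∀ x ∈ I, IsIntegral ℤ ((F : K) ^ k * (x : K) / κ.lv ell)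

/-- The lattice of values of `V (j * m1)`. -/
def Lam (m1 : ℕ) (ell : ℤ[X]) (R : Subring K) (A0 : (FractionalIdeal (𝓞 K)⁰ K)ˣ) : Prop :=
  ∀ j, 1 ≤ j → ∀ g : K,
    (g ∈ ((A0 ^ j : (FractionalIdeal (𝓞 K)⁰ K)ˣ) : FractionalIdeal (𝓞 K)⁰ K) ∧ g ∈ R) ↔
      ∃ v ∈ Γ.V (j * m1), κ.π v = g * κ.lv ell ^ j

/-- The dictionary between points of `e` and primes of degree one, away from `F`. -/
structure IsPts (F : ℕ) (Pr : Pt B → Ideal (𝓞 K)) : Prop where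
  nrm : ∀ x : Pt B, x.On e → ¬x.p ∣ F → Ideal.absNorm (Pr x) = x.p
  mem : ∀ x : Pt B, x.On e → ¬x.p ∣ F → ∀ (v : B) (a : 𝓞 K) (k : ℕ),
    (a : K) = (F : K) ^ k * κ.π v → (a ∈ Pr x ↔ x.On v)
  inj : Set.InjOn Pr {x | x.On e ∧ ¬x.p ∣ F}
  sur : ∀ P : Ideal (𝓞 K), (Ideal.absNorm P).Prime → ¬Ideal.absNorm P ∣ F →
    ∃ x : Pt B, x.On e ∧ ¬x.p ∣ F ∧ Pr x = P

/-- The criterion for split pairs. -/
def Spl (m1 F : ℕ) (ell : ℤ[X]) (R : Subring K) (A0 : (FractionalIdeal (𝓞 K)⁰ K)ˣ)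
    (Pr : Pt B → Ideal (𝓞 K)) : Prop :=
  ∀ (N : ℕ) (w : B) (g : K) (Z : Finset (Pt B)), 1 ≤ N → w ∈ Γ.V (N * m1) →
    κ.π w = g * κ.lv ell ^ N → (∀ x ∈ Z, x.On e ∧ ¬x.p ∣ F) → Set.InjOn Pt.p (Z : Set (Pt B)) →
    g⁻¹ ∈ R → FractionalIdeal.spanSingleton (𝓞 K)⁰ g =
      ((A0 ^ N : (FractionalIdeal (𝓞 K)⁰ K)ˣ) : FractionalIdeal (𝓞 K)⁰ K) *
        ∏ x ∈ Z, (Pr x : FractionalIdeal (𝓞 K)⁰ K) →
    (∀ x ∈ Z, x.On w) ∧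
      ((Γ.nrm w).coeff (N * m1 * d) ≠ 0 → Γ.Split m (N * m1) e w Z)

/-- Classes congruent to `v0 ^ N` are `N`-th powers of units. -/
def Cls (m1 F : ℕ) (ell : ℤ[X]) (R : Subring K) : Prop :=
  ∀ (N L Q i : ℕ) (v0 u : ℤ[X]) (w w1 : B), 1 ≤ N → Q ∣ N ^ 2 * L ^ (i + 1) → N ^ 2 * L ∣ Q →
    ell = v0 + C (Q : ℤ) * u → u.natDegree < m1 → w1 ∈ Γ.V (N * m1) →
    w = algebraMap ℤ[X] B v0 ^ N + ((N ^ 2 * L : ℕ) : B) * w1 →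
    ∃ z ∈ R, ∃ y ∈ R, z ≠ 0 ∧ z⁻¹ ∈ R ∧ (∀ p : ℕ, p.Prime → p ∣ F → ∃ y' ∈ R, z = 1 + p * y') ∧
      κ.π w / κ.lv ell ^ N = z ^ N + (Q : K) * y

end Cut

/-- Row O.CUT: the field of `e` and its complex places. -/
def St_CUT : Prop :=
  ∀ (B : Type) [CommRing B] [IsDomain B] [Algebra ℤ[X] B] (d : ℕ) [NeZero d] (Γ : Geo B d)
    (m ν : ℕ) (U : Set (Γ.Ix m → ℝ)) (ρ : Γ.Roots m ν U) (H : ℝ) (e : Γ.Ix m → ℤ), 0 < H →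
    scl H e ∈ U → 1 ≤ m → Irreducible ((Γ.nrm (Γ.el e)).map (Int.castRingHom ℚ)) →
    (Γ.nrm (Γ.el e)).natDegree = m * d → (Γ.nrm (Γ.el e)).IsPrimitive →
    ∃ (K : Type) (_ : Field K) (_ : NumberField K) (_ : IsTotallyComplex K)
      (κ : Cut Γ m (Γ.el e) K) (emb : Fin ν → (K →+* ℂ)),
      (∀ s f, emb s (κ.π f) = ρ.φ (scl H e) s f) ∧
      Function.Bijective fun s => InfinitePlace.mk (emb s)

/-- Row O.ELL: monic polynomials that are irreducible modulo given primes. -/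
def St_ELL : Prop :=
  ∀ (m1 Q F : ℕ) (v0 : ℤ[X]), 1 ≤ m1 → 0 < F → Q ∣ F → v0.Monic → v0.natDegree = m1 →
    (∀ p : ℕ, p.Prime → p ∣ Q → Irreducible (v0.map (Int.castRingHom (ZMod p)))) →
    ∃ ell u : ℤ[X], ell.Monic ∧ ell.natDegree = m1 ∧ ell = v0 + C (Q : ℤ) * u ∧
      u.natDegree < m1 ∧
      ∀ p : ℕ, p.Prime → p ∣ F → Irreducible (ell.map (Int.castRingHom (ZMod p)))

/-- Row O.COND: the discriminant of an integral generator. -/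
def St_COND : Prop :=
  ∀ (K : Type) [Field K] [NumberField K] (θ : K), IsIntegral ℤ θ →
    (∀ a : K, ∃ q : ℚ[X], aeval θ q = a) →
    (LinearIndependent ℚ fun i : Fin (Module.finrank ℚ K) => θ ^ (i : ℕ)) ∧
    ∃ D : ℕ, 0 < D ∧
      (∀ a : K, IsIntegral ℤ a → ∃ q : ℤ[X], q.natDegree < Module.finrank ℚ K ∧
        (D : K) * a = aeval θ q) ∧
      ∀ Δ : ℝ, 1 ≤ Δ → (∀ σ : K →+* ℂ, ‖σ θ‖ ≤ Δ) →
        (D : ℝ) ≤ (2 * Δ) ^ (Module.finrank ℚ K ^ 2)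

/-- Row O.DIV. -/
def St_DIV : Prop :=
  ∀ (B : Type) [CommRing B] [IsDomain B] [Algebra ℤ[X] B] (d : ℕ) [NeZero d] (Γ : Geo B d)
    (m : ℕ) (e : B) (K : Type) [Field K] [NumberField K] (κ : Cut Γ m e K) (m1 F : ℕ)
    (ell : ℤ[X]), κ.Ok m1 F ell → κ.Div m1 F ell

/-- Row O.INT: `c ^ a` times the value of a section of degree `a` is an algebraic integer. -/
def St_OINT : Prop :=
  ∀ (B : Type) [CommRing B] [IsDomain B] [Algebra ℤ[X] B] (d : ℕ) [NeZero d] (Γ : Geo B d)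
    (m : ℕ) (e : B) (K : Type) [Field K] [NumberField K] (κ : Cut Γ m e K), 1 ≤ m →
    κ.c ≠ 0 ∧ (∀ j, m * d + Γ.dmax ≤ j → ∀ v ∈ Γ.V (j + 1), ∃ u ∈ Γ.V j,
      (κ.c : K) * κ.π v = κ.π u) ∧ κ.Intg ∧ IsIntegral ℤ κ.θ1 ∧
      (∀ a : K, ∃ q : ℚ[X], aeval κ.θ1 q = a) ∧
      ∀ q : ℤ[X], ∃ v ∈ Γ.V q.natDegree, κ.π v = aeval κ.θ1 q

/-- Row O.RING. -/
def St_RING : Prop :=
  ∀ (B : Type) [CommRing B] [IsDomain B] [Algebra ℤ[X] B] (d : ℕ) [NeZero d] (Γ : Geo B d)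
    (m : ℕ) (e : B) (K : Type) [Field K] [NumberField K] (κ : Cut Γ m e K) (m1 F : ℕ)
    (ell : ℤ[X]), κ.Ok m1 F ell → κ.Div m1 F ell →
    ∃ R : Subring K, κ.IsOrd m1 F ell R ∧ OrdAx R F ∧ κ.θ1 ∈ R

/-- Row O.IDL. -/
def St_IDL : Prop :=
  ∀ (B : Type) [CommRing B] [IsDomain B] [Algebra ℤ[X] B] (d : ℕ) [NeZero d] (Γ : Geo B d)
    (m : ℕ) (e : B) (K : Type) [Field K] [NumberField K] (κ : Cut Γ m e K) (m1 F : ℕ)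
    (ell : ℤ[X]), κ.Ok m1 F ell → κ.Intg → ∃ I A0, κ.IsIdl m1 F ell I A0

/-- Row O.LAM. -/
def St_LAM : Prop :=
  ∀ (B : Type) [CommRing B] [IsDomain B] [Algebra ℤ[X] B] (d : ℕ) [NeZero d] (Γ : Geo B d)
    (m : ℕ) (e : B) (K : Type) [Field K] [NumberField K] (κ : Cut Γ m e K) (m1 F : ℕ)
    (ell : ℤ[X]) (R : Subring K) (I : Ideal (𝓞 K)) (A0 : (FractionalIdeal (𝓞 K)⁰ K)ˣ),
    κ.Ok m1 F ell → κ.lv ell ≠ 0 → κ.Intg → κ.IsOrd m1 F ell R → OrdAx R F →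
    κ.IsIdl m1 F ell I A0 → κ.Lam m1 ell R A0

/-- Row O.PTS. -/
def St_PTS : Prop :=
  ∀ (B : Type) [CommRing B] [IsDomain B] [Algebra ℤ[X] B] (d : ℕ) [NeZero d] (Γ : Geo B d)
    (m : ℕ) (e : B) (K : Type) [Field K] [NumberField K] (κ : Cut Γ m e K) (m1 F : ℕ)
    (ell : ℤ[X]), κ.Ok m1 F ell → κ.Intg → ∃ Pr, κ.IsPts F Pr

/-- Row O.SPL. -/
def St_SPL : Prop :=
  ∀ (B : Type) [CommRing B] [IsDomain B] [Algebra ℤ[X] B] (d : ℕ) [NeZero d] (Γ : Geo B d)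
    (m : ℕ) (e : B) (K : Type) [Field K] [NumberField K] (κ : Cut Γ m e K) (m1 F : ℕ)
    (ell : ℤ[X]) (R : Subring K) (I : Ideal (𝓞 K)) (A0 : (FractionalIdeal (𝓞 K)⁰ K)ˣ)
    (Pr : Pt B → Ideal (𝓞 K)), κ.Ok m1 F ell → κ.lv ell ≠ 0 → κ.Intg → OrdAx R F →
    κ.IsIdl m1 F ell I A0 → κ.Lam m1 ell R A0 → κ.IsPts F Pr → κ.Spl m1 F ell R A0 Pr

/-- Row O.UNIT: elements congruent to one modulo every prime of `F` are units. -/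
def St_UNIT : Prop :=
  ∀ (K : Type) [Field K] [NumberField K] (R : Subring K) (F : ℕ), 2 ≤ F → OrdAx R F →
    ∀ z : K, (∀ p : ℕ, p.Prime → p ∣ F → ∃ y ∈ R, z = 1 + p * y) → z ≠ 0 ∧ z⁻¹ ∈ R

/-- Row O.CLS. -/
def St_CLS : Prop :=
  ∀ (B : Type) [CommRing B] [IsDomain B] [Algebra ℤ[X] B] (d : ℕ) [NeZero d] (Γ : Geo B d)
    (m : ℕ) (e : B) (K : Type) [Field K] [NumberField K] (κ : Cut Γ m e K) (m1 F : ℕ)
    (ell : ℤ[X]) (R : Subring K), κ.Ok m1 F ell → κ.lv ell ≠ 0 → κ.IsOrd m1 F ell R →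
    OrdAx R F → κ.Cls m1 F ell R

/-- Everything that section O knows about one section `e`. -/
structure OPack {Γ : Geo B d} {m : ℕ} {e : B} {K : Type} [Field K] [NumberField K]
    (κ : Cut Γ m e K) (m1 Q : ℕ) (v0 : ℤ[X]) (F : ℕ) (ell : ℤ[X]) (R : Subring K)
    (I : Ideal (𝓞 K)) (A0 : (FractionalIdeal (𝓞 K)⁰ K)ˣ) (Pr : Pt B → Ideal (𝓞 K)) : Prop where
  ok : κ.Ok m1 F ell
  QF : Q ∣ F
  cls0 : ∃ u : ℤ[X], ell = v0 + C (Q : ℤ) * u ∧ u.natDegree < m1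
  Fle : ∀ Δ : ℝ, 1 ≤ Δ → (∀ σ : K →+* ℂ, ‖σ κ.θ1‖ ≤ Δ) →
    (F : ℝ) ≤ Q * |(κ.c : ℝ)| * (2 * Δ) ^ ((m * d) ^ 2)
  ne : κ.lv ell ≠ 0
  ax : OrdAx R F
  θR : κ.θ1 ∈ R
  θI : IsIntegral ℤ κ.θ1
  θL : LinearIndependent ℚ fun i : Fin (Module.finrank ℚ K) => κ.θ1 ^ (i : ℕ)
  intg : κ.Intg
  ord : κ.IsOrd m1 F ell R
  idl : κ.IsIdl m1 F ell I A0
  lam : κ.Lam m1 ell R A0
  pts : κ.IsPts F Pr
  spl : κ.Spl m1 F ell R A0 Pr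
  cls : κ.Cls m1 F ell R

/-- Section O, arithmetic output. -/
def St_ORD : Prop :=
  ∀ (B : Type) [CommRing B] [IsDomain B] [Algebra ℤ[X] B] (d : ℕ) [NeZero d] (Γ : Geo B d)
    (m : ℕ) (e : B) (K : Type) [Field K] [NumberField K] (κ : Cut Γ m e K) (m1 Q : ℕ)
    (v0 : ℤ[X]), 2 ≤ m → m * d + Γ.dmax + 1 ≤ m1 → 2 ≤ Q → v0.Monic → v0.natDegree = m1 →
    (∀ p : ℕ, p.Prime → p ∣ Q → Irreducible (v0.map (Int.castRingHom (ZMod p)))) →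
    ∃ F ell R I A0 Pr, OPack κ m1 Q v0 F ell R I A0 Pr

/-- The package in the language of section N: `l` is the value of `ell`. -/
structure NPack {Γ : Geo B d} {m : ℕ} {e : B} {K : Type} [Field K] [NumberField K]
    (κ : Cut Γ m e K) (m1 : ℕ) (v0 : ℤ[X]) (D : NT.ND K) (l : K) (A0 : NT.FI K)
    (Pr : Pt B → NT.FI K) : Prop where
  ok : D.OK
  ne : l ≠ 0
  cop : NT.Cop D.F A0
  nrm : NT.nI A0 * (NT.Nv (NT.emb l) * |(κ.c : ℝ)| ^ m1) = 1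
  lam : ∀ j, 1 ≤ j → ∀ g : K, g ∈ D.L (A0 ^ j) ↔ ∃ v ∈ Γ.V (j * m1), κ.π v = g * l ^ j
  pt : ∀ x : Pt B, x.On e → ¬x.p ∣ D.F → NT.IsPt D.F (Pr x) x.p
  inj : Set.InjOn Pr {x | x.On e ∧ ¬x.p ∣ D.F}
  sur : ∀ P p, NT.IsPt D.F P p → ∃ x : Pt B, x.On e ∧ x.p = p ∧ Pr x = P
  spl : ∀ (N : ℕ) (w : B) (g : K) (Z : Finset (Pt B)), 1 ≤ N → w ∈ Γ.V (N * m1) →
    κ.π w = g * l ^ N → (∀ x ∈ Z, x.On e ∧ ¬x.p ∣ D.F) → Set.InjOn Pt.p (Z : Set (Pt B)) →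
    D.Un g → NT.IsDiv g (A0 ^ N * ∏ x ∈ Z, Pr x) →
    (∀ x ∈ Z, x.On w) ∧ ((Γ.nrm w).coeff (N * m1 * d) ≠ 0 → Γ.Split m (N * m1) e w Z)
  cls : ∀ (N L i : ℕ) (w w1 : B), 1 ≤ N → D.Q ∣ N ^ 2 * L ^ (i + 1) → N ^ 2 * L ∣ D.Q →
    w1 ∈ Γ.V (N * m1) → w = algebraMap ℤ[X] B v0 ^ N + ((N ^ 2 * L : ℕ) : B) * w1 →
    ∃ z, D.Un z ∧ D.Cg (κ.π w / l ^ N) (z ^ N)

/-- Section O, output for the glue with section N. -/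
def St_ORDN : Prop :=
  ∀ (B : Type) [CommRing B] [IsDomain B] [Algebra ℤ[X] B] (d : ℕ) [NeZero d] (Γ : Geo B d)
    (m : ℕ) (e : B) (K : Type) [Field K] [NumberField K] (κ : Cut Γ m e K) (m1 Q : ℕ)
    (v0 : ℤ[X]) (Δ0 Δ : ℝ), IsTotallyComplex K → 2 ≤ m → m * d + Γ.dmax + 1 ≤ m1 → 3 ≤ Q →
    v0.Monic → v0.natDegree = m1 →
    (∀ p : ℕ, p.Prime → p ∣ Q → Irreducible (v0.map (Int.castRingHom (ZMod p)))) →
    1 ≤ Δ0 → (∀ w : InfinitePlace K, w κ.θ1 ≤ Δ0) →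
    Q * |(κ.c : ℝ)| * (2 * Δ0) ^ ((m * d) ^ 2) ≤ Δ →
    (∀ F : ℕ, 0 < F → (F : ℝ) ≤ Δ →
      ∑ q ∈ F.primeFactors.filter (fun q => ¬q ∣ Q), (1 / (q : ℝ)) ≤ 1 / (8 * (m * d : ℕ))) →
    ∃ (D : NT.ND K) (l : K) (A0 : NT.FI K) (Pr : Pt B → NT.FI K),
      D.Q = Q ∧ D.Δ = Δ ∧ NPack κ m1 v0 D l A0 Pr

/-- Existence of the base polynomial `v0`. -/
def St_V0 : Prop :=
  ∀ m1 Q : ℕ, 1 ≤ m1 → 0 < Q → ∃ v0 : ℤ[X], v0.Monic ∧ v0.natDegree = m1 ∧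
    ∀ p : ℕ, p.Prime → p ∣ Q → Irreducible (v0.map (Int.castRingHom (ZMod p)))

end Pool.Agent.Lib.BK2
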