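import Pool.Agent.Lib.BK2.ODefs

open Polynomial

noncomputable section

namespace Pool.Agent.Lib.BK2

namespace ELL

theorem exists_irr (p m : ℕ) (hp : p.Prime) (hm : 1 ≤ m) : ∃ g : ℤ[X], g.Monic ∧ g.natDegree = m ∧
    Irreducible (g.map (Int.castRingHom (ZMod p))) := by
  have := Fact.mk hp
  obtain ⟨α, hα⟩ := Field.exists_primitive_element (ZMod p) (GaloisField p m)
  have hi : IsIntegral (ZMod p) α := Algebra.IsIntegral.isIntegral α
  have hd : (minpoly (ZMod p) α).natDegree = m := by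
    rw [(Field.primitive_element_iff_minpoly_natDegree_eq (ZMod p) α).1 hα,
      GaloisField.finrank p (by omega)]
  have hl : minpoly (ZMod p) α ∈ lifts (Int.castRingHom (ZMod p)) :=
    (mem_lifts _).2 (Polynomial.map_surjective _ (ZMod.ringHom_surjective _) _)
  obtain ⟨g, h1, h2, h3⟩ := lifts_and_natDegree_eq_and_monic hl (minpoly.monic hi)
  exact ⟨g, h3, h2.trans hd, h1 ▸ minpoly.irreducible hi⟩

theorem step (m Q p : ℕ) (v : ℤ[X]) (hm : 1 ≤ m) (hp : p.Prime) (hv : v.Monic)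
    (hd : v.natDegree = m)
    (hi : ∀ q : ℕ, q.Prime → q ∣ Q → Irreducible (v.map (Int.castRingHom (ZMod q)))) :
    ∃ u : ℤ[X], u.natDegree < m ∧ ∀ q : ℕ, q.Prime → q ∣ p * Q →
      Irreducible ((v + C (Q : ℤ) * u).map (Int.castRingHom (ZMod q))) := by
  by_cases hpQ : p ∣ Q
  · refine ⟨0, by rw [natDegree_zero]; omega, fun q hq h => ?_⟩
    rw [mul_zero, add_zero]
    rcases (Nat.Prime.dvd_mul hq).1 h with h1 | h1
    · exact hi q hq (h1.trans hpQ)
    · exact hi q hq h1
  · obtain ⟨g, g1, g2, g3⟩ := exists_irr p m hp hm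
    have := Fact.mk hp
    have hQ : (Q : ZMod p) ≠ 0 := fun h => hpQ ((ZMod.natCast_eq_zero_iff Q p).1 h)
    obtain ⟨a, ha⟩ := ZMod.intCast_surjective (Q : ZMod p)⁻¹
    refine ⟨C a * (g - v), ?_, fun q hq h => ?_⟩
    · refine lt_of_le_of_lt (natDegree_C_mul_le _ _) ?_
      by_cases h0 : g - v = 0
      · rw [h0, natDegree_zero]; omega
      · rw [natDegree_lt_iff_degree_lt h0, ← g2, ← degree_eq_natDegree g1.ne_zero]
        refine degree_sub_lt ?_ g1.ne_zero (by rw [g1.leadingCoeff, hv.leadingCoeff])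
        rw [degree_eq_natDegree g1.ne_zero, degree_eq_natDegree hv.ne_zero, g2, hd]
    · rcases (Nat.Prime.dvd_mul hq).1 h with h1 | h1
      · obtain rfl : q = p := (Nat.prime_dvd_prime_iff_eq hq hp).1 h1
        have h2 : (v + C (Q : ℤ) * (C a * (g - v))).map (Int.castRingHom (ZMod q)) =
            g.map (Int.castRingHom (ZMod q)) := by
          rw [← mul_assoc, ← C_mul, Polynomial.map_add, Polynomial.map_mul, map_C,
            Polynomial.map_sub, map_mul, eq_intCast, eq_intCast, ha, Int.cast_natCast,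
            mul_inv_cancel₀ hQ, C_1]
          ring
        rw [h2]
        exact g3
      · have h2 : (v + C (Q : ℤ) * (C a * (g - v))).map (Int.castRingHom (ZMod q)) =
            v.map (Int.castRingHom (ZMod q)) := by
          rw [Polynomial.map_add, Polynomial.map_mul, map_C, eq_intCast, Int.cast_natCast,
            (ZMod.natCast_eq_zero_iff Q q).2 h1, C_0, zero_mul, add_zero]
        rw [h2]
        exact hi q hq h1

theorem monic_add {m : ℕ} {v w u : ℤ[X]} {c : ℤ} (hv : v.Monic) (hd : v.natDegree = m)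
    (hu : u.natDegree < m) (hw : w = v + C c * u) : w.Monic ∧ w.natDegree = m := by
  have h1 : (C c * u).natDegree < v.natDegree := hd ▸ lt_of_le_of_lt (natDegree_C_mul_le _ _) hu
  have h2 : (C c * u).degree < v.degree := degree_lt_degree h1
  rw [hw]
  exact ⟨hv.add_of_left h2, (natDegree_add_eq_left_of_natDegree_lt h1).trans hd⟩

theorem main (m Q : ℕ) (v : ℤ[X]) (hm : 1 ≤ m) (hv : v.Monic) (hd : v.natDegree = m)
    (hi : ∀ q : ℕ, q.Prime → q ∣ Q → Irreducible (v.map (Int.castRingHom (ZMod q)))) (k : ℕ)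
    (hk : k ≠ 0) : ∃ u : ℤ[X], u.natDegree < m ∧ ∀ q : ℕ, q.Prime → q ∣ Q * k →
      Irreducible ((v + C (Q : ℤ) * u).map (Int.castRingHom (ZMod q))) := by
  induction k using induction_on_primes with
  | zero => exact absurd rfl hk
  | one => exact ⟨0, by rw [natDegree_zero]; omega, fun q hq h => by simpa using hi q hq (by simpa using h)⟩
  | prime_mul p a hp ih =>
    obtain ⟨u, u1, u2⟩ := ih (by rintro rfl; simp at hk)
    obtain ⟨w1, w2⟩ := monic_add hv hd u1 rfl
    obtain ⟨u', h1, h2⟩ := step m (Q * a) p _ hm hp w1 w2 u2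
    refine ⟨u + C (a : ℤ) * u', ?_, fun q hq h => ?_⟩
    · exact lt_of_le_of_lt (natDegree_add_le _ _)
        (max_lt u1 (lt_of_le_of_lt (natDegree_C_mul_le _ _) h1))
    · have h3 := h2 q hq (by rwa [mul_left_comm] at h)
      have h4 : v + C (Q : ℤ) * u + C ((Q * a : ℕ) : ℤ) * u' =
          v + C (Q : ℤ) * (u + C (a : ℤ) * u') := by
        rw [Nat.cast_mul, C_mul]
        ring
      rwa [h4] at h3

end ELL

theorem stELL : St_ELL := by
  intro m1 Q F v0 hm hF hQ hv hd hi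
  obtain ⟨k, rfl⟩ := hQ
  obtain ⟨u, u1, u2⟩ := ELL.main m1 Q v0 hm hv hd hi k (by rintro rfl; simp at hF)
  obtain ⟨w1, w2⟩ := ELL.monic_add (c := (Q : ℤ)) hv hd u1 rfl
  exact ⟨_, u, w1, w2, rfl, u1, u2⟩

theorem stV0 : St_V0 := by
  intro m1 Q hm hQ
  obtain ⟨ell, u, h1, h2, -, -, h3⟩ := stELL m1 1 Q (X ^ m1) hm hQ (one_dvd _) (monic_X_pow _)
    (natDegree_X_pow _) fun p hp h => absurd (Nat.dvd_one.1 h) hp.ne_one
  exact ⟨ell, h1, h2, h3⟩

end Pool.Agent.Lib.BK2
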