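import Pool.Agent.Lib.BK2.ODefs
import Pool.Agent.Lib.BK2.Bas

/-! The ideal of the trivialising polynomial away from the level. -/

open Polynomial NumberField
open scoped nonZeroDivisors

noncomputable section

namespace Pool.Agent.Lib.BK2

namespace OIDL

theorem res_eq {K : Type} [Field K] [NumberField K] {θ : K} {P : ℤ[X]} (g : ℤ[X]) (k : ℕ)
    (hg : g.natDegree ≤ k) (hP : P ≠ 0) (hd : P.natDegree = Module.finrank ℚ K)
    (h0 : aeval θ P = 0) (gen : ∀ a : K, ∃ q : ℚ[X], aeval θ q = a) :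
    ((resultant P g P.natDegree k : ℤ) : ℚ) =
      (P.leadingCoeff : ℚ) ^ k * Algebra.norm ℚ (aeval θ g) := by
  classical
  have hinj : Function.Injective (Int.castRingHom ℂ) := Int.cast_injective
  have hv : ∀ (σ : K →ₐ[ℚ] ℂ) (q : ℤ[X]),
      σ (aeval θ q) = (q.map (Int.castRingHom ℂ)).eval (σ θ) := fun σ q => by
    rw [eval_map, ← algebraMap_int_eq, ← aeval_def]
    exact (aeval_algHom_apply (σ : K →+* ℂ).toIntAlgHom θ q).symm
  have hP' : P.map (Int.castRingHom ℂ) ≠ 0 := (Polynomial.map_ne_zero_iff hinj).2 hP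
  have hr : (Finset.univ : Finset (K →ₐ[ℚ] ℂ)).val.map (fun σ => σ θ) =
      (P.map (Int.castRingHom ℂ)).roots := by
    refine Multiset.eq_of_le_of_card_le ((Multiset.le_iff_subset ?_).2 fun z hz => ?_) ?_
    · refine Multiset.Nodup.map (fun σ τ h => AlgHom.ext fun a => ?_) Finset.univ.nodup
      obtain ⟨q, rfl⟩ := gen a
      rw [← aeval_algHom_apply, ← aeval_algHom_apply]
      exact congrArg (aeval · q) h
    · obtain ⟨σ, -, rfl⟩ := Multiset.mem_map.1 hz
      rw [mem_roots hP', IsRoot, ← hv, h0, map_zero]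
    · refine (card_roots' _).trans ?_
      rw [natDegree_map_eq_of_injective hinj, hd, Multiset.card_map, Finset.card_val,
        Finset.card_univ, AlgHom.card]
  have h1 := resultant_eq_prod_eval (P.map (Int.castRingHom ℂ)) (g.map (Int.castRingHom ℂ)) k
    (natDegree_map_le.trans hg) (IsAlgClosed.splits _)
  rw [natDegree_map_eq_of_injective hinj, resultant_map_map, ← hr, Multiset.map_map,
    leadingCoeff_map_of_injective hinj] at h1
  apply (algebraMap ℚ ℂ).injective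
  rw [map_mul, map_pow, Algebra.norm_eq_prod_embeddings ℚ ℂ, map_intCast, map_intCast]
  refine h1.trans ?_
  rw [Finset.prod_eq_multiset_prod]
  simp only [Function.comp_def, hv, eq_intCast]

theorem res_cop {p : ℕ} (hp : p.Prime) {ell P : ℤ[X]} (hm : ell.Monic) (hP : P.IsPrimitive)
    (hd : P.natDegree < ell.natDegree) (hi : Irreducible (ell.map (Int.castRingHom (ZMod p)))) :
    ¬(p : ℤ) ∣ resultant P ell P.natDegree ell.natDegree := by
  have := Fact.mk hp
  have h1 : P.map (Int.castRingHom (ZMod p)) ≠ 0 := fun h => by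
    have h2 : C (p : ℤ) ∣ P := (C_dvd_iff_dvd_coeff _ _).2 fun i => by
      have := congrArg (coeff · i) h
      simpa [ZMod.intCast_zmod_eq_zero_iff_dvd] using this
    have := Int.isUnit_iff_natAbs_eq.1 (hP _ h2)
    exact hp.ne_one (by simpa using this)
  have hle := natDegree_map_le (p := P) (f := Int.castRingHom (ZMod p))
  have h2 : IsCoprime (ell.map (Int.castRingHom (ZMod p))) (P.map (Int.castRingHom (ZMod p))) :=
    hi.coprime_iff_not_dvd.2 fun h => by
      have h3 := natDegree_le_of_dvd h h1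
      rw [hm.natDegree_map] at h3
      omega
  have h3 := ((isUnit_resultant_iff_isCoprime (hm.map _)).2 h2).ne_zero
  intro h
  have h4 : Int.castRingHom (ZMod p) (resultant P ell P.natDegree ell.natDegree) = 0 :=
    (ZMod.intCast_zmod_eq_zero_iff_dvd _ _).2 h
  obtain ⟨k, hk⟩ := Nat.exists_eq_add_of_le hle
  rw [← resultant_map_map, resultant_comm, hk, resultant_add_right_deg _ _ _ _ _ le_rfl,
    ← hm.natDegree_map (Int.castRingHom (ZMod p)), (hm.map _).coeff_natDegree, one_pow,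
    one_mul] at h4
  exact mul_ne_zero (pow_ne_zero _ (neg_ne_zero.2 one_ne_zero)) h3 h4

theorem ideal {K : Type} [Field K] [NumberField K] (a b : 𝓞 K) (r c : ℤ) (M : ℕ)
    (hrc : IsCoprime r c) (hb : (r : 𝓞 K) * (c : 𝓞 K) = a * b)
    (hn : (Algebra.norm ℤ a).natAbs = M * r.natAbs) (hM : M.Coprime r.natAbs) :
    Ideal.absNorm (Ideal.span {a, (r : 𝓞 K)}) = r.natAbs := by
  have h1 : Ideal.span {a, (r : 𝓞 K)} * Ideal.span {a, (c : 𝓞 K)} = Ideal.span {a} := by
    rw [Ideal.span_pair_mul_span_pair]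
    apply le_antisymm
    · rw [Ideal.span_le]
      rintro x (rfl | rfl | rfl | rfl)
      · exact Ideal.mem_span_singleton.2 ⟨a, rfl⟩
      · exact Ideal.mem_span_singleton.2 ⟨c, rfl⟩
      · exact Ideal.mem_span_singleton.2 ⟨r, mul_comm _ _⟩
      · exact Ideal.mem_span_singleton.2 ⟨b, hb⟩
    · rw [Ideal.span_singleton_le_iff_mem]
      obtain ⟨u, v, h⟩ := hrc
      have h2 : (u : 𝓞 K) * r + v * c = 1 := by exact_mod_cast congrArg (Int.cast : ℤ → 𝓞 K) h
      have h3 : a = (u : 𝓞 K) * (r * a) + v * (a * c) := by linear_combination -a * h2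
      rw [h3]
      refine add_mem (Ideal.mul_mem_left _ _ (Ideal.subset_span ?_))
        (Ideal.mul_mem_left _ _ (Ideal.subset_span ?_))
      · rw [← h3]
        simp
      · rw [← h3]
        simp
  have h2 := congrArg Ideal.absNorm h1
  rw [map_mul, Ideal.absNorm_span_singleton, hn] at h2
  have h3 : ∀ z : ℤ, Ideal.absNorm (Ideal.span {a, (z : 𝓞 K)}) ∣
      z.natAbs ^ Module.finrank ℤ (𝓞 K) := fun z => by
    have h4 := Ideal.absNorm_dvd_absNorm_of_le
      (show Ideal.span {(z : 𝓞 K)} ≤ Ideal.span {a, (z : 𝓞 K)} from Ideal.span_mono (by simp))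
    rwa [Ideal.absNorm_span_singleton, ← eq_intCast (algebraMap ℤ (𝓞 K)), Algebra.norm_algebraMap,
      Int.natAbs_pow, eq_intCast] at h4
  apply Nat.dvd_antisymm
  · exact ((hM.symm.pow_left _).coprime_dvd_left (h3 r)).dvd_of_dvd_mul_left ⟨_, h2.symm⟩
  · have h5 : r.natAbs.Coprime c.natAbs := Int.isCoprime_iff_gcd_eq_one.1 hrc
    exact ((h5.pow_right _).coprime_dvd_right (h3 c)).dvd_of_dvd_mul_right
      ⟨M, h2.trans (mul_comm _ _)⟩

end OIDL

open OIDL Geo in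
theorem stIDL (hN : St_NRM) : St_IDL := by
  intro B _ _ _ d _ Γ m e K _ _ κ m1 F ell h hI
  have hl : ∀ q : ℤ[X], κ.lv q = aeval (κ.π Γ.t) q := fun q => by
    rw [Cut.lv, Γ.algebraMap_eq]
    exact (aeval_algHom_apply κ.π.toIntAlgHom Γ.t q).symm
  have h0 : aeval (κ.π Γ.t) (Γ.nrm e) = 0 := by
    obtain ⟨g, -, hg⟩ := ((hN B d Γ m).1 e κ.he).2
    exact (hl _).symm.trans ((κ.ker _).2 ⟨g, hg.symm⟩)
  have hint : ∀ (a : ℕ) (q : ℤ[X]), q.natDegree ≤ a → IsIntegral ℤ ((κ.c : K) ^ a * κ.lv q) :=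
    fun a q hq => hI a _ (Γ.algebraMap_mem hq)
  have hm1 := h.hm1
  have hP : Γ.nrm e ≠ 0 := κ.prim.ne_zero
  have hc : (Γ.nrm e).leadingCoeff = κ.c := by rw [leadingCoeff, κ.deg, Cut.c]
  have hc0 : κ.c ≠ 0 := hc ▸ leadingCoeff_ne_zero.2 hP
  have hc0' : (κ.c : K) ≠ 0 := Int.cast_ne_zero.2 hc0
  have hn : 1 ≤ m * d := κ.rank ▸ Module.finrank_pos
  set r := resultant (Γ.nrm e) ell (Γ.nrm e).natDegree m1 with hr
  have h1 : (r : ℚ) = (κ.c : ℚ) ^ m1 * Algebra.norm ℚ (κ.lv ell) := by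
    rw [hl, ← hc]
    exact res_eq ell m1 h.dg.le hP (κ.deg.trans κ.rank.symm) h0 κ.gen
  have h2 : r.natAbs.Coprime F := Nat.coprime_of_dvd fun p hp hpr hpF =>
    res_cop hp h.mon κ.prim (by rw [κ.deg, h.dg]; omega) (h.ir p hp hpF)
      (by rw [h.dg]; exact Int.natCast_dvd.2 hpr)
  have hr0 : r ≠ 0 := fun h3 => by
    have := h.F2
    rw [h3] at h2
    simp at h2
    omega
  have h3 : r.natAbs.Coprime κ.c.natAbs := h2.coprime_dvd_right (Int.dvd_natCast.1 h.cF)
  obtain ⟨q1, q2, -, hq2, hq⟩ := exists_mul_add_mul_eq_C_resultant (Γ.nrm e) ell le_rfl h.dg.le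
    (Or.inr (by omega))
  have h4 : κ.lv ell * κ.lv q2 = r := by
    have h5 := congrArg (aeval (κ.π Γ.t)) hq
    rw [map_add, map_mul, map_mul, h0, zero_mul, zero_add, aeval_C, eq_intCast] at h5
    rw [hl, hl, h5]
  have hl0 : κ.lv ell ≠ 0 := fun h5 => hr0 (by
    rw [h5, zero_mul] at h4
    exact_mod_cast h4.symm)
  have h5 : q2.natDegree ≤ m * d := by
    rw [← κ.deg]
    exact natDegree_le_of_degree_le hq2.le
  let a : 𝓞 K := ⟨_, hint m1 ell h.dg.le⟩
  let b : 𝓞 K := ⟨_, hint (m * d) q2 h5⟩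
  have ha : algebraMap (𝓞 K) K a = (κ.c : K) ^ m1 * κ.lv ell := rfl
  have hb : algebraMap (𝓞 K) K b = (κ.c : K) ^ (m * d) * κ.lv q2 := rfl
  have h6 : (r : 𝓞 K) * ((κ.c ^ (m1 + m * d) : ℤ) : 𝓞 K) = a * b := by
    apply RingOfIntegers.coe_injective
    rw [map_mul, map_mul, map_intCast, map_intCast, ha, hb, ← h4]
    push_cast
    ring
  have h7 : (Algebra.norm ℤ a).natAbs = κ.c.natAbs ^ (m1 * (m * d - 1)) * r.natAbs := by
    rw [← Int.natAbs_pow, ← Int.natAbs_mul]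
    refine congrArg _ (Int.cast_injective (α := ℚ) ?_)
    obtain ⟨n, hn'⟩ := Nat.exists_eq_add_of_le' hn
    rw [Algebra.coe_norm_int, RingOfIntegers.coe_eq_algebraMap, ha, map_mul, map_pow,
      ← map_intCast (algebraMap ℚ K), Algebra.norm_algebraMap, κ.rank, hn', Nat.add_sub_cancel]
    push_cast
    rw [h1]
    ring
  have h8 := ideal a b r _ _ (IsCoprime.pow_right (Int.isCoprime_iff_gcd_eq_one.2 h3)) h6 h7
    (h3.symm.pow_left _)
  have h9 : Ideal.span {a, (r : 𝓞 K)} ≠ ⊥ := fun h9 => hr0 (by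
    rw [h9, Ideal.absNorm_bot] at h8
    exact Int.natAbs_eq_zero.1 h8.symm)
  have h10 : ((Ideal.span {a, (r : 𝓞 K)} : Ideal (𝓞 K)) : FractionalIdeal (𝓞 K)⁰ K) ≠ 0 :=
    FractionalIdeal.coeIdeal_ne_zero.2 h9
  have hrI : (r : 𝓞 K) ∈ Ideal.span {a, (r : 𝓞 K)} := Ideal.subset_span (by simp)
  refine ⟨Ideal.span {a, (r : 𝓞 K)}, (Units.mk0 _ h10)⁻¹, ?_, ?_, ⟨r.natAbs, h2, ?_⟩,
    ⟨a, Ideal.subset_span (by simp), ha⟩, m * d, fun x hx => ?_⟩
  · exact (Units.mk0 _ h10).inv_mul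
  · rw [h8, Nat.cast_natAbs, Int.cast_abs, h1, abs_mul, abs_pow, mul_comm]
  · rw [← Int.cast_natCast]
    rcases Int.natAbs_eq r with h11 | h11
    · rwa [← h11]
    · rw [← neg_eq_iff_eq_neg.2 h11, Int.cast_neg]
      exact neg_mem hrI
  · obtain ⟨u, v, rfl⟩ := Ideal.mem_span_pair.1 hx
    obtain ⟨f, hf⟩ := h.cF
    have hf' : (F : K) = κ.c * f := by exact_mod_cast congrArg (Int.cast : ℤ → K) hf
    have h11 : (F : K) ^ (m * d) * ((u * a + v * r : 𝓞 K) : K) / κ.lv ell =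
        (((F : 𝓞 K) ^ (m * d) * (κ.c : 𝓞 K) ^ m1 * u + (f : 𝓞 K) ^ (m * d) * v * b : 𝓞 K) : K) := by
      rw [div_eq_iff hl0]
      simp only [map_add, map_mul, map_pow, map_intCast, map_natCast]
      rw [ha, hb, ← h4, hf']
      ring
    rw [h11]
    exact RingOfIntegers.isIntegral_coe _

end Pool.Agent.Lib.BK2
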