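import Pool.Agent.Lib.BK2.ODefs
import Pool.Agent.Lib.BK2.Bas

/-! Integrality of the values of sections. -/

open Polynomial

noncomputable section

namespace Pool.Agent.Lib.BK2

open Geo in
theorem stOINT2 (hN : St_NRM) : St_OINT := by
  intro B _ _ _ d _ Γ m e K _ _ κ hm
  have hP0 : Γ.nrm e ≠ 0 := fun h => κ.irr.ne_zero (by rw [h, Polynomial.map_zero])
  have hc : κ.c ≠ 0 := by
    rw [Cut.c, ← κ.deg]
    exact leadingCoeff_ne_zero.2 hP0
  have hPz : κ.π (algebraMap ℤ[X] B (Γ.nrm e)) = 0 := by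
    obtain ⟨-, g, -, hg⟩ := (hN B d Γ m).1 e κ.he
    exact (κ.ker _).2 ⟨g, hg.symm⟩
  have hR : (C κ.c * X ^ (m * d) - Γ.nrm e).natDegree ≤ m * d - 1 := by
    refine natDegree_le_iff_coeff_eq_zero.2 fun k hk => ?_
    rw [coeff_sub, coeff_C_mul_X_pow]
    split_ifs with h
    · rw [h, Cut.c, sub_self]
    · rw [coeff_eq_zero_of_natDegree_lt (by rw [κ.deg]; omega), sub_self]
  have hd : 1 ≤ m * d := Nat.mul_pos hm (NeZero.pos d)
  have hlow : ∀ j, m * d + Γ.dmax ≤ j → ∀ v ∈ Γ.V (j + 1), ∃ u ∈ Γ.V j,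
      (κ.c : K) * κ.π v = κ.π u := by
    intro j hj v hv
    refine Γ.V_induction (P := fun v => ∃ u ∈ Γ.V j, (κ.c : K) * κ.π v = κ.π u)
      ⟨0, V_zero _, by simp⟩ ?_ ?_ hv
    · rintro f g ⟨u, hu, h1⟩ ⟨u', hu', h2⟩
      exact ⟨u + u', V_add hu hu', by rw [map_add, map_add, mul_add, h1, h2]⟩
    · intro a i
      have h1 := Γ.ix_le i
      have h2 := Γ.δ_le i.1
      by_cases h : (i.2 : ℕ) + Γ.δ i.1 ≤ j
      · refine ⟨(κ.c : B) * (a • Γ.mon i), V_intCast_mul _ (V_smul _ ?_), by simp⟩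
        rw [mon_eq]
        exact V_mono h (smul_mem (natDegree_X_pow_le _) (Γ.b_mem _))
      · obtain ⟨r, hr⟩ : ∃ r, (i.2 : ℕ) = r + m * d := ⟨i.2 - m * d, by omega⟩
        refine ⟨a • (X ^ r * (C κ.c * X ^ (m * d) - Γ.nrm e)) • Γ.b i.1, V_smul _ ?_, ?_⟩
        · refine V_mono (show r + (m * d - 1) + Γ.δ i.1 ≤ j by omega) (smul_mem ?_ (Γ.b_mem _))
          exact natDegree_mul_le.trans (add_le_add (natDegree_X_pow_le _) hR)
        · rw [mon_eq, hr]
          simp only [Geo.smul_eq, map_mul, map_sub, map_pow, hPz, eq_intCast,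
            map_intCast, zsmul_eq_mul]
          ring
  have hint : κ.Intg := by
    intro a v hv
    let f := κ.π.toAddMonoidHom.toIntLinearMap
    have hit : ∀ a, ∀ v ∈ Γ.V (m * d + Γ.dmax + a), ∃ u ∈ Γ.V (m * d + Γ.dmax),
        (κ.c : K) ^ a * κ.π v = κ.π u := by
      intro a
      induction a with
      | zero => exact fun v hv => ⟨v, hv, by simp⟩
      | succ a ih =>
        intro v hv
        obtain ⟨u, hu, h1⟩ := hlow (m * d + Γ.dmax + a) (by omega) v hv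
        obtain ⟨u', hu', h2⟩ := ih u hu
        exact ⟨u', hu', by rw [pow_succ, mul_assoc, h1, h2]⟩
    refine isIntegral_of_smul_mem_submodule ((Γ.VS (m * d + Γ.dmax)).map f) ?_ ?_ _ ?_
    · exact (Submodule.ne_bot_iff _).2 ⟨1, ⟨1, Γ.one_mem _, map_one κ.π⟩, one_ne_zero⟩
    · rw [VS_eq_span]
      exact (Submodule.fg_span (Set.finite_range _)).map _
    · rintro _ ⟨u, hu, rfl⟩
      obtain ⟨u', hu', h2⟩ := hit a (u * v) (mul_mem hu hv)
      refine ⟨u', hu', ?_⟩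
      change κ.π u' = (κ.c : K) ^ a * κ.π v * κ.π u
      rw [← h2, map_mul]; ring
  have hcK : (κ.c : K) ≠ 0 := Int.cast_ne_zero.2 hc
  refine ⟨hc, hlow, hint, by simpa [Cut.θ1] using hint 1 _ Γ.t_mem, fun a => ?_, fun q => ?_⟩
  · obtain ⟨q, hq⟩ := κ.gen a
    refine ⟨q.comp (C ((κ.c : ℚ)⁻¹) * X), ?_⟩
    rw [aeval_comp, ← hq]
    congr 2
    simp [Cut.θ1, hcK]
  · refine ⟨algebraMap ℤ[X] B (q.comp (C κ.c * X)), Γ.algebraMap_mem ?_, ?_⟩
    · refine natDegree_comp_le.trans ?_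
      have : (C κ.c * X : ℤ[X]).natDegree ≤ 1 := (natDegree_C_mul_le _ _).trans natDegree_X_le
      simpa using Nat.mul_le_mul_left q.natDegree this
    · rw [Γ.algebraMap_eq, aeval_comp]
      have := aeval_algHom_apply κ.π.toIntAlgHom (aeval Γ.t (C κ.c * X : ℤ[X])) q
      refine this.symm.trans ?_
      congr 2
      simp [Cut.θ1]

end Pool.Agent.Lib.BK2
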