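import Pool.Agent.Lib.BK2.ODefs
import Pool.Agent.Lib.BK2.Bas

/-! Row O.LAM: the lattice of values. -/

open Polynomial NumberField
open scoped nonZeroDivisors

namespace Pool.Agent.Lib.BK2

namespace OLAM

theorem bez {K : Type} [Field K] (M : Submodule ℤ K) {s F n : ℕ} (h : s.Coprime F) {y : K}
    (h1 : (s : K) * y ∈ M) (h2 : (F : K) ^ n * y ∈ M) : y ∈ M := by
  obtain ⟨a, b, e⟩ := (Nat.isCoprime_iff_coprime.2 (h.pow_right n) : IsCoprime (s : ℤ) _)
  have e' : (a : K) * s + b * (F : K) ^ n = 1 := by exact_mod_cast congrArg (Int.cast : ℤ → K) e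
  have : y = a • ((s : K) * y) + b • ((F : K) ^ n * y) := by
    simp only [zsmul_eq_mul]
    linear_combination (-y) * e'
  exact this ▸ M.add_mem (M.smul_mem _ h1) (M.smul_mem _ h2)

variable {K : Type} [Field K] [NumberField K]

theorem mem_iff {A : FractionalIdeal (𝓞 K)⁰ K} {J : Ideal (𝓞 K)} (h : A * J = 1) {g : K} :
    g ∈ A ↔ ∀ x ∈ J, IsIntegral ℤ (g * (x : K)) := by
  refine ⟨fun hg x hx => ?_, fun hg => ?_⟩
  · have := FractionalIdeal.mul_mem_mul hg ((FractionalIdeal.mem_coeIdeal _).2 ⟨x, hx, rfl⟩)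
    rw [h, FractionalIdeal.mem_one_iff] at this
    obtain ⟨a, ha⟩ := this
    exact (show (a : K) = g * x from ha) ▸ a.isIntegral_coe
  · have : FractionalIdeal.spanSingleton (𝓞 K)⁰ g * J ≤ 1 := by
      refine FractionalIdeal.mul_le.2 fun i hi y hy => ?_
      obtain ⟨z, rfl⟩ := (FractionalIdeal.mem_spanSingleton _).1 hi
      obtain ⟨x, hx, rfl⟩ := (FractionalIdeal.mem_coeIdeal _).1 hy
      refine (FractionalIdeal.mem_one_iff _).2 ⟨z * ⟨_, hg x hx⟩, ?_⟩
      rw [map_mul, Algebra.smul_def, mul_assoc]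
      rfl
    rw [← FractionalIdeal.spanSingleton_le_iff_mem]
    calc FractionalIdeal.spanSingleton (𝓞 K)⁰ g
        = FractionalIdeal.spanSingleton (𝓞 K)⁰ g * J * A := by
          rw [mul_assoc, mul_comm _ A, h, mul_one]
      _ ≤ 1 * A := mul_le_mul_left this A
      _ = A := one_mul A

omit [NumberField K] in
theorem pow_int {I : Ideal (𝓞 K)} {u : K} (h : ∀ x ∈ I, IsIntegral ℤ (u * (x : K))) (j : ℕ) :
    ∀ x ∈ I ^ j, IsIntegral ℤ (u ^ j * (x : K)) := by
  induction j with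
  | zero => exact fun x _ => by simpa using x.isIntegral_coe
  | succ j ih =>
    intro x hx
    rw [pow_succ] at hx
    refine Submodule.mul_induction_on hx (fun a ha b hb => ?_) fun a b ha hb => ?_
    · have := (ih a ha).mul (h b hb)
      rwa [mul_mul_mul_comm, ← pow_succ] at this
    · simpa [mul_add] using ha.add hb

end OLAM

open OLAM in
theorem stLAM (hO : St_OINT) : St_LAM := by
  intro B _ _ _ d _ Γ m e K _ _ κ m1 F ell R I A0 ok l0 hI hR ax idl j hj g
  obtain ⟨-, -, -, -, -, hq⟩ := hO B d Γ m e K κ (by have := ok.hm; omega)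
  have hA : ((A0 ^ j : (FractionalIdeal (𝓞 K)⁰ K)ˣ) : FractionalIdeal (𝓞 K)⁰ K) *
      (I ^ j : Ideal (𝓞 K)) = 1 := by
    rw [Units.val_pow_eq_pow_val, FractionalIdeal.coeIdeal_pow, ← mul_pow, idl.inv, one_pow]
  obtain ⟨c', hc⟩ := ok.cF
  have hc' : (F : K) = κ.c * c' := by exact_mod_cast congrArg (Int.cast : ℤ → K) hc
  rw [mem_iff hA]
  constructor
  · rintro ⟨h1, h2⟩
    obtain ⟨a, ha, ea⟩ := idl.up
    obtain ⟨q, q1, q2⟩ := ok.cond _ (h1 _ (Ideal.pow_mem_pow ha j))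
    obtain ⟨v, v1, v2⟩ := hq q
    obtain ⟨s, s1, u, u1, u2⟩ := (hR j hj g).1 h2
    have hm : q.natDegree ≤ j * m1 := by
      have := ok.hm1
      have := Nat.le_mul_of_pos_left m1 hj
      omega
    let M : Submodule ℤ K :=
      { carrier := {y | ∃ v ∈ Γ.V (j * m1), κ.π v = y}
        zero_mem' := ⟨0, Γ.V_zero _, map_zero _⟩
        add_mem' := by
          rintro _ _ ⟨a, ha, rfl⟩ ⟨b, hb, rfl⟩
          exact ⟨a + b, Γ.V_add ha hb, map_add _ _ _⟩
        smul_mem' := by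
          rintro z _ ⟨a, ha, rfl⟩
          exact ⟨z • a, Γ.V_smul z ha, map_zsmul _ _ _⟩ }
    exact bez M (n := j * m1 + 1) s1 (y := g * κ.lv ell ^ j) ⟨u, u1, by rw [← mul_assoc, u2]⟩
      ⟨c' ^ (j * m1) • v, Γ.V_smul _ (Γ.V_mono hm v1), by
        rw [map_zsmul, v2, ← q2, zsmul_eq_mul,
          show ((a ^ j : 𝓞 K) : K) = (a : K) ^ j from map_pow _ _ _]
        push_cast
        rw [ea, pow_succ, hc', mul_pow, mul_pow, ← pow_mul, mul_comm m1 j]
        ring⟩
  · rintro ⟨v, v1, v2⟩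
    have hg : g ∈ R := (hR j hj g).2 ⟨1, Nat.coprime_one_left F, v, v1, by simp [v2]⟩
    refine ⟨fun x hx => ?_, hg⟩
    obtain ⟨s, s1, s2⟩ := ax.int g hg
    obtain ⟨k, hk⟩ := idl.dn
    have h1 := pow_int (u := (F : K) ^ k / κ.lv ell)
      (fun x hx => by rw [div_mul_eq_mul_div]; exact hk x hx) j x hx
    have h2 := ((hI _ v v1).mul h1).zsmul (c' ^ (j * m1))
    refine bez (integralClosure ℤ K).toSubmodule (n := j * m1 + k * j) s1
      (show IsIntegral ℤ _ by rw [← mul_assoc]; exact s2.mul x.isIntegral_coe) ?_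
    have e1 : (F : K) ^ (j * m1 + k * j) * (g * x) = c' ^ (j * m1) •
        ((κ.c : K) ^ (j * m1) * κ.π v * (((F : K) ^ k / κ.lv ell) ^ j * x)) := by
      rw [v2, zsmul_eq_mul, div_pow, ← pow_mul, pow_add]
      push_cast
      nth_rewrite 1 [hc']
      rw [mul_pow]
      field_simp
    exact show IsIntegral ℤ _ from e1 ▸ h2

end Pool.Agent.Lib.BK2
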