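import Pool.Agent.Lib.BK2.ODefs
import Pool.Agent.Lib.BK2.Bas

/-! Points of a section and primes of degree one. -/

open Polynomial NumberField

noncomputable section

namespace Pool.Agent.Lib.BK2

namespace OPTS

variable {B K : Type} [CommRing B] [Field K] [NumberField K] (π : B →+* K) (F : ℕ)

theorem up {R : Type} [Field R] (h1 : ∀ a : 𝓞 K, ∃ v, π v = F * (a : K)) (x : B →+* R)
    (hx : ∀ v, π v = 0 → x v = 0) (hF : (F : R) ≠ 0) :
    ∃ ψ : 𝓞 K →+* R, ∀ (a : 𝓞 K) v, π v = F * (a : K) → x v = F * ψ a := by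
  choose u hu using h1
  have e : ∀ v w, π v = π w → x v = x w := fun v w h =>
    sub_eq_zero.1 (by rw [← map_sub]; exact hx _ (by rw [map_sub, h, sub_self]))
  refine ⟨{ toFun := fun a => x (u a) / F
            map_one' := ?_, map_mul' := fun a b => ?_, map_zero' := ?_,
            map_add' := fun a b => ?_ }, fun a v h => ?_⟩
  · rw [e (u 1) F (by simp [hu]), map_natCast, div_self hF]
  · have := e (F * u (a * b)) (u a * u b) (by simp only [map_mul, map_natCast, hu]; ring)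
    simp only [map_mul, map_natCast] at this
    field_simp
    rw [← this, mul_comm]
  · rw [e (u 0) 0 (by simp [hu]), map_zero, zero_div]
  · rw [e (u (a + b)) (u a + u b) (by simp only [map_add, hu]; ring), map_add, add_div]
  · rw [e v (u a) (by rw [h, hu])]
    exact (mul_div_cancel₀ _ hF).symm

theorem down {R : Type} [Field R] (h2 : ∀ v, ∃ (k : ℕ) (a : 𝓞 K), (a : K) = F ^ k * π v)
    (ψ : 𝓞 K →+* R) (hF : (F : R) ≠ 0) :
    ∃ x : B →+* R, ∀ (a : 𝓞 K) v (k : ℕ), (a : K) = F ^ k * π v → x v = ψ a / F ^ k := by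
  choose k u hu using h2
  have hu' : ∀ v, algebraMap (𝓞 K) K (u v) = F ^ k v * π v := hu
  have e : ∀ (a : 𝓞 K) v (j : ℕ), (a : K) = F ^ j * π v → ψ (u v) / F ^ k v = ψ a / F ^ j :=
    fun a v j h => by
      have : (F : 𝓞 K) ^ j * u v = F ^ k v * a := by
        apply RingOfIntegers.coe_injective
        simp only [map_mul, map_pow, map_natCast]
        rw [← RingOfIntegers.coe_eq_algebraMap, ← RingOfIntegers.coe_eq_algebraMap, h, hu]
        ring
      have := congrArg ψ this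
      simp only [map_mul, map_pow, map_natCast] at this
      field_simp
      rw [mul_comm, this, mul_comm]
  refine ⟨{ toFun := fun v => ψ (u v) / F ^ k v
            map_one' := ?_, map_mul' := fun v w => ?_, map_zero' := ?_,
            map_add' := fun v w => ?_ }, fun a v j h => e a v j h⟩
  · rw [e 1 1 0 (by simp)]; simp
  · rw [e (u v * u w) (v * w) (k v + k w) (by
      change algebraMap (𝓞 K) K _ = _
      simp only [map_mul, hu']; ring), map_mul]
    field_simp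
    ring
  · rw [e 0 0 0 (by simp)]; simp
  · rw [e (F ^ k w * u v + F ^ k v * u w) (v + w) (k v + k w)
      (by
        change algebraMap (𝓞 K) K _ = _
        simp only [map_mul, map_add, map_pow, map_natCast, hu']; ring)]
    simp only [map_add, map_mul, map_pow, map_natCast]
    field_simp
    ring

theorem nrm_ker {p : ℕ} (ψ : 𝓞 K →+* ZMod p) : Ideal.absNorm (RingHom.ker ψ) = p := by
  rw [Ideal.absNorm_apply, Submodule.cardQuot_apply]
  exact (Nat.card_congr (RingHom.quotientKerEquivOfSurjective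
    (ZMod.ringHom_surjective ψ)).toEquiv).trans (Nat.card_zmod p)

theorem exists_hom (P : Ideal (𝓞 K)) (hp : (Ideal.absNorm P).Prime) :
    ∃ ψ : 𝓞 K →+* ZMod (Ideal.absNorm P), RingHom.ker ψ = P := by
  have hc : Nat.card (𝓞 K ⧸ P) = Ideal.absNorm P := by
    rw [Ideal.absNorm_apply, Submodule.cardQuot_apply]
  have : Finite (𝓞 K ⧸ P) := Nat.finite_of_card_ne_zero (hc ▸ hp.ne_zero)
  let _ := Fintype.ofFinite (𝓞 K ⧸ P)
  let i := ZMod.ringEquivOfPrime (𝓞 K ⧸ P) hp (by rw [← hc, Nat.card_eq_fintype_card])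
  refine ⟨i.symm.toRingHom.comp (Ideal.Quotient.mk P), ?_⟩
  ext a
  simp [RingHom.mem_ker, Ideal.Quotient.eq_zero_iff_mem]

end OPTS

open OPTS in
theorem stPTS (hO : St_OINT) : St_PTS := by
  classical
  intro B _ _ _ d _ Γ m e K _ _ κ m1 F ell ok hI
  obtain ⟨-, -, -, -, -, hq⟩ := hO B d Γ m e K κ (by have := ok.hm; omega)
  have h1 : ∀ a : 𝓞 K, ∃ v, κ.π v = F * (a : K) := fun a => by
    obtain ⟨q, -, h⟩ := ok.cond a a.isIntegral_coe
    obtain ⟨v, -, hv⟩ := hq q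
    exact ⟨v, hv.trans h.symm⟩
  have h2 : ∀ v, ∃ (k : ℕ) (a : 𝓞 K), (a : K) = F ^ k * κ.π v := fun v => by
    obtain ⟨k, hk⟩ := Γ.exists_mem_V v
    obtain ⟨c', hc⟩ := ok.cF
    have hc' : (F : K) = κ.c * c' := by exact_mod_cast congrArg (Int.cast : ℤ → K) hc
    refine ⟨k, (c' : 𝓞 K) ^ k * ⟨_, hI k v hk⟩, ?_⟩
    change algebraMap (𝓞 K) K _ = _
    rw [hc', map_mul, map_pow, map_intCast]
    change (c' : K) ^ k * ((κ.c : K) ^ k * κ.π v) = _
    ring
  have hF : ∀ p : Nat.Primes, ¬(p : ℕ) ∣ F → ((F : ℕ) : ZMod p) ≠ 0 := fun p h =>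
    mt (ZMod.natCast_eq_zero_iff _ _).1 h
  have hup : ∀ x : Pt B, x.On e ∧ ¬x.p ∣ F → ∃ ψ : 𝓞 K →+* ZMod x.1,
      ∀ (a : 𝓞 K) v, κ.π v = F * (a : K) → x.2 v = F * ψ a := fun x hx => by
    have : Fact (x.1 : ℕ).Prime := ⟨x.1.2⟩
    refine up κ.π F h1 x.2 (fun v hv => ?_) (hF _ hx.2)
    obtain ⟨u, rfl⟩ := (κ.ker v).1 hv
    rw [map_mul, show x.2 e = 0 from hx.1, zero_mul]
  choose ψ hψ using hup
  let Pr : Pt B → Ideal (𝓞 K) := fun x =>
    if h : x.On e ∧ ¬x.p ∣ F then RingHom.ker (ψ x h) else ⊥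
  have hPr : ∀ x (h : x.On e ∧ ¬x.p ∣ F), Pr x = RingHom.ker (ψ x h) := fun x h => dif_pos h
  have hn : ∀ x : Pt B, x.On e → ¬x.p ∣ F → Ideal.absNorm (Pr x) = x.p := fun x h h' => by
    rw [hPr x ⟨h, h'⟩]
    exact nrm_ker _
  have hm : ∀ x : Pt B, x.On e → ¬x.p ∣ F → ∀ (v : B) (a : 𝓞 K) (k : ℕ),
      (a : K) = (F : K) ^ k * κ.π v → (a ∈ Pr x ↔ x.On v) := fun x h h' v a k ha => by
    have : Fact (x.1 : ℕ).Prime := ⟨x.1.2⟩
    have e1 := hψ x ⟨h, h'⟩ a (F ^ (k + 1) * v) (by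
      simp only [map_mul, map_pow, map_natCast, ha]; ring)
    simp only [map_mul, map_pow, map_natCast] at e1
    have h0 := hF _ h'
    rw [hPr x ⟨h, h'⟩, RingHom.mem_ker]
    change _ ↔ x.2 v = 0
    constructor
    · intro h3
      rw [h3, mul_zero] at e1
      exact (mul_eq_zero.1 e1).resolve_left (pow_ne_zero _ h0)
    · intro h3
      rw [h3, mul_zero] at e1
      exact (mul_eq_zero.1 e1.symm).resolve_left h0
  refine ⟨Pr, hn, hm, ?_, fun P hp hP => ?_⟩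
  · rintro ⟨p, f⟩ ⟨h, h'⟩ ⟨p', f'⟩ ⟨g, g'⟩ hx
    have hp : p = p' := Subtype.ext ((hn _ h h').symm.trans (hx ▸ hn _ g g'))
    subst hp
    have : f = f' := ZMod.ringHom_eq_of_ker_eq _ _ (by
      ext v
      obtain ⟨k, a, ha⟩ := h2 v
      exact (hm _ h h' v a k ha).symm.trans (hx ▸ hm _ g g' v a k ha))
    rw [this]
  · obtain ⟨φ, hφ⟩ := exists_hom P hp
    have : Fact (Ideal.absNorm P).Prime := ⟨hp⟩
    have h0 := hF ⟨_, hp⟩ hP
    obtain ⟨x, hx⟩ := down κ.π F h2 φ h0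
    have he : x e = 0 := by
      rw [hx 0 e 0 (by simp [(κ.ker e).2 dvd_rfl])]; simp
    refine ⟨⟨⟨_, hp⟩, x⟩, he, hP, ?_⟩
    ext a
    obtain ⟨v, hv⟩ := h1 a
    have e1 := hm ⟨⟨_, hp⟩, x⟩ he hP v (F * a) 0 (by push_cast; rw [hv]; ring)
    have e2 : x v = F * φ a := by
      rw [hx (F * a) v 0 (by push_cast; rw [hv]; ring)]; simp
    have e3 := hψ ⟨⟨_, hp⟩, x⟩ ⟨he, hP⟩ a v hv
    rw [hPr ⟨⟨_, hp⟩, x⟩ ⟨he, hP⟩, RingHom.mem_ker]
    conv_rhs => rw [← hφ, RingHom.mem_ker]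
    rw [← mul_left_cancel₀ h0 (e2.symm.trans e3)]

end Pool.Agent.Lib.BK2
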