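import Pool.Agent.Lib.BK2.ODefs
import Pool.Agent.Lib.BK2.Bas

/-! The semilocal order of a section. -/

open Polynomial

noncomputable section

namespace Pool.Agent.Lib.BK2

namespace ORING

variable {B : Type} [CommRing B] [Algebra ℤ[X] B] {d : ℕ} [NeZero d] {Γ : Geo B d} {m : ℕ}
  {e : B} {K : Type} [Field K] [NumberField K] (κ : Cut Γ m e K) (m1 F : ℕ) (ell : ℤ[X])

/-- Membership at level `j`. -/
def Mem (j : ℕ) (g : K) : Prop :=
  ∃ s : ℕ, s.Coprime F ∧ ∃ v ∈ Γ.V (j * m1), (s : K) * g * κ.lv ell ^ j = κ.π v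

variable {κ m1 F ell}

theorem ell_mem (ho : κ.Ok m1 F ell) : algebraMap ℤ[X] B ell ∈ Γ.V m1 :=
  Γ.algebraMap_mem ho.dg.le

theorem up (ho : κ.Ok m1 F ell) {j : ℕ} {g : K} (h : Mem κ m1 F ell j g) :
    Mem κ m1 F ell (j + 1) g := by
  obtain ⟨s, hs, v, hv, h⟩ := h
  refine ⟨s, hs, v * algebraMap ℤ[X] B ell, ?_, ?_⟩
  · rw [add_mul, one_mul]
    exact Geo.mul_mem hv (ell_mem ho)
  · rw [map_mul, ← h, pow_succ, Cut.lv]
    ring

theorem down (ho : κ.Ok m1 F ell) (hd : κ.Div m1 F ell) {j : ℕ} (hj : 1 ≤ j) {g : K}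
    (h : Mem κ m1 F ell (j + 1) g) : Mem κ m1 F ell j g := by
  obtain ⟨s, hs, v, hv, h⟩ := h
  have h1 : m1 ≤ j * m1 := Nat.le_mul_of_pos_left _ hj
  obtain ⟨s0, hs0, h0⟩ := hd.dv (j * m1) (by have := ho.hm1; omega)
  rw [add_mul, one_mul] at hv
  obtain ⟨u, hu, h2⟩ := h0 v hv
  refine ⟨s0 * s, Nat.Coprime.mul_left hs0 hs, u, hu, mul_left_cancel₀ hd.ne ?_⟩
  rw [← h2, ← h]
  push_cast
  ring

theorem mem_iff (ho : κ.Ok m1 F ell) (hd : κ.Div m1 F ell) {j : ℕ} (hj : 1 ≤ j) (g : K) :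
    Mem κ m1 F ell 1 g ↔ Mem κ m1 F ell j g := by
  induction j, hj using Nat.le_induction with
  | base => rfl
  | succ j hj ih => exact ih.trans ⟨up ho, down ho hd hj⟩

theorem mem_one {g : K} : Mem κ m1 F ell 1 g ↔
    ∃ s : ℕ, s.Coprime F ∧ ∃ v ∈ Γ.V m1, (s : K) * g * κ.lv ell = κ.π v := by
  simp only [Mem, one_mul, pow_one]

/-- The order. -/
def ord (ho : κ.Ok m1 F ell) (hd : κ.Div m1 F ell) : Subring K where
  carrier := {g | Mem κ m1 F ell 1 g}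
  one_mem' := mem_one.2 ⟨1, Nat.coprime_one_left F, _, ell_mem ho, by simp [Cut.lv]⟩
  zero_mem' := mem_one.2 ⟨1, Nat.coprime_one_left F, 0, Geo.V_zero _, by simp⟩
  add_mem' := fun {g g'} h h' => by
    obtain ⟨s, hs, v, hv, h⟩ := mem_one.1 h
    obtain ⟨s', hs', v', hv', h'⟩ := mem_one.1 h'
    refine mem_one.2 ⟨s * s', Nat.Coprime.mul_left hs hs', (s' : B) * v + (s : B) * v',
      Geo.V_add (Geo.V_natCast_mul _ hv) (Geo.V_natCast_mul _ hv'), ?_⟩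
    rw [map_add, map_mul, map_mul, ← h, ← h', map_natCast, map_natCast]
    push_cast
    ring
  neg_mem' := fun {g} h => by
    obtain ⟨s, hs, v, hv, h⟩ := mem_one.1 h
    refine mem_one.2 ⟨s, hs, -v, Geo.V_neg hv, ?_⟩
    rw [map_neg, ← h]
    ring
  mul_mem' := fun {g g'} h h' => by
    obtain ⟨s, hs, v, hv, h⟩ := mem_one.1 h
    obtain ⟨s', hs', v', hv', h'⟩ := mem_one.1 h'
    refine down ho hd le_rfl ⟨s * s', Nat.Coprime.mul_left hs hs', v * v', ?_, ?_⟩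
    · exact Geo.mul_mem_of_le hv hv' (by omega)
    · rw [map_mul, ← h, ← h']
      push_cast
      ring

theorem theta_mem (ho : κ.Ok m1 F ell) (hd : κ.Div m1 F ell) : κ.θ1 ∈ ord ho hd := by
  obtain ⟨u, hu, h⟩ := hd.low m1 (by have := ho.hm1; omega) _
    (Geo.mul_mem (ell_mem ho) Γ.t_mem)
  refine mem_one.2 ⟨1, Nat.coprime_one_left F, u, hu, ?_⟩
  rw [← h, map_mul, Cut.θ1, Cut.lv]
  push_cast
  ring

omit [NumberField K] in
theorem aeval_mem {R : Subring K} {x : K} (hx : x ∈ R) (q : ℤ[X]) : aeval x q ∈ R := by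
  induction q using Polynomial.induction_on' with
  | add p q hp hq => rw [map_add]; exact R.add_mem hp hq
  | monomial n a =>
    rw [aeval_monomial, eq_intCast]
    exact R.mul_mem (intCast_mem R a) (R.pow_mem hx n)

theorem int (ho : κ.Ok m1 F ell) (hd : κ.Div m1 F ell) {g : K} (h : g ∈ ord ho hd) :
    ∃ s : ℕ, s.Coprime F ∧ IsIntegral ℤ ((s : K) * g) := by
  obtain ⟨s, hs, v, hv, h⟩ := mem_one.1 h
  obtain ⟨s0, hs0, h0⟩ := hd.dv m1 (by have := ho.hm1; omega)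
  refine ⟨s0 * s, Nat.Coprime.mul_left hs0 hs, ?_⟩
  let N : Submodule ℤ K := (Γ.VS m1).map κ.π.toAddMonoidHom.toIntLinearMap
  have hN : N.FG := (Module.Finite.iff_fg.1 inferInstance).map _
  have h1 : (1 : K) ∈ N := ⟨1, Γ.one_mem m1, map_one κ.π⟩
  refine isIntegral_of_smul_mem_submodule N (fun hb => ?_) hN _ ?_
  · rw [hb] at h1
    exact one_ne_zero ((Submodule.mem_bot ℤ).1 h1)
  · rintro _ ⟨w, hw, rfl⟩
    obtain ⟨u, hu, h2⟩ := h0 (v * w) (Geo.mul_mem hv hw)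
    refine ⟨u, hu, mul_left_cancel₀ hd.ne ?_⟩
    change κ.lv ell * κ.π u = κ.lv ell * (((s0 * s : ℕ) : K) * g * κ.π w)
    rw [← h2, map_mul, ← h]
    push_cast
    ring

end ORING

theorem stRING : St_RING := by
  intro B _ _ _ d _ Γ m e K _ _ κ m1 F ell ho hd
  refine ⟨ORING.ord ho hd, fun j hj g => ORING.mem_iff ho hd hj g,
    ⟨fun s hs => ?_, fun g hg => ORING.int ho hd hg, fun a ha => ?_⟩, ORING.theta_mem ho hd⟩
  · have h0 : s ≠ 0 := by
      rintro rfl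
      have h1 := ho.F2
      rw [Nat.coprime_zero_left] at hs
      omega
    refine ORING.mem_one.2 ⟨s, hs, _, ORING.ell_mem ho, ?_⟩
    rw [mul_inv_cancel₀ (Nat.cast_ne_zero.2 h0), one_mul, Cut.lv]
  · obtain ⟨q, -, h⟩ := ho.cond a ha
    rw [h]
    exact ORING.aeval_mem (ORING.theta_mem ho hd) q

end Pool.Agent.Lib.BK2
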