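import Pool.Agent.Lib.BK2.ODefs
import Pool.Agent.Lib.BK2.Bas

open Polynomial NumberField
open scoped nonZeroDivisors

noncomputable section

namespace Pool.Agent.Lib.BK2

namespace OSPL

variable {B : Type} [CommRing B] [Algebra ℤ[X] B] {d : ℕ} [NeZero d] {Γ : Geo B d} {m : ℕ} {e : B}
  {K : Type} [Field K] [NumberField K] {κ : Cut Γ m e K} {F : ℕ} {Pr : Pt B → Ideal (𝓞 K)}

theorem prime (hp : κ.IsPts F Pr) {x : Pt B} (hx : x.On e) (hF : ¬x.p ∣ F) :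
    (Pr x).IsPrime ∧ Pr x ≠ ⊥ := by
  have h := hp.nrm x hx hF
  have hq : x.p.Prime := x.1.2
  refine ⟨Ideal.isPrime_of_irreducible_absNorm (by rw [h]; exact hq), fun h0 => ?_⟩
  rw [h0, Ideal.absNorm_bot] at h
  exact hq.ne_zero h.symm

theorem F_not_mem (hp : κ.IsPts F Pr) {x : Pt B} (hx : x.On e) (hF : ¬x.p ∣ F) :
    (F : 𝓞 K) ∉ Pr x := by
  intro h
  have h1 := (hp.mem x hx hF 1 (F : 𝓞 K) 1 (by simp)).1 h
  have : Fact (x.1 : ℕ).Prime := ⟨x.1.2⟩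
  simp [Pt.On] at h1

theorem mem_of_pow (hp : κ.IsPts F Pr) {x : Pt B} (hx : x.On e) (hF : ¬x.p ∣ F) (r : ℕ)
    (z : 𝓞 K) (h : (F : 𝓞 K) ^ r * z ∈ Pr x) : z ∈ Pr x := by
  have hpr := (prime hp hx hF).1
  rcases hpr.mem_or_mem h with h1 | h1
  · exact absurd (hpr.mem_of_pow_mem _ h1) (F_not_mem hp hx hF)
  · exact h1

theorem mem_iff (hp : κ.IsPts F Pr) (hc : κ.c ∣ (F : ℤ)) {x : Pt B} (hx : x.On e) (hF : ¬x.p ∣ F)
    (v : B) (b : 𝓞 K) (r : ℕ) (hb : (b : K) = (κ.c : K) ^ r * κ.π v) : b ∈ Pr x ↔ x.On v := by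
  obtain ⟨q, hq⟩ := hc
  have hq' : (F : K) = (κ.c : K) * q := by exact_mod_cast congrArg (Int.cast : ℤ → K) hq
  have hq2 : (F : 𝓞 K) = (κ.c : 𝓞 K) * q := by
    exact_mod_cast congrArg (Int.cast : ℤ → 𝓞 K) hq
  have h1 := hp.mem x hx hF v ((q : 𝓞 K) ^ r * b) r (by
    have hb' : algebraMap (𝓞 K) K b = (κ.c : K) ^ r * κ.π v := hb
    change algebraMap (𝓞 K) K _ = _
    rw [map_mul, map_pow, map_intCast, hb', hq']
    ring)
  rw [← h1]
  refine ⟨fun h => Ideal.mul_mem_left _ _ h, fun h => mem_of_pow hp hx hF r b ?_⟩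
  have := Ideal.mul_mem_left _ ((κ.c : 𝓞 K) ^ r) h
  rwa [← mul_assoc, ← mul_pow, ← hq2] at this

theorem mem_prod (hp : κ.IsPts F Pr) (Z : Finset (Pt B)) (hZ : ∀ x ∈ Z, x.On e ∧ ¬x.p ∣ F)
    (z : 𝓞 K) (hz : ∀ x ∈ Z, z ∈ Pr x) : z ∈ ∏ x ∈ Z, Pr x := by
  rw [Ideal.prod_eq_iInf_of_pairwise_isCoprime]
  · simpa [Ideal.mem_iInf] using hz
  · intro x hx y hy hxy
    have h1 := prime hp (hZ x hx).1 (hZ x hx).2
    have h2 := prime hp (hZ y hy).1 (hZ y hy).2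
    have hne : Pr x ≠ Pr y := fun h => hxy (hp.inj (hZ x hx) (hZ y hy) h)
    exact Ideal.isCoprime_iff_sup_eq.2
      ((h1.1.isMaximal h1.2).coprime_of_ne (h2.1.isMaximal h2.2) hne)

end OSPL

theorem stSPL (hG : St_G2) (hP : St_PRIM2) : St_SPL := by
  intro B _ _ _ d _ Γ m e K _ _ κ m1 F ell R I A0 Pr ok hlv _ _ hI hL hp N w g Z hN hw hg hZ hinj
    hgR hdiv
  classical
  obtain ⟨a, haI, ha⟩ := hI.up
  obtain ⟨k, hk⟩ := hI.dn
  have hone : ∀ j : ℕ, ((A0 ^ j : (FractionalIdeal (𝓞 K)⁰ K)ˣ) : FractionalIdeal (𝓞 K)⁰ K) *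
      ((I ^ j : Ideal (𝓞 K)) : FractionalIdeal (𝓞 K)⁰ K) = 1 := by
    intro j
    rw [Units.val_pow_eq_pow_val, FractionalIdeal.coeIdeal_pow, ← mul_pow, hI.inv, one_pow]
  have hprod : ∏ x ∈ Z, (Pr x : FractionalIdeal (𝓞 K)⁰ K) =
      ((∏ x ∈ Z, Pr x : Ideal (𝓞 K)) : FractionalIdeal (𝓞 K)⁰ K) :=
    (map_prod (FractionalIdeal.coeIdealHom (𝓞 K)⁰ K) Pr Z).symm
  rw [hprod] at hdiv
  have hgI : FractionalIdeal.spanSingleton (𝓞 K)⁰ g *
      ((I ^ N : Ideal (𝓞 K)) : FractionalIdeal (𝓞 K)⁰ K) =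
      ((∏ x ∈ Z, Pr x : Ideal (𝓞 K)) : FractionalIdeal (𝓞 K)⁰ K) := by
    rw [hdiv, mul_right_comm, hone, one_mul]
  have hon : ∀ x ∈ Z, x.On w := by
    intro x hx
    have h1 : g * ((a ^ N : 𝓞 K) : K) ∈
        ((∏ x ∈ Z, Pr x : Ideal (𝓞 K)) : FractionalIdeal (𝓞 K)⁰ K) := by
      rw [← hgI]
      exact FractionalIdeal.mul_mem_mul (FractionalIdeal.mem_spanSingleton_self _ _)
        (FractionalIdeal.mem_coeIdeal_of_mem _ (Ideal.pow_mem_pow haI N))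
    obtain ⟨b, hb, hb'⟩ := (FractionalIdeal.mem_coeIdeal _).1 h1
    refine (OSPL.mem_iff hp ok.cF (hZ x hx).1 (hZ x hx).2 w b (m1 * N) ?_).1
      (Ideal.prod_le_inf.trans (Finset.inf_le hx) hb)
    have : (b : K) = g * algebraMap (𝓞 K) K (a ^ N) := hb'
    have ha' : algebraMap (𝓞 K) K a = (κ.c : K) ^ m1 * κ.lv ell := ha
    rw [this, hg, map_pow, ha']
    ring
  refine ⟨hon, fun hcw => ?_⟩
  have hce : (Γ.nrm e).coeff (m * d) ≠ 0 := by
    rw [← κ.deg]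
    exact leadingCoeff_ne_zero.2 κ.prim.ne_zero
  have hmm : m ≤ 2 * (N * m1) := by
    have h1 := ok.hm1
    have h2 : 1 ≤ d := Nat.one_le_iff_ne_zero.2 (NeZero.ne d)
    nlinarith
  have hg0 : g ≠ 0 := by
    intro h0
    rw [h0, FractionalIdeal.spanSingleton_zero, zero_mul] at hgI
    have h1 := FractionalIdeal.coeIdeal_eq_zero.1 hgI.symm
    obtain ⟨x, hx, h2⟩ := Finset.prod_eq_zero_iff.1 h1
    exact (OSPL.prime hp (hZ x hx).1 (hZ x hx).2).2 h2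
  have hIa : Ideal.span {(F : 𝓞 K) ^ (k + m1)} * I ≤ Ideal.span {a} := by
    rw [Ideal.span_singleton_mul_le_iff]
    intro y hy
    obtain ⟨q, hq⟩ := ok.cF
    have hq' : (F : K) = (κ.c : K) * q := by exact_mod_cast congrArg (Int.cast : ℤ → K) hq
    refine Ideal.mem_span_singleton'.2 ⟨(q : 𝓞 K) ^ m1 * ⟨_, hk y hy⟩, ?_⟩
    apply RingOfIntegers.coe_injective
    have ha' : algebraMap (𝓞 K) K a = (κ.c : K) ^ m1 * κ.lv ell := ha
    simp only [map_mul, map_pow, map_intCast, map_natCast, RingOfIntegers.map_mk, ha']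
    have hy' : algebraMap (𝓞 K) K y = (y : K) := rfl
    rw [hy', pow_add, show (F : K) ^ m1 = ((κ.c : K) * q) ^ m1 by rw [hq']]
    field_simp
    ring
  have hlat : ∀ v ∈ Γ.V (2 * (N * m1)), (∀ x ∈ Z, x.On v) →
      ∃ s ∈ Γ.V (2 * (N * m1) - m), ∃ s' ∈ Γ.V (N * m1), v = e * s + w * s' := by
    intro v hv hvZ
    set h : K := κ.π v / κ.lv ell ^ (2 * N) with hh
    have hhv : κ.π v = h * κ.lv ell ^ (2 * N) := by
      rw [hh, div_mul_cancel₀ _ (pow_ne_zero _ hlv)]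
    obtain ⟨hA, hR⟩ := (hL (2 * N) (by omega) h).2 ⟨v, by rwa [mul_assoc], hhv⟩
    have hint : ∀ y ∈ I ^ (2 * N), ∃ z : 𝓞 K, (z : K) = h * (y : K) := by
      intro y hy
      have h1 : h * (y : K) ∈ (1 : FractionalIdeal (𝓞 K)⁰ K) := by
        rw [← hone (2 * N)]
        exact FractionalIdeal.mul_mem_mul hA (FractionalIdeal.mem_coeIdeal_of_mem _ hy)
      exact (FractionalIdeal.mem_one_iff _).1 h1
    obtain ⟨b, hb⟩ := hint _ (Ideal.pow_mem_pow haI (2 * N))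
    have hbP : ∀ x ∈ Z, b ∈ Pr x := by
      intro x hx
      refine (OSPL.mem_iff hp ok.cF (hZ x hx).1 (hZ x hx).2 v b (m1 * (2 * N)) ?_).2 (hvZ x hx)
      have hb' : (b : K) = h * algebraMap (𝓞 K) K (a ^ (2 * N)) := hb
      have ha' : algebraMap (𝓞 K) K a = (κ.c : K) ^ m1 * κ.lv ell := ha
      rw [hb', hhv, map_pow, ha']
      ring
    have hle : FractionalIdeal.spanSingleton (𝓞 K)⁰ h *
        ((I ^ (2 * N) : Ideal (𝓞 K)) : FractionalIdeal (𝓞 K)⁰ K) ≤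
        ((∏ x ∈ Z, Pr x : Ideal (𝓞 K)) : FractionalIdeal (𝓞 K)⁰ K) := by
      intro z hz
      obtain ⟨y', hy', rfl⟩ := FractionalIdeal.mem_singleton_mul.1 hz
      obtain ⟨y, hy, rfl⟩ := (FractionalIdeal.mem_coeIdeal _).1 hy'
      obtain ⟨z0, hz0⟩ := hint y hy
      refine (FractionalIdeal.mem_coeIdeal _).2 ⟨z0, OSPL.mem_prod hp Z hZ z0 fun x hx => ?_, hz0⟩
      have h1 : ((F : 𝓞 K) ^ (k + m1)) ^ (2 * N) * y ∈ Ideal.span {a ^ (2 * N)} := by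
        rw [← Ideal.span_singleton_pow]
        apply Ideal.pow_right_mono hIa (2 * N)
        rw [mul_pow]
        exact Ideal.mul_mem_mul (Ideal.pow_mem_pow (Ideal.mem_span_singleton_self _) _) hy
      obtain ⟨q, hq⟩ := Ideal.mem_span_singleton'.1 h1
      refine OSPL.mem_of_pow hp (hZ x hx).1 (hZ x hx).2 ((k + m1) * (2 * N)) z0 ?_
      have h2 : (F : 𝓞 K) ^ ((k + m1) * (2 * N)) * z0 = q * b := by
        apply RingOfIntegers.coe_injective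
        have h3 := congrArg (algebraMap (𝓞 K) K) hq
        have hz1 : algebraMap (𝓞 K) K z0 = h * algebraMap (𝓞 K) K y := hz0
        have hb1 : algebraMap (𝓞 K) K b = h * algebraMap (𝓞 K) K (a ^ (2 * N)) := hb
        rw [map_mul, map_mul, ← pow_mul] at h3
        rw [map_mul, map_mul, hz1, hb1]
        linear_combination (-h) * h3
      rw [h2]
      exact Ideal.mul_mem_left _ _ (hbP x hx)
    have hle2 : FractionalIdeal.spanSingleton (𝓞 K)⁰ h ≤ FractionalIdeal.spanSingleton (𝓞 K)⁰ g *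
        ((A0 ^ N : (FractionalIdeal (𝓞 K)⁰ K)ˣ) : FractionalIdeal (𝓞 K)⁰ K) := by
      have h1 := mul_le_mul_right hle
        ((A0 ^ (2 * N) : (FractionalIdeal (𝓞 K)⁰ K)ˣ) : FractionalIdeal (𝓞 K)⁰ K)
      rw [mul_left_comm, hone, mul_one] at h1
      refine h1.trans_eq ?_
      rw [hdiv, two_mul, pow_add, Units.val_mul]
      ring
    obtain ⟨y, hyA, hy⟩ := FractionalIdeal.mem_singleton_mul.1
      (hle2 (FractionalIdeal.mem_spanSingleton_self _ _))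
    have hyR : y ∈ R := by
      have : y = g⁻¹ * h := by rw [hy, inv_mul_cancel_left₀ hg0]
      rw [this]
      exact R.mul_mem hgR hR
    obtain ⟨s', hs', hπ⟩ := (hL N hN y).1 ⟨hyA, hyR⟩
    have hdvd : e ∣ v - w * s' := by
      rw [← κ.ker, map_sub, map_mul, hπ, hg, hhv, hy]
      ring
    obtain ⟨s, hs⟩ := hdvd
    refine ⟨s, (hG B d Γ m e κ.he hce).1 _ s ?_, s', hs', by rw [← hs]; ring⟩
    rw [← hs, Nat.add_sub_cancel' hmm]
    exact Geo.V_sub hv (Geo.mul_mem_of_le hw hs' (by omega))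
  refine ⟨κ.he, hw, hinj, κ.prim, hP B d Γ m (N * m1) e w Z ok.hm hmm hinj hlat, hce, hcw,
    fun v hv => ⟨?_, hlat v hv⟩⟩
  rintro ⟨s, -, s', -, rfl⟩ x hx
  have h1 : x.2 e = 0 := (hZ x hx).1
  have h2 : x.2 w = 0 := hon x hx
  simp [Pt.On, h1, h2]

end Pool.Agent.Lib.BK2
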