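import Pool.Agent.Lib.BK2.ODefs
import Pool.Agent.Lib.BK2.HENS
import Pool.Agent.Lib.BK2.Bas

/-! Rows O.UNIT and O.CLS. -/

open Polynomial

namespace Pool.Agent.Lib.BK2

namespace OUNIT

theorem key {R : Type} [CommRing R] (b : R) (hb : IsIntegral ℤ b) (s F : ℤ) :
    ∃ (r : ℕ) (t : ℤ) (c : R), ((s ^ r + F * t : ℤ) : R) = ((s : R) - F * b) * c := by
  obtain ⟨P, hm, hP⟩ := hb
  have h1 : aeval (algebraMap ℤ R F * b) (scaleRoots P F) = 0 :=
    scaleRoots_aeval_eq_zero (by rw [aeval_def]; exact hP)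
  have h2 : F ∣ eval s (scaleRoots P F) - s ^ P.natDegree := by
    rw [eval_eq_sum_range, natDegree_scaleRoots, Finset.sum_range_succ, coeff_scaleRoots,
      Nat.sub_self, pow_zero, mul_one, hm.coeff_natDegree, one_mul, add_sub_cancel_right]
    refine Finset.dvd_sum fun i hi => ?_
    rw [coeff_scaleRoots]
    have : P.natDegree - i ≠ 0 := by have := Finset.mem_range.1 hi; omega
    exact Dvd.dvd.mul_right (Dvd.dvd.mul_left (dvd_pow_self F this) _) _
  obtain ⟨t, ht⟩ := h2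
  obtain ⟨c, hc⟩ := sub_dvd_eval_sub (s : R) (algebraMap ℤ R F * b)
    ((scaleRoots P F).map (algebraMap ℤ R))
  refine ⟨P.natDegree, t, c, ?_⟩
  rw [eval_map_algebraMap, eval_map_algebraMap, h1, sub_zero] at hc
  have h3 : aeval (s : R) (scaleRoots P F) = ((eval s (scaleRoots P F) : ℤ) : R) :=
    aeval_algebraMap_apply_eq_algebraMap_eval s _
  have h4 : s ^ P.natDegree + F * t = eval s (scaleRoots P F) := by rw [← ht]; ring
  rw [h4, ← h3, hc]
  rfl

theorem pow_mul {R : Type} [CommRing R] (x : R) (n : ℕ) (hn : n ≠ 0)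
    (h : ∀ p : ℕ, p.Prime → p ∣ n → (p : R) ∣ x) : ∃ k : ℕ, (n : R) ∣ x ^ k := by
  induction n using induction_on_primes with
  | zero => exact absurd rfl hn
  | one => exact ⟨0, by simp⟩
  | prime_mul p a hp ih =>
    obtain ⟨k, hk⟩ := ih (fun h0 => hn (by rw [h0, mul_zero]))
      (fun q hq hqa => h q hq (Dvd.dvd.mul_left hqa p))
    refine ⟨k + 1, ?_⟩
    rw [pow_succ', Nat.cast_mul]
    exact mul_dvd_mul (h p hp (Dvd.intro a rfl)) hk

theorem pow_split (ell v0 u : ℤ[X]) (Q : ℤ) (m1 : ℕ) (h : ell = v0 + C Q * u)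
    (h1 : ell.natDegree ≤ m1) (h2 : u.natDegree ≤ m1) (N : ℕ) :
    ∃ D : ℤ[X], D.natDegree ≤ N * m1 ∧ ell ^ N = v0 ^ N + C Q * D := by
  have h0 : v0.natDegree ≤ m1 := by
    have : v0 = ell - C Q * u := by rw [h]; ring
    rw [this]
    exact (natDegree_sub_le _ _).trans (max_le h1 ((natDegree_C_mul_le _ _).trans h2))
  induction N with
  | zero => exact ⟨0, by simp, by simp⟩
  | succ N ih =>
    obtain ⟨D, hD, hE⟩ := ih
    refine ⟨D * ell + v0 ^ N * u, ?_, ?_⟩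
    · refine (natDegree_add_le _ _).trans (max_le ?_ ?_)
      · exact natDegree_mul_le.trans (by rw [Nat.succ_mul]; exact add_le_add hD h1)
      · refine natDegree_mul_le.trans ?_
        rw [Nat.succ_mul]
        exact add_le_add (natDegree_pow_le.trans (Nat.mul_le_mul_left N h0)) h2
    · rw [pow_succ, hE, pow_succ]
      linear_combination (v0 ^ N) * h

end OUNIT

theorem stUNIT : St_UNIT := by
  intro K _ _ R F hF hR z hz
  obtain ⟨p0, hp0, hp0F⟩ := Nat.exists_prime_and_dvd (show F ≠ 1 by omega)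
  have hzR : z ∈ R := by
    obtain ⟨y, hy, rfl⟩ := hz p0 hp0 hp0F
    exact R.add_mem R.one_mem (R.mul_mem (natCast_mem R p0) hy)
  obtain ⟨k, y, hy⟩ := OUNIT.pow_mul (1 - (⟨z, hzR⟩ : R)) F (by omega) (fun p hp hpF => by
    obtain ⟨y, hy, h⟩ := hz p hp hpF
    exact ⟨-⟨y, hy⟩, Subtype.ext (by push_cast; rw [h]; ring)⟩)
  obtain ⟨u, hu⟩ := one_sub_dvd_one_sub_pow (1 - (⟨z, hzR⟩ : R)) k
  rw [hy, sub_sub_cancel] at hu
  obtain ⟨s, hs, hi⟩ := hR.int y.1 y.2
  have hi' : IsIntegral ℤ ((s : R) * y) := by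
    refine (isIntegral_algHom_iff R.subtype.toIntAlgHom Subtype.val_injective).1 ?_
    simpa using hi
  obtain ⟨r, t, c, hc⟩ := OUNIT.key _ hi' s F
  have hco : ((s : ℤ) ^ r + F * t).natAbs.Coprime F := by
    have h1 : IsCoprime ((s : ℤ) ^ r + F * t) (F : ℤ) :=
      IsCoprime.add_mul_left_left (IsCoprime.pow_left (Nat.isCoprime_iff_coprime.2 hs)) t
    simpa [Nat.Coprime, Int.gcd] using Int.isCoprime_iff_gcd_eq_one.1 h1
  set s' : ℤ := (s : ℤ) ^ r + F * t with hs'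
  have hne : s' ≠ 0 := by
    intro h0
    rw [h0] at hco
    simp at hco
    omega
  have hinv : (s' : K)⁻¹ ∈ R := by
    have h1 := hR.inv _ hco
    rcases Int.natAbs_eq s' with h | h
    · rw [h]; simpa using h1
    · rw [h, Int.cast_neg, inv_neg]; exact R.neg_mem (by simpa using h1)
  have hK : (s' : K) = z * (u.1 * s * c.1) := by
    have h1 := congrArg Subtype.val hc
    have h2 := congrArg Subtype.val hu
    push_cast at h1 h2
    rw [h1]
    linear_combination (s * c.1 : K) * h2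
  have hK0 : (s' : K) ≠ 0 := Int.cast_ne_zero.2 hne
  have hz0 : z ≠ 0 := fun h => hK0 (by rw [hK, h, zero_mul])
  refine ⟨hz0, ?_⟩
  have : z⁻¹ = (u.1 * s * c.1) * (s' : K)⁻¹ := by
    rw [eq_mul_inv_iff_mul_eq₀ hK0, hK, inv_mul_cancel_left₀ hz0]
  rw [this]
  exact R.mul_mem (R.mul_mem (R.mul_mem u.2 (natCast_mem R s)) c.2) hinv

theorem stCLS : St_CLS := by
  intro B _ _ _ d _ Γ m e K _ _ κ m1 F ell R hok hne hord hax N L Q i v0 u w w1 hN hQ hQ' hell hu
    hw1 hw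
  obtain ⟨D, hD, hE⟩ := OUNIT.pow_split ell v0 u Q m1 hell hok.dg.le hu.le N
  obtain ⟨Q', hQ'⟩ := hQ'
  have hv : w1 - (Q' : B) * algebraMap ℤ[X] B D ∈ Γ.V (N * m1) :=
    Geo.V_sub hw1 (Geo.V_natCast_mul Q' (Γ.algebraMap_mem hD))
  have hl : κ.lv ell ^ N ≠ 0 := pow_ne_zero N hne
  have ha : κ.π (w1 - (Q' : B) * algebraMap ℤ[X] B D) / κ.lv ell ^ N ∈ R :=
    (hord N hN _).2 ⟨1, Nat.coprime_one_left F, _, hv, by
      rw [Nat.cast_one, one_mul, div_mul_cancel₀ _ hl]⟩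
  obtain ⟨z, c, hz, hp⟩ := hens N L Q F i (by have := hok.F2; omega) hQ (⟨_, ha⟩ : R)
  have hp' : ∀ p : ℕ, p.Prime → p ∣ F → ∃ y' ∈ R, z.1 = 1 + p * y' := fun p h1 h2 => by
    obtain ⟨y, hy⟩ := hp p h1 h2
    exact ⟨y.1, y.2, by rw [hy]; push_cast; rfl⟩
  obtain ⟨hz0, hzi⟩ := stUNIT K R F hok.F2 hax z.1 hp'
  refine ⟨z.1, z.2, c.1, c.2, hz0, hzi, hp', ?_⟩
  have h1 := congrArg Subtype.val hz
  push_cast at h1
  rw [← h1]
  have h2 : κ.lv ell ^ N = κ.π (algebraMap ℤ[X] B v0) ^ N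
      + (N : K) ^ 2 * L * Q' * κ.π (algebraMap ℤ[X] B D) := by
    have h3 := congrArg (fun f => κ.π (algebraMap ℤ[X] B f)) hE
    simp only [map_pow, map_add, map_mul, map_natCast] at h3
    rw [Cut.lv, h3, hQ']
    push_cast
    ring
  rw [div_eq_iff hl, add_mul, one_mul, mul_assoc, div_mul_cancel₀ _ hl, hw]
  simp only [map_pow, map_add, map_mul, map_sub, map_natCast]
  rw [h2]
  push_cast
  ring

end Pool.Agent.Lib.BK2
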