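import Pool.Agent.Lib.BK2.NRM
import Pool.Agent.Lib.BK2.G2
import Pool.Agent.Lib.BK2.PRIM2
import Pool.Agent.Lib.BK2.OCUT
import Pool.Agent.Lib.BK2.OINT2
import Pool.Agent.Lib.BK2.OELL
import Pool.Agent.Lib.BK2.OCOND
import Pool.Agent.Lib.BK2.ODIV
import Pool.Agent.Lib.BK2.ORING
import Pool.Agent.Lib.BK2.OIDL
import Pool.Agent.Lib.BK2.OLAM
import Pool.Agent.Lib.BK2.OPTS
import Pool.Agent.Lib.BK2.OSPL
import Pool.Agent.Lib.BK2.OUNIT
import Pool.Agent.Lib.BK2.OGLUE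

/-! Section O without hypotheses. -/

namespace Pool.Agent.Lib.BK2

theorem finCUT : St_CUT := stCUT stNRM (stG2 stNRM)

theorem finOINT : St_OINT := stOINT2 stNRM

theorem finORD : St_ORD :=
  stORD stELL stCOND (stOINT2 stNRM) (stDIV stNRM (stOINT2 stNRM)) stRING (stIDL stNRM)
    (stLAM (stOINT2 stNRM)) (stPTS (stOINT2 stNRM)) (stSPL (stG2 stNRM) stPRIM2) stCLS

theorem finORDN : St_ORDN := stORDN finORD

end Pool.Agent.Lib.BK2
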