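import Pool.Agent.Lib.BK2.ODefs

/-! Section O: assembly of the rows. -/

open Polynomial NumberField
open scoped nonZeroDivisors

noncomputable section

namespace Pool.Agent.Lib.BK2

theorem stORD (hE : St_ELL) (hC : St_COND) (hO : St_OINT) (hD : St_DIV) (hR : St_RING)
    (hI : St_IDL) (hL : St_LAM) (hP : St_PTS) (hS : St_SPL) (hK : St_CLS) : St_ORD := by
  intro B _ _ _ d _ Γ m e K _ _ κ m1 Q v0 hm hm1 hQ hv0 hdv hir
  obtain ⟨hc, -, hint, hθ, hgen, -⟩ := hO B d Γ m e K κ (by omega)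
  obtain ⟨hli, D, hD0, hcond, hDle⟩ := hC K κ.θ1 hθ hgen
  have hc0 : 0 < κ.c.natAbs := Int.natAbs_pos.2 hc
  have hF0 : 0 < Q * κ.c.natAbs * D := Nat.mul_pos (Nat.mul_pos (by omega) hc0) hD0
  have hQF : Q ∣ Q * κ.c.natAbs * D := ⟨κ.c.natAbs * D, by ring⟩
  obtain ⟨ell, u, hmon, hdg, hell, hu, hirr⟩ :=
    hE m1 Q (Q * κ.c.natAbs * D) v0 (by omega) hF0 hQF hv0 hdv hir
  have hok : κ.Ok m1 (Q * κ.c.natAbs * D) ell :=
    { hm := hm, hm1 := hm1, F2 := le_trans hQ (Nat.le_of_dvd hF0 hQF)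
      cF := by
        push_cast
        exact Dvd.dvd.mul_right (Dvd.dvd.mul_left (by rw [dvd_abs]) _) _
      mon := hmon, dg := hdg, ir := hirr
      cond := fun a ha => by
        obtain ⟨q, hq, hqa⟩ := hcond a ha
        refine ⟨C ((Q * κ.c.natAbs : ℕ) : ℤ) * q, ?_, ?_⟩
        · rw [← κ.rank]
          exact lt_of_le_of_lt (natDegree_C_mul_le _ _) hq
        · rw [map_mul, aeval_C, ← hqa, eq_intCast, Int.cast_natCast, Nat.cast_mul _ D, mul_assoc] }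
  have hdiv := hD B d Γ m e K κ m1 _ ell hok
  obtain ⟨R, hord, hax, hθR⟩ := hR B d Γ m e K κ m1 _ ell hok hdiv
  obtain ⟨I, A0, hidl⟩ := hI B d Γ m e K κ m1 _ ell hok hint
  have hlam := hL B d Γ m e K κ m1 _ ell R I A0 hok hdiv.ne hint hord hax hidl
  obtain ⟨Pr, hpts⟩ := hP B d Γ m e K κ m1 _ ell hok hint
  refine ⟨_, ell, R, I, A0, Pr,
    { ok := hok, QF := hQF, cls0 := ⟨u, hell, hu⟩, Fle := fun Δ h1 h2 => ?_, ne := hdiv.ne,
      ax := hax, θR := hθR, θI := hθ, θL := hli, intg := hint, ord := hord, idl := hidl,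
      lam := hlam, pts := hpts,
      spl := hS B d Γ m e K κ m1 _ ell R I A0 Pr hok hdiv.ne hint hax hidl hlam hpts,
      cls := hK B d Γ m e K κ m1 _ ell R hok hdiv.ne hord hax }⟩
  have h3 := hDle Δ h1 h2
  rw [κ.rank] at h3
  rw [Nat.cast_mul, Nat.cast_mul, Nat.cast_natAbs, Int.cast_abs]
  exact mul_le_mul_of_nonneg_left h3 (by positivity)

namespace OGLUE

variable {K : Type} [Field K] [NumberField K]

open Classical in
/-- A nonzero ideal as an invertible fractional ideal. -/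
def toU (P : Ideal (𝓞 K)) : NT.FI K :=
  if h : P = ⊥ then 1 else
    Units.mk0 (P : FractionalIdeal (𝓞 K)⁰ K) (FractionalIdeal.coeIdeal_ne_zero.2 h)

theorem toU_val {P : Ideal (𝓞 K)} (h : P ≠ ⊥) :
    (toU P).1 = (P : FractionalIdeal (𝓞 K)⁰ K) := by
  rw [toU, dif_neg h]; rfl

theorem nv_emb [IsTotallyComplex K] (g : K) :
    NT.Nv (NT.emb g) = ((|Algebra.norm ℚ g| : ℚ) : ℝ) := by
  rw [← InfinitePlace.prod_eq_abs_norm, NT.Nv]
  refine Finset.prod_congr rfl fun w _ => ?_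
  rw [IsTotallyComplex.mult_eq, NT.emb, InfinitePlace.norm_embedding_eq]

theorem ne_bot_of {P : Ideal (𝓞 K)} {p : ℕ} (hp : p.Prime) (h : Ideal.absNorm P = p) :
    P ≠ ⊥ := fun h0 => hp.ne_zero (by rw [← h, h0, Ideal.absNorm_bot])

end OGLUE

open OGLUE in
theorem stORDN (h : St_ORD) : St_ORDN := by
  intro B _ _ _ d _ Γ m e K _ _ κ m1 Q v0 Δ0 Δ htc hm hm1 hQ hv0 hdv hir hΔ0 hw hΔ hio
  obtain ⟨F, ell, R, I, A0, Pr, P⟩ := h B d Γ m e K κ m1 Q v0 hm hm1 (by omega) hv0 hdv hir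
  have hF0 : 0 < F := lt_of_lt_of_le (by norm_num) P.ok.F2
  have hFΔ : (F : ℝ) ≤ Δ :=
    (P.Fle Δ0 hΔ0 fun σ => by rw [← InfinitePlace.apply]; exact hw _).trans hΔ
  have hc : κ.c ≠ 0 := fun h0 => by
    have := P.ok.cF
    rw [h0, zero_dvd_iff] at this
    omega
  have hc1 : (1 : ℝ) ≤ |(κ.c : ℝ)| := by exact_mod_cast Int.one_le_abs hc
  have hQ1 : (1 : ℝ) ≤ Q := by exact_mod_cast (by omega : 1 ≤ Q)
  have hppr : ∀ x : Pt B, x.p.Prime := fun x => x.1.2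
  have hne : ∀ x : Pt B, x.On e → ¬x.p ∣ F → Pr x ≠ ⊥ := fun x h1 h2 =>
    ne_bot_of (hppr x) (P.pts.nrm x h1 h2)
  have hAinv : (A0⁻¹ : NT.FI K).1 = (I : FractionalIdeal (𝓞 K)⁰ K) :=
    Units.inv_eq_of_mul_eq_one_right P.idl.inv
  let D : NT.ND K := ⟨R, F, Q, Δ, fun j => κ.θ1 ^ (j : ℕ)⟩
  have hD : D.OK :=
    { tc := htc, Fpos := hF0, Q3 := hQ, QF := P.QF, FΔ := hFΔ, inv := P.ax.inv, int := P.ax.int,
      cond := P.ax.con, omR := fun j => R.pow_mem P.θR _, omI := fun j => P.θI.pow _,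
      omL := P.θL
      omB := fun j w => by
        refine le_trans ?_ hΔ
        have h1 : w (κ.θ1 ^ (j : ℕ)) ≤ (2 * Δ0) ^ (j : ℕ) := by
          rw [map_pow]
          exact pow_le_pow_left₀ (apply_nonneg _ _) ((hw w).trans (by linarith)) _
        have h2 : (2 * Δ0) ^ (j : ℕ) ≤ (2 * Δ0) ^ ((m * d) ^ 2) := by
          refine pow_le_pow_right₀ (by linarith) ?_
          have : (j : ℕ) < m * d := κ.rank ▸ j.2
          nlinarith
        have h3 : (1 : ℝ) ≤ Q * |(κ.c : ℝ)| := one_le_mul_of_one_le_of_one_le hQ1 hc1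
        exact h1.trans (h2.trans (le_mul_of_one_le_left (by positivity) h3))
      iota := by
        have := hio F hF0 hFΔ
        rwa [← κ.rank] at this }
  refine ⟨D, κ.lv ell, A0, fun x => toU (Pr x), rfl, rfl,
    { ok := hD, ne := P.ne, cop := ?_, nrm := ?_, lam := P.lam, pt := ?_, inj := ?_, sur := ?_,
      spl := ?_, cls := ?_ }⟩
  · obtain ⟨s, hs, hsI⟩ := P.idl.cop
    refine ⟨s, hs, ?_, ?_⟩
    · have h1 : (1 : FractionalIdeal (𝓞 K)⁰ K) ≤ A0.1 := by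
        rw [← P.idl.inv]
        exact (mul_le_mul_right FractionalIdeal.coeIdeal_le_one _).trans (mul_one _).le
      exact h1 ((FractionalIdeal.mem_one_iff _).2 ⟨s, by simp⟩)
    · rw [hAinv]
      exact (FractionalIdeal.mem_coeIdeal _).2 ⟨s, hsI, by simp⟩
  · have h1 := congrArg FractionalIdeal.absNorm P.idl.inv
    rw [map_mul, map_one, FractionalIdeal.coeIdeal_absNorm, P.idl.nrm] at h1
    rw [nv_emb, NT.nI]
    exact_mod_cast h1
  · intro x h1 h2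
    exact ⟨hppr x, h2, Pr x, (toU_val (hne x h1 h2)).symm, P.pts.nrm x h1 h2⟩
  · intro x hx x' hx' hxx
    refine P.pts.inj hx hx' ?_
    have h1 := congrArg Units.val hxx
    dsimp only at h1
    rw [toU_val (hne x hx.1 hx.2), toU_val (hne x' hx'.1 hx'.2)] at h1
    exact FractionalIdeal.coeIdeal_injective h1
  · rintro Pp p ⟨hp, hpF, J, hJ, hJp⟩
    obtain ⟨x, h1, h2, h3⟩ := P.pts.sur J (hJp ▸ hp) (hJp ▸ hpF)
    refine ⟨x, h1, by rw [← P.pts.nrm x h1 h2, h3, hJp], Units.ext ?_⟩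
    rw [toU_val (hne x h1 h2), h3, hJ]
  · intro N w g Z hN hw' hg hZ hinj hun hdiv
    refine P.spl N w g Z hN hw' hg hZ hinj hun.2.2 ?_
    rw [← show _ = _ from hdiv, Units.val_mul, Units.coe_prod]
    congr 1
    exact Finset.prod_congr rfl fun x hx => toU_val (hne x (hZ x hx).1 (hZ x hx).2)
  · intro N L i w w1 hN h1 h2 hw1 hw'
    obtain ⟨u, hu, hud⟩ := P.cls0
    obtain ⟨z, hz, y, hy, hz0, hzi, -, he⟩ := P.cls N L Q i v0 u w w1 hN h1 h2 hu hud hw1 hw'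
    exact ⟨z, ⟨hz0, hz, hzi⟩, y, hy, he⟩

end Pool.Agent.Lib.BK2
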