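import Pool.Agent.Lib.BK2.ODefs
import Pool.Agent.Lib.BK2.Bas2

/-! Row O.INT: integrality of the values of sections on the field cut out by `e`. -/

open Polynomial NumberField Matrix

noncomputable section

namespace Pool.Agent.Lib.BK2

namespace OINT

variable {B : Type} [CommRing B] [Algebra ℤ[X] B] {d : ℕ} [NeZero d] {Γ : Geo B d} {m : ℕ} {e : B}
  {K : Type} [Field K] [NumberField K] (κ : Cut Γ m e K)

theorem c_ne : κ.c ≠ 0 := by
  have h0 : Γ.nrm e ≠ 0 := κ.prim.ne_zero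
  have h1 : κ.c = (Γ.nrm e).leadingCoeff := by
    rw [Cut.c, leadingCoeff, κ.deg]
  rw [h1]
  exact leadingCoeff_ne_zero.2 h0

theorem low (j : ℕ) (hj : m * d + Γ.dmax ≤ j) (v : B) (hv : v ∈ Γ.V (j + 1)) :
    ∃ u ∈ Γ.V j, (κ.c : K) * κ.π v = κ.π u := by
  have hd : m ≤ m * d := Nat.le_mul_of_pos_right m (NeZero.pos d)
  obtain ⟨a, ha⟩ : ∃ a, j + 1 = m + a := ⟨j + 1 - m, by omega⟩
  obtain ⟨s, hs, hgs⟩ := Geo.gr_surj (Γ := Γ) (a := a) (by omega)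
    ((Γ.top m e).adjugate *ᵥ Γ.gr (j + 1) v)
  have hes : e * s ∈ Γ.V (j + 1) := ha ▸ Geo.mul_mem κ.he hs
  refine ⟨κ.c • v - e * s, Geo.mem_of_gr (Geo.V_sub (Geo.V_smul _ hv) hes) ?_, ?_⟩
  · have h1 : Γ.gr (j + 1) (e * s) = κ.c • Γ.gr (j + 1) v := by
      have h2 := Geo.gr_mul κ.he hs
      rw [← ha] at h2
      rw [h2, hgs, mulVec_mulVec, mul_adjugate, Cut.c, Geo.coeff_nrm κ.he, smul_mulVec,
        one_mulVec]
    rw [map_sub, map_smul, h1, sub_self]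
  · rw [map_sub, (κ.ker (e * s)).2 (Dvd.intro _ rfl), sub_zero, map_zsmul, zsmul_eq_mul]

theorem lowIter (j : ℕ) (hj : m * d + Γ.dmax ≤ j) (a : ℕ) (v : B) (hv : v ∈ Γ.V (a + j)) :
    ∃ u ∈ Γ.V j, (κ.c : K) ^ a * κ.π v = κ.π u := by
  induction a generalizing v with
  | zero => exact ⟨v, by simpa using hv, by simp⟩
  | succ a ih =>
    obtain ⟨w, hw, h1⟩ := low κ (a + j) (by omega) v (by rwa [show a + j + 1 = a + 1 + j by omega])
    obtain ⟨u, hu, h2⟩ := ih w hw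
    exact ⟨u, hu, by rw [pow_succ, mul_assoc, h1, h2]⟩

theorem intg : κ.Intg := by
  intro a v hv
  let L : Submodule ℤ K := (Γ.VS (m * d + Γ.dmax)).map κ.π.toIntAlgHom.toLinearMap
  have hL : ∀ x, x ∈ L ↔ ∃ u ∈ Γ.V (m * d + Γ.dmax), κ.π u = x := fun x => Submodule.mem_map
  refine isIntegral_of_smul_mem_submodule L ?_ ?_ _ ?_
  · refine (Submodule.ne_bot_iff _).2 ⟨1, (hL 1).2 ⟨1, Γ.one_mem _, map_one _⟩, one_ne_zero⟩
  · exact Submodule.FG.map _ (Module.Finite.iff_fg.1 inferInstance)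
  · intro x hx
    obtain ⟨u, hu, rfl⟩ := (hL x).1 hx
    obtain ⟨w, hw, h⟩ := lowIter κ _ le_rfl a (v * u) (Geo.mul_mem hv hu)
    exact (hL _).2 ⟨w, hw, by rw [← h, smul_eq_mul, map_mul, mul_assoc]⟩

end OINT

theorem stOINT (_ : St_NRM) : St_OINT := by
  intro B _ _ _ d _ Γ m e K _ _ κ _
  have hc : (κ.c : K) ≠ 0 := Int.cast_ne_zero.2 (OINT.c_ne κ)
  refine ⟨OINT.c_ne κ, OINT.low κ, OINT.intg κ, ?_, fun a => ?_, fun q => ?_⟩
  · have h := OINT.intg κ 1 Γ.t Γ.t_mem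
    rwa [pow_one] at h
  · obtain ⟨q, hq⟩ := κ.gen a
    refine ⟨q.comp (C ((κ.c : ℚ)⁻¹) * X), ?_⟩
    rw [aeval_comp, map_mul, aeval_C, aeval_X, map_inv₀, map_intCast, Cut.θ1,
      inv_mul_cancel_left₀ hc, hq]
  · refine ⟨algebraMap ℤ[X] B (q.comp (C κ.c * X)), Γ.algebraMap_mem ?_, ?_⟩
    · refine natDegree_comp_le.trans ?_
      have h : (C κ.c * X : ℤ[X]).natDegree ≤ 1 := (natDegree_C_mul_le _ _).trans natDegree_X_le
      calc q.natDegree * (C κ.c * X : ℤ[X]).natDegree ≤ q.natDegree * 1 :=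
            Nat.mul_le_mul_left _ h
        _ = q.natDegree := mul_one _
    · rw [Γ.map_algebraMap, aeval_comp, map_mul, aeval_C, aeval_X, Cut.θ1, eq_intCast]

end Pool.Agent.Lib.BK2
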