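import Pool.Agent.Lib.BK2.NFBlue

/-! Few translates of an element have norm zero modulo a prime. -/

open Polynomial Finset

noncomputable section

namespace Pool.Agent.Lib.BK2

namespace Prim1

variable {B : Type} [CommRing B] [Algebra ℤ[X] B] {d : ℕ} [NeZero d] (Γ : Geo B d)

theorem few (p : ℕ) (hp : p.Prime) (f : B) : ∃ S : Finset (ZMod p)[X], S.card ≤ d ∧ ∀ g : ℤ[X],
    (Γ.nrm (f + algebraMap ℤ[X] B g)).map (Int.castRingHom (ZMod p)) = 0 →
      g.map (Int.castRingHom (ZMod p)) ∈ S := by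
  classical
  have : Fact p.Prime := ⟨hp⟩
  let φ : ℤ[X] →+* (ZMod p)[X] := mapRingHom (Int.castRingHom (ZMod p))
  let χ : ℤ[X][X] := (Algebra.leftMulMatrix Γ.b (-f)).charpoly
  have hm : χ.Monic := Matrix.charpoly_monic _
  have hd : χ.natDegree = d := by simp [χ]
  refine ⟨(χ.map φ).roots.toFinset, ?_, fun g hg => ?_⟩
  · exact (Multiset.toFinset_card_le _).trans ((card_roots' _).trans (natDegree_map_le.trans hd.le))
  · rw [Multiset.mem_toFinset, mem_roots (hm.map φ).ne_zero, IsRoot]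
    have h1 : χ.eval g = Γ.nrm (f + algebraMap ℤ[X] B g) := by
      rw [Matrix.eval_charpoly, Geo.nrm, Algebra.norm_eq_matrix_det Γ.b, map_add, map_neg,
        AlgHom.commutes, sub_neg_eq_add, add_comm]
      rfl
    have h2 : (χ.map φ).eval (φ g) = φ (χ.eval g) := by rw [eval_map, eval₂_at_apply]
    exact h2.trans (by rw [h1]; exact hg)

theorem split {m : ℕ} (e : Γ.Ix m → ℤ) :
    Γ.el e = Γ.el (fun i => if i.1 = 0 then 0 else e i) + algebraMap ℤ[X] B
      (∑ i ∈ univ.filter (fun i : Γ.Ix m => i.1 = 0), monomial (i.2 : ℕ) (e i)) := by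
  rw [map_sum, Geo.el, Geo.el, sum_filter, ← sum_add_distrib]
  refine sum_congr rfl fun i _ => ?_
  by_cases h : i.1 = 0
  · have h1 : Γ.b i.1 = 1 := by rw [h]; exact Γ.b0
    rw [if_pos h, if_pos h, zero_smul, zero_add, Geo.mon, h1, mul_one, Geo.t, ← map_pow,
      ← map_zsmul, ← smul_X_eq_monomial]
  · rw [if_neg h, if_neg h, add_zero]

theorem coeff_split {m : ℕ} (e : Γ.Ix m → ℤ) (i : Γ.Ix m) (hi : i.1 = 0) :
    (∑ j ∈ univ.filter (fun j : Γ.Ix m => j.1 = 0), monomial (j.2 : ℕ) (e j)).coeff i.2 = e i := by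
  rw [finsetSum_coeff, sum_eq_single i]
  · rw [coeff_monomial, if_pos rfl]
  · intro j hj hne
    rw [coeff_monomial, if_neg]
    intro h
    obtain ⟨l, a⟩ := i
    obtain ⟨l', a'⟩ := j
    have h1 : l' = 0 := (mem_filter.1 hj).2
    have h2 : l = 0 := hi
    subst h1 h2
    exact hne (congrArg (Sigma.mk 0) (Fin.ext h))
  · intro h
    exact (h (by simpa using hi)).elim

theorem card0 (m : ℕ) : #(univ.filter fun i : Γ.Ix m => i.1 = 0) = m + 1 := by
  have : (univ.filter fun i : Γ.Ix m => i.1 = 0) =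
      (univ : Finset (Fin (m + 1 - Γ.δ 0))).map ⟨fun a => ⟨0, a⟩, fun a b h => by
        simpa using h⟩ := by
    ext ⟨l, a⟩
    simp only [mem_filter, mem_univ, true_and, mem_map, Function.Embedding.coeFn_mk]
    constructor
    · rintro rfl
      exact ⟨a, rfl⟩
    · rintro ⟨b, hb⟩
      exact (congrArg Sigma.fst hb).symm
  rw [this, card_map, card_univ, Fintype.card_fin, Γ.δ0, Nat.sub_zero]

end Prim1

open Prim1 in
theorem stPRIM1 : St_PRIM1 := by
  intro B _ _ d _ Γ p hp
  refine ⟨few Γ p hp, fun m Ω A N hΩ hN h0 => ?_⟩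
  classical
  let T : Finset (Γ.Ix m → ℤ) := Fintype.piFinset fun i => if i.1 = 0 then {0} else A i
  have hT : #T = ∏ i ∈ univ.filter (fun i : Γ.Ix m => i.1 ≠ 0), #(A i) := by
    rw [Fintype.card_piFinset, prod_filter]
    refine prod_congr rfl fun i _ => ?_
    by_cases h : i.1 = 0 <;> simp [h]
  rw [← hT]
  refine card_le_mul_card_image_of_maps_to (f := fun e i => if i.1 = 0 then 0 else e i)
    (fun e he => ?_) _ fun r _ => ?_
  · refine Fintype.mem_piFinset.2 fun i => ?_
    have := Fintype.mem_piFinset.1 (hΩ he) i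
    by_cases h : i.1 = 0 <;> simp [h, this]
  · obtain ⟨S, hS, hg⟩ := few Γ p hp (Γ.el r)
    let P : (ZMod p)[X] → Finset (Γ.Ix m → ℤ) := fun g => Fintype.piFinset fun i =>
      if i.1 = 0 then (A i).filter fun z : ℤ => (z : ZMod p) = g.coeff i.2 else {r i}
    have hP : ∀ g, #(P g) ≤ N ^ (m + 1) := fun g => by
      have e1 : N ^ (m + 1) = ∏ i : Γ.Ix m, if i.1 = 0 then N else 1 := by
        rw [← prod_filter, prod_const, card0]
      rw [Fintype.card_piFinset, e1]
      refine prod_le_prod' fun i _ => ?_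
      by_cases h : i.1 = 0
      · rw [if_pos h, if_pos h]; exact hN _ _
      · rw [if_neg h, if_neg h, card_singleton]
    refine (card_le_card (t := S.biUnion P) fun e he => ?_).trans
      ((card_biUnion_le_card_mul _ _ _ fun g _ => hP g).trans (Nat.mul_le_mul_right _ hS))
    obtain ⟨he, hr⟩ := mem_filter.1 he
    have h1 := h0 e he
    rw [split Γ e, hr] at h1
    refine mem_biUnion.2 ⟨_, hg _ h1, Fintype.mem_piFinset.2 fun i => ?_⟩
    by_cases h : i.1 = 0
    · rw [if_pos h, mem_filter, coeff_map, coeff_split Γ e i h]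
      exact ⟨Fintype.mem_piFinset.1 (hΩ he) i, rfl⟩
    · rw [if_neg h, mem_singleton, ← hr]
      simp [h]

end Pool.Agent.Lib.BK2
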