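import Pool.Agent.Lib.BK2.Blue0

open Polynomial

noncomputable section

namespace Pool.Agent.Lib.BK2

/-- `D` is a derivation of `B` at the complex point `φ`. -/
def IsDer {B : Type} [CommRing B] (φ : B →+* ℂ) (D : B →+ ℂ) : Prop :=
  ∀ f g, D (f * g) = φ f * D g + φ g * D f

/-- The differential of a form at `z` in the direction `v`. -/
def dF {n : ℕ} (F : MvPolynomial (Fin (n + 1)) ℚ) (z v : Fin (n + 1) → ℂ) : ℂ :=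
  ∑ j, MvPolynomial.aeval z (MvPolynomial.pderiv j F) * v j

namespace Geo

variable {B : Type} [CommRing B] [Algebra ℤ[X] B] {d : ℕ} [NeZero d] (Γ : Geo B d)

/-- Value of a derivation on a real vector. -/
def dev {m : ℕ} (D : B →+ ℂ) (e : Γ.Ix m → ℝ) : ℂ := ∑ i, (e i : ℂ) * D (Γ.mon i)

/-- `τ` is a simple root of the norm of `e`. -/
def Simple {m : ℕ} (e : Γ.Ix m → ℝ) (τ : ℂ) : Prop :=
  aeval τ (Γ.nrmR e) = 0 ∧ aeval τ (derivative (Γ.nrmR e)) ≠ 0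

/-- The coordinates of the point `ψ` are bounded by `R`. -/
def Bdd (ψ : B →+* ℂ) (R : ℝ) : Prop := ‖ψ Γ.t‖ ≤ R ∧ ∀ l, ‖ψ (Γ.b l)‖ ≤ R

variable {Γ}

/-- Restriction of labelled zeros to a smaller open set. -/
def Roots.mono {m ν : ℕ} {U U' : Set (Γ.Ix m → ℝ)} (ρ : Γ.Roots m ν U) (h : U' ⊆ U)
    (ho : IsOpen U') : Γ.Roots m ν U' where
  φ := ρ.φ
  op := ho
  card := ρ.card
  smooth s f := (ρ.smooth s f).mono h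
  zero e he := ρ.zero e (h he)
  all e he := ρ.all e (h he)
  inj e he := ρ.inj e (h he)
  nre e he := ρ.nre e (h he)
  lead e he := ρ.lead e (h he)

variable {L : Type} [Field L] [Algebra ℚ L] {n : ℕ} {y : Fin (n + 1) → L}

/-- Differential of a real vector of degree `m` at a point of the cone. -/
def Model.dC (μ : Γ.Model y) {m : ℕ} (e : Γ.Ix m → ℝ) (z v : Fin (n + 1) → ℂ) : ℂ :=
  ∑ i, (e i : ℂ) * dF (μ.rep m i) z v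

/-- The Wronskian form `s (e' de - e de')`. -/
def Model.wr (μ : Γ.Model y) {k m : ℕ} (s : Γ.Ix k → ℝ) (e e' : Γ.Ix m → ℝ)
    (z v : Fin (n + 1) → ℂ) : ℂ :=
  μ.evC s z * (μ.evC e' z * μ.dC e z v - μ.evC e z * μ.dC e' z v)

/-- Real span of the Wronskian forms. -/
def Model.Wr (μ : Γ.Model y) (k m : ℕ) :
    Submodule ℝ ((Fin (n + 1) → ℂ) → (Fin (n + 1) → ℂ) → ℂ) :=
  Submodule.span ℝ {ξ | ∃ (s : Γ.Ix k → ℝ) (e e' : Γ.Ix m → ℝ), ξ = μ.wr s e e'}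

end Geo

/-- Simple non real roots of a smooth family of real polynomials. -/
def St_RPOL : Prop :=
  ∀ (I : Type) [Fintype I] (N : ℕ) (P : (I → ℝ) → ℝ[X]) (e₀ : I → ℝ),
    (∀ e, (P e).natDegree ≤ N) → (∀ k, ContDiff ℝ 1 fun e => (P e).coeff k) →
    (P e₀).Separable → (P e₀).natDegree = N → (∀ x : ℝ, (P e₀).eval x ≠ 0) →
    ∃ (ν : ℕ) (U : Set (I → ℝ)) (τ : (I → ℝ) → Fin ν → ℂ), IsOpen U ∧ e₀ ∈ U ∧ 2 * ν = N ∧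
      (∀ s, ContDiffOn ℝ 1 (fun e => τ e s) U) ∧ ∀ e ∈ U, (P e).coeff N ≠ 0 ∧
        (∀ s, aeval (τ e s) (P e) = 0 ∧ aeval (τ e s) (derivative (P e)) ≠ 0) ∧
        (∀ z : ℂ, aeval z (P e) = 0 → ∃ s, z = τ e s ∨ z = starRingEnd ℂ (τ e s)) ∧
        (∀ s s', τ e s = τ e s' → s = s') ∧ ∀ s s', τ e s ≠ starRingEnd ℂ (τ e s')

/-- The point of the curve above a simple root of the norm. -/
def St_RHOM : Prop :=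
  ∀ (B : Type) [CommRing B] [Algebra ℤ[X] B] (d : ℕ) [NeZero d] (Γ : Geo B d) (m : ℕ),
    (∀ (e : Γ.Ix m → ℝ) (ψ : B →+* ℂ), Γ.ev ψ e = 0 → aeval (ψ Γ.t) (Γ.nrmR e) = 0) ∧
    (∀ (e : Γ.Ix m → ℝ) (τ : ℂ), Γ.Simple e τ → ∃! ψ : B →+* ℂ, ψ Γ.t = τ ∧ Γ.ev ψ e = 0) ∧
    ∀ (U : Set (Γ.Ix m → ℝ)) (φ : (Γ.Ix m → ℝ) → (B →+* ℂ)), IsOpen U →
      ContDiffOn ℝ 1 (fun e => φ e Γ.t) U →
      (∀ e ∈ U, Γ.Simple e (φ e Γ.t) ∧ Γ.ev (φ e) e = 0) →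
      ∀ f, ContDiffOn ℝ 1 (fun e => φ e f) U

/-- A derivation at a labelled zero of `e` which kills `e` is zero. -/
def St_RDER : Prop :=
  ∀ (B : Type) [CommRing B] [Algebra ℤ[X] B] (d : ℕ) [NeZero d] (Γ : Geo B d) (m ν : ℕ)
    (U : Set (Γ.Ix m → ℝ)) (ρ : Γ.Roots m ν U), ∀ e ∈ U, ∀ (s : Fin ν) (D : B →+ ℂ),
    IsDer (ρ.φ e s) D → Γ.dev D e = 0 → D = 0

/-- Labelled zeros near a vector with separable norm without real roots. -/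
def St_ROOT : Prop :=
  ∀ (B : Type) [CommRing B] [Algebra ℤ[X] B] (d : ℕ) [NeZero d] (Γ : Geo B d) (m : ℕ)
    (e₀ : Γ.Ix m → ℝ), (Γ.nrmR e₀).Separable → (Γ.nrmR e₀).natDegree = m * d →
    (∀ x : ℝ, (Γ.nrmR e₀).eval x ≠ 0) →
    ∃ (ν : ℕ) (U : Set (Γ.Ix m → ℝ)) (_ : Γ.Roots m ν U), e₀ ∈ U

/-- A centre that is a polynomial in `t`. -/
def St_CEN1 : Prop :=
  ∀ (L : Type) [Field L] [Algebra ℚ L] (n : ℕ) (y : Fin (n + 1) → L)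
    (B : Type) [CommRing B] [Algebra ℤ[X] B] (d : ℕ) [NeZero d] (Γ : Geo B d)
    (μ : Γ.Model y) (ι : Type) [Fintype ι] (γ : ι → Loop y) (m : ℕ), μ.m₀ ≤ m → Even m →
    ∀ R : ℝ, ∃ (f₀ : Γ.Ix m → ℝ) (r : ℝ), 0 < r ∧ Γ.lc f₀ ≠ 0 ∧
      (∀ x : ℝ, (Γ.nrmR f₀).eval x ≠ 0) ∧ μ.Off γ (Metric.ball f₀ r) ∧
      ∀ ψ : B →+* ℂ, Γ.Bdd ψ R → ∀ e ∈ Metric.ball f₀ r, Γ.ev ψ e ≠ 0

/-- Separable norms are dense, and having no real root is an open condition. -/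
def St_CEN2 : Prop :=
  ∀ (B : Type) [CommRing B] [Algebra ℤ[X] B] (d : ℕ) [NeZero d] (Γ : Geo B d),
    (Γ.Irr → ∃ m₁ : ℕ, ∀ m ≥ m₁,
      Dense {e : Γ.Ix m → ℝ | (Γ.nrmR e).Separable ∧ (Γ.nrmR e).natDegree = m * d}) ∧
    ∀ (m : ℕ) (f₀ : Γ.Ix m → ℝ), Γ.lc f₀ ≠ 0 → (∀ x : ℝ, (Γ.nrmR f₀).eval x ≠ 0) →
      ∀ᶠ e in nhds f₀, ∀ x : ℝ, (Γ.nrmR e).eval x ≠ 0

/-- Chain rule along a loop. -/
def St_CHAIN : Prop :=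
  ∀ (L : Type) [Field L] [Algebra ℚ L] (n : ℕ) (y : Fin (n + 1) → L) (γ : Loop y),
    (∀ F : MvPolynomial (Fin (n + 1)) ℚ,
      (ContDiff ℝ 1 fun u => MvPolynomial.aeval (γ.pt u) F) ∧
      ∀ u, HasDerivAt (fun u => MvPolynomial.aeval (γ.pt u) F)
        (dF F (γ.pt u) (deriv γ.pt u)) u) ∧
    ∀ u, deriv γ.pt u ∈ Tan y (γ.pt u)

/-- Continuity of `Φ`. -/
def St_PHI1 : Prop :=
  ∀ (I J : Type) [Fintype I] [Fintype J] (f : I → ℝ → ℂ) (g : J → ℝ → ℂ),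
    (∀ i, ContDiff ℝ 1 (f i)) → (∀ j, ContDiff ℝ 1 (g j)) →
    ContinuousOn (fun q : (I → ℝ) × (J → ℝ) =>
        eta (fun u => ∑ i, (q.1 i : ℂ) * f i u) fun u => ∑ j, (q.2 j : ℂ) * g j u)
      {q | (∀ u, ∑ i, (q.1 i : ℂ) * f i u ≠ 0) ∧ ∀ u, ∑ j, (q.2 j : ℂ) * g j u ≠ 0}

/-- Derivative of `Φ` in the second variable. -/
def St_PHI2 : Prop :=
  ∀ e w h : ℝ → ℂ, ContDiff ℝ 1 e → ContDiff ℝ 1 w → ContDiff ℝ 1 h →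
    e 1 = e 0 → w 1 = w 0 → h 1 = h 0 → (∀ u, e u ≠ 0) → (∀ u, w u ≠ 0) →
    HasDerivAt (fun ε : ℝ => eta e fun u => w u + (ε : ℂ) * h u)
      (-(∫ u in (0 : ℝ)..1, h u / w u * (deriv e u / e u)).im) 0

/-- Dictionary between the ring `B` and the cone. -/
def St_CONE : Prop :=
  ∀ (L : Type) [Field L] [Algebra ℚ L] (n : ℕ) (y : Fin (n + 1) → L)
    (B : Type) [CommRing B] [Algebra ℤ[X] B] (d : ℕ) [NeZero d] (Γ : Geo B d) (μ : Γ.Model y),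
    (∀ (φ : B →+* ℂ) (D : B →+ ℂ), IsDer φ D → ∃ z ∈ Cone y, ∃ v ∈ Tan y z,
      ∀ m ≥ μ.m₀, ∀ e : Γ.Ix m → ℝ, μ.evC e z = Γ.ev φ e ∧ μ.dC e z v = Γ.dev D e) ∧
    (∀ k ≥ μ.m₀, ∀ F : MvPolynomial (Fin (n + 1)) ℚ, F.IsHomogeneous k →
      ∃ e : Γ.Ix k → ℝ, ∀ z ∈ Cone y, μ.evC e z = MvPolynomial.aeval z F ∧
        ∀ v ∈ Tan y z, μ.dC e z v = dF F z v) ∧
    ∀ (a a' c : ℕ), μ.m₀ ≤ a → μ.m₀ ≤ a' → a + a' = c →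
      ∀ (e : Γ.Ix a → ℝ) (s : Γ.Ix a' → ℝ), ∀ z ∈ Cone y,
        μ.evC (Γ.mulv c e s) z = μ.evC e z * μ.evC s z

/-- A regular form times a section of large degree is a sum of Wronskian forms. -/
def St_WR : Prop :=
  ∀ (L : Type) [Field L] [Algebra ℚ L] (n : ℕ) (y : Fin (n + 1) → L)
    (B : Type) [CommRing B] [Algebra ℤ[X] B] (d : ℕ) [NeZero d] (Γ : Geo B d) (μ : Γ.Model y)
    (ω), RegForm y ω → ∀ m : ℕ, μ.m₀ ≤ m → 1 ≤ m → ∃ k₀ : ℕ, ∀ k ≥ k₀, ∀ m', k + 2 * m = m' →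
      ∀ w : Γ.Ix m' → ℝ, ∃ ξ ∈ μ.Wr k m, ∀ z ∈ Cone y, ∀ v ∈ Tan y z,
        μ.evC w z * ω z v = ξ z v

/-- Logarithms at the labelled zeros are independent over affine functions. -/
def St_LIND : Prop :=
  ∀ (B : Type) [CommRing B] [Algebra ℤ[X] B] (d : ℕ) [NeZero d] (Γ : Geo B d) (m ν m' : ℕ)
    (U : Set (Γ.Ix m → ℝ)) (ρ : Γ.Roots m ν U), 1 ≤ m' → ∀ e ∈ U, ∀ W : Set (Γ.Ix m' → ℝ),
    IsOpen W → (∀ w ∈ W, ∀ j, Γ.ev (ρ.φ e j) w ≠ 0) →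
    (∀ (p₀ : Fin ν → ℝ) (p₁ : Fin ν → (Γ.Ix m' → ℝ) →ₗ[ℝ] ℝ) (q₀ : ℝ)
      (q₁ : (Γ.Ix m' → ℝ) →ₗ[ℝ] ℝ),
      (∀ w ∈ W, ∑ j, (p₀ j + p₁ j w) * Real.log ‖Γ.ev (ρ.φ e j) w‖ = q₀ + q₁ w) →
      ∀ w ∈ W, ∀ j, p₀ j + p₁ j w = 0) ∧
    (W.Nonempty → ∀ C : Option (Fin ν) → ℝ, (∀ w ∈ W, ∑ j, C j * ρ.lam e w j = 0) → C = 0)

/-- Differentiating the solution of an overdetermined linear system. -/
def St_LSYS : Prop :=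
  ∀ (E O V : Type) [Fintype O] [AddCommGroup V] [Module ℝ V] (A₀ : E → O → ℝ),
    (∀ C : O → ℝ, (∀ e, ∑ j, C j * A₀ e j = 0) → C = 0) →
    ∀ (x₀ : O → ℝ) (A₁ : E → O → V →ₗ[ℝ] ℝ) (r₁ : E → V →ₗ[ℝ] ℝ)
      (A : V → ℝ → E → O → ℝ) (x : V → ℝ → O → ℝ) (r : V → ℝ → E → ℝ),
    (∀ u, x u 0 = x₀) → (∀ u e j, A u 0 e j = A₀ e j) →
    (∀ u e j, HasDerivAt (fun ε => A u ε e j) (A₁ e j u) 0) →
    (∀ u e, HasDerivAt (fun ε => r u ε e) (r₁ e u) 0) →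
    (∀ u e, ∀ᶠ ε in nhds (0 : ℝ), ∑ j, x u ε j * A u ε e j = r u ε e) →
    ∃ Λ : O → V →ₗ[ℝ] ℝ, ∀ u e, ∑ j, Λ j u * A₀ e j + ∑ j, x₀ j * A₁ e j u = r₁ e u

/-- The obstruction: no exact solution on a product of open sets. -/
def St_OBS : Prop :=
  ∀ (L : Type) [Field L] [Algebra ℚ L] (n : ℕ) (y : Fin (n + 1) → L)
    (B : Type) [CommRing B] [IsDomain B] [Algebra ℤ[X] B] (d : ℕ) [NeZero d] (Γ : Geo B d)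
    (μ : Γ.Model y) (ι : Type) [Fintype ι] (γ : ι → Loop y) (a : ι → ℝ) (ω), RegForm y ω →
    ∑ l, a l * (period ω (γ l)).im ≠ 0 → ∀ m : ℕ, μ.m₀ ≤ m → 1 ≤ m → ∃ m₂ : ℕ, ∀ m' ≥ m₂,
    ∀ (ν ν' : ℕ) (U : Set (Γ.Ix m → ℝ)) (U' : Set (Γ.Ix m' → ℝ)) (ρ : Γ.Roots m ν U)
      (ρ' : Γ.Roots m' ν' U'), U.Nonempty → U'.Nonempty → μ.Off γ U → μ.Off γ U' →
      (∀ e ∈ U, ∀ w ∈ U', (∀ j, Γ.ev (ρ.φ e j) w ≠ 0) ∧ ∀ j, Γ.ev (ρ'.φ w j) e ≠ 0) →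
      ¬ ∃ (C : (Γ.Ix m → ℝ) → Option (Fin ν) → ℝ) (C' : (Γ.Ix m' → ℝ) → Option (Fin ν') → ℝ),
        ∀ e ∈ U, ∀ w ∈ U',
          ∑ j, C e j * ρ.lam e w j - ∑ j, C' w j * ρ'.lam w e j = μ.Phi γ a e w

end Pool.Agent.Lib.BK2
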