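import Pool.Agent.Lib.BK2.RDefs
import Pool.Agent.Lib.BK2.NF0

open Polynomial

noncomputable section

namespace Pool.Agent.Lib.BK2

/-- Section R, final output, with the weak irreducibility hypothesis. -/
def St_R0 : Prop :=
  ∀ (L : Type) [Field L] [Algebra ℚ L] (n : ℕ) (y : Fin (n + 1) → L)
    (B : Type) [CommRing B] [IsDomain B] [Algebra ℤ[X] B] (d : ℕ) [NeZero d] (Γ : Geo B d)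
    (μ : Γ.Model y) (ι : Type) [Fintype ι] (γ : ι → Loop y) (a : ι → ℝ) (ω), RegForm y ω →
    ∑ l, a l * (period ω (γ l)).im ≠ 0 → Γ.Irr0 →
    ∃ m₁ : ℕ, ∀ m ≥ m₁, Even m →
    ∃ (ν : ℕ) (U : Set (Γ.Ix m → ℝ)) (ρ : Γ.Roots m ν U) (o : Γ.Ix m → ℝ) (s : ℝ), 0 < s ∧
      rcube o s ⊆ U ∧ μ.Off γ U ∧
    ∃ m₂ : ℕ, ∀ m' ≥ m₂, Even m' →
    ∃ (ν' : ℕ) (U' : Set (Γ.Ix m' → ℝ)) (ρ' : Γ.Roots m' ν' U') (o' : Γ.Ix m' → ℝ) (s' : ℝ),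
      0 < s' ∧ rcube (fun i => o' i - 2 * s') (5 * s') ⊆ U' ∧ μ.Off γ U' ∧
      (∀ e ∈ rcube o s, ∀ w ∈ U', (∀ j, Γ.ev (ρ.φ e j) w ≠ 0) ∧ ∀ j, Γ.ev (ρ'.φ w j) e ≠ 0) ∧
      ContinuousOn (fun q : (Γ.Ix m → ℝ) × (Γ.Ix m' → ℝ) => ρ.lam q.1 q.2) (rcube o s ×ˢ U') ∧
      ContinuousOn (fun q : (Γ.Ix m → ℝ) × (Γ.Ix m' → ℝ) => ρ'.lam q.2 q.1) (rcube o s ×ˢ U') ∧
      ContinuousOn (fun q : (Γ.Ix m → ℝ) × (Γ.Ix m' → ℝ) => μ.Phi γ a q.1 q.2) (rcube o s ×ˢ U') ∧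
      (∀ e ∈ rcube o s, ∀ C : Option (Fin ν) → ℝ,
        (∀ w ∈ rcube o' s', ∑ j, C j * ρ.lam e w j = 0) → C = 0) ∧
      (∀ w ∈ rcube o' s', ∀ C : Option (Fin ν') → ℝ,
        (∀ e ∈ rcube o s, ∑ j, C j * ρ'.lam w e j = 0) → C = 0) ∧
      ¬ ∃ (C : (Γ.Ix m → ℝ) → Option (Fin ν) → ℝ) (C' : (Γ.Ix m' → ℝ) → Option (Fin ν') → ℝ),
        ∀ e ∈ rcube o s, ∀ w ∈ rcube o' s',
          ∑ j, C e j * ρ.lam e w j - ∑ j, C' w j * ρ'.lam w e j = μ.Phi γ a e w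

/-- `St_CEN2` with the weak irreducibility hypothesis. -/
def St_CEN20 : Prop :=
  ∀ (B : Type) [CommRing B] [Algebra ℤ[X] B] (d : ℕ) [NeZero d] (Γ : Geo B d),
    (Γ.Irr0 → ∃ m₁ : ℕ, ∀ m ≥ m₁,
      Dense {e : Γ.Ix m → ℝ | (Γ.nrmR e).Separable ∧ (Γ.nrmR e).natDegree = m * d}) ∧
    ∀ (m : ℕ) (f₀ : Γ.Ix m → ℝ), Γ.lc f₀ ≠ 0 → (∀ x : ℝ, (Γ.nrmR f₀).eval x ≠ 0) →
      ∀ᶠ e in nhds f₀, ∀ x : ℝ, (Γ.nrmR e).eval x ≠ 0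

theorem stR_of (h : St_R0) : St_R := by
  intro L _ _ n y B _ _ _ d _ Γ μ ι _ γ a ω h1 h2 h3
  exact h L n y B d Γ μ ι γ a ω h1 h2 h3.irr0

end Pool.Agent.Lib.BK2
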