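import Pool.Agent.Lib.BK2.RDefs0

open Polynomial

noncomputable section

namespace Pool.Agent.Lib.BK2

namespace RG

theorem exists_cube {I : Type} [Fintype I] {U : Set (I → ℝ)} (hU : IsOpen U) {o : I → ℝ}
    (ho : o ∈ U) : ∃ s : ℝ, 0 < s ∧ rcube (fun i => o i - 2 * s) (5 * s) ⊆ U := by
  obtain ⟨r, hr, h⟩ := Metric.isOpen_iff.1 hU o ho
  refine ⟨r / 4, by positivity, fun v hv => h ?_⟩
  rw [Metric.mem_ball, dist_pi_lt_iff hr]
  intro i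
  have := hv i
  rw [Real.dist_eq, abs_lt]
  constructor <;> linarith [this.1, this.2]

theorem cube_sub {I : Type} (o : I → ℝ) {s : ℝ} (hs : 0 < s) :
    rcube o s ⊆ rcube (fun i => o i - 2 * s) (5 * s) := fun v hv i => by
  have := hv i
  constructor <;> linarith [this.1, this.2]

theorem cube_compact {I : Type} (o : I → ℝ) (s : ℝ) : IsCompact (rcube o s) := by
  have : rcube o s = Set.Icc o fun i => o i + s := by
    ext v
    simp only [rcube, Set.mem_ofPred_eq, Set.mem_Icc, Pi.le_def, forall_and]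
  rw [this]
  exact isCompact_Icc

theorem exists_open {I : Type} [Fintype I] (o : I → ℝ) {s : ℝ} (hs : 0 < s) :
    ∃ W : Set (I → ℝ), IsOpen W ∧ W.Nonempty ∧ W ⊆ rcube o s := by
  refine ⟨Metric.ball (fun i => o i + s / 2) (s / 2), Metric.isOpen_ball,
    Metric.nonempty_ball.2 (by positivity), fun v hv i => ?_⟩
  rw [Metric.mem_ball, dist_pi_lt_iff (by positivity)] at hv
  have := hv i
  rw [Real.dist_eq, abs_lt] at this
  constructor <;> linarith [this.1, this.2]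

variable {B : Type} [CommRing B] [Algebra ℤ[X] B] {d : ℕ} [NeZero d] {Γ : Geo B d}

theorem ev_conj {m : ℕ} (φ : B →+* ℂ) (e : Γ.Ix m → ℝ) :
    Γ.ev ((starRingEnd ℂ).comp φ) e = starRingEnd ℂ (Γ.ev φ e) := by
  simp [Geo.ev]

theorem exists_bdd {m ν : ℕ} {U : Set (Γ.Ix m → ℝ)} (ρ : Γ.Roots m ν U) {K : Set (Γ.Ix m → ℝ)}
    (hK : IsCompact K) (h : K ⊆ U) : ∃ R : ℝ, ∀ e ∈ K, ∀ j, Γ.Bdd (ρ.φ e j) R := by
  have h1 : ContinuousOn
      (fun e => fun p : Fin ν × Option (Fin d) => ρ.φ e p.1 (p.2.elim Γ.t Γ.b)) K :=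
    continuousOn_pi.2 fun p => (ρ.smooth p.1 _).continuousOn.mono h
  obtain ⟨R, hR⟩ := hK.exists_bound_of_continuousOn h1
  exact ⟨R, fun e he j => ⟨(norm_le_pi_norm _ (j, none)).trans (hR e he),
    fun l => (norm_le_pi_norm _ (j, some l)).trans (hR e he)⟩⟩

theorem cont_lam {m ν m' : ℕ} {U : Set (Γ.Ix m → ℝ)} (ρ : Γ.Roots m ν U) {X : Type}
    [TopologicalSpace X] {S : Set X} {f : X → Γ.Ix m → ℝ} {g : X → Γ.Ix m' → ℝ}
    (hf : Continuous f) (hg : Continuous g) (hS : ∀ x ∈ S, f x ∈ U)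
    (h : ∀ x ∈ S, ∀ j, Γ.ev (ρ.φ (f x) j) (g x) ≠ 0) :
    ContinuousOn (fun x => ρ.lam (f x) (g x)) S := by
  refine continuousOn_pi.2 ?_
  rintro (_ | j)
  · exact continuousOn_const
  · refine ContinuousOn.log (ContinuousOn.norm ?_) fun x hx => norm_ne_zero_iff.2 (h x hx j)
    refine continuousOn_finsetSum _ fun i _ => ContinuousOn.mul ?_ ?_
    · exact (Complex.continuous_ofReal.comp ((continuous_apply i).comp hg)).continuousOn
    · exact (ρ.smooth j (Γ.mon i)).continuousOn.comp hf.continuousOn hS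

variable {L : Type} [Field L] [Algebra ℚ L] {n : ℕ} {y : Fin (n + 1) → L} (μ : Γ.Model y)
variable {ι : Type} [Fintype ι] (γ : ι → Loop y)

theorem centre (hR : St_ROOT) (h1 : St_CEN1) (h2 : St_CEN20) (hI : Γ.Irr0) :
    ∃ m₁ : ℕ, ∀ m ≥ m₁, Even m → ∀ R : ℝ, ∃ (ν : ℕ) (U : Set (Γ.Ix m → ℝ)) (_ : Γ.Roots m ν U),
      U.Nonempty ∧ μ.Off γ U ∧ ∀ ψ : B →+* ℂ, Γ.Bdd ψ R → ∀ e ∈ U, Γ.ev ψ e ≠ 0 := by
  obtain ⟨m₁, hm₁⟩ := (h2 B d Γ).1 hI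
  refine ⟨m₁ + μ.m₀, fun m hm hev R => ?_⟩
  obtain ⟨f₀, r, hr, h3, h4, h5, h6⟩ := h1 L n y B d Γ μ ι γ m (by omega) hev R
  obtain ⟨e₀, ⟨h7, h8⟩, h9, h10⟩ := (hm₁ m (by omega)).inter_nhds_nonempty
    (Filter.inter_mem (Metric.ball_mem_nhds f₀ hr) ((h2 B d Γ).2 m f₀ h3 h4))
  obtain ⟨ν, U, ρ, hU⟩ := hR B d Γ m e₀ h7 h8 h10
  exact ⟨ν, U ∩ Metric.ball f₀ r, ρ.mono Set.inter_subset_left (ρ.op.inter Metric.isOpen_ball),
    ⟨e₀, hU, h9⟩, fun e he => h5 e he.2, fun ψ hψ e he => h6 ψ hψ e he.2⟩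

end RG

open RG in
theorem stR0_of (hR : St_ROOT) (h1 : St_CEN1) (h2 : St_CEN20) (hC : St_CHAIN) (hP : St_PHI1)
    (hI : St_LIND) (hO : St_OBS) : St_R0 := by
  intro L _ _ n y B _ _ _ d _ Γ μ ι _ γ a ω hω hper hirr
  obtain ⟨m₁, hm₁⟩ := centre μ γ hR h1 h2 hirr
  refine ⟨m₁ + μ.m₀ + 1, fun m hm hev => ?_⟩
  obtain ⟨ν, U, ρ, ⟨o, ho⟩, hoff, -⟩ := hm₁ m (by omega) hev 0
  obtain ⟨s, hs, hsU⟩ := exists_cube ρ.op ho
  have hE : rcube o s ⊆ U := (cube_sub o hs).trans hsU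
  refine ⟨ν, U, ρ, o, s, hs, hE, hoff, ?_⟩
  obtain ⟨R, hRb⟩ := exists_bdd ρ (cube_compact o s) hE
  obtain ⟨m₂, hm₂⟩ := hO L n y B d Γ μ ι γ a ω hω hper m (by omega) (by omega)
  refine ⟨m₂ + m₁ + 1, fun m' hm' hev' => ?_⟩
  obtain ⟨ν', U', ρ', ⟨o', ho'⟩, hoff', hb⟩ := hm₁ m' (by omega) hev' R
  obtain ⟨s', hs', hsU'⟩ := exists_cube ρ'.op ho'
  have hW : rcube o' s' ⊆ U' := (cube_sub o' hs').trans hsU'
  have hne : ∀ e ∈ rcube o s, ∀ w ∈ U',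
      (∀ j, Γ.ev (ρ.φ e j) w ≠ 0) ∧ ∀ j, Γ.ev (ρ'.φ w j) e ≠ 0 := by
    intro e he w hw
    have h3 : ∀ j, Γ.ev (ρ.φ e j) w ≠ 0 := fun j => hb _ (hRb e he j) w hw
    refine ⟨h3, fun j h4 => ?_⟩
    have h5 := ρ'.zero w hw j
    obtain ⟨t, h6 | h6⟩ := ρ.all e (hE he) _ h4
    · exact h3 t (h6 ▸ h5)
    · rw [h6, ev_conj, map_eq_zero] at h5
      exact h3 t h5
  obtain ⟨E₀, hE1, hE2, hE3⟩ := exists_open o hs
  obtain ⟨W₀, hW1, hW2, hW3⟩ := exists_open o' hs'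
  refine ⟨ν', U', ρ', o', s', hs', hsU', hoff', hne, ?_, ?_, ?_, ?_, ?_, ?_⟩
  · exact cont_lam ρ continuous_fst continuous_snd (fun q hq => hE hq.1)
      fun q hq => (hne _ hq.1 _ hq.2).1
  · exact cont_lam ρ' continuous_snd continuous_fst (fun q hq => hq.2)
      fun q hq => (hne _ hq.1 _ hq.2).2
  · refine continuousOn_finsetSum _ fun l _ => continuousOn_const.mul ?_
    exact (hP _ _ (fun i u => MvPolynomial.aeval ((γ l).pt u) (μ.rep m i))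
      (fun i u => MvPolynomial.aeval ((γ l).pt u) (μ.rep m' i))
      (fun i => ((hC L n y (γ l)).1 _).1) fun i => ((hC L n y (γ l)).1 _).1).mono
      fun q hq => ⟨hoff _ (hE hq.1) l, hoff' _ hq.2 l⟩
  · intro e he C hC0
    exact (hI B d Γ m ν m' U ρ (by omega) e (hE he) W₀ hW1
      fun w hw => (hne e he w (hW (hW3 hw))).1).2 hW2 C fun w hw => hC0 w (hW3 hw)
  · intro w hw C hC0
    exact (hI B d Γ m' ν' m U' ρ' (by omega) w (hW hw) E₀ hE1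
      fun e he => (hne e (hE3 he) w (hW hw)).2).2 hE2 C fun e he => hC0 e (hE3 he)
  · rintro ⟨C, C', h⟩
    exact hm₂ m' (by omega) ν ν' E₀ W₀ (ρ.mono (hE3.trans hE) hE1) (ρ'.mono (hW3.trans hW) hW1)
      hE2 hW2 (fun e he => hoff e (hE (hE3 he))) (fun w hw => hoff' w (hW (hW3 hw)))
      (fun e he w hw => hne e (hE3 he) w (hW (hW3 hw)))
      ⟨C, C', fun e he w hw => h e (hE3 he) w (hW3 hw)⟩

end Pool.Agent.Lib.BK2
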