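import Pool.Agent.Lib.BK2.SInt
import Pool.Agent.Lib.BK2.CBas
import Pool.Agent.Lib.BK2.Clean

/-! BK2, section S: the cleaning step on the finite data. -/

set_option linter.unusedSectionVars false

noncomputable section

namespace Pool.Agent.Lib.BK2

open Finset Classical Co CA

namespace SCLN

variable {G W X C O O' : Type} [Fintype G] [Fintype W] [Fintype X] [Fintype C] [Fintype O]
  [Fintype O'] (D : CD G W X C O O')

/-- the data of the abstract cleaning lemma -/
def cld (eps : ℝ) : CLD G W X where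
  om := D.om
  Z := D.Z
  Maj := D.ME
  inc := D.MW
  mu := D.mu
  pp := D.q
  badW w := ¬ D.gW0 eps w ∨ ¬ D.gWm eps w
  badF w x := ¬ D.gF1 eps w x ∨ (D.ms (D.MW w) ≤ 2 ∧ ¬ D.gF2 eps w x)

theorem cpos (ι : Type) [Fintype ι] [Nonempty ι] : (0 : ℝ) < Fintype.card ι := by
  exact_mod_cast Fintype.card_pos

theorem sum_eq {ι : Type} [Fintype ι] [Nonempty ι] (f : ι → ℝ) :
    ∑ i, f i = av f * Fintype.card ι := by rw [← card_mul_av, mul_comm]

theorem cnt_eq {ι : Type} [Fintype ι] [Nonempty ι] (P : ι → Prop) :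
    cnt P = fr P * Fintype.card ι := sum_eq _

theorem sE_eq [Nonempty G] (eps : ℝ) (w : W) (P : G → Prop) :
    (cld D eps).sE w P = D.mW w P * Fintype.card G := sum_eq _

theorem sW_eq [Nonempty W] (eps : ℝ) (e : G) (P : W → Prop) :
    (cld D eps).sW e P = D.mE e P * Fintype.card W := sum_eq _

theorem ms_eq (eps : ℝ) (A : Finset X) (S : X → Prop) :
    (cld D eps).ms A S = D.ms (A.filter S) := (sum_filter _ _).symm

theorem flW_eq [Nonempty W] (eps : ℝ) (P : W → X → Prop) :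
    ∑ w, (cld D eps).ms (D.MW w) (P w) = D.flW P * Fintype.card W := by
  simp only [ms_eq]
  exact sum_eq _

theorem ms_or (hm : ∀ x, 0 < D.mu x) (eps : ℝ) (A : Finset X) {S S₁ S₂ : X → Prop}
    (k : ∀ x, S x → S₁ x ∨ S₂ x) :
    (cld D eps).ms A S ≤ (cld D eps).ms A S₁ + (cld D eps).ms A S₂ := by
  unfold CLD.ms
  rw [← sum_add_distrib]
  exact sum_le_sum fun x _ => CLD.ite_or (hm x).le fun _ => k x

theorem sW_le (eps : ℝ) (e : G) (P : W → Prop) (B : ℝ) (h : ∀ c, D.NE e c P ≤ B * D.sz c) :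
    (cld D eps).sW e P ≤ B * Fintype.card W := by
  rw [← D.sum_sz, mul_sum]
  refine le_trans (le_of_eq ?_) (sum_le_sum fun c _ => h c)
  refine (D.sum_cells _).trans (sum_congr rfl fun c _ => sum_congr rfl fun w _ => ?_)
  by_cases h1 : D.cell w = c <;> by_cases h2 : P w <;> simp [h1, h2, cld]

theorem cheb {ι : Type} [Fintype ι] [Nonempty ι] (M : ι → Finset X) (mu q : X → ℝ)
    (τ ε u : ℝ) (hε : 0 < ε) (hε1 : ε ≤ 1) (hu : τ ^ 2 ≤ ε ^ 2 / 16 * u)
    (h : ∀ g : X → ℝ, av (fun i => (∑ x ∈ M i, mu x * g x - ∑ x, mu x * g x / q x) ^ 2) ≤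
      τ ^ 2 * ∑ x, mu x * g x ^ 2 / q x) (S : X → Prop)
    (hS : (∑ x, if S x then mu x / q x else 0) ≤ ε / 2) :
    cnt (fun i => 3 * ε / 4 < ∑ x ∈ M i, if S x then mu x else 0) ≤ u * Fintype.card ι := by
  have h1 := h fun x => if S x then 1 else 0
  have e1 : ∀ x, mu x * (if S x then (1 : ℝ) else 0) = if S x then mu x else 0 := fun x => by
    split_ifs <;> simp
  have e2 : ∀ x, (if S x then mu x else 0) / q x = if S x then mu x / q x else 0 := fun x => by
    split_ifs <;> simp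
  have e3 : ∀ x, mu x * (if S x then (1 : ℝ) else 0) ^ 2 / q x = if S x then mu x / q x else 0 :=
    fun x => by split_ifs <;> simp
  simp only [e1, e2, e3] at h1
  set m := ∑ x, if S x then mu x / q x else 0
  have h2 := cnt_markov (fun i => (∑ x ∈ M i, (if S x then mu x else 0) - m) ^ 2)
    (fun _ => sq_nonneg _) (ε ^ 2 / 16)
  rw [sum_eq] at h2
  have h3 : cnt (fun i => 3 * ε / 4 < ∑ x ∈ M i, if S x then mu x else 0) ≤
      cnt fun i => ε ^ 2 / 16 < (∑ x ∈ M i, (if S x then mu x else 0) - m) ^ 2 :=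
    cnt_mono fun i hi => by nlinarith
  have hc := cpos ι
  have h4 : τ ^ 2 * m ≤ ε ^ 2 / 16 * u :=
    le_trans (by nlinarith [sq_nonneg τ]) hu
  have h5 : 0 < ε ^ 2 / 16 := by positivity
  refine h3.trans (le_of_mul_le_mul_left (h2.trans ?_) h5)
  rw [← mul_assoc]
  exact mul_le_mul_of_nonneg_right (h1.trans h4) hc.le

theorem mW_le_sum (hn : ∀ e w, 0 ≤ D.om e w) (w : W) (A : Finset X) (P : G → Prop)
    (Q : X → G → Prop) (k : ∀ e, D.om e w ≠ 0 → P e → ∃ x ∈ A, Q x e) :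
    D.mW w P ≤ ∑ x ∈ A, D.mW w (Q x) := by
  unfold CD.mW
  rw [← av_sum]
  refine av_le fun e => ?_
  have h0 : 0 ≤ ∑ x ∈ A, if Q x e then D.om e w else 0 := sum_nonneg fun x _ => CLD.ite_nn (hn e w)
  by_cases h1 : D.om e w = 0
  · simp [h1]
  by_cases hp : P e
  · obtain ⟨x, hx, hq⟩ := k e h1 hp
    rw [if_pos hp]
    refine le_trans (le_of_eq (if_pos hq).symm)
      (single_le_sum (f := fun x => if Q x e then D.om e w else 0) (fun x _ => CLD.ite_nn (hn e w)) hx)
  · rwa [if_neg hp]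

variable {D} {eps τ : ℝ}

theorem em1 (h : D.PreA eps τ) (e : G) (x : X) (hx : x ∈ D.ME e) :
    (cld D eps).sW e (fun w => x ∈ D.Z e w) ≤ 12 * D.k ^ 2 * D.mu x * Fintype.card W := by
  refine sW_le D eps e _ _ fun c => ?_
  have h1 := (abs_le.1 (h.E1 e c x hx)).2
  have hk : (2 : ℝ) ≤ D.k := by exact_mod_cast h.k2
  have h2 : 0 ≤ D.k * D.mu x * D.sz c := by
    have := (h.mu_pos x).le; have := D.sz_nonneg c; positivity
  nlinarith [mul_le_mul_of_nonneg_right (h.d1_hi x) h2, mul_le_mul_of_nonneg_right h.eps1 h2,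
    mul_le_mul_of_nonneg_right hk h2]

theorem em2 (h : D.PreA eps τ) (e : G) (x : X) (hx : x ∈ D.ME e) (y : X) (hy : y ∈ D.ME e)
    (hxy : x ≠ y) : (cld D eps).sW e (fun w => x ∈ D.Z e w ∧ y ∈ D.Z e w) ≤
      12 * D.k ^ 2 * D.mu x * D.mu y * Fintype.card W := by
  have hmx := (h.mu_pos x).le
  have hmy := (h.mu_pos y).le
  refine sW_le D eps e _ _ fun c => ?_
  have hs := D.sz_nonneg c
  by_cases hq : D.q x = D.q y
  · refine le_trans (le_of_eq (sum_eq_zero fun w _ => ?_)) (by positivity)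
    by_cases h0 : D.om e w = 0
    · simp [h0]
    · exact if_neg fun a => hxy ((h.hZ e w h0).2.2.2 x a.2.1 y a.2.2 hq)
  have h1 := (abs_le.1 (h.E2 e c x hx y hy hq)).2
  have hk : (2 : ℝ) ≤ D.k := by exact_mod_cast h.k2
  have h2 : 0 ≤ D.k ^ 2 * D.mu x * D.mu y * D.sz c := by positivity
  have h3 : 0 ≤ D.k * D.d2 x y * D.mu x * D.mu y * D.sz c := by
    have : 0 ≤ D.d2 x y := le_trans (by norm_num) (h.d2_lo x y)
    positivity
  nlinarith [mul_le_mul_of_nonneg_right (h.d2_hi x y) h2, mul_le_mul_of_nonneg_right h.eps1 h2]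

theorem wm1 [Nonempty G] (h : D.PreA eps τ) (w : W) (x : X) (g : D.gF1 eps w x) :
    D.mW w (fun e => x ∈ D.Z e w) ≤ 12 * D.k ^ 2 * D.mu x := by
  have h1 : |∑ b, (D.mW w (fun e => D.ec e = b ∧ x ∈ D.Z e w) - D.k * D.d1 x * D.mu x * D.nB b)| ≤
      10 * eps * D.k * D.mu x := (abs_sum_le_sum_abs _ _).trans g
  rw [sum_sub_distrib, D.sum_mW, ← mul_sum, D.sum_nB, mul_one] at h1
  have h3 := (abs_le.1 h1).2
  have hk : (2 : ℝ) ≤ D.k := by exact_mod_cast h.k2
  have h2 : 0 ≤ D.k * D.mu x := by have := (h.mu_pos x).le; positivity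
  nlinarith [mul_le_mul_of_nonneg_right (h.d1_hi x) h2, mul_le_mul_of_nonneg_right h.eps1 h2,
    mul_le_mul_of_nonneg_right hk h2]

theorem wm2 (h : D.PreA eps τ) (w : W) (x : X) (g : D.gF2 eps w x) (S : X → Prop) (hx : ¬ S x)
    (hS : D.ms ((D.MW w).filter S) ≤ eps) :
    D.mW w (fun e => x ∈ D.Z e w ∧ ∃ y ∈ D.Z e w, S y) ≤ 12 * D.k ^ 2 * eps * D.mu x := by
  have hmx := (h.mu_pos x).le
  have hk : (2 : ℝ) ≤ D.k := by exact_mod_cast h.k2
  set A := ((D.MW w).filter fun y => D.q y ≠ D.q x).filter S with hA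
  have h1 := mW_le_sum D h.om_nn w A (fun e => x ∈ D.Z e w ∧ ∃ y ∈ D.Z e w, S y)
    (fun y e => x ∈ D.Z e w ∧ y ∈ D.Z e w) fun e h0 ⟨a, y, b, c⟩ =>
      ⟨y, mem_filter.2 ⟨mem_filter.2 ⟨(h.hZ e w h0).2.1 b, fun hq =>
        hx ((h.hZ e w h0).2.2.2 y b x a hq ▸ c)⟩, c⟩, a, b⟩
  have h2 : ∑ y ∈ A, D.mW w (fun e => x ∈ D.Z e w ∧ y ∈ D.Z e w) ≤
      ∑ y ∈ A, (|D.mW w (fun e => x ∈ D.Z e w ∧ y ∈ D.Z e w) -
        D.k * (D.k - 1) * D.d2 x y * D.mu x * D.mu y| + 2 * D.k ^ 2 * D.mu x * D.mu y) := by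
    refine sum_le_sum fun y _ => ?_
    have hmy := (h.mu_pos y).le
    have h3 := le_abs_self (D.mW w (fun e => x ∈ D.Z e w ∧ y ∈ D.Z e w) -
      D.k * (D.k - 1) * D.d2 x y * D.mu x * D.mu y)
    have h4 : 0 ≤ D.k ^ 2 * D.mu x * D.mu y := by positivity
    have h5 : 0 ≤ D.k * D.d2 x y * D.mu x * D.mu y := by
      have : 0 ≤ D.d2 x y := le_trans (by norm_num) (h.d2_lo x y)
      positivity
    nlinarith [mul_le_mul_of_nonneg_right (h.d2_hi x y) h4]
  rw [sum_add_distrib, ← mul_sum] at h2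
  have h3 := (sum_le_sum_of_subset_of_nonneg (filter_subset S _) fun y _ _ => abs_nonneg _).trans g
  have h4 : ∑ y ∈ A, D.mu y ≤ eps :=
    (sum_le_sum_of_subset_of_nonneg (filter_subset_filter S (filter_subset _ _))
      fun y _ _ => (h.mu_pos y).le).trans hS
  have h5 : 0 ≤ 2 * D.k ^ 2 * D.mu x := by positivity
  nlinarith [mul_le_mul_of_nonneg_left h4 h5]

theorem hyp [Nonempty G] [Nonempty W] {t u : ℝ} (h : D.PreA eps τ) (hs : D.PreS τ)
    (ha : D.oWMa eps t) (hm : D.oWMm eps t) (h1 : D.oWM1 eps t) (h2 : D.oWM2 eps t)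
    (hg : D.Gain eps t) (hτ : τ ≤ t) (hu0 : 0 < u) (hu1 : u ≤ 1) (ht : t = eps * u ^ 4 / 4)
    (hu : 600 * (32 * (D.k + 1)) ^ 2 * u ≤ eps ^ 5) :
    (cld D eps).Hyp D.k eps (13 * D.K * D.k ^ 2 * eps) u (32 * (D.k + 1)) (12 * D.k ^ 2) := by
  have hk : (2 : ℝ) ≤ D.k := by exact_mod_cast h.k2
  have he0 := h.eps0
  have he1 := h.eps1
  have hK := h.K1
  have hG := cpos G
  have hW := cpos W
  have hu4 : 0 < u ^ 4 := by positivity
  have hu5 : u ^ 4 ≤ 1 := pow_le_one₀ hu0.le hu1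
  have ht2 : 2 * t ≤ u ^ 4 := by rw [ht]; nlinarith
  have ht0 : 0 < t := h.τ0.trans_le hτ
  have hτ2 : τ ^ 2 ≤ eps ^ 2 / 16 * u ^ 4 := by
    have h3 : τ ^ 2 ≤ t ^ 2 := pow_le_pow_left₀ h.τ0.le hτ 2
    have h4 : t ^ 2 = eps ^ 2 / 16 * u ^ 4 * u ^ 4 := by rw [ht]; ring
    have h5 : 0 ≤ eps ^ 2 / 16 * u ^ 4 := by positivity
    nlinarith
  have hq : ∀ x, 0 < D.q x := fun x => zero_lt_one.trans_le (h.q_one x)
  refine
    { k_pos := by have := h.k2; omega
      ε_pos := he0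
      ε_le := by linarith
      θ_nn := by positivity
      t_pos := hu0
      K_ge := by linarith
      K₂_nn := by positivity
      small := hu
      om_nn := h.om_nn
      mu_pos := h.mu_pos
      pp_pos := hq
      mb_sum := h.prob.le
      mb_le := fun x => ?_
      z_card := fun e w h0 => (h.hZ e w h0).2.2.1
      z_maj := fun e w h0 => (h.hZ e w h0).1
      z_inc := fun e w h0 => (h.hZ e w h0).2.1
      maj_le := h.ME_le
      inc_le := fun w hw => (not_not.1 (not_or.1 hw).2).1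
      bad0 := ?_
      bad1 := ?_
      l2_0 := ?_
      l2_1 := ?_
      smW := fun S hS => cheb D.MW D.mu D.q τ eps _ he0 (by linarith) hτ2 hs.smW S hS
      smE := fun S hS => cheb D.ME D.mu D.q τ eps _ he0 (by linarith) hτ2 hs.sm S hS
      em1 := em1 h
      em2 := em2 h
      wm1 := fun w _ x _ hx => ?_
      wm2 := fun w hw x _ hx S hS hS' => ?_
      gain := fun x σ a b => ?_ }
  · have h3 : D.mu x / D.q x ≤ τ :=
      (single_le_sum (f := fun y => D.mu y / D.q y)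
        (fun y _ => (div_pos (h.mu_pos y) (hq y)).le)
        (mem_filter.2 ⟨mem_univ x, (rfl : D.q x = D.q x)⟩ :
          x ∈ univ.filter fun y => D.q y = D.q x)).trans (h.fibq x)
    refine h3.trans (hτ.trans ?_)
    rw [ht]; nlinarith
  · refine (cnt_or (Q := fun w => ¬ D.gW0 eps w) (R := fun w => ¬ D.gWm eps w)
      fun _ a => a).trans ?_
    rw [cnt_eq, cnt_eq, ← add_mul]
    exact mul_le_mul_of_nonneg_right ((add_le_add ha.1 hm).trans ((two_mul t).ge.trans ht2)) hW.le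
  · have h3 : ∀ w, (cld D eps).ms ((cld D eps).inc w) ((cld D eps).badF w) ≤
        (cld D eps).ms (D.MW w) (fun x => ¬ D.gF1 eps w x) +
        (cld D eps).ms (D.MW w) (fun x => D.ms (D.MW w) ≤ 2 ∧ ¬ D.gF2 eps w x) := fun w =>
      ms_or D h.mu_pos eps _ fun _ a => a
    refine (sum_le_sum fun w _ => h3 w).trans ?_
    rw [sum_add_distrib, flW_eq D eps fun w x => ¬ D.gF1 eps w x,
      flW_eq D eps fun w x => D.ms (D.MW w) ≤ 2 ∧ ¬ D.gF2 eps w x, ← add_mul]
    exact mul_le_mul_of_nonneg_right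
      ((add_le_add h1.1 h2).trans ((two_mul t).ge.trans ht2)) hW.le
  · simp only [sE_eq, mul_pow]
    rw [← sum_mul, sum_eq, mul_right_comm]
    refine mul_le_mul_of_nonneg_right (mul_le_mul_of_nonneg_right (ha.2.trans ?_)
      (by positivity)) hW.le
    nlinarith
  · simp only [sE_eq, mul_pow, mul_div_right_comm, ← sum_mul]
    rw [sum_eq, mul_right_comm]
    refine mul_le_mul_of_nonneg_right (mul_le_mul_of_nonneg_right (h1.2.trans ?_)
      (by positivity)) hW.le
    nlinarith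
  · rw [sE_eq]
    exact mul_le_mul_of_nonneg_right (wm1 h w x (not_not.1 (not_or.1 hx).1)) hG.le
  · rw [sE_eq]
    rw [ms_eq] at hS'
    exact mul_le_mul_of_nonneg_right (wm2 h w x (not_not.1 fun a => (not_or.1 hx).2
      ⟨(not_not.1 (not_or.1 hw).2).1, a⟩) S hS hS') hG.le
  · rw [cnt_eq, ← mul_assoc] at a
    have h3 := hg x σ (le_of_mul_le_mul_right a hG) fun e he => by
      have := b e he
      rwa [ms_eq] at this
    have h4 : cnt (fun w => x ∈ (cld D eps).inc w ∧ 13 * D.K * D.k ^ 2 * eps * (cld D eps).mu x *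
        Fintype.card G < (cld D eps).lE w x σ) ≤ cnt fun w => x ∈ D.MW w ∧
          13 * D.K * D.k ^ 2 * eps * D.mu x <
            D.mW w (fun e => x ∈ D.Z e w ∧ ∃ y ∈ D.Z e w, σ e y) :=
      cnt_mono fun w a => ⟨a.1, by
        have := a.2
        rw [CLD.lE, sE_eq] at this
        exact lt_of_mul_lt_mul_right this hG.le⟩
    refine (mul_le_mul_of_nonneg_left h4 (hq x).le).trans ?_
    rw [cnt_eq, ← mul_assoc]
    exact mul_le_mul_of_nonneg_right (h3.trans (by linarith)) hW.le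

theorem mE_le [Nonempty W] (h : D.PreA eps τ) (e : G) (P : W → Prop) : D.mE e P ≤ 2 := by
  have h1 : (cld D eps).sW e (fun _ => True) ≤ 2 * Fintype.card W :=
    sW_le D eps e _ _ fun c => by
      have h2 := (abs_le.1 (h.E0 e c)).2
      nlinarith [h.eps1, D.sz_nonneg c]
  rw [sW_eq] at h1
  refine le_trans (av_le fun w => ?_) (le_of_mul_le_mul_right h1 (cpos W))
  rw [if_pos trivial]
  split_ifs
  · exact le_rfl
  · exact h.om_nn e w

theorem al_iff (δ : ℝ) (aE : G → Prop) (aW : W → Prop) (fE : G → X → Prop) (fW : W → X → Prop)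
    (e : G) (w : W) : (D.alive δ (univ.filter aE) (univ.filter aW)
      (univ.filter fun z => fE z.1 z.2) (univ.filter fun z => fW z.1 z.2)).al e w ↔
      (cld D eps).Al aE aW fE fW e w := by
  simp [CD.al, CD.alive, CLD.Al, cld]

theorem ok [Nonempty G] [Nonempty W] {δ L : ℝ} (h : D.PreA eps τ) (hs : D.PreS τ) (hv : D.VV τ)
    (hk : 100 * D.K ≤ D.k) (hδ : 0 < δ) (hδ1 : 1000 * D.K * D.k * δ ≤ 1) (he : 10 * eps ≤ δ)
    (hL0 : 0 ≤ L) (hL : 3 * L + 2 * eps ≤ δ ^ 2) {aE : G → Prop} {aW : W → Prop}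
    {fE : G → X → Prop} {fW : W → X → Prop} (o : (cld D eps).Out eps L aE aW fE fW) :
    (D.alive δ (univ.filter aE) (univ.filter aW)
      (univ.filter fun z => fE z.1 z.2) (univ.filter fun z => fW z.1 z.2)).Ok := by
  have he0 := h.eps0
  have hτ0 := h.τ0
  have he' : eps ≤ δ := by linarith
  have hτ : τ ≤ δ := h.τe.trans he'
  have he2 : eps ^ 2 ≤ δ ^ 2 := pow_le_pow_left₀ he0.le he' 2
  have hτ2 : τ ^ 2 ≤ δ ^ 2 := pow_le_pow_left₀ hτ0.le hτ 2
  have hG := cpos G
  have hW := cpos W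
  have hq : ∀ x, 0 < D.q x := fun x => zero_lt_one.trans_le (h.q_one x)
  have hmu : ∀ x, 0 ≤ D.mu x := fun x => (h.mu_pos x).le
  have hsz := D.sz_nonneg
  have hal := al_iff (D := D) (eps := eps) δ aE aW fE fW
  have gw : ∀ w, aW w → D.gW0 eps w ∧ D.gWm eps w := fun w a =>
    ⟨not_not.1 (not_or.1 (o.gW w a)).1, not_not.1 (not_or.1 (o.gW w a)).2⟩
  have gf : ∀ w x, fW w x → D.gF1 eps w x ∧ D.gF2 eps w x := fun w x a =>
    ⟨not_not.1 (not_or.1 (o.gF w x a).2.2).1, not_not.1 fun b => (not_or.1 (o.gF w x a).2.2).2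
      ⟨(gw w (o.gF w x a).1).2.1, b⟩⟩
  have lE : ∀ e, aE e → D.mE e (fun w => ¬ (cld D eps).Al aE aW fE fW e w) ≤ 3 * L :=
    fun e a => by
      have := o.lossE0 e a
      rw [sW_eq] at this
      exact le_of_mul_le_mul_right this hW
  refine
    { K1 := h.K1
      hk := hk
      δ0 := hδ
      hδ := hδ1
      om_nn := h.om_nn
      mu_pos := h.mu_pos
      q_pos := hq
      hZ := h.hZ
      d1_lo := h.d1_lo
      d1_hi := fun x => (h.d1_hi x).trans (by norm_num)
      d2_le := fun x y => abs_le.2 ⟨le_trans (by norm_num) (h.d2_lo x y),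
        (h.d2_hi x y).trans (by norm_num)⟩
      d2_symm := h.d2_symm
      coer := h.coer
      ME_le := h.ME_le
      ME_pr := fun e x => (h.ME_pr e x).trans he'
      E0 := fun e c => (h.E0 e c).trans (mul_le_mul_of_nonneg_right he' (hsz c))
      E1 := fun e c x hx => (h.E1 e c x hx).trans ?_
      E2 := fun e c x hx y hy hxy => (h.E2 e c x hx y hy hxy).trans ?_
      cntE := h.cntE
      cntW := fun c x => (h.cntW c x).trans (mul_le_mul_of_nonneg_right hτ (hsz c))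
      sm := fun g => (hs.sm g).trans (mul_le_mul_of_nonneg_right hτ2
        (sum_nonneg fun x _ => div_nonneg (mul_nonneg (hmu x) (sq_nonneg _)) (hq x).le))
      lam_le := h.lam_le
      lam'_le := h.lam'_le
      Phi_le := h.Phi_le
      lamC_le := h.lamC_le
      PhiC_le := h.PhiC_le
      lamB_le := h.lamB_le
      PhiB_le := h.PhiB_le
      lamC_osc := fun e w => (h.lamC_osc e w).trans he2
      PhiC_osc := fun e w => (h.PhiC_osc e w).trans he'
      lamB_osc := fun w e => (h.lamB_osc w e).trans he2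
      PhiB_osc := fun w e => (h.PhiB_osc w e).trans he'
      V0 := fun c A f S hS a b => (hv.V0 c A f S hS a b).trans ?_
      V1 := fun c A f a => (hv.V1 c A f a).trans ?_
      AE_sub := fun e x a => ⟨mem_filter.2 ⟨mem_univ _, (o.gE e x (mem_filter.1 a).2).1⟩,
        (o.gE e x (mem_filter.1 a).2).2⟩
      AW_sub := fun w x a => ⟨mem_filter.2 ⟨mem_univ _, (o.gF w x (mem_filter.1 a).2).1⟩,
        (o.gF w x (mem_filter.1 a).2).2.1⟩
      MW_le := fun w a => (gw w (mem_filter.1 a).2).2.1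
      MW_pr := fun w a x => ((gw w (mem_filter.1 a).2).2.2 x).trans he'
      W0 := fun w a => le_trans (gw w (mem_filter.1 a).2).1 he
      W1 := fun w x a => le_trans (gf w x (mem_filter.1 a).2).1 ?_
      W2 := fun w x a => le_trans (gf w x (mem_filter.1 a).2).2 ?_
      lossEF := fun e x a => ?_
      lossWF := fun w x a => ?_
      lossE := fun e a => ?_
      lossW := fun w a => ?_
      loss := ?_ }
  · have := hmu x
    have := hsz c
    change eps * D.k * D.mu x * D.sz c ≤ δ * D.k * D.mu x * D.sz c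
    gcongr
  · have := hmu x
    have := hmu y
    have := hsz c
    change eps * D.k ^ 2 * D.mu x * D.mu y * D.sz c ≤ δ * D.k ^ 2 * D.mu x * D.mu y * D.sz c
    gcongr
  · have := D.nE_nonneg c
    have := nA_nonneg A
    change τ * S * (D.k * D.nE c + nA A) ≤ δ * S * (D.k * D.nE c + nA A)
    gcongr
  · have := D.nE_nonneg c
    have := nA_nonneg A
    have := D.nW_nonneg f
    change τ * D.k * D.nW f * (D.k * D.nE c + nA A) ≤ δ * D.k * D.nW f * (D.k * D.nE c + nA A)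
    gcongr
  · have := hmu x
    change 10 * eps * D.k * D.mu x ≤ δ * D.k * D.mu x
    gcongr
  · have := hmu x
    change 10 * eps * D.k ^ 2 * D.mu x ≤ δ * D.k ^ 2 * D.mu x
    gcongr
  · simp only [hal]
    have := o.lossE1 e x (mem_filter.1 a).2
    rw [sW_eq] at this
    exact (le_of_mul_le_mul_right this hW).trans
      (mul_le_mul_of_nonneg_right (show L ≤ δ ^ 2 by linarith) (hmu x))
  · simp only [hal]
    have := o.lossW1 w x (mem_filter.1 a).2
    rw [sE_eq] at this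
    exact (le_of_mul_le_mul_right this hG).trans
      (mul_le_mul_of_nonneg_right (show L ≤ δ ^ 2 by linarith) (hmu x))
  · simp only [hal]
    exact (lE e (mem_filter.1 a).2).trans (show 3 * L ≤ δ ^ 2 by linarith)
  · simp only [hal]
    have := o.lossW0 w (mem_filter.1 a).2
    rw [sE_eq] at this
    exact (le_of_mul_le_mul_right this hG).trans (show 3 * L ≤ δ ^ 2 by linarith)
  · simp only [hal]
    have h1 := o.cE
    rw [cnt_eq] at h1
    have h2 := le_of_mul_le_mul_right h1 hG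
    have h3 : ∀ (P : G → Prop), (∀ e, ¬ aE e → P e) →
        av (fun e => D.mE e fun w => ¬ (cld D eps).Al aE aW fE fW e w) ≤ 3 * L + 2 * fr P := by
      intro P hP
      rw [fr, ← av_mul, ← av_const (ι := G) (3 * L), ← av_add]
      refine av_le fun e => ?_
      by_cases a : aE e
      · refine (lE e a).trans (le_add_of_nonneg_right ?_)
        split_ifs <;> norm_num
      · rw [if_pos (hP e a)]
        linarith [mE_le h e fun w => ¬ (cld D eps).Al aE aW fE fW e w]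
    exact (h3 _ fun _ a => a).trans (show 3 * L + 2 * fr (fun e => ¬ aE e) ≤ δ ^ 2 by linarith)

end SCLN

open SCLN in
theorem stCLN : St_CLN := by
  intro K k eps he
  set u : ℝ := min 1 (eps ^ 5 / (600 * (32 * ((k : ℝ) + 1)) ^ 2)) with hu
  have hM : (0 : ℝ) < 600 * (32 * ((k : ℝ) + 1)) ^ 2 := by positivity
  have hu0 : 0 < u := lt_min one_pos (by positivity)
  refine ⟨eps * u ^ 4 / 4, by positivity, ?_⟩
  intro G W X C O O' _ _ _ _ _ _ _ _ D τ δ hK hk hτ h hs hv ha hm h1 h2 hg hk1 hδ hδ1 hδ2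
  subst hK hk
  obtain ⟨aE, aW, fE, fW, o⟩ := stCleanA G W X _ _ _ _ _ _ _
    (hyp h hs ha hm h1 h2 hg hτ hu0 (min_le_left _ _) rfl (by
      have := min_le_right 1 (eps ^ 5 / (600 * (32 * ((D.k : ℝ) + 1)) ^ 2))
      rwa [le_div_iff₀ hM, mul_comm] at this))
  have hk2 : (2 : ℝ) ≤ D.k := by exact_mod_cast h.k2
  have hK := h.K1
  have h3 : (D.k : ℝ) ^ 2 * eps ≤ D.K * D.k ^ 2 * eps := by
    have : 0 ≤ (D.k : ℝ) ^ 2 * eps := by positivity
    nlinarith
  have h4 : (D.k : ℝ) * eps ≤ D.k ^ 2 * eps := mul_le_mul_of_nonneg_right (by nlinarith) he.le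
  have h5 : eps ≤ D.k * eps := by nlinarith
  have h6 : δ ≤ 1 := by
    have : 1 ≤ 1000 * D.K * D.k := by nlinarith
    nlinarith
  refine ⟨_, _, _, _, ok h hs hv hk1 hδ hδ1 (by nlinarith) (by positivity) (by nlinarith) o, ?_⟩
  refine le_trans (le_of_eq ?_) o.cW
  rw [← filter_not, card_filter]
  push_cast
  exact sum_congr rfl fun w _ => CLD.ite_dec _ _ _ _

end Pool.Agent.Lib.BK2
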