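import Pool.Agent.Lib.BK2.SInt

/-! BK2, section S: from CORE back to the ambient data. -/

open Finset
open scoped Classical

set_option linter.unusedVariables false

noncomputable section

namespace Pool.Agent.Lib.BK2

namespace SFIN

theorem num {S X Y Y' K c1 eps k KS : ℝ} (hc : 0 < c1) (hk : 0 < k) (hS : 0 ≤ S) (hX : 0 ≤ X)
    (hY : 0 ≤ Y) (h1 : Y' ≤ 2 * Y) (h2 : c1 * X ≤ 3 * S + 3 * K ^ 2 * Y + eps * K ^ 2 * X)
    (h3 : eps * K ^ 2 ≤ c1 / 2) (h4 : S ≤ 2500 * K ^ 4 / k * (X + Y'))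
    (h5 : 30000 * K ^ 4 / c1 ≤ k) (h6 : 2500 * K ^ 4 * (12 * K ^ 2 / c1 + 4) ≤ KS) :
    S ≤ KS / k * Y := by
  have a1 : X ≤ 6 / c1 * (S + K ^ 2 * Y) := by
    rw [div_mul_eq_mul_div, le_div_iff₀ hc]
    nlinarith [mul_le_mul_of_nonneg_right h3 hX]
  have a2 : 0 ≤ 2500 * K ^ 4 / k := by positivity
  have a3 : 2500 * K ^ 4 / k * (6 / c1) ≤ 1 / 2 := by
    rw [div_le_iff₀ hc] at h5
    rw [div_mul_div_comm, div_le_iff₀ (mul_pos hk hc)]
    linarith
  have a4 := h4.trans (mul_le_mul_of_nonneg_left (add_le_add a1 h1) a2)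
  have a5 := mul_le_mul_of_nonneg_right a3 hS
  have a6 : 2500 * K ^ 4 / k * (12 * K ^ 2 / c1 + 4) * Y ≤ KS / k * Y := by
    rw [div_mul_eq_mul_div]
    exact mul_le_mul_of_nonneg_right (div_le_div_of_nonneg_right h6 hk.le) hY
  have e : 2500 * K ^ 4 / k * (6 / c1 * (S + K ^ 2 * Y) + 2 * Y) =
      2500 * K ^ 4 / k * (6 / c1) * S + 2500 * K ^ 4 / k * (12 * K ^ 2 / c1 + 4) * Y / 2 := by
    ring
  linarith

theorem cs {O : Type} [Fintype O] (u v : O → ℝ) {M : ℝ} (h : ∑ i, v i ^ 2 ≤ M) :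
    (∑ i, u i * v i) ^ 2 ≤ M * ∑ i, u i ^ 2 :=
  (sum_mul_sq_le_sq_mul_sq _ _ _).trans (by
    rw [mul_comm]
    exact mul_le_mul_of_nonneg_right h (sum_nonneg fun _ _ => sq_nonneg _))

/-- homogeneous solutions -/
def ker {G W O O' : Type} [Fintype O] [Fintype O'] (l : G → W → O → ℝ) (l' : W → G → O' → ℝ) :
    Submodule ℝ ((G → O → ℝ) × (W → O' → ℝ)) where
  carrier := {u | ∀ e w, ∑ j, u.1 e j * l e w j = ∑ j, u.2 w j * l' w e j}
  zero_mem' := fun e w => by simp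
  add_mem' := fun {a b} ha hb e w => by
    simp only [Prod.fst_add, Prod.snd_add, Pi.add_apply, add_mul, sum_add_distrib, ha e w, hb e w]
  smul_mem' := fun c a ha e w => by
    simp only [Prod.smul_fst, Prod.smul_snd, Pi.smul_apply, smul_eq_mul, mul_assoc, ← mul_sum,
      ha e w]

end SFIN

open SFIN Co in
theorem stSFIN (h : Co.St_CORE) : St_SFIN := by
  intro K c1 hc
  have p1 : 0 ≤ 2500 * K ^ 4 * (12 * K ^ 2 / c1 + 4) := by positivity
  have p2 : 0 ≤ 30000 * K ^ 4 / c1 := by positivity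
  have p3 : 0 ≤ 2 * K ^ 2 / c1 := by positivity
  refine ⟨2500 * K ^ 4 * (12 * K ^ 2 / c1 + 4) + 30000 * K ^ 4 / c1 + 2 * K ^ 2 / c1 + 2,
    by linarith, fun D eps del δ H hk s hs he Ga Wa AE AW hOk hWa => ?_⟩
  have : Nonempty ↥D.G := H.G_ne.to_subtype
  have : Nonempty ↥D.W := H.W_ne.to_subtype
  have hZ : ∀ (e : ↥D.G) (w : D.TW), D.om e w ≠ 0 → ∀ f : D.TX → ℝ,
      ∑ x ∈ (D.Z e w).subtype (· ∈ D.X), f x = ∑ x ∈ D.Z e w, f x := fun e w h0 f =>
    sum_subtype_of_mem f fun x hx => H.onW_sub w (H.Z_onW e e.2 w h0 hx)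
  choose u1 hu1 using fun e : ↥D.G => H.oneE e e.2
  choose u2 hu2 using fun w : ↥D.W => H.oneW w w.2
  choose u3 hu3 using fun e : ↥D.G => H.prodE e e.2
  choose u4 hu4 using fun w : ↥D.W => H.prodW w w.2
  obtain ⟨A, A', h1, h2⟩ := h _ _ _ _ _ _ _ hOk
    (ker (fun (e : ↥D.G) (w : ↥D.W) => D.lam e w) fun w e => D.lam' w e)
    ⟨⟨u1, fun e w => hu1 e w w.2⟩, ⟨u2, fun e w => hu2 w e e.2⟩,
      ⟨u3, fun e w h0 => (hu3 e w w.2 h0).trans (hZ e w h0 D.a).symm⟩,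
      ⟨u4, fun e w h0 => (hu4 w e e.2 h0).trans (hZ e w h0 D.a).symm⟩, fun u hu => hu,
      fun e x => s.c e x, fun w x => s.c' w x, fun e => s.C e, fun w => s.C' w, fun e w h0 => by
        have := hs e e.2 w w.2 h0
        rwa [SD.Sol.Res, ← hZ e w h0, ← hZ e w h0] at this⟩
  replace h1 : ∀ u ∈ ker (fun (e : ↥D.G) (w : ↥D.W) => D.lam e w) fun w e => D.lam' w e,
    ∑ w ∈ Wa, ∑ j, A' w j * u.2 w j = 0 := h1
  change ∑ e : ↥D.G, ∑ w ∈ Wa,
    (∑ j, A e j * D.lam e w j - ∑ j, A' w j * D.lam' w e j - D.Phi e w) ^ 2 ≤ 2500 * K ^ 4 / D.k *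
      (Fintype.card ↥D.W * ∑ e, ∑ j, A e j ^ 2 + Fintype.card ↥D.G * ∑ w ∈ Wa, ∑ j, A' w j ^ 2 +
        Fintype.card ↥D.G * Fintype.card ↥D.W) at h2
  have he0 := H.he
  have hcard : ((univ \ Wa).card : ℝ) + Wa.card = Fintype.card ↥D.W := by
    rw [← Nat.cast_add, card_sdiff_add_card_eq_card (subset_univ _), card_univ]
  refine ⟨Wa.map (Function.Embedding.subtype _), fun e => if he : e ∈ D.G then A ⟨e, he⟩ else 0,
    fun w => if hw : w ∈ D.W then A' ⟨w, hw⟩ else 0, fun w hw => ?_, ?_, fun B B' hB => ?_, ?_⟩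
  · obtain ⟨w, -, rfl⟩ := mem_map.1 hw
    exact w.2
  · have : D.W \ Wa.map (Function.Embedding.subtype _) =
        (univ \ Wa).map (Function.Embedding.subtype _) := by
      rw [Finset.map_sdiff, univ_eq_attach, attach_map_val]
    rwa [this, card_map, ← Fintype.card_coe D.W]
  · rw [sum_map, ← h1 (fun e => B e, fun w => B' w) fun e w => hB e e.2 w w.2]
    exact sum_congr rfl fun w _ => by simp
  rw [← sum_coe_sort D.G, card_map, ← Fintype.card_coe D.G]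
  simp only [sum_map, Function.Embedding.coe_subtype, coe_mem, dif_pos, Subtype.coe_eta]
  have hQ : 0 ≤ ∑ w ∈ Wa, ∑ j, A' w j ^ 2 := by positivity
  have hg : (0 : ℝ) ≤ Fintype.card ↥D.G := Nat.cast_nonneg _
  have hn : (0 : ℝ) ≤ Fintype.card ↥D.W := Nat.cast_nonneg _
  have hn' : (Fintype.card ↥D.W : ℝ) ≤ 2 * Wa.card := by nlinarith [H.he1]
  rw [mul_assoc]
  rw [add_assoc] at h2
  refine num (eps := eps) hc (by linarith) (by positivity) (by positivity) (by positivity) ?_ ?_ ?_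
    h2 (by linarith) (by linarith)
  · nlinarith [mul_le_mul_of_nonneg_left hn' hg, mul_nonneg hg hQ]
  · have key : ∀ e : ↥D.G, c1 * (Fintype.card ↥D.W * ∑ j, A e j ^ 2) ≤
        3 * ∑ w ∈ Wa,
          (∑ j, A e j * D.lam e w j - ∑ j, A' w j * D.lam' w e j - D.Phi e w) ^ 2 +
        3 * K ^ 2 * (∑ w ∈ Wa, ∑ j, A' w j ^ 2 + Wa.card) +
        eps * K ^ 2 * (Fintype.card ↥D.W * ∑ j, A e j ^ 2) := by
      intro e
      have g1 := H.gram e e.2 (A e)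
      rw [← sum_coe_sort D.W, ← Fintype.card_coe D.W, ← sum_sdiff (subset_univ Wa)] at g1
      have g2 : ∑ w ∈ univ \ Wa, (∑ j, A e j * D.lam e w j) ^ 2 ≤
          ∑ _w ∈ univ \ Wa, K ^ 2 * ∑ j, A e j ^ 2 :=
        sum_le_sum fun w _ => cs _ _ (H.lam_le e e.2 w (H.W_sub w.2))
      have g3 : ∑ w ∈ Wa, (∑ j, A e j * D.lam e w j) ^ 2 ≤ ∑ w ∈ Wa,
          (3 * (∑ j, A e j * D.lam e w j - ∑ j, A' w j * D.lam' w e j - D.Phi e w) ^ 2 +
            3 * K ^ 2 * (∑ j, A' w j ^ 2 + 1)) := sum_le_sum fun w _ => by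
        have b1 := cs (A' w) _ (H.lam'_le w w.2 e e.2)
        have b2 : D.Phi e w ^ 2 ≤ K ^ 2 := sq_le_sq' (abs_le.1 (H.Phi_le e e.2 w w.2)).1
          (abs_le.1 (H.Phi_le e e.2 w w.2)).2
        generalize ∑ j, A e j * D.lam e w j = x, ∑ j, A' w j * D.lam' w e j = y,
          D.Phi e w = z at b1 b2 ⊢
        nlinarith [sq_nonneg (x - 2 * y - z), sq_nonneg (x - y - 2 * z), sq_nonneg (y - z)]
      rw [sum_const, nsmul_eq_mul] at g2
      rw [sum_add_distrib, ← mul_sum, ← mul_sum, sum_add_distrib, sum_const, nsmul_eq_mul,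
        mul_one] at g3
      have g4 := mul_le_mul_of_nonneg_right hWa
        (show 0 ≤ K ^ 2 * ∑ j, A e j ^ 2 by positivity)
      linarith
    have := sum_le_sum fun e (_ : e ∈ (univ : Finset ↥D.G)) => key e
    rw [sum_add_distrib, sum_add_distrib, ← mul_sum, ← mul_sum, ← mul_sum, ← mul_sum, ← mul_sum,
      ← mul_sum, sum_const, card_univ, nsmul_eq_mul] at this
    linarith
  · have : 2 * K ^ 2 / c1 * eps ≤ 1 := by nlinarith
    rw [div_mul_eq_mul_div, div_le_iff₀ hc] at this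
    linarith

end Pool.Agent.Lib.BK2
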