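import Pool.Agent.Lib.BK2.SInt
import Pool.Agent.Lib.BK2.CBas
import Pool.Agent.Lib.BK2.WM0

/-! BK2, section S: the gain step of the cleaning, on finite types. -/

open Finset
open scoped Classical

set_option linter.unusedVariables false
set_option linter.unusedSectionVars false

noncomputable section

namespace Pool.Agent.Lib.BK2

open Co

namespace GAIN

variable {G W X C O O' : Type} [Fintype G] [Fintype W] [Fintype X] [Fintype C] [Fintype O]
  [Fintype O'] {D : CD G W X C O O'} {eps τ : ℝ}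

theorem up1 (H : D.PreA eps τ) (e : G) (c : C) {x : X} (hx : x ∈ D.ME e) :
    D.NE e c (fun w => x ∈ D.Z e w) ≤ 2 * D.k * D.mu x * D.sz c := by
  have h1 := (abs_le.1 (H.E1 e c x hx)).2
  have h2 : 0 ≤ D.k * D.mu x * D.sz c :=
    mul_nonneg (mul_nonneg (Nat.cast_nonneg _) (H.mu_pos x).le) (D.sz_nonneg c)
  have h3 := mul_le_mul_of_nonneg_right (H.d1_hi x) h2
  have h4 := mul_le_mul_of_nonneg_right H.eps1 h2
  linarith

theorem up2 (H : D.PreA eps τ) (e : G) (c : C) {x y : X} (hx : x ∈ D.ME e) (hy : y ∈ D.ME e)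
    (hq : D.q x ≠ D.q y) :
    D.NE e c (fun w => x ∈ D.Z e w ∧ y ∈ D.Z e w) ≤
      2 * (D.k : ℝ) ^ 2 * D.mu x * D.sz c * D.mu y := by
  have h1 := (abs_le.1 (H.E2 e c x hx y hy hq)).2
  have hk : (2 : ℝ) ≤ D.k := by exact_mod_cast H.k2
  have h0 : 0 ≤ D.mu x * D.mu y * D.sz c :=
    mul_nonneg (mul_nonneg (H.mu_pos x).le (H.mu_pos y).le) (D.sz_nonneg c)
  have h2 : 0 ≤ (D.k : ℝ) ^ 2 * (D.mu x * D.mu y * D.sz c) := mul_nonneg (sq_nonneg _) h0
  have h5 : (D.k : ℝ) * (D.k - 1) * D.d2 x y ≤ 3 / 2 * (D.k : ℝ) ^ 2 := by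
    have a1 : 0 ≤ (D.k : ℝ) * (D.k - 1) := mul_nonneg (by linarith) (by linarith)
    have a2 := mul_le_mul_of_nonneg_left (H.d2_hi x y) a1
    nlinarith
  have h3 := mul_le_mul_of_nonneg_right h5 h0
  have h4 := mul_le_mul_of_nonneg_right H.eps1 h2
  linarith

/-- the cell sum of one curve -/
theorem cell_e (H : D.PreA eps τ) (x : X) (σ : G → X → Prop) (e : G)
    (h2 : x ∈ D.ME e → D.ms ((D.ME e).filter (σ e)) ≤ eps ∨ σ e x) (c : C) :
    D.NE e c (fun w => x ∈ D.Z e w ∧ ∃ y ∈ D.Z e w, σ e y) ≤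
      2 * D.k * D.mu x * D.sz c * (if x ∈ D.ME e ∧ σ e x then (1 : ℝ) else 0) +
      2 * (D.k : ℝ) ^ 2 * D.mu x * D.sz c * eps * (if x ∈ D.ME e then (1 : ℝ) else 0) := by
  have hm := H.mu_pos x
  have hs0 := D.sz_nonneg c
  have he := H.eps0
  by_cases hM : x ∈ D.ME e
  · by_cases hs : σ e x
    · rw [if_pos ⟨hM, hs⟩, if_pos hM]
      have h1 := up1 H e c hM
      have h3 : D.NE e c (fun w => x ∈ D.Z e w ∧ ∃ y ∈ D.Z e w, σ e y) ≤
          D.NE e c (fun w => x ∈ D.Z e w) := by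
        refine sum_le_sum fun v _ => ?_
        by_cases h : D.cell v = c ∧ x ∈ D.Z e v ∧ ∃ y ∈ D.Z e v, σ e y
        · rw [if_pos h, if_pos ⟨h.1, h.2.1⟩]
        · rw [if_neg h]
          split_ifs
          · exact H.om_nn e v
          · exact le_rfl
      have h4 : 0 ≤ 2 * (D.k : ℝ) ^ 2 * D.mu x * D.sz c * eps := by positivity
      linarith
    · rw [if_neg (fun h => hs h.2), if_pos hM, mul_zero, zero_add, mul_one]
      have h5 := (h2 hM).resolve_right hs
      obtain ⟨S, hS⟩ : ∃ S : Finset X, ∀ y, y ∈ S ↔ y ∈ D.ME e ∧ σ e y ∧ D.q x ≠ D.q y :=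
        ⟨(D.ME e).filter fun y => σ e y ∧ D.q x ≠ D.q y, fun y => mem_filter⟩
      have h3 : D.NE e c (fun w => x ∈ D.Z e w ∧ ∃ y ∈ D.Z e w, σ e y) ≤
          ∑ y ∈ S, D.NE e c (fun w => x ∈ D.Z e w ∧ y ∈ D.Z e w) := by
        unfold CD.NE
        rw [sum_comm]
        refine sum_le_sum fun v _ => ?_
        by_cases h : D.cell v = c ∧ x ∈ D.Z e v ∧ ∃ y ∈ D.Z e v, σ e y
        · rw [if_pos h]
          by_cases h0 : D.om e v = 0
          · rw [h0]
            simp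
          · obtain ⟨hc, hxZ, y, hy, hσ⟩ := h
            have hyS : y ∈ S := by
              refine (hS y).2 ⟨(H.hZ e v h0).1 hy, hσ, fun hp => hs ?_⟩
              rw [(H.hZ e v h0).2.2.2 x hxZ y hy hp]
              exact hσ
            refine le_trans ?_ (single_le_sum (fun z _ => ?_) hyS)
            · rw [if_pos ⟨hc, hxZ, hy⟩]
            · split_ifs
              · exact H.om_nn e v
              · exact le_rfl
        · rw [if_neg h]
          refine sum_nonneg fun z _ => ?_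
          split_ifs
          · exact H.om_nn e v
          · exact le_rfl
      have h6 : ∑ y ∈ S, D.NE e c (fun w => x ∈ D.Z e w ∧ y ∈ D.Z e w) ≤
          ∑ y ∈ S, 2 * (D.k : ℝ) ^ 2 * D.mu x * D.sz c * D.mu y :=
        sum_le_sum fun y hy => up2 H e c hM ((hS y).1 hy).1 ((hS y).1 hy).2.2
      rw [← mul_sum] at h6
      have h7 : ∑ y ∈ S, D.mu y ≤ eps := by
        refine le_trans (sum_le_sum_of_subset_of_nonneg ?_ ?_) h5
        · intro y hy
          exact mem_filter.2 ⟨((hS y).1 hy).1, ((hS y).1 hy).2.1⟩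
        · intro y _ _
          exact (H.mu_pos y).le
      have h8 := mul_le_mul_of_nonneg_left h7
        (by positivity : 0 ≤ 2 * (D.k : ℝ) ^ 2 * D.mu x * D.sz c)
      linarith
  · rw [if_neg (fun h => hM h.1), if_neg hM, mul_zero, mul_zero, add_zero]
    refine le_of_eq (sum_eq_zero fun v _ => ?_)
    split_ifs with h
    · by_contra h0
      exact hM ((H.hZ e v h0).1 h.2.1)
    · rfl

/-- the cell sum of the weights -/
theorem cell_sum (D : CD G W X C O O') (P : G → W → Prop) (c : C) :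
    ∑ v, (if D.cell v = c then D.mW v (fun e => P e v) else 0) =
      av fun e => D.NE e c (P e) := by
  unfold CD.NE
  rw [av_sum]
  refine sum_congr rfl fun v _ => ?_
  by_cases h : D.cell v = c
  · rw [if_pos h]
    refine congrArg av (funext fun e => ?_)
    by_cases h2 : P e v
    · rw [if_pos h2, if_pos ⟨h, h2⟩]
    · rw [if_neg h2, if_neg fun h3 => h2 h3.2]
  · rw [if_neg h]
    refine (av_zero (ι := G)).symm.trans (congrArg av (funext fun e => ?_))
    rw [if_neg fun h3 => h h3.1]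

theorem gain [Nonempty G] [Nonempty W] (H : D.PreA eps τ) (hV : D.VP τ) {t : ℝ}
    (ht : τ ^ 2 ≤ eps ^ 2 * t) : D.Gain eps t := by
  intro x σ h1 h2
  have hm := H.mu_pos x
  have hp : 0 < D.q x := lt_of_lt_of_le one_pos (H.q_one x)
  have hW : (0 : ℝ) < Fintype.card W := by exact_mod_cast Fintype.card_pos
  have hk : (2 : ℝ) ≤ D.k := by exact_mod_cast H.k2
  have hK := H.K1
  have he := H.eps0
  have hτ := H.τ0
  obtain ⟨T, hT⟩ : ∃ T : Finset W, ∀ w, w ∈ T ↔ x ∈ D.MW w :=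
    ⟨univ.filter fun w => x ∈ D.MW w, fun w => by simp⟩
  obtain ⟨N, hN⟩ : ∃ N : W → ℝ,
      ∀ w, N w = D.mW w (fun e => x ∈ D.Z e w ∧ ∃ y ∈ D.Z e w, σ e y) := ⟨_, fun _ => rfl⟩
  have hN0 : ∀ w, 0 ≤ N w := fun w => by
    rw [hN]
    refine av_nonneg fun e => ?_
    split_ifs
    · exact H.om_nn e w
    · exact le_rfl
  obtain ⟨r, hr⟩ : ∃ r : ℝ, r = av (fun e => if x ∈ D.ME e then (1 : ℝ) else 0) := ⟨_, rfl⟩
  have hr0 : 0 ≤ r := by
    rw [hr]
    exact av_nonneg fun e => by split_ifs <;> norm_num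
  have hrK : D.q x * r ≤ D.K := by rw [hr]; exact H.cntE x
  have hfr : fr (fun e => ({x} : Finset X) ⊆ D.ME e ∧ True) = r := by
    rw [hr]
    refine congrArg av (funext fun e => ?_)
    by_cases h : x ∈ D.ME e
    · rw [if_pos h, if_pos ⟨singleton_subset_iff.2 h, trivial⟩]
    · rw [if_neg h, if_neg fun h3 => h (singleton_subset_iff.1 h3.1)]
  -- variance
  have hv : ∑ w ∈ T, (N w - WM.cmean T D.cell N w) ^ 2 ≤
      τ ^ 2 * D.mu x ^ 2 * Fintype.card W * r := by
    refine WM.dv_core T D.cell N _ (by positivity) fun f hf hc => ?_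
    have hf0 : ∀ w, w ∉ T → f w = 0 := fun w hw => by
      by_contra h
      exact hw (hf w h)
    have h3 := hV {x} (by simp) (by simp) (fun e Y => x ∈ Y ∧ ∃ y ∈ Y, σ e y) (fun _ => True) f
      (fun e Y h => ⟨singleton_subset_iff.2 h.1, trivial⟩)
      (fun w hw => singleton_subset_iff.2 ((hT w).1 (hf w hw))) (fun c => by
        rw [← hc c]
        refine (sum_subset (fun w hw => ?_) fun w hw hw2 => hf0 w fun h => hw2 ?_).symm
        · exact mem_filter.2 ⟨mem_univ _, (mem_filter.1 hw).2⟩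
        · exact mem_filter.2 ⟨h, (mem_filter.1 hw).2⟩)
    rw [hfr, prod_singleton] at h3
    have e1 : ∑ w ∈ T, f w * N w = ∑ w, f w * N w :=
      sum_subset (subset_univ _) fun w _ hw => by rw [hf0 w hw, zero_mul]
    have e2 : ∑ w ∈ T, f w ^ 2 = ∑ w, f w ^ 2 :=
      sum_subset (subset_univ _) fun w _ hw => by rw [hf0 w hw]; norm_num
    rw [e1, e2]
    simp only [hN]
    exact h3
  -- cell means
  have hlow : ∀ w ∈ T, WM.cmean T D.cell N w ≤ 4 * (D.K * (D.k : ℝ) ^ 2 * eps * D.mu x) := by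
    intro w hw
    obtain ⟨s, hs⟩ : ∃ s, s = D.sz (D.cell w) := ⟨_, rfl⟩
    have hs0 : 0 ≤ s := hs ▸ D.sz_nonneg _
    have hnum : ∑ v ∈ T.filter (fun v => D.cell v = D.cell w), N v ≤
        2 * D.k * D.mu x * s * fr (fun e => x ∈ D.ME e ∧ σ e x) +
        2 * (D.k : ℝ) ^ 2 * D.mu x * s * eps * r := by
      have a1 : ∑ v ∈ T.filter (fun v => D.cell v = D.cell w), N v ≤
          ∑ v, (if D.cell v = D.cell w then N v else 0) := by
        rw [← sum_filter]
        exact sum_le_sum_of_subset_of_nonneg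
          (fun v hv => mem_filter.2 ⟨mem_univ _, (mem_filter.1 hv).2⟩) fun v _ _ => hN0 v
      refine a1.trans ?_
      simp only [hN]
      rw [cell_sum D (fun e v => x ∈ D.Z e v ∧ ∃ y ∈ D.Z e v, σ e y), hr, hs, fr, ← av_mul,
        ← av_mul, ← av_add]
      refine av_le fun e => (cell_e H x σ e (h2 e) (D.cell w)).trans (le_of_eq ?_)
      by_cases h : x ∈ D.ME e ∧ σ e x
      · rw [if_pos h, if_pos h]
      · rw [if_neg h, if_neg h]
    have hc := (abs_le.1 (H.cntW (D.cell w) x)).1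
    have hfe : D.szx (D.cell w) x = ((T.filter (fun v => D.cell v = D.cell w)).card : ℝ) := by
      unfold CD.szx
      refine congrArg Nat.cast (congrArg card ?_)
      ext v
      simp only [mem_filter, mem_univ, true_and, hT]
      exact and_comm
    rw [hfe, ← hs] at hc
    have hn0 : (0 : ℝ) < ((T.filter (fun v => D.cell v = D.cell w)).card : ℝ) := by
      have : 0 < (T.filter (fun v => D.cell v = D.cell w)).card :=
        card_pos.2 ⟨w, mem_filter.2 ⟨hw, rfl⟩⟩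
      exact_mod_cast this
    unfold WM.cmean
    rw [div_le_iff₀ hn0]
    generalize ((T.filter (fun v => D.cell v = D.cell w)).card : ℝ) = n at hc hn0 ⊢
    have hdel : τ ≤ 1 / 100 := H.τe.trans H.eps1
    have hsn : s ≤ 100 / 99 * (D.q x * n) := by
      have := mul_le_mul_of_nonneg_right hdel hs0
      linarith
    refine le_of_mul_le_mul_left ?_ hp
    have a1 := mul_le_mul_of_nonneg_left hnum hp.le
    have a2 := mul_le_mul_of_nonneg_left h1 (by positivity : 0 ≤ 2 * D.k * D.mu x * s)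
    have a3 := mul_le_mul_of_nonneg_left hrK
      (by positivity : 0 ≤ 2 * (D.k : ℝ) ^ 2 * D.mu x * s * eps)
    have a4 : 2 * (D.k : ℝ) ≤ D.K * (D.k : ℝ) ^ 2 := by nlinarith
    have a5 := mul_le_mul_of_nonneg_right a4 (by positivity : 0 ≤ eps * D.mu x * s)
    have a6 := mul_le_mul_of_nonneg_left hsn
      (by positivity : 0 ≤ D.K * (D.k : ℝ) ^ 2 * eps * D.mu x)
    have a7 : 0 ≤ D.K * (D.k : ℝ) ^ 2 * eps * D.mu x * (D.q x * n) := by positivity
    linarith
  -- Chebyshev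
  obtain ⟨θ, hθ⟩ : ∃ θ, θ = D.K * (D.k : ℝ) ^ 2 * eps * D.mu x := ⟨_, rfl⟩
  have hθ0 : 0 < θ := by rw [hθ]; positivity
  obtain ⟨b, hb⟩ : ∃ b, b = fr (fun w => x ∈ D.MW w ∧ 13 * D.K * D.k ^ 2 * eps * D.mu x <
    D.mW w (fun e => x ∈ D.Z e w ∧ ∃ y ∈ D.Z e w, σ e y)) := ⟨_, rfl⟩
  have hM : θ ^ 2 * (Fintype.card W * b) ≤ ∑ w ∈ T, (N w - WM.cmean T D.cell N w) ^ 2 := by
    rw [hb, fr, card_mul_av, mul_sum, ← univ_inter T, ← sum_ite_mem, univ_inter]
    refine sum_le_sum fun w _ => ?_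
    by_cases h : x ∈ D.MW w ∧ 13 * D.K * D.k ^ 2 * eps * D.mu x <
        D.mW w (fun e => x ∈ D.Z e w ∧ ∃ y ∈ D.Z e w, σ e y)
    · rw [if_pos h, if_pos ((hT w).2 h.1), mul_one]
      have a1 := hlow w ((hT w).2 h.1)
      have a2 := h.2
      rw [← hN] at a2
      exact pow_le_pow_left₀ hθ0.le (by linarith) 2
    · rw [if_neg h, mul_zero]
      split_ifs
      · exact sq_nonneg _
      · exact le_rfl
  rw [← hb]
  have b1 := mul_le_mul_of_nonneg_left (hM.trans hv) hp.le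
  have b2 := mul_le_mul_of_nonneg_left hrK
    (by positivity : 0 ≤ τ ^ 2 * D.mu x ^ 2 * Fintype.card W)
  have b3 := mul_le_mul_of_nonneg_right ht
    (by positivity : 0 ≤ D.mu x ^ 2 * Fintype.card W * D.K)
  have ht0 : 0 ≤ t := by
    by_contra h
    have := mul_pos (pow_pos he 2) (neg_pos.2 (not_le.1 h))
    have := sq_nonneg τ
    linarith
  have b4 : D.K ≤ (D.K * (D.k : ℝ) ^ 2) ^ 2 := by
    have c1 : (1 : ℝ) ≤ (D.k : ℝ) ^ 2 := by nlinarith
    have c2 : D.K ≤ D.K * (D.k : ℝ) ^ 2 := by nlinarith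
    nlinarith
  have b5 := mul_le_mul_of_nonneg_right b4
    (by positivity : 0 ≤ eps ^ 2 * t * D.mu x ^ 2 * Fintype.card W)
  refine le_of_mul_le_mul_right ?_ (by positivity : 0 < θ ^ 2 * Fintype.card W)
  have b6 : t * (θ ^ 2 * Fintype.card W) =
      (D.K * (D.k : ℝ) ^ 2) ^ 2 * (eps ^ 2 * t * D.mu x ^ 2 * Fintype.card W) := by
    rw [hθ]; ring
  linarith

theorem sml : Sml fun _ _ _ _ _ _ _ _ _ _ _ _ D eps t => D.Gain eps t := by
  intro K k b eps t he ht
  refine ⟨eps * √t, by positivity, ?_⟩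
  intro G W X C O O' _ _ _ _ _ _ _ _ D τ _ _ _ hτ H
  refine gain H.a H.vp ?_
  have h1 := pow_le_pow_left₀ H.a.τ0.le hτ 2
  rwa [mul_pow, Real.sq_sqrt ht.le] at h1

end GAIN

theorem stGAIN (hA : St_TA) (hS : St_TS) (hP : St_TP) (hV : St_TV) : St_GAIN :=
  SmlS.of hA hS hP hV GAIN.sml

end Pool.Agent.Lib.BK2
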