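import Pool.Agent.Lib.BK2.SBas

/-! The plain hypotheses restrict to the finite types. -/

open Finset
open scoped Classical

set_option linter.unusedVariables false

noncomputable section

namespace Pool.Agent.Lib.BK2

open Co SB

namespace TA

variable {D : SD} {K c1 eps del : ℝ}

theorem coer (H : D.Hyp K c1 eps del) (T : Finset ↥D.X) (f : ↥D.X → ℝ)
    (h0 : (D.toCD K).ms T ≤ 2) (h1 : ∑ x ∈ T, D.mu x * f x = 0)
    (h2 : ∑ x ∈ T, D.mu x * f x * D.a x = 0) :
    |∑ x ∈ T, ∑ y ∈ T, D.mu x * f x * (D.mu y * f y) * D.d2 x y| ≤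
      K / (D.k : ℝ) ^ 2 * ∑ x ∈ T, D.mu x * f x ^ 2 ∧
    |∑ x ∈ T, D.mu x * f x * D.d1 x| ≤ K / D.k * √(∑ x ∈ T, D.mu x * f x ^ 2) := by
  have := H.coer (up T) (up_sub T) (ext D.X f) (by rwa [ms_eq] at h0)
    (by rw [sum_up]; simpa using h1) (by rw [sum_up]; simpa using h2)
  simp only [sum_up, ext_coe] at this
  exact this

theorem szx_eq (c : ↥(D.W.image D.cell)) (x : ↥D.X) :
    (D.toCD K).szx c x = ((D.fib c).filter fun w => (x : D.TX) ∈ D.onW w).card := by
  rw [CD.szx, SD.fib, filter_filter,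
    ← card_filter_coe D.W fun w => D.cell w = c ∧ (x : D.TX) ∈ D.onW w]
  refine congrArg (fun S : Finset ↥D.W => (S.card : ℝ)) ?_
  ext w
  simp

theorem szx2_eq (c : ↥(D.W.image D.cell)) (x y : ↥D.X) (S : Finset ↥D.W)
    (hS : ∀ w, w ∈ S ↔ (D.toCD K).cell w = c ∧ x ∈ (D.toCD K).MW w ∧ y ∈ (D.toCD K).MW w) :
    (S.card : ℝ) =
      ((D.fib c).filter fun w => (x : D.TX) ∈ D.onW w ∧ (y : D.TX) ∈ D.onW w).card := by
  rw [SD.fib, filter_filter,
    ← card_filter_coe D.W fun w => D.cell w = c ∧ (x : D.TX) ∈ D.onW w ∧ (y : D.TX) ∈ D.onW w]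
  refine congrArg (fun S : Finset ↥D.W => (S.card : ℝ)) ?_
  ext w
  simp [hS]

theorem NE1 (e : ↥D.G) (c : ↥(D.W.image D.cell)) (x : ↥D.X) :
    (D.toCD K).NE e c (fun w => x ∈ (D.toCD K).Z e w) =
      ∑ w ∈ D.fib c with (x : D.TX) ∈ D.Z e w, D.om e w := by
  rw [← NE_eq D K e c fun w => (x : D.TX) ∈ D.Z e w]
  simp only [mem_Z]

theorem NE2 (e : ↥D.G) (c : ↥(D.W.image D.cell)) (x y : ↥D.X) :
    (D.toCD K).NE e c (fun w => x ∈ (D.toCD K).Z e w ∧ y ∈ (D.toCD K).Z e w) =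
      ∑ w ∈ D.fib c with (x : D.TX) ∈ D.Z e w ∧ (y : D.TX) ∈ D.Z e w, D.om e w := by
  rw [← NE_eq D K e c fun w => (x : D.TX) ∈ D.Z e w ∧ (y : D.TX) ∈ D.Z e w]
  simp only [mem_Z]

theorem cntE (H : D.Hyp K c1 eps del) (x : ↥D.X) :
    (D.p x : ℝ) * fr (fun e : ↥D.G => x ∈ (D.toCD K).ME e) ≤ K := by
  have hG : (0 : ℝ) < D.G.card := by exact_mod_cast H.G_ne.card_pos
  have h1 : fr (fun e : ↥D.G => x ∈ (D.toCD K).ME e) =
      ((D.G.filter fun e => (x : D.TX) ∈ D.Maj e).card : ℝ) / D.G.card := by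
    rw [← fr_coe]
    simp only [mem_ME]
  have h2 : ((D.G.filter fun e => (x : D.TX) ∈ D.Maj e).card : ℝ) ≤
      (D.G.filter fun e => (x : D.TX) ∈ D.onE e).card := by
    exact_mod_cast card_le_card fun e he =>
      mem_filter.2 ⟨(mem_filter.1 he).1, H.Maj_sub e (mem_filter.1 he).1 (mem_filter.1 he).2⟩
  rw [h1, ← mul_div_assoc, div_le_iff₀ hG]
  exact (mul_le_mul_of_nonneg_left h2 (Nat.cast_nonneg _)).trans (H.cntE x x.2)

theorem ms_le (H : D.Hyp K c1 eps del) (S : Finset ↥D.X) (T : Finset D.TX) (hT : T ⊆ D.X)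
    (h : ∀ x ∈ S, (x : D.TX) ∈ T) : (D.toCD K).ms S ≤ ∑ x ∈ T, D.mu x := by
  rw [ms_eq]
  exact sum_le_sum_of_subset_of_nonneg
    (fun x hx => h ⟨x, up_sub _ hx⟩ ((mem_up _ ⟨x, up_sub _ hx⟩).1 hx))
    fun x hx _ => (H.mu_pos x (hT hx)).le

end TA

theorem stTA : St_TA := by
  intro D K c1 eps del τ H h1 h2
  have hK := H.hK
  have sz0 : ∀ c, (0 : ℝ) ≤ (D.fib c).card := fun c => Nat.cast_nonneg _
  refine
    { K1 := H.hK
      k2 := H.hk
      eps0 := H.he
      eps1 := H.he1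
      τ0 := H.hd.trans_le h1
      τe := h2
      om_nn := fun e w => H.om_nn e e.2 w
      mu_pos := fun x => H.mu_pos x x.2
      q_one := fun x => by
        change (1 : ℝ) ≤ (D.p x : ℝ)
        exact_mod_cast H.p_pos x x.2
      hZ := fun e w h => ⟨fun x hx => (mem_ME D K e x).2 (H.Z_Maj e e.2 w h ((mem_Z D K e w x).1 hx)),
        fun x hx => (mem_MW D K w x).2 (H.Z_onW e e.2 w h ((mem_Z D K e w x).1 hx)),
        (card_sub (Z_sub H e.2 h)).trans (H.Z_card e e.2 w h),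
        fun x hx y hy hq => Subtype.ext (H.Z_inj e e.2 w h x ((mem_Z D K e w x).1 hx) y
          ((mem_Z D K e w y).1 hy) ((q_eq D K x y).1 hq))⟩
      d1_lo := fun x => (H.d1_mem x x.2).1
      d1_hi := fun x => (H.d1_mem x x.2).2
      d2_lo := fun x y => (H.d2_mem x x.2 y y.2).1
      d2_hi := fun x y => (H.d2_mem x x.2 y y.2).2
      d2_symm := fun x y => H.d2_symm x y
      coer := fun T f => TA.coer H T f
      prob := (sum_coe D.X D.mub).trans H.prob
      fibq := fun x => ?_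
      ME_le := fun e => ?_
      ME_pr := fun e x => ?_
      sz_pos := fun c => ?_
      E0 := fun e c => ?_
      E1 := fun e c x hx => ?_
      E2 := fun e c x hx y hy hq => ?_
      cntE := fun x => le_of_eq_of_le (congrArg (_ * ·) (congrArg av (funext fun e => by
        by_cases h : x ∈ (D.toCD K).ME e
        · rw [if_pos h, if_pos h]
        · rw [if_neg h, if_neg h]))) (TA.cntE H x)
      cntW := fun c x => ?_
      cntW2 := fun c x y hq => ?_
      lam_le := fun e w => H.lam_le e e.2 w (H.W_sub w.2)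
      lam'_le := fun w e => H.lam'_le w w.2 e e.2
      Phi_le := fun e w => H.Phi_le e e.2 w w.2
      lamC_le := fun e c => H.lam_le e e.2 _ (H.W_sub (rep_mem D c))
      PhiC_le := fun e c => H.Phi_le e e.2 _ (rep_mem D c)
      lamB_le := fun w t => ?_
      PhiB_le := fun w t => ?_
      lamC_osc := fun e w =>
        (H.oscW e e.2 w w.2 _ (rep_mem D _) (rep_cell D ((D.toCD K).cell w)).symm).1
      PhiC_osc := fun e w =>
        (H.oscW e e.2 w w.2 _ (rep_mem D _) (rep_cell D ((D.toCD K).cell w)).symm).2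
      lamB_osc := fun w e => ?_
      PhiB_osc := fun w e => ?_ }
  · refine le_trans (le_of_eq ?_) ((H.fibq (D.p x)).trans h1)
    rw [← sum_filter_coe D.X (fun y => D.p y = D.p x) D.mub]
    exact sum_congr (filter_congr fun y _ => q_eq D K y x) fun _ _ => rfl
  · exact (TA.ms_le H _ _ (H.onE_sub e) fun x hx =>
      H.Maj_sub e e.2 ((mem_ME D K e x).1 hx)).trans (H.muE e e.2)
  · refine (TA.ms_le H _ _ ((filter_subset _ _).trans (H.onE_sub e)) fun y hy => ?_).trans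
      (H.primeE e e.2 (D.p x))
    have h := mem_filter.1 hy
    exact mem_filter.2 ⟨H.Maj_sub e e.2 ((mem_ME D K e y).1 h.1), (q_eq D K y x).1 h.2⟩
  · rw [sz_eq]
    exact_mod_cast card_pos.2 ⟨D.rep c, mem_filter.2 ⟨rep_mem D c, rep_cell D c⟩⟩
  · have := H.emod0 e e.2 c
    rw [fib_eq H] at this
    rw [sz_eq, NE_eq D K e c fun _ => True, filter_true_of_mem fun _ _ => trivial]
    exact this
  · have := H.emod1 e e.2 c x ((mem_ME D K e x).1 hx)
    rw [fib_eq H] at this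
    rw [sz_eq, TA.NE1]
    exact this
  · have := H.emod2 e e.2 c x ((mem_ME D K e x).1 hx) y ((mem_ME D K e y).1 hy)
      fun h => hq ((q_eq D K x y).2 h)
    rw [fib_eq H] at this
    rw [sz_eq, TA.NE2]
    exact this
  · rw [sz_eq, TA.szx_eq]
    exact (H.cntW1 c x x.2).trans (mul_le_mul_of_nonneg_right h1 (sz0 _))
  · rw [sz_eq, TA.szx2_eq (K := K) c x y]
    · exact (H.cntW2 c x x.2 y y.2 fun h => hq ((q_eq D K x y).2 h)).trans
        (mul_le_mul_of_nonneg_right h1 (sz0 _))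
    · intro w
      simp only [mem_filter, mem_univ, true_and]
  · by_cases h : ∃ e ∈ D.G, D.ecell e = t
    · simp only [SD.toCD, dif_pos h]
      exact H.lam'_le w w.2 _ h.choose_spec.1
    · simp only [SD.toCD, dif_neg h]
      simp
      positivity
  · by_cases h : ∃ e ∈ D.G, D.ecell e = t
    · simp only [SD.toCD, dif_pos h]
      exact H.Phi_le _ h.choose_spec.1 w w.2
    · simp only [SD.toCD, dif_neg h]
      simp
      linarith
  · have h : ∃ e' ∈ D.G, D.ecell e' = D.ecell e := ⟨e, e.2, rfl⟩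
    simp only [SD.toCD, dif_pos h]
    exact (H.oscE w w.2 e e.2 _ h.choose_spec.1 h.choose_spec.2.symm).1
  · have h : ∃ e' ∈ D.G, D.ecell e' = D.ecell e := ⟨e, e.2, rfl⟩
    simp only [SD.toCD, dif_pos h]
    exact (H.oscE w w.2 e e.2 _ h.choose_spec.1 h.choose_spec.2.symm).2

end Pool.Agent.Lib.BK2
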