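import Pool.Agent.Lib.BK2.SInt

/-! BK2, section S, block TP: the variance bound for predicates. -/

open Finset
open scoped Classical

noncomputable section

namespace Pool.Agent.Lib.BK2

namespace STP

theorem up (hU : St_UP) {D : SD} {K c1 eps del : ℝ} (H : D.Hyp K c1 eps del) {e : D.TE}
    (he : e ∈ D.G) {S : Finset D.TX} (hS : S ⊆ D.Maj e) (h2 : S.card ≤ 2) :
    ∑ w ∈ D.Wp with S ⊆ D.Z e w, D.om e w ≤
      2 * K * D.k ^ 2 * (∏ x ∈ S, D.mu x) * D.W.card := by
  obtain ⟨u0, u1, u2, -⟩ := hU D K c1 eps del H e he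
  have hK := H.hK
  have hk : (2 : ℝ) ≤ D.k := by exact_mod_cast H.hk
  have hW : (0 : ℝ) ≤ D.W.card := Nat.cast_nonneg _
  obtain h | h | h : S.card = 0 ∨ S.card = 1 ∨ S.card = 2 := by omega
  · obtain rfl := card_eq_zero.1 h
    simp only [empty_subset, filter_true, prod_empty, mul_one]
    refine u0.trans (mul_le_mul_of_nonneg_right ?_ hW)
    exact le_mul_of_one_le_right (by linarith) (by nlinarith)
  · obtain ⟨x, rfl⟩ := card_eq_one.1 h
    have hx := hS (mem_singleton_self x)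
    have hm := (H.mu_pos x (H.onE_sub e (H.Maj_sub e he hx))).le
    simp only [singleton_subset_iff, prod_singleton]
    refine (u1 x hx).trans (mul_le_mul_of_nonneg_right (mul_le_mul_of_nonneg_right
      (mul_le_mul_of_nonneg_left (by nlinarith) (by linarith)) hm) hW)
  · obtain ⟨x, y, hxy, rfl⟩ := card_eq_two.1 h
    simp only [insert_subset_iff, singleton_subset_iff, prod_pair hxy]
    refine (u2 x (hS (by simp)) y (hS (by simp)) hxy).trans (le_of_eq (by ring))

end STP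

theorem stTP (hU : St_UP) : St_TP := by
  intro D K c1 eps del τ H hτ S hS2 hSq π A f hπ hf hc
  let ι : ↥D.X ↪ D.TX := Function.Embedding.subtype _
  let f' : D.TW → ℝ := fun w => if h : w ∈ D.W then f ⟨w, h⟩ else 0
  let φ : D.TE → Finset D.TX → (D.O → ℝ) → ℝ := fun e Y _ =>
    if h : e ∈ D.G then (if π ⟨e, h⟩ (Y.subtype (· ∈ D.X)) then 1 else 0) else 0
  have hf' : ∀ w : ↥D.W, f' w = f w := fun w => dif_pos w.2
  have hφ : ∀ (e : ↥D.G) Y l, φ e Y l = if π e (Y.subtype (· ∈ D.X)) then 1 else 0 :=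
    fun e Y l => dif_pos e.2
  have sub : ∀ Y : Finset D.TX, S.map ι ⊆ Y ↔ S ⊆ Y.subtype (· ∈ D.X) := fun Y =>
    ⟨fun h x hx => mem_subtype.2 (h (mem_map_of_mem ι hx)), fun h x hx => by
      obtain ⟨y, hy, rfl⟩ := mem_map.1 hx
      exact mem_subtype.1 (h hy)⟩
  have hSX : S.map ι ⊆ D.X := fun x hx => by
    obtain ⟨y, -, rfl⟩ := mem_map.1 hx
    exact y.2
  have hc2 : (S.map ι).card ≤ 2 := by rwa [card_map]
  have v := H.var (S.map ι) hSX hc2 (fun x hx y hy e => by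
      obtain ⟨x, hx', rfl⟩ := mem_map.1 hx
      obtain ⟨y, hy', rfl⟩ := mem_map.1 hy
      exact congrArg ι (hSq x hx' y hy' (congrArg (Nat.cast : ℕ → ℝ) e))) f' φ
    (fun w hw => by
      have h : w ∈ D.W := by_contra fun h => hw (dif_neg h)
      exact ⟨h, (sub _).2 (hf ⟨w, h⟩ (by rwa [← hf']))⟩)
    (fun c => by
      by_cases h : c ∈ D.W.image D.cell
      · rw [← hc ⟨c, h⟩, SD.fib, sum_filter, sum_filter, ← sum_coe_sort]
        refine sum_congr rfl fun w _ => ?_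
        rw [hf']
        by_cases h1 : D.cell w = c
        · rw [if_pos h1, if_pos (Subtype.ext h1)]
        · rw [if_neg h1, if_neg fun h2 => h1 (congrArg Subtype.val h2)]
      · refine sum_eq_zero fun w hw => (h ?_).elim
        obtain ⟨h1, rfl⟩ := mem_filter.1 hw
        exact mem_image_of_mem _ h1)
    (fun e Y l h0 => by
      have h : e ∈ D.G := by_contra fun h => h0 (dif_neg h)
      have h1 := hφ ⟨e, h⟩ Y l
      refine (sub _).2 (hπ ⟨e, h⟩ _ (by_contra fun h2 => h0 ?_)).1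
      rwa [if_neg h2] at h1)
  have hG : (0 : ℝ) < D.G.card := by exact_mod_cast H.G_ne.card_pos
  have hP : 0 ≤ ∏ x ∈ S.map ι, D.mu x := prod_nonneg fun x hx => (H.mu_pos x (hSX hx)).le
  have hF : 0 ≤ ∑ w ∈ D.W, f' w ^ 2 := sum_nonneg fun _ _ => sq_nonneg _
  have r : ∑ e ∈ D.G, ∑ w ∈ D.Wp, D.om e w * φ e (D.Z e w) (D.lam e w) ^ 2 ≤
      2 * K * D.k ^ 2 * (∏ x ∈ S.map ι, D.mu x) * D.W.card *
        (Co.fr (fun e => S ⊆ (D.toCD K).ME e ∧ A e) * D.G.card) := by
    rw [Co.fr, Co.av, Fintype.card_coe, div_mul_cancel₀ _ hG.ne', ← sum_coe_sort, mul_sum]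
    refine sum_le_sum fun e _ => ?_
    split_ifs with h
    · rw [mul_one]
      refine le_trans ?_ (STP.up hU H e.2 ((sub _).2 h.1) hc2)
      rw [sum_filter]
      refine sum_le_sum fun w _ => ?_
      rw [hφ _ _ (D.lam e w)]
      by_cases h1 : π e ((D.Z e w).subtype (· ∈ D.X))
      · rw [if_pos h1, if_pos ((sub _).2 (hπ _ _ h1).1), one_pow, mul_one]
      · rw [if_neg h1, zero_pow two_ne_zero, mul_zero]
        split_ifs
        exacts [H.om_nn _ e.2 w, le_rfl]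
    · refine le_of_eq ((sum_eq_zero fun w _ => ?_).trans (mul_zero _).symm)
      by_cases h0 : D.om e w = 0
      · rw [h0, zero_mul]
      · rw [hφ _ _ (D.lam e w), if_neg fun h1 => h ⟨(sub _).1 (((sub _).2 (hπ _ _ h1).1).trans
          (H.Z_Maj _ e.2 w h0)), (hπ _ _ h1).2⟩, zero_pow two_ne_zero, mul_zero]
  have l : ∑ w, f w * (D.toCD K).mW w (fun e => π e ((D.toCD K).Z e w)) =
      (∑ e ∈ D.G, ∑ w ∈ D.W, f' w * (D.om e w * φ e (D.Z e w) (D.lam e w))) / D.G.card := by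
    rw [sum_comm, ← sum_coe_sort D.W, sum_div]
    refine sum_congr rfl fun w _ => ?_
    rw [← mul_sum, ← sum_coe_sort D.G, hf', mul_div_assoc, Co.CD.mW, Co.av, Fintype.card_coe]
    refine congrArg (fun t => f w * (t / _)) (sum_congr rfl fun e _ => ?_)
    rw [hφ _ _ (D.lam e w), mul_ite, mul_one, mul_zero]
    rfl
  have e1 : ∏ x ∈ S, (D.toCD K).mu x = ∏ x ∈ S.map ι, D.mu x := (prod_map S ι D.mu).symm
  have e2 : ∑ w, f w ^ 2 = ∑ w ∈ D.W, f' w ^ 2 := by
    rw [← sum_coe_sort D.W]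
    exact sum_congr rfl fun w _ => by rw [hf']
  rw [l, e1, e2, Fintype.card_coe, div_pow, div_le_iff₀ (pow_pos hG 2)]
  have hN : 0 ≤ Co.fr (fun e => S ⊆ (D.toCD K).ME e ∧ A e) :=
    div_nonneg (sum_nonneg fun _ _ => by split_ifs <;> norm_num) (Nat.cast_nonneg _)
  have hd := H.hd
  generalize Co.fr (fun e => S ⊆ (D.toCD K).ME e ∧ A e) = N at r hN ⊢
  generalize (∏ x ∈ S.map ι, D.mu x) = P at v r hP ⊢
  generalize (∑ w ∈ D.W, f' w ^ 2) = F at v hF ⊢
  refine (v.trans (mul_le_mul_of_nonneg_left r (by positivity))).trans ?_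
  have : del * D.G.card * P * F * (2 * K * D.k ^ 2 * P * D.W.card * (N * D.G.card)) =
      (2 * K * D.k ^ 2 * del) * (P ^ 2 * D.W.card * N * F * D.G.card ^ 2) := by ring
  rw [this]
  exact (mul_le_mul_of_nonneg_right hτ (by positivity)).trans (le_of_eq (by ring))

end Pool.Agent.Lib.BK2
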