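import Pool.Agent.Lib.BK2.SInt

/-! BK2, section S: second moments with the majority points. -/

open Finset
open scoped Classical

noncomputable section

namespace Pool.Agent.Lib.BK2

open Co

namespace STS

variable {D : SD} {K c1 eps del : ℝ}

theorem loc (H : D.Hyp K c1 eps del) (g : D.TX → ℝ) (m : ℝ) {e : D.TE} (he : e ∈ D.G) :
    (∑ x ∈ D.Maj e, g x * D.mu x - m) ^ 2 ≤ 2 * (∑ x ∈ D.onE e, g x * D.mu x - m) ^ 2 +
      2 * del * ∑ x ∈ D.onE e, g x ^ 2 * D.mu x := by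
  have mu0 : ∀ x ∈ D.onE e, 0 ≤ D.mu x := fun x hx => (H.mu_pos x (H.onE_sub e hx)).le
  have h1 := sum_sdiff (f := fun x => g x * D.mu x) (H.Maj_sub e he)
  have h2 : (∑ x ∈ D.onE e \ D.Maj e, g x * D.mu x) ^ 2 ≤
      (∑ x ∈ D.onE e \ D.Maj e, D.mu x) * ∑ x ∈ D.onE e \ D.Maj e, g x ^ 2 * D.mu x :=
    sum_sq_le_sum_mul_sum_of_sq_le_mul _ (fun x hx => mu0 x (mem_sdiff.1 hx).1)
      (fun x hx => mul_nonneg (sq_nonneg _) (mu0 x (mem_sdiff.1 hx).1))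
      fun x _ => le_of_eq (by ring)
  have h3 : ∑ x ∈ D.onE e \ D.Maj e, g x ^ 2 * D.mu x ≤ ∑ x ∈ D.onE e, g x ^ 2 * D.mu x :=
    sum_le_sum_of_subset_of_nonneg sdiff_subset fun x hx _ => mul_nonneg (sq_nonneg _) (mu0 x hx)
  have h4 := h2.trans (mul_le_mul (H.muMaj e he) h3
    (sum_nonneg fun x hx => mul_nonneg (sq_nonneg _) (mu0 x (mem_sdiff.1 hx).1)) H.hd.le)
  rw [← h1]
  nlinarith [sq_nonneg (∑ x ∈ D.Maj e, g x * D.mu x - m +
    2 * ∑ x ∈ D.onE e \ D.Maj e, g x * D.mu x)]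

theorem glob (H : D.Hyp K c1 eps del) (g : D.TX → ℝ) (m r : ℝ) (hr : 0 ≤ r) (P : D.TE → Prop)
    [DecidablePred P] [∀ x, DecidablePred fun e => P e ∧ x ∈ D.onE e]
    (h1 : r * ∑ e ∈ D.G with P e, (∑ x ∈ D.onE e, g x * D.mu x - m) ^ 2 ≤
      del * D.G.card * ∑ x ∈ D.X, g x ^ 2 * D.mub x)
    (h2 : ∀ x ∈ D.X, g x ≠ 0 →
      r * D.p x * (D.G.filter fun e => P e ∧ x ∈ D.onE e).card ≤ K * D.G.card) :
    r * ∑ e ∈ D.G with P e, (∑ x ∈ D.Maj e, g x * D.mu x - m) ^ 2 ≤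
      4 * K * del * D.G.card * ∑ x ∈ D.X, g x ^ 2 * D.mub x := by
  have p0 : ∀ x ∈ D.X, (0 : ℝ) < D.p x := fun x hx => by exact_mod_cast H.p_pos x hx
  have n0 : ∀ x ∈ D.X, 0 ≤ g x ^ 2 * D.mub x := fun x hx =>
    mul_nonneg (sq_nonneg _) (div_nonneg (H.mu_pos x hx).le (p0 x hx).le)
  have h3 : r * ∑ e ∈ D.G with P e, ∑ x ∈ D.onE e, g x ^ 2 * D.mu x ≤
      K * D.G.card * ∑ x ∈ D.X, g x ^ 2 * D.mub x := by
    rw [sum_comm' (t' := D.X) (s' := fun x => D.G.filter fun e => P e ∧ x ∈ D.onE e)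
      fun e x => ?_, mul_sum, mul_sum]
    · refine sum_le_sum fun x hx => ?_
      rw [sum_const, nsmul_eq_mul]
      by_cases hg : g x = 0
      · simp [hg]
      · refine le_of_eq_of_le ?_ (mul_le_mul_of_nonneg_right (h2 x hx hg) (n0 x hx))
        have := (p0 x hx).ne'
        rw [SD.mub]
        field_simp
    · simp only [mem_filter]
      exact ⟨fun h => ⟨⟨h.1.1, h.1.2, h.2⟩, H.onE_sub e h.2⟩, fun h => ⟨⟨h.1.1, h.1.2.1⟩, h.1.2.2⟩⟩
  have h4 := mul_le_mul_of_nonneg_left (sum_le_sum (s := D.G.filter P) fun e he =>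
    loc H g m (mem_filter.1 he).1) hr
  rw [sum_add_distrib, ← mul_sum, ← mul_sum] at h4
  have h5 := mul_le_mul_of_nonneg_left h3 H.hd.le
  have h6 : 0 ≤ (K - 1) * (del * D.G.card * ∑ x ∈ D.X, g x ^ 2 * D.mub x) :=
    mul_nonneg (sub_nonneg.2 H.hK) (mul_nonneg (mul_nonneg H.hd.le (Nat.cast_nonneg _))
      (sum_nonneg n0))
  nlinarith

/-- extension by zero -/
def ex (g : ↥D.X → ℝ) (x : D.TX) : ℝ := if h : x ∈ D.X then g ⟨x, h⟩ else 0

theorem ex_coe (g : ↥D.X → ℝ) (x : ↥D.X) : ex g x = g x := dif_pos x.2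

theorem s1 (g : ↥D.X → ℝ) {S : Finset D.TX} (hS : S ⊆ D.X) :
    ∑ x ∈ S.subtype (· ∈ D.X), D.mu x * g x = ∑ x ∈ S, ex g x * D.mu x := by
  rw [← sum_subtype_of_mem (fun x => ex g x * D.mu x) hS]
  exact sum_congr rfl fun x _ => by rw [ex_coe, mul_comm]

theorem s2 (g : ↥D.X → ℝ) :
    ∑ x : ↥D.X, D.mu x * g x / D.p x = ∑ x ∈ D.X, ex g x * D.mub x := by
  rw [← sum_coe_sort D.X]
  exact sum_congr rfl fun x _ => by rw [ex_coe, SD.mub]; ring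

theorem s3 (g : ↥D.X → ℝ) :
    ∑ x : ↥D.X, D.mu x * g x ^ 2 / D.p x = ∑ x ∈ D.X, ex g x ^ 2 * D.mub x := by
  rw [← sum_coe_sort D.X]
  exact sum_congr rfl fun x _ => by rw [ex_coe, SD.mub]; ring

theorem fin {ι : Type} {S : Finset ι} (hS : S.Nonempty) (f : ↥S → ℝ) {r c τ N : ℝ} (hN : 0 ≤ N)
    (hc : c ≤ τ ^ 2) (h : r * ∑ i, f i ≤ c * S.card * N) : r * av f ≤ τ ^ 2 * N := by
  have h0 : (0 : ℝ) < S.card := by exact_mod_cast hS.card_pos
  rw [av, Fintype.card_coe, ← mul_div_assoc, div_le_iff₀ h0]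
  nlinarith [mul_nonneg (sub_nonneg.2 hc) (mul_nonneg h0.le hN)]

end STS

open STS in
theorem stTS : St_TS := by
  intro D K c1 eps del τ H hτ
  have hM : ∀ e : ↥D.G, D.Maj e ⊆ D.X := fun e => (H.Maj_sub e e.2).trans (H.onE_sub e)
  have hN : ∀ g : D.TX → ℝ, 0 ≤ ∑ x ∈ D.X, g x ^ 2 * D.mub x := fun g => sum_nonneg fun x hx =>
    mul_nonneg (sq_nonneg _) (div_nonneg (H.mu_pos x hx).le (Nat.cast_nonneg _))
  refine ⟨fun g => ?_, fun x0 g hg => ?_, fun g => ?_⟩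
  · simp only [SD.toCD, s1 g (hM _), s2 g, s3 g]
    rw [← one_mul (av _)]
    refine fin H.G_ne _ (hN _) hτ ?_
    rw [sum_coe_sort D.G fun e => (∑ x ∈ D.Maj e, ex g x * D.mu x - _) ^ 2]
    simpa using glob H (ex g) _ 1 zero_le_one (fun _ => True) (by simpa using H.smE (ex g))
      fun x hx _ => by simpa using H.cntE x hx
  · have hg' : ∀ x, D.p x = D.p x0 → ex g x = 0 := fun x hx => by
      by_cases h : x ∈ D.X
      · exact (ex_coe g ⟨x, h⟩).trans (hg _ (congrArg Nat.cast hx))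
      · exact dif_neg h
    simp only [SD.toCD, s1 g (hM _), s2 g, s3 g, mem_subtype]
    refine fin H.G_ne _ (hN _) hτ (le_trans ?_ (glob H (ex g) _ (D.p x0) (Nat.cast_nonneg _)
      (fun e => x0.1 ∈ D.onE e) (H.smEx x0 x0.2 _ hg')
      fun x hx h => H.cntE2 x0 x0.2 x hx fun e => h (hg' x e.symm)))
    refine mul_le_mul_of_nonneg_left ?_ (Nat.cast_nonneg _)
    rw [sum_filter, ← sum_coe_sort D.G]
    refine sum_le_sum fun e _ => ?_
    by_cases h : x0.1 ∈ D.Maj e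
    · rw [if_pos h, if_pos (H.Maj_sub e e.2 h)]
    · rw [if_neg h]
      positivity
  · simp only [SD.toCD, s1 g (H.onW_sub _), s2 g, s3 g]
    rw [← one_mul (av _)]
    refine fin H.W_ne _ (c := del) (hN _) (by nlinarith [H.hK, H.hd]) ?_
    rw [sum_coe_sort D.W fun e => (∑ x ∈ D.onW e, ex g x * D.mu x - _) ^ 2, one_mul]
    exact H.smW _

end Pool.Agent.Lib.BK2
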