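import Pool.Agent.Lib.BK2.SBas

/-! BK2, section S: the two variance bounds used by CORE, for the restricted data. -/

open Finset
open scoped Classical

set_option linter.unusedVariables false

noncomputable section

namespace Pool.Agent.Lib.BK2

namespace STV

open Co SB

variable {D : SD} {K c1 eps del : ℝ}

/-- the value of the `e`-side of a relation -/
def R (c : D.TE → D.TX → ℝ) (A : D.TE → D.O → ℝ) (e : D.TE) (Y : Finset D.TX) (l : D.O → ℝ) : ℝ :=
  ∑ x ∈ Y, c e x + ∑ i, A e i * l i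

/-- its second moment over the large window -/
def Q (c : D.TE → D.TX → ℝ) (A : D.TE → D.O → ℝ) : ℝ :=
  ∑ e ∈ D.G, ∑ w ∈ D.Wp, D.om e w * R c A e (D.Z e w) (D.lam e w) ^ 2

theorem Q_le (hU : St_UP) (H : D.Hyp K c1 eps del) (c : D.TE → D.TX → ℝ)
    (A : D.TE → D.O → ℝ) : Q c A ≤ 4 * K ^ 3 * D.W.card *
      (D.k ^ 2 * ∑ e ∈ D.G, ∑ x ∈ D.Maj e, D.mu x * c e x ^ 2 + ∑ e ∈ D.G, ∑ i, A e i ^ 2) := by
  rw [mul_sum, ← sum_add_distrib, mul_sum]
  exact sum_le_sum fun e he => (hU D K c1 eps del H e he).2.2.2 (c e) (A e)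

theorem amb0 (H : D.Hyp K c1 eps del) (c : D.TE → D.TX → ℝ) (A : D.TE → D.O → ℝ)
    (f : Fin D.b → D.TW → ℝ) (B : ℝ) (h1 : ∀ t w, f t w ≠ 0 → w ∈ D.W)
    (h2 : ∀ t c0, ∑ w ∈ D.fib c0, f t w = 0) (h3 : ∀ t, ∑ w ∈ D.W, f t w ^ 2 ≤ B) :
    (∑ e ∈ D.G, ∑ w ∈ D.W, D.om e w * (f (D.ecell e) w * R c A e (D.Z e w) (D.lam e w))) ^ 2 ≤
      D.b * (del * D.G.card * B * Q c A) := by
  set φ : Fin D.b → D.TE → Finset D.TX → (D.O → ℝ) → ℝ :=
    fun t e Y l => if D.ecell e = t then R c A e Y l else 0 with hφ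
  have e1 : ∑ e ∈ D.G, ∑ w ∈ D.W, D.om e w * (f (D.ecell e) w * R c A e (D.Z e w) (D.lam e w)) =
      ∑ t, ∑ e ∈ D.G, ∑ w ∈ D.W, f t w * (D.om e w * φ t e (D.Z e w) (D.lam e w)) := by
    rw [sum_comm (s := univ)]
    refine sum_congr rfl fun e _ => ?_
    rw [sum_comm (s := univ)]
    refine sum_congr rfl fun w _ => ?_
    rw [sum_eq_single (D.ecell e)]
    · simp only [hφ, if_true]; ring
    · intro t _ ht
      simp only [hφ, if_neg ht.symm, mul_zero]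
    · simp
  have e2 : Q c A = ∑ t, ∑ e ∈ D.G, ∑ w ∈ D.Wp, D.om e w * φ t e (D.Z e w) (D.lam e w) ^ 2 := by
    rw [Q, sum_comm (s := univ)]
    refine sum_congr rfl fun e _ => ?_
    rw [sum_comm (s := univ)]
    refine sum_congr rfl fun w _ => ?_
    rw [sum_eq_single (D.ecell e)]
    · simp only [hφ, if_true]
    · intro t _ ht
      simp [hφ, if_neg ht.symm]
    · simp
  rw [e1, e2, mul_sum]
  refine sq_sum_le_card_mul_sum_sq.trans ?_
  rw [card_univ, Fintype.card_fin]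
  refine mul_le_mul_of_nonneg_left (sum_le_sum fun t _ => ?_) (Nat.cast_nonneg _)
  have hv := H.var ∅ (empty_subset _) (by simp) (by simp) (f t) (φ t)
    (fun w hw => ⟨h1 t w hw, empty_subset _⟩) (h2 t) (fun _ _ _ _ => empty_subset _)
  rw [prod_empty, mul_one] at hv
  refine hv.trans (mul_le_mul_of_nonneg_right (mul_le_mul_of_nonneg_left (h3 t) ?_) ?_)
  · exact mul_nonneg H.hd.le (Nat.cast_nonneg _)
  · exact sum_nonneg fun e he => sum_nonneg fun w _ => mul_nonneg (H.om_nn e he w) (sq_nonneg _)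

theorem amb1 (H : D.Hyp K c1 eps del) (c : D.TE → D.TX → ℝ) (A : D.TE → D.O → ℝ)
    (f : D.TW → D.TX → ℝ)
    (h2 : ∀ x ∈ D.X, ∀ c0, ∑ w ∈ D.fib c0, (if x ∈ D.onW w then f w x else 0) = 0) :
    (∑ e ∈ D.G, ∑ w ∈ D.W,
      D.om e w * ((∑ x ∈ D.Z e w, f w x) * R c A e (D.Z e w) (D.lam e w))) ^ 2 ≤
      (del * D.G.card * ∑ w ∈ D.W, ∑ x ∈ D.onW w, D.mu x * f w x ^ 2) * (D.k * Q c A) := by
  set φ : D.TX → D.TE → Finset D.TX → (D.O → ℝ) → ℝ :=
    fun x e Y l => if x ∈ Y then R c A e Y l else 0 with hφ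
  set g : D.TX → D.TW → ℝ := fun x w => if w ∈ D.W ∧ x ∈ D.onW w then f w x else 0 with hg
  have e1 : ∑ e ∈ D.G, ∑ w ∈ D.W,
      D.om e w * ((∑ x ∈ D.Z e w, f w x) * R c A e (D.Z e w) (D.lam e w)) =
      ∑ x ∈ D.X, ∑ e ∈ D.G, ∑ w ∈ D.W, g x w * (D.om e w * φ x e (D.Z e w) (D.lam e w)) := by
    rw [sum_comm (s := D.X)]
    refine sum_congr rfl fun e he => ?_
    rw [sum_comm (s := D.X)]
    refine sum_congr rfl fun w hw => ?_
    by_cases h0 : D.om e w = 0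
    · simp [h0]
    rw [← sum_subset (Z_sub H he h0), sum_mul, mul_sum]
    · refine sum_congr rfl fun x hx => ?_
      simp only [hφ, hg, if_pos hx, if_pos (And.intro hw (H.Z_onW e he w h0 hx))]
      ring
    · intro x _ hx
      simp only [hφ, if_neg hx, mul_zero]
  have e2 : D.k * Q c A =
      ∑ x ∈ D.X, ∑ e ∈ D.G, ∑ w ∈ D.Wp, D.om e w * φ x e (D.Z e w) (D.lam e w) ^ 2 := by
    rw [Q, sum_comm (s := D.X), mul_sum]
    refine sum_congr rfl fun e he => ?_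
    rw [sum_comm (s := D.X), mul_sum]
    refine sum_congr rfl fun w hw => ?_
    by_cases h0 : D.om e w = 0
    · simp [h0]
    rw [← sum_subset (Z_sub H he h0), ← H.Z_card e he w h0, ← nsmul_eq_mul, ← sum_const]
    · refine sum_congr rfl fun x hx => ?_
      simp only [hφ, if_pos hx]
    · intro x _ hx
      simp [hφ, if_neg hx]
  have e3 : ∑ w ∈ D.W, ∑ x ∈ D.onW w, D.mu x * f w x ^ 2 =
      ∑ x ∈ D.X, D.mu x * ∑ w ∈ D.W, g x w ^ 2 := by
    simp only [mul_sum]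
    rw [sum_comm (s := D.X)]
    refine sum_congr rfl fun w hw => ?_
    rw [← sum_subset (H.onW_sub w)]
    · refine sum_congr rfl fun x hx => ?_
      simp only [hg, if_pos (And.intro hw hx)]
    · intro x _ hx
      have : ¬ (w ∈ D.W ∧ x ∈ D.onW w) := fun h => hx h.2
      simp [hg, if_neg this]
  have hdG : 0 ≤ del * D.G.card := mul_nonneg H.hd.le (Nat.cast_nonneg _)
  rw [e1, e2, e3, mul_sum D.X _ (del * D.G.card)]
  refine sum_sq_le_sum_mul_sum_of_sq_le_mul (R := ℝ) _ (fun x hx => ?_) (fun x hx => ?_)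
    fun x hx => ?_
  · exact mul_nonneg hdG (mul_nonneg (H.mu_pos x hx).le (sum_nonneg fun _ _ => sq_nonneg _))
  · exact sum_nonneg fun e he => sum_nonneg fun w _ => mul_nonneg (H.om_nn e he w) (sq_nonneg _)
  have hv := H.var {x} (singleton_subset_iff.2 hx) (by simp) (by simp) (g x) (φ x)
    (fun w hw => ?_) (fun c0 => ?_) (fun e Y l h => ?_)
  · rw [prod_singleton] at hv
    refine hv.trans (le_of_eq ?_)
    ring
  · by_contra h
    exact hw (if_neg fun h' => h ⟨h'.1, singleton_subset_iff.2 h'.2⟩)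
  · refine Eq.trans (sum_congr rfl fun w hw => ?_) (h2 x hx c0)
    have : w ∈ D.W := (mem_filter.1 hw).1
    simp only [hg, this, true_and]
  · by_contra h'
    exact h (if_neg fun h'' => h' (singleton_subset_iff.2 h''))

theorem fin {T a k u v : ℝ} (ha : 0 ≤ a) (hk : 0 ≤ k) (hu : 0 ≤ u) (hv : 0 ≤ v)
    (h : T ^ 2 ≤ a ^ 2 * (k ^ 2 * u + v)) : |T| ≤ a * (k * √u + √v) := by
  refine abs_le_of_sq_le_sq (h.trans ?_) (by positivity)
  rw [mul_pow]
  refine mul_le_mul_of_nonneg_left ?_ (sq_nonneg _)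
  have h1 := Real.sq_sqrt hu
  have h2 := Real.sq_sqrt hv
  have h3 : 0 ≤ k * √u * √v := by positivity
  calc k ^ 2 * u + v = k ^ 2 * √u ^ 2 + √v ^ 2 := by rw [h1, h2]
    _ ≤ _ := by nlinarith

theorem ip_eq (F F' : ↥D.G → ↥D.W → ℝ) (g : D.TE → D.TW → ℝ)
    (h : ∀ (e : ↥D.G) (w : ↥D.W), D.om e w ≠ 0 → F e w * F' e w = g e w) :
    (D.toCD K).ip F F' = (∑ e ∈ D.G, ∑ w ∈ D.W, D.om e w * g e w) / (D.G.card * D.W.card) := by
  have e1 : ∀ e : ↥D.G, av (fun w : ↥D.W => (D.toCD K).om e w * (F e w * F' e w)) =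
      (∑ w ∈ D.W, D.om e w * g e w) / D.W.card := fun e => by
    rw [← av_coe D.W fun w => D.om e w * g e w]
    refine congrArg av (funext fun w => ?_)
    change D.om e w * _ = _
    by_cases h0 : D.om e w = 0
    · simp [h0]
    · rw [h e w h0]
  rw [CD.ip]
  simp only [e1]
  rw [av_coe D.G fun e => (∑ w ∈ D.W, D.om e w * g e w) / D.W.card, ← sum_div, div_div, mul_comm]

/-- extension of the coefficients -/
def xc (c : ↥D.G → ↥D.X → ℝ) : D.TE → D.TX → ℝ := ext D.G fun e => ext D.X (c e)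

theorem R_eq (H : D.Hyp K c1 eps del) (c : ↥D.G → ↥D.X → ℝ) (A : ↥D.G → D.O → ℝ) (e : ↥D.G)
    (w : ↥D.W) (h : D.om e w ≠ 0) : (D.toCD K).Af c e w + (D.toCD K).alp A e w =
      R (xc c) (ext D.G A) e (D.Z e w) (D.lam e w) := by
  rw [R, ← sum_Z H e w h, xc, ext_coe, ext_coe]
  simp only [ext_coe]
  rfl

theorem Q_le' (hU : St_UP) (H : D.Hyp K c1 eps del) (c : ↥D.G → ↥D.X → ℝ)
    (A : ↥D.G → D.O → ℝ) : Q (xc c) (ext D.G A) ≤ 4 * K ^ 3 * D.W.card * D.G.card *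
      (D.k ^ 2 * av (fun e => ∑ x ∈ (D.toCD K).ME e, (D.toCD K).mu x * c e x ^ 2) +
        av fun e => ∑ j, A e j ^ 2) := by
  have hG : (D.G.card : ℝ) ≠ 0 := Nat.cast_ne_zero.2 H.G_ne.card_pos.ne'
  have e1 : ∑ e ∈ D.G, ∑ x ∈ D.Maj e, D.mu x * xc c e x ^ 2 =
      ∑ e : ↥D.G, ∑ x ∈ (D.toCD K).ME e, (D.toCD K).mu x * c e x ^ 2 := by
    rw [← sum_coe]
    refine sum_congr rfl fun e _ => ?_
    rw [← sum_ME H e, xc, ext_coe]
    simp only [ext_coe]
    rfl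
  have e2 : ∑ e ∈ D.G, ∑ j, ext D.G A e j ^ 2 = ∑ e : ↥D.G, ∑ j, A e j ^ 2 := by
    rw [← sum_coe]
    simp only [ext_coe]
  refine (Q_le hU H _ _).trans (le_of_eq ?_)
  rw [e1, e2, av, av, card_coe]
  field_simp

theorem fib_sum (g : D.TW → ℝ) (h : ∀ c0 : ↥(D.W.image D.cell),
    ∑ w : ↥D.W, (if D.cell w = c0 then g w else 0) = 0) (c0 : D.TC) :
    ∑ w ∈ D.fib c0, g w = 0 := by
  by_cases hc : c0 ∈ D.W.image D.cell
  · rw [SD.fib, ← sum_ite_coe]
    exact h ⟨c0, hc⟩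
  · refine sum_eq_zero fun w hw => absurd ?_ hc
    obtain ⟨h1, h2⟩ := mem_filter.1 hw
    exact mem_image.2 ⟨w, h1, h2⟩

theorem av_nn {ι : Type} [Fintype ι] {f : ι → ℝ} (h : ∀ i, 0 ≤ f i) : 0 ≤ av f :=
  div_nonneg (sum_nonneg fun i _ => h i) (Nat.cast_nonneg _)

end STV

open Co SB STV

theorem stTV (hU : St_UP) : St_TV := by
  intro D K c1 eps del τ H hτ hd
  have hG : (0 : ℝ) < D.G.card := Nat.cast_pos.2 H.G_ne.card_pos
  have hW : (0 : ℝ) < D.W.card := Nat.cast_pos.2 H.W_ne.card_pos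
  have hK := H.hK
  have hdel := H.hd
  have hk : (2 : ℝ) ≤ D.k := by exact_mod_cast H.hk
  have hb : (0 : ℝ) ≤ D.b := Nat.cast_nonneg _
  have hK3 : 0 ≤ 4 * K ^ 3 * del := by positivity
  have hu : ∀ c : ↥D.G → ↥D.X → ℝ,
      0 ≤ av (fun e => ∑ x ∈ (D.toCD K).ME e, (D.toCD K).mu x * c e x ^ 2) := fun c =>
    av_nn fun e => sum_nonneg fun x _ => mul_nonneg (H.mu_pos x x.2).le (sq_nonneg _)
  have hv : ∀ A : ↥D.G → D.O → ℝ, 0 ≤ av fun e => ∑ j, A e j ^ 2 := fun A =>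
    av_nn fun e => sum_nonneg fun x _ => sq_nonneg _
  constructor
  · intro c A f S hS h1 h2
    rw [ip_eq _ _ (fun e w => ext D.W (f (D.ecell e)) w *
      R (xc c) (ext D.G A) e (D.Z e w) (D.lam e w)) fun e w h => by
        rw [R_eq H c A e w h, ext_coe]; rfl]
    refine fin (mul_nonneg hτ hS) (Nat.cast_nonneg _) (hu c) (hv A) ?_
    have h3 := amb0 H (xc c) (ext D.G A) (fun t => ext D.W (f t)) (S ^ 2 * D.W.card)
      (fun t w hw => by_contra fun h => hw (ext_not _ h))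
      (fun t => fib_sum _ fun c0 => Eq.trans (sum_congr rfl fun w _ => by
        by_cases e : D.cell w = c0
        · rw [if_pos e, if_pos ((cell_eq D K w c0).2 e), ext_coe]
        · rw [if_neg e, if_neg fun h' => e ((cell_eq D K w c0).1 h')]) (h1 t c0))
      (fun t => by
        have := h2 t
        rw [av, card_coe, div_le_iff₀ hW] at this
        rw [← sum_coe]
        simpa only [ext_coe] using this)
    have h4 := Q_le' hU H c A
    have h5 := add_nonneg (mul_nonneg (sq_nonneg (D.k : ℝ)) (hu c)) (hv A)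
    change _ ≤ _ * ((D.k : ℝ) ^ 2 * _ + _)
    generalize (D.k : ℝ) ^ 2 * av (fun e => ∑ x ∈ (D.toCD K).ME e, (D.toCD K).mu x * c e x ^ 2) +
      av (fun e => ∑ j, A e j ^ 2) = N at h4 h5 ⊢
    rw [div_pow, div_le_iff₀ (by positivity)]
    refine h3.trans ?_
    calc (D.b : ℝ) * (del * D.G.card * (S ^ 2 * D.W.card) * Q (xc c) (ext D.G A))
        ≤ D.b * (del * D.G.card * (S ^ 2 * D.W.card) * (4 * K ^ 3 * D.W.card * D.G.card * N)) := by
          gcongr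
      _ = (4 * K ^ 3 * D.b * del) * (S ^ 2 * N * (D.G.card * D.W.card) ^ 2) := by ring
      _ ≤ τ ^ 2 * (S ^ 2 * N * (D.G.card * D.W.card) ^ 2) :=
          mul_le_mul_of_nonneg_right (by nlinarith) (by positivity)
      _ = _ := by ring
  · intro c A f h1
    set f' : D.TW → D.TX → ℝ := ext D.W fun w => ext D.X (f w) with hf
    have hf' : ∀ (w : ↥D.W) (x : ↥D.X), f' w x = f w x := fun w x => by
      rw [hf, ext_coe, ext_coe]
    rw [ip_eq _ _ (fun e w => (∑ x ∈ D.Z e w, f' w x) *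
      R (xc c) (ext D.G A) e (D.Z e w) (D.lam e w)) fun e w h => by
        rw [R_eq H c A e w h, ← sum_Z H e w h]
        simp only [hf']
        rfl]
    have hF : 0 ≤ av fun w => ∑ x ∈ (D.toCD K).MW w, (D.toCD K).mu x * f w x ^ 2 :=
      av_nn fun e => sum_nonneg fun x _ => mul_nonneg (H.mu_pos x x.2).le (sq_nonneg _)
    refine fin (mul_nonneg (mul_nonneg hτ (Nat.cast_nonneg _)) (Real.sqrt_nonneg _))
      (Nat.cast_nonneg _) (hu c) (hv A) ?_
    have h3 := amb1 H (xc c) (ext D.G A) f' fun x hx => fib_sum _ fun c0 => by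
      refine Eq.trans (sum_congr rfl fun w _ => ?_) (h1 ⟨x, hx⟩ c0)
      have m := mem_MW D K w ⟨x, hx⟩
      have n := cell_eq D K w c0
      by_cases e : D.cell w = c0
      · by_cases e' : x ∈ D.onW w
        · rw [if_pos e, if_pos e', if_pos ⟨n.2 e, m.2 e'⟩, ← hf' w ⟨x, hx⟩]
        · rw [if_pos e, if_neg e', if_neg fun h => e' (m.1 h.2)]
      · rw [if_neg e, if_neg fun h => e (n.1 h.1)]
    have e3 : ∑ w ∈ D.W, ∑ x ∈ D.onW w, D.mu x * f' w x ^ 2 = D.W.card *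
        av fun w => ∑ x ∈ (D.toCD K).MW w, (D.toCD K).mu x * f w x ^ 2 := by
      rw [av, card_coe, mul_div_cancel₀ _ hW.ne', ← sum_coe]
      refine sum_congr rfl fun w _ => ?_
      rw [← sum_MW H w]
      simp only [hf']
      rfl
    have h4 := Q_le' hU H c A
    have h5 := add_nonneg (mul_nonneg (sq_nonneg (D.k : ℝ)) (hu c)) (hv A)
    rw [mul_pow, mul_pow, CD.nW, Real.sq_sqrt hF]
    rw [e3] at h3
    change _ ≤ τ ^ 2 * (D.k : ℝ) ^ 2 * _ * ((D.k : ℝ) ^ 2 * _ + _)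
    generalize (D.k : ℝ) ^ 2 * av (fun e => ∑ x ∈ (D.toCD K).ME e, (D.toCD K).mu x * c e x ^ 2) +
      av (fun e => ∑ j, A e j ^ 2) = N at h4 h5 ⊢
    generalize av (fun w => ∑ x ∈ (D.toCD K).MW w, (D.toCD K).mu x * f w x ^ 2) = F at hF h3 ⊢
    rw [div_pow, div_le_iff₀ (by positivity)]
    refine h3.trans ?_
    have h6 : 4 * K ^ 3 * del * D.k ≤ τ ^ 2 * (D.k : ℝ) ^ 2 := by
      have h7 : 4 * K ^ 3 * del ≤ τ ^ 2 := by nlinarith
      exact mul_le_mul h7 (by nlinarith) (by linarith) (sq_nonneg _)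
    calc del * D.G.card * (D.W.card * F) * (D.k * Q (xc c) (ext D.G A))
        ≤ del * D.G.card * (D.W.card * F) * (D.k * (4 * K ^ 3 * D.W.card * D.G.card * N)) := by
          gcongr
      _ = (4 * K ^ 3 * del * D.k) * (F * N * (D.G.card * D.W.card) ^ 2) := by ring
      _ ≤ τ ^ 2 * (D.k : ℝ) ^ 2 * (F * N * (D.G.card * D.W.card) ^ 2) :=
          mul_le_mul_of_nonneg_right h6 (by positivity)
      _ = _ := by ring

end Pool.Agent.Lib.BK2
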