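import Pool.Agent.Lib.BK2.SDefs
import Pool.Agent.Lib.BK2.WM0

/-! BK2, section S: upper bounds from the model and the variance bound in dual form. -/

open Finset
open scoped Classical

set_option linter.unusedVariables false

noncomputable section

namespace Pool.Agent.Lib.BK2.SUp

open WM

variable {D : SD} {K c1 eps del : ℝ}

theorem fib_eq (H : D.Hyp K c1 eps del) {w : D.TW} (hw : w ∈ D.W) :
    D.fib (D.cell w) = D.fibp (D.cell w) := by
  ext v
  simp only [SD.fib, SD.fibp, mem_filter]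
  constructor
  · rintro ⟨h1, h2⟩
    exact ⟨H.W_sub h1, h2⟩
  · rintro ⟨h1, h2⟩
    exact ⟨H.W_sat w hw v h1 h2, h2⟩

theorem k_two (H : D.Hyp K c1 eps del) : (2 : ℝ) ≤ D.k := by exact_mod_cast H.hk

theorem p_pos (H : D.Hyp K c1 eps del) {x : D.TX} (hx : x ∈ D.X) : (0 : ℝ) < D.p x := by
  have := H.p_pos x hx
  exact_mod_cast (by omega : 0 < D.p x)

theorem maj_X (H : D.Hyp K c1 eps del) {e : D.TE} (he : e ∈ D.G) {x : D.TX} (hx : x ∈ D.Maj e) :
    x ∈ D.X := H.onE_sub e (H.Maj_sub e he hx)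

theorem G_pos (H : D.Hyp K c1 eps del) : (0 : ℝ) < D.G.card := by
  exact_mod_cast H.G_ne.card_pos

theorem W_pos (H : D.Hyp K c1 eps del) : (0 : ℝ) < D.W.card := by
  exact_mod_cast H.W_ne.card_pos

/-- summing a cellwise bound over all cells -/
theorem sum_cells (F : D.TW → ℝ) (A : ℝ) (h : ∀ c, ∑ w ∈ D.fibp c, F w ≤ A * (D.fibp c).card) :
    ∑ w ∈ D.Wp, F w ≤ A * D.Wp.card := by
  have h1 : ∑ w ∈ D.Wp, F w = ∑ c ∈ D.Wp.image D.cell, ∑ w ∈ D.fibp c, F w :=
    (sum_fiberwise_of_maps_to (g := D.cell) (fun w hw => mem_image_of_mem _ hw) F).symm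
  have h2 : (D.Wp.card : ℝ) = ∑ c ∈ D.Wp.image D.cell, ((D.fibp c).card : ℝ) := by
    have := card_eq_sum_card_fiberwise (s := D.Wp) (t := D.Wp.image D.cell) (f := D.cell)
      (fun w hw => mem_image_of_mem _ hw)
    rw [this]; push_cast; rfl
  rw [h1, h2, mul_sum]
  exact sum_le_sum fun c _ => h c

theorem up1c (H : D.Hyp K c1 eps del) {e : D.TE} (he : e ∈ D.G) (c : D.TC) {x : D.TX}
    (hx : x ∈ D.Maj e) :
    ∑ w ∈ D.fibp c with x ∈ D.Z e w, D.om e w ≤ 2 * D.k * D.mu x * (D.fibp c).card := by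
  have h := (abs_le.1 (H.emod1 e he c x hx)).2
  have hX := maj_X H he hx
  have hd := (H.d1_mem x hX).2
  have hm := H.mu_pos x hX
  have hk := k_two H
  have he1 := H.he1
  have hA : 0 ≤ (D.k : ℝ) * D.mu x * (D.fibp c).card := by positivity
  nlinarith [mul_le_mul_of_nonneg_right hd hA, mul_le_mul_of_nonneg_right he1 hA]

theorem up2c (H : D.Hyp K c1 eps del) {e : D.TE} (he : e ∈ D.G) (c : D.TC) {x y : D.TX}
    (hx : x ∈ D.Maj e) (hy : y ∈ D.Maj e) (hp : D.p x ≠ D.p y) :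
    ∑ w ∈ D.fibp c with x ∈ D.Z e w ∧ y ∈ D.Z e w, D.om e w ≤
      2 * (D.k : ℝ) ^ 2 * D.mu x * D.mu y * (D.fibp c).card := by
  have h := (abs_le.1 (H.emod2 e he c x hx y hy hp)).2
  have hX := maj_X H he hx
  have hY := maj_X H he hy
  have hd := H.d2_mem x hX y hY
  have hm := H.mu_pos x hX
  have hm' := H.mu_pos y hY
  have hk := k_two H
  have he1 := H.he1
  have hA : 0 ≤ D.mu x * D.mu y * (D.fibp c).card := by positivity
  have h1 : (D.k : ℝ) * (D.k - 1) * D.d2 x y ≤ 3 / 2 * (D.k : ℝ) ^ 2 := by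
    have h2 : (D.k : ℝ) * (D.k - 1) * D.d2 x y ≤ (D.k : ℝ) * (D.k - 1) * (3 / 2) :=
      mul_le_mul_of_nonneg_left hd.2 (by nlinarith)
    nlinarith
  have h3 : eps * (D.k : ℝ) ^ 2 ≤ 1 / 2 * (D.k : ℝ) ^ 2 :=
    mul_le_mul_of_nonneg_right (by linarith) (by positivity)
  nlinarith [mul_le_mul_of_nonneg_right h1 hA, mul_le_mul_of_nonneg_right h3 hA]

theorem up1 (H : D.Hyp K c1 eps del) {e : D.TE} (he : e ∈ D.G) {x : D.TX} (hx : x ∈ D.Maj e) :
    ∑ w ∈ D.Wp, (if x ∈ D.Z e w then D.om e w else 0) ≤ 2 * D.k * D.mu x * (K * D.W.card) := by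
  have h1 := sum_cells (D := D) (fun w => if x ∈ D.Z e w then D.om e w else 0)
    (2 * D.k * D.mu x) (fun c => by rw [← sum_filter]; exact up1c H he c hx)
  have hm := H.mu_pos x (maj_X H he hx)
  exact h1.trans (mul_le_mul_of_nonneg_left H.cardWp (by positivity))

theorem up2 (H : D.Hyp K c1 eps del) {e : D.TE} (he : e ∈ D.G) {x y : D.TX}
    (hx : x ∈ D.Maj e) (hy : y ∈ D.Maj e) (hp : D.p x ≠ D.p y) :
    ∑ w ∈ D.Wp, (if x ∈ D.Z e w ∧ y ∈ D.Z e w then D.om e w else 0) ≤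
      2 * (D.k : ℝ) ^ 2 * D.mu x * D.mu y * (K * D.W.card) := by
  have h1 := sum_cells (D := D) (fun w => if x ∈ D.Z e w ∧ y ∈ D.Z e w then D.om e w else 0)
    (2 * (D.k : ℝ) ^ 2 * D.mu x * D.mu y) (fun c => by rw [← sum_filter]; exact up2c H he c hx hy hp)
  have hm := H.mu_pos x (maj_X H he hx)
  have hm' := H.mu_pos y (maj_X H he hy)
  exact h1.trans (mul_le_mul_of_nonneg_left H.cardWp (by positivity))

/-- the variance bound in dual form, for an indicator -/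
theorem dv (H : D.Hyp K c1 eps del) (S : Finset D.TX) (hS : S ⊆ D.X) (hS2 : S.card ≤ 2)
    (hSp : ∀ x ∈ S, ∀ y ∈ S, D.p x = D.p y → x = y) (π : D.TE → Finset D.TX → Prop)
    (hπ : ∀ e Y, π e Y → S ⊆ Y) (T : Finset D.TW) (hT : ∀ w ∈ T, w ∈ D.W ∧ S ⊆ D.onW w)
    (N : D.TW → ℝ) (hN : ∀ w, N w = ∑ e ∈ D.G, if π e (D.Z e w) then D.om e w else 0) :
    ∑ w ∈ T, (N w - cmean T D.cell N w) ^ 2 ≤
      del * D.G.card * (∏ x ∈ S, D.mu x) *
        ∑ e ∈ D.G, ∑ w ∈ D.Wp, if π e (D.Z e w) then D.om e w else 0 := by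
  have hTW : T ⊆ D.W := fun w hw => (hT w hw).1
  apply dv_core
  · refine mul_nonneg (mul_nonneg (mul_nonneg H.hd.le (Nat.cast_nonneg _))
      (prod_nonneg fun x hx => (H.mu_pos x (hS hx)).le)) ?_
    refine sum_nonneg fun e he => sum_nonneg fun w _ => ?_
    split_ifs
    · exact H.om_nn e he w
    · exact le_rfl
  intro f hf hf0
  have hv := H.var S hS hS2 hSp f (fun e Y _ => if π e Y then 1 else 0)
    (fun w hw => hT w (hf w hw)) ?_ ?_
  · have e1 : ∑ e ∈ D.G, ∑ w ∈ D.W, f w * (D.om e w * (if π e (D.Z e w) then (1 : ℝ) else 0)) =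
        ∑ w ∈ T, f w * N w := by
      rw [sum_comm, ← sum_subset hTW]
      · refine sum_congr rfl fun w _ => ?_
        rw [hN, mul_sum]
        refine sum_congr rfl fun e _ => ?_
        split_ifs <;> simp
      · intro w _ hw
        have : f w = 0 := by
          by_contra h
          exact hw (hf w h)
        simp [this]
    have e2 : ∑ w ∈ D.W, f w ^ 2 = ∑ w ∈ T, f w ^ 2 := by
      rw [← sum_subset hTW]
      intro w _ hw
      have : f w = 0 := by
        by_contra h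
        exact hw (hf w h)
      simp [this]
    have e3 : ∑ e ∈ D.G, ∑ w ∈ D.Wp, D.om e w * (if π e (D.Z e w) then (1 : ℝ) else 0) ^ 2 =
        ∑ e ∈ D.G, ∑ w ∈ D.Wp, if π e (D.Z e w) then D.om e w else 0 := by
      refine sum_congr rfl fun e _ => sum_congr rfl fun w _ => ?_
      split_ifs <;> simp
    rw [e1, e2, e3] at hv
    calc _ ≤ _ := hv
      _ = _ := by ring
  · intro c
    rw [← hf0 c]
    symm
    apply sum_subset
    · intro w hw
      simp only [SD.fib, mem_filter] at hw ⊢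
      exact ⟨hTW hw.1, hw.2⟩
    · intro w hw hw'
      by_contra h
      apply hw'
      simp only [SD.fib, mem_filter] at hw ⊢
      exact ⟨hf w h, hw.2⟩
  · intro e Y l h
    apply hπ e Y
    by_contra h'
    simp [h'] at h

/-- the numerator of the cell mean -/
theorem cell_sum (H : D.Hyp K c1 eps del) (S : Finset D.TX) (π : D.TE → Finset D.TX → Prop)
    (hπ : ∀ e Y, π e Y → S ⊆ Y) (T : Finset D.TW) (hT : ∀ w, w ∈ T ↔ w ∈ D.W ∧ S ⊆ D.onW w)
    (N : D.TW → ℝ) (hN : ∀ w, N w = ∑ e ∈ D.G, if π e (D.Z e w) then D.om e w else 0)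
    {w : D.TW} (hw : w ∈ D.W) :
    ∑ v ∈ T.filter (fun v => D.cell v = D.cell w), N v =
      ∑ e ∈ D.G, ∑ v ∈ D.fibp (D.cell w), if π e (D.Z e v) then D.om e v else 0 := by
  rw [sum_comm, ← fib_eq H hw]
  simp only [← hN]
  apply sum_subset
  · intro v hv
    simp only [SD.fib, mem_filter] at hv ⊢
    exact ⟨((hT v).1 hv.1).1, hv.2⟩
  · intro v hv hv'
    simp only [SD.fib, mem_filter] at hv hv'
    rw [hN]
    refine sum_eq_zero fun e he => ?_
    split_ifs with h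
    · by_contra h0
      exact hv' ⟨(hT v).2 ⟨hv.1, (hπ e _ h).trans (H.Z_onW e he v h0)⟩, hv.2⟩
    · rfl

end Pool.Agent.Lib.BK2.SUp
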