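import Pool.Agent.Lib.BK2.SInt
import Pool.Agent.Lib.BK2.SUp

/-! BK2, section S: the upper bounds on `Wp`. -/

open Finset
open scoped Classical

set_option linter.unusedVariables false

noncomputable section

namespace Pool.Agent.Lib.BK2

namespace SUPst

open SUp

variable {D : SD} {K c1 eps del : ℝ}

theorem up0 (H : D.Hyp K c1 eps del) {e : D.TE} (he : e ∈ D.G) :
    ∑ w ∈ D.Wp, D.om e w ≤ 2 * K * D.W.card := by
  have h1 := sum_cells (D := D) (fun w => D.om e w) 2 (fun c => by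
    have h := (abs_le.1 (H.emod0 e he c)).2
    have he1 := H.he1
    have hA : (0 : ℝ) ≤ (D.fibp c).card := Nat.cast_nonneg _
    nlinarith [mul_le_mul_of_nonneg_right he1 hA])
  have h2 := H.cardWp
  linarith

theorem upA (H : D.Hyp K c1 eps del) {e : D.TE} (he : e ∈ D.G) {x : D.TX} (hx : x ∈ D.Maj e) :
    ∑ w ∈ D.Wp with x ∈ D.Z e w, D.om e w ≤ 2 * K * D.k * D.mu x * D.W.card := by
  rw [sum_filter]
  have := up1 H he hx
  linarith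

theorem upB (H : D.Hyp K c1 eps del) {e : D.TE} (he : e ∈ D.G) {x y : D.TX} (hx : x ∈ D.Maj e)
    (hy : y ∈ D.Maj e) (hxy : x ≠ y) :
    ∑ w ∈ D.Wp with x ∈ D.Z e w ∧ y ∈ D.Z e w, D.om e w ≤
      2 * K * D.k ^ 2 * D.mu x * D.mu y * D.W.card := by
  by_cases hp : D.p x = D.p y
  · have h0 : ∑ w ∈ D.Wp with x ∈ D.Z e w ∧ y ∈ D.Z e w, D.om e w = 0 := by
      refine sum_eq_zero fun w hw => ?_
      by_contra h
      have hw' := (mem_filter.1 hw).2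
      exact hxy (H.Z_inj e he w h x hw'.1 y hw'.2 hp)
    rw [h0]
    have hm := H.mu_pos x (maj_X H he hx)
    have hm' := H.mu_pos y (maj_X H he hy)
    have hK := H.hK
    positivity
  · rw [sum_filter]
    have := up2 H he hx hy hp
    linarith

theorem pt (H : D.Hyp K c1 eps del) {e : D.TE} (he : e ∈ D.G) {w : D.TW} (hw : w ∈ D.Wp)
    (f : D.TX → ℝ) (A : D.O → ℝ) :
    D.om e w * (∑ x ∈ D.Z e w, f x + ∑ i, A i * D.lam e w i) ^ 2 ≤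
      2 * D.k * ∑ x ∈ D.Maj e, f x ^ 2 * (if x ∈ D.Z e w then D.om e w else 0) +
        2 * K ^ 2 * (∑ i, A i ^ 2) * D.om e w := by
  by_cases h0 : D.om e w = 0
  · simp [h0]
  have hom := H.om_nn e he w
  have h1 : (∑ x ∈ D.Z e w, f x) ^ 2 ≤ D.k * ∑ x ∈ D.Z e w, f x ^ 2 := by
    have := sq_sum_le_card_mul_sum_sq (s := D.Z e w) (f := f)
    rwa [H.Z_card e he w h0] at this
  have h2 : (∑ i, A i * D.lam e w i) ^ 2 ≤ (∑ i, A i ^ 2) * K ^ 2 :=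
    (sum_mul_sq_le_sq_mul_sq univ A (D.lam e w)).trans
      (mul_le_mul_of_nonneg_left (H.lam_le e he w hw) (sum_nonneg fun i _ => sq_nonneg _))
  have h3 : ∑ x ∈ D.Maj e, f x ^ 2 * (if x ∈ D.Z e w then D.om e w else 0) =
      (∑ x ∈ D.Z e w, f x ^ 2) * D.om e w := by
    rw [sum_mul, ← sum_subset (H.Z_Maj e he w h0)]
    · exact sum_congr rfl fun x hx => by rw [if_pos hx]
    · intro x _ hx
      rw [if_neg hx, mul_zero]
  rw [h3]
  have h4 : (∑ x ∈ D.Z e w, f x + ∑ i, A i * D.lam e w i) ^ 2 ≤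
      2 * (D.k * ∑ x ∈ D.Z e w, f x ^ 2) + 2 * ((∑ i, A i ^ 2) * K ^ 2) := by
    nlinarith [sq_nonneg (∑ x ∈ D.Z e w, f x - ∑ i, A i * D.lam e w i)]
  calc _ ≤ D.om e w * (2 * (D.k * ∑ x ∈ D.Z e w, f x ^ 2) + 2 * ((∑ i, A i ^ 2) * K ^ 2)) :=
        mul_le_mul_of_nonneg_left h4 hom
    _ = _ := by ring

theorem upC (H : D.Hyp K c1 eps del) {e : D.TE} (he : e ∈ D.G) (f : D.TX → ℝ) (A : D.O → ℝ) :
    ∑ w ∈ D.Wp, D.om e w * (∑ x ∈ D.Z e w, f x + ∑ i, A i * D.lam e w i) ^ 2 ≤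
      4 * K ^ 3 * D.W.card * (D.k ^ 2 * ∑ x ∈ D.Maj e, D.mu x * f x ^ 2 + ∑ i, A i ^ 2) := by
  refine (sum_le_sum fun w hw => pt H he hw f A).trans ?_
  rw [sum_add_distrib, ← mul_sum, ← mul_sum, sum_comm]
  have hK := H.hK
  have hW : (0 : ℝ) ≤ D.W.card := Nat.cast_nonneg _
  have hk : (0 : ℝ) ≤ D.k := Nat.cast_nonneg _
  have h1 : ∑ x ∈ D.Maj e, ∑ w ∈ D.Wp, f x ^ 2 * (if x ∈ D.Z e w then D.om e w else 0) ≤
      2 * K * D.k * D.W.card * ∑ x ∈ D.Maj e, D.mu x * f x ^ 2 := by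
    rw [mul_sum]
    refine sum_le_sum fun x hx => ?_
    rw [← mul_sum]
    calc _ ≤ f x ^ 2 * (2 * D.k * D.mu x * (K * D.W.card)) :=
          mul_le_mul_of_nonneg_left (up1 H he hx) (sq_nonneg _)
      _ = _ := by ring
  have hS : 0 ≤ ∑ x ∈ D.Maj e, D.mu x * f x ^ 2 :=
    sum_nonneg fun x hx => mul_nonneg (H.mu_pos x (maj_X H he hx)).le (sq_nonneg _)
  have hA : 0 ≤ ∑ i, A i ^ 2 := sum_nonneg fun i _ => sq_nonneg _
  have hK3 : K ≤ K ^ 3 := by nlinarith [mul_nonneg (sub_nonneg.2 hK) (sub_nonneg.2 hK)]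
  have h2 := mul_le_mul_of_nonneg_left h1 (by positivity : (0 : ℝ) ≤ 2 * D.k)
  have h3 := mul_le_mul_of_nonneg_left (up0 H he)
    (by positivity : (0 : ℝ) ≤ 2 * K ^ 2 * ∑ i, A i ^ 2)
  have h4 := mul_le_mul_of_nonneg_right hK3
    (by positivity : (0 : ℝ) ≤ 4 * D.W.card * (D.k ^ 2 * ∑ x ∈ D.Maj e, D.mu x * f x ^ 2))
  calc _ ≤ 2 * D.k * (2 * K * D.k * D.W.card * ∑ x ∈ D.Maj e, D.mu x * f x ^ 2) +
        2 * K ^ 2 * (∑ i, A i ^ 2) * (2 * K * D.W.card) := add_le_add h2 h3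
    _ = K * (4 * D.W.card * (D.k ^ 2 * ∑ x ∈ D.Maj e, D.mu x * f x ^ 2)) +
        4 * K ^ 3 * D.W.card * ∑ i, A i ^ 2 := by ring
    _ ≤ K ^ 3 * (4 * D.W.card * (D.k ^ 2 * ∑ x ∈ D.Maj e, D.mu x * f x ^ 2)) +
        4 * K ^ 3 * D.W.card * ∑ i, A i ^ 2 := add_le_add h4 le_rfl
    _ = _ := by ring

end SUPst

theorem stUP : St_UP := fun D K c1 eps del H e he =>
  ⟨SUPst.up0 H he, fun x hx => SUPst.upA H he hx, fun x hx y hy hxy => SUPst.upB H he hx hy hxy,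
    fun f A => SUPst.upC H he f A⟩

end Pool.Agent.Lib.BK2
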