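import Pool.Agent.Lib.BK2.SInt

/-! Translation between the ambient data and its restriction to finite types. -/

open Finset
open scoped Classical

set_option linter.unusedVariables false

noncomputable section

namespace Pool.Agent.Lib.BK2.SB

open Co

/-- a sum over a subtype is a sum over the finset -/
theorem sum_coe {α : Type} (s : Finset α) (f : α → ℝ) : ∑ x : ↥s, f x = ∑ x ∈ s, f x :=
  Finset.sum_coe_sort s f

theorem card_coe {α : Type} (s : Finset α) : (Fintype.card ↥s : ℝ) = s.card := by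
  rw [Fintype.card_coe]

theorem av_coe {α : Type} (s : Finset α) (f : α → ℝ) :
    av (fun x : ↥s => f x) = (∑ x ∈ s, f x) / s.card := by
  rw [av, sum_coe, card_coe]

theorem sum_sub {α : Type} {X S : Finset α} (h : S ⊆ X) (f : α → ℝ) :
    ∑ x ∈ S.subtype (· ∈ X), f x = ∑ x ∈ S, f x :=
  Finset.sum_subtype_of_mem f fun _ hx => h hx

theorem card_sub {α : Type} {X S : Finset α} (h : S ⊆ X) :
    (S.subtype (· ∈ X)).card = S.card := by
  rw [Finset.card_subtype, Finset.filter_true_of_mem fun x hx => h hx]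

theorem sum_ite_coe {α : Type} (s : Finset α) (P : α → Prop) [DecidablePred P] (f : α → ℝ) :
    ∑ x : ↥s, (if P x then f x else 0) = ∑ x ∈ s with P x, f x := by
  rw [sum_filter]; exact sum_coe s fun x => if P x then f x else 0

theorem sum_filter_coe {α : Type} (s : Finset α) (P : α → Prop) [DecidablePred P] (f : α → ℝ) :
    ∑ x ∈ (univ : Finset ↥s).filter (fun x : ↥s => P x), f x = ∑ x ∈ s with P x, f x := by
  rw [sum_filter]; exact sum_ite_coe s P f

theorem card_filter_coe {α : Type} (s : Finset α) (P : α → Prop) [DecidablePred P] :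
    (((univ : Finset ↥s).filter fun x : ↥s => P x).card : ℝ) = (s.filter P).card := by
  have := sum_filter_coe s P fun _ => 1
  rwa [sum_const, sum_const, nsmul_one, nsmul_one] at this

theorem sum_sub_filter {α : Type} {X S : Finset α} (h : S ⊆ X) (P : α → Prop)
    [DecidablePred P] (f : α → ℝ) :
    ∑ x ∈ (S.subtype (· ∈ X)).filter (fun x : ↥X => P x), f x = ∑ x ∈ S with P x, f x := by
  rw [sum_filter, sum_filter]; exact sum_sub h fun x => if P x then f x else 0

theorem fr_coe {α : Type} (s : Finset α) (P : α → Prop) [DecidablePred P] :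
    fr (fun x : ↥s => P x) = ((s.filter P).card : ℝ) / s.card := by
  have h := sum_ite_coe s P fun _ => 1
  rw [sum_const, nsmul_one] at h
  rw [fr, av, card_coe, ← h]
  exact congrArg (· / _) (sum_congr rfl fun x _ => by by_cases e : P x <;> simp [e])

/-- extension by zero -/
def ext {α β : Type} [Zero β] (s : Finset α) (g : ↥s → β) (x : α) : β :=
  if h : x ∈ s then g ⟨x, h⟩ else 0

@[simp] theorem ext_coe {α β : Type} [Zero β] (s : Finset α) (g : ↥s → β) (x : ↥s) :
    ext s g x = g x := by simp [ext]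

theorem ext_mem {α β : Type} [Zero β] {s : Finset α} (g : ↥s → β) {x : α} (h : x ∈ s) :
    ext s g x = g ⟨x, h⟩ := by simp [ext, h]

theorem ext_not {α β : Type} [Zero β] {s : Finset α} (g : ↥s → β) {x : α} (h : x ∉ s) :
    ext s g x = 0 := by simp [ext, h]

/-- the image of a finset of the subtype -/
def up {α : Type} {s : Finset α} (T : Finset ↥s) : Finset α :=
  T.map (Function.Embedding.subtype _)

theorem up_sub {α : Type} {s : Finset α} (T : Finset ↥s) : up T ⊆ s := by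
  intro x hx
  obtain ⟨y, -, rfl⟩ := mem_map.1 hx
  exact y.2

@[simp] theorem mem_up {α : Type} {s : Finset α} (T : Finset ↥s) (x : ↥s) :
    (x : α) ∈ up T ↔ x ∈ T := by
  simp [up]

theorem sum_up {α : Type} {s : Finset α} (T : Finset ↥s) (f : α → ℝ) :
    ∑ x ∈ up T, f x = ∑ x ∈ T, f x := by simp [up]

theorem prod_up {α : Type} {s : Finset α} (T : Finset ↥s) (f : α → ℝ) :
    ∏ x ∈ up T, f x = ∏ x ∈ T, f x := by simp [up]

theorem card_up {α : Type} {s : Finset α} (T : Finset ↥s) : (up T).card = T.card := by simp [up]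

theorem up_subset_iff {α : Type} {s : Finset α} (T : Finset ↥s) (Y : Finset α) :
    up T ⊆ Y ↔ T ⊆ Y.subtype (· ∈ s) := by
  constructor
  · intro h x hx
    exact mem_subtype.2 (h ((mem_up T x).2 hx))
  · intro h x hx
    obtain ⟨y, hy, rfl⟩ := mem_map.1 hx
    exact mem_subtype.1 (h hy)

variable (D : SD) (K : ℝ)

theorem rep_mem (c : ↥(D.W.image D.cell)) : D.rep c ∈ D.W := (mem_image.1 c.2).choose_spec.1

theorem rep_cell (c : ↥(D.W.image D.cell)) : D.cell (D.rep c) = c :=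
  (mem_image.1 c.2).choose_spec.2

@[simp] theorem cell_eq (w : ↥D.W) (c : ↥(D.W.image D.cell)) :
    (D.toCD K).cell w = c ↔ D.cell w = c := Subtype.ext_iff

@[simp] theorem mem_Z (e : ↥D.G) (w : ↥D.W) (x : ↥D.X) :
    x ∈ (D.toCD K).Z e w ↔ (x : D.TX) ∈ D.Z e w := mem_subtype

@[simp] theorem mem_ME (e : ↥D.G) (x : ↥D.X) : x ∈ (D.toCD K).ME e ↔ (x : D.TX) ∈ D.Maj e :=
  mem_subtype

@[simp] theorem mem_MW (w : ↥D.W) (x : ↥D.X) : x ∈ (D.toCD K).MW w ↔ (x : D.TX) ∈ D.onW w :=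
  mem_subtype

@[simp] theorem q_eq (x y : ↥D.X) : (D.toCD K).q x = (D.toCD K).q y ↔ D.p x = D.p y :=
  Nat.cast_inj

theorem sz_eq (c : ↥(D.W.image D.cell)) : (D.toCD K).sz c = (D.fib c).card := by
  rw [CD.sz, SD.fib, ← card_filter_coe D.W fun w => D.cell w = c]
  refine congrArg (fun S : Finset ↥D.W => (S.card : ℝ)) ?_
  ext w
  simp

theorem NE_eq (e : ↥D.G) (c : ↥(D.W.image D.cell)) (P : D.TW → Prop) [DecidablePred P] :
    (D.toCD K).NE e c (fun w => P w) = ∑ w ∈ D.fib c with P w, D.om e w := by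
  rw [CD.NE, SD.fib, filter_filter, ← sum_ite_coe]
  refine sum_congr rfl fun w _ => ?_
  by_cases h : D.cell w = c ∧ P w
  · rw [if_pos h, if_pos ⟨(cell_eq D K w c).2 h.1, h.2⟩]; rfl
  · rw [if_neg h, if_neg fun h' => h ⟨(cell_eq D K w c).1 h'.1, h'.2⟩]

theorem mE_eq (e : ↥D.G) (P : D.TW → Prop) [DecidablePred P] :
    (D.toCD K).mE e (fun w => P w) = (∑ w ∈ D.W with P w, D.om e w) / D.W.card := by
  rw [CD.mE, av, card_coe, ← sum_ite_coe]
  refine congrArg (· / _) (sum_congr rfl fun x _ => ?_)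
  by_cases h : P x
  · rw [if_pos h, if_pos h]; rfl
  · rw [if_neg h, if_neg h]

theorem mW_eq (w : ↥D.W) (P : D.TE → Prop) [DecidablePred P] :
    (D.toCD K).mW w (fun e => P e) = (∑ e ∈ D.G with P e, D.om e w) / D.G.card := by
  rw [CD.mW, av, card_coe, ← sum_ite_coe D.G P fun e => D.om e w]
  refine congrArg (· / _) (sum_congr rfl fun x _ => ?_)
  by_cases h : P x
  · rw [if_pos h, if_pos h]; rfl
  · rw [if_neg h, if_neg h]

theorem ms_eq (S : Finset ↥D.X) : (D.toCD K).ms S = ∑ x ∈ up S, D.mu x := by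
  rw [sum_up]; rfl

variable {D K} {c1 eps del : ℝ}

theorem fib_eq (H : D.Hyp K c1 eps del) (c : ↥(D.W.image D.cell)) : D.fibp c = D.fib c := by
  ext w
  simp only [SD.fibp, SD.fib, mem_filter]
  exact ⟨fun h => ⟨H.W_sat _ (rep_mem D c) w h.1 (h.2.trans (rep_cell D c).symm), h.2⟩,
    fun h => ⟨H.W_sub h.1, h.2⟩⟩

theorem Maj_sub (H : D.Hyp K c1 eps del) {e : D.TE} (he : e ∈ D.G) : D.Maj e ⊆ D.X :=
  (H.Maj_sub e he).trans (H.onE_sub e)

theorem Z_sub (H : D.Hyp K c1 eps del) {e : D.TE} (he : e ∈ D.G) {w : D.TW} (h : D.om e w ≠ 0) :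
    D.Z e w ⊆ D.X := (H.Z_Maj e he w h).trans (Maj_sub H he)

theorem sum_ME (H : D.Hyp K c1 eps del) (e : ↥D.G) (f : D.TX → ℝ) :
    ∑ x ∈ (D.toCD K).ME e, f x = ∑ x ∈ D.Maj e, f x := sum_sub (Maj_sub H e.2) f

theorem sum_MW (H : D.Hyp K c1 eps del) (w : ↥D.W) (f : D.TX → ℝ) :
    ∑ x ∈ (D.toCD K).MW w, f x = ∑ x ∈ D.onW w, f x := sum_sub (H.onW_sub w) f

theorem sum_Z (H : D.Hyp K c1 eps del) (e : ↥D.G) (w : ↥D.W) (h : D.om e w ≠ 0) (f : D.TX → ℝ) :
    ∑ x ∈ (D.toCD K).Z e w, f x = ∑ x ∈ D.Z e w, f x := sum_sub (Z_sub H e.2 h) f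

end Pool.Agent.Lib.BK2.SB
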