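import Pool.Agent.Lib.BK2.WMa
import Pool.Agent.Lib.BK2.SBas

/-! The model on the big curves: total masses, translated to finite types. -/

namespace Pool.Agent.Lib.BK2

open Finset Co SB Classical

namespace SWMa

theorem pick (K : ℝ) (b : ℕ) (eps t : ℝ) (he : 0 < eps) (ht : 0 < t) : ∃ d : ℝ, 0 < d ∧
    ∀ (del : ℝ) (b' : ℕ), 1 ≤ K → 0 < del → del ≤ d → b' ≤ b →
      K ^ 2 * del ≤ 1 ∧ 200 * (b' + 1) * K * del / eps ^ 2 ≤ t := by
  refine ⟨min (1 / (|K| + 1) ^ 2) (t * eps ^ 2 / (200 * (b + 1) * (|K| + 1))), by positivity,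
    fun del b' hK h0 hd hb => ?_⟩
  rw [abs_of_nonneg (by linarith : 0 ≤ K), le_min_iff, le_div_iff₀ (by positivity),
    le_div_iff₀ (by positivity)] at hd
  have hb' : (b' : ℝ) ≤ b := Nat.cast_le.2 hb
  refine ⟨by nlinarith [hd.1, mul_pos h0 (by linarith : 0 < K)], ?_⟩
  rw [div_le_iff₀ (by positivity)]
  refine le_trans ?_ hd.2
  rw [mul_comm del]
  gcongr
  linarith

theorem fr_le {α : Type} (s : Finset α) (P : ↥s → Prop) (Q : α → Prop) [DecidablePred Q]
    (h : ∀ x : ↥s, P x → Q x) : fr P ≤ ((s.filter Q).card : ℝ) / s.card := by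
  rw [← fr_coe]
  refine div_le_div_of_nonneg_right (sum_le_sum fun x _ => ?_) (Nat.cast_nonneg _)
  by_cases k : P x
  · rw [if_pos k, if_pos (h x k)]
  · rw [if_neg k]
    split_ifs <;> norm_num

theorem nB_eq (D : SD) (K : ℝ) (t : Fin D.b) :
    (D.toCD K).nB t = ((D.Gt t).card : ℝ) / D.G.card := by
  have := sum_ite_coe D.G (fun e => D.ecell e = t) fun _ => 1
  rw [sum_const, nsmul_one] at this
  rw [CD.nB, av, card_coe]
  exact congrArg (· / _) this

end SWMa

open SWMa WMa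

theorem stWMa : St_WMa := by
  intro K k b eps t he ht
  obtain ⟨d, d0, hd⟩ := pick K b eps t he ht
  refine ⟨d, d0, fun D c1 del _ hb hle h => ?_⟩
  obtain ⟨h1, h2⟩ := hd del D.b h.hK h.hd hle hb
  have hG : (0 : ℝ) < D.G.card := Nat.cast_pos.2 h.G_ne.card_pos
  have hW : (0 : ℝ) < D.W.card := Nat.cast_pos.2 h.W_ne.card_pos
  have hK := h.hK
  have h0 := h.hd
  constructor
  · refine (fr_le D.W _ (fun w => 3 * eps * D.G.card <
      ∑ t, |∑ e ∈ D.Gt t, D.om e w - (D.Gt t).card|) fun w hw => ?_).trans ?_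
    · by_contra l
      refine hw (le_trans (le_of_eq ?_) ((div_le_iff₀ hG).2 ((not_lt.1 l).trans (by nlinarith))))
      rw [sum_div]
      refine sum_congr rfl fun t _ => ?_
      rw [nB_eq, ← abs_of_pos hG, ← abs_div, abs_of_pos hG, sub_div]
      exact congrArg (fun y => |y - _|) (mW_eq D K w fun e => D.ecell e = t)
    · rw [div_le_iff₀ hW]
      refine (wma_a h).trans (mul_le_mul_of_nonneg_right (le_trans ?_ h2) hW.le)
      gcongr
      linarith [Nat.cast_nonneg (α := ℝ) D.b]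
  · have e : ∀ w : ↥D.W, (D.toCD K).mW w (fun _ => True) ^ 2 =
        (∑ e ∈ D.G, D.om e w) ^ 2 / D.G.card ^ 2 := fun w => by
      rw [mW_eq D K w fun _ => True, filter_true, div_pow]
    simp only [e]
    rw [av_coe D.W fun w => (∑ e ∈ D.G, D.om e w) ^ 2 / D.G.card ^ 2, ← sum_div, div_div,
      div_le_iff₀ (by positivity), ← mul_assoc]
    exact wma_b h (le_trans (by nlinarith [mul_pos h0 (by linarith : 0 < K)]) h1)

theorem stWMm' : St_WMm := by
  intro K k b eps t he ht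
  obtain ⟨d, d0, hd⟩ := pick K b eps t he ht
  refine ⟨d, d0, fun D c1 del _ hb hle h => ?_⟩
  obtain ⟨h1, h2⟩ := hd del D.b h.hK h.hd hle hb
  have hW : (0 : ℝ) < D.W.card := Nat.cast_pos.2 h.W_ne.card_pos
  have hK := h.hK
  have h0 := h.hd
  refine (fr_le D.W _ (fun w => 2 < ∑ x ∈ D.onW w, D.mu x ∨
    ∃ q : ℕ, eps < ∑ x ∈ D.onW w with D.p x = q, D.mu x) fun w hw => ?_).trans ?_
  · by_contra l
    rw [not_or, not_exists] at l
    refine hw ⟨(sum_MW h w D.mu).trans_le (not_lt.1 l.1), fun x => le_trans (le_of_eq ?_)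
      (not_lt.1 (l.2 (D.p x)))⟩
    rw [← sum_sub_filter (h.onW_sub w) (fun y => D.p y = D.p x) D.mu]
    refine sum_congr ?_ fun _ _ => rfl
    ext y
    simp
  · rw [div_le_iff₀ hW, filter_or]
    refine (Nat.cast_le.2 (card_union_le _ _)).trans ?_
    rw [Nat.cast_add]
    refine (add_le_add (wma_c h) (wma_d h)).trans ?_
    rw [← add_mul]
    refine mul_le_mul_of_nonneg_right (le_trans ?_ h2) hW.le
    have a : del ≤ del / eps ^ 2 := le_div_self h0.le (by positivity) (by nlinarith [h.he1])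
    have c : 5 * del / eps ^ 2 ≤ 200 * (D.b + 1) * K * del / eps ^ 2 := by
      gcongr
      nlinarith [Nat.cast_nonneg (α := ℝ) D.b]
    rw [mul_div_assoc] at c ⊢
    linarith

end Pool.Agent.Lib.BK2
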