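import Pool.Agent.Lib.BK2.WM1
import Pool.Agent.Lib.BK2.SWMa

/-! The one point model on the big curves, translated to finite types. -/

namespace Pool.Agent.Lib.BK2

open Finset Co SB Classical SWMa WM1

theorem stWM1 : St_WM1 := by
  intro K k b eps t he ht
  obtain ⟨d, d0, hd⟩ := pick K b eps t he ht
  refine ⟨d, d0, fun D c1 del _ hb hle h => ?_⟩
  obtain ⟨h1, h2⟩ := hd del D.b h.hK h.hd hle hb
  have hG : (0 : ℝ) < D.G.card := Nat.cast_pos.2 h.G_ne.card_pos
  have hW : (0 : ℝ) < D.W.card := Nat.cast_pos.2 h.W_ne.card_pos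
  have hK := h.hK
  have h0 := h.hd
  constructor
  · refine le_trans (div_le_div_of_nonneg_right (sum_le_sum (g := fun w : ↥D.W =>
      ∑ x ∈ D.onW w with 5 * eps * D.k * D.mu x * D.G.card < ∑ t, |∑ e ∈ D.Gt t with
        x ∈ D.Z e w, D.om e w - D.k * D.d1 x * D.mu x * (D.Gt t).card|, D.mu x) fun w _ => ?_)
      (Nat.cast_nonneg _)) ?_
    · rw [← sum_sub_filter (h.onW_sub w)]
      refine sum_le_sum_of_subset_of_nonneg (fun x hx => ?_) fun x _ _ => (h.mu_pos x x.2).le
      replace hx := (@mem_filter _ _ (_) _ _).1 hx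
      refine mem_filter.2 ⟨hx.1, ?_⟩
      by_contra l
      have hm : 0 ≤ eps * D.k * D.mu x * D.G.card := by have := h.mu_pos x x.2; positivity
      refine hx.2 (le_trans (le_of_eq ?_) ((div_le_iff₀ hG).2
        ((not_lt.1 l).trans (show _ ≤ 10 * eps * D.k * D.mu x * D.G.card by linarith))))
      rw [sum_div]
      refine sum_congr rfl fun t _ => ?_
      rw [nB_eq, ← abs_of_pos hG, ← abs_div, abs_of_pos hG, sub_div, mul_div_assoc, SD.Gt,
        filter_filter, ← mW_eq D K w fun e => D.ecell e = t ∧ (x : D.TX) ∈ D.Z e w]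
      simp only [mem_Z]
      rfl
    · rw [card_coe, sum_coe D.W fun w =>
        ∑ x ∈ D.onW w with 5 * eps * D.k * D.mu x * D.G.card < ∑ t, |∑ e ∈ D.Gt t with
        x ∈ D.Z e w, D.om e w - D.k * D.d1 x * D.mu x * (D.Gt t).card|, D.mu x, div_le_iff₀ hW]
      refine (wm1_a h).trans (mul_le_mul_of_nonneg_right (le_trans ?_ h2) hW.le)
      gcongr
      linarith
  · have e : ∀ w : ↥D.W, ∑ x ∈ (D.toCD K).MW w, (D.toCD K).mW w
        (fun e => x ∈ (D.toCD K).Z e w) ^ 2 / (D.toCD K).mu x = (∑ x ∈ D.onW w,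
        (∑ e ∈ D.G with x ∈ D.Z e w, D.om e w) ^ 2 / D.mu x) / D.G.card ^ 2 := fun w => by
      rw [← sum_MW (K := K) h w, sum_div]
      refine sum_congr rfl fun x _ => ?_
      simp only [mem_Z]
      rw [mW_eq D K w fun e => (x : D.TX) ∈ D.Z e w, div_pow, div_right_comm]
      rfl
    simp only [e]
    rw [av_coe D.W fun w => (∑ x ∈ D.onW w,
      (∑ e ∈ D.G with x ∈ D.Z e w, D.om e w) ^ 2 / D.mu x) / D.G.card ^ 2, ← sum_div, div_div,
      div_le_iff₀ (by positivity), ← mul_assoc]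
    exact wm1_b h h1

end Pool.Agent.Lib.BK2
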