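import Pool.Agent.Lib.BK2.SInt
import Pool.Agent.Lib.BK2.CBas
import Pool.Agent.Lib.BK2.WM0

/-! BK2, section S: the two point model holds at most flags. -/

open Finset
open scoped Classical

set_option linter.unusedSectionVars false

noncomputable section

namespace Pool.Agent.Lib.BK2

open Co WM

namespace WM2

theorem av_cs2 {ι : Type} [Fintype ι] (f g : ι → ℝ) :
    (av fun i => f i * g i) ^ 2 ≤ (av fun i => f i ^ 2) * av fun i => g i ^ 2 := by
  simp only [av]
  rw [div_pow, div_mul_div_comm, ← sq]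
  exact div_le_div_of_nonneg_right (sum_mul_sq_le_sq_mul_sq _ _ _) (sq_nonneg _)

theorem fr_nonneg {ι : Type} [Fintype ι] (P : ι → Prop) : 0 ≤ fr P :=
  av_nonneg fun _ => by positivity

theorem av_ite {ι : Type} [Fintype ι] (P : ι → Prop) [DecidablePred P] (c : ℝ) :
    av (fun i => if P i then c else 0) = fr P * c := by
  rw [fr, ← av_mul']
  exact congrArg av (funext fun i => by by_cases h : P i <;> simp [h])

theorem alg {S n Q s φ a μ k eps τ : ℝ} (hn : 0 < n) (hQ : 0 < Q) (hμ : 0 < μ)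
    (hs : 0 ≤ s) (ha : 0 ≤ a) (ha' : a ≤ 3 / 2 * k)
    (h1 : |S - φ * (a * μ * s)| ≤ φ * (eps * k * μ * s))
    (h2 : |Q * n - s| ≤ τ * s) (h3 : τ ≤ eps / 4) (h4 : eps ≤ 1 / 100) (h5 : 0 < τ) :
    |S / n - a * μ| ≤ μ * k * (2 * eps + 4 * |Q * φ - 1|) := by
  have hk : 0 ≤ k := by linarith
  have e0 := abs_nonneg (Q * φ - 1)
  have e1 : Q * n * (S / n - a * μ) = Q * (S - φ * (a * μ * s)) + a * μ * ((Q * φ - 1) * s) -
      a * μ * (Q * n - s) := by field_simp; ring
  have e2 : Q * n * |S / n - a * μ| ≤ Q * (φ * (eps * k * μ * s)) +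
      3 / 2 * k * μ * (|Q * φ - 1| * s) + 3 / 2 * k * μ * (τ * s) := by
    rw [← abs_of_pos (mul_pos hQ hn), ← abs_mul, e1]
    refine (abs_sub _ _).trans (add_le_add ((abs_add_le _ _).trans (add_le_add ?_ ?_)) ?_)
    · rw [abs_mul, abs_of_pos hQ]; gcongr
    · rw [abs_mul, abs_mul (_ - _), abs_of_nonneg hs, abs_of_nonneg (by positivity)]; gcongr
    · rw [abs_mul, abs_of_nonneg (by positivity)]; gcongr
  have e3 : Q * φ ≤ 1 + |Q * φ - 1| := by linarith [le_abs_self (Q * φ - 1)]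
  have e4 : s ≤ 4 / 3 * (Q * n) := by nlinarith [(abs_le.1 h2).1]
  generalize |Q * φ - 1| = u at *
  have e5 : Q * φ * eps + 3 / 2 * u + 3 / 2 * τ ≤ 3 / 4 * (2 * eps + 4 * u) := by nlinarith
  have e6 := mul_le_mul e5 e4 hs (by nlinarith)
  have e7 := mul_le_mul_of_nonneg_left e6 (mul_nonneg hμ.le hk)
  exact le_of_mul_le_mul_left (by nlinarith) (mul_pos hQ hn)

variable {G W X C O O' : Type} [Fintype G] [Fintype W] [Fintype X] [Fintype C] [Fintype O]
  [Fintype O'] {D : CD G W X C O O'} {eps τ : ℝ}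

theorem dual (h : D.PreA eps τ) (A : G → Prop) (P : X → Prop) [DecidablePred A] [DecidablePred P]
    {c K : ℝ} (hc : 0 ≤ c)
    (hK : c * fr A ≤ K) (hs : ∀ g : X → ℝ, (∀ x, ¬ P x → g x = 0) → c * av (fun e => if A e then
      (∑ x ∈ D.ME e, D.mu x * g x - ∑ x, D.mu x * g x / D.q x) ^ 2 else 0) ≤
      τ ^ 2 * ∑ x, D.mu x * g x ^ 2 / D.q x) :
    ∑ y, D.mu y / D.q y * (if P y then
      |c * D.q y * fr (fun e => A e ∧ y ∈ D.ME e) - c * fr A| else 0) ≤ (1 + K) * τ := by
  have hq : ∀ x, 0 < D.q x := fun x => one_pos.trans_le (h.q_one x)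
  have hν : ∀ x, 0 ≤ D.mu x / D.q x := fun x => div_nonneg (h.mu_pos x).le (hq x).le
  let g : X → ℝ := fun y => if P y then
    c * D.q y * fr (fun e => A e ∧ y ∈ D.ME e) - c * fr A else 0
  have h1 := hs g fun x hx => if_neg hx
  obtain ⟨Q, hQ⟩ : ∃ Q, Q = ∑ x, D.mu x * g x ^ 2 / D.q x := ⟨_, rfl⟩
  obtain ⟨M, hM⟩ : ∃ M, M = ∑ x, D.mu x * g x / D.q x := ⟨_, rfl⟩
  rw [← hQ, ← hM] at h1
  have h2 := av_cs2 (fun e => if A e then (1 : ℝ) else 0)
    fun e => if A e then ∑ x ∈ D.ME e, D.mu x * g x - M else 0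
  have h3 : c * av (fun e => if A e then ∑ x ∈ D.ME e, D.mu x * g x - M else 0) = Q := by
    have : ∀ e, (if A e then ∑ x ∈ D.ME e, D.mu x * g x - M else 0) = ∑ x,
        (if A e ∧ x ∈ D.ME e then D.mu x * g x else 0) - if A e then M else 0 := fun e => by
      by_cases he : A e <;> simp [he]
    simp only [this]
    rw [av_sub, av_sum, av_ite, hM, hQ, mul_sum, ← sum_sub_distrib, mul_sum]
    refine sum_congr rfl fun x _ => ?_
    rw [av_ite]
    have := (hq x).ne'
    by_cases hx : P x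
    · rw [sq]; nth_rewrite 4 [show g x = _ from if_pos hx]; field_simp
    · simp [show g x = 0 from if_neg hx]
  simp only [ite_mul, one_mul, zero_mul, ite_pow, one_pow, zero_pow two_ne_zero] at h2
  rw [show (fun e => if A e then (if A e then ∑ x ∈ D.ME e, D.mu x * g x - M else 0) else 0) =
    fun e => if A e then ∑ x ∈ D.ME e, D.mu x * g x - M else 0 from
    funext fun e => by by_cases he : A e <;> simp [he], av_ite, mul_one] at h2
  have hQ0 : 0 ≤ Q := hQ ▸ sum_nonneg fun x _ =>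
    div_nonneg (mul_nonneg (h.mu_pos x).le (sq_nonneg _)) (hq x).le
  have h0 := mul_nonneg hc (fr_nonneg A)
  have h4 : Q ^ 2 ≤ K * (τ ^ 2 * Q) := by
    refine le_trans ?_ (mul_le_mul hK h1 (mul_nonneg hc (av_nonneg fun _ => by positivity))
      (h0.trans hK))
    rw [← h3, mul_pow, mul_mul_mul_comm, ← sq]
    exact mul_le_mul_of_nonneg_left h2 (sq_nonneg _)
  have h5 : Q ≤ K * τ ^ 2 := by
    by_contra hn
    nlinarith [not_le.1 hn, mul_nonneg (h0.trans hK) (sq_nonneg τ)]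
  have t0 := h.τ0
  calc _ ≤ ∑ y, (D.mu y / D.q y * τ + D.mu y * g y ^ 2 / D.q y / τ) := sum_le_sum fun y _ => by
        have := mul_le_mul_of_nonneg_left (abs_le_sq_div (g y) τ t0) (hν y)
        rw [show |g y| = _ from apply_ite abs _ _ _, abs_zero] at this
        exact this.trans_eq (by ring)
    _ ≤ _ := by
        rw [sum_add_distrib, ← sum_mul, h.prob, ← sum_div, ← hQ]
        have := (div_le_iff₀ t0).2 (h5.trans_eq (by ring : K * τ ^ 2 = K * τ * τ))
        linarith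

/-- normalised number of curves through two points -/
def r (D : CD G W X C O O') (x y : X) : ℝ :=
  D.q x * D.q y * fr fun e => x ∈ D.ME e ∧ y ∈ D.ME e

theorem r_sum [Nonempty G] (h : D.Pre eps τ) : ∑ x, ∑ y, D.mu x / D.q x * (D.mu y / D.q y *
    if D.q y ≠ D.q x then |r D x y - 1| else 0) ≤ (D.K + 3) * τ := by
  have hq : ∀ x, 0 < D.q x := fun x => one_pos.trans_le (h.a.q_one x)
  have hν : ∀ x, 0 ≤ D.mu x / D.q x := fun x => div_nonneg (h.a.mu_pos x).le (hq x).le
  have h1 := dual h.a (fun _ => True) (fun _ => True) (c := 1) (K := 1) zero_le_one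
    (by simp [fr, av_const]) fun g _ => by simpa using h.s.sm g
  simp only [if_true, true_and, one_mul, show fr (fun _ : G => True) = 1 by simp [fr, av_const]]
    at h1
  calc _ ≤ ∑ x, D.mu x / D.q x * ((1 + D.K) * τ + |D.q x * fr (fun e => x ∈ D.ME e) - 1|) :=
        sum_le_sum fun x _ => by
        rw [← mul_sum]
        refine mul_le_mul_of_nonneg_left ?_ (hν x)
        have h2 := dual h.a (fun e => x ∈ D.ME e) (fun y => D.q y ≠ D.q x) (hq x).le
          (by simpa only [av_ite, mul_one] using h.a.cntE x) fun g hg => h.s.smx x g fun y hy => hg y (not_not.2 hy)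
        refine le_trans ?_ (add_le_add h2 (show ∑ y, D.mu y / D.q y *
          |D.q x * fr (fun e => x ∈ D.ME e) - 1| ≤ _ by rw [← sum_mul, h.a.prob, one_mul]))
        rw [← sum_add_distrib]
        refine sum_le_sum fun y _ => ?_
        rw [← mul_add]
        refine mul_le_mul_of_nonneg_left ?_ (hν y)
        split_ifs
        · exact abs_sub_le _ _ _
        · simp
    _ ≤ _ := by
        simp only [mul_add, sum_add_distrib, ← sum_mul, h.a.prob]
        linarith

/-- the mean of the two point mass over the cell -/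
def m (D : CD G W X C O O') (x y : X) : W → ℝ :=
  cmean (univ.filter fun w => x ∈ D.MW w ∧ y ∈ D.MW w) D.cell
    fun w => D.mW w fun e => x ∈ D.Z e w ∧ y ∈ D.Z e w

theorem mean (h : D.PreA eps τ) (h4 : τ ≤ eps / 4) {x y : X} (hq : D.q x ≠ D.q y) {w : W}
    (hx : x ∈ D.MW w) (hy : y ∈ D.MW w) :
    |m D x y w - D.k * (D.k - 1) * D.d2 x y * (D.mu x * D.mu y)| ≤
      D.mu x * D.mu y * D.k ^ 2 * (2 * eps + 4 * |r D x y - 1|) := by
  have hk : (2 : ℝ) ≤ D.k := by exact_mod_cast h.k2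
  have e1 : (univ.filter fun v => x ∈ D.MW v ∧ y ∈ D.MW v).filter (fun v => D.cell v = D.cell w) =
      univ.filter fun v => D.cell v = D.cell w ∧ x ∈ D.MW v ∧ y ∈ D.MW v := by
    rw [filter_filter]; exact filter_congr fun _ _ => and_comm
  have k1 : (0 : ℝ) ≤ D.k * (D.k - 1) := by nlinarith
  have k2 : D.k * (D.k - 1) * D.d2 x y ≤ 3 / 2 * D.k ^ 2 := by
    nlinarith [mul_nonneg k1 (sub_nonneg.2 (h.d2_hi x y))]
  rw [m, cmean, e1]
  refine alg (s := D.sz (D.cell w)) ?_ (mul_pos (one_pos.trans_le (h.q_one x))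
    (one_pos.trans_le (h.q_one y))) (mul_pos (h.mu_pos x) (h.mu_pos y)) (D.sz_nonneg _)
    (mul_nonneg k1 (by linarith [h.d2_lo x y])) k2 ?_ (h.cntW2 _ x y hq) h4 h.eps1 h.τ0
  · exact Nat.cast_pos.2 (card_pos.2 ⟨w, by simp [hx, hy]⟩)
  simp only [CD.mW]
  rw [← av_sum, ← av_ite, ← av_ite, ← av_sub]
  refine abs_av_le' fun e => ?_
  rw [show ∑ v with D.cell v = D.cell w ∧ x ∈ D.MW v ∧ y ∈ D.MW v, _ =
      D.NE e (D.cell w) fun v => x ∈ D.Z e v ∧ y ∈ D.Z e v by
    rw [sum_filter, CD.NE]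
    refine sum_congr rfl fun v _ => ?_
    by_cases h0 : D.om e v = 0
    · simp [h0]
    · have := (h.hZ e v h0).2.1
      by_cases h1 : x ∈ D.Z e v ∧ y ∈ D.Z e v
      · simp [h1, this h1.1, this h1.2]
      · simp [h1]]
  by_cases he : x ∈ D.ME e ∧ y ∈ D.ME e
  · rw [if_pos he, if_pos he]
    simpa only [mul_assoc] using h.E2 e (D.cell w) x he.1 y he.2 hq
  · rw [if_neg he, if_neg he, sub_zero, CD.NE, sum_eq_zero, abs_zero]
    intro v _
    split_ifs with h1
    · by_contra h0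
      exact he ⟨(h.hZ e v h0).1 h1.2.1, (h.hZ e v h0).1 h1.2.2⟩
    · rfl

theorem pair [Nonempty W] (h : D.Pre eps τ) {x y : X} (hq : D.q x ≠ D.q y) :
    av (fun w => if x ∈ D.MW w ∧ y ∈ D.MW w then
      |D.mW w (fun e => x ∈ D.Z e w ∧ y ∈ D.Z e w) - m D x y w| +
        4 * D.k ^ 2 * (D.mu x * D.mu y) * |r D x y - 1| else 0) ≤
    D.mu x / D.q x * (D.mu y / D.q y * (3 * τ + 9 * D.k ^ 2 * |r D x y - 1|)) := by
  have hk : (2 : ℝ) ≤ D.k := by exact_mod_cast h.a.k2
  have hW : (0 : ℝ) < Fintype.card W := by exact_mod_cast Fintype.card_pos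
  have t0 := h.a.τ0
  have t1 : τ ≤ 1 := by linarith [h.a.τe, h.a.eps1]
  have hQ := mul_pos (one_pos.trans_le (h.a.q_one x)) (one_pos.trans_le (h.a.q_one y))
  have hμ := mul_pos (h.a.mu_pos x) (h.a.mu_pos y)
  have hxy : x ≠ y := fun e => hq (e ▸ rfl)
  set T := univ.filter fun w => x ∈ D.MW w ∧ y ∈ D.MW w with hT
  have h1 : D.q x * D.q y * T.card ≤ 2 * Fintype.card W := by
    rw [card_eq_sum_card_fiberwise (f := D.cell) (t := univ) fun _ _ => mem_univ _, Nat.cast_sum,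
      ← D.sum_sz, mul_sum, mul_sum]
    refine sum_le_sum fun c _ => ?_
    have := (abs_le.1 (h.a.cntW2 c x y hq)).2
    rw [hT, filter_filter, filter_congr fun _ _ => and_comm]
    nlinarith [D.sz_nonneg c]
  have h2 := dv_core T D.cell (fun w => D.mW w fun e => x ∈ D.Z e w ∧ y ∈ D.Z e w)
    (τ ^ 2 * (D.mu x * D.mu y) ^ 2 * Fintype.card W * fr fun e => x ∈ D.ME e ∧ y ∈ D.ME e)
    (mul_nonneg (by positivity) (fr_nonneg _)) fun f f1 f2 => by
    have e0 : ∀ (S : Finset W) (u : W → ℝ), ∑ w ∈ S with w ∈ T, f w * u w = ∑ w ∈ S, f w * u w :=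
      fun S u => sum_filter_of_ne fun w _ hw => f1 w (left_ne_zero_of_mul hw)
    have := h.vp {x, y} card_le_two (by simp [hq, hq.symm]) (fun _ Y => x ∈ Y ∧ y ∈ Y)
      (fun _ => True) f (fun e Y hY => by simp [insert_subset_iff, hY])
      (fun w hw => by simpa [insert_subset_iff, hT] using f1 w hw) fun c => by
        have := e0 (univ.filter fun w => D.cell w = c) fun _ => 1
        simp only [mul_one] at this
        rw [← this, ← f2 c, filter_comm, filter_univ_mem]
    simp only [prod_pair hxy, insert_subset_iff, singleton_subset_iff, and_true, sq (f _)] at this ⊢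
    rwa [← e0 univ f, ← e0 univ, filter_univ_mem] at this
  have h3 := sum_le_sum fun w (_ : w ∈ T) => abs_le_sq_div
    (D.mW w (fun e => x ∈ D.Z e w ∧ y ∈ D.Z e w) - m D x y w) _ (mul_pos t0 hμ)
  rw [sum_add_distrib, ← sum_div, sum_const, nsmul_eq_mul] at h3
  have h4 := h3.trans (add_le_add le_rfl (div_le_div_of_nonneg_right h2 (mul_pos t0 hμ).le))
  rw [av, ← sum_filter, ← hT, sum_add_distrib, sum_const, nsmul_eq_mul, div_le_iff₀ hW]
  have h5 : r D x y ≤ 1 + |r D x y - 1| := by linarith [le_abs_self (r D x y - 1)]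
  have h6 := abs_nonneg (r D x y - 1)
  generalize |r D x y - 1| = u at *
  refine le_of_mul_le_mul_left ?_ hQ
  rw [show D.q x * D.q y * (D.mu x / D.q x * (D.mu y / D.q y * (3 * τ + 9 * D.k ^ 2 * u)) *
    Fintype.card W) = D.mu x * D.mu y * ((3 * τ + 9 * D.k ^ 2 * u) * Fintype.card W) by
    have := left_ne_zero_of_mul hQ.ne'
    have := right_ne_zero_of_mul hQ.ne'
    field_simp]
  have h7 := mul_le_mul_of_nonneg_left h4 hQ.le
  rw [show ∀ φ n : ℝ, D.q x * D.q y * (n * (τ * (D.mu x * D.mu y)) + τ ^ 2 * (D.mu x * D.mu y) ^ 2 *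
    Fintype.card W * φ / (τ * (D.mu x * D.mu y))) = D.mu x * D.mu y * (τ * (D.q x * D.q y * n) +
    τ * Fintype.card W * (D.q x * D.q y * φ)) from fun φ n => by field_simp, ← r] at h7
  have h8 : τ * (D.q x * D.q y * T.card) + τ * Fintype.card W * r D x y + 4 * D.k ^ 2 * u *
      (D.q x * D.q y * T.card) ≤ (3 * τ + 9 * D.k ^ 2 * u) * Fintype.card W := by
    have a1 := mul_le_mul_of_nonneg_left h1 t0.le
    have a2 := mul_le_mul_of_nonneg_left h1 (show 0 ≤ 4 * (D.k : ℝ) ^ 2 * u by positivity)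
    have a3 := mul_le_mul_of_nonneg_left h5 (mul_pos t0 hW).le
    have a4 := mul_le_mul_of_nonneg_right (show τ ≤ (D.k : ℝ) ^ 2 by nlinarith)
      (mul_nonneg h6 hW.le)
    nlinarith
  have h9 := mul_le_mul_of_nonneg_left h8 hμ.le
  nlinarith

theorem sml : Sml fun _ _ _ _ _ _ _ _ _ _ _ _ D eps t => D.oWM2 eps t := by
  intro K k b eps t he ht
  refine ⟨min (eps / 4) (t * eps / (2 * (|K| + 4))), by positivity, ?_⟩
  intro G W X C O O' _ _ _ _ _ _ _ _ D τ hK _ _ hτ h
  have t1 : τ ≤ eps / 4 := hτ.trans (min_le_left _ _)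
  have t2 := (le_div_iff₀ (by positivity)).1 (hτ.trans (min_le_right _ _))
  rw [← hK, abs_of_nonneg (zero_le_one.trans h.a.K1)] at t2
  have t0 := h.a.τ0
  have hk : (2 : ℝ) ≤ D.k := by exact_mod_cast h.a.k2
  have hν : ∀ x, 0 ≤ D.mu x / D.q x := fun x =>
    div_nonneg (h.a.mu_pos x).le (zero_le_one.trans (h.a.q_one x))
  let E : W → X → X → ℝ := fun w x y =>
    |D.mW w (fun e => x ∈ D.Z e w ∧ y ∈ D.Z e w) - m D x y w| +
      4 * D.k ^ 2 * (D.mu x * D.mu y) * |r D x y - 1|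
  have hE : ∀ w x y, 0 ≤ E w x y := fun w x y => by
    have := h.a.mu_pos x
    have := h.a.mu_pos y
    positivity
  have h1 : ∀ w (S : Finset X), (∀ x ∈ S, x ∈ D.MW w ∧ D.ms (D.MW w) ≤ 2 ∧ ¬ D.gF2 eps w x) →
      D.ms S ≤ (∑ x, ∑ y, if D.q y ≠ D.q x then if x ∈ D.MW w ∧ y ∈ D.MW w then E w x y else 0
        else 0) * (6 * eps * D.k ^ 2)⁻¹ := fun w S hS => by
    rw [← div_eq_mul_inv, le_div_iff₀ (by positivity), CD.ms, sum_mul]
    refine le_trans (sum_le_sum fun x hx => ?_) (sum_le_sum_of_subset_of_nonneg (subset_univ S)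
      fun x _ _ => sum_nonneg fun y _ => by split_ifs <;> simp [hE])
    obtain ⟨hx, hb⟩ := hS x hx
    have e1 := (not_le.1 hb.2).le.trans (sum_le_sum (g := fun y => E w x y +
      2 * eps * D.k ^ 2 * D.mu x * D.mu y) fun y hy => by
      have e2 := mean h.a t1 (mem_filter.1 hy).2.symm hx (mem_filter.1 hy).1
      have e3 := abs_sub_le (D.mW w fun e => x ∈ D.Z e w ∧ y ∈ D.Z e w) (m D x y w)
        (D.k * (D.k - 1) * D.d2 x y * (D.mu x * D.mu y))
      rw [mul_assoc _ (D.mu x)]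
      simp only [E]
      linarith)
    rw [sum_add_distrib, ← mul_sum] at e1
    have e4 := mul_le_mul_of_nonneg_left ((sum_le_sum_of_subset_of_nonneg
      (filter_subset (fun y => D.q y ≠ D.q x) _) fun y _ _ => (h.a.mu_pos y).le).trans hb.1)
      (show 0 ≤ 2 * eps * D.k ^ 2 * D.mu x by have := h.a.mu_pos x; positivity)
    refine le_trans (b := ∑ y ∈ D.MW w with D.q y ≠ D.q x, E w x y) (by linarith) (le_of_eq ?_)
    rw [← filter_univ_mem (D.MW w), filter_filter, sum_filter]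
    refine sum_congr rfl fun y _ => ?_
    by_cases hy : y ∈ D.MW w <;> simp [hx, hy]
  refine (av_le fun w => h1 w _ fun x hx => by simpa only [mem_filter] using hx).trans ?_
  rw [av_mul', ← div_eq_mul_inv, div_le_iff₀ (by positivity), av_sum]
  have h2 := r_sum h
  calc _ ≤ ∑ x, ∑ y, (D.mu x / D.q x * (D.mu y / D.q y) * (3 * τ) + 9 * D.k ^ 2 *
        (D.mu x / D.q x * (D.mu y / D.q y * if D.q y ≠ D.q x then |r D x y - 1| else 0))) :=
        sum_le_sum fun x _ => by
        rw [av_sum]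
        refine sum_le_sum fun y _ => ?_
        by_cases hq : D.q y ≠ D.q x
        · simp only [if_pos hq]
          exact (pair h hq.symm).trans_eq (by ring)
        · simp only [if_neg hq, av_zero, mul_zero, add_zero]
          exact mul_nonneg (mul_nonneg (hν x) (hν y)) (by positivity)
    _ ≤ _ := by
        simp only [sum_add_distrib, ← sum_mul, ← mul_sum, h.a.prob] at h2 ⊢
        have a1 := mul_le_mul_of_nonneg_left h2 (show 0 ≤ 9 * (D.k : ℝ) ^ 2 by positivity)
        have a2 := mul_le_mul_of_nonneg_left t2 (show 0 ≤ 6 * (D.k : ℝ) ^ 2 by positivity)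
        have a3 := mul_le_mul_of_nonneg_left (show 1 ≤ (D.k : ℝ) ^ 2 by nlinarith) t0.le
        have a4 := mul_nonneg (mul_nonneg (zero_le_one.trans h.a.K1) t0.le) (sq_nonneg (D.k : ℝ))
        nlinarith

end WM2

theorem stWM2 (hA : St_TA) (hS : St_TS) (hP : St_TP) (hV : St_TV) : St_WM2 :=
  SmlS.of hA hS hP hV WM2.sml

end Pool.Agent.Lib.BK2
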