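import Pool.Agent.Lib.BK2.SInt
import Pool.Agent.Lib.BK2.CBas

/-! BK2, section S: the masses on most `w` are regular. -/

open Finset
open scoped Classical

noncomputable section

namespace Pool.Agent.Lib.BK2

open Co

namespace WMm

theorem sml : Sml fun _ _ _ _ _ _ _ _ _ _ _ _ D eps t => D.oWMm eps t := by
  intro K k b eps t he ht
  have hM : 0 < 1 + 4 / eps ^ 2 := by positivity
  refine ⟨min (eps / 2) (min 1 (t / (1 + 4 / eps ^ 2))), by positivity, ?_⟩
  intro G W X C O O' _ _ _ _ _ _ _ _ D τ _ _ _ hτ h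
  have t1 : τ ≤ eps / 2 := hτ.trans (min_le_left _ _)
  have t2 : τ ≤ 1 := hτ.trans ((min_le_right _ _).trans (min_le_left _ _))
  have t3 : τ * (1 + 4 / eps ^ 2) ≤ t :=
    (le_div_iff₀ hM).1 (hτ.trans ((min_le_right _ _).trans (min_le_right _ _)))
  have t0 := h.a.τ0
  let u : ℝ → W → ℝ := fun r w =>
    (D.ms ((D.MW w).filter fun y => D.q y = r) - ∑ y with D.q y = r, D.mu y / D.q y) ^ 2
  have h1 : av (fun w => (D.ms (D.MW w) - 1) ^ 2) ≤ τ ^ 2 := by
    simpa only [CD.ms, mul_one, one_pow, h.a.prob] using h.s.smW fun _ => 1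
  have h2 : ∀ r, av (u r) ≤ τ ^ 2 * ∑ y with D.q y = r, D.mu y / D.q y := fun r => by
    simpa only [u, CD.ms, sum_filter, mul_ite, mul_one, mul_zero, ite_div, zero_div, ite_pow,
      one_pow, zero_pow two_ne_zero] using h.s.smW fun y => if D.q y = r then 1 else 0
  have h3 : av (fun w => ∑ r ∈ univ.image D.q, u r w) ≤ τ ^ 2 := by
    rw [av_sum]
    refine (sum_le_sum fun r _ => h2 r).trans_eq ?_
    rw [← mul_sum, sum_fiberwise_of_maps_to fun x hx => mem_image_of_mem _ hx, h.a.prob, mul_one]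
  have h4 : fr (fun w => ¬ D.gWm eps w) ≤ av fun w => (D.ms (D.MW w) - 1) ^ 2 +
      4 / eps ^ 2 * ∑ r ∈ univ.image D.q, u r w := av_le fun w => by
    have e1 : ∀ r ∈ univ.image D.q, 0 ≤ u r w := fun _ _ => sq_nonneg _
    have e2 : 0 ≤ 4 / eps ^ 2 * ∑ r ∈ univ.image D.q, u r w :=
      mul_nonneg (by positivity) (sum_nonneg e1)
    by_cases hw : D.gWm eps w
    · rw [if_neg (not_not.2 hw)]
      exact add_nonneg (sq_nonneg _) e2
    rw [if_pos hw]
    rcases not_and_or.1 hw with h5 | h5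
    · nlinarith [not_le.1 h5]
    · obtain ⟨x, hx⟩ := not_forall.1 h5
      have e3 : eps ^ 2 / 4 ≤ u (D.q x) w := by
        have := h.a.fibq x
        simp only [u]
        nlinarith [not_le.1 hx]
      have e4 := mul_le_mul_of_nonneg_left
        (e3.trans (single_le_sum e1 (mem_image_of_mem _ (mem_univ x))))
        (show 0 ≤ 4 / eps ^ 2 by positivity)
      rw [show 4 / eps ^ 2 * (eps ^ 2 / 4) = 1 by field_simp] at e4
      nlinarith [sq_nonneg (D.ms (D.MW w) - 1)]
  rw [av_add, av_mul] at h4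
  have h5 := mul_le_mul_of_nonneg_left h3 (show 0 ≤ 4 / eps ^ 2 by positivity)
  have h6 : τ ^ 2 * (1 + 4 / eps ^ 2) ≤ τ * (1 + 4 / eps ^ 2) :=
    mul_le_mul_of_nonneg_right (by nlinarith) hM.le
  exact h4.trans (by linarith)

end WMm

theorem stWMm (hA : St_TA) (hS : St_TS) (hP : St_TP) (hV : St_TV) : St_WMm :=
  SmlS.of hA hS hP hV WMm.sml

end Pool.Agent.Lib.BK2
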