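import Pool.Agent.Lib.BK2.SGlue
import Pool.Agent.Lib.BK2.STA
import Pool.Agent.Lib.BK2.STS
import Pool.Agent.Lib.BK2.STP
import Pool.Agent.Lib.BK2.STV
import Pool.Agent.Lib.BK2.SUPst
import Pool.Agent.Lib.BK2.SWMa
import Pool.Agent.Lib.BK2.SWMm
import Pool.Agent.Lib.BK2.SWM1
import Pool.Agent.Lib.BK2.SWM2
import Pool.Agent.Lib.BK2.SGainC
import Pool.Agent.Lib.BK2.SCLN
import Pool.Agent.Lib.BK2.SFIN
import Pool.Agent.Lib.BK2.CoreAll

/-! BK2, section S without hypotheses. -/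

namespace Pool.Agent.Lib.BK2

theorem stS : St_S :=
  stS_of stTA stTS (stTP stUP) (stTV stUP) stWMa (stWMm stTA stTS (stTP stUP) (stTV stUP)) stWM1
    (stWM2 stTA stTS (stTP stUP) (stTV stUP)) (stGAIN stTA stTS (stTP stUP) (stTV stUP)) stCLN
    (stSFIN Co.core)

end Pool.Agent.Lib.BK2
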