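import Mathlib

/-! BK2, section S: the abstract spectral part. Data, hypotheses and block statements. -/

open Finset
open scoped Classical

set_option linter.unusedVariables false

noncomputable section

namespace Pool.Agent.Lib.BK2

/-- The data of the spectral argument: curves `e ∈ G`, curves `w ∈ W ⊆ Wp`, points `X`. -/
structure SD : Type 1 where
  TE : Type
  TW : Type
  TX : Type
  TC : Type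
  O : Type
  O' : Type
  [fO : Fintype O]
  [fO' : Fintype O']
  k : ℕ
  b : ℕ
  G : Finset TE
  W : Finset TW
  Wp : Finset TW
  X : Finset TX
  p : TX → ℕ
  a : TX → ℝ
  mu : TX → ℝ
  onE : TE → Finset TX
  onW : TW → Finset TX
  Maj : TE → Finset TX
  om : TE → TW → ℝ
  Z : TE → TW → Finset TX
  cell : TW → TC
  ecell : TE → Fin b
  d1 : TX → ℝ
  d2 : TX → TX → ℝ
  lam : TE → TW → O → ℝ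
  lam' : TW → TE → O' → ℝ
  Phi : TE → TW → ℝ

attribute [instance] SD.fO SD.fO'

namespace SD

variable (D : SD)

/-- The global probability measure on points. -/
def mub (x : D.TX) : ℝ := D.mu x / D.p x

/-- A cell of `Wp`. -/
def fibp (c : D.TC) : Finset D.TW := D.Wp.filter fun w => D.cell w = c

/-- A cell of `W`. -/
def fib (c : D.TC) : Finset D.TW := D.W.filter fun w => D.cell w = c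

/-- The part of `G` in one `e`-cell. -/
def Gt (t : Fin D.b) : Finset D.TE := D.G.filter fun e => D.ecell e = t

/-- All hypotheses on the data. `K, c1` are structural constants, `eps` is the model error,
`del` bounds all quantities that can be made small after `k`, `eps` and `b`. -/
structure Hyp (K c1 eps del : ℝ) : Prop where
  hK : 1 ≤ K
  hc : 0 < c1
  he : 0 < eps
  he1 : eps ≤ 1 / 100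
  hd : 0 < del
  hde : del ≤ eps
  hk : 2 ≤ D.k
  G_ne : D.G.Nonempty
  W_ne : D.W.Nonempty
  W_sub : D.W ⊆ D.Wp
  W_sat : ∀ w ∈ D.W, ∀ w' ∈ D.Wp, D.cell w' = D.cell w → w' ∈ D.W
  cardWp : (D.Wp.card : ℝ) ≤ K * D.W.card
  p_pos : ∀ x ∈ D.X, 1 ≤ D.p x
  mu_pos : ∀ x ∈ D.X, 0 < D.mu x
  prob : ∑ x ∈ D.X, D.mub x = 1
  fibq : ∀ q : ℕ, ∑ x ∈ D.X with D.p x = q, D.mub x ≤ del
  onE_sub : ∀ e, D.onE e ⊆ D.X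
  onW_sub : ∀ w, D.onW w ⊆ D.X
  Maj_sub : ∀ e ∈ D.G, D.Maj e ⊆ D.onE e
  om_nn : ∀ e ∈ D.G, ∀ w, 0 ≤ D.om e w
  Z_Maj : ∀ e ∈ D.G, ∀ w, D.om e w ≠ 0 → D.Z e w ⊆ D.Maj e
  Z_onW : ∀ e ∈ D.G, ∀ w, D.om e w ≠ 0 → D.Z e w ⊆ D.onW w
  Z_card : ∀ e ∈ D.G, ∀ w, D.om e w ≠ 0 → (D.Z e w).card = D.k
  Z_inj : ∀ e ∈ D.G, ∀ w, D.om e w ≠ 0 → ∀ x ∈ D.Z e w, ∀ y ∈ D.Z e w, D.p x = D.p y → x = y
  d1_mem : ∀ x ∈ D.X, 1 / 2 ≤ D.d1 x ∧ D.d1 x ≤ 3 / 2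
  d2_mem : ∀ x ∈ D.X, ∀ y ∈ D.X, 1 / 2 ≤ D.d2 x y ∧ D.d2 x y ≤ 3 / 2
  d2_symm : ∀ x y, D.d2 x y = D.d2 y x
  coer : ∀ T ⊆ D.X, ∀ f : D.TX → ℝ, ∑ x ∈ T, D.mu x ≤ 2 → ∑ x ∈ T, D.mu x * f x = 0 →
    ∑ x ∈ T, D.mu x * f x * D.a x = 0 →
    |∑ x ∈ T, ∑ y ∈ T, D.mu x * f x * (D.mu y * f y) * D.d2 x y| ≤
        K / (D.k : ℝ) ^ 2 * ∑ x ∈ T, D.mu x * f x ^ 2 ∧
      |∑ x ∈ T, D.mu x * f x * D.d1 x| ≤ K / (D.k : ℝ) * Real.sqrt (∑ x ∈ T, D.mu x * f x ^ 2)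
  emod0 : ∀ e ∈ D.G, ∀ c, |∑ w ∈ D.fibp c, D.om e w - (D.fibp c).card| ≤ eps * (D.fibp c).card
  emod1 : ∀ e ∈ D.G, ∀ c, ∀ x ∈ D.Maj e,
    |∑ w ∈ D.fibp c with x ∈ D.Z e w, D.om e w - D.k * D.d1 x * D.mu x * (D.fibp c).card| ≤
      eps * D.k * D.mu x * (D.fibp c).card
  emod2 : ∀ e ∈ D.G, ∀ c, ∀ x ∈ D.Maj e, ∀ y ∈ D.Maj e, D.p x ≠ D.p y →
    |∑ w ∈ D.fibp c with x ∈ D.Z e w ∧ y ∈ D.Z e w, D.om e w -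
        D.k * (D.k - 1) * D.d2 x y * D.mu x * D.mu y * (D.fibp c).card| ≤
      eps * D.k ^ 2 * D.mu x * D.mu y * (D.fibp c).card
  var : ∀ S ⊆ D.X, S.card ≤ 2 → (∀ x ∈ S, ∀ y ∈ S, D.p x = D.p y → x = y) →
    ∀ (f : D.TW → ℝ) (φ : D.TE → Finset D.TX → (D.O → ℝ) → ℝ),
    (∀ w, f w ≠ 0 → w ∈ D.W ∧ S ⊆ D.onW w) → (∀ c, ∑ w ∈ D.fib c, f w = 0) →
    (∀ e Y l, φ e Y l ≠ 0 → S ⊆ Y) →
    (∑ e ∈ D.G, ∑ w ∈ D.W, f w * (D.om e w * φ e (D.Z e w) (D.lam e w))) ^ 2 ≤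
      del * D.G.card * (∏ x ∈ S, D.mu x) * (∑ w ∈ D.W, f w ^ 2) *
        ∑ e ∈ D.G, ∑ w ∈ D.Wp, D.om e w * φ e (D.Z e w) (D.lam e w) ^ 2
  cntW1 : ∀ c, ∀ x ∈ D.X,
    |(D.p x : ℝ) * ((D.fib c).filter fun w => x ∈ D.onW w).card - (D.fib c).card| ≤
      del * (D.fib c).card
  cntW2 : ∀ c, ∀ x ∈ D.X, ∀ y ∈ D.X, D.p x ≠ D.p y →
    |(D.p x : ℝ) * D.p y * ((D.fib c).filter fun w => x ∈ D.onW w ∧ y ∈ D.onW w).card -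
      (D.fib c).card| ≤ del * (D.fib c).card
  cntE : ∀ x ∈ D.X, (D.p x : ℝ) * (D.G.filter fun e => x ∈ D.onE e).card ≤ K * D.G.card
  cntE2 : ∀ x ∈ D.X, ∀ y ∈ D.X, D.p x ≠ D.p y →
    (D.p x : ℝ) * D.p y * (D.G.filter fun e => x ∈ D.onE e ∧ y ∈ D.onE e).card ≤ K * D.G.card
  smE : ∀ g : D.TX → ℝ,
    ∑ e ∈ D.G, (∑ x ∈ D.onE e, g x * D.mu x - ∑ x ∈ D.X, g x * D.mub x) ^ 2 ≤
      del * D.G.card * ∑ x ∈ D.X, g x ^ 2 * D.mub x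
  smEx : ∀ x0 ∈ D.X, ∀ g : D.TX → ℝ, (∀ x, D.p x = D.p x0 → g x = 0) →
    D.p x0 * ∑ e ∈ D.G with x0 ∈ D.onE e,
        (∑ x ∈ D.onE e, g x * D.mu x - ∑ x ∈ D.X, g x * D.mub x) ^ 2 ≤
      del * D.G.card * ∑ x ∈ D.X, g x ^ 2 * D.mub x
  smW : ∀ g : D.TX → ℝ,
    ∑ w ∈ D.W, (∑ x ∈ D.onW w, g x * D.mu x - ∑ x ∈ D.X, g x * D.mub x) ^ 2 ≤
      del * D.W.card * ∑ x ∈ D.X, g x ^ 2 * D.mub x
  muE : ∀ e ∈ D.G, ∑ x ∈ D.onE e, D.mu x ≤ 2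
  muMaj : ∀ e ∈ D.G, ∑ x ∈ D.onE e \ D.Maj e, D.mu x ≤ del
  primeE : ∀ e ∈ D.G, ∀ q : ℕ, ∑ x ∈ D.onE e with D.p x = q, D.mu x ≤ eps
  lam_le : ∀ e ∈ D.G, ∀ w ∈ D.Wp, ∑ i, D.lam e w i ^ 2 ≤ K ^ 2
  lam'_le : ∀ w ∈ D.W, ∀ e ∈ D.G, ∑ i, D.lam' w e i ^ 2 ≤ K ^ 2
  Phi_le : ∀ e ∈ D.G, ∀ w ∈ D.W, |D.Phi e w| ≤ K
  oscE : ∀ w ∈ D.W, ∀ e ∈ D.G, ∀ e' ∈ D.G, D.ecell e = D.ecell e' →
    ∑ i, (D.lam' w e i - D.lam' w e' i) ^ 2 ≤ eps ^ 2 ∧ |D.Phi e w - D.Phi e' w| ≤ eps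
  oscW : ∀ e ∈ D.G, ∀ w ∈ D.W, ∀ w' ∈ D.W, D.cell w = D.cell w' →
    ∑ i, (D.lam e w i - D.lam e w' i) ^ 2 ≤ eps ^ 2 ∧ |D.Phi e w - D.Phi e w'| ≤ eps
  oneE : ∀ e ∈ D.G, ∃ u : D.O → ℝ, ∀ w ∈ D.W, ∑ i, u i * D.lam e w i = 1
  oneW : ∀ w ∈ D.W, ∃ u : D.O' → ℝ, ∀ e ∈ D.G, ∑ i, u i * D.lam' w e i = 1
  prodE : ∀ e ∈ D.G, ∃ u : D.O → ℝ, ∀ w ∈ D.W, D.om e w ≠ 0 →
    ∑ i, u i * D.lam e w i = ∑ x ∈ D.Z e w, D.a x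
  prodW : ∀ w ∈ D.W, ∃ u : D.O' → ℝ, ∀ e ∈ D.G, D.om e w ≠ 0 →
    ∑ i, u i * D.lam' w e i = ∑ x ∈ D.Z e w, D.a x
  gram : ∀ e ∈ D.G, ∀ C : D.O → ℝ,
    c1 * (∑ i, C i ^ 2) * D.W.card ≤ ∑ w ∈ D.W, (∑ i, C i * D.lam e w i) ^ 2

/-- Unknowns of the dual problem. -/
structure Sol where
  c : D.TE → D.TX → ℝ
  c' : D.TW → D.TX → ℝ
  C : D.TE → D.O → ℝ
  C' : D.TW → D.O' → ℝ

/-- The residual of the relation attached to a pair. -/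
def Sol.Res {D : SD} (s : D.Sol) (e : D.TE) (w : D.TW) : ℝ :=
  ∑ x ∈ D.Z e w, s.c e x - ∑ x ∈ D.Z e w, s.c' w x +
    (∑ i, s.C e i * D.lam e w i - ∑ i, s.C' w i * D.lam' w e i - D.Phi e w)

/-- A homogeneous archimedean solution on `G × W`. -/
def Ker (B : D.TE → D.O → ℝ) (B' : D.TW → D.O' → ℝ) : Prop :=
  ∀ e ∈ D.G, ∀ w ∈ D.W, ∑ i, B e i * D.lam e w i = ∑ i, B' w i * D.lam' w e i

/-- The conclusion of section S. -/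
def Concl (eps er : ℝ) : Prop :=
  ∃ (Wa : Finset D.TW) (C : D.TE → D.O → ℝ) (C' : D.TW → D.O' → ℝ), Wa ⊆ D.W ∧
    ((D.W \ Wa).card : ℝ) ≤ eps * D.W.card ∧
    (∀ B B', D.Ker B B' → ∑ w ∈ Wa, ∑ i, C' w i * B' w i = 0) ∧
    ∑ e ∈ D.G, ∑ w ∈ Wa,
        (∑ i, C e i * D.lam e w i - ∑ i, C' w i * D.lam' w e i - D.Phi e w) ^ 2 ≤
      er * ((∑ w ∈ Wa, ∑ i, C' w i ^ 2) + Wa.card) * D.G.card

end SD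

/-- Final statement of section S. -/
def St_S : Prop := ∀ K c1 : ℝ, 0 < c1 → ∃ KS : ℝ, 1 ≤ KS ∧ ∀ (k b : ℕ) (eps : ℝ), KS ≤ k →
  0 < eps → KS * (k : ℝ) ^ 8 * eps ≤ 1 → ∃ del : ℝ, 0 < del ∧ del ≤ eps ∧ ∀ D : SD, D.k = k →
    D.b ≤ b → D.Hyp K c1 eps del → ∀ s : D.Sol,
    (∀ e ∈ D.G, ∀ w ∈ D.W, D.om e w ≠ 0 → s.Res e w = 0) → D.Concl eps (KS / k)

end Pool.Agent.Lib.BK2
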