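import Pool.Agent.Lib.BK2.SUp

/-! BK2, section S: few flags see much weight through a thin set of slots. -/

open Finset
open scoped Classical

set_option linter.unusedVariables false

noncomputable section

namespace Pool.Agent.Lib.BK2.SGain

open WM SUp

variable {D : SD} {K c1 eps del : ℝ}

theorem card_maj (H : D.Hyp K c1 eps del) {x : D.TX} (hx : x ∈ D.X) :
    (D.p x : ℝ) * (D.G.filter fun e => x ∈ D.Maj e).card ≤ K * D.G.card := by
  refine le_trans (mul_le_mul_of_nonneg_left ?_ (p_pos H hx).le) (H.cntE x hx)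
  exact_mod_cast card_le_card fun e he => by
    simp only [mem_filter] at he ⊢
    exact ⟨he.1, H.Maj_sub e he.1 he.2⟩

/-- the cell sum of one curve `e` -/
theorem cell_e (H : D.Hyp K c1 eps del) {e' : ℝ} (he' : 0 < e') {x : D.TX} (hx : x ∈ D.X)
    (σ : D.TE → D.TX → Prop) {e : D.TE} (he : e ∈ D.G)
    (h2 : x ∈ D.Maj e → ∑ y ∈ D.Maj e with σ e y, D.mu y ≤ e' ∨ σ e x) (c : D.TC) :
    ∑ v ∈ D.fibp c, (if x ∈ D.Z e v ∧ ∃ y ∈ D.Z e v, σ e y then D.om e v else 0) ≤
      (if x ∈ D.Maj e ∧ σ e x then 2 * D.k * D.mu x * (D.fibp c).card else 0) +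
      (if x ∈ D.Maj e then 2 * (D.k : ℝ) ^ 2 * D.mu x * e' * (D.fibp c).card else 0) := by
  have hm := H.mu_pos x hx
  by_cases hM : x ∈ D.Maj e
  · by_cases hs : σ e x
    · rw [if_pos ⟨hM, hs⟩, if_pos hM]
      have h1 := up1c H he c hM
      rw [sum_filter] at h1
      have h3 : ∑ v ∈ D.fibp c, (if x ∈ D.Z e v ∧ ∃ y ∈ D.Z e v, σ e y then D.om e v else 0) ≤
          ∑ v ∈ D.fibp c, (if x ∈ D.Z e v then D.om e v else 0) := by
        refine sum_le_sum fun v _ => ?_
        by_cases h : x ∈ D.Z e v ∧ ∃ y ∈ D.Z e v, σ e y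
        · rw [if_pos h, if_pos h.1]
        · rw [if_neg h]
          split_ifs
          · exact H.om_nn e he v
          · exact le_rfl
      have h4 : 0 ≤ 2 * (D.k : ℝ) ^ 2 * D.mu x * e' * (D.fibp c).card := by positivity
      linarith
    · rw [if_neg (fun h => hs h.2), if_pos hM, zero_add]
      have h5 := (h2 hM).resolve_right hs
      set S := (D.Maj e).filter fun y => σ e y ∧ D.p x ≠ D.p y with hS
      have h3 : ∑ v ∈ D.fibp c, (if x ∈ D.Z e v ∧ ∃ y ∈ D.Z e v, σ e y then D.om e v else 0) ≤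
          ∑ v ∈ D.fibp c, ∑ y ∈ S, (if x ∈ D.Z e v ∧ y ∈ D.Z e v then D.om e v else 0) := by
        refine sum_le_sum fun v _ => ?_
        have hnn : ∀ y ∈ S, 0 ≤ (if x ∈ D.Z e v ∧ y ∈ D.Z e v then D.om e v else 0) := by
          intro y _
          split_ifs
          · exact H.om_nn e he v
          · exact le_rfl
        by_cases h : x ∈ D.Z e v ∧ ∃ y ∈ D.Z e v, σ e y
        · rw [if_pos h]
          by_cases h0 : D.om e v = 0
          · rw [h0]
            simp
          · obtain ⟨hxZ, y, hy, hσ⟩ := h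
            have hyS : y ∈ S := by
              rw [hS, mem_filter]
              refine ⟨H.Z_Maj e he v h0 hy, hσ, fun hp => hs ?_⟩
              rw [H.Z_inj e he v h0 x hxZ y hy hp]
              exact hσ
            have := single_le_sum hnn hyS
            rwa [if_pos ⟨hxZ, hy⟩] at this
        · rw [if_neg h]
          exact sum_nonneg hnn
      rw [sum_comm] at h3
      have h6 : ∑ y ∈ S, ∑ v ∈ D.fibp c, (if x ∈ D.Z e v ∧ y ∈ D.Z e v then D.om e v else 0) ≤
          ∑ y ∈ S, 2 * (D.k : ℝ) ^ 2 * D.mu x * (D.fibp c).card * D.mu y := by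
        refine sum_le_sum fun y hy => ?_
        rw [hS, mem_filter] at hy
        have := up2c H he c hM hy.1 hy.2.2
        rw [sum_filter] at this
        linarith
      rw [← mul_sum] at h6
      have h7 : ∑ y ∈ S, D.mu y ≤ e' := by
        refine le_trans (sum_le_sum_of_subset_of_nonneg ?_ ?_) h5
        · intro y hy
          rw [hS, mem_filter] at hy
          exact mem_filter.2 ⟨hy.1, hy.2.1⟩
        · intro y hy _
          exact (H.mu_pos y (maj_X H he (mem_filter.1 hy).1)).le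
      have h8 := mul_le_mul_of_nonneg_left h7
        (by positivity : 0 ≤ 2 * (D.k : ℝ) ^ 2 * D.mu x * (D.fibp c).card)
      linarith
  · rw [if_neg (fun h => hM h.1), if_neg hM, add_zero]
    refine le_of_eq (sum_eq_zero fun v _ => ?_)
    split_ifs with h
    · by_contra h0
      exact hM (H.Z_Maj e he v h0 h.1)
    · rfl

theorem gain (H : D.Hyp K c1 eps del) {e' : ℝ} (he' : 0 < e') {x : D.TX} (hx : x ∈ D.X)
    (σ : D.TE → D.TX → Prop)
    (h1 : (D.p x : ℝ) * (D.G.filter fun e => x ∈ D.Maj e ∧ σ e x).card ≤ e' * D.G.card)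
    (h2 : ∀ e ∈ D.G, x ∈ D.Maj e → ∑ y ∈ D.Maj e with σ e y, D.mu y ≤ e' ∨ σ e x) :
    (D.p x : ℝ) * (D.W.filter fun w => x ∈ D.onW w ∧
      5 * K * (D.k : ℝ) ^ 2 * e' * D.mu x * D.G.card <
        ∑ e ∈ D.G with x ∈ D.Z e w ∧ ∃ y ∈ D.Z e w, σ e y, D.om e w).card ≤
      del / e' ^ 2 * D.W.card := by
  have hm := H.mu_pos x hx
  have hp := p_pos H hx
  have hG := G_pos H
  have hW := W_pos H
  have hk := k_two H
  have hK := H.hK
  have hd := H.hd
  set T := D.W.filter fun w => x ∈ D.onW w with hT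
  set N : D.TW → ℝ := fun w =>
    ∑ e ∈ D.G, if x ∈ D.Z e w ∧ ∃ y ∈ D.Z e w, σ e y then D.om e w else 0 with hN
  have hT' : ∀ w, w ∈ T ↔ w ∈ D.W ∧ {x} ⊆ D.onW w := fun w => by simp [hT]
  have hπ : ∀ e (Y : Finset D.TX), (x ∈ Y ∧ ∃ y ∈ Y, σ e y) → {x} ⊆ Y := fun e Y h => by
    simpa using h.1
  have hcm := card_maj H hx
  -- variance
  have hv := dv H {x} (by simpa using hx) (by simp) (by simp)
    (fun e Y => x ∈ Y ∧ ∃ y ∈ Y, σ e y) hπ T (fun w hw => (hT' w).1 hw) N (fun w => by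
      rw [hN]
      exact sum_congr rfl fun e _ => by congr)
  have hU : ∑ e ∈ D.G, ∑ w ∈ D.Wp,
      (if x ∈ D.Z e w ∧ ∃ y ∈ D.Z e w, σ e y then D.om e w else 0) ≤
      (D.G.filter fun e => x ∈ D.Maj e).card * (2 * D.k * D.mu x * (K * D.W.card)) := by
    rw [← nsmul_eq_mul, ← sum_const, sum_filter]
    refine sum_le_sum fun e he => ?_
    split_ifs with hM
    · refine le_trans (sum_le_sum fun v _ => ?_) (up1 H he hM)
      by_cases h : x ∈ D.Z e v ∧ ∃ y ∈ D.Z e v, σ e y
      · rw [if_pos h, if_pos h.1]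
      · rw [if_neg h]
        split_ifs
        · exact H.om_nn e he v
        · exact le_rfl
    · refine le_of_eq (sum_eq_zero fun v _ => ?_)
      split_ifs with h
      · by_contra h0
        exact hM (H.Z_Maj e he v h0 h.1)
      · rfl
  have hv2 : (D.p x : ℝ) * ∑ w ∈ T, (N w - cmean T D.cell N w) ^ 2 ≤
      2 * del * D.k * K ^ 2 * D.mu x ^ 2 * (D.G.card : ℝ) ^ 2 * D.W.card := by
    rw [prod_singleton] at hv
    have h3 : ∑ w ∈ T, (N w - cmean T D.cell N w) ^ 2 ≤ del * D.G.card * D.mu x *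
        ((D.G.filter fun e => x ∈ D.Maj e).card * (2 * D.k * D.mu x * (K * D.W.card))) := by
      refine hv.trans (mul_le_mul_of_nonneg_left (le_trans (le_of_eq ?_) hU) (by positivity))
      exact sum_congr rfl fun e _ => sum_congr rfl fun w _ => by congr
    have h4 := mul_le_mul_of_nonneg_left h3 hp.le
    have h5 := mul_le_mul_of_nonneg_left hcm
      (by positivity : 0 ≤ del * D.G.card * D.mu x * (2 * D.k * D.mu x * (K * D.W.card)))
    nlinarith
  -- cell means
  have hlow : ∀ w ∈ T, cmean T D.cell N w ≤ 4 * K * (D.k : ℝ) ^ 2 * e' * D.mu x * D.G.card := by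
    intro w hw
    have hwW := ((hT' w).1 hw).1
    have hs := cell_sum H {x} (fun e Y => x ∈ Y ∧ ∃ y ∈ Y, σ e y) hπ T hT' N (fun w => by
      rw [hN]
      exact sum_congr rfl fun e _ => by congr) hwW
    set s : ℝ := ((D.fibp (D.cell w)).card : ℝ) with hsd
    have hs0 : 0 ≤ s := Nat.cast_nonneg _
    have hnum : ∑ v ∈ T.filter (fun v => D.cell v = D.cell w), N v ≤
        (D.G.filter fun e => x ∈ D.Maj e ∧ σ e x).card * (2 * D.k * D.mu x * s) +
        (D.G.filter fun e => x ∈ D.Maj e).card * (2 * (D.k : ℝ) ^ 2 * D.mu x * e' * s) := by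
      rw [hs, ← nsmul_eq_mul, ← nsmul_eq_mul, ← sum_const, ← sum_const, sum_filter, sum_filter,
        ← sum_add_distrib]
      refine sum_le_sum fun e he => ?_
      refine le_trans (le_of_eq ?_) (cell_e H he' hx σ he (h2 e he) (D.cell w))
      exact sum_congr rfl fun w _ => by congr
    have hc := (abs_le.1 (H.cntW1 (D.cell w) x hx)).1
    have hfe : (D.fib (D.cell w)).filter (fun v => x ∈ D.onW v) =
        T.filter (fun v => D.cell v = D.cell w) := by
      ext v
      simp only [SD.fib, hT, mem_filter]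
      tauto
    rw [hfe, fib_eq H hwW, ← hsd] at hc
    set n : ℝ := ((T.filter (fun v => D.cell v = D.cell w)).card : ℝ) with hn
    have hn0 : 0 < n := by
      rw [hn]
      have : 0 < (T.filter (fun v => D.cell v = D.cell w)).card :=
        card_pos.2 ⟨w, mem_filter.2 ⟨hw, rfl⟩⟩
      exact_mod_cast this
    have hdel : del ≤ 1 / 100 := H.hde.trans H.he1
    have hsn : s ≤ 100 / 99 * (D.p x * n) := by nlinarith
    unfold cmean
    rw [div_le_iff₀ hn0]
    refine le_of_mul_le_mul_left ?_ hp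
    have a1 := mul_le_mul_of_nonneg_left hnum hp.le
    have a2 := mul_le_mul_of_nonneg_right h1 (by positivity : 0 ≤ 2 * D.k * D.mu x * s)
    have a3 := mul_le_mul_of_nonneg_right hcm
      (by positivity : 0 ≤ 2 * (D.k : ℝ) ^ 2 * D.mu x * e' * s)
    have a4 : 2 * (D.k : ℝ) ≤ K * (D.k : ℝ) ^ 2 := by nlinarith
    have a5 := mul_le_mul_of_nonneg_right a4 (by positivity : 0 ≤ e' * D.G.card * D.mu x * s)
    have a6 := mul_le_mul_of_nonneg_left hsn
      (by positivity : 0 ≤ K * (D.k : ℝ) ^ 2 * e' * D.mu x * D.G.card)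
    have a7 : 0 ≤ K * (D.k : ℝ) ^ 2 * e' * D.mu x * D.G.card * (D.p x * n) := by positivity
    nlinarith
  -- Chebyshev
  set t : ℝ := K * (D.k : ℝ) ^ 2 * e' * D.mu x * D.G.card with ht
  have ht0 : 0 < t := by positivity
  have hM := markov_card T (fun w => 5 * K * (D.k : ℝ) ^ 2 * e' * D.mu x * D.G.card < N w)
    (fun w => (N w - cmean T D.cell N w) ^ 2) (t ^ 2) (by positivity)
    (fun w _ => sq_nonneg _) (fun w hw h => by
      have := hlow w hw
      exact pow_le_pow_left₀ ht0.le (by linarith) 2)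
  have hset : (D.W.filter fun w => x ∈ D.onW w ∧
      5 * K * (D.k : ℝ) ^ 2 * e' * D.mu x * D.G.card <
        ∑ e ∈ D.G with x ∈ D.Z e w ∧ ∃ y ∈ D.Z e w, σ e y, D.om e w) =
      T.filter (fun w => 5 * K * (D.k : ℝ) ^ 2 * e' * D.mu x * D.G.card < N w) := by
    ext w
    simp only [hT, hN, mem_filter, sum_filter, and_assoc]
  rw [hset]
  rw [le_div_iff₀ (by positivity)] at hM
  have b1 := mul_le_mul_of_nonneg_left hM hp.le
  set n : ℝ := (D.p x : ℝ) *
    (T.filter (fun w => 5 * K * (D.k : ℝ) ^ 2 * e' * D.mu x * D.G.card < N w)).card with hn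
  have hn0 : 0 ≤ n := by positivity
  have b2 : n * t ^ 2 ≤ 2 * del * D.k * K ^ 2 * D.mu x ^ 2 * (D.G.card : ℝ) ^ 2 * D.W.card := by
    refine le_trans (le_of_eq ?_) (b1.trans hv2)
    rw [hn]; ring
  rw [div_mul_eq_mul_div, le_div_iff₀ (by positivity)]
  have b3 : 2 * (D.k : ℝ) ≤ (D.k : ℝ) ^ 4 := by
    have : (8 : ℝ) ≤ (D.k : ℝ) ^ 3 := by
      have := pow_le_pow_left₀ (by norm_num : (0 : ℝ) ≤ 2) hk 3
      linarith
    nlinarith
  refine le_of_mul_le_mul_right ?_
    (by positivity : 0 < (D.k : ℝ) ^ 4 * K ^ 2 * D.mu x ^ 2 * (D.G.card : ℝ) ^ 2)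
  have b4 := mul_le_mul_of_nonneg_right b3
    (by positivity : 0 ≤ del * K ^ 2 * D.mu x ^ 2 * (D.G.card : ℝ) ^ 2 * D.W.card)
  calc _ = n * t ^ 2 := by rw [ht]; ring
    _ ≤ _ := b2
    _ ≤ _ := by linarith

end Pool.Agent.Lib.BK2.SGain
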