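import Pool.Agent.Lib.BK2.SInt

/-! BK2, section S: assembly of the blocks. -/

open Finset

namespace Pool.Agent.Lib.BK2

theorem SD.Concl.mono {D : SD} {eps er er' : ℝ} (h : D.Concl eps er) (hle : er ≤ er') :
    D.Concl eps er' := by
  obtain ⟨Wa, C, C', h1, h2, h3, h4⟩ := h
  refine ⟨Wa, C, C', h1, h2, h3, h4.trans ?_⟩
  exact mul_le_mul_of_nonneg_right (mul_le_mul_of_nonneg_right hle (by positivity))
    (Nat.cast_nonneg _)

theorem stS_of (hA : St_TA) (hS : St_TS) (hP : St_TP) (hV : St_TV) (ha : St_WMa) (hm : St_WMm)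
    (h1 : St_WM1) (h2 : St_WM2) (hG : St_GAIN) (hC : St_CLN) (hF : St_SFIN) : St_S := by
  intro K c1 hc
  obtain ⟨KS, hKS, HF⟩ := hF K c1 hc
  refine ⟨KS + 10 ^ 8 * |K| ^ 3, le_add_of_le_of_nonneg hKS (by positivity), ?_⟩
  intro k b eps hk he hs
  obtain ⟨t, ht, HC⟩ := hC K k eps he
  obtain ⟨d0, τ, e0, hτ, H0⟩ := pre_of hA hS hP hV K k b eps t he ht
  obtain ⟨da, ea, Ha⟩ := ha K k b eps t he ht
  obtain ⟨dm, em, Hm⟩ := hm K k b eps t he ht
  obtain ⟨d1, e1, H1⟩ := h1 K k b eps t he ht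
  obtain ⟨d2, e2, H2⟩ := h2 K k b eps t he ht
  obtain ⟨dG, eG, HG⟩ := hG K k b eps t he ht
  obtain ⟨del, hd, b0, ba, bm, b1, b2, bG, be⟩ : ∃ del : ℝ, 0 < del ∧ del ≤ d0 ∧ del ≤ da ∧
      del ≤ dm ∧ del ≤ d1 ∧ del ≤ d2 ∧ del ≤ dG ∧ del ≤ eps :=
    ⟨min d0 (min da (min dm (min d1 (min d2 (min dG eps))))), by positivity, by simp, by simp,
      by simp, by simp, by simp, by simp, by simp⟩
  refine ⟨del, hd, be, fun D hDk hDb H s hsol => ?_⟩
  have : Nonempty ↥D.G := H.G_ne.to_subtype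
  have : Nonempty ↥D.W := H.W_ne.to_subtype
  have hK := H.hK
  rw [abs_of_nonneg (by linarith : 0 ≤ K)] at hk hs ⊢
  have hK3 : K ≤ K ^ 3 := le_self_pow₀ hK three_ne_zero
  have hk1 : (1 : ℝ) ≤ k := by linarith
  have hk4 : (k : ℝ) ^ 4 ≤ (k : ℝ) ^ 8 := pow_le_pow_right₀ hk1 (by norm_num)
  have hk8 : (1 : ℝ) ≤ (k : ℝ) ^ 8 := one_le_pow₀ hk1
  have hP0 := H0 D c1 del hDk hDb b0 H
  have c1' : 10 ^ 8 * K ^ 3 * (k : ℝ) ^ 4 * eps ≤ 1 :=
    le_trans (mul_le_mul_of_nonneg_right (mul_le_mul (by linarith) hk4 (by positivity)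
      (by positivity)) he.le) hs
  have c2 : KS * eps ≤ 1 := by
    refine le_trans (mul_le_mul_of_nonneg_right ?_ he.le) hs
    exact le_trans (by linarith) (le_mul_of_one_le_right (by linarith) hk8)
  obtain ⟨Ga, Wa, AE, AW, hok, hWa⟩ := HC _ _ _ _ _ _ (D.toCD K) τ (1 / (1000 * K * k)) rfl hDk hτ
    hP0.a hP0.s hP0.vv (Ha D c1 del hDk hDb ba H) (Hm D c1 del hDk hDb bm H)
    (H1 D c1 del hDk hDb b1 H) (H2 D c1 del hDk hDb b2 H) (HG D c1 del hDk hDb bG H)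
    (by
      change 100 * K ≤ (D.k : ℝ)
      rw [hDk]
      linarith) (by positivity)
    (by
      change 1000 * K * (D.k : ℝ) * _ ≤ 1
      rw [hDk, mul_one_div_cancel (by positivity)])
    (by
      change 100 * K * (D.k : ℝ) ^ 2 * eps ≤ _
      rw [hDk, one_div_pow, le_div_iff₀ (by positivity)]
      refine le_trans (le_of_eq ?_) c1'
      ring)
  have h3 := HF D eps del _ H (by rw [hDk]; linarith) s hsol c2 Ga Wa AE AW hok
    (le_trans (le_of_eq (congrArg (fun S : Finset ↥D.W => (S.card : ℝ)) (by ext; simp))) hWa)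
  rw [hDk] at h3
  exact h3.mono (div_le_div_of_nonneg_right (by linarith) (by linarith))

end Pool.Agent.Lib.BK2
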