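import Pool.Agent.Lib.BK2.SDefs
import Pool.Agent.Lib.BK2.CDefs

/-! BK2, section S: internal statements.  `SD.toCD` restricts the data to finite types;
`PreA, PreS, PreV` are the hypotheses before cleaning; WM and CLN lead to `CD.Ok`. -/

open Finset
open scoped Classical

set_option linter.unusedVariables false

noncomputable section

namespace Pool.Agent.Lib.BK2

namespace Co

variable {G W X C O O' : Type} [Fintype G] [Fintype W] [Fintype X] [Fintype C] [Fintype O]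
  [Fintype O']

/-- fraction of the elements with a property -/
def fr {ι : Type} [Fintype ι] (P : ι → Prop) : ℝ := av fun i => if P i then (1 : ℝ) else 0

/-- Hypotheses that are plain restrictions of the ambient ones. -/
structure CD.PreA (D : CD G W X C O O') (eps τ : ℝ) : Prop where
  K1 : 1 ≤ D.K
  k2 : 2 ≤ D.k
  eps0 : 0 < eps
  eps1 : eps ≤ 1 / 100
  τ0 : 0 < τ
  τe : τ ≤ eps
  om_nn : ∀ e w, 0 ≤ D.om e w
  mu_pos : ∀ x, 0 < D.mu x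
  q_one : ∀ x, 1 ≤ D.q x
  hZ : ∀ e w, D.om e w ≠ 0 → D.Z e w ⊆ D.ME e ∧ D.Z e w ⊆ D.MW w ∧ (D.Z e w).card = D.k ∧
    ∀ x ∈ D.Z e w, ∀ y ∈ D.Z e w, D.q x = D.q y → x = y
  d1_lo : ∀ x, 1 / 2 ≤ D.d1 x
  d1_hi : ∀ x, D.d1 x ≤ 3 / 2
  d2_lo : ∀ x y, 1 / 2 ≤ D.d2 x y
  d2_hi : ∀ x y, D.d2 x y ≤ 3 / 2
  d2_symm : ∀ x y, D.d2 x y = D.d2 y x
  coer : ∀ (T : Finset X) (f : X → ℝ), D.ms T ≤ 2 → ∑ x ∈ T, D.mu x * f x = 0 →
    ∑ x ∈ T, D.mu x * f x * D.a x = 0 →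
    |∑ x ∈ T, ∑ y ∈ T, D.mu x * f x * (D.mu y * f y) * D.d2 x y| ≤
      D.K / (D.k : ℝ) ^ 2 * ∑ x ∈ T, D.mu x * f x ^ 2 ∧
    |∑ x ∈ T, D.mu x * f x * D.d1 x| ≤ D.K / D.k * √(∑ x ∈ T, D.mu x * f x ^ 2)
  prob : ∑ x, D.mu x / D.q x = 1
  fibq : ∀ x, ∑ y with D.q y = D.q x, D.mu y / D.q y ≤ τ
  ME_le : ∀ e, D.ms (D.ME e) ≤ 2
  ME_pr : ∀ e x, D.ms ((D.ME e).filter fun y => D.q y = D.q x) ≤ eps
  sz_pos : ∀ c, 0 < D.sz c
  E0 : ∀ e c, |D.NE e c (fun _ => True) - D.sz c| ≤ eps * D.sz c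
  E1 : ∀ e c, ∀ x ∈ D.ME e,
    |D.NE e c (fun w => x ∈ D.Z e w) - D.k * D.d1 x * D.mu x * D.sz c| ≤
      eps * D.k * D.mu x * D.sz c
  E2 : ∀ e c, ∀ x ∈ D.ME e, ∀ y ∈ D.ME e, D.q x ≠ D.q y →
    |D.NE e c (fun w => x ∈ D.Z e w ∧ y ∈ D.Z e w) -
      D.k * (D.k - 1) * D.d2 x y * D.mu x * D.mu y * D.sz c| ≤
      eps * D.k ^ 2 * D.mu x * D.mu y * D.sz c
  cntE : ∀ x, D.q x * av (fun e => if x ∈ D.ME e then (1 : ℝ) else 0) ≤ D.K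
  cntW : ∀ c x, |D.q x * D.szx c x - D.sz c| ≤ τ * D.sz c
  cntW2 : ∀ c x y, D.q x ≠ D.q y →
    |D.q x * D.q y * ((univ.filter fun w => D.cell w = c ∧ x ∈ D.MW w ∧ y ∈ D.MW w).card : ℝ) -
      D.sz c| ≤ τ * D.sz c
  lam_le : ∀ e w, ∑ j, D.lam e w j ^ 2 ≤ D.K ^ 2
  lam'_le : ∀ w e, ∑ j, D.lam' w e j ^ 2 ≤ D.K ^ 2
  Phi_le : ∀ e w, |D.Phi e w| ≤ D.K
  lamC_le : ∀ e c, ∑ j, D.lamC e c j ^ 2 ≤ D.K ^ 2
  PhiC_le : ∀ e c, |D.PhiC e c| ≤ D.K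
  lamB_le : ∀ w b, ∑ j, D.lamB w b j ^ 2 ≤ D.K ^ 2
  PhiB_le : ∀ w b, |D.PhiB w b| ≤ D.K
  lamC_osc : ∀ e w, ∑ j, (D.lam e w j - D.lamC e (D.cell w) j) ^ 2 ≤ eps ^ 2
  PhiC_osc : ∀ e w, |D.Phi e w - D.PhiC e (D.cell w)| ≤ eps
  lamB_osc : ∀ w e, ∑ j, (D.lam' w e j - D.lamB w (D.ec e) j) ^ 2 ≤ eps ^ 2
  PhiB_osc : ∀ w e, |D.Phi e w - D.PhiB w (D.ec e)| ≤ eps

/-- Second moment hypotheses, with the majority points on the `e`-side. -/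
structure CD.PreS (D : CD G W X C O O') (τ : ℝ) : Prop where
  sm : ∀ g : X → ℝ, av (fun e => (∑ x ∈ D.ME e, D.mu x * g x - ∑ x, D.mu x * g x / D.q x) ^ 2) ≤
    τ ^ 2 * ∑ x, D.mu x * g x ^ 2 / D.q x
  smx : ∀ (x0 : X) (g : X → ℝ), (∀ x, D.q x = D.q x0 → g x = 0) →
    D.q x0 * av (fun e => if x0 ∈ D.ME e then
      (∑ x ∈ D.ME e, D.mu x * g x - ∑ x, D.mu x * g x / D.q x) ^ 2 else 0) ≤
    τ ^ 2 * ∑ x, D.mu x * g x ^ 2 / D.q x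
  smW : ∀ g : X → ℝ, av (fun w => (∑ x ∈ D.MW w, D.mu x * g x - ∑ x, D.mu x * g x / D.q x) ^ 2) ≤
    τ ^ 2 * ∑ x, D.mu x * g x ^ 2 / D.q x

/-- The variance bound for predicates. -/
def CD.VP (D : CD G W X C O O') (τ : ℝ) : Prop :=
  ∀ S : Finset X, S.card ≤ 2 → (∀ x ∈ S, ∀ y ∈ S, D.q x = D.q y → x = y) →
    ∀ (π : G → Finset X → Prop) (A : G → Prop) (f : W → ℝ), (∀ e Y, π e Y → S ⊆ Y ∧ A e) →
    (∀ w, f w ≠ 0 → S ⊆ D.MW w) → (∀ c, ∑ w with D.cell w = c, f w = 0) →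
    (∑ w, f w * D.mW w (fun e => π e (D.Z e w))) ^ 2 ≤
      τ ^ 2 * (∏ x ∈ S, D.mu x) ^ 2 * Fintype.card W *
        fr (fun e => S ⊆ D.ME e ∧ A e) * ∑ w, f w ^ 2

/-- The variance bounds used by CORE. -/
structure CD.VV (D : CD G W X C O O') (τ : ℝ) : Prop where
  V0 : ∀ (c : G → X → ℝ) (A : G → O → ℝ) (f : Fin D.nb → W → ℝ) (S : ℝ), 0 ≤ S →
    (∀ b c0, ∑ w, (if D.cell w = c0 then f b w else 0) = 0) →
    (∀ b, av (fun w => f b w ^ 2) ≤ S ^ 2) →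
    |D.ip (fun e w => f (D.ec e) w) (fun e w => D.Af c e w + D.alp A e w)| ≤
      τ * S * (D.k * D.nE c + nA A)
  V1 : ∀ (c : G → X → ℝ) (A : G → O → ℝ) (f : W → X → ℝ),
    (∀ x c0, ∑ w, (if D.cell w = c0 ∧ x ∈ D.MW w then f w x else 0) = 0) →
    |D.ip (D.Bf f) (fun e w => D.Af c e w + D.alp A e w)| ≤
      τ * D.k * D.nW f * (D.k * D.nE c + nA A)

/-- Everything before cleaning. -/
structure CD.Pre (D : CD G W X C O O') (eps τ : ℝ) : Prop where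
  a : D.PreA eps τ
  s : D.PreS τ
  vp : D.VP τ
  vv : D.VV τ

namespace CD

variable (D : CD G W X C O O')

/-- the model holds at `w` -/
def gW0 (eps : ℝ) (w : W) : Prop := ∑ b, |D.mW w (fun e => D.ec e = b) - D.nB b| ≤ 10 * eps

/-- the one point model holds at the flag `(w, x)` -/
def gF1 (eps : ℝ) (w : W) (x : X) : Prop :=
  ∑ b, |D.mW w (fun e => D.ec e = b ∧ x ∈ D.Z e w) - D.k * D.d1 x * D.mu x * D.nB b| ≤
    10 * eps * D.k * D.mu x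

/-- the two point model holds at the flag `(w, x)` -/
def gF2 (eps : ℝ) (w : W) (x : X) : Prop :=
  ∑ y ∈ (D.MW w).filter (fun y => D.q y ≠ D.q x),
    |D.mW w (fun e => x ∈ D.Z e w ∧ y ∈ D.Z e w) -
      D.k * (D.k - 1) * D.d2 x y * D.mu x * D.mu y| ≤ 10 * eps * D.k ^ 2 * D.mu x

/-- the masses on `w` are regular -/
def gWm (eps : ℝ) (w : W) : Prop :=
  D.ms (D.MW w) ≤ 2 ∧ ∀ x, D.ms ((D.MW w).filter fun y => D.q y = D.q x) ≤ eps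

/-- mass of the flags `(w, x)` with a property -/
def flW (P : W → X → Prop) : ℝ := av fun w => D.ms ((D.MW w).filter (P w))

/-- the gain step of the cleaning -/
def Gain (eps t : ℝ) : Prop := ∀ (x : X) (σ : G → X → Prop),
  D.q x * fr (fun e => x ∈ D.ME e ∧ σ e x) ≤ eps →
  (∀ e, x ∈ D.ME e → D.ms ((D.ME e).filter (σ e)) ≤ eps ∨ σ e x) →
  D.q x * fr (fun w => x ∈ D.MW w ∧ 13 * D.K * D.k ^ 2 * eps * D.mu x <
    D.mW w (fun e => x ∈ D.Z e w ∧ ∃ y ∈ D.Z e w, σ e y)) ≤ t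

def oWMa (eps t : ℝ) : Prop :=
  fr (fun w => ¬ D.gW0 eps w) ≤ t ∧ av (fun w => D.mW w (fun _ => True) ^ 2) ≤ 10

def oWMm (eps t : ℝ) : Prop := fr (fun w => ¬ D.gWm eps w) ≤ t

def oWM1 (eps t : ℝ) : Prop := D.flW (fun w x => ¬ D.gF1 eps w x) ≤ t ∧
  av (fun w => ∑ x ∈ D.MW w, D.mW w (fun e => x ∈ D.Z e w) ^ 2 / D.mu x) ≤ 1000 * (D.k : ℝ) ^ 2

def oWM2 (eps t : ℝ) : Prop :=
  D.flW (fun w x => D.ms (D.MW w) ≤ 2 ∧ ¬ D.gF2 eps w x) ≤ t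

/-- replace the alive items -/
def alive (δ : ℝ) (Ga : Finset G) (Wa : Finset W) (AE : Finset (G × X)) (AW : Finset (W × X)) :
    CD G W X C O O' :=
  { D with δ := δ, Ga := Ga, Wa := Wa, AE := AE, AW := AW }

end CD

/-- for all structural constants and every `t > 0`, the property holds when `τ` is small -/
def Sml (P : ∀ (G W X C O O' : Type) [Fintype G] [Fintype W] [Fintype X] [Fintype C] [Fintype O]
    [Fintype O'], CD G W X C O O' → ℝ → ℝ → Prop) : Prop :=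
  ∀ (K : ℝ) (k b : ℕ) (eps t : ℝ), 0 < eps → 0 < t → ∃ τ0 : ℝ, 0 < τ0 ∧
    ∀ (G W X C O O' : Type) [Fintype G] [Fintype W] [Fintype X] [Fintype C] [Fintype O]
      [Fintype O'] [Nonempty G] [Nonempty W] (D : CD G W X C O O') (τ : ℝ), D.K = K → D.k = k →
      D.nb ≤ b → τ ≤ τ0 → D.Pre eps τ → P G W X C O O' D eps t

end Co

open Co

namespace SD

variable (D : SD)

/-- a representative of a cell of `W` -/
def rep (c : ↥(D.W.image D.cell)) : D.TW := (mem_image.1 c.2).choose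

/-- restriction of the data to finite types -/
def toCD (K : ℝ) : CD ↥D.G ↥D.W ↥D.X ↥(D.W.image D.cell) D.O D.O' where
  nb := D.b
  k := D.k
  K := K
  δ := 1
  om e w := D.om e w
  Z e w := (D.Z e w).subtype (· ∈ D.X)
  mu x := D.mu x
  q x := D.p x
  a x := D.a x
  d1 x := D.d1 x
  d2 x y := D.d2 x y
  ME e := (D.Maj e).subtype (· ∈ D.X)
  MW w := (D.onW w).subtype (· ∈ D.X)
  cell w := ⟨D.cell w, mem_image_of_mem _ w.2⟩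
  ec e := D.ecell e
  lam e w := D.lam e w
  lam' w e := D.lam' w e
  Phi e w := D.Phi e w
  lamC e c := D.lam e (D.rep c)
  PhiC e c := D.Phi e (D.rep c)
  lamB w t := if h : ∃ e ∈ D.G, D.ecell e = t then D.lam' w h.choose else 0
  PhiB w t := if h : ∃ e ∈ D.G, D.ecell e = t then D.Phi h.choose w else 0
  Ga := ∅
  Wa := ∅
  AE := ∅
  AW := ∅

end SD

/-- Upper bounds on `Wp`. -/
def St_UP : Prop := ∀ (D : SD) (K c1 eps del : ℝ), D.Hyp K c1 eps del → ∀ e ∈ D.G,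
  ∑ w ∈ D.Wp, D.om e w ≤ 2 * K * D.W.card ∧
  (∀ x ∈ D.Maj e, ∑ w ∈ D.Wp with x ∈ D.Z e w, D.om e w ≤ 2 * K * D.k * D.mu x * D.W.card) ∧
  (∀ x ∈ D.Maj e, ∀ y ∈ D.Maj e, x ≠ y → ∑ w ∈ D.Wp with x ∈ D.Z e w ∧ y ∈ D.Z e w, D.om e w ≤
    2 * K * D.k ^ 2 * D.mu x * D.mu y * D.W.card) ∧
  ∀ (f : D.TX → ℝ) (A : D.O → ℝ),
    ∑ w ∈ D.Wp, D.om e w * (∑ x ∈ D.Z e w, f x + ∑ i, A i * D.lam e w i) ^ 2 ≤
      4 * K ^ 3 * D.W.card * (D.k ^ 2 * ∑ x ∈ D.Maj e, D.mu x * f x ^ 2 + ∑ i, A i ^ 2)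

def St_TA : Prop := ∀ (D : SD) (K c1 eps del τ : ℝ), D.Hyp K c1 eps del → del ≤ τ → τ ≤ eps →
  (D.toCD K).PreA eps τ

def St_TS : Prop := ∀ (D : SD) (K c1 eps del τ : ℝ), D.Hyp K c1 eps del → 4 * K * del ≤ τ ^ 2 →
  (D.toCD K).PreS τ

def St_TP : Prop := ∀ (D : SD) (K c1 eps del τ : ℝ), D.Hyp K c1 eps del →
  2 * K * D.k ^ 2 * del ≤ τ ^ 2 → (D.toCD K).VP τ

def St_TV : Prop := ∀ (D : SD) (K c1 eps del τ : ℝ), D.Hyp K c1 eps del → 0 ≤ τ →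
  4 * K ^ 3 * (D.b + 1) * del ≤ τ ^ 2 → (D.toCD K).VV τ

/-- the same as `Sml`, for the restriction of ambient data -/
def SmlS (P : ∀ (G W X C O O' : Type) [Fintype G] [Fintype W] [Fintype X] [Fintype C] [Fintype O]
    [Fintype O'], CD G W X C O O' → ℝ → ℝ → Prop) : Prop :=
  ∀ (K : ℝ) (k b : ℕ) (eps t : ℝ), 0 < eps → 0 < t → ∃ del0 : ℝ, 0 < del0 ∧
    ∀ (D : SD) (c1 del : ℝ), D.k = k → D.b ≤ b → del ≤ del0 → D.Hyp K c1 eps del →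
      P _ _ _ _ _ _ (D.toCD K) eps t

def St_WMa : Prop := SmlS fun _ _ _ _ _ _ _ _ _ _ _ _ D eps t => D.oWMa eps t

def St_WMm : Prop := SmlS fun _ _ _ _ _ _ _ _ _ _ _ _ D eps t => D.oWMm eps t

def St_WM1 : Prop := SmlS fun _ _ _ _ _ _ _ _ _ _ _ _ D eps t => D.oWM1 eps t

def St_WM2 : Prop := SmlS fun _ _ _ _ _ _ _ _ _ _ _ _ D eps t => D.oWM2 eps t

def St_GAIN : Prop := SmlS fun _ _ _ _ _ _ _ _ _ _ _ _ D eps t => D.Gain eps t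

/-- Cleaning: alive items for which the hypotheses of CORE hold. -/
def St_CLN : Prop := ∀ (K : ℝ) (k : ℕ) (eps : ℝ), 0 < eps → ∃ t : ℝ, 0 < t ∧
  ∀ (G W X C O O' : Type) [Fintype G] [Fintype W] [Fintype X] [Fintype C] [Fintype O]
    [Fintype O'] [Nonempty G] [Nonempty W] (D : CD G W X C O O') (τ δ : ℝ), D.K = K → D.k = k →
    τ ≤ t → D.PreA eps τ → D.PreS τ → D.VV τ → D.oWMa eps t → D.oWMm eps t → D.oWM1 eps t →
    D.oWM2 eps t → D.Gain eps t → 100 * D.K ≤ D.k → 0 < δ → 1000 * D.K * D.k * δ ≤ 1 →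
    100 * D.K * D.k ^ 2 * eps ≤ δ ^ 2 →
    ∃ Ga Wa AE AW, (D.alive δ Ga Wa AE AW).Ok ∧ ((univ \ Wa).card : ℝ) ≤ eps * Fintype.card W

/-- From CORE back to the ambient data, with the absorption by GRAM. -/
def St_SFIN : Prop := ∀ K c1 : ℝ, 0 < c1 → ∃ KS : ℝ, 1 ≤ KS ∧ ∀ (D : SD) (eps del δ : ℝ),
  D.Hyp K c1 eps del → KS ≤ D.k → ∀ s : D.Sol,
  (∀ e ∈ D.G, ∀ w ∈ D.W, D.om e w ≠ 0 → s.Res e w = 0) → KS * eps ≤ 1 → ∀ Ga Wa AE AW,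
  ((D.toCD K).alive δ Ga Wa AE AW).Ok → ((univ \ Wa).card : ℝ) ≤ eps * Fintype.card ↥D.W →
  D.Concl eps (KS / D.k)

/-- a common choice of `τ` and `del` -/
theorem pre_of (hA : St_TA) (hS : St_TS) (hP : St_TP) (hV : St_TV) (K : ℝ) (k b : ℕ)
    (eps τ0 : ℝ) (he : 0 < eps) (h0 : 0 < τ0) : ∃ del0 τ : ℝ, 0 < del0 ∧ τ ≤ τ0 ∧
    ∀ (D : SD) (c1 del : ℝ), D.k = k → D.b ≤ b → del ≤ del0 → D.Hyp K c1 eps del →
      (D.toCD K).Pre eps τ := by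
  set τ := min τ0 eps with hτ
  have hτ0 : 0 < τ := lt_min h0 he
  set M : ℝ := 4 * (|K| + 1) ^ 3 * ((k : ℝ) + 1) ^ 2 * (b + 1) with hM
  have hM0 : 0 < M := by positivity
  refine ⟨min τ (τ ^ 2 / M), τ, lt_min hτ0 (by positivity), min_le_left _ _, ?_⟩
  intro D c1 del hk hb hd H
  have hK := H.hK
  have hd0 := H.hd
  have h1 : del ≤ τ := hd.trans (min_le_left _ _)
  have h2 : M * del ≤ τ ^ 2 := by
    have := hd.trans (min_le_right _ _)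
    rwa [le_div_iff₀ hM0, mul_comm] at this
  have hab : |K| = K := abs_of_nonneg (by linarith)
  have hb' : (D.b : ℝ) ≤ b := by exact_mod_cast hb
  have hk0 : (0 : ℝ) ≤ k := Nat.cast_nonneg k
  have hb0 : (0 : ℝ) ≤ b := Nat.cast_nonneg b
  have hK3 : K ^ 3 ≤ (|K| + 1) ^ 3 := pow_le_pow_left₀ (by linarith) (by linarith) 3
  have hK1 : K ≤ K ^ 3 := by nlinarith [mul_nonneg (sub_nonneg.2 hK) (sub_nonneg.2 hK)]
  have hk1 : (1 : ℝ) ≤ ((k : ℝ) + 1) ^ 2 := by nlinarith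
  have hk2 : (k : ℝ) ^ 2 ≤ ((k : ℝ) + 1) ^ 2 := by nlinarith
  have key : ∀ u v r : ℝ, 0 ≤ u → 0 ≤ v → 0 ≤ r → u ≤ (|K| + 1) ^ 3 → v ≤ ((k : ℝ) + 1) ^ 2 →
      r ≤ b + 1 → 4 * u * v * r * del ≤ τ ^ 2 := fun u v r hu hv hr h3 h4 h5 =>
    le_trans (mul_le_mul_of_nonneg_right (by rw [hM]; gcongr) hd0.le) h2
  refine ⟨hA D K c1 eps del τ H h1 (min_le_right _ _), hS D K c1 eps del τ H ?_,
    hP D K c1 eps del τ H ?_, hV D K c1 eps del τ H hτ0.le ?_⟩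
  · have := key K 1 1 (by linarith) zero_le_one zero_le_one (hK1.trans hK3) hk1 (by linarith)
    linarith
  · have := key K (k ^ 2) 1 (by linarith) (by positivity) zero_le_one (hK1.trans hK3) hk2
      (by linarith)
    rw [hk]
    have h6 : 0 ≤ K * (k : ℝ) ^ 2 * del := by positivity
    linarith
  · have := key (K ^ 3) 1 (D.b + 1) (by positivity) zero_le_one (by positivity) hK3 hk1
      (by linarith)
    linarith

theorem SmlS.of (hA : St_TA) (hS : St_TS) (hP : St_TP) (hV : St_TV) {P} (h : Sml P) :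
    SmlS P := by
  intro K k b eps t he ht
  obtain ⟨τ0, h0, H⟩ := h K k b eps t he ht
  obtain ⟨del0, τ, hd, hτ, H2⟩ := pre_of hA hS hP hV K k b eps τ0 he h0
  refine ⟨del0, hd, fun D c1 del hk hb hle hy => ?_⟩
  have : Nonempty ↥D.G := hy.G_ne.to_subtype
  have : Nonempty ↥D.W := hy.W_ne.to_subtype
  exact H _ _ _ _ _ _ (D.toCD K) τ rfl hk hb hτ (H2 D c1 del hk hb hle hy)

end Pool.Agent.Lib.BK2
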