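import Pool.Agent.Lib.BK2.BOX
import Pool.Agent.Lib.BK2.ADefs

/-! SM: second moment of a weighted count of points on a coset in a box. -/

namespace Pool.Agent.Lib.BK2.SM

open Finset BOX

/-- abstract second moment bound for almost pairwise independent events -/
theorem second_moment {Ω X : Type} (O : Finset Ω) (S : Finset X) (I : X → Ω → Prop)
    [∀ x v, Decidable (I x v)] (p : X → ℝ) (hp2 : ∀ x ∈ S, 2 ≤ p x) {ε : ℝ} (h0 : 0 ≤ ε)
    (hε : ε ≤ 1) (h1 : ∀ x ∈ S, |(#{v ∈ O | I x v} : ℝ) * p x - #O| ≤ ε * #O)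
    (h2 : ∀ x ∈ S, ∀ y ∈ S, x ≠ y →
      |(#{v ∈ O | I x v ∧ I y v} : ℝ) * (p x * p y) - #O| ≤ ε * #O) (a : X → ℝ) :
    ∑ v ∈ O, (∑ x ∈ S, a x * ((if I x v then 1 else 0) - 1 / p x)) ^ 2 ≤
      #O * (2 * ∑ x ∈ S, a x ^ 2 / p x + 3 * ε * (∑ x ∈ S, |a x| / p x) ^ 2) := by
  classical
  have hp : ∀ x ∈ S, 0 < p x := fun x hx => by linarith [hp2 x hx]
  have hN : (0 : ℝ) ≤ #O := Nat.cast_nonneg _
  have cov : ∀ x y, ∑ v ∈ O, ((if I x v then 1 else 0) - 1 / p x) *
      ((if I y v then 1 else 0) - 1 / p y) = (#{v ∈ O | I x v ∧ I y v} : ℝ) -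
        #{v ∈ O | I x v} / p y - #{v ∈ O | I y v} / p x + #O / (p x * p y) := fun x y => by
    simp only [card_filter, Nat.cast_sum, Nat.cast_ite, Nat.cast_one, Nat.cast_zero, sum_div]
    rw [card_eq_sum_ones O, Nat.cast_sum, sum_div, ← sum_sub_distrib, ← sum_sub_distrib,
      ← sum_add_distrib]
    refine sum_congr rfl fun v _ => ?_
    by_cases hx : I x v <;> by_cases hy : I y v <;> simp only [hx, hy, if_true, if_false,
      and_self, and_true, and_false, Nat.cast_one] <;> ring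
  have key : ∀ x ∈ S, ∀ y ∈ S, a x * a y * ∑ v ∈ O, ((if I x v then 1 else 0) - 1 / p x) *
      ((if I y v then 1 else 0) - 1 / p y) ≤
      #O * ((if x = y then 2 * (a x ^ 2 / p x) else 0) +
        3 * ε * (|a x| / p x * (|a y| / p y))) := fun x hx y hy => by
    have px := hp x hx
    have py := hp y hy
    rw [cov]
    split_ifs with e
    · subst e
      simp only [and_self]
      obtain ⟨b1, b2⟩ := abs_le.1 (h1 x hx)
      generalize (#{v ∈ O | I x v} : ℝ) = n at *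
      have h3 : n - n / p x - n / p x + #O / (p x * p x) ≤ 2 * #O / p x := by
        have e1 : n - n / p x - n / p x + #O / (p x * p x) =
            (n * p x * (p x - 2) + #O) / p x / p x := by field_simp; ring
        rw [e1]
        refine div_le_div_of_nonneg_right ((div_le_iff₀ px).2 ?_) px.le
        have h5 : n * p x ≤ 2 * #O := by nlinarith
        have := mul_le_mul_of_nonneg_right h5 (sub_nonneg.2 (hp2 x hx))
        linarith
      have h4 : 0 ≤ 3 * ε * (|a x| / p x * (|a x| / p x)) := by positivity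
      calc _ ≤ a x * a x * (2 * #O / p x) := mul_le_mul_of_nonneg_left h3 (mul_self_nonneg _)
        _ = #O * (2 * (a x ^ 2 / p x)) := by ring
        _ ≤ _ := mul_le_mul_of_nonneg_left (le_add_of_nonneg_right h4) hN
    · obtain ⟨b1, b2⟩ := abs_le.1 (h1 x hx)
      obtain ⟨c1, c2⟩ := abs_le.1 (h1 y hy)
      obtain ⟨d1, d2⟩ := abs_le.1 (h2 x hx y hy e)
      generalize (#{v ∈ O | I x v} : ℝ) = n at *
      generalize (#{v ∈ O | I y v} : ℝ) = m at *
      generalize (#{v ∈ O | I x v ∧ I y v} : ℝ) = k at *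
      have e1 : k - n / p y - m / p x + #O / (p x * p y) =
          (k * (p x * p y) - n * p x - m * p y + #O) / (p x * p y) := by field_simp
      have h3 : |k * (p x * p y) - n * p x - m * p y + #O| ≤ 3 * ε * #O :=
        abs_le.2 ⟨by linarith, by linarith⟩
      refine (le_abs_self _).trans ?_
      rw [e1, abs_mul, abs_mul, abs_div, abs_of_pos (mul_pos px py), zero_add]
      calc _ ≤ |a x| * |a y| * (3 * ε * #O / (p x * p y)) :=
            mul_le_mul_of_nonneg_left (div_le_div_of_nonneg_right h3 (mul_pos px py).le)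
              (by positivity)
        _ = _ := by field_simp
  calc _ = ∑ x ∈ S, ∑ y ∈ S, a x * a y * ∑ v ∈ O, ((if I x v then 1 else 0) - 1 / p x) *
        ((if I y v then 1 else 0) - 1 / p y) := by
        simp only [sq, sum_mul_sum]
        simp only [mul_sum]
        rw [sum_comm]
        refine sum_congr rfl fun x _ => ?_
        rw [sum_comm]
        exact sum_congr rfl fun y _ => sum_congr rfl fun v _ => by ring
    _ ≤ ∑ x ∈ S, ∑ y ∈ S, #O * ((if x = y then 2 * (a x ^ 2 / p x) else 0) +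
        3 * ε * (|a x| / p x * (|a y| / p y))) :=
        sum_le_sum fun x hx => sum_le_sum fun y hy => key x hx y hy
    _ = _ := by
        rw [sq (∑ x ∈ S, _), sum_mul_sum, mul_sum S _ 2, mul_sum S _ (3 * ε), ← sum_add_distrib,
          mul_sum]
        refine sum_congr rfl fun x hx => ?_
        rw [← mul_sum, sum_add_distrib, sum_ite_eq, if_pos hx, ← mul_sum]

variable {ι : Type} [Fintype ι] [DecidableEq ι] {A : Type} [AddCommGroup A] [DecidableEq A]

theorem zmod_exp {V : Type} [AddCommGroup V] {p : ℕ} (ψ : V →+ ZMod p) (v : V) : p • ψ v = 0 := by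
  rw [nsmul_eq_mul, ZMod.natCast_self, zero_mul]

/-- two points over coprime moduli are jointly onto -/
theorem surj_prod {V : Type} [AddCommGroup V] {p p' : ℕ} {ψ : V →+ ZMod p} {ψ' : V →+ ZMod p'}
    (h : Function.Surjective ψ) (h' : Function.Surjective ψ') (hc : p.Coprime p') :
    Function.Surjective (ψ.prod ψ') := by
  rintro ⟨x, y⟩
  obtain ⟨u, rfl⟩ := h x
  obtain ⟨w, rfl⟩ := h' y
  obtain ⟨v, h1, h2⟩ := exists_crt ψ ψ' (zmod_exp ψ) (zmod_exp ψ') hc u w
  exact ⟨v, Prod.ext h1 h2⟩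

/-- the proportion of a coset in a box on which one point vanishes -/
theorem count_one (φ : (ι → ℤ) →+ A) {q : ℕ} (h0 : 0 < q) (hq : ∀ v, q • φ v = 0) {p : ℕ}
    (hp : 0 < p) (hc : q.Coprime p) {ψ : (ι → ℤ) →+ ZMod p} (hψ : Function.Surjective ψ)
    (c : ι → ℤ) {s : ι → ℕ} {η : ℝ} (hs : ∀ j, (q : ℝ) * p ≤ η * s j) (hη : 0 ≤ η)
    (h1 : Fintype.card ι * η ≤ 1 / 4) (u : ι → ℤ) :
    |(#{v ∈ {v ∈ box c s | φ v = φ u} | ψ v = 0} : ℝ) * p - #{v ∈ box c s | φ v = φ u}| ≤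
      8 * Fintype.card ι * η * #{v ∈ box c s | φ v = φ u} := by
  have h := fiber_cond φ ψ h0 hp hq (zmod_exp ψ) hc c hs hη h1 u 0
  rw [AddMonoidHom.range_eq_top.2 hψ, AddSubgroup.card_top, Nat.card_zmod, map_zero] at h
  rwa [filter_filter]

/-- the proportion of a coset in a box on which two points vanish -/
theorem count_two (φ : (ι → ℤ) →+ A) {q : ℕ} (h0 : 0 < q) (hq : ∀ v, q • φ v = 0) {p p' : ℕ}
    (hp : 0 < p) (hp' : 0 < p') (hc : q.Coprime p) (hc' : q.Coprime p') {ψ : (ι → ℤ) →+ ZMod p}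
    {ψ' : (ι → ℤ) →+ ZMod p'} (hψ : Function.Surjective (ψ.prod ψ'))
    (c : ι → ℤ) {s : ι → ℕ} {η : ℝ} (hs : ∀ j, (q : ℝ) * (p * p') ≤ η * s j) (hη : 0 ≤ η)
    (h1 : Fintype.card ι * η ≤ 1 / 4) (u : ι → ℤ) :
    |(#{v ∈ {v ∈ box c s | φ v = φ u} | ψ v = 0 ∧ ψ' v = 0} : ℝ) * (p * p') -
      #{v ∈ box c s | φ v = φ u}| ≤ 8 * Fintype.card ι * η * #{v ∈ box c s | φ v = φ u} := by
  have h := fiber_cond φ (ψ.prod ψ') (p := p * p') h0 (Nat.mul_pos hp hp') hq (fun v => Prod.ext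
    (by change (p * p') • ψ v = 0; rw [mul_comm, mul_smul, zmod_exp, smul_zero])
    (by change (p * p') • ψ' v = 0; rw [mul_smul, zmod_exp, smul_zero])) (hc.mul_right hc') c
    (s := s) (η := η) (fun j => by push_cast; exact hs j) hη h1 u 0
  rw [AddMonoidHom.range_eq_top.2 hψ, AddSubgroup.card_top, Nat.card_prod, Nat.card_zmod,
    Nat.card_zmod, map_zero, Nat.cast_mul] at h
  rw [filter_filter]
  simpa only [AddMonoidHom.prod_apply, Prod.mk_eq_zero] using h

/-- SM. The coset is a fibre of `φ` (exponent `q`), the points are the `ev x`. -/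
theorem sm {X : Type} (φ : (ι → ℤ) →+ A) {q : ℕ} (h0 : 0 < q) (hq : ∀ v, q • φ v = 0)
    (S : Finset X) (p : X → ℕ) (ev : ∀ x, (ι → ℤ) →+ ZMod (p x)) (hp : ∀ x ∈ S, 2 ≤ p x)
    (hc : ∀ x ∈ S, q.Coprime (p x)) (h1 : ∀ x ∈ S, Function.Surjective (ev x))
    (h2 : ∀ x ∈ S, ∀ y ∈ S, x ≠ y → Function.Surjective ((ev x).prod (ev y)))
    (c : ι → ℤ) {s : ι → ℕ} {η : ℝ}
    (hs : ∀ x ∈ S, ∀ y ∈ S, ∀ j, (q : ℝ) * (p x * p y) ≤ η * s j) (hη : 0 ≤ η)
    (hr : Fintype.card ι * η ≤ 1 / 8) (u : ι → ℤ) (a : X → ℝ) :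
    ∑ v ∈ box c s with φ v = φ u, (∑ x ∈ S, a x * ((if ev x v = 0 then 1 else 0) - 1 / p x)) ^ 2 ≤
      #{v ∈ box c s | φ v = φ u} * (2 * ∑ x ∈ S, a x ^ 2 / p x +
        24 * Fintype.card ι * η * (∑ x ∈ S, |a x| / p x) ^ 2) := by
  have hq0 : (0 : ℝ) ≤ q := Nat.cast_nonneg _
  have hp1 : ∀ x ∈ S, (2 : ℝ) ≤ p x := fun x hx => by exact_mod_cast hp x hx
  have hp0 : ∀ x ∈ S, 0 < p x := fun x hx => by have := hp x hx; omega
  have h := second_moment {v ∈ box c s | φ v = φ u} S (fun x v => ev x v = 0) (fun x => p x)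
    hp1 (ε := 8 * Fintype.card ι * η) (by positivity)
    (by linarith) (fun x hx => count_one φ h0 hq (hp0 x hx) (hc x hx) (h1 x hx) c (fun j =>
      le_trans (mul_le_mul_of_nonneg_left (by nlinarith [hp1 x hx]) hq0) (hs x hx x hx j)) hη
      (by linarith) u)
    (fun x hx y hy e => count_two φ h0 hq (hp0 x hx) (hp0 y hy) (hc x hx) (hc y hy)
      (h2 x hx y hy e) c (hs x hx y hy) hη (by linarith) u) a
  rwa [show 3 * (8 * Fintype.card ι * η) = 24 * Fintype.card ι * η by ring] at h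

/-- the joint surjectivity hypothesis of `sm` for prime moduli -/
theorem surj_of_prime {V X : Type} [AddCommGroup V] (S : Finset X) (p : X → ℕ)
    (ev : ∀ x, V →+ ZMod (p x)) (hp : ∀ x ∈ S, (p x).Prime)
    (h1 : ∀ x ∈ S, Function.Surjective (ev x))
    (h2 : ∀ x ∈ S, ∀ y ∈ S, x ≠ y → p x = p y → Function.Surjective ((ev x).prod (ev y))) :
    ∀ x ∈ S, ∀ y ∈ S, x ≠ y → Function.Surjective ((ev x).prod (ev y)) := fun x hx y hy e => by
  by_cases h : p x = p y
  · exact h2 x hx y hy e h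
  · exact surj_prod (h1 x hx) (h1 y hy) ((Nat.coprime_primes (hp x hx) (hp y hy)).2 h)

end Pool.Agent.Lib.BK2.SM

namespace Pool.Agent.Lib.BK2

open Finset

theorem cube_eq_box {ι : Type} [Fintype ι] [DecidableEq ι] (a : ι → ℤ) (s : ℕ) :
    cube a s = BOX.box a fun _ => s := rfl

theorem stBOX : St_BOX := by
  rintro ι _ _ A _ φ q s a _ h0 hs hq ⟨u, rfl⟩
  let _ : DecidableEq A := fun x y => Classical.propDecidable (x = y)
  have hl := BOX.fiber_lower φ h0 hq a (fun _ => s) u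
  have hu := BOX.fiber_upper φ h0 hq a (fun _ => s) u
  rw [prod_const, card_univ] at hl hu
  rw [← Nat.cast_sub hs]
  exact ⟨by exact_mod_cast hl, by exact_mod_cast hu⟩

theorem stSM : St_SM := by
  rintro ι _ _ A _ φ q s a _ X S p ev η c h0 hq ⟨u, rfl⟩ h1 h2 hη hr - hs
  let _ : DecidableEq A := fun x y => Classical.propDecidable (x = y)
  have h := SM.sm φ h0 hq S p ev (fun x hx => (h1 x hx).1.two_le) (fun x hx => (h1 x hx).2.1.symm)
    (fun x hx => (h1 x hx).2.2) (SM.surj_of_prime S p ev (fun x hx => (h1 x hx).1)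
      (fun x hx => (h1 x hx).2.2) fun x hx y hy e e' z =>
        let ⟨v, hv⟩ := h2 x hx y hy e e' z.1 z.2; ⟨v, Prod.ext hv.1 hv.2⟩) a
    (s := fun _ => s) (fun x hx y hy _ => by rw [← mul_assoc]; exact hs x hx y hy) hη.le hr u c
  refine h.trans (mul_le_mul_of_nonneg_left (add_le_add_right (mul_le_mul_of_nonneg_right ?_
    (sq_nonneg _)) _) (Nat.cast_nonneg _))
  have : 0 ≤ Fintype.card ι * η := by positivity
  linarith

end Pool.Agent.Lib.BK2
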