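import Pool.Agent.Lib.BK2.StepC

/-!
Reduction of absolute irreducibility and the point count over prime fields.
-/

namespace Pool.Agent.Lib.BK2.Step

open Finset Polynomial Filter

attribute [local instance] MvPolynomial.algebraMvPolynomial in
/-- A system without solution in characteristic zero has no solution in large characteristic. -/
theorem transfer {σ ι : Type*} [Finite σ] (e : ι → MvPolynomial σ ℤ) (Ω : Type*) [Field Ω]
    [IsAlgClosed Ω] [CharZero Ω] (h : ∀ x : σ → Ω, ¬ ∀ i, MvPolynomial.aeval x (e i) = 0) :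
    ∃ N : ℕ, 0 < N ∧ ∀ (k : Type) [CommRing k] (x : σ → k),
      (∀ i, MvPolynomial.aeval x (e i) = 0) → (N : k) = 0 := by
  let I := (Ideal.span (Set.range e)).map (algebraMap (MvPolynomial σ ℤ) (MvPolynomial σ ℚ))
  have h1 : MvPolynomial.zeroLocus Ω I = ∅ := Set.eq_empty_of_forall_notMem fun x hx =>
    h x fun i => by
      have := hx _ (Ideal.mem_map_of_mem _ (Ideal.subset_span ⟨i, rfl⟩))
      rwa [MvPolynomial.algebraMap_def, MvPolynomial.aeval_map_algebraMap] at this
  have h2 := MvPolynomial.vanishingIdeal_zeroLocus_eq_radical (K := Ω) I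
  rw [h1, MvPolynomial.vanishingIdeal_empty, eq_comm, Ideal.radical_eq_top, Ideal.eq_top_iff_one,
    IsLocalization.mem_map_algebraMap_iff ((nonZeroDivisors ℤ).map (MvPolynomial.C (σ := σ)))] at h2
  obtain ⟨⟨⟨u, hu⟩, _, n, hn, rfl⟩, h3⟩ := h2
  rw [one_mul] at h3
  have h4 : MvPolynomial.C n = u := MvPolynomial.map_injective _ (algebraMap ℤ ℚ).injective_int h3
  refine ⟨n.natAbs, Int.natAbs_pos.2 (nonZeroDivisors.ne_zero hn), fun k _ x hx => ?_⟩
  have h5 : MvPolynomial.aeval x u = 0 :=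
    (Ideal.span_le (I := RingHom.ker (MvPolynomial.aeval x : MvPolynomial σ ℤ →ₐ[ℤ] k))).2
      (Set.range_subset_iff.2 hx) hu
  rw [← h4, MvPolynomial.algHom_C, eq_intCast] at h5
  rw [Nat.cast_natAbs]
  rcases abs_choice n with e | e <;> simp [e, h5]

/-- The polynomial with given coefficients. -/
noncomputable def poly {R : Type*} [CommRing R] {d c : ℕ} (x : Fin d × Fin c → R) : R[X][X] :=
  ∑ z, monomial z.1 (monomial z.2 (x z))

theorem poly_map {R S : Type*} [CommRing R] [CommRing S] {d c : ℕ} (x : Fin d × Fin c → R)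
    (φ : R →+* S) : (poly x).map (mapRingHom φ) = poly fun z => φ (x z) := by
  simp [poly, Polynomial.map_sum]

theorem exists_poly {R : Type*} [CommRing R] {d c : ℕ} (g : R[X][X]) (hd : g.natDegree ≤ d)
    (hc : ∀ i, (g.coeff i).natDegree ≤ c) : ∃ x : Fin (d + 1) × Fin (c + 1) → R, poly x = g := by
  refine ⟨fun z => (g.coeff z.1).coeff z.2, ?_⟩
  rw [poly, Fintype.sum_prod_type]
  conv_rhs => rw [g.as_sum_range' (d + 1) (by omega), ← Fin.sum_univ_eq_sum_range
    (fun i => monomial i (g.coeff i))]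
  refine sum_congr rfl fun i _ => ?_
  dsimp only
  rw [← map_sum]
  congr 1
  conv_rhs => rw [(g.coeff i).as_sum_range' (c + 1) (by have := hc i; omega),
    ← Fin.sum_univ_eq_sum_range (fun j => monomial j ((g.coeff i).coeff j))]

theorem coeff_swap {R : Type*} [CommRing R] (g : R[X][X]) (i j : ℕ) :
    ((Bivariate.swap g).coeff j).coeff i = (g.coeff i).coeff j := by
  induction g using Polynomial.induction_on' with
  | add P Q hP hQ => simp only [map_add, coeff_add, hP, hQ]
  | monomial n P =>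
    induction P using Polynomial.induction_on' with
    | add P Q hP hQ => simp only [map_add, coeff_add, hP, hQ]
    | monomial m r =>
      rw [Bivariate.swap_monomial_monomial]
      simp only [coeff_monomial]
      split_ifs <;> simp [coeff_monomial, *]

theorem deg_dvd {R : Type*} [CommRing R] [IsDomain R] {f g : R[X][X]} (hf : f ≠ 0) (h : g ∣ f)
    {c : ℕ} (hc : ∀ i, (f.coeff i).natDegree ≤ c) (i : ℕ) : (g.coeff i).natDegree ≤ c := by
  have h1 : (Bivariate.swap f).natDegree ≤ c := natDegree_le_iff_coeff_eq_zero.2 fun j hj => by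
    ext i
    rw [coeff_swap, coeff_eq_zero_of_natDegree_lt ((hc i).trans_lt hj), coeff_zero]
  have h2 := (natDegree_le_of_dvd (map_dvd Bivariate.swap h)
    ((map_ne_zero_iff _ Bivariate.swap.injective).2 hf)).trans h1
  refine natDegree_le_iff_coeff_eq_zero.2 fun j hj => ?_
  rw [← coeff_swap, coeff_eq_zero_of_natDegree_lt (h2.trans_lt hj), coeff_zero]

theorem exists_deg {R : Type*} [CommRing R] (f : R[X][X]) :
    ∃ c, ∀ i, (f.coeff i).natDegree ≤ c := by
  refine ⟨f.support.sup fun i => (f.coeff i).natDegree, fun i => ?_⟩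
  by_cases h : i ∈ f.support
  · exact le_sup (f := fun i => (f.coeff i).natDegree) h
  · simp [notMem_support_iff.1 h]

theorem deg_map {R S : Type*} [CommRing R] [CommRing S] (φ : R →+* S) {f : R[X][X]} {c : ℕ}
    (hc : ∀ i, (f.coeff i).natDegree ≤ c) (i : ℕ) :
    ((f.map (mapRingHom φ)).coeff i).natDegree ≤ c := by
  rw [coeff_map]
  exact natDegree_map_le.trans (hc i)

/-- Absolute irreducibility survives reduction modulo large primes. -/
theorem noether (Ω : Type) [Field Ω] [IsAlgClosed Ω] [CharZero Ω] (f : ℤ[X][X]) (hm : f.Monic)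
    (hirr : Irreducible (f.map (mapRingHom (Int.castRingHom Ω)))) :
    ∀ᶠ p : ℕ in atTop, ∀ (k : Type) [Field k] [CharP k p],
      Irreducible (f.map (mapRingHom (Int.castRingHom k))) := by
  obtain ⟨c, hc⟩ := exists_deg f
  set d := f.natDegree
  let τ := Fin (d + 1) × Fin (c + 1)
  let A := MvPolynomial (τ ⊕ τ) ℤ
  let G : A[X][X] := poly fun z : τ => MvPolynomial.X (.inl z)
  let H : A[X][X] := poly fun z : τ => MvPolynomial.X (.inr z)
  let P : ℕ → ℕ → Fin 3 → A[X][X] := fun a b =>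
    ![G * H - f.map (mapRingHom (Int.castRingHom A)), C (G.coeff (a + 1) - 1),
      C (H.coeff (b + 1) - 1)]
  have key : ∀ a b (k : Type) [CommRing k] (x : τ ⊕ τ → k),
      (∀ i : Fin 3 × ℕ × ℕ, MvPolynomial.aeval x (((P a b i.1).coeff i.2.1).coeff i.2.2) = 0) ↔
      poly (fun z => x (.inl z)) * poly (fun z => x (.inr z)) =
        f.map (mapRingHom (Int.castRingHom k)) ∧ (poly fun z => x (.inl z)).coeff (a + 1) = 1 ∧
        (poly fun z => x (.inr z)).coeff (b + 1) = 1 := fun a b k _ x => by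
    let φ : A →+* k := (MvPolynomial.aeval x : A →ₐ[ℤ] k)
    have e0 : ∀ z, φ (MvPolynomial.X z) = x z := fun z => MvPolynomial.aeval_X _ _
    have e1 : G.map (mapRingHom φ) = poly fun z => x (.inl z) := by simp only [G, poly_map, e0]
    have e2 : H.map (mapRingHom φ) = poly fun z => x (.inr z) := by simp only [H, poly_map, e0]
    have e3 : (f.map (mapRingHom (Int.castRingHom A))).map (mapRingHom φ) =
        f.map (mapRingHom (Int.castRingHom k)) := by
      rw [Polynomial.map_map, mapRingHom_comp, Subsingleton.elim (φ.comp _) (Int.castRingHom k)]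
    have e4 : (∀ i : Fin 3 × ℕ × ℕ, φ (((P a b i.1).coeff i.2.1).coeff i.2.2) = 0) ↔
        ∀ i, (P a b i).map (mapRingHom φ) = 0 := by
      simp only [Prod.forall, Polynomial.ext_iff, coeff_map, coe_mapRingHom, coeff_zero]
    refine e4.trans ?_
    rw [← e1, ← e2, ← e3]
    have e5 : ∀ u : k[X], C u = 1 ↔ u = 1 := fun u => by rw [← C_1, C_inj]
    simp [P, Fin.forall_fin_succ, sub_eq_zero, e5]
  have h1 : ∀ a b, ∀ᶠ p : ℕ in atTop, ∀ (k : Type) [Field k] [CharP k p] (x : τ ⊕ τ → k),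
      ¬ ∀ i : Fin 3 × ℕ × ℕ, MvPolynomial.aeval x (((P a b i.1).coeff i.2.1).coeff i.2.2) = 0 :=
    fun a b => by
    obtain ⟨N, hN, h⟩ := transfer (fun i : Fin 3 × ℕ × ℕ => ((P a b i.1).coeff i.2.1).coeff i.2.2) Ω
      fun x hx => by
        obtain ⟨e1, e2, e3⟩ := (key a b Ω x).1 hx
        have e4 : ∀ (g : Polynomial (Polynomial Ω)) (n : ℕ), g.coeff (n + 1) = 1 → ¬ IsUnit g := fun g n h hu => by
          rw [coeff_eq_zero_of_natDegree_lt (by rw [natDegree_eq_zero_of_isUnit hu]; omega)] at h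
          exact zero_ne_one h
        exact (hirr.isUnit_or_isUnit e1.symm).elim (e4 _ _ e2) (e4 _ _ e3)
    filter_upwards [eventually_gt_atTop N] with p hp k _ _ x hx
    exact absurd (Nat.le_of_dvd hN ((CharP.cast_eq_zero_iff k p N).1 (h k x hx))) (not_le.2 hp)
  have h2 := (eventually_all_finset (range d ×ˢ range d)).2 fun z _ => h1 z.1 z.2
  filter_upwards [h2] with p hp k _ _
  have hm' := hm.map (mapRingHom (Int.castRingHom k))
  rw [hm'.irreducible_iff_natDegree]
  refine ⟨fun e => ?_, fun g h hg hh e => ?_⟩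
  · have := congrArg natDegree e
    rw [hm.natDegree_map, natDegree_one] at this
    rw [eq_one_of_monic_natDegree_zero hm this, Polynomial.map_one] at hirr
    exact not_irreducible_one hirr
  by_contra hne
  push Not at hne
  have hd := congrArg natDegree e
  rw [hg.natDegree_mul hh, hm.natDegree_map] at hd
  obtain ⟨x₁, rfl⟩ := exists_poly (d := d) g (by omega)
    (deg_dvd hm'.ne_zero (Dvd.intro _ e) (deg_map _ hc))
  obtain ⟨x₂, rfl⟩ := exists_poly (d := d) h (by omega)
    (deg_dvd hm'.ne_zero (Dvd.intro_left _ e) (deg_map _ hc))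
  refine hp ((poly x₁).natDegree - 1, (poly x₂).natDegree - 1) (by simp; omega) k (Sum.elim x₁ x₂)
    ((key _ _ k _).2 ⟨e, ?_, ?_⟩)
  · rw [Nat.sub_add_cancel (by omega)]
    exact hg.coeff_natDegree
  · rw [Nat.sub_add_cancel (by omega)]
    exact hh.coeff_natDegree

/-- The points of the reduction modulo `p`. -/
def pts (f : ℤ[X][X]) (p : ℕ) : Set (ZMod p × ZMod p) :=
  {z | (f.map (mapRingHom (Int.castRingHom (ZMod p)))).evalEval z.1 z.2 = 0}

theorem exists_res (Ω : Type) [Field Ω] [CharZero Ω] (f : ℤ[X][X]) (hm : f.Monic)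
    (hirr : Irreducible (f.map (mapRingHom (Int.castRingHom Ω)))) :
    ∃ (Δ : ℤ[X]) (aa bb : ℤ[X][X]), Δ ≠ 0 ∧ aa * f + bb * derivative f = C Δ ∧
      bb.natDegree ≤ f.natDegree := by
  have h0 : f.natDegree ≠ 0 := fun h => by
    rw [eq_one_of_monic_natDegree_zero hm h, Polynomial.map_one] at hirr
    exact not_irreducible_one hirr
  obtain ⟨a, b, -, hb, e⟩ := exists_mul_add_mul_eq_C_resultant f (derivative f) le_rfl le_rfl
    (.inl h0)
  refine ⟨_, a, b, fun e => ?_, by rw [← e]; ring, natDegree_le_of_degree_le hb.le⟩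
  let φ : ℤ[X] →+* RatFunc Ω := (algebraMap (Polynomial Ω) (RatFunc Ω)).comp (mapRingHom (Int.castRingHom Ω))
  have hφ : Function.Injective φ :=
    (IsFractionRing.injective _ _).comp (map_injective _ (Int.castRingHom Ω).injective_int)
  have hs : (f.map φ).Separable := by
    rw [← Polynomial.map_map]
    exact (((hm.map _).irreducible_iff_irreducible_map_fraction_map).1 hirr).separable
  have := resultant_ne_zero _ _ hs
  rw [derivative_map, natDegree_map_eq_of_injective hφ, natDegree_map_eq_of_injective hφ,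
    resultant_map_map, e, map_zero] at this
  exact this rfl

theorem step_large (Ω : Type) [Field Ω] [IsAlgClosed Ω] [CharZero Ω] (f : ℤ[X][X]) (hm : f.Monic)
    (hirr : Irreducible (f.map (mapRingHom (Int.castRingHom Ω)))) :
    ∃ K : ℕ, ∀ᶠ p : ℕ in atTop, p.Prime → |((pts f p).ncard : ℝ) - p| ≤ K * √p := by
  obtain ⟨Δ, aa, bb, hΔ0, hΔ, hbd⟩ := exists_res Ω f hm hirr
  obtain ⟨c₁, hc₁⟩ := exists_deg f
  obtain ⟨c₂, hc₂⟩ := exists_deg bb
  obtain ⟨c, h1, h2, h3⟩ : ∃ c, c₁ ≤ c ∧ c₂ ≤ c ∧ Δ.natDegree ≤ c :=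
    ⟨c₁ + c₂ + Δ.natDegree, by omega, by omega, by omega⟩
  obtain ⟨B, hB⟩ := count' f.natDegree c
  refine ⟨B + c * f.natDegree, ?_⟩
  filter_upwards [noether Ω f hm hirr, eventually_ge_atTop B,
    eventually_gt_atTop Δ.leadingCoeff.natAbs] with p hp hpB hpΔ hpr
  have : Fact p.Prime := ⟨hpr⟩
  classical
  let k := AlgebraicClosure (ZMod p)
  let θ : ZMod p →+* k := ZMod.castHom dvd_rfl k
  have hθ : ∀ z : k, z ^ p = z ↔ ∃ t, θ t = z := fun z => by
    rw [← Subfield.mem_bot_iff_pow_eq_self k p, ← ZMod.fieldRange_castHom_eq_bot p,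
      RingHom.mem_fieldRange]
  have hc : θ.comp (Int.castRingHom (ZMod p)) = Int.castRingHom k := Subsingleton.elim _ _
  set f₀ := f.map (mapRingHom (Int.castRingHom (ZMod p))) with hf₀
  set Δ₀ := Δ.map (Int.castRingHom (ZMod p)) with hΔ₀
  have hf₁ : f.map (mapRingHom (Int.castRingHom k)) = f₀.map (mapRingHom θ) := by
    rw [hf₀, Polynomial.map_map, mapRingHom_comp, hc]
  have hΔ₁ : Δ.map (Int.castRingHom k) = Δ₀.map θ := by rw [hΔ₀, Polynomial.map_map, hc]
  have hΔ₂ : Δ₀ ≠ 0 := fun e => by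
    have := congrArg (coeff · Δ.natDegree) e
    simp only [hΔ₀, coeff_map, coeff_natDegree, eq_intCast, coeff_zero,
      ZMod.intCast_zmod_eq_zero_iff_dvd] at this
    exact absurd (Nat.le_of_dvd (Int.natAbs_pos.2 (leadingCoeff_ne_zero.2 hΔ0))
      (Int.natCast_dvd.1 this)) (not_le.2 hpΔ)
  let S₀ : Finset (ZMod p) := univ.filter fun t => Δ₀.eval t ≠ 0
  have hS₀ : #(univ.filter fun t => ¬ Δ₀.eval t ≠ 0) ≤ c := by
    refine (card_le_card (t := Δ₀.roots.toFinset) fun t ht => ?_).trans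
      ((Multiset.toFinset_card_le _).trans ((card_roots' _).trans (natDegree_map_le.trans h3)))
    rw [Multiset.mem_toFinset, mem_roots hΔ₂]
    exact not_not.1 (mem_filter.1 ht).2
  let r₀ : ZMod p → ℕ := fun t => #{z | f₀.evalEval t z = 0}
  let r : k → ℕ := fun t => {z | z ^ p = z ∧
    ((f.map (mapRingHom (Int.castRingHom k))).map (evalRingHom t)).IsRoot z}.ncard
  have hr : ∀ t, r (θ t) = r₀ t := fun t => by
    simp only [r, r₀]
    rw [← card_image_of_injective _ θ.injective, ← Set.ncard_coe_finset]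
    congr 1
    ext z
    simp only [Set.mem_ofPred_eq, hθ, IsRoot, map_evalRingHom_eval, hf₁, coe_image, coe_filter,
      mem_univ, true_and, Set.mem_image]
    constructor
    · rintro ⟨⟨z, rfl⟩, h⟩
      rw [map_mapRingHom_evalEval, map_eq_zero] at h
      exact ⟨z, h, rfl⟩
    · rintro ⟨z, h, rfl⟩
      exact ⟨⟨z, rfl⟩, by rw [map_mapRingHom_evalEval, h, map_zero]⟩
  have hmain := hB p k (f.map (mapRingHom (Int.castRingHom k))) (Δ.map (Int.castRingHom k))
    (aa.map (mapRingHom (Int.castRingHom k))) (bb.map (mapRingHom (Int.castRingHom k)))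
    (S₀.image θ) r (hm.map _) (hm.natDegree_map _) (deg_map _ fun i => (hc₁ i).trans h1)
    (by rw [Polynomial.map_map, mapRingHom_comp,
      Subsingleton.elim ((frobenius k p).comp _) (Int.castRingHom k)])
    (hp k) (by
      rw [derivative_map, ← Polynomial.map_mul, ← Polynomial.map_mul, ← Polynomial.map_add, hΔ,
        map_C, coe_mapRingHom])
    (by rw [hΔ₁]; exact Polynomial.map_ne_zero hΔ₂) (natDegree_map_le.trans h3)
    (deg_map _ fun i => (hc₂ i).trans h2) (natDegree_map_le.trans hbd) hpB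
    (fun t ht => by
      obtain ⟨s, hs, rfl⟩ := mem_image.1 ht
      refine ⟨(hθ _).2 ⟨s, rfl⟩, ?_⟩
      rw [hΔ₁, eval_map_apply, _root_.map_ne_zero]
      exact (mem_filter (p := fun t => Δ₀.eval t ≠ 0).1 hs).2)
    (by
      have := card_filter_add_card_filter_not (s := univ) fun t => Δ₀.eval t ≠ 0
      rw [card_univ, ZMod.card] at this
      rw [card_image_of_injective _ θ.injective]
      change p ≤ #(univ.filter fun t => Δ₀.eval t ≠ 0) + c
      omega)
    fun _ _ => rfl
  rw [sum_image θ.injective.injOn, sum_congr rfl fun t _ => hr t] at hmain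
  have h4 : (pts f p).ncard = ∑ t, r₀ t := by
    have : pts f p = (univ.filter fun z : ZMod p × ZMod p => f₀.evalEval z.1 z.2 = 0 :
        Finset _) := by
      ext z; simp [pts, hf₀]
    rw [this, Set.ncard_coe_finset, card_filter, Fintype.sum_prod_type]
    simp only [r₀, card_filter]
  have h5 : ∑ t ∈ univ.filter fun t => ¬ Δ₀.eval t ≠ 0, r₀ t ≤ c * f.natDegree := by
    refine (sum_le_card_nsmul _ _ f.natDegree fun t _ => ?_).trans (Nat.mul_le_mul_right _ hS₀)
    have hm' := (hm.map (mapRingHom (Int.castRingHom (ZMod p)))).map (evalRingHom t)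
    refine (card_le_card (t := (f₀.map (evalRingHom t)).roots.toFinset) fun z hz => ?_).trans
      ((Multiset.toFinset_card_le _).trans ((card_roots' _).trans
        (natDegree_map_le.trans natDegree_map_le)))
    rw [Multiset.mem_toFinset, mem_roots hm'.ne_zero, IsRoot, map_evalRingHom_eval]
    exact (mem_filter.1 hz).2
  rw [h4, ← sum_filter_add_sum_filter_not univ fun t => Δ₀.eval t ≠ 0]
  have h6 : (1 : ℝ) ≤ √p := Real.one_le_sqrt.2 (by exact_mod_cast hpr.pos)
  change |((∑ t ∈ S₀, r₀ t + _ : ℕ) : ℝ) - p| ≤ _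
  generalize ∑ t ∈ S₀, r₀ t = u at hmain ⊢
  generalize ∑ t ∈ univ.filter fun t => ¬ Δ₀.eval t ≠ 0, r₀ t = v at h5 ⊢
  generalize c * f.natDegree = w at h5 ⊢
  have h7 : (v : ℝ) ≤ w := by exact_mod_cast h5
  have h8 : (w : ℝ) ≤ w * √p := le_mul_of_one_le_right (Nat.cast_nonneg _) h6
  have h9 : (0 : ℝ) ≤ v := Nat.cast_nonneg _
  rw [abs_le] at hmain ⊢
  push_cast
  constructor <;> nlinarith [hmain.1, hmain.2]

/-- The number of points modulo `p` of an absolutely irreducible curve is `p + O(√p)`. -/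
theorem step (Ω : Type) [Field Ω] [IsAlgClosed Ω] [CharZero Ω] (f : ℤ[X][X]) (hm : f.Monic)
    (hirr : Irreducible (f.map (mapRingHom (Int.castRingHom Ω)))) :
    ∃ K : ℝ, 0 ≤ K ∧ ∀ p : ℕ, p.Prime → |((pts f p).ncard : ℝ) - p| ≤ K * √p := by
  obtain ⟨K, hK⟩ := step_large Ω f hm hirr
  obtain ⟨N, hN⟩ := eventually_atTop.1 hK
  refine ⟨K + (N ^ 2 + N), by positivity, fun p hp => ?_⟩
  have h6 : (1 : ℝ) ≤ √p := Real.one_le_sqrt.2 (by exact_mod_cast hp.pos)
  rcases le_or_gt N p with h | h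
  · refine (hN p h hp).trans (mul_le_mul_of_nonneg_right (le_add_of_nonneg_right ?_) ?_) <;>
      positivity
  have : Fact p.Prime := ⟨hp⟩
  have h1 : (pts f p).ncard ≤ N ^ 2 := by
    refine (Set.ncard_le_card _).trans ?_
    rw [Nat.card_prod, Nat.card_zmod, sq]
    exact Nat.mul_le_mul h.le h.le
  have h2 : ((pts f p).ncard : ℝ) ≤ N ^ 2 := by exact_mod_cast h1
  have h3 : (p : ℝ) ≤ N := by exact_mod_cast h.le
  have h4 : (0 : ℝ) ≤ (pts f p).ncard := Nat.cast_nonneg _
  have h5 : (K : ℝ) + (N ^ 2 + N) ≤ (K + (N ^ 2 + N)) * √p :=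
    le_mul_of_one_le_right (by positivity) h6
  have h7 : (0 : ℝ) ≤ p := Nat.cast_nonneg _
  have h8 : (0 : ℝ) ≤ K := Nat.cast_nonneg _
  rw [abs_le]
  constructor <;> nlinarith [sq_nonneg (N : ℝ)]

end Pool.Agent.Lib.BK2.Step
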