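import Pool.Agent.Lib.BK2.SBas
import Pool.Agent.Lib.BK2.CBas

/-! The variance bound for one point functions. -/

open Finset
open scoped Classical

set_option linter.unusedVariables false

noncomputable section

namespace Pool.Agent.Lib.BK2.STV1

open Co SB

variable {D : SD} {K c1 eps del τ : ℝ}

theorem amb (hU : St_UP) (H : D.Hyp K c1 eps del) (c : D.TE → D.TX → ℝ) (A : D.TE → D.O → ℝ)
    (f : D.TW → D.TX → ℝ) (h0 : ∀ w x, f w x ≠ 0 → w ∈ D.W)
    (hf : ∀ x ∈ D.X, ∀ c0, ∑ w ∈ D.fib c0, (if x ∈ D.onW w then f w x else 0) = 0) :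
    (∑ e ∈ D.G, ∑ w ∈ D.W, D.om e w * ((∑ x ∈ D.Z e w, f w x) *
        (∑ x ∈ D.Z e w, c e x + ∑ i, A e i * D.lam e w i))) ^ 2 ≤
      (del * D.G.card * ∑ w ∈ D.W, ∑ x ∈ D.onW w, D.mu x * f w x ^ 2) *
        (D.k * (4 * K ^ 3 * D.W.card *
          ∑ e ∈ D.G, (D.k ^ 2 * ∑ x ∈ D.Maj e, D.mu x * c e x ^ 2 + ∑ i, A e i ^ 2))) := by
  let φ : D.TX → D.TE → Finset D.TX → (D.O → ℝ) → ℝ := fun x e Y l =>
    if x ∈ Y then ∑ y ∈ Y, c e y + ∑ i, A e i * l i else 0
  let g : D.TX → D.TW → ℝ := fun x w => if x ∈ D.onW w then f w x else 0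
  have hd := H.hd
  have cs := sum_sq_le_sum_mul_sum_of_sq_le_mul D.X
    (r := fun x => ∑ e ∈ D.G, ∑ w ∈ D.W, g x w * (D.om e w * φ x e (D.Z e w) (D.lam e w)))
    (f := fun x => del * D.G.card * D.mu x * ∑ w ∈ D.W, g x w ^ 2)
    (g := fun x => ∑ e ∈ D.G, ∑ w ∈ D.Wp, D.om e w * φ x e (D.Z e w) (D.lam e w) ^ 2)
    (fun x hx => by have := H.mu_pos x hx; positivity)
    (fun x hx => sum_nonneg fun e he => sum_nonneg fun w _ =>
      mul_nonneg (H.om_nn e he w) (sq_nonneg _)) fun x hx => by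
      have := H.var {x} (singleton_subset_iff.2 hx) (by simp) (by simp) (g x) (φ x)
        (fun w hw => by
          have e : x ∈ D.onW w := by_contra fun e => hw (if_neg e)
          exact ⟨h0 w x (by rwa [show g x w = f w x from if_pos e] at hw),
            singleton_subset_iff.2 e⟩) (hf x hx)
        fun e Y l h => singleton_subset_iff.2 (by_contra fun e => h (if_neg e))
      rwa [prod_singleton] at this
  refine le_trans (le_of_eq (congrArg (· ^ 2) ?_)) (cs.trans ?_)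
  · rw [sum_comm (s := D.X)]
    refine sum_congr rfl fun e he => ?_
    rw [sum_comm (s := D.X)]
    refine sum_congr rfl fun w hw => ?_
    by_cases o : D.om e w = 0
    · simp [o]
    rw [sum_mul, mul_sum, ← sum_subset (Z_sub H he o) fun x _ hx => by simp [φ, hx]]
    refine sum_congr rfl fun x hx => ?_
    simp only [φ, g, if_pos hx, if_pos (H.Z_onW e he w o hx)]
    ring
  refine mul_le_mul (le_of_eq ?_) ?_ (sum_nonneg fun x _ => sum_nonneg fun e he =>
    sum_nonneg fun w _ => mul_nonneg (H.om_nn e he w) (sq_nonneg _)) (mul_nonneg (by positivity)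
      (sum_nonneg fun w _ => sum_nonneg fun x hx =>
        mul_nonneg (H.mu_pos x (H.onW_sub w hx)).le (sq_nonneg _)))
  · simp only [mul_assoc, ← mul_sum]
    simp only [mul_sum (s := D.W)]
    rw [sum_comm, ← mul_sum, ← mul_sum]
    refine congrArg (fun r : ℝ => del * (D.G.card * r)) (sum_congr rfl fun w _ => ?_)
    rw [← sum_subset (H.onW_sub w) fun x _ hx => by simp [g, hx]]
    exact sum_congr rfl fun x hx => by simp only [g, if_pos hx]
  · rw [sum_comm, mul_sum, mul_sum]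
    refine sum_le_sum fun e he => le_trans (le_of_eq ?_)
      (mul_le_mul_of_nonneg_left ((hU D K c1 eps del H e he).2.2.2 (c e) (A e)) (Nat.cast_nonneg _))
    rw [sum_comm, mul_sum]
    refine sum_congr rfl fun w hw => ?_
    by_cases o : D.om e w = 0
    · simp [o]
    rw [← sum_subset (Z_sub H he o) fun x _ hx => by simp [φ, hx],
      sum_congr rfl fun x hx => by rw [show φ x e _ _ = _ from if_pos hx], sum_const,
      H.Z_card e he w o, nsmul_eq_mul]

theorem v1 (hU : St_UP) (D : SD) (K c1 eps del τ : ℝ) (H : D.Hyp K c1 eps del) (h0 : 0 ≤ τ)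
    (h1 : 4 * K ^ 3 * (D.b + 1) * del ≤ τ ^ 2) (c : ↥D.G → ↥D.X → ℝ) (A : ↥D.G → D.O → ℝ)
    (f : ↥D.W → ↥D.X → ℝ)
    (hf : ∀ x c0, ∑ w, (if (D.toCD K).cell w = c0 ∧ x ∈ (D.toCD K).MW w then f w x else 0) = 0) :
    |(D.toCD K).ip ((D.toCD K).Bf f)
        (fun e w => (D.toCD K).Af c e w + (D.toCD K).alp A e w)| ≤
      τ * (D.toCD K).k * (D.toCD K).nW f * ((D.toCD K).k * (D.toCD K).nE c + nA A) := by
  let c' : D.TE → D.TX → ℝ := ext D.G fun e => ext D.X (c e)
  let f' : D.TW → D.TX → ℝ := ext D.W fun w => ext D.X (f w)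
  have ec : ∀ (e : ↥D.G) (x : ↥D.X), c e x = c' e x := fun e x => by simp [c']
  have ef : ∀ (w : ↥D.W) (x : ↥D.X), f w x = f' w x := fun w x => by simp [f']
  have eA : ∀ e : ↥D.G, A e = ext D.G A e := fun e => by simp
  have key := amb hU H c' (ext D.G A) f' (fun w x h => by_contra fun e => h (by
    simp [f', ext_not _ e])) fun x hx c0 => by
      by_cases e : c0 ∈ D.W.image D.cell
      · refine Eq.trans ?_ (hf ⟨x, hx⟩ ⟨c0, e⟩)
        rw [SD.fib, sum_filter, ← sum_coe]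
        refine sum_congr rfl fun w _ => ?_
        simp only [cell_eq, mem_MW, ite_and, ef]
      · exact sum_eq_zero fun w hw =>
          (e (mem_image.2 ⟨w, (mem_filter.1 hw).1, (mem_filter.1 hw).2⟩)).elim
  have hG : (0 : ℝ) < D.G.card := Nat.cast_pos.2 H.G_ne.card_pos
  have hW : (0 : ℝ) < D.W.card := Nat.cast_pos.2 H.W_ne.card_pos
  have hm : ∀ x : ↥D.X, 0 ≤ (D.toCD K).mu x := fun x => (H.mu_pos x x.2).le
  have e1 : (D.toCD K).ip ((D.toCD K).Bf f) (fun e w => (D.toCD K).Af c e w +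
      (D.toCD K).alp A e w) = (∑ e ∈ D.G, ∑ w ∈ D.W, D.om e w * ((∑ x ∈ D.Z e w, f' w x) *
        (∑ x ∈ D.Z e w, c' e x + ∑ i, ext D.G A e i * D.lam e w i))) / D.W.card / D.G.card := by
    rw [sum_div, ← av_coe]
    refine congrArg av (funext fun e => ?_)
    rw [← av_coe]
    refine congrArg av (funext fun w => ?_)
    by_cases o : D.om e w = 0
    · rw [show (D.toCD K).om e w = 0 from o, o, zero_mul, zero_mul]
    rw [← sum_Z H e w o, ← sum_Z H e w o, ← eA]
    simp only [← ec, ← ef]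
    rfl
  have e2 : ∑ w ∈ D.W, ∑ x ∈ D.onW w, D.mu x * f' w x ^ 2 = D.W.card * (D.toCD K).nW f ^ 2 := by
    rw [CD.nW, Real.sq_sqrt (av_nonneg fun w => sum_nonneg fun x _ =>
      mul_nonneg (hm x) (sq_nonneg _)), mul_comm, ← div_eq_iff hW.ne', ← av_coe]
    refine congrArg av (funext fun w => ?_)
    rw [← sum_MW H w]
    simp only [← ef]
    rfl
  have e3 : ∑ e ∈ D.G, (D.k ^ 2 * ∑ x ∈ D.Maj e, D.mu x * c' e x ^ 2 + ∑ i, ext D.G A e i ^ 2) =
      D.G.card * (D.k ^ 2 * (D.toCD K).nE c ^ 2 + nA A ^ 2) := by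
    rw [nA_sq, CD.nE, Real.sq_sqrt (av_nonneg fun w => sum_nonneg fun x _ =>
      mul_nonneg (hm x) (sq_nonneg _)), mul_comm, ← div_eq_iff hG.ne', ← av_coe,
      ← av_mul, ← av_add]
    refine congrArg av (funext fun e => ?_)
    rw [← sum_ME H e, ← eA]
    simp only [← ec]
    rfl
  rw [e2, e3] at key
  rw [e1]
  have n1 := (D.toCD K).nW_nonneg f
  have n2 := (D.toCD K).nE_nonneg c
  have n3 := nA_nonneg A
  have hk : (2 : ℝ) ≤ D.k := by exact_mod_cast H.hk
  have hK := H.hK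
  have hd := H.hd
  change _ ≤ τ * D.k * _ * (D.k * _ + _)
  generalize (D.toCD K).nW f = u, (D.toCD K).nE c = v, nA A = s, (D.k : ℝ) = k at *
  refine abs_le_of_sq_le_sq' ?_ (by positivity) |> abs_le.2
  rw [div_pow, div_pow, div_div, div_le_iff₀ (by positivity)]
  refine key.trans ?_
  have a1 : 4 * K ^ 3 * del ≤ τ ^ 2 := le_trans (by
    have : 0 ≤ 4 * K ^ 3 * D.b * del := by positivity
    linarith) h1
  calc _ = 4 * K ^ 3 * del * k * (k ^ 2 * v ^ 2 + s ^ 2) * (u * D.W.card * D.G.card) ^ 2 := by ring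
    _ ≤ τ ^ 2 * k ^ 2 * (k * v + s) ^ 2 * (u * D.W.card * D.G.card) ^ 2 := by
      gcongr
      · nlinarith
      · nlinarith [mul_nonneg (mul_nonneg (by linarith : 0 ≤ k) n2) n3]
    _ = _ := by ring

end Pool.Agent.Lib.BK2.STV1
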