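import Pool.Agent.Lib.PK1.Cheb49B

/-!
Stepanov's method with a bounded order of vanishing: the abstract part.
-/

namespace Pool.Agent.Lib.BK2.Step

open Finset PowerSeries Pool.Agent.Lib.PK1.Cheb

variable {k : Type*} [Field k]

theorem dvd_of_iter (δ : k⟦X⟧) (hδ : constantCoeff δ ≠ 0) : ∀ (M : ℕ) (u : k⟦X⟧),
    (∀ i : ℕ, 0 < i → i < M → (i : k) ≠ 0) →
    (∀ r < M, constantCoeff ((fun v : k⟦X⟧ => δ * derivative k v)^[r] u) = 0) →
    (X : k⟦X⟧) ^ M ∣ u := by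
  intro M
  induction M with
  | zero => intro u _ _; simp
  | succ M ih =>
    intro u h1 h2
    have h3 : (X : k⟦X⟧) ^ M ∣ δ * derivative k u :=
      ih _ (fun i a b => h1 i a (by omega)) fun r hr => by
        have := h2 (r + 1) (by omega)
        rwa [Function.iterate_succ_apply] at this
    have hu : IsUnit δ := by rwa [isUnit_iff_constantCoeff, isUnit_iff_ne_zero]
    rw [hu.dvd_mul_left, X_pow_dvd_iff] at h3
    rw [X_pow_dvd_iff]
    intro i hi
    rcases i with _ | i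
    · simpa using h2 0 (by omega)
    · have := h3 i (by omega)
      rw [coeff_derivative, mul_eq_zero] at this
      refine this.resolve_right ?_
      exact_mod_cast h1 (i + 1) (by omega) hi

theorem zerosM {G : Type*} [Fintype G] (S : Finset k) (u : k → G → k⟦X⟧) {P : Polynomial k}
    (hP : P ≠ 0) (h : ∀ t ∈ S, ∏ g, u t g = tay t P) (M : ℕ) (W : Finset (k × G))
    (hW : ∀ w ∈ W, w.1 ∈ S ∧ (X : k⟦X⟧) ^ M ∣ u w.1 w.2) : M * W.card ≤ P.natDegree := by
  classical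
  rw [card_eq_sum_card_fiberwise (f := Prod.fst) (t := S) fun w hw => (hW w hw).1, mul_sum]
  calc _ ≤ ∑ t ∈ S, P.roots.count t := sum_le_sum fun t ht => ?_
    _ ≤ ∑ t ∈ S ∪ P.roots.toFinset, P.roots.count t := sum_le_sum_of_subset subset_union_left
    _ = P.roots.card := Multiset.sum_count_eq_card (fun a ha => by simp [ha])
    _ ≤ _ := Polynomial.card_roots' P
  rw [Polynomial.count_roots]
  refine tay_dvd hP ?_
  rw [← h t ht, ← card_image_of_injOn (f := Prod.snd) fun a ha b hb e =>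
    Prod.ext ((mem_filter.1 ha).2.trans (mem_filter.1 hb).2.symm) e, pow_mul, ← prod_const]
  refine (prod_dvd_prod_of_dvd _ _ fun g hg => ?_).trans (prod_dvd_prod_of_subset _ _ _ (subset_univ _))
  obtain ⟨w, hw, rfl⟩ := mem_image.1 hg
  rw [← (mem_filter.1 hw).2]
  exact (hW w (mem_filter.1 hw).1).2

theorem num (N c κ M α β : ℕ) (hN : 0 < N) (hα : M * (2 * c + M + M * κ + 1) ≤ α)
    (h1 : M + 1 ≤ N * (β + 1)) (h2 : β ≤ M) :
    M * (N * (c + α + M * κ + (c + β)) + 1) < N * (α + 1) * (N * (β + 1)) := by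
  have h3 : N * (α + 1) * (M + 1) ≤ N * (α + 1) * (N * (β + 1)) := Nat.mul_le_mul_left _ h1
  refine lt_of_lt_of_le ?_ h3
  have h4 : N * (M * (2 * c + M + M * κ + 1)) ≤ N * α := Nat.mul_le_mul_left _ hα
  have h5 : M * (N * β) ≤ M * (N * M) := Nat.mul_le_mul_left _ (Nat.mul_le_mul_left _ h2)
  have h6 : M ≤ N * M := Nat.le_mul_of_pos_left _ hN
  nlinarith

theorem stepanov (p m : ℕ) [ExpChar k p] {R : Type*} [CommRing R] [Algebra k R]
    {G Λ : Type*} [Fintype G] [Fintype Λ] (hΛ : Fintype.card Λ = Fintype.card G)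
    (Fil : ℕ → Submodule k R) (hmul : ∀ a b, ∀ x ∈ Fil a, ∀ y ∈ Fil b, x * y ∈ Fil (a + b))
    (h1 : ∀ a, 1 ∈ Fil a) (T : R) (hT : T ∈ Fil 1) (S : Finset k) (ι : k → G → R →ₐ[k] k⟦X⟧)
    (hιT : ∀ t ∈ S, ∀ g, ι t g T = X + C t)
    (hN : ∀ a, ∀ f ∈ Fil a, (∀ t ∈ S, ∀ g, ι t g f = 0) ∨ ∃ P : Polynomial k, P ≠ 0 ∧
      P.natDegree ≤ Fintype.card G * a ∧ ∀ t ∈ S, ∏ g, ι t g f = tay t P)
    (c : ℕ) (w w' : Λ → R) (hw : ∀ l, w l ∈ Fil c) (hw' : ∀ l, w' l ∈ Fil c)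
    (hind : ∀ t ∈ S, ∀ g, LinearIndependent k fun x : Λ × ℕ => ι t g (T ^ x.2 * w x.1))
    (D : R → R) (κ : ℕ) (hD : ∀ a, ∀ x ∈ Fil a, D x ∈ Fil (a + κ)) (δ : k → k⟦X⟧)
    (hδ : ∀ t ∈ S, constantCoeff (δ t) ≠ 0)
    (hDι : ∀ t ∈ S, ∀ g x, ι t g (D x) = δ t * derivative k (ι t g x)) (M : ℕ)
    (hM : ∀ i : ℕ, 0 < i → i < M → (i : k) ≠ 0)
    (hq : Fintype.card G * (c + M * (2 * c + M + M * κ + 1) + 1) ≤ p ^ m) (W : Finset (k × G))
    (hW : ∀ x ∈ W, x.1 ∈ S ∧ x.1 ^ p ^ m = x.1 ∧ ∀ l,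
      constantCoeff (ι x.1 x.2 (w l)) ^ p ^ m = constantCoeff (ι x.1 x.2 (w' l))) :
    M * W.card ≤ (M + Fintype.card G * c + 1) * p ^ m := by
  classical
  have : ExpChar k⟦X⟧ p := expChar_of_injective_algebraMap (algebraMap k k⟦X⟧).injective p
  rcases W.eq_empty_or_nonempty with rfl | ⟨⟨t0, g0⟩, h0⟩
  · simp
  have ht0 : t0 ∈ S := (hW _ h0).1
  set N := Fintype.card G
  have hN0 : 0 < N := Fintype.card_pos_iff.2 ⟨g0⟩
  set q := p ^ m with hqd
  have hq0 : 0 < q := lt_of_lt_of_le (by positivity) hq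
  have hMq : M ≤ q := by
    refine le_trans ?_ ((Nat.le_mul_of_pos_left _ hN0).trans hq)
    nlinarith [Nat.zero_le (M * (2 * c + M + M * κ))]
  have hmono : ∀ a b, a ≤ b → ∀ x ∈ Fil a, x ∈ Fil b := fun a b h x hx => by
    obtain ⟨d, rfl⟩ := Nat.exists_eq_add_of_le h
    simpa using hmul _ _ _ hx _ (h1 d)
  have hpow : ∀ a, ∀ x ∈ Fil a, ∀ n, x ^ n ∈ Fil (n * a) := fun a x hx n => by
    induction n with
    | zero => simpa using h1 0
    | succ n ih => rw [pow_succ, Nat.succ_mul]; exact hmul _ _ _ ih _ hx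
  have hTw : ∀ (v : Λ → R), (∀ l, v l ∈ Fil c) → ∀ n l (i : Fin (n + 1)),
      T ^ (i : ℕ) * v l ∈ Fil (c + n) := fun v hv n l i =>
    hmono _ _ (by have := i.2; omega) _ (hmul _ _ _ (hpow _ _ hT i) _ (hv l))
  have hit : ∀ r a, ∀ x ∈ Fil a, D^[r] x ∈ Fil (a + r * κ) := fun r => by
    induction r with
    | zero => intro a x hx; simpa using hx
    | succ r ih =>
      intro a x hx
      rw [Function.iterate_succ_apply, Nat.succ_mul, add_comm (r * κ), ← add_assoc]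
      exact ih _ _ (hD a x hx)
  have hord : ∀ a, ∀ f ∈ Fil a, (X : k⟦X⟧) ^ (N * a + 1) ∣ ι t0 g0 f →
      ∀ t ∈ S, ∀ g, ι t g f = 0 := fun a f hf hd => by
    refine (hN a f hf).resolve_right ?_
    rintro ⟨P, hP, hd', e⟩
    have := tay_dvd hP (t := t0) (r := N * a + 1) (by
      rw [← e t0 ht0]; exact hd.trans (dvd_prod_of_mem _ (mem_univ g0)))
    have := this.trans ((Polynomial.count_roots P).symm.le.trans
      ((Multiset.count_le_card _ _).trans (Polynomial.card_roots' P)))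
    omega
  obtain ⟨α, hα, hα1⟩ : ∃ α, M * (2 * c + M + M * κ + 1) ≤ α ∧ N * (c + α) + 1 ≤ q := by
    refine ⟨_, le_rfl, le_trans ?_ hq⟩
    rw [mul_add N _ 1]
    omega
  set β := M / N
  have hβ1 : M + 1 ≤ N * (β + 1) := Nat.lt_mul_div_succ M hN0
  have hβ2 : N * β ≤ M := Nat.mul_div_le M N
  have hβ3 : β ≤ M := Nat.div_le_self M N
  let a : Λ × Fin (α + 1) → R := fun x => T ^ (x.2 : ℕ) * w x.1
  let b : Λ × Fin (β + 1) → R := fun x => T ^ (x.2 : ℕ) * w x.1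
  let b' : Λ × Fin (β + 1) → R := fun x => T ^ (x.2 : ℕ) * w' x.1
  let M' := N * (c + α + M * κ + (c + β)) + 1
  let v : (Λ × Fin (α + 1)) × (Λ × Fin (β + 1)) → Fin M × Fin M' → k :=
    fun x i => coeff i.2 (ι t0 g0 (D^[i.1] (a x.1) * b' x.2))
  have hv : ¬ LinearIndependent k v := fun hl => by
    have := hl.fintype_card_le_finrank
    simp only [Fintype.card_prod, Fintype.card_fin, hΛ, Module.finrank_fintype_fun_eq_card] at this
    exact absurd (num N c κ M α β hN0 hα hβ1 hβ3) (not_lt.2 this)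
  obtain ⟨u, hu1, x0, hu2⟩ := Fintype.not_linearIndependent_iff.1 hv
  have hz : ∀ r < M, ∀ t ∈ S, ∀ g, ι t g (∑ x, u x • (D^[r] (a x.1) * b' x.2)) = 0 := by
    intro r hr
    refine hord (c + α + M * κ + (c + β)) _ (Submodule.sum_mem _ fun x _ => Submodule.smul_mem _ _
      (hmul _ _ _ (hmono _ _ (Nat.add_le_add_left (Nat.mul_le_mul_right _ hr.le) _) _
        (hit r _ _ (hTw w hw α _ _))) _ (hTw w' hw' β _ _))) ?_
    rw [X_pow_dvd_iff]
    intro i hi
    have := congrFun hu1 (⟨r, hr⟩, ⟨i, hi⟩)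
    simpa [v, Finset.sum_apply] using this
  let s : Λ × Fin (β + 1) → R := fun j => ∑ i, u (i, j) • a i
  have hs : ∀ j, s j ∈ Fil (c + α) := fun j =>
    Submodule.sum_mem _ fun i _ => Submodule.smul_mem _ _ (hTw w hw α _ _)
  have hli : ∀ n, LinearIndependent k fun x : Λ × Fin n => ι t0 g0 (T ^ (x.2 : ℕ) * w x.1) :=
    fun n => (hind t0 ht0 g0).comp (fun x : Λ × Fin n => (x.1, (x.2 : ℕ)))
      fun x y e => Prod.ext (Prod.ext_iff.1 e).1 (Fin.ext (Prod.ext_iff.1 e).2)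
  have hg : ι t0 g0 (∑ j, s j * b j ^ q) ≠ 0 := fun e => by
    simp only [map_sum, map_mul, map_pow] at e
    have := indep p m ((Fil (c + α)).map (ι t0 g0).toLinearMap) (by
      rintro _ ⟨f, hf, rfl⟩ hd
      exact hord _ f hf ((pow_dvd_pow _ hα1).trans hd) t0 ht0 g0) (fun j => ι t0 g0 (s j))
      (fun j => ⟨_, hs j, rfl⟩) _ univ (fun j => ι t0 g0 (b j)) rfl
      (fun c hc j _ => Fintype.linearIndependent_iff.1 (hli (β + 1)) c hc j) e x0.2 (mem_univ _)
    simp only [s, map_sum, map_smul] at this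
    exact hu2 (Fintype.linearIndependent_iff.1 (hli (α + 1)) _ this x0.1)
  obtain ⟨P, hP, hd, e⟩ := (hN (c + α + q * (c + β)) (∑ j, s j * b j ^ q)
    (Submodule.sum_mem _ fun j _ => hmul _ _ _ (hs j) _ (hpow _ _ (hTw w hw β _ _) q))).resolve_left
    fun h => hg (h t0 ht0 g0)
  refine (zerosM S _ hP e M W fun x hx => ⟨(hW x hx).1, ?_⟩).trans (hd.trans ?_)
  · obtain ⟨h1, h2, h3⟩ := hW x hx
    let ev : R →+* k := (constantCoeff (R := k)).comp (ι x.1 x.2).toRingHom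
    have hev : ∀ f, ev f = constantCoeff (ι x.1 x.2 f) := fun f => rfl
    have hb : ∀ j, ev (b j) ^ q = ev (b' j) := fun j => by
      have e1 : ev T = x.1 := by simp [ev, hιT _ h1]
      simp only [b, b', map_mul, map_pow, mul_pow, e1]
      rw [← pow_mul, mul_comm _ q, pow_mul, h2]
      exact congrArg _ (h3 j.1)
    let E : k⟦X⟧ → k⟦X⟧ := fun v => δ x.1 * derivative k v
    have hE : ∀ r (z : (Λ × Fin (α + 1)) × (Λ × Fin (β + 1)) → k) (y : Λ × Fin (α + 1) → R),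
        E^[r] (∑ i, z i • ι x.1 x.2 (y i.1)) = ∑ i, z i • ι x.1 x.2 (D^[r] (y i.1)) := fun r => by
      induction r with
      | zero => intro z y; rfl
      | succ r ih =>
        intro z y
        have : E (∑ i, z i • ι x.1 x.2 (y i.1)) = ∑ i, z i • ι x.1 x.2 (D (y i.1)) := by
          simp only [E, hDι _ h1, ← mul_smul_comm, ← mul_sum]
          rw [map_sum]
          simp only [Derivation.map_smul]
        rw [Function.iterate_succ_apply, this]
        exact ih z fun i => D (y i)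
    have d1 : (X : k⟦X⟧) ^ M ∣ ∑ i, (u i * ev (b' i.2)) • ι x.1 x.2 (a i.1) := by
      refine dvd_of_iter _ (hδ _ h1) M _ hM fun r hr => ?_
      have e2 := congrArg constantCoeff (hz r hr _ h1 x.2)
      rw [map_zero] at e2
      rw [← e2]
      change constantCoeff (E^[r] _) = _
      rw [hE]
      simp only [map_sum, map_smul, map_mul, constantCoeff_smul, smul_eq_mul, hev]
      exact sum_congr rfl fun i _ => by ring
    have d2 : ∀ j, (X : k⟦X⟧) ^ M ∣ ι x.1 x.2 (b j) ^ q - C (ev (b' j)) := fun j => by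
      rw [← hb, map_pow, hqd, ← sub_pow_expChar_pow]
      refine (pow_dvd_pow _ hMq).trans (pow_dvd_pow_of_dvd ?_ _)
      rw [X_dvd_iff, map_sub, constantCoeff_C, hev, sub_self]
    have e3 : ι x.1 x.2 (∑ j, s j * b j ^ q) = ∑ i, (u i * ev (b' i.2)) • ι x.1 x.2 (a i.1) +
        ∑ j, ι x.1 x.2 (s j) * (ι x.1 x.2 (b j) ^ q - C (ev (b' j))) := by
      rw [Fintype.sum_prod_type_right fun i : (Λ × Fin (α + 1)) × (Λ × Fin (β + 1)) =>
        (u i * ev (b' i.2)) • ι x.1 x.2 (a i.1), ← sum_add_distrib, map_sum]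
      refine sum_congr rfl fun j _ => ?_
      have : ∑ i, (u (i, j) * ev (b' j)) • ι x.1 x.2 (a i) = ι x.1 x.2 (s j) * C (ev (b' j)) := by
        simp only [s, map_sum, map_smul, sum_mul]
        refine sum_congr rfl fun i _ => ?_
        rw [mul_smul, smul_mul_assoc, smul_eq_C_mul _ (ev (b' j)), mul_comm (C _)]
      rw [this, map_mul, map_pow]
      ring
    rw [e3]
    exact d1.add (dvd_sum fun j _ => (d2 j).mul_left _)
  · have h2 : q * (N * β) ≤ q * M := Nat.mul_le_mul_left _ hβ2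
    nlinarith

end Pool.Agent.Lib.BK2.Step
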