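import Pool.Agent.Lib.BK2.StepA

/-!
The twisted upper bound over prime fields.
-/

namespace Pool.Agent.Lib.BK2.Step

open Finset Polynomial Pool.Agent.Lib.PK1.Cheb

variable {k : Type*} [Field k]

section fil

variable {R σ : Type*} [CommRing R] (x : σ → R) (w : σ → ℕ)

/-- Monomials of bounded weight. -/
inductive Mon : ℕ → R → Prop
  | one (a : ℕ) : Mon a 1
  | mul (s : σ) (a : ℕ) (u : R) : Mon a u → Mon (a + w s) (x s * u)

theorem Mon.up {b : ℕ} {v : R} (h : Mon x w b v) (a : ℕ) : Mon x w (a + b) v := by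
  induction h with
  | one b => exact .one _
  | mul s b u _ ih => rw [← add_assoc]; exact .mul s _ u ih

theorem Mon.mul' {a b : ℕ} {u v : R} (h : Mon x w a u) (h' : Mon x w b v) :
    Mon x w (a + b) (u * v) := by
  induction h with
  | one a => rw [one_mul]; exact h'.up x w a
  | mul s a u _ ih => rw [mul_assoc, add_right_comm]; exact .mul s _ _ ih

variable [Algebra k R]

variable (k) in
/-- The weight filtration. -/
def Wt (a : ℕ) : Submodule k R := Submodule.span k {u | Mon x w a u}

theorem wt_one (a : ℕ) : (1 : R) ∈ Wt k x w a := Submodule.subset_span (Mon.one a)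

theorem wt_mul (a b : ℕ) (u : R) (hu : u ∈ Wt k x w a) (v : R) (hv : v ∈ Wt k x w b) :
    u * v ∈ Wt k x w (a + b) := by
  have := Submodule.mul_mem_mul hu hv
  rw [Wt, Wt, Submodule.span_mul_span] at this
  refine Submodule.span_mono ?_ this
  rintro _ ⟨u, hu, v, hv, rfl⟩
  exact Mon.mul' x w hu hv

theorem wt_mono {a b : ℕ} (h : a ≤ b) {u : R} (hu : u ∈ Wt k x w a) : u ∈ Wt k x w b := by
  obtain ⟨d, rfl⟩ := Nat.exists_eq_add_of_le h
  simpa using wt_mul x w _ _ _ hu _ (wt_one x w d)

theorem wt_gen (s : σ) : x s ∈ Wt k x w (w s) := by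
  have := Mon.mul (x := x) (w := w) s 0 1 (.one 0)
  rw [zero_add, mul_one] at this
  exact Submodule.subset_span this

theorem wt_pow {a : ℕ} {u : R} (hu : u ∈ Wt k x w a) (n : ℕ) : u ^ n ∈ Wt k x w (n * a) := by
  induction n with
  | zero => simpa using wt_one x w 0
  | succ n ih => rw [pow_succ, Nat.succ_mul]; exact wt_mul x w _ _ _ ih _ hu

theorem wt_le (Fil : ℕ → Submodule k R)
    (hmul : ∀ a b, ∀ u ∈ Fil a, ∀ v ∈ Fil b, u * v ∈ Fil (a + b)) (h1 : ∀ a, 1 ∈ Fil a)
    (hx : ∀ s, x s ∈ Fil (w s)) (a : ℕ) : Wt k x w a ≤ Fil a := by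
  refine Submodule.span_le.2 fun u (hu : Mon x w a u) => ?_
  induction hu with
  | one a => exact h1 a
  | mul s a u h ih => rw [add_comm]; exact hmul _ _ _ (hx s) _ ih

theorem wt_der (D : Derivation k R R) (κ : ℕ) (hD : ∀ s, D (x s) ∈ Wt k x w (w s + κ)) (a : ℕ)
    (u : R) (hu : u ∈ Wt k x w a) : D u ∈ Wt k x w (a + κ) := by
  refine (Submodule.span_le (p := (Wt k x w (a + κ)).comap D.toLinearMap)).2
    (fun u (hu : Mon x w a u) => (?_ : D u ∈ Wt k x w (a + κ))) hu
  clear * - hD hu
  induction hu with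
  | one a => simp
  | mul s a u h ih =>
    rw [Derivation.leibniz, smul_eq_mul, smul_eq_mul]
    refine add_mem ?_ ?_
    · rw [add_comm a, add_assoc]
      exact wt_mul x w _ _ _ (wt_gen x w s) _ ih
    · rw [add_assoc]
      exact wt_mul x w _ _ _ (Submodule.subset_span h) _ (hD s)

theorem wt_aeval {u : R} (hu : u ∈ Wt k x w 1) {P : k[X]} {n : ℕ} (h : P.natDegree ≤ n) :
    aeval u P ∈ Wt k x w n := by
  rw [aeval_eq_sum_range]
  refine Submodule.sum_mem _ fun i hi => Submodule.smul_mem _ _ (wt_mono x w ?_ (wt_pow x w hu i))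
  have := mem_range.1 hi
  omega

theorem wt_eval₂ {u v : R} (hu : u ∈ Wt k x w 1) {c d : ℕ} (hv : v ∈ Wt k x w c) {Q : k[X][X]}
    (h : ∀ i, (Q.coeff i).natDegree ≤ c) (hd : Q.natDegree ≤ d) :
    Q.eval₂ (aeval u : k[X] →ₐ[k] R) v ∈ Wt k x w (c + d * c) := by
  rw [eval₂_eq_sum_range]
  refine Submodule.sum_mem _ fun i hi => wt_mul x w _ _ _ (wt_aeval x w hu (h i)) _
    (wt_mono x w (Nat.mul_le_mul_right _ ?_) (wt_pow x w hv i))
  have := mem_range.1 hi
  omega

end fil

/-- The derivative in the inner variable. -/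
noncomputable def dT (Q : k[X][X]) : k[X][X] := Q.sum fun n P => monomial n (derivative P)

theorem coeff_dT (Q : k[X][X]) (n : ℕ) : (dT Q).coeff n = derivative (Q.coeff n) := by
  rw [dT, sum_def, finsetSum_coeff, sum_eq_single n]
  · simp
  · intro b _ hb
    simp [coeff_monomial, hb]
  · intro h
    simp [notMem_support_iff.1 h]

theorem chain (t : k) (a : PowerSeries k) (Q : k[X][X]) :
    PowerSeries.derivative k (Q.eval₂ (tay t : k[X] →+* PowerSeries k) a) =
      (dT Q).eval₂ (tay t : k[X] →+* PowerSeries k) a +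
        (derivative Q).eval₂ (tay t : k[X] →+* PowerSeries k) a * PowerSeries.derivative k a := by
  induction Q using Polynomial.induction_on' with
  | add P Q hP hQ =>
    have : dT (P + Q) = dT P + dT Q := by ext1 n; simp [coeff_dT]
    simp only [this, eval₂_add, map_add, hP, hQ]
    ring
  | monomial n P =>
    have : dT (monomial n P) = monomial n (derivative P) := by
      ext1 m
      simp only [coeff_dT, coeff_monomial]
      split_ifs <;> simp
    have h2 : PowerSeries.derivative k (tay t P) = tay t (derivative P) := by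
      simp [tay, Derivation.map_aeval]
    simp only [this, derivative_monomial, eval₂_monomial, RingHom.coe_coe, Derivation.leibniz,
      Derivation.leibniz_pow, h2, smul_eq_mul, nsmul_eq_mul, map_mul, map_natCast]
    ring

/-- The twisted upper bound. -/
theorem twisted (p m : ℕ) [ExpChar k p] {K L : Type*} [Field K] [Field L]
    [Algebra k[X] K] [IsFractionRing k[X] K] [Algebra K L] [FiniteDimensional K L] [IsGalois K L]
    (f : k[X][X]) (hm : f.Monic) (c : ℕ) (hc : ∀ i, (f.coeff i).natDegree ≤ c)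
    (Δ : k[X]) (aa bb : k[X][X]) (hΔ : aa * f + bb * derivative f = C Δ) (hΔc : Δ.natDegree ≤ c)
    (hbc : ∀ i, (bb.coeff i).natDegree ≤ c) (hbd : bb.natDegree ≤ f.natDegree)
    {ι : Type*} [Fintype ι] (y : ι → L) (hy : ∀ i, aeval (y i) (f.map (algebraMap k[X] K)) = 0)
    (htop : Algebra.adjoin K (Set.range y) = ⊤) (ρ : Gal(L/K) → ι → ι)
    (hρ : ∀ g i, g (y i) = y (ρ g i)) (S : Finset k) (hS : ∀ t ∈ S, Δ.eval t ≠ 0)
    (j : k → L →+* FractionRing (PowerSeries k)) (a : k → ι → PowerSeries k)
    (hj : ∀ t ∈ S, ∀ P, j t (algebraMap K L (algebraMap k[X] K P)) = algebraMap _ _ (tay t P))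
    (ha : ∀ t ∈ S, ∀ i, j t (y i) = algebraMap _ _ (a t i)) (N e κ M : ℕ)
    (hN : N = Module.finrank K L) (he : e = Fintype.card ι * (f.natDegree * c))
    (hκ : κ = 2 * (c + f.natDegree * c)) (hM : ∀ i : ℕ, 0 < i → i < M → (i : k) ≠ 0)
    (hq : N * (e + M * (2 * e + M + M * κ + 1) + 1) ≤ p ^ m) (s : ι → ι)
    (W : Finset (k × Gal(L/K)))
    (hW : ∀ x ∈ W, x.1 ∈ S ∧ x.1 ^ p ^ m = x.1 ∧ ∀ i,
      PowerSeries.constantCoeff (a x.1 (ρ x.2 i)) ^ p ^ m =
        PowerSeries.constantCoeff (a x.1 (ρ x.2 (s i)))) :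
    M * W.card ≤ (M + N * e + 1) * p ^ m := by
  classical
  obtain ⟨O, hO1, hO2⟩ := infty (k := k) (K := K)
  have injK : Function.Injective (algebraMap k[X] K) := IsFractionRing.injective _ _
  have injL : Function.Injective (algebraMap K L) := (algebraMap K L).injective
  have inj : Function.Injective (algebraMap (PowerSeries k) (FractionRing (PowerSeries k))) :=
    IsFractionRing.injective _ _
  let _ : Algebra k[X] L := ((algebraMap K L).comp (algebraMap k[X] K)).toAlgebra
  have : IsScalarTower k[X] K L := IsScalarTower.of_algebraMap_eq fun _ => rfl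
  let _ : Algebra k L := ((algebraMap k[X] L).comp C).toAlgebra
  have : IsScalarTower k k[X] L := IsScalarTower.of_algebraMap_eq fun _ => rfl
  have hG : Fintype.card Gal(L/K) = N := by
    rw [hN, ← IsGalois.card_aut_eq_finrank, Nat.card_eq_fintype_card]
  set F := f.map (algebraMap k[X] K) with hF
  have hFm : F.Monic := hm.map _
  obtain ⟨Λ, hΛ, hli⟩ := mono_basis F hFm y hy htop
  let R := MvPolynomial (Option ι) k
  let x : Option ι → R := MvPolynomial.X
  let w : Option ι → ℕ := fun o => o.elim 1 fun _ => c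
  let π : R →ₐ[k] L := MvPolynomial.aeval fun o => o.elim (algebraMap k[X] L X) y
  have π0 : π (x none) = algebraMap k[X] L X := MvPolynomial.aeval_X _ _
  have π1 : ∀ i, π (x (some i)) = y i := fun i => MvPolynomial.aeval_X _ _
  let τ₀ : K := (algebraMap k[X] K X)⁻¹
  let τ : L := algebraMap K L τ₀
  have hO3 : ∀ (P : k[X]) (n : ℕ), P.natDegree ≤ n → IsIntegral O (algebraMap k[X] L P * τ ^ n) :=
    fun P n h => by
    have := isIntegral_algebraMap (R := O) (A := L) (x := ⟨_, (hO2 P n).2 h⟩)
    have e : algebraMap k[X] L P * τ ^ n = algebraMap K L (algebraMap k[X] K P * τ₀ ^ n) := by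
      rw [map_mul, map_pow]
      rfl
    rw [e]
    exact this
  let Fil : ℕ → Submodule k R := fun n =>
    { carrier := {u | IsIntegral O (π u * τ ^ n)}
      add_mem' := fun {u v} hu hv => by
        simpa only [Set.mem_ofPred_eq, map_add, add_mul] using IsIntegral.add hu hv
      zero_mem' := by simpa using isIntegral_zero
      smul_mem' := fun z u hu => by
        have := (hO3 (C z) 0 (by simp)).mul hu
        rw [pow_zero, mul_one, ← mul_assoc] at this
        rw [Set.mem_ofPred_eq, map_smul, Algebra.smul_def]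
        exact this }
  have hmul : ∀ a b, ∀ x ∈ Fil a, ∀ z ∈ Fil b, x * z ∈ Fil (a + b) := fun a b x hx z hz => by
    change IsIntegral O (π (x * z) * τ ^ (a + b))
    rw [map_mul, pow_add, mul_mul_mul_comm]
    exact IsIntegral.mul hx hz
  have h1 : ∀ a, 1 ∈ Fil a := fun a => by
    change IsIntegral O (π 1 * τ ^ a)
    simpa using hO3 1 a (by simp)
  have hX : ∀ o, x o ∈ Fil (w o) := by
    rintro (_ | i)
    · change IsIntegral O (π (x none) * τ ^ 1)
      rw [π0]
      exact hO3 X 1 (by simp)
    change IsIntegral O (π (x (some i)) * τ ^ c)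
    have hs : ((F.scaleRoots (τ₀ ^ c)).coeffs : Set K) ⊆ O := fun z hz => by
      obtain ⟨n, -, rfl⟩ := mem_coeffs_iff.1 hz
      rw [coeff_scaleRoots, ← pow_mul, hF, coeff_map, hm.natDegree_map]
      refine (hO2 _ _).2 ?_
      rcases lt_trichotomy n f.natDegree with h | rfl | h
      · exact (hc n).trans (Nat.le_mul_of_pos_right _ (by omega))
      · simp [hm.coeff_natDegree]
      · simp [coeff_eq_zero_of_natDegree_lt h]
    refine ⟨toSubring _ O hs, (monic_toSubring _ _ _).2 ((monic_scaleRoots_iff _).2 hFm), ?_⟩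
    have := scaleRoots_aeval_eq_zero (r := τ₀ ^ c) (hy i)
    rw [← map_toSubring _ O hs, aeval_def, eval₂_map, map_pow, mul_comm] at this
    rw [π1]
    exact this
  have hx0 : x none ∈ Wt k x w 1 := wt_gen x w none
  have hx1 : ∀ i, x (some i) ∈ Wt k x w c := fun i => wt_gen x w (some i)
  have hmon : ∀ (u : ι → ι) (β : ι → Fin F.natDegree),
      ∏ i, x (some (u i)) ^ (β i : ℕ) ∈ Wt k x w e := fun u β => by
    have h2 : ∀ i, x (some (u i)) ^ (β i : ℕ) ∈ Wt k x w (f.natDegree * c) := fun i =>
      wt_mono x w (Nat.mul_le_mul_right c ((β i).2.le.trans (hm.natDegree_map _).le))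
        (wt_pow x w (hx1 _) _)
    rw [he, ← card_univ]
    induction (univ : Finset ι) using Finset.induction_on with
    | empty => simpa using wt_one x w 0
    | insert i t hi ih =>
      rw [prod_insert hi, card_insert_of_notMem hi, Nat.succ_mul, add_comm]
      exact wt_mul x w _ _ _ (h2 i) _ ih
  let J : k → Gal(L/K) → R →ₐ[k] PowerSeries k := fun t g =>
    MvPolynomial.aeval fun o => o.elim (PowerSeries.X + PowerSeries.C t) fun i => a t (ρ g i)
  have J0 : ∀ t g, J t g (x none) = PowerSeries.X + PowerSeries.C t := fun t g =>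
    MvPolynomial.aeval_X _ _
  have J1 : ∀ t g i, J t g (x (some i)) = a t (ρ g i) := fun t g i => MvPolynomial.aeval_X _ _
  have hJ : ∀ t ∈ S, ∀ g u, algebraMap _ _ (J t g u) = j t (g (π u)) := fun t ht g u => by
    have h0 : ∀ P, j t (g (algebraMap k[X] L P)) = algebraMap _ _ (tay t P) := fun P => by
      rw [← hj t ht]
      exact congrArg _ (g.commutes _)
    induction u using MvPolynomial.induction_on with
    | C z =>
      rw [MvPolynomial.algHom_C, MvPolynomial.algHom_C, ← (tay t).commutes z, ← h0]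
      rfl
    | add u v hu hv => simp only [map_add, hu, hv]
    | mul_X u i hu =>
      simp only [map_mul, hu]
      congr 1
      rcases i with _ | i
      · rw [J0, π0, h0]
        simp [tay]
      · rw [J1, π1, hρ, ha t ht]
  have hyf : ∀ i, f.eval₂ (algebraMap k[X] L) (y i) = 0 := fun i => by
    have := hy i
    rw [hF, aeval_def, eval₂_map] at this
    exact this
  have hint : ∀ u, IsIntegral k[X] (π u) := fun u => by
    induction u using MvPolynomial.induction_on with
    | C z => rw [MvPolynomial.algHom_C]; exact isIntegral_algebraMap (x := C z)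
    | add u v hu hv => rw [map_add]; exact hu.add hv
    | mul_X u i hu =>
      rw [map_mul]
      refine hu.mul ?_
      rcases i with _ | i
      · rw [π0]; exact isIntegral_algebraMap
      · rw [π1]; exact ⟨f, hm, hyf i⟩
  let ev : ι → k[X][X] → R := fun i Q => Q.eval₂ (aeval (x none) : k[X] →ₐ[k] R) (x (some i))
  have Ja : ∀ t g P, J t g (aeval (x none) P) = tay t P := fun t g P => by
    rw [← aeval_algHom_apply, J0]; rfl
  have Jev : ∀ t g i Q, J t g (ev i Q) = Q.eval₂ (tay t : k[X] →+* PowerSeries k) (a t (ρ g i)) :=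
    fun t g i Q => by
    refine (hom_eval₂ Q _ (J t g : R →+* PowerSeries k) _).trans ?_
    rw [RingHom.coe_coe, J1]
    congr 1
    exact RingHom.ext (Ja t g)
  have πev : ∀ i, π (ev i f) = 0 := fun i => by
    refine (hom_eval₂ f _ (π : R →+* L) _).trans ?_
    rw [RingHom.coe_coe, π1, ← hyf i]
    congr 1
    refine RingHom.ext fun P => ?_
    change π (aeval (x none) P) = _
    rw [← aeval_algHom_apply, π0, aeval_algebraMap_apply, aeval_X_left_apply]
  let D : Derivation k R R := MvPolynomial.mkDerivation k fun o =>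
    o.elim (aeval (x none) Δ) fun i => -(ev i bb * ev i (dT f))
  have D0 : D (x none) = aeval (x none) Δ := MvPolynomial.mkDerivation_X _ _ _
  have D1 : ∀ i, D (x (some i)) = -(ev i bb * ev i (dT f)) := fun i =>
    MvPolynomial.mkDerivation_X _ _ _
  rw [← hG] at hq ⊢
  refine stepanov p m (Λ := Λ) (by rw [Fintype.card_coe, hΛ, hG, hN]) (Wt k x w) (wt_mul x w)
    (wt_one x w) (x none) hx0 S J (fun t _ g => J0 t g) (fun n u hu => ?_) e
    (fun l => ∏ i, x (some i) ^ (l.1 i : ℕ)) (fun l => ∏ i, x (some (s i)) ^ (l.1 i : ℕ))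
    (fun l => hmon id _) (fun l => hmon s _) (fun t ht g => ?_) D κ (wt_der x w D κ ?_)
    (fun t => tay t Δ) (fun t ht => by rw [tay_const]; exact hS t ht) (fun t ht g u => ?_) M hM hq W
    fun x hx => ?_
  · replace hu := wt_le x w Fil hmul h1 hX n hu
    by_cases h0 : π u = 0
    · exact .inl fun t ht g => inj (by rw [hJ t ht, h0]; simp)
    right
    have e1 := Algebra.norm_eq_prod_automorphisms K (π u)
    obtain ⟨P, hP⟩ : ∃ P, algebraMap k[X] K P = Algebra.norm K (π u) := by
      refine IsIntegrallyClosed.isIntegral_iff.1 ((isIntegral_algebraMap_iff injL).1 ?_)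
      rw [e1]
      exact IsIntegral.prod _ fun g _ => (hint u).map (g.toAlgHom.restrictScalars k[X])
    refine ⟨P, fun h => ?_, (hO2 _ _).1 (hO1 _ ((isIntegral_algebraMap_iff injL).1 ?_)),
      fun t ht => inj ?_⟩
    · rw [h, map_zero, eq_comm, Algebra.norm_eq_zero_iff] at hP
      exact h0 hP
    · have : algebraMap K L (algebraMap k[X] K P * τ₀ ^ (Fintype.card Gal(L/K) * n)) =
          ∏ g : Gal(L/K), g (π u * τ ^ n) := by
        simp only [map_mul, map_pow, hP, e1, prod_mul_distrib, τ, AlgEquiv.commutes, prod_const,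
          card_univ, ← pow_mul, mul_comm n]
      rw [this]
      exact IsIntegral.prod _ fun g _ => IsIntegral.map (g.toAlgHom.restrictScalars O) hu
    · rw [map_prod, ← hj t ht, hP, e1, map_prod]
      exact prod_congr rfl fun g _ => hJ t ht g u
  · have h2 : LinearIndependent k fun x : ℕ × Λ =>
        (X : k[X]) ^ x.1 • ∏ i, y i ^ (x.2.1 i : ℕ) := by
      refine linearIndependent_smul (b := fun n : ℕ => (X : k[X]) ^ n) ?_
        (hli.restrict_scalars' k[X])
      simpa [X_pow_eq_monomial] using (basisMonomials k).linearIndependent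
    have h3 := h2.comp _ (Equiv.prodComm Λ ℕ).injective
    rw [linearIndependent_iff] at h3 ⊢
    intro l hl
    refine h3 l ?_
    have h4 := hJ t ht g (Finsupp.linearCombination k
      (fun z : Λ × ℕ => x none ^ z.2 * ∏ i, x (some i) ^ (z.1.1 i : ℕ)) l)
    have h5 := Finsupp.apply_linearCombination k (J t g).toLinearMap
      (fun z : Λ × ℕ => x none ^ z.2 * ∏ i, x (some i) ^ (z.1.1 i : ℕ)) l
    have h6 := Finsupp.apply_linearCombination k π.toLinearMap
      (fun z : Λ × ℕ => x none ^ z.2 * ∏ i, x (some i) ^ (z.1.1 i : ℕ)) l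
    rw [AlgHom.toLinearMap_apply] at h5 h6
    rw [h5.trans hl, map_zero, eq_comm, map_eq_zero, map_eq_zero_iff _ g.injective] at h4
    refine Eq.trans ?_ (h6.symm.trans h4)
    congr 2
    funext z
    simp [π0, π1, Algebra.smul_def]
  · rintro (_ | i)
    · rw [D0]
      exact wt_mono x w (by change c ≤ 1 + κ; omega) (wt_aeval x w hx0 hΔc)
    · rw [D1]
      refine neg_mem (wt_mono x w (by change _ ≤ c + κ; omega) (wt_mul x w _ _ _
        (wt_eval₂ x w hx0 (hx1 i) hbc hbd) _ (wt_eval₂ x w hx0 (hx1 i) (d := f.natDegree)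
          (fun n => ?_) ?_)))
      · rw [coeff_dT]
        exact (natDegree_derivative_le _).trans ((Nat.sub_le _ _).trans (hc n))
      · rw [natDegree_le_iff_coeff_eq_zero]
        intro n hn
        rw [coeff_dT, coeff_eq_zero_of_natDegree_lt hn, derivative_zero]
  · induction u using MvPolynomial.induction_on with
    | C z =>
      rw [MvPolynomial.derivation_C, MvPolynomial.algHom_C, map_zero, Derivation.map_algebraMap,
        mul_zero]
    | add u v hu hv => simp only [map_add, hu, hv, mul_add]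
    | mul_X u i hu =>
      have : J t g (D (x i)) = tay t Δ * PowerSeries.derivative k (J t g (x i)) := by
        rcases i with _ | i
        · rw [D0, Ja, J0]
          simp
        · have e0 : f.eval₂ (tay t : k[X] →+* PowerSeries k) (a t (ρ g i)) = 0 := inj (by
            rw [← Jev, hJ t ht, πev]; simp)
          have e1 := chain t (a t (ρ g i)) f
          have e2 := congrArg (eval₂ (tay t : k[X] →+* PowerSeries k) (a t (ρ g i))) hΔ
          rw [eval₂_add, eval₂_mul, eval₂_mul, e0, eval₂_C, RingHom.coe_coe] at e2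
          rw [e0, map_zero] at e1
          rw [D1, J1, map_neg, map_mul, Jev, Jev, ← e2]
          linear_combination (bb.eval₂ (tay t : k[X] →+* PowerSeries k) (a t (ρ g i))) * e1
      change J t g (D (u * x i)) = _ * PowerSeries.derivative k (J t g (u * x i))
      simp only [Derivation.leibniz, smul_eq_mul, map_add, map_mul, hu, this]
      ring
  · obtain ⟨h2, h3, h4⟩ := hW x hx
    refine ⟨h2, h3, fun l => ?_⟩
    simp only [map_prod, map_pow, J1]
    rw [← prod_pow]
    exact prod_congr rfl fun i _ => by rw [← h4, pow_right_comm]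

end Pool.Agent.Lib.BK2.Step
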