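import Pool.Agent.Lib.BK2.StepB

/-!
The number of points of an absolutely irreducible plane curve over a prime field.
-/

namespace Pool.Agent.Lib.BK2.Step

open Finset Polynomial Pool.Agent.Lib.PK1.Cheb

theorem ext_lift {K L Ω : Type*} [Field K] [Field L] [Field Ω] [Algebra K L] (F : K[X])
    [IsSplittingField K L F] (θ : K →+* Ω) (h : (F.map θ).Splits) :
    ∃ φ : L →+* Ω, ∀ x, φ (algebraMap K L x) = θ x := by
  let _ := θ.toAlgebra
  exact ⟨IsSplittingField.lift L F h, (IsSplittingField.lift L F h).commutes⟩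

theorem two_emb {K L Ω : Type*} [Field K] [Field L] [Field Ω] [Algebra K L] [Normal K L]
    (J₁ J₂ : L →+* Ω) (h : ∀ x, J₂ (algebraMap K L x) = J₁ (algebraMap K L x)) :
    ∃ g : Gal(L/K), ∀ z, J₂ z = J₁ (g z) := by
  let _ := J₁.toAlgebra
  let _ := (J₁.comp (algebraMap K L)).toAlgebra
  have : IsScalarTower K L Ω := IsScalarTower.of_algebraMap_eq fun _ => rfl
  let J : L →ₐ[K] Ω := { J₂ with commutes' := h }
  exact ⟨J.restrictNormal' L, fun z => (J.restrictNormal_commutes L z).symm⟩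

theorem sum_fix {G ι : Type*} [Group G] [Fintype G] [Fintype ι] [DecidableEq ι] [Nonempty ι]
    (ρ : G → ι → ι) (hmul : ∀ g h i, ρ (g * h) i = ρ g (ρ h i))
    (hinj : ∀ g, Function.Injective (ρ g)) (htr : ∀ i l, ∃ g, ρ g i = l) (σ : ι → ι)
    (hσ : Function.Bijective σ) : ∑ h, #{i | σ (ρ h i) = i} = Fintype.card G := by
  classical
  have h1 : ∀ i l l', #{h | ρ h i = l} = #{h | ρ h i = l'} := fun i l l' => by
    obtain ⟨g, rfl⟩ := htr l l'
    refine card_bijective (fun h => g * h) (Group.mulLeft_bijective g) fun h => ?_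
    simp [hmul, (hinj g).eq_iff]
  have h2 : ∀ i l, Fintype.card ι * #{h | ρ h i = l} = Fintype.card G := fun i l => by
    rw [← card_univ (α := G), card_eq_sum_card_fiberwise (f := fun h => ρ h i) (s := univ)
      (t := univ) (by simp), sum_congr rfl fun l' _ => h1 i l' l, sum_const, card_univ,
      smul_eq_mul]
  refine Nat.eq_of_mul_eq_mul_left (Fintype.card_pos (α := ι)) ?_
  simp only [card_filter]
  rw [sum_comm, mul_sum, ← card_univ, ← smul_eq_mul, ← sum_const]
  refine sum_congr rfl fun i _ => ?_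
  obtain ⟨l, rfl⟩ := hσ.2 i
  rw [← h2 (σ l) l, card_filter, card_univ]
  simp only [hσ.1.eq_iff]

theorem choose_M (A p : ℕ) (hA : 0 < A) (hp : A ≤ p) :
    ∃ M : ℕ, 0 < M ∧ A * M ^ 2 ≤ p ∧ √(p : ℝ) ≤ 2 * A * M := by
  have h0 : 0 < (p / A).sqrt := Nat.sqrt_pos.2 (Nat.div_pos hp hA)
  refine ⟨(p / A).sqrt, h0, (Nat.mul_le_mul_left _ (Nat.sqrt_le' _)).trans (Nat.mul_div_le _ _), ?_⟩
  have h1 := (Nat.div_lt_iff_lt_mul hA).1 (Nat.lt_succ_sqrt' (p / A))
  generalize (p / A).sqrt = M at *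
  refine Real.sqrt_le_iff.2 ⟨by positivity, ?_⟩
  have h2 : p ≤ (2 * A * M) ^ 2 := by
    have h3 : (M + 1) ^ 2 ≤ 4 * M ^ 2 := by nlinarith
    have h4 : A ≤ A ^ 2 := by nlinarith
    have := Nat.mul_le_mul h3 h4
    rw [Nat.succ_eq_add_one] at h1
    nlinarith
  exact_mod_cast h2

theorem squeeze {G : Type*} [Fintype G] [Nonempty G] (W r : G → ℕ) (p u c s R : ℝ)
    (hr : ∑ h, r h = Fintype.card G) (hW : ∀ h, (W h : ℝ) ≤ p + u)
    (hs : ∑ h, (W h : ℝ) = Fintype.card G * s) (hc : p ≤ s + c)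
    (hR : Fintype.card G * R = ∑ h, (r h : ℝ) * W h) (hu : 0 ≤ u) :
    R ≤ p + u ∧ p - Fintype.card G * (c + u) ≤ R := by
  classical
  have hN : (0 : ℝ) < Fintype.card G := by exact_mod_cast Fintype.card_pos
  have hr' : ∑ h, (r h : ℝ) = Fintype.card G := by exact_mod_cast hr
  have h1 : ∀ h, p - Fintype.card G * (c + u) ≤ W h := fun h => by
    have e1 := sum_le_card_nsmul (univ.erase h) (fun h => (W h : ℝ)) _ fun g _ => hW g
    have e2 := add_sum_erase univ (fun h => (W h : ℝ)) (mem_univ h)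
    rw [card_erase_of_mem (mem_univ _), card_univ, nsmul_eq_mul,
      Nat.cast_pred Fintype.card_pos] at e1
    nlinarith
  constructor
  · refine le_of_mul_le_mul_left ?_ hN
    rw [hR, ← hr', sum_mul]
    exact sum_le_sum fun h _ => mul_le_mul_of_nonneg_left (hW h) (Nat.cast_nonneg _)
  · refine le_of_mul_le_mul_left ?_ hN
    rw [hR]
    refine le_trans ?_ (sum_le_sum fun h _ => mul_le_mul_of_nonneg_left (h1 h) (Nat.cast_nonneg _))
    rw [← sum_mul, hr']

theorem count' (d c : ℕ) : ∃ B : ℕ, ∀ (p : ℕ) [Fact p.Prime] (k : Type) [Field k] [IsAlgClosed k]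
    [CharP k p] (f : k[X][X]) (Δ : k[X]) (aa bb : k[X][X]) (S : Finset k) (r : k → ℕ),
    f.Monic → f.natDegree = d → (∀ i, (f.coeff i).natDegree ≤ c) →
    f.map (mapRingHom (frobenius k p)) = f → Irreducible f →
    aa * f + bb * derivative f = C Δ → Δ ≠ 0 → Δ.natDegree ≤ c →
    (∀ i, (bb.coeff i).natDegree ≤ c) → bb.natDegree ≤ d → B ≤ p →
    (∀ t ∈ S, t ^ p = t ∧ Δ.eval t ≠ 0) → p ≤ S.card + c →
    (∀ t ∈ S, r t = {z | z ^ p = z ∧ (f.map (evalRingHom t)).IsRoot z}.ncard) →
    |((∑ t ∈ S, r t : ℕ) : ℝ) - p| ≤ B * √p := by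
  obtain ⟨e, he⟩ : ∃ e, e = d * (d * c) := ⟨_, rfl⟩
  obtain ⟨κ, hκ⟩ : ∃ κ, κ = 2 * (c + d * c) := ⟨_, rfl⟩
  obtain ⟨N0, hN0⟩ : ∃ N0, N0 = d.factorial := ⟨_, rfl⟩
  obtain ⟨A, hA⟩ : ∃ A, A = N0 * (3 * e + κ + 3) := ⟨_, rfl⟩
  obtain ⟨U, hU⟩ : ∃ U, U = (N0 * e + 1) * (2 * A) := ⟨_, rfl⟩
  refine ⟨A + N0 * (c + U) + U + (c + 1), ?_⟩
  intro p _ k _ _ _ f Δ aa bb S r hm hd hc hfr hirr hΔ hΔ0 hΔc hbc hbd hB hS hSc hr
  classical
  let K := RatFunc k
  set F := f.map (algebraMap k[X] K) with hF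
  let L := F.SplittingField
  have injK : Function.Injective (algebraMap k[X] K) := IsFractionRing.injective _ _
  have hFm : F.Monic := hm.map _
  have hFi : Irreducible F := (hm.irreducible_iff_irreducible_map_fraction_map).1 hirr
  have hsp : ∀ {R : Type} [Field R] (θ : k[X] →+* R), θ Δ ≠ 0 → (f.map θ).Separable :=
    fun θ h => by
    have e' := congrArg (Polynomial.map θ) hΔ
    simp only [Polynomial.map_add, Polynomial.map_mul, map_C] at e'
    refine ⟨C (θ Δ)⁻¹ * aa.map θ, C (θ Δ)⁻¹ * bb.map θ, ?_⟩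
    rw [derivative_map, mul_assoc, mul_assoc, ← mul_add, e', ← C_mul, inv_mul_cancel₀ h, C_1]
  have hsep : F.Separable := hsp _ ((map_ne_zero_iff _ injK).2 hΔ0)
  have : IsGalois K L := IsGalois.of_separable_splitting_field hsep
  let ι := (F.map (algebraMap K L)).roots.toFinset
  let y : ι → L := Subtype.val
  have hinj : Function.Injective y := Subtype.val_injective
  have hy : F.map (algebraMap K L) = ∏ i, (X - C (y i)) := by
    rw [prod_coe_sort _ fun z => X - C z, prod_eq_multiset_prod, Multiset.toFinset_val,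
      Multiset.dedup_eq_self.2 (nodup_roots hsep.map)]
    exact (IsSplittingField.splits L _).eq_prod_roots_of_monic (hFm.map _)
  clear_value y
  have hroot : ∀ z, aeval z F = 0 ↔ ∃ i, y i = z := fun z => by
    rw [aeval_def, ← eval_map, hy, eval_prod, prod_eq_zero_iff]
    simp [sub_eq_zero, eq_comm]
  have hι : Fintype.card ι = d := by
    have := congrArg natDegree hy
    rw [hFm.natDegree_map, hm.natDegree_map, natDegree_finsetProd_X_sub_C_eq_card] at this
    rw [← hd, this, card_univ]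
  have : Nonempty ι := by
    rw [← Fintype.card_pos_iff, hι, ← hd, ← hm.natDegree_map (algebraMap k[X] K)]
    exact hFi.natDegree_pos
  have htop : Algebra.adjoin K (Set.range y) = ⊤ := by
    rw [← IsSplittingField.adjoin_rootSet L F]
    congr 1
    ext z
    rw [mem_rootSet_of_ne hFm.ne_zero, hroot, Set.mem_range]
  have hex : ∀ (g : Gal(L/K)) i, ∃ l, y l = g (y i) := fun g i =>
    (hroot _).1 (by rw [aeval_algHom_apply, (hroot _).2 ⟨i, rfl⟩, map_zero])
  choose ρ hρ using hex
  have hρb : ∀ g, Function.Bijective (ρ g) := fun g => Finite.injective_iff_bijective.1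
    fun a b e => hinj (g.injective (by rw [← hρ, ← hρ, e]))
  have hG : Fintype.card Gal(L/K) = Module.finrank K L := by
    rw [← IsGalois.card_aut_eq_finrank, Nat.card_eq_fintype_card]
  have hNe : Fintype.card Gal(L/K) ≤ N0 := by
    rw [hN0, ← hι, ← Fintype.card_perm]
    refine Fintype.card_le_of_injective (fun g => Equiv.ofBijective _ (hρb g)) fun g g' e => ?_
    refine AlgEquiv.coe_toAlgHom_injective (AlgHom.ext_of_adjoin_eq_top htop ?_)
    rintro _ ⟨i, rfl⟩
    exact (hρ g i).symm.trans ((congrArg y (Equiv.congr_fun e i)).trans (hρ g' i))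
  have htr : ∀ i l, ∃ g, ρ g i = l := fun i l => by
    obtain ⟨g, hg⟩ := minpoly.exists_algEquiv_of_root (K := K) (x := y i) (y := y l)
      (Algebra.IsAlgebraic.isAlgebraic _) (by
        rw [← minpoly.eq_of_irreducible_of_monic hFi ((hroot _).2 ⟨l, rfl⟩) hFm]
        exact (hroot _).2 ⟨i, rfl⟩)
    exact ⟨g, hinj ((hρ g i).trans hg)⟩
  have hemb := fun t => embed (K := K) f hm y hy t
  have hSs : ∀ t ∈ S, (f.map (evalRingHom t)).Separable := fun t ht => hsp _ (hS t ht).2
  have : Nonempty (L →+* FractionRing (PowerSeries k)) := by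
    obtain ⟨t, ht⟩ : S.Nonempty := card_pos.1 (by omega)
    exact ⟨(hemb t (hSs t ht)).choose⟩
  choose! j a hj ha hb using hemb
  let b : k → ι → k := fun t i => PowerSeries.constantCoeff (a t i)
  have hbr : ∀ t ∈ S, ∀ z, (f.map (evalRingHom t)).IsRoot z ↔ ∃ i, b t i = z := fun t ht z => by
    rw [hb t (hSs t ht), IsRoot, eval_prod, prod_eq_zero_iff]
    simp only [mem_univ, true_and, eval_sub, eval_X, eval_C, sub_eq_zero]
    exact exists_congr fun i => eq_comm
  have hbi : ∀ t ∈ S, Function.Injective (b t) := fun t ht => by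
    have := hSs t ht
    rw [hb t this] at this
    exact separable_prod_X_sub_C_iff.1 this
  -- the Frobenius lift
  let ψ : K →+* K := IsFractionRing.lift
    (g := (algebraMap k[X] K).comp (mapRingHom (frobenius k p)))
    (injK.comp (map_injective _ (frobenius k p).injective))
  have hψ : ∀ P, ψ (algebraMap k[X] K P) = algebraMap k[X] K (P.map (frobenius k p)) := fun P =>
    IsFractionRing.lift_algebraMap _ P
  have hFψ : F.map ((algebraMap K L).comp ψ) = F.map (algebraMap K L) := by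
    rw [← Polynomial.map_map]
    congr 1
    conv_rhs => rw [hF, ← hfr]
    rw [hF, Polynomial.map_map, Polynomial.map_map]
    congr 1
    exact RingHom.ext hψ
  obtain ⟨φ, hφ⟩ := ext_lift (L := L) F ((algebraMap K L).comp ψ)
    (hFψ ▸ IsSplittingField.splits L F)
  have hσ : ∀ i, ∃ l, y l = φ (y i) := fun i => (hroot _).1 (by
    have := congrArg φ ((hroot _).2 ⟨i, rfl⟩)
    rw [aeval_def, hom_eval₂, map_zero, show φ.comp (algebraMap K L) = _ from RingHom.ext hφ,
      ← eval_map, hFψ, eval_map] at this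
    exact this)
  choose σ hσ using hσ
  have hσb : Function.Bijective σ := Finite.injective_iff_bijective.1
    fun a b e => hinj (φ.injective (by rw [← hσ, ← hσ, e]))
  have inj : Function.Injective (algebraMap (PowerSeries k) (FractionRing (PowerSeries k))) :=
    IsFractionRing.injective _ _
  let Fr : FractionRing (PowerSeries k) →+* FractionRing (PowerSeries k) := IsFractionRing.lift
    (g := (algebraMap (PowerSeries k) _).comp (PowerSeries.map (frobenius k p)))
    (inj.comp (PowerSeries.map_injective _ (frobenius k p).injective))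
  have hFr : ∀ u, Fr (algebraMap _ _ u) = algebraMap _ _ (PowerSeries.map (frobenius k p) u) :=
    fun u => IsFractionRing.lift_algebraMap _ u
  have hH : ∀ x : k × Gal(L/K), x.1 ∈ S → ∃ h : Gal(L/K), ∀ i,
      b x.1 (ρ x.2 i) ^ p = b x.1 (ρ x.2 (σ (ρ h i))) := by
    rintro ⟨t, g⟩ ht
    have hs := hSs t ht
    have e0 : (PowerSeries.map (frobenius k p)).comp (tay t : k[X] →+* PowerSeries k) =
        (tay t : k[X] →+* PowerSeries k).comp (mapRingHom (frobenius k p)) :=
      Polynomial.ringHom_ext (fun z => by simp [tay]) (by simp [tay, frobenius_def, (hS t ht).1])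
    have e1 : (Fr.comp ((j t).comp (g : L →+* L))).comp (algebraMap K L) =
        (((j t).comp (g : L →+* L)).comp φ).comp (algebraMap K L) := by
      refine IsLocalization.ringHom_ext (nonZeroDivisors k[X]) (RingHom.ext fun P => ?_)
      simp only [RingHom.comp_apply, hφ, hψ, RingHom.coe_coe, AlgEquiv.commutes, hj t hs, hFr]
      exact congrArg _ (RingHom.congr_fun e0 P)
    obtain ⟨h, hh⟩ := two_emb (K := K) (((j t).comp (g : L →+* L)).comp φ)
      (Fr.comp ((j t).comp (g : L →+* L))) (RingHom.congr_fun e1)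
    refine ⟨h, fun i => ?_⟩
    have e2 := hh (y i)
    simp only [RingHom.comp_apply, RingHom.coe_coe, ← hρ, ← hσ, ha t hs, hFr] at e2
    have := congrArg PowerSeries.constantCoeff (inj e2)
    rw [← PowerSeries.coeff_zero_eq_constantCoeff_apply, PowerSeries.coeff_map,
      PowerSeries.coeff_zero_eq_constantCoeff_apply, frobenius_def] at this
    exact this
  choose! H hH using hH
  let W : Gal(L/K) → Finset (k × Gal(L/K)) := fun h => (S ×ˢ univ).filter fun x => H x = h
  have hN00 : 0 < N0 := hN0 ▸ d.factorial_pos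
  obtain ⟨M, hM0, hM1, hM2⟩ := choose_M A p (by rw [hA]; positivity) (by omega)
  have hMp : M ≤ p := by
    have : 0 < A := by rw [hA]; positivity
    nlinarith
  have hW : ∀ h, M * (W h).card ≤ (M + Fintype.card Gal(L/K) * e + 1) * p ^ 1 := fun h =>
    twisted p 1 f hm c hc Δ aa bb hΔ hΔc hbc (hd ▸ hbd) y (fun i => (hroot _).2 ⟨i, rfl⟩) htop ρ
      (fun g i => (hρ g i).symm) S (fun t ht => (hS t ht).2) j a (fun t ht => hj t (hSs t ht))
      (fun t ht => ha t (hSs t ht)) _ e κ M hG (by rw [he, hι, hd]) (by rw [hκ, hd])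
      (fun i h0 hi h => by
        have := Nat.le_of_dvd h0 ((CharP.cast_eq_zero_iff k p i).1 h)
        omega)
      (by
        rw [pow_one]
        refine (Nat.mul_le_mul hNe ?_).trans ((mul_assoc N0 _ _).symm.trans_le (hA ▸ hM1))
        have h1 : 1 ≤ M ^ 2 := Nat.one_le_pow _ _ hM0
        have h2 : M ≤ M ^ 2 := by nlinarith
        nlinarith [Nat.mul_le_mul_left e h1, Nat.mul_le_mul_left e h2])
      (fun i => σ (ρ h i)) _ fun x hx => by
        have h1 := (mem_product.1 (mem_filter.1 hx).1).1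
        rw [pow_one, ← (mem_filter.1 hx).2]
        exact ⟨h1, (hS _ h1).1, hH x h1⟩
  have hW' : ∀ h, ((W h).card : ℝ) ≤ p + U * √p := fun h => by
    have h1 : M * (W h).card ≤ (M + N0 * e + 1) * p :=
      (hW h).trans (by rw [pow_one]; gcongr)
    have h2 : (M : ℝ) * (W h).card ≤ (M + N0 * e + 1) * p := by exact_mod_cast h1
    have h3 : (0 : ℝ) < M := by exact_mod_cast hM0
    have h4 : √(p : ℝ) * √p = p := Real.mul_self_sqrt (Nat.cast_nonneg _)
    have h5 : (p : ℝ) ≤ 2 * A * M * √p :=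
      h4.symm.trans_le (mul_le_mul_of_nonneg_right hM2 (Real.sqrt_nonneg _))
    refine le_of_mul_le_mul_left (h2.trans ?_) h3
    have h6 := mul_le_mul_of_nonneg_left h5 (by positivity : (0 : ℝ) ≤ N0 * e + 1)
    rw [hU]
    push_cast
    nlinarith
  have hrf : ∀ x ∈ S ×ˢ (univ : Finset Gal(L/K)), r x.1 = #{i | σ (ρ (H x) i) = i} := fun x hx => by
    have h1 := (mem_product.1 hx).1
    rw [hr _ h1, ← card_image_of_injective _ ((hbi _ h1).comp (hρb x.2).1), ← Set.ncard_coe_finset]
    congr 1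
    ext z
    simp only [Set.mem_ofPred_eq, hbr _ h1, coe_image, coe_filter, mem_univ, true_and,
      Set.mem_image, Function.comp_apply]
    constructor
    · rintro ⟨h2, i, rfl⟩
      obtain ⟨i, rfl⟩ := (hρb x.2).2 i
      exact ⟨i, (hρb x.2).1 (hbi _ h1 ((hH x h1 i).symm.trans h2)), rfl⟩
    · rintro ⟨i, h2, rfl⟩
      exact ⟨by rw [hH x h1 i, h2], _, rfl⟩
  have hmaps : ∀ x ∈ S ×ˢ (univ : Finset Gal(L/K)), H x ∈ (univ : Finset Gal(L/K)) :=
    fun _ _ => mem_univ _
  obtain ⟨h1, h2⟩ := squeeze (fun h => (W h).card) (fun h => #{i | σ (ρ h i) = i}) p (U * √p) c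
    S.card ((∑ t ∈ S, r t : ℕ) : ℝ)
    (sum_fix ρ (fun g h i => hinj (by rw [hρ, hρ, hρ]; rfl)) (fun g => (hρb g).1) htr σ hσb) hW'
    (by
      have := card_eq_sum_card_fiberwise hmaps
      rw [card_product, card_univ, mul_comm] at this
      exact_mod_cast this.symm)
    (by exact_mod_cast hSc)
    (by
      have e1 : ∑ x ∈ S ×ˢ (univ : Finset Gal(L/K)), r x.1 =
          Fintype.card Gal(L/K) * ∑ t ∈ S, r t := by
        rw [sum_product, mul_sum]
        simp
      have e2 : ∑ x ∈ S ×ˢ (univ : Finset Gal(L/K)), r x.1 =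
          ∑ h, #{i | σ (ρ h i) = i} * (W h).card := by
        rw [← sum_fiberwise_of_maps_to hmaps]
        refine sum_congr rfl fun h _ => ?_
        rw [mul_comm, ← smul_eq_mul, ← sum_const]
        exact sum_congr rfl fun x hx => by rw [hrf x (mem_filter.1 hx).1, (mem_filter.1 hx).2]
      exact_mod_cast e1.symm.trans e2)
    (by positivity)
  have h3 : (1 : ℝ) ≤ √p := Real.one_le_sqrt.2 (by exact_mod_cast (Fact.out : p.Prime).pos)
  have h4 : (Fintype.card Gal(L/K) : ℝ) * (c + U * √p) ≤ N0 * ((c + U) * √p) := by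
    refine mul_le_mul (by exact_mod_cast hNe) ?_ (by positivity) (by positivity)
    nlinarith [Nat.cast_nonneg (α := ℝ) c]
  generalize ((∑ t ∈ S, r t : ℕ) : ℝ) = R at h1 h2
  rw [abs_le]
  push_cast
  constructor
  · nlinarith [mul_nonneg (by positivity : (0 : ℝ) ≤ A + U + (c + 1)) (Real.sqrt_nonneg (p : ℝ))]
  · nlinarith [mul_nonneg (by positivity : (0 : ℝ) ≤ A + N0 * (c + U) + (c + 1))
      (Real.sqrt_nonneg (p : ℝ))]

end Pool.Agent.Lib.BK2.Step
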