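import Mathlib

open MvPolynomial

noncomputable section

namespace Pool.Agent.Lib.BK2

variable {L : Type} [Field L] [Algebra ℚ L] {n : ℕ}

/-- `f` is a form over `ℚ` vanishing at the generic point `(y₀ : … : yₙ)` of the curve. -/
def Eqn (y : Fin (n + 1) → L) (f : MvPolynomial (Fin (n + 1)) ℚ) : Prop :=
  (∃ a, f.IsHomogeneous a) ∧ aeval y f = 0

/-- The punctured affine cone over the complex points of the curve. -/
def Cone (y : Fin (n + 1) → L) : Set (Fin (n + 1) → ℂ) :=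
  {z | z ≠ 0 ∧ ∀ f, Eqn y f → aeval z f = 0}

/-- The Zariski tangent space of the cone at `z`. -/
def Tan (y : Fin (n + 1) → L) (z : Fin (n + 1) → ℂ) : Set (Fin (n + 1) → ℂ) :=
  {v | ∀ f, Eqn y f → ∑ j, aeval z (pderiv j f) * v j = 0}

/-- `ω` is a regular differential form over `ℚ`: on each chart `zᵢ ≠ 0` it is a combination of the
`d(zⱼ / zᵢ)` with coefficients in the coordinate ring of the chart. -/
def RegForm (y : Fin (n + 1) → L) (ω : (Fin (n + 1) → ℂ) → (Fin (n + 1) → ℂ) → ℂ) : Prop :=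
  ∀ i, ∃ (a : ℕ) (p : Fin (n + 1) → MvPolynomial (Fin (n + 1)) ℚ),
    (∀ j, (p j).IsHomogeneous a) ∧ ∀ z ∈ Cone y, z i ≠ 0 → ∀ v ∈ Tan y z,
      ω z v = ∑ j, aeval z (p j) / z i ^ a * ((z i * v j - z j * v i) / z i ^ 2)

/-- A `1`-periodic `C¹` path in the cone. -/
structure Loop (y : Fin (n + 1) → L) where
  pt : ℝ → Fin (n + 1) → ℂ
  smooth : ContDiff ℝ 1 pt
  mem : ∀ u, pt u ∈ Cone y
  closed : ∀ u, pt (u + 1) = pt u

/-- The period of `ω` along a loop. -/
def period {y : Fin (n + 1) → L} (ω : (Fin (n + 1) → ℂ) → (Fin (n + 1) → ℂ) → ℂ) (γ : Loop y) :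
    ℂ :=
  ∫ u in (0 : ℝ)..1, ω (γ.pt u) (deriv γ.pt u)

open Classical in
/-- The value at `z` of the rational function `f`: `F z / G z` if `f = F / G` with forms of the
same degree and `G z ≠ 0`, and `0` if `f` is not regular at `z`. -/
def value (y : Fin (n + 1) → L) (f : L) (z : Fin (n + 1) → ℂ) : ℂ :=
  if h : ∃ p : MvPolynomial (Fin (n + 1)) ℚ × MvPolynomial (Fin (n + 1)) ℚ,
      (∃ a, p.1.IsHomogeneous a ∧ p.2.IsHomogeneous a) ∧ f * aeval y p.2 = aeval y p.1 ∧
        aeval z p.2 ≠ 0 then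
    aeval z h.choose.1 / aeval z h.choose.2
  else 0

/-- The integral over `[0, 1]` of `log |f| d arg g - log |g| d arg f`. -/
def eta (f g : ℝ → ℂ) : ℝ :=
  ∫ u in (0 : ℝ)..1,
    (Real.log ‖f u‖ * (deriv g u / g u).im - Real.log ‖g u‖ * (deriv f u / f u).im)

/-- The regulator of the sum of the symbols `{f, g}` in the list `s`, integrated over `γ`. -/
def reg {y : Fin (n + 1) → L} (s : List (Lˣ × Lˣ)) (γ : Loop y) : ℝ :=
  (s.map fun q => eta (fun u => value y q.1 (γ.pt u)) fun u => value y q.2 (γ.pt u)).sum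

/-- No entry of a symbol in `s` has a zero or a pole on `γ`. -/
def Avoids {y : Fin (n + 1) → L} (s : List (Lˣ × Lˣ)) (γ : Loop y) : Prop :=
  ∀ q ∈ s, ∀ u, value y q.1 (γ.pt u) ≠ 0 ∧ value y q.2 (γ.pt u) ≠ 0

/-- The order of `f` at the valuation `v`. -/
def ord (v : Valuation L (WithZero (Multiplicative ℤ))) (f : Lˣ) : ℤ := -WithZero.log (v f)

/-- A representative in `L` of the tame symbol of `{f, g}` at `v`. -/
def tame (v : Valuation L (WithZero (Multiplicative ℤ))) (q : Lˣ × Lˣ) : L :=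
  (-1) ^ (ord v q.1 * ord v q.2) * (q.1 : L) ^ ord v q.2 / (q.2 : L) ^ ord v q.1

/-- The sum of the symbols in `s` has torsion tame symbol at every discrete valuation of `L`. -/
def Integral (s : List (Lˣ × Lˣ)) : Prop :=
  ∀ v : Valuation L (WithZero (Multiplicative ℤ)),
    ∃ N : ℕ, 0 < N ∧ v ((s.map (tame v)).prod ^ N - 1) < 1

/-- `y` are homogeneous coordinates of the generic point of a geometrically integral projective
curve over `ℚ` with function field `L`. -/
def IsCurve (y : Fin (n + 1) → L) : Prop :=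
  Algebra.trdeg ℚ L = 1 ∧ (∀ x : L, IsAlgebraic ℚ x → x ∈ Set.range (algebraMap ℚ L)) ∧
    IntermediateField.adjoin ℚ (Set.range fun q : Fin (n + 1) × Fin (n + 1) => y q.1 / y q.2) = ⊤

/-- Main statement. -/
def StBK2 : Prop :=
  ∀ (L : Type) [Field L] [Algebra ℚ L] (n : ℕ) (y : Fin (n + 1) → L), IsCurve y →
    ∀ ω, RegForm y ω → ∀ (ι : Type) [Fintype ι] (γ : ι → Loop y),
      (fun l => (period ω (γ l)).im) ∈ Submodule.span ℝ
        {r : ι → ℝ | ∃ s : List (Lˣ × Lˣ), Integral s ∧ (∀ l, Avoids s (γ l)) ∧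
          r = fun l => reg s (γ l)}

end Pool.Agent.Lib.BK2
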