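import Pool.Agent.Lib.BK2.BOX

/-! TRANS: from counts in small translation invariant neighbourhoods to counts in cells. -/

namespace Pool.Agent.Lib.BK2.TRANS

open Finset BOX
open scoped Classical

section core

variable {A Δ : Type} [AddCommGroup A]

theorem swap (D : Finset Δ) (v : Δ → A) (c : Finset A) (Q : A → Prop) :
    ∑ μ ∈ D, (#{w ∈ c | Q (w + v μ)} : ℝ) = ∑ w ∈ c, (#{μ ∈ D | Q (w + v μ)} : ℝ) := by
  simp only [card_filter]
  push_cast
  exact sum_comm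

theorem upper (D : Finset Δ) (v : Δ → A) (c cp : Finset A) (Q : A → Prop) (hi : ℝ)
    (hD : D.Nonempty) (hp : ∀ w ∈ c, ∀ μ ∈ D, w - v μ ∈ cp)
    (h : ∀ w ∈ cp, (#{μ ∈ D | Q (w + v μ)} : ℝ) ≤ hi * D.card) :
    (#{w ∈ c | Q w} : ℝ) ≤ hi * cp.card := by
  have h0 : (0 : ℝ) < D.card := by exact_mod_cast hD.card_pos
  have h1 : ∀ μ ∈ D, (#{w ∈ c | Q w} : ℝ) ≤ #{w ∈ cp | Q (w + v μ)} := fun μ hμ => by
    have : #{w ∈ c | Q w} ≤ #{w ∈ cp | Q (w + v μ)} := by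
      refine card_le_card_of_injOn (fun w => w - v μ) (fun w hw => ?_) fun a _ b _ hab => ?_
      · simp only [coe_filter, Set.mem_ofPred_eq] at hw ⊢
        exact ⟨hp w hw.1 μ hμ, by simpa using hw.2⟩
      · simpa using hab
    exact_mod_cast this
  have h2 := sum_le_sum h1
  rw [swap, sum_const, nsmul_eq_mul] at h2
  have h3 := sum_le_sum h
  rw [sum_const, nsmul_eq_mul] at h3
  refine le_of_mul_le_mul_left ?_ h0
  nlinarith

theorem lower (D : Finset Δ) (v : Δ → A) (c cm : Finset A) (Q : A → Prop) (lo : ℝ)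
    (hD : D.Nonempty) (hm : ∀ w ∈ cm, ∀ μ ∈ D, w + v μ ∈ c)
    (h : ∀ w ∈ cm, lo * D.card ≤ (#{μ ∈ D | Q (w + v μ)} : ℝ)) :
    lo * cm.card ≤ (#{w ∈ c | Q w} : ℝ) := by
  have h0 : (0 : ℝ) < D.card := by exact_mod_cast hD.card_pos
  have h1 : ∀ μ ∈ D, (#{w ∈ cm | Q (w + v μ)} : ℝ) ≤ #{w ∈ c | Q w} := fun μ hμ => by
    have : #{w ∈ cm | Q (w + v μ)} ≤ #{w ∈ c | Q w} := by
      refine card_le_card_of_injOn (fun w => w + v μ) (fun w hw => ?_) fun a _ b _ hab => ?_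
      · simp only [coe_filter, Set.mem_ofPred_eq] at hw ⊢
        exact ⟨hm w hw.1 μ hμ, hw.2⟩
      · simpa using hab
    exact_mod_cast this
  have h2 := sum_le_sum h1
  rw [swap, sum_const, nsmul_eq_mul] at h2
  have h3 := sum_le_sum h
  rw [sum_const, nsmul_eq_mul] at h3
  refine le_of_mul_le_mul_left ?_ h0
  nlinarith

end core

variable {ι : Type} [Fintype ι] [DecidableEq ι]

theorem coset_nat (Λ : AddSubgroup (ι → ℤ)) {q : ℕ} (h0 : 0 < q) (hq : ∀ v, q • v ∈ Λ)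
    (a : ι → ℤ) (s : ℕ) (u : ι → ℤ) :
    (s - q) ^ Fintype.card ι ≤ #{v ∈ box a (fun _ => s) | v - u ∈ Λ} * Λ.index ∧
      #{v ∈ box a (fun _ => s) | v - u ∈ Λ} * Λ.index ≤ (s + q) ^ Fintype.card ι := by
  have hq' : ∀ v, q • QuotientAddGroup.mk' Λ v = 0 := fun v => by
    rw [← map_nsmul]; exact (QuotientAddGroup.eq_zero_iff _).2 (hq v)
  have h1 := fiber_lower (QuotientAddGroup.mk' Λ) h0 hq' a (fun _ => s) u
  have h2 := fiber_upper (QuotientAddGroup.mk' Λ) h0 hq' a (fun _ => s) u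
  have e : ({v ∈ box a (fun _ => s) | QuotientAddGroup.mk' Λ v = QuotientAddGroup.mk' Λ u} :
      Finset _) = {v ∈ box a (fun _ => s) | v - u ∈ Λ} :=
    filter_congr fun v _ => QuotientAddGroup.eq_iff_sub_mem
  rw [e, AddMonoidHom.range_eq_top.2 (QuotientAddGroup.mk'_surjective Λ),
    AddSubgroup.card_top, prod_const, card_univ] at h1 h2
  exact ⟨h1, h2⟩

/-- TRANS. -/
theorem trans {Δ : Type} (Λ : AddSubgroup (ι → ℤ)) {q : ℕ} (h0 : 0 < q) (hq : ∀ v, q • v ∈ Λ)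
    (a u : ι → ℤ) (s σ : ℕ) {η θ ε : ℝ} (hη : 0 ≤ η) (hη1 : η ≤ 1)
    (hr : Fintype.card ι * η ≤ 1 / 8) (hs : (q : ℝ) + 2 * σ ≤ η * s) (hθ : 0 ≤ θ) (hε : 0 ≤ ε)
    (D : Finset Δ) (hD : D.Nonempty) (v : Δ → ι → ℤ)
    (hv : ∀ μ ∈ D, v μ ∈ Λ ∧ ∀ k, |v μ k| ≤ σ) (Q : (ι → ℤ) → Prop)
    (h : ∀ w ∈ box (fun k => a k - σ) (fun _ => s + 2 * σ), w - u ∈ Λ →
      |(#{μ ∈ D | Q (w + v μ)} : ℝ) - θ * D.card| ≤ ε * D.card) :
    |(#{w ∈ {w ∈ box a (fun _ => s) | w - u ∈ Λ} | Q w} : ℝ) -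
        θ * #{w ∈ box a (fun _ => s) | w - u ∈ Λ}| ≤
      (ε + 6 * Fintype.card ι * η * (θ + ε)) * #{w ∈ box a (fun _ => s) | w - u ∈ Λ} := by
  set r := Fintype.card ι with hrd
  have hs0 : (0 : ℝ) ≤ s := Nat.cast_nonneg _
  have hqs : q + 2 * σ ≤ s := by
    have : (q : ℝ) + 2 * σ ≤ s := by nlinarith
    exact_mod_cast this
  set c := {w ∈ box a (fun _ => s) | w - u ∈ Λ} with hc
  set cp := {w ∈ box (fun k => a k - σ) (fun _ => s + 2 * σ) | w - u ∈ Λ} with hcp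
  set cm := {w ∈ box (fun k => a k + σ) (fun _ => s - 2 * σ) | w - u ∈ Λ} with hcm
  have hup := upper D v c cp Q (θ + ε) hD (fun w hw μ hμ => by
      rw [hc, mem_filter, mem_box] at hw
      rw [hcp, mem_filter, mem_box]
      refine ⟨fun k => ?_, ?_⟩
      · have h1 := hw.1 k
        have h2 := abs_le.1 ((hv μ hμ).2 k)
        simp only [Pi.sub_apply]
        push_cast
        omega
      · have := Λ.sub_mem hw.2 (hv μ hμ).1
        rwa [sub_right_comm] at this)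
    (fun w hw => by
      rw [hcp, mem_filter] at hw
      linarith [(abs_le.1 (h w hw.1 hw.2)).2])
  have hlo := lower D v c cm Q (θ - ε) hD (fun w hw μ hμ => by
      rw [hcm, mem_filter, mem_box] at hw
      rw [hc, mem_filter, mem_box]
      refine ⟨fun k => ?_, ?_⟩
      · have h1 := hw.1 k
        have h2 := abs_le.1 ((hv μ hμ).2 k)
        simp only [Pi.add_apply]
        rw [Nat.cast_sub (by omega)] at h1
        push_cast at h1
        omega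
      · have := Λ.add_mem hw.2 (hv μ hμ).1
        rwa [sub_add_eq_add_sub] at this)
    (fun w hw => by
      rw [hcm, mem_filter, mem_box] at hw
      have hw1 : w ∈ box (fun k => a k - σ) (fun _ => s + 2 * σ) := mem_box.2 fun k => by
        have h1 := hw.1 k
        rw [Nat.cast_sub (by omega)] at h1
        push_cast at h1 ⊢
        omega
      linarith [(abs_le.1 (h w hw1 hw.2)).1])
  obtain ⟨c1, c2⟩ := coset_nat Λ h0 hq a s u
  obtain ⟨-, p2⟩ := coset_nat Λ h0 hq (fun k => a k - σ) (s + 2 * σ) u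
  obtain ⟨m1, -⟩ := coset_nat Λ h0 hq (fun k => a k + σ) (s - 2 * σ) u
  rw [← hc, ← hrd] at c1 c2
  rw [← hcp, ← hrd] at p2
  rw [← hcm, ← hrd] at m1
  obtain ⟨pl, pu⟩ := pow_bounds (r := r) hη hη1 (by linarith)
  have hσ : (0 : ℝ) ≤ σ := Nat.cast_nonneg _
  have hq0 : (0 : ℝ) < q := by exact_mod_cast h0
  have hS : (0 : ℝ) ≤ (s : ℝ) ^ r := by positivity
  have up : ∀ x : ℝ, 0 ≤ x → x ≤ s + (q + 2 * σ) → x ^ r ≤ (1 + 2 * r * η) * (s : ℝ) ^ r :=
    fun x hx hx' => by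
      calc x ^ r ≤ ((1 + η) * s) ^ r := pow_le_pow_left₀ hx (by linarith) r
        _ = (1 + η) ^ r * (s : ℝ) ^ r := mul_pow _ _ _
        _ ≤ _ := mul_le_mul_of_nonneg_right pu hS
  have dn : ∀ x : ℝ, s - (q + 2 * σ) ≤ x → (1 - 2 * r * η) * (s : ℝ) ^ r ≤ x ^ r :=
    fun x hx' => by
      calc _ ≤ (1 - η) ^ r * (s : ℝ) ^ r := mul_le_mul_of_nonneg_right pl hS
        _ = ((1 - η) * s) ^ r := (mul_pow _ _ _).symm
        _ ≤ x ^ r := pow_le_pow_left₀ (mul_nonneg (by linarith) hs0) (by linarith) r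
  have c1' : (1 - 2 * r * η) * (s : ℝ) ^ r ≤ c.card * Λ.index := by
    refine (dn ((s - q : ℕ) : ℝ) ?_).trans (by exact_mod_cast c1)
    rw [Nat.cast_sub (by omega)]; linarith
  have c2' : (c.card : ℝ) * Λ.index ≤ (1 + 2 * r * η) * (s : ℝ) ^ r := by
    refine le_trans (by exact_mod_cast c2) (up ((s + q : ℕ) : ℝ) (Nat.cast_nonneg _) ?_)
    push_cast; linarith
  have p2' : (cp.card : ℝ) * Λ.index ≤ (1 + 2 * r * η) * (s : ℝ) ^ r := by
    refine le_trans (by exact_mod_cast p2) (up ((s + 2 * σ + q : ℕ) : ℝ) (Nat.cast_nonneg _) ?_)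
    push_cast; linarith
  have m1' : (1 - 2 * r * η) * (s : ℝ) ^ r ≤ cm.card * Λ.index := by
    refine (dn ((s - 2 * σ - q : ℕ) : ℝ) ?_).trans (by exact_mod_cast m1)
    rw [Nat.cast_sub (by omega), Nat.cast_sub (by omega)]; push_cast; linarith
  have hS1 : (0 : ℝ) < (s : ℝ) ^ r := pow_pos (by exact_mod_cast (by omega : 0 < s)) r
  set ρ := 2 * r * η with hρ
  have hρ0 : 0 ≤ ρ := by positivity
  have hρ1 : ρ ≤ 1 / 4 := by rw [hρ]; linarith
  have hI : (0 : ℝ) < Λ.index := by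
    rcases (Nat.cast_nonneg (α := ℝ) Λ.index).eq_or_lt with h1 | h1
    · rw [← h1] at c1'; nlinarith
    · exact h1
  have hcp' : (cp.card : ℝ) ≤ (1 + 3 * ρ) * c.card := by
    refine le_of_mul_le_mul_right ?_ hI
    have : (1 + ρ) * (s : ℝ) ^ r ≤ (1 + 3 * ρ) * ((1 - ρ) * (s : ℝ) ^ r) := by
      have : 1 + ρ ≤ (1 + 3 * ρ) * (1 - ρ) := by nlinarith
      nlinarith
    have h2 := mul_le_mul_of_nonneg_left c1' (show 0 ≤ 1 + 3 * ρ by linarith)
    linarith [mul_assoc (1 + 3 * ρ) (c.card : ℝ) Λ.index]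
  have hcm' : (1 - 2 * ρ) * (c.card : ℝ) ≤ cm.card := by
    refine le_of_mul_le_mul_right ?_ hI
    have : (1 - 2 * ρ) * ((1 + ρ) * (s : ℝ) ^ r) ≤ (1 - ρ) * (s : ℝ) ^ r := by
      have : (1 - 2 * ρ) * (1 + ρ) ≤ 1 - ρ := by nlinarith
      nlinarith
    have h2 := mul_le_mul_of_nonneg_left c2' (show 0 ≤ 1 - 2 * ρ by linarith)
    linarith [mul_assoc (1 - 2 * ρ) (c.card : ℝ) Λ.index]
  have hc0 : (0 : ℝ) ≤ c.card := Nat.cast_nonneg _
  have e : 6 * r * η = 3 * ρ := by rw [hρ]; ring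
  rw [e, abs_le]
  have t1 : 0 ≤ ρ * c.card := mul_nonneg hρ0 hc0
  constructor
  · rcases le_total ε θ with h1 | h1
    · have h2 := mul_le_mul_of_nonneg_left hcm' (sub_nonneg.2 h1)
      nlinarith [mul_nonneg hθ t1, mul_nonneg hε t1]
    · have h2 : (0 : ℝ) ≤ #{w ∈ c | Q w} := Nat.cast_nonneg _
      nlinarith [mul_nonneg hθ t1, mul_nonneg hε t1, mul_nonneg (sub_nonneg.2 h1) hc0]
  · have h2 := mul_le_mul_of_nonneg_left hcp' (add_nonneg hθ hε)
    nlinarith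

end Pool.Agent.Lib.BK2.TRANS
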