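import Pool.Agent.Lib.BK2.UnrStmt
import Pool.Agent.Lib.BK2.Blue1

/-! Valuations on the ring `B`: degree bounds and the local structure of a split pair. -/

open Polynomial

noncomputable section

namespace Pool.Agent.Lib.BK2.UNR

variable {B : Type} [CommRing B] [Algebra ℤ[X] B] {d : ℕ} [NeZero d] (Γ : Geo B d)

theorem mem_V {m : ℕ} {f : B} :
    f ∈ Γ.V m ↔ ∀ l k, (Γ.b.repr f l).coeff k ≠ 0 → k + Γ.δ l ≤ m := by
  refine forall_congr' fun l => ⟨fun h k hk => ?_, fun h => ?_⟩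
  · have h1 : (k : WithBot ℕ) ≤ (Γ.b.repr f l).degree := le_degree_of_ne_zero hk
    have h2 : (k : WithBot ℕ) + (Γ.δ l : WithBot ℕ) ≤ (m : WithBot ℕ) :=
      le_trans (add_le_add h1 le_rfl) h
    exact_mod_cast h2
  · by_cases h0 : Γ.b.repr f l = 0
    · rw [h0, degree_zero, WithBot.bot_add]
      exact bot_le
    · rw [degree_eq_natDegree h0]
      exact_mod_cast h _ (leadingCoeff_ne_zero.2 h0)

theorem V_mono {a b : ℕ} (h : a ≤ b) {f : B} (hf : f ∈ Γ.V a) : f ∈ Γ.V b :=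
  (mem_V Γ).2 fun l k hk => ((mem_V Γ).1 hf l k hk).trans h

theorem V_zero (a : ℕ) : (0 : B) ∈ Γ.V a := (mem_V Γ).2 fun l k hk => by simp at hk

theorem V_sub {a : ℕ} {f g : B} (hf : f ∈ Γ.V a) (hg : g ∈ Γ.V a) : f - g ∈ Γ.V a := by
  refine (mem_V Γ).2 fun l k hk => ?_
  rw [map_sub, Finsupp.sub_apply, coeff_sub] at hk
  by_cases h : (Γ.b.repr f l).coeff k = 0
  · exact (mem_V Γ).1 hg l k fun h' => hk (by rw [h, h', sub_zero])
  · exact (mem_V Γ).1 hf l k h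

theorem V_int {a : ℕ} {f : B} (n : ℤ) (hf : f ∈ Γ.V a) : (n : B) * f ∈ Γ.V a := by
  refine (mem_V Γ).2 fun l k hk => (mem_V Γ).1 hf l k fun h => hk ?_
  rw [← zsmul_eq_mul, map_zsmul, Finsupp.smul_apply, coeff_smul, h, smul_zero]

theorem V_smul_b (q : ℤ[X]) (l : Fin d) {a : ℕ} (h : q.natDegree + Γ.δ l ≤ a) :
    q • Γ.b l ∈ Γ.V a := by
  classical
  refine (mem_V Γ).2 fun l' k hk => ?_
  rw [map_smul, Module.Basis.repr_self, Finsupp.smul_apply, Finsupp.single_apply] at hk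
  split_ifs at hk with h'
  · subst h'
    rw [smul_eq_mul, mul_one] at hk
    have := le_natDegree_of_ne_zero hk
    omega
  · simp at hk

theorem V_b (l : Fin d) : Γ.b l ∈ Γ.V (Γ.δ l) := by
  simpa using V_smul_b Γ 1 l (a := Γ.δ l) (by simp)

theorem V_pow (k : ℕ) : Γ.t ^ k ∈ Γ.V k := by
  have := V_smul_b Γ (X ^ k) 0 (a := k) (by simp [Γ.δ0])
  rwa [Γ.b0, Algebra.smul_def, mul_one, map_pow] at this

theorem V_one (a : ℕ) : (1 : B) ∈ Γ.V a := V_mono Γ (Nat.zero_le a) (by simpa using V_pow Γ 0)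

theorem δ_le (l : Fin d) : Γ.δ l ≤ Γ.dmax := Finset.le_sup (f := Γ.δ) (Finset.mem_univ l)

theorem exists_V (f : B) : ∃ a, f ∈ Γ.V a :=
  ⟨Finset.univ.sup fun l => (Γ.b.repr f l).natDegree + Γ.δ l, (mem_V Γ).2 fun l k hk =>
    (Nat.add_le_add_right (le_natDegree_of_ne_zero hk) _).trans
      (Finset.le_sup (f := fun l => (Γ.b.repr f l).natDegree + Γ.δ l) (Finset.mem_univ l))⟩

theorem hom_alg {F : Type} [CommRing F] (ψ : B →+* F) (q : ℤ[X]) :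
    ψ (algebraMap ℤ[X] B q) = aeval (ψ Γ.t) q := by
  have : ψ.comp (algebraMap ℤ[X] B) = (aeval (R := ℤ) (ψ Γ.t)).toRingHom :=
    Polynomial.ringHom_ext' (RingHom.ext_int _ _) (by simp [Geo.t])
  exact DFunLike.congr_fun this q

theorem hom_eq {F : Type} [CommRing F] (ψ : B →+* F) (f : B) :
    ψ f = ∑ l, aeval (ψ Γ.t) (Γ.b.repr f l) * ψ (Γ.b l) := by
  conv_lhs => rw [← Γ.b.sum_repr f]
  rw [map_sum]
  exact Finset.sum_congr rfl fun l _ => by rw [Algebra.smul_def, map_mul, hom_alg Γ]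

section Val

variable {F G : Type} [Field F] [LinearOrderedCommGroupWithZero G] (ν : Valuation F G)

theorem val_int (n : ℤ) : ν (n : F) ≤ 1 := intCast_mem ν.integer n

theorem val_aeval (τ : F) (q : ℤ[X]) : ν (aeval τ q) ≤ max 1 (ν τ) ^ q.natDegree := by
  rw [aeval_eq_sum_range]
  refine ν.map_sum_le fun i hi => ?_
  rw [zsmul_eq_mul, map_mul, map_pow]
  calc ν ((q.coeff i : ℤ) : F) * ν τ ^ i ≤ 1 * max 1 (ν τ) ^ i :=
        mul_le_mul' (val_int ν _) (pow_le_pow_left' (le_max_right _ _) _)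
    _ ≤ _ := by
        rw [one_mul]
        exact pow_le_pow_right' (le_max_left _ _) (Nat.lt_succ_iff.1 (Finset.mem_range.1 hi))

variable (ψ : B →+* F)

/-- the size of the coordinate -/
def Mx : G := max 1 (ν (ψ Γ.t))

theorem one_le_Mx : 1 ≤ Mx Γ ν ψ := le_max_left _ _

theorem Mx_pos : 0 < Mx Γ ν ψ := lt_of_lt_of_le zero_lt_one (one_le_Mx Γ ν ψ)

theorem val_le_aux (R : G) (hR : ∀ l, ν (ψ (Γ.b l)) ≤ R * Mx Γ ν ψ ^ Γ.δ l) {a : ℕ} {f : B}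
    (hf : f ∈ Γ.V a) : ν (ψ f) ≤ R * Mx Γ ν ψ ^ a := by
  rw [hom_eq Γ]
  refine ν.map_sum_le fun l _ => ?_
  by_cases h0 : Γ.b.repr f l = 0
  · simp [h0]
  · have h1 := (mem_V Γ).1 hf l _ (leadingCoeff_ne_zero.2 h0)
    rw [map_mul]
    calc _ ≤ Mx Γ ν ψ ^ (Γ.b.repr f l).natDegree * (R * Mx Γ ν ψ ^ Γ.δ l) :=
          mul_le_mul' (val_aeval ν _ _) (hR l)
      _ = R * Mx Γ ν ψ ^ ((Γ.b.repr f l).natDegree + Γ.δ l) := by
          rw [pow_add, mul_left_comm]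
      _ ≤ _ := mul_le_mul' le_rfl (pow_le_pow_right' (one_le_Mx Γ ν ψ) h1)

theorem val_b (l : Fin d) : ν (ψ (Γ.b l)) ≤ Mx Γ ν ψ ^ Γ.δ l := by
  have hM : ∀ k : ℕ, 0 < Mx Γ ν ψ ^ k := fun k => pow_pos (Mx_pos Γ ν ψ) k
  obtain ⟨l₀, -, h₀⟩ := Finset.exists_max_image Finset.univ
    (fun l => ν (ψ (Γ.b l)) / Mx Γ ν ψ ^ Γ.δ l) ⟨l, Finset.mem_univ l⟩
  set R := ν (ψ (Γ.b l₀)) / Mx Γ ν ψ ^ Γ.δ l₀ with hR
  have h1 : ∀ l, ν (ψ (Γ.b l)) ≤ R * Mx Γ ν ψ ^ Γ.δ l := fun l =>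
    (div_le_iff₀ (hM _)).1 (h₀ l (Finset.mem_univ l))
  have h2 := val_le_aux Γ ν ψ R h1 (f := Γ.b l₀ * Γ.b l₀) (a := Γ.δ l₀ + Γ.δ l₀)
    (Γ.mul_deg l₀ l₀)
  have h3 : ν (ψ (Γ.b l₀)) = R * Mx Γ ν ψ ^ Γ.δ l₀ := (div_mul_cancel₀ _ (hM _).ne').symm
  have h4 : R ≤ 1 := by
    by_contra hc
    rw [not_le] at hc
    have hR0 : 0 < R := lt_trans zero_lt_one hc
    rw [map_mul, map_mul, h3, pow_add, mul_mul_mul_comm] at h2
    have h5 : R * R ≤ R := le_of_mul_le_mul_right h2 (mul_pos (hM _) (hM _))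
    have h6 : R * 1 < R * R := mul_lt_mul_of_pos_left hc hR0
    rw [mul_one] at h6
    exact absurd h5 (not_le.2 h6)
  calc _ ≤ R * Mx Γ ν ψ ^ Γ.δ l := h1 l
    _ ≤ 1 * Mx Γ ν ψ ^ Γ.δ l := mul_le_mul' h4 le_rfl
    _ = _ := one_mul _

theorem val_le {a : ℕ} {f : B} (hf : f ∈ Γ.V a) : ν (ψ f) ≤ Mx Γ ν ψ ^ a := by
  simpa using val_le_aux Γ ν ψ 1 (fun l => by simpa using val_b Γ ν ψ l) hf

theorem val_le_one (h : ν (ψ Γ.t) ≤ 1) (f : B) : ν (ψ f) ≤ 1 := by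
  obtain ⟨a, ha⟩ := exists_V Γ f
  have := val_le Γ ν ψ ha
  rwa [Mx, max_eq_left h, one_pow] at this

theorem val_coprime {a b : ℤ} (h : IsCoprime a b) (ha : ν (a : F) < 1) : ν (b : F) = 1 := by
  refine le_antisymm (val_int ν b) (not_lt.1 fun hb => ?_)
  obtain ⟨x, y, hxy⟩ := h
  have h1 : ((x : F) * a + y * b) = 1 := by exact_mod_cast congrArg (Int.cast : ℤ → F) hxy
  have h2 : ν ((x : F) * a + y * b) < 1 := by
    refine ν.map_add_lt ?_ ?_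
    · rw [map_mul]
      exact mul_lt_one_of_nonneg_of_lt_one_right (val_int ν x) zero_le ha
    · rw [map_mul]
      exact mul_lt_one_of_nonneg_of_lt_one_right (val_int ν y) zero_le hb
  rw [h1, map_one] at h2
  exact lt_irrefl _ h2

end Val

theorem on_int (x : Pt B) (n : ℤ) : x.On (n : B) ↔ (x.p : ℤ) ∣ n := by
  rw [Pt.On, map_intCast]
  exact ZMod.intCast_zmod_eq_zero_iff_dvd n x.1

theorem exists_lift (x : Pt B) (f : B) : ∃ n : ℤ, x.On (f - n) := by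
  refine ⟨(x.2 f).cast, ?_⟩
  rw [Pt.On, map_sub, map_intCast, ZMod.intCast_zmod_cast, sub_self]

theorem on_mul (x : Pt B) (f : B) {g : B} (h : x.On g) : x.On (f * g) := by
  rw [Pt.On, map_mul, show x.2 g = 0 from h, mul_zero]

theorem pt_ext {x x' : Pt B} (h : ∀ f, x.On f ↔ x'.On f) : x = x' := by
  obtain ⟨p, φ⟩ := x
  obtain ⟨p', φ'⟩ := x'
  have h1 : ((p' : ℕ) : ℤ) ∣ (p : ℕ) :=
    (on_int ⟨p', φ'⟩ _).1 ((h _).1 ((on_int ⟨p, φ⟩ _).2 dvd_rfl))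
  obtain rfl : p' = p :=
    Subtype.ext ((Nat.prime_dvd_prime_iff_eq p'.2 p.2).1 (Int.natCast_dvd_natCast.1 h1))
  obtain rfl : φ = φ' := by
    ext f
    obtain ⟨n, hn⟩ := exists_lift ⟨p', φ⟩ f
    have h2 : φ (f - n) = 0 := hn
    have h3 : φ' (f - n) = 0 := (h _).1 hn
    rw [map_sub, map_intCast, sub_eq_zero] at h2 h3
    rw [h2, h3]
  rfl

variable {Γ}

theorem on_left {m m' : ℕ} {e w : B} {Z : Finset (Pt B)} (h : Γ.Split m m' e w Z)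
    (hm : 2 * m ≤ m') {x : Pt B} (hx : x ∈ Z) : x.On e :=
  (h.lat e (V_mono Γ (by omega) h.he)).1 ⟨1, V_one Γ _, 0, V_zero Γ _, by ring⟩ x hx

theorem on_right {m m' : ℕ} {e w : B} {Z : Finset (Pt B)} (h : Γ.Split m m' e w Z)
    {x : Pt B} (hx : x ∈ Z) : x.On w :=
  (h.lat w (V_mono Γ (by omega) h.hw)).1 ⟨0, V_zero Γ _, 1, V_one Γ _, by ring⟩ x hx

/-- a nonzero integer in the ideal of a split pair -/
theorem exists_int {m m' : ℕ} {e w : B} {Z : Finset (Pt B)} (h : Γ.Split m m' e w Z) :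
    ∃ n : ℤ, n ≠ 0 ∧ ∃ s s' : B, (n : B) = e * s + w * s' := by
  have h1 : (((∏ x ∈ Z, (x.p : ℤ) : ℤ) : B) * 1) ∈ Γ.V (2 * m') := V_int Γ _ (V_one Γ _)
  obtain ⟨s, -, s', -, hs⟩ := (h.lat _ h1).2 fun x hx => by
    rw [mul_one, on_int]
    exact Finset.dvd_prod_of_mem _ hx
  refine ⟨_, Finset.prod_ne_zero_iff.2 fun x _ => ?_, s, s', by rw [← hs, mul_one]⟩
  exact_mod_cast x.1.2.ne_zero

/-- The local structure of a split pair at a valuation where both sections vanish. -/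
theorem loc {F G : Type} [Field F] [LinearOrderedCommGroupWithZero G] (ν : Valuation F G)
    (ψ : B →+* F) {m m' : ℕ} {e w : B} {Z : Finset (Pt B)} (h : Γ.Split m m' e w Z)
    (hd : Γ.dmax + 1 ≤ m) (hm : 2 * m ≤ m') (he : ν (ψ e) < Mx Γ ν ψ ^ m)
    (hw : ν (ψ w) < Mx Γ ν ψ ^ m') :
    ν (ψ Γ.t) ≤ 1 ∧ ∃ x ∈ Z, (∀ f, ν (ψ f) < 1 ↔ x.On f) ∧ ∃ n : ℤ, ν (n : F) = 1 ∧
      ∀ f, x.On f → ∃ α β : B, (n : B) * f = α * e + β * w := by
  classical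
  have hM : ∀ k : ℕ, 0 < Mx Γ ν ψ ^ k := fun k => pow_pos (Mx_pos Γ ν ψ) k
  have key : ∀ v ∈ Γ.V (2 * m'), (∀ x ∈ Z, x.On v) → ν (ψ v) < Mx Γ ν ψ ^ (2 * m') := by
    intro v hv hZ
    obtain ⟨s, hs, s', hs', rfl⟩ := (h.lat v hv).2 hZ
    rw [map_add, map_mul, map_mul]
    refine ν.map_add_lt ?_ ?_
    · rw [map_mul, show Mx Γ ν ψ ^ (2 * m') = Mx Γ ν ψ ^ m * Mx Γ ν ψ ^ (2 * m' - m) by
        rw [← pow_add, show m + (2 * m' - m) = 2 * m' by omega]]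
      exact mul_lt_mul_of_lt_of_le_of_nonneg_of_pos he (val_le Γ ν ψ hs) zero_le (hM _)
    · rw [map_mul, two_mul, pow_add]
      exact mul_lt_mul_of_lt_of_le_of_nonneg_of_pos hw (val_le Γ ν ψ hs') zero_le (hM _)
  -- an element of exact size
  obtain ⟨T, hT, hTv⟩ : ∃ T ∈ Γ.V (2 * m'), ν (ψ T) = Mx Γ ν ψ ^ (2 * m') := by
    rcases le_total (ν (ψ Γ.t)) 1 with h1 | h1
    · exact ⟨1, V_one Γ _, by rw [Mx, max_eq_left h1, map_one, map_one, one_pow]⟩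
    · exact ⟨_, V_pow Γ _, by rw [Mx, max_eq_right h1, map_pow, map_pow]⟩
  have hP := key _ (V_int Γ (∏ x ∈ Z, (x.p : ℤ)) hT) fun x hx => by
    rw [mul_comm]
    exact on_mul x _ ((on_int x _).2 (Finset.dvd_prod_of_mem _ hx))
  rw [map_mul, map_mul, hTv, map_intCast] at hP
  have hP1 : ν ((∏ x ∈ Z, (x.p : ℤ) : ℤ) : F) < 1 := by
    refine lt_of_mul_lt_mul_right (a := Mx Γ ν ψ ^ (2 * m')) ?_ zero_le
    rwa [one_mul]
  obtain ⟨x, hx, hxp⟩ : ∃ x ∈ Z, ν ((x.p : ℤ) : F) < 1 := by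
    by_contra hc
    have : ∀ x ∈ Z, ν ((x.p : ℤ) : F) = 1 := fun x hx =>
      le_antisymm (val_int ν _) (not_lt.1 fun h' => hc ⟨x, hx, h'⟩)
    rw [Int.cast_prod, map_prod, Finset.prod_eq_one this] at hP1
    exact lt_irrefl _ hP1
  set n : ℤ := ∏ x' ∈ Z.erase x, (x'.p : ℤ) with hn
  have hn1 : ν (n : F) = 1 := by
    refine val_coprime ν (IsCoprime.prod_right fun x' hx' => ?_) hxp
    rw [Finset.mem_erase] at hx'
    rw [Nat.isCoprime_iff_coprime]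
    exact (Nat.coprime_primes x.1.2 x'.1.2).2 fun h' => hx'.1 (h.inj hx'.2 hx h'.symm)
  have hall : ∀ v, x.On v → ∀ x' ∈ Z, x'.On ((n : B) * v) := by
    intro v hv x' hx'
    by_cases h' : x' = x
    · subst h'
      exact on_mul _ _ hv
    · rw [mul_comm]
      exact on_mul _ _ ((on_int x' _).2 (Finset.dvd_prod_of_mem _ (Finset.mem_erase.2 ⟨h', hx'⟩)))
  obtain ⟨t₀, ht₀⟩ := exists_lift x Γ.t
  have ht : ν (ψ Γ.t) ≤ 1 := by
    by_contra hc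
    rw [not_le] at hc
    obtain ⟨k, hk⟩ : ∃ k, 2 * m' = k + 1 := ⟨2 * m' - 1, by omega⟩
    have h1 : Γ.t ^ (k + 1) - (t₀ : B) * Γ.t ^ k ∈ Γ.V (2 * m') :=
      V_sub Γ (hk ▸ V_pow Γ _) (V_int Γ _ (V_mono Γ (by omega) (V_pow Γ k)))
    have h2 := key _ (V_int Γ n h1) (hall _ (by
      rw [show Γ.t ^ (k + 1) - (t₀ : B) * Γ.t ^ k = Γ.t ^ k * (Γ.t - t₀) by ring]
      exact on_mul _ _ ht₀))
    have h3 : ν (ψ Γ.t - (t₀ : F)) = ν (ψ Γ.t) :=
      ν.map_sub_eq_of_lt_left ((val_int ν _).trans_lt hc)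
    rw [show Γ.t ^ (k + 1) - (t₀ : B) * Γ.t ^ k = Γ.t ^ k * (Γ.t - t₀) by ring] at h2
    simp only [map_mul, map_pow, map_sub, map_intCast] at h2
    rw [hn1, h3, one_mul, ← pow_succ, hk, Mx, max_eq_right hc.le] at h2
    exact lt_irrefl _ h2
  have hM1 : Mx Γ ν ψ = 1 := max_eq_left ht
  rw [hM1, one_pow] at he hw
  let J : Ideal B := Submodule.comap (LinearMap.mul B B (n : B)) (Ideal.span {e, w}) ⊓ RingHom.ker x.2
  have hJ : ∀ v ∈ Γ.V (2 * m'), x.On v → v ∈ J := by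
    intro v hv hxv
    obtain ⟨s, -, s', -, hs⟩ := (h.lat _ (V_int Γ n hv)).2 (hall v hxv)
    have h1 : (n : B) * v ∈ Ideal.span {e, w} :=
      Ideal.mem_span_pair.2 ⟨s, s', by rw [hs]; ring⟩
    exact ⟨h1, hxv⟩
  have hgen : ∀ f : B, ∃ k : ℤ, f - k ∈ J := by
    have hadd : ∀ f g : B, (∃ k : ℤ, f - k ∈ J) → (∃ k : ℤ, g - k ∈ J) →
        ∃ k : ℤ, f + g - k ∈ J := by
      rintro f g ⟨k, hk⟩ ⟨k', hk'⟩
      refine ⟨k + k', ?_⟩
      rw [show f + g - ((k + k' : ℤ) : B) = (f - k) + (g - k') by push_cast; ring]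
      exact J.add_mem hk hk'
    have hmul : ∀ f g : B, (∃ k : ℤ, f - k ∈ J) → (∃ k : ℤ, g - k ∈ J) →
        ∃ k : ℤ, f * g - k ∈ J := by
      rintro f g ⟨k, hk⟩ ⟨k', hk'⟩
      refine ⟨k * k', ?_⟩
      rw [show f * g - ((k * k' : ℤ) : B) = g * (f - k) + k * (g - k') by push_cast; ring]
      exact J.add_mem (J.mul_mem_left _ hk) (J.mul_mem_left _ hk')
    have hV : ∀ f ∈ Γ.V (2 * m'), ∃ k : ℤ, f - k ∈ J := by
      intro f hf
      obtain ⟨k, hk⟩ := exists_lift x f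
      exact ⟨k, hJ _ (V_sub Γ hf (by simpa using V_int Γ k (V_one Γ _))) hk⟩
    have hq : ∀ q : ℤ[X], ∃ k : ℤ, algebraMap ℤ[X] B q - k ∈ J := by
      intro q
      induction q using Polynomial.induction_on with
      | C a => exact ⟨a, by simp⟩
      | add p q hp hq =>
        rw [map_add]
        exact hadd _ _ hp hq
      | monomial k a ih =>
        rw [pow_succ, ← mul_assoc, map_mul]
        exact hmul _ _ ih (hV Γ.t (V_mono Γ (a := 1) (by omega) (by simpa using V_pow Γ 1)))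
    intro f
    rw [← Γ.b.sum_repr f]
    refine Finset.sum_induction _ (fun f : B => ∃ k : ℤ, f - k ∈ J) hadd ⟨0, by simp⟩ fun l _ => ?_
    rw [Algebra.smul_def]
    exact hmul _ _ (hq _) (hV _ (V_mono Γ (by have := δ_le Γ l; omega) (V_b Γ l)))
  have hker : ∀ f, x.On f → f ∈ J := by
    intro f hf
    obtain ⟨k, hk⟩ := hgen f
    have h1 : x.On (k : B) := by
      have h2 : x.2 (f - k) = 0 := hk.2
      rw [map_sub, show x.2 f = 0 from hf, zero_sub, neg_eq_zero] at h2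
      exact h2
    have h3 : (k : B) ∈ J := hJ _ (by simpa using V_int Γ k (V_one Γ _)) h1
    simpa using J.add_mem hk h3
  have hrep : ∀ f, x.On f → ∃ α β : B, (n : B) * f = α * e + β * w := by
    intro f hf
    have h1 : (n : B) * f ∈ Ideal.span {e, w} := (hker f hf).1
    obtain ⟨α, β, h'⟩ := Ideal.mem_span_pair.1 h1
    exact ⟨α, β, h'.symm⟩
  have hlt : ∀ f, x.On f → ν (ψ f) < 1 := by
    intro f hf
    obtain ⟨α, β, h'⟩ := hrep f hf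
    have h1 := congrArg (fun z => ν (ψ z)) h'
    simp only [map_mul, map_add, map_intCast] at h1
    rw [hn1, one_mul] at h1
    rw [h1]
    refine ν.map_add_lt ?_ ?_
    · rw [map_mul]
      exact mul_lt_one_of_nonneg_of_lt_one_right (val_le_one Γ ν ψ ht _) zero_le he
    · rw [map_mul]
      exact mul_lt_one_of_nonneg_of_lt_one_right (val_le_one Γ ν ψ ht _) zero_le hw
  refine ⟨ht, x, hx, fun f => ⟨fun hf => ?_, hlt f⟩, n, hn1, hrep⟩
  obtain ⟨k, hk⟩ := exists_lift x f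
  have h1 : ν (k : F) < 1 := by
    have := ν.map_sub_lt hf (hlt _ hk)
    rwa [map_sub ψ, map_intCast, sub_sub_cancel] at this
  have h2 : x.On (k : B) := by
    rw [on_int]
    by_contra hc
    have h3 : IsCoprime (x.p : ℤ) k :=
      (Nat.prime_iff_prime_int.1 x.1.2).irreducible.coprime_iff_not_dvd.2 hc
    exact absurd (val_coprime ν h3 hxp) h1.ne
  have h3 : x.2 (f - k) = 0 := hk
  rw [map_sub, show x.2 (k : B) = 0 from h2, sub_zero] at h3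
  exact h3

end Pool.Agent.Lib.BK2.UNR
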