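import Pool.Agent.Lib.BK2.INT
import Pool.Agent.Lib.BK2.Dual0

/-! Tame symbols modulo torsion units, and torsion criteria for residues. -/

open Polynomial

noncomputable section

namespace Pool.Agent.Lib.BK2.UNR

open Finset

section Tame

variable {L : Type} [Field L] (v : Valuation L (WithZero (Multiplicative ℤ)))

theorem one_of_cong {a : L} (h : v (a - 1) < 1) : v a = 1 := by
  have := v.map_one_add_of_lt h
  rwa [add_sub_cancel] at this

theorem cong_mul {a b : L} (ha : v (a - 1) < 1) (hb : v (b - 1) < 1) : v (a * b - 1) < 1 := by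
  rw [show a * b - 1 = a * (b - 1) + (a - 1) by ring]
  refine v.map_add_lt ?_ ha
  rwa [map_mul, one_of_cong v ha, one_mul]

theorem cong_pow {a : L} (ha : v (a - 1) < 1) (n : ℕ) : v (a ^ n - 1) < 1 := by
  induction n with
  | zero => simp
  | succ n ih =>
    rw [pow_succ]
    exact cong_mul v ih ha

/-- units with torsion residue -/
def Tor : Subgroup Lˣ where
  carrier := {u | ∃ N : ℕ, 0 < N ∧ v ((u : L) ^ N - 1) < 1}
  one_mem' := ⟨1, one_pos, by simp⟩
  mul_mem' := by
    rintro a b ⟨N, hN, ha⟩ ⟨M, hM, hb⟩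
    refine ⟨N * M, Nat.mul_pos hN hM, ?_⟩
    rw [Units.val_mul, mul_pow, pow_mul, mul_comm N M, pow_mul]
    exact cong_mul v (cong_pow v ha M) (cong_pow v hb N)
  inv_mem' := by
    rintro a ⟨N, hN, ha⟩
    refine ⟨N, hN, ?_⟩
    have h0 : (a : L) ^ N ≠ 0 := pow_ne_zero _ a.ne_zero
    rw [Units.val_inv_eq_inv_val, inv_pow,
      show ((a : L) ^ N)⁻¹ - 1 = -(((a : L) ^ N)⁻¹ * ((a : L) ^ N - 1)) by field_simp; ring,
      Valuation.map_neg, map_mul, map_inv₀, one_of_cong v ha, inv_one, one_mul]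
    exact ha

/-- units modulo torsion units -/
def Qt : Type := Lˣ ⧸ Tor v

instance : CommGroup (Qt v) := QuotientGroup.Quotient.commGroup _

/-- the class modulo torsion units -/
def pi : Lˣ →* Qt v := QuotientGroup.mk' (Tor v)

theorem pi_eq_one {u : Lˣ} : pi v u = 1 ↔ u ∈ Tor v := QuotientGroup.eq_one_iff u

theorem val_ne (f : Lˣ) : v f ≠ 0 := (map_ne_zero v).2 f.ne_zero

theorem ord_mul (f g : Lˣ) : ord v (f * g) = ord v f + ord v g := by
  rw [ord, ord, ord, Units.val_mul, map_mul, WithZero.log_mul (val_ne v f) (val_ne v g), neg_add]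

theorem ord_zpow (f : Lˣ) (k : ℤ) : ord v (f ^ k) = k * ord v f := by
  rw [ord, ord, Units.val_zpow_eq_zpow_val, map_zpow₀, WithZero.log_zpow, smul_eq_mul, mul_neg]

theorem ord_congr {f g : Lˣ} (h : v f = v g) : ord v f = ord v g := by rw [ord, ord, h]

theorem ord_zero {f : Lˣ} (h : v f = 1) : ord v f = 0 := by rw [ord, h, WithZero.log_one, neg_zero]

/-- the tame symbol modulo torsion -/
def T (f g : Lˣ) : Qt v := pi v f ^ ord v g / pi v g ^ ord v f

theorem T_mul_left (f f' g : Lˣ) : T v (f * f') g = T v f g * T v f' g := by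
  rw [T, T, T, map_mul, ord_mul, mul_zpow, zpow_add, div_mul_div_comm]

theorem T_mul_right (f g g' : Lˣ) : T v f (g * g') = T v f g * T v f g' := by
  rw [T, T, T, map_mul, ord_mul, mul_zpow, zpow_add, div_mul_div_comm]

theorem T_zpow (f g : Lˣ) (k : ℤ) : T v (f ^ k) g = T v f g ^ k := by
  rw [T, T, map_zpow, ord_zpow, div_zpow, ← zpow_mul, ← zpow_mul, ← zpow_mul, mul_comm k,
    mul_comm k]

theorem integral_of_T {P : Type} [Fintype P] (f g : P → Lˣ) (h : ∏ p, T v (f p) (g p) = 1) :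
    ∃ N : ℕ, 0 < N ∧
      v (((univ.toList.map fun p => (f p, g p)).map (tame v)).prod ^ N - 1) < 1 := by
  have hneg : pi v (-1) = 1 := (pi_eq_one v).2 ⟨2, two_pos, by simp⟩
  have h1 : (∏ p, (-1) ^ (ord v (f p) * ord v (g p)) * f p ^ ord v (g p) / g p ^ ord v (f p)) ∈
      Tor v := by
    rw [← pi_eq_one, map_prod, ← h]
    refine prod_congr rfl fun p _ => ?_
    rw [_root_.map_div, map_mul, map_zpow, map_zpow, map_zpow, hneg, one_zpow, one_mul, T]
  obtain ⟨N, hN, h2⟩ := h1
  refine ⟨N, hN, ?_⟩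
  rw [List.map_map, Finset.prod_map_toList]
  simpa [tame] using h2

theorem tor_of_sub {u u' : Lˣ} (h1 : v u' = 1) (h : v ((u : L) - u') < 1) : pi v u = pi v u' := by
  rw [← div_eq_one, ← _root_.map_div, pi_eq_one]
  refine ⟨1, one_pos, ?_⟩
  rw [pow_one, Units.val_div_eq_div_val, div_sub_one u'.ne_zero, map_div₀, h1, div_one]
  exact h

theorem res_eq_zero (y : v.valuationSubring) :
    IsLocalRing.residue v.valuationSubring y = 0 ↔ v y < 1 := by
  rw [IsLocalRing.residue_eq_zero_iff, Valuation.mem_maximalIdeal_iff]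

theorem tor_of_res {u : Lˣ} (hu : (u : L) ∈ v.valuationSubring) {N : ℕ} (hN : 0 < N)
    (h : IsLocalRing.residue v.valuationSubring ⟨u, hu⟩ ^ N = 1) : pi v u = 1 := by
  refine (pi_eq_one v).2 ⟨N, hN, ?_⟩
  rw [← sub_eq_zero, ← map_pow, ← map_one (IsLocalRing.residue v.valuationSubring), ← map_sub,
    res_eq_zero] at h
  exact h

end Tame

theorem prod_row {P E Q : Type} [Fintype P] [CommGroup Q] (ε : P → E) (s : P → Prop)
    [DecidablePred s] [∀ e, DecidablePred fun p => ε p = e ∧ s p] (r : P → ℤ)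
    (h : ∀ e, ∑ p with ε p = e ∧ s p, r p = 0) (γ : P → Q)
    (hγ : ∀ p q, ε p = ε q → γ p = γ q) : ∏ p with s p, γ p ^ r p = 1 := by
  classical
  rw [← prod_fiberwise_of_maps_to (s := univ.filter s) (t := univ.image ε) (g := ε)
    fun p _ => mem_image_of_mem _ (mem_univ p)]
  refine prod_eq_one fun e he => ?_
  obtain ⟨p₀, -, rfl⟩ := mem_image.1 he
  rw [prod_congr rfl (g := fun p => γ p₀ ^ r p) fun p hp => by rw [hγ p p₀ (mem_filter.1 hp).2]]
  have h1 : ∀ t : Finset P, ∏ p ∈ t, γ p₀ ^ r p = γ p₀ ^ ∑ p ∈ t, r p := by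
    intro t
    induction t using Finset.induction_on with
    | empty => simp
    | insert q t hq ih => rw [prod_insert hq, sum_insert hq, ih, zpow_add]
  rw [h1, sum_congr (s₂ := univ.filter fun p => ε p = ε p₀ ∧ s p) (g := r)
    (by ext p; simp [and_comm]) fun _ _ => rfl, h, zpow_zero]

theorem pow_eq_one_of_integral {k : Type} [Field k] {l : ℕ} (hl : l.Prime) (h0 : (l : k) = 0)
    {y : k} (hy : IsIntegral ℤ y) (hy0 : y ≠ 0) : ∃ N : ℕ, 0 < N ∧ y ^ N = 1 := by
  have : Fact l.Prime := ⟨hl⟩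
  have : CharP k l := (CharP.charP_iff_prime_eq_zero hl).2 h0
  let _ : Algebra (ZMod l) k := ZMod.algebra k l
  have h1 : IsIntegral (ZMod l) y := hy.tower_top
  have := IntermediateField.adjoin.finiteDimensional h1
  have : Finite (IntermediateField.adjoin (ZMod l) {y}) := Module.finite_of_finite (ZMod l)
  have := Fintype.ofFinite (IntermediateField.adjoin (ZMod l) {y})
  have h2 := FiniteField.pow_card_sub_one_eq_one (IntermediateField.AdjoinSimple.gen (ZMod l) y)
    fun h => hy0 (congrArg Subtype.val h)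
  exact ⟨_, Nat.sub_pos_of_lt Fintype.one_lt_card, congrArg Subtype.val h2⟩

theorem integral_of_primitive {k : Type} [Field k] {l : ℕ} (hl : l.Prime) (h0 : (l : k) = 0)
    {p : ℤ[X]} (hp : p.IsPrimitive) {y : k} (hy : aeval y p = 0) : IsIntegral ℤ y := by
  have : Fact l.Prime := ⟨hl⟩
  have : CharP k l := (CharP.charP_iff_prime_eq_zero hl).2 h0
  let _ : Algebra (ZMod l) k := ZMod.algebra k l
  have h1 : p.map (algebraMap ℤ (ZMod l)) ≠ 0 := by
    intro h
    have h2 : C (l : ℤ) ∣ p := (C_dvd_iff_dvd_coeff _ _).2 fun i => by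
      have := congrArg (fun q => q.coeff i) h
      simp only [coeff_map, coeff_zero, eq_intCast] at this
      exact (ZMod.intCast_zmod_eq_zero_iff_dvd _ _).1 this
    exact (Nat.prime_iff_prime_int.1 hl).not_isUnit (hp _ h2)
  have h2 : IsAlgebraic (ZMod l) y := ⟨_, h1, by rwa [aeval_map_algebraMap]⟩
  exact isIntegral_trans (A := ZMod l) _ h2.isIntegral

variable {B : Type} [CommRing B] [Algebra ℤ[X] B] {d : ℕ} [NeZero d] (Γ : Geo B d)

section Res

variable {L : Type} [Field L] (v : Valuation L (WithZero (Multiplicative ℤ))) (ι : B →+* L)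

/-- the normalising element -/
def th : L := if v (ι Γ.t) ≤ 1 then 1 else ι Γ.t

theorem val_th : v (th Γ v ι) = Mx Γ v ι := by
  unfold th Mx
  split_ifs with h
  · rw [map_one, max_eq_left h]
  · rw [max_eq_right (not_le.1 h).le]

theorem th_ne : th Γ v ι ≠ 0 := (map_ne_zero v).1 (by
  rw [val_th]
  exact (Mx_pos Γ v ι).ne')

/-- in residue characteristic `l` all normalised units have torsion residue -/
theorem tors {l : ℕ} (hl : l.Prime) (hv : v (l : L) < 1) {a : ℕ} {e g : B} {p : ℤ[X]}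
    (hp : p.IsPrimitive) (hg : e * g = algebraMap ℤ[X] B p) (he : v (ι e) < Mx Γ v ι ^ a)
    {j : ℕ} {f : B} (hf : f ∈ Γ.V j) {u : Lˣ} (hu : (u : L) * th Γ v ι ^ j = ι f)
    (h1 : v u = 1) : pi v u = 1 := by
  have hl0 : (l : IsLocalRing.ResidueField v.valuationSubring) = 0 := by
    rw [← map_natCast (IsLocalRing.residue v.valuationSubring), res_eq_zero]
    exact hv
  have hi : IsIntegral ℤ (IsLocalRing.residue v.valuationSubring ⟨u, h1.le⟩) := by
    by_cases ht : v (ι Γ.t) ≤ 1
    · rw [th, if_pos ht, one_pow, mul_one] at hu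
      refine integral_of_map v.valuationSubring.toSubring
        (IsLocalRing.residue v.valuationSubring) {ι Γ.t}
        (Subring.closure_le.2 (Set.singleton_subset_iff.2 ht)) (fun y hy => ?_) ⟨u, h1.le⟩ ?_
      · refine integral_of_primitive hl hl0 hp ?_
        have h2 : aeval (IsLocalRing.residue v.valuationSubring y) p =
            IsLocalRing.residue v.valuationSubring (aeval y p) :=
          aeval_algHom_apply (IsLocalRing.residue v.valuationSubring).toIntAlgHom y p
        have h3 : ((aeval y p : v.valuationSubring) : L) = aeval (y : L) p :=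
          (aeval_algHom_apply v.valuationSubring.subtype.toIntAlgHom y p).symm
        refine h2.trans ((res_eq_zero v _).2 ?_)
        rw [h3, Set.mem_singleton_iff.1 hy, ← hom_alg Γ, ← hg, map_mul, map_mul]
        rw [Mx, max_eq_left ht, one_pow] at he
        exact mul_lt_one_of_nonneg_of_lt_one_left zero_le he (val_le_one Γ v ι ht g)
      · refine integral_of_val _ _ fun V hV => ?_
        change V.valuation (u : L) ≤ 1
        rw [hu]
        exact val_le_one Γ V.valuation ι
          ((V.valuation_le_one_iff _).2 (hV (Set.mem_singleton _))) f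
    · rw [th, if_neg ht] at hu
      rw [not_le] at ht
      have ht0 : ι Γ.t ≠ 0 := (map_ne_zero v).1 (lt_trans zero_lt_one ht).ne'
      have ht1 : v (ι Γ.t)⁻¹ < 1 := by
        rw [map_inv₀]
        exact inv_lt_one_of_one_lt₀ ht
      refine integral_of_map v.valuationSubring.toSubring
        (IsLocalRing.residue v.valuationSubring) {(ι Γ.t)⁻¹}
        (Subring.closure_le.2 (Set.singleton_subset_iff.2 ht1.le)) (fun y hy => ?_) ⟨u, h1.le⟩ ?_
      · have h2 : IsLocalRing.residue v.valuationSubring y = 0 :=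
          (res_eq_zero v y).2 (by rwa [Set.mem_singleton_iff.1 hy])
        exact h2 ▸ isIntegral_zero
      · refine integral_of_val _ _ fun V hV => ?_
        change V.valuation (u : L) ≤ 1
        have h2 : V.valuation (ι Γ.t)⁻¹ ≤ 1 :=
          (V.valuation_le_one_iff _).2 (hV (Set.mem_singleton _))
        have h3 : 0 < V.valuation (ι Γ.t) := zero_lt_iff.2 ((_root_.map_ne_zero _).2 ht0)
        rw [map_inv₀, inv_le_one₀ h3] at h2
        have h4 := val_le Γ V.valuation ι hf
        rw [Mx, max_eq_right h2, ← hu, map_mul, map_pow] at h4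
        exact (mul_le_iff_le_one_left (pow_pos h3 j)).1 h4
  obtain ⟨N, hN, h⟩ := pow_eq_one_of_integral hl hl0 hi fun h0 =>
    absurd ((res_eq_zero v _).1 h0) (not_lt.2 h1.ge)
  exact tor_of_res v h1.le hN h

end Res

variable {Γ}

open Classical in
/-- Kronecker's theorem for the weighted product along a curve -/
theorem kron {P : Type} (s : Finset P) {a a' : ℕ} (e : B) (w : P → B)
    (Z : P → Finset (Pt B)) (r : P → ℤ) (h : ∀ q ∈ s, Loc Γ a a' e (w q) (Z q))
    (h0 : ∑ q ∈ s, r q = 0) (h1 : ∀ x, ∑ q ∈ s with x ∈ Z q, r q = 0)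
    (hlog : ∀ φ : B →+* ℂ, φ e = 0 → ∑ q ∈ s, (r q : ℝ) * Real.log ‖φ (w q)‖ = 0)
    {g : B} {p : ℤ[X]} (hp : p ≠ 0) (hg : e * g = algebraMap ℤ[X] B p) {F : Type} [Field F]
    [CharZero F] (ψ : B →+* F) (he : ψ e = 0) :
    ∃ N : ℕ, 0 < N ∧ (∏ q ∈ s, ψ (w q) ^ r q) ^ N = 1 := by
  have halg := algebraic_of_zero Γ ψ hp hg he
  let K := IntermediateField.adjoin ℚ (insert (ψ Γ.t) (Set.range fun l => ψ (Γ.b l)))
  have hfin : Finite ↥(insert (ψ Γ.t) (Set.range fun l => ψ (Γ.b l))) :=
    ((Set.finite_range _).insert _).to_subtype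
  have : FiniteDimensional ℚ K := by
    refine IntermediateField.finiteDimensional_adjoin ?_
    rintro _ (rfl | ⟨l, rfl⟩)
    · exact (halg _).isIntegral
    · exact (halg _).isIntegral
  have : NumberField K := {}
  have hK : ∀ b, ψ b ∈ K := by
    intro b
    rw [hom_eq Γ]
    refine sum_mem fun l _ => mul_mem ?_ (IntermediateField.subset_adjoin _ _ (.inr ⟨l, rfl⟩))
    rw [aeval_eq_sum_range]
    exact sum_mem fun i _ =>
      zsmul_mem (pow_mem (IntermediateField.subset_adjoin _ _ (.inl rfl)) _) _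
  let ψ' : B →+* K := ψ.codRestrict K.toSubfield hK
  have he' : ψ' e = 0 := Subtype.ext he
  obtain ⟨N, hN, h2⟩ := NumberField.Embeddings.pow_eq_one_of_norm_eq_one K ℂ
    (row_integral s e w Z r h h0 h1 ψ' he') fun σ => by
      have h3 : (σ.comp ψ') e = 0 := by rw [RingHom.comp_apply, he', map_zero]
      have h4 := hlog _ h3
      have h5 : ∀ q ∈ s, σ (ψ' (w q)) ≠ 0 := fun q hq => (h q hq).ne_zero (σ.comp ψ') h3
      have h6 : σ (∏ q ∈ s, ψ' (w q) ^ r q) = ∏ q ∈ s, σ (ψ' (w q)) ^ r q := by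
        simp only [map_prod, map_zpow₀]
      have h7 : ‖σ (∏ q ∈ s, ψ' (w q) ^ r q)‖ ≠ 0 := by
        rw [h6, norm_ne_zero_iff]
        exact prod_ne_zero_iff.2 fun q hq => zpow_ne_zero _ (h5 q hq)
      refine Real.eq_one_of_pos_of_log_eq_zero (lt_of_le_of_ne (norm_nonneg _) h7.symm) ?_
      rw [h6, norm_prod, Real.log_prod fun q hq => norm_ne_zero_iff.2 (zpow_ne_zero _ (h5 q hq)),
        ← h4]
      exact sum_congr rfl fun q _ => by rw [norm_zpow, Real.log_zpow, RingHom.comp_apply]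
  refine ⟨N, hN, ?_⟩
  have h8 := congrArg (algebraMap K F) h2
  simp only [map_pow, map_prod, map_zpow₀, map_one] at h8
  exact h8

open Classical in
/-- in residue characteristic zero the weighted product along a curve has torsion residue -/
theorem row_tor {L : Type} [Field L] (v : Valuation L (WithZero (Multiplicative ℤ)))
    (ι : B →+* L) (hv : ∀ l : ℕ, l.Prime → v (l : L) = 1) (ht : v (ι Γ.t) ≤ 1)
    {P : Type} (s : Finset P) {a a' : ℕ} (e : B) (w : P → B)
    (Z : P → Finset (Pt B)) (r : P → ℤ) (h : ∀ q ∈ s, Loc Γ a a' e (w q) (Z q))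
    (h0 : ∑ q ∈ s, r q = 0) (h1 : ∀ x, ∑ q ∈ s with x ∈ Z q, r q = 0)
    (hlog : ∀ φ : B →+* ℂ, φ e = 0 → ∑ q ∈ s, (r q : ℝ) * Real.log ‖φ (w q)‖ = 0)
    {g : B} {p : ℤ[X]} (hp : p ≠ 0) (hg : e * g = algebraMap ℤ[X] B p) (he : v (ι e) < 1)
    (u : P → Lˣ) (hu : ∀ q, (u q : L) = ι (w q)) : ∏ q ∈ s, pi v (u q) ^ r q = 1 := by
  have : CharZero (IsLocalRing.ResidueField v.valuationSubring) := by
    refine (CharZero.charZero_iff_forall_prime_ne_zero _).2 fun l hl h0 => ?_
    rw [← map_natCast (IsLocalRing.residue v.valuationSubring), res_eq_zero] at h0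
    exact absurd (hv l hl) (ne_of_lt h0)
  let ι' : B →+* v.valuationSubring :=
    ι.codRestrict v.valuationSubring.toSubring (val_le_one Γ v ι ht)
  let ψ := (IsLocalRing.residue v.valuationSubring).comp ι'
  have he' : ψ e = 0 := (res_eq_zero v _).2 he
  obtain ⟨N, hN, h2⟩ := kron s e w Z r h h0 h1 hlog hp hg ψ he'
  have hy : ∀ q, ∃ y : (v.valuationSubring)ˣ, q ∈ s → (y : v.valuationSubring) = ι' (w q) := by
    intro q
    by_cases hq : q ∈ s
    · obtain ⟨y, hy⟩ := (IsLocalRing.residue_ne_zero_iff_isUnit _).1 ((h q hq).ne_zero ψ he')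
      exact ⟨y, fun _ => hy⟩
    · exact ⟨1, fun h' => absurd h' hq⟩
  choose y hy using hy
  have h3 : ∏ q ∈ s, u q ^ r q =
      Units.map v.valuationSubring.subtype.toMonoidHom (∏ q ∈ s, y q ^ r q) := by
    rw [map_prod]
    refine prod_congr rfl fun q hq => ?_
    rw [map_zpow]
    refine congrArg (· ^ r q) (Units.ext ?_)
    rw [hu q]
    exact (congrArg Subtype.val (hy q hq)).symm
  have h4 : IsLocalRing.residue v.valuationSubring ((∏ q ∈ s, y q ^ r q : _ˣ) : _) =
      ∏ q ∈ s, ψ (w q) ^ r q := by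
    rw [Units.coe_prod, map_prod]
    refine prod_congr rfl fun q hq => ?_
    have h5 := congrArg Units.val
      (map_zpow (Units.map (IsLocalRing.residue v.valuationSubring).toMonoidHom) (y q) (r q))
    rw [Units.val_zpow_eq_zpow_val] at h5
    refine h5.trans (congrArg (· ^ r q) ?_)
    exact congrArg (IsLocalRing.residue v.valuationSubring) (hy q hq)
  simp only [← map_zpow, ← map_prod]
  rw [h3]
  exact tor_of_res v (∏ q ∈ s, y q ^ r q : _ˣ).1.2 hN (by rw [← h4] at h2; exact h2)

end Pool.Agent.Lib.BK2.UNR
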