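import Pool.Agent.Lib.BK2.ARC

/-! BK2 section A: the variance bound for shift averages. -/

namespace Pool.Agent.Lib.BK2

open Finset

namespace Var

open Arc

variable {ι : Type} [Fintype ι]

lemma ch_add (ξ : ι → ℝ) (v w : ι → ℤ) : ch ξ (v + w) = ch ξ v * ch ξ w := by
  simp only [ch, pr_add]
  push_cast
  rw [mul_add, Complex.exp_add]

lemma ch_eq (ξ : ι → ℝ) (w : ι → ℤ) :
    ch ξ w = Complex.exp (((2 * Real.pi * pr ξ w : ℝ) : ℂ) * Complex.I) := by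
  simp only [ch]
  push_cast
  ring_nf

lemma norm_ch (ξ : ι → ℝ) (w : ι → ℤ) : ‖ch ξ w‖ = 1 := by
  rw [ch_eq, Complex.norm_exp_ofReal_mul_I]

lemma re_ch (ξ : ι → ℝ) (w : ι → ℤ) (n : ℤ) (h : |pr ξ w - n| ≤ 1 / 8) :
    1 / 2 ≤ (ch ξ w).re := by
  rw [ch_eq, Complex.exp_ofReal_mul_I_re,
    show 2 * Real.pi * pr ξ w = 2 * Real.pi * (pr ξ w - n) + n * (2 * Real.pi) by ring,
    Real.cos_add_int_mul_two_pi]
  refine le_trans ?_ Real.one_sub_sq_div_two_le_cos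
  have h1 : (pr ξ w - n) ^ 2 ≤ (1 / 8) ^ 2 := by
    rw [← sq_abs]
    exact pow_le_pow_left₀ (abs_nonneg _) h 2
  have h2 : Real.pi ^ 2 ≤ 4 ^ 2 := pow_le_pow_left₀ Real.pi_pos.le Real.pi_le_four 2
  have h3 : Real.pi ^ 2 * (pr ξ w - n) ^ 2 ≤ 4 ^ 2 * (1 / 8) ^ 2 :=
    mul_le_mul h2 h1 (sq_nonneg _) (by norm_num)
  nlinarith

omit [Fintype ι] in
lemma shift {R : Type} [Semiring R] (T D : Finset (ι → ℤ)) (g h : (ι → ℤ) → R) (v : ι → ℤ)
    (hT : ∀ w, g w ≠ 0 → w ∈ T) (hD : ∀ w, g w ≠ 0 → w + v ∈ D) :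
    ∑ w ∈ D, g (w - v) * h w = ∑ w ∈ T, g w * h (w + v) := by
  classical
  have h1 : ∑ w ∈ D, g (w - v) * h w = ∑ w ∈ D.image (fun w => w - v), g w * h (w + v) := by
    rw [Finset.sum_image (fun a _ b _ hab => sub_left_injective hab)]
    simp
  rw [h1]
  refine Finset.sum_congr_of_eq_on_inter ?_ ?_ (fun _ _ _ => rfl)
  · intro a _ ha
    have : g a = 0 := by
      by_contra hc
      exact ha (hT a hc)
    rw [this, zero_mul]
  · intro a _ ha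
    have : g a = 0 := by
      by_contra hc
      exact ha (Finset.mem_image.2 ⟨a + v, hD a hc, by simp⟩)
    rw [this, zero_mul]

lemma hat {κ : Type} (S : Finset κ) (v : κ → ι → ℤ) (T B : Finset (ι → ℤ)) (f : (ι → ℤ) → ℝ)
    (hT : ∀ w, f w ≠ 0 → w ∈ T) (hB : ∀ j ∈ S, ∀ w ∈ T, w + v j ∈ B) (ξ : ι → ℝ) :
    ∑ w ∈ B, ((∑ j ∈ S, f (w - v j) : ℝ) : ℂ) * ch ξ w =
      (∑ j ∈ S, ch ξ (v j)) * ∑ w ∈ T, (f w : ℂ) * ch ξ w := by
  push_cast
  simp only [Finset.sum_mul]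
  rw [Finset.sum_comm]
  refine Finset.sum_congr rfl fun j hj => ?_
  have hT' : ∀ w, (f w : ℂ) ≠ 0 → w ∈ T := fun w hw => hT w (by exact_mod_cast hw)
  rw [shift T B (fun w => (f w : ℂ)) (ch ξ) (v j) hT' (fun w hw => hB j hj w (hT' w hw)),
    Finset.mul_sum]
  refine Finset.sum_congr rfl fun w _ => ?_
  rw [ch_add]
  ring

lemma exists_Q (B : Finset (ι → ℤ)) :
    ∃ Q : ℕ, 0 < Q ∧ ∀ a ∈ B, ∀ b ∈ B, ∀ k, |a k - b k| < Q := by
  refine ⟨(B ×ˢ B ×ˢ (univ : Finset ι)).sup (fun x => (x.1 x.2.2 - x.2.1 x.2.2).natAbs) + 1,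
    Nat.succ_pos _, fun a ha b hb k => ?_⟩
  have := Finset.le_sup (f := fun x : (ι → ℤ) × (ι → ℤ) × ι => (x.1 x.2.2 - x.2.1 x.2.2).natAbs)
    (show (a, b, k) ∈ B ×ˢ B ×ˢ (univ : Finset ι) by simp [ha, hb])
  simp only at this
  rw [Int.abs_eq_natAbs]
  exact_mod_cast Nat.lt_succ_of_le this

/-- the operator bound from a pointwise bound on the multipliers -/
lemma op (hP : St_PARS) [DecidableEq ι] {ε τ : Type} (E : Finset ε) (S : Finset τ)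
    (v : ε → τ → ι → ℤ) (J T : Finset (ι → ℤ)) (f : (ι → ℤ) → ℝ) (hT : ∀ w, f w ≠ 0 → w ∈ T)
    (c1 c2 c3 : ℝ) (hc2 : 0 ≤ c2)
    (hm : ∀ ξ : ι → ℝ, ∑ e ∈ E, ‖∑ t ∈ S, ch ξ (v e t)‖ ^ 2 ≤ c1 + c2 * ‖∑ l ∈ J, ch ξ l‖ ^ 2)
    (hk : ∀ D : Finset (ι → ℤ), ∑ w ∈ D, (∑ l ∈ J, f (w - l)) ^ 2 ≤ c3 * ∑ w ∈ T, f w ^ 2)
    (D : ε → Finset (ι → ℤ)) :
    ∑ e ∈ E, ∑ w ∈ D e, (∑ t ∈ S, f (w - v e t)) ^ 2 ≤ (c1 + c2 * c3) * ∑ w ∈ T, f w ^ 2 := by
  classical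
  set B := T ∪ (E.biUnion fun e => S.biUnion fun t => T.image fun w => w + v e t) ∪
    J.biUnion fun l => T.image fun w => w + l with hB
  have hB0 : ∀ w ∈ T, w ∈ B := fun w hw => by simp [hB, hw]
  have hB1 : ∀ e ∈ E, ∀ t ∈ S, ∀ w ∈ T, w + v e t ∈ B := fun e he t ht w hw => by
    simp only [hB, Finset.mem_union, Finset.mem_biUnion, Finset.mem_image]
    exact Or.inl (Or.inr ⟨e, he, t, ht, w, hw, rfl⟩)
  have hB2 : ∀ l ∈ J, ∀ w ∈ T, w + l ∈ B := fun l hl w hw => by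
    simp only [hB, Finset.mem_union, Finset.mem_biUnion, Finset.mem_image]
    exact Or.inr ⟨l, hl, w, hw, rfl⟩
  obtain ⟨Q, hQ0, hQ⟩ := exists_Q B
  have hQ' : (0 : ℝ) < (Q : ℝ) ^ Fintype.card ι := by positivity
  have h1 : ∑ e ∈ E, ∑ w ∈ D e, (∑ t ∈ S, f (w - v e t)) ^ 2 ≤
      ∑ e ∈ E, ∑ w ∈ B, (∑ t ∈ S, f (w - v e t)) ^ 2 := by
    refine Finset.sum_le_sum fun e he => ?_
    rw [← Finset.sum_filter_ne_zero]
    refine Finset.sum_le_sum_of_subset_of_nonneg ?_ fun _ _ _ => sq_nonneg _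
    intro w hw
    have h2 := (Finset.mem_filter.1 hw).2
    obtain ⟨t, ht, hne⟩ := Finset.exists_ne_zero_of_sum_ne_zero (pow_ne_zero_iff two_ne_zero |>.1 h2)
    have := hB1 e he t ht _ (hT _ hne)
    simpa using this
  refine h1.trans (le_of_mul_le_mul_left ?_ hQ')
  have p0 := hP ι T f Q hQ0 fun a ha b hb => hQ a (hB0 a ha) b (hB0 b hb)
  have p2 := hP ι B (fun w => ∑ l ∈ J, f (w - l)) Q hQ0 hQ
  simp only [hat J (fun l => l) T B f hT hB2, norm_mul, mul_pow] at p2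
  have p1 : (Q : ℝ) ^ Fintype.card ι * ∑ e ∈ E, ∑ w ∈ B, (∑ t ∈ S, f (w - v e t)) ^ 2 =
      ∑ κ ∈ cube (0 : ι → ℤ) Q, (∑ e ∈ E, ‖∑ t ∈ S, ch (fun k => (κ k : ℝ) / Q) (v e t)‖ ^ 2) *
        ‖∑ w ∈ T, (f w : ℂ) * ch (fun k => (κ k : ℝ) / Q) w‖ ^ 2 := by
    simp only [Finset.sum_mul]
    rw [Finset.mul_sum, Finset.sum_comm (s := cube (0 : ι → ℤ) Q)]
    refine Finset.sum_congr rfl fun e he => ?_
    have := hP ι B (fun w => ∑ t ∈ S, f (w - v e t)) Q hQ0 hQ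
    simp only [hat S (v e) T B f hT (hB1 e he), norm_mul, mul_pow] at this
    exact this.symm
  rw [p1]
  calc _ ≤ ∑ κ ∈ cube (0 : ι → ℤ) Q, (c1 + c2 * ‖∑ l ∈ J, ch (fun k => (κ k : ℝ) / Q) l‖ ^ 2) *
        ‖∑ w ∈ T, (f w : ℂ) * ch (fun k => (κ k : ℝ) / Q) w‖ ^ 2 :=
        Finset.sum_le_sum fun κ _ => mul_le_mul_of_nonneg_right (hm _) (sq_nonneg _)
    _ = c1 * ((Q : ℝ) ^ Fintype.card ι * ∑ w ∈ T, f w ^ 2) +
        c2 * ((Q : ℝ) ^ Fintype.card ι * ∑ w ∈ B, (∑ l ∈ J, f (w - l)) ^ 2) := by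
        rw [← p0, ← p2, Finset.mul_sum, Finset.mul_sum, ← Finset.sum_add_distrib]
        exact Finset.sum_congr rfl fun κ _ => by ring
    _ ≤ c1 * ((Q : ℝ) ^ Fintype.card ι * ∑ w ∈ T, f w ^ 2) +
        c2 * ((Q : ℝ) ^ Fintype.card ι * (c3 * ∑ w ∈ T, f w ^ 2)) := by
        gcongr
        exact hk B
    _ = _ := by ring

omit [Fintype ι] in
/-- the dual form -/
lemma dual {ε τ : Type} (E : Finset ε) (S : Finset τ) (hS : S.Nonempty)
    (v : ε → τ → ι → ℤ) (T : Finset (ι → ℤ)) (f : (ι → ℤ) → ℝ) (hT : ∀ w, f w ≠ 0 → w ∈ T)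
    (F : ε → (ι → ℤ) → ℝ) (D : ε → Finset (ι → ℤ))
    (hF : ∀ e ∈ E, ∀ w, f w ≠ 0 → ∀ t ∈ S, w + v e t ∈ D e ∧ F e (w + v e t) = F e w) (c : ℝ)
    (h : ∑ e ∈ E, ∑ w ∈ D e, (∑ t ∈ S, f (w - v e t)) ^ 2 ≤ (S.card : ℝ) ^ 2 * c) :
    (∑ e ∈ E, ∑ w ∈ T, f w * F e w) ^ 2 ≤ c * ∑ e ∈ E, ∑ w ∈ D e, F e w ^ 2 := by
  have hS' : (0 : ℝ) < S.card := by exact_mod_cast hS.card_pos
  have h1 : (S.card : ℝ) * ∑ e ∈ E, ∑ w ∈ T, f w * F e w =
      ∑ e ∈ E, ∑ w ∈ D e, (∑ t ∈ S, f (w - v e t)) * F e w := by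
    rw [Finset.mul_sum]
    refine Finset.sum_congr rfl fun e he => ?_
    simp only [Finset.sum_mul]
    rw [Finset.sum_comm, ← nsmul_eq_mul, ← Finset.sum_const]
    refine Finset.sum_congr rfl fun t ht => ?_
    rw [shift T (D e) f (F e) (v e t) hT fun w hw => (hF e he w hw t ht).1]
    refine Finset.sum_congr rfl fun w _ => ?_
    by_cases hw : f w = 0
    · rw [hw, zero_mul, zero_mul]
    · rw [(hF e he w hw t ht).2]
  have h2 : (∑ e ∈ E, ∑ w ∈ D e, (∑ t ∈ S, f (w - v e t)) * F e w) ^ 2 ≤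
      (∑ e ∈ E, ∑ w ∈ D e, (∑ t ∈ S, f (w - v e t)) ^ 2) * ∑ e ∈ E, ∑ w ∈ D e, F e w ^ 2 := by
    rw [Finset.sum_sigma', Finset.sum_sigma', Finset.sum_sigma']
    exact Finset.sum_mul_sq_le_sq_mul_sq _ _ _
  have h3 : 0 ≤ ∑ e ∈ E, ∑ w ∈ D e, F e w ^ 2 :=
    Finset.sum_nonneg fun _ _ => Finset.sum_nonneg fun _ _ => sq_nonneg _
  rw [← h1, mul_pow] at h2
  refine le_of_mul_le_mul_left (h2.trans ?_) (pow_pos hS' 2)
  rw [← mul_assoc]
  exact mul_le_mul_of_nonneg_right h h3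

lemma exists_A {ι1 ι2 : Type} [DecidableEq ι] [Fintype ι1] [DecidableEq ι1] [Fintype ι2]
    [DecidableEq ι2] (mul : (ι → ℤ) →ₗ[ℤ] (ι2 → ℤ) →ₗ[ℤ] (ι1 → ℤ))
    (h1 : ∀ k, ∃ i j, mul (Pi.single i 1) (Pi.single j 1) = Pi.single k 1) :
    ∃ A : ℕ, 0 < A ∧ ∀ (u : ι → ℤ) (b : ℤ), (∀ i, |u i| ≤ b) →
      ∀ j k, |mul u (Pi.single j 1) k| ≤ A * b := by
  refine ⟨∑ j, ∑ k, ∑ i, (mul (Pi.single i 1) (Pi.single j 1) k).natAbs + 1, Nat.succ_pos _,
    fun u b hu j k => ?_⟩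
  obtain ⟨i0, -, -⟩ := h1 k
  have hb : 0 ≤ b := (abs_nonneg _).trans (hu i0)
  have e : mul u (Pi.single j 1) k = ∑ i, u i * mul (Pi.single i 1) (Pi.single j 1) k := by
    conv_lhs => rw [eq_sum_single u]
    simp only [map_sum, map_smul, LinearMap.sum_apply, LinearMap.smul_apply, Finset.sum_apply,
      Pi.smul_apply, smul_eq_mul]
  have h2 : ∑ i, (mul (Pi.single i 1) (Pi.single j 1) k).natAbs ≤
      ∑ j, ∑ k, ∑ i, (mul (Pi.single i 1) (Pi.single j 1) k).natAbs + 1 := by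
    refine le_trans ?_ (Nat.le_succ _)
    refine le_trans ?_ (Finset.single_le_sum (f := fun j => ∑ k, ∑ i,
      (mul (Pi.single i 1) (Pi.single j 1) k).natAbs) (fun _ _ => Nat.zero_le _) (mem_univ j))
    exact Finset.single_le_sum (f := fun k => ∑ i,
      (mul (Pi.single i 1) (Pi.single j 1) k).natAbs) (fun _ _ => Nat.zero_le _) (mem_univ k)
  rw [e]
  refine (Finset.abs_sum_le_sum_abs _ _).trans ?_
  calc ∑ i, |u i * mul (Pi.single i 1) (Pi.single j 1) k|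
      ≤ ∑ i, ((mul (Pi.single i 1) (Pi.single j 1) k).natAbs : ℤ) * b := by
        refine Finset.sum_le_sum fun i _ => ?_
        rw [abs_mul, mul_comm, Int.natCast_natAbs]
        exact mul_le_mul_of_nonneg_left (hu i) (abs_nonneg _)
    _ = ((∑ i, (mul (Pi.single i 1) (Pi.single j 1) k).natAbs : ℕ) : ℤ) * b := by
        rw [← Finset.sum_mul]; push_cast; rfl
    _ ≤ _ := mul_le_mul_of_nonneg_right (by exact_mod_cast h2) hb

lemma norm_sum_ch_le {κ : Type} (S : Finset κ) (ξ : ι → ℝ) (v : κ → ι → ℤ) :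
    ‖∑ t ∈ S, ch ξ (v t)‖ ≤ S.card := by
  refine (norm_sum_le _ _).trans ?_
  simp [norm_ch]

/-- the multiplier dichotomy -/
lemma mult {ε : Type} (E : Finset ε) (d : ε → ℝ) (n η x : ℝ) (hn : 0 ≤ n) (hη : 0 ≤ η)
    (hx : 0 ≤ x) (hd : ∀ e, 0 ≤ d e ∧ d e ≤ n)
    (h : ∀ G ⊆ E, G.Nonempty → η * E.card ≤ G.card → (∀ e ∈ G, η * n ≤ d e) → 1 ≤ x) :
    ∑ e ∈ E, d e ^ 2 ≤ n ^ 2 * E.card * (2 * η + x) := by
  classical
  have h0 : ∀ e, d e ^ 2 ≤ n ^ 2 := fun e => pow_le_pow_left₀ (hd e).1 (hd e).2 2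
  by_cases hx1 : 1 ≤ x
  · calc ∑ e ∈ E, d e ^ 2 ≤ ∑ _e ∈ E, n ^ 2 := Finset.sum_le_sum fun e _ => h0 e
      _ = n ^ 2 * E.card * 1 := by rw [Finset.sum_const, nsmul_eq_mul]; ring
      _ ≤ _ := mul_le_mul_of_nonneg_left (by linarith) (by positivity)
  · set G := E.filter fun e => η * n ≤ d e with hG
    have hc : (G.card : ℝ) ≤ η * E.card := by
      by_contra hc
      push Not at hc
      refine hx1 (h G (Finset.filter_subset _ _) ?_ hc.le fun e he => (Finset.mem_filter.1 he).2)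
      rw [← Finset.card_pos]
      have : (0 : ℝ) < G.card := lt_of_le_of_lt (by positivity) hc
      exact_mod_cast this
    calc ∑ e ∈ E, d e ^ 2 ≤ ∑ e ∈ E, (η * n ^ 2 + if η * n ≤ d e then n ^ 2 else 0) := by
          refine Finset.sum_le_sum fun e _ => ?_
          split_ifs with he
          · have := h0 e
            have : 0 ≤ η * n ^ 2 := by positivity
            linarith
          · push Not at he
            have := hd e
            nlinarith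
      _ = η * n ^ 2 * E.card + n ^ 2 * G.card := by
          rw [Finset.sum_add_distrib, ← Finset.sum_filter, Finset.sum_const, Finset.sum_const,
            nsmul_eq_mul, nsmul_eq_mul]
          ring
      _ ≤ η * n ^ 2 * E.card + n ^ 2 * (η * E.card) := by gcongr
      _ = n ^ 2 * E.card * (2 * η + 0) := by ring
      _ ≤ _ := mul_le_mul_of_nonneg_left (by linarith) (by positivity)

lemma n1 {s d σ : ℕ} (h : s < d * (σ + 1)) (h0 : 0 < σ) : s ≤ 2 * (d * σ) := by nlinarith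

lemma n2 {x c : ℝ} (h : 0 < x) (h6 : 1 ≤ c) : 1 * (4 * x) ≤ 4 * x * c := by nlinarith

lemma n3 {x y : ℝ} (h : 4 * y ^ 2 ≤ x) : y * (16 * y) ≤ 1 * (4 * x) := by nlinarith

lemma n4 {y : ℝ} (a b : ℝ) (h : 2 ≤ y) : 1 + y * a * b ≤ y * (1 + a * b) := by nlinarith

lemma n5 {j x : ℝ} (hj : 0 < j) (h : j / 2 ≤ x) : 1 * j ^ 2 ≤ 4 * x ^ 2 := by nlinarith

lemma n6 {y : ℝ} (a : ℝ) (h : 0 < y) : 2 * a * y ≤ 1 * (2 * (a + 1) * y) := by nlinarith

lemma n7 {x y : ℝ} (h0 : 0 ≤ x) (h1 : x ≤ y) (h2 : y ≤ 1) : x ^ 2 ≤ y := by nlinarith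

end Var

open Arc Var in
theorem stVAR (hP : St_PARS) (hD : St_DIR) (hK : St_KERN) (hA : St_ARC) : St_VAR := by
  intro ι ι1 ι2 _ _ _ _ _ _ mul h1 δ hδ
  classical
  obtain ⟨A, hA0, hAb⟩ := exists_A mul h1
  set r := Fintype.card ι with hr
  set r1 := Fintype.card ι1 with hr1
  set A2 : ℕ := (Fintype.card ι2 + 1) * A with hA2
  have hA20 : 0 < A2 := Nat.mul_pos (Nat.succ_pos _) hA0
  have hA2' : (0 : ℝ) < A2 := by exact_mod_cast hA20
  set K : ℝ := 4 * A2 + 16 * A2 * (1 + r1 * A) / δ + 256 * A2 * (r1 * (r1 + 1)) / δ +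
    (4 * 6 ^ r + 4) with hKdef
  have k1 : (0 : ℝ) ≤ 4 * A2 := by positivity
  have k2 : (0 : ℝ) < 16 * A2 * (1 + r1 * A) / δ := by positivity
  have k3 : (0 : ℝ) ≤ 256 * A2 * (r1 * (r1 + 1)) / δ := by positivity
  have k4 : (0 : ℝ) ≤ 4 * 6 ^ r := by positivity
  have hK1 : 4 * (A2 : ℝ) ≤ K := by linarith
  have hK2 : 16 * A2 * (1 + r1 * A) / δ ≤ K := by linarith
  have hK3 : 256 * A2 * (r1 * (r1 + 1)) / δ ≤ K := by linarith
  have hK4 : 4 * 6 ^ r + 4 ≤ K := by linarith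
  refine ⟨K, by linarith, ?_⟩
  intro Y M0 M L P H sE s sp e0 aE a Λ Λ' hY hM0 hM hL hP0 hH hq hcop hΛ hΛ' hcl hbox hδH hsE
    hs1 hs2 hs3 hsp T f hf hsum F D hF
  have hY' : (2 : ℝ) ≤ Y := by exact_mod_cast hY
  have hY0 : (0 : ℝ) < Y := by linarith
  have hM0' : (0 : ℝ) < M0 := by exact_mod_cast hM0
  have hM' : (0 : ℝ) < M := by exact_mod_cast hM
  have hL' : (0 : ℝ) < L := by exact_mod_cast hL
  have hP' : (0 : ℝ) < P := by exact_mod_cast hP0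
  have hH' : (0 : ℝ) < H := by exact_mod_cast hH
  have hsE0 : (0 : ℝ) < sE := lt_of_lt_of_le (by positivity) hδH
  have hK0 : 0 < K := by linarith
  have hs0 : (0 : ℝ) < s := lt_of_lt_of_le (by positivity) hs1
  set σ := s / (A2 * M * H) with hσ
  have hden : 0 < A2 * M * H := by positivity
  have hσ1 : 4 * Y ^ 2 ≤ σ := by
    refine (Nat.le_div_iff_mul_le hden).2 ?_
    have : (4 * A2 : ℝ) * M * H * Y ^ 2 ≤ s := le_trans (by gcongr) hs1
    have h' : ((4 * Y ^ 2 * (A2 * M * H) : ℕ) : ℝ) ≤ s := by push_cast; linarith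
    exact_mod_cast h'
  have hσ0 : 0 < σ := lt_of_lt_of_le (by positivity) hσ1
  have hσ1' : 4 * (Y : ℝ) ^ 2 ≤ σ := by exact_mod_cast hσ1
  have hσ0' : (0 : ℝ) < σ := by exact_mod_cast hσ0
  have hσ2 : A2 * M * H * σ ≤ s := Nat.mul_div_le _ _
  have hσ3 : (s : ℝ) ≤ 2 * (A2 * M * H * σ) := by
    have h := Nat.lt_mul_div_succ s hden
    rw [← hσ] at h
    have h' : s ≤ 2 * (A2 * M * H * σ) := n1 h hσ0
    exact_mod_cast h'
  set η : ℝ := 2 * 6 ^ r / Y with hη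
  have hη0 : 0 < η := by positivity
  have h6 : (1 : ℝ) ≤ 6 ^ r := one_le_pow₀ (by norm_num)
  set e1 : ℝ := 1 / (2 * σ * η) with he1
  have he10 : 0 < e1 := by positivity
  have he11 : e1 ≤ Y / (4 * σ) := by
    rw [he1, hη, div_le_div_iff₀ (by positivity) (by positivity)]
    rw [show (Y : ℝ) * (2 * σ * (2 * 6 ^ r / Y)) = 4 * σ * 6 ^ r by field_simp; norm_num]
    exact n2 hσ0' h6
  have he12 : e1 ≤ 1 / (16 * Y) := by
    refine he11.trans ?_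
    rw [div_le_div_iff₀ (by positivity) (by positivity)]
    exact n3 hσ1'
  set ρ : ℝ := 8 * A2 * Y ^ 3 / (δ * s) with hρ
  have hρ0 : 0 < ρ := by positivity
  have hρ1 : 16 * (Y : ℝ) ^ 2 * e1 / (M * sE) ≤ ρ := by
    calc 16 * (Y : ℝ) ^ 2 * e1 / (M * sE) ≤ 16 * (Y : ℝ) ^ 2 * (Y / (4 * σ)) / (M * (δ * H)) := by
          gcongr
      _ = 8 * A2 * Y ^ 3 / (δ * (2 * (A2 * M * H * σ))) := by field_simp; norm_num
      _ ≤ ρ := by rw [hρ]; gcongr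
  have hρ2 : ρ * M * L * (P : ℝ) ^ 2 * M0 * (1 + Y * r1 * A) < 1 := by
    have h2 : 1 + (Y : ℝ) * r1 * A ≤ Y * (1 + r1 * A) := n4 _ _ hY'
    have h3 : 16 * A2 * (1 + r1 * A) / δ * M * L * (P : ℝ) ^ 2 * M0 * Y ^ 4 ≤ s :=
      le_trans (by gcongr) hs2
    calc ρ * M * L * (P : ℝ) ^ 2 * M0 * (1 + Y * r1 * A)
        ≤ ρ * M * L * (P : ℝ) ^ 2 * M0 * (Y * (1 + r1 * A)) := by gcongr
      _ = (16 * A2 * (1 + r1 * A) / δ * M * L * (P : ℝ) ^ 2 * M0 * Y ^ 4) / (2 * s) := by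
          rw [hρ]; field_simp; norm_num
      _ ≤ s / (2 * s) := by gcongr
      _ < 1 := by rw [div_lt_one (by positivity)]; linarith
  set N : ℕ := 2 * (r1 + 1) * Y with hN
  have hN0 : 0 < N := by positivity
  have hρ3 : r1 * (ρ * (2 * N * sp)) ≤ 1 / 8 := by
    have h3 : 256 * A2 * (r1 * (r1 + 1)) / δ * (Y : ℝ) ^ 4 * sp ≤ s := le_trans (by gcongr) hs3
    calc r1 * (ρ * (2 * N * sp))
        = (256 * A2 * (r1 * (r1 + 1)) / δ * (Y : ℝ) ^ 4 * sp) / (8 * s) := by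
          rw [hρ, hN]; push_cast; field_simp; ring
      _ ≤ s / (8 * s) := by gcongr
      _ = 1 / 8 := by field_simp
  obtain ⟨J, hJ0, hJ, hJk⟩ := hK ι1 Λ' P (M * L) sp N a hP0 (Nat.mul_pos hM hL) hN0 hΛ' hsp
  have hJ' : (0 : ℝ) < J.card := by exact_mod_cast hJ0.card_pos
  set E := fam aE sE M0 e0 Λ with hE
  set S := cube (0 : ι2 → ℤ) σ with hS
  have hSc : (S.card : ℝ) = (σ : ℝ) ^ Fintype.card ι2 := by rw [hS, card_cube]; push_cast; rfl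
  have hS0 : S.Nonempty := ⟨0, mem_cube.2 fun i => ⟨le_rfl, by simpa using hσ0⟩⟩
  have hm : ∀ ξ : ι1 → ℝ, ∑ e ∈ E, ‖∑ t ∈ S, ch ξ ((M : ℤ) • mul e t)‖ ^ 2 ≤
      (S.card : ℝ) ^ 2 * E.card * (2 * η) +
        (S.card : ℝ) ^ 2 * E.card * (4 / (J.card : ℝ) ^ 2) * ‖∑ l ∈ J, ch ξ l‖ ^ 2 := by
    intro ξ
    refine (mult E (fun e => ‖∑ t ∈ S, ch ξ ((M : ℤ) • mul e t)‖) S.card η
      (4 / (J.card : ℝ) ^ 2 * ‖∑ l ∈ J, ch ξ l‖ ^ 2) (Nat.cast_nonneg _) hη0.le (by positivity)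
      (fun e => ⟨norm_nonneg _, norm_sum_ch_le S ξ _⟩) ?_).trans (le_of_eq (by ring))
    intro G hG hne hc hg
    obtain ⟨ξ0, hξ0, hz⟩ := hA ι ι1 ι2 mul A h1 hAb Y M0 M L P sE e0 aE Λ Λ' hY hM0 hM hL hP0
      hq hcop hΛ hΛ' hcl hsE ξ e1 ρ he10 he12 hρ1 hρ2 G hG hne hc (fun e he j => by
        refine hD ι2 (fun j => M * pr ξ (mul e (Pi.single j 1))) σ η hσ0 hη0 ?_ j
        have := hg e he
        rw [hSc] at this
        refine this.trans (le_of_eq ?_)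
        refine congrArg _ (Finset.sum_congr rfl fun t _ => ?_)
        simp only [ch]
        refine congrArg (fun x : ℝ => Complex.exp (2 * Real.pi * Complex.I * x)) ?_
        rw [pr_smul]
        conv_lhs => rw [eq_sum_single t, map_sum, pr_sum, Finset.mul_sum]
        simp only [map_smul, pr_smul]
        simp only [pr]
        refine Finset.sum_congr rfl fun j _ => ?_
        push_cast
        ring)
    have hre : (J.card : ℝ) / 2 ≤ ‖∑ l ∈ J, ch ξ l‖ := by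
      refine le_trans ?_ (Complex.re_le_norm _)
      rw [Complex.re_sum]
      calc (J.card : ℝ) / 2 = ∑ _l ∈ J, (1 / 2 : ℝ) := by
            rw [Finset.sum_const, nsmul_eq_mul]; ring
        _ ≤ _ := Finset.sum_le_sum fun l hl => ?_
      obtain ⟨hl1, hl2, hl3⟩ := hJ l hl
      obtain ⟨n, hn⟩ := hz l hl1 hl2
      refine re_ch ξ l n ?_
      rw [← hn]
      refine (pr_sub_le ξ ξ0 ρ (2 * N * sp) l hξ0 fun k => ?_).trans hρ3
      have h' : ((|l k| : ℤ) : ℝ) ≤ ((2 * N * sp : ℤ) : ℝ) := Int.cast_le.2 (hl3 k)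
      push_cast at h'
      exact h'
    rw [div_mul_eq_mul_div, le_div_iff₀ (by positivity)]
    exact n5 hJ' hre
  have hop := op hP E S (fun e t => (M : ℤ) • mul e t) J T f (fun w hw => (hf w hw).1) _ _ _
    (by positivity) hm (hJk T f hf hsum) D
  refine dual E S hS0 (fun e t => (M : ℤ) • mul e t) T f (fun w hw => (hf w hw).1) F D
    (fun e he w hw t ht => hF e he w hw t fun k => ?_) _ (hop.trans ?_)
  · have he' : e ∈ cube aE sE := mem_cube.2 (mem_fam.1 he).1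
    have ht' := mem_cube.1 ht
    have h2 : |mul e t k| ≤ Fintype.card ι2 * (σ * (A * H)) := by
      have e' : mul e t k = ∑ j, t j * mul e (Pi.single j 1) k := by
        conv_lhs => rw [eq_sum_single t]
        simp only [map_sum, map_smul, Finset.sum_apply, Pi.smul_apply, smul_eq_mul]
      rw [e']
      refine (Finset.abs_sum_le_sum_abs _ _).trans ?_
      calc ∑ j, |t j * mul e (Pi.single j 1) k| ≤ ∑ _j : ι2, (σ : ℤ) * (A * H) := by
            refine Finset.sum_le_sum fun j _ => ?_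
            rw [abs_mul]
            have h3 := ht' j
            simp only [Pi.zero_apply, zero_add] at h3
            refine mul_le_mul ?_ (hAb e H (hbox e he') j k) (abs_nonneg _) (by positivity)
            rw [abs_of_nonneg h3.1]
            exact h3.2.le
        _ = _ := by simp
    rw [abs_mul, Nat.abs_cast]
    have h4 : ((A2 * M * H * σ : ℕ) : ℤ) ≤ s := by exact_mod_cast hσ2
    rw [hA2] at h4
    push_cast at h4
    calc (M : ℤ) * |mul e t k| ≤ M * (Fintype.card ι2 * (σ * (A * H))) := by gcongr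
      _ ≤ M * ((Fintype.card ι2 + 1) * (σ * (A * H))) := by gcongr; linarith
      _ ≤ s := by linarith
  · have hT0 : 0 ≤ ∑ w ∈ T, f w ^ 2 := Finset.sum_nonneg fun _ _ => sq_nonneg _
    have h2 : 2 * η + 4 * (2 * r1 / N) ^ 2 ≤ K / Y := by
      have h3 : (2 * r1 / N : ℝ) ≤ 1 / Y := by
        rw [hN, div_le_div_iff₀ (by positivity) hY0]
        push_cast
        exact n6 _ hY0
      have h4 : (2 * r1 / N : ℝ) ^ 2 ≤ 1 / Y := by
        have h5 : (1 / Y : ℝ) ≤ 1 := by rw [div_le_one hY0]; linarith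
        exact n7 (by positivity) h3 h5
      calc 2 * η + 4 * (2 * r1 / N) ^ 2 ≤ 2 * η + 4 * (1 / Y) := by linarith
        _ = (4 * 6 ^ r + 4) / Y := by rw [hη]; ring
        _ ≤ K / Y := by gcongr
    calc _ = (S.card : ℝ) ^ 2 * ((2 * η + 4 * (2 * r1 / N) ^ 2) * E.card * ∑ w ∈ T, f w ^ 2) := by
          rw [← hr1]
          field_simp
      _ ≤ _ := by gcongr

end Pool.Agent.Lib.BK2
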