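import Pool.Agent.Lib.BK2.WMa

/-! The model on the big curves: single points. -/

namespace Pool.Agent.Lib.BK2.WM1

open Finset WM WMa Classical

variable {D : SD} {K c1 eps del : ℝ}

theorem sum_flags (h : D.Hyp K c1 eps del) (f : D.TW → D.TX → ℝ) :
    ∑ w ∈ D.W, ∑ x ∈ D.onW w, f w x = ∑ x ∈ D.X, ∑ w ∈ D.W with x ∈ D.onW w, f w x :=
  sum_comm' fun w x => by
    simp only [mem_filter]
    exact ⟨fun k => ⟨k, h.onW_sub w k.2⟩, fun k => k.1⟩

theorem cnt (h : D.Hyp K c1 eps del) {x : D.TX} (hx : x ∈ D.X) :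
    (D.p x : ℝ) * (D.W.filter fun w => x ∈ D.onW w).card ≤ 2 * D.W.card := by
  rw [card_eq_sum_card_fiberwise (f := D.cell) (t := D.W.image D.cell)
    (fun w hw => mem_image_of_mem _ hw), card_eq_sum_card_fiberwise (f := D.cell)
    (t := D.W.image D.cell) (s := D.W.filter _)
    (fun w hw => mem_image_of_mem _ (mem_filter.1 hw).1), Nat.cast_sum, Nat.cast_sum, mul_sum,
    mul_sum]
  refine sum_le_sum fun c _ => ?_
  have := (abs_le.1 (h.cntW1 c x hx)).2
  rw [filter_comm]
  have h1 : del * (D.fib c).card ≤ 1 * (D.fib c).card :=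
    mul_le_mul_of_nonneg_right (by linarith [h.hde, h.he1]) (Nat.cast_nonneg _)
  unfold SD.fib at *
  linarith

theorem zero1 (h : D.Hyp K c1 eps del) {e : D.TE} (he : e ∈ D.G) {x : D.TX} (hx : x ∉ D.Maj e)
    (T : Finset D.TW) : ∑ w ∈ T with x ∈ D.Z e w, D.om e w = 0 :=
  sum_eq_zero fun w hw => by_contra fun k => hx (h.Z_Maj e he w k (mem_filter.1 hw).2)

theorem up1 (h : D.Hyp K c1 eps del) {e : D.TE} (he : e ∈ D.G) {x : D.TX} (hx : x ∈ D.X) :
    ∑ w ∈ D.Wp with x ∈ D.Z e w, D.om e w ≤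
      if x ∈ D.onE e then 2 * D.k * D.mu x * K * D.W.card else 0 := by
  have hm := h.mu_pos x hx
  have hK := h.hK
  by_cases k : x ∈ D.Maj e
  · rw [if_pos (h.Maj_sub e he k), sum_filter]
    have := sum_Wp (D := D) (fun w => if x ∈ D.Z e w then D.om e w else 0) (2 * D.k * D.mu x)
      fun c => by
        have a := (abs_le.1 (h.emod1 e he c x k)).2
        rw [← sum_filter]
        have b : 0 ≤ D.k * D.mu x * (D.fibp c).card := by positivity
        nlinarith [mul_le_mul_of_nonneg_right (h.d1_mem x hx).2 b,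
          mul_le_mul_of_nonneg_right h.he1 b]
    exact this.trans ((mul_le_mul_of_nonneg_left h.cardWp (by positivity)).trans_eq (by ring))
  · rw [zero1 h he k]
    positivity

theorem dv1 (h : D.Hyp K c1 eps del) {x : D.TX} (hx : x ∈ D.X) (A : Finset D.TE) (hA : A ⊆ D.G) :
    ∑ w ∈ D.W with x ∈ D.onW w, (∑ e ∈ A with x ∈ D.Z e w, D.om e w -
      cmean (D.W.filter fun w => x ∈ D.onW w) D.cell
        (fun w => ∑ e ∈ A with x ∈ D.Z e w, D.om e w) w) ^ 2 ≤
      2 * K * del * D.k * D.mu x ^ 2 * D.G.card * D.W.card * (A.filter fun e => x ∈ D.onE e).card := by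
  have := dv h {x} (singleton_subset_iff.2 hx) (by simp) (by simp) A hA (fun _ Y => x ∈ Y)
    (fun _ _ => singleton_subset_iff.2) (D.W.filter fun w => x ∈ D.onW w) (by simp)
  rw [prod_singleton] at this
  refine this.trans ?_
  have h1 := sum_le_sum fun e he => up1 h (hA he) hx
  rw [← sum_filter, sum_const, nsmul_eq_mul] at h1
  exact (mul_le_mul_of_nonneg_left h1 (mul_nonneg (mul_nonneg h.hd.le (Nat.cast_nonneg _))
    (h.mu_pos x hx).le)).trans_eq (by ring)

theorem low1 (h : D.Hyp K c1 eps del) {x : D.TX} (hx : x ∈ D.X) {w : D.TW}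
    (hw : w ∈ D.W.filter fun w => x ∈ D.onW w) : ∃ q : ℝ, 0 ≤ q ∧ |q - D.p x| ≤ del * q ∧
      ∀ A ⊆ D.G, |cmean (D.W.filter fun w => x ∈ D.onW w) D.cell
        (fun w => ∑ e ∈ A with x ∈ D.Z e w, D.om e w) w -
          q * (D.k * D.d1 x * D.mu x) * (A.filter fun e => x ∈ D.Maj e).card| ≤
        q * (eps * D.k * D.mu x) * (A.filter fun e => x ∈ D.Maj e).card := by
  set T := (D.fib (D.cell w)).filter fun w => x ∈ D.onW w with hT
  have e0 : (D.W.filter fun w => x ∈ D.onW w).filter (fun v => D.cell v = D.cell w) = T :=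
    filter_comm _ _ _
  have h0 : (0 : ℝ) < T.card := Nat.cast_pos.2 (card_pos.2 ⟨w, e0 ▸ mem_filter.2 ⟨hw, rfl⟩⟩)
  refine ⟨(D.fib (D.cell w)).card / T.card, by positivity, ?_, fun A hA => ?_⟩
  · have := h.cntW1 (D.cell w) x hx
    rw [div_sub' h0.ne', abs_div, abs_of_pos h0, ← mul_div_assoc, abs_sub_comm, mul_comm (T.card : ℝ)]
    gcongr
  have e1 : ∑ v ∈ T, ∑ e ∈ A with x ∈ D.Z e v, D.om e v =
      ∑ e ∈ A with x ∈ D.Maj e, ∑ v ∈ D.fibp (D.cell w) with x ∈ D.Z e v, D.om e v := by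
    rw [sum_filter_of_ne fun e he k => by_contra fun l => k (zero1 h (hA he) l _),
      ← fib_eq h (mem_filter.1 hw).1]
    simp only [sum_filter (s := A)]
    rw [sum_comm]
    refine sum_congr rfl fun e he => ?_
    rw [← sum_filter, hT, filter_comm]
    exact sum_filter_of_ne fun v hv k => h.Z_onW e (hA he) v k (mem_filter.1 hv).2
  unfold cmean
  rw [e0, e1, fib_eq h (mem_filter.1 hw).1]
  have e2 : ∀ a b s n : ℝ, a / T.card - s / T.card * b * n = (a - n * (b * s)) / T.card :=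
    fun a b s n => by ring
  rw [e2, ← nsmul_eq_mul, ← sum_const, ← sum_sub_distrib, abs_div, abs_of_pos h0, div_le_iff₀ h0]
  refine (abs_sum_le_sum_abs _ _).trans ((sum_le_card_nsmul _ _ _ fun e he =>
    h.emod1 e (hA (mem_filter.1 he).1) _ x (mem_filter.1 he).2).trans_eq ?_)
  rw [nsmul_eq_mul]
  field_simp

theorem q_le (h : D.Hyp K c1 eps del) {q p : ℝ} (h0 : 0 ≤ q) (h1 : |q - p| ≤ del * q) :
    q ≤ 100 / 99 * p := by
  have := (abs_le.1 h1).2
  nlinarith [mul_le_mul_of_nonneg_right (h.hde.trans h.he1) h0]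

theorem dual (h : D.Hyp K c1 eps del) (A : Finset D.TE) (hA : A ⊆ D.G) :
    ∑ x ∈ D.X, (D.p x * ((A.filter fun e => x ∈ D.onE e).card : ℝ) - A.card) ^ 2 * D.mub x ≤
      del * D.G.card * A.card :=
  dual_sm' D.G A D.X (fun e x => x ∈ D.onE e) D.mu (fun x => D.p x) del hA
    h.G_ne h.hd.le (fun x hx => (h.mu_pos x hx).le)
    (fun x hx => Nat.cast_pos.2 (h.p_pos x hx)) fun g => by
      have : ∀ e, D.X.filter (fun x => x ∈ D.onE e) = D.onE e := fun e => by
        rw [filter_mem_eq_inter, inter_eq_right.2 (h.onE_sub e)]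
      simp only [this]
      exact h.smE g

theorem wm1_b (h : D.Hyp K c1 eps del) (hd : K ^ 2 * del ≤ 1) :
    ∑ w ∈ D.W, ∑ x ∈ D.onW w, (∑ e ∈ D.G with x ∈ D.Z e w, D.om e w) ^ 2 / D.mu x ≤
      1000 * D.k ^ 2 * D.G.card ^ 2 * D.W.card := by
  have hk : (2 : ℝ) ≤ D.k := by exact_mod_cast h.hk
  rw [sum_flags h]
  refine le_trans (sum_le_sum (g := fun x => D.k ^ 2 * D.W.card * (36 * D.G.card ^ 2 * D.mub x +
    32 * ((D.p x * ((D.G.filter fun e => x ∈ D.onE e).card : ℝ) - D.G.card) ^ 2 * D.mub x)))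
    fun x hx => ?_) ?_
  swap
  · rw [← mul_sum, sum_add_distrib, ← mul_sum, ← mul_sum, h.prob]
    have a := dual h D.G subset_rfl
    have b : del * D.G.card * D.G.card ≤ D.G.card ^ 2 := by
      nlinarith [h.hde, h.he1, sq_nonneg (D.G.card : ℝ)]
    refine (mul_le_mul_of_nonneg_left (?_ : _ ≤ 1000 * (D.G.card : ℝ) ^ 2) (by positivity)).trans_eq
      (by ring)
    nlinarith [sq_nonneg (D.G.card : ℝ)]
  have hm := h.mu_pos x hx
  have hK := h.hK
  have hp : (0 : ℝ) < D.p x := Nat.cast_pos.2 (h.p_pos x hx)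
  have hE := h.cntE x hx
  set n : ℝ := ((D.G.filter fun e => x ∈ D.onE e).card : ℝ) with hn
  have n0 : 0 ≤ n := Nat.cast_nonneg _
  have := sq_sum_le _ _ _ _ (2 * D.k * D.mu x * (D.p x * n)) (dv1 h hx D.G subset_rfl)
    fun w hw => by
      obtain ⟨q, q0, q1, q2⟩ := low1 h hx hw
      have a := abs_le.1 (q2 D.G subset_rfl)
      have b : ((D.G.filter fun e => x ∈ D.Maj e).card : ℝ) ≤ n :=
        Nat.cast_le.2 (card_le_card fun e he =>
        mem_filter.2 ⟨(mem_filter.1 he).1, h.Maj_sub e (mem_filter.1 he).1 (mem_filter.1 he).2⟩)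
      have c : q * (D.G.filter fun e => x ∈ D.Maj e).card ≤ 100 / 99 * (D.p x * n) :=
        (mul_le_mul (q_le h q0 q1) b (Nat.cast_nonneg _) (by positivity)).trans_eq (by ring)
      have d : 0 ≤ q * (D.G.filter fun e => x ∈ D.Maj e).card * (D.k * D.mu x) := by positivity
      have e := mul_le_mul_of_nonneg_right c (show 0 ≤ D.k * D.mu x by positivity)
      have f : 0 ≤ D.k * D.mu x * (D.p x * n) := by positivity
      rw [abs_le]
      constructor <;> nlinarith [mul_le_mul_of_nonneg_right (h.d1_mem x hx).2 d,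
        mul_le_mul_of_nonneg_right (h.d1_mem x hx).1 d, mul_le_mul_of_nonneg_right h.he1 d]
  rw [← sum_div, div_le_iff₀ hm, SD.mub, ← mul_le_mul_iff_left₀ hp]
  have a := mul_le_mul_of_nonneg_left hE
    (show 0 ≤ 4 * K * del * D.k * D.mu x ^ 2 * D.G.card * D.W.card by have := h.hd; positivity)
  have b := mul_le_mul_of_nonneg_left (cnt h hx)
    (show 0 ≤ 2 * (2 * D.k * D.mu x * (D.p x * n)) ^ 2 by positivity)
  have c : K ^ 2 * del * D.k ≤ D.k ^ 2 := by nlinarith
  have d := mul_le_mul_of_nonneg_right c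
    (show 0 ≤ 4 * D.mu x ^ 2 * D.G.card ^ 2 * D.W.card by positivity)
  have e : D.k ^ 2 * D.W.card * (36 * D.G.card ^ 2 * (D.mu x / D.p x) +
      32 * ((D.p x * n - D.G.card) ^ 2 * (D.mu x / D.p x))) * D.mu x * D.p x =
      D.k ^ 2 * D.W.card * D.mu x ^ 2 * (36 * D.G.card ^ 2 + 32 * (D.p x * n - D.G.card) ^ 2) := by
    field_simp
  have f : (D.p x * n) ^ 2 ≤ 2 * D.G.card ^ 2 + 2 * (D.p x * n - D.G.card) ^ 2 := by
    nlinarith [sq_nonneg (D.p x * n - 2 * D.G.card)]
  have g := mul_le_mul_of_nonneg_left f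
    (show 0 ≤ 16 * (D.k ^ 2 * D.W.card * D.mu x ^ 2) by positivity)
  rw [e]
  nlinarith [mul_le_mul_of_nonneg_right this hp.le]

/-- the points at which the family of small curves is irregular -/
def Bad (D : SD) (eps : ℝ) (x : D.TX) : Prop :=
  eps / 8 * D.G.card < ∑ t, |D.p x * (((D.Gt t).filter fun e => x ∈ D.onE e).card : ℝ) -
    (D.Gt t).card| ∨
  eps / 8 * D.G.card < D.p x * ((D.G.filter fun e => x ∈ D.onE e \ D.Maj e).card : ℝ)

theorem b_pos (h : D.Hyp K c1 eps del) : (1 : ℝ) ≤ D.b :=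
  let ⟨e, _⟩ := h.G_ne; Nat.one_le_cast.2 (D.ecell e).pos

theorem bad_mass (h : D.Hyp K c1 eps del) :
    ∑ x ∈ D.X with Bad D eps x, D.mub x ≤ 72 * D.b * del / eps ^ 2 := by
  have hG : (0 : ℝ) < D.G.card := Nat.cast_pos.2 h.G_ne.card_pos
  have he := h.he
  have hd := h.hd
  have hp : ∀ x ∈ D.X, (0 : ℝ) < D.p x := fun x hx => Nat.cast_pos.2 (h.p_pos x hx)
  have hm : ∀ x ∈ D.X, 0 ≤ D.mub x := fun x hx => div_nonneg (h.mu_pos x hx).le (hp x hx).le
  have h1 := fun t => dual h (D.Gt t) (filter_subset _ _)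
  have h2 := markov D.X (fun x => eps / 8 * D.G.card < ∑ t, |D.p x *
      (((D.Gt t).filter fun e => x ∈ D.onE e).card : ℝ) - (D.Gt t).card|) D.mub
    (fun x => D.b * ∑ t, (D.p x * (((D.Gt t).filter fun e => x ∈ D.onE e).card : ℝ) -
      (D.Gt t).card) ^ 2 * D.mub x) ((eps / 8 * D.G.card) ^ 2) (by positivity)
    (fun x hx => mul_nonneg (Nat.cast_nonneg _)
      (sum_nonneg fun _ _ => mul_nonneg (sq_nonneg _) (hm x hx))) fun x hx k => by
      have := sq_sum_le_card_mul_sum_sq (s := univ) (f := fun t => |D.p x *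
        (((D.Gt t).filter fun e => x ∈ D.onE e).card : ℝ) - (D.Gt t).card|)
      simp only [sq_abs, card_univ, Fintype.card_fin] at this
      rw [← sum_mul, ← mul_assoc]
      exact mul_le_mul_of_nonneg_right
        ((pow_le_pow_left₀ (by positivity) k.le 2).trans this) (hm x hx)
  have h3 := markov D.X (fun x => eps / 8 * D.G.card <
      D.p x * ((D.G.filter fun e => x ∈ D.onE e \ D.Maj e).card : ℝ)) D.mub
    (fun x => ∑ e ∈ D.G with x ∈ D.onE e \ D.Maj e, D.mu x) (eps / 8 * D.G.card) (by positivity)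
    (fun x hx => sum_nonneg fun _ _ => (h.mu_pos x hx).le) fun x hx k => by
      refine (mul_le_mul_of_nonneg_right k.le (hm x hx)).trans_eq ?_
      have := (hp x hx).ne'
      rw [sum_const, nsmul_eq_mul, SD.mub]
      field_simp
  have h4 : ∑ x ∈ D.X, ∑ e ∈ D.G with x ∈ D.onE e \ D.Maj e, D.mu x ≤ del * D.G.card := by
    rw [← sum_comm' (s := D.G) (t := fun e => D.onE e \ D.Maj e) fun e x => by
      simp only [mem_filter]
      exact ⟨fun k => ⟨k, h.onE_sub e (mem_sdiff.1 k.2).1⟩, fun k => k.1⟩]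
    exact (sum_le_card_nsmul _ _ _ h.muMaj).trans_eq (by rw [nsmul_eq_mul, mul_comm])
  rw [← mul_sum, sum_comm] at h2
  have h5 := (sum_le_sum fun t (_ : t ∈ univ) => h1 t).trans_eq (by rw [← mul_sum, card_Gt])
  have h6 := h2.trans (div_le_div_of_nonneg_right
    (mul_le_mul_of_nonneg_left h5 (Nat.cast_nonneg _)) (by positivity))
  have h7 := h3.trans (div_le_div_of_nonneg_right h4 (by positivity))
  have e1 : D.b * (del * D.G.card * D.G.card) / (eps / 8 * D.G.card) ^ 2 =
      64 * (D.b * del / eps ^ 2) := by field_simp; ring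
  have e2 : del * D.G.card / (eps / 8 * D.G.card) = 8 * (eps * del / eps ^ 2) := by field_simp
  have e3 : eps * del / eps ^ 2 ≤ D.b * del / eps ^ 2 := by
    gcongr; linarith [h.he1, b_pos h]
  rw [e1, sum_filter] at h6
  rw [e2, sum_filter] at h7
  rw [sum_filter, mul_assoc, mul_div_assoc]
  refine le_trans (sum_le_sum fun x hx => ?_) ((sum_add_distrib ..).trans_le
    ((add_le_add h6 h7).trans (by linarith)))
  have := hm x hx
  unfold Bad
  split_ifs <;> first | linarith | tauto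

theorem good_cnt (h : D.Hyp K c1 eps del) {x : D.TX} (hx : x ∈ D.X) (hb : ¬Bad D eps x) :
    D.p x * (((D.W.filter fun w => x ∈ D.onW w).filter fun w => 5 * eps * D.k * D.mu x * D.G.card <
      ∑ t, |∑ e ∈ D.Gt t with x ∈ D.Z e w, D.om e w -
        D.k * D.d1 x * D.mu x * (D.Gt t).card|).card : ℝ) ≤ D.b * K * del / eps ^ 2 * D.W.card := by
  have hG : (0 : ℝ) < D.G.card := Nat.cast_pos.2 h.G_ne.card_pos
  have he := h.he
  have hd := h.hd
  have hK := h.hK
  have hm := h.mu_pos x hx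
  have hp : (0 : ℝ) < D.p x := Nat.cast_pos.2 (h.p_pos x hx)
  have hk : (2 : ℝ) ≤ D.k := by exact_mod_cast h.hk
  obtain ⟨b1, b2⟩ := not_or.1 hb
  rw [not_lt] at b1 b2
  set n : Fin D.b → ℝ := fun t => (D.Gt t).card with hn
  set a : Fin D.b → ℝ := fun t => ((D.Gt t).filter fun e => x ∈ D.Maj e).card with ha
  set a' : Fin D.b → ℝ := fun t => ((D.Gt t).filter fun e => x ∈ D.onE e).card with ha'
  have sn : ∑ t, n t = D.G.card := card_Gt
  have aa : ∀ t, a t ≤ a' t := fun t => Nat.cast_le.2 (card_le_card fun e he =>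
    mem_filter.2 ⟨(mem_filter.1 he).1,
      h.Maj_sub e (mem_filter.1 (mem_filter.1 he).1).1 (mem_filter.1 he).2⟩)
  have s1 : D.p x * ∑ t, a' t ≤ (1 + eps / 8) * D.G.card := by
    have : ∑ t, (D.p x * a' t - n t) ≤ _ := (sum_le_sum fun t _ => le_abs_self _).trans b1
    rw [sum_sub_distrib, ← mul_sum, sn] at this
    linarith
  have s2 : D.p x * (∑ t, a' t - ∑ t, a t) ≤ eps / 8 * D.G.card := by
    refine le_trans (mul_le_mul_of_nonneg_left ?_ hp.le) b2
    simp only [ha, ha', card_filter, Nat.cast_sum, sum_Gt, ← sum_sub_distrib]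
    refine sum_le_sum fun e _ => ?_
    by_cases k : x ∈ D.onE e <;> by_cases l : x ∈ D.Maj e <;> simp [k, l]
  have := dev_card (D.W.filter fun w => x ∈ D.onW w) univ
    (fun t w => ∑ e ∈ D.Gt t with x ∈ D.Z e w, D.om e w)
    (fun t => cmean (D.W.filter fun w => x ∈ D.onW w) D.cell
      fun w => ∑ e ∈ D.Gt t with x ∈ D.Z e w, D.om e w) (fun t => D.k * D.d1 x * D.mu x * n t)
    (2 * K * del * D.k * D.mu x ^ 2 * D.G.card * D.W.card * ∑ t, a' t)
    (3 * eps * D.k * D.mu x * D.G.card) (2 * eps * D.k * D.mu x * D.G.card) (by positivity)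
    ((sum_le_sum fun t _ => dv1 h hx _ (filter_subset _ _)).trans_eq (by rw [← mul_sum]; rfl))
    fun w hw => by
      obtain ⟨q, q0, q1, q2⟩ := low1 h hx hw
      have d1 := h.d1_mem x hx
      have key : ∀ t, |cmean (D.W.filter fun w => x ∈ D.onW w) D.cell
          (fun w => ∑ e ∈ D.Gt t with x ∈ D.Z e w, D.om e w) w - D.k * D.d1 x * D.mu x * n t| ≤
          D.k * D.mu x * (5 / 2 * eps * q * a' t + 3 / 2 * (D.p x * (a' t - a t)) +
            3 / 2 * |D.p x * a' t - n t|) := fun t => by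
        have a0 : 0 ≤ a t := Nat.cast_nonneg _
        have u1 : |q * a t - n t| ≤ eps * q * a' t + D.p x * (a' t - a t) +
            |D.p x * a' t - n t| := by
          have e : q * a t - n t = (q - D.p x) * a t + -(D.p x * (a' t - a t)) +
            (D.p x * a' t - n t) := by ring
          rw [e]
          refine (abs_add_three _ _ _).trans (add_le_add (add_le_add ?_ ?_) le_rfl)
          · rw [abs_mul, abs_of_nonneg a0]
            exact mul_le_mul (q1.trans (mul_le_mul_of_nonneg_right h.hde q0)) (aa t) a0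
              (by positivity)
          · rw [abs_neg, abs_of_nonneg (mul_nonneg hp.le (sub_nonneg.2 (aa t)))]
        have u2 : |q * (D.k * D.d1 x * D.mu x) * a t - D.k * D.d1 x * D.mu x * n t| ≤
            D.k * D.mu x * (3 / 2 * |q * a t - n t|) := by
          rw [show q * (D.k * D.d1 x * D.mu x) * a t - D.k * D.d1 x * D.mu x * n t =
            D.k * D.mu x * (D.d1 x * (q * a t - n t)) by ring, abs_mul, abs_mul (D.d1 x),
            abs_of_nonneg (by positivity : 0 ≤ D.k * D.mu x), abs_of_nonneg (by linarith [d1.1])]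
          gcongr
          exact d1.2
        have u3 : q * (eps * D.k * D.mu x) * a t ≤ q * (eps * D.k * D.mu x) * a' t :=
          mul_le_mul_of_nonneg_left (aa t) (by positivity)
        refine (abs_sub_le _ _ _).trans ((add_le_add ((q2 _ (filter_subset _ _)).trans u3) u2).trans ?_)
        nlinarith [mul_le_mul_of_nonneg_left u1 (by positivity : 0 ≤ D.k * D.mu x)]
      refine (sum_le_sum fun t _ => key t).trans ?_
      rw [← mul_sum, sum_add_distrib, sum_add_distrib, ← mul_sum, ← mul_sum, ← mul_sum, ← mul_sum,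
        sum_sub_distrib]
      have s0 : 0 ≤ ∑ t, a' t := sum_nonneg fun _ _ => Nat.cast_nonneg _
      have s3 : q * ∑ t, a' t ≤ 102 / 100 * D.G.card := by
        nlinarith [mul_le_mul_of_nonneg_right (q_le h q0 q1) s0,
          mul_le_mul_of_nonneg_right h.he1 hG.le]
      refine (mul_le_mul_of_nonneg_left (?_ : _ ≤ 3 * eps * D.G.card) (by positivity)).trans_eq
        (by ring)
      nlinarith [mul_le_mul_of_nonneg_left s3 he.le, mul_pos he hG]
  rw [show 3 * eps * D.k * D.mu x * D.G.card + 2 * eps * D.k * D.mu x * D.G.card =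
    5 * eps * D.k * D.mu x * D.G.card by ring, card_univ, Fintype.card_fin] at this
  refine (mul_le_mul_of_nonneg_left this hp.le).trans ?_
  have e : D.p x * (D.b * (2 * K * del * D.k * D.mu x ^ 2 * D.G.card * D.W.card * ∑ t, a' t) /
      (2 * eps * D.k * D.mu x * D.G.card) ^ 2) = D.b * K * del / eps ^ 2 * D.W.card *
        ((D.p x * ∑ t, a' t) / (2 * D.k * D.G.card)) := by field_simp
  rw [e]
  refine mul_le_of_le_one_right (by positivity) ((div_le_one (by positivity)).2 ?_)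
  nlinarith [mul_le_mul_of_nonneg_right h.he1 hG.le, mul_le_mul_of_nonneg_right hk hG.le]

theorem wm1_a (h : D.Hyp K c1 eps del) :
    ∑ w ∈ D.W, ∑ x ∈ D.onW w with 5 * eps * D.k * D.mu x * D.G.card <
      ∑ t, |∑ e ∈ D.Gt t with x ∈ D.Z e w, D.om e w - D.k * D.d1 x * D.mu x * (D.Gt t).card|,
        D.mu x ≤ 200 * D.b * K * del / eps ^ 2 * D.W.card := by
  have he := h.he
  have hd := h.hd
  have hK := h.hK
  simp only [sum_filter (s := D.onW _)]
  rw [sum_flags h]
  have h0 : 0 ≤ D.b * K * del / eps ^ 2 * D.W.card := by positivity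
  refine le_trans (sum_le_sum (g := fun x => D.b * K * del / eps ^ 2 * D.W.card * D.mub x +
    2 * D.W.card * if Bad D eps x then D.mub x else 0) fun x hx => ?_) ?_
  · have hm := h.mu_pos x hx
    have hp : (0 : ℝ) < D.p x := Nat.cast_pos.2 (h.p_pos x hx)
    have hb : 0 < D.mub x := div_pos hm hp
    have e : D.mu x = D.p x * D.mub x := (mul_div_cancel₀ _ hp.ne').symm
    rw [← sum_filter, sum_const, nsmul_eq_mul]
    by_cases k : Bad D eps x
    · rw [if_pos k]
      refine le_add_of_nonneg_of_le (by positivity) ((mul_le_mul_of_nonneg_right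
        (Nat.cast_le.2 (card_filter_le _ _)) hm.le).trans ?_)
      rw [e, ← mul_assoc, mul_comm _ (D.p x : ℝ)]
      exact mul_le_mul_of_nonneg_right (cnt h hx) hb.le
    · rw [if_neg k, mul_zero, add_zero]
      refine le_trans (le_of_eq ?_) (mul_le_mul_of_nonneg_right (good_cnt h hx k) hb.le)
      rw [mul_right_comm (D.p x : ℝ), ← e, mul_comm]
  · rw [sum_add_distrib, ← mul_sum, ← mul_sum, h.prob, ← sum_filter]
    have a := mul_le_mul_of_nonneg_left (bad_mass h) (by positivity : (0 : ℝ) ≤ 2 * D.W.card)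
    have b : D.b * del / eps ^ 2 * D.W.card ≤ D.b * K * del / eps ^ 2 * D.W.card := by
      gcongr
      exact le_mul_of_one_le_right (Nat.cast_nonneg _) hK
    have e1 : 2 * D.W.card * (72 * D.b * del / eps ^ 2) =
      144 * (D.b * del / eps ^ 2 * D.W.card) := by ring
    have e2 : 200 * D.b * K * del / eps ^ 2 * D.W.card =
      200 * (D.b * K * del / eps ^ 2 * D.W.card) := by ring
    linarith

end Pool.Agent.Lib.BK2.WM1
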