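import Pool.Agent.Lib.BK2.WM0
import Pool.Agent.Lib.BK2.SDefs

/-! Deviation counts from a variance bound. -/

namespace Pool.Agent.Lib.BK2.WMa

open Finset WM Classical

variable {TW TC B : Type}

theorem dev_card (T : Finset TW) (S : Finset B) (N M : B → TW → ℝ) (m : B → ℝ) (A δ t : ℝ)
    (ht : 0 < t) (hA : ∑ b ∈ S, ∑ w ∈ T, (N b w - M b w) ^ 2 ≤ A)
    (hM : ∀ w ∈ T, ∑ b ∈ S, |M b w - m b| ≤ δ) :
    ((T.filter fun w => δ + t < ∑ b ∈ S, |N b w - m b|).card : ℝ) ≤ S.card * A / t ^ 2 := by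
  refine (markov_card T _ (fun w => S.card * ∑ b ∈ S, (N b w - M b w) ^ 2) (t ^ 2) (by positivity)
    (fun w _ => by positivity) fun w hw h => ?_).trans ?_
  · have h1 : ∑ b ∈ S, |N b w - m b| ≤ ∑ b ∈ S, |N b w - M b w| + ∑ b ∈ S, |M b w - m b| := by
      rw [← sum_add_distrib]
      exact sum_le_sum fun b _ => abs_sub_le _ _ _
    have h2 : t ≤ ∑ b ∈ S, |N b w - M b w| := by linarith [hM w hw]
    have h3 := sq_sum_le_card_mul_sum_sq (s := S) (f := fun b => |N b w - M b w|)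
    simp only [sq_abs] at h3
    exact (pow_le_pow_left₀ ht.le h2 2).trans h3
  · rw [← mul_sum, sum_comm]
    gcongr

theorem sq_sum_le (T : Finset TW) (N M : TW → ℝ) (A L : ℝ)
    (hA : ∑ w ∈ T, (N w - M w) ^ 2 ≤ A) (hM : ∀ w ∈ T, |M w| ≤ L) :
    ∑ w ∈ T, N w ^ 2 ≤ 2 * A + 2 * T.card * L ^ 2 := by
  have : ∑ w ∈ T, N w ^ 2 ≤ ∑ w ∈ T, (2 * (N w - M w) ^ 2 + 2 * L ^ 2) :=
    sum_le_sum fun w hw => by
      have := sq_le_sq' (abs_le.1 (hM w hw)).1 (abs_le.1 (hM w hw)).2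
      nlinarith [sq_nonneg (N w - 2 * M w)]
  rw [sum_add_distrib, ← mul_sum, sum_const, nsmul_eq_mul] at this
  linarith

variable {D : SD} {K c1 eps del : ℝ}

theorem fib_eq (h : D.Hyp K c1 eps del) {w : D.TW} (hw : w ∈ D.W) :
    D.fib (D.cell w) = D.fibp (D.cell w) := by
  ext v
  simp only [SD.fib, SD.fibp, mem_filter]
  exact ⟨fun k => ⟨h.W_sub k.1, k.2⟩, fun k => ⟨h.W_sat w hw v k.1 k.2, k.2⟩⟩

theorem sum_Wp (f : D.TW → ℝ) (L : ℝ) (hf : ∀ c, ∑ w ∈ D.fibp c, f w ≤ L * (D.fibp c).card) :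
    ∑ w ∈ D.Wp, f w ≤ L * D.Wp.card := by
  rw [← sum_fiberwise_of_maps_to (g := D.cell) (t := D.Wp.image D.cell)
    (fun w hw => mem_image_of_mem _ hw), card_eq_sum_card_fiberwise (f := D.cell)
    (t := D.Wp.image D.cell) (fun w hw => mem_image_of_mem _ hw), Nat.cast_sum, mul_sum]
  exact sum_le_sum fun c _ => hf c

theorem dv (h : D.Hyp K c1 eps del) (S : Finset D.TX) (h1 : S ⊆ D.X) (h2 : S.card ≤ 2)
    (h3 : ∀ x ∈ S, ∀ y ∈ S, D.p x = D.p y → x = y) (A : Finset D.TE) (hA : A ⊆ D.G)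
    (P : D.TE → Finset D.TX → Prop) [∀ w, DecidablePred fun e => P e (D.Z e w)]
    [∀ e, DecidablePred fun w => P e (D.Z e w)] (hP : ∀ e Y, P e Y → S ⊆ Y)
    (T : Finset D.TW) (hT : ∀ w, w ∈ T ↔ w ∈ D.W ∧ S ⊆ D.onW w) :
    ∑ w ∈ T, (∑ e ∈ A with P e (D.Z e w), D.om e w -
      cmean T D.cell (fun w => ∑ e ∈ A with P e (D.Z e w), D.om e w) w) ^ 2 ≤
      del * D.G.card * (∏ x ∈ S, D.mu x) *
        ∑ e ∈ A, ∑ w ∈ D.Wp with P e (D.Z e w), D.om e w := by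
  obtain rfl : T = D.W.filter fun w => S ⊆ D.onW w := by
    ext w; rw [hT, mem_filter]
  refine dv_core _ _ _ _ (mul_nonneg (mul_nonneg (mul_nonneg h.hd.le (Nat.cast_nonneg _))
    (prod_nonneg fun x hx => (h.mu_pos x (h1 hx)).le))
    (sum_nonneg fun e he => sum_nonneg fun w _ => h.om_nn e (hA he) w)) fun f f1 f2 => ?_
  have f0 : ∀ w, ¬S ⊆ D.onW w → f w = 0 := fun w k => by_contra fun l => k (mem_filter.1 (f1 w l)).2
  obtain ⟨φ, hφ⟩ : ∃ φ : D.TE → Finset D.TX → ℝ, ∀ e Y, (e ∈ A ∧ P e Y → φ e Y = 1) ∧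
      (¬(e ∈ A ∧ P e Y) → φ e Y = 0) :=
    ⟨fun e Y => if e ∈ A ∧ P e Y then 1 else 0, fun e Y => ⟨fun k => if_pos k, fun k => if_neg k⟩⟩
  have := h.var S h1 h2 h3 f (fun e Y _ => φ e Y)
    (fun w k => mem_filter.1 (f1 w k)) (fun c => by
      rw [← f2 c, filter_comm, sum_filter (p := fun w => S ⊆ D.onW w)]
      exact sum_congr rfl fun w _ => by by_cases k : S ⊆ D.onW w <;> simp [k, f0])
    fun e Y _ k => hP e Y (by by_contra l; exact k ((hφ e Y).2 fun m => l m.2))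
  have e0 : ∀ g : D.TE → ℝ, ∑ e ∈ D.G, (if e ∈ A then g e else 0) = ∑ e ∈ A, g e := fun g => by
    rw [← sum_filter, filter_mem_eq_inter, inter_eq_right.2 hA]
  have e1 : ∑ e ∈ D.G, ∑ w ∈ D.W, f w * (D.om e w * φ e (D.Z e w)) =
      ∑ w ∈ D.W.filter (fun w => S ⊆ D.onW w), f w * ∑ e ∈ A with P e (D.Z e w), D.om e w := by
    rw [sum_comm, sum_filter]
    refine sum_congr rfl fun w _ => ?_
    by_cases k : S ⊆ D.onW w
    · rw [if_pos k, sum_filter, ← e0, mul_sum]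
      exact sum_congr rfl fun e _ => by
        by_cases a : e ∈ A <;> by_cases b : P e (D.Z e w) <;>
          simp [a, b, (hφ e (D.Z e w)).1, (hφ e (D.Z e w)).2]
    · simp [k, f0 w k]
  have e2 : ∑ e ∈ D.G, ∑ w ∈ D.Wp, D.om e w * φ e (D.Z e w) ^ 2 =
      ∑ e ∈ A, ∑ w ∈ D.Wp with P e (D.Z e w), D.om e w := by
    rw [← e0]
    refine sum_congr rfl fun e _ => ?_
    by_cases a : e ∈ A
    · rw [if_pos a, sum_filter]
      exact sum_congr rfl fun w _ => by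
        by_cases b : P e (D.Z e w) <;> simp [a, b, (hφ e (D.Z e w)).1, (hφ e (D.Z e w)).2]
    · simp [a, fun w => (hφ e (D.Z e w)).2 fun m => a m.1]
  have e3 : ∑ w ∈ D.W, f w ^ 2 = ∑ w ∈ D.W.filter (fun w => S ⊆ D.onW w), f w ^ 2 := by
    rw [sum_filter]
    exact sum_congr rfl fun w _ => by by_cases k : S ⊆ D.onW w <;> simp [k, f0]
  rw [e1, e2, e3] at this
  exact this.trans_eq (by ring)

theorem dual_sm' {TE TX : Type} (Om A : Finset TE) (S : Finset TX) (inc : TE → TX → Prop)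
    [i1 : ∀ e, DecidablePred (inc e)] [i2 : ∀ x, DecidablePred fun e => inc e x]
    (mu q : TX → ℝ) (et : ℝ) (hA : A ⊆ Om) (hOm : Om.Nonempty) (het : 0 ≤ et)
    (hmu : ∀ x ∈ S, 0 ≤ mu x) (hq : ∀ x ∈ S, 0 < q x)
    (h : ∀ g : TX → ℝ, ∑ e ∈ Om, (∑ x ∈ S.filter (inc e), g x * mu x -
      ∑ x ∈ S, g x * (mu x / q x)) ^ 2 ≤ et * Om.card * ∑ x ∈ S, g x ^ 2 * (mu x / q x)) :
    ∑ x ∈ S, (q x * (A.filter fun e => inc e x).card - A.card) ^ 2 * (mu x / q x) ≤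
      et * Om.card * A.card := by
  obtain rfl : i1 = fun _ _ => propDecidable _ := Subsingleton.elim _ _
  obtain rfl : i2 = fun _ _ => propDecidable _ := Subsingleton.elim _ _
  exact dual_sm Om A S inc mu q et hA hOm het hmu hq h

theorem sum_Gt (f : D.TE → ℝ) : ∑ t, ∑ e ∈ D.Gt t, f e = ∑ e ∈ D.G, f e :=
  sum_fiberwise D.G D.ecell f

theorem card_Gt : ∑ t, ((D.Gt t).card : ℝ) = D.G.card := by
  simpa using sum_Gt (D := D) fun _ => 1

theorem up0 (h : D.Hyp K c1 eps del) {e : D.TE} (he : e ∈ D.G) :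
    ∑ w ∈ D.Wp, D.om e w ≤ 2 * K * D.W.card := by
  have := sum_Wp (D.om e) 2 fun c => by
    have := (abs_le.1 (h.emod0 e he c)).2
    have := h.he1
    have : (0 : ℝ) ≤ (D.fibp c).card := Nat.cast_nonneg _
    nlinarith
  linarith [h.cardWp]

theorem dv0 (h : D.Hyp K c1 eps del) (A : Finset D.TE) (hA : A ⊆ D.G) :
    ∑ w ∈ D.W, (∑ e ∈ A, D.om e w - cmean D.W D.cell (fun w => ∑ e ∈ A, D.om e w) w) ^ 2 ≤
      2 * K * del * D.G.card * D.W.card * A.card := by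
  have := dv h ∅ (empty_subset _) (by simp) (by simp) A hA (fun _ _ => True)
    (fun _ _ _ => empty_subset _) D.W (by simp)
  simp only [filter_true, prod_empty, mul_one] at this
  refine this.trans ?_
  have h1 := sum_le_card_nsmul A _ _ fun e he => up0 h (hA he)
  rw [nsmul_eq_mul] at h1
  exact (mul_le_mul_of_nonneg_left h1 (mul_nonneg h.hd.le (Nat.cast_nonneg _))).trans_eq (by ring)

theorem low0 (h : D.Hyp K c1 eps del) (A : Finset D.TE) (hA : A ⊆ D.G) {w : D.TW} (hw : w ∈ D.W) :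
    |cmean D.W D.cell (fun w => ∑ e ∈ A, D.om e w) w - A.card| ≤ eps * A.card := by
  have h0 : (0 : ℝ) < (D.fibp (D.cell w)).card :=
    Nat.cast_pos.2 (card_pos.2 ⟨w, mem_filter.2 ⟨h.W_sub hw, rfl⟩⟩)
  have e : cmean D.W D.cell (fun w => ∑ e ∈ A, D.om e w) w - A.card =
      (∑ e ∈ A, (∑ v ∈ D.fibp (D.cell w), D.om e v - (D.fibp (D.cell w)).card)) /
        (D.fibp (D.cell w)).card := by
    rw [sum_sub_distrib, sum_const, nsmul_eq_mul, sub_div, mul_div_cancel_right₀ _ h0.ne',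
      sum_comm, ← fib_eq h hw]
    rfl
  rw [e, abs_div, abs_of_pos h0, div_le_iff₀ h0]
  refine (abs_sum_le_sum_abs _ _).trans ((sum_le_card_nsmul A _ _ fun e he =>
    h.emod0 e (hA he) _).trans_eq ?_)
  rw [nsmul_eq_mul]; ring

theorem wma_a (h : D.Hyp K c1 eps del) :
    ((D.W.filter fun w => 3 * eps * D.G.card <
      ∑ t, |∑ e ∈ D.Gt t, D.om e w - (D.Gt t).card|).card : ℝ) ≤
      D.b * K * del / eps ^ 2 * D.W.card := by
  have hG : (0 : ℝ) < D.G.card := Nat.cast_pos.2 h.G_ne.card_pos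
  have he := h.he
  have := dev_card D.W univ (fun t w => ∑ e ∈ D.Gt t, D.om e w)
    (fun t => cmean D.W D.cell fun w => ∑ e ∈ D.Gt t, D.om e w) (fun t => (D.Gt t).card)
    (2 * K * del * D.G.card * D.W.card * D.G.card) (eps * D.G.card) (2 * eps * D.G.card)
    (by positivity) ((sum_le_sum fun t _ => dv0 h _ (filter_subset _ _)).trans_eq (by
      rw [← mul_sum]; exact congrArg _ card_Gt))
    fun w hw => (sum_le_sum fun t _ => low0 h _ (filter_subset _ _) hw).trans_eq (by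
      rw [← mul_sum]; exact congrArg _ card_Gt)
  rw [show eps * D.G.card + 2 * eps * D.G.card = 3 * eps * D.G.card by ring, card_univ,
    Fintype.card_fin] at this
  refine this.trans ?_
  have h1 : 0 ≤ D.b * K * del / eps ^ 2 * D.W.card := by
    have := h.hd; have := h.hK; positivity
  have h2 : D.b * (2 * K * del * D.G.card * D.W.card * D.G.card) / (2 * eps * D.G.card) ^ 2 =
      D.b * K * del / eps ^ 2 * D.W.card / 2 := by field_simp
  linarith

theorem wma_b (h : D.Hyp K c1 eps del) (hd : K * del ≤ 1) :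
    ∑ w ∈ D.W, (∑ e ∈ D.G, D.om e w) ^ 2 ≤ 10 * D.G.card ^ 2 * D.W.card := by
  have hG : (0 : ℝ) ≤ D.G.card := Nat.cast_nonneg _
  have he := h.he1
  have := sq_sum_le D.W _ _ _ (3 / 2 * D.G.card) (dv0 h D.G subset_rfl) fun w hw => by
    have := abs_le.1 (low0 h D.G subset_rfl hw)
    rw [abs_le]
    constructor <;> nlinarith
  refine this.trans ?_
  have h1 : 0 ≤ (D.G.card : ℝ) ^ 2 * D.W.card := by positivity
  nlinarith [mul_le_mul_of_nonneg_right hd h1]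

theorem wma_c (h : D.Hyp K c1 eps del) :
    ((D.W.filter fun w => 2 < ∑ x ∈ D.onW w, D.mu x).card : ℝ) ≤ del * D.W.card := by
  have := h.smW fun _ => 1
  simp only [one_mul, one_pow, h.prob, mul_one] at this
  refine (markov_card D.W _ (fun w => (∑ x ∈ D.onW w, D.mu x - 1) ^ 2) 1 one_pos
    (fun _ _ => sq_nonneg _) fun w _ k => by nlinarith).trans (by rwa [div_one])

theorem wma_d (h : D.Hyp K c1 eps del) :
    ((D.W.filter fun w => ∃ q : ℕ, eps < ∑ x ∈ D.onW w with D.p x = q, D.mu x).card : ℝ) ≤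
      4 * del / eps ^ 2 * D.W.card := by
  have he := h.he
  have hm : ∀ x ∈ D.X, 0 ≤ D.mub x := fun x hx => div_nonneg (h.mu_pos x hx).le (Nat.cast_nonneg _)
  have h1 : ∀ q : ℕ, ∑ w ∈ D.W, (∑ x ∈ D.onW w with D.p x = q, D.mu x) ^ 2 ≤
      4 * del * D.W.card * ∑ x ∈ D.X with D.p x = q, D.mub x := fun q => by
    have a := h.smW fun x => if D.p x = q then 1 else 0
    simp only [ite_mul, one_mul, zero_mul, ite_pow, one_pow, ne_eq, OfNat.ofNat_ne_zero,
      not_false_eq_true, zero_pow, ← sum_filter] at a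
    have b : 0 ≤ ∑ x ∈ D.X with D.p x = q, D.mub x :=
      sum_nonneg fun x hx => hm x (mem_filter.1 hx).1
    have := sq_sum_le D.W _ (fun _ => ∑ x ∈ D.X with D.p x = q, D.mub x) _ _ a fun _ _ =>
      (abs_of_nonneg b).le
    nlinarith [mul_le_mul_of_nonneg_left (mul_le_mul_of_nonneg_right (h.fibq q) b)
      (Nat.cast_nonneg (α := ℝ) D.W.card)]
  refine (markov_card D.W _ (fun w => ∑ q ∈ D.X.image D.p,
    (∑ x ∈ D.onW w with D.p x = q, D.mu x) ^ 2) (eps ^ 2) (by positivity)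
    (fun _ _ => by positivity) fun w _ hq => ?_).trans ?_
  · obtain ⟨q, k⟩ := hq
    obtain ⟨x, hx⟩ := nonempty_of_sum_ne_zero (he.trans k).ne'
    refine (pow_le_pow_left₀ he.le k.le 2).trans (single_le_sum (f := fun q =>
      (∑ x ∈ D.onW w with D.p x = q, D.mu x) ^ 2) (fun _ _ => sq_nonneg _) ?_)
    exact mem_image.2 ⟨x, h.onW_sub w (mem_filter.1 hx).1, (mem_filter.1 hx).2⟩
  · rw [sum_comm, div_mul_eq_mul_div]
    gcongr
    refine (sum_le_sum fun q _ => h1 q).trans_eq ?_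
    rw [← mul_sum, sum_fiberwise_of_maps_to fun x hx => mem_image_of_mem _ hx, h.prob, mul_one]

end Pool.Agent.Lib.BK2.WMa
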