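import Pool.Agent.Lib.BK2.RDefs

/-! A regular form times a section of large degree is a sum of Wronskian forms. -/

open MvPolynomial

noncomputable section

namespace Pool.Agent.Lib.BK2

namespace WR

variable {n : ℕ}

theorem dF_mul (F G : MvPolynomial (Fin (n + 1)) ℚ) (z v : Fin (n + 1) → ℂ) :
    dF (F * G) z v = aeval z F * dF G z v + aeval z G * dF F z v := by
  simp only [dF, pderiv_mul, map_add, map_mul, Finset.mul_sum, ← Finset.sum_add_distrib]
  exact Finset.sum_congr rfl fun j _ => by ring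

theorem dF_X (i : Fin (n + 1)) (z v : Fin (n + 1) → ℂ) : dF (X i) z v = v i := by
  classical
  rw [dF, Finset.sum_eq_single i]
  · simp
  · intro j _ hj
    simp [pderiv_X, Pi.single_apply, hj.symm]
  · simp

theorem wr_id (i j : Fin (n + 1)) (r : ℕ) (z v : Fin (n + 1) → ℂ) :
    aeval z (X i * X i ^ r : MvPolynomial (Fin (n + 1)) ℚ) * dF (X j * X i ^ r) z v -
      aeval z (X j * X i ^ r : MvPolynomial (Fin (n + 1)) ℚ) * dF (X i * X i ^ r) z v =
      z i ^ (2 * r) * (z i * v j - z j * v i) := by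
  simp only [dF_mul, dF_X, map_mul, map_pow, aeval_X]
  ring

theorem big (α : Fin (n + 1) →₀ ℕ) (c : ℕ) (h : (n + 1) * c ≤ α.degree) : ∃ i, c ≤ α i := by
  by_contra hc
  push Not at hc
  rw [Finsupp.degree_eq_sum] at h
  have : ∑ i, α i < ∑ _i : Fin (n + 1), c :=
    Finset.sum_lt_sum_of_nonempty Finset.univ_nonempty fun i _ => hc i
  simp at this
  omega

variable {L : Type} [Field L] [Algebra ℚ L] {y : Fin (n + 1) → L}
  {B : Type} [CommRing B] [Algebra (Polynomial ℤ) B] {d : ℕ} [NeZero d] {Γ : Geo B d}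

/-- Functions whose product with `ω` is a Wronskian form on the cone. -/
def good (μ : Γ.Model y) (ω : (Fin (n + 1) → ℂ) → (Fin (n + 1) → ℂ) → ℂ) (k m : ℕ) :
    Submodule ℝ ((Fin (n + 1) → ℂ) → ℂ) where
  carrier := {g | ∃ ξ ∈ μ.Wr k m, ∀ z ∈ Cone y, ∀ v ∈ Tan y z, g z * ω z v = ξ z v}
  zero_mem' := ⟨0, zero_mem _, fun z _ v _ => by simp⟩
  add_mem' := by
    rintro g g' ⟨ξ, h, e⟩ ⟨ξ', h', e'⟩
    exact ⟨ξ + ξ', add_mem h h', fun z hz v hv => by
      simp only [Pi.add_apply, add_mul, e z hz v hv, e' z hz v hv]⟩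
  smul_mem' := by
    rintro c g ⟨ξ, h, e⟩
    exact ⟨c • ξ, Submodule.smul_mem _ c h, fun z hz v hv => by
      simp only [Pi.smul_apply, smul_mul_assoc, e z hz v hv]⟩

theorem mono_mem (h : St_CONE) (μ : Γ.Model y) (ω) (k r : ℕ) (hk : μ.m₀ ≤ k)
    (hr : μ.m₀ ≤ r + 1) (i : Fin (n + 1)) (a : ℕ) (p : Fin (n + 1) → MvPolynomial (Fin (n + 1)) ℚ)
    (hp : ∀ j, (p j).IsHomogeneous a)
    (hω : ∀ z ∈ Cone y, z i ≠ 0 → ∀ v ∈ Tan y z,
      ω z v = ∑ j, aeval z (p j) / z i ^ a * ((z i * v j - z j * v i) / z i ^ 2))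
    (α : Fin (n + 1) →₀ ℕ) (hd : α.degree = k + 2 * (r + 1)) (hi : a + 2 * r + 3 ≤ α i) :
    (fun z => aeval z (monomial α (1 : ℚ))) ∈ good μ ω k (r + 1) := by
  obtain ⟨-, h2, -⟩ := h L n y B d Γ μ
  set β : Fin (n + 1) →₀ ℕ := α - Finsupp.single i (a + 2 * r + 3) with hβ
  have hαβ : α = β + Finsupp.single i (a + 2 * r + 3) := by
    rw [hβ, tsub_add_cancel_of_le (Finsupp.single_le_iff.2 hi)]
  have hdβ : β.degree + 1 + a = k := by
    rw [hαβ, map_add, Finsupp.degree_single] at hd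
    omega
  have hM : (monomial α (1 : ℚ)) = monomial β 1 * X i ^ (a + 2 * r + 3) := by
    rw [X_pow_eq_monomial, monomial_mul, mul_one, ← hαβ]
  have hs : ∀ j, (monomial β (1 : ℚ) * X i * p j).IsHomogeneous k := fun j => by
    rw [← hdβ]
    exact ((isHomogeneous_monomial _ rfl).mul (isHomogeneous_X ℚ i)).mul (hp j)
  have he : ∀ j, (X j * X i ^ r : MvPolynomial (Fin (n + 1)) ℚ).IsHomogeneous (r + 1) :=
    fun j => by
      rw [add_comm r 1]
      exact (isHomogeneous_X ℚ j).mul (isHomogeneous_X_pow i r)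
  choose s hs' using fun j => h2 k hk _ (hs j)
  choose e he' using fun j => h2 (r + 1) hr _ (he j)
  refine ⟨∑ j, μ.wr (s j) (e j) (e i), Submodule.sum_mem _ fun j _ =>
    Submodule.subset_span ⟨s j, e j, e i, rfl⟩, fun z hz v hv => ?_⟩
  have hw : ∀ j, μ.wr (s j) (e j) (e i) z v =
      aeval z (monomial β (1 : ℚ)) * z i * aeval z (p j) *
        (z i ^ (2 * r) * (z i * v j - z j * v i)) := fun j => by
    rw [Geo.Model.wr, (hs' j z hz).1, (he' i z hz).1, (he' j z hz).1, (he' i z hz).2 v hv,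
      (he' j z hz).2 v hv, wr_id]
    simp only [map_mul, aeval_X]
  simp only [Finset.sum_apply, hw, hM, map_mul, map_pow, aeval_X]
  by_cases h0 : z i = 0
  · simp [h0]
  · rw [hω z hz h0 v hv, Finset.mul_sum]
    refine Finset.sum_congr rfl fun j _ => ?_
    field_simp
    ring

end WR

open WR in
theorem stWR (h : St_CONE) : St_WR := by
  intro L _ _ n y B _ _ d _ Γ μ ω hω m hm h1
  choose a p hp hω using hω
  obtain ⟨r, rfl⟩ : ∃ r, m = r + 1 := ⟨m - 1, by omega⟩
  refine ⟨μ.m₀ + (n + 1) * (Finset.univ.sup a + 2 * r + 3), fun k hk m' hm' w => ?_⟩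
  have hmon : ∀ α : Fin (n + 1) →₀ ℕ, α.degree = m' →
      (fun z => aeval z (monomial α (1 : ℚ))) ∈ good μ ω k (r + 1) := fun α hα => by
    obtain ⟨i, hi⟩ := big α (Finset.univ.sup a + 2 * r + 3) (by omega)
    have := Finset.le_sup (f := a) (Finset.mem_univ i)
    exact mono_mem h μ ω k r (by omega) hm i (a i) (p i) (hp i) (hω i) α (by omega) (by omega)
  have hF : ∀ F : MvPolynomial (Fin (n + 1)) ℚ, F.IsHomogeneous m' →
      (fun z => aeval z F) ∈ good μ ω k (r + 1) := fun F hF => by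
    have e : (fun z : Fin (n + 1) → ℂ => aeval z F) =
        ∑ α ∈ F.support, ((coeff α F : ℚ) : ℝ) • fun z => aeval z (monomial α (1 : ℚ)) := by
      funext z
      conv_lhs => rw [F.as_sum, map_sum]
      rw [Finset.sum_apply]
      refine Finset.sum_congr rfl fun α _ => ?_
      simp [aeval_monomial]
    rw [e]
    refine Submodule.sum_mem _ fun α hα => Submodule.smul_mem _ _ (hmon α ?_)
    have := hF (mem_support_iff.1 hα)
    rw [Finsupp.degree_eq_weight_one]
    exact this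
  have e : μ.evC w = ∑ i, w i • fun z => aeval z (μ.rep m' i) := by
    funext z
    simp [Geo.Model.evC, Finset.sum_apply]
  have : μ.evC w ∈ good μ ω k (r + 1) := by
    rw [e]
    exact Submodule.sum_mem _ fun i _ => Submodule.smul_mem _ _ (hF _ (μ.hom m' (by omega) i))
  exact this

end Pool.Agent.Lib.BK2
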