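import Pool.Agent.Lib.BK2.ZEDefs
import Pool.Agent.Lib.BK2.Blue1

/-! Block ZE.ARC: uniform bounds on a closed cube. -/

open Polynomial Finset

noncomputable section

namespace Pool.Agent.Lib.BK2

namespace ZARC

theorem rcube_compact {I : Type} (o : I → ℝ) (s : ℝ) : IsCompact (rcube o s) := by
  have h : rcube o s = Set.Icc o (fun i => o i + s) := by
    ext v
    simp only [rcube, Set.mem_ofPred_eq, Set.mem_Icc, Pi.le_def]
    exact ⟨fun h => ⟨fun i => (h i).1, fun i => (h i).2⟩, fun h i => ⟨h.1 i, h.2 i⟩⟩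
  rw [h]
  exact isCompact_Icc

theorem ub {X J : Type} [TopologicalSpace X] [Finite J] {K : Set X} (hK : IsCompact K)
    (f : J → X → ℝ) (hf : ∀ j, ContinuousOn (f j) K) :
    ∃ C : ℝ, 1 ≤ C ∧ ∀ j, ∀ x ∈ K, f j x ≤ C := by
  have h : ∀ j, ∃ C : ℝ, ∀ x ∈ K, f j x ≤ C := fun j => by
    obtain ⟨C, hC⟩ := hK.exists_bound_of_continuousOn (hf j)
    exact ⟨C, fun x hx => (le_abs_self _).trans (hC x hx)⟩
  choose C hC using h
  obtain ⟨M, hM⟩ := (Set.finite_range C).bddAbove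
  exact ⟨max 1 M, le_max_left _ _, fun j x hx =>
    (hC j x hx).trans ((hM ⟨j, rfl⟩).trans (le_max_right _ _))⟩

theorem lb {a C : ℝ} (ha : 0 < a) (h : a⁻¹ ≤ C) : 1 / C ≤ a := by
  have hC : 0 < C := (inv_pos.2 ha).trans_le h
  rw [div_le_iff₀ hC]
  calc (1 : ℝ) = a * a⁻¹ := (mul_inv_cancel₀ ha.ne').symm
    _ ≤ a * C := mul_le_mul_of_nonneg_left h ha.le

theorem lb' {a C K : ℝ} (ha : 0 < a) (h : a⁻¹ ≤ C) (hK : C ≤ K) : 1 / K ≤ a :=
  lb ha (h.trans hK)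

end ZARC

open ZARC in
theorem stZARC (hN : St_NRM) : St_ZARC := by
  intro B _ _ _ d _ Γ m ν U ρ o s hU
  have hK := rcube_compact o s
  have hφ : ∀ j f, ContinuousOn (fun e => ρ.φ e j f) (rcube o s) := fun j f =>
    (ρ.smooth j f).continuousOn.mono hU
  refine ⟨?_, ?_⟩
  · have hlc : Continuous fun e : Γ.Ix m → ℝ => Γ.lc e :=
      ((hN B d Γ m).2.2.2.2.1 (m * d)).continuous
    obtain ⟨C₁, h1, hC₁⟩ := ub hK (fun j e => ‖ρ.φ e j Γ.t‖) fun j => (hφ j _).norm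
    obtain ⟨C₂, -, hC₂⟩ := ub hK (fun (_ : Unit) e => |Γ.lc e|) fun _ => hlc.abs.continuousOn
    obtain ⟨C₃, -, hC₃⟩ := ub hK (fun (_ : Unit) e => |Γ.lc e|⁻¹) fun _ =>
      hlc.abs.continuousOn.inv₀ fun e he => abs_ne_zero.2 (ρ.lead e (hU he))
    refine ⟨max C₁ (max C₂ C₃), h1.trans (le_max_left _ _), fun e he => ⟨fun j => ?_, ?_, ?_⟩⟩
    · exact (hC₁ j e he).trans (le_max_left _ _)
    · exact lb' (abs_pos.2 (ρ.lead e (hU he))) (hC₃ () e he)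
        ((le_max_right _ _).trans (le_max_right _ _))
    · exact (hC₂ () e he).trans ((le_max_left _ _).trans (le_max_right _ _))
  · intro m' o' s' hne
    have hK' := hK.prod (rcube_compact o' s')
    have hev : ∀ j, ContinuousOn (fun p : (Γ.Ix m → ℝ) × (Γ.Ix m' → ℝ) => Γ.ev (ρ.φ p.1 j) p.2)
        (rcube o s ×ˢ rcube o' s') := fun j => by
      unfold Geo.ev
      refine continuousOn_finsetSum _ fun i _ => ContinuousOn.mul ?_ ?_
      · exact (Complex.continuous_ofReal.comp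
          ((continuous_apply i).comp continuous_snd)).continuousOn
      · exact (hφ j _).comp continuous_fst.continuousOn fun p hp => hp.1
    obtain ⟨C₁, h1, hC₁⟩ := ub hK' (fun j p => ‖Γ.ev (ρ.φ p.1 j) p.2‖) fun j => (hev j).norm
    obtain ⟨C₂, -, hC₂⟩ := ub hK' (fun j p => ‖Γ.ev (ρ.φ p.1 j) p.2‖⁻¹) fun j =>
      (hev j).norm.inv₀ fun p hp => norm_ne_zero_iff.2 (hne p.1 hp.1 p.2 hp.2 j)
    obtain ⟨C₃, -, hC₃⟩ := ub hK (fun j e => ∑ i : Γ.Ix m', ‖ρ.φ e j (Γ.mon i)‖) fun j =>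
      continuousOn_finsetSum _ fun i _ => (hφ j _).norm
    refine ⟨max C₁ (max C₂ C₃), h1.trans (le_max_left _ _), fun e he j => ⟨fun w hw => ⟨?_, ?_⟩,
      fun v r hv => ?_⟩⟩
    · exact lb' (norm_pos_iff.2 (hne e he w hw j)) (hC₂ j (e, w) ⟨he, hw⟩)
        ((le_max_left _ _).trans (le_max_right _ _))
    · exact (hC₁ j (e, w) ⟨he, hw⟩).trans (le_max_left _ _)
    · have hr : 0 ≤ r := (abs_nonneg _).trans
        (hv ⟨0, ⟨0, by rw [Γ.δ0]; omega⟩⟩)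
      have h3 : ∑ i : Γ.Ix m', ‖ρ.φ e j (Γ.mon i)‖ ≤ max C₁ (max C₂ C₃) :=
        (hC₃ j e he).trans ((le_max_right _ _).trans (le_max_right _ _))
      calc ‖ρ.φ e j (Γ.el v)‖ = ‖∑ i, (v i : ℂ) * ρ.φ e j (Γ.mon i)‖ := by
            simp only [Geo.el, map_sum, zsmul_eq_mul, map_mul, map_intCast]
        _ ≤ ∑ i, ‖(v i : ℂ) * ρ.φ e j (Γ.mon i)‖ := norm_sum_le _ _
        _ ≤ ∑ i : Γ.Ix m', r * ‖ρ.φ e j (Γ.mon i)‖ := by
            refine Finset.sum_le_sum fun i _ => ?_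
            rw [norm_mul, Complex.norm_intCast]
            exact mul_le_mul_of_nonneg_right (hv i) (norm_nonneg _)
        _ = r * ∑ i : Γ.Ix m', ‖ρ.φ e j (Γ.mon i)‖ := (Finset.mul_sum _ _ _).symm
        _ ≤ r * max C₁ (max C₂ C₃) := mul_le_mul_of_nonneg_left h3 hr
        _ = max C₁ (max C₂ C₃) * r := mul_comm _ _

end Pool.Agent.Lib.BK2
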