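import Pool.Agent.Lib.BK2.SGlue
import Pool.Agent.Lib.BK2.STA
import Pool.Agent.Lib.BK2.STS
import Pool.Agent.Lib.BK2.STP
import Pool.Agent.Lib.BK2.STV
import Pool.Agent.Lib.BK2.SUPst
import Pool.Agent.Lib.BK2.SWMa
import Pool.Agent.Lib.BK2.SWMm
import Pool.Agent.Lib.BK2.SWM1
import Pool.Agent.Lib.BK2.SWM2
import Pool.Agent.Lib.BK2.SGainC
import Pool.Agent.Lib.BK2.SCLN
import Pool.Agent.Lib.BK2.SFIN
import Pool.Agent.Lib.BK2.CoreAll
import Pool.Agent.Lib.BK2.NTUP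
import Pool.Agent.Lib.BK2.NBAS
import Pool.Agent.Lib.BK2.NEMB
import Pool.Agent.Lib.BK2.NEUL
import Pool.Agent.Lib.BK2.NCNT
import Pool.Agent.Lib.BK2.NGRP1
import Pool.Agent.Lib.BK2.NGRP2
import Pool.Agent.Lib.BK2.NGRP3
import Pool.Agent.Lib.BK2.GRID
import Pool.Agent.Lib.BK2.NROUGH
import Pool.Agent.Lib.BK2.NRHO
import Pool.Agent.Lib.BK2.NUNITS
import Pool.Agent.Lib.BK2.NFRAME
import Pool.Agent.Lib.BK2.NDENS
import Pool.Agent.Lib.BK2.NDIST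
import Pool.Agent.Lib.BK2.NTUPU
import Pool.Agent.Lib.BK2.NTUPL
import Pool.Agent.Lib.BK2.ALLT
import Pool.Agent.Lib.BK2.MOD

/-! BK2: sections S and N without hypotheses. -/

namespace Pool.Agent.Lib.BK2.All

theorem secS : St_S :=
  stS_of stTA stTS (stTP stUP) (stTV stUP) stWMa (stWMm stTA stTS (stTP stUP) (stTV stUP)) stWM1
    (stWM2 stTA stTS (stTP stUP) (stTV stUP)) (stGAIN stTA stTS (stTP stUP) (stTV stUP)) stCLN
    (stSFIN Co.core)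

open NT in
theorem secN : NT.St_TUP :=
  stTUP stBAS stEMB stFIB stCNT
    (stGRP stBAS (stGRP1 stBAS) (stGRP2 stBAS stLOG stEMB) (stGRP3 stBAS stEMB)) (stGRID stEMB)
    (stROUGH stBAS stLOG stEMB (stRHO stBAS stLOG stEMB stUNITS) stEUL) (stFRAME stEMB)
    (stDENS stBAS stEMB) stDIST (stTUPU stBAS stLOG stEMB) (stTUPL stBAS stLOG stEMB) stALLT stMOD

end Pool.Agent.Lib.BK2.All
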