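import Pool.Agent.Lib.BK2.ZFDefs
import Pool.Agent.Lib.BK2.Bas
import Pool.Agent.Lib.BK2.SM

/-! ZCNT: counts and second moments of incidences in a class of a cube. -/

open Polynomial Finset

noncomputable section

namespace Pool.Agent.Lib.BK2

namespace ZCNT

/-- reduction of the coordinates -/
def red (I : Type) (M : ℕ) : (I → ℤ) →+ (I → ZMod M) where
  toFun v i := v i
  map_zero' := funext fun _ => Int.cast_zero
  map_add' _ _ := funext fun _ => Int.cast_add _ _

theorem red_exp {I : Type} (M : ℕ) (v : I → ℤ) : M • red I M v = 0 := funext fun i => by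
  rw [Pi.smul_apply, nsmul_eq_mul, ZMod.natCast_self, zero_mul, Pi.zero_apply]

theorem red_eq {I : Type} {M : ℕ} {v w : I → ℤ} :
    red I M v = red I M w ↔ ∀ i, (M : ℤ) ∣ v i - w i :=
  funext_iff.trans (forall_congr' fun _ => eq_comm.trans (ZMod.intCast_eq_intCast_iff_dvd_sub _ _ _))

theorem inC_iff {I : Type} [Fintype I] [DecidableEq I] {a w0 w : I → ℤ} {s M : ℕ} :
    InC a s M w0 w ↔ w ∈ BOX.box a (fun _ => s) ∧ red I M w = red I M w0 := by
  rw [BOX.mem_box, red_eq, InC]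

variable {B : Type} [CommRing B] [Algebra ℤ[X] B] {d : ℕ} [NeZero d] (Γ : Geo B d) (m : ℕ)

/-- evaluation at a point -/
def ev (x : Pt B) : (Γ.Ix m → ℤ) →+ ZMod x.p :=
  x.2.toAddMonoidHom.comp (Γ.elL m).toAddMonoidHom

theorem ev_iff (x : Pt B) (w : Γ.Ix m → ℤ) : x.On (Γ.el w) ↔ ev Γ m x w = 0 := Iff.rfl

omit [Algebra ℤ[X] B] in
theorem prime (x : Pt B) : x.p.Prime := x.1.2

theorem ev_surj (x : Pt B) : Function.Surjective (ev Γ m x) := fun u => by
  obtain ⟨n, rfl⟩ := ZMod.intCast_surjective u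
  refine ⟨Γ.co m (n : B), ?_⟩
  change x.2 (Γ.el (Γ.co m (n : B))) = _
  rw [Γ.el_co (Γ.intCast_mem n m), map_intCast]
  rfl

theorem ev_surj_two (h : ∀ (p : ℕ) (x x' : B →+* ZMod p), p.Prime → x ≠ x' →
      ∀ u u' : ZMod p, ∃ e : Γ.Ix m → ℤ, x (Γ.el e) = u ∧ x' (Γ.el e) = u') {x y : Pt B}
    (hne : x ≠ y) : Function.Surjective ((ev Γ m x).prod (ev Γ m y)) := by
  by_cases hp : x.p = y.p
  · obtain ⟨p, f⟩ := x
    obtain ⟨p', f'⟩ := y
    obtain rfl : p = p' := Subtype.ext hp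
    rintro ⟨u, u'⟩
    obtain ⟨e, h1, h2⟩ := h p f f' p.2 (fun e => hne (by rw [e])) u u'
    exact ⟨e, Prod.ext h1 h2⟩
  · exact SM.surj_prod (ev_surj Γ m x) (ev_surj Γ m y)
      ((Nat.coprime_primes (prime x) (prime y)).2 hp)

end ZCNT

open ZCNT in
theorem stZCNT (hM : St_MODP) : St_ZCNT := by
  intro B _ _ _ d _ Γ m hm hm1 a w0 s M S η R Xs hS hM0 hη hr hR hX hs
  classical
  have h2 := fun {x y : Pt B} => ev_surj_two Γ m ((hM B d Γ).2.2.2.1 m hm hm1) (x := x) (y := y)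
  have eS : S = {v ∈ BOX.box a (fun _ => s) | red _ M v = red _ M w0} :=
    Finset.ext fun w => by rw [hS, inC_iff, mem_filter]
  have hif : ∀ (x : Pt B) w, (@ite ℝ (x.On (Γ.el w)) (Classical.propDecidable _) 1 0) =
      if ev Γ m x w = 0 then 1 else 0 := fun x w => if_congr Iff.rfl rfl rfl
  have hc1 : (1 : ℝ) ≤ Fintype.card (Γ.Ix m) := by
    have : Nonempty (Γ.Ix m) := ⟨Γ.ixT 0 (Nat.zero_le _)⟩
    exact_mod_cast Fintype.card_pos
  have hMr : (0 : ℝ) ≤ M := Nat.cast_nonneg _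
  have hp0 : ∀ x : Pt B, (0 : ℝ) ≤ x.p := fun x => Nat.cast_nonneg _
  have hR2 : R ^ 2 ≤ R ^ 3 := pow_le_pow_right₀ hR (by norm_num)
  have hR1 : R ≤ R ^ 2 := by nlinarith
  have hpp : ∀ x ∈ Xs, ∀ y ∈ Xs, (x.p : ℝ) * y.p ≤ R ^ 2 := fun x hx y hy => by
    rw [sq]
    exact mul_le_mul (hX x hx).2 (hX y hy).2 (hp0 y) (by linarith)
  have hb : ∀ t : ℝ, t ≤ R ^ 3 → M * t ≤ η / 32 * s := fun t ht => by
    have := mul_le_mul_of_nonneg_left ht hMr
    linarith
  have hrη : 0 ≤ Fintype.card (Γ.Ix m) * η := by positivity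
  have hr' : Fintype.card (Γ.Ix m) * (η / 32) ≤ 1 / 8 := by linarith
  have h8 : 8 * Fintype.card (Γ.Ix m) * (η / 32) ≤ Fintype.card (Γ.Ix m) * η := by linarith
  have h24 : 24 * Fintype.card (Γ.Ix m) * (η / 32) ≤ Fintype.card (Γ.Ix m) * η := by linarith
  refine ⟨?_, fun x hx => ?_, fun x hx y hy hne => ?_, fun c => ?_, fun y hy c hc => ?_⟩
  · have h3 := BOX.fiber_lower (red _ M) hM0 (red_exp M) a (fun _ => s) w0
    have h4 : M < s := by
      have h5 := hb 1 (one_le_pow₀ hR)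
      have h6 : (0 : ℝ) < M := by exact_mod_cast hM0
      have h7 : η ≤ 1 := by nlinarith
      have h9 : (0 : ℝ) ≤ s := Nat.cast_nonneg _
      have : (M : ℝ) < s := by nlinarith
      exact_mod_cast this
    have h5 : 0 < ∏ _j : Γ.Ix m, (s - M) := prod_pos fun _ _ => Nat.sub_pos_of_lt h4
    rw [eS]
    exact card_pos.1 (Nat.pos_of_mul_pos_right (h5.trans_le h3))
  · have h3 := SM.count_one (red _ M) hM0 (red_exp M) (prime x).pos (hX x hx).1.symm
      (ev_surj Γ m x) a (s := fun _ => s) (η := η / 32)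
      (fun _ => hb _ ((hX x hx).2.trans (hR1.trans hR2))) (by positivity) (by linarith) w0
    rw [← eS] at h3
    have e : ({w ∈ S | x.On (Γ.el w)} : Finset _) = {w ∈ S | ev Γ m x w = 0} :=
      Finset.ext fun w => by rw [mem_filter, mem_filter, ev_iff]
    rw [e]
    exact h3.trans (mul_le_mul_of_nonneg_right h8 (Nat.cast_nonneg _))
  · have h3 := SM.count_two (red _ M) hM0 (red_exp M) (prime x).pos (prime y).pos
      (hX x hx).1.symm (hX y hy).1.symm (h2 hne) a (s := fun _ => s) (η := η / 32)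
      (fun _ => hb _ ((hpp x hx y hy).trans hR2)) (by positivity) (by linarith) w0
    rw [← eS] at h3
    have e : ({w ∈ S | x.On (Γ.el w) ∧ y.On (Γ.el w)} : Finset _) =
        {w ∈ S | ev Γ m x w = 0 ∧ ev Γ m y w = 0} :=
      Finset.ext fun w => by rw [mem_filter, mem_filter, ev_iff, ev_iff]
    rw [e]
    exact h3.trans (mul_le_mul_of_nonneg_right h8 (Nat.cast_nonneg _))
  · have h3 := SM.sm (red _ M) hM0 (red_exp M) Xs Pt.p (ev Γ m) (fun x _ => (prime x).two_le)
      (fun x hx => (hX x hx).1.symm) (fun x _ => ev_surj Γ m x) (fun x _ y _ hne => h2 hne) a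
      (s := fun _ => s) (η := η / 32) (fun x hx y hy _ => hb _ ((hpp x hx y hy).trans hR2))
      (by positivity) hr' w0 c
    rw [← eS] at h3
    simp only [hif]
    exact h3.trans (mul_le_mul_of_nonneg_left (add_le_add_right
      (mul_le_mul_of_nonneg_right h24 (sq_nonneg _)) _) (Nat.cast_nonneg _))
  · obtain ⟨u, u1, u2⟩ := BOX.exists_crt (red _ M) (ev Γ m y) (red_exp M) (SM.zmod_exp _)
      (hX y hy).1.symm w0 0
    have h3 := SM.sm ((red _ M).prod (ev Γ m y)) (q := M * y.p) (Nat.mul_pos hM0 (prime y).pos)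
      (fun v => Prod.ext
        (by change (M * y.p) • red _ M v = 0; rw [mul_comm, mul_smul, red_exp, smul_zero])
        (by change (M * y.p) • ev Γ m y v = 0; rw [mul_smul, SM.zmod_exp, smul_zero]))
      {x ∈ Xs | x.p ≠ y.p} Pt.p (ev Γ m) (fun x _ => (prime x).two_le)
      (fun x hx => Nat.Coprime.mul_left (hX x (mem_filter.1 hx).1).1.symm
        ((Nat.coprime_primes (prime y) (prime x)).2 (mem_filter.1 hx).2.symm))
      (fun x _ => ev_surj Γ m x) (fun x _ y _ hne => h2 hne) a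
      (s := fun _ => s) (η := η / 32) (fun x hx x' hx' _ => by
        rw [Nat.cast_mul, mul_assoc]
        refine hb _ ?_
        rw [pow_succ' R 2]
        exact mul_le_mul (hX y hy).2 (hpp x (mem_filter.1 hx).1 x' (mem_filter.1 hx').1)
          (mul_nonneg (hp0 x) (hp0 x')) (by linarith))
      (by positivity) hr' u c
    have e : ({w ∈ S | y.On (Γ.el w)} : Finset _) = {v ∈ BOX.box a (fun _ => s) |
        ((red _ M).prod (ev Γ m y)) v = ((red _ M).prod (ev Γ m y)) u} :=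
      Finset.ext fun w => by
        rw [mem_filter, mem_filter, hS, inC_iff, ev_iff, AddMonoidHom.prod_apply,
          AddMonoidHom.prod_apply, u1, u2, map_zero, Prod.mk.injEq, and_assoc]
    have e1 : ∀ f : Pt B → ℝ, (∀ x, c x = 0 → f x = 0) →
        ∑ x ∈ Xs with x.p ≠ y.p, f x = ∑ x ∈ Xs, f x := fun f hf =>
      sum_filter_of_ne fun x _ h0 e => h0 (hf x (hc x e))
    rw [← e, e1 _ fun x h0 => by rw [h0]; simp, e1 _ fun x h0 => by rw [h0]; simp] at h3
    simp only [hif]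
    refine le_trans (le_of_eq (sum_congr rfl fun w _ => ?_)) (h3.trans
      (mul_le_mul_of_nonneg_left (add_le_add_right
        (mul_le_mul_of_nonneg_right h24 (sq_nonneg _)) _) (Nat.cast_nonneg _)))
    rw [e1 _ fun x h0 => by rw [h0, zero_mul]]

end Pool.Agent.Lib.BK2
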