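import Pool.Agent.Lib.BK2.ZFDefs

/-! A large subset of a class of an integer cube is dense in the real cube. -/

open Finset

noncomputable section

namespace Pool.Agent.Lib.BK2

namespace ZDEN

theorem count (b c w : ℤ) {M : ℕ} (hM : 0 < M) :
    (c - b - M : ℝ) ≤ #{x ∈ Ico b c | (M : ℤ) ∣ x - w} * M ∧
      (b ≤ c → (#{x ∈ Ico b c | (M : ℤ) ∣ x - w} * M : ℝ) ≤ c - b + M) := by
  have h := Int.Ico_filter_modEq_card b c (Int.natCast_pos.2 hM) w
  simp only [Int.modEq_iff_dvd, dvd_sub_comm (b := w)] at h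
  generalize #{x ∈ Ico b c | (M : ℤ) ∣ x - w} = N at h
  have hM' : (0 : ℚ) < ((M : ℤ) : ℚ) := by exact_mod_cast hM
  have h1 := (div_le_iff₀ hM').1 (Int.le_ceil (((c : ℚ) - w) / ((M : ℤ) : ℚ)))
  have h2 := (div_le_iff₀ hM').1 (Int.le_ceil (((b : ℚ) - w) / ((M : ℤ) : ℚ)))
  have h3 := (lt_div_iff₀ hM').1
    (sub_lt_iff_lt_add.2 (Int.ceil_lt_add_one (((c : ℚ) - w) / ((M : ℤ) : ℚ))))
  have h4 := (lt_div_iff₀ hM').1
    (sub_lt_iff_lt_add.2 (Int.ceil_lt_add_one (((b : ℚ) - w) / ((M : ℤ) : ℚ))))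
  generalize ⌈((c : ℚ) - w) / ((M : ℤ) : ℚ)⌉ = p at h h1 h3
  generalize ⌈((b : ℚ) - w) / ((M : ℤ) : ℚ)⌉ = q at h h2 h4
  have k1 : c - w ≤ p * M := by exact_mod_cast h1
  have k2 : b - w ≤ q * M := by exact_mod_cast h2
  have k3 : (p - 1) * M < c - w := by exact_mod_cast h3
  have k4 : (q - 1) * M < b - w := by exact_mod_cast h4
  have hM0 : (0 : ℤ) < M := Int.natCast_pos.2 hM
  have e1 : c - b - M ≤ (N : ℤ) * M := by
    have := mul_le_mul_of_nonneg_right (h ▸ le_max_left (p - q) 0) hM0.le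
    linarith
  refine ⟨by exact_mod_cast e1, fun hbc => ?_⟩
  have e2 : (N : ℤ) * M ≤ c - b + M := by
    rcases max_choice (p - q) 0 with e | e <;> rw [h, e] <;> linarith
  exact_mod_cast e2

theorem line {o s t r H z : ℝ} {a w : ℤ} {sd M : ℕ} (hM : 0 < M) (hH : 0 < H) (ht : 0 < t)
    (hts : t ≤ s) (htr : t ≤ r) (h1 : |a - o * H| ≤ t * H / 8) (h2 : |sd - s * H| ≤ t * H / 8)
    (h3 : (M : ℝ) ≤ t * H / 8) (hz : o ≤ z ∧ z ≤ o + s) :
    t / (16 * s) * #{x ∈ Ico a (a + sd) | (M : ℤ) ∣ x - w} ≤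
      #{x ∈ Ico a (a + sd) | (M : ℤ) ∣ x - w ∧ |x / H - z| < r} := by
  have hs : 0 < s := ht.trans_le hts
  have hM1 : (1 : ℝ) ≤ M := by exact_mod_cast hM
  have a1 := mul_le_mul_of_nonneg_right hts hH.le
  have a2 := mul_le_mul_of_nonneg_right htr hH.le
  have a3 := mul_le_mul_of_nonneg_right hz.1 hH.le
  have a4 := mul_le_mul_of_nonneg_right hz.2 hH.le
  rw [add_mul] at a4
  rw [abs_le] at h1 h2
  obtain ⟨lo, l1, l2, l3, l4⟩ : ∃ lo : ℝ, o * H + t * H / 8 ≤ lo ∧ z * H - 3 * (t * H) / 4 ≤ lo ∧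
      lo + t * H / 2 ≤ o * H + s * H - t * H / 4 ∧ lo + t * H / 2 ≤ z * H + 5 * (t * H) / 8 := by
    rcases le_total (o * H + t * H / 8) (z * H - 3 * (t * H) / 4) with h | h
    · exact ⟨_, h, le_rfl, by linarith, by linarith⟩
    · exact ⟨_, le_rfl, h, by linarith, by linarith⟩
  have c1 := (count a (a + sd) w hM).2 (by omega)
  have c2 := (count ⌈lo⌉ ⌈lo + t * H / 2⌉ w hM).1
  have c3 : (#{x ∈ Ico ⌈lo⌉ ⌈lo + t * H / 2⌉ | (M : ℤ) ∣ x - w} : ℝ) ≤
      #{x ∈ Ico a (a + sd) | (M : ℤ) ∣ x - w ∧ |x / H - z| < r} := by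
    refine Nat.cast_le.2 (card_le_card fun x hx => ?_)
    obtain ⟨hx, hd⟩ := mem_filter.1 hx
    obtain ⟨x1, x2⟩ := mem_Ico.1 hx
    rw [Int.ceil_le] at x1
    rw [Int.lt_ceil] at x2
    refine mem_filter.2 ⟨mem_Ico.2 ⟨?_, ?_⟩, hd, ?_⟩
    · exact_mod_cast (by linarith : (a : ℝ) ≤ x)
    · exact_mod_cast (by linarith : (x : ℝ) < a + sd)
    · rw [abs_lt, lt_sub_iff_add_lt, sub_lt_iff_lt_add, lt_div_iff₀ hH, div_lt_iff₀ hH]
      constructor <;> linarith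
  have c4 := Int.ceil_lt_add_one lo
  have c5 := Int.le_ceil (lo + t * H / 2)
  push_cast at c1
  generalize (#{x ∈ Ico a (a + sd) | (M : ℤ) ∣ x - w} : ℝ) = N at c1 ⊢
  generalize (#{x ∈ Ico ⌈lo⌉ ⌈lo + t * H / 2⌉ | (M : ℤ) ∣ x - w} : ℝ) = N' at c2 c3
  refine le_trans (le_of_mul_le_mul_right ?_ (zero_lt_one.trans_le hM1)) c3
  rw [mul_assoc, div_mul_eq_mul_div, div_le_iff₀ (by positivity)]
  have b1 : t * (N * M) ≤ t * (2 * (s * H)) := mul_le_mul_of_nonneg_left (by linarith) ht.le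
  have b2 : t * H / 4 * (16 * s) ≤ N' * M * (16 * s) :=
    mul_le_mul_of_nonneg_right (by linarith) (by positivity)
  have b3 : 0 < t * (s * H) := by positivity
  linarith

end ZDEN

theorem stZDEN : St_ZDEN := by
  classical
  intro I _ o s r₀ H a w0 sd M S G hs hr₀ hH hM hS _ h1 h2 h3 hG hc pe hpe r hr z
  have hr0 : 0 < r := hr₀.trans_le hr
  have ht : 0 < min r s := lt_min hr0 hs
  have hm : min r₀ s ≤ min r s := min_le_min_right s hr
  have hm' : min r₀ s * H / 8 ≤ min r s * H / 8 := by gcongr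
  have eS : S = Fintype.piFinset fun i => {x ∈ Ico (a i) (a i + sd) | (M : ℤ) ∣ x - w0 i} := by
    ext w
    simp only [hS, InC, Fintype.mem_piFinset, mem_filter, mem_Ico, forall_and]
  let T := Fintype.piFinset fun i =>
    {x ∈ Ico (a i) (a i + sd) | (M : ℤ) ∣ x - w0 i ∧ |x / H - z.1 i| < r}
  have hT : T ⊆ S := eS ▸ Fintype.piFinset_subset _ _ fun i x hx =>
    mem_filter.2 ⟨(mem_filter.1 hx).1, (mem_filter.1 hx).2.1⟩
  have c1 : 2 * dns (Fintype.card I) s r * #S ≤ #T := by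
    rw [eS, dns, mul_div_cancel₀ _ two_ne_zero, Fintype.card_piFinset, Fintype.card_piFinset,
      Nat.cast_prod, Nat.cast_prod, ← card_univ, ← prod_const, ← prod_mul_distrib]
    exact prod_le_prod (fun i _ => by positivity) fun i _ => ZDEN.line hM hH ht (min_le_right _ _)
      (min_le_left _ _) ((h1 i).trans hm') (h2.trans hm') (h3.trans hm') (z.2 i)
  have c2 : dns (Fintype.card I) s r₀ ≤ dns (Fintype.card I) s r := by
    have := (lt_min hr₀ hs).le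
    unfold dns
    gcongr
  have c3 : (#T : ℝ) + #G ≤ #S + #(T ∩ G) := by
    have := card_le_card (union_subset hT hG)
    have := card_union_add_card_inter T G
    exact_mod_cast (by omega : #T + #G ≤ #S + #(T ∩ G))
  have c4 : (#(T ∩ G) : ℝ) ≤ Nat.card {g // dist (pe g) z < r} := by
    rw [← Fintype.card_coe, ← Nat.card_eq_fintype_card, Nat.cast_le]
    refine Nat.card_le_card_of_injective (fun x => ⟨⟨x.1, (mem_inter.1 x.2).2⟩, ?_⟩)
      fun x y e => Subtype.ext (congrArg (fun g => g.1.1) e)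
    rw [Subtype.dist_eq, hpe, dist_pi_lt_iff hr0]
    exact fun i => (mem_filter.1 (Fintype.mem_piFinset.1 (mem_inter.1 x.2).1 i)).2.2
  have c5 : (#G : ℝ) ≤ #S := Nat.cast_le.2 (card_le_card hG)
  have c6 : 0 ≤ dns (Fintype.card I) s r := by
    unfold dns
    positivity
  have c7 := mul_le_mul_of_nonneg_left c5 c6
  have c8 := mul_le_mul_of_nonneg_right c2 (Nat.cast_nonneg (α := ℝ) #S)
  rw [Fintype.card_coe]
  linarith

end Pool.Agent.Lib.BK2
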