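import Pool.Agent.Lib.BK2.ZFB

/-! BK2 block ZF: the concrete data satisfy the hypotheses of section S. -/

open Polynomial Finset
open scoped Classical

noncomputable section

namespace Pool.Agent.Lib.BK2

open ZF

theorem stZF (hPAR : St_ZPAR) (hGRID : St_ZGRID) (hWIN : St_ZWIN) (hVAR : St_ZVAR)
    (hOSC : St_ZOSC) (hMAJ : St_ZMAJ) (hMOD : St_MOD) (hPROD : St_PROD) : St_ZF := by
  intro B _ _ _ d _ Γ m m' ν ν' U U' ρ ρ' Φ o s o' s' hm hm' hs hs' hU hU' c1' c2' c3'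
  obtain ⟨R, hR, hPAR⟩ := hPAR (Γ.Ix m) o s hs
  have hR' : (0 : ℝ) < R := by exact_mod_cast hR
  obtain ⟨KV, hKV, hVAR⟩ := hVAR B d Γ m m' (by omega) (by omega) hm' (s / (2 * R))
    (by positivity)
  obtain ⟨cM, KM, k0, hcM, hKM, hk0, hMOD⟩ := hMOD (1 / 200) (by norm_num)
  obtain ⟨⟨K0, hK0, hb⟩, hosc⟩ := osc_pack hOSC (fun e w => ρ.lam e w) (fun w e => ρ'.lam w e) Φ
    (isCompact_rcube o s) (isCompact_rcube (fun i => o' i - 2 * s') (5 * s'))
    ⟨o, fun i => ⟨le_rfl, by linarith⟩⟩ hU' c1' c2' c3'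
  obtain ⟨K, hK4, hK3, hKM', hKK⟩ : ∃ K : ℝ, 4 ≤ K ∧ 3 ^ Fintype.card (Γ.Ix m') ≤ K ∧ KM ≤ K ∧
      K0 ≤ K := exists_ub [4, 3 ^ Fintype.card (Γ.Ix m'), KM, K0]
  refine ⟨K, k0, fun eps he he1 => ?_⟩
  obtain ⟨⟨r, hr, hoW⟩, nb, ec, hoE⟩ := hosc eps he
  refine ⟨nb, ec, fun del ck r₀ M0 N e0 hd hde hck hr0 hM0 hN => ?_⟩
  obtain ⟨C, a1, a2, a3, a4, a5, a6, a7, a8, a9, a10, a11⟩ : ∃ C : ℝ, 1 ≤ C ∧
      16 * KV * (N : ℝ) ^ 2 / min r₀ s' ≤ C ∧ 4 * KV / s' ≤ C ∧ 32 * d / del ≤ C ∧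
      512 * Fintype.card (Γ.Ix m) * M0 / (del * s) ≤ C ∧
      64 * Fintype.card (Γ.Ix m') * (N : ℝ) ^ 2 / del ≤ C ∧ 2 * KV * M0 / s ≤ C ∧
      KV * (N : ℝ) ^ 2 * R ≤ C ∧ KV * (N : ℝ) ^ 2 * M0 ≤ C ∧ (N : ℝ) ^ 2 ≤ C ∧
      2 * (m * d * d) / eps ≤ C :=
    exists_ub [1, 16 * KV * (N : ℝ) ^ 2 / min r₀ s', 4 * KV / s', 32 * d / del,
      512 * Fintype.card (Γ.Ix m) * M0 / (del * s), 64 * Fintype.card (Γ.Ix m') * (N : ℝ) ^ 2 / del,
      2 * KV * M0 / s, KV * (N : ℝ) ^ 2 * R, KV * (N : ℝ) ^ 2 * M0, (N : ℝ) ^ 2,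
      2 * (m * d * d) / eps]
  obtain ⟨H0, hPAR⟩ := hPAR r₀ C M0
    (2 + N + ⌈s' / r⌉₊ + ⌈Real.exp (16 * KV / (ck * del))⌉₊) e0 hr0 hM0
  refine ⟨H0, fun H hH Xs hX hmb hmb1 hlaw w0 H' hH' => ?_⟩
  obtain ⟨p1, p2, p3, p4, p5, p6, p7, p8, p9, p10, p11, p12, p13, p14, -⟩ := hPAR H hH
  clear hPAR
  generalize hY : zY H = Y at *
  generalize hL : zL M0 H = L at *
  generalize hl : Real.log H = l at *
  generalize hT : winT H = T at p8 p10 p11
  have hl1 : 1 ≤ l := a1.trans p9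
  have nT : ∀ {c : ℝ} {j : ℕ}, c ≤ C → j ≤ 5 → c * l ^ j ≤ T := fun h hj => num_T a1 p9 p10 h hj
  have nT0 : ∀ {c : ℝ}, c ≤ C → c ≤ T := fun h => by simpa using nT (j := 0) h (by norm_num)
  have hT1 : 1 ≤ T := nT0 a1
  have hT0 : 0 < T := by linarith
  have hH1 : (1 : ℝ) ≤ H := p11 ▸ one_le_pow₀ hT1
  have hH0 : (0 : ℝ) < H := by linarith
  have hH0' : 0 < H := by exact_mod_cast hH0
  have hH'0 : 0 < H' := lt_of_lt_of_le (by positivity) hH'
  have hY2 : 2 ≤ Y := by omega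
  have hY2' : (2 : ℝ) ≤ Y := by exact_mod_cast hY2
  have hL0 : (0 : ℝ) < L := by exact_mod_cast p4
  have hLH : (L : ℝ) ≤ H := by exact_mod_cast p3
  have hM0' : (1 : ℝ) ≤ M0 := by exact_mod_cast hM0
  have hd1 : del ≤ 1 := by linarith
  have hmb0 : 0 < mbar Xs := by linarith
  have hμ : ∀ x, 0 < pmu Xs x := fun x => one_div_pos.2 (mul_pos hmb0 (p_pos x))
  have hXp : ∀ x ∈ Xs, T ≤ x.p ∧ (x.p : ℝ) ≤ T ^ 2 := fun x hx => hT ▸ (hX x).1 hx
  have hco : ∀ x ∈ Xs, Nat.Coprime x.p (N ^ 2 * L * L) := fun x hx => by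
    have hp : x.p.Prime := x.1.2
    have h1 : Y < x.p := by exact_mod_cast p8.trans_le (hXp x hx).1
    have h2 : Nat.Coprime x.p L := (Nat.Prime.coprime_iff_not_dvd hp).2 fun h => by
      have := (p5 _ hp).1 h; omega
    have h3 : Nat.Coprime x.p N := (Nat.Prime.coprime_iff_not_dvd hp).2 fun h => by
      have := Nat.le_of_dvd hN h; omega
    exact ((h3.pow_right 2).mul_right h2).mul_right h2
  have hM0L : M0 ∣ L := by simpa using p6 1 le_rfl (by omega)
  have hMpos : 0 < N ^ 2 * L := by positivity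
  have hQpos : 0 < N ^ 2 * L * L := by positivity
  obtain ⟨n, hn⟩ : ∃ n : ℕ, n = ⌈KV * (Y : ℝ) ^ 4⌉₊ := ⟨_, rfl⟩
  have hn1 : KV * (Y : ℝ) ^ 4 ≤ n := hn ▸ Nat.le_ceil _
  have hn2 : (n : ℝ) ≤ 2 * KV * l ^ 4 :=
    num_n (by linarith) p2 hKV (hn ▸ (Nat.ceil_lt_add_one (by positivity)).le)
  have hYn : (Y : ℝ) ≤ n := by
    refine le_trans ?_ hn1
    calc (Y : ℝ) = 1 * Y ^ 1 := by ring
      _ ≤ KV * Y ^ 4 := mul_le_mul hKV (pow_le_pow_right₀ (by linarith) (by norm_num))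
          (by positivity) (by linarith)
  have hn0 : (1 : ℝ) ≤ n := by linarith
  obtain ⟨a, sp, W, Wp, g1, g2, gW, gWp, gne, gsub, gcard, gin, gin', gsat, gcell, gdist, gden⟩ :=
    hGRID (Γ.Ix m') o' s' r₀ H' n (N ^ 2 * L) (N ^ 2 * L * L) w0 hs' hr0 hH'0
      (by exact_mod_cast lt_of_lt_of_le one_pos hn0) hMpos hQpos (dvd_mul_right _ _) (by
        push_cast
        exact num_grid hT1 p11 hH' hL0.le hLH (lt_min hr0 hs') hn2 (nT a2 (by norm_num)))
  have hsp0 : (0 : ℝ) ≤ sp := Nat.cast_nonneg _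
  have hsp1 : H' / l ^ 5 ≤ sp := num_sp hl1 hs' hH'0.le hsp0 hn2 g1 (a3.trans p9)
  have h79 : T ^ 79 ≤ sp := num_79 hT1 hl1 (nT a1 le_rfl) p11 hH' hsp1
  have hspn : (sp : ℝ) ≤ (n * sp : ℕ) := by push_cast; nlinarith
  have hL20 : (L : ℝ) ≤ T ^ 20 := p11 ▸ hLH
  refine ⟨W, Wp, a, sp, gne, fun w hw => ⟨gin w hw, gin' w (gsub hw), ((gW w).1 hw).2⟩, gden, ?_⟩
  intro k P η KG c1 G Maj κ spl Z hk hkP hε hη hc1 hG hEG hp hgram
  -- the three families
  have hdT : ∀ {x : ℝ}, del / 4 ≤ x → 8 * d ≤ x * T := fun h => by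
    have := nT0 a4
    rw [div_le_iff₀ hd] at this
    nlinarith
  obtain ⟨wE0, wq, wE1, wE2, wE3, wE4⟩ := hWIN B d Γ m hm H Xs hX hmb (fun i => ⌈o i * H⌉) e0
    ⌊s * H⌋₊ M0 (zE o s M0 e0 H) (del / 4) (fun _ => mem_zcell) hM0
    (fun x hx => (hco x hx).coprime_dvd_right (hM0L.trans (dvd_mul_left _ _))) (by positivity)
    (by linarith) (hT ▸ hdT le_rfl) (by
      rw [hT]
      have h1 := nT0 a5
      rw [div_le_iff₀ (by positivity)] at h1
      have h2 : T * T ^ 6 ≤ H := by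
        rw [← p11, ← pow_succ']; exact pow_le_pow_right₀ hT1 (by norm_num)
      calc 64 * (Fintype.card (Γ.Ix m) : ℝ) * M0 * T ^ 6
          = 512 * Fintype.card (Γ.Ix m) * M0 * T ^ 6 / 8 := by ring
        _ ≤ T * (del * s) * T ^ 6 / 8 := by gcongr
        _ = del / 4 * (s / 2 * (T * T ^ 6)) := by ring
        _ ≤ del / 4 * (s / 2 * H) := by gcongr
        _ ≤ del / 4 * ⌊s * H⌋₊ := by gcongr)
  have hQsp : 64 * (Fintype.card (Γ.Ix m') : ℝ) * (N ^ 2 * L * L : ℕ) * T ^ 6 ≤ del * sp := by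
    rw [← div_le_iff₀' hd]
    refine num_le hT1 h79 (j := 46) (by norm_num) (nT0 a6) ?_
    push_cast
    calc 64 * (Fintype.card (Γ.Ix m') : ℝ) * (N ^ 2 * L * L) * T ^ 6 / del
        ≤ 64 * (Fintype.card (Γ.Ix m') : ℝ) * (N ^ 2 * T ^ 20 * T ^ 20) * T ^ 6 / del := by gcongr
      _ = _ := by ring
  have hm1 : Γ.dmax + 1 ≤ m' := by omega
  have wC := fun b w => hWIN B d Γ m' hm1 H Xs hX hmb b w sp (N ^ 2 * L * L)
    (zcell b sp (N ^ 2 * L * L) w) del (fun _ => mem_zcell) hQpos hco hd hd1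
    (hT ▸ hdT (by linarith)) (hT ▸ hQsp)
  obtain ⟨-, -, -, -, wW3, -⟩ := hWIN B d Γ m' hm1 H Xs hX hmb a w0 (n * sp) (N ^ 2 * L) W del gW
    hMpos (fun x hx => (hco x hx).coprime_dvd_right (dvd_mul_right _ _)) hd hd1
    (hT ▸ hdT (by linarith)) (by
      rw [hT]
      refine le_trans ?_ (hQsp.trans (mul_le_mul_of_nonneg_left hspn hd.le))
      have : ((N ^ 2 * L : ℕ) : ℝ) ≤ (N ^ 2 * L * L : ℕ) := by
        exact_mod_cast Nat.le_mul_of_pos_right _ p4
      gcongr)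
  obtain ⟨m1, -, -, -, m5, m6, m7⟩ := hMOD (Pt B) Xs (pwb Xs) (pa H) hlaw k P hk hkP
    (cen H Xs k) rfl
  have hk2 : 2 ≤ k := by omega
  have hD : Dm Xs (pwb Xs) (pa H) P k (cen H Xs k) ≠ 0 :=
    (lt_of_lt_of_le (div_pos hcM (Real.sqrt_pos.2 (by exact_mod_cast (by omega : 0 < k)))) m1).ne'
  have hlogY : 16 * KV / (ck * del) ≤ Real.log Y := by
    rw [Real.le_log_iff_exp_le (by linarith)]
    refine (Nat.le_ceil _).trans ?_
    exact_mod_cast (by omega : ⌈Real.exp (16 * KV / (ck * del))⌉₊ ≤ Y)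
  have hlogY0 : 0 < Real.log Y := lt_of_lt_of_le (by positivity) hlogY
  have hκ0 : 0 < ck * Real.log Y / l := by positivity
  have hκ : ∀ e ∈ G, 0 < κ e := fun e he => hκ0.trans_le (hp e he).2.2.2.1
  have hEG' : (#(zE o s M0 e0 H) : ℝ) ≤ 2 * #G := by exact_mod_cast hEG
  have hG0 : (0 : ℝ) ≤ #G := Nat.cast_nonneg _
  have hom : ∀ e w, (if spl e w then 1 / κ e else 0) ≠ 0 → spl e w := fun e w h => by
    by_contra h'
    exact h (if_neg h')
  have hMX : ∀ e ∈ G, Maj e ⊆ Xs := fun e he => (hp e he).2.1.trans (filter_subset _ _)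
  have hmaj := fun e he => hMAJ B d Γ m H Y P Xs η KG (1 / 200) 0 e _ hX (hT ▸ hT1) hmb hlaw
    (hp e he).1 Subset.rfl (by simp) (by norm_num) (by linarith)
  have hEin : ∀ e ∈ G, scl H e ∈ rcube o s := fun e he => (p14 e (hG he)).2
  have hfp : ∀ c, ∀ w ∈ (mkSD Γ ρ ρ' Φ H H' Xs P k nb ec G W Wp a sp (N ^ 2 * L * L)
      Maj κ spl Z).fibp c, (∃ b, (mkSD Γ ρ ρ' Φ H H' Xs P k nb ec G W Wp a sp (N ^ 2 * L * L)
      Maj κ spl Z).fibp c = zcell b sp (N ^ 2 * L * L) w) ∧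
      (∀ i, ((N ^ 2 * L : ℕ) : ℤ) ∣ w i - w0 i) ∧
      scl H' w ∈ rcube (fun i => o' i - 2 * s') (5 * s') := fun c w hw => by
    obtain ⟨hw1, rfl⟩ := mem_fibp.1 hw
    obtain ⟨b, hb⟩ := gcell w hw1
    exact ⟨⟨b, Eq.trans (Finset.ext fun v => ⟨fun h => mem_flt.2 (mem_fibp.1 h),
      fun h => mem_fibp.2 (mem_flt.1 h)⟩) hb⟩, ((gWp w).1 hw1).2, gin' w hw1⟩
  have hf : ∀ c, (mkSD Γ ρ ρ' Φ H H' Xs P k nb ec G W Wp a sp (N ^ 2 * L * L)
      Maj κ spl Z).fib c = ∅ ∨ ∃ b w, (mkSD Γ ρ ρ' Φ H H' Xs P k nb ec G W Wp a sp (N ^ 2 * L * L)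
      Maj κ spl Z).fib c = zcell b sp (N ^ 2 * L * L) w := fun c => by
    refine (eq_empty_or_nonempty _).imp id fun ⟨w, hw⟩ => ?_
    obtain ⟨hw1, rfl⟩ := mem_fib.1 hw
    obtain ⟨b, hb⟩ := gcell w (gsub hw1)
    exact ⟨b, w, Eq.trans (Finset.ext fun v =>
      ⟨fun h => mem_flt.2 ⟨gsub (mem_fib.1 h).1, (mem_fib.1 h).2⟩, fun h =>
        mem_fib.2 ⟨gsat w hw1 v (mem_flt.1 h).1 (mem_flt.1 h).2, (mem_flt.1 h).2⟩⟩) hb⟩
  have hsm : ∀ g : Pt B → ℝ, 0 ≤ ∑ x ∈ Xs, g x ^ 2 * (pmu Xs x / x.p) := fun g =>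
    sum_nonneg fun x _ => mul_nonneg (sq_nonneg _) (div_pos (hμ x) (p_pos x)).le
  have hprod := fun e (he : e ∈ G) w (hw : w ∈ W) (h : spl e w) =>
    hPROD B d Γ m m' ν ν' U U' ρ ρ' hm hm' H H' hH0 hH'0 e w (Z e w) (hU (hEin e he))
      (hU' (gin' w (gsub hw))) ((hp e he).2.2.2.2.split w h ((gW w).1 hw).2 (gin' w (gsub hw)))
  have hcE : ∀ x ∈ Xs, (x.p : ℝ) * #{e ∈ G | x ∈ onS Γ Xs e} ≤ K * #G := fun x hx => by
    have h1 := (abs_le.1 (wE1 x hx)).2
    have h2 : (#{e ∈ G | x ∈ onS Γ Xs e} : ℝ) ≤ #{e ∈ zE o s M0 e0 H | x ∈ onS Γ Xs e} := by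
      exact_mod_cast card_le_card (filter_subset_filter _ hG)
    have h3 := mul_le_mul_of_nonneg_left h2 (p_pos x).le
    have h4 := mul_le_mul_of_nonneg_right hK4 hG0
    have h5 := mul_le_mul_of_nonneg_right (by linarith : del / 4 ≤ 1)
      (Nat.cast_nonneg (α := ℝ) #(zE o s M0 e0 H))
    linarith
  have hcE2 : ∀ x ∈ Xs, ∀ y ∈ Xs, x.p ≠ y.p →
      (x.p : ℝ) * y.p * #{e ∈ G | x ∈ onS Γ Xs e ∧ y ∈ onS Γ Xs e} ≤ K * #G :=
    fun x hx y hy hxy => by
    have h1 := (abs_le.1 (wE2 x hx y hy fun e => hxy (e ▸ rfl))).2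
    have h2 : (#{e ∈ G | x ∈ onS Γ Xs e ∧ y ∈ onS Γ Xs e} : ℝ) ≤
        #{e ∈ zE o s M0 e0 H | x ∈ onS Γ Xs e ∧ y ∈ onS Γ Xs e} := by
      exact_mod_cast card_le_card (filter_subset_filter _ hG)
    have h3 := mul_le_mul_of_nonneg_left h2 (mul_pos (p_pos x) (p_pos y)).le
    have h4 := mul_le_mul_of_nonneg_right hK4 hG0
    have h5 := mul_le_mul_of_nonneg_right (by linarith : del / 4 ≤ 1)
      (Nat.cast_nonneg (α := ℝ) #(zE o s M0 e0 H))
    linarith
  have hdG := mul_le_mul_of_nonneg_left hEG' hd.le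
  have hdG0 := mul_nonneg hd.le hG0
  exact
    { hK := by linarith
      hc := hc1
      he := he
      he1 := he1
      hd := hd
      hde := hde
      hk := hk2
      G_ne := card_pos.1 (by have := card_pos.2 wE0; change 0 < #G; omega)
      W_ne := gne
      W_sub := gsub
      W_sat := gsat
      cardWp := by
        change (#Wp : ℝ) ≤ K * #W
        rw [gcard]
        push_cast
        exact mul_le_mul_of_nonneg_right hK3 (Nat.cast_nonneg _)
      p_pos := fun x _ => x.1.2.pos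
      mu_pos := fun x _ => hμ x
      prob := (sum_congr rfl fun x _ => pmu_div Xs x).trans hlaw.one
      fibq := fun q => (wq q).trans (by linarith)
      onE_sub := fun e => filter_subset _ _
      onW_sub := fun e => filter_subset _ _
      Maj_sub := fun e he => (hp e he).2.1
      om_nn := fun e he w => by
        change 0 ≤ if spl e w then 1 / κ e else 0
        split_ifs
        exacts [(one_div_pos.2 (hκ e he)).le, le_rfl]
      Z_Maj := fun e he w h => ((hp e he).2.2.2.2.sub w (hom e w h)).1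
      Z_onW := fun e he w h x hx =>
        have h1 := (hp e he).2.2.2.2.sub w (hom e w h)
        mem_filter.2 ⟨hMX e he (h1.1 hx), h1.2.2.2 x hx⟩
      Z_card := fun e he w h => ((hp e he).2.2.2.2.sub w (hom e w h)).2.1
      Z_inj := fun e he w h x hx y hy hxy =>
        ((hp e he).2.2.2.2.sub w (hom e w h)).2.2.1 hx hy hxy
      d1_mem := fun x hx => by
        have h := abs_le.1 (m5 _ (hlaw.lo x hx) (hlaw.hi x hx)).2
        exact ⟨le_trans (by linarith [h.1]) (le_refl (Dm Xs (pwb Xs) (pa H) P (k - 1)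
          (cen H Xs k - pa H x) / Dm Xs (pwb Xs) (pa H) P k (cen H Xs k))),
          le_trans (le_refl (Dm Xs (pwb Xs) (pa H) P (k - 1)
          (cen H Xs k - pa H x) / Dm Xs (pwb Xs) (pa H) P k (cen H Xs k))) (by linarith [h.2])⟩
      d2_mem := fun x hx y hy => by
        have h := abs_le.1 (m6 (pa H x + pa H y) (by linarith [hlaw.lo x hx, hlaw.lo y hy])
          (by linarith [hlaw.hi x hx, hlaw.hi y hy])).2
        exact ⟨le_trans (by linarith [h.1]) (le_refl (Dm Xs (pwb Xs) (pa H) P (k - 2)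
          (cen H Xs k - (pa H x + pa H y)) / Dm Xs (pwb Xs) (pa H) P k (cen H Xs k))),
          le_trans (le_refl (Dm Xs (pwb Xs) (pa H) P (k - 2)
          (cen H Xs k - (pa H x + pa H y)) / Dm Xs (pwb Xs) (pa H) P k (cen H Xs k)))
          (by linarith [h.2])⟩
      d2_symm := fun x y => by
        change Dm Xs (pwb Xs) (pa H) P (k - 2) (cen H Xs k - (pa H x + pa H y)) / _ =
          Dm Xs (pwb Xs) (pa H) P (k - 2) (cen H Xs k - (pa H y + pa H x)) / _
        rw [add_comm]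
      coer := fun S hS f h1 h2 h3 => by
        obtain ⟨h4, h5⟩ := m7 (Pt B) S (pmu Xs) (pa H) f (fun x _ => (hμ x).le) h1
          (fun x hx => ⟨hlaw.lo x (hS hx), hlaw.hi x (hS hx)⟩) h2 h3
        refine ⟨h4.trans (mul_le_mul_of_nonneg_right
          (div_le_div_of_nonneg_right hKM' (sq_nonneg _))
          (sum_nonneg fun x _ => mul_nonneg (hμ x).le (sq_nonneg _))),
          h5.trans (mul_le_mul_of_nonneg_right
          (div_le_div_of_nonneg_right hKM' (Nat.cast_nonneg _)) (Real.sqrt_nonneg _))⟩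
      emod0 := fun e he c => emod_zero (hp e he).2.2.2.2 (hκ e he) hsp1 _ (hfp c) hε hD
      emod1 := fun e he c x hx =>
        emod_one (hp e he).2.2.2.2 (hκ e he) hsp1 _ (hfp c) hε hx (hμ x).le
      emod2 := fun e he c x hx y hy hxy =>
        emod_two (hp e he).2.2.2.2 (hκ e he) hsp1 _ (hfp c) hε hx hy hxy (hμ x).le (hμ y).le
      var := fun S hS h2 hi f φ h3 h4 h5 => by
        have hP4 := prod_p_le hT1 (fun x hx => (hXp x hx).2) hS h2
        have h6 := hVAR Y M0 (N ^ 2 * L) L (R * H) ⌊s * H⌋₊ (n * sp) sp e0 (fun i => ⌈o i * H⌉) a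
          w0 (zE o s M0 e0 H) W Wp S (T ^ 4) hY2 hM0 hMpos p4 (by positivity) (one_le_pow₀ hT1) p6
          (fun x hx y hy h => hi x hx y hy h) (fun x hx => hco x (hS hx)) hP4 (fun _ => mem_zcell)
          gW gWp p13 (by
            refine le_trans (le_of_eq ?_) p12
            push_cast
            field_simp) (by
            refine le_trans ?_ p12
            have h7 := nT a7 (j := 1) (by norm_num)
            rw [pow_one, div_mul_eq_mul_div, div_le_iff₀ hs] at h7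
            have h8 : T * T ^ 4 ≤ H := by
              rw [← p11, ← pow_succ']; exact pow_le_pow_right₀ hT1 (by norm_num)
            calc KV * T ^ 4 * M0 * Y ≤ KV * T ^ 4 * M0 * l := by gcongr
              _ = 2 * KV * M0 * l * T ^ 4 / 2 := by ring
              _ ≤ T * s * T ^ 4 / 2 := by gcongr
              _ = s / 2 * (T * T ^ 4) := by ring
              _ ≤ s / 2 * H := by gcongr) (by
            refine le_trans (num_le hT1 h79 (j := 40) (by norm_num)
              (nT a8 (j := 2) (by norm_num)) ?_) hspn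
            push_cast
            rw [← p11]
            calc KV * (N ^ 2 * L) * (R * T ^ 20) * (Y : ℝ) ^ 2
                ≤ KV * (N ^ 2 * T ^ 20) * (R * T ^ 20) * l ^ 2 := by gcongr
              _ = _ := by ring) (by
            refine le_trans (num_le hT1 h79 (j := 48) (by norm_num)
              (nT a9 (j := 4) (by norm_num)) ?_) hspn
            push_cast
            calc KV * (N ^ 2 * L) * L * (T ^ 4) ^ 2 * M0 * (Y : ℝ) ^ 4
                ≤ KV * (N ^ 2 * T ^ 20) * T ^ 20 * (T ^ 4) ^ 2 * M0 * l ^ 4 := by gcongr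
              _ = _ := by ring) (by
            push_cast
            exact mul_le_mul_of_nonneg_right hn1 hsp0) (by
            refine num_le hT1 h79 (j := 44) (by norm_num) (nT0 a10) ?_
            push_cast
            calc T ^ 4 * (N ^ 2 * L * L) ≤ T ^ 4 * (N ^ 2 * T ^ 20 * T ^ 20) := by gcongr
              _ = _ := by ring)
          f (fun w _ h x hx => (mem_filter.1 ((h3 w h).2 hx)).2) (fun c =>
            Eq.trans (sum_congr (Finset.ext fun v => ⟨fun h => mem_fib.2 (mem_flt.1 h),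
              fun h => mem_flt.2 (mem_fib.1 h)⟩) fun _ _ => rfl) (h4 c)) G
          (fun e w => (if spl e w then 1 / κ e else 0) *
            φ e (Z e w) (ρ.lam (scl H e) (scl H' w))) hG (fun e he w _ h x hx =>
            (mem_filter.1 ((hp e he).2.1 (((hp e he).2.2.2.2.sub w
              (hom e w (left_ne_zero_of_mul h))).1 (h5 _ _ _ (right_ne_zero_of_mul h) hx)))).2)
          (fun e he w _ t _ => by
            obtain ⟨i1, i2⟩ := (hp e he).2.2.2.2.inv w t
            rw [i2, lam_inv ρ (by omega) hH0.ne' H' (hU (hEin e he)), propext i1])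
        refine var_fin h6 (by linarith) (by linarith) (prod_pos fun x _ => p_pos x) hG0 hEG'
          (prod_mu_ge hmb0 hmb1 S) (sum_nonneg fun w _ => sq_nonneg _)
          (sum_nonneg fun e _ => sum_nonneg fun w _ => sq_nonneg _) hκ0 ?_ ?_
        · rw [sum_div]
          refine sum_le_sum fun e he => ?_
          rw [sum_div]
          exact sum_le_sum fun w _ => sq_om_le hκ0 (hp e he).2.2.2.1
        · rw [div_le_iff₀ (by positivity)]
          rw [div_le_iff₀ (by positivity)] at hlogY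
          have h9 : 1 / 8 ≤ Y / l := by rw [le_div_iff₀ (by linarith)]; exact p1
          calc 2 * KV = 16 * KV * (1 / 8) := by ring
            _ ≤ Real.log Y * (ck * del) * (Y / l) := by gcongr
            _ = _ := by ring
      cntW1 := fun c x hx => by
        rcases hf c with h | ⟨b, w, h⟩ <;> rw [h]
        · simp
        · exact (wC b w).2.2.1 x hx
      cntW2 := fun c x hx y hy hxy => by
        rcases hf c with h | ⟨b, w, h⟩ <;> rw [h]
        · simp
        · exact (wC b w).2.2.2.1 x hx y hy fun e => hxy (e ▸ rfl)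
      cntE := hcE
      cntE2 := hcE2
      smE := fun g => by
        refine le_trans (sum_le_sum_of_subset_of_nonneg hG fun _ _ _ => sq_nonneg _)
          ((wE3 g).trans (mul_le_mul_of_nonneg_right ?_ (hsm g)))
        change del / 4 * #(zE o s M0 e0 H) ≤ del * #G
        linarith
      smEx := fun y hy g hg => by
        refine le_trans (mul_le_mul_of_nonneg_left (sum_le_sum_of_subset_of_nonneg
          (filter_subset_filter _ hG) fun _ _ _ => sq_nonneg _) (p_pos y).le)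
          ((wE4 y hy g hg).trans (mul_le_mul_of_nonneg_right ?_ (hsm g)))
        change 2 * (del / 4) * #(zE o s M0 e0 H) ≤ del * #G
        linarith
      smW := wW3
      muE := fun e he => (hmaj e he).1.trans (by linarith)
      muMaj := fun e he => (hp e he).2.2.1
      primeE := fun e he q => ((hmaj e he).2.2.1 q).trans (by
        have h1 := nT0 a11
        rw [hT, div_le_iff₀ hT0]
        rw [div_le_iff₀ (by assumption)] at h1
        linarith)
      lam_le := fun e he w hw => (hb _ (hEin e he) _ (gin' w hw)).1.trans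
        (pow_le_pow_left₀ (by linarith) hKK 2)
      lam'_le := fun w hw e he => (hb _ (hEin e he) _ (gin' w (gsub hw))).2.1.trans
        (pow_le_pow_left₀ (by linarith) hKK 2)
      Phi_le := fun e he w hw => (hb _ (hEin e he) _ (gin' w (gsub hw))).2.2.trans hKK
      oscE := fun w hw e he e' he' h => hoE _ (gin' w (gsub hw)) _ (hEin e he) _ (hEin e' he') h
      oscW := fun e he w hw w' hw' h => hoW _ (hEin e he) _ (gin' w (gsub hw)) _
        (gin' w' (gsub hw')) ((gdist w w' h).trans (by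
          rw [div_le_iff₀ (by linarith), ← div_le_iff₀' hr]
          refine (Nat.le_ceil _).trans (le_trans ?_ hYn)
          exact_mod_cast (by omega : ⌈s' / r⌉₊ ≤ Y)))
      oneE := fun e _ => ⟨_, fun w _ => one_form rfl⟩
      oneW := fun w _ => ⟨_, fun e _ => one_form rfl⟩
      prodE := fun e he => ⟨_, fun w hw h => prod_form rfl (hprod e he w hw (hom e w h)).1⟩
      prodW := fun w hw => ⟨_, fun e he h => prod_form rfl (hprod e he w hw (hom e w h)).2⟩
      gram := hgram }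

end Pool.Agent.Lib.BK2
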