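import Pool.Agent.Lib.BK2.ZG31A

/-! BK2 block ZG: most members of the family are good. -/

open Polynomial Finset Filter
open scoped Classical

noncomputable section

namespace Pool.Agent.Lib.BK2

namespace Z31

open ZPAR

lemma cheb {α : Type} (S : Finset α) (f : α → ℝ) {ε c : ℝ} (hε : 0 < ε)
    (h : ∑ e ∈ S, f e ^ 2 ≤ c) : (#{e ∈ S | ε < |f e|} : ℝ) ≤ c / ε ^ 2 := by
  rw [le_div_iff₀ (by positivity)]
  refine le_trans ?_ h
  calc (#{e ∈ S | ε < |f e|} : ℝ) * ε ^ 2 = ∑ _e ∈ S.filter (fun e => ε < |f e|), ε ^ 2 := by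
        rw [sum_const, nsmul_eq_mul]
    _ ≤ ∑ e ∈ S with ε < |f e|, f e ^ 2 := sum_le_sum fun e he => by
        rw [← sq_abs (f e)]
        exact pow_le_pow_left₀ hε.le (mem_filter.1 he).2.le 2
    _ ≤ _ := sum_le_sum_of_subset_of_nonneg (filter_subset _ _) fun _ _ _ => sq_nonneg _

variable {B : Type} [CommRing B]

lemma sum_over (h : ∀ p : ℕ, p.Prime → Finite (B →+* ZMod p)) (Xs : Finset (Pt B))
    (R : Finset ℕ) (hR : ∀ x ∈ Xs, x.p ∈ R) (F : ℕ → ℝ) (hF : ∀ p, 0 ≤ F p) :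
    ∑ x ∈ Xs, F x.p ≤ ∑ p ∈ R.filter Nat.Prime, (Nat.card (B →+* ZMod p) : ℝ) * F p := by
  rw [← sum_fiberwise_of_maps_to (t := R.filter Nat.Prime) (g := fun x : Pt B => x.p)
    fun x hx => mem_filter.2 ⟨hR x hx, x.1.2⟩]
  refine sum_le_sum fun q hq => ?_
  have hq := (mem_filter.1 hq).2
  rw [sum_congr rfl fun x hx => congrArg F (mem_filter.1 hx).2, sum_const, nsmul_eq_mul]
  refine mul_le_mul_of_nonneg_right (Nat.cast_le.2 ?_) (hF q)
  have := h q hq
  let _ := Fintype.ofFinite (B →+* ZMod q)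
  have e : ({x ∈ Xs | x.p = q} : Finset _) ⊆
      univ.image fun f : B →+* ZMod q => (⟨⟨q, hq⟩, f⟩ : Pt B) := by
    rintro ⟨p, f⟩ hx
    obtain rfl : p = ⟨q, hq⟩ := Subtype.ext (mem_filter.1 hx).2
    exact mem_image.2 ⟨f, mem_univ _, rfl⟩
  refine (card_le_card e).trans (card_image_le.trans ?_)
  rw [card_univ, ← Nat.card_eq_fintype_card]

/-- the test functions -/
def tst (H P : ℕ) (τ : ℤ × ℕ) (x : Pt B) : ℝ :=
  if τ.2 = 3 then (ee (τ.1 / P * pa H x)).re else if τ.2 = 4 then (ee (τ.1 / P * pa H x)).im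
  else pa H x ^ τ.2

lemma norm_ee (x : ℝ) : ‖ee x‖ = 1 := by
  rw [ee, show 2 * (Real.pi : ℂ) * x * Complex.I = ((2 * Real.pi * x : ℝ) : ℂ) * Complex.I by
    push_cast; ring, Complex.norm_exp_ofReal_mul_I]

lemma tst_le (H P : ℕ) (τ : ℤ × ℕ) (hτ : τ.2 < 5) (x : Pt B) (h1 : 1 ≤ pa H x) (h2 : pa H x ≤ 2) :
    tst H P τ x ^ 2 ≤ 16 := by
  have key : |tst H P τ x| ≤ 4 := by
    rw [tst]
    split_ifs with h3 h4
    · exact (Complex.abs_re_le_norm _).trans (by rw [norm_ee]; norm_num)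
    · exact (Complex.abs_im_le_norm _).trans (by rw [norm_ee]; norm_num)
    · rw [abs_of_nonneg (by positivity)]
      calc pa H x ^ τ.2 ≤ 2 ^ τ.2 := pow_le_pow_left₀ (by linarith) h2 _
        _ ≤ 2 ^ 2 := pow_le_pow_right₀ (by norm_num) (by omega)
        _ = 4 := by norm_num
  rw [← sq_abs]
  calc _ ≤ (4 : ℝ) ^ 2 := pow_le_pow_left₀ (abs_nonneg _) key 2
    _ = 16 := by norm_num

lemma pwb_eq (Xs : Finset (Pt B)) (x : Pt B) : pwb Xs x = pmu Xs x / x.p := by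
  rw [pwb, pmu, div_div, mul_assoc, sq]

lemma ev_T (c : ℝ) : ∀ᶠ H : ℕ in atTop, c ≤ winT H := by
  filter_upwards [ev_pow (c := max c 1) (lt_max_of_lt_right one_pos), ev_log 1] with H h1 h2
  refine le_trans ?_ h1
  calc c ≤ max c 1 * 1 := by rw [mul_one]; exact le_max_left _ _
    _ ≤ _ := mul_le_mul_of_nonneg_left (one_le_pow₀ h2) (le_max_of_le_right zero_le_one)

lemma winT_pow (H : ℕ) : winT H ^ 20 = H := by
  rw [winT, ← Real.rpow_natCast, ← Real.rpow_mul (Nat.cast_nonneg H)]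
  norm_num

lemma big {c u δ T s : ℝ} {j : ℕ} (hj : j < 20) (hT : 1 ≤ T) (hu : 0 < u) (hδ : 0 < δ)
    (h : c / (u * δ) ≤ T) (hs : δ * T ^ 20 ≤ s) : c * T ^ j ≤ u * s := by
  rw [div_le_iff₀ (by positivity)] at h
  calc c * T ^ j ≤ T * (u * δ) * T ^ j := mul_le_mul_of_nonneg_right h (by positivity)
    _ = u * (δ * T ^ (j + 1)) := by ring
    _ ≤ u * (δ * T ^ 20) := by gcongr; omega
    _ ≤ u * s := by gcongr

variable [IsDomain B] [Algebra ℤ[X] B] {d : ℕ} [NeZero d] (Γ : Geo B d) {m : ℕ}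

lemma lc_bd (hN : St_NRM) (m : ℕ) (R : ℝ) : ∃ K : ℕ, ∀ H : ℕ, 0 < H → ∀ e : Γ.Ix m → ℤ,
    (∀ i, |(e i : ℝ)| ≤ R * H) → |(Γ.nrm (Γ.el e)).coeff (m * d)| ≤ (K * H ^ d : ℕ) := by
  obtain ⟨-, -, -, h4, h5, -⟩ := hN B d Γ m
  obtain ⟨K, hK⟩ := (isCompact_closedBall (0 : Γ.Ix m → ℝ) |R|).exists_bound_of_continuousOn
    (h5 (m * d)).continuous.continuousOn
  refine ⟨⌈K⌉₊, fun H hH e he => ?_⟩
  have hH' : (0 : ℝ) < H := by exact_mod_cast hH
  have h1 := hK (scl H e) (by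
    rw [mem_closedBall_zero_iff, pi_norm_le_iff_of_nonneg (abs_nonneg _)]
    intro i
    rw [scl, Real.norm_eq_abs, abs_div, abs_of_pos hH', div_le_iff₀ hH']
    exact (he i).trans (mul_le_mul_of_nonneg_right (le_abs_self _) hH'.le))
  have h2 := h4 H e hH'.ne'
  have h3 : ((|(Γ.nrm (Γ.el e)).coeff (m * d)| : ℤ) : ℝ) ≤ (((⌈K⌉₊ * H ^ d : ℕ) : ℤ) : ℝ) := by
    push_cast
    rw [← h2, abs_mul, abs_of_pos (pow_pos hH' d)]
    exact mul_le_mul_of_nonneg_right (h1.trans (Nat.le_ceil K)) (by positivity)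
  exact_mod_cast h3

theorem stZG (hW : St_ZWIN) (hC : St_ZCNT) (hL : St_ZLAW) (hN : St_NRM) (hM : St_MODP) :
    St_ZG := by
  intro B _ _ _ d _ Γ hMe
  obtain ⟨-, HL, hHL⟩ := hL B d Γ hMe
  obtain ⟨K, hK⟩ := hMe
  obtain ⟨hM1, hM2, -⟩ := hM B d Γ
  refine ⟨|K| + 1, fun m hm1 hm2 η' hη' => ?_⟩
  set r := Fintype.card (Γ.Ix m) with hr
  set Y1 : ℕ := ⌈6 * d * 6 ^ r / η'⌉₊ + 1 with hY1
  refine ⟨Y1.factorial, Nat.factorial_pos _, fun M0 e0 hM0 hQ hirr R δ η P hδ hη => ?_⟩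
  obtain ⟨K1, hK1⟩ := lc_bd Γ hN m R
  set del : ℝ := min 1 (η' * η ^ 2 / (960 * (P + 1))) with hdel
  have hdel0 : 0 < del := lt_min one_pos (by positivity)
  have hM0' : (0 : ℝ) < M0 := by exact_mod_cast hM0
  refine ⟨max (max M0 3) ⌈12 * d / η'⌉₊, eventually_atTop.1 ?_⟩
  filter_upwards [eventually_ge_atTop HL, ev_T 3, ev_T (M0 + 1), ev_T (8 * d / del),
    ev_T (64 * r * M0 / (del * δ)), ev_T r, ev_T (32 * M0 / (1 * δ)), ev_log |K|, ev_log 1,
    ev_pow (c := 24 * (r + 1) / η') (by positivity), ev_lin hδ M0,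
    ev_lin (a := η') hη' (6 * d * 6 ^ r * K1 * (2 * M0 / δ) ^ (d + 1))]
    with H hH t1 t2 t3 t4 t5 t6 l1 l2 l3 l4 l5
  intro Y hY hYT Xs hXs a s hs hbd
  obtain ⟨hmb, -, hLaw⟩ := hHL H hH Xs hXs
  have hT20 := winT_pow H
  set T := winT H with hT
  have hT1 : 1 ≤ T := by linarith
  have hT0 : 0 < T := by linarith
  have hH1 : (1 : ℝ) ≤ H := hT20 ▸ one_le_pow₀ hT1
  have hH0 : 0 < H := by exact_mod_cast (lt_of_lt_of_le one_pos hH1)
  have hs' : δ * T ^ 20 ≤ s := hT20 ▸ hs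
  have hMs : M0 ≤ s := by exact_mod_cast l4.trans hs
  have hYM : M0 ≤ Y := ((le_max_left _ _).trans (le_max_left _ _)).trans hY
  have hY3 : (3 : ℝ) ≤ Y := by
    exact_mod_cast ((le_max_right _ _).trans (le_max_left _ _)).trans hY
  have hY4 : 12 * d / η' ≤ Y :=
    (Nat.le_ceil _).trans (by exact_mod_cast (le_max_right _ _).trans hY)
  have hcop : ∀ x : Pt B, M0 < x.p → Nat.Coprime x.p M0 := fun x h =>
    (Nat.Prime.coprime_iff_not_dvd x.1.2).2 fun h' => absurd (Nat.le_of_dvd hM0 h') (not_le.2 h)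
  set S := zcell a s M0 e0 with hS
  have hirr' := fun e (he : e ∈ S) => hirr e fun i =>
    (Int.modEq_iff_dvd.2 ((mem_zcell.1 he).2 i)).symm
  obtain ⟨hne, -, -, -, hsm, -⟩ := hW B d Γ m hm1 H Xs hXs hmb a e0 s M0 S del
    (fun w => mem_zcell) hM0 (fun x hx => hcop x (by
      have h1 := ((hXs x).1 hx).1
      have h2 : (M0 : ℝ) < x.p := by linarith
      exact_mod_cast h2)) hdel0 (min_le_left _ _)
    (by rw [div_le_iff₀ hdel0] at t3; linarith) (big (by norm_num) hT1 hdel0 hδ t4 hs')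
  refine ⟨hne, ?_⟩
  have hS0 : (0 : ℝ) ≤ #S := Nat.cast_nonneg _
  -- primitive norms
  have b1 : (#{e ∈ S | ¬ (Γ.nrm (Γ.el e)).IsPrimitive} : ℝ) ≤ η' / 3 * #S := by
    refine (nonprim Γ hm2 a e0 s M0 Y1 (K1 * H ^ d) hM0 hMs (Nat.succ_pos _) hQ
      (fun e he => ⟨m * d, ?_, hK1 H hH0 e (hbd e he)⟩) fun e he => (hirr' e he).2.2).trans ?_
    · rw [← (hirr' e he).2.1, coeff_natDegree, Ne, leadingCoeff_eq_zero]
      intro h0
      have := (hirr' e he).1
      rw [h0, Polynomial.map_zero] at this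
      exact not_irreducible_zero this
    · have hY1' : 6 * d * 6 ^ r / η' ≤ Y1 := by
        rw [hY1]; push_cast; linarith [Nat.le_ceil (6 * d * 6 ^ r / η')]
      have hY10 : (0 : ℝ) < Y1 := by exact_mod_cast Nat.succ_pos _
      have c1 : (d : ℝ) * 6 ^ r * (Y1 : ℝ)⁻¹ ≤ η' / 6 := by
        rw [div_le_iff₀ hη'] at hY1'
        rw [← div_eq_mul_inv, div_le_iff₀ hY10]
        linarith
      have hL : δ * H / (2 * M0) ≤ (s / M0 : ℕ) := by
        have h1 := Nat.lt_mul_div_succ s hM0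
        have h2 : 0 < s / M0 := Nat.div_pos hMs hM0
        have h3 : s ≤ s / M0 * (2 * M0) := by nlinarith
        have h4 : (s : ℝ) ≤ (s / M0 : ℕ) * (2 * M0) := by exact_mod_cast h3
        rw [div_le_iff₀ (by positivity)]
        exact hs.trans h4
      have c2 : (d : ℝ) * 6 ^ r * ((K1 * H ^ d : ℕ) * (((s / M0 : ℕ) : ℝ) ^ (d + 1))⁻¹) ≤
          η' / 6 := by
        calc _ ≤ (d : ℝ) * 6 ^ r * ((K1 * H ^ d : ℕ) * ((δ * H / (2 * M0)) ^ (d + 1))⁻¹) := by
              gcongr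
          _ = 6 * d * 6 ^ r * K1 * (2 * M0 / δ) ^ (d + 1) / (6 * H) := by
              push_cast
              simp only [div_pow, mul_pow, pow_succ (H : ℝ)]
              field_simp
          _ ≤ η' * H / (6 * H) := by gcongr
          _ = η' / 6 := by field_simp
      calc _ = (d * 6 ^ r * (Y1 : ℝ)⁻¹ +
            d * 6 ^ r * ((K1 * H ^ d : ℕ) * (((s / M0 : ℕ) : ℝ) ^ (d + 1))⁻¹)) * #S := by ring
        _ ≤ _ := mul_le_mul_of_nonneg_right (by linarith) hS0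
  -- window tests
  set TS := frq P ×ˢ range 5 with hTS
  set A : ℤ × ℕ → (Γ.Ix m → ℤ) → ℝ := fun τ e => ∑ x ∈ onS Γ Xs e, tst H P τ x * pmu Xs x -
    ∑ x ∈ Xs, tst H P τ x * (pmu Xs x / x.p) with hA
  have b2 : (#(TS.biUnion fun τ => {e ∈ S | η / 2 < |A τ e|}) : ℝ) ≤ η' / 3 * #S := by
    have h1 : ∀ τ ∈ TS, (#{e ∈ S | η / 2 < |A τ e|} : ℝ) ≤ del * #S * 16 / (η / 2) ^ 2 := by
      intro τ hτ
      refine cheb S (A τ) (half_pos hη) ((hsm (tst H P τ)).trans ?_)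
      refine mul_le_mul_of_nonneg_left ?_ (by positivity)
      calc _ ≤ ∑ x ∈ Xs, 16 * pwb Xs x := sum_le_sum fun x hx => by
            rw [← pwb_eq]
            exact mul_le_mul_of_nonneg_right (tst_le H P τ (mem_range.1 (mem_product.1 hτ).2) x
              (hLaw.lo x hx) (hLaw.hi x hx)) (hLaw.nn x hx)
        _ = 16 := by rw [← mul_sum, hLaw.one, mul_one]
    have h2 : (#TS : ℝ) ≤ (P + 1) * 5 := by
      have : #TS ≤ (P + 1) * 5 := by
        rw [hTS, card_product, card_range, frq, Int.card_Icc]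
        omega
      exact_mod_cast this
    have h3 : (#(TS.biUnion fun τ => {e ∈ S | η / 2 < |A τ e|}) : ℝ) ≤
        ∑ τ ∈ TS, (#{e ∈ S | η / 2 < |A τ e|} : ℝ) := by exact_mod_cast card_biUnion_le
    refine h3.trans ((sum_le_sum h1).trans ?_)
    rw [sum_const, nsmul_eq_mul]
    calc _ ≤ (P + 1) * 5 * (η' * η ^ 2 / (960 * (P + 1)) * #S * 16 / (η / 2) ^ 2) := by
          gcongr
          exact min_le_right _ _
      _ = η' / 3 * #S := by field_simp; norm_num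
  -- small primes
  set Xl := (hM2 ⌊T⌋₊).toFinset.filter fun x => Y < x.p with hXl
  have hXl' : ∀ x ∈ Xl, x.p ∈ Ioc Y ⌊T⌋₊ := fun x hx =>
    mem_Ioc.2 ⟨(mem_filter.1 hx).2, ((hM2 ⌊T⌋₊).mem_toFinset).1 (mem_filter.1 hx).1⟩
  have hlY : 1 ≤ Real.log Y := by
    rw [Real.le_log_iff_exp_le (by linarith)]
    linarith [Real.exp_one_lt_d9]
  have hlT : Real.log Y ≤ Real.log T := Real.log_le_log (by linarith) hYT
  have hσ : ∑ x ∈ Xl, 1 / (x.p : ℝ) / x.p ≤
      Real.log (Real.log T) - Real.log (Real.log Y) + |K| := by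
    refine (sum_over (fun p hp => (hM1 p hp).1) Xl _ hXl' (fun p => 1 / (p : ℝ) / p)
      fun p => by positivity).trans ?_
    have h1 := (abs_le.1 (hK Y T (by linarith) hYT)).2
    rw [Nat.floor_natCast, Real.log_div (by linarith) (by linarith)] at h1
    have h2 : K / Real.log Y ≤ |K| :=
      (div_le_div_of_nonneg_right (le_abs_self K) (by linarith)).trans
        (div_le_self (abs_nonneg K) hlY)
    rw [sum_congr rfl fun p _ => show (Nat.card (B →+* ZMod p) : ℝ) * (1 / (p : ℝ) / p) =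
      (Nat.card (B →+* ZMod p) : ℝ) / (p : ℝ) ^ 2 by ring]
    linarith
  set D : (Γ.Ix m → ℤ) → ℝ := fun w =>
    ∑ x ∈ Xl, 1 / (x.p : ℝ) * ((if x.On (Γ.el w) then 1 else 0) - 1 / (x.p : ℝ)) with hD
  have b3 : (#{e ∈ S | 1 < |D e|} : ℝ) ≤ η' / 3 * #S := by
    obtain ⟨-, -, -, h4, -⟩ := hC B d Γ m (by omega) (by omega) a e0 s M0 S (1 / T) T Xl
      (fun w => mem_zcell) hM0 (by positivity) (by rw [mul_one_div, div_le_one hT0]; exact t5) hT1
      (fun x hx => ⟨hcop x (lt_of_le_of_lt hYM (mem_filter.1 hx).2),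
        (Nat.cast_le.2 (mem_Ioc.1 (hXl' x hx)).2).trans (Nat.floor_le hT0.le)⟩)
      (by
        have := big (j := 4) (by norm_num) hT1 one_pos hδ t6 hs'
        rw [one_div, inv_mul_eq_div, le_div_iff₀ hT0]
        linarith)
    refine (cheb S D one_pos (h4 fun x => 1 / (x.p : ℝ))).trans ?_
    rw [one_pow, div_one, mul_comm]
    refine mul_le_mul_of_nonneg_right ?_ hS0
    have c1 : ∑ x ∈ Xl, (1 / (x.p : ℝ)) ^ 2 / x.p ≤ η' / 12 := by
      refine (sum_over (fun p hp => (hM1 p hp).1) Xl _ hXl' (fun p => (1 / (p : ℝ)) ^ 2 / p)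
        fun p => by positivity).trans ?_
      have hYT' : Y ≤ ⌊T⌋₊ := Nat.le_floor hYT
      have hY0 : Y ≠ 0 := by omega
      calc _ ≤ ∑ p ∈ (Ioc Y ⌊T⌋₊).filter Nat.Prime, (d : ℝ) * ((p : ℝ) ^ 2)⁻¹ :=
            sum_le_sum fun p hp => by
              have hp' := (mem_filter.1 hp).2
              have h1 : (Nat.card (B →+* ZMod p) : ℝ) ≤ d * p := by exact_mod_cast (hM1 p hp').2
              have h2 : (0 : ℝ) < p := by exact_mod_cast hp'.pos
              refine (mul_le_mul_of_nonneg_right h1 (by positivity)).trans (le_of_eq ?_)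
              field_simp
        _ ≤ ∑ p ∈ Ioc Y ⌊T⌋₊, (d : ℝ) * ((p : ℝ) ^ 2)⁻¹ :=
            sum_le_sum_of_subset_of_nonneg (filter_subset _ _) fun _ _ _ => by positivity
        _ ≤ d * (Y : ℝ)⁻¹ := by
            rw [← mul_sum]
            exact mul_le_mul_of_nonneg_left ((sum_Ioc_inv_sq_le_sub hY0 hYT').trans
              (sub_le_self _ (by positivity))) (Nat.cast_nonneg _)
        _ ≤ η' / 12 := by
            rw [div_le_iff₀ hη'] at hY4
            rw [← div_eq_mul_inv, div_le_iff₀ (by linarith)]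
            linarith
    have c2 : r * (1 / T) * (∑ x ∈ Xl, |1 / (x.p : ℝ)| / x.p) ^ 2 ≤ η' / 6 := by
      rw [sum_congr rfl fun x _ => show |1 / (x.p : ℝ)| / x.p = 1 / (x.p : ℝ) / x.p by
        rw [abs_of_nonneg (by positivity)]]
      have h1 : Real.log (Real.log T) ≤ Real.log H := by
        refine Real.log_le_log (by linarith) ((Real.log_le_self hT0.le).trans ?_)
        rw [← hT20]
        exact le_self_pow₀ hT1 (by norm_num)
      have h2 := Real.log_nonneg hlY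
      have h3 : (∑ x ∈ Xl, 1 / (x.p : ℝ) / x.p) ^ 2 ≤ (2 * Real.log H) ^ 2 :=
        pow_le_pow_left₀ (sum_nonneg fun _ _ => by positivity) (by linarith) 2
      have h5 : Real.log H ^ 2 ≤ Real.log H ^ 5 := pow_le_pow_right₀ l2 (by norm_num)
      rw [div_mul_eq_mul_div, div_le_iff₀ hη'] at l3
      calc _ ≤ (r + 1) * (1 / T) * (4 * Real.log H ^ 5) := by
            gcongr
            · linarith
            · linarith
        _ = 24 * (r + 1) * Real.log H ^ 5 / (6 * T) := by field_simp; norm_num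
        _ ≤ T * η' / (6 * T) := by gcongr
        _ = η' / 6 := by field_simp
    linarith
  -- conclusion
  have hsub : ({e ∈ S | ¬ GoodE Γ H Xs η (|K| + 1) Y P e} : Finset _) ⊆
      ({e ∈ S | ¬ (Γ.nrm (Γ.el e)).IsPrimitive} : Finset _) ∪
        (TS.biUnion fun τ => {e ∈ S | η / 2 < |A τ e|}) ∪ {e ∈ S | 1 < |D e|} := by
    intro e he
    obtain ⟨he1, he2⟩ := mem_filter.1 he
    by_contra hc
    simp only [mem_union, mem_filter, mem_biUnion, he1, true_and, not_or, not_not, not_exists,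
      not_and, not_lt] at hc
    obtain ⟨⟨g1, g2⟩, g3⟩ := hc
    refine he2 ⟨(hirr' e he1).1, (hirr' e he1).2.1, g1, fun t ht => ?_, fun i hi => ?_,
      fun S' hS' => ?_⟩
    · have h3 := g2 (t, 3) (mem_product.2 ⟨ht, by simp⟩)
      have h4 := g2 (t, 4) (mem_product.2 ⟨ht, by simp⟩)
      refine (Complex.norm_le_abs_re_add_abs_im _).trans ?_
      rw [← add_halves η]
      refine add_le_add (le_of_eq_of_le ?_ h3) (le_of_eq_of_le ?_ h4)
      · simp [hA, chf, onS, tst, pwb_eq, mul_comm, -Complex.ofReal_div]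
      · simp [hA, chf, onS, tst, pwb_eq, mul_comm, -Complex.ofReal_div]
    · have h3 := g2 (0, i) (mem_product.2 ⟨by simp [frq]; omega, mem_range.2 (by omega)⟩)
      refine le_trans (le_of_eq_of_le ?_ h3) (half_le_self hη.le)
      have h4 : i ≠ 3 := by omega
      have h5 : i ≠ 4 := by omega
      simp [hA, onS, tst, pwb_eq, mul_comm, h4, h5]
    · have h3 := (abs_le.1 g3).2
      have h4 : D e = ∑ x ∈ Xl with x.On (Γ.el e), 1 / (x.p : ℝ) -
          ∑ x ∈ Xl, 1 / (x.p : ℝ) / x.p := by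
        rw [hD, sum_filter, ← sum_sub_distrib]
        refine sum_congr rfl fun x _ => ?_
        split_ifs <;> ring
      have h5 : ∑ x ∈ S', 1 / (x.p : ℝ) ≤ ∑ x ∈ Xl with x.On (Γ.el e), 1 / (x.p : ℝ) :=
        sum_le_sum_of_subset_of_nonneg (fun x hx => mem_filter.2 ⟨mem_filter.2
          ⟨((hM2 ⌊T⌋₊).mem_toFinset).2 (Nat.le_floor (hS' x hx).2.2.le), (hS' x hx).2.1⟩,
          (hS' x hx).1⟩) fun _ _ _ => by positivity
      linarith
  have h1 := (card_le_card hsub).trans ((card_union_le _ _).trans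
    (Nat.add_le_add_right (card_union_le _ _) _))
  have h2 : (#{e ∈ S | ¬ GoodE Γ H Xs η (|K| + 1) Y P e} : ℝ) ≤
      #{e ∈ S | ¬ (Γ.nrm (Γ.el e)).IsPrimitive} +
        #(TS.biUnion fun τ => {e ∈ S | η / 2 < |A τ e|}) + #{e ∈ S | 1 < |D e|} := by
    exact_mod_cast h1
  linarith

end Z31

end Pool.Agent.Lib.BK2
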