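import Pool.Agent.Lib.BK2.ZGDefs
import Pool.Agent.Lib.BK2.Blue1

open Polynomial Finset

namespace Pool.Agent.Lib.BK2

namespace ZG

variable {B : Type} [CommRing B]

theorem pt_prime (x : Pt B) : x.p.Prime := x.1.2

theorem pt_pos (x : Pt B) : (0 : ℝ) < x.p := by exact_mod_cast (pt_prime x).pos

open Classical in
theorem fib_card {p : ℕ} (hp : p.Prime) (S : Finset (Pt B)) (h : ∀ x : Pt B, x.p = p → x ∈ S) :
    (S.filter fun x => x.p = p).card = Nat.card (B →+* ZMod p) := by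
  rw [← Nat.card_eq_finsetCard]
  symm
  refine Nat.card_eq_of_bijective
    (fun φ => ⟨(⟨⟨p, hp⟩, φ⟩ : Pt B), mem_filter.2 ⟨h _ rfl, rfl⟩⟩) ⟨?_, ?_⟩
  · intro φ ψ hφ
    have := congrArg Subtype.val hφ
    exact sigma_mk_injective (β := fun q : Nat.Primes => B →+* ZMod q) this
  · rintro ⟨⟨⟨q, hq⟩, φ⟩, hx⟩
    have h2 : q = p := (mem_filter.1 hx).2
    subst h2
    exact ⟨φ, rfl⟩

section
variable [IsDomain B] [Algebra ℤ[X] B] {d : ℕ} [NeZero d]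

open Classical in
theorem pts_ex (hM : St_MODP) (Γ : Geo B d) (Q : ℕ → Prop) (R : ℝ) (h : ∀ p, Q p → (p : ℝ) ≤ R) :
    ∃ S : Finset (Pt B), ∀ x, x ∈ S ↔ Q x.p := by
  have hf := (hM B d Γ).2.1 ⌊R⌋₊
  refine ⟨hf.toFinset.filter fun x => Q x.p, fun x => ?_⟩
  simp only [mem_filter, Set.Finite.mem_toFinset, Set.mem_ofPred_eq, and_iff_right_iff_imp]
  exact fun hx => Nat.le_floor (h _ hx)

open Classical in
theorem fib_le (hM : St_MODP) (Γ : Geo B d) (p : ℕ) (S : Finset (Pt B)) :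
    (S.filter fun x => x.p = p).card ≤ d * p := by
  by_cases hp : p.Prime
  · obtain ⟨S', hS'⟩ := pts_ex hM Γ (fun q => q = p) p (fun q hq => by rw [hq])
    calc (S.filter fun x => x.p = p).card ≤ (S'.filter fun x => x.p = p).card :=
          card_le_card fun x hx => mem_filter.2 ⟨(hS' x).2 (mem_filter.1 hx).2, (mem_filter.1 hx).2⟩
      _ = Nat.card (B →+* ZMod p) := fib_card hp S' fun x hx => (hS' x).2 hx
      _ ≤ d * p := ((hM B d Γ).1 p hp).2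
  · have : (S.filter fun x => x.p = p) = ∅ := by
      refine filter_eq_empty_iff.2 fun x _ hx => hp ?_
      rw [← hx]
      exact pt_prime x
    rw [this]
    simp

open Classical in
theorem mert_eq (hM : St_MODP) (Γ : Geo B d) {Y z : ℝ} (hY : 2 ≤ Y) (hz : Y ≤ z) :
    ∃ S : Finset (Pt B), (∀ x, x ∈ S ↔ Y < x.p ∧ (x.p : ℝ) ≤ z) ∧
      ∑ x ∈ S, 1 / (x.p : ℝ) ^ 2 = ∑ p ∈ (Finset.Ioc ⌊Y⌋₊ ⌊z⌋₊).filter Nat.Prime,
        (Nat.card (B →+* ZMod p) : ℝ) / (p : ℝ) ^ 2 := by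
  obtain ⟨S, hS⟩ := pts_ex hM Γ (fun p => Y < p ∧ (p : ℝ) ≤ z) z fun p hp => hp.2
  refine ⟨S, hS, ?_⟩
  have hm : ∀ p : ℕ, p ∈ Finset.Ioc ⌊Y⌋₊ ⌊z⌋₊ ↔ Y < p ∧ (p : ℝ) ≤ z := by
    intro p
    rw [Finset.mem_Ioc, Nat.floor_lt (by linarith), Nat.le_floor_iff (by linarith)]
  rw [← sum_fiberwise_of_maps_to (g := fun x : Pt B => x.p)
    (t := (Finset.Ioc ⌊Y⌋₊ ⌊z⌋₊).filter Nat.Prime)
    (fun x hx => mem_filter.2 ⟨(hm _).2 ((hS x).1 hx), pt_prime x⟩)]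
  refine sum_congr rfl fun p hp => ?_
  obtain ⟨h1, h2⟩ := mem_filter.1 hp
  rw [← fib_card h2 S fun x hx => (hS x).2 (by rw [hx]; exact (hm p).1 h1)]
  rw [sum_congr rfl (g := fun _ => 1 / (p : ℝ) ^ 2) fun x hx => by rw [(mem_filter.1 hx).2]]
  rw [sum_const, nsmul_eq_mul]
  ring

theorem mert_both (hM : St_MODP) (Γ : Geo B d) (h : Γ.Mert) : ∃ K : ℝ, 0 ≤ K ∧
    ∀ Y z : ℝ, 2 ≤ Y → Y ≤ z → ∀ S : Finset (Pt B),
      ((∀ x ∈ S, Y < x.p ∧ (x.p : ℝ) ≤ z) →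
        ∑ x ∈ S, 1 / (x.p : ℝ) ^ 2 ≤ Real.log (Real.log z / Real.log Y) + K / Real.log Y) ∧
      ((∀ x : Pt B, Y < x.p → (x.p : ℝ) ≤ z → x ∈ S) →
        Real.log (Real.log z / Real.log Y) - K / Real.log Y ≤ ∑ x ∈ S, 1 / (x.p : ℝ) ^ 2) := by
  obtain ⟨K, hK⟩ := h
  refine ⟨|K|, abs_nonneg K, fun Y z hY hz S => ?_⟩
  obtain ⟨S0, h0, h1⟩ := mert_eq hM Γ hY hz
  have h2 := hK Y z hY hz
  rw [← h1] at h2
  have hl : 0 < Real.log Y := Real.log_pos (by linarith)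
  have h3 : K / Real.log Y ≤ |K| / Real.log Y := div_le_div_of_nonneg_right (le_abs_self K) hl.le
  obtain ⟨h4, h5⟩ := abs_le.1 (h2.trans h3)
  constructor
  · intro hS
    have : ∑ x ∈ S, 1 / (x.p : ℝ) ^ 2 ≤ ∑ x ∈ S0, 1 / (x.p : ℝ) ^ 2 :=
      sum_le_sum_of_subset_of_nonneg (fun x hx => (h0 x).2 (hS x hx)) fun _ _ _ => by positivity
    linarith
  · intro hS
    have : ∑ x ∈ S0, 1 / (x.p : ℝ) ^ 2 ≤ ∑ x ∈ S, 1 / (x.p : ℝ) ^ 2 :=
      sum_le_sum_of_subset_of_nonneg (fun x hx => hS x ((h0 x).1 hx).1 ((h0 x).1 hx).2)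
        fun _ _ _ => by positivity
    linarith

end

theorem winT_large (C : ℝ) : ∃ H0 : ℕ, ∀ H ≥ H0, C ≤ winT H := by
  have h : Filter.Tendsto (fun H : ℕ => winT H) Filter.atTop Filter.atTop :=
    (tendsto_rpow_atTop (by norm_num : (0 : ℝ) < 1 / 20)).comp tendsto_natCast_atTop_atTop
  exact Filter.eventually_atTop.1 (h.eventually_ge_atTop C)

theorem winT_pow (H : ℕ) : winT H ^ 20 = H := by
  unfold winT
  rw [← Real.rpow_natCast, ← Real.rpow_mul (Nat.cast_nonneg H)]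
  norm_num

theorem pwb_eq (Xs : Finset (Pt B)) (x : Pt B) :
    pwb Xs x = (mbar Xs)⁻¹ * (1 / (x.p : ℝ) ^ 2) := by
  unfold pwb
  rw [one_div, one_div, mul_inv]

theorem pwb_sum (Xs S : Finset (Pt B)) :
    ∑ x ∈ S, pwb Xs x = (mbar Xs)⁻¹ * ∑ x ∈ S, 1 / (x.p : ℝ) ^ 2 := by
  simp only [pwb_eq, mul_sum]

theorem pwb_one (Xs : Finset (Pt B)) (h : 0 < mbar Xs) : ∑ x ∈ Xs, pwb Xs x = 1 := by
  rw [pwb_sum]
  exact inv_mul_cancel₀ h.ne'

theorem mbar_nn (Xs : Finset (Pt B)) : 0 ≤ mbar Xs := sum_nonneg fun _ _ => by positivity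

theorem pwb_nn (Xs : Finset (Pt B)) (x : Pt B) : 0 ≤ pwb Xs x := by
  have := mbar_nn Xs
  unfold pwb
  positivity

theorem pmu_nn (Xs : Finset (Pt B)) (x : Pt B) : 0 ≤ pmu Xs x := by
  have := mbar_nn Xs
  unfold pmu
  positivity

theorem pmu_div (Xs : Finset (Pt B)) (x : Pt B) : pmu Xs x / x.p = pwb Xs x := by
  unfold pmu pwb
  rw [div_div, mul_assoc, sq]

theorem pmu_le {H : ℕ} {Xs : Finset (Pt B)} (hW : IsWin H Xs) (hT : 0 < winT H)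
    (hm : 1 / 2 ≤ mbar Xs) {x : Pt B} (hx : x ∈ Xs) : pmu Xs x ≤ 2 / winT H := by
  have h1 := ((hW x).1 hx).1
  unfold pmu
  rw [div_le_div_iff₀ (by have := pt_pos x; positivity) hT]
  nlinarith

end ZG

open Classical ZG in
theorem stZLAW (hM : St_MODP) : St_ZLAW := by
  intro B _ _ _ d _ Γ hMe
  refine ⟨fun H => ?_, ?_⟩
  · exact pts_ex hM Γ (fun p => winT H ≤ p ∧ (p : ℝ) ≤ winT H ^ 2) (winT H ^ 2) fun p hp => hp.2
  obtain ⟨K, hK0, hK⟩ := mert_both hM Γ hMe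
  obtain ⟨H0, hH0⟩ := winT_large (Real.exp (50 * K + 10))
  refine ⟨H0, fun H hH Xs hW => ?_⟩
  have hT := hH0 H hH
  have hT0 : 0 < winT H := lt_of_lt_of_le (Real.exp_pos _) hT
  obtain ⟨u, hu⟩ : ∃ u, u = Real.log (winT H) := ⟨_, rfl⟩
  have hu1 : 50 * K + 10 ≤ u := by
    rw [hu]
    exact (Real.le_log_iff_exp_le hT0).2 hT
  have hu0 : 0 < u := by linarith
  have hTe : winT H = Real.exp u := by rw [hu, Real.exp_log hT0]
  have hT2 : winT H ^ 2 = Real.exp (2 * u) := by rw [hTe, ← Real.exp_nat_mul]; norm_num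
  have hpa : ∀ x : Pt B, pa H x = Real.log x.p / u := fun x => by rw [hu]; rfl
  have hlt : ∀ (x : Pt B) (c : ℝ), Real.exp (c * u) < x.p ↔ c < pa H x := fun x c => by
    rw [hpa, lt_div_iff₀ hu0, Real.lt_log_iff_exp_lt (pt_pos x)]
  have hle : ∀ (x : Pt B) (c : ℝ), (x.p : ℝ) ≤ Real.exp (c * u) ↔ pa H x ≤ c := fun x c => by
    rw [← not_lt, hlt, not_lt]
  have hW' : ∀ x, x ∈ Xs ↔ 1 ≤ pa H x ∧ pa H x ≤ 2 := fun x => by
    rw [hW x, hT2, hle, hTe, hpa, le_div_iff₀ hu0, one_mul, Real.le_log_iff_exp_le (pt_pos x)]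
  have hgen : ∀ α β : ℝ, 9 / 10 ≤ α → α ≤ β → ∀ S : Finset (Pt B),
      ((∀ x ∈ S, α < pa H x ∧ pa H x ≤ β) →
        ∑ x ∈ S, 1 / (x.p : ℝ) ^ 2 ≤ Real.log (β / α) + 1 / 40) ∧
      ((∀ x : Pt B, α < pa H x → pa H x ≤ β → x ∈ S) →
        Real.log (β / α) - 1 / 40 ≤ ∑ x ∈ S, 1 / (x.p : ℝ) ^ 2) := by
    intro α β hα hβ S
    have h2 : 2 ≤ Real.exp (α * u) := by
      have := Real.add_one_le_exp (α * u)
      nlinarith
    obtain ⟨a1, a2⟩ := hK _ (Real.exp (β * u)) h2 (Real.exp_le_exp.2 (by nlinarith)) S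
    rw [Real.log_exp, Real.log_exp, mul_div_mul_right _ _ hu0.ne'] at a1 a2
    have h3 : K / (α * u) ≤ 1 / 40 := by
      rw [div_le_div_iff₀ (by nlinarith) (by norm_num)]
      nlinarith
    constructor
    · intro hS
      have := a1 fun x hx => ⟨(hlt x α).2 (hS x hx).1, (hle x β).2 (hS x hx).2⟩
      linarith
    · intro hS
      have := a2 fun x h1 h2 => hS x ((hlt x α).1 h1) ((hle x β).1 h2)
      linarith
  have hl2 := Real.log_two_gt_d9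
  have hl2' := Real.log_two_lt_d9
  have hm1 : 1 / 2 ≤ mbar Xs := by
    have := (hgen 1 2 (by norm_num) (by norm_num) Xs).2 fun x h1 h2 => (hW' x).2 ⟨h1.le, h2⟩
    rw [div_one] at this
    unfold mbar
    linarith
  have hm2 : mbar Xs ≤ 1 := by
    have := (hgen (9 / 10) 2 (by norm_num) (by norm_num) Xs).1
      fun x hx => ⟨by linarith [((hW' x).1 hx).1], ((hW' x).1 hx).2⟩
    have h2 : Real.log (2 / (9 / 10)) = Real.log 2 + Real.log (10 / 9) := by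
      rw [← Real.log_mul (by norm_num) (by norm_num)]
      norm_num
    have h3 := Real.log_le_sub_one_of_pos (by norm_num : (0 : ℝ) < 10 / 9)
    unfold mbar
    linarith
  have hm0 : 0 < mbar Xs := by linarith
  have hinv : 1 ≤ (mbar Xs)⁻¹ := (one_le_inv₀ hm0).2 hm2
  refine ⟨hm1, hm2, ⟨fun x _ => pwb_nn Xs x, pwb_one Xs hm0, fun x hx => ((hW' x).1 hx).1,
    fun x hx => ((hW' x).1 hx).2, ?_⟩⟩
  generalize ∑ j ∈ Xs, pwb Xs j * pa H j = c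
  have hsub : ∀ Q : Pt B → Prop, (∀ x, Q x → 1 / 16 ≤ (pa H x - c) ^ 2) →
      1 / 10 ≤ ∑ x ∈ Xs.filter Q, 1 / (x.p : ℝ) ^ 2 →
      1 / 200 ≤ ∑ i ∈ Xs, pwb Xs i * (pa H i - c) ^ 2 := by
    intro Q hQ hs
    have h1 : ∑ i ∈ Xs.filter Q, pwb Xs i * (pa H i - c) ^ 2 ≤
        ∑ i ∈ Xs, pwb Xs i * (pa H i - c) ^ 2 :=
      sum_le_sum_of_subset_of_nonneg (filter_subset _ _)
        fun x _ _ => mul_nonneg (pwb_nn Xs x) (sq_nonneg _)
    have h2 : ∑ i ∈ Xs.filter Q, pwb Xs i * (1 / 16) ≤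
        ∑ i ∈ Xs.filter Q, pwb Xs i * (pa H i - c) ^ 2 :=
      sum_le_sum fun x hx => mul_le_mul_of_nonneg_left (hQ x (mem_filter.1 hx).2) (pwb_nn Xs x)
    rw [← sum_mul, pwb_sum] at h2
    nlinarith
  rcases le_total c (3 / 2) with hc | hc
  · refine hsub (fun x => 7 / 4 ≤ pa H x) (fun x hx => by nlinarith) ?_
    have := (hgen (7 / 4) 2 (by norm_num) (by norm_num) (Xs.filter fun x => 7 / 4 ≤ pa H x)).2
      fun x h1 h2 => mem_filter.2 ⟨(hW' x).2 ⟨by linarith, h2⟩, h1.le⟩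
    have h3 := Real.one_sub_inv_le_log_of_pos (by norm_num : (0 : ℝ) < 2 / (7 / 4))
    norm_num at h3 this ⊢
    linarith
  · refine hsub (fun x => pa H x ≤ 5 / 4) (fun x hx => by nlinarith) ?_
    have := (hgen 1 (5 / 4) (by norm_num) (by norm_num) (Xs.filter fun x => pa H x ≤ 5 / 4)).2
      fun x h1 h2 => mem_filter.2 ⟨(hW' x).2 ⟨h1.le, by linarith⟩, h2⟩
    have h3 := Real.one_sub_inv_le_log_of_pos (by norm_num : (0 : ℝ) < 5 / 4 / 1)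
    norm_num at h3 this ⊢
    linarith

end Pool.Agent.Lib.BK2
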