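import Pool.Agent.Lib.BK2.ZGLaw
import Pool.Agent.Lib.BK2.Bas

open Polynomial Finset

namespace Pool.Agent.Lib.BK2

namespace ZG

variable {B : Type} [CommRing B]

theorem prim_map {P : ℤ[X]} (h : P.IsPrimitive) {p : ℕ} (hp : p.Prime) :
    P.map (Int.castRingHom (ZMod p)) ≠ 0 := by
  intro h0
  have h1 : C (p : ℤ) ∣ P := by
    rw [C_dvd_iff_dvd_coeff]
    intro i
    have := congrArg (fun Q => Q.coeff i) h0
    simp only [coeff_map, eq_intCast, coeff_zero] at this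
    exact (ZMod.intCast_zmod_eq_zero_iff_dvd _ _).1 this
  have h2 := h _ h1
  rw [Int.isUnit_iff_natAbs_eq, Int.natAbs_natCast] at h2
  exact hp.one_lt.ne' h2

theorem prim_of_map {P : ℤ[X]}
    (h : ∀ p : ℕ, p.Prime → P.map (Int.castRingHom (ZMod p)) ≠ 0) : P.IsPrimitive := by
  intro r hr
  by_contra hu
  rw [Int.isUnit_iff_natAbs_eq] at hu
  obtain ⟨p, hp, hd⟩ := Nat.exists_prime_and_dvd hu
  apply h p hp
  ext i
  simp only [coeff_map, eq_intCast, coeff_zero]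
  rw [ZMod.intCast_zmod_eq_zero_iff_dvd]
  exact (Int.natCast_dvd.2 hd).trans ((C_dvd_iff_dvd_coeff _ _).1 hr i)

open Classical in
theorem on_card [IsDomain B] [Algebra ℤ[X] B] {d : ℕ} [NeZero d] (hM : St_MODP) (Γ : Geo B d)
    {m : ℕ} {f : B} (hf : f ∈ Γ.V m) (hp : (Γ.nrm f).IsPrimitive) (p : ℕ) (S : Finset (Pt B))
    (hS : ∀ x ∈ S, x.On f ∧ x.p = p) : S.card ≤ m * d * d := by
  by_cases hpp : p.Prime
  · have h1 := (hM B d Γ).2.2.1 m f hf p hpp (prim_map hp hpp)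
    have := ((hM B d Γ).1 p hpp).1
    refine le_trans ?_ h1
    rw [← Nat.card_eq_finsetCard]
    have hsurj : ∀ x : S, ∃ φ : {x : B →+* ZMod p // x f = 0}, (⟨⟨p, hpp⟩, φ.1⟩ : Pt B) = x.1 := by
      rintro ⟨⟨⟨q, hq⟩, φ⟩, hx⟩
      obtain ⟨a1, a2⟩ := hS _ hx
      have a3 : q = p := a2
      subst a3
      exact ⟨⟨φ, a1⟩, rfl⟩
    choose g hg using hsurj
    refine Nat.card_le_card_of_injective g fun x y hxy => Subtype.ext ?_
    rw [← hg x, ← hg y, hxy]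
  · have : S = ∅ := eq_empty_of_forall_notMem fun x hx => hpp ((hS x hx).2 ▸ pt_prime x)
    simp [this]

end ZG

open Classical ZG in
theorem stZMAJ (hM : St_MODP) : St_ZMAJ := by
  intro B _ _ _ d _ Γ m H Y P Xs η KG c0 epm e Maj hW hT hm hL hG hMaj hep hc0 hsm
  set E := Xs.filter (fun x => x.On (Γ.el e)) with hE
  have h0 := abs_le.1 (hG.mom 0 (by norm_num))
  have h1 := abs_le.1 (hG.mom 1 (by norm_num))
  have h2 := abs_le.1 (hG.mom 2 (by norm_num))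
  simp only [pow_zero, mul_one, pow_one, ← hE] at h0 h1 h2
  rw [hL.one] at h0
  have hη : 0 ≤ η := by linarith [h0.1, h0.2]
  have hnn : 0 ≤ ∑ x ∈ E \ Maj, pmu Xs x := sum_nonneg fun x _ => pmu_nn Xs x
  have hsd : ∀ g : Pt B → ℝ, ∑ x ∈ E \ Maj, g x + ∑ x ∈ Maj, g x = ∑ x ∈ E, g x :=
    fun g => sum_sdiff hMaj
  refine ⟨by linarith [h0.2], ?_, fun p => ?_, fun u v => ?_⟩
  · have := hsd (pmu Xs)
    rw [abs_le]
    constructor <;> linarith [h0.1, h0.2]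
  · have hc := on_card hM Γ (Γ.el_mem e) hG.prim p (E.filter fun x => x.p = p)
      fun x hx => ⟨(mem_filter.1 (mem_filter.1 hx).1).2, (mem_filter.1 hx).2⟩
    have hc' : ((E.filter fun x => x.p = p).card : ℝ) ≤ m * d * d := by exact_mod_cast hc
    calc ∑ x ∈ E.filter (fun x => x.p = p), pmu Xs x
        ≤ ∑ x ∈ E.filter (fun x => x.p = p), 2 / winT H :=
          sum_le_sum fun x hx => pmu_le hW (by linarith) hm (mem_filter.1 (mem_filter.1 hx).1).1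
      _ = (E.filter fun x => x.p = p).card * (2 / winT H) := by rw [sum_const, nsmul_eq_mul]
      _ ≤ (m * d * d) * (2 / winT H) := mul_le_mul_of_nonneg_right hc' (by positivity)
      _ = 2 * (m * d * d) / winT H := by ring
  · obtain ⟨A, hA⟩ : ∃ A, A = ∑ j ∈ Xs, pwb Xs j * pa H j := ⟨_, rfl⟩
    obtain ⟨A2, hA2⟩ : ∃ A, A = ∑ j ∈ Xs, pwb Xs j * pa H j ^ 2 := ⟨_, rfl⟩
    have hA1 : 1 ≤ A := by
      rw [hA, ← hL.one]
      exact sum_le_sum fun x hx => le_mul_of_one_le_right (hL.nn x hx) (hL.lo x hx)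
    have hA1' : A ≤ 2 := by
      have : ∑ j ∈ Xs, pwb Xs j * pa H j ≤ ∑ j ∈ Xs, pwb Xs j * 2 :=
        sum_le_sum fun x hx => mul_le_mul_of_nonneg_left (hL.hi x hx) (hL.nn x hx)
      rw [← sum_mul, hL.one] at this
      linarith
    have hv := hL.var
    rw [← hA] at hv
    have hv1 : ∑ i ∈ Xs, pwb Xs i * (pa H i - A) ^ 2 ≤ 1 := by
      rw [← hL.one]
      refine sum_le_sum fun x hx => mul_le_of_le_one_right (hL.nn x hx) ?_
      have := hL.lo x hx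
      have := hL.hi x hx
      nlinarith
    have hv2 : ∑ i ∈ Xs, pwb Xs i * (pa H i - A) ^ 2 = A2 - A ^ 2 := by
      have : ∀ i, pwb Xs i * (pa H i - A) ^ 2 =
          pwb Xs i * pa H i ^ 2 - 2 * A * (pwb Xs i * pa H i) + A ^ 2 * pwb Xs i := fun i => by ring
      simp only [this, sum_add_distrib, sum_sub_distrib, ← mul_sum, hL.one, ← hA, ← hA2]
      ring
    rw [← hA] at h1
    rw [← hA2] at h2
    have hex : ∑ x ∈ E, pmu Xs x * (u + v * pa H x) ^ 2 = u ^ 2 * ∑ x ∈ E, pmu Xs x +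
        2 * u * v * ∑ x ∈ E, pmu Xs x * pa H x + v ^ 2 * ∑ x ∈ E, pmu Xs x * pa H x ^ 2 := by
      simp only [mul_sum, ← sum_add_distrib]
      exact sum_congr rfl fun x _ => by ring
    have hrest : ∑ x ∈ E \ Maj, pmu Xs x * (u + v * pa H x) ^ 2 ≤ epm * (5 * (u ^ 2 + v ^ 2)) := by
      refine le_trans ?_ (mul_le_mul_of_nonneg_right hep (by positivity))
      rw [sum_mul]
      refine sum_le_sum fun x hx => mul_le_mul_of_nonneg_left ?_ (pmu_nn Xs x)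
      have hx' := (mem_filter.1 (mem_sdiff.1 hx).1).1
      have a1 := hL.lo x hx'
      have a2 := hL.hi x hx'
      have a3 : pa H x ^ 2 ≤ 4 := by nlinarith
      nlinarith [sq_nonneg (u * pa H x - v), sq_nonneg u, sq_nonneg v,
        mul_le_mul_of_nonneg_left a3 (add_nonneg (sq_nonneg u) (sq_nonneg v))]
    have hs := hsd fun x => pmu Xs x * (u + v * pa H x) ^ 2
    rw [hex] at hs
    obtain ⟨e0, he0⟩ : ∃ t, ∑ x ∈ E, pmu Xs x = 1 + t := ⟨_, (add_sub_cancel _ _).symm⟩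
    obtain ⟨e1, he1⟩ : ∃ t, ∑ x ∈ E, pmu Xs x * pa H x = A + t := ⟨_, (add_sub_cancel _ _).symm⟩
    obtain ⟨e2, he2⟩ : ∃ t, ∑ x ∈ E, pmu Xs x * pa H x ^ 2 = A2 + t :=
      ⟨_, (add_sub_cancel _ _).symm⟩
    rw [he0] at h0 hs
    rw [he1] at h1 hs
    rw [he2] at h2 hs
    have b0 : -η * u ^ 2 ≤ u ^ 2 * e0 := by nlinarith [sq_nonneg u, h0.1]
    have b2 : -η * v ^ 2 ≤ v ^ 2 * e2 := by nlinarith [sq_nonneg v, h2.1]
    have b1 : -η * (u ^ 2 + v ^ 2) ≤ 2 * u * v * e1 := by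
      have c1 : 0 ≤ η + e1 := by linarith [h1.1]
      have c2 : 0 ≤ η - e1 := by linarith [h1.2]
      nlinarith [mul_nonneg c1 (sq_nonneg (u + v)), mul_nonneg c2 (sq_nonneg (u - v))]
    have b3 : c0 * v ^ 2 ≤ v ^ 2 * (A2 - A ^ 2) := by nlinarith [sq_nonneg v]
    have hc1 : c0 ≤ 1 := hv.trans hv1
    have b4 : u ^ 2 + v ^ 2 ≤ 2 * (u + v * A) ^ 2 + 9 * v ^ 2 := by
      have : A ^ 2 ≤ 4 := by nlinarith
      nlinarith [sq_nonneg (u + 2 * v * A), mul_le_mul_of_nonneg_left this (sq_nonneg v)]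
    have b5 : c0 * (u ^ 2 + v ^ 2) ≤ 9 * ((u + v * A) ^ 2 + c0 * v ^ 2) := by
      nlinarith [mul_le_mul_of_nonneg_left b4 hc0.le, sq_nonneg (u + v * A),
        mul_le_mul_of_nonneg_right hc1 (sq_nonneg (u + v * A))]
    have hep0 : 0 ≤ epm := hnn.trans hep
    have hq : 0 ≤ u ^ 2 + v ^ 2 := by positivity
    have b6 := mul_le_mul_of_nonneg_right hsm hq
    have b7 := mul_nonneg hη hq
    have b8 := mul_nonneg hc0.le hq
    nlinarith

end Pool.Agent.Lib.BK2
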