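import Pool.Agent.Lib.BK2.ZFStmt

/-! BK2 block ZF: the grid of the `w`. -/

open Finset
open scoped Classical

namespace Pool.Agent.Lib.BK2

namespace ZGRID

theorem mem_zc {I : Type} [Fintype I] {a : I → ℤ} {s Q : ℕ} {cl w : I → ℤ} :
    w ∈ zcell a s Q cl ↔ InC a s Q cl w := by
  simp [zcell, InC, Fintype.mem_piFinset]

theorem near (x y a : ℤ) (sp : ℕ) (hsp : 0 < sp) (h : (x - a) / sp = (y - a) / sp) :
    |(x : ℝ) - y| ≤ sp := by
  have hs : (0 : ℤ) < sp := by exact_mod_cast hsp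
  have h1 := Int.emod_nonneg (x - a) hs.ne'
  have h2 := Int.emod_lt_of_pos (x - a) hs
  have h3 := Int.emod_nonneg (y - a) hs.ne'
  have h4 := Int.emod_lt_of_pos (y - a) hs
  have h5 := Int.mul_ediv_add_emod (x - a) sp
  have h6 := Int.mul_ediv_add_emod (y - a) sp
  rw [h] at h5
  have : |x - y| ≤ sp := abs_le.2 ⟨by linarith, by linarith⟩
  exact_mod_cast this

end ZGRID

open ZGRID in
theorem stZGRID (hC : St_ZCELL) (hD : St_ZDEN) : St_ZGRID := by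
  intro I _ o s r₀ H' n M Q w0 hs hr hH hn hM hQ hMQ hle
  have hn' : (1 : ℝ) ≤ n := by exact_mod_cast hn
  have hQ' : (1 : ℝ) ≤ Q := by exact_mod_cast hQ
  have hnQ : (0 : ℝ) < n * Q := by positivity
  have hm : min r₀ s * H' ≤ s * H' := mul_le_mul_of_nonneg_right (min_le_right _ _) hH.le
  have hsH : 0 < s * H' := by positivity
  obtain ⟨q, hq⟩ : ∃ q : ℕ, q = ⌊s * H' / (n * Q)⌋₊ := ⟨_, rfl⟩
  have hq1 : (q : ℝ) * (n * Q) ≤ s * H' := by
    rw [← le_div_iff₀ hnQ, hq]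
    exact Nat.floor_le (by positivity)
  have hq2 : s * H' < (q + 1) * (n * Q) := by
    rw [← div_lt_iff₀ hnQ, hq]
    exact Nat.lt_floor_add_one _
  obtain ⟨sp, hsp⟩ : ∃ sp : ℕ, sp = Q * q := ⟨_, rfl⟩
  have e1 : (n : ℝ) * sp = q * (n * Q) := by rw [hsp]; push_cast; ring
  have h1 : (n : ℝ) * sp ≤ s * H' := e1 ▸ hq1
  have h2 : s * H' - n * Q < n * sp := by rw [e1]; linarith
  have h0 : 0 < n * sp := by
    have : (0 : ℝ) < n * sp := by linarith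
    exact_mod_cast this
  have hsp0 : 0 < sp := Nat.pos_of_mul_pos_left h0
  have hQsp : Q ∣ sp := ⟨q, hsp⟩
  have h1Q : (1 : ℝ) ≤ n * Q := one_le_mul_of_one_le_of_one_le hn' hQ'
  have hMr : (M : ℝ) ≤ n * Q := by
    have : (M : ℝ) ≤ Q := by exact_mod_cast Nat.le_of_dvd hQ hMQ
    nlinarith
  obtain ⟨a, ha⟩ : ∃ a : I → ℤ, a = fun i => ⌈o i * H'⌉ := ⟨_, rfl⟩
  have ha1 : ∀ i, o i * H' ≤ a i := fun i => by rw [ha]; exact Int.le_ceil _
  have ha2 : ∀ i, (a i : ℝ) < o i * H' + 1 := fun i => by rw [ha]; exact Int.ceil_lt_add_one _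
  obtain ⟨W, hW⟩ : ∃ W : Finset (I → ℤ), ∀ w, w ∈ W ↔ InC a (n * sp) M w0 w :=
    ⟨_, fun _ => mem_zc⟩
  obtain ⟨Wp, hWp⟩ : ∃ Wp : Finset (I → ℤ),
      ∀ w, w ∈ Wp ↔ InC (fun i => a i - (n * sp : ℕ)) (3 * n * sp) M w0 w := ⟨_, fun _ => mem_zc⟩
  obtain ⟨c1, c2⟩ := hC I a a w0 sp n M Q W hsp0 hM hMQ hQsp (fun i => by simp) hW
  obtain ⟨c3, c4⟩ := hC I a _ w0 sp (3 * n) M Q Wp hsp0 hM hMQ hQsp
    (fun i => ⟨-n, by push_cast; ring⟩) hWp
  have hMd : M ∣ n * sp := (hMQ.trans hQsp).mul_left n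
  have hWr : ∀ w ∈ W, scl H' w ∈ rcube o s := fun w hw i => by
    obtain ⟨h3, h4⟩ := ((hW w).1 hw).1 i
    have h3' : (a i : ℝ) ≤ w i := by exact_mod_cast h3
    have h4' : (w i : ℝ) + 1 ≤ a i + n * sp := by exact_mod_cast h4
    simp only [scl]
    rw [le_div_iff₀ hH, div_le_iff₀ hH]
    constructor <;> linarith [ha1 i, ha2 i]
  have hsub : W ⊆ Wp := fun w hw => by
    obtain ⟨h3, h4⟩ := (hW w).1 hw
    refine (hWp w).2 ⟨fun i => ?_, h4⟩
    have h5 := h3 i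
    have h6 : (0 : ℤ) ≤ n * sp := by positivity
    push_cast at h5 ⊢
    constructor <;> linarith [h5.1, h5.2]
  refine ⟨a, sp, W, Wp, by linarith, h1, hW, by simpa only [mul_assoc] using hWp, ?_, hsub, ?_,
    hWr, fun w hw i => ?_, fun w hw w' hw' h => ?_, fun w hw => ?_, fun w w' h => ?_,
    fun V hV hc => ?_⟩
  · rw [← card_pos, c1]
    exact pow_pos (Nat.div_pos (Nat.le_of_dvd h0 hMd) hM) _
  · rw [c1, c3, ← mul_pow, mul_assoc, Nat.mul_div_assoc _ hMd]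
  · obtain ⟨h3, h4⟩ := ((hWp w).1 hw).1 i
    have h3' : (a i : ℝ) - n * sp ≤ w i := by exact_mod_cast h3
    have h4' : (w i : ℝ) + 1 ≤ a i - n * sp + 3 * n * sp := by exact_mod_cast h4
    simp only [scl]
    rw [le_div_iff₀ hH, div_le_iff₀ hH]
    constructor <;> linarith [ha1 i, ha2 i]
  · exact (((c2 w hw).1 w').2 (((c4 w (hsub hw)).1 w').1 ⟨hw', h⟩)).1
  · exact ⟨_, Finset.ext fun v => by rw [mem_filter, (c4 w hw).1 v, mem_zc]⟩
  · refine (dist_pi_le_iff (by positivity)).2 fun i => ?_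
    have h3 := near _ _ _ _ hsp0 (congrArg Prod.fst (congrFun h i))
    simp only [scl]
    rw [Real.dist_eq, ← sub_div, abs_div, abs_of_pos hH, div_le_div_iff₀ hH (by positivity)]
    nlinarith
  · refine hD I o s r₀ H' a w0 (n * sp) M W V hs hr hH hM hW hWr (fun i => ?_) ?_ (by linarith) hV hc
    · exact abs_le.2 ⟨by linarith [ha1 i], by linarith [ha2 i]⟩
    · push_cast
      exact abs_le.2 ⟨by linarith, by linarith⟩

end Pool.Agent.Lib.BK2
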