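import Pool.Agent.Lib.BK2.ZGDefs

open Finset

namespace Pool.Agent.Lib.BK2

namespace ZG

theorem exists_big (N k0 : ℕ) (hN : 0 < N) (b : ℝ) (hb : 0 < b) (n : ℕ) :
    ∃ k, k0 ≤ k ∧ N ∣ k ∧ n < k ∧ 1 / Real.sqrt k ≤ b := by
  obtain ⟨u, hu⟩ := exists_nat_ge (1 / b ^ 2)
  refine ⟨N * (k0 + u + n + 1), ?_, dvd_mul_right _ _, ?_, ?_⟩
  · nlinarith
  · nlinarith
  · have h1 : (u : ℝ) ≤ ((N * (k0 + u + n + 1) : ℕ) : ℝ) := by
      have : u ≤ N * (k0 + u + n + 1) := by nlinarith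
      exact_mod_cast this
    have h2 : 1 / b ≤ Real.sqrt ((N * (k0 + u + n + 1) : ℕ) : ℝ) := by
      apply Real.le_sqrt_of_sq_le
      rw [div_pow, one_pow]
      exact hu.trans h1
    have h3 : 0 < 1 / b := by positivity
    calc 1 / Real.sqrt ((N * (k0 + u + n + 1) : ℕ) : ℝ) ≤ 1 / (1 / b) :=
          one_div_le_one_div_of_le h3 h2
      _ = b := by field_simp

theorem exists_list (N k0 : ℕ) (β : ℕ → ℝ) (hN : 0 < N) (hβ : ∀ k, 0 < β k) (I : ℕ) :
    ∃ Ks : Finset ℕ, Ks.card = I ∧ (∀ k ∈ Ks, k0 ≤ k ∧ N ∣ k) ∧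
      ∀ k ∈ Ks, ∀ k' ∈ Ks, k < k' → 1 / Real.sqrt k' ≤ β k := by
  induction I with
  | zero => exact ⟨∅, by simp, by simp, by simp⟩
  | succ I ih =>
    obtain ⟨Ks, h1, h2, h3⟩ := ih
    obtain ⟨b, hb, hb'⟩ : ∃ b : ℝ, 0 < b ∧ ∀ k ∈ Ks, b ≤ β k := by
      rcases Ks.eq_empty_or_nonempty with rfl | hne
      · exact ⟨1, one_pos, by simp⟩
      · obtain ⟨k, hk, hmin⟩ := Ks.exists_min_image β hne
        exact ⟨β k, hβ k, hmin⟩
    obtain ⟨k', a1, a2, a3, a4⟩ := exists_big N k0 hN b hb (Ks.sup id)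
    have hlt : ∀ k ∈ Ks, k < k' := fun k hk => lt_of_le_of_lt (Finset.le_sup (f := id) hk) a3
    have hn : k' ∉ Ks := fun h => lt_irrefl _ (hlt _ h)
    refine ⟨insert k' Ks, by rw [card_insert_of_notMem hn, h1], ?_, ?_⟩
    · intro k hk
      rcases mem_insert.1 hk with rfl | hk
      · exact ⟨a1, a2⟩
      · exact h2 k hk
    · intro k hk l hl hkl
      rcases mem_insert.1 hk with hk1 | hk1
      · rcases mem_insert.1 hl with hl1 | hl1
        · omega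
        · have := hlt l hl1
          omega
      · rcases mem_insert.1 hl with hl1 | hl1
        · rw [hl1]
          exact a4.trans (hb' k hk1)
        · exact h3 k hk1 l hl1 hkl

end ZG

open Classical in
theorem stZONE : St_ZONE := by
  intro C1 N k0 β η' hN hβ hη
  obtain ⟨I0, hI0⟩ := exists_nat_ge (C1 / η')
  obtain ⟨Ks, h1, h2, h3⟩ := ZG.exists_list N k0 β hN hβ (I0 + 1)
  refine ⟨Ks, h2, fun E G Bad hBad => ?_⟩
  by_contra hcon
  push Not at hcon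
  have hne : Ks.Nonempty := by rw [← card_pos, h1]; omega
  have key : ∀ e ∈ G, (Ks.filter fun k => ¬ ∀ b ∈ Bad e, b ≤ β k ∨ 1 / Real.sqrt k < b).card ≤
      C1 := by
    intro e he
    refine le_trans ?_ (hBad e he)
    have hch : ∀ k : ℕ, ∃ b : ℝ, (¬ ∀ b ∈ Bad e, b ≤ β k ∨ 1 / Real.sqrt k < b) →
        b ∈ Bad e ∧ β k < b ∧ b ≤ 1 / Real.sqrt k := by
      intro k
      by_cases hk : ∀ b ∈ Bad e, b ≤ β k ∨ 1 / Real.sqrt k < b
      · exact ⟨0, fun h => absurd hk h⟩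
      · have hk' := hk
        push Not at hk'
        obtain ⟨b, hb⟩ := hk'
        exact ⟨b, fun _ => hb⟩
    choose f hf using hch
    refine card_le_card_of_injOn f (fun k hk => (hf k (mem_filter.1 hk).2).1) ?_
    intro k hk l hl hkl
    have hk' := mem_filter.1 (mem_coe.1 hk)
    have hl' := mem_filter.1 (mem_coe.1 hl)
    obtain ⟨-, b1, b2⟩ := hf k hk'.2
    obtain ⟨-, c1, c2⟩ := hf l hl'.2
    rcases lt_trichotomy k l with h | h | h
    · have := h3 k hk'.1 l hl'.1 h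
      rw [hkl] at b1
      linarith
    · exact h
    · have := h3 l hl'.1 k hk'.1 h
      rw [← hkl] at c1
      linarith
  have hsum : ∑ k ∈ Ks, (G.filter fun e => ¬ ∀ b ∈ Bad e, b ≤ β k ∨ 1 / Real.sqrt k < b).card ≤
      C1 * G.card := by
    calc ∑ k ∈ Ks, (G.filter fun e => ¬ ∀ b ∈ Bad e, b ≤ β k ∨ 1 / Real.sqrt k < b).card
        = ∑ e ∈ G, (Ks.filter fun k => ¬ ∀ b ∈ Bad e, b ≤ β k ∨ 1 / Real.sqrt k < b).card := by
          simp only [card_filter]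
          exact sum_comm
      _ ≤ ∑ e ∈ G, C1 := sum_le_sum key
      _ = C1 * G.card := by simp [mul_comm]
  have hlt : ∑ k ∈ Ks, η' * G.card <
      ∑ k ∈ Ks, ((G.filter fun e => ¬ ∀ b ∈ Bad e, b ≤ β k ∨ 1 / Real.sqrt k < b).card : ℝ) := by
    refine sum_lt_sum_of_nonempty hne fun k hk => ?_
    have := hcon k hk
    simpa using this
  have hs' : (∑ k ∈ Ks, ((G.filter fun e =>
      ¬ ∀ b ∈ Bad e, b ≤ β k ∨ 1 / Real.sqrt k < b).card : ℝ)) ≤ C1 * G.card := by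
    exact_mod_cast hsum
  rw [sum_const, h1, nsmul_eq_mul] at hlt
  have hC : (C1 : ℝ) ≤ I0 * η' := by rwa [div_le_iff₀ hη] at hI0
  have hG : (0 : ℝ) ≤ G.card := by positivity
  push_cast at hlt
  nlinarith [mul_le_mul_of_nonneg_right hC hG, mul_nonneg hη.le hG]

end Pool.Agent.Lib.BK2
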