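import Pool.Agent.Lib.BK2.ZFDefs

/-! BK2 block ZF.OSC: bounds, oscillation and finite partitions. -/

namespace Pool.Agent.Lib.BK2

theorem stZOSC : St_ZOSC := by
  intro E W O _ _ _ A A' g hA hA' hne hg
  have hK := hA.prod hA'
  have hu : ∀ η : ℝ, 0 < η → ∃ r : ℝ, 0 < r ∧ ∀ e ∈ A, ∀ e' ∈ A, ∀ w ∈ A', ∀ w' ∈ A',
      dist e e' ≤ r → dist w w' ≤ r → ∀ j, |g e w j - g e' w' j| ≤ η := fun η hη => by
    obtain ⟨r, hr, h⟩ := Metric.uniformContinuousOn_iff_le.1
      (hK.uniformContinuousOn_of_continuous hg) η hη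
    refine ⟨r, hr, fun e he e' he' w hw w' hw' h1 h2 j => ?_⟩
    have := h (e, w) ⟨he, hw⟩ (e', w') ⟨he', hw'⟩ (by rw [Prod.dist_eq]; exact max_le h1 h2)
    rw [← Real.dist_eq]
    exact (dist_le_pi_dist _ _ j).trans this
  refine ⟨?_, fun η hη => ?_, fun ε hε => ?_⟩
  · obtain ⟨C, hC⟩ := hK.exists_bound_of_continuousOn hg
    exact ⟨max 1 C, le_max_left _ _, fun e he w hw j =>
      ((norm_le_pi_norm (g e w) j).trans (hC (e, w) ⟨he, hw⟩)).trans (le_max_right _ _)⟩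
  · obtain ⟨r, hr, h⟩ := hu η hη
    exact ⟨r, hr, fun e he w hw w' hw' h1 =>
      h e he e he w hw w' hw' (by rw [dist_self]; exact hr.le) h1⟩
  · obtain ⟨r, hr, h⟩ := hu ε hε
    obtain ⟨t, ht, hf, hc⟩ := finite_cover_balls_of_compact hA hr
    have := hf.fintype
    have hne' : Nonempty t := by
      obtain ⟨e, he⟩ := hne
      obtain ⟨x, hx, -⟩ := Set.mem_iUnion₂.1 (hc he)
      exact ⟨⟨x, hx⟩⟩
    have hx : ∀ e, ∃ x : t, e ∈ A → dist e x < r := fun e => by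
      by_cases he : e ∈ A
      · obtain ⟨x, hx, h1⟩ := Set.mem_iUnion₂.1 (hc he)
        exact ⟨⟨x, hx⟩, fun _ => h1⟩
      · exact ⟨hne'.some, fun h1 => absurd h1 he⟩
    choose x hx using hx
    refine ⟨Fintype.card t, fun b => (Fintype.equivFin t).symm b, fun e => Fintype.equivFin t (x e),
      fun b => ht ((Fintype.equivFin t).symm b).2, fun e he w hw j => ?_⟩
    simp only [Equiv.symm_apply_apply]
    exact h e he _ (ht (x e).2) w hw w hw (hx e he).le (by rw [dist_self]; exact hr.le) j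

end Pool.Agent.Lib.BK2
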