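import Pool.Agent.Lib.BK2.ZFStmt
import Pool.Agent.Lib.BK2.MERT

/-! BK2 block ZF: the parameters. -/

open Finset Filter

noncomputable section

namespace Pool.Agent.Lib.BK2

namespace ZPAR

lemma ev_log (c : ℝ) : ∀ᶠ H : ℕ in atTop, c ≤ Real.log H :=
  (Real.tendsto_log_atTop.comp tendsto_natCast_atTop_atTop).eventually_ge_atTop c

lemma ev_lin {a : ℝ} (ha : 0 < a) (c : ℝ) : ∀ᶠ H : ℕ in atTop, c ≤ a * H :=
  (tendsto_natCast_atTop_atTop.const_mul_atTop ha).eventually_ge_atTop c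

lemma ev_pow {c : ℝ} (hc : 0 < c) : ∀ᶠ H : ℕ in atTop, c * Real.log H ^ 5 ≤ winT H := by
  have h := (isLittleO_log_rpow_rpow_atTop (s := 1 / 20) 5 (by norm_num)).bound
    (inv_pos.2 hc)
  filter_upwards [tendsto_natCast_atTop_atTop.eventually h, ev_log 0] with H h1 h2
  rw [Real.norm_of_nonneg (by positivity), Real.norm_of_nonneg (by positivity)] at h1
  rw [winT, ← le_inv_mul_iff₀ hc]
  exact_mod_cast h1

lemma mem_zcell {I : Type} [Fintype I] {a : I → ℤ} {s Q : ℕ} {cl w : I → ℤ} :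
    w ∈ zcell a s Q cl ↔ InC a s Q cl w := by
  simp [zcell, InC, Fintype.mem_piFinset]

end ZPAR

open ZPAR in
theorem stZPAR (hD : St_ZDEN) : St_ZPAR := by
  intro I _ o s hs
  refine ⟨⌈∑ i, |o i| + s + 1⌉₊, Nat.ceil_pos.2 (by positivity), ?_⟩
  set R := ⌈∑ i, |o i| + s + 1⌉₊ with hR
  have hR1 : ∀ i, |o i| + s + 1 ≤ R := fun i => by
    refine le_trans ?_ (Nat.le_ceil _)
    have := Finset.single_le_sum (f := fun i => |o i|) (fun _ _ => abs_nonneg _) (mem_univ i)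
    linarith
  intro r₀ C M0 Y0 e0 hr hM0
  have hmin : 0 < min r₀ s / 8 := by positivity
  have hM0' : (1 : ℝ) ≤ M0 := by exact_mod_cast hM0
  refine eventually_atTop.1 ?_
  filter_upwards [ev_log 56, ev_log (8 * M0), ev_log (8 * Y0), ev_log C,
    ev_pow (c := max C 2) (lt_max_of_lt_right two_pos), ev_lin hs 2, ev_lin hmin M0,
    eventually_ge_atTop 1] with H h56 hM hY hC hpow hsH hmH hH
  have hH1 : (1 : ℝ) ≤ H := by exact_mod_cast hH
  have hH0 : (0 : ℝ) < H := by linarith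
  have hY1 : 1 / 8 * Real.log H ≤ zY H := by
    have := Nat.lt_floor_add_one (Real.log H / 7)
    rw [zY]
    linarith
  have hY2 : (zY H : ℝ) ≤ Real.log H / 7 := Nat.floor_le (by linarith)
  have hMY : M0 ≤ zY H := by
    have : (M0 : ℝ) ≤ zY H := by linarith
    exact_mod_cast this
  have hl5 : Real.log H ≤ Real.log H ^ 5 := le_self_pow₀ (by linarith) (by norm_num)
  have hl50 : 0 ≤ Real.log H ^ 5 := by linarith
  have hfl : s * H - 1 < ⌊s * H⌋₊ := by
    have := Nat.lt_floor_add_one (s * H)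
    linarith
  have hfl2 : (⌊s * H⌋₊ : ℝ) ≤ s * H := Nat.floor_le (by linarith)
  have hce : ∀ i, |((⌈o i * H⌉ : ℤ) : ℝ) - o i * H| ≤ 1 := fun i => by
    have h1 := Int.le_ceil (o i * H)
    have h2 := Int.ceil_lt_add_one (o i * H)
    rw [abs_le]
    constructor <;> linarith
  have hR2 : ∀ i, |((⌈o i * H⌉ : ℤ) : ℝ)| + ⌊s * H⌋₊ ≤ R * H := fun i => by
    have h1 : |((⌈o i * H⌉ : ℤ) : ℝ)| ≤ 1 + |o i| * H := by
      have := abs_sub_abs_le_abs_sub ((⌈o i * H⌉ : ℤ) : ℝ) (o i * H)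
      rw [abs_mul, abs_of_pos hH0] at this
      linarith [hce i]
    have h2 := mul_le_mul_of_nonneg_right (hR1 i) hH0.le
    linarith
  have hmem : ∀ e ∈ zE o s M0 e0 H, (∀ i, |(e i : ℝ)| ≤ R * H) ∧ scl H e ∈ rcube o s := by
    intro e he
    have h1 := (mem_zcell.1 he).1
    have h2 : ∀ i, ((⌈o i * H⌉ : ℤ) : ℝ) ≤ e i ∧
        (e i : ℝ) + 1 ≤ ((⌈o i * H⌉ : ℤ) : ℝ) + ⌊s * H⌋₊ := fun i =>
      ⟨by exact_mod_cast (h1 i).1, by exact_mod_cast (h1 i).2⟩
    refine ⟨fun i => ?_, fun i => ⟨?_, ?_⟩⟩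
    · have h3 := hR2 i
      have h4 := h2 i
      have h5 := le_abs_self ((⌈o i * H⌉ : ℤ) : ℝ)
      have h6 := neg_abs_le ((⌈o i * H⌉ : ℤ) : ℝ)
      have h7 : (0 : ℝ) ≤ ⌊s * H⌋₊ := Nat.cast_nonneg _
      rw [abs_le]
      constructor <;> linarith [h4.1, h4.2]
    · rw [scl, le_div_iff₀ hH0]
      exact (Int.le_ceil _).trans (h2 i).1
    · rw [scl, div_le_iff₀ hH0]
      have := Int.ceil_lt_add_one (o i * H)
      linarith [(h2 i).2]
  refine ⟨hY1, by linarith, ?_, Nat.mul_pos hM0 (Nat.lcmUpto_pos _), fun q hq => ⟨fun h => ?_,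
    fun h => Dvd.dvd.mul_left (dvd_lcm hq.one_le h) _⟩, fun q h1 h2 => ?_, ?_, ?_, hC, ?_, ?_,
    by linarith, fun i => ?_, hmem, fun G hG hc pe hpe => ?_⟩
  · have h1 := lcm_le (zY H)
    have h2 : (M0 : ℝ) ≤ Real.exp (Real.log H / 7) := by
      have := Real.add_one_le_exp (Real.log H / 7)
      linarith
    have h3 : ((zL M0 H : ℕ) : ℝ) ≤ H := by
      rw [zL]
      push_cast
      calc (M0 : ℝ) * Nat.lcmUpto (zY H) ≤ Real.exp (Real.log H / 7) * Real.exp (6 * zY H) := by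
            gcongr
        _ = Real.exp (Real.log H / 7 + 6 * zY H) := (Real.exp_add _ _).symm
        _ ≤ Real.exp (Real.log H) := Real.exp_le_exp.2 (by linarith)
        _ = H := Real.exp_log hH0
    exact_mod_cast h3
  · rcases (Nat.Prime.dvd_mul hq).1 h with h | h
    · exact (Nat.le_of_dvd hM0 h).trans hMY
    · exact hq.dvd_factorial.1 (h.trans (Nat.lcmUpto_dvd_factorial _))
  · rw [zL, mul_comm q]
    exact Nat.mul_dvd_mul_left _ (dvd_lcm h1 h2)
  · have : (Y0 : ℝ) ≤ zY H := by linarith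
    exact_mod_cast this
  · have := mul_le_mul_of_nonneg_right (le_max_right C 2) hl50
    linarith
  · exact (mul_le_mul_of_nonneg_right (le_max_left C 2) hl50).trans hpow
  · rw [winT, ← Real.rpow_natCast, ← Real.rpow_mul hH0.le]
    norm_num
  · have h := hR2 i
    have h' : ((|⌈o i * H⌉| + ⌊s * H⌋₊ : ℤ) : ℝ) ≤ ((R * H : ℕ) : ℤ) := by
      push_cast
      exact h
    exact_mod_cast h'
  · have hm : (M0 : ℝ) ≤ min r₀ s * H / 8 := by linarith
    refine hD I o s r₀ H (fun i => ⌈o i * H⌉) e0 ⌊s * H⌋₊ M0 (zE o s M0 e0 H) G hs hr hH0 hM0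
      (fun w => mem_zcell) (fun w hw => (hmem w hw).2) (fun i => (hce i).trans (by linarith)) ?_
      hm hG hc pe hpe
    rw [abs_le]
    constructor <;> linarith

end Pool.Agent.Lib.BK2
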