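import Pool.Agent.Lib.BK2.ZFDefs
import Pool.Agent.Lib.BK2.SM

/-! BK2 block ZF: the variance bound on the concrete families. -/

open Polynomial Finset

noncomputable section

namespace Pool.Agent.Lib.BK2.ZVAR

variable {B : Type} [CommRing B] [Algebra ℤ[X] B] {d : ℕ} [NeZero d] (Γ : Geo B d)

/-- the product of coordinate vectors as a bilinear map -/
def mulL (a a' c : ℕ) : (Γ.Ix a → ℤ) →ₗ[ℤ] (Γ.Ix a' → ℤ) →ₗ[ℤ] (Γ.Ix c → ℤ) :=
  LinearMap.mk₂ ℤ (fun e s => Γ.mulv c e s)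
    (fun e e' s => by
      funext k; simp only [Geo.mulv, Pi.add_apply, add_mul, sum_add_distrib])
    (fun r e s => by
      funext k; simp only [Geo.mulv, Pi.smul_apply, smul_eq_mul, mul_sum, mul_assoc])
    (fun e s s' => by
      funext k; simp only [Geo.mulv, Pi.add_apply, add_mul, mul_add, sum_add_distrib])
    (fun r e s => by
      funext k
      simp only [Geo.mulv, Pi.smul_apply, smul_eq_mul, mul_sum]
      exact sum_congr rfl fun i _ => sum_congr rfl fun j _ => by ring)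

theorem mulL_apply (a a' c : ℕ) (e : Γ.Ix a → ℤ) (s : Γ.Ix a' → ℤ) :
    mulL Γ a a' c e s = Γ.mulv c e s := rfl

theorem co_mon (c : ℕ) (k : Γ.Ix c) : Γ.co c (Γ.mon k) = Pi.single k 1 := by
  funext k'
  obtain ⟨l, a⟩ := k
  obtain ⟨l', a'⟩ := k'
  have e : Γ.mon (⟨l, a⟩ : Γ.Ix c) = (X ^ (a : ℕ) : ℤ[X]) • Γ.b l := by
    rw [Geo.mon, Geo.t, Algebra.smul_def, map_pow]
  rw [Geo.co, e, map_smul, Module.Basis.repr_self, Finsupp.smul_apply, smul_eq_mul]
  by_cases h : l = l'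
  · subst h
    rw [Finsupp.single_eq_same, mul_one, coeff_X_pow]
    by_cases h' : a' = a
    · subst h'; simp
    · rw [if_neg fun h'' => h' (Fin.ext h''), Pi.single_eq_of_ne]
      intro h''
      exact h' (eq_of_heq (Sigma.mk.inj h'').2)
  · rw [Finsupp.single_eq_of_ne (Ne.symm h), mul_zero, coeff_zero, Pi.single_eq_of_ne]
    intro h''
    exact h (Sigma.mk.inj h'').1.symm

theorem mulv_single {a a' : ℕ} (c : ℕ) (i : Γ.Ix a) (j : Γ.Ix a') :
    Γ.mulv c (Pi.single i (1 : ℤ)) (Pi.single j 1) = Γ.co c (Γ.mon i * Γ.mon j) := by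
  funext k
  rw [Geo.mulv, sum_eq_single i, sum_eq_single j]
  · simp
  · intro j' _ h; simp [Pi.single_eq_of_ne h]
  · simp
  · intro i' _ h; simp [Pi.single_eq_of_ne h]
  · simp

/-- evaluation of a coordinate vector under a ring homomorphism -/
def evH (m : ℕ) {A : Type} [CommRing A] (x : B →+* A) : (Γ.Ix m → ℤ) →+ A where
  toFun e := x (Γ.el e)
  map_zero' := by simp [Geo.el]
  map_add' e e' := by simp only [Geo.el, Pi.add_apply, add_smul, sum_add_distrib, map_add]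

theorem evH_apply (m : ℕ) {A : Type} [CommRing A] (x : B →+* A) (e : Γ.Ix m → ℤ) :
    evH Γ m x e = x (Γ.el e) := rfl

/-- the index of the monomial `1` -/
def ix0 (m : ℕ) : Γ.Ix m := ⟨0, ⟨0, by rw [Γ.δ0]; omega⟩⟩

theorem el_single0 (m : ℕ) (n : ℤ) : Γ.el (Pi.single (ix0 Γ m) n) = n := by
  rw [Geo.el, sum_eq_single (ix0 Γ m)]
  · simp [Geo.mon, ix0, Γ.b0]
  · intro i _ h; simp [Pi.single_eq_of_ne h]
  · simp

theorem evH_surj (m P : ℕ) (x : B →+* ZMod P) : Function.Surjective (evH Γ m x) := fun u => by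
  obtain ⟨n, rfl⟩ := ZMod.intCast_surjective u
  exact ⟨Pi.single (ix0 Γ m) n, by rw [evH_apply, el_single0, map_intCast]⟩

theorem exists_multi (X : Finset (Pt B)) (h : Set.InjOn Pt.p (X : Set (Pt B))) :
    ∃ x : B →+* ZMod (∏ y ∈ X, y.p), ∀ f, x f = 0 ↔ ∀ y ∈ X, y.On f := by
  classical
  have hc : Pairwise (Function.onFun Nat.Coprime fun y : X => (y : Pt B).p) := by
    intro y z hyz
    exact (Nat.coprime_primes y.1.1.2 z.1.1.2).2 fun e => hyz (Subtype.ext (h y.2 z.2 e))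
  rw [← prod_coe_sort X]
  refine ⟨(ZMod.prodEquivPi (fun y : X => (y : Pt B).p) hc).symm.toRingHom.comp
    (RingHom.pi fun y : X => (y : Pt B).2), fun f => ?_⟩
  rw [RingHom.comp_apply, RingEquiv.toRingHom_eq_coe, RingHom.coe_coe,
    map_eq_zero_iff _ (RingEquiv.injective _), funext_iff]
  exact ⟨fun h y hy => h ⟨y, hy⟩, fun h y => h y y.2⟩

/-- reduction of a vector modulo `M` -/
def redM (I : Type) (M : ℕ) : (I → ℤ) →+ (I → ZMod M) where
  toFun v i := (v i : ZMod M)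
  map_zero' := by funext i; simp
  map_add' v w := by funext i; simp

theorem redM_eq {I : Type} {M : ℕ} (v w : I → ℤ) :
    redM I M v = redM I M w ↔ ∀ i, (M : ℤ) ∣ v i - w i := by
  rw [funext_iff]
  refine forall_congr' fun i => ?_
  exact (ZMod.intCast_eq_intCast_iff_dvd_sub _ _ _).trans dvd_sub_comm

theorem redM_exp {I : Type} {M : ℕ} (v : I → ℤ) : M • redM I M v = 0 := by
  funext i
  rw [Pi.smul_apply, nsmul_eq_mul, ZMod.natCast_self, zero_mul, Pi.zero_apply]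

theorem mem_cube {I : Type} [Fintype I] [DecidableEq I] {a : I → ℤ} {s : ℕ} {v : I → ℤ} :
    v ∈ cube a s ↔ ∀ i, a i ≤ v i ∧ v i < a i + s := by
  simp [cube]

theorem mem_fam {I : Type} [Fintype I] [DecidableEq I] {a e0 v : I → ℤ} {s M : ℕ}
    {Λ : AddSubgroup (I → ℤ)} : v ∈ fam a s M e0 Λ ↔ InC a s M e0 v ∧ v ∈ Λ := by
  simp only [fam, mem_filter, mem_cube, InC, and_assoc]

open Classical in
/-- the number of members of a class of a cube through a multi-point -/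
theorem card_fam_le {I : Type} [Fintype I] [DecidableEq I] [Nonempty I] (a e0 : I → ℤ)
    (s M P : ℕ) (hM : 0 < M) (hP : 0 < P) (hc : Nat.Coprime P M) (ψ : (I → ℤ) →+ ZMod P)
    (hψ : Function.Surjective ψ) (E : Finset (I → ℤ)) (hE : ∀ e, e ∈ E ↔ InC a s M e0 e)
    (hs : 8 * Fintype.card I * (M * P : ℝ) ≤ s) :
    (#(fam a s M e0 ψ.ker) : ℝ) * P ≤ 2 * #E := by
  have hr : (0 : ℝ) < Fintype.card I := by exact_mod_cast Fintype.card_pos
  have h := SM.count_one (redM I M) hM redM_exp hP hc.symm hψ a (s := fun _ => s)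
    (η := 1 / (8 * Fintype.card I)) (fun _ => by
      rw [one_div, ← div_eq_inv_mul, le_div_iff₀ (by positivity)]; linarith) (by positivity)
    (by rw [mul_one_div, div_le_iff₀ (by positivity)]; linarith) e0
  have e1 : ({v ∈ BOX.box a fun _ => s | redM I M v = redM I M e0} : Finset _) = E := by
    ext v
    rw [mem_filter, BOX.mem_box, redM_eq, hE, InC]
  rw [e1] at h
  have e2 : ({v ∈ E | ψ v = 0} : Finset _) = fam a s M e0 ψ.ker := by
    ext v
    rw [mem_fam, mem_filter, hE, AddMonoidHom.mem_ker]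
  rw [e2] at h
  have e3 : 8 * (Fintype.card I : ℝ) * (1 / (8 * Fintype.card I)) = 1 := by field_simp
  rw [e3] at h
  linarith [(abs_le.1 h).2]

theorem prod_mon (hM : St_MODP) [IsDomain B] {a a' c : ℕ} (h : Γ.dmax ≤ a') (e : c = a + a')
    (k : Γ.Ix c) : ∃ (i : Γ.Ix a) (j : Γ.Ix a'), Γ.mon i * Γ.mon j = Γ.mon k := by
  subst e
  exact (hM B d Γ).2.2.2.2.1 a a' h k

end Pool.Agent.Lib.BK2.ZVAR

namespace Pool.Agent.Lib.BK2

open ZVAR

theorem stZVAR (hV : St_VAR) (hM : St_MODP) : St_ZVAR := by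
  classical
  intro B _ _ _ d _ Γ m m' hd h1 h2 δ hδ
  have hmm : m' = m + (m' - m) := by omega
  obtain ⟨K, hK, hV⟩ := hV (Γ.Ix m) (Γ.Ix m') (Γ.Ix (m' - m)) (mulL Γ m (m' - m) m') (fun k => by
    obtain ⟨i, j, h⟩ := prod_mon Γ hM (a := m) (a' := m' - m) (by omega) hmm k
    exact ⟨i, j, by rw [mulL_apply, mulv_single, h, co_mon]⟩) δ hδ
  have : Nonempty (Γ.Ix m) := ⟨ix0 Γ m⟩
  have hr : (1 : ℝ) ≤ Fintype.card (Γ.Ix m) := by exact_mod_cast Fintype.card_pos
  refine ⟨8 * Fintype.card (Γ.Ix m) * K, by nlinarith, ?_⟩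
  intro Y M0 M L H sE s sp e0 aE a w0 E W Wp X R hY hM0 hM' hL hH hR hq hX hco hP hE hW hWp haE hδE
    hsE hs1 hs2 hs3 hsp f hf hf0 G F hG hF hinv
  obtain ⟨x, hx⟩ := exists_multi X hX
  have hPc : ((∏ y ∈ X, y.p : ℕ) : ℝ) = ∏ y ∈ X, (y.p : ℝ) := by push_cast; rfl
  generalize hPP : ∏ y ∈ X, y.p = P at x hx hPc
  have hP0 : 0 < P := hPP ▸ prod_pos fun y _ => y.1.2.pos
  have hcP : Nat.Coprime P (M * L) := hPP ▸ Nat.Coprime.prod_left fun y hy => hco y hy
  rw [← hPc] at hP ⊢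
  have hP0' : (0 : ℝ) < P := by exact_mod_cast hP0
  have hY' : (2 : ℝ) ≤ Y := by exact_mod_cast hY
  have hM0' : (1 : ℝ) ≤ M0 := by exact_mod_cast hM0
  have hMr : (0 : ℝ) < M := by exact_mod_cast hM'
  have hLr : (0 : ℝ) < L := by exact_mod_cast hL
  have hHr : (0 : ℝ) < H := by exact_mod_cast hH
  have hKK : K ≤ 8 * Fintype.card (Γ.Ix m) * K := by nlinarith
  have hK8 : 8 * (Fintype.card (Γ.Ix m) : ℝ) ≤ 8 * Fintype.card (Γ.Ix m) * K := by nlinarith
  have hK0 : (0 : ℝ) ≤ 8 * Fintype.card (Γ.Ix m) * K := by positivity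
  have hK2 : 2 * K ≤ 8 * Fintype.card (Γ.Ix m) * K := by nlinarith
  have hR0 : (0 : ℝ) ≤ R := by linarith
  generalize hK' : 8 * (Fintype.card (Γ.Ix m) : ℝ) * K = K' at hK0 hK2 hKK hK8 hsE hs1 hs2 hs3 ⊢
  have hexp : ∀ (c : ℕ) (v : Γ.Ix c → ℤ), (P : ℤ) • v ∈ (evH Γ c x).ker := fun c v => by
    rw [AddMonoidHom.mem_ker, map_zsmul, natCast_zsmul]; exact SM.zmod_exp _ v
  have hM0L : M0 ∣ L := by simpa using hq 1 le_rfl (by omega)
  have hPM : (M0 * P : ℝ) ≤ R * M0 * Y := by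
    have : (P : ℝ) * M0 ≤ R * M0 := by gcongr
    nlinarith [mul_nonneg (le_trans zero_le_one hR) (le_trans zero_le_one hM0')]
  have hcard := card_fam_le aE e0 sE M0 P hM0 hP0
    (Nat.Coprime.coprime_dvd_right (hM0L.trans (dvd_mul_left L M)) hcP) (evH Γ m x)
    (evH_surj Γ m P x) E hE (by
      calc 8 * (Fintype.card (Γ.Ix m) : ℝ) * (M0 * P) ≤ K' * (R * M0 * Y) := by gcongr
        _ = K' * R * M0 * Y := by ring
        _ ≤ sE := hsE)
  have hmain := hV Y M0 M L P H sE s sp e0 aE a (evH Γ m x).ker (evH Γ m' x).ker hY hM0 hM' hL hP0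
    hH hq hcP (hexp m) (hexp m') (fun v hv => by
      obtain ⟨U, hU, hU'⟩ := (hM B d Γ).2.2.2.2.2 m (m' - m) m' hd h1 (by omega) hmm P x hP0
      have h := hU' v hv
      rw [← Submodule.mem_toAddSubgroup, Submodule.span_int_eq_addSubgroupClosure] at h
      refine AddSubgroup.closure_mono ?_ h
      rintro z (⟨u, hu, j, rfl⟩ | ⟨k, rfl⟩)
      · exact Or.inl ⟨u, (hU u hu).1, _, rfl⟩
      · refine Or.inr ⟨Pi.single k 1, ?_⟩
        rw [← Pi.single_smul, smul_eq_mul, mul_one])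
    (fun e he i => by
      have h := mem_cube.1 he i
      have h' := haE i
      rw [abs_le]
      constructor <;> linarith [le_abs_self (aE i), neg_abs_le (aE i)]) hδE
    (by
      have : (4 * P * M0 * Y : ℝ) ≤ sE := by
        calc (4 * P * M0 * Y : ℝ) ≤ K' * R * M0 * Y := by gcongr; linarith
          _ ≤ sE := hsE
      exact_mod_cast this)
    (le_trans (by gcongr) hs1) (le_trans (by gcongr) hs2) (le_trans (by gcongr) hs3)
    (by
      have : (P * (M * L) : ℝ) ≤ sp := le_trans (by gcongr) hsp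
      exact_mod_cast this)
    W (fun w => if w ∈ W then f w else 0) (fun w hw => by
      by_cases h : w ∈ W
      · rw [if_pos h] at hw
        exact ⟨h, (hx _).2 (hf w h hw)⟩
      · exact absurd (if_neg h) hw)
    (fun c => (sum_congr rfl fun w hw => if_pos (mem_filter.1 hw).1).trans (hf0 c))
    (fun e w => if e ∈ G then F e w else 0) (fun _ => Wp) (fun e _ w hw t ht => by
      have hwW : w ∈ W := by
        by_contra h
        exact hw (if_neg h)
      have hw' := (hW w).1 hwW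
      have hmem : w + (M : ℤ) • mulL Γ m (m' - m) m' e t ∈ Wp := by
        refine (hWp _).2 ⟨fun i => ?_, fun i => ?_⟩
        · have h3 := abs_le.1 (ht i)
          have h4 := hw'.1 i
          simp only [Pi.add_apply, Pi.smul_apply, smul_eq_mul]
          push_cast
          constructor <;> linarith [h3.1, h3.2]
        · have h4 := hw'.2 i
          simp only [Pi.add_apply, Pi.smul_apply, smul_eq_mul]
          rw [add_sub_right_comm]
          exact h4.add (dvd_mul_right _ _)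
      refine ⟨hmem, ?_⟩
      by_cases he : e ∈ G
      · rw [if_pos he, if_pos he]
        rw [← map_smul, mulL_apply] at hmem ⊢
        exact hinv e he w hwW _ hmem
      · rw [if_neg he, if_neg he])
  have e1 : ∑ e ∈ fam aE sE M0 e0 (evH Γ m x).ker, ∑ w ∈ W,
      (if w ∈ W then f w else 0) * (if e ∈ G then F e w else 0) =
      ∑ e ∈ G, ∑ w ∈ W, f w * F e w := by
    have : ∀ e, ∑ w ∈ W, (if w ∈ W then f w else 0) * (if e ∈ G then F e w else 0) =
        if e ∈ G then ∑ w ∈ W, f w * F e w else 0 := fun e => by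
      by_cases he : e ∈ G
      · rw [if_pos he]
        exact sum_congr rfl fun w hw => by rw [if_pos hw, if_pos he]
      · simp [he]
    rw [sum_congr rfl fun e _ => this e, ← sum_filter, filter_mem_eq_inter]
    refine sum_subset inter_subset_right fun e he hn => sum_eq_zero fun w hw => ?_
    by_contra hne
    refine hn (mem_inter.2 ⟨?_, he⟩)
    exact mem_fam.2 ⟨(hE e).1 (hG he), (hx _).2 (hF e he w hw (right_ne_zero_of_mul hne))⟩
  have e2 : ∑ w ∈ W, (if w ∈ W then f w else 0) ^ 2 = ∑ w ∈ W, f w ^ 2 :=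
    sum_congr rfl fun w hw => by rw [if_pos hw]
  have e3 : ∑ e ∈ fam aE sE M0 e0 (evH Γ m x).ker, ∑ w ∈ Wp, (if e ∈ G then F e w else 0) ^ 2 ≤
      ∑ e ∈ G, ∑ w ∈ Wp, F e w ^ 2 := by
    have : ∀ e, ∑ w ∈ Wp, (if e ∈ G then F e w else 0) ^ 2 =
        if e ∈ G then ∑ w ∈ Wp, F e w ^ 2 else 0 := fun e => by
      by_cases he : e ∈ G <;> simp [he]
    rw [sum_congr rfl fun e _ => this e, ← sum_filter, filter_mem_eq_inter]
    exact sum_le_sum_of_subset_of_nonneg inter_subset_right fun e _ _ =>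
      sum_nonneg fun w _ => sq_nonneg _
  rw [e1, e2] at hmain
  refine hmain.trans ?_
  have hEP : 0 ≤ #E / (P : ℝ) := div_nonneg (Nat.cast_nonneg _) hP0'.le
  have h6 : K / Y * #(fam aE sE M0 e0 (evH Γ m x).ker) ≤ K' / Y * (#E / (P : ℝ)) := by
    have h7 : (#(fam aE sE M0 e0 (evH Γ m x).ker) : ℝ) ≤ 2 * (#E / (P : ℝ)) := by
      rw [← mul_div_assoc, le_div_iff₀ hP0']; exact hcard
    calc K / Y * #(fam aE sE M0 e0 (evH Γ m x).ker) ≤ K / Y * (2 * (#E / (P : ℝ))) := by gcongr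
      _ = (2 * K) / Y * (#E / (P : ℝ)) := by ring
      _ ≤ K' / Y * (#E / (P : ℝ)) :=
        mul_le_mul_of_nonneg_right (div_le_div_of_nonneg_right hK2 (Nat.cast_nonneg _)) hEP
  have h8 : 0 ≤ ∑ w ∈ W, f w ^ 2 := sum_nonneg fun w _ => sq_nonneg _
  have h9 : 0 ≤ K' / Y * (#E / (P : ℝ)) := mul_nonneg (div_nonneg hK0 (Nat.cast_nonneg _)) hEP
  exact mul_le_mul (mul_le_mul_of_nonneg_right h6 h8) e3
    (sum_nonneg fun e _ => sum_nonneg fun w _ => sq_nonneg _) (mul_nonneg h9 h8)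

end Pool.Agent.Lib.BK2
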