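import Pool.Agent.Lib.BK2.ZFStmt

/-! ZWIN: counts and second moments in the normalisation of the window. -/

open Polynomial Finset
open scoped Classical

noncomputable section

namespace Pool.Agent.Lib.BK2

namespace ZWIN

variable {B : Type} [CommRing B]

theorem p_pos (x : Pt B) : (0 : ℝ) < x.p := by exact_mod_cast x.1.2.pos

theorem card_over {d : ℕ}
    (h : ∀ p : ℕ, p.Prime → Finite (B →+* ZMod p) ∧ Nat.card (B →+* ZMod p) ≤ d * p)
    (Xs : Finset (Pt B)) {q : ℕ} (hq : q.Prime) : #{x ∈ Xs | x.p = q} ≤ d * q := by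
  obtain ⟨hf, hc⟩ := h q hq
  let _ := Fintype.ofFinite (B →+* ZMod q)
  have e : ({x ∈ Xs | x.p = q} : Finset _) ⊆
      univ.image fun f : B →+* ZMod q => (⟨⟨q, hq⟩, f⟩ : Pt B) := by
    rintro ⟨p, f⟩ hx
    obtain rfl : p = ⟨q, hq⟩ := Subtype.ext (mem_filter.1 hx).2
    exact mem_image.2 ⟨f, mem_univ _, rfl⟩
  refine (card_le_card e).trans (card_image_le.trans ?_)
  rwa [card_univ, ← Nat.card_eq_fintype_card]

theorem sum_pw {Xs : Finset (Pt B)} (h : 0 < mbar Xs) : ∑ x ∈ Xs, pmu Xs x / x.p = 1 := by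
  have e : ∀ x : Pt B, pmu Xs x / x.p = 1 / (x.p : ℝ) ^ 2 / mbar Xs := fun x => by
    have := p_pos x
    rw [pmu]
    field_simp
  simp only [e]
  rw [← sum_div]
  exact div_self h.ne'

theorem pmu_pos {Xs : Finset (Pt B)} (h : 0 < mbar Xs) (x : Pt B) : 0 < pmu Xs x :=
  one_div_pos.2 (mul_pos h (p_pos x))

/-- the bound of the second moment in terms of the global law -/
theorem bound {Xs : Finset (Pt B)} (h : 0 < mbar Xs) {del : ℝ} (hd : 0 ≤ del)
    (hμ : ∀ x ∈ Xs, pmu Xs x ≤ del / 4) (g : Pt B → ℝ) :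
    2 * ∑ x ∈ Xs, (g x * pmu Xs x) ^ 2 / x.p + del / 2 * (∑ x ∈ Xs, |g x * pmu Xs x| / x.p) ^ 2 ≤
      del * ∑ x ∈ Xs, g x ^ 2 * (pmu Xs x / x.p) := by
  have hw : ∀ x : Pt B, 0 < pmu Xs x / x.p := fun x => div_pos (pmu_pos h x) (p_pos x)
  have h1 : ∑ x ∈ Xs, (g x * pmu Xs x) ^ 2 / x.p ≤
      del / 4 * ∑ x ∈ Xs, g x ^ 2 * (pmu Xs x / x.p) := by
    rw [mul_sum]
    refine sum_le_sum fun x hx => ?_
    rw [show (g x * pmu Xs x) ^ 2 / x.p = pmu Xs x * (g x ^ 2 * (pmu Xs x / x.p)) by ring]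
    exact mul_le_mul_of_nonneg_right (hμ x hx) (mul_nonneg (sq_nonneg _) (hw x).le)
  have h2 : (∑ x ∈ Xs, |g x * pmu Xs x| / x.p) ^ 2 ≤ ∑ x ∈ Xs, g x ^ 2 * (pmu Xs x / x.p) := by
    have := sum_sq_le_sum_mul_sum_of_sq_le_mul Xs (r := fun x => |g x * pmu Xs x| / x.p)
      (f := fun x => pmu Xs x / x.p) (g := fun x => g x ^ 2 * (pmu Xs x / x.p))
      (fun x _ => (hw x).le) (fun x _ => mul_nonneg (sq_nonneg _) (hw x).le)
      fun x _ => le_of_eq (by rw [div_pow, sq_abs]; ring)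
    rwa [sum_pw h, one_mul] at this
  have := mul_le_mul_of_nonneg_left h2 (by linarith : 0 ≤ del / 2)
  linarith

variable [Algebra ℤ[X] B] {d : ℕ} [NeZero d] (Γ : Geo B d) {m : ℕ}

theorem dev (Xs : Finset (Pt B)) (g : Pt B → ℝ) (w : Γ.Ix m → ℤ) :
    ∑ x ∈ onS Γ Xs w, g x * pmu Xs x - ∑ x ∈ Xs, g x * (pmu Xs x / x.p) =
      ∑ x ∈ Xs, g x * pmu Xs x * ((if x.On (Γ.el w) then 1 else 0) - 1 / (x.p : ℝ)) := by
  rw [onS, sum_filter, ← sum_sub_distrib]
  refine sum_congr rfl fun x _ => ?_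
  split_ifs <;> ring

theorem mem_onS {Xs : Finset (Pt B)} {x : Pt B} (hx : x ∈ Xs) (w : Γ.Ix m → ℤ) :
    x ∈ onS Γ Xs w ↔ x.On (Γ.el w) := by
  rw [onS, mem_filter, and_iff_right hx]

end ZWIN

open ZWIN in
theorem stZWIN (hC : St_ZCNT) (hM : St_MODP) : St_ZWIN := by
  intro B _ _ _ d _ Γ m hm H Xs hW hb a w0 s M S del hS hM0 hc hd hd1 hT hs
  have hd0 : (1 : ℝ) ≤ d := by exact_mod_cast NeZero.one_le
  have hT0 : 0 ≤ winT H := Real.rpow_nonneg (Nat.cast_nonneg _) _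
  have hT8 : 8 ≤ winT H := by nlinarith
  have hb0 : 0 < mbar Xs := by linarith
  have hr : (1 : ℝ) ≤ Fintype.card (Γ.Ix m) := by
    have : Nonempty (Γ.Ix m) := ⟨⟨0, ⟨0, by rw [Γ.δ0]; omega⟩⟩⟩
    exact_mod_cast Fintype.card_pos
  have e0 : Fintype.card (Γ.Ix m) * (del / (2 * Fintype.card (Γ.Ix m))) = del / 2 := by
    field_simp
  obtain ⟨h1, h2, h3, h4, h5⟩ := hC B d Γ m (by omega) (by omega) a w0 s M S
    (del / (2 * Fintype.card (Γ.Ix m))) (winT H ^ 2) Xs hS hM0 (by positivity)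
    (by rw [e0]; linarith) (by nlinarith) (fun x hx => ⟨hc x hx, ((hW x).1 hx).2⟩) (by
      rw [div_mul_eq_mul_div, le_div_iff₀ (by positivity)]
      calc _ = 64 * Fintype.card (Γ.Ix m) * M * winT H ^ 6 := by ring
        _ ≤ _ := hs)
  rw [e0] at h2 h3 h4 h5
  have hinv : ∀ x ∈ Xs, 1 / (x.p : ℝ) ≤ del / (8 * d) := fun x hx => by
    rw [div_le_div_iff₀ (p_pos x) (by positivity)]
    nlinarith [((hW x).1 hx).1]
  have hμ : ∀ x ∈ Xs, pmu Xs x ≤ 2 * (1 / x.p) := fun x _ => by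
    have := p_pos x
    rw [pmu, mul_one_div, div_le_div_iff₀ (by positivity) this]
    nlinarith
  have hμ' : ∀ x ∈ Xs, pmu Xs x ≤ del / 4 := fun x hx => by
    have h6 : del / (8 * d) ≤ del / 8 := div_le_div_of_nonneg_left hd.le (by norm_num) (by linarith)
    linarith [hμ x hx, hinv x hx]
  have hN : (0 : ℝ) ≤ #S := Nat.cast_nonneg _
  have hh : del / 2 * #S ≤ del * #S := mul_le_mul_of_nonneg_right (by linarith) hN
  have ef : ∀ x ∈ Xs, ({w ∈ S | x ∈ onS Γ Xs w} : Finset _) = {w ∈ S | x.On (Γ.el w)} :=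
    fun x hx => filter_congr fun w _ => mem_onS Γ hx w
  refine ⟨h1, fun q => ?_, fun x hx => ?_, fun x hx y hy hne => ?_, fun g => ?_,
    fun y hy g hg => ?_⟩
  · rcases ({x ∈ Xs | x.p = q} : Finset _).eq_empty_or_nonempty with h | ⟨y, hy⟩
    · rw [h, sum_empty]
      exact hd.le
    · obtain ⟨hy, rfl⟩ := mem_filter.1 hy
      have h6 : (#{x ∈ Xs | x.p = y.p} : ℝ) ≤ d * y.p := by
        exact_mod_cast card_over (hM B d Γ).1 Xs y.1.2
      have h7 := sum_le_card_nsmul {x ∈ Xs | x.p = y.p} (fun x => pmu Xs x / x.p)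
        (2 * (del / (8 * d)) / y.p) fun x hx => by
          obtain ⟨hx, e⟩ := mem_filter.1 hx
          rw [← e]
          exact div_le_div_of_nonneg_right (by linarith [hμ x hx, hinv x hx]) (p_pos x).le
      have := p_pos y
      rw [nsmul_eq_mul] at h7
      refine h7.trans ((mul_le_mul_of_nonneg_right h6 (by positivity)).trans ?_)
      rw [show d * y.p * (2 * (del / (8 * d)) / y.p) = del / 4 by field_simp; ring]
      linarith
  · rw [ef x hx, mul_comm]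
    exact (h2 x hx).trans hh
  · rw [filter_congr fun w _ => and_congr (mem_onS Γ hx w) (mem_onS Γ hy w), mul_comm]
    exact (h3 x hx y hy hne).trans hh
  · simp only [dev]
    refine (h4 fun x => g x * pmu Xs x).trans ?_
    rw [mul_comm del, mul_assoc]
    exact mul_le_mul_of_nonneg_left (bound hb0 hd.le hμ' g) hN
  · simp only [dev]
    rw [ef y hy]
    have h6 := (h5 y hy (fun x => g x * pmu Xs x) fun x e => by rw [hg x e, zero_mul]).trans
      (mul_le_mul_of_nonneg_left (bound hb0 hd.le hμ' g) (Nat.cast_nonneg _))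
    have h7 : (#{w ∈ S | y.On (Γ.el w)} : ℝ) * y.p ≤ 2 * #S := by
      have := (abs_le.1 (h2 y hy)).2
      nlinarith
    have h8 : 0 ≤ del * ∑ x ∈ Xs, g x ^ 2 * (pmu Xs x / x.p) := mul_nonneg hd.le
      (sum_nonneg fun x _ => mul_nonneg (sq_nonneg _) (div_pos (pmu_pos hb0 x) (p_pos x)).le)
    refine (mul_le_mul_of_nonneg_left h6 (p_pos y).le).trans ?_
    have := mul_le_mul_of_nonneg_right h7 h8
    linarith

end Pool.Agent.Lib.BK2
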