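import Pool.Agent.Lib.BK2.NFFin
import Pool.Agent.Lib.BK2.R
import Pool.Agent.Lib.BK2.KAll
import Pool.Agent.Lib.BK2.APst
import Pool.Agent.Lib.BK2.SAll
import Pool.Agent.Lib.BK2.ZF
import Pool.Agent.Lib.BK2.ZG31
import Pool.Agent.Lib.BK2.ZGLaw
import Pool.Agent.Lib.BK2.ZGMaj
import Pool.Agent.Lib.BK2.ZGZone
import Pool.Agent.Lib.BK2.ZPAR
import Pool.Agent.Lib.BK2.ZGRID
import Pool.Agent.Lib.BK2.ZWIN
import Pool.Agent.Lib.BK2.ZCNT
import Pool.Agent.Lib.BK2.ZCELL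
import Pool.Agent.Lib.BK2.ZDEN
import Pool.Agent.Lib.BK2.ZOSC
import Pool.Agent.Lib.BK2.ZVAR
import Pool.Agent.Lib.BK2.AFin
import Pool.Agent.Lib.BK2.MOD
import Pool.Agent.Lib.BK2.MODP
import Pool.Agent.Lib.BK2.NRM

/-! BK2: everything except the blocks `G` and `ZE`. -/

noncomputable section

namespace Pool.Agent.Lib.BK2.All

theorem modp : St_MODP := stMODP stNRM

theorem par : St_ZPAR := stZPAR stZDEN

theorem win : St_ZWIN := stZWIN (stZCNT modp) modp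

theorem secZF : St_ZF :=
  stZF par (stZGRID stZCELL stZDEN) win (stZVAR stVAR0 modp) stZOSC (stZMAJ modp) stMOD stPROD_all

theorem secZG : St_ZG := Z31.stZG win (stZCNT modp) (stZLAW modp) stNRM modp

theorem fin (hG : St_G0) (hZE : St_ZE) (L : Type) [Field L] [Algebra ℚ L] (n : ℕ)
    (y : Fin (n + 1) → L) (h1 : Algebra.trdeg ℚ L = 1)
    (h2 : IntermediateField.adjoin ℚ
      (Set.range fun q : Fin (n + 1) × Fin (n + 1) => y q.1 / y q.2) = ⊤)
    (ω) (hω : RegForm y ω) (ι : Type) [Fintype ι] (γ : ι → Loop y) :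
    (fun l => (period ω (γ l)).im) ∈ Submodule.span ℝ
      {r : ι → ℝ | ∃ s : List (Lˣ × Lˣ), Integral s ∧ (∀ l, Avoids s (γ l)) ∧
        r = fun l => reg s (γ l)} :=
  nf_of_blocks hG hZE secZG (stZLAW modp) stZONE par secZF stS L n y h1 h2 ω hω ι γ

end Pool.Agent.Lib.BK2.All
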