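import Pool.Agent.Lib.BK2.ZFDefs

/-! BK2 block ZF: the cells of a grid on a class of a cube. -/

open Finset

namespace Pool.Agent.Lib.BK2

namespace ZCELL

theorem card1 (c v : ℤ) (k M : ℕ) (hM : 0 < M) :
    #{x ∈ Ico c (c + (k * M : ℕ)) | x ≡ v [ZMOD M]} = k := by
  have h := Int.Ico_filter_modEq_card c (c + (k * M : ℕ)) (r := M) (by exact_mod_cast hM) v
  have hM' : ((M : ℤ) : ℚ) ≠ 0 := by exact_mod_cast hM.ne'
  have e : (((c + (k * M : ℕ) : ℤ) : ℚ) - v) / ((M : ℤ) : ℚ) =
      ((c : ℚ) - v) / ((M : ℤ) : ℚ) + (k : ℕ) := by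
    field_simp
    push_cast
    ring
  rw [e, Int.ceil_add_natCast, add_sub_cancel_left, max_eq_left (Int.natCast_nonneg k)] at h
  exact_mod_cast h

theorem cardC {I : Type} [Fintype I] (c w : I → ℤ) (s M : ℕ) (hM : 0 < M) (hs : M ∣ s)
    (T : Finset (I → ℤ)) (hT : ∀ v, v ∈ T ↔ InC c s M w v) : #T = (s / M) ^ Fintype.card I := by
  classical
  obtain ⟨k, rfl⟩ := hs
  have e : T = Fintype.piFinset fun i => {x ∈ Ico (c i) (c i + (k * M : ℕ)) | x ≡ w i [ZMOD M]} := by
    ext v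
    simp only [hT, InC, Fintype.mem_piFinset, mem_filter, mem_Ico, mul_comm M k,
      Int.modEq_iff_dvd, dvd_sub_comm (b := w _)]
    exact forall_and.symm
  rw [e, Fintype.card_piFinset, Nat.mul_div_cancel_left _ hM]
  simp only [card1 _ _ _ _ hM, prod_const, card_univ]

theorem div_iff (x t s : ℤ) (hs : 0 < s) : x / s = t ↔ t * s ≤ x ∧ x < t * s + s := by
  rw [le_antisymm_iff, and_comm, ← Int.lt_add_one_iff (a := x / s), Int.le_ediv_iff_mul_le hs,
    Int.ediv_lt_iff_lt_mul hs, add_one_mul]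

end ZCELL

open ZCELL in
theorem stZCELL : St_ZCELL := by
  intro I _ a b w0 sp n M Q S hsp hM hMQ hQ hb hS
  have hs : (0 : ℤ) < sp := by exact_mod_cast hsp
  refine ⟨cardC b w0 _ M hM ((hMQ.trans hQ).mul_left n) S hS, fun w hw => ?_⟩
  have key : ∀ v, (v ∈ S ∧ lev a sp Q v = lev a sp Q w) ↔
      InC (fun i => a i + (w i - a i) / sp * sp) sp Q w v := by
    intro v
    obtain ⟨hw1, hw2⟩ := (hS w).1 hw
    constructor
    · rintro ⟨-, h⟩
      refine ⟨fun i => ?_, fun i => ?_⟩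
      · have := (div_iff _ _ _ hs).1 (congrArg Prod.fst (congrFun h i))
        simp only [lev] at this ⊢
        constructor <;> linarith [this.1, this.2]
      · exact Int.ModEq.dvd (congrArg Prod.snd (congrFun h i)).symm
    · rintro ⟨h1, h2⟩
      refine ⟨(hS v).2 ⟨fun i => ?_, fun i => ?_⟩, funext fun i => Prod.ext ?_ ?_⟩
      · obtain ⟨β, hβ⟩ := hb i
        have h3 := hw1 i
        have h4 := h1 i
        push_cast at h3 h4 ⊢
        have h5 : β ≤ (w i - a i) / sp := (Int.le_ediv_iff_mul_le hs).2 (by linarith [h3.1])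
        have h6 : (w i - a i) / sp + 1 ≤ β + n :=
          (Int.ediv_lt_iff_lt_mul hs).2 (by linarith [h3.2])
        have h7 := mul_le_mul_of_nonneg_right h5 hs.le
        have h8 := mul_le_mul_of_nonneg_right h6 hs.le
        constructor <;> linarith [h4.1, h4.2]
      · have := ((Int.natCast_dvd_natCast.2 hMQ).trans (h2 i)).add (hw2 i)
        rwa [sub_add_sub_cancel] at this
      · have h4 := h1 i
        simp only [lev] at h4 ⊢
        exact (div_iff _ _ _ hs).2 ⟨by linarith [h4.1], by linarith [h4.2]⟩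
      · exact (Int.modEq_iff_dvd.2 (h2 i)).symm
  exact ⟨key, cardC _ w sp Q (Nat.pos_of_dvd_of_pos hQ hsp) hQ _ fun v => by
    rw [mem_filter, key]⟩

end Pool.Agent.Lib.BK2
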