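import Pool.Agent.Lib.BK2.Defs
import Pool.Agent.Lib.BK2.LDefs

open Polynomial Finset

noncomputable section

namespace Pool.Agent.Lib.BK2

variable {B : Type} [CommRing B]

/-- the size `T = H ^ (1 / 20)` of the window primes -/
def winT (H : ℕ) : ℝ := (H : ℝ) ^ (1 / 20 : ℝ)

/-- `Xs` is the set of all points over the primes of the window `[T, T ^ 2]` -/
def IsWin (H : ℕ) (Xs : Finset (Pt B)) : Prop :=
  ∀ x, x ∈ Xs ↔ winT H ≤ x.p ∧ (x.p : ℝ) ≤ winT H ^ 2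

/-- the logarithmic size of a point -/
def pa (H : ℕ) (x : Pt B) : ℝ := Real.log x.p / Real.log (winT H)

/-- total mass of the window -/
def mbar (Xs : Finset (Pt B)) : ℝ := ∑ x ∈ Xs, 1 / (x.p : ℝ) ^ 2

/-- the weight of a point on a curve -/
def pmu (Xs : Finset (Pt B)) (x : Pt B) : ℝ := 1 / (mbar Xs * x.p)

/-- the global law on the window -/
def pwb (Xs : Finset (Pt B)) (x : Pt B) : ℝ := 1 / (mbar Xs * (x.p : ℝ) ^ 2)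

/-- the centre `s₀` of the sum of `k` sizes -/
def cen (H : ℕ) (Xs : Finset (Pt B)) (k : ℕ) : ℝ := k * ∑ x ∈ Xs, pwb Xs x * pa H x

/-- the density factor of a set of marked points -/
def dfac (H : ℕ) (Xs : Finset (Pt B)) (P k : ℕ) (X : Finset (Pt B)) : ℝ :=
  Dm Xs (pwb Xs) (pa H) P (k - X.card) (cen H Xs k - ∑ x ∈ X, pa H x) /
    Dm Xs (pwb Xs) (pa H) P k (cen H Xs k)

open Classical in
/-- integer vectors in a cube with corner `a` and side `s`, congruent to `cl` modulo `Q` -/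
def zcell {I : Type} [Fintype I] (a : I → ℤ) (s Q : ℕ) (cl : I → ℤ) : Finset (I → ℤ) :=
  (Fintype.piFinset fun i => Finset.Ico (a i) (a i + s)).filter fun w => ∀ i, (Q : ℤ) ∣ w i - cl i

variable [Algebra ℤ[X] B] {d : ℕ} [NeZero d]

open Classical in
/-- the curves `e` for which the local limit theorem is available -/
structure GoodE (Γ : Geo B d) {m : ℕ} (H : ℕ) (Xs : Finset (Pt B)) (η KG : ℝ) (Y P : ℕ)
    (e : Γ.Ix m → ℤ) : Prop where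
  irr : Irreducible ((Γ.nrm (Γ.el e)).map (Int.castRingHom ℚ))
  deg : (Γ.nrm (Γ.el e)).natDegree = m * d
  prim : (Γ.nrm (Γ.el e)).IsPrimitive
  cf : ∀ t ∈ frq P, ‖chf (Xs.filter fun x => x.On (Γ.el e)) (pmu Xs) (pa H) (t / P) -
    chf Xs (pwb Xs) (pa H) (t / P)‖ ≤ η
  mom : ∀ i : ℕ, i ≤ 2 → |∑ x ∈ Xs.filter (fun x => x.On (Γ.el e)), pmu Xs x * pa H x ^ i -
    ∑ x ∈ Xs, pwb Xs x * pa H x ^ i| ≤ η
  low : ∀ S : Finset (Pt B), (∀ x ∈ S, x.On (Γ.el e) ∧ Y < x.p ∧ (x.p : ℝ) < winT H) →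
    ∑ x ∈ S, 1 / (x.p : ℝ) ≤
      Real.log (Real.log (winT H)) - Real.log (Real.log Y) + KG

open Classical in
/-- the model of split sections along one curve `e`: `R` is the region of the `w`, `w0` their
class modulo `M`, cells have modulus `Q` and side at least `smin`. -/
structure EPack (Γ : Geo B d) {m m' : ℕ} (H : ℕ) (Xs : Finset (Pt B)) (P k : ℕ) (H' : ℝ)
    (R : Set (Γ.Ix m' → ℝ)) (M Q : ℕ) (w0 : Γ.Ix m' → ℤ) (smin ε : ℝ) (e : Γ.Ix m → ℤ)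
    (Maj : Finset (Pt B)) (κ : ℝ) (sp : (Γ.Ix m' → ℤ) → Prop)
    (Z : (Γ.Ix m' → ℤ) → Finset (Pt B)) : Prop where
  inv : ∀ (w : Γ.Ix m' → ℤ) (s : Γ.Ix (m' - m) → ℤ),
    (sp (w + Γ.mulv m' e s) ↔ sp w) ∧ Z (w + Γ.mulv m' e s) = Z w
  sub : ∀ w, sp w → Z w ⊆ Maj ∧ (Z w).card = k ∧ Set.InjOn Pt.p (Z w : Set (Pt B)) ∧
    ∀ x ∈ Z w, x.On (Γ.el w)
  split : ∀ w, sp w → (∀ i, (M : ℤ) ∣ w i - w0 i) → scl H' w ∈ R →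
    Γ.Split m m' (Γ.el e) (Γ.el w) (Z w)
  emod : ∀ (a : Γ.Ix m' → ℤ) (s : ℕ) (cl : Γ.Ix m' → ℤ), (∀ i, (M : ℤ) ∣ cl i - w0 i) →
    smin ≤ s → (∀ w ∈ zcell a s Q cl, scl H' w ∈ R) →
    ∀ X ⊆ Maj, Set.InjOn Pt.p (X : Set (Pt B)) → X.card ≤ 2 →
      |(((zcell a s Q cl).filter fun w => sp w ∧ X ⊆ Z w).card : ℝ) /
          (κ * (zcell a s Q cl).card) -
        k.descFactorial X.card * dfac H Xs P k X * ∏ x ∈ X, pmu Xs x| ≤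
      ε * (k : ℝ) ^ X.card * ∏ x ∈ X, pmu Xs x

open Classical in
/-- The package for one curve `e`. -/
def St_ZE : Prop :=
  ∀ (B : Type) [CommRing B] [IsDomain B] [Algebra ℤ[X] B] (d : ℕ) [NeZero d] (Γ : Geo B d)
    (m ν : ℕ) (U : Set (Γ.Ix m → ℝ)) (ρ : Γ.Roots m ν U) (o : Γ.Ix m → ℝ) (s : ℝ),
    Γ.dmax + 2 ≤ m → rcube o s ⊆ U → ∀ c0 KG : ℝ, 0 < c0 →
  ∃ (C1 P0 : ℕ) (K : ℝ), 2 ≤ C1 ∧ 0 < K ∧
  ∀ (m1 m' ν' : ℕ) (U' : Set (Γ.Ix m' → ℝ)) (_ : Γ.Roots m' ν' U') (o' : Γ.Ix m' → ℝ) (s' : ℝ),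
    m * d + Γ.dmax + 1 ≤ m1 → m' = C1.factorial * m1 → rcube o' s' ⊆ U' →
    (∀ e ∈ rcube o s, ∀ w ∈ U', ∀ j, Γ.ev (ρ.φ e j) w ≠ 0) →
  ∃ (k0 : ℕ) (β0 ck : ℕ → ℝ), (∀ k, 0 < β0 k) ∧ (∀ k, 0 < ck k) ∧
  ∀ (P A : ℕ) (η cY : ℝ), P0 ≤ P → 0 < η → 0 < cY →
  ∃ H0 : ℕ, ∀ H ≥ H0, ∀ (Y L : ℕ), cY * Real.log H ≤ Y → L ≤ H → 0 < L →
    (∀ q : ℕ, q.Prime → (q ∣ L ↔ q ≤ Y)) →
    ∀ Xs : Finset (Pt B), IsWin H Xs → c0 ≤ mbar Xs → Law Xs (pwb Xs) (pa H) c0 →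
  ∃ w0 : Γ.Ix m' → ℤ, ∀ e : Γ.Ix m → ℤ, scl H e ∈ rcube o s → GoodE Γ H Xs η KG Y P e →
  ∃ Bad : Finset ℝ, Bad.card ≤ C1 ∧
  ∀ (k : ℕ) (b1 : ℝ), k0 ≤ k → C1.factorial ∣ k → 3 * k ≤ P → 0 < b1 → b1 ≤ β0 k → η ≤ β0 k →
    (∀ β ∈ Bad, β ≤ b1 ∨ 1 / Real.sqrt k < β) →
  ∀ H' : ℝ, 0 < H' →
    m * d * Real.log H' + m' * d * Real.log H = cen H Xs k * Real.log (winT H) →
  ∃ (Maj : Finset (Pt B)) (κ : ℝ) (sp : (Γ.Ix m' → ℤ) → Prop)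
    (Z : (Γ.Ix m' → ℤ) → Finset (Pt B)),
    Maj ⊆ Xs.filter (fun x => x.On (Γ.el e)) ∧
    ∑ x ∈ Xs.filter (fun x => x.On (Γ.el e)) \ Maj, pmu Xs x ≤ K * Real.sqrt (b1 + η) ∧
    ck k * Real.log Y / Real.log H ≤ κ ∧
    EPack Γ H Xs P k H' (rcube o' s') (C1.factorial ^ 2 * L) (C1.factorial ^ 2 * L * L) w0
      (H' / Real.log H ^ A) (Real.exp (-Real.sqrt k / 8)) e Maj κ sp Z

end Pool.Agent.Lib.BK2
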