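import Pool.Agent.Lib.BK2.ZDefs

/-! Block ZE: auxiliary statements. -/

open Polynomial Finset

noncomputable section

namespace Pool.Agent.Lib.BK2

/-- Uniform bounds on the cube of the `e`. -/
def St_ZARC : Prop :=
  ∀ (B : Type) [CommRing B] [IsDomain B] [Algebra ℤ[X] B] (d : ℕ) [NeZero d] (Γ : Geo B d)
    (m ν : ℕ) (U : Set (Γ.Ix m → ℝ)) (ρ : Γ.Roots m ν U) (o : Γ.Ix m → ℝ) (s : ℝ),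
    rcube o s ⊆ U →
    (∃ Ka : ℝ, 1 ≤ Ka ∧ ∀ e ∈ rcube o s, (∀ j, ‖ρ.φ e j Γ.t‖ ≤ Ka) ∧ 1 / Ka ≤ |Γ.lc e| ∧
      |Γ.lc e| ≤ Ka) ∧
    ∀ (m' : ℕ) (o' : Γ.Ix m' → ℝ) (s' : ℝ),
      (∀ e ∈ rcube o s, ∀ w ∈ rcube o' s', ∀ j, Γ.ev (ρ.φ e j) w ≠ 0) →
      ∃ Kb : ℝ, 1 ≤ Kb ∧ ∀ e ∈ rcube o s, ∀ j,
        (∀ w ∈ rcube o' s', 1 / Kb ≤ ‖Γ.ev (ρ.φ e j) w‖ ∧ ‖Γ.ev (ρ.φ e j) w‖ ≤ Kb) ∧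
        ∀ (v : Γ.Ix m' → ℤ) (r : ℝ), (∀ i, |(v i : ℝ)| ≤ r) → ‖ρ.φ e j (Γ.el v)‖ ≤ Kb * r

/-- Small values on `e` have small lifts. -/
def St_ZLIFT : Prop :=
  ∀ (B : Type) [CommRing B] [IsDomain B] [Algebra ℤ[X] B] (d : ℕ) [NeZero d] (Γ : Geo B d)
    (m ν : ℕ) (U : Set (Γ.Ix m → ℝ)) (ρ : Γ.Roots m ν U) (o : Γ.Ix m → ℝ) (s : ℝ),
    rcube o s ⊆ U → ∀ m' : ℕ, m * d ≤ m' →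
    ∃ Kl : ℝ, 1 ≤ Kl ∧ ∀ (H : ℝ) (e : Γ.Ix m → ℤ), 0 < H → scl H e ∈ rcube o s →
      Irreducible ((Γ.nrm (Γ.el e)).map (Int.castRingHom ℚ)) →
      ∀ v ∈ Γ.V m', ∀ r : ℝ, 0 ≤ r → (∀ j, ‖ρ.φ (scl H e) j v‖ ≤ r) →
      ∃ u : Γ.Ix m' → ℤ, Γ.el e ∣ Γ.el u - v ∧ ∀ i, |(u i : ℝ)| ≤ Kl * (r + H)

end Pool.Agent.Lib.BK2
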