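import Pool.Agent.Lib.BK2.ZDefs
import Pool.Agent.Lib.BK2.NBlue

open Polynomial Finset

noncomputable section

namespace Pool.Agent.Lib.BK2.ZE

theorem iota (K0 n : ℕ) (cY : ℝ) (hn : 0 < n) (hc : 0 < cY) : ∃ H0 : ℕ, ∀ H ≥ H0, ∀ Y : ℕ,
    cY * Real.log H ≤ Y → ∀ F : ℕ, 0 < F → (F : ℝ) ≤ (H : ℝ) ^ K0 → ∀ S ⊆ F.primeFactors,
    (∀ q ∈ S, Y < q) → ∑ q ∈ S, (1 / (q : ℝ)) ≤ 1 / (8 * (n : ℝ)) := by
  obtain ⟨a, ha, ha'⟩ : ∃ a : ℝ, 0 < a ∧ 8 * n * K0 ≤ a * cY :=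
    ⟨8 * n * K0 / cY + 1, by positivity, by
      rw [add_mul, div_mul_cancel₀ _ hc.ne']
      linarith⟩
  refine ⟨⌈Real.exp (Real.exp a / cY)⌉₊, fun H hH Y hY F hF hFH S hS hq => ?_⟩
  have hn' : (0 : ℝ) < n := by exact_mod_cast hn
  have h1 : Real.exp (Real.exp a / cY) ≤ H := Nat.ceil_le.1 hH
  have hH0 : (0 : ℝ) < H := (Real.exp_pos _).trans_le h1
  have h2 : Real.exp a ≤ Y := by
    have := (Real.le_log_iff_exp_le hH0).2 h1
    rw [div_le_iff₀ hc] at this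
    linarith
  have hY0 : (0 : ℝ) < Y := (Real.exp_pos _).trans_le h2
  have h3 : a ≤ Real.log Y := (Real.le_log_iff_exp_le hY0).2 h2
  have h4 : Y ^ S.card ≤ F := by
    refine le_trans (Finset.pow_card_le_prod S (fun q => q) Y fun q h => (hq q h).le) ?_
    exact Nat.le_of_dvd hF ((Finset.prod_dvd_prod_of_subset _ _ _ hS).trans
      (Nat.prod_primeFactors_dvd F))
  have h5 : (S.card : ℝ) * Real.log Y ≤ K0 * Real.log H := by
    rw [← Real.log_pow, ← Real.log_pow]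
    refine Real.log_le_log (by positivity) (le_trans ?_ hFH)
    exact_mod_cast h4
  have h6 : 8 * (n : ℝ) * S.card ≤ Y := by
    refine le_of_mul_le_mul_left (a := a * cY) ?_ (by positivity)
    have h7 : (S.card : ℝ) * a ≤ K0 * Real.log H :=
      (mul_le_mul_of_nonneg_left h3 (Nat.cast_nonneg _)).trans h5
    have h8 := mul_le_mul_of_nonneg_left h7 (show 0 ≤ 8 * (n : ℝ) * cY by positivity)
    have h9 := mul_le_mul_of_nonneg_left hY (show 0 ≤ 8 * (n : ℝ) * K0 by positivity)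
    have h10 := mul_le_mul_of_nonneg_right ha' hY0.le
    linarith
  calc ∑ q ∈ S, (1 / (q : ℝ)) ≤ ∑ _q ∈ S, 1 / (Y : ℝ) := Finset.sum_le_sum fun q h =>
        one_div_le_one_div_of_le hY0 (by exact_mod_cast (hq q h).le)
    _ = S.card / Y := by rw [Finset.sum_const, nsmul_eq_mul, mul_one_div]
    _ ≤ _ := by
        rw [div_le_div_iff₀ hY0 (by positivity)]
        linarith

theorem grow (C : ℝ) (A : ℕ) : ∃ H0 : ℕ, ∀ H ≥ H0, 3 ≤ H ∧ C ≤ Real.log (winT H) ∧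
    C * Real.log H ^ A ≤ Real.sqrt (winT H) := by
  have h1 := (isLittleO_log_rpow_rpow_atTop (A : ℝ) (show (0 : ℝ) < 1 / 40 by norm_num)).bound
    (show 0 < 1 / (|C| + 1) by positivity)
  have h2 := Real.tendsto_log_atTop.eventually_ge_atTop (20 * C)
  have h3 := tendsto_natCast_atTop_atTop (R := ℝ) |>.eventually (h1.and h2)
  obtain ⟨H0, hH0⟩ := Filter.eventually_atTop.1 (h3.and (Filter.eventually_ge_atTop 3))
  refine ⟨H0, fun H hH => ?_⟩
  obtain ⟨⟨h4, h5⟩, h6⟩ := hH0 H hH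
  have h7 : (0 : ℝ) < H := by exact_mod_cast lt_of_lt_of_le (by norm_num) h6
  refine ⟨h6, ?_, ?_⟩
  · rw [winT, Real.log_rpow h7]
    linarith
  · have h8 : Real.sqrt (winT H) = (H : ℝ) ^ (1 / 40 : ℝ) := by
      rw [winT, Real.sqrt_eq_rpow, ← Real.rpow_mul h7.le]
      norm_num
    have h9 : 0 ≤ Real.log H ^ A := pow_nonneg (Real.log_natCast_nonneg H) A
    rw [Real.rpow_natCast, Real.norm_of_nonneg h9, Real.norm_of_nonneg (by positivity), one_div,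
      inv_mul_eq_div, le_div_iff₀ (by positivity)] at h4
    rw [h8]
    have h10 := mul_le_mul_of_nonneg_right (le_abs_self C) h9
    linarith

theorem kasy (K0 b0 : ℝ) (hK : 0 < K0) (hb : 0 < b0) : ∃ (k0 : ℕ) (β0 : ℕ → ℝ),
    (∀ k, 0 < β0 k ∧ β0 k ≤ b0 / 2 ∧ β0 k ≤ 1 / 2) ∧ ∀ P : ℕ, ∃ c : ℝ, 0 < c ∧
    ∀ (k : ℕ) (b1 η ε2 : ℝ), k0 ≤ k → k ≤ P → 0 < b1 → b1 ≤ β0 k → 0 < η → η ≤ β0 k → 0 ≤ ε2 →
      ε2 ≤ c → 1 / Real.sqrt k ≤ b0 ∧ K0 * Real.sqrt (b1 + 2 * η) ≤ 1 / Real.sqrt k ∧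
      0 ≤ NT.terr K0 k b1 (1 / Real.sqrt k) (2 * η) ε2 ∧
      NT.terr K0 k b1 (1 / Real.sqrt k) (2 * η) ε2 ≤ 5 / 8 * Real.exp (-Real.sqrt k / 8) := by
  refine ⟨⌈(57 * K0 + 1 / b0 + 1) ^ 2⌉₊, fun k => min (min (b0 / 2) (1 / 2))
    ((Real.exp (-Real.sqrt k / 8) / (16 * K0 * ((k : ℝ) + 1) ^ 2)) ^ 2 / 3),
    fun k => ⟨by positivity, (min_le_left _ _).trans (min_le_left _ _),
      (min_le_left _ _).trans (min_le_right _ _)⟩,
    fun P => ⟨Real.exp (-Real.sqrt P / 8) / (8 * K0 * ((P : ℝ) + 1) ^ 2), by positivity, ?_⟩⟩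
  intro k b1 η ε2 hk hP hb1 hb1' hη hη' he he'
  have hs : 57 * K0 + 1 / b0 + 1 ≤ Real.sqrt k := Real.le_sqrt_of_sq_le (Nat.ceil_le.1 hk)
  have hb' : 0 < 1 / b0 := by positivity
  have hkk : Real.sqrt k * Real.sqrt k = k := Real.mul_self_sqrt (Nat.cast_nonneg k)
  have hPk : (k : ℝ) ≤ P := by exact_mod_cast hP
  have hE : Real.exp (-Real.sqrt P / 8) ≤ Real.exp (-Real.sqrt k / 8) :=
    Real.exp_le_exp.2 (by linarith [Real.sqrt_le_sqrt hPk])
  have hq : Real.sqrt (b1 + 2 * η) ≤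
      Real.exp (-Real.sqrt k / 8) / (16 * K0 * ((k : ℝ) + 1) ^ 2) := by
    refine Real.sqrt_le_iff.2 ⟨by positivity, ?_⟩
    linarith [hb1'.trans (min_le_right _ _), hη'.trans (min_le_right _ _)]
  have hq0 := Real.sqrt_nonneg (b1 + 2 * η)
  have hE1 : Real.exp (-Real.sqrt k / 8) ≤ 1 :=
    Real.exp_le_one_iff.2 (by linarith [Real.sqrt_nonneg (k : ℝ)])
  have hE0 := Real.exp_pos (-Real.sqrt k / 8)
  have hE0' := Real.exp_pos (-Real.sqrt P / 8)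
  rw [NT.terr]
  generalize Real.sqrt (b1 + 2 * η) = r at hq hq0 ⊢
  generalize Real.exp (-Real.sqrt P / 8) = EP at hE he' hE0'
  generalize Real.sqrt k = s at hs hkk hq hE hE1 hE0 ⊢
  have hs1 : 1 ≤ s := by linarith
  have hs0 : 0 < s := by linarith
  have hk0 : (0 : ℝ) ≤ k := Nat.cast_nonneg k
  have hsk : s ≤ k + 1 := by nlinarith
  have h1 : 0 ≤ 1 - 1 / s / 2 := by
    have : 1 / s ≤ 1 := by rw [div_le_one hs0]; exact hs1
    linarith
  rw [le_div_iff₀ (by positivity)] at hq he'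
  have hsk2 : s * k ≤ ((k : ℝ) + 1) ^ 2 := by nlinarith
  refine ⟨?_, ?_, by positivity, ?_⟩
  · rw [div_le_iff₀ hs0, ← div_le_iff₀' hb]
    linarith
  · rw [le_div_iff₀ hs0]
    have h2 : s ≤ 16 * ((k : ℝ) + 1) ^ 2 := by nlinarith
    have h3 := mul_le_mul_of_nonneg_left h2 (mul_nonneg hK.le hq0)
    linarith
  · have h2 : (1 - 1 / s / 2) ^ k ≤ Real.exp (-(3 * s / 8)) * Real.exp (-s / 8) := by
      calc (1 - 1 / s / 2) ^ k ≤ Real.exp (-(1 / s / 2)) ^ k :=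
            pow_le_pow_left₀ h1 (Real.one_sub_le_exp_neg _) k
        _ = _ := by
            rw [← Real.exp_nat_mul, ← Real.exp_add, ← hkk]
            refine congrArg Real.exp ?_
            field_simp
            ring
    have h3 : K0 * s * Real.exp (-(3 * s / 8)) ≤ 1 / 4 := by
      have h4 := Real.quadratic_le_exp_of_nonneg (show 0 ≤ 3 * s / 8 by positivity)
      rw [Real.exp_neg, ← div_eq_mul_inv, div_le_iff₀ (Real.exp_pos _)]
      nlinarith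
    have h4 := mul_le_mul_of_nonneg_left h2 (mul_nonneg hK.le hs0.le)
    have h5 := mul_le_mul_of_nonneg_right h3 hE0.le
    have h6 := mul_le_mul_of_nonneg_left hsk2 (mul_nonneg hK.le hq0)
    have h7 : s * k ≤ ((P : ℝ) + 1) ^ 2 :=
      hsk2.trans (pow_le_pow_left₀ (by positivity) (by linarith) 2)
    have h8 := mul_le_mul_of_nonneg_left h7 (mul_nonneg hK.le he)
    linarith

variable {B : Type} [CommRing B]

/-- bounds for the density factor -/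
theorem dfac_bd (hM : St_MOD) (c0 : ℝ) (hc : 0 < c0) : ∃ k0 : ℕ, ∀ (H : ℕ) (Xs : Finset (Pt B))
    (P k : ℕ) (X : Finset (Pt B)), Law Xs (pwb Xs) (pa H) c0 → k0 ≤ k → k ≤ P → X ⊆ Xs →
    X.card ≤ 2 → 0 ≤ dfac H Xs P k X ∧ dfac H Xs P k X ≤ 3 / 2 := by
  classical
  obtain ⟨c, K, k0, hc', -, h4, h⟩ := hM c0 hc
  refine ⟨k0, fun H Xs P k X hL hk hP hX h2 => ?_⟩
  obtain ⟨g1, -, -, -, g5, g6, -⟩ := h _ Xs (pwb Xs) (pa H) hL k P hk hP (cen H Xs k) rfl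
  have hk0 : (0 : ℝ) < k := by exact_mod_cast lt_of_lt_of_le (by norm_num) (h4.trans hk)
  have hD : 0 < Dm Xs (pwb Xs) (pa H) P k (cen H Xs k) :=
    (div_pos hc' (Real.sqrt_pos.2 hk0)).trans_le g1
  rw [dfac]
  obtain h0 | h0 | h0 : X.card = 0 ∨ X.card = 1 ∨ X.card = 2 := by omega
  · rw [Finset.card_eq_zero.1 h0, Finset.card_empty, Finset.sum_empty, Nat.sub_zero, sub_zero,
      div_self hD.ne']
    norm_num
  · obtain ⟨x, rfl⟩ := Finset.card_eq_one.1 h0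
    have hx := hX (Finset.mem_singleton_self x)
    have h5 := abs_le.1 (g5 (pa H x) (hL.lo x hx) (hL.hi x hx)).2
    rw [Finset.card_singleton, Finset.sum_singleton]
    constructor <;> linarith [h5.1, h5.2]
  · obtain ⟨x, y, hxy, rfl⟩ := Finset.card_eq_two.1 h0
    have hx : x ∈ Xs := hX (by simp)
    have hy : y ∈ Xs := hX (by simp)
    have h5 := abs_le.1 (g6 (pa H x + pa H y) (by linarith [hL.lo x hx, hL.lo y hy])
      (by linarith [hL.hi x hx, hL.hi y hy])).2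
    rw [h0, Finset.sum_pair hxy]
    constructor <;> linarith [h5.1, h5.2]

end Pool.Agent.Lib.BK2.ZE
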