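import Pool.Agent.Lib.BK2.ZDefs
import Pool.Agent.Lib.BK2.Blue1

/-! BK2, section ZE: the points over the window primes that divide `F` have small mass. -/

open Polynomial Finset

set_option linter.unusedVariables false

noncomputable section

namespace Pool.Agent.Lib.BK2.ZE

variable {B : Type} [CommRing B]

namespace Rem

theorem nee (x : ℝ) : ‖ee x‖ = 1 := by
  have : ee x = Complex.exp (((2 * Real.pi * x : ℝ) : ℂ) * Complex.I) := by
    unfold ee; push_cast; rfl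
  rw [this]
  exact Complex.norm_exp_ofReal_mul_I _

theorem map_ne {g : ℤ[X]} (hp : g.IsPrimitive) {p : ℕ} (h : p.Prime) :
    g.map (Int.castRingHom (ZMod p)) ≠ 0 := by
  intro h0
  have h1 : C (p : ℤ) ∣ g := by
    rw [C_dvd_iff_dvd_coeff]
    intro i
    have := congrArg (fun q => q.coeff i) h0
    simp only [coeff_map, eq_intCast, coeff_zero] at this
    exact (ZMod.intCast_zmod_eq_zero_iff_dvd _ _).1 this
  have h2 := Int.isUnit_iff_natAbs_eq.1 (hp _ h1)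
  rw [Int.natAbs_natCast] at h2
  exact h.one_lt.ne' h2

open Classical in
theorem card_le (f : B) (n u F : ℕ) (T : ℝ) (hT : 1 < T) (hF : 0 < F) (hFu : (F : ℝ) ≤ T ^ u)
    (hfin : ∀ p : ℕ, p.Prime → Finite (B →+* ZMod p))
    (hn : ∀ p : ℕ, p.Prime → Nat.card {x : B →+* ZMod p // x f = 0} ≤ n)
    (R : Finset (Pt B)) (hR : ∀ x ∈ R, x.On f ∧ x.p ∣ F ∧ T ≤ x.p) : R.card ≤ n * u := by
  have h1 : R.card ≤ n * (R.image Pt.p).card := by
    refine card_le_mul_card_image R n fun p hp => ?_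
    obtain ⟨x0, -, rfl⟩ := mem_image.1 hp
    have := hfin x0.p x0.1.2
    have : Fintype {x : B →+* ZMod x0.p // x f = 0} := Fintype.ofFinite _
    refine le_trans ?_ (hn x0.p x0.1.2)
    rw [Nat.card_eq_fintype_card, ← card_univ]
    refine le_trans (card_le_card (t := univ.image
      fun φ : {x : B →+* ZMod x0.p // x f = 0} => (⟨x0.1, φ.1⟩ : Pt B)) ?_) card_image_le
    intro y hy
    obtain ⟨hy1, hy2⟩ := mem_filter.1 hy
    obtain ⟨p, φ⟩ := y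
    obtain ⟨p0, φ0⟩ := x0
    obtain rfl : p = p0 := Subtype.ext hy2
    exact mem_image.2 ⟨⟨φ, (hR _ hy1).1⟩, mem_univ _, rfl⟩
  refine h1.trans (Nat.mul_le_mul_left _ ?_)
  have h2 : R.image Pt.p ⊆ F.primeFactors := by
    intro p hp
    obtain ⟨x, hx, rfl⟩ := mem_image.1 hp
    exact Nat.mem_primeFactors.2 ⟨x.1.2, (hR x hx).2.1, hF.ne'⟩
  have h3 : ∏ p ∈ R.image Pt.p, p ≤ F :=
    Nat.le_of_dvd hF ((prod_dvd_prod_of_subset _ _ _ h2).trans (Nat.prod_primeFactors_dvd F))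
  have h4 : T ^ (R.image Pt.p).card ≤ ∏ p ∈ R.image Pt.p, (p : ℝ) := by
    rw [← prod_const]
    refine prod_le_prod (fun _ _ => by linarith) fun p hp => ?_
    obtain ⟨x, hx, rfl⟩ := mem_image.1 hp
    exact (hR x hx).2.2
  have h5 : (∏ p ∈ R.image Pt.p, (p : ℝ)) ≤ F := by
    rw [← Nat.cast_prod (R := ℝ) (fun p => p)]
    exact Nat.cast_le.2 h3
  exact (pow_le_pow_iff_right₀ hT).1 (h4.trans (h5.trans hFu))

open Classical in
theorem core {ι : Type} (A A' R : Finset ι) (w a : ι → ℝ) (η : ℝ) (hd : Disjoint A' R)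
    (hu : A = A' ∪ R) (hw : ∀ x ∈ A, 0 ≤ w x) (ha : ∀ x ∈ A, 0 ≤ a x ∧ a x ≤ 2)
    (hm : 4 * ∑ x ∈ R, w x ≤ η) :
    (∀ (θ : ℝ) (z : ℂ), ‖chf A w a θ - z‖ ≤ η → ‖chf A' w a θ - z‖ ≤ 2 * η) ∧
    (∀ (i : ℕ) (z : ℝ), i ≤ 2 → |∑ x ∈ A, w x * a x ^ i - z| ≤ η →
      |∑ x ∈ A', w x * a x ^ i - z| ≤ 2 * η) ∧
    ∀ M N N' : Finset ι, (∀ x, x ∈ N ↔ x ∈ A ∧ x ∉ M) → (∀ x, x ∈ N' ↔ x ∈ A' ∧ x ∉ M) →
      ∑ x ∈ N, w x ≤ ∑ x ∈ N', w x + η := by
  have hRA : ∀ x ∈ R, x ∈ A := fun x hx => hu ▸ mem_union_right _ hx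
  have hAA : ∀ x ∈ A', x ∈ A := fun x hx => hu ▸ mem_union_left _ hx
  have h0 : 0 ≤ ∑ x ∈ R, w x := sum_nonneg fun x hx => hw x (hRA x hx)
  refine ⟨fun θ z h => ?_, fun i z hi h => ?_, fun M N N' hN hN' => ?_⟩
  · have e1 : chf A' w a θ - z = (chf A w a θ - z) - chf R w a θ := by
      unfold chf
      rw [hu, sum_union hd]
      ring
    have e2 : ‖chf R w a θ‖ ≤ ∑ x ∈ R, w x := by
      refine (norm_sum_le _ _).trans (sum_le_sum fun x hx => le_of_eq ?_)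
      rw [norm_mul, nee, mul_one, Complex.norm_real, Real.norm_of_nonneg (hw x (hRA x hx))]
    rw [e1]
    linarith [norm_sub_le (chf A w a θ - z) (chf R w a θ)]
  · have e2 : ∑ x ∈ R, w x * a x ^ i ≤ 4 * ∑ x ∈ R, w x := by
      rw [mul_sum]
      refine sum_le_sum fun x hx => ?_
      have b1 : a x ^ i ≤ 2 ^ i := pow_le_pow_left₀ (ha x (hRA x hx)).1 (ha x (hRA x hx)).2 i
      have b2 : (2 : ℝ) ^ i ≤ 2 ^ 2 := pow_le_pow_right₀ (by norm_num) hi
      have b3 := mul_le_mul_of_nonneg_left (b1.trans b2) (hw x (hRA x hx))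
      linarith
    have e3 : 0 ≤ ∑ x ∈ R, w x * a x ^ i :=
      sum_nonneg fun x hx => mul_nonneg (hw x (hRA x hx)) (pow_nonneg (ha x (hRA x hx)).1 i)
    rw [hu, sum_union hd] at h
    obtain ⟨b1, b2⟩ := abs_le.1 h
    exact abs_le.2 ⟨by linarith, by linarith⟩
  · have hd' : Disjoint N' R := disjoint_left.2 fun x hx => disjoint_left.1 hd ((hN' x).1 hx).1
    have e1 : ∑ x ∈ N, w x ≤ ∑ x ∈ N' ∪ R, w x := by
      refine sum_le_sum_of_subset_of_nonneg (fun x hx => ?_) fun x hx _ => ?_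
      · obtain ⟨b1, b2⟩ := (hN x).1 hx
        rw [hu] at b1
        rcases mem_union.1 b1 with b | b
        · exact mem_union_left _ ((hN' x).2 ⟨b, b2⟩)
        · exact mem_union_right _ b
      · rcases mem_union.1 hx with b | b
        · exact hw x (hAA x ((hN' x).1 b).1)
        · exact hw x (hRA x b)
    rw [sum_union hd'] at e1
    linarith

end Rem

open Classical in
/-- the points of `f` over the window primes that divide `F` have small mass -/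
theorem rem [IsDomain B] [Algebra ℤ[X] B] {d : ℕ} [NeZero d] (hM : St_MODP) (Γ : Geo B d) (m : ℕ)
    (f : B) (hf : f ∈ Γ.V m) (hp : (Γ.nrm f).IsPrimitive) (H u F P : ℕ) (Xs : Finset (Pt B))
    (c0 η : ℝ) (hc : 0 < c0) (hW : IsWin H Xs) (hm : c0 ≤ mbar Xs) (hT : 1 < winT H)
    (hF : 0 < F) (hFu : (F : ℝ) ≤ winT H ^ u) (hη : 4 * (u * (m * d * d) : ℝ) / (c0 * winT H) ≤ η)
    (h1 : ∀ t ∈ frq P, ‖chf (Xs.filter fun x => x.On f) (pmu Xs) (pa H) (t / P) -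
      chf Xs (pwb Xs) (pa H) (t / P)‖ ≤ η)
    (h2 : ∀ i : ℕ, i ≤ 2 → |∑ x ∈ Xs.filter (fun x => x.On f), pmu Xs x * pa H x ^ i -
      ∑ x ∈ Xs, pwb Xs x * pa H x ^ i| ≤ η) :
    (∀ t ∈ frq P, ‖chf (Xs.filter fun x => x.On f ∧ ¬x.p ∣ F) (pmu Xs) (pa H) (t / P) -
      chf Xs (pwb Xs) (pa H) (t / P)‖ ≤ 2 * η) ∧
    (∀ i : ℕ, i ≤ 2 → |∑ x ∈ Xs.filter (fun x => x.On f ∧ ¬x.p ∣ F), pmu Xs x * pa H x ^ i -
      ∑ x ∈ Xs, pwb Xs x * pa H x ^ i| ≤ 2 * η) ∧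
    ∀ M ⊆ Xs.filter (fun x => x.On f ∧ ¬x.p ∣ F),
      ∑ x ∈ Xs.filter (fun x => x.On f) \ M, pmu Xs x ≤
        ∑ x ∈ Xs.filter (fun x => x.On f ∧ ¬x.p ∣ F) \ M, pmu Xs x + η := by
  obtain ⟨hM1, -, hM3, -⟩ := hM B d Γ
  have hT0 : 0 < winT H := by linarith
  have hmb : 0 < mbar Xs := by linarith
  have hlog : 0 < Real.log (winT H) := Real.log_pos hT
  obtain ⟨R, hR⟩ : ∃ R : Finset (Pt B), ∀ x, x ∈ R ↔ x ∈ Xs ∧ x.On f ∧ x.p ∣ F :=
    ⟨Xs.filter fun x => x.On f ∧ x.p ∣ F, fun x => mem_filter⟩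
  have hcard : R.card ≤ m * d * d * u :=
    Rem.card_le f _ u F (winT H) hT hF hFu (fun p h => (hM1 p h).1)
      (fun p h => hM3 m f hf p h (Rem.map_ne hp h)) R fun x hx =>
        ⟨((hR x).1 hx).2.1, ((hR x).1 hx).2.2, ((hW x).1 ((hR x).1 hx).1).1⟩
  have hmass : 4 * ∑ x ∈ R, pmu Xs x ≤ η := by
    have a1 : ∑ x ∈ R, pmu Xs x ≤ R.card • (1 / (c0 * winT H)) := by
      refine sum_le_card_nsmul _ _ _ fun x hx => ?_
      have := ((hW x).1 ((hR x).1 hx).1).1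
      exact one_div_le_one_div_of_le (by positivity) (mul_le_mul hm this hT0.le hmb.le)
    rw [nsmul_eq_mul] at a1
    have a2 : (R.card : ℝ) ≤ u * (m * d * d) := by
      rw [mul_comm]
      exact_mod_cast hcard
    have a3 := mul_le_mul_of_nonneg_right a2 (by positivity : 0 ≤ 1 / (c0 * winT H))
    have a4 : 4 * (u * (m * d * d) : ℝ) / (c0 * winT H) =
        4 * ((u * (m * d * d) : ℝ) * (1 / (c0 * winT H))) := by ring
    linarith
  obtain ⟨c1, c2, c3⟩ := Rem.core (Xs.filter fun x => x.On f)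
    (Xs.filter fun x => x.On f ∧ ¬x.p ∣ F) R (pmu Xs) (pa H) η
    (disjoint_left.2 fun x hx hx2 => (mem_filter.1 hx).2.2 ((hR x).1 hx2).2.2)
    (by
      ext x
      simp only [mem_filter, mem_union, hR]
      tauto)
    (fun x _ => by unfold pmu; positivity)
    (fun x hx => by
      obtain ⟨b1, b2⟩ := (hW x).1 (mem_filter.1 hx).1
      unfold pa
      refine ⟨div_nonneg (Real.log_nonneg (by linarith)) hlog.le, ?_⟩
      rw [div_le_iff₀ hlog]
      have := Real.log_le_log (by linarith) b2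
      rw [Real.log_pow] at this
      exact_mod_cast this) hmass
  exact ⟨fun t ht => c1 _ _ (h1 t ht), fun i hi => c2 i _ hi (h2 i hi),
    fun M _ => c3 M _ _ (fun x => mem_sdiff) fun x => mem_sdiff⟩

end Pool.Agent.Lib.BK2.ZE
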