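import Pool.Agent.Lib.BK2.ZESz
import Pool.Agent.Lib.BK2.ZENum
import Pool.Agent.Lib.BK2.ZERem
import Pool.Agent.Lib.BK2.ZEDefs

/-! Block ZE: the package for one curve. -/

open Polynomial Finset NumberField

noncomputable section

namespace Pool.Agent.Lib.BK2

theorem ZE.ev (C : ℝ) (A : ℕ) : ∀ᶠ H : ℕ in Filter.atTop, 3 ≤ H ∧ C ≤ Real.log (winT H) ∧
    C * Real.log H ^ A ≤ Real.sqrt (winT H) := Filter.eventually_atTop.2 (ZE.grow C A)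

theorem ZE.dbd {Ka H N L c : ℝ} (d n : ℕ) (hK : 1 ≤ Ka) (h1 : 2 * Ka ^ 2 ≤ H) (h2 : N ≤ H)
    (h0 : 0 ≤ L) (h3 : L ≤ H) (h4 : 0 ≤ c) (h5 : c ≤ Ka * H ^ d) :
    N * L * L * c * (2 * (Ka ^ 2 * H ^ d)) ^ n ≤ H ^ (4 + d + (d + 1) * n) := by
  have a1 : Ka ≤ H := by nlinarith
  have a0 : 0 ≤ H := by linarith
  calc _ ≤ H * H * H * (H * H ^ d) * (H * H ^ d) ^ n := by
        rw [← mul_assoc 2]
        gcongr
        exact h5.trans (by gcongr)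
    _ = _ := by ring

open Classical ZE in
theorem stZE (hCUT : St_CUT) (hV0 : St_V0) (hORD : St_ORDN) (hTUP : NT.St_TUP)
    (hBAS : NT.St_BAS) (hNRM : St_NRM) (hMODP : St_MODP) (hMOD : St_MOD) (hARC : St_ZARC)
    (hLIFT : St_ZLIFT) : St_ZE := by
  intro B _ _ _ d _ Γ m ν U ρ o s hm hU c0 KG hc0
  have hd : 0 < d := Nat.pos_of_ne_zero (NeZero.ne d)
  have hn : 0 < m * d := Nat.mul_pos (by omega) hd
  have hmd : m ≤ m * d := Nat.le_mul_of_pos_right m hd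
  obtain ⟨⟨Ka, hKa, hA1⟩, hA2⟩ := hARC B d Γ m ν U ρ o s hU
  obtain ⟨K1, hK1⟩ : ∃ K1, K1 = 4 + d + (d + 1) * (m * d) ^ 2 := ⟨_, rfl⟩
  obtain ⟨C1, P0, k0, b0, K0, hC1, hb0, hK0, hT⟩ := hTUP (m * d) ((20 * K1 : ℕ) : ℝ) c0 hc0
  refine ⟨C1, P0, 2 * K0 + 1, hC1, by positivity, ?_⟩
  intro m1 m' ν' U' ρ' o' s' hm1 hm' hU' hne
  subst hm'
  have hN2 : 2 ≤ C1.factorial := hC1.trans (Nat.self_le_factorial C1)
  generalize C1.factorial = N at *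
  have hmm : m1 ≤ N * m1 := Nat.le_mul_of_pos_left m1 (by omega)
  obtain ⟨Kb, hKb, hB⟩ := hA2 _ o' s' fun e he w hw j => hne e he w (hU' hw) j
  obtain ⟨Kl, hKl, hLf⟩ := hLIFT B d Γ m ν U ρ o s hU (N * m1) (by omega)
  obtain ⟨k1, β0, hβ, hk1⟩ := kasy K0 b0 hK0 hb0
  obtain ⟨k2, hk2⟩ := dfac_bd (B := B) hMOD c0 hc0
  refine ⟨k0 + k1 + k2 + 20 * (5 * (m * d) + N * m1 * d), β0,
    fun k => 1 / (K0 ^ k * k.factorial * Real.exp KG), fun k => (hβ k).1,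
    fun k => by positivity, ?_⟩
  intro P A η cY hP hη hcY
  by_cases hηb : b0 < 2 * η
  · exact ⟨0, fun H _ Y L _ _ _ _ Xs _ _ _ => ⟨0, fun e _ _ => ⟨∅, by simp,
      fun k b1 _ _ _ _ _ h => absurd (hβ k).2.1 (by linarith)⟩⟩⟩
  obtain ⟨T0, hT0⟩ := hT P (2 * η) hP (by positivity) (not_lt.1 hηb)
  obtain ⟨c, hc, hk3⟩ := hk1 P
  obtain ⟨r, hr⟩ : ∃ r : ℝ, r = Fintype.card (Γ.Ix (N * m1)) := ⟨_, rfl⟩
  have hr0 : 0 ≤ r := by rw [hr]; positivity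
  obtain ⟨ηt, t0, t1⟩ : ∃ ηt : ℝ, 0 < ηt ∧ 24 * ((r + 1) * ηt) = Real.exp (-Real.sqrt P / 8) :=
    ⟨Real.exp (-Real.sqrt P / 8) / (24 * (r + 1)), by positivity, by field_simp⟩
  have hex : ∀ k : ℕ, Real.exp (-Real.sqrt k / 8) ≤ 1 := fun k =>
    Real.exp_le_one_iff.2 (by linarith [Real.sqrt_nonneg (k : ℝ)])
  have t2 : 0 ≤ r * ηt := by positivity
  have t3 := hex P
  obtain ⟨C, hC⟩ := sizes Kl Kb ηt c ((N : ℝ) ^ 2) hKl hKb t0 hc (by positivity)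
  refine Filter.eventually_atTop.1 ?_
  filter_upwards [ZE.ev C A, ZE.ev T0 0, ZE.ev 1 0, ZE.ev ((N : ℝ) ^ 2) 0, ZE.ev (2 * Ka ^ 2) 0,
    ZE.ev (((m * d : ℕ) * Real.log (2 * Kb) + (N * m1 : ℕ) * Real.log Ka) / η) 0,
    ZE.ev (4 * ((20 * K1 : ℕ) * (m * d * d) : ℝ) / (c0 * η)) 0, ZE.ev (2 / cY) 0,
    Filter.eventually_atTop.2 (iota K1 (m * d) cY hn hcY)]
    with H ⟨hH3, _, g1⟩ ⟨_, g2, _⟩ ⟨_, g3, _⟩ ⟨_, g4, _⟩ ⟨_, g5, _⟩ ⟨_, g6, _⟩ ⟨_, g7, _⟩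
      ⟨_, g8, _⟩ g9
  intro Y L hY hLH hL0 hLq Xs hW hmb hlaw
  have hH : (3 : ℝ) ≤ H := by exact_mod_cast hH3
  have hH0 : (0 : ℝ) < H := by linarith
  obtain ⟨w1, w2⟩ := winT_le (H := H) (by omega)
  have w3 := log_winT (H := H) (by omega)
  have w4 : Real.log (winT H) ≤ winT H - 1 := Real.log_le_sub_one_of_pos (by linarith)
  have w5 : 1 ≤ Real.log H ^ A := one_le_pow₀ (by linarith)
  have w6 : Real.sqrt (winT H) ≤ (H : ℝ) ^ 2 := Real.sqrt_le_iff.2 ⟨by positivity, by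
    refine w2.trans ?_
    rw [← pow_mul]
    exact le_self_pow₀ (by linarith) (by norm_num)⟩
  have hY2 : (2 : ℝ) ≤ Y := by
    rw [div_le_iff₀ hcY] at g8
    nlinarith
  have hlY : 0 < Real.log Y := Real.log_pos (by linarith)
  have hmb0 : 0 < mbar Xs := hc0.trans_le hmb
  have hQ3 : 3 ≤ N ^ 2 * L * L := by nlinarith [Nat.mul_pos hL0 hL0]
  have hLH' : (L : ℝ) ≤ H := by exact_mod_cast hLH
  obtain ⟨v0, v1, v2, v3⟩ := hV0 m1 (N ^ 2 * L * L) (by omega) (by omega)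
  refine ⟨Γ.co _ (algebraMap ℤ[X] B v0 ^ N), fun e he hG => ?_⟩
  obtain ⟨K, _, _, htc, κ, emb, hemb, hbij⟩ :=
    hCUT B d Γ m ν U ρ H e hH0 (hU he) (by omega) hG.irr hG.deg hG.prim
  obtain ⟨A1, A2, A3⟩ := hA1 _ he
  have hcc : |(κ.c : ℝ)| = |Γ.lc (scl H e)| * (H : ℝ) ^ d := by
    rw [Cut.c, ← (hNRM B d Γ m).2.2.2.1 H e hH0.ne', abs_mul, abs_of_pos (pow_pos hH0 d)]
  have hc1 : |(κ.c : ℝ)| ≤ Ka * (H : ℝ) ^ d := by rw [hcc]; gcongr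
  have hLY : ∀ q : ℕ, q.Prime → ¬q ∣ N ^ 2 * L * L → Y < q := fun q hq h =>
    not_le.1 fun h' => h (Dvd.dvd.mul_left ((hLq q hq).2 h') _)
  obtain ⟨D, l, A0, Pr, hQ, hΔ, hN⟩ := hORD B d Γ m (Γ.el e) K κ m1 (N ^ 2 * L * L) v0
    (Ka ^ 2 * (H : ℝ) ^ d) ((H : ℝ) ^ K1) htc (by omega) hm1 hQ3 v1 v2 v3
    (one_le_mul_of_one_le_of_one_le (one_le_pow₀ hKa) (one_le_pow₀ (by linarith)))
    (fun w => by
      obtain ⟨j, rfl⟩ := hbij.2 w
      simp only [InfinitePlace.apply]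
      rw [Cut.θ1, map_mul, map_intCast, norm_mul, hemb, Complex.norm_intCast]
      calc _ ≤ Ka * (H : ℝ) ^ d * Ka := mul_le_mul hc1 (A1 j) (norm_nonneg _) (by positivity)
        _ = _ := by ring)
    (by
      rw [hK1]
      push_cast
      exact ZE.dbd d _ hKa (by linarith) (by linarith) (Nat.cast_nonneg L) hLH' (abs_nonneg _) hc1)
    (fun F hF hF' => g9 Y hY F hF hF' _ (filter_subset _ _) fun q hq =>
      hLY q (Nat.prime_of_mem_primeFactors (mem_filter.1 hq).1) (mem_filter.1 hq).2)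
  have hBs := hBAS K D hN.ok
  obtain ⟨r1, r2, r3⟩ := rem hMODP Γ m (Γ.el e) (Γ.el_mem e) hG.prim H (20 * K1) D.F P Xs c0 η hc0
    hW hmb (by linarith) hN.ok.Fpos (by rw [winT_pow, ← hΔ]; exact hN.ok.FΔ)
    (by
      rw [div_le_iff₀ (by positivity)] at g7 ⊢
      refine g7.trans ?_
      calc _ ≤ winT H * (c0 * η) := by gcongr; linarith
        _ = _ := by ring) hG.cf hG.mom
  obtain ⟨Bad, hBad, hT2⟩ := hT0 (winT H) (by linarith) K D κ.rank hN.ok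
    (by rw [Real.rpow_natCast, winT_pow, hΔ]) (Pt B) (Pt B)
    (Xs.filter fun x => x.On (Γ.el e) ∧ ¬x.p ∣ D.F) Pr Pt.p Xs (pwb Xs) (pa H) (mbar Xs)
    (Real.log (Real.log (winT H)) - Real.log (Real.log Y) + KG) (1 / Real.sqrt (winT H))
    ⟨fun x hx => ⟨hN.pt x (mem_filter.1 hx).2.1 (mem_filter.1 hx).2.2,
      (hW x).1 (mem_filter.1 hx).1⟩, hN.inj.mono fun x hx => (mem_filter.1 hx).2⟩
    hmb hlaw r1 r2
    (sgb hN (fun q hq h => hLY q hq fun h' => h (h'.trans (hQ ▸ hN.ok.QF))) hG.low) le_rfl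
  refine ⟨Bad, hBad, fun k b1 hk hdv h3k hb1 hb1β hηβ hgap H' hH' hcen => ?_⟩
  have hH5 : (H : ℝ) ^ 5 ≤ H' := by
    rw [← Real.log_le_log_iff (by positivity) hH', Real.log_pow]
    have a1 : ((20 * (5 * (m * d) + N * m1 * d) : ℕ) : ℝ) ≤ k := by exact_mod_cast (by omega)
    have a2 := mul_le_mul_of_nonneg_right (a1.trans (le_cen hlaw k)) (zero_le_one.trans g3)
    have a3 : (0 : ℝ) < m * d := by exact_mod_cast hn
    rw [← hcen, w3] at a2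
    push_cast at a2 ⊢
    refine le_of_mul_le_mul_left ?_ a3
    linarith
  obtain ⟨r0, ε2, R0, s1, s2, s3, s4, s5, s6, s7, s8⟩ := hC _ _ H H' D.Q w5 g1 w6 (by linarith) hH5
    (by rw [hQ]; exact_mod_cast (by omega))
    (by rw [hQ]; push_cast; rw [mul_assoc, ← sq]; gcongr)
  obtain ⟨a1, a2, a3, a4⟩ := hk3 k b1 η ε2 (by omega) (by omega) hb1 hb1β hη hηβ s2 s3
  obtain ⟨Mj, hMj, hmass, hT3⟩ := hT2 b1 (1 / Real.sqrt k) hb1 a1 a2 hgap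
  obtain ⟨κ0, hκ0, hT4⟩ := hT3 k (by omega) hdv h3k
  have hκ1 : 0 < κ0 := lt_of_lt_of_le (by positivity) hκ0
  have hek : Real.exp (-Real.sqrt P / 8) ≤ Real.exp (-Real.sqrt k / 8) := by
    have : Real.sqrt k ≤ Real.sqrt P := Real.sqrt_le_sqrt (by exact_mod_cast (by omega : k ≤ P))
    exact Real.exp_le_exp.2 (by linarith)
  have hHc : ‖(H' : ℂ)‖ = H' := by rw [Complex.norm_real, Real.norm_eq_abs, abs_of_pos hH']
  obtain ⟨sp, Z, hE⟩ := pack hBs hN v2.le emb hbij (N := N) (by omega) hL0 hQ (by omega) H Xs P k H'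
    (rcube o' s') (H' / Real.log H ^ A) (Real.exp (-Real.sqrt k / 8)) Mj
    (fun x hx => (mem_filter.1 (hMj hx)).2) κ0 hκ1
    (fun X => NT.terr K0 k b1 (1 / Real.sqrt k) (2 * η) ε2 * (k : ℝ) ^ X.card * ∏ x ∈ X, pmu Xs x)
    (1 / Real.sqrt (winT H)) ε2 Kb Kl r0 ηt R0
    (fun x => |Real.log x / Real.log (winT H) - cen H Xs k| ≤ 2 * η)
    (fun z g0 ρ0 X z1 z2 z3 z4 z5 z6 z7 z8 => hT4 A0 z g0 ρ0 ε2 X hN.cop z1 z2 z3 z4 z5 z6 z7 z8
      (by linarith [hex k]))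
    hH' hKb s1
    (fun w hw j => by
      obtain ⟨b1, b2⟩ := (hB _ he j).1 _ hw
      rw [Γ.ev_scl, norm_div, hHc] at b1 b2
      rw [div_le_div_iff₀ (by linarith) hH'] at b1
      rw [div_le_iff₀ hH'] at b2
      rw [hemb, div_le_iff₀ (by linarith)]
      exact ⟨by linarith, b2⟩)
    (fun v r hv j => by rw [hemb]; exact (hB _ he j).2 v r hv)
    (fun v hv r hr h => hLf H e hH0 he hG.irr v hv r hr fun j => by rw [← hemb]; exact h j)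
    (fun w hw h => by
      have b1 := (hNRM B d Γ (N * m1)).2.2.2.1 H' w hH'.ne'
      rw [h, Int.cast_zero] at b1
      exact mul_ne_zero (ρ'.lead _ (hU' hw)) (pow_pos hH' d).ne' b1)
    (fun y hy => by
      rw [hcc]
      refine (lognorm _ H' (2 * Kb) Ka _ H _ _ η (m * d) (N * m1) d ρ.card hH' (by linarith) hKa hH0
        (by linarith) hη hy A2 A3 (by rw [← hcen, Nat.cast_mul m d]) g6).trans (by linarith))
    s4 s5 s6 s7 s8 t0 (by linarith) (by rw [← hr]; linarith)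
    (fun X hX hX2 => by
      obtain ⟨b1, b2⟩ := hk2 H Xs P k X hlaw (by omega) (by omega)
        (hX.trans (hMj.trans (filter_subset _ _))) hX2
      have b3 : 0 ≤ ∏ x ∈ X, pmu Xs x := prod_nonneg fun x _ => by unfold pmu; positivity
      have b4 : (k.descFactorial X.card : ℝ) ≤ (k : ℝ) ^ X.card := by
        exact_mod_cast Nat.descFactorial_le_pow k X.card
      rw [← hr, mul_assoc (NT.terr _ _ _ _ _ _), mul_assoc (Real.exp _)]
      refine fin9 (by positivity) (by positivity) ?_ a3 a4 (hex k) (by linarith)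
      calc _ ≤ (k : ℝ) ^ X.card * (3 / 2) * ∏ x ∈ X, pmu Xs x := by gcongr
        _ = _ := by ring)
  refine ⟨Mj, κ0, sp, Z, fun x hx => mem_filter.2
    ⟨(mem_filter.1 (hMj hx)).1, (mem_filter.1 (hMj hx)).2.1⟩, ?_, le_trans ?_ hκ0, hE⟩
  · have b1' : b1 + η ≤ 1 := by linarith [(hβ k).2.2]
    have b2 : η ≤ Real.sqrt (b1 + η) := Real.le_sqrt_of_sq_le (by nlinarith)
    have b3 : Real.sqrt (b1 + 2 * η) ≤ 2 * Real.sqrt (b1 + η) := by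
      rw [Real.sqrt_le_iff, mul_pow, Real.sq_sqrt (by linarith)]
      exact ⟨by positivity, by linarith⟩
    have b4 := mul_le_mul_of_nonneg_left b3 hK0.le
    have b5 : ∑ x ∈ Xs.filter (fun x => x.On (Γ.el e) ∧ ¬x.p ∣ D.F) \ Mj, pmu Xs x ≤
      K0 * Real.sqrt (b1 + 2 * η) := hmass
    linarith [r3 Mj hMj]
  · rw [Real.exp_add, Real.exp_sub, Real.exp_log (by linarith), Real.exp_log hlY]
    calc _ ≤ 1 / (K0 ^ k * k.factorial * Real.exp KG) * Real.log Y / Real.log (winT H) := by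
          gcongr
      _ = _ := by field_simp

end Pool.Agent.Lib.BK2
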