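import Pool.Agent.Lib.BK2.ZETr
import Pool.Agent.Lib.BK2.ODefs
import Pool.Agent.Lib.BK2.NBlue
import Pool.Agent.Lib.BK2.Bas

/-! Block ZE: from counts in polydiscs of the number field to counts in cells. -/

open Polynomial Finset NumberField

noncomputable section

namespace Pool.Agent.Lib.BK2.ZE

theorem near {I : Type} [Fintype I] {a cl w : I → ℤ} {s Q R : ℕ} (hQ : 0 < Q) (hs : Q ≤ s)
    (hw : w ∈ zcell (fun i => a i - R) (s + 2 * R) Q cl) :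
    ∃ w1 ∈ zcell a s Q cl, ∀ i, |w i - w1 i| ≤ R + Q := by
  rw [mem_zcell] at hw
  have hQ' : (0 : ℤ) < Q := by exact_mod_cast hQ
  have hs' : (Q : ℤ) ≤ s := by exact_mod_cast hs
  have h : ∀ i, ∃ x : ℤ, (a i ≤ x ∧ x < a i + s) ∧ (Q : ℤ) ∣ x - w i ∧ |w i - x| ≤ R + Q := by
    intro i
    have h1 := hw.1 i
    push_cast at h1
    have key : ∀ b : ℤ, ∃ x : ℤ, b ≤ x ∧ x < b + Q ∧ (Q : ℤ) ∣ x - w i := fun b =>
      ⟨b + (w i - b) % Q, by linarith [Int.emod_nonneg (w i - b) hQ'.ne'],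
        by linarith [Int.emod_lt_of_pos (w i - b) hQ'],
        ⟨-((w i - b) / Q), by linear_combination Int.emod_add_mul_ediv (w i - b) Q⟩⟩
    by_cases c1 : w i < a i
    · obtain ⟨x, x1, x2, x3⟩ := key (a i)
      exact ⟨x, ⟨x1, by omega⟩, x3, abs_le.2 ⟨by omega, by omega⟩⟩
    by_cases c2 : a i + s ≤ w i
    · obtain ⟨x, x1, x2, x3⟩ := key (a i + s - Q)
      exact ⟨x, ⟨by omega, by omega⟩, x3, abs_le.2 ⟨by omega, by omega⟩⟩
    · exact ⟨w i, ⟨by omega, by omega⟩, by simp, by simp; positivity⟩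
  choose x x1 x2 x3 using h
  refine ⟨x, mem_zcell.2 ⟨x1, fun i => ?_⟩, x3⟩
  have := dvd_add (x2 i) (hw.2 i)
  rwa [sub_add_sub_cancel] at this

section field

variable {K : Type} [Field K] [NumberField K] {D : NT.ND K} {ι : Type}

theorem nI_pow (hB : NT.Bas D) (A : NT.FI K) (n : ℕ) : NT.nI (A ^ n) = NT.nI A ^ n := by
  induction n with
  | zero => simpa using hB.nI_one
  | succ n ih => rw [pow_succ, hB.nI_mul, ih, pow_succ]

theorem prod_le (hB : NT.Bas D) {Z : Finset ι} {Pr : ι → NT.FI K} {p : ι → ℕ}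
    (h : ∀ x ∈ Z, NT.IsPt D.F (Pr x) (p x)) : (∏ x ∈ Z, Pr x).1 ≤ 1 ∧
      ∀ x ∈ Z, (∏ x ∈ Z, Pr x).1 ≤ (Pr x).1 := by
  classical
  induction Z using Finset.induction_on with
  | empty => simp
  | insert y Z hy ih =>
    obtain ⟨h1, h2⟩ := ih fun x hx => h x (mem_insert_of_mem hx)
    have hy1 : (Pr y).1 ≤ 1 := (hB.pt _ _ (h y (mem_insert_self _ _))).2.1
    rw [prod_insert hy, Units.val_mul]
    have e1 : (Pr y).1 * (∏ x ∈ Z, Pr x).1 ≤ (Pr y).1 := by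
      calc (Pr y).1 * (∏ x ∈ Z, Pr x).1 ≤ (Pr y).1 * 1 := by gcongr
        _ = _ := mul_one _
    have e2 : (Pr y).1 * (∏ x ∈ Z, Pr x).1 ≤ (∏ x ∈ Z, Pr x).1 := by
      calc (Pr y).1 * (∏ x ∈ Z, Pr x).1 ≤ 1 * (∏ x ∈ Z, Pr x).1 := by gcongr
        _ = _ := one_mul _
    refine ⟨e1.trans hy1, fun x hx => ?_⟩
    rcases mem_insert.1 hx with rfl | hx
    · exact e1
    · exact e2.trans (h2 x hx)

theorem uniq (hB : NT.Bas D) {M : Finset ι} {Pr : ι → NT.FI K} {p : ι → ℕ}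
    (h : ∀ x ∈ M, NT.IsPt D.F (Pr x) (p x)) (hi : Set.InjOn Pr (M : Set ι)) {A : NT.FI K} {g : K}
    {Z Z' : Finset ι} (hZ : Z ⊆ M) (hZ' : Z' ⊆ M) (h1 : NT.IsDiv g (A * ∏ x ∈ Z, Pr x))
    (h2 : NT.IsDiv g (A * ∏ x ∈ Z', Pr x)) : Z ⊆ Z' := by
  have e : ∏ x ∈ Z, Pr x = ∏ x ∈ Z', Pr x :=
    mul_left_cancel (Units.ext (h1.trans h2.symm) : A * _ = A * _)
  intro x hx
  obtain ⟨y, hy, hxy⟩ := hB.pt_le ι Z' Pr p (Pr x) (p x) (fun y hy => h y (hZ' hy)) (h x (hZ hx))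
    (e ▸ (prod_le hB fun y hy => h y (hZ hy)).2 x hx)
  rwa [← hi (hZ' hy) (hZ hx) hxy]

open Classical in
/-- the points in the divisor of a split element -/
def Zg (D : NT.ND K) (A : NT.FI K) (M : Finset ι) (Pr : ι → NT.FI K) (p : ι → ℕ) (k : ℕ)
    (g : K) : Finset ι :=
  if h : NT.Spl D A M Pr p k ∅ g then h.2.choose else ∅

theorem Zg_spec {A : NT.FI K} {M : Finset ι} {Pr : ι → NT.FI K} {p : ι → ℕ} {k : ℕ} {g : K}
    (h : NT.Spl D A M Pr p k ∅ g) : Zg D A M Pr p k g ⊆ M ∧ (Zg D A M Pr p k g).card = k ∧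
      Set.InjOn p (Zg D A M Pr p k g : Set ι) ∧ NT.IsDiv g (A * ∏ x ∈ Zg D A M Pr p k g, Pr x) := by
  rw [Zg, dif_pos h]
  obtain ⟨h1, h2, h3, -, h5⟩ := h.2.choose_spec
  exact ⟨h1, h2, h3, h5⟩

theorem spl_iff (hB : NT.Bas D) {A : NT.FI K} {M : Finset ι} {Pr : ι → NT.FI K} {p : ι → ℕ}
    (h : ∀ x ∈ M, NT.IsPt D.F (Pr x) (p x)) (hi : Set.InjOn Pr (M : Set ι)) (k : ℕ)
    (X : Finset ι) (g : K) :
    (NT.Spl D A M Pr p k ∅ g ∧ X ⊆ Zg D A M Pr p k g) ↔ NT.Spl D A M Pr p k X g := by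
  constructor
  · rintro ⟨h1, h2⟩
    obtain ⟨a1, a2, a3, a4⟩ := Zg_spec h1
    exact ⟨h1.1, _, a1, a2, a3, h2, a4⟩
  · rintro ⟨h1, Z, a1, a2, a3, a4, a5⟩
    have h0 : NT.Spl D A M Pr p k ∅ g := ⟨h1, Z, a1, a2, a3, empty_subset _, a5⟩
    obtain ⟨b1, -, -, b4⟩ := Zg_spec h0
    exact ⟨h0, a4.trans (uniq hB h hi a1 b1 a5 b4)⟩

theorem Nv_emb {ν : ℕ} (emb : Fin ν → (K →+* ℂ))
    (hb : Function.Bijective fun s => InfinitePlace.mk (emb s)) (g : K) :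
    NT.Nv (NT.emb g) = ∏ s, ‖emb s g‖ ^ 2 := by
  unfold NT.Nv NT.emb
  refine (Fintype.prod_bijective _ hb _ _ fun s => ?_).symm
  rw [InfinitePlace.norm_embedding_eq, InfinitePlace.apply]

theorem mem_Bl {ν : ℕ} (emb : Fin ν → (K →+* ℂ))
    (hb : Function.Bijective fun s => InfinitePlace.mk (emb s)) (A : NT.FI K) {y l : K}
    (hy : y ≠ 0) (hl : l ≠ 0) (r : ℝ) (g : K) :
    g ∈ D.Bl A D.Q (y / l) (NT.emb (y / l)) (fun w => r / w y) ↔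
      ∃ b, (b ∈ D.L A ∧ ∀ j, ‖emb j (D.Q * b * l)‖ < r) ∧ g = y / l + D.Q * b := by
  have key : ∀ (b : K) (w : InfinitePlace K),
      ‖NT.emb (y / l + D.Q * b) w - NT.emb (y / l) w‖ < r / w y * ‖NT.emb (y / l) w‖ ↔
        w (D.Q * b * l) < r := by
    intro b w
    have h1 : 0 < w y := InfinitePlace.pos_iff.2 hy
    have h2 : 0 < w l := InfinitePlace.pos_iff.2 hl
    unfold NT.emb
    rw [← map_sub, add_sub_cancel_left, InfinitePlace.norm_embedding_eq,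
      InfinitePlace.norm_embedding_eq, map_div₀, map_mul w (D.Q * b) l,
      show r / w y * (w y / w l) = r / w l by field_simp, lt_div_iff₀ h2]
  constructor
  · rintro ⟨⟨b, hb1, rfl⟩, h2⟩
    refine ⟨b, ⟨hb1, fun j => ?_⟩, rfl⟩
    have := (key b (InfinitePlace.mk (emb j))).1 (h2 _)
    rwa [InfinitePlace.apply] at this
  · rintro ⟨b, ⟨h1, h2⟩, rfl⟩
    refine ⟨⟨b, h1, rfl⟩, fun w => (key b w).2 ?_⟩
    obtain ⟨j, rfl⟩ := hb.2 w
    have := h2 j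
    rwa [← InfinitePlace.apply] at this

end field

end Pool.Agent.Lib.BK2.ZE
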