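import Pool.Agent.Lib.BK2.ZEDefs
import Pool.Agent.Lib.BK2.Blue1
import Pool.Agent.Lib.BK2.Bas

/-! Small values on a section have small lifts. -/

open Polynomial Finset

noncomputable section

namespace Pool.Agent.Lib.BK2

namespace ZLIFT

theorem compact {I : Type} (o : I → ℝ) (s : ℝ) : IsCompact (rcube o s) := by
  have : rcube o s = Set.Icc o fun i => o i + s := by
    ext v
    simp only [rcube, Set.mem_ofPred_eq, Set.mem_Icc, Pi.le_def, forall_and]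
  rw [this]; exact isCompact_Icc

variable {B : Type} [CommRing B] [Algebra ℤ[X] B] {d : ℕ} [NeZero d] {Γ : Geo B d}
  {m ν : ℕ} {U : Set (Γ.Ix m → ℝ)} (ρ : Γ.Roots m ν U)

theorem vdm {e : Γ.Ix m → ℝ} (he : e ∈ U) (x : Fin (m * d) → ℝ)
    (h : ∀ j, ∑ i, (x i : ℂ) * ρ.φ e j Γ.t ^ (i : ℕ) = 0) : x = 0 := by
  have hc : Fintype.card (Fin (m * d)) = Fintype.card (Fin ν ⊕ Fin ν) := by
    have := ρ.card
    simp only [Fintype.card_fin, Fintype.card_sum]; omega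
  let q := Fintype.equivOfCardEq hc
  let τ : Fin ν ⊕ Fin ν → ℂ :=
    Sum.elim (fun j => ρ.φ e j Γ.t) fun j => starRingEnd ℂ (ρ.φ e j Γ.t)
  have hτ : Function.Injective τ := by
    rintro (a | a) (b | b) hab
    · exact congrArg _ (ρ.inj e he a b hab)
    · exact absurd hab (ρ.nre e he a b)
    · exact absurd hab.symm (ρ.nre e he b a)
    · exact congrArg _ (ρ.inj e he a b ((starRingEnd ℂ).injective hab))
  have h0 := Matrix.eq_zero_of_forall_index_sum_mul_pow_eq_zero (f := fun k => τ (q k))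
    (v := fun i => (x i : ℂ)) (hτ.comp q.injective) fun k => by
      rcases q k with a | a
      · exact h a
      · have := congrArg (starRingEnd ℂ) (h a)
        simpa [τ, map_sum] using this
  funext i
  exact Complex.ofReal_eq_zero.1 (congrFun h0 i)

theorem coef (o : Γ.Ix m → ℝ) (s : ℝ) (hU : rcube o s ⊆ U) :
    ∃ c : ℝ, 0 < c ∧ ∀ e ∈ rcube o s, ∀ x : Fin (m * d) → ℝ,
      c * ‖x‖ ≤ ∑ j, ‖∑ i, (x i : ℂ) * ρ.φ e j Γ.t ^ (i : ℕ)‖ := by
  have hK := (compact o s).prod (isCompact_sphere (0 : Fin (m * d) → ℝ) 1)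
  have hc : ContinuousOn (fun z : (Γ.Ix m → ℝ) × (Fin (m * d) → ℝ) =>
      ∑ j, ‖∑ i, (z.2 i : ℂ) * ρ.φ z.1 j Γ.t ^ (i : ℕ)‖) (rcube o s ×ˢ Metric.sphere 0 1) := by
    refine continuousOn_finsetSum _ fun j _ => ContinuousOn.norm
      (continuousOn_finsetSum _ fun i _ => ContinuousOn.mul (by fun_prop) (ContinuousOn.pow ?_ _))
    exact (ρ.smooth j Γ.t).continuousOn.comp continuousOn_fst fun z hz => hU hz.1
  obtain ⟨c, c0, h⟩ := hK.exists_forall_le' hc (a := 0) fun z hz => by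
    refine (sum_nonneg fun j _ => norm_nonneg _).lt_of_ne' fun h0 => ?_
    rw [sum_eq_zero_iff_of_nonneg fun j _ => norm_nonneg _] at h0
    have h1 := vdm ρ (hU hz.1) z.2 fun j => norm_eq_zero.1 (h0 j (mem_univ _))
    have h2 := hz.2
    rw [h1] at h2
    simp at h2
  refine ⟨c, c0, fun e he x => ?_⟩
  rcases eq_or_ne x 0 with rfl | hx
  · simp
  have hn : 0 < ‖x‖ := norm_pos_iff.2 hx
  have h1 := h (e, ‖x‖⁻¹ • x) ⟨he, by simp [norm_smul, hn.ne']⟩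
  have h2 : ∀ j, ‖∑ i, (((‖x‖⁻¹ • x) i : ℝ) : ℂ) * ρ.φ e j Γ.t ^ (i : ℕ)‖ =
      ‖x‖⁻¹ * ‖∑ i, (x i : ℂ) * ρ.φ e j Γ.t ^ (i : ℕ)‖ := fun j => by
    have : ∑ i, (((‖x‖⁻¹ • x) i : ℝ) : ℂ) * ρ.φ e j Γ.t ^ (i : ℕ) =
        ((‖x‖⁻¹ : ℝ) : ℂ) * ∑ i, (x i : ℂ) * ρ.φ e j Γ.t ^ (i : ℕ) := by
      rw [mul_sum]
      refine sum_congr rfl fun i _ => ?_
      simp only [Pi.smul_apply, smul_eq_mul]; push_cast; ring
    rw [this, norm_mul, Complex.norm_real, Real.norm_of_nonneg (inv_nonneg.2 hn.le)]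
  simp only [h2] at h1
  rw [← mul_sum, ← div_eq_inv_mul, le_div_iff₀ hn] at h1
  exact h1

end ZLIFT

open ZLIFT in
theorem stZLIFT (hN : St_NRM) (hG : St_G2) : St_ZLIFT := by
  intro B _ _ _ d _ Γ m ν U ρ o s hU m' hm'
  obtain ⟨c0, hc0, hco⟩ := coef ρ o s hU
  set Kγ : ℝ := ∑ k : Γ.Ix m', ∑ i : Γ.Ix m, ∑ j : Γ.Ix (m' - m),
    (|o i| + |s|) * |(Γ.co m' (Γ.mon i * Γ.mon j) k : ℝ)| with hKγ
  have hKγ0 : 0 ≤ Kγ := by positivity
  refine ⟨1 + ν / c0 + Kγ, by have : 0 ≤ ν / c0 := by positivity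
                              linarith, ?_⟩
  intro H e hH he hirr v hv r hr hvr
  have hmm : m ≤ m' := le_trans (Nat.le_mul_of_pos_right m (Nat.pos_of_ne_zero (NeZero.ne d))) hm'
  have hsum : m + (m' - m) = m' := by omega
  have hfV := Γ.el_mem e
  have hc : (Γ.nrm (Γ.el e)).coeff (m * d) ≠ 0 := fun h => by
    have h1 := (hN B d Γ m).2.2.2.1 H e hH.ne'
    rw [h, Int.cast_zero, mul_eq_zero] at h1
    exact h1.elim (ρ.lead _ (hU he)) (pow_pos hH d).ne'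
  obtain ⟨G1, -, -, -, G5⟩ := hG B d Γ m _ hfV hc
  obtain ⟨g, sB, c, hc1, hg, h3⟩ := G5 hirr v
  have hgV : algebraMap ℤ[X] B g ∈ Γ.V m' := Γ.algebraMap_mem (by omega)
  have hsV : sB ∈ Γ.V (m' - m) := G1 _ _ (by
    rw [hsum, show Γ.el e * sB = (c : B) * v - algebraMap ℤ[X] B g by rw [h3]; ring]
    exact Geo.V_sub (Geo.V_intCast_mul c hv) hgV)
  set t : Γ.Ix (m' - m) → ℤ := fun j => Γ.co (m' - m) sB j / c with ht
  refine ⟨Γ.co m' v - Γ.mulv m' e t, ⟨-Γ.el t, ?_⟩, fun k => ?_⟩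
  · rw [Γ.el_sub, Γ.el_co hv, Γ.el_mulv hsum.le]; ring
  have hcR : (0 : ℝ) < |(c : ℝ)| := abs_pos.2 (by exact_mod_cast hc1)
  have e1 : c * (Γ.co m' v - Γ.mulv m' e t) k = Γ.co m' (algebraMap ℤ[X] B g) k +
      Γ.mulv m' e (fun j => Γ.co (m' - m) sB j % c) k := by
    have h4 : c • Γ.co m' v = Γ.co m' (algebraMap ℤ[X] B g) + Γ.mulv m' e (Γ.co (m' - m) sB) := by
      rw [← Γ.co_smul, zsmul_eq_mul, h3, Γ.co_add, Γ.mulv_eq_co, Γ.el_co hsV]
    have h5 : Γ.co (m' - m) sB = (fun j => Γ.co (m' - m) sB j % c) + c • t := by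
      funext j
      simp only [ht, Pi.add_apply, Pi.smul_apply, smul_eq_mul]
      exact (Int.emod_add_mul_ediv _ _).symm
    have h6 := congrFun h4 k
    rw [h5, Γ.mulv_add_right, Γ.mulv_smul_right] at h6
    simp only [Pi.add_apply, Pi.smul_apply, smul_eq_mul, Pi.sub_apply] at h6 ⊢
    linear_combination h6
  -- the polynomial part
  have b1 : |(Γ.co m' (algebraMap ℤ[X] B g) k : ℝ)| ≤ |(c : ℝ)| * (ν / c0 * r) := by
    let x : Fin (m * d) → ℝ := fun i => g.coeff i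
    have h4 := hco _ he x
    have h5 : ∀ j, ‖∑ i, (x i : ℂ) * ρ.φ (scl H e) j Γ.t ^ (i : ℕ)‖ ≤ |(c : ℝ)| * r := fun j => by
      have hz : ρ.φ (scl H e) j (Γ.el e) = 0 := by
        have := ρ.zero _ (hU he) j
        rw [Geo.ev_scl, div_eq_zero_iff] at this
        exact this.resolve_right (by exact_mod_cast hH.ne')
      have h6 := congrArg (ρ.φ (scl H e) j) h3
      rw [map_mul, map_add, map_mul, hz, zero_mul, add_zero, map_intCast, Γ.algebraMap_eq] at h6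
      have h7 : ρ.φ (scl H e) j (aeval Γ.t g) = aeval (ρ.φ (scl H e) j Γ.t) g :=
        (aeval_algHom_apply (ρ.φ (scl H e) j).toIntAlgHom Γ.t g).symm
      rw [h7, aeval_eq_sum_range' hg, sum_range] at h6
      have h8 : ∑ i, (x i : ℂ) * ρ.φ (scl H e) j Γ.t ^ (i : ℕ) = c * ρ.φ (scl H e) j v := by
        rw [h6]
        refine sum_congr rfl fun i _ => ?_
        simp [x]
      rw [h8, norm_mul, Complex.norm_intCast]
      exact mul_le_mul_of_nonneg_left (hvr j) (abs_nonneg _)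
    have h6 : c0 * ‖x‖ ≤ ν * (|(c : ℝ)| * r) := by
      refine h4.trans ((sum_le_sum fun j _ => h5 j).trans ?_)
      simp
    have h7 : ‖x‖ ≤ |(c : ℝ)| * (ν / c0 * r) := by
      rw [show |(c : ℝ)| * (ν / c0 * r) = ν * (|(c : ℝ)| * r) / c0 by ring, le_div_iff₀ hc0]
      linarith
    refine le_trans ?_ h7
    rw [Geo.co, Γ.repr_algebraMap]
    split_ifs
    · by_cases hk : (k.2 : ℕ) < m * d
      · exact norm_le_pi_norm x ⟨_, hk⟩
      · rw [coeff_eq_zero_of_natDegree_lt (by omega)]; simp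
    · simp
  have b2 : |((Γ.mulv m' e (fun j => Γ.co (m' - m) sB j % c) k : ℤ) : ℝ)| ≤
      |(c : ℝ)| * (Kγ * H) := by
    have h4 : ∑ i : Γ.Ix m, ∑ j : Γ.Ix (m' - m),
        (|o i| + |s|) * |(Γ.co m' (Γ.mon i * Γ.mon j) k : ℝ)| ≤ Kγ :=
      single_le_sum (f := fun k : Γ.Ix m' => ∑ i : Γ.Ix m, ∑ j : Γ.Ix (m' - m),
        (|o i| + |s|) * |(Γ.co m' (Γ.mon i * Γ.mon j) k : ℝ)|) (fun _ _ => by positivity) (mem_univ k)
    refine le_trans ?_ (mul_le_mul_of_nonneg_left (mul_le_mul_of_nonneg_right h4 hH.le) hcR.le)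
    simp only [Geo.mulv, sum_mul, mul_sum]
    push_cast
    refine (abs_sum_le_sum_abs _ _).trans (sum_le_sum fun i _ =>
      (abs_sum_le_sum_abs _ _).trans (sum_le_sum fun j _ => ?_))
    have h5 : |(e i : ℝ)| ≤ (|o i| + |s|) * H := by
      have h6 := he i
      simp only [scl] at h6
      rw [← div_le_iff₀ hH, ← abs_of_pos hH, ← abs_div, abs_le]
      constructor <;> linarith [h6.1, h6.2, le_abs_self (o i), neg_abs_le (o i), le_abs_self s,
        abs_nonneg s]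
    have h6 : |((Γ.co (m' - m) sB j % c : ℤ) : ℝ)| ≤ |(c : ℝ)| := by
      have h7 : |Γ.co (m' - m) sB j % c| ≤ |c| := by
        rw [abs_of_nonneg (Int.emod_nonneg _ hc1)]; exact (Int.emod_lt_abs _ hc1).le
      exact_mod_cast h7
    rw [abs_mul, abs_mul]
    calc _ ≤ (|o i| + |s|) * H * |(c : ℝ)| * |(Γ.co m' (Γ.mon i * Γ.mon j) k : ℝ)| := by gcongr
      _ = _ := by ring
  have e2 : |(c : ℝ)| * |(((Γ.co m' v - Γ.mulv m' e t) k : ℤ) : ℝ)| ≤
      |(c : ℝ)| * (ν / c0 * r + Kγ * H) := by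
    rw [← abs_mul, ← Int.cast_mul, e1, Int.cast_add, mul_add]
    exact (abs_add_le _ _).trans (add_le_add b1 b2)
  refine (le_of_mul_le_mul_left e2 hcR).trans ?_
  have : 0 ≤ ν / c0 := by positivity
  nlinarith [mul_nonneg this hH.le, mul_nonneg hKγ0 hr]

end Pool.Agent.Lib.BK2
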