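import Pool.Agent.Lib.BK2.ZE
import Pool.Agent.Lib.BK2.OFin
import Pool.Agent.Lib.BK2.NBAS
import Pool.Agent.Lib.BK2.NRM
import Pool.Agent.Lib.BK2.G2
import Pool.Agent.Lib.BK2.MODP
import Pool.Agent.Lib.BK2.MOD
import Pool.Agent.Lib.BK2.ZARC
import Pool.Agent.Lib.BK2.ZLIFT

/-! Block ZE with all inputs but the local limit theorem of section N. -/

namespace Pool.Agent.Lib.BK2

theorem stZE1 (h : NT.St_TUP) : St_ZE :=
  stZE finCUT stV0 finORDN h NT.stBAS stNRM (stMODP stNRM) stMOD (stZARC stNRM)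
    (stZLIFT stNRM (stG2 stNRM))

end Pool.Agent.Lib.BK2
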