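import Mathlib

/-! Monic integer polynomials that are irreducible modulo prescribed primes. -/

open Polynomial

namespace Pool.Agent.Lib.BK2.ZE

theorem irr_fin (p n : ℕ) (hp : p.Prime) (hn : 0 < n) :
    ∃ g : ℤ[X], g.Monic ∧ g.natDegree = n ∧ Irreducible (g.map (Int.castRingHom (ZMod p))) := by
  have : Fact p.Prime := ⟨hp⟩
  obtain ⟨α, hα⟩ := Field.exists_primitive_element (ZMod p) (GaloisField p n)
  have hi : IsIntegral (ZMod p) α := Algebra.IsIntegral.isIntegral α
  have hd : (minpoly (ZMod p) α).natDegree = n := by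
    rw [← IntermediateField.adjoin.finrank hi, hα, IntermediateField.finrank_top',
      GaloisField.finrank p hn.ne']
  have hl : minpoly (ZMod p) α ∈ Polynomial.lifts (Int.castRingHom (ZMod p)) := by
    rw [Polynomial.lifts_iff_coeff_lifts]
    intro k
    exact (ZMod.ringHom_surjective _) _
  obtain ⟨g, hg, hdg, hm⟩ := Polynomial.lifts_and_natDegree_eq_and_monic hl (minpoly.monic hi)
  exact ⟨g, hm, hdg.trans hd, hg ▸ minpoly.irreducible hi⟩

theorem map_eq_of_dvd {q : ℕ} {u v : ℤ[X]} (h : (C (q : ℤ) : ℤ[X]) ∣ u - v) :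
    u.map (Int.castRingHom (ZMod q)) = v.map (Int.castRingHom (ZMod q)) := by
  obtain ⟨c, hc⟩ := h
  have : u = v + C (q : ℤ) * c := by rw [← hc]; ring
  rw [this, Polynomial.map_add, Polynomial.map_mul, map_C]
  simp

/-- A monic polynomial congruent to `v` modulo `Q` and irreducible modulo all primes of `S`. -/
theorem exists_ell {n : ℕ} (hn : 0 < n) (S : Finset ℕ) (hS : ∀ p ∈ S, p.Prime) (Q : ℕ)
    (v : ℤ[X]) (hm : v.Monic) (hd : v.natDegree = n)
    (hv : ∀ q : ℕ, q.Prime → q ∣ Q → Irreducible (v.map (Int.castRingHom (ZMod q)))) :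
    ∃ l : ℤ[X], l.Monic ∧ l.natDegree = n ∧ (C (Q : ℤ) : ℤ[X]) ∣ l - v ∧
      ∀ p : ℕ, p.Prime → (p ∣ Q ∨ p ∈ S) → Irreducible (l.map (Int.castRingHom (ZMod p))) := by
  classical
  induction S using Finset.induction_on generalizing Q v with
  | empty => exact ⟨v, hm, hd, by simp, fun p hp h => hv p hp (by simpa using h)⟩
  | insert p S hpS ih =>
    have hp : p.Prime := hS p (Finset.mem_insert_self _ _)
    have hS' : ∀ q ∈ S, q.Prime := fun q hq => hS q (Finset.mem_insert_of_mem hq)
    by_cases hpQ : p ∣ Q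
    · obtain ⟨l, h1, h2, h3, h4⟩ := ih hS' Q v hm hd hv
      refine ⟨l, h1, h2, h3, fun q hq h => h4 q hq ?_⟩
      rcases h with h | h
      · exact Or.inl h
      · rcases Finset.mem_insert.1 h with rfl | h
        · exact Or.inl hpQ
        · exact Or.inr h
    · obtain ⟨g, g1, g2, g3⟩ := irr_fin p n hp hn
      have hco : IsCoprime (Q : ℤ) (p : ℤ) :=
        Nat.isCoprime_iff_coprime.2 ((Nat.Prime.coprime_iff_not_dvd hp).2 hpQ).symm
      obtain ⟨a, b, hab⟩ := hco
      have hC : (C a : ℤ[X]) * C (Q : ℤ) + C b * C (p : ℤ) = 1 := by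
        rw [← C_mul, ← C_mul, ← C_add, hab, C_1]
      set v' : ℤ[X] := v + C (a * Q) * (g - v) with hv'
      have hlt : (C (a * Q) * (g - v)).degree < v.degree := by
        refine lt_of_le_of_lt (degree_mul_le _ _) ?_
        have h1 : (g - v).degree < v.degree := by
          have hdg : g.degree = v.degree := by
            rw [degree_eq_natDegree g1.ne_zero, degree_eq_natDegree hm.ne_zero, g2, hd]
          rw [← hdg]
          exact degree_sub_lt_left hdg g1.ne_zero (by rw [g1.leadingCoeff, hm.leadingCoeff])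
        calc (C (a * Q) : ℤ[X]).degree + (g - v).degree ≤ 0 + (g - v).degree := by
              gcongr; exact degree_C_le
          _ < v.degree := by rwa [zero_add]
      have hm' : v'.Monic := hm.add_of_left hlt
      have hd' : v'.natDegree = n := by
        rw [← hd]; exact natDegree_add_eq_left_of_degree_lt hlt
      have hQ : (C (Q : ℤ) : ℤ[X]) ∣ v' - v := ⟨C a * (g - v), by rw [hv', C_mul]; ring⟩
      have hP : (C (p : ℤ) : ℤ[X]) ∣ v' - g :=
        ⟨C b * (v - g), by rw [hv', C_mul]; linear_combination (g - v) * hC⟩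
      have hv2 : ∀ q : ℕ, q.Prime → q ∣ Q * p →
          Irreducible (v'.map (Int.castRingHom (ZMod q))) := by
        intro q hq h
        rcases (Nat.Prime.dvd_mul hq).1 h with h | h
        · rw [map_eq_of_dvd (Dvd.dvd.trans (map_dvd C (Int.natCast_dvd_natCast.2 h)) hQ)]
          exact hv q hq h
        · obtain rfl := (Nat.prime_dvd_prime_iff_eq hq hp).1 h
          rw [map_eq_of_dvd hP]; exact g3
      obtain ⟨l, h1, h2, h3, h4⟩ := ih hS' (Q * p) v' hm' hd' hv2
      refine ⟨l, h1, h2, ?_, fun q hq h => h4 q hq ?_⟩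
      · have : l - v = (l - v') + (v' - v) := by ring
        rw [this]
        exact dvd_add (Dvd.dvd.trans (map_dvd C (Int.natCast_dvd_natCast.2 (Dvd.intro _ rfl))) h3) hQ
      · rcases h with h | h
        · exact Or.inl (h.mul_right _)
        · rcases Finset.mem_insert.1 h with rfl | h
          · exact Or.inl (Dvd.intro_left _ rfl)
          · exact Or.inr h

/-- A monic polynomial of degree `n` that is irreducible modulo every prime factor of `L`. -/
theorem exists_v0 {n : ℕ} (hn : 0 < n) {L : ℕ} (hL : L ≠ 0) :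
    ∃ v : ℤ[X], v.Monic ∧ v.natDegree = n ∧
      ∀ p : ℕ, p.Prime → p ∣ L → Irreducible (v.map (Int.castRingHom (ZMod p))) := by
  obtain ⟨l, h1, h2, -, h4⟩ := exists_ell hn L.primeFactors (fun p hp => Nat.prime_of_mem_primeFactors hp)
    1 (X ^ n) (monic_X_pow n) (natDegree_X_pow n)
    (fun q hq h => absurd (Nat.dvd_one.1 h) hq.one_lt.ne')
  exact ⟨l, h1, h2, fun p hp h => h4 p hp (Or.inr (Nat.mem_primeFactors.2 ⟨hp, h, hL⟩))⟩

/-- The same for the prime factors of `F`, in the class of `v` modulo `Q`. -/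
theorem exists_lift {n : ℕ} (hn : 0 < n) {F : ℕ} (hF : F ≠ 0) (Q : ℕ) (v : ℤ[X]) (hm : v.Monic)
    (hd : v.natDegree = n)
    (hv : ∀ q : ℕ, q.Prime → q ∣ Q → Irreducible (v.map (Int.castRingHom (ZMod q)))) :
    ∃ l : ℤ[X], l.Monic ∧ l.natDegree = n ∧ (C (Q : ℤ) : ℤ[X]) ∣ l - v ∧
      ∀ p : ℕ, p.Prime → p ∣ F → Irreducible (l.map (Int.castRingHom (ZMod p))) := by
  obtain ⟨l, h1, h2, h3, h4⟩ := exists_ell hn F.primeFactors
    (fun p hp => Nat.prime_of_mem_primeFactors hp) Q v hm hd hv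
  exact ⟨l, h1, h2, h3, fun p hp h => h4 p hp (Or.inr (Nat.mem_primeFactors.2 ⟨hp, h, hF⟩))⟩

end Pool.Agent.Lib.BK2.ZE
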