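import Pool.Agent.Lib.BK2.ZECore

/-! Block ZE: the package for one curve, with all sizes as hypotheses. -/

open Polynomial Finset NumberField

noncomputable section

namespace Pool.Agent.Lib.BK2.ZE

theorem zcell_ne {I : Type} [Fintype I] (a cl : I → ℤ) {s Q : ℕ} (hQ : 0 < Q) (hs : Q ≤ s) :
    (zcell a s Q cl).Nonempty := by
  have hQ' : (0 : ℤ) < Q := by exact_mod_cast hQ
  have hs' : (Q : ℤ) ≤ s := by exact_mod_cast hs
  refine ⟨fun i => a i + (cl i - a i) % Q, mem_zcell.2 ⟨fun i => ⟨?_, ?_⟩, fun i => ?_⟩⟩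
  · linarith [Int.emod_nonneg (cl i - a i) hQ'.ne']
  · linarith [Int.emod_lt_of_pos (cl i - a i) hQ']
  · exact ⟨-((cl i - a i) / Q), by linear_combination Int.emod_add_mul_ediv (cl i - a i) Q⟩

theorem ncard_eq {α β γ : Type} [DecidableEq γ] (D : Set α) (hD : D.Finite) (f : α → β) (g : α → γ)
    (hf : Function.Injective f) (hg : Set.InjOn g D) (S : Set β) (hS : ∀ y, y ∈ S ↔ ∃ b ∈ D, y = f b)
    (p : β → Prop) (q : γ → Prop) [DecidablePred q] (h : ∀ b ∈ D, p (f b) ↔ q (g b)) :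
    {y | y ∈ S ∧ p y}.ncard = ((hD.toFinset.image g).filter q).card := by
  have e1 : {y | y ∈ S ∧ p y} = f '' {b | b ∈ D ∧ p (f b)} := by
    ext y
    simp only [Set.mem_ofPred_eq, Set.mem_image, hS]
    constructor
    · rintro ⟨⟨b, h1, rfl⟩, h2⟩
      exact ⟨b, ⟨h1, h2⟩, rfl⟩
    · rintro ⟨b, ⟨h1, h2⟩, rfl⟩
      exact ⟨⟨b, h1, rfl⟩, h2⟩
  have e2 : (((hD.toFinset.image g).filter q : Finset γ) : Set γ) = g '' {b | b ∈ D ∧ p (f b)} := by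
    ext y
    simp only [coe_filter, mem_image, Set.Finite.mem_toFinset, Set.mem_ofPred_eq, Set.mem_image]
    constructor
    · rintro ⟨⟨b, h1, rfl⟩, h2⟩
      exact ⟨b, ⟨h1, (h b h1).2 h2⟩, rfl⟩
    · rintro ⟨b, ⟨h1, h2⟩, rfl⟩
      exact ⟨⟨b, h1, rfl⟩, (h b h1).1 h2⟩
  rw [e1, Set.ncard_image_of_injective _ hf, ← Set.ncard_coe_finset, e2,
    Set.InjOn.ncard_image (hg.mono fun b hb => hb.1)]

theorem fc {α : Type} (s : Finset α) (p : α → Prop) (i : DecidablePred p) :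
    (@filter α p i s).card = (@filter α p (fun _ => Classical.propDecidable _) s).card := by
  rw [Subsingleton.elim i]

variable {B : Type} [CommRing B] [Algebra ℤ[X] B] {d : ℕ} [NeZero d] {Γ : Geo B d} {m m1 : ℕ}
  {e : Γ.Ix m → ℤ} {K : Type} [Field K] [NumberField K] {κ : Cut Γ m (Γ.el e) K} {v0 : ℤ[X]}
  {D : NT.ND K} {l : K} {A0 : NT.FI K} {Pr : Pt B → NT.FI K}

theorem ratio (hB : NT.Bas D) (hN : NPack κ m1 v0 D l A0 Pr) {ν : ℕ} (emb : Fin ν → (K →+* ℂ))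
    (hb : Function.Bijective fun s => InfinitePlace.mk (emb s)) (N : ℕ) (y : K) :
    NT.Nv (NT.emb (y / l ^ N)) / NT.nI (A0 ^ N) =
      (∏ j, ‖emb j y‖ ^ 2) * |(κ.c : ℝ)| ^ (N * m1) := by
  have h1 := hN.nrm
  have h2 : 0 < NT.nI A0 := hB.nI_pos A0
  rw [Nv_emb emb hb] at h1
  rw [Nv_emb emb hb, nI_pow hB]
  have h3 : ∏ s, ‖emb s (y / l ^ N)‖ ^ 2 = (∏ j, ‖emb j y‖ ^ 2) / (∏ s, ‖emb s l‖ ^ 2) ^ N := by
    rw [← prod_pow, ← prod_div_distrib]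
    refine prod_congr rfl fun s _ => ?_
    rw [map_div₀, map_pow, norm_div, norm_pow, div_pow, ← pow_mul, ← pow_mul, mul_comm]
  have h4 : (∏ s, ‖emb s l‖ ^ 2) ≠ 0 := fun h => by simp [h] at h1
  have h5 : |(κ.c : ℝ)| ^ m1 = 1 / (NT.nI A0 * ∏ s, ‖emb s l‖ ^ 2) := by
    rw [eq_div_iff (mul_ne_zero h2.ne' h4)]
    linear_combination h1
  rw [h3, mul_comm N m1, pow_mul, h5, div_pow, one_pow, mul_pow]
  field_simp

theorem cls (hN : NPack κ m1 v0 D l A0 Pr) (hv : v0.natDegree ≤ m1) {N L : ℕ} (h1 : 1 ≤ N)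
    (hQ : D.Q = N ^ 2 * L * L) (w : Γ.Ix (N * m1) → ℤ)
    (hw : ∀ i, ((N ^ 2 * L : ℕ) : ℤ) ∣ w i - Γ.co (N * m1) (algebraMap ℤ[X] B v0 ^ N) i) :
    ∃ z, D.Un z ∧ D.Cg (κ.π (Γ.el w) / l ^ N) (z ^ N) := by
  choose u hu using hw
  refine hN.cls N L 1 (Γ.el w) (Γ.el u) h1 (by rw [hQ]; exact ⟨1, by ring⟩) (by rw [hQ]; exact ⟨L, rfl⟩)
    (Γ.el_mem u) ?_
  have h2 : w = Γ.co (N * m1) (algebraMap ℤ[X] B v0 ^ N) + ((N ^ 2 * L : ℕ) : ℤ) • u := by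
    funext i
    have := hu i
    simp only [Pi.add_apply, Pi.smul_apply, smul_eq_mul]
    linarith
  rw [h2, Γ.el_add, Γ.el_smul, Γ.el_co (Geo.pow_mem (Γ.algebraMap_mem hv) N), zsmul_eq_mul,
    Int.cast_natCast]

open Classical in
theorem pack (hB : NT.Bas D) (hN : NPack κ m1 v0 D l A0 Pr) (hv : v0.natDegree ≤ m1) {ν : ℕ}
    (emb : Fin ν → (K →+* ℂ)) (hb : Function.Bijective fun s => InfinitePlace.mk (emb s))
    {N L : ℕ} (h1 : 1 ≤ N) (hL : 0 < L) (hQ : D.Q = N ^ 2 * L * L) (hm : m ≤ N * m1)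
    (H : ℕ) (Xs : Finset (Pt B)) (P k : ℕ) (H' : ℝ) (R : Set (Γ.Ix (N * m1) → ℝ)) (smin ε : ℝ)
    (Mj : Finset (Pt B)) (hM : ∀ x ∈ Mj, x.On (Γ.el e) ∧ ¬x.p ∣ D.F) (κ0 : ℝ) (hκ : 0 < κ0)
    (err : Finset (Pt B) → ℝ) (ε1 ε2 Kb Kl r0 ηt : ℝ) (R0 : ℕ) (ok : ℝ → Prop)
    (hT : ∀ (z g0 : K) (ρ : InfinitePlace K → ℝ) (X : Finset (Pt B)), D.Un z →
      g0 ∈ D.L (A0 ^ N) → D.Cg g0 (z ^ N) → (∀ w, ε1 ≤ ρ w ∧ ρ w ≤ ε2) →
      ok (NT.Nv (NT.emb g0) / NT.nI (A0 ^ N)) → X ⊆ Mj → Set.InjOn Pt.p (X : Set (Pt B)) →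
      X.card ≤ 2 → (D.Bl (A0 ^ N) D.Q g0 (NT.emb g0) ρ).Finite ∧
      |NT.nSpl D (A0 ^ N) Mj Pr Pt.p k X g0 ρ / (κ0 * (D.Bl (A0 ^ N) D.Q g0 (NT.emb g0) ρ).ncard) -
        k.descFactorial X.card * dfac H Xs P k X * ∏ x ∈ X, pmu Xs x| ≤ err X)
    (hH' : 0 < H') (hKb : 1 ≤ Kb) (hr0 : 0 < r0)
    (hsz : ∀ w, scl H' w ∈ R → ∀ j, H' / Kb ≤ ‖emb j (κ.π (Γ.el w))‖ ∧
      ‖emb j (κ.π (Γ.el w))‖ ≤ Kb * H')
    (hsm : ∀ (v : Γ.Ix (N * m1) → ℤ) (r : ℝ), (∀ i, |(v i : ℝ)| ≤ r) →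
      ∀ j, ‖emb j (κ.π (Γ.el v))‖ ≤ Kb * r)
    (hlift : ∀ v ∈ Γ.V (N * m1), ∀ r : ℝ, 0 ≤ r → (∀ j, ‖emb j (κ.π v)‖ ≤ r) →
      ∃ u : Γ.Ix (N * m1) → ℤ, Γ.el e ∣ Γ.el u - v ∧ ∀ i, |(u i : ℝ)| ≤ Kl * (r + H))
    (hco : ∀ w, scl H' w ∈ R → (Γ.nrm (Γ.el w)).coeff (N * m1 * d) ≠ 0)
    (hok : ∀ y : K, (∀ j, H' / (2 * Kb) ≤ ‖emb j y‖ ∧ ‖emb j y‖ ≤ 2 * Kb * H') →
      ok ((∏ j, ‖emb j y‖ ^ 2) * |(κ.c : ℝ)| ^ (N * m1)))
    (n1 : Kl * (r0 + D.Q * H) ≤ R0) (n2 : 8 * ((R0 : ℝ) + D.Q) ≤ ηt * smin)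
    (n3 : Kb * ((R0 : ℝ) + D.Q) ≤ H' / (2 * Kb)) (n4 : ε1 ≤ r0 / (2 * Kb * H'))
    (n5 : r0 / (H' / (2 * Kb)) ≤ ε2) (n6 : 0 < ηt) (n7 : ηt ≤ 1)
    (n8 : Fintype.card (Γ.Ix (N * m1)) * ηt ≤ 1)
    (n9 : ∀ X ⊆ Mj, X.card ≤ 2 →
      0 ≤ k.descFactorial X.card * dfac H Xs P k X * ∏ x ∈ X, pmu Xs x + err X ∧
      err X + 2 * Fintype.card (Γ.Ix (N * m1)) * ηt *
        (|k.descFactorial X.card * dfac H Xs P k X * ∏ x ∈ X, pmu Xs x| + err X) ≤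
      ε * (k : ℝ) ^ X.card * ∏ x ∈ X, pmu Xs x) :
    ∃ sp Z, EPack Γ H Xs P k H' R (N ^ 2 * L) (N ^ 2 * L * L)
      (Γ.co (N * m1) (algebraMap ℤ[X] B v0 ^ N)) smin ε e Mj κ0 sp Z := by
  have hl : l ^ N ≠ 0 := pow_ne_zero _ hN.ne
  have hpt : ∀ x ∈ Mj, NT.IsPt D.F (Pr x) x.p := fun x hx => hN.pt x (hM x hx).1 (hM x hx).2
  have hinj : Set.InjOn Pr (Mj : Set (Pt B)) := hN.inj.mono fun x hx => hM x hx
  let g : (Γ.Ix (N * m1) → ℤ) → K := fun w => κ.π (Γ.el w) / l ^ N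
  have hg : ∀ w, κ.π (Γ.el w) = g w * l ^ N := fun w => (div_mul_cancel₀ _ hl).symm
  have hspl := fun w (h : NT.Spl D (A0 ^ N) Mj Pr Pt.p k ∅ (g w)) =>
    hN.spl N (Γ.el w) (g w) _ h1 (Γ.el_mem w) (hg w) (fun x hx => hM x ((Zg_spec h).1 hx))
      (Zg_spec h).2.2.1 h.1 (Zg_spec h).2.2.2
  refine ⟨fun w => NT.Spl D (A0 ^ N) Mj Pr Pt.p k ∅ (g w),
    fun w => Zg D (A0 ^ N) Mj Pr Pt.p k (g w), fun w s => ?_, fun w h => ?_,
    fun w h _ h2 => (hspl w h).2 (hco w h2), fun a s cl hcl hs hR X hX hXi hX2 => ?_⟩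
  · have : g (w + Γ.mulv (N * m1) e s) = g w := by
      simp only [g]
      rw [Γ.el_add, Γ.el_mulv (by omega), map_add, (κ.ker _).2 (dvd_mul_right _ _), add_zero]
    simp only [this, and_self]
  · exact ⟨(Zg_spec h).1, (Zg_spec h).2.1, (Zg_spec h).2.2.1, (hspl w h).1⟩
  rw [← hQ] at hR ⊢
  have hQ0 : 0 < D.Q := by rw [hQ]; positivity
  have hQ1 : (0 : ℝ) < D.Q := by exact_mod_cast hQ0
  have hQK : (D.Q : K) ≠ 0 := by exact_mod_cast hQ0.ne'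
  have hR0 : (0 : ℝ) ≤ R0 := Nat.cast_nonneg _
  have hs0 : (0 : ℝ) ≤ s := Nat.cast_nonneg _
  have hs1 : 8 * ((R0 : ℝ) + D.Q) ≤ ηt * s := n2.trans (by gcongr)
  have hs2 : D.Q ≤ s := by
    have : (D.Q : ℝ) ≤ s := by nlinarith
    exact_mod_cast this
  have hKb0 : 0 < Kb := by linarith
  -- sizes on the enlarged cell
  have hsize : ∀ w ∈ zcell (fun i => a i - R0) (s + 2 * R0) D.Q cl, ∀ j,
      H' / (2 * Kb) ≤ ‖emb j (κ.π (Γ.el w))‖ ∧ ‖emb j (κ.π (Γ.el w))‖ ≤ 2 * Kb * H' := by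
    intro w hw j
    obtain ⟨w1, a1, a2⟩ := near hQ0 hs2 hw
    obtain ⟨b1, b2⟩ := hsz w1 (hR w1 a1) j
    have b3 := (hsm (w - w1) (R0 + D.Q) (fun i => by exact_mod_cast a2 i) j).trans n3
    rw [Γ.el_sub, map_sub, map_sub] at b3
    have b4 := abs_le.1 ((abs_norm_sub_norm_le _ _).trans b3)
    have b5 : H' / Kb = 2 * (H' / (2 * Kb)) := by field_simp
    have b6 : H' / (2 * Kb) ≤ Kb * H' := by
      rw [div_le_iff₀ (by positivity)]; nlinarith [mul_pos hH' hKb0, mul_le_mul hKb hKb zero_le_one hKb0.le]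
    constructor <;> linarith [b4.1, b4.2]
  let D0 : Set K := {b | b ∈ D.L (A0 ^ N) ∧ ∀ j, ‖emb j (D.Q * b * l ^ N)‖ < r0}
  have hloc : ∀ w ∈ zcell (fun i => a i - R0) (s + 2 * R0) D.Q cl,
      (∀ y, y ∈ D.Bl (A0 ^ N) D.Q (g w) (NT.emb (g w)) (fun pl => r0 / pl (κ.π (Γ.el w))) ↔
        ∃ b ∈ D0, y = g w + D.Q * b) ∧
      (D.Bl (A0 ^ N) D.Q (g w) (NT.emb (g w)) (fun pl => r0 / pl (κ.π (Γ.el w)))).Finite ∧
      |NT.nSpl D (A0 ^ N) Mj Pr Pt.p k X (g w) (fun pl => r0 / pl (κ.π (Γ.el w))) /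
        (κ0 * (D.Bl (A0 ^ N) D.Q (g w) (NT.emb (g w))
          (fun pl => r0 / pl (κ.π (Γ.el w)))).ncard) -
        k.descFactorial X.card * dfac H Xs P k X * ∏ x ∈ X, pmu Xs x| ≤ err X := by
    intro w hw
    have c1 := hsize w hw
    have c0 : 0 < H' / (2 * Kb) := by positivity
    obtain ⟨pl0⟩ : Nonempty (InfinitePlace K) := inferInstance
    have c2 : κ.π (Γ.el w) ≠ 0 := by
      intro h
      obtain ⟨j, -⟩ := hb.2 pl0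
      have := (c1 j).1
      rw [h, map_zero, norm_zero] at this
      linarith
    obtain ⟨z, z1, z2⟩ := cls hN hv h1 hQ w fun i => by
      have := dvd_add ((show ((N ^ 2 * L : ℕ) : ℤ) ∣ (D.Q : ℤ) from by
        rw [hQ]; exact Int.natCast_dvd_natCast.2 ⟨L, rfl⟩).trans ((mem_zcell.1 hw).2 i)) (hcl i)
      rwa [sub_add_sub_cancel] at this
    refine ⟨mem_Bl emb hb _ c2 hl r0, hT z (g w) _ X z1
      ((hN.lam N h1 _).2 ⟨_, Γ.el_mem w, hg w⟩) z2 (fun pl => ?_) ?_ hX hXi hX2⟩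
    · obtain ⟨j, rfl⟩ := hb.2 pl
      simp only [InfinitePlace.apply]
      exact ⟨n4.trans (div_le_div_of_nonneg_left hr0.le (c0.trans_le (c1 j).1) (c1 j).2),
        (div_le_div_of_nonneg_left hr0.le c0 (c1 j).1).trans n5⟩
    · simp only [g]
      rw [ratio hB hN emb hb]
      exact hok _ c1
  have hinjf : ∀ y : K, Function.Injective fun b : K => y + D.Q * b := fun y b b' h =>
    mul_left_cancel₀ hQK (add_left_cancel h)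
  have hfin : D0.Finite := by
    obtain ⟨w, hw⟩ := zcell_ne (fun i => a i - R0) cl hQ0 (hs2.trans (Nat.le_add_right s (2 * R0)))
    obtain ⟨c1, c2, -⟩ := hloc w hw
    exact (c2.preimage (hinjf (g w)).injOn).subset fun b hb => (c1 _).2 ⟨b, hb, rfl⟩
  have hlf : ∀ b ∈ D0, ∃ u : Γ.Ix (N * m1) → ℤ, κ.π (Γ.el u) = D.Q * b * l ^ N ∧
      ∀ i, (D.Q : ℤ) ∣ u i ∧ |u i| ≤ R0 := by
    intro b hb
    obtain ⟨v, v1, v2⟩ := (hN.lam N h1 b).1 hb.1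
    obtain ⟨u, u1, u2⟩ := hlift v v1 (r0 / D.Q) (by positivity) fun j => by
      have := hb.2 j
      rw [mul_assoc, map_mul, norm_mul, map_natCast, Complex.norm_natCast] at this
      rw [v2, le_div_iff₀ hQ1, mul_comm]
      exact this.le
    refine ⟨(D.Q : ℤ) • u, ?_, fun i => ⟨Dvd.intro _ rfl, ?_⟩⟩
    · have := (κ.ker _).2 u1
      rw [map_sub, sub_eq_zero, v2] at this
      rw [Γ.el_smul, map_zsmul, this, zsmul_eq_mul, Int.cast_natCast, mul_assoc]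
    · have : |((((D.Q : ℤ) • u) i : ℤ) : ℝ)| ≤ R0 := by
        rw [Pi.smul_apply, smul_eq_mul, Int.cast_mul, Int.cast_natCast, abs_mul, abs_of_pos hQ1]
        refine (mul_le_mul_of_nonneg_left (u2 i) hQ1.le).trans (le_of_eq_of_le ?_ n1)
        field_simp
      exact_mod_cast this
  choose! lf lf1 lf2 using hlf
  have hlfi : Set.InjOn lf D0 := fun b hb b' hb' h => by
    have := lf1 b hb
    rw [h, lf1 b' hb'] at this
    exact (mul_left_cancel₀ hQK (mul_right_cancel₀ hl this)).symm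
  have h0 : (0 : K) ∈ D0 := ⟨⟨FractionalIdeal.zero_mem _, D.R.zero_mem⟩, fun j => by simpa using hr0⟩
  obtain ⟨q1, q2⟩ := n9 X hX hX2
  set θ := k.descFactorial X.card * dfac H Xs P k X * ∏ x ∈ X, pmu Xs x with hθ
  have key := trans a cl s D.Q R0 hQ0 ηt n6 n8 hs1 n7 (hfin.toFinset.image lf)
    ⟨lf 0, mem_image_of_mem _ (hfin.mem_toFinset.2 h0)⟩
    (fun v hv => by
      obtain ⟨b, hb, rfl⟩ := mem_image.1 hv
      exact lf2 b (hfin.mem_toFinset.1 hb))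
    (fun w => NT.Spl D (A0 ^ N) Mj Pr Pt.p k ∅ (g w) ∧ X ⊆ Zg D (A0 ^ N) Mj Pr Pt.p k (g w))
    (κ0 * θ) (κ0 * err X) (by rw [← mul_add]; positivity) (fun w hw => by
      obtain ⟨c1, -, c3⟩ := hloc w hw
      have hgw : ∀ b ∈ D0, g (w + lf b) = g w + D.Q * b := fun b hb => by
        simp only [g]
        rw [Γ.el_add, map_add, lf1 b hb, add_div, mul_div_cancel_right₀ _ hl]
      have e1 := ncard_eq D0 hfin _ lf (hinjf (g w)) hlfi _ c1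
        (NT.Spl D (A0 ^ N) Mj Pr Pt.p k X)
        (fun v => NT.Spl D (A0 ^ N) Mj Pr Pt.p k ∅ (g (w + v)) ∧
          X ⊆ Zg D (A0 ^ N) Mj Pr Pt.p k (g (w + v)))
        (fun b hb => by rw [spl_iff hB hpt hinj, hgw b hb])
      have e2 := ncard_eq D0 hfin _ lf (hinjf (g w)) hlfi _ c1 (fun _ => True) (fun _ => True)
        (fun b hb => Iff.rfl)
      simp only [and_true, Set.ofPred_mem_eq, filter_true] at e2
      rw [NT.nSpl, e1, e2, mul_comm κ0, ← div_div, fc] at c3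
      rw [← mul_div_cancel₀ (_ / _ : ℝ) hκ.ne', ← mul_sub, abs_mul, abs_of_pos hκ]
      exact mul_le_mul_of_nonneg_left c3 hκ.le)
  rw [abs_mul, abs_of_pos hκ] at key
  rw [mul_comm κ0, ← div_div, fc]
  refine le_trans ?_ q2
  rw [← mul_div_cancel₀ (_ / _ : ℝ) hκ.ne', ← mul_sub, abs_mul, abs_of_pos hκ] at key
  refine le_of_mul_le_mul_left (key.trans (le_of_eq ?_)) hκ
  ring

end Pool.Agent.Lib.BK2.ZE
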