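import Pool.Agent.Lib.BK2.ZEPack

/-! Block ZE: choice of the radii and small estimates. -/

open Polynomial Finset NumberField

noncomputable section

namespace Pool.Agent.Lib.BK2.ZE

theorem sizes (Kl Kb ηt c N2 : ℝ) (h1 : 1 ≤ Kl) (h2 : 1 ≤ Kb) (h3 : 0 < ηt) (h4 : 0 < c)
    (h5 : 0 < N2) : ∃ C : ℝ, ∀ lg sq H H' Q : ℝ, 1 ≤ lg → C * lg ≤ sq → sq ≤ H ^ 2 → 1 ≤ H →
    H ^ 5 ≤ H' → 1 ≤ Q → Q ≤ N2 * H ^ 2 → ∃ (r0 ε2 : ℝ) (R0 : ℕ), 0 < r0 ∧ 0 ≤ ε2 ∧ ε2 ≤ c ∧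
      Kl * (r0 + Q * H) ≤ R0 ∧ 8 * ((R0 : ℝ) + Q) ≤ ηt * (H' / lg) ∧
      Kb * ((R0 : ℝ) + Q) ≤ H' / (2 * Kb) ∧ 1 / sq ≤ r0 / (2 * Kb * H') ∧
      r0 / (H' / (2 * Kb)) ≤ ε2 := by
  have hl : 0 < Kl := by linarith
  have hb : 0 < Kb := by linarith
  obtain ⟨c2, a0, a1, a2⟩ : ∃ c2 : ℝ, 0 < c2 ∧ 16 * c2 ≤ ηt ∧ 4 * Kb ^ 2 * c2 ≤ 1 :=
    ⟨min (ηt / 16) (1 / (4 * Kb ^ 2)), by positivity, by linarith [min_le_left (ηt / 16) (1 / (4 * Kb ^ 2))],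
      by rw [mul_comm, ← le_div_iff₀ (by positivity)]; exact min_le_right _ _⟩
  obtain ⟨c1, b0, b1, b2⟩ : ∃ c1 : ℝ, 0 < c1 ∧ Kl * c1 ≤ c2 ∧ 2 * Kb * c1 ≤ c :=
    ⟨min (c2 / Kl) (c / (2 * Kb)), by positivity,
      by rw [mul_comm, ← le_div_iff₀ (by positivity)]; exact min_le_left _ _,
      by rw [mul_comm, ← le_div_iff₀ (by positivity)]; exact min_le_right _ _⟩
  refine ⟨3 * Kl * N2 / c2 + 2 * Kb / c1, fun lg sq H H' Q e1 e2 e3 e4 e5 e6 e7 => ?_⟩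
  have hlg : 0 < lg := by linarith
  have hH : 0 < H := by linarith
  have hH' : 0 < H' := lt_of_lt_of_le (by positivity) e5
  have f1 : 3 * Kl * N2 / c2 * lg ≤ H ^ 2 := by
    have : 0 ≤ 2 * Kb / c1 * lg := by positivity
    linarith
  have f2 : 2 * Kb / c1 * lg ≤ sq := by
    have : 0 ≤ 3 * Kl * N2 / c2 * lg := by positivity
    linarith
  have hx : 0 < H' / lg := by positivity
  have f3 : 3 * Kl * (Q * H) ≤ c2 * (H' / lg) := by
    rw [div_mul_eq_mul_div, div_le_iff₀ a0] at f1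
    rw [← mul_div_assoc, le_div_iff₀ hlg]
    calc 3 * Kl * (Q * H) * lg ≤ 3 * Kl * (N2 * H ^ 2 * H) * lg := by gcongr
      _ = 3 * Kl * N2 * lg * H ^ 3 := by ring
      _ ≤ H ^ 2 * c2 * H ^ 3 := by gcongr
      _ = c2 * H ^ 5 := by ring
      _ ≤ c2 * H' := by gcongr
  have f4 : (⌈Kl * (c1 * (H' / lg) + Q * H)⌉₊ : ℝ) + Q ≤ 2 * c2 * (H' / lg) := by
    have g1 := (Nat.ceil_lt_add_one (a := Kl * (c1 * (H' / lg) + Q * H)) (by positivity)).le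
    have g2 : Q ≤ Q * H := le_mul_of_one_le_right (by linarith) e4
    have g3 : Q * H ≤ Kl * (Q * H) := le_mul_of_one_le_left (by positivity) h1
    have g4 : Kl * c1 * (H' / lg) ≤ c2 * (H' / lg) := by gcongr
    nlinarith
  have f5 : H' / lg ≤ H' := div_le_self hH'.le e1
  refine ⟨c1 * (H' / lg), 2 * Kb * c1, ⌈Kl * (c1 * (H' / lg) + Q * H)⌉₊, by positivity,
    by positivity, b2, Nat.le_ceil _, by nlinarith, ?_, ?_, ?_⟩
  · rw [le_div_iff₀ (by positivity)]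
    calc _ ≤ Kb * (2 * c2 * H') * (2 * Kb) := by
          gcongr
          exact f4.trans (by gcongr)
      _ = 4 * Kb ^ 2 * c2 * H' := by ring
      _ ≤ 1 * H' := by gcongr
      _ = H' := one_mul _
  · calc 1 / sq ≤ 1 / (2 * Kb / c1 * lg) := one_div_le_one_div_of_le (by positivity) f2
      _ = _ := by field_simp
  · calc _ = 2 * Kb * c1 / lg := by field_simp
      _ ≤ _ := div_le_self (by positivity) e1

theorem abs_log_le {x y K : ℝ} (hK : 1 ≤ K) (hy : 0 < y) (h1 : y / K ≤ x) (h2 : x ≤ K * y) :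
    0 < x ∧ |Real.log x - Real.log y| ≤ Real.log K := by
  have hK0 : 0 < K := by linarith
  have hx : 0 < x := lt_of_lt_of_le (by positivity) h1
  have a1 := Real.log_le_log (by positivity) h1
  have a2 := Real.log_le_log hx h2
  rw [Real.log_div hy.ne' hK0.ne'] at a1
  rw [Real.log_mul hK0.ne' hy.ne'] at a2
  exact ⟨hx, abs_le.2 ⟨by linarith, by linarith⟩⟩

theorem lognorm {ν : ℕ} (a : Fin ν → ℝ) (H' Kc Ka lam H lT s0 η : ℝ) (n m' d : ℕ) (hn : 2 * ν = n)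
    (hH' : 0 < H') (hc : 1 ≤ Kc) (ha : 1 ≤ Ka) (hH : 0 < H) (hT : 0 < lT) (hη : 0 < η)
    (h1 : ∀ j, H' / Kc ≤ a j ∧ a j ≤ Kc * H') (h2 : 1 / Ka ≤ lam) (h3 : lam ≤ Ka)
    (h4 : n * Real.log H' + m' * d * Real.log H = s0 * lT)
    (h5 : (n * Real.log Kc + m' * Real.log Ka) / η ≤ lT) :
    |Real.log ((∏ j, a j ^ 2) * (lam * H ^ d) ^ m') / lT - s0| ≤ η := by
  have b1 := fun j => abs_log_le hc hH' (h1 j).1 (h1 j).2
  obtain ⟨b2, b3⟩ := abs_log_le ha one_pos h2 (by rwa [mul_one])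
  rw [Real.log_one, sub_zero] at b3
  have b4 : |∑ j, (Real.log (a j) - Real.log H')| ≤ ν * Real.log Kc :=
    (abs_sum_le_sum_abs _ _).trans ((sum_le_sum fun j _ => (b1 j).2).trans (by simp))
  have b5 : Real.log ((∏ j, a j ^ 2) * (lam * H ^ d) ^ m') - s0 * lT =
      2 * ∑ j, (Real.log (a j) - Real.log H') + m' * Real.log lam := by
    rw [Real.log_mul (prod_ne_zero_iff.2 fun j _ => (pow_pos (b1 j).1 2).ne') (by positivity),
      Real.log_prod fun j _ => (pow_pos (b1 j).1 2).ne', Real.log_pow, Real.log_mul b2.ne'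
      (by positivity), Real.log_pow, ← h4, ← hn, sum_sub_distrib]
    simp only [Real.log_pow, ← mul_sum, sum_const, card_univ, Fintype.card_fin, nsmul_eq_mul]
    push_cast
    ring
  rw [div_sub' hT.ne', abs_div, abs_of_pos hT, div_le_iff₀ hT, mul_comm lT s0, b5]
  rw [div_le_iff₀ hη, ← hn] at h5
  push_cast at h5
  have b6 : |(m' : ℝ) * Real.log lam| ≤ m' * Real.log Ka := by
    rw [abs_mul, Nat.abs_cast]; gcongr
  have b7 := abs_le.1 b4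
  have b8 := abs_le.1 b6
  exact abs_le.2 ⟨by linarith, by linarith⟩

theorem fin9 {θ μ t ε r ηt : ℝ} (hμ : 0 ≤ μ) (h0 : 0 ≤ θ) (h1 : θ ≤ 3 / 2 * μ) (h2 : 0 ≤ t)
    (h3 : t ≤ 5 / 8 * ε) (h4 : ε ≤ 1) (h6 : 24 * (r * ηt) ≤ ε) :
    0 ≤ θ + t * μ ∧ t * μ + 2 * r * ηt * (|θ| + t * μ) ≤ ε * μ := by
  refine ⟨by positivity, ?_⟩
  rw [abs_of_nonneg h0]
  have a1 : t * μ ≤ 5 / 8 * ε * μ := by gcongr
  have a2 : t * μ ≤ 1 * μ := by gcongr; linarith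
  have a3 : r * ηt * (θ + t * μ) ≤ ε / 24 * (3 * μ) :=
    mul_le_mul (by linarith) (by linarith) (by positivity) (by linarith)
  nlinarith [mul_nonneg (show 0 ≤ ε by linarith) hμ]

theorem winT_pow {H : ℕ} (k : ℕ) : winT H ^ (20 * k) = (H : ℝ) ^ k := by
  rw [winT, pow_mul, ← Real.rpow_natCast _ 20, ← Real.rpow_mul (Nat.cast_nonneg H)]
  norm_num

theorem log_winT {H : ℕ} (h : 0 < H) : Real.log (winT H) = Real.log H / 20 := by
  rw [winT, Real.log_rpow (by exact_mod_cast h)]; ring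

theorem winT_le {H : ℕ} (h : 1 ≤ H) : 1 ≤ winT H ∧ winT H ≤ H := by
  have h1 : (1 : ℝ) ≤ H := by exact_mod_cast h
  refine ⟨Real.one_le_rpow h1 (by norm_num), ?_⟩
  conv_rhs => rw [← Real.rpow_one H]
  exact Real.rpow_le_rpow_of_exponent_le h1 (by norm_num)

variable {B : Type} [CommRing B]

theorem le_cen {H : ℕ} {Xs : Finset (Pt B)} {c0 : ℝ} (h : Law Xs (pwb Xs) (pa H) c0) (k : ℕ) :
    (k : ℝ) ≤ cen H Xs k := by
  refine le_mul_of_one_le_right (Nat.cast_nonneg k) ?_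
  rw [← h.one]
  exact sum_le_sum fun x hx => le_mul_of_one_le_right (h.nn x hx) (h.lo x hx)

variable [Algebra ℤ[X] B] {d : ℕ} [NeZero d] {Γ : Geo B d} {m m1 : ℕ}
  {e : B} {K : Type} [Field K] [NumberField K] {κ : Cut Γ m e K} {v0 : ℤ[X]}
  {D : NT.ND K} {l : K} {A0 : NT.FI K} {Pr : Pt B → NT.FI K}

theorem sgb (hN : NPack κ m1 v0 D l A0 Pr) {Y : ℕ} {T Sg : ℝ}
    (hY : ∀ q : ℕ, q.Prime → ¬q ∣ D.F → Y < q)
    (h : ∀ S : Finset (Pt B), (∀ x ∈ S, x.On e ∧ Y < x.p ∧ (x.p : ℝ) < T) →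
      ∑ x ∈ S, 1 / (x.p : ℝ) ≤ Sg) : NT.SgB K D.F T Sg := by
  classical
  intro S p hS
  rcases S.eq_empty_or_nonempty with rfl | ⟨P0, h0⟩
  · simpa using h ∅ (by simp)
  have : Nonempty (Pt B) := ⟨(hN.sur P0 _ (hS P0 h0).1).choose⟩
  choose! x x1 x2 x3 using fun P (hP : P ∈ S) => hN.sur P _ (hS P hP).1
  have hi : Set.InjOn x (S : Set (NT.FI K)) := fun P hP P' hP' h => by
    rw [← x3 P hP, h, x3 P' hP']
  refine le_of_eq_of_le ?_ (h (S.image x) fun y hy => ?_)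
  · rw [sum_image hi]
    exact sum_congr rfl fun P hP => by rw [x2 P hP]
  · obtain ⟨P, hP, rfl⟩ := mem_image.1 hy
    rw [x2 P hP]
    exact ⟨x1 P hP, hY _ (hS P hP).1.1 (hS P hP).1.2.1, (hS P hP).2⟩

end Pool.Agent.Lib.BK2.ZE
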