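import Pool.Agent.Lib.BK2.ZDefs

/-! Transfer of densities from small symmetric neighbourhoods to cells. -/

open Finset

namespace Pool.Agent.Lib.BK2.ZE

variable {I : Type} [Fintype I]

theorem mem_zcell {a : I → ℤ} {s Q : ℕ} {cl w : I → ℤ} :
    w ∈ zcell a s Q cl ↔ (∀ i, a i ≤ w i ∧ w i < a i + s) ∧ ∀ i, (Q : ℤ) ∣ w i - cl i := by
  classical
  simp [zcell, Fintype.mem_piFinset]

theorem card_line (a c : ℤ) (s Q : ℕ) (hQ : 0 < Q) :
    (s : ℝ) / Q - 1 ≤ (((Ico a (a + s)).filter fun x => (Q : ℤ) ∣ x - c).card : ℝ) ∧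
      (((Ico a (a + s)).filter fun x => (Q : ℤ) ∣ x - c).card : ℝ) ≤ (s : ℝ) / Q + 1 := by
  have hQ' : (0 : ℤ) < Q := by exact_mod_cast hQ
  have h := Int.Ico_filter_modEq_card a (a + s) hQ' c
  have e : ((Ico a (a + s)).filter fun x => (Q : ℤ) ∣ x - c) =
      (Ico a (a + s)).filter fun x => x ≡ c [ZMOD Q] := by
    refine filter_congr fun x _ => ?_
    rw [Int.modEq_comm, Int.modEq_iff_dvd]
  rw [e]
  have h1 := Int.le_ceil ((((a + s : ℤ) : ℚ) - c) / (Q : ℤ))
  have h2 := Int.ceil_lt_add_one ((((a + s : ℤ) : ℚ) - c) / (Q : ℤ))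
  have h3 := Int.le_ceil (((a : ℚ) - c) / (Q : ℤ))
  have h4 := Int.ceil_lt_add_one (((a : ℚ) - c) / (Q : ℤ))
  have hQq : (0 : ℚ) < Q := by exact_mod_cast hQ
  have e2 : (((a + s : ℤ) : ℚ) - c) / (Q : ℤ) = ((a : ℚ) - c) / (Q : ℤ) + (s : ℚ) / Q := by
    push_cast; field_simp; ring
  have hs : (0 : ℚ) ≤ (s : ℚ) / Q := by positivity
  set n := ((Ico a (a + s)).filter fun x => x ≡ c [ZMOD Q]).card
  set u := ⌈(((a + s : ℤ) : ℚ) - c) / (Q : ℤ)⌉
  set v := ⌈((a : ℚ) - c) / (Q : ℤ)⌉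
  have hn1 : (u : ℚ) - v ≤ n := by
    have : u - v ≤ (n : ℤ) := h ▸ le_max_left _ _
    exact_mod_cast this
  have hn2 : (n : ℚ) ≤ (s : ℚ) / Q + 1 := by
    rcases max_cases (u - v) 0 with ⟨h5, -⟩ | ⟨h5, -⟩
    · have : (n : ℚ) = u - v := by exact_mod_cast h.trans h5
      linarith
    · have : (n : ℚ) = 0 := by exact_mod_cast h.trans h5
      linarith
  constructor
  · have h5 : (s : ℚ) / Q - 1 ≤ n := by linarith
    have h6 := (Rat.cast_le (K := ℝ)).2 h5
    push_cast at h6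
    exact h6
  · have h6 := (Rat.cast_le (K := ℝ)).2 hn2
    push_cast at h6
    exact h6

theorem card_zcell (a cl : I → ℤ) (s Q : ℕ) (hQ : 0 < Q) (hs : Q ≤ s) :
    ((s : ℝ) / Q - 1) ^ Fintype.card I ≤ (zcell a s Q cl).card ∧
      ((zcell a s Q cl).card : ℝ) ≤ ((s : ℝ) / Q + 1) ^ Fintype.card I := by
  classical
  have e : zcell a s Q cl =
      Fintype.piFinset fun i => (Ico (a i) (a i + s)).filter fun x => (Q : ℤ) ∣ x - cl i := by
    ext w
    simp only [mem_zcell, Fintype.mem_piFinset, mem_filter, mem_Ico, forall_and]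
  have hQ' : (0 : ℝ) < Q := by exact_mod_cast hQ
  have h0 : (0 : ℝ) ≤ (s : ℝ) / Q - 1 := by
    rw [sub_nonneg, le_div_iff₀ hQ', one_mul]; exact_mod_cast hs
  rw [e, Fintype.card_piFinset, Nat.cast_prod, ← Finset.card_univ, ← Finset.prod_const,
    ← Finset.prod_const]
  exact ⟨prod_le_prod (fun _ _ => h0) fun i _ => (card_line _ _ s Q hQ).1,
    prod_le_prod (fun _ _ => Nat.cast_nonneg _) fun i _ => (card_line _ _ s Q hQ).2⟩

omit [Fintype I] in
open Classical in
theorem sum_shift (A A' D : Finset (I → ℤ)) (P : (I → ℤ) → Prop)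
    (h : ∀ w ∈ A, ∀ v ∈ D, w + v ∈ A') :
    ∑ w ∈ A, (D.filter fun v => P (w + v)).card ≤ D.card * (A'.filter P).card := by
  have e : ∑ w ∈ A, (D.filter fun v => P (w + v)).card =
      ∑ v ∈ D, (A.filter fun w => P (w + v)).card := by
    simp only [card_filter]; exact sum_comm
  rw [e, ← smul_eq_mul, ← sum_const]
  refine sum_le_sum fun v hv => card_le_card_of_injOn (fun w => w + v) (fun w hw => ?_)
    fun w _ w' _ hh => add_right_cancel hh
  have hw' := mem_filter.1 hw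
  exact mem_filter.2 ⟨h w hw'.1 v hv, hw'.2⟩

omit [Fintype I] in
open Classical in
theorem shift_sum (A A' D : Finset (I → ℤ)) (P : (I → ℤ) → Prop)
    (h : ∀ w ∈ A, ∀ v ∈ D, w - v ∈ A') :
    D.card * (A.filter P).card ≤ ∑ w ∈ A', (D.filter fun v => P (w + v)).card := by
  have e : ∑ w ∈ A', (D.filter fun v => P (w + v)).card =
      ∑ v ∈ D, (A'.filter fun w => P (w + v)).card := by
    simp only [card_filter]; exact sum_comm
  rw [e, ← smul_eq_mul, ← sum_const]
  refine sum_le_sum fun v hv => card_le_card_of_injOn (fun w => w - v) (fun w hw => ?_)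
    fun w _ w' _ hh => sub_left_injective hh
  have hw' := mem_filter.1 hw
  exact mem_filter.2 ⟨h w hw'.1 v hv, by simpa using hw'.2⟩

theorem pow_ratio {x y η : ℝ} {r : ℕ} (hx : 0 ≤ x) (hη : 0 ≤ η) (hr : r * η ≤ 1)
    (h : y ≤ (1 + η) * x) (hy : 0 ≤ y) : y ^ r ≤ (1 + 2 * r * η) * x ^ r := by
  have h1 : (1 + η) ^ r ≤ 1 + 2 * r * η := by
    have h2 : (1 + η) ^ r ≤ Real.exp (r * η) := by
      rw [Real.exp_nat_mul]
      exact pow_le_pow_left₀ (by linarith) (by linarith [Real.add_one_le_exp η]) r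
    have h3 := Real.abs_exp_sub_one_le (x := r * η) (by rw [abs_of_nonneg (by positivity)]; exact hr)
    rw [abs_of_nonneg (show (0 : ℝ) ≤ r * η by positivity)] at h3
    have := le_abs_self (Real.exp (r * η) - 1)
    linarith
  calc y ^ r ≤ ((1 + η) * x) ^ r := pow_le_pow_left₀ hy h r
    _ = (1 + η) ^ r * x ^ r := mul_pow _ _ _
    _ ≤ _ := mul_le_mul_of_nonneg_right h1 (pow_nonneg hx r)

open Classical in
/-- densities on the translates of `D` give densities on a cell -/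
theorem trans (a cl : I → ℤ) (s Q R : ℕ) (hQ : 0 < Q) (η : ℝ) (hη : 0 < η)
    (hr : Fintype.card I * η ≤ 1) (hs : 8 * ((R : ℝ) + Q) ≤ η * s) (hη1 : η ≤ 1)
    (D : Finset (I → ℤ)) (hD : D.Nonempty) (hv : ∀ v ∈ D, ∀ i, (Q : ℤ) ∣ v i ∧ |v i| ≤ R)
    (P : (I → ℤ) → Prop) (θ ε : ℝ) (hθ : 0 ≤ θ + ε)
    (h : ∀ w ∈ zcell (fun i => a i - R) (s + 2 * R) Q cl,
      |((D.filter fun v => P (w + v)).card : ℝ) / D.card - θ| ≤ ε) :
    |(((zcell a s Q cl).filter P).card : ℝ) / (zcell a s Q cl).card - θ| ≤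
      ε + 2 * Fintype.card I * η * (|θ| + ε) := by
  have hQ' : (0 : ℝ) < Q := by exact_mod_cast hQ
  have hR : (0 : ℝ) ≤ R := Nat.cast_nonneg R
  have hs0 : (0 : ℝ) ≤ s := Nat.cast_nonneg s
  have hs1 : 8 * ((R : ℝ) + Q) ≤ s := hs.trans (by nlinarith)
  have hs2 : 2 * R + Q ≤ s := by
    have : ((2 * R + Q : ℕ) : ℝ) ≤ s := by push_cast; linarith
    exact_mod_cast this
  have hD' : (0 : ℝ) < D.card := by exact_mod_cast hD.card_pos
  have hε : 0 ≤ ε := by
    obtain ⟨h1, -⟩ := card_zcell (fun i => a i - R) cl (s + 2 * R) Q hQ (by omega)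
    have h2 : (0 : ℝ) < ((s + 2 * R : ℕ) : ℝ) / Q - 1 := by
      rw [sub_pos, lt_div_iff₀ hQ']; push_cast; linarith
    have h3 : 0 < (zcell (fun i => a i - R) (s + 2 * R) Q cl).card := by
      exact_mod_cast (pow_pos h2 _).trans_le h1
    obtain ⟨w, hw⟩ := card_pos.1 h3
    exact (abs_nonneg _).trans (h w hw)
  set r := Fintype.card I
  set A := zcell a s Q cl
  set Ap := zcell (fun i => a i - R) (s + 2 * R) Q cl
  set Am := zcell (fun i => a i + R) (s - 2 * R) Q cl
  have cA := card_zcell a cl s Q hQ (by omega)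
  have cp := card_zcell (fun i => a i - R) cl (s + 2 * R) Q hQ (by omega)
  have cm := card_zcell (fun i => a i + R) cl (s - 2 * R) Q hQ (by omega)
  have esm : ((s - 2 * R : ℕ) : ℝ) = s - 2 * R := by
    rw [Nat.cast_sub (by omega)]; push_cast; ring
  have esm' : ((s - 2 * R : ℕ) : ℤ) = s - 2 * R := by
    rw [Nat.cast_sub (by omega)]; push_cast; ring
  rw [esm] at cm
  have x0 : (0 : ℝ) < (s : ℝ) / Q - 1 := by
    rw [sub_pos, lt_div_iff₀ hQ']; linarith
  have x1 : (0 : ℝ) < ((s : ℝ) - 2 * R) / Q - 1 := by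
    rw [sub_pos, lt_div_iff₀ hQ']; linarith
  have hA : (0 : ℝ) < A.card := (pow_pos x0 _).trans_le cA.1
  have hp : (Ap.card : ℝ) ≤ (1 + 2 * r * η) * A.card := by
    refine cp.2.trans ((pow_ratio x0.le hη.le hr ?_ (by positivity)).trans
      (mul_le_mul_of_nonneg_left cA.1 (by positivity)))
    push_cast
    rw [div_add_one hQ'.ne', div_sub_one hQ'.ne', ← mul_div_assoc]
    refine div_le_div_of_nonneg_right ?_ hQ'.le
    nlinarith
  have hm : (A.card : ℝ) ≤ (1 + 2 * r * η) * Am.card := by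
    refine cA.2.trans ((pow_ratio x1.le hη.le hr ?_ (by positivity)).trans
      (mul_le_mul_of_nonneg_left cm.1 (by positivity)))
    rw [div_add_one hQ'.ne', div_sub_one hQ'.ne', ← mul_div_assoc]
    refine div_le_div_of_nonneg_right ?_ hQ'.le
    nlinarith
  have hsub : Am ⊆ A := fun w hw => by
    rw [mem_zcell] at hw ⊢
    refine ⟨fun i => ?_, hw.2⟩
    have := hw.1 i
    rw [esm'] at this
    constructor <;> omega
  have hsub2 : Am ⊆ Ap := fun w hw => by
    rw [mem_zcell] at hw ⊢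
    refine ⟨fun i => ?_, hw.2⟩
    have := hw.1 i
    rw [esm'] at this
    push_cast
    constructor <;> omega
  have up := shift_sum A Ap D P fun w hw v hv' => by
    rw [mem_zcell] at hw ⊢
    refine ⟨fun i => ?_, fun i => ?_⟩
    · have := hw.1 i
      have := abs_le.1 (hv v hv' i).2
      simp only [Pi.sub_apply]
      push_cast
      constructor <;> omega
    · have := dvd_sub (hw.2 i) (hv v hv' i).1
      simp only [Pi.sub_apply]
      rwa [sub_right_comm] at this
  have lo := sum_shift Am A D P fun w hw v hv' => by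
    rw [mem_zcell] at hw ⊢
    refine ⟨fun i => ?_, fun i => ?_⟩
    · have h1 := hw.1 i
      rw [esm'] at h1
      have := abs_le.1 (hv v hv' i).2
      simp only [Pi.add_apply]
      constructor <;> omega
    · have := dvd_add (hw.2 i) (hv v hv' i).1
      simp only [Pi.add_apply]
      rwa [← add_sub_right_comm] at this
  set c : ℝ := ((A.filter P).card : ℝ)
  have hc : 0 ≤ c := Nat.cast_nonneg _
  have up' : (D.card : ℝ) * c ≤ Ap.card * ((θ + ε) * D.card) := by
    have h1 : ((D.card * (A.filter P).card : ℕ) : ℝ) ≤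
        ((∑ w ∈ Ap, (D.filter fun v => P (w + v)).card : ℕ) : ℝ) := by exact_mod_cast up
    push_cast at h1
    refine h1.trans ?_
    rw [← nsmul_eq_mul, ← sum_const]
    refine sum_le_sum fun w hw => ?_
    have := (abs_le.1 (h w hw)).2
    rw [← div_le_iff₀ hD']; linarith
  have lo' : Am.card * ((θ - ε) * D.card) ≤ (D.card : ℝ) * c := by
    have h1 : ((∑ w ∈ Am, (D.filter fun v => P (w + v)).card : ℕ) : ℝ) ≤
        ((D.card * (A.filter P).card : ℕ) : ℝ) := by exact_mod_cast lo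
    push_cast at h1
    refine le_trans ?_ h1
    rw [← nsmul_eq_mul, ← sum_const]
    refine sum_le_sum fun w hw => ?_
    have := (abs_le.1 (h w (hsub2 hw))).1
    rw [← le_div_iff₀ hD']; linarith
  have up2 : c ≤ Ap.card * (θ + ε) := by
    refine le_of_mul_le_mul_left ?_ hD'; linarith
  have lo2 : Am.card * (θ - ε) ≤ c := by
    refine le_of_mul_le_mul_left ?_ hD'; linarith
  have hrη : (0 : ℝ) ≤ 2 * r * η := by positivity
  have hab := le_abs_self θ
  have hab0 := abs_nonneg θ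
  have hAm : (Am.card : ℝ) ≤ A.card := by exact_mod_cast card_le_card hsub
  have hAm0 : (0 : ℝ) ≤ Am.card := Nat.cast_nonneg _
  rw [abs_le]
  constructor
  · rw [neg_le_sub_iff_le_add', ← sub_le_iff_le_add', le_div_iff₀ hA]
    rcases le_total 0 (θ - ε) with h0 | h0
    · have h1 : (A.card : ℝ) * (θ - ε) ≤ (1 + 2 * r * η) * Am.card * (θ - ε) :=
        mul_le_mul_of_nonneg_right hm h0
      have h2 : 2 * r * η * (Am.card * (θ - ε)) ≤ 2 * r * η * (A.card * (|θ| + ε)) :=
        mul_le_mul_of_nonneg_left (mul_le_mul hAm (by linarith) h0 hA.le) hrη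
      nlinarith
    · have h2 : 0 ≤ 2 * r * η * (|θ| + ε) := by positivity
      nlinarith
  · rw [sub_le_iff_le_add', div_le_iff₀ hA]
    have h1 : (Ap.card : ℝ) * (θ + ε) ≤ (1 + 2 * r * η) * A.card * (θ + ε) :=
      mul_le_mul_of_nonneg_right hp hθ
    have h2 : 2 * r * η * (A.card * (θ + ε)) ≤ 2 * r * η * (A.card * (|θ| + ε)) :=
      mul_le_mul_of_nonneg_left (mul_le_mul_of_nonneg_left (by linarith) hA.le) hrη
    nlinarith

end Pool.Agent.Lib.BK2.ZE
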