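import Pool.Agent.Lib.BK2.ZFStmt
import Pool.Agent.Lib.BK2.Bas

/-! BK2 block ZF: lemmas for the concrete instance. -/

open Polynomial Finset
open scoped Classical

noncomputable section

namespace Pool.Agent.Lib.BK2.ZF

theorem mem_zcell {I : Type} [Fintype I] {a w0 w : I → ℤ} {s M : ℕ} :
    w ∈ zcell a s M w0 ↔ InC a s M w0 w := by
  simp only [zcell, mem_filter, Fintype.mem_piFinset, mem_Ico, InC]

theorem sum_sq_le {O : Type} [Fintype O] (f : O → ℝ) {b c : ℝ} (h : ∀ i, |f i| ≤ b)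
    (hb : 0 ≤ b) (hc : (Fintype.card O : ℝ) ≤ c) (h1 : 1 ≤ c) : ∑ i, f i ^ 2 ≤ (c * b) ^ 2 := by
  calc ∑ i, f i ^ 2 ≤ ∑ _i : O, b ^ 2 := sum_le_sum fun i _ => by
        rw [← sq_abs]; exact pow_le_pow_left₀ (abs_nonneg _) (h i) 2
    _ = Fintype.card O * b ^ 2 := by rw [sum_const, card_univ, nsmul_eq_mul]
    _ ≤ c * b ^ 2 := by gcongr
    _ ≤ (c * b) ^ 2 := by
        rw [mul_pow]
        exact mul_le_mul_of_nonneg_right (by nlinarith) (sq_nonneg _)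

theorem isCompact_rcube {I : Type} (o : I → ℝ) (s : ℝ) : IsCompact (rcube o s) := by
  have e : rcube o s = Set.pi Set.univ fun i => Set.Icc (o i) (o i + s) := by
    ext v; simp only [rcube, Set.mem_pi, Set.mem_univ, Set.mem_Icc, forall_true_left]; rfl
  rw [e]
  exact isCompact_univ_pi fun i => isCompact_Icc

variable {B : Type} [CommRing B] [Algebra ℤ[X] B] {d : ℕ} [NeZero d] {Γ : Geo B d}

theorem lam_inv {m m' ν : ℕ} {U : Set (Γ.Ix m → ℝ)} (ρ : Γ.Roots m ν U) (hm : m ≤ m') {H : ℝ}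
    (hH : H ≠ 0) (H' : ℝ) {e : Γ.Ix m → ℤ} (he : scl H e ∈ U) (w : Γ.Ix m' → ℤ)
    (t : Γ.Ix (m' - m) → ℤ) :
    ρ.lam (scl H e) (scl H' (w + Γ.mulv m' e t)) = ρ.lam (scl H e) (scl H' w) := by
  funext j
  cases j with
  | none => rfl
  | some j =>
    have h0 := ρ.zero _ he j
    rw [Γ.ev_scl, div_eq_zero_iff, or_iff_left (by exact_mod_cast hH)] at h0
    simp only [Geo.Roots.lam]
    rw [Γ.ev_scl, Γ.ev_scl, Γ.el_add, Γ.el_mulv (by omega), map_add, map_mul, h0, zero_mul,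
      add_zero]

theorem emod_gen {m m' H P k M Q sp : ℕ} {Xs : Finset (Pt B)} {H' smin ε κ : ℝ}
    {R : Set (Γ.Ix m' → ℝ)} {w0 : Γ.Ix m' → ℤ} {e : Γ.Ix m → ℤ} {Maj : Finset (Pt B)}
    {spl : (Γ.Ix m' → ℤ) → Prop} {Z : (Γ.Ix m' → ℤ) → Finset (Pt B)}
    (h : EPack Γ H Xs P k H' R M Q w0 smin ε e Maj κ spl Z) (hκ : 0 < κ) (hs : smin ≤ sp)
    (C : Finset (Γ.Ix m' → ℤ))
    (hC : ∀ w ∈ C, (∃ b, C = zcell b sp Q w) ∧ (∀ i, (M : ℤ) ∣ w i - w0 i) ∧ scl H' w ∈ R)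
    (S : Finset (Pt B)) (hS : S ⊆ Maj) (hi : Set.InjOn Pt.p (S : Set (Pt B))) (h2 : #S ≤ 2) :
    |∑ w ∈ C with S ⊆ Z w, (if spl w then 1 / κ else 0) -
        k.descFactorial #S * dfac H Xs P k S * (∏ x ∈ S, pmu Xs x) * #C| ≤
      ε * (k : ℝ) ^ #S * (∏ x ∈ S, pmu Xs x) * #C := by
  rcases C.eq_empty_or_nonempty with rfl | ⟨w, hw⟩
  · simp
  obtain ⟨⟨b, hb⟩, hc, -⟩ := hC w hw
  have h3 := h.emod b sp w hc hs (fun v hv => (hC v (hb ▸ hv)).2.2) S hS hi h2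
  rw [← hb] at h3
  have hc0 : (0 : ℝ) < #C := by exact_mod_cast card_pos.2 ⟨w, hw⟩
  have e1 : ∑ w ∈ C with S ⊆ Z w, (if spl w then 1 / κ else 0) =
      (#{w ∈ C | spl w ∧ S ⊆ Z w} : ℝ) / (κ * #C) * #C := by
    rw [← sum_filter, filter_filter, sum_const, nsmul_eq_mul]
    have : ({w ∈ C | S ⊆ Z w ∧ spl w} : Finset _) = {w ∈ C | spl w ∧ S ⊆ Z w} :=
      filter_congr fun _ _ => and_comm
    rw [this]
    field_simp
  rw [e1, ← sub_mul, abs_mul, abs_of_pos hc0]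
  exact mul_le_mul_of_nonneg_right h3 hc0.le

section num

variable {C l T H H' Y L n sp KV N c : ℝ}

theorem num_T (hC : 1 ≤ C) (hl : C ≤ l) (hT : C * l ^ 5 ≤ T) (hc : c ≤ C) {j : ℕ} (hj : j ≤ 5) :
    c * l ^ j ≤ T := by
  have h1 : 1 ≤ l := hC.trans hl
  calc c * l ^ j ≤ C * l ^ 5 :=
        mul_le_mul hc (pow_le_pow_right₀ h1 hj) (by positivity) (by linarith)
    _ ≤ T := hT

theorem num_n (hY0 : 1 ≤ Y) (hY : Y ≤ l) (hK : 1 ≤ KV) (hn : n ≤ KV * Y ^ 4 + 1) :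
    n ≤ 2 * KV * l ^ 4 := by
  have h1 : Y ^ 4 ≤ l ^ 4 := pow_le_pow_left₀ (by linarith) hY 4
  have h2 : 1 ≤ Y ^ 4 := one_le_pow₀ hY0
  nlinarith

theorem num_grid {τ : ℝ} (hT1 : 1 ≤ T) (hH : T ^ 20 = H) (hH' : H ^ 4 ≤ H') (hL0 : 0 ≤ L)
    (hL : L ≤ H) (hτ : 0 < τ) (hn : n ≤ 2 * KV * l ^ 4) (h : 16 * KV * N ^ 2 / τ * l ^ 4 ≤ T) :
    n * (N ^ 2 * L * L) ≤ τ * H' / 8 := by
  have h1 : n * N ^ 2 ≤ τ * T / 8 := by
    rw [div_mul_eq_mul_div, div_le_iff₀ hτ] at h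
    nlinarith [mul_le_mul_of_nonneg_right hn (sq_nonneg N)]
  have hH0 : 0 ≤ H := hL0.trans hL
  have h2 : T * (H * H) ≤ H' := by
    refine le_trans ?_ hH'
    rw [← hH]
    calc T * (T ^ 20 * T ^ 20) = T ^ 41 := by ring
      _ ≤ T ^ 80 := pow_le_pow_right₀ hT1 (by norm_num)
      _ = (T ^ 20) ^ 4 := by ring
  calc n * (N ^ 2 * L * L) = n * N ^ 2 * (L * L) := by ring
    _ ≤ τ * T / 8 * (H * H) :=
        mul_le_mul h1 (mul_le_mul hL hL hL0 hH0) (mul_nonneg hL0 hL0) (by positivity)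
    _ = τ * (T * (H * H)) / 8 := by ring
    _ ≤ τ * H' / 8 := by gcongr

theorem num_sp {s' : ℝ} (hl1 : 1 ≤ l) (hs : 0 < s') (hH' : 0 ≤ H') (hsp0 : 0 ≤ sp)
    (hn : n ≤ 2 * KV * l ^ 4) (hsp : s' * H' / 2 ≤ n * sp) (h : 4 * KV / s' ≤ l) :
    H' / l ^ 5 ≤ sp := by
  rw [div_le_iff₀ (by positivity)]
  rw [div_le_iff₀ hs] at h
  have h1 : n * sp ≤ 2 * KV * l ^ 4 * sp := mul_le_mul_of_nonneg_right hn hsp0
  have h2 : 4 * KV * (l ^ 4 * sp) ≤ l * s' * (l ^ 4 * sp) :=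
    mul_le_mul_of_nonneg_right h (by positivity)
  have h3 : s' * H' ≤ s' * (sp * l ^ 5) := by nlinarith
  exact le_of_mul_le_mul_left h3 hs

theorem num_79 (hT1 : 1 ≤ T) (hl1 : 1 ≤ l) (hlT : 1 * l ^ 5 ≤ T) (hH : T ^ 20 = H)
    (hH' : H ^ 4 ≤ H') (hsp : H' / l ^ 5 ≤ sp) : T ^ 79 ≤ sp := by
  refine le_trans ?_ hsp
  rw [le_div_iff₀ (by positivity)]
  calc T ^ 79 * l ^ 5 ≤ T ^ 79 * T := by gcongr; linarith
    _ = (T ^ 20) ^ 4 := by ring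
    _ ≤ H' := hH ▸ hH'

/-- a quantity bounded by `c * T ^ j` with `c ≤ T` and `j ≤ 78` is at most `sp` -/
theorem num_le (hT1 : 1 ≤ T) (h79 : T ^ 79 ≤ sp) {x : ℝ} {j : ℕ} (hj : j ≤ 78) (hc : c ≤ T)
    (hx : x ≤ c * T ^ j) : x ≤ sp := by
  calc x ≤ c * T ^ j := hx
    _ ≤ T * T ^ 78 := mul_le_mul hc (pow_le_pow_right₀ hT1 hj) (by positivity) (by linarith)
    _ = T ^ 79 := by ring
    _ ≤ sp := h79

end num

theorem var_fin {A K Y E p G mu f S S' κ del : ℝ} (h : A ≤ K / Y * (E / p) * f * S) (hK : 0 ≤ K)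
    (hY : 0 < Y) (hp : 0 < p) (hG : 0 ≤ G) (hE : E ≤ 2 * G) (hmu : 1 / p ≤ mu) (hf : 0 ≤ f)
    (hS0 : 0 ≤ S) (hκ : 0 < κ) (hS : S ≤ S' / κ) (hd : 2 * K / (Y * κ) ≤ del) :
    A ≤ del * G * mu * f * S' := by
  have hS' : 0 ≤ S' := by
    have := hS0.trans hS
    rwa [le_div_iff₀ hκ, zero_mul] at this
  have hmu0 : 0 ≤ mu := le_trans (by positivity) hmu
  have h1 : E / p ≤ 2 * G * mu := by
    calc E / p ≤ 2 * G / p := by gcongr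
      _ = 2 * G * (1 / p) := by ring
      _ ≤ 2 * G * mu := by gcongr
  calc A ≤ K / Y * (E / p) * f * S := h
    _ ≤ K / Y * (2 * G * mu) * f * (S' / κ) := by gcongr
    _ = 2 * K / (Y * κ) * G * mu * f * S' := by field_simp
    _ ≤ del * G * mu * f * S' := by gcongr

theorem prod_p_le {Xs S : Finset (Pt B)} {T : ℝ} (hT : 1 ≤ T) (h : ∀ x ∈ Xs, (x.p : ℝ) ≤ T ^ 2)
    (hS : S ⊆ Xs) (h2 : #S ≤ 2) : ∏ x ∈ S, (x.p : ℝ) ≤ T ^ 4 := by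
  calc ∏ x ∈ S, (x.p : ℝ) ≤ ∏ _x ∈ S, T ^ 2 :=
        prod_le_prod (fun x _ => Nat.cast_nonneg _) fun x hx => h x (hS hx)
    _ = (T ^ 2) ^ #S := prod_const _
    _ ≤ (T ^ 2) ^ 2 := pow_le_pow_right₀ (one_le_pow₀ hT) h2
    _ = T ^ 4 := by ring

theorem p_pos (x : Pt B) : (0 : ℝ) < x.p := by exact_mod_cast x.1.2.pos

theorem prod_mu_ge {Xs : Finset (Pt B)} (h0 : 0 < mbar Xs) (h1 : mbar Xs ≤ 1) (S : Finset (Pt B)) :
    1 / ∏ x ∈ S, (x.p : ℝ) ≤ ∏ x ∈ S, pmu Xs x := by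
  rw [one_div, ← prod_inv_distrib]
  refine prod_le_prod (fun x _ => (inv_pos.2 (p_pos x)).le) fun x _ => ?_
  rw [pmu, ← one_div]
  exact one_div_le_one_div_of_le (mul_pos h0 (p_pos x)) (mul_le_of_le_one_left (p_pos x).le h1)

end Pool.Agent.Lib.BK2.ZF
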