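import Pool.Agent.Lib.BK2.ZFA

/-! BK2 block ZF: groups of fields of the concrete instance. -/

open Polynomial Finset
open scoped Classical

noncomputable section

namespace Pool.Agent.Lib.BK2.ZF

theorem exists_ub (l : List ℝ) : ∃ C : ℝ, l.Forall (· ≤ C) := by
  obtain ⟨C, h⟩ := (List.finite_toSet l).bddAbove
  exact ⟨C, List.forall_iff_forall_mem.2 fun x hx => h hx⟩

variable {B : Type} [CommRing B] [Algebra ℤ[X] B] {d : ℕ} [NeZero d] {Γ : Geo B d}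

theorem osc_pack (hOSC : St_ZOSC) {E W O O' : Type} [PseudoMetricSpace E] [PseudoMetricSpace W]
    [Fintype O] [Fintype O'] {A : Set E} {A' U' : Set W} (g : E → W → O → ℝ) (g' : W → E → O' → ℝ)
    (Φ : E → W → ℝ) (hA : IsCompact A) (hA' : IsCompact A') (hne : A.Nonempty) (hU : A' ⊆ U')
    (c1 : ContinuousOn (fun q : E × W => g q.1 q.2) (A ×ˢ U'))
    (c2 : ContinuousOn (fun q : E × W => g' q.2 q.1) (A ×ˢ U'))
    (c3 : ContinuousOn (fun q : E × W => Φ q.1 q.2) (A ×ˢ U')) :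
    (∃ K : ℝ, 1 ≤ K ∧ ∀ e ∈ A, ∀ w ∈ A',
      ∑ i, g e w i ^ 2 ≤ K ^ 2 ∧ ∑ i, g' w e i ^ 2 ≤ K ^ 2 ∧ |Φ e w| ≤ K) ∧
    ∀ ε : ℝ, 0 < ε → (∃ r : ℝ, 0 < r ∧ ∀ e ∈ A, ∀ w ∈ A', ∀ w' ∈ A', dist w w' ≤ r →
      ∑ i, (g e w i - g e w' i) ^ 2 ≤ ε ^ 2 ∧ |Φ e w - Φ e w'| ≤ ε) ∧
      ∃ (nb : ℕ) (ec : E → Fin nb), ∀ w ∈ A', ∀ e ∈ A, ∀ e' ∈ A, ec e = ec e' →
        ∑ i, (g' w e i - g' w e' i) ^ 2 ≤ ε ^ 2 ∧ |Φ e w - Φ e' w| ≤ ε := by
  have hs : A ×ˢ A' ⊆ A ×ˢ U' := Set.prod_mono le_rfl hU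
  obtain ⟨⟨K, hK, hb⟩, hw, he⟩ := hOSC E W ((O ⊕ O') ⊕ Unit) A A'
    (fun e w => Sum.elim (Sum.elim (g e w) (g' w e)) fun _ => Φ e w) hA hA' hne
    (continuousOn_pi.2 fun j => by
      rcases j with (j | j) | j
      · exact continuousOn_pi.1 (c1.mono hs) j
      · exact continuousOn_pi.1 (c2.mono hs) j
      · exact c3.mono hs)
  obtain ⟨c, hc⟩ : ∃ c : ℝ, c = Fintype.card O + Fintype.card O' + 1 := ⟨_, rfl⟩
  have h0 : (0 : ℝ) ≤ Fintype.card O := Nat.cast_nonneg _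
  have h0' : (0 : ℝ) ≤ Fintype.card O' := Nat.cast_nonneg _
  have hc1 : 1 ≤ c := by linarith
  have hc0 : 0 < c := by linarith
  refine ⟨⟨c * K, by nlinarith, fun e h w h' => ⟨?_, ?_, ?_⟩⟩, fun ε hε => ⟨?_, ?_⟩⟩
  · exact sum_sq_le _ (fun i => hb e h w h' (.inl (.inl i))) (by linarith) (by linarith) hc1
  · exact sum_sq_le _ (fun i => hb e h w h' (.inl (.inr i))) (by linarith) (by linarith) hc1
  · exact (hb e h w h' (.inr ())).trans (by nlinarith)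
  · obtain ⟨r, hr, h⟩ := hw (ε / c) (by positivity)
    refine ⟨r, hr, fun e h1 w h2 w' h3 h4 => ⟨?_, ?_⟩⟩
    · have := sum_sq_le _ (fun i => h e h1 w h2 w' h3 h4 (.inl (.inl i))) (by positivity)
        (by linarith : (Fintype.card O : ℝ) ≤ c) hc1
      rwa [mul_div_cancel₀ _ hc0.ne'] at this
    · exact (h e h1 w h2 w' h3 h4 (.inr ())).trans (div_le_self hε.le hc1)
  · obtain ⟨nb, ce, ec, -, h⟩ := he (ε / c / 2) (by positivity)
    have key : ∀ w ∈ A', ∀ e ∈ A, ∀ e' ∈ A, ec e = ec e' → ∀ j : (O ⊕ O') ⊕ Unit,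
        |Sum.elim (Sum.elim (g e w) (g' w e)) (fun _ => Φ e w) j -
          Sum.elim (Sum.elim (g e' w) (g' w e')) (fun _ => Φ e' w) j| ≤ ε / c := by
      intro w h1 e h2 e' h3 h4 j
      have a1 := abs_le.1 (h e h2 w h1 j)
      have a2 := abs_le.1 (h e' h3 w h1 j)
      rw [h4] at a1
      exact abs_le.2 ⟨by linarith [a1.1, a2.2], by linarith [a1.2, a2.1]⟩
    refine ⟨nb, ec, fun w h1 e h2 e' h3 h4 => ⟨?_, ?_⟩⟩
    · have := sum_sq_le _ (fun i => key w h1 e h2 e' h3 h4 (.inl (.inr i))) (by positivity)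
        (by linarith : (Fintype.card O' : ℝ) ≤ c) hc1
      rwa [mul_div_cancel₀ _ hc0.ne'] at this
    · exact (key w h1 e h2 e' h3 h4 (.inr ())).trans (div_le_self hε.le hc1)

section emod

variable {m m' H P k M Q sp : ℕ} {Xs : Finset (Pt B)} {H' smin ε eps κ : ℝ}
  {R : Set (Γ.Ix m' → ℝ)} {w0 : Γ.Ix m' → ℤ} {e : Γ.Ix m → ℤ} {Maj : Finset (Pt B)}
  {spl : (Γ.Ix m' → ℤ) → Prop} {Z : (Γ.Ix m' → ℤ) → Finset (Pt B)}

theorem emod_zero (h : EPack Γ H Xs P k H' R M Q w0 smin ε e Maj κ spl Z) (hκ : 0 < κ)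
    (hs : smin ≤ sp) (C : Finset (Γ.Ix m' → ℤ))
    (hC : ∀ w ∈ C, (∃ b, C = zcell b sp Q w) ∧ (∀ i, (M : ℤ) ∣ w i - w0 i) ∧ scl H' w ∈ R)
    (hε : ε ≤ eps) (hD : Dm Xs (pwb Xs) (pa H) P k (cen H Xs k) ≠ 0) :
    |∑ w ∈ C, (if spl w then 1 / κ else 0) - #C| ≤ eps * #C := by
  have h1 := emod_gen h hκ hs C hC ∅ (empty_subset _) (by simp) (by simp)
  rw [filter_true_of_mem fun w _ => empty_subset _, dfac, card_empty, Nat.descFactorial_zero,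
    Nat.sub_zero, sum_empty, sub_zero, div_self hD, prod_empty] at h1
  simp only [Nat.cast_one, mul_one, one_mul, pow_zero] at h1
  exact h1.trans (mul_le_mul_of_nonneg_right hε (Nat.cast_nonneg _))

theorem emod_one (h : EPack Γ H Xs P k H' R M Q w0 smin ε e Maj κ spl Z) (hκ : 0 < κ)
    (hs : smin ≤ sp) (C : Finset (Γ.Ix m' → ℤ))
    (hC : ∀ w ∈ C, (∃ b, C = zcell b sp Q w) ∧ (∀ i, (M : ℤ) ∣ w i - w0 i) ∧ scl H' w ∈ R)
    (hε : ε ≤ eps) {x : Pt B} (hx : x ∈ Maj) (hμ : 0 ≤ pmu Xs x) :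
    |∑ w ∈ C with x ∈ Z w, (if spl w then 1 / κ else 0) -
      k * (Dm Xs (pwb Xs) (pa H) P (k - 1) (cen H Xs k - pa H x) /
        Dm Xs (pwb Xs) (pa H) P k (cen H Xs k)) * pmu Xs x * #C| ≤ eps * k * pmu Xs x * #C := by
  have h1 := emod_gen h hκ hs C hC {x} (singleton_subset_iff.2 hx) (by simp) (by simp)
  rw [filter_congr (q := fun w => x ∈ Z w) fun w _ => singleton_subset_iff, dfac, card_singleton,
    Nat.descFactorial_one, sum_singleton, prod_singleton, pow_one] at h1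
  exact h1.trans (by gcongr)

theorem emod_two (h : EPack Γ H Xs P k H' R M Q w0 smin ε e Maj κ spl Z) (hκ : 0 < κ)
    (hs : smin ≤ sp) (C : Finset (Γ.Ix m' → ℤ))
    (hC : ∀ w ∈ C, (∃ b, C = zcell b sp Q w) ∧ (∀ i, (M : ℤ) ∣ w i - w0 i) ∧ scl H' w ∈ R)
    (hε : ε ≤ eps) {x y : Pt B} (hx : x ∈ Maj) (hy : y ∈ Maj) (hxy : x.p ≠ y.p)
    (hμ : 0 ≤ pmu Xs x) (hμ' : 0 ≤ pmu Xs y) :
    |∑ w ∈ C with x ∈ Z w ∧ y ∈ Z w, (if spl w then 1 / κ else 0) -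
      k * (k - 1) * (Dm Xs (pwb Xs) (pa H) P (k - 2) (cen H Xs k - (pa H x + pa H y)) /
        Dm Xs (pwb Xs) (pa H) P k (cen H Xs k)) * pmu Xs x * pmu Xs y * #C| ≤
      eps * k ^ 2 * pmu Xs x * pmu Xs y * #C := by
  have hne : x ≠ y := fun e => hxy (e ▸ rfl)
  have h1 := emod_gen h hκ hs C hC {x, y}
    (insert_subset hx (singleton_subset_iff.2 hy)) (by
      rw [coe_pair]
      rintro u (rfl | rfl) v (rfl | rfl) e
      exacts [rfl, absurd e hxy, absurd e.symm hxy, rfl]) (card_pair hne).le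
  rw [filter_congr (q := fun w => x ∈ Z w ∧ y ∈ Z w) fun w _ => by
      rw [insert_subset_iff, singleton_subset_iff], dfac, card_pair hne,
    Nat.cast_descFactorial_two, sum_pair hne, prod_pair hne, ← mul_assoc, ← mul_assoc] at h1
  exact h1.trans (by gcongr)

end emod

theorem prod_form {ν : ℕ} {Z : Finset (Pt B)} {H : ℕ} {lam : Option (Fin ν) → ℝ} {c c' : ℝ}
    (h1 : lam none = 1) (h : ∑ x ∈ Z, Real.log x.p = 2 * ∑ s, lam (some s) + c + c') :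
    ∑ i, (Option.elim i ((c + c') / Real.log (winT H)) fun _ => 2 / Real.log (winT H)) * lam i =
      ∑ x ∈ Z, pa H x := by
  simp only [pa, Fintype.sum_option, Option.elim]
  rw [← sum_div, h, ← mul_sum, h1]
  ring

theorem one_form {ν : ℕ} {lam : Option (Fin ν) → ℝ} (h1 : lam none = 1) :
    ∑ i, (Option.elim i (1 : ℝ) fun _ => 0) * lam i = 1 := by
  simp [Fintype.sum_option, h1]

theorem sq_om_le {p : Prop} {κ κ0 φ : ℝ} (h0 : 0 < κ0) (h : κ0 ≤ κ) :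
    ((if p then 1 / κ else 0) * φ) ^ 2 ≤ (if p then 1 / κ else 0) * φ ^ 2 / κ0 := by
  split_ifs
  · have hκ : 0 < κ := h0.trans_le h
    calc (1 / κ * φ) ^ 2 = 1 / κ * φ ^ 2 / κ := by field_simp
      _ ≤ 1 / κ * φ ^ 2 / κ0 := by gcongr
  · simp

theorem mem_flt {α : Type} {p : α → Prop} {i : DecidablePred p} {s : Finset α} {a : α} :
    a ∈ @filter α p i s ↔ a ∈ s ∧ p a := mem_filter

theorem mem_fibp {D : SD} {c : D.TC} {v : D.TW} : v ∈ D.fibp c ↔ v ∈ D.Wp ∧ D.cell v = c :=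
  mem_filter

theorem mem_fib {D : SD} {c : D.TC} {v : D.TW} : v ∈ D.fib c ↔ v ∈ D.W ∧ D.cell v = c :=
  mem_filter

theorem pmu_div (Xs : Finset (Pt B)) (x : Pt B) : pmu Xs x / x.p = pwb Xs x := by
  rw [pmu, pwb, div_div, mul_assoc, sq]

end Pool.Agent.Lib.BK2.ZF
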