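import Pool.Agent.Lib.BK2.Blue1
import Pool.Agent.Lib.BK2.ADefs

/-! BK2 block ZF: the concrete families. Definitions and statements. -/

open Polynomial Finset

noncomputable section

namespace Pool.Agent.Lib.BK2

/-- `w` lies in the integer cube with corner `a` and side `s` and in the class of `w0` mod `M`. -/
def InC {I : Type} (a : I → ℤ) (s M : ℕ) (w0 w : I → ℤ) : Prop :=
  (∀ i, a i ≤ w i ∧ w i < a i + s) ∧ ∀ i, (M : ℤ) ∣ w i - w0 i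

open Classical in
/-- Counts and second moments of incidences in a class of a cube. -/
def St_ZCNT : Prop :=
  ∀ (B : Type) [CommRing B] [IsDomain B] [Algebra ℤ[X] B] (d : ℕ) [NeZero d] (Γ : Geo B d) (m : ℕ),
    Γ.dmax ≤ m → 1 ≤ m →
    ∀ (a w0 : Γ.Ix m → ℤ) (s M : ℕ) (S : Finset (Γ.Ix m → ℤ)) (η R : ℝ) (Xs : Finset (Pt B)),
    (∀ w, w ∈ S ↔ InC a s M w0 w) → 0 < M → 0 < η → Fintype.card (Γ.Ix m) * η ≤ 1 → 1 ≤ R →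
    (∀ x ∈ Xs, Nat.Coprime x.p M ∧ (x.p : ℝ) ≤ R) → 32 * M * R ^ 3 ≤ η * s →
    S.Nonempty ∧
    (∀ x ∈ Xs, |(#{w ∈ S | x.On (Γ.el w)} : ℝ) * x.p - #S| ≤
      Fintype.card (Γ.Ix m) * η * #S) ∧
    (∀ x ∈ Xs, ∀ y ∈ Xs, x ≠ y →
      |(#{w ∈ S | x.On (Γ.el w) ∧ y.On (Γ.el w)} : ℝ) * (x.p * y.p) - #S| ≤
        Fintype.card (Γ.Ix m) * η * #S) ∧
    (∀ c : Pt B → ℝ,
      ∑ w ∈ S, (∑ x ∈ Xs, c x * ((if x.On (Γ.el w) then 1 else 0) - 1 / (x.p : ℝ))) ^ 2 ≤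
        #S * (2 * ∑ x ∈ Xs, c x ^ 2 / x.p +
          Fintype.card (Γ.Ix m) * η * (∑ x ∈ Xs, |c x| / x.p) ^ 2)) ∧
    (∀ y ∈ Xs, ∀ c : Pt B → ℝ, (∀ x, x.p = y.p → c x = 0) →
      ∑ w ∈ S with y.On (Γ.el w),
          (∑ x ∈ Xs, c x * ((if x.On (Γ.el w) then 1 else 0) - 1 / (x.p : ℝ))) ^ 2 ≤
        #{w ∈ S | y.On (Γ.el w)} * (2 * ∑ x ∈ Xs, c x ^ 2 / x.p +
          Fintype.card (Γ.Ix m) * η * (∑ x ∈ Xs, |c x| / x.p) ^ 2))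

/-- Bounds, oscillation and finite partitions for a function continuous on a product of compact
sets. -/
def St_ZOSC : Prop :=
  ∀ (E W O : Type) [PseudoMetricSpace E] [PseudoMetricSpace W] [Fintype O] (A : Set E) (A' : Set W)
    (g : E → W → O → ℝ), IsCompact A → IsCompact A' → A.Nonempty →
    ContinuousOn (fun q : E × W => g q.1 q.2) (A ×ˢ A') →
    (∃ K : ℝ, 1 ≤ K ∧ ∀ e ∈ A, ∀ w ∈ A', ∀ j, |g e w j| ≤ K) ∧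
    (∀ η : ℝ, 0 < η → ∃ r : ℝ, 0 < r ∧ ∀ e ∈ A, ∀ w ∈ A', ∀ w' ∈ A', dist w w' ≤ r →
      ∀ j, |g e w j - g e w' j| ≤ η) ∧
    (∀ ε : ℝ, 0 < ε → ∃ (nb : ℕ) (ce : Fin nb → E) (ec : E → Fin nb), (∀ b, ce b ∈ A) ∧
      ∀ e ∈ A, ∀ w ∈ A', ∀ j, |g e w j - g (ce (ec e)) w j| ≤ ε)

/-- The lower density function of a cube of side `s` in dimension `n`. -/
def dns (n : ℕ) (s r : ℝ) : ℝ := (min r s / (16 * s)) ^ n / 2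

/-- A large subset of a class of an integer cube is dense in the real cube. -/
def St_ZDEN : Prop :=
  ∀ (I : Type) [Fintype I] (o : I → ℝ) (s r₀ H : ℝ) (a w0 : I → ℤ) (sd M : ℕ)
    (S G : Finset (I → ℤ)), 0 < s → 0 < r₀ → 0 < H → 0 < M →
    (∀ w, w ∈ S ↔ InC a sd M w0 w) → (∀ w ∈ S, scl H w ∈ rcube o s) →
    (∀ i, |a i - o i * H| ≤ min r₀ s * H / 8) → |sd - s * H| ≤ min r₀ s * H / 8 →
    (M : ℝ) ≤ min r₀ s * H / 8 → G ⊆ S →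
    (#S : ℝ) - #G ≤ dns (Fintype.card I) s r₀ * #S →
    ∀ (pe : G → rcube o s), (∀ g, (pe g : I → ℝ) = scl H g) →
    ∀ r ≥ r₀, ∀ z : rcube o s,
      dns (Fintype.card I) s r * Fintype.card G ≤ Nat.card {g // dist (pe g) z < r}

open Classical in
/-- The cells of the grid of side `sp` and modulus `Q` on a class of a cube made of full cells. -/
def St_ZCELL : Prop :=
  ∀ (I : Type) [Fintype I] (a b w0 : I → ℤ) (sp n M Q : ℕ) (S : Finset (I → ℤ)),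
    0 < sp → 0 < M → M ∣ Q → Q ∣ sp → (∀ i, (sp : ℤ) ∣ b i - a i) →
    (∀ w, w ∈ S ↔ InC b (n * sp) M w0 w) →
    #S = (n * sp / M) ^ Fintype.card I ∧
    ∀ w ∈ S, (∀ v, (v ∈ S ∧ lev a sp Q v = lev a sp Q w) ↔
        InC (fun i => a i + (w i - a i) / sp * sp) sp Q w v) ∧
      #{v ∈ S | lev a sp Q v = lev a sp Q w} = (sp / Q) ^ Fintype.card I

open Classical in
/-- The variance bound on the concrete families. -/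
def St_ZVAR : Prop :=
  ∀ (B : Type) [CommRing B] [IsDomain B] [Algebra ℤ[X] B] (d : ℕ) [NeZero d] (Γ : Geo B d)
    (m m' : ℕ), Γ.dmax ≤ m → 1 ≤ m → 2 * m ≤ m' → ∀ δ : ℝ, 0 < δ → ∃ K : ℝ, 1 ≤ K ∧
    ∀ (Y M0 M L H sE s sp : ℕ) (e0 aE : Γ.Ix m → ℤ) (a w0 : Γ.Ix m' → ℤ)
      (E : Finset (Γ.Ix m → ℤ)) (W Wp : Finset (Γ.Ix m' → ℤ)) (X : Finset (Pt B)) (R : ℝ),
      2 ≤ Y → 0 < M0 → 0 < M → 0 < L → 0 < H → 1 ≤ R →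
      (∀ q : ℕ, 1 ≤ q → q ≤ Y → q * M0 ∣ L) →
      Set.InjOn Pt.p (X : Set (Pt B)) → (∀ x ∈ X, Nat.Coprime x.p (M * L)) →
      (∏ x ∈ X, (x.p : ℝ)) ≤ R →
      (∀ e, e ∈ E ↔ InC aE sE M0 e0 e) → (∀ w, w ∈ W ↔ InC a s M w0 w) →
      (∀ w, w ∈ Wp ↔ InC (fun i => a i - s) (3 * s) M w0 w) →
      (∀ i, |aE i| + sE ≤ H) → δ * H ≤ sE → K * R * M0 * Y ≤ sE →
      K * M * H * (Y : ℝ) ^ 2 ≤ s → K * M * L * R ^ 2 * M0 * (Y : ℝ) ^ 4 ≤ s →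
      K * (Y : ℝ) ^ 4 * sp ≤ s → R * (M * L) ≤ sp →
      ∀ (f : (Γ.Ix m' → ℤ) → ℝ), (∀ w ∈ W, f w ≠ 0 → ∀ x ∈ X, x.On (Γ.el w)) →
      (∀ c, ∑ w ∈ W with lev a sp (M * L) w = c, f w = 0) →
      ∀ (G : Finset (Γ.Ix m → ℤ)) (F : (Γ.Ix m → ℤ) → (Γ.Ix m' → ℤ) → ℝ), G ⊆ E →
      (∀ e ∈ G, ∀ w ∈ W, F e w ≠ 0 → ∀ x ∈ X, x.On (Γ.el e)) →
      (∀ e ∈ G, ∀ w ∈ W, ∀ t : Γ.Ix (m' - m) → ℤ, w + Γ.mulv m' e t ∈ Wp →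
        F e (w + Γ.mulv m' e t) = F e w) →
      (∑ e ∈ G, ∑ w ∈ W, f w * F e w) ^ 2 ≤
        K / Y * (#E / ∏ x ∈ X, (x.p : ℝ)) * (∑ w ∈ W, f w ^ 2) * ∑ e ∈ G, ∑ w ∈ Wp, F e w ^ 2

end Pool.Agent.Lib.BK2
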