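import Pool.Agent.Lib.BK2.ZDefs
import Pool.Agent.Lib.BK2.NF0

open Polynomial Finset

noncomputable section

namespace Pool.Agent.Lib.BK2

/-- The window exists and carries a law with variance at least `1 / 200`. -/
def St_ZLAW : Prop :=
  ∀ (B : Type) [CommRing B] [IsDomain B] [Algebra ℤ[X] B] (d : ℕ) [NeZero d] (Γ : Geo B d),
    Γ.Mert → (∀ H : ℕ, ∃ Xs : Finset (Pt B), IsWin H Xs) ∧
    ∃ H0 : ℕ, ∀ H ≥ H0, ∀ Xs : Finset (Pt B), IsWin H Xs →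
      1 / 2 ≤ mbar Xs ∧ mbar Xs ≤ 1 ∧ Law Xs (pwb Xs) (pa H) (1 / 200)

open Classical in
/-- Second moment on any family: test functions on the window points of a section. -/
def St_ZSM : Prop :=
  ∀ (B : Type) [CommRing B] [IsDomain B] [Algebra ℤ[X] B] (d : ℕ) [NeZero d] (Γ : Geo B d)
    (m : ℕ), Γ.dmax + 1 ≤ m → ∀ (H : ℕ) (Xs : Finset (Pt B)), IsWin H Xs → 1 / 2 ≤ mbar Xs →
    ∀ (a cl : Γ.Ix m → ℤ) (s Q : ℕ) (η : ℝ), 0 < Q → (∀ x ∈ Xs, Nat.Coprime x.p Q) →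
    0 < η → Fintype.card (Γ.Ix m) * η ≤ 1 / 8 → 1 ≤ winT H → Q * winT H ^ 4 ≤ η * s →
    ∀ g : Pt B → ℝ,
      ∑ e ∈ zcell a s Q cl, (∑ x ∈ Xs.filter (fun x => x.On (Γ.el e)), pmu Xs x * g x -
          ∑ x ∈ Xs, pwb Xs x * g x) ^ 2 ≤
        (zcell a s Q cl).card * ((4 / winT H + 32 * Fintype.card (Γ.Ix m) * η) *
          ∑ x ∈ Xs, pwb Xs x * g x ^ 2)

open Classical in
/-- All but a fraction `η'` of the family is good. -/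
def St_ZG : Prop :=
  ∀ (B : Type) [CommRing B] [IsDomain B] [Algebra ℤ[X] B] (d : ℕ) [NeZero d] (Γ : Geo B d),
    Γ.Mert → ∃ KG : ℝ, ∀ m : ℕ, Γ.dmax + 1 ≤ m → d ≤ m →
    ∀ η' : ℝ, 0 < η' → ∃ Q : ℕ, 0 < Q ∧
    ∀ (M0 : ℕ) (e0 : Γ.Ix m → ℤ), 0 < M0 → Q ∣ M0 →
    (∀ e : Γ.Ix m → ℤ, (∀ i, e i ≡ e0 i [ZMOD M0]) →
      Irreducible ((Γ.nrm (Γ.el e)).map (Int.castRingHom ℚ)) ∧
      (Γ.nrm (Γ.el e)).natDegree = m * d ∧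
      ∀ q : ℕ, q.Prime → q ∣ M0 → (Γ.nrm (Γ.el e)).map (Int.castRingHom (ZMod q)) ≠ 0) →
    ∀ (R δ η : ℝ) (P : ℕ), 0 < δ → 0 < η →
    ∃ Y0 H0 : ℕ, ∀ H ≥ H0, ∀ Y ≥ Y0, (Y : ℝ) ≤ winT H → ∀ Xs : Finset (Pt B), IsWin H Xs →
    ∀ (a : Γ.Ix m → ℤ) (s : ℕ), δ * H ≤ s → (∀ e ∈ zcell a s M0 e0, ∀ i, |(e i : ℝ)| ≤ R * H) →
      (zcell a s M0 e0).Nonempty ∧
      (((zcell a s M0 e0).filter fun e => ¬ GoodE Γ H Xs η KG Y P e).card : ℝ) ≤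
        η' * (zcell a s M0 e0).card

open Classical in
/-- The list of the `k` and the choice of a zone that is free for most `e`. -/
def St_ZONE : Prop :=
  ∀ (C1 N k0 : ℕ) (β : ℕ → ℝ) (η' : ℝ), 0 < N → (∀ k, 0 < β k) → 0 < η' →
    ∃ Ks : Finset ℕ, (∀ k ∈ Ks, k0 ≤ k ∧ N ∣ k) ∧
      ∀ (E : Type) (G : Finset E) (Bad : E → Finset ℝ), (∀ e ∈ G, (Bad e).card ≤ C1) →
        ∃ k ∈ Ks, ((G.filter fun e => ¬ ∀ b ∈ Bad e, b ≤ β k ∨ 1 / Real.sqrt k < b).card : ℝ) ≤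
          η' * G.card

open Classical in
/-- What a good curve and its majority set give: masses, one prime, Gram form of `(1, a)`. -/
def St_ZMAJ : Prop :=
  ∀ (B : Type) [CommRing B] [IsDomain B] [Algebra ℤ[X] B] (d : ℕ) [NeZero d] (Γ : Geo B d)
    (m H Y P : ℕ) (Xs : Finset (Pt B)) (η KG c0 epm : ℝ) (e : Γ.Ix m → ℤ) (Maj : Finset (Pt B)),
    IsWin H Xs → 1 ≤ winT H → 1 / 2 ≤ mbar Xs → Law Xs (pwb Xs) (pa H) c0 →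
    GoodE Γ H Xs η KG Y P e → Maj ⊆ Xs.filter (fun x => x.On (Γ.el e)) →
    ∑ x ∈ Xs.filter (fun x => x.On (Γ.el e)) \ Maj, pmu Xs x ≤ epm → 0 < c0 →
    η + epm ≤ c0 / 200 →
    ∑ x ∈ Xs.filter (fun x => x.On (Γ.el e)), pmu Xs x ≤ 1 + η ∧
    |∑ x ∈ Maj, pmu Xs x - 1| ≤ η + epm ∧
    (∀ p : ℕ, ∑ x ∈ (Xs.filter fun x => x.On (Γ.el e)).filter (fun x => x.p = p), pmu Xs x ≤
      2 * (m * d * d) / winT H) ∧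
    ∀ u v : ℝ, c0 / 20 * (u ^ 2 + v ^ 2) ≤ ∑ x ∈ Maj, pmu Xs x * (u + v * pa H x) ^ 2

end Pool.Agent.Lib.BK2
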