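import Pool.Agent.Lib.BK2.ZFDefs
import Pool.Agent.Lib.BK2.ZGDefs
import Pool.Agent.Lib.BK2.SDefs
import Pool.Agent.Lib.BK2.Blue0

/-! BK2 block ZF: the concrete instance of the spectral data. Definitions and statements. -/

open Polynomial Finset
open scoped Classical

noncomputable section

namespace Pool.Agent.Lib.BK2

/-- the bound of the small primes -/
def zY (H : ℕ) : ℕ := ⌊Real.log H / 7⌋₊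

/-- the modulus made of the small primes -/
def zL (M0 H : ℕ) : ℕ := M0 * Nat.lcmUpto (zY H)

/-- the family of the curves `e` -/
def zE {I : Type} [Fintype I] (o : I → ℝ) (s : ℝ) (M0 : ℕ) (e0 : I → ℤ) (H : ℕ) : Finset (I → ℤ) :=
  zcell (fun i => ⌈o i * H⌉) ⌊s * H⌋₊ M0 e0

/-- `G`, scaled by `1 / H`, has lower density `dns` in all balls of radius `≥ r₀` of the cube -/
def DenseIn {I : Type} [Fintype I] (o : I → ℝ) (s r₀ H : ℝ) (G : Finset (I → ℤ)) : Prop :=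
  ∀ (pe : G → rcube o s), (∀ g, (pe g : I → ℝ) = scl H g) → ∀ r ≥ r₀, ∀ z : rcube o s,
    dns (Fintype.card I) s r * Fintype.card G ≤ Nat.card {g // dist (pe g) z < r}

/-- Facts on the parameters and on the family of the `e`. -/
def St_ZPAR : Prop :=
  ∀ (I : Type) [Fintype I] (o : I → ℝ) (s : ℝ), 0 < s → ∃ R : ℕ, 0 < R ∧
    ∀ (r₀ C : ℝ) (M0 Y0 : ℕ) (e0 : I → ℤ), 0 < r₀ → 0 < M0 → ∃ H0 : ℕ, ∀ H ≥ H0,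
      1 / 8 * Real.log H ≤ zY H ∧ (zY H : ℝ) ≤ Real.log H ∧ zL M0 H ≤ H ∧ 0 < zL M0 H ∧
      (∀ q : ℕ, q.Prime → (q ∣ zL M0 H ↔ q ≤ zY H)) ∧
      (∀ q : ℕ, 1 ≤ q → q ≤ zY H → q * M0 ∣ zL M0 H) ∧ Y0 ≤ zY H ∧ (zY H : ℝ) < winT H ∧
      C ≤ Real.log H ∧ C * Real.log H ^ 5 ≤ winT H ∧ winT H ^ 20 = H ∧
      s / 2 * H ≤ ⌊s * H⌋₊ ∧ (∀ i, |⌈o i * H⌉| + ⌊s * H⌋₊ ≤ (R * H : ℕ)) ∧
      (∀ e ∈ zE o s M0 e0 H, (∀ i, |(e i : ℝ)| ≤ R * H) ∧ scl H e ∈ rcube o s) ∧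
      ∀ G ⊆ zE o s M0 e0 H, (#(zE o s M0 e0 H) : ℝ) - #G ≤
        dns (Fintype.card I) s r₀ * #(zE o s M0 e0 H) → DenseIn o s r₀ H G

/-- The grid of the `w`: a cube of `n` cells of side `sp` per coordinate. -/
def St_ZGRID : Prop :=
  ∀ (I : Type) [Fintype I] (o : I → ℝ) (s r₀ H' : ℝ) (n M Q : ℕ) (w0 : I → ℤ), 0 < s → 0 < r₀ →
    0 < H' → 0 < n → 0 < M → 0 < Q → M ∣ Q → (n * Q : ℝ) ≤ min r₀ s * H' / 8 →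
    ∃ (a : I → ℤ) (sp : ℕ) (W Wp : Finset (I → ℤ)), s * H' / 2 ≤ n * sp ∧ (n * sp : ℝ) ≤ s * H' ∧
      (∀ w, w ∈ W ↔ InC a (n * sp) M w0 w) ∧
      (∀ w, w ∈ Wp ↔ InC (fun i => a i - (n * sp : ℕ)) (3 * (n * sp)) M w0 w) ∧
      W.Nonempty ∧ W ⊆ Wp ∧ #Wp = 3 ^ Fintype.card I * #W ∧
      (∀ w ∈ W, scl H' w ∈ rcube o s) ∧
      (∀ w ∈ Wp, scl H' w ∈ rcube (fun i => o i - 2 * s) (5 * s)) ∧
      (∀ w ∈ W, ∀ w' ∈ Wp, lev a sp Q w' = lev a sp Q w → w' ∈ W) ∧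
      (∀ w ∈ Wp, ∃ b : I → ℤ, ({v ∈ Wp | lev a sp Q v = lev a sp Q w} : Finset _) =
        zcell b sp Q w) ∧
      (∀ w w', lev a sp Q w = lev a sp Q w' → dist (scl H' w) (scl H' w') ≤ s / n) ∧
      ∀ V ⊆ W, (#W : ℝ) - #V ≤ dns (Fintype.card I) s r₀ * #W → DenseIn o s r₀ H' V

variable {B : Type} [CommRing B] [Algebra ℤ[X] B] {d : ℕ} [NeZero d]

/-- the window points on a section -/
def onS (Γ : Geo B d) {m : ℕ} (Xs : Finset (Pt B)) (e : Γ.Ix m → ℤ) : Finset (Pt B) :=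
  Xs.filter fun x => x.On (Γ.el e)

/-- Counts and second moments in a class of a cube, in the normalisation of the window. -/
def St_ZWIN : Prop :=
  ∀ (B : Type) [CommRing B] [IsDomain B] [Algebra ℤ[X] B] (d : ℕ) [NeZero d] (Γ : Geo B d) (m : ℕ),
    Γ.dmax + 1 ≤ m → ∀ (H : ℕ) (Xs : Finset (Pt B)), IsWin H Xs → 1 / 2 ≤ mbar Xs →
    ∀ (a w0 : Γ.Ix m → ℤ) (s M : ℕ) (S : Finset (Γ.Ix m → ℤ)) (del : ℝ),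
    (∀ w, w ∈ S ↔ InC a s M w0 w) → 0 < M → (∀ x ∈ Xs, Nat.Coprime x.p M) → 0 < del → del ≤ 1 →
    8 * d ≤ del * winT H → 64 * Fintype.card (Γ.Ix m) * M * winT H ^ 6 ≤ del * s →
    S.Nonempty ∧ (∀ q : ℕ, ∑ x ∈ Xs with x.p = q, pmu Xs x / x.p ≤ del) ∧
    (∀ x ∈ Xs, |(x.p : ℝ) * #{w ∈ S | x ∈ onS Γ Xs w} - #S| ≤ del * #S) ∧
    (∀ x ∈ Xs, ∀ y ∈ Xs, x ≠ y →
      |(x.p : ℝ) * y.p * #{w ∈ S | x ∈ onS Γ Xs w ∧ y ∈ onS Γ Xs w} - #S| ≤ del * #S) ∧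
    (∀ g : Pt B → ℝ,
      ∑ w ∈ S, (∑ x ∈ onS Γ Xs w, g x * pmu Xs x - ∑ x ∈ Xs, g x * (pmu Xs x / x.p)) ^ 2 ≤
        del * #S * ∑ x ∈ Xs, g x ^ 2 * (pmu Xs x / x.p)) ∧
    (∀ y ∈ Xs, ∀ g : Pt B → ℝ, (∀ x, x.p = y.p → g x = 0) →
      y.p * ∑ w ∈ S with y ∈ onS Γ Xs w,
          (∑ x ∈ onS Γ Xs w, g x * pmu Xs x - ∑ x ∈ Xs, g x * (pmu Xs x / x.p)) ^ 2 ≤
        2 * del * #S * ∑ x ∈ Xs, g x ^ 2 * (pmu Xs x / x.p))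

/-- The concrete spectral data. -/
def mkSD (Γ : Geo B d) {m m' ν ν' : ℕ} {U : Set (Γ.Ix m → ℝ)} {U' : Set (Γ.Ix m' → ℝ)}
    (ρ : Γ.Roots m ν U) (ρ' : Γ.Roots m' ν' U') (Φ : (Γ.Ix m → ℝ) → (Γ.Ix m' → ℝ) → ℝ) (H : ℕ)
    (H' : ℝ) (Xs : Finset (Pt B)) (P k nb : ℕ) (ec : (Γ.Ix m → ℝ) → Fin nb)
    (G : Finset (Γ.Ix m → ℤ)) (W Wp : Finset (Γ.Ix m' → ℤ)) (a : Γ.Ix m' → ℤ) (sp Q : ℕ)
    (Maj : (Γ.Ix m → ℤ) → Finset (Pt B)) (κ : (Γ.Ix m → ℤ) → ℝ)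
    (spl : (Γ.Ix m → ℤ) → (Γ.Ix m' → ℤ) → Prop)
    (Z : (Γ.Ix m → ℤ) → (Γ.Ix m' → ℤ) → Finset (Pt B)) : SD where
  TE := Γ.Ix m → ℤ
  TW := Γ.Ix m' → ℤ
  TX := Pt B
  TC := Γ.Ix m' → ℤ × ℤ
  O := Option (Fin ν)
  O' := Option (Fin ν')
  k := k
  b := nb
  G := G
  W := W
  Wp := Wp
  X := Xs
  p := Pt.p
  a := pa H
  mu := pmu Xs
  onE := onS Γ Xs
  onW := onS Γ Xs
  Maj := Maj
  om e w := if spl e w then 1 / κ e else 0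
  Z := Z
  cell := lev a sp Q
  ecell e := ec (scl H e)
  d1 x := Dm Xs (pwb Xs) (pa H) P (k - 1) (cen H Xs k - pa H x) /
    Dm Xs (pwb Xs) (pa H) P k (cen H Xs k)
  d2 x y := Dm Xs (pwb Xs) (pa H) P (k - 2) (cen H Xs k - (pa H x + pa H y)) /
    Dm Xs (pwb Xs) (pa H) P k (cen H Xs k)
  lam e w := ρ.lam (scl H e) (scl H' w)
  lam' w e := ρ'.lam (scl H' w) (scl H e)
  Phi e w := Φ (scl H e) (scl H' w)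

/-- Block ZF, final output: the concrete data satisfy the hypotheses of section S. -/
def St_ZF : Prop :=
  ∀ (B : Type) [CommRing B] [IsDomain B] [Algebra ℤ[X] B] (d : ℕ) [NeZero d] (Γ : Geo B d)
    (m m' ν ν' : ℕ) (U : Set (Γ.Ix m → ℝ)) (U' : Set (Γ.Ix m' → ℝ)) (ρ : Γ.Roots m ν U)
    (ρ' : Γ.Roots m' ν' U') (Φ : (Γ.Ix m → ℝ) → (Γ.Ix m' → ℝ) → ℝ) (o : Γ.Ix m → ℝ) (s : ℝ)
    (o' : Γ.Ix m' → ℝ) (s' : ℝ), Γ.dmax + 1 ≤ m → 2 * m ≤ m' → 0 < s → 0 < s' → rcube o s ⊆ U →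
    rcube (fun i => o' i - 2 * s') (5 * s') ⊆ U' →
    ContinuousOn (fun q : (Γ.Ix m → ℝ) × (Γ.Ix m' → ℝ) => ρ.lam q.1 q.2) (rcube o s ×ˢ U') →
    ContinuousOn (fun q : (Γ.Ix m → ℝ) × (Γ.Ix m' → ℝ) => ρ'.lam q.2 q.1) (rcube o s ×ˢ U') →
    ContinuousOn (fun q : (Γ.Ix m → ℝ) × (Γ.Ix m' → ℝ) => Φ q.1 q.2) (rcube o s ×ˢ U') →
  ∃ (K : ℝ) (k0 : ℕ), ∀ eps : ℝ, 0 < eps → eps ≤ 1 / 100 →
  ∃ (nb : ℕ) (ec : (Γ.Ix m → ℝ) → Fin nb),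
  ∀ (del ck r₀ : ℝ) (M0 N : ℕ) (e0 : Γ.Ix m → ℤ), 0 < del → del ≤ eps → 0 < ck → 0 < r₀ → 0 < M0 →
    0 < N →
  ∃ H0 : ℕ, ∀ H ≥ H0, ∀ Xs : Finset (Pt B), IsWin H Xs → 1 / 2 ≤ mbar Xs → mbar Xs ≤ 1 →
    Law Xs (pwb Xs) (pa H) (1 / 200) → ∀ (w0 : Γ.Ix m' → ℤ) (H' : ℝ), (H : ℝ) ^ 4 ≤ H' →
  ∃ (W Wp : Finset (Γ.Ix m' → ℤ)) (a : Γ.Ix m' → ℤ) (sp : ℕ), W.Nonempty ∧
    (∀ w ∈ W, scl H' w ∈ rcube o' s' ∧ scl H' w ∈ rcube (fun i => o' i - 2 * s') (5 * s') ∧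
      ∀ i, ((N ^ 2 * zL M0 H : ℕ) : ℤ) ∣ w i - w0 i) ∧
    (∀ V ⊆ W, (#W : ℝ) - #V ≤ dns (Fintype.card (Γ.Ix m')) s' r₀ * #W → DenseIn o' s' r₀ H' V) ∧
  ∀ (k P : ℕ) (η KG c1 : ℝ) (G : Finset (Γ.Ix m → ℤ)) (Maj : (Γ.Ix m → ℤ) → Finset (Pt B))
    (κ : (Γ.Ix m → ℤ) → ℝ) (spl : (Γ.Ix m → ℤ) → (Γ.Ix m' → ℤ) → Prop)
    (Z : (Γ.Ix m → ℤ) → (Γ.Ix m' → ℤ) → Finset (Pt B)),
    k0 ≤ k → k ≤ P → Real.exp (-Real.sqrt k / 8) ≤ eps → η ≤ 1 / 40000 → 0 < c1 →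
    G ⊆ zE o s M0 e0 H → #(zE o s M0 e0 H) ≤ 2 * #G →
    (∀ e ∈ G, GoodE Γ H Xs η KG (zY H) P e ∧ Maj e ⊆ Xs.filter (fun x => x.On (Γ.el e)) ∧
      ∑ x ∈ Xs.filter (fun x => x.On (Γ.el e)) \ Maj e, pmu Xs x ≤ del ∧
      ck * Real.log (zY H) / Real.log H ≤ κ e ∧
      EPack Γ H Xs P k H' (rcube (fun i => o' i - 2 * s') (5 * s')) (N ^ 2 * zL M0 H)
        (N ^ 2 * zL M0 H * zL M0 H) w0 (H' / Real.log H ^ 5) (Real.exp (-Real.sqrt k / 8)) e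
        (Maj e) (κ e) (spl e) (Z e)) →
    (∀ e ∈ G, ∀ C : Option (Fin ν) → ℝ, c1 * (∑ i, C i ^ 2) * #W ≤
      ∑ w ∈ W, (∑ i, C i * ρ.lam (scl H e) (scl H' w) i) ^ 2) →
    (mkSD Γ ρ ρ' Φ H H' Xs P k nb ec G W Wp a sp (N ^ 2 * zL M0 H * zL M0 H) Maj κ spl Z).Hyp
      K c1 eps del

end Pool.Agent.Lib.BK2
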