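import Pool.Agent.Lib.BK2.ZZ
import Pool.Agent.Lib.BK2.Fin0
import Pool.Agent.Lib.BK2.R
import Pool.Agent.Lib.BK2.KAll
import Pool.Agent.Lib.BK2.APst
import Pool.Agent.Lib.BK2.GAll
import Pool.Agent.Lib.BK2.WMert

/-! BK2: the main statement from the remaining blocks. -/

noncomputable section

namespace Pool.Agent.Lib.BK2

theorem stBK2_of_blocks (hZE : St_ZE) (hZG : St_ZG) (hLAW : St_ZLAW) (hZONE : St_ZONE)
    (hPAR : St_ZPAR) (hZF : St_ZF) (hS : St_S) : StBK2 :=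
  stBK2_of fun L _ _ n y hy ω hω ι _ γ a hreg => by
    obtain ⟨B, _, _, _, d, _, Γ, μ, hW, hI⟩ := stG L n y hy
    exact ZZ.main stR0 hZE hZG hLAW hZONE hPAR hZF hS stK_all stAP Γ μ (stWM B d Γ hW) hI.irr0 ω hω
      ι γ a hreg

end Pool.Agent.Lib.BK2
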