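import Pool.Agent.Lib.BK2.ZGPrim
import Pool.Agent.Lib.BK2.ZFDefs

open Polynomial Finset

namespace Pool.Agent.Lib.BK2

namespace ZG

theorem cheb {α : Type} (S : Finset α) (f : α → ℝ) (τ b : ℝ) (hτ : 0 < τ)
    [DecidablePred fun w => τ < |f w|] (h : ∑ w ∈ S, f w ^ 2 ≤ #S * b) :
    (#{w ∈ S | τ < |f w|} : ℝ) ≤ b / τ ^ 2 * #S := by
  have h1 : ∑ w ∈ S with τ < |f w|, τ ^ 2 ≤ ∑ w ∈ S with τ < |f w|, f w ^ 2 :=
    sum_le_sum fun w hw => by
      rw [← sq_abs (f w)]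
      exact pow_le_pow_left₀ hτ.le (mem_filter.1 hw).2.le 2
  have h2 : ∑ w ∈ S with τ < |f w|, f w ^ 2 ≤ ∑ w ∈ S, f w ^ 2 :=
    sum_le_sum_of_subset_of_nonneg (filter_subset _ _) fun _ _ _ => sq_nonneg _
  rw [sum_const, nsmul_eq_mul] at h1
  rw [div_mul_eq_mul_div, le_div_iff₀ (by positivity)]
  linarith

theorem mem_zcell {I : Type} [Fintype I] (a cl : I → ℤ) (s Q : ℕ) (w : I → ℤ) :
    w ∈ zcell a s Q cl ↔ InC a s Q cl w := by
  simp only [zcell, InC, mem_filter, Fintype.mem_piFinset, mem_Ico]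

theorem norm_ee (x : ℝ) : ‖ee x‖ = 1 := by
  unfold ee
  have : (2 * Real.pi * x * Complex.I : ℂ) = ((2 * Real.pi * x : ℝ) : ℂ) * Complex.I := by
    push_cast
    ring
  rw [this, Complex.norm_exp_ofReal_mul_I]

variable {B : Type} [CommRing B]

open Classical in
/-- deviation of a weighted point count on the divisor of `f` -/
noncomputable def dev (Xs : Finset (Pt B)) (c : Pt B → ℝ) (f : B) : ℝ :=
  ∑ x ∈ Xs, c x * ((if x.On f then 1 else 0) - 1 / (x.p : ℝ))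

open Classical in
theorem dev_eq (Xs : Finset (Pt B)) (c : Pt B → ℝ) (f : B) :
    dev Xs c f = ∑ x ∈ Xs.filter (fun x => x.On f), c x - ∑ x ∈ Xs, c x / x.p := by
  unfold dev
  rw [sum_filter, ← sum_sub_distrib]
  refine sum_congr rfl fun x _ => ?_
  split_ifs <;> ring

open Classical in
theorem dev_test (Xs : Finset (Pt B)) (g : Pt B → ℝ) (f : B) :
    dev Xs (fun x => pmu Xs x * g x) f =
      ∑ x ∈ Xs.filter (fun x => x.On f), pmu Xs x * g x - ∑ x ∈ Xs, pwb Xs x * g x := by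
  rw [dev_eq]
  congr 1
  exact sum_congr rfl fun x _ => by rw [← pmu_div]; ring

theorem test_bound {H : ℕ} {Xs : Finset (Pt B)} (hW : IsWin H Xs) (hT : 0 < winT H)
    (hm : 1 / 2 ≤ mbar Xs) (g : Pt B → ℝ) (hg : ∀ x ∈ Xs, |g x| ≤ 4) :
    ∑ x ∈ Xs, (pmu Xs x * g x) ^ 2 / x.p ≤ 32 / winT H ∧
      (∑ x ∈ Xs, |pmu Xs x * g x| / x.p) ^ 2 ≤ 16 := by
  have h1 := pwb_one Xs (by linarith)
  constructor
  · calc ∑ x ∈ Xs, (pmu Xs x * g x) ^ 2 / x.p ≤ ∑ x ∈ Xs, pwb Xs x * (32 / winT H) := by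
          refine sum_le_sum fun x hx => ?_
          have a1 := pmu_le hW hT hm hx
          have a2 : g x ^ 2 ≤ 16 := by
            have := abs_le.1 (hg x hx)
            nlinarith
          have a3 : pmu Xs x * g x ^ 2 ≤ 2 / winT H * 16 :=
            mul_le_mul a1 a2 (sq_nonneg _) (by positivity)
          calc (pmu Xs x * g x) ^ 2 / x.p = pwb Xs x * (pmu Xs x * g x ^ 2) := by
                rw [← pmu_div]; ring
            _ ≤ pwb Xs x * (2 / winT H * 16) := mul_le_mul_of_nonneg_left a3 (pwb_nn Xs x)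
            _ = pwb Xs x * (32 / winT H) := by ring
      _ = 32 / winT H := by rw [← sum_mul, h1, one_mul]
  · have a1 : ∑ x ∈ Xs, |pmu Xs x * g x| / x.p ≤ ∑ x ∈ Xs, pwb Xs x * 4 := by
      refine sum_le_sum fun x hx => ?_
      rw [abs_mul, abs_of_nonneg (pmu_nn Xs x), mul_div_right_comm, pmu_div]
      exact mul_le_mul_of_nonneg_left (hg x hx) (pwb_nn Xs x)
    rw [← sum_mul, h1, one_mul] at a1
    have a2 : 0 ≤ ∑ x ∈ Xs, |pmu Xs x * g x| / x.p := sum_nonneg fun _ _ => by positivity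
    nlinarith

theorem chf_re (S : Finset (Pt B)) (w a : Pt B → ℝ) (θ : ℝ) :
    (chf S w a θ).re = ∑ x ∈ S, w x * (ee (θ * a x)).re := by
  simp [chf]

theorem chf_im (S : Finset (Pt B)) (w a : Pt B → ℝ) (θ : ℝ) :
    (chf S w a θ).im = ∑ x ∈ S, w x * (ee (θ * a x)).im := by
  simp [chf]

variable [IsDomain B] [Algebra ℤ[X] B] {d : ℕ} [NeZero d]

open Classical in
theorem sum_pts_le (hM : St_MODP) (Γ : Geo B d) (S : Finset (Pt B)) (T : Finset ℕ)
    (h : ∀ x ∈ S, x.p ∈ T) (f : ℕ → ℝ) (hf : ∀ p, 0 ≤ f p) :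
    ∑ x ∈ S, f x.p ≤ ∑ p ∈ T, d * p * f p := by
  rw [← sum_fiberwise_of_maps_to (g := fun x : Pt B => x.p) h]
  refine sum_le_sum fun p _ => ?_
  rw [sum_congr rfl (g := fun _ => f p) fun x hx => by rw [(mem_filter.1 hx).2]]
  rw [sum_const, nsmul_eq_mul]
  refine mul_le_mul_of_nonneg_right ?_ (hf p)
  exact_mod_cast fib_le hM Γ p S

theorem low_bound (hM : St_MODP) (Γ : Geo B d) (S : Finset (Pt B)) (Y : ℕ) (T : ℝ) (hY : 1 ≤ Y)
    (hT : (Y : ℝ) ≤ T) (h : ∀ x ∈ S, (Y : ℝ) < x.p ∧ (x.p : ℝ) ≤ T) :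
    ∑ x ∈ S, (1 / (x.p : ℝ)) ^ 2 / (x.p : ℝ) ≤ (d : ℝ) / Y ∧
      (∑ x ∈ S, |1 / (x.p : ℝ)| / (x.p : ℝ)) ^ 2 ≤ (d : ℝ) ^ 2 * T ^ 2 := by
  have hm : ∀ x ∈ S, x.p ∈ Finset.Ioc Y ⌊T⌋₊ := fun x hx =>
    mem_Ioc.2 ⟨by exact_mod_cast (h x hx).1, Nat.le_floor (h x hx).2⟩
  have hp : ∀ p ∈ Finset.Ioc Y ⌊T⌋₊, (1 : ℝ) ≤ p := fun p hp => by
    have := (mem_Ioc.1 hp).1
    exact_mod_cast (by omega : 1 ≤ p)
  constructor
  · refine (sum_pts_le hM Γ S _ hm (fun p => (1 / (p : ℝ)) ^ 2 / p) fun p => by positivity).trans ?_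
    have h1 : ∑ p ∈ Finset.Ioc Y ⌊T⌋₊, (d : ℝ) * p * ((1 / (p : ℝ)) ^ 2 / p) =
        d * ∑ p ∈ Finset.Ioc Y ⌊T⌋₊, ((p : ℝ) ^ 2)⁻¹ := by
      rw [mul_sum]
      refine sum_congr rfl fun p hp' => ?_
      have := hp p hp'
      field_simp
    have h2 := sum_Ioc_inv_sq_le_sub (α := ℝ) (k := Y) (n := ⌊T⌋₊) (by omega) (Nat.le_floor hT)
    have h3 : (0 : ℝ) ≤ ((⌊T⌋₊ : ℕ) : ℝ)⁻¹ := by positivity
    rw [h1, div_eq_mul_inv]
    exact mul_le_mul_of_nonneg_left (by linarith) (by positivity)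
  · have h0 : (0 : ℝ) ≤ T := le_trans (by positivity) hT
    rw [← mul_pow]
    refine pow_le_pow_left₀ (sum_nonneg fun _ _ => by positivity) ?_ 2
    refine (sum_pts_le hM Γ S _ hm (fun p => |1 / (p : ℝ)| / p) fun p => by positivity).trans ?_
    calc ∑ p ∈ Finset.Ioc Y ⌊T⌋₊, (d : ℝ) * p * (|1 / (p : ℝ)| / p)
        ≤ ∑ p ∈ Finset.Ioc Y ⌊T⌋₊, (d : ℝ) := by
          refine sum_le_sum fun p hp' => ?_
          have := hp p hp'
          rw [abs_of_nonneg (by positivity)]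
          have e : (d : ℝ) * p * (1 / (p : ℝ) / p) = d * (1 / p) := by field_simp
          rw [e]
          exact mul_le_of_le_one_right (by positivity) (by rw [div_le_one (by linarith)]; exact this)
      _ = (#(Finset.Ioc Y ⌊T⌋₊) : ℝ) * d := by rw [sum_const, nsmul_eq_mul]
      _ ≤ T * d := by
          refine mul_le_mul_of_nonneg_right ?_ (by positivity)
          refine le_trans ?_ (Nat.floor_le h0)
          exact_mod_cast (by simp : #(Finset.Ioc Y ⌊T⌋₊) ≤ ⌊T⌋₊)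
      _ = d * T := mul_comm _ _

end ZG

open Classical ZG in
theorem stZG (hM : St_MODP) (hN : St_NRM) (hP : St_PRIM1) (hC : St_ZCNT) : St_ZG := by
  intro B _ _ _ d _ Γ hMe
  obtain ⟨K, hK0, hK⟩ := mert_both hM Γ hMe
  obtain ⟨H2, hH2⟩ := (stZLAW hM B d Γ hMe).2
  refine ⟨1 + 2 * K, fun m hm hd η' hη' => ?_⟩
  obtain ⟨Q, hQ, hprim⟩ := prim_frac hP hN Γ m (by omega) hd (η' / 3) (by positivity)
  refine ⟨Q, hQ, fun M0 e0 hM0 hQM hI R δ η P hδ hη => ?_⟩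
  obtain ⟨H1, hH1⟩ := hprim M0 e0 hM0 hQM hI R δ hδ
  obtain ⟨r, hr⟩ : ∃ r : ℝ, r = Fintype.card (Γ.Ix m) := ⟨_, rfl⟩
  have hr0 : 0 ≤ r := by rw [hr]; positivity
  obtain ⟨Nt, hNt⟩ : ∃ N : ℝ, N = 2 * #(frq P) + 3 := ⟨_, rfl⟩
  have hNt0 : 0 ≤ Nt := by rw [hNt]; positivity
  obtain ⟨H3, hH3⟩ := winT_large (1 + M0 + 32 * M0 / δ + r +
    Nt * (64 + 16 * r) * 12 / (η ^ 2 * η') + 6 * (r * d ^ 2) / η')
  obtain ⟨Y1, hY1⟩ := exists_nat_ge (12 * d / η')
  refine ⟨2 + M0 + Y1, H1 + H2 + H3, fun H hH Y hY hYT Xs hW a s hs hR => ?_⟩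
  have hT := hH3 H (by omega)
  obtain ⟨hm1, -, hL⟩ := hH2 H (by omega) Xs hW
  have hpr := hH1 H (by omega) a s hs hR
  obtain ⟨T, hTd⟩ : ∃ T, T = winT H := ⟨_, rfl⟩
  have hT20 : T ^ 20 = H := by rw [hTd]; exact winT_pow H
  rw [← hTd] at hT hYT
  have q1 : (0 : ℝ) ≤ M0 := by positivity
  have q2 : 0 ≤ 32 * (M0 : ℝ) / δ := by positivity
  have q3 : 0 ≤ Nt * (64 + 16 * r) * 12 / (η ^ 2 * η') := by positivity
  have q4 : 0 ≤ 6 * (r * d ^ 2) / η' := by positivity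
  have t1 : 1 ≤ T := by linarith
  have t0 : 0 < T := by linarith
  have t2 : (M0 : ℝ) < T := by linarith
  have t3 : 32 * (M0 : ℝ) ≤ T * δ := by rw [← div_le_iff₀ hδ]; linarith
  have t4 : r ≤ T := by linarith
  have t5 : Nt * (64 + 16 * r) * 12 ≤ T * (η ^ 2 * η') := by
    rw [← div_le_iff₀ (by positivity)]; linarith
  have t6 : 6 * (r * d ^ 2) ≤ T * η' := by rw [← div_le_iff₀ hη']; linarith
  have tT3 : T ≤ T ^ 3 := le_self_pow₀ t1 (by norm_num)
  have tT2 : T ≤ T ^ 2 := le_self_pow₀ t1 (by norm_num)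
  have y2 : (2 : ℝ) ≤ Y := by exact_mod_cast (by omega : 2 ≤ Y)
  have y3 : 12 * (d : ℝ) ≤ Y * η' := by
    rw [← div_le_iff₀ hη']
    exact hY1.trans (by exact_mod_cast (by omega : Y1 ≤ Y))
  obtain ⟨S, hS⟩ : ∃ S, S = zcell a s M0 e0 := ⟨_, rfl⟩
  rw [← hS] at hpr ⊢
  have hcnt : ∀ Z : Finset (Pt B), (∀ x ∈ Z, M0 < x.p ∧ (x.p : ℝ) ≤ T ^ 2) → S.Nonempty ∧
      ∀ c : Pt B → ℝ, ∑ w ∈ S, dev Z c (Γ.el w) ^ 2 ≤
        #S * (2 * ∑ x ∈ Z, c x ^ 2 / x.p + r * (1 / T ^ 3) * (∑ x ∈ Z, |c x| / x.p) ^ 2) := by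
    intro Z hZ
    have := hC B d Γ m (by omega) (by omega) a e0 s M0 S (1 / T ^ 3) (T ^ 2) Z
      (fun w => by rw [hS]; exact mem_zcell a e0 s M0 w) hM0 (by positivity)
      (by rw [← hr, mul_one_div, div_le_one (by positivity)]; linarith) (by linarith)
      (fun x hx => ⟨(Nat.Prime.coprime_iff_not_dvd (pt_prime x)).2
        fun h => absurd (Nat.le_of_dvd hM0 h) (not_le.2 (hZ x hx).1), (hZ x hx).2⟩)
      (by
        rw [← hT20] at hs
        rw [one_div, inv_mul_eq_div, le_div_iff₀ (by positivity)]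
        have b1 : T ^ 10 ≤ T ^ 20 := pow_le_pow_right₀ t1 (by norm_num)
        calc 32 * (M0 : ℝ) * (T ^ 2) ^ 3 * T ^ 3 = 32 * M0 * T ^ 9 := by ring
          _ ≤ T * δ * T ^ 9 := by gcongr
          _ = δ * T ^ 10 := by ring
          _ ≤ δ * T ^ 20 := by gcongr
          _ ≤ s := hs)
    rw [← hr] at this
    exact ⟨this.1, this.2.2.2.1⟩
  have hXs : ∀ x ∈ Xs, M0 < x.p ∧ (x.p : ℝ) ≤ T ^ 2 := fun x hx => by
    have := (hW x).1 hx
    rw [← hTd] at this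
    exact ⟨by exact_mod_cast t2.trans_le this.1, this.2⟩
  refine ⟨(hcnt Xs hXs).1, ?_⟩
  have hS0 : (0 : ℝ) ≤ #S := by positivity
  -- the tests on the window
  have htest : ∀ g : Pt B → ℝ, (∀ x ∈ Xs, |g x| ≤ 4) →
      (#{w ∈ S | η / 2 < |dev Xs (fun x => pmu Xs x * g x) (Γ.el w)|} : ℝ) ≤
        (64 + 16 * r) / T / (η / 2) ^ 2 * #S := by
    intro g hg
    refine cheb S _ _ _ (by positivity) (((hcnt Xs hXs).2 _).trans ?_)
    refine mul_le_mul_of_nonneg_left ?_ hS0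
    obtain ⟨b1, b2⟩ := test_bound hW (by rw [← hTd]; exact t0) hm1 g hg
    rw [← hTd] at b1
    have b3 : 1 / T ^ 3 ≤ 1 / T := one_div_le_one_div_of_le t0 tT3
    have b4 : r * (1 / T ^ 3) * (∑ x ∈ Xs, |pmu Xs x * g x| / x.p) ^ 2 ≤ r * (1 / T) * 16 := by
      gcongr
    have b5 : (64 + 16 * r) / T = 2 * (32 / T) + r * (1 / T) * 16 := by ring
    linarith
  obtain ⟨tests, htests⟩ : ∃ tests : Finset (Pt B → ℝ), tests =
      (frq P).image (fun t : ℤ => fun x => (ee ((t : ℝ) / P * pa H x)).re) ∪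
      (frq P).image (fun t : ℤ => fun x => (ee ((t : ℝ) / P * pa H x)).im) ∪
      (range 3).image (fun i => fun x => pa H x ^ i) := ⟨_, rfl⟩
  have hcard : (tests.card : ℝ) ≤ Nt := by
    have : tests.card ≤ #(frq P) + #(frq P) + #(range 3) := by
      rw [htests]
      exact (card_union_le _ _).trans (add_le_add
        ((card_union_le _ _).trans (add_le_add card_image_le card_image_le)) card_image_le)
    rw [card_range] at this
    have h' : (tests.card : ℝ) ≤ #(frq P) + #(frq P) + 3 := by exact_mod_cast this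
    linarith
  have hbd : ∀ g ∈ tests, ∀ x ∈ Xs, |g x| ≤ 4 := by
    intro g hg x hx
    rw [htests] at hg
    simp only [mem_union, mem_image, mem_range] at hg
    rcases hg with (⟨t, -, rfl⟩ | ⟨t, -, rfl⟩) | ⟨i, hi, rfl⟩
    · exact (Complex.abs_re_le_norm _).trans (by rw [norm_ee]; norm_num)
    · exact (Complex.abs_im_le_norm _).trans (by rw [norm_ee]; norm_num)
    · have a1 := hL.lo x hx
      have a2 := hL.hi x hx
      show |pa H x ^ i| ≤ 4
      rw [abs_of_nonneg (by positivity)]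
      calc pa H x ^ i ≤ 2 ^ i := pow_le_pow_left₀ (by linarith) a2 i
        _ ≤ 2 ^ 2 := pow_le_pow_right₀ (by norm_num) (by omega)
        _ = 4 := by norm_num
  have hB2 : (#(tests.biUnion fun g =>
      {w ∈ S | η / 2 < |dev Xs (fun x => pmu Xs x * g x) (Γ.el w)|}) : ℝ) ≤ η' / 3 * #S := by
    refine le_trans (Nat.cast_le.2 card_biUnion_le) ?_
    rw [Nat.cast_sum]
    refine (sum_le_sum fun g hg => htest g (hbd g hg)).trans ?_
    rw [sum_const, nsmul_eq_mul, ← mul_assoc]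
    refine mul_le_mul_of_nonneg_right ?_ hS0
    calc (tests.card : ℝ) * ((64 + 16 * r) / T / (η / 2) ^ 2)
        ≤ Nt * ((64 + 16 * r) / T / (η / 2) ^ 2) := by gcongr
      _ = Nt * (64 + 16 * r) * 12 / (T * (η ^ 2 * η')) * (η' / 3) := by field_simp; ring
      _ ≤ 1 * (η' / 3) := by
          refine mul_le_mul_of_nonneg_right ?_ (by positivity)
          rw [div_le_one (by positivity)]
          exact t5
      _ = η' / 3 := one_mul _
  -- the small primes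
  obtain ⟨S0, hS0'⟩ := pts_ex hM Γ (fun p => (Y : ℝ) < p ∧ (p : ℝ) ≤ T) T fun p hp => hp.2
  have hB3 : (#{w ∈ S | 1 < |dev S0 (fun x => 1 / (x.p : ℝ)) (Γ.el w)|} : ℝ) ≤ η' / 3 * #S := by
    have hZ : ∀ x ∈ S0, M0 < x.p ∧ (x.p : ℝ) ≤ T ^ 2 := fun x hx => by
      obtain ⟨c1, c2⟩ := (hS0' x).1 hx
      have : Y < x.p := by exact_mod_cast c1
      exact ⟨by omega, c2.trans tT2⟩
    have := cheb S (fun w => dev S0 (fun x => 1 / (x.p : ℝ)) (Γ.el w)) 1 (η' / 3) one_pos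
      (((hcnt S0 hZ).2 _).trans (mul_le_mul_of_nonneg_left ?_ hS0))
    · simpa using this
    obtain ⟨b1, b2⟩ := low_bound hM Γ S0 Y T (by omega) hYT fun x hx => (hS0' x).1 hx
    have b3 : r * (1 / T ^ 3) * (∑ x ∈ S0, |1 / (x.p : ℝ)| / x.p) ^ 2 ≤
        r * (1 / T ^ 3) * (d ^ 2 * T ^ 2) := by gcongr
    have b4 : r * (1 / T ^ 3) * (d ^ 2 * T ^ 2) = r * d ^ 2 / T := by field_simp
    have b5 : r * d ^ 2 / T ≤ η' / 6 := by
      rw [div_le_iff₀ t0]; linarith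
    have b6 : (d : ℝ) / Y ≤ η' / 12 := by
      rw [div_le_iff₀ (by linarith)]; linarith
    linarith
  have hsub : ({e ∈ S | ¬ GoodE Γ H Xs η (1 + 2 * K) Y P e} : Finset _) ⊆
      {e ∈ S | ¬ (Γ.nrm (Γ.el e)).IsPrimitive} ∪ (tests.biUnion fun g =>
        {w ∈ S | η / 2 < |dev Xs (fun x => pmu Xs x * g x) (Γ.el w)|}) ∪
        {w ∈ S | 1 < |dev S0 (fun x => 1 / (x.p : ℝ)) (Γ.el w)|} := by
    intro e he
    obtain ⟨heS, hbad⟩ := mem_filter.1 he
    by_contra hc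
    simp only [mem_union, mem_filter, mem_biUnion, heS, true_and, not_or, not_not, not_exists,
      not_and, not_lt] at hc
    obtain ⟨⟨c1, c2⟩, c3⟩ := hc
    obtain ⟨i1, i2, -⟩ := hI e fun i => by
      rw [hS] at heS
      exact (Int.modEq_iff_dvd.2 ((mem_filter.1 heS).2 i)).symm
    refine hbad ⟨i1, i2, c1, fun t ht => ?_, fun i hi => ?_, fun S' hS' => ?_⟩
    · have d1 := c2 (fun x => (ee ((t : ℝ) / P * pa H x)).re) (by
        rw [htests]
        exact mem_union_left _ (mem_union_left _ (mem_image_of_mem _ ht)))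
      have d2 := c2 (fun x => (ee ((t : ℝ) / P * pa H x)).im) (by
        rw [htests]
        exact mem_union_left _ (mem_union_right _ (mem_image_of_mem _ ht)))
      rw [dev_test] at d1 d2
      refine (Complex.norm_le_abs_re_add_abs_im _).trans ?_
      rw [Complex.sub_re, Complex.sub_im, chf_re, chf_re, chf_im, chf_im]
      linarith
    · have d1 := c2 (fun x => pa H x ^ i) (by
        rw [htests]
        exact mem_union_right _ (mem_image_of_mem _ (mem_range.2 (by omega))))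
      rw [dev_test] at d1
      linarith
    · rw [dev_eq] at c3
      have d1 := (abs_le.1 c3).2
      have d2 : ∑ x ∈ S', 1 / (x.p : ℝ) ≤ ∑ x ∈ S0.filter (fun x => x.On (Γ.el e)), 1 / (x.p : ℝ) :=
        sum_le_sum_of_subset_of_nonneg (fun x hx => mem_filter.2 ⟨(hS0' x).2
          ⟨by exact_mod_cast (hS' x hx).2.1, by rw [hTd]; exact (hS' x hx).2.2.le⟩, (hS' x hx).1⟩)
          fun _ _ _ => by positivity
      have d3 := (hK Y T y2 hYT S0).1 fun x hx => (hS0' x).1 hx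
      have d4 : ∑ x ∈ S0, 1 / (x.p : ℝ) / x.p = ∑ x ∈ S0, 1 / (x.p : ℝ) ^ 2 :=
        sum_congr rfl fun x _ => by rw [div_div, sq]
      have l1 : Real.log 2 ≤ Real.log Y := Real.log_le_log (by norm_num) y2
      have l2 := Real.log_two_gt_d9
      have l3 : Real.log Y ≤ Real.log T := Real.log_le_log (by linarith) hYT
      rw [Real.log_div (by linarith) (by linarith)] at d3
      have d5 : K / Real.log Y ≤ 2 * K := by
        rw [div_le_iff₀ (by linarith)]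
        nlinarith
      rw [← hTd]
      linarith
  have hfin := (card_le_card hsub).trans ((card_union_le _ _).trans
    (add_le_add (card_union_le _ _) le_rfl))
  have hfin' := (Nat.cast_le (α := ℝ)).2 hfin
  push_cast at hfin'
  linarith

end Pool.Agent.Lib.BK2
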