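import Pool.Agent.Lib.BK2.ZPAR
import Pool.Agent.Lib.BK2.ZWIN
import Pool.Agent.Lib.BK2.ARC
import Pool.Agent.Lib.BK2.Bas2

/-! BK2 block ZG: most members of the family have a primitive norm. -/

open Polynomial Finset
open scoped Classical

noncomputable section

namespace Pool.Agent.Lib.BK2

namespace Z31

open ZPAR

lemma zcell_eq {I : Type} [Fintype I] [DecidableEq I] (a : I → ℤ) (s Q : ℕ) (cl : I → ℤ) :
    zcell a s Q cl = fam a s Q cl ⊤ := by
  ext w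
  rw [mem_zcell, Arc.mem_fam]
  simp [InC]

/-- double counting along translates -/
lemma dbl {I : Type} [Fintype I] (a e0 : I → ℤ) (s M0 D : ℕ) (hM : 0 < M0) (hs : M0 ≤ s)
    (J : Finset (I → ℤ)) (hJ : ∀ z ∈ J, ∀ i, |(M0 : ℤ) * z i| ≤ s) (Bad : (I → ℤ) → Prop)
    [DecidablePred Bad]
    (hD : ∀ e, #{z ∈ J | Bad (e + (M0 : ℤ) • z)} ≤ D) :
    #{e ∈ zcell a s M0 e0 | Bad e} * #J ≤ D * (6 ^ Fintype.card I * #(zcell a s M0 e0)) := by
  have hL0 : 0 < s / M0 := Nat.div_pos hs hM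
  have hd2 : s ≤ 2 * (M0 * (s / M0)) := by
    have h1 := Nat.lt_mul_div_succ s hM
    nlinarith
  have hbig := Arc.card_big a s M0 1 (M0 * (s / M0)) e0 ⊤ (fun _ => AddSubgroup.mem_top _)
    (by rw [one_mul]; exact dvd_mul_right _ _) (Nat.mul_pos hM hL0) (Nat.mul_div_le _ _) hd2
  rw [← zcell_eq, ← zcell_eq] at hbig
  set E' := zcell (fun i => a i - s) (3 * s) M0 e0 with hE'
  have h2 : ∀ z ∈ J, #{e ∈ zcell a s M0 e0 | Bad e} ≤ #{e ∈ E' | Bad (e + (M0 : ℤ) • z)} := by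
    intro z hz
    refine card_le_card_of_injOn (fun g => g - (M0 : ℤ) • z) ?_
      fun g _ g' _ h => sub_left_injective h
    intro g hg
    obtain ⟨hg1, hg2⟩ := mem_filter.1 (mem_coe.1 hg)
    obtain ⟨hg3, hg4⟩ := mem_zcell.1 hg1
    refine mem_coe.2 (mem_filter.2 ⟨mem_zcell.2 ⟨fun i => ?_, fun i => ?_⟩, by simpa using hg2⟩)
    · have h3 := abs_le.1 (hJ z hz i)
      have h4 := hg3 i
      simp only [Pi.sub_apply, Pi.smul_apply, smul_eq_mul]
      push_cast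
      constructor <;> linarith [h3.1, h3.2, h4.1, h4.2]
    · simp only [Pi.sub_apply, Pi.smul_apply, smul_eq_mul]
      rw [show g i - M0 * z i - e0 i = (g i - e0 i) - M0 * z i by ring]
      exact dvd_sub (hg4 i) (dvd_mul_right _ _)
  calc _ = ∑ _z ∈ J, #{e ∈ zcell a s M0 e0 | Bad e} := by rw [sum_const, smul_eq_mul, mul_comm]
    _ ≤ ∑ z ∈ J, #{e ∈ E' | Bad (e + (M0 : ℤ) • z)} := sum_le_sum h2
    _ = ∑ e ∈ E', #{z ∈ J | Bad (e + (M0 : ℤ) • z)} := by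
        simp only [card_filter]
        exact sum_comm
    _ ≤ ∑ _e ∈ E', D := sum_le_sum fun e _ => hD e
    _ = D * #E' := by rw [sum_const, smul_eq_mul, mul_comm]
    _ ≤ _ := Nat.mul_le_mul_left _ hbig

variable {B : Type} [CommRing B] [Algebra ℤ[X] B] {d : ℕ} [NeZero d] (Γ : Geo B d) {m : ℕ}

/-- polynomials in `t` with coefficients in `[0, N)` -/
def polys (m N : ℕ) : Finset (Γ.Ix m → ℤ) :=
  Fintype.piFinset fun i => if i.1 = 0 then Ico (0 : ℤ) N else {0}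

lemma card_polys (N : ℕ) : #(polys Γ m N) = N ^ (m + 1) := by
  rw [polys, Fintype.card_piFinset, Fintype.prod_sigma, Finset.prod_eq_single (0 : Fin d)]
  · simp [Γ.δ0]
  · intro l _ hl
    simp [hl]
  · simp

lemma mem_polys {N : ℕ} {z : Γ.Ix m → ℤ} (hz : z ∈ polys Γ m N) (i : Γ.Ix m) :
    (i.1 = 0 → 0 ≤ z i ∧ z i < N) ∧ (i.1 ≠ 0 → z i = 0) := by
  have := Fintype.mem_piFinset.1 hz i
  constructor <;> intro h <;> simpa [h] using this

lemma el_polys {N : ℕ} {z : Γ.Ix m → ℤ} (hz : z ∈ polys Γ m N) :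
    Γ.el z = algebraMap ℤ[X] B (Γ.b.repr (Γ.el z) 0) := by
  refine Γ.b.ext_elem fun l => ?_
  rw [Γ.repr_algebraMap]
  split_ifs with h
  · rw [h]
  · ext k
    by_cases hk : m < k + Γ.δ l
    · rw [Γ.mem_V.1 (Γ.el_mem z) l k hk, coeff_zero]
    · have h1 := congrFun (Γ.co_el z) ⟨l, ⟨k, by omega⟩⟩
      rw [(mem_polys Γ hz _).2 (fun h' => h h'.symm)] at h1
      exact h1

lemma roots_le (p N M0 : ℕ) (hp : p.Prime) (hN : N ≤ p) (hM : ¬ p ∣ M0) (e : Γ.Ix m → ℤ) :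
    #{z ∈ polys Γ m N | (Γ.nrm (Γ.el (e + (M0 : ℤ) • z))).map (Int.castRingHom (ZMod p)) = 0} ≤
      d := by
  have : Fact p.Prime := ⟨hp⟩
  set φ : ℤ[X] →+* (ZMod p)[X] := mapRingHom (Int.castRingHom (ZMod p)) with hφ
  set χ := ((-Algebra.leftMulMatrix Γ.b (Γ.el e)).charpoly).map φ with hχ
  have hmon : χ.Monic := (Matrix.charpoly_monic _).map φ
  have hdeg : χ.natDegree = d := by
    rw [hχ, (Matrix.charpoly_monic _).natDegree_map, Matrix.charpoly_natDegree_eq_dim,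
      Fintype.card_fin]
  refine le_trans ?_ ((Multiset.toFinset_card_le χ.roots).trans (hdeg ▸ card_roots' χ))
  refine card_le_card_of_injOn (fun z => φ (C (M0 : ℤ) * Γ.b.repr (Γ.el z) 0)) ?_ ?_
  · intro z hz
    obtain ⟨hz1, hz2⟩ := mem_filter.1 (mem_coe.1 hz)
    refine mem_coe.2 (Multiset.mem_toFinset.2 ((mem_roots hmon.ne_zero).2 ?_))
    rw [IsRoot.def, hχ, eval_map, eval₂_at_apply, Matrix.eval_charpoly, sub_neg_eq_add]
    have e1 : Γ.el (e + (M0 : ℤ) • z) =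
        algebraMap ℤ[X] B (C (M0 : ℤ) * Γ.b.repr (Γ.el z) 0) + Γ.el e := by
      rw [Γ.el_add, Γ.el_smul, map_mul, ← el_polys Γ hz1, add_comm, zsmul_eq_mul, eq_intCast,
        map_intCast]
    rw [e1, Γ.nrm_eq, map_add, AlgHom.commutes] at hz2
    exact hz2
  · intro z hz z' hz' h
    have hz1 := (mem_filter.1 (mem_coe.1 hz)).1
    have hz1' := (mem_filter.1 (mem_coe.1 hz')).1
    funext i
    by_cases hi : i.1 = 0
    · obtain ⟨l, k⟩ := i
      obtain rfl : l = 0 := hi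
      have h1 := congrArg (fun g => coeff g k) h
      have h2 := congrFun (Γ.co_el z) ⟨0, k⟩
      have h3 := congrFun (Γ.co_el z') ⟨0, k⟩
      simp only [Geo.co] at h2 h3
      simp only [hφ, coe_mapRingHom, coeff_map, coeff_C_mul, h2, h3] at h1
      simp only [eq_intCast, Int.cast_mul, Int.cast_natCast] at h1
      have h4 : (M0 : ZMod p) ≠ 0 := fun h => hM ((ZMod.natCast_eq_zero_iff _ _).1 h)
      have h5 := (ZMod.intCast_eq_intCast_iff_dvd_sub _ _ _).1 (mul_left_cancel₀ h4 h1)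
      have h6 := (mem_polys Γ hz1 ⟨0, k⟩).1 rfl
      have h7 := (mem_polys Γ hz1' ⟨0, k⟩).1 rfl
      have hN' : (N : ℤ) ≤ p := by exact_mod_cast hN
      have h8 := Int.eq_zero_of_abs_lt_dvd h5 (abs_lt.2 ⟨by linarith, by linarith⟩)
      linarith
    · rw [(mem_polys Γ hz1 i).2 hi, (mem_polys Γ hz1' i).2 hi]

/-- the members of the family whose norm vanishes modulo `p` -/
lemma bad_p (hm : d ≤ m) (a e0 : Γ.Ix m → ℤ) (s M0 p : ℕ) (hM : 0 < M0) (hs : M0 ≤ s)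
    (hp : p.Prime) (hpM : ¬ p ∣ M0) :
    (#{e ∈ zcell a s M0 e0 | (Γ.nrm (Γ.el e)).map (Int.castRingHom (ZMod p)) = 0} : ℝ) ≤
      d * 6 ^ Fintype.card (Γ.Ix m) * #(zcell a s M0 e0) *
        (((p : ℝ) ^ 2)⁻¹ + (((s / M0 : ℕ) : ℝ) ^ (d + 1))⁻¹) := by
  set N := min p (s / M0) with hN
  have hL0 : 0 < s / M0 := Nat.div_pos hs hM
  have hN0 : 0 < N := lt_min hp.pos hL0
  have h := dbl a e0 s M0 d hM hs (polys Γ m N) (fun z hz i => ?_)
    (fun e => (Γ.nrm (Γ.el e)).map (Int.castRingHom (ZMod p)) = 0)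
    (fun e => roots_le Γ p N M0 hp (min_le_left _ _) hpM e)
  · rw [card_polys] at h
    have h' : (#{e ∈ zcell a s M0 e0 | (Γ.nrm (Γ.el e)).map (Int.castRingHom (ZMod p)) = 0} : ℝ) *
        (N : ℝ) ^ (m + 1) ≤ d * (6 ^ Fintype.card (Γ.Ix m) * #(zcell a s M0 e0)) := by
      exact_mod_cast h
    have hN1 : (1 : ℝ) ≤ N := by exact_mod_cast hN0
    rw [← le_div_iff₀ (by positivity), ← mul_assoc, div_eq_mul_inv] at h'
    refine h'.trans (mul_le_mul_of_nonneg_left ?_ (by positivity))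
    have hd1 : 1 ≤ d := Nat.pos_of_ne_zero (NeZero.ne d)
    rcases min_choice p (s / M0) with h1 | h1
    · rw [← hN] at h1
      rw [← h1]
      refine le_add_of_le_of_nonneg ?_ (by positivity)
      exact inv_anti₀ (by positivity) (pow_le_pow_right₀ hN1 (by omega))
    · rw [← hN] at h1
      rw [← h1]
      refine le_add_of_nonneg_of_le (by positivity) ?_
      exact inv_anti₀ (by positivity) (pow_le_pow_right₀ hN1 (by omega))
  · by_cases hi : i.1 = 0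
    · have h1 := (mem_polys Γ hz i).1 hi
      have h2 : (N : ℤ) ≤ (s / M0 : ℕ) := by exact_mod_cast min_le_right _ _
      have h3 : ((M0 * (s / M0) : ℕ) : ℤ) ≤ s := by exact_mod_cast Nat.mul_div_le s M0
      rw [abs_mul, Nat.abs_cast, abs_of_nonneg h1.1]
      refine le_trans (mul_le_mul_of_nonneg_left (h1.2.le.trans h2) (by positivity)) ?_
      exact_mod_cast h3
    · rw [(mem_polys Γ hz i).2 hi]
      simp

/-- the members of the family whose norm is not primitive -/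
lemma nonprim (hm : d ≤ m) (a e0 : Γ.Ix m → ℤ) (s M0 Y1 X0 : ℕ) (hM : 0 < M0) (hs : M0 ≤ s)
    (hY : 0 < Y1) (hYM : Y1.factorial ∣ M0)
    (h1 : ∀ e ∈ zcell a s M0 e0, ∃ j, (Γ.nrm (Γ.el e)).coeff j ≠ 0 ∧
      |(Γ.nrm (Γ.el e)).coeff j| ≤ X0)
    (h2 : ∀ e ∈ zcell a s M0 e0, ∀ q : ℕ, q.Prime → q ∣ M0 →
      (Γ.nrm (Γ.el e)).map (Int.castRingHom (ZMod q)) ≠ 0) :
    (#{e ∈ zcell a s M0 e0 | ¬ (Γ.nrm (Γ.el e)).IsPrimitive} : ℝ) ≤
      d * 6 ^ Fintype.card (Γ.Ix m) * #(zcell a s M0 e0) *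
        ((Y1 : ℝ)⁻¹ + X0 * (((s / M0 : ℕ) : ℝ) ^ (d + 1))⁻¹) := by
  set Ps := (Ioc Y1 (max Y1 X0)).filter fun p => p.Prime ∧ ¬ p ∣ M0 ∧ p ≤ X0 with hPs
  have hsub : ({e ∈ zcell a s M0 e0 | ¬ (Γ.nrm (Γ.el e)).IsPrimitive} : Finset _) ⊆
      Ps.biUnion fun p => {e ∈ zcell a s M0 e0 |
        (Γ.nrm (Γ.el e)).map (Int.castRingHom (ZMod p)) = 0} := by
    intro e he
    obtain ⟨he1, he2⟩ := mem_filter.1 he
    simp only [IsPrimitive, not_forall] at he2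
    obtain ⟨r, hr1, hr2⟩ := he2
    obtain ⟨q, hq, hqr⟩ := Nat.exists_prime_and_dvd (n := r.natAbs)
      fun h => hr2 (Int.isUnit_iff_natAbs_eq.2 h)
    have hd : ∀ j, (q : ℤ) ∣ (Γ.nrm (Γ.el e)).coeff j := fun j =>
      (Int.natCast_dvd.2 hqr).trans ((C_dvd_iff_dvd_coeff _ _).1 hr1 j)
    have h0 : (Γ.nrm (Γ.el e)).map (Int.castRingHom (ZMod q)) = 0 := by
      ext j
      rw [coeff_map, coeff_zero, eq_intCast]
      exact (ZMod.intCast_zmod_eq_zero_iff_dvd _ _).2 (hd j)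
    have hqM : ¬ q ∣ M0 := fun h => h2 e he1 q hq h h0
    obtain ⟨j, hj1, hj2⟩ := h1 e he1
    have hqX : q ≤ X0 := by
      have := (Int.le_of_dvd (abs_pos.2 hj1) ((dvd_abs _ _).2 (hd j))).trans hj2
      exact_mod_cast this
    refine mem_biUnion.2 ⟨q, mem_filter.2 ⟨mem_Ioc.2 ⟨?_, hqX.trans (le_max_right _ _)⟩, hq, hqM,
      hqX⟩, mem_filter.2 ⟨he1, h0⟩⟩
    by_contra h
    exact hqM ((hq.dvd_factorial.2 (not_lt.1 h)).trans hYM)
  have h3 := (card_le_card hsub).trans card_biUnion_le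
  have h4 : (#{e ∈ zcell a s M0 e0 | ¬ (Γ.nrm (Γ.el e)).IsPrimitive} : ℝ) ≤
      ∑ p ∈ Ps, (#{e ∈ zcell a s M0 e0 |
        (Γ.nrm (Γ.el e)).map (Int.castRingHom (ZMod p)) = 0} : ℝ) := by exact_mod_cast h3
  refine h4.trans ((sum_le_sum fun p hp => bad_p Γ hm a e0 s M0 p hM hs (mem_filter.1 hp).2.1
    (mem_filter.1 hp).2.2.1).trans ?_)
  rw [← mul_sum, sum_add_distrib]
  refine mul_le_mul_of_nonneg_left (add_le_add ?_ ?_) (by positivity)
  · refine (sum_le_sum_of_subset_of_nonneg (filter_subset _ _) fun _ _ _ => by positivity).trans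
      ((sum_Ioc_inv_sq_le_sub hY.ne' (le_max_left _ _)).trans ?_)
    exact sub_le_self _ (by positivity)
  · rw [sum_const, nsmul_eq_mul]
    refine mul_le_mul_of_nonneg_right ?_ (by positivity)
    have : #Ps ≤ #(Ioc 0 X0) := card_le_card fun p hp =>
      mem_Ioc.2 ⟨(mem_filter.1 hp).2.1.pos, (mem_filter.1 hp).2.2.2⟩
    rw [Nat.card_Ioc] at this
    exact_mod_cast this

end Z31

end Pool.Agent.Lib.BK2
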