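import Pool.Agent.Lib.BK2.ZGMaj
import Pool.Agent.Lib.BK2.NFBlue

open Polynomial Finset

namespace Pool.Agent.Lib.BK2

namespace ZG

theorem cnt_bounds (a v : ℤ) (s r : ℕ) (hr : 0 < r) :
    (s : ℝ) / r - 1 ≤ #{z ∈ Finset.Ico a (a + s) | (r : ℤ) ∣ z - v} ∧
    (#{z ∈ Finset.Ico a (a + s) | (r : ℤ) ∣ z - v} : ℝ) ≤ (s : ℝ) / r + 1 := by
  have hr' : (0 : ℤ) < r := by exact_mod_cast hr
  have h := Int.Ico_filter_modEq_card a (a + s) hr' v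
  have e : ({z ∈ Finset.Ico a (a + s) | (r : ℤ) ∣ z - v} : Finset ℤ) =
      {x ∈ Finset.Ico a (a + s) | x ≡ v [ZMOD r]} := by
    refine filter_congr fun z _ => ?_
    rw [Int.modEq_iff_dvd, dvd_sub_comm]
  rw [e]
  generalize #{x ∈ Finset.Ico a (a + s) | x ≡ v [ZMOD r]} = N at h
  have h1 : (((a + s : ℤ) : ℚ) - v) / ((r : ℤ) : ℚ) = ((a : ℚ) - v) / ((r : ℤ) : ℚ) + (s : ℚ) / r := by
    push_cast
    ring
  rw [h1] at h
  generalize ((a : ℚ) - v) / ((r : ℤ) : ℚ) = x at h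
  have hq : (0 : ℚ) ≤ (s : ℚ) / r := by positivity
  have h2 : ⌈x⌉ ≤ ⌈x + (s : ℚ) / r⌉ := Int.ceil_mono (by linarith)
  rw [max_eq_left (by linarith)] at h
  have h3 : (N : ℚ) = (⌈x + (s : ℚ) / r⌉ : ℚ) - (⌈x⌉ : ℚ) := by exact_mod_cast h
  have a1 := Int.le_ceil x
  have a2 := Int.ceil_lt_add_one x
  have a3 := Int.le_ceil (x + (s : ℚ) / r)
  have a4 := Int.ceil_lt_add_one (x + (s : ℚ) / r)
  have b1 : (s : ℚ) / r - 1 ≤ N := by linarith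
  have b2 : (N : ℚ) ≤ (s : ℚ) / r + 1 := by linarith
  have c1 : (((s : ℚ) / r - 1 : ℚ) : ℝ) ≤ ((N : ℚ) : ℝ) := Rat.cast_le.2 b1
  have c2 : ((N : ℚ) : ℝ) ≤ (((s : ℚ) / r + 1 : ℚ) : ℝ) := Rat.cast_le.2 b2
  push_cast at c1 c2
  exact ⟨c1, c2⟩

theorem cnt_class (a v : ℤ) (s M q : ℕ) (hM : 0 < M) (hq : 0 < q) (hc : Nat.Coprime M q)
    (ρ : ZMod q) :
    (#(({z ∈ Finset.Ico a (a + s) | (M : ℤ) ∣ z - v} : Finset ℤ).filter
      fun z : ℤ => (z : ZMod q) = ρ) : ℝ) ≤ (s : ℝ) / M / q + 1 := by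
  rcases (({z ∈ Finset.Ico a (a + s) | (M : ℤ) ∣ z - v} : Finset ℤ).filter
      fun z : ℤ => (z : ZMod q) = ρ).eq_empty_or_nonempty with h | ⟨z0, hz0⟩
  · rw [h]
    simp only [card_empty, Nat.cast_zero]
    positivity
  · have h1 := (cnt_bounds a z0 s (M * q) (Nat.mul_pos hM hq)).2
    rw [Nat.cast_mul (α := ℝ), ← div_div] at h1
    refine le_trans ?_ h1
    refine Nat.cast_le.2 (card_le_card fun z hz => ?_)
    simp only [mem_filter] at hz hz0 ⊢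
    refine ⟨hz.1.1, ?_⟩
    push_cast
    refine IsCoprime.mul_dvd (Nat.isCoprime_iff_coprime.2 hc) ?_ ?_
    · have := dvd_sub hz.1.2 hz0.1.2
      rwa [sub_sub_sub_cancel_right] at this
    · rw [← ZMod.intCast_zmod_eq_zero_iff_dvd]
      push_cast
      rw [hz.2, hz0.2, sub_self]

theorem zcell_eq {I : Type} [Fintype I] [DecidableEq I] (a cl : I → ℤ) (s Q : ℕ) :
    zcell a s Q cl = Fintype.piFinset fun i =>
      ({z ∈ Finset.Ico (a i) (a i + s) | (Q : ℤ) ∣ z - cl i} : Finset ℤ) := by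
  ext w
  simp only [zcell, mem_filter, Fintype.mem_piFinset, forall_and]

variable {B : Type} [CommRing B] [IsDomain B] [Algebra ℤ[X] B] {d : ℕ} [NeZero d]

omit [IsDomain B] in
theorem card_zero (Γ : Geo B d) (m : ℕ) :
    #(Finset.univ.filter fun i : Γ.Ix m => ¬ i.1 ≠ 0) = m + 1 := by
  symm
  refine (card_fin (m + 1)).symm.trans ?_
  refine card_bij (fun j _ => Γ.ixT (m := m) j (by omega)) ?_ ?_ ?_
  · intro j _
    simp [Geo.ixT]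
  · intro j _ j' _ h
    simp only [Geo.ixT, Sigma.mk.injEq, heq_eq_eq, true_and, Fin.mk.injEq] at h
    exact Fin.ext h
  · rintro ⟨l, j⟩ h
    have hl : l = 0 := by simpa using h
    subst hl
    refine ⟨⟨j, by have := j.2; omega⟩, mem_univ _, rfl⟩

omit [IsDomain B] in
open Classical in
theorem one_prime (hP : St_PRIM1) (Γ : Geo B d) (m : ℕ) (a e0 : Γ.Ix m → ℤ) (s M q : ℕ)
    (hM : 0 < M) (hq : q.Prime) (hc : ¬ q ∣ M) (hs : 2 * M ≤ s) :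
    (#{e ∈ zcell a s M e0 | (Γ.nrm (Γ.el e)).map (Int.castRingHom (ZMod q)) = 0} : ℝ) ≤
      d * (4 ^ (m + 1) * ((1 / (q : ℝ)) ^ (m + 1) + ((M : ℝ) / s) ^ (m + 1))) *
        #(zcell a s M e0) := by
  have hM' : (0 : ℝ) < M := by exact_mod_cast hM
  have hs' : 2 * (M : ℝ) ≤ s := by exact_mod_cast hs
  have hq' : (0 : ℝ) < q := by exact_mod_cast hq.pos
  have hs0 : (0 : ℝ) < s := by linarith
  obtain ⟨A, hA⟩ : ∃ A : Γ.Ix m → Finset ℤ, A = fun i =>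
      ({z ∈ Finset.Ico (a i) (a i + s) | (M : ℤ) ∣ z - e0 i} : Finset ℤ) := ⟨_, rfl⟩
  have hz : zcell a s M e0 = Fintype.piFinset A := by rw [hA]; exact zcell_eq a e0 s M
  have hco : Nat.Coprime M q := ((Nat.Prime.coprime_iff_not_dvd hq).2 hc).symm
  have h1 := (hP B d Γ q hq).2 m
    {e ∈ zcell a s M e0 | (Γ.nrm (Γ.el e)).map (Int.castRingHom (ZMod q)) = 0} A
    ⌊(s : ℝ) / M / q + 1⌋₊ (by rw [← hz]; exact filter_subset _ _)
    (fun i r => by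
      rw [hA]
      exact Nat.le_floor (cnt_class (a i) (e0 i) s M q hM hq.pos hco r))
    (fun e he => (mem_filter.1 he).2)
  obtain ⟨n, hn⟩ : ∃ n : ℝ, n = (s : ℝ) / M := ⟨_, rfl⟩
  have hn2 : 2 ≤ n := by rw [hn, le_div_iff₀ hM']; exact hs'
  have hN : (⌊(s : ℝ) / M / q + 1⌋₊ : ℝ) ≤ n / q + 1 := by
    rw [hn]
    exact Nat.floor_le (by positivity)
  have hAi : ∀ i, n / 2 ≤ #(A i) := fun i => by
    have := (cnt_bounds (a i) (e0 i) s M hM).1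
    rw [← hn] at this
    rw [hA]
    linarith
  obtain ⟨W, hW⟩ : ∃ W : ℝ, W = ∏ i ∈ Finset.univ.filter (fun i : Γ.Ix m => i.1 ≠ 0),
    (#(A i) : ℝ) := ⟨_, rfl⟩
  have hW0 : 0 ≤ W := by rw [hW]; positivity
  have hS : (n / 2) ^ (m + 1) * W ≤ #(zcell a s M e0) := by
    rw [hz, Fintype.card_piFinset, Nat.cast_prod,
      ← prod_filter_mul_prod_filter_not univ (fun i : Γ.Ix m => i.1 ≠ 0), ← hW, mul_comm]
    refine mul_le_mul_of_nonneg_left ?_ hW0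
    refine le_trans ?_ (prod_le_prod (f := fun _ => n / 2) (fun _ _ => by linarith)
      fun i _ => hAi i)
    rw [prod_const, card_zero Γ m]
  have h2 : (#{e ∈ zcell a s M e0 | (Γ.nrm (Γ.el e)).map (Int.castRingHom (ZMod q)) = 0} : ℝ) ≤
      d * (n / q + 1) ^ (m + 1) * W := by
    refine le_trans (Nat.cast_le.2 h1) ?_
    push_cast
    rw [← hW]
    gcongr
  have h3 : (n / q + 1) ^ (m + 1) ≤
      4 ^ (m + 1) * ((1 / (q : ℝ)) ^ (m + 1) + ((M : ℝ) / s) ^ (m + 1)) * (n / 2) ^ (m + 1) := by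
    have hMs : (M : ℝ) / s = 1 / n := by rw [hn]; field_simp
    rw [hMs]
    have hn0 : 0 < n := by linarith
    have e1 : ∀ x : ℝ, 4 ^ (m + 1) * x ^ (m + 1) * (n / 2) ^ (m + 1) = (2 * n * x) ^ (m + 1) := by
      intro x
      rw [← mul_pow, ← mul_pow]
      congr 1
      ring
    rw [mul_add, add_mul, e1, e1]
    rcases le_total (n / q) 1 with h | h
    · have : (n / q + 1) ^ (m + 1) ≤ (2 * n * (1 / n)) ^ (m + 1) := by
        refine pow_le_pow_left₀ (by positivity) ?_ _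
        have : 2 * n * (1 / n) = 2 := by field_simp
        linarith
      have h0 : 0 ≤ (2 * n * (1 / (q : ℝ))) ^ (m + 1) := by positivity
      linarith
    · have : (n / q + 1) ^ (m + 1) ≤ (2 * n * (1 / (q : ℝ))) ^ (m + 1) := by
        refine pow_le_pow_left₀ (by positivity) ?_ _
        have : 2 * n * (1 / (q : ℝ)) = 2 * (n / q) := by ring
        linarith
      have h0 : 0 ≤ (2 * n * (1 / n)) ^ (m + 1) := by positivity
      linarith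
  refine h2.trans ?_
  have h4 : 0 ≤ 4 ^ (m + 1) * ((1 / (q : ℝ)) ^ (m + 1) + ((M : ℝ) / s) ^ (m + 1)) := by positivity
  calc d * (n / q + 1) ^ (m + 1) * W
      ≤ d * (4 ^ (m + 1) * ((1 / (q : ℝ)) ^ (m + 1) + ((M : ℝ) / s) ^ (m + 1)) *
        (n / 2) ^ (m + 1)) * W := by gcongr
    _ = d * (4 ^ (m + 1) * ((1 / (q : ℝ)) ^ (m + 1) + ((M : ℝ) / s) ^ (m + 1))) *
        ((n / 2) ^ (m + 1) * W) := by ring
    _ ≤ _ := by gcongr

theorem lc_bound (hN : St_NRM) (Γ : Geo B d) (m : ℕ) (R : ℝ) : ∃ K : ℝ, 0 < K ∧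
    ∀ (H : ℝ) (e : Γ.Ix m → ℤ), 0 < H → (∀ i, |(e i : ℝ)| ≤ R * H) →
      |((Γ.nrm (Γ.el e)).coeff (m * d) : ℝ)| ≤ K * H ^ d := by
  obtain ⟨-, -, -, h4, h5, -⟩ := hN B d Γ m
  obtain ⟨K, hK⟩ := (isCompact_closedBall (0 : Γ.Ix m → ℝ) |R|).exists_bound_of_continuousOn
    (h5 (m * d)).continuous.continuousOn
  refine ⟨|K| + 1, by positivity, fun H e hH he => ?_⟩
  rw [← h4 H e hH.ne', abs_mul, abs_of_pos (pow_pos hH d)]
  refine mul_le_mul_of_nonneg_right ?_ (pow_pos hH d).le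
  have : scl H e ∈ Metric.closedBall (0 : Γ.Ix m → ℝ) |R| := by
    rw [mem_closedBall_zero_iff, pi_norm_le_iff_of_nonneg (abs_nonneg R)]
    intro i
    simp only [scl, Real.norm_eq_abs, abs_div, abs_of_pos hH]
    rw [div_le_iff₀ hH]
    exact (he i).trans (mul_le_mul_of_nonneg_right (le_abs_self R) hH.le)
  have h := hK _ this
  rw [Real.norm_eq_abs] at h
  unfold Geo.lc
  linarith [le_abs_self K]

open Classical in
theorem prim_frac (hP : St_PRIM1) (hN : St_NRM) (Γ : Geo B d) (m : ℕ) (hm : 1 ≤ m) (hd : d ≤ m)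
    (η : ℝ) (hη : 0 < η) : ∃ Q : ℕ, 0 < Q ∧
    ∀ (M0 : ℕ) (e0 : Γ.Ix m → ℤ), 0 < M0 → Q ∣ M0 →
    (∀ e : Γ.Ix m → ℤ, (∀ i, e i ≡ e0 i [ZMOD M0]) →
      Irreducible ((Γ.nrm (Γ.el e)).map (Int.castRingHom ℚ)) ∧
      (Γ.nrm (Γ.el e)).natDegree = m * d ∧
      ∀ q : ℕ, q.Prime → q ∣ M0 → (Γ.nrm (Γ.el e)).map (Int.castRingHom (ZMod q)) ≠ 0) →
    ∀ R δ : ℝ, 0 < δ → ∃ H0 : ℕ, ∀ H ≥ H0, ∀ (a : Γ.Ix m → ℤ) (s : ℕ), δ * H ≤ s →
      (∀ e ∈ zcell a s M0 e0, ∀ i, |(e i : ℝ)| ≤ R * H) →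
      (#{e ∈ zcell a s M0 e0 | ¬ (Γ.nrm (Γ.el e)).IsPrimitive} : ℝ) ≤ η * #(zcell a s M0 e0) := by
  obtain ⟨Q0, hQ0⟩ := exists_nat_ge (2 * (d * 4 ^ (m + 1)) / η)
  refine ⟨(Q0 + 1).factorial, Nat.factorial_pos _, fun M0 e0 hM0 hQ hI R δ hδ => ?_⟩
  obtain ⟨K, hK0, hK⟩ := lc_bound hN Γ m R
  obtain ⟨H0, hH0⟩ := exists_nat_ge
    (2 * M0 / δ + 2 * (d * 4 ^ (m + 1) * K * (M0 / δ) ^ (m + 1)) / η + 1)
  refine ⟨H0, fun H hH a s hs hR => ?_⟩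
  have hH' : (H0 : ℝ) ≤ H := by exact_mod_cast hH
  have p1 : 0 ≤ 2 * (M0 : ℝ) / δ := by positivity
  have p2 : 0 ≤ 2 * (d * 4 ^ (m + 1) * K * (M0 / δ) ^ (m + 1)) / η := by positivity
  have hH1 : (1 : ℝ) ≤ H := by linarith
  have hH2 : 2 * (M0 : ℝ) / δ ≤ H := by linarith
  have hH3 : 2 * (d * 4 ^ (m + 1) * K * (M0 / δ) ^ (m + 1)) / η ≤ H := by linarith
  have hs2 : 2 * M0 ≤ s := by
    rw [div_le_iff₀ hδ] at hH2
    have : 2 * (M0 : ℝ) ≤ s := by linarith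
    exact_mod_cast this
  obtain ⟨Z, hZ⟩ : ∃ Z, Z = ⌊K * (H : ℝ) ^ d⌋₊ := ⟨_, rfl⟩
  obtain ⟨T, hT⟩ : ∃ T, T = (Finset.Ioc (Q0 + 1) Z).filter fun q => q.Prime ∧ ¬ q ∣ M0 := ⟨_, rfl⟩
  have hsub : ({e ∈ zcell a s M0 e0 | ¬ (Γ.nrm (Γ.el e)).IsPrimitive} : Finset _) ⊆
      T.biUnion fun q =>
        {e ∈ zcell a s M0 e0 | (Γ.nrm (Γ.el e)).map (Int.castRingHom (ZMod q)) = 0} := by
    intro e he
    obtain ⟨h1, h2⟩ := mem_filter.1 he
    have h3 : ∃ q : ℕ, q.Prime ∧ (Γ.nrm (Γ.el e)).map (Int.castRingHom (ZMod q)) = 0 := by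
      by_contra hc
      exact h2 (prim_of_map fun p hp h0 => hc ⟨p, hp, h0⟩)
    obtain ⟨q, hq, h0⟩ := h3
    obtain ⟨i1, i2, i3⟩ := hI e fun i => by
      have := (mem_filter.1 h1).2 i
      exact (Int.modEq_iff_dvd.2 this).symm
    have hnd : ¬ q ∣ M0 := fun h => i3 q hq h h0
    refine mem_biUnion.2 ⟨q, ?_, mem_filter.2 ⟨h1, h0⟩⟩
    rw [hT]
    refine mem_filter.2 ⟨mem_Ioc.2 ⟨?_, ?_⟩, hq, hnd⟩
    · by_contra hc
      exact hnd ((Nat.dvd_factorial hq.pos (not_lt.1 hc)).trans hQ)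
    · have hne : Γ.nrm (Γ.el e) ≠ 0 := fun h => i1.ne_zero (by rw [h, Polynomial.map_zero])
      have hc : (Γ.nrm (Γ.el e)).coeff (m * d) ≠ 0 := by
        rw [← i2]
        exact leadingCoeff_ne_zero.2 hne
      have hdv : (q : ℤ) ∣ (Γ.nrm (Γ.el e)).coeff (m * d) := by
        have := congrArg (fun P => P.coeff (m * d)) h0
        simp only [coeff_map, eq_intCast, coeff_zero] at this
        exact (ZMod.intCast_zmod_eq_zero_iff_dvd _ _).1 this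
      have hle : (q : ℤ) ≤ |(Γ.nrm (Γ.el e)).coeff (m * d)| :=
        Int.le_of_dvd (abs_pos.2 hc) ((dvd_abs _ _).2 hdv)
      have hle' : (q : ℝ) ≤ |((Γ.nrm (Γ.el e)).coeff (m * d) : ℝ)| := by exact_mod_cast hle
      rw [hZ]
      exact Nat.le_floor (hle'.trans (hK H e (by linarith) (hR e h1)))
  have h1 : (#{e ∈ zcell a s M0 e0 | ¬ (Γ.nrm (Γ.el e)).IsPrimitive} : ℝ) ≤
      ∑ q ∈ T, d * (4 ^ (m + 1) * ((1 / (q : ℝ)) ^ (m + 1) + ((M0 : ℝ) / s) ^ (m + 1))) *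
        #(zcell a s M0 e0) := by
    refine le_trans (Nat.cast_le.2 ((card_le_card hsub).trans card_biUnion_le)) ?_
    rw [Nat.cast_sum]
    refine sum_le_sum fun q hq => ?_
    rw [hT] at hq
    exact one_prime hP Γ m a e0 s M0 q hM0 (mem_filter.1 hq).2.1 (mem_filter.1 hq).2.2 hs2
  refine h1.trans ?_
  rw [← sum_mul]
  refine mul_le_mul_of_nonneg_right ?_ (by positivity)
  rw [← mul_sum, ← mul_sum, sum_add_distrib, sum_const, nsmul_eq_mul]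
  have hTs : T ⊆ Finset.Ioc (Q0 + 1) Z := by rw [hT]; exact filter_subset _ _
  have h2 : ∑ q ∈ T, (1 / (q : ℝ)) ^ (m + 1) ≤ 1 / (Q0 + 1 : ℝ) := by
    calc ∑ q ∈ T, (1 / (q : ℝ)) ^ (m + 1) ≤ ∑ q ∈ T, ((q : ℝ) ^ 2)⁻¹ := by
          refine sum_le_sum fun q hq => ?_
          have : (1 : ℝ) ≤ q := by
            have := (mem_Ioc.1 (hTs hq)).1
            exact_mod_cast (by omega : 1 ≤ q)
          rw [← inv_pow, one_div]
          exact pow_le_pow_of_le_one (by positivity) (inv_le_one_of_one_le₀ this) (by omega)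
      _ ≤ ∑ q ∈ Finset.Ioc (Q0 + 1) (max (Q0 + 1) Z), ((q : ℝ) ^ 2)⁻¹ :=
          sum_le_sum_of_subset_of_nonneg (hTs.trans (Ioc_subset_Ioc_right (le_max_right _ _)))
            fun _ _ _ => by positivity
      _ ≤ ((Q0 + 1 : ℕ) : ℝ)⁻¹ - ((max (Q0 + 1) Z : ℕ) : ℝ)⁻¹ :=
          sum_Ioc_inv_sq_le_sub (by omega) (le_max_left _ _)
      _ ≤ 1 / (Q0 + 1 : ℝ) := by
          have : (0 : ℝ) ≤ ((max (Q0 + 1) Z : ℕ) : ℝ)⁻¹ := by positivity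
          rw [one_div]
          push_cast at this ⊢
          linarith
  have h3 : (#T : ℝ) ≤ K * (H : ℝ) ^ d := by
    have a1 : #T ≤ Z := (card_le_card hTs).trans (by simp)
    refine le_trans (Nat.cast_le.2 a1) ?_
    rw [hZ]
    exact Nat.floor_le (by positivity)
  have hs0 : (0 : ℝ) < δ * H := by positivity
  have h4 : ((M0 : ℝ) / s) ^ (m + 1) ≤ (M0 / δ) ^ (m + 1) / (H : ℝ) ^ (m + 1) := by
    rw [← div_pow, div_div]
    gcongr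
  have h5 : (H : ℝ) ^ d * H ≤ (H : ℝ) ^ (m + 1) := by
    rw [← pow_succ]
    exact pow_le_pow_right₀ hH1 (by omega)
  have h6 : (#T : ℝ) * ((M0 : ℝ) / s) ^ (m + 1) ≤ K * (M0 / δ) ^ (m + 1) / H := by
    calc (#T : ℝ) * ((M0 : ℝ) / s) ^ (m + 1)
        ≤ K * (H : ℝ) ^ d * ((M0 / δ) ^ (m + 1) / (H : ℝ) ^ (m + 1)) := by gcongr
      _ ≤ K * (H : ℝ) ^ d * ((M0 / δ) ^ (m + 1) / ((H : ℝ) ^ d * H)) := by gcongr
      _ = K * (M0 / δ) ^ (m + 1) / H := by field_simp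
  have h7 : (d : ℝ) * 4 ^ (m + 1) * (1 / (Q0 + 1 : ℝ)) ≤ η / 2 := by
    rw [div_le_iff₀ hη] at hQ0
    rw [mul_one_div, div_le_iff₀ (by positivity)]
    nlinarith
  have h8 : (d : ℝ) * 4 ^ (m + 1) * (K * (M0 / δ) ^ (m + 1) / H) ≤ η / 2 := by
    rw [div_le_iff₀ hη] at hH3
    rw [← mul_div_assoc, div_le_iff₀ (by linarith)]
    nlinarith
  have h9 : (0 : ℝ) ≤ d * 4 ^ (m + 1) := by positivity
  nlinarith [mul_le_mul_of_nonneg_left h2 h9, mul_le_mul_of_nonneg_left h6 h9]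

end ZG

end Pool.Agent.Lib.BK2
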