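import Pool.Agent.Lib.BK2.ZWIN
import Pool.Agent.Lib.BK2.Bas

/-! ZMAJ: masses and the Gram form on the majority set of a good curve. -/

open Polynomial Finset
open scoped Classical

namespace Pool.Agent.Lib.BK2.Z17

theorem card_on {B : Type} [CommRing B] (f : B) (S : Finset (Pt B)) {q : ℕ} (hq : q.Prime)
    (hf : Finite (B →+* ZMod q)) (h : ∀ x ∈ S, x.On f ∧ x.p = q) :
    #S ≤ Nat.card {x : B →+* ZMod q // x f = 0} := by
  let _ := Fintype.ofFinite {x : B →+* ZMod q // x f = 0}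
  have e : S ⊆ univ.image fun x : {x : B →+* ZMod q // x f = 0} => (⟨⟨q, hq⟩, x.1⟩ : Pt B) := by
    rintro ⟨p, x⟩ hx
    obtain rfl : p = ⟨q, hq⟩ := Subtype.ext (h _ hx).2
    exact mem_image.2 ⟨⟨x, (h _ hx).1⟩, mem_univ _, rfl⟩
  refine (card_le_card e).trans (card_image_le.trans ?_)
  rw [card_univ, ← Nat.card_eq_fintype_card]

theorem map_ne_zero_of_prim {f : ℤ[X]} (h : f.IsPrimitive) {p : ℕ} (hp : p.Prime) :
    f.map (Int.castRingHom (ZMod p)) ≠ 0 := fun e => by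
  have h1 : C (p : ℤ) ∣ f := (C_dvd_iff_dvd_coeff _ _).2 fun j => by
    have := congrArg (coeff · j) e
    simp only [coeff_map, coeff_zero, eq_intCast] at this
    exact (ZMod.intCast_zmod_eq_zero_iff_dvd _ _).1 this
  exact (Nat.prime_iff_prime_int.1 hp).not_isUnit (h _ h1)

theorem sum_sq_expand {ι : Type} (S : Finset ι) (w a : ι → ℝ) (u v : ℝ) :
    ∑ x ∈ S, w x * (u + v * a x) ^ 2 = u ^ 2 * ∑ x ∈ S, w x * a x ^ 0 +
      2 * u * v * ∑ x ∈ S, w x * a x ^ 1 + v ^ 2 * ∑ x ∈ S, w x * a x ^ 2 := by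
  simp only [mul_sum, ← sum_add_distrib]
  exact sum_congr rfl fun x _ => by ring

theorem law_gram {ι : Type} {S : Finset ι} {w a : ι → ℝ} {c0 : ℝ} (h : Law S w a c0)
    (hc : 0 ≤ c0) (u v : ℝ) : c0 / 9 * (u ^ 2 + v ^ 2) ≤ ∑ x ∈ S, w x * (u + v * a x) ^ 2 := by
  have h1 := h.var
  have lo : 1 ≤ ∑ j ∈ S, w j * a j := h.one.ge.trans (sum_le_sum fun j hj => by
    nlinarith [h.nn j hj, h.lo j hj])
  have hi : ∑ j ∈ S, w j * a j ≤ 2 := by
    have : ∑ j ∈ S, w j * a j ≤ ∑ j ∈ S, 2 * w j := sum_le_sum fun j hj => by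
      nlinarith [h.nn j hj, h.hi j hj]
    rwa [← mul_sum, h.one, mul_one] at this
  generalize hm : ∑ j ∈ S, w j * a j = μ at h1 lo hi
  have h2 : ∑ i ∈ S, w i * (a i - μ) ^ 2 ≤ 1 := le_trans (sum_le_sum fun j hj => by
    have : (a j - μ) ^ 2 ≤ 1 := by nlinarith [h.lo j hj, h.hi j hj]
    nlinarith [h.nn j hj]) h.one.le
  have e : ∑ x ∈ S, w x * (u + v * a x) ^ 2 =
      (u + v * μ) ^ 2 + v ^ 2 * ∑ i ∈ S, w i * (a i - μ) ^ 2 := by
    have e1 : ∑ x ∈ S, w x * (u + v * a x) ^ 2 = (u + v * μ) ^ 2 * ∑ x ∈ S, w x +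
        2 * (u + v * μ) * v * (∑ x ∈ S, w x * a x - μ * ∑ x ∈ S, w x) +
        v ^ 2 * ∑ i ∈ S, w i * (a i - μ) ^ 2 := by
      simp only [mul_sum, ← sum_add_distrib, ← sum_sub_distrib]
      exact sum_congr rfl fun x _ => by ring
    rw [e1, h.one, hm]
    ring
  rw [e]
  have h3 : u ^ 2 + v ^ 2 ≤ 9 * ((u + v * μ) ^ 2 + v ^ 2) := by
    have : (v * μ) ^ 2 ≤ 4 * v ^ 2 := by
      rw [mul_pow]
      nlinarith [sq_nonneg v, mul_le_mul hi hi (by linarith) (by norm_num : (0 : ℝ) ≤ 2)]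
    nlinarith [sq_nonneg (u + 2 * (v * μ)), sq_nonneg (u + v * μ)]
  have h4 := mul_le_mul_of_nonneg_left h3 hc
  have h5 := mul_le_mul_of_nonneg_left h1 (sq_nonneg v)
  have h6 := mul_le_mul_of_nonneg_left (h1.trans h2) (sq_nonneg (u + v * μ))
  linarith

theorem stZMAJ (hM : St_MODP) : St_ZMAJ := by
  intro B _ _ _ d _ Γ m H Y P Xs η KG c0 epm e Maj hW hT hb hL hG hsub hep hc hη
  have hb0 : 0 < mbar Xs := by linarith
  have hμ := ZWIN.pmu_pos hb0
  have m0 := abs_le.1 (hG.mom 0 (by norm_num))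
  have m1 := hG.mom 1 (by norm_num)
  have m2 := abs_le.1 (hG.mom 2 le_rfl)
  have m0' := m0
  simp only [pow_zero, mul_one, hL.one] at m0'
  have h0 : 0 ≤ ∑ x ∈ Xs.filter (fun x => x.On (Γ.el e)) \ Maj, pmu Xs x :=
    sum_nonneg fun x _ => (hμ x).le
  have hs := sum_sdiff (f := pmu Xs) hsub
  refine ⟨by linarith [m0'.2], abs_le.2 ⟨by linarith [m0'.1], by linarith [m0'.2]⟩, fun p => ?_,
    fun u v => ?_⟩
  · rcases ((Xs.filter fun x => x.On (Γ.el e)).filter fun x => x.p = p).eq_empty_or_nonempty with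
      h | ⟨y, hy⟩
    · rw [h, sum_empty]
      positivity
    · obtain ⟨-, rfl⟩ := mem_filter.1 hy
      have h6 : (#((Xs.filter fun x => x.On (Γ.el e)).filter fun x => x.p = y.p) : ℝ) ≤
          m * d * d := by
        exact_mod_cast (card_on (Γ.el e) _ y.1.2 ((hM B d Γ).1 _ y.1.2).1 fun x hx =>
          ⟨(mem_filter.1 (mem_filter.1 hx).1).2, (mem_filter.1 hx).2⟩).trans
          ((hM B d Γ).2.2.1 m _ (Geo.V_sum fun i _ => Geo.V_smul _ (Γ.mon_mem i)) _ y.1.2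
            (map_ne_zero_of_prim hG.prim y.1.2))
      have h7 := sum_le_card_nsmul ((Xs.filter fun x => x.On (Γ.el e)).filter fun x => x.p = y.p)
        (pmu Xs) (2 / winT H) fun x hx => by
          have h1 := ((hW x).1 (mem_filter.1 (mem_filter.1 hx).1).1).1
          have := ZWIN.p_pos x
          rw [pmu, div_le_div_iff₀ (by positivity) (by linarith)]
          nlinarith
      rw [nsmul_eq_mul] at h7
      refine h7.trans ((mul_le_mul_of_nonneg_right h6 (by positivity)).trans_eq (by ring))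
  · have h1 := law_gram hL hc.le u v
    have h2 := sum_sdiff (f := fun x => pmu Xs x * (u + v * pa H x) ^ 2) hsub
    have h3 : ∑ x ∈ Xs.filter (fun x => x.On (Γ.el e)) \ Maj, pmu Xs x * (u + v * pa H x) ^ 2 ≤
        epm * (5 * (u ^ 2 + v ^ 2)) := by
      refine le_trans (sum_le_sum fun x hx => mul_le_mul_of_nonneg_left
        (show (u + v * pa H x) ^ 2 ≤ 5 * (u ^ 2 + v ^ 2) from ?_) (hμ x).le) ?_
      · have hx' := (mem_filter.1 (mem_sdiff.1 hx).1).1
        have lo := hL.lo x hx'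
        have hi := hL.hi x hx'
        have : (v * pa H x) ^ 2 ≤ 4 * v ^ 2 := by
          rw [mul_pow]
          nlinarith [sq_nonneg v, mul_le_mul hi hi (by linarith) (by norm_num : (0 : ℝ) ≤ 2)]
        nlinarith [sq_nonneg (2 * u - v * pa H x / 2)]
      · rw [← sum_mul]
        exact mul_le_mul_of_nonneg_right hep (by positivity)
    rw [sum_sq_expand] at h1
    rw [sum_sq_expand (Xs.filter _)] at h2
    have a0 := mul_le_mul_of_nonneg_left m0.1 (sq_nonneg u)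
    have a2 := mul_le_mul_of_nonneg_left m2.1 (sq_nonneg v)
    have hη0 : 0 ≤ η := (abs_nonneg _).trans m1
    have a1 : |2 * u * v * (∑ x ∈ Xs.filter (fun x => x.On (Γ.el e)), pmu Xs x * pa H x ^ 1 -
        ∑ x ∈ Xs, pwb Xs x * pa H x ^ 1)| ≤ (u ^ 2 + v ^ 2) * η := by
      rw [abs_mul]
      refine mul_le_mul (abs_le.2 ⟨?_, ?_⟩) m1 (abs_nonneg _) (by positivity)
      · nlinarith [sq_nonneg (u + v)]
      · nlinarith [sq_nonneg (u - v)]
    have a3 := mul_le_mul_of_nonneg_right hη (show 0 ≤ 5 * (u ^ 2 + v ^ 2) by positivity)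
    have a4 := mul_nonneg hη0 (show 0 ≤ u ^ 2 + v ^ 2 by positivity)
    have a5 := mul_nonneg hc.le (show 0 ≤ u ^ 2 + v ^ 2 by positivity)
    linarith [(abs_le.1 a1).1]

end Pool.Agent.Lib.BK2.Z17
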