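import Mathlib

namespace Pool.Agent.Lib.BK2.Zones

open Finset

theorem exists_list (N k0 : ℕ) (hN : 0 < N) (b1 : ℕ → ℝ) (hb : ∀ k, 0 < b1 k) :
    ∃ ks : ℕ → ℕ, (∀ i, k0 ≤ ks i ∧ N ∣ ks i ∧ 0 < ks i) ∧ Monotone ks ∧
      ∀ i j, i < j → 1 / Real.sqrt (ks j) ≤ b1 (ks i) := by
  have step : ∀ k : ℕ, ∃ k' : ℕ, k ≤ k' ∧ N ∣ k' ∧ 0 < k' ∧ 1 / Real.sqrt k' ≤ b1 k := by
    intro k
    obtain ⟨a, ha⟩ := exists_nat_ge ((1 / b1 k) ^ 2)
    refine ⟨N * (k + a + 1), by nlinarith, Dvd.intro _ rfl, by positivity, ?_⟩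
    have h1 : ((1 / b1 k) ^ 2 : ℝ) ≤ ((N * (k + a + 1) : ℕ) : ℝ) := by
      refine ha.trans ?_
      exact_mod_cast (by nlinarith : a ≤ N * (k + a + 1))
    have h2 : 1 / b1 k ≤ Real.sqrt ((N * (k + a + 1) : ℕ) : ℝ) := Real.le_sqrt_of_sq_le h1
    have h3 := hb k
    have h4 : 0 < 1 / b1 k := by positivity
    calc 1 / Real.sqrt ((N * (k + a + 1) : ℕ) : ℝ) ≤ 1 / (1 / b1 k) :=
          one_div_le_one_div_of_le h4 h2
      _ = b1 k := by field_simp
  choose f hf using step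
  let ks : ℕ → ℕ := fun i => f^[i + 1] k0
  have hs : ∀ i, ks (i + 1) = f (ks i) := fun i => Function.iterate_succ_apply' f (i + 1) k0
  have hm : Monotone ks := monotone_nat_of_le_succ fun i => by rw [hs]; exact (hf _).1
  have h0 : ∀ i, k0 ≤ ks i ∧ N ∣ ks i ∧ 0 < ks i := by
    intro i
    refine ⟨((hf k0).1).trans (hm (Nat.zero_le i)), ?_⟩
    cases i with
    | zero => exact ⟨(hf k0).2.1, (hf k0).2.2.1⟩
    | succ i => rw [hs]; exact ⟨(hf _).2.1, (hf _).2.2.1⟩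
  refine ⟨ks, h0, hm, fun i j hij => ?_⟩
  have h1 : ks (i + 1) ≤ ks j := hm hij
  have h2 := (hf (ks i)).2.2.2
  rw [← hs] at h2
  refine le_trans (one_div_le_one_div_of_le ?_ (Real.sqrt_le_sqrt (by exact_mod_cast h1))) h2
  exact Real.sqrt_pos.2 (by exact_mod_cast (h0 (i + 1)).2.2)

open Classical in
theorem pigeon {α : Type} (G : Finset α) (Bad : α → Finset ℝ) (C1 I : ℕ) (hI : 0 < I)
    (hC : ∀ e ∈ G, (Bad e).card ≤ C1) (lo hi : ℕ → ℝ) (hd : ∀ i j, i < j → hi j ≤ lo i) :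
    ∃ i < I, I * (G.filter fun e => ¬ ∀ β ∈ Bad e, β ≤ lo i ∨ hi i < β).card ≤ C1 * G.card := by
  by_contra hc
  push Not at hc
  have h1 : ∑ i ∈ range I, (G.filter fun e => ¬ ∀ β ∈ Bad e, β ≤ lo i ∨ hi i < β).card ≤
      C1 * G.card := by
    simp_rw [card_filter]
    rw [sum_comm, mul_comm, ← smul_eq_mul]
    refine sum_le_card_nsmul _ _ _ fun e he => ?_
    rw [← card_filter]
    refine le_trans ?_ (hC e he)
    have : ∀ i ∈ (range I).filter fun i => ¬ ∀ β ∈ Bad e, β ≤ lo i ∨ hi i < β,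
        ∃ β ∈ Bad e, lo i < β ∧ β ≤ hi i := by
      intro i hi'
      have := (mem_filter.1 hi').2
      push Not at this
      exact this
    choose! g hg using this
    refine card_le_card_of_injOn g (fun i hi' => (hg i hi').1) fun i hi' j hj' e' => ?_
    have a1 := (hg i hi').2
    have a2 := (hg j hj').2
    rcases lt_trichotomy i j with h | h | h
    · have := hd i j h; rw [e'] at a1; linarith [a1.1, a2.2]
    · exact h
    · have := hd j i h; rw [e'] at a1; linarith [a1.2, a2.1]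
  have h2 : ∑ _i ∈ range I, C1 * G.card <
      ∑ i ∈ range I, I * (G.filter fun e => ¬ ∀ β ∈ Bad e, β ≤ lo i ∨ hi i < β).card := by
    refine sum_lt_sum_of_nonempty (by simpa using hI.ne') fun i hi' => ?_
    have := hc i (mem_range.1 hi')
    simpa using this
  rw [sum_const, card_range, smul_eq_mul, ← mul_sum] at h2
  exact absurd (Nat.mul_le_mul_left I h1) (not_le.2 h2)

end Pool.Agent.Lib.BK2.Zones
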