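import Pool.Agent.Lib.BK2.ZGDefs
import Pool.Agent.Lib.BK2.Zones

/-! ZONE: the list of the `k` and the choice of a free zone. -/

open Finset

namespace Pool.Agent.Lib.BK2.Z17

theorem stZONE : St_ZONE := by
  intro C1 N k0 β η' hN hβ hη
  classical
  obtain ⟨ks, h1, -, h3⟩ := Zones.exists_list N k0 hN β hβ
  obtain ⟨I, hI⟩ := exists_nat_gt (C1 / η')
  have hI0 : (0 : ℝ) < I := lt_of_le_of_lt (by positivity) hI
  refine ⟨(range I).image ks, fun k hk => ?_, fun E G Bad hB => ?_⟩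
  · obtain ⟨i, -, rfl⟩ := mem_image.1 hk
    exact ⟨(h1 i).1, (h1 i).2.1⟩
  · obtain ⟨i, hi, h⟩ := Zones.pigeon G Bad C1 I (by exact_mod_cast hI0) hB (fun i => β (ks i))
      (fun i => 1 / Real.sqrt (ks i)) h3
    refine ⟨ks i, mem_image_of_mem _ (mem_range.2 hi), le_of_mul_le_mul_left ?_ hI0⟩
    have h4 : (C1 : ℝ) ≤ I * η' := ((div_lt_iff₀ hη).1 hI).le
    have h5 := mul_le_mul_of_nonneg_right h4 (Nat.cast_nonneg (α := ℝ) #G)
    rw [← mul_assoc]
    refine le_trans ?_ h5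
    exact_mod_cast h

end Pool.Agent.Lib.BK2.Z17
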