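import Pool.Agent.Lib.BK2.ZGDefs
import Pool.Agent.Lib.BK2.Zones

open Finset

namespace Pool.Agent.Lib.BK2

theorem stZONEh : St_ZONE := by
  intro C1 N k0 β η' hN hβ hη
  classical
  obtain ⟨ks, h1, -, h2⟩ := Zones.exists_list N k0 hN β hβ
  obtain ⟨I, hI⟩ := exists_nat_gt ((C1 : ℝ) / η')
  have hI0 : (0 : ℝ) < I := lt_of_le_of_lt (by positivity) hI
  refine ⟨(range I).image ks, fun k hk => ?_, fun E G Bad hB => ?_⟩
  · obtain ⟨i, -, rfl⟩ := mem_image.1 hk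
    exact ⟨(h1 i).1, (h1 i).2.1⟩
  · obtain ⟨i, hi, h⟩ := Zones.pigeon G Bad C1 I (by exact_mod_cast hI0) hB (fun i => β (ks i))
      (fun i => 1 / Real.sqrt (ks i)) h2
    refine ⟨ks i, mem_image_of_mem _ (mem_range.2 hi), ?_⟩
    have h' := (Nat.cast_le (α := ℝ)).2 h
    push_cast at h'
    rw [div_lt_iff₀ hη] at hI
    refine le_of_mul_le_mul_left (h'.trans ?_) hI0
    rw [← mul_assoc]
    exact mul_le_mul_of_nonneg_right hI.le (Nat.cast_nonneg _)

end Pool.Agent.Lib.BK2
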