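import Pool.Agent.Lib.BK2.ZWIN
import Pool.Agent.Lib.BK2.ZCNT

/-! ZSM: second moment of test functions on the window points of a section. -/

open Polynomial Finset
open scoped Classical

namespace Pool.Agent.Lib.BK2

open ZCNT ZWIN in
theorem stZSMh (hM : St_MODP) : St_ZSM := by
  intro B _ _ _ d _ Γ m hm H Xs hW hb a cl s Q η hQ hc hη hr hT hs g
  have hb0 : 0 < mbar Xs := by linarith
  have eS : zcell a s Q cl = {v ∈ BOX.box a (fun _ => s) | red _ Q v = red _ Q cl} :=
    Finset.ext fun w => by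
      rw [mem_filter, ← inC_iff, zcell, InC]
      simp only [mem_filter, Fintype.mem_piFinset, mem_Ico]
  have hpw : ∀ x : Pt B, pwb Xs x = pmu Xs x / x.p := fun x => by
    rw [pwb, pmu, div_div, mul_assoc, sq]
  have hw : ∀ x : Pt B, 0 < pmu Xs x / x.p := fun x => div_pos (pmu_pos hb0 x) (p_pos x)
  have h3 := SM.sm (red _ Q) hQ (red_exp Q) Xs Pt.p (ev Γ m) (fun x _ => (prime x).two_le)
    (fun x hx => (hc x hx).symm) (fun x _ => ev_surj Γ m x)
    (fun x _ y _ hne => ev_surj_two Γ m ((hM B d Γ).2.2.2.1 m (by omega) (by omega)) hne) a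
    (s := fun _ => s) (η := η) (fun x hx y hy _ => le_trans (mul_le_mul_of_nonneg_left (by
      rw [show winT H ^ 4 = winT H ^ 2 * winT H ^ 2 by ring]
      exact mul_le_mul ((hW x).1 hx).2 ((hW y).1 hy).2 (p_pos y).le (sq_nonneg _))
      (Nat.cast_nonneg _)) hs) hη.le hr cl fun x => pmu Xs x * g x
  rw [← eS] at h3
  refine le_trans (le_of_eq (sum_congr rfl fun w _ => congrArg (· ^ 2) ?_))
    (h3.trans (mul_le_mul_of_nonneg_left ?_ (Nat.cast_nonneg _)))
  · rw [sum_filter, ← sum_sub_distrib]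
    refine sum_congr rfl fun x _ => ?_
    rw [hpw]
    by_cases h : x.On (Γ.el w)
    · rw [if_pos h, if_pos ((ev_iff Γ m x w).1 h)]
      ring
    · rw [if_neg h, if_neg fun e => h ((ev_iff Γ m x w).2 e)]
      ring
  · simp only [hpw]
    have h1 : ∑ x ∈ Xs, (pmu Xs x * g x) ^ 2 / x.p ≤
        2 / winT H * ∑ x ∈ Xs, pmu Xs x / x.p * g x ^ 2 := by
      rw [mul_sum]
      refine sum_le_sum fun x hx => ?_
      rw [show (pmu Xs x * g x) ^ 2 / x.p = pmu Xs x * (pmu Xs x / x.p * g x ^ 2) by ring]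
      refine mul_le_mul_of_nonneg_right ?_ (mul_nonneg (hw x).le (sq_nonneg _))
      have h1 := ((hW x).1 hx).1
      have := p_pos x
      rw [pmu, div_le_div_iff₀ (by positivity) (by linarith)]
      nlinarith
    have h2 : (∑ x ∈ Xs, |pmu Xs x * g x| / x.p) ^ 2 ≤ ∑ x ∈ Xs, pmu Xs x / x.p * g x ^ 2 := by
      have := sum_sq_le_sum_mul_sum_of_sq_le_mul Xs (r := fun x => |pmu Xs x * g x| / x.p)
        (f := fun x => pmu Xs x / x.p) (g := fun x => pmu Xs x / x.p * g x ^ 2)
        (fun x _ => (hw x).le) (fun x _ => mul_nonneg (hw x).le (sq_nonneg _))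
        fun x _ => le_of_eq (by rw [div_pow, sq_abs]; ring)
      rwa [sum_pw hb0, one_mul] at this
    have h4 : 0 ≤ Fintype.card (Γ.Ix m) * η := by positivity
    have h5 := mul_le_mul_of_nonneg_left h2 h4
    have h6 := mul_nonneg h4 ((sq_nonneg _).trans h2)
    rw [add_mul, show 4 / winT H = 2 * (2 / winT H) by ring]
    linarith

end Pool.Agent.Lib.BK2
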