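import Pool.Agent.Lib.BK2.ZZA
import Pool.Agent.Lib.BK2.RDefs0

/-! BK2, final assembly: the order of the constants and the contradiction. -/

open Polynomial Finset
open scoped Classical

noncomputable section

namespace Pool.Agent.Lib.BK2

theorem ZZ.main (hR : St_R0) (hZE : St_ZE) (hZG : St_ZG) (hLAW : St_ZLAW) (hZONE : St_ZONE)
    (hPAR : St_ZPAR) (hZF : St_ZF) (hS : St_S) (hK : St_K) (hAP : St_AP)
    {L : Type} [Field L] [Algebra ℚ L] {n : ℕ} {y : Fin (n + 1) → L}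
    {B : Type} [CommRing B] [IsDomain B] [Algebra ℤ[X] B] {d : ℕ} [NeZero d] (Γ : Geo B d)
    (μ : Γ.Model y) (hM : Γ.Mert) (hI : Γ.Irr0) (ω) (hω : RegForm y ω) (ι : Type) [Fintype ι]
    (γ : ι → Loop y) (a : ι → ℝ)
    (hreg : ∀ s : List (Lˣ × Lˣ), Integral s → (∀ l, Avoids s (γ l)) →
      ∑ l, a l * reg s (γ l) = 0) :
    ∑ l, a l * (period ω (γ l)).im = 0 := by
  by_contra hne
  have hd : 0 < d := Nat.pos_of_ne_zero (NeZero.ne d)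
  obtain ⟨m₁, hR⟩ := hR L n y B d Γ μ ι γ a ω hω hne hI
  obtain ⟨mI, hI⟩ := hI
  obtain ⟨KG, hZG⟩ := hZG B d Γ hM
  obtain ⟨hwin, HL, hLAW⟩ := hLAW B d Γ hM
  obtain ⟨m, hm1, hm2, hm3, hm7, hm5, hm6⟩ : ∃ m : ℕ, m₁ ≤ m ∧ mI ≤ m ∧ μ.m₀ ≤ m ∧
      Γ.dmax + 2 ≤ m ∧ d ≤ m ∧ Even m :=
    ⟨2 * (m₁ + mI + μ.m₀ + Γ.dmax + 1 + d), by omega, by omega, by omega, by omega, by omega,
      even_two_mul _⟩
  have hm4 : Γ.dmax + 1 ≤ m := by omega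
  obtain ⟨ν, U, ρ, o, s, hs, hU, hoff, m₂, hR⟩ := hR m hm1 hm6
  obtain ⟨C1, P0, KE, hC1, hKE, hZE⟩ := hZE B d Γ m ν U ρ o s (by omega) hU (1 / 200) KG
    (by norm_num)
  have hN : 0 < C1.factorial := Nat.factorial_pos C1
  obtain ⟨m1, m', hm', h1, h2, h3, h4⟩ : ∃ m1 m' : ℕ, m' = C1.factorial * m1 ∧
      m * d + Γ.dmax + 1 ≤ m1 ∧ m₂ ≤ m' ∧ 2 * m ≤ m' ∧ Even m' := by
    have := Nat.le_mul_of_pos_left (2 * (m * d + Γ.dmax + 1 + m₂ + m)) hN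
    exact ⟨2 * (m * d + Γ.dmax + 1 + m₂ + m), _, rfl, by omega, by omega, by omega,
      (even_two_mul _).mul_left _⟩
  obtain ⟨ν', U', ρ', o', s', hs', hU', hoff', hnz, c1, c2, c3, i1, i2, hno⟩ := hR m' h2 h4
  have hsub : rcube o s ×ˢ rcube o' s' ⊆ rcube o s ×ˢ U' :=
    Set.prod_mono le_rfl ((ZZ.rcube_sub o' s' hs').trans hU')
  obtain ⟨ε₀, r₀, c₁, hε₀, hr₀, hc₁, hAP⟩ := ZZ.apc hAP o s o' s' hs hs' (fun e w => ρ.lam e w)
    (fun w e => ρ'.lam w e) (fun e w => μ.Phi γ a e w) (c1.mono hsub) (c2.mono hsub)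
    (c3.mono hsub) i1 i2 hno
  obtain ⟨kE, β0, ck, hβ0, hck, hZE⟩ := hZE m1 m' ν' U' ρ' _ _ h1 hm' hU'
    fun e he w hw => (hnz e he w hw).1
  obtain ⟨K, kF, hZF⟩ := hZF B d Γ m m' ν ν' U U' ρ ρ' (fun e w => μ.Phi γ a e w) o s o' s' hm4 h3
    hs hs' hU hU' c1 c2 c3
  obtain ⟨KS, hKS, hS⟩ := hS K c₁ hc₁
  have hdW := ZZ.dns_pos (Fintype.card (Γ.Ix m')) hs' hr₀
  have hdE := ZZ.dns_pos (Fintype.card (Γ.Ix m)) hs hr₀
  obtain ⟨k1, hk1⟩ := ZZ.kev KS ε₀ (min (1 / 100) (dns (Fintype.card (Γ.Ix m')) s' r₀)) hKS hε₀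
    (lt_min (by norm_num) hdW)
  have hstep := fun (k : ℕ) (hk : k1 ≤ k) =>
    hZF _ (Real.exp_pos (-Real.sqrt k / 8)) ((hk1 k hk).2.2.2.trans (min_le_left _ _))
  choose nb ec hZF using hstep
  have hstep := fun (k : ℕ) (hk : k1 ≤ k) =>
    hS k (nb k hk) _ (hk1 k hk).1 (Real.exp_pos (-Real.sqrt k / 8)) (hk1 k hk).2.2.1
  choose del hdel hdle hS using hstep
  obtain ⟨β, hβ, hβ1, hβ2⟩ : ∃ β : ℕ → ℝ, (∀ k, 0 < β k) ∧ (∀ k, β k ≤ β0 k) ∧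
      ∀ k (hk : k1 ≤ k), 2 * β k ≤ (del k hk / KE) ^ 2 := by
    refine ⟨fun k => if hk : k1 ≤ k then min (β0 k) ((del k hk / KE) ^ 2 / 2) else β0 k,
      fun k => ?_, fun k => ?_, fun k hk => ?_⟩
    · beta_reduce
      split_ifs with hk
      · have := hdel k hk
        exact lt_min (hβ0 k) (by positivity)
      · exact hβ0 k
    · beta_reduce
      split_ifs with hk
      · exact min_le_left _ _
      · exact le_rfl
    · simp only [dif_pos hk]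
      linarith [min_le_right (β0 k) ((del k hk / KE) ^ 2 / 2)]
  obtain ⟨Ks, hKs, hZONE⟩ := hZONE C1 C1.factorial (k1 + kE + kF + 20 * (m' * d + 4 * (m * d))) β
    (dns (Fintype.card (Γ.Ix m)) s r₀ / 2) hN hβ (by positivity)
  have hKs1 : ∀ k ∈ Ks, k1 ≤ k := fun k hk => by have := (hKs k hk).1; omega
  obtain ⟨P, hP0, hP⟩ : ∃ P : ℕ, P0 ≤ P ∧ ∀ k ∈ Ks, 3 * k ≤ P :=
    ⟨P0 + 3 * Ks.sup id, by omega, fun k hk => by
      have : k ≤ Ks.sup id := Finset.le_sup (f := id) hk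
      omega⟩
  obtain ⟨η, hη, hη1, hη2⟩ : ∃ η : ℝ, 0 < η ∧ η ≤ 1 / 40000 ∧ ∀ k ∈ Ks, η ≤ β k := by
    by_cases hne : Ks.Nonempty
    · obtain ⟨k, -, hk⟩ := Ks.exists_min_image β hne
      exact ⟨min (1 / 40000) (β k), lt_min (by norm_num) (hβ k), min_le_left _ _,
        fun j hj => (min_le_right _ _).trans (hk j hj)⟩
    · exact ⟨1 / 40000, by norm_num, le_rfl, fun j hj => absurd ⟨j, hj⟩ hne⟩
  obtain ⟨Q, hQ, hZG⟩ := hZG m hm4 hm5 (dns (Fintype.card (Γ.Ix m)) s r₀ / 2) (by positivity)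
  obtain ⟨M0, e0, hM0, hQM, hirr⟩ := hI m hm2 Q hQ
  obtain ⟨R, -, hPAR⟩ := hPAR (Γ.Ix m) o s hs
  obtain ⟨Y0, HG, hZG⟩ := hZG M0 e0 hM0 hQM hirr R (s / 2) η P (by positivity) hη
  obtain ⟨HP, hPAR⟩ := hPAR r₀ 0 M0 Y0 e0 hr₀ hM0
  obtain ⟨HE, hZE⟩ := hZE P 5 η (1 / 8) hP0 hη (by norm_num)
  have hstep := fun (k : ℕ) (hk : k1 ≤ k) => hZF k hk (del k hk) (ck k) r₀ M0 C1.factorial e0
    (hdel k hk) (hdle k hk) (hck k) hr₀ hM0 hN
  choose HF hZF using hstep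
  obtain ⟨H, hH1, hHL, hHG, hHP, hHE, hHF⟩ : ∃ H : ℕ, 1 ≤ H ∧ HL ≤ H ∧ HG ≤ H ∧ HP ≤ H ∧ HE ≤ H ∧
      ∀ k (hk : k ∈ Ks), HF k (hKs1 k hk) ≤ H :=
    ⟨1 + HL + HG + HP + HE + Ks.attach.sup fun k => HF k (hKs1 k k.2), by omega, by omega,
      by omega, by omega, by omega, fun k hk => by
        have : HF k (hKs1 k hk) ≤ Ks.attach.sup fun k => HF k (hKs1 k k.2) :=
          Finset.le_sup (f := fun k : Ks => HF k (hKs1 k k.2)) (Finset.mem_attach _ ⟨k, hk⟩)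
        omega⟩
  have hH0 : (0 : ℝ) < H := by exact_mod_cast hH1
  obtain ⟨p1, -, p3, p4, p5, -, p7, p8, -, -, -, p12, -, p14, p15⟩ := hPAR H hHP
  obtain ⟨Xs, hXs⟩ := hwin H
  obtain ⟨l1, l2, l3⟩ := hLAW H hHL Xs hXs
  obtain ⟨hEne, hbad⟩ := hZG H hHG (zY H) p7 p8.le Xs hXs (fun i => ⌈o i * H⌉) ⌊s * H⌋₊ p12
    fun e he => (p14 e he).1
  obtain ⟨w0, hZE⟩ := hZE H hHE (zY H) (zL M0 H) p1 p3 p4 p5 Xs hXs (by linarith) l3
  change (zE o s M0 e0 H).Nonempty at hEne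
  change ((#{e ∈ zE o s M0 e0 H | ¬ GoodE Γ H Xs η KG (zY H) P e} : ℕ) : ℝ) ≤
    _ * #(zE o s M0 e0 H) at hbad
  generalize hE : zE o s M0 e0 H = E at *
  have hstep := fun (e : Γ.Ix m → ℤ) (he : e ∈ E.filter fun e => GoodE Γ H Xs η KG (zY H) P e) =>
    hZE e (p14 e (mem_filter.1 he).1).2 (mem_filter.1 he).2
  choose! Bad hBad hZE using hstep
  obtain ⟨k, hk, hfree⟩ := hZONE _ (E.filter fun e => GoodE Γ H Xs η KG (zY H) P e) Bad hBad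
  have hk0 := (hKs k hk).1
  have hkk := hKs1 k hk
  obtain ⟨H', hH', hH4, hsc⟩ := ZZ.scale H Xs _ l3 hH1 (m * d) (m' * d) k
    (Nat.mul_pos (by omega) hd) (by omega)
  obtain ⟨G, hG⟩ : ∃ G : Finset (Γ.Ix m → ℤ), G = (E.filter fun e =>
      GoodE Γ H Xs η KG (zY H) P e).filter fun e => ∀ b ∈ Bad e, b ≤ β k ∨ 1 / Real.sqrt k < b :=
    ⟨_, rfl⟩
  have hGm : ∀ e ∈ G, e ∈ (E.filter fun e => GoodE Γ H Xs η KG (zY H) P e) ∧
      ∀ b ∈ Bad e, b ≤ β k ∨ 1 / Real.sqrt k < b := fun e he => by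
    rw [hG] at he; exact mem_filter.1 he
  have hGE : G ⊆ E := fun e he => (mem_filter.1 (hGm e he).1).1
  have hcard : (#E : ℝ) - #G ≤ dns (Fintype.card (Γ.Ix m)) s r₀ * #E := by
    have a1 := card_filter_add_card_filter_not (s := E) fun e => GoodE Γ H Xs η KG (zY H) P e
    have a2 := card_filter_add_card_filter_not
      (s := E.filter fun e => GoodE Γ H Xs η KG (zY H) P e)
      fun e => ∀ b ∈ Bad e, b ≤ β k ∨ 1 / Real.sqrt k < b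
    rw [← hG] at a2
    have a3 : (#(E.filter fun e => GoodE Γ H Xs η KG (zY H) P e) : ℝ) ≤ #E := by
      exact_mod_cast card_filter_le _ _
    have a4 := mul_le_mul_of_nonneg_left a3 (show 0 ≤ dns (Fintype.card (Γ.Ix m)) s r₀ / 2 by
      positivity)
    have a1' := congrArg (Nat.cast : ℕ → ℝ) a1
    have a2' := congrArg (Nat.cast : ℕ → ℝ) a2
    push_cast at a1' a2'
    linarith
  have hE0 : (0 : ℝ) < #E := by exact_mod_cast hEne.card_pos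
  have hE2 : (#E : ℝ) ≤ 2 * #G := by
    have := mul_le_mul_of_nonneg_right (ZZ.dns_le (Fintype.card (Γ.Ix m)) hs hr₀) hE0.le
    linarith
  have hGne : G.Nonempty := by
    rw [← card_pos]
    have : (0 : ℝ) < #G := by linarith
    exact_mod_cast this
  have hGc : ∀ e ∈ G, scl H e ∈ rcube o s := fun e he => (p14 e (hGE he)).2
  have hGd := p15 G hGE hcard
  have hstep := fun (e : Γ.Ix m → ℤ) (he : e ∈ G) => hZE e (hGm e he).1 k (β k) (by omega)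
    (hKs k hk).2 (hP k hk) (hβ k) (hβ1 k) ((hη2 k hk).trans (hβ1 k)) (hGm e he).2 H' hH'
    (by exact_mod_cast hsc)
  choose! Maj κ spl Z z1 z2 z3 z4 using hstep
  obtain ⟨W, Wp, aW, sp, hWne, hWc, hWd, hZF⟩ :=
    hZF k hkk H (hHF k hk) Xs hXs l1 l2 l3 w0 H' hH4
  have hmass : KE * Real.sqrt (β k + η) ≤ del k hkk := by
    have b1 := hβ2 k hkk
    have b2 := hη2 k hk
    have b3 := hdel k hkk
    have : Real.sqrt (β k + η) ≤ del k hkk / KE :=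
      Real.sqrt_le_iff.2 ⟨by positivity, by linarith⟩
    rwa [le_div_iff₀' hKE] at this
  have hgram := (hAP H H' G W hGne hWne hGc (fun w hw => (hWc w hw).1) hGd
    (hWd W subset_rfl (by rw [sub_self]; positivity))).1
  have hHyp := hZF k P η KG c₁ G Maj κ spl Z (by omega) (by have := hP k hk; omega) le_rfl hη1 hc₁
    (hE ▸ hGE) (by rw [hE]; exact_mod_cast hE2)
    (fun e he => ⟨(mem_filter.1 (hGm e he).1).2, z1 e he, (z2 e he).trans hmass, z3 e he, z4 e he⟩)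
    hgram
  obtain ⟨c, c', C, C', hsol⟩ := hK L n y B d Γ μ ι γ a m m' ν ν' U U' ρ ρ' hm3 hm4 h3 hoff hoff'
    hreg H H' hH0 hH' ((G ×ˢ W).filter fun q => spl q.1 q.2) Z fun q hq => by
      obtain ⟨hq1, hq2⟩ := mem_filter.1 hq
      obtain ⟨he, hw⟩ := mem_product.1 hq1
      exact ⟨hU (hGc _ he), hU' (hWc _ hw).2.1,
        (z4 _ he).split _ hq2 (hWc _ hw).2.2 (hWc _ hw).2.1⟩
  obtain ⟨Wa, D, D', hWa, hWl, hperp, hres⟩ := hS k hkk _ rfl le_rfl hHyp ⟨c, c', C, C'⟩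
    fun e he w hw hom => by
      have hsp : spl e w := by
        by_contra hn
        exact hom (if_neg hn)
      have := hsol (e, w) (mem_filter.2 ⟨mem_product.2 ⟨he, hw⟩, hsp⟩)
      change ∑ x ∈ Z e w, c e x - ∑ x ∈ Z e w, c' w x +
        (∑ i, C e i * ρ.lam (scl H e) (scl H' w) i - ∑ i, C' w i * ρ'.lam (scl H' w) (scl H e) i -
          μ.Phi γ a (scl H e) (scl H' w)) = 0
      simp only at this
      linarith
  rw [card_sdiff_of_subset hWa, Nat.cast_sub (card_le_card hWa)] at hWl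
  change Wa ⊆ W at hWa
  obtain ⟨-, q2, -, q4⟩ := hk1 k hkk
  have hW0 : (0 : ℝ) < #W := by exact_mod_cast hWne.card_pos
  have hWl' : (#W : ℝ) - #Wa ≤ dns (Fintype.card (Γ.Ix m')) s' r₀ * #W := by
    have a1 : (#W : ℝ) - #Wa ≤ Real.exp (-Real.sqrt k / 8) * #W := hWl
    exact a1.trans (mul_le_mul_of_nonneg_right (q4.trans (min_le_right _ _)) hW0.le)
  have hWane : Wa.Nonempty := by
    rw [← card_pos]
    have := mul_le_mul_of_nonneg_right (ZZ.dns_le (Fintype.card (Γ.Ix m')) hs' hr₀) hW0.le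
    have : (0 : ℝ) < #Wa := by linarith
    exact_mod_cast this
  have hfin := (hAP H H' G Wa hGne hWane hGc (fun w hw => (hWc w (hWa hw)).1) hGd
    (hWd Wa hWa hWl')).2 D D' fun F F' hF =>
      hperp (fun e => F (scl H e)) (fun w => F' (scl H' w)) fun e he w hw =>
        hF _ (hGc e he) _ (hWc w hw).1
  have hpos : 0 ≤ ((∑ w ∈ Wa, ∑ j, D' w j ^ 2) + #Wa) * (#G : ℝ) := by positivity
  have := mul_le_mul_of_nonneg_right q2 hpos
  have h5 := hfin.trans_le hres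
  change ε₀ * ((∑ w ∈ Wa, ∑ j, D' w j ^ 2) + #Wa) * #G <
    KS / k * ((∑ w ∈ Wa, ∑ j, D' w j ^ 2) + #Wa) * #G at h5
  linarith

end Pool.Agent.Lib.BK2
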