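import Pool.Agent.Lib.BK2.ZFStmt

/-! BK2, final assembly: auxiliary lemmas. -/

open Polynomial Finset Filter Topology
open scoped Classical

noncomputable section

namespace Pool.Agent.Lib.BK2.ZZ

theorem kev (KS ε δ : ℝ) (hK : 1 ≤ KS) (hε : 0 < ε) (hδ : 0 < δ) : ∃ k1 : ℕ, ∀ k : ℕ, k1 ≤ k →
    KS ≤ k ∧ KS / k ≤ ε ∧ KS * (k : ℝ) ^ 8 * Real.exp (-Real.sqrt k / 8) ≤ 1 ∧
      Real.exp (-Real.sqrt k / 8) ≤ δ := by
  have hu : Tendsto (fun k : ℕ => Real.sqrt k / 8) atTop atTop :=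
    (Real.tendsto_sqrt_atTop.comp tendsto_natCast_atTop_atTop).atTop_div_const (by norm_num)
  have h1 : Tendsto (fun k : ℕ => KS * (64 : ℝ) ^ 8 *
      ((Real.sqrt k / 8) ^ 16 * Real.exp (-(Real.sqrt k / 8)))) atTop (𝓝 (KS * (64 : ℝ) ^ 8 * 0)) :=
    ((Real.tendsto_pow_mul_exp_neg_atTop_nhds_zero 16).comp hu).const_mul _
  have h2 : Tendsto (fun k : ℕ => Real.exp (-(Real.sqrt k / 8))) atTop (𝓝 0) :=
    Real.tendsto_exp_neg_atTop_nhds_zero.comp hu
  rw [mul_zero] at h1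
  have e1 := h1.eventually (ge_mem_nhds (show (0 : ℝ) < 1 by norm_num))
  have e2 := h2.eventually (ge_mem_nhds hδ)
  have e3 := (tendsto_natCast_atTop_atTop (R := ℝ)).eventually_ge_atTop (KS + KS / ε)
  obtain ⟨k1, h⟩ := eventually_atTop.1 (e1.and (e2.and e3))
  refine ⟨k1, fun k hk => ?_⟩
  obtain ⟨a1, a2, a3⟩ := h k hk
  have hp : 0 < KS / ε := by positivity
  have hk0 : (0 : ℝ) < k := by linarith
  refine ⟨by linarith, ?_, ?_, by rwa [neg_div]⟩
  · rw [div_le_iff₀ hk0]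
    have : KS / ε ≤ k := by linarith
    rw [div_le_iff₀ hε] at this
    linarith
  · have hs : (k : ℝ) = 64 * (Real.sqrt k / 8) ^ 2 := by
      rw [div_pow, Real.sq_sqrt hk0.le]; ring
    have : (k : ℝ) ^ 8 = 64 ^ 8 * (Real.sqrt k / 8) ^ 16 := by
      conv_lhs => rw [hs]
      rw [mul_pow, ← pow_mul]
    rw [this, neg_div]
    linarith

theorem rcube_compact {I : Type} (o : I → ℝ) (s : ℝ) : IsCompact (rcube o s) := by
  have : rcube o s = Set.pi Set.univ fun i => Set.Icc (o i) (o i + s) := by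
    ext v; simp [rcube]
    exact ⟨fun h => ⟨fun i => (h i).1, fun i => (h i).2⟩, fun h i => ⟨h.1 i, h.2 i⟩⟩
  rw [this]
  exact isCompact_univ_pi fun i => isCompact_Icc

theorem rcube_sub {I : Type} (o : I → ℝ) (s : ℝ) (hs : 0 < s) :
    rcube o s ⊆ rcube (fun i => o i - 2 * s) (5 * s) := by
  intro v hv i
  have := hv i
  constructor <;> linarith [this.1, this.2]

theorem dns_pos (n : ℕ) {s r : ℝ} (hs : 0 < s) (hr : 0 < r) : 0 < dns n s r := by
  unfold dns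
  have := lt_min hr hs
  positivity

theorem dns_le (n : ℕ) {s r : ℝ} (hs : 0 < s) (hr : 0 < r) : dns n s r ≤ 1 / 2 := by
  unfold dns
  have h0 := lt_min hr hs
  have h1 : min r s / (16 * s) ≤ 1 := by
    rw [div_le_one (by positivity)]
    linarith [min_le_right r s]
  have := pow_le_one₀ (n := n) (by positivity) h1
  linarith

/-- The approximation lemma for finite sets of integer vectors in two cubes. -/
theorem apc (hAP : St_AP) {I J O O' : Type} [Fintype I] [Fintype J] [Fintype O] [Fintype O']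
    (o : I → ℝ) (s : ℝ) (o' : J → ℝ) (s' : ℝ) (hs : 0 < s) (hs' : 0 < s')
    (lam : (I → ℝ) → (J → ℝ) → O → ℝ) (lam' : (J → ℝ) → (I → ℝ) → O' → ℝ)
    (Φ : (I → ℝ) → (J → ℝ) → ℝ)
    (c1 : ContinuousOn (fun q : (I → ℝ) × (J → ℝ) => lam q.1 q.2) (rcube o s ×ˢ rcube o' s'))
    (c2 : ContinuousOn (fun q : (I → ℝ) × (J → ℝ) => lam' q.2 q.1) (rcube o s ×ˢ rcube o' s'))
    (c3 : ContinuousOn (fun q : (I → ℝ) × (J → ℝ) => Φ q.1 q.2) (rcube o s ×ˢ rcube o' s'))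
    (i1 : ∀ e ∈ rcube o s, ∀ C : O → ℝ, (∀ w ∈ rcube o' s', ∑ j, C j * lam e w j = 0) → C = 0)
    (i2 : ∀ w ∈ rcube o' s', ∀ C : O' → ℝ, (∀ e ∈ rcube o s, ∑ j, C j * lam' w e j = 0) → C = 0)
    (hno : ¬ ∃ (C : (I → ℝ) → O → ℝ) (C' : (J → ℝ) → O' → ℝ), ∀ e ∈ rcube o s, ∀ w ∈ rcube o' s',
      ∑ j, C e j * lam e w j - ∑ j, C' w j * lam' w e j = Φ e w) :
    ∃ ε₀ r₀ c₁ : ℝ, 0 < ε₀ ∧ 0 < r₀ ∧ 0 < c₁ ∧
      ∀ (H H' : ℝ) (G : Finset (I → ℤ)) (V : Finset (J → ℤ)), G.Nonempty → V.Nonempty →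
      (∀ e ∈ G, scl H e ∈ rcube o s) → (∀ w ∈ V, scl H' w ∈ rcube o' s') →
      DenseIn o s r₀ H G → DenseIn o' s' r₀ H' V →
      (∀ e ∈ G, ∀ C : O → ℝ, c₁ * (∑ j, C j ^ 2) * #V ≤
        ∑ w ∈ V, (∑ j, C j * lam (scl H e) (scl H' w) j) ^ 2) ∧
      ∀ (C : (I → ℤ) → O → ℝ) (C' : (J → ℤ) → O' → ℝ),
        (∀ (D : (I → ℝ) → O → ℝ) (D' : (J → ℝ) → O' → ℝ),
          (∀ e ∈ rcube o s, ∀ w ∈ rcube o' s', ∑ j, D e j * lam e w j = ∑ j, D' w j * lam' w e j) →
          ∑ w ∈ V, ∑ j, C' w j * D' (scl H' w) j = 0) →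
        ε₀ * ((∑ w ∈ V, ∑ j, C' w j ^ 2) + #V) * #G <
          ∑ e ∈ G, ∑ w ∈ V, (∑ j, C e j * lam (scl H e) (scl H' w) j -
            ∑ j, C' w j * lam' (scl H' w) (scl H e) j - Φ (scl H e) (scl H' w)) ^ 2 := by
  have : CompactSpace (rcube o s) := isCompact_iff_compactSpace.1 (rcube_compact o s)
  have : CompactSpace (rcube o' s') := isCompact_iff_compactSpace.1 (rcube_compact o' s')
  have hc : Continuous fun q : rcube o s × rcube o' s' => ((q.1 : I → ℝ), (q.2 : J → ℝ)) := by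
    fun_prop
  have hm : ∀ q : rcube o s × rcube o' s',
      ((q.1 : I → ℝ), (q.2 : J → ℝ)) ∈ rcube o s ×ˢ rcube o' s' := fun q => ⟨q.1.2, q.2.2⟩
  obtain ⟨ε₀, r₀, c₁, h1, h2, h3, h⟩ := hAP (rcube o s) (rcube o' s') O O'
    (fun e w => lam e w) (fun w e => lam' w e) (fun e w => Φ e w)
    (c1.comp_continuous hc hm) (c2.comp_continuous hc hm) (c3.comp_continuous hc hm)
    (fun e C hC => i1 e e.2 C fun w hw => hC ⟨w, hw⟩)
    (fun w C hC => i2 w w.2 C fun e he => hC ⟨e, he⟩)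
    (by
      rintro ⟨C, C', hC⟩
      refine hno ⟨fun e => if he : e ∈ rcube o s then C ⟨e, he⟩ else 0,
        fun w => if hw : w ∈ rcube o' s' then C' ⟨w, hw⟩ else 0, fun e he w hw => ?_⟩
      simp only [dif_pos he, dif_pos hw]
      exact hC ⟨e, he⟩ ⟨w, hw⟩)
    (fun r => min (dns (Fintype.card I) s r) (dns (Fintype.card J) s' r))
    (fun r hr => lt_min (dns_pos _ hs hr) (dns_pos _ hs' hr))
  refine ⟨ε₀, r₀, c₁, h1, h2, h3, fun H H' G V hG hV mG mV dG dV => ?_⟩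
  have : Nonempty G := hG.to_subtype
  have : Nonempty V := hV.to_subtype
  obtain ⟨g1, -, g3⟩ := h G V (fun g => ⟨scl H g, mG g g.2⟩) (fun v => ⟨scl H' v, mV v v.2⟩)
    (fun r hr e => le_trans (mul_le_mul_of_nonneg_right (min_le_left _ _) (Nat.cast_nonneg _))
      (dG _ (fun _ => rfl) r hr e))
    (fun r hr w => le_trans (mul_le_mul_of_nonneg_right (min_le_right _ _) (Nat.cast_nonneg _))
      (dV _ (fun _ => rfl) r hr w))
  constructor
  · intro e he C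
    have := g1 ⟨scl H e, mG e he⟩ C
    rw [Fintype.card_coe, Finset.sum_coe_sort V
      (fun w => (∑ j, C j * lam (scl H e) (scl H' w) j) ^ 2)] at this
    exact this
  · intro C C' hp
    have := g3 (fun g => C g) (fun v => C' v) fun D D' hD => by
      have := hp (fun e => if he : e ∈ rcube o s then D ⟨e, he⟩ else 0)
        (fun w => if hw : w ∈ rcube o' s' then D' ⟨w, hw⟩ else 0) fun e he w hw => by
          simp only [dif_pos he, dif_pos hw]
          exact hD ⟨e, he⟩ ⟨w, hw⟩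
      rw [← Finset.sum_coe_sort V] at this
      rw [← this]
      exact Finset.sum_congr rfl fun v _ => by simp only [dif_pos (mV v v.2)]
    rw [Fintype.card_coe, Fintype.card_coe,
      Finset.sum_coe_sort V (fun w => ∑ j, C' w j ^ 2)] at this
    rw [← Finset.sum_coe_sort G]
    refine this.trans_le (le_of_eq (Finset.sum_congr rfl fun g _ => ?_))
    exact Finset.sum_coe_sort V fun w => (∑ j, C g j * lam (scl H g) (scl H' w) j -
      ∑ j, C' w j * lam' (scl H' w) (scl H g) j - Φ (scl H g) (scl H' w)) ^ 2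

/-- The scale of the second family. -/
theorem scale {B : Type} [CommRing B] (H : ℕ) (Xs : Finset (Pt B)) (c0 : ℝ)
    (hL : Law Xs (pwb Xs) (pa H) c0) (hH : 1 ≤ H) (n n' k : ℕ) (hn : 0 < n)
    (hk : 20 * (n' + 4 * n) ≤ k) : ∃ H' : ℝ, 0 < H' ∧ (H : ℝ) ^ 4 ≤ H' ∧
      n * Real.log H' + n' * Real.log H = cen H Xs k * Real.log (winT H) := by
  have hH1 : (1 : ℝ) ≤ H := by exact_mod_cast hH
  have hn' : (0 : ℝ) < n := by exact_mod_cast hn
  have hl : 0 ≤ Real.log H := Real.log_nonneg hH1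
  have hT : Real.log (winT H) = 1 / 20 * Real.log H := by
    unfold winT
    rw [Real.log_rpow (by linarith)]
  have hc : (k : ℝ) ≤ cen H Xs k := by
    unfold cen
    have : 1 ≤ ∑ x ∈ Xs, pwb Xs x * pa H x := by
      rw [← hL.one]
      exact Finset.sum_le_sum fun x hx => le_mul_of_one_le_right (hL.nn x hx) (hL.lo x hx)
    exact le_mul_of_one_le_right (Nat.cast_nonneg _) this
  have hk' : (20 : ℝ) * (n' + 4 * n) ≤ k := by exact_mod_cast hk
  refine ⟨Real.exp ((cen H Xs k * Real.log (winT H) - n' * Real.log H) / n), Real.exp_pos _, ?_, ?_⟩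
  · rw [← Real.exp_log (show (0 : ℝ) < (H : ℝ) ^ 4 by positivity), Real.exp_le_exp, Real.log_pow,
      le_div_iff₀ hn', hT]
    have : (20 : ℝ) * (n' + 4 * n) * Real.log H ≤ cen H Xs k * Real.log H :=
      mul_le_mul_of_nonneg_right (hk'.trans hc) hl
    push_cast
    linarith
  · rw [Real.log_exp]
    field_simp
    ring

end Pool.Agent.Lib.BK2.ZZ
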